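import Pool.Agent.Work.MP_3b24f6_gt.Model

/-!
# Surface measure of a smooth sublevel set, through volume integrals only

`E` a finite dimensional real inner product space, `w : E → ℝ` smooth, `{w ≤ 0}` compact, `0` a
regular value. We construct the measure `δ(w)`: a finite measure carried by `{w = 0}` with
`∫_{w<0} div Z = ∫ dw(Z) dδ(w)`.
-/

set_option autoImplicit false
set_option linter.unusedSectionVars false

open MeasureTheory Set Filter Topology
open scoped ContDiff CompactlySupported InnerProductSpace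

namespace Pool.Agent.Work.MP_3b24f6_gt

variable {E : Type*} [NormedAddCommGroup E] [InnerProductSpace ℝ E] [FiniteDimensional ℝ E]
  [MeasurableSpace E] [BorelSpace E]

omit [MeasurableSpace E] [BorelSpace E] in
theorem dl_divE_eq_sum (Z : E → E) (x : E) :
    divE Z x = ∑ i, inner ℝ (stdOrthonormalBasis ℝ E i)
      (fderiv ℝ Z x (stdOrthonormalBasis ℝ E i)) := by
  unfold divE tr
  rw [LinearMap.trace_eq_sum_inner _ (stdOrthonormalBasis ℝ E)]
  rfl

omit [MeasurableSpace E] [BorelSpace E] in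
theorem dl_divE_smul {φ : E → ℝ} {Z : E → E} {x : E} (hφ : DifferentiableAt ℝ φ x)
    (hZ : DifferentiableAt ℝ Z x) :
    divE (fun y => φ y • Z y) x = φ x * divE Z x + fderiv ℝ φ x (Z x) := by
  rw [dl_divE_eq_sum, dl_divE_eq_sum]
  have h1 : fderiv ℝ (fun y => φ y • Z y) x
      = φ x • fderiv ℝ Z x + (fderiv ℝ φ x).smulRight (Z x) := by
    exact (hφ.hasFDerivAt.smul hZ.hasFDerivAt).fderiv
  rw [h1]
  simp only [add_apply, smul_apply,
    ContinuousLinearMap.smulRight_apply, inner_add_right, inner_smul_right, Finset.sum_add_distrib,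
    ← Finset.mul_sum]
  congr 1
  have h2 := (stdOrthonormalBasis ℝ E).sum_repr' (Z x)
  conv_rhs => rw [← h2]
  rw [map_sum]
  refine Finset.sum_congr rfl fun i _ => ?_
  rw [map_smul, smul_eq_mul, mul_comm]

omit [MeasurableSpace E] [BorelSpace E] in
theorem dl_continuous_divE {Z : E → E} (hZ : ContDiff ℝ 1 Z) : Continuous (divE Z) := by
  have h := hZ.continuous_fderiv one_ne_zero
  have h2 : divE Z = fun x => ∑ i, inner ℝ (stdOrthonormalBasis ℝ E i)
      (fderiv ℝ Z x (stdOrthonormalBasis ℝ E i)) := by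
    funext x; exact dl_divE_eq_sum Z x
  rw [h2]
  refine continuous_finsetSum _ fun i _ => ?_
  exact continuous_const.inner (h.clm_apply continuous_const)

/-- integration by parts: `∫ φ div Z = - ∫ dφ(Z)` for `φ` compactly supported -/
theorem dl_integral_mul_divE {φ : E → ℝ} {Z : E → E} (hφ : ContDiff ℝ 1 φ) (hφc : HasCompactSupport φ)
    (hZ : ContDiff ℝ 1 Z) :
    ∫ x, φ x * divE Z x = - ∫ x, fderiv ℝ φ x (Z x) := by
  set b := stdOrthonormalBasis ℝ E with hb
  have hφd : Differentiable ℝ φ := hφ.differentiable (by norm_num)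
  have hZd : Differentiable ℝ Z := hZ.differentiable (by norm_num)
  have hφ' := hφ.continuous_fderiv one_ne_zero
  have hZ' := hZ.continuous_fderiv one_ne_zero
  have hsupp : HasCompactSupport (fderiv ℝ φ) := hφc.fderiv (𝕜 := ℝ)
  -- components
  have key : ∀ i, ∫ x, φ x * inner ℝ (b i) (fderiv ℝ Z x (b i))
      = - ∫ x, fderiv ℝ φ x (b i) * inner ℝ (b i) (Z x) := by
    intro i
    have hcomp : ∀ x, fderiv ℝ (fun y => inner ℝ (b i) (Z y)) x (b i)
        = inner ℝ (b i) (fderiv ℝ Z x (b i)) := by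
      intro x
      have h1 : HasFDerivAt (fun y => inner ℝ (b i) (Z y))
          ((innerSL ℝ (b i)).comp (fderiv ℝ Z x)) x :=
        (innerSL ℝ (b i)).hasFDerivAt.comp x (hZd x).hasFDerivAt
      rw [h1.fderiv]; simp
    have hcd : ContDiff ℝ 1 (fun y => inner ℝ (b i) (Z y)) := contDiff_const.inner ℝ hZ
    have h := integral_mul_fderiv_eq_neg_fderiv_mul_of_integrable (𝕜 := ℝ) (μ := volume)
      (f := φ) (g := fun y => inner ℝ (b i) (Z y)) (v := b i) ?_ ?_ ?_
      (fun x _ => hφd x) (fun x _ => (hcd.differentiable (by norm_num)) x)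
    · simpa only [hcomp] using h
    · refine Continuous.integrable_of_hasCompactSupport
        ((hφ'.clm_apply continuous_const).mul hcd.continuous) ?_
      refine HasCompactSupport.mul_right ?_
      exact hsupp.comp_left (g := fun L : E →L[ℝ] ℝ => L (b i)) (by simp)
    · simp only [hcomp]
      exact Continuous.integrable_of_hasCompactSupport
        (hφ.continuous.mul (continuous_const.inner (hZ'.clm_apply continuous_const)))
        hφc.mul_right
    · exact Continuous.integrable_of_hasCompactSupport (hφ.continuous.mul hcd.continuous)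
        hφc.mul_right
  have e1 : ∫ x, φ x * divE Z x = ∑ i, ∫ x, φ x * inner ℝ (b i) (fderiv ℝ Z x (b i)) := by
    rw [← integral_finsetSum]
    · refine integral_congr_ae (Eventually.of_forall fun x => ?_)
      simp only [dl_divE_eq_sum, Finset.mul_sum, hb]
    · intro i _
      exact Continuous.integrable_of_hasCompactSupport
        (hφ.continuous.mul (continuous_const.inner (hZ'.clm_apply continuous_const)))
        hφc.mul_right
  have e2 : ∫ x, fderiv ℝ φ x (Z x) = ∑ i, ∫ x, fderiv ℝ φ x (b i) * inner ℝ (b i) (Z x) := by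
    rw [← integral_finsetSum]
    · refine integral_congr_ae (Eventually.of_forall fun x => ?_)
      have h2 := b.sum_repr' (Z x)
      show fderiv ℝ φ x (Z x) = _
      conv_lhs => rw [← h2]
      rw [map_sum]
      refine Finset.sum_congr rfl fun i _ => ?_
      rw [map_smul, smul_eq_mul, mul_comm]
    · intro i _
      refine Continuous.integrable_of_hasCompactSupport
        ((hφ'.clm_apply continuous_const).mul (continuous_const.inner hZ.continuous)) ?_
      refine HasCompactSupport.mul_right ?_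
      exact hsupp.comp_left (g := fun L : E →L[ℝ] ℝ => L (b i)) (by simp)
  rw [e1, e2, ← Finset.sum_neg_distrib]
  exact Finset.sum_congr rfl fun i _ => key i

theorem dl_cut_contDiff (ε : ℝ) {n : ℕ∞} : ContDiff ℝ n (cut ε) := by
  unfold cut
  exact Real.smoothTransition.contDiff.comp ((contDiff_id.neg).div_const ε)

theorem dl_cut_of_nonneg {ε s : ℝ} (hε : 0 < ε) (hs : 0 ≤ s) : cut ε s = 0 := by
  unfold cut
  exact Real.smoothTransition.zero_of_nonpos (div_nonpos_of_nonpos_of_nonneg (by linarith) hε.le)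

theorem dl_cut_of_le {ε s : ℝ} (hε : 0 < ε) (hs : s ≤ -ε) : cut ε s = 1 := by
  unfold cut
  refine Real.smoothTransition.one_of_one_le ?_
  rw [le_div_iff₀ hε]; linarith

theorem dl_cut_nonneg (ε s : ℝ) : 0 ≤ cut ε s := Real.smoothTransition.nonneg _
theorem dl_cut_le_one (ε s : ℝ) : cut ε s ≤ 1 := Real.smoothTransition.le_one _

theorem dl_cut_antitone {ε : ℝ} (hε : 0 < ε) : Antitone (cut ε) := by
  intro a b hab
  unfold cut
  refine Real.smoothTransition.monotone ?_
  exact div_le_div_of_nonneg_right (by linarith) hε.le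

theorem dl_cutd_nonneg {ε : ℝ} (hε : 0 < ε) (s : ℝ) : 0 ≤ cutd ε s := by
  unfold cutd
  have := (dl_cut_antitone hε).deriv_nonpos (x := s)
  linarith

theorem dl_cutd_of_pos {ε s : ℝ} (hε : 0 < ε) (hs : 0 < s) : cutd ε s = 0 := by
  unfold cutd
  have : cut ε =ᶠ[𝓝 s] fun _ => (0 : ℝ) := by
    filter_upwards [lt_mem_nhds hs] with t ht using dl_cut_of_nonneg hε ht.le
  rw [this.deriv_eq]; simp

theorem dl_cutd_of_lt {ε s : ℝ} (hε : 0 < ε) (hs : s < -ε) : cutd ε s = 0 := by
  unfold cutd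
  have : cut ε =ᶠ[𝓝 s] fun _ => (1 : ℝ) := by
    filter_upwards [gt_mem_nhds hs] with t ht using dl_cut_of_le hε ht.le
  rw [this.deriv_eq]; simp

theorem dl_cutd_contDiff (ε : ℝ) {n : ℕ∞} : ContDiff ℝ n (cutd ε) := by
  have h : ContDiff ℝ (n + 1) (cut ε) := by
    have := dl_cut_contDiff ε (n := n + 1)
    exact_mod_cast this
  have := (contDiff_succ_iff_deriv.1 h).2.2
  exact this.neg

theorem dl_cutd_zero {ε : ℝ} (hε : 0 < ε) : cutd ε 0 = 0 := by
  have h1 : Tendsto (cutd ε) (𝓝[>] 0) (𝓝 (cutd ε 0)) :=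
    ((dl_cutd_contDiff ε (n := 0)).continuous.tendsto 0).mono_left nhdsWithin_le_nhds
  have h2 : Tendsto (cutd ε) (𝓝[>] 0) (𝓝 0) := by
    refine tendsto_const_nhds.congr' ?_
    filter_upwards [self_mem_nhdsWithin] with t ht using (dl_cutd_of_pos hε ht).symm
  exact tendsto_nhds_unique h1 h2

theorem dl_hasDerivAt_cut (ε s : ℝ) : HasDerivAt (cut ε) (- cutd ε s) s := by
  have := ((dl_cut_contDiff ε (n := 1)).differentiable (by norm_num) s).hasDerivAt
  unfold cutd
  simpa using this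

omit [MeasurableSpace E] [BorelSpace E] in
/-- smooth cutoff equal to `1` near a compact set, compactly supported in an open set -/
theorem dl_exists_cut {K U : Set E} (hK : IsCompact K) (hU : IsOpen U) (h : K ⊆ U) :
    ∃ ψ : E → ℝ, ContDiff ℝ ∞ ψ ∧ HasCompactSupport ψ ∧ tsupport ψ ⊆ U ∧
      (∀ᶠ x in 𝓝ˢ K, ψ x = 1) ∧ ∀ x, ψ x ∈ Icc (0 : ℝ) 1 := by
  obtain ⟨L, hL, hKL, hLU⟩ := exists_compact_between hK hU h
  obtain ⟨f, hf1, hf0, hf⟩ := exists_contMDiffMap_one_nhds_of_subset_interior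
    (n := (⊤ : ℕ∞)) (modelWithCornersSelf ℝ E) hK.isClosed hKL
  have hsub : tsupport (f : E → ℝ) ⊆ L := by
    refine closure_minimal ?_ hL.isClosed
    intro x hx
    by_contra hxL
    exact hx (hf0 x hxL)
  exact ⟨f, f.contMDiff.contDiff, hL.of_isClosed_subset (isClosed_tsupport _) hsub,
    hsub.trans hLU, hf1, hf⟩

section
variable {w : E → ℝ}

omit [InnerProductSpace ℝ E] [FiniteDimensional ℝ E] [MeasurableSpace E] [BorelSpace E] in
theorem dl_cut_zero_off {ε : ℝ} (hε : 0 < ε) {x : E} (h : ¬ w x ≤ 0) : cut ε (w x) = 0 :=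
  dl_cut_of_nonneg hε (le_of_lt (not_le.1 h))

omit [InnerProductSpace ℝ E] [FiniteDimensional ℝ E] [MeasurableSpace E] [BorelSpace E] in
theorem dl_cutd_zero_off {ε : ℝ} (hε : 0 < ε) {x : E} (h : ¬ w x ≤ 0) : cutd ε (w x) = 0 :=
  dl_cutd_of_pos hε (not_le.1 h)

omit [MeasurableSpace E] [BorelSpace E] in
theorem IsReg.dl_cont (hw : IsReg w) : Continuous w := hw.smooth.continuous

omit [MeasurableSpace E] [BorelSpace E] in
theorem IsReg.dl_sigma_cpt (hw : IsReg w) : IsCompact {x | w x = 0} :=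
  hw.cpt.of_isClosed_subset (isClosed_eq hw.dl_cont continuous_const) fun _ hx => le_of_eq hx

omit [MeasurableSpace E] [BorelSpace E] in
theorem IsReg.dl_cut_hcs (hw : IsReg w) {ε : ℝ} (hε : 0 < ε) :
    HasCompactSupport (fun x => cut ε (w x)) :=
  HasCompactSupport.intro hw.cpt fun _ hx => dl_cut_zero_off hε hx

omit [MeasurableSpace E] [BorelSpace E] in
theorem IsReg.dl_cutd_hcs (hw : IsReg w) {ε : ℝ} (hε : 0 < ε) :
    HasCompactSupport (fun x => cutd ε (w x)) :=
  HasCompactSupport.intro hw.cpt fun _ hx => dl_cutd_zero_off hε hx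

omit [MeasurableSpace E] [BorelSpace E] in
theorem IsReg.dl_hasFDerivAt (hw : IsReg w) (x : E) : HasFDerivAt w (fderiv ℝ w x) x :=
  ((hw.smooth.differentiable (by simp)) x).hasFDerivAt

omit [MeasurableSpace E] [BorelSpace E] in
theorem IsReg.dl_fderiv_cut (hw : IsReg w) (ε : ℝ) (x : E) :
    fderiv ℝ (fun y => cut ε (w y)) x = (-cutd ε (w x)) • fderiv ℝ w x :=
  ((dl_hasDerivAt_cut ε (w x)).comp_hasFDerivAt x (hw.dl_hasFDerivAt x)).fderiv

/-- for `ε` small the layer `{-ε ≤ w ≤ 0}` is in any given neighbourhood of `Σ` -/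
theorem IsReg.dl_layer (hw : IsReg w) {O : Set E} (hO : IsOpen O) (hSO : {x | w x = 0} ⊆ O) :
    ∃ ε₀ > 0, ∀ x, -ε₀ ≤ w x → w x ≤ 0 → x ∈ O := by
  have hc : IsCompact ({x | w x ≤ 0} \ O) := hw.cpt.diff hO
  rcases ({x | w x ≤ 0} \ O).eq_empty_or_nonempty with h | h
  · refine ⟨1, one_pos, fun x _ hx => ?_⟩
    by_contra hxO
    have : x ∈ ({x | w x ≤ 0} \ O) := ⟨hx, hxO⟩
    rw [h] at this; exact this
  · obtain ⟨x₀, hx₀, hmax⟩ := hc.exists_isMaxOn h hw.dl_cont.continuousOn
    have hneg : w x₀ < 0 := lt_of_le_of_ne hx₀.1 fun h0 => hx₀.2 (hSO h0)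
    refine ⟨-w x₀ / 2, by linarith, fun x h1 h2 => ?_⟩
    by_contra hxO
    have : w x ≤ w x₀ := hmax ⟨h2, hxO⟩
    linarith

/-- first variation of the smoothed indicator -/
theorem IsReg.dl_cut_flux (hw : IsReg w) {ε : ℝ} (hε : 0 < ε) {Z : E → E} (hZ : ContDiff ℝ 1 Z) :
    ∫ x, cut ε (w x) * divE Z x = ∫ x, cutd ε (w x) * fderiv ℝ w x (Z x) := by
  have h1 : ContDiff ℝ 1 (fun x => cut ε (w x)) :=
    (dl_cut_contDiff ε (n := 1)).comp (hw.smooth.of_le (by exact_mod_cast le_top))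
  rw [dl_integral_mul_divE h1 (hw.dl_cut_hcs hε) hZ, ← integral_neg]
  refine integral_congr_ae (Eventually.of_forall fun x => ?_)
  simp [hw.dl_fderiv_cut]

theorem IsReg.dl_measurableSet_lt (hw : IsReg w) : MeasurableSet {x | w x < 0} :=
  (isOpen_lt hw.dl_cont continuous_const).measurableSet

theorem IsReg.dl_tendsto_cut (hw : IsReg w) {h : E → ℝ} (hh : Continuous h) :
    Tendsto (fun ε : ℝ => ∫ x, cut ε (w x) * h x) (𝓝[>] 0) (𝓝 (∫ x in {x | w x < 0}, h x)) := by
  rw [← integral_indicator hw.dl_measurableSet_lt]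
  have hK : MeasurableSet {x | w x ≤ 0} := (isClosed_le hw.dl_cont continuous_const).measurableSet
  refine tendsto_integral_filter_of_dominated_convergence
    (fun x => {x | w x ≤ 0}.indicator (fun x => ‖h x‖) x) ?_ ?_ ?_ ?_
  · refine Eventually.of_forall fun ε => ?_
    exact (((dl_cut_contDiff ε (n := 0)).continuous.comp hw.dl_cont).mul hh).aestronglyMeasurable
  · filter_upwards [self_mem_nhdsWithin] with ε hε
    refine Eventually.of_forall fun x => ?_
    by_cases hx : w x ≤ 0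
    · rw [indicator_of_mem (show x ∈ {x | w x ≤ 0} from hx), norm_mul]
      have h1 : ‖cut ε (w x)‖ ≤ 1 := by
        rw [Real.norm_of_nonneg (dl_cut_nonneg _ _)]; exact dl_cut_le_one _ _
      nlinarith [norm_nonneg (h x)]
    · rw [dl_cut_zero_off hε hx, zero_mul, norm_zero]
      exact indicator_nonneg (fun _ _ => norm_nonneg _) _
  · rw [integrable_indicator_iff hK]
    exact hh.norm.continuousOn.integrableOn_compact hw.cpt
  · refine Eventually.of_forall fun x => ?_
    by_cases hx : w x < 0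
    · rw [indicator_of_mem (show x ∈ {x | w x < 0} from hx)]
      refine tendsto_const_nhds.congr' ?_
      have : Ioc (0 : ℝ) (-w x) ∈ 𝓝[>] (0 : ℝ) := Ioc_mem_nhdsGT (by linarith)
      filter_upwards [this] with ε hε
      rw [dl_cut_of_le hε.1 (by linarith [hε.2]), one_mul]
    · rw [indicator_of_notMem (show x ∉ {x | w x < 0} from hx)]
      refine tendsto_const_nhds.congr' ?_
      filter_upwards [self_mem_nhdsWithin] with ε hε
      rw [dl_cut_of_nonneg hε (not_lt.1 hx), zero_mul]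

omit [MeasurableSpace E] [BorelSpace E] in
/-- a compactly supported smooth field with `dw(V) = 1` near `{w = 0}` -/
theorem IsReg.dl_exists_field (hw : IsReg w) :
    ∃ V : E → E, ContDiff ℝ ∞ V ∧ HasCompactSupport V ∧
      ∀ᶠ x in 𝓝ˢ {x | w x = 0}, fderiv ℝ w x (V x) = 1 := by
  have hfd : ContDiff ℝ ∞ (fderiv ℝ w) := hw.smooth.fderiv_right (by simp)
  have hU : IsOpen {x | fderiv ℝ w x ≠ 0} := isOpen_ne_fun hfd.continuous continuous_const
  obtain ⟨ψ, hψ, hψc, hψU, hψ1, hψI⟩ := dl_exists_cut hw.dl_sigma_cpt hU (fun x hx => hw.reg x hx)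
  -- gradient
  set G : E → E := fun x => (InnerProductSpace.toDual ℝ E).symm (fderiv ℝ w x) with hG
  have hGs : ContDiff ℝ ∞ G :=
    ((InnerProductSpace.toDual ℝ E).symm.toContinuousLinearEquiv.contDiff (𝕜 := ℝ)).comp hfd
  have hGin : ∀ x v, fderiv ℝ w x v = inner ℝ (G x) v := fun x v => by
    simp [hG]
  set den : E → ℝ := fun x => ‖G x‖ ^ 2 + (1 - ψ x) ^ 2 with hden
  have hden0 : ∀ x, den x ≠ 0 := by
    intro x
    have h1 : 0 ≤ ‖G x‖ ^ 2 := by positivity
    have h2 : 0 ≤ (1 - ψ x) ^ 2 := by positivity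
    by_cases hx : ψ x = 1
    · have hxt : x ∈ tsupport ψ := subset_tsupport ψ (by simp [Function.mem_support, hx])
      have hne : fderiv ℝ w x ≠ 0 := hψU hxt
      have : G x ≠ 0 := by
        intro h0; apply hne
        simpa [hG] using h0
      have : 0 < ‖G x‖ ^ 2 := by positivity
      simp only [hden]; intro h; linarith
    · have : 0 < (1 - ψ x) ^ 2 := by
        have : 1 - ψ x ≠ 0 := sub_ne_zero.2 (Ne.symm hx)
        positivity
      simp only [hden]; intro h; linarith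
  have hdens : ContDiff ℝ ∞ den := (hGs.norm_sq ℝ).add ((contDiff_const.sub hψ).pow 2)
  refine ⟨fun x => (ψ x / den x) • G x, (hψ.div hdens hden0).smul hGs, ?_, ?_⟩
  · exact (hψc.mul_right (f' := fun x => (den x)⁻¹)).smul_right
  · filter_upwards [hψ1] with x hx
    have h1 : fderiv ℝ w x ((ψ x / den x) • G x) = (ψ x / den x) * ‖G x‖ ^ 2 := by
      rw [map_smul, hGin, real_inner_self_eq_norm_sq, smul_eq_mul]
    rw [h1, hx]
    have h2 : den x = ‖G x‖ ^ 2 := by simp [hden, hx]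
    have h3 := hden0 x
    rw [h2] at h3 ⊢
    rw [one_div, inv_mul_cancel₀ h3]

/-- limit of the layer integrals of `C¹` functions -/
theorem IsReg.dl_tendsto_cutd_aux (hw : IsReg w) {V : E → E} (hV : ContDiff ℝ ∞ V)
    (hV1 : ∀ᶠ x in 𝓝ˢ {x | w x = 0}, fderiv ℝ w x (V x) = 1)
    {f : E → ℝ} (hf : ContDiff ℝ 1 f) :
    Tendsto (fun ε : ℝ => ∫ x, cutd ε (w x) * f x) (𝓝[>] 0)
      (𝓝 (∫ x in {x | w x < 0}, divE (fun y => f y • V y) x)) := by
  have hfV : ContDiff ℝ 1 (fun y => f y • V y) := hf.smul (hV.of_le (by exact_mod_cast le_top))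
  refine (hw.dl_tendsto_cut (dl_continuous_divE hfV)).congr' ?_
  obtain ⟨O, hO, hSO, hO1⟩ := (eventually_nhdsSet_iff_exists).1 hV1
  obtain ⟨ε₀, hε₀, hlay⟩ := hw.dl_layer hO hSO
  have : Ioo (0 : ℝ) ε₀ ∈ 𝓝[>] (0 : ℝ) := Ioo_mem_nhdsGT hε₀
  filter_upwards [this] with ε hε
  rw [hw.dl_cut_flux hε.1 hfV]
  refine integral_congr_ae (Eventually.of_forall fun x => ?_)
  show cutd ε (w x) * fderiv ℝ w x (f x • V x) = cutd ε (w x) * f x
  by_cases h0 : w x ≤ 0
  · by_cases h1 : -ε ≤ w x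
    · have hx : x ∈ O := hlay x (by linarith [hε.2]) h0
      rw [map_smul, hO1 x hx, smul_eq_mul, mul_one]
    · rw [dl_cutd_of_lt hε.1 (not_le.1 h1)]; simp
  · rw [dl_cutd_zero_off hε.1 h0]; simp

theorem IsReg.dl_integrable_cutd (hw : IsReg w) {ε : ℝ} (hε : 0 < ε) {f : E → ℝ} (hf : Continuous f) :
    Integrable (fun x => cutd ε (w x) * f x) :=
  Continuous.integrable_of_hasCompactSupport
    (((dl_cutd_contDiff ε (n := 0)).continuous.comp hw.dl_cont).mul hf) (hw.dl_cutd_hcs hε).mul_right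

/-- a chosen ultrafilter of small `ε` -/
noncomputable def dl_uf : Ultrafilter ℝ := Ultrafilter.of (𝓝[>] (0 : ℝ))

theorem dl_uf_le : (dl_uf : Filter ℝ) ≤ 𝓝[>] (0 : ℝ) := Ultrafilter.of_le _

theorem IsReg.dl_exists_lim (hw : IsReg w) (f : C_c(E, ℝ)) :
    ∃ c : ℝ, Tendsto (fun ε : ℝ => ∫ x, cutd ε (w x) * f x) dl_uf (𝓝 c) := by
  obtain ⟨V, hV, -, hV1⟩ := hw.dl_exists_field
  have h1 := hw.dl_tendsto_cutd_aux hV hV1 (f := fun _ => 1) contDiff_const
  obtain ⟨C, hC⟩ : ∃ C : ℝ, ∀ᶠ ε in 𝓝[>] (0 : ℝ), ∫ x, cutd ε (w x) * 1 ≤ C :=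
    ⟨_, (h1.eventually (gt_mem_nhds (lt_add_one _))).mono fun ε h => h.le⟩
  obtain ⟨B, hB⟩ : ∃ B : ℝ, ∀ x, ‖f x‖ ≤ B :=
    f.continuous.bounded_above_of_compact_support f.hasCompactSupport
  have hB0 : 0 ≤ B := (norm_nonneg _).trans (hB 0)
  have hbd : ∀ᶠ ε in (dl_uf : Filter ℝ), (∫ x, cutd ε (w x) * f x) ∈ Icc (-(B * C)) (B * C) := by
    have h2 : ∀ᶠ ε in 𝓝[>] (0 : ℝ), (∫ x, cutd ε (w x) * f x) ∈ Icc (-(B * C)) (B * C) := by
      filter_upwards [hC, self_mem_nhdsWithin] with ε hε hε0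
      rw [mem_Icc, ← abs_le]
      have h3 : |∫ x, cutd ε (w x) * f x| ≤ ∫ x, B * (cutd ε (w x) * 1) := by
        refine (norm_integral_le_integral_norm (fun x => cutd ε (w x) * f x)).trans ?_
        refine integral_mono (hw.dl_integrable_cutd hε0 f.continuous).norm
          ((hw.dl_integrable_cutd hε0 continuous_const).const_mul B) fun x => ?_
        show ‖cutd ε (w x) * f x‖ ≤ B * (cutd ε (w x) * 1)
        rw [norm_mul, Real.norm_of_nonneg (dl_cutd_nonneg hε0 _), mul_one, mul_comm]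
        exact mul_le_mul_of_nonneg_right (hB x) (dl_cutd_nonneg hε0 _)
      rw [integral_const_mul] at h3
      exact h3.trans (mul_le_mul_of_nonneg_left hε hB0)
    exact h2.filter_mono dl_uf_le
  have hcomp := isCompact_Icc (a := -(B * C)) (b := B * C)
  obtain ⟨c, -, hc⟩ := hcomp.ultrafilter_le_nhds
    (Ultrafilter.map (fun ε : ℝ => ∫ x, cutd ε (w x) * f x) dl_uf) (by
      rw [le_principal_iff]; exact hbd)
  exact ⟨c, hc⟩

/-- the positive functional -/
noncomputable def IsReg.dl_lam (hw : IsReg w) : C_c(E, ℝ) →ₚ[ℝ] ℝ :=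
  PositiveLinearMap.mk₀
    { toFun := fun f => (hw.dl_exists_lim f).choose
      map_add' := by
        intro f g
        refine tendsto_nhds_unique (hw.dl_exists_lim (f + g)).choose_spec ?_
        have h := (hw.dl_exists_lim f).choose_spec.add (hw.dl_exists_lim g).choose_spec
        refine h.congr' ?_
        have : Ioi (0 : ℝ) ∈ 𝓝[>] (0 : ℝ) := self_mem_nhdsWithin
        filter_upwards [dl_uf_le this] with ε hε
        have e1 : Integrable (fun x => cutd ε (w x) * f x) := hw.dl_integrable_cutd hε f.continuous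
        have e2 : Integrable (fun x => cutd ε (w x) * g x) := hw.dl_integrable_cutd hε g.continuous
        rw [← integral_add e1 e2]
        refine integral_congr_ae (Eventually.of_forall fun x => ?_)
        simp [mul_add]
      map_smul' := by
        intro c f
        refine tendsto_nhds_unique (hw.dl_exists_lim (c • f)).choose_spec ?_
        have h := (hw.dl_exists_lim f).choose_spec.const_mul c
        refine h.congr' (Eventually.of_forall fun ε => ?_)
        show c * ∫ x, cutd ε (w x) * f x = ∫ x, cutd ε (w x) * (c • f) x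
        rw [← integral_const_mul]
        refine integral_congr_ae (Eventually.of_forall fun x => ?_)
        simp; ring }
    (by
      intro f hf
      show 0 ≤ (hw.dl_exists_lim f).choose
      refine ge_of_tendsto (hw.dl_exists_lim f).choose_spec ?_
      have : Ioi (0 : ℝ) ∈ 𝓝[>] (0 : ℝ) := self_mem_nhdsWithin
      filter_upwards [dl_uf_le this] with ε hε
      exact integral_nonneg fun x => mul_nonneg (dl_cutd_nonneg hε _) (hf x))

theorem IsReg.dl_tendsto_lam (hw : IsReg w) (f : C_c(E, ℝ)) :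
    Tendsto (fun ε : ℝ => ∫ x, cutd ε (w x) * f x) dl_uf (𝓝 (hw.dl_lam f)) :=
  (hw.dl_exists_lim f).choose_spec

/-- the measure `δ(w)` -/
noncomputable def IsReg.dl_delta (hw : IsReg w) : Measure E := RealRMK.rieszMeasure hw.dl_lam

theorem IsReg.dl_tendsto_delta (hw : IsReg w) (f : C_c(E, ℝ)) :
    Tendsto (fun ε : ℝ => ∫ x, cutd ε (w x) * f x) dl_uf (𝓝 (∫ x, f x ∂hw.dl_delta)) := by
  unfold IsReg.dl_delta
  rw [RealRMK.integral_rieszMeasure]
  exact hw.dl_tendsto_lam f

theorem IsReg.dl_delta_supp (hw : IsReg w) : hw.dl_delta {x | w x ≠ 0} = 0 := by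
  have hopen : IsOpen {x | w x ≠ 0} := isOpen_ne_fun hw.dl_cont continuous_const
  have hreg : hw.dl_delta.Regular := by unfold IsReg.dl_delta; infer_instance
  rw [hopen.measure_eq_iSup_isCompact]
  simp only [ENNReal.iSup_eq_zero]
  intro K hK hKc
  obtain ⟨f, hf1, hfsub, hf01⟩ :
      ∃ f : C_c(E, ℝ), Set.EqOn (⇑f) 1 K ∧ tsupport ⇑f ⊆ {x | w x ≠ 0} ∧
        ∀ (x : E), f x ∈ Set.Icc 0 1 := by
    obtain ⟨f, hf1, hf2, hf3⟩ := exists_continuousMap_one_of_isCompact_subset_isOpen hKc hopen hK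
    exact ⟨⟨f, hasCompactSupport_def.mpr hf2⟩, hf1, hf3⟩
  have h1 : hw.dl_delta K ≤ ENNReal.ofReal (hw.dl_lam f) :=
    RealRMK.rieszMeasure_le_of_eq_one hw.dl_lam (fun x => (hf01 x).1) hKc (fun x hx => hf1 hx)
  have h2 : hw.dl_lam f = 0 := by
    refine tendsto_nhds_unique (hw.dl_tendsto_lam f) ?_
    refine tendsto_const_nhds.congr' ?_
    obtain ⟨ε₀, hε₀, hlay⟩ := hw.dl_layer (O := (tsupport f)ᶜ) (isClosed_tsupport _).isOpen_compl
      (fun x hx hxt => hfsub hxt hx)
    have : Ioo (0 : ℝ) ε₀ ∈ 𝓝[>] (0 : ℝ) := Ioo_mem_nhdsGT hε₀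
    filter_upwards [dl_uf_le this] with ε hε
    symm
    refine integral_eq_zero_of_ae (Eventually.of_forall fun x => ?_)
    show cutd ε (w x) * f x = 0
    by_cases h0 : w x ≤ 0
    · by_cases h3 : -ε ≤ w x
      · have hx := hlay x (by linarith [hε.2]) h0
        rw [image_eq_zero_of_notMem_tsupport hx, mul_zero]
      · rw [dl_cutd_of_lt hε.1 (not_le.1 h3), zero_mul]
    · rw [dl_cutd_zero_off hε.1 h0, zero_mul]
  rw [h2, ENNReal.ofReal_zero] at h1
  exact le_antisymm h1 zero_le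

theorem IsReg.dl_delta_finite (hw : IsReg w) : IsFiniteMeasure hw.dl_delta := by
  have hreg : hw.dl_delta.Regular := by unfold IsReg.dl_delta; infer_instance
  refine ⟨?_⟩
  have h1 : (univ : Set E) = {x | w x = 0} ∪ {x | w x ≠ 0} := by
    ext x; simp [em]
  rw [h1]
  refine (measure_union_le _ _).trans_lt ?_
  rw [hw.dl_delta_supp, add_zero]
  exact hw.dl_sigma_cpt.measure_lt_top

theorem IsReg.dl_delta_ae (hw : IsReg w) : ∀ᵐ x ∂hw.dl_delta, w x = 0 := by
  have h := hw.dl_delta_supp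
  rw [ae_iff]; exact h

/-- the limit formula for `C¹` functions -/
theorem IsReg.dl_delta_lim (hw : IsReg w) {f : E → ℝ} (hf : ContDiff ℝ 1 f) :
    Tendsto (fun ε : ℝ => ∫ x, cutd ε (w x) * f x) (𝓝[>] 0) (𝓝 (∫ x, f x ∂hw.dl_delta)) := by
  obtain ⟨V, hV, -, hV1⟩ := hw.dl_exists_field
  have h1 := hw.dl_tendsto_cutd_aux hV hV1 hf
  obtain ⟨ψ, hψ, hψc, -, hψ1, -⟩ := dl_exists_cut hw.cpt isOpen_univ (subset_univ _)
  -- the compactly supported representative
  let F : C_c(E, ℝ) := ⟨⟨fun x => ψ x * f x, hψ.continuous.mul hf.continuous⟩, hψc.mul_right⟩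
  have h2 := hw.dl_tendsto_delta F
  have h3 : ∫ x, F x ∂hw.dl_delta = ∫ x, f x ∂hw.dl_delta := by
    refine integral_congr_ae ?_
    filter_upwards [hw.dl_delta_ae] with x hx
    show ψ x * f x = f x
    have : ψ x = 1 := hψ1.self_of_nhdsSet x (le_of_eq hx)
    rw [this, one_mul]
  have h4 : Tendsto (fun ε : ℝ => ∫ x, cutd ε (w x) * f x) dl_uf (𝓝 (∫ x, f x ∂hw.dl_delta)) := by
    rw [← h3]
    refine h2.congr' ?_
    have : Ioi (0 : ℝ) ∈ 𝓝[>] (0 : ℝ) := self_mem_nhdsWithin
    filter_upwards [dl_uf_le this] with ε hε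
    refine integral_congr_ae (Eventually.of_forall fun x => ?_)
    show cutd ε (w x) * (ψ x * f x) = cutd ε (w x) * f x
    by_cases h0 : w x ≤ 0
    · rw [hψ1.self_of_nhdsSet x h0, one_mul]
    · rw [dl_cutd_zero_off hε h0, zero_mul, zero_mul]
  have h5 := tendsto_nhds_unique h4 (h1.mono_left dl_uf_le)
  rw [h5]; exact h1

theorem IsReg.dl_delta_flux (hw : IsReg w) {Z : E → E} (hZ : ContDiff ℝ 1 Z) :
    ∫ x in {x | w x < 0}, divE Z x = ∫ x, fderiv ℝ w x (Z x) ∂hw.dl_delta := by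
  have h1 := hw.dl_tendsto_cut (dl_continuous_divE hZ)
  have hfd : ContDiff ℝ 1 (fun x => fderiv ℝ w x (Z x)) := by
    have h : ContDiff ℝ 1 (fderiv ℝ w) :=
      (hw.smooth.fderiv_right (m := ∞) (by simp)).of_le (by exact_mod_cast le_top)
    exact h.clm_apply hZ
  have h2 := hw.dl_delta_lim hfd
  refine tendsto_nhds_unique (h1.congr' ?_) h2
  filter_upwards [self_mem_nhdsWithin] with ε hε using hw.dl_cut_flux hε hZ

theorem IsReg.dl_delta_tang (hw : IsReg w) {Y : E → E} (hY : ContDiff ℝ 1 Y)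
    (h0 : ∀ᶠ x in 𝓝ˢ {x | w x = 0}, fderiv ℝ w x (Y x) = 0) : ∫ x, divE Y x ∂hw.dl_delta = 0 := by
  obtain ⟨ψ, hψ, hψc, -, hψ1, -⟩ := dl_exists_cut hw.cpt isOpen_univ (subset_univ _)
  let F : C_c(E, ℝ) :=
    ⟨⟨fun x => ψ x * divE Y x, hψ.continuous.mul (dl_continuous_divE hY)⟩, hψc.mul_right⟩
  have h2 := hw.dl_tendsto_delta F
  have h3 : ∫ x, F x ∂hw.dl_delta = ∫ x, divE Y x ∂hw.dl_delta := by
    refine integral_congr_ae ?_
    filter_upwards [hw.dl_delta_ae] with x hx
    show ψ x * divE Y x = divE Y x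
    have : ψ x = 1 := hψ1.self_of_nhdsSet x (le_of_eq hx)
    rw [this, one_mul]
  rw [← h3]
  refine tendsto_nhds_unique h2 ?_
  refine tendsto_const_nhds.congr' ?_
  obtain ⟨O, hO, hSO, hO1⟩ := (eventually_nhdsSet_iff_exists).1 h0
  obtain ⟨ε₀, hε₀, hlay⟩ := hw.dl_layer hO hSO
  have : Ioo (0 : ℝ) ε₀ ∈ 𝓝[>] (0 : ℝ) := Ioo_mem_nhdsGT hε₀
  filter_upwards [dl_uf_le this] with ε hε
  have e1 : ∫ x, cutd ε (w x) * F x = ∫ x, cutd ε (w x) * divE Y x := by
    refine integral_congr_ae (Eventually.of_forall fun x => ?_)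
    show cutd ε (w x) * (ψ x * divE Y x) = cutd ε (w x) * divE Y x
    by_cases h0 : w x ≤ 0
    · rw [hψ1.self_of_nhdsSet x h0, one_mul]
    · rw [dl_cutd_zero_off hε.1 h0, zero_mul, zero_mul]
  have hl1 : ContDiff ℝ 1 (fun x => cutd ε (w x)) :=
    (dl_cutd_contDiff ε (n := 1)).comp (hw.smooth.of_le (by exact_mod_cast le_top))
  rw [e1, dl_integral_mul_divE hl1 (hw.dl_cutd_hcs hε.1) hY, eq_comm, neg_eq_zero]
  refine integral_eq_zero_of_ae (Eventually.of_forall fun x => ?_)
  have hd : fderiv ℝ (fun y => cutd ε (w y)) x = (deriv (cutd ε) (w x)) • fderiv ℝ w x := by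
    have hh : HasDerivAt (cutd ε) (deriv (cutd ε) (w x)) (w x) :=
      ((dl_cutd_contDiff ε (n := 1)).differentiable (by norm_num) (w x)).hasDerivAt
    exact (hh.comp_hasFDerivAt x (hw.dl_hasFDerivAt x)).fderiv
  show fderiv ℝ (fun y => cutd ε (w y)) x (Y x) = 0
  rw [hd]
  show deriv (cutd ε) (w x) * fderiv ℝ w x (Y x) = 0
  by_cases h0 : w x ≤ 0
  · by_cases h3 : -ε ≤ w x
    · rw [hO1 x (hlay x (by linarith [hε.2]) h0), mul_zero]
    · have : cutd ε =ᶠ[𝓝 (w x)] fun _ => (0 : ℝ) := by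
        filter_upwards [gt_mem_nhds (not_le.1 h3)] with t ht using dl_cutd_of_lt hε.1 ht
      rw [this.deriv_eq]; simp
  · have : cutd ε =ᶠ[𝓝 (w x)] fun _ => (0 : ℝ) := by
      filter_upwards [lt_mem_nhds (not_le.1 h0)] with t ht using dl_cutd_of_pos hε.1 ht
    rw [this.deriv_eq]; simp

/-- `δ(w)` charges every ball centred on `{w = 0}` -/
theorem IsReg.dl_delta_full (hw : IsReg w) {x₀ : E} (hx₀ : w x₀ = 0) {r : ℝ} (hr : 0 < r) :
    0 < hw.dl_delta (Metric.ball x₀ r) := by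
  by_contra hcon
  have hnull : hw.dl_delta (Metric.ball x₀ r) = 0 := le_antisymm (not_lt.1 hcon) zero_le
  -- a direction of increase
  obtain ⟨e, he⟩ : ∃ e : E, 0 < fderiv ℝ w x₀ e := by
    obtain ⟨v, hv⟩ : ∃ v, fderiv ℝ w x₀ v ≠ 0 := by
      by_contra h
      push Not at h
      exact hw.reg x₀ hx₀ (ContinuousLinearMap.ext h)
    rcases lt_or_gt_of_ne hv with h | h
    · exact ⟨-v, by rw [map_neg]; linarith⟩
    · exact ⟨v, h⟩
  have hline : HasDerivAt (fun t : ℝ => w (x₀ + t • e)) (fderiv ℝ w x₀ e) 0 := by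
    have h1 : HasDerivAt (fun t : ℝ => x₀ + t • e) e 0 := by
      simpa using ((hasDerivAt_id (0 : ℝ)).smul_const e).const_add x₀
    have h2 : HasFDerivAt w (fderiv ℝ w x₀) (x₀ + (0 : ℝ) • e) := by
      simpa using hw.dl_hasFDerivAt x₀
    exact h2.comp_hasDerivAt 0 h1
  have hpos : ∀ᶠ t in 𝓝[≠] (0 : ℝ), 0 < t⁻¹ * w (x₀ + t • e) := by
    have h1 := hline.tendsto_slope_zero
    have h2 := h1.eventually (lt_mem_nhds he)
    filter_upwards [h2] with t ht
    simpa [hx₀] using ht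
  have hsm : ∀ᶠ t in 𝓝 (0 : ℝ), ‖t • e‖ < r / 2 := by
    have h1 : Tendsto (fun t : ℝ => ‖t • e‖) (𝓝 0) (𝓝 ‖(0 : ℝ) • e‖) :=
      ((continuous_id.smul continuous_const).norm).tendsto 0
    rw [zero_smul, norm_zero] at h1
    exact h1.eventually (gt_mem_nhds (by linarith))
  obtain ⟨t₀, ht₀, h1, h2, h3⟩ : ∃ t₀ : ℝ, 0 < t₀ ∧ 0 < w (x₀ + t₀ • e) ∧
      w (x₀ - t₀ • e) < 0 ∧ ‖t₀ • e‖ < r / 2 := by
    have hneg : ∀ᶠ t in 𝓝[≠] (0 : ℝ), 0 < (-t)⁻¹ * w (x₀ + (-t) • e) := by
      have hT : Tendsto (fun t : ℝ => -t) (𝓝[≠] 0) (𝓝[≠] 0) := by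
        have h0 : Tendsto (fun t : ℝ => -t) (𝓝 0) (𝓝 0) := by
          simpa using (continuous_neg.tendsto (0 : ℝ))
        refine tendsto_nhdsWithin_iff.2 ⟨h0.mono_left nhdsWithin_le_nhds, ?_⟩
        filter_upwards [self_mem_nhdsWithin] with t ht
        simpa using ht
      exact hT.eventually hpos
    have hall := (hpos.and hneg).and (hsm.filter_mono nhdsWithin_le_nhds)
    have hgt : ∀ᶠ t in 𝓝[>] (0 : ℝ), (0 < t⁻¹ * w (x₀ + t • e) ∧
        0 < (-t)⁻¹ * w (x₀ + (-t) • e)) ∧ ‖t • e‖ < r / 2 :=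
      hall.filter_mono (nhdsWithin_mono _ fun t (ht : 0 < t) => ne_of_gt ht)
    obtain ⟨t, ht, ht0⟩ := (hgt.and self_mem_nhdsWithin).exists
    have ht0' : (0 : ℝ) < t := ht0
    refine ⟨t, ht0', ?_, ?_, ht.2⟩
    · have h1 := ht.1.1
      have : 0 < t⁻¹ := inv_pos.2 ht0'
      exact (pos_iff_pos_of_mul_pos h1).1 this
    · have h1 := ht.1.2
      rw [inv_neg, neg_smul, ← sub_eq_add_neg] at h1
      have : 0 < t⁻¹ := inv_pos.2 ht0'
      by_contra h
      push Not at h
      have : 0 ≤ t⁻¹ * w (x₀ - t • e) := mul_nonneg this.le h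
      linarith
  obtain ⟨ρ, hρ, hρr, hb1, hb2⟩ : ∃ ρ > 0, ρ < r / 2 ∧
      Metric.ball (x₀ + t₀ • e) ρ ⊆ {x | 0 < w x} ∧
      Metric.ball (x₀ - t₀ • e) ρ ⊆ {x | w x < 0} := by
    obtain ⟨ρ1, hρ1, hb1⟩ := Metric.isOpen_iff.1 (isOpen_lt continuous_const hw.dl_cont) _ h1
    obtain ⟨ρ2, hρ2, hb2⟩ := Metric.isOpen_iff.1 (isOpen_lt hw.dl_cont continuous_const) _ h2
    refine ⟨min (min ρ1 ρ2) (r / 4), by positivity, ?_, ?_, ?_⟩
    · exact lt_of_le_of_lt (min_le_right _ _) (by linarith)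
    · exact (Metric.ball_subset_ball ((min_le_left _ _).trans (min_le_left _ _))).trans hb1
    · exact (Metric.ball_subset_ball ((min_le_left _ _).trans (min_le_right _ _))).trans hb2
  -- the bump
  let φ : ContDiffBump (0 : E) := ⟨ρ / 2, ρ, by positivity, by linarith⟩
  have hφs : ContDiff ℝ ∞ (φ : E → ℝ) := φ.contDiff
  have hφsupp : ∀ y, φ y ≠ 0 → ‖y‖ < ρ := by
    intro y hy
    have : y ∈ Function.support (φ : E → ℝ) := hy
    rw [φ.support_eq] at this
    simpa using this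
  have hφ0 : ∀ y, ρ ≤ ‖y‖ → φ y = 0 := fun y hy => by
    by_contra h; exact absurd (hφsupp y h) (not_lt.2 hy)
  set F : ℝ → E → ℝ := fun s y => φ (y - x₀ - s • e) with hF
  have hFs : ∀ s, ContDiff ℝ ∞ (F s) := fun s =>
    hφs.comp ((contDiff_id.sub contDiff_const).sub contDiff_const)
  have hFfd : ∀ s y, fderiv ℝ (F s) y = fderiv ℝ φ (y - x₀ - s • e) := by
    intro s y
    have h1 : HasFDerivAt (fun y : E => y - x₀ - s • e) (ContinuousLinearMap.id ℝ E) y :=
      ((hasFDerivAt_id y).sub_const x₀).sub_const _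
    have h2 : HasFDerivAt (φ : E → ℝ) (fderiv ℝ φ (y - x₀ - s • e)) (y - x₀ - s • e) :=
      (hφs.differentiable (by simp) _).hasFDerivAt
    have h3 := (h2.comp y h1).fderiv
    rw [ContinuousLinearMap.comp_id] at h3
    exact h3
  have hFt : ∀ s y, HasDerivAt (fun s => F s y) (-(fderiv ℝ φ (y - x₀ - s • e) e)) s := by
    intro s y
    have h1 : HasDerivAt (fun s : ℝ => y - x₀ - s • e) (-e) s := by
      simpa using ((hasDerivAt_id s).smul_const e).const_sub (y - x₀)
    have h2 : HasFDerivAt (φ : E → ℝ) (fderiv ℝ φ (y - x₀ - s • e)) (y - x₀ - s • e) :=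
      (hφs.differentiable (by simp) _).hasFDerivAt
    have h3 := h2.comp_hasDerivAt s h1
    rw [map_neg] at h3
    exact h3
  -- bound for the derivative
  obtain ⟨B, hB⟩ : ∃ B : ℝ, ∀ y, ‖fderiv ℝ φ y‖ ≤ B := by
    have hc : Continuous (fderiv ℝ φ) := hφs.continuous_fderiv (by simp)
    exact hc.bounded_above_of_compact_support (φ.hasCompactSupport.fderiv (𝕜 := ℝ))
  have hder : ∀ s, HasDerivAt (fun s => ∫ y in {x | w x < 0}, F s y)
      (∫ y in {x | w x < 0}, -(fderiv ℝ φ (y - x₀ - s • e) e)) s := by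
    intro s
    have hvol : volume {x | w x < 0} ≠ ⊤ :=
      ((measure_mono (fun x (hx : w x < 0) => le_of_lt hx)).trans_lt hw.cpt.measure_lt_top).ne
    have : IsFiniteMeasure (volume.restrict {x | w x < 0}) :=
      ⟨by rw [Measure.restrict_apply_univ]; exact lt_top_iff_ne_top.2 hvol⟩
    refine (hasDerivAt_integral_of_dominated_loc_of_deriv_le (s := univ) (F := F)
      (F' := fun s y => -(fderiv ℝ φ (y - x₀ - s • e) e)) (x₀ := s)
      (μ := volume.restrict {x | w x < 0}) (bound := fun _ => B * ‖e‖) univ_mem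
      ?_ ?_ ?_ ?_ ?_ ?_).2
    · exact Eventually.of_forall fun s => (hFs s).continuous.aestronglyMeasurable
    · exact ((hFs s).continuous.integrable_of_hasCompactSupport (by
        have : HasCompactSupport (F s) := by
          refine HasCompactSupport.intro (isCompact_closedBall (x₀ + s • e) ρ) fun y hy => ?_
          refine hφ0 _ ?_
          rw [Metric.mem_closedBall, dist_eq_norm, not_le] at hy
          rw [sub_sub]; exact hy.le
        exact this)).integrableOn
    · have hc : Continuous (fderiv ℝ φ) := hφs.continuous_fderiv (by simp)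
      have : Continuous fun y : E => -(fderiv ℝ φ (y - x₀ - s • e) e) :=
        ((hc.comp ((continuous_id.sub continuous_const).sub continuous_const)).clm_apply
          continuous_const).neg
      exact this.aestronglyMeasurable
    · refine Eventually.of_forall fun y s _ => ?_
      rw [norm_neg]
      exact (ContinuousLinearMap.le_opNorm _ _).trans
        (mul_le_mul_of_nonneg_right (hB _) (norm_nonneg _))
    · exact integrable_const _
    · exact Eventually.of_forall fun y s _ => hFt s y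
  have hzero : ∀ s, |s| ≤ t₀ → ∫ y in {x | w x < 0}, -(fderiv ℝ φ (y - x₀ - s • e) e) = 0 := by
    intro s hs
    rw [integral_neg, neg_eq_zero]
    have hZ : ContDiff ℝ 1 (fun y => F s y • e) :=
      ((hFs s).of_le (by exact_mod_cast le_top)).smul contDiff_const
    have e1 : ∀ y, fderiv ℝ φ (y - x₀ - s • e) e = divE (fun y => F s y • e) y := by
      intro y
      rw [dl_divE_smul ((hFs s).differentiable (by simp) y) (differentiableAt_const e), hFfd]
      have : divE (fun _ : E => e) y = 0 := by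
        simp [divE, tr]
      rw [this, mul_zero, zero_add]
    simp_rw [e1]
    rw [hw.dl_delta_flux hZ]
    have hae : ∀ᵐ y ∂hw.dl_delta, y ∉ Metric.ball x₀ r := by
      rw [ae_iff]; simp only [not_not]; exact hnull
    refine integral_eq_zero_of_ae ?_
    filter_upwards [hae] with y hy
    have hF0 : F s y = 0 := by
      refine hφ0 _ ?_
      rw [Metric.mem_ball, dist_eq_norm, not_lt] at hy
      have h4 : ‖s • e‖ ≤ ‖t₀ • e‖ := by
        rw [norm_smul, norm_smul, Real.norm_eq_abs, Real.norm_eq_abs, abs_of_pos ht₀]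
        exact mul_le_mul_of_nonneg_right hs (norm_nonneg _)
      have h5 : ‖y - x₀‖ ≤ ‖y - x₀ - s • e‖ + ‖s • e‖ := by
        have := norm_add_le (y - x₀ - s • e) (s • e)
        simpa using this
      linarith
    show fderiv ℝ w y (F s y • e) = 0
    rw [hF0, zero_smul, map_zero]
  have hconst := constant_of_has_deriv_right_zero (a := -t₀) (b := t₀)
    (f := fun s => ∫ y in {x | w x < 0}, F s y)
    (fun s _ => (hder s).continuousAt.continuousWithinAt)
    (fun s hs => by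
      have := (hder s).hasDerivWithinAt (s := Ici s)
      rwa [hzero s (abs_le.2 ⟨hs.1, hs.2.le⟩)] at this) t₀ ⟨by linarith, le_rfl⟩
  have e1 : ∫ y in {x | w x < 0}, F t₀ y = 0 := by
    refine setIntegral_eq_zero_of_forall_eq_zero fun y (hy : w y < 0) => ?_
    refine hφ0 _ ?_
    by_contra h
    push Not at h
    have : y ∈ Metric.ball (x₀ + t₀ • e) ρ := by
      rw [Metric.mem_ball, dist_eq_norm, ← sub_sub]; exact h
    exact absurd (hb1 this) (not_lt.2 hy.le)
  have e2 : 0 < ∫ y in {x | w x < 0}, F (-t₀) y := by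
    have h5 : ∫ y in {x | w x < 0}, F (-t₀) y = ∫ y, F (-t₀) y := by
      rw [← integral_indicator hw.dl_measurableSet_lt]
      refine integral_congr_ae (Eventually.of_forall fun y => ?_)
      by_cases hy : w y < 0
      · exact indicator_of_mem (show y ∈ {x | w x < 0} from hy) _
      · rw [indicator_of_notMem (show y ∉ {x | w x < 0} from hy)]
        symm
        refine hφ0 _ ?_
        by_contra h
        push Not at h
        have : y ∈ Metric.ball (x₀ - t₀ • e) ρ := by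
          rw [Metric.mem_ball, dist_eq_norm]
          have h6 : y - (x₀ - t₀ • e) = y - x₀ - (-t₀) • e := by
            rw [neg_smul]; abel
          rw [h6]; exact h
        exact hy (hb2 this)
    rw [h5]
    have h6 : ∫ y, F (-t₀) y = ∫ y, φ y := by
      have := integral_sub_right_eq_self (μ := volume) (fun y => φ y) (x₀ + (-t₀) • e)
      rw [← this]
      refine integral_congr_ae (Eventually.of_forall fun y => ?_)
      simp [hF, sub_sub]
    rw [h6]
    exact φ.integral_pos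
  rw [e1] at hconst
  linarith

omit [MeasurableSpace E] [BorelSpace E] in
/-- a map which is `C¹` near a compact set agrees near this set with a globally `C¹` map -/
theorem dl_globalize {F : Type*} [NormedAddCommGroup F] [NormedSpace ℝ F] {K : Set E}
    (hK : IsCompact K) {Z : E → F} (hZ : ∀ᶠ x in 𝓝ˢ K, ContDiffAt ℝ 1 Z x) :
    ∃ Z' : E → F, ContDiff ℝ 1 Z' ∧ ∀ᶠ x in 𝓝ˢ K, Z' x = Z x := by
  obtain ⟨O, hO, hKO, hO1⟩ := (eventually_nhdsSet_iff_exists).1 hZ
  obtain ⟨ψ, hψ, -, hψO, hψ1, -⟩ := dl_exists_cut hK hO hKO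
  refine ⟨fun x => ψ x • Z x, ?_, ?_⟩
  · refine contDiff_iff_contDiffAt.2 fun x => ?_
    by_cases hx : x ∈ tsupport ψ
    · exact ((hψ.of_le (by exact_mod_cast le_top)).contDiffAt).smul (hO1 x (hψO hx))
    · have h0 : (fun x => ψ x • Z x) =ᶠ[𝓝 x] fun _ => 0 := by
        have : (tsupport ψ)ᶜ ∈ 𝓝 x := (isClosed_tsupport ψ).isOpen_compl.mem_nhds hx
        filter_upwards [this] with y hy
        rw [image_eq_zero_of_notMem_tsupport hy, zero_smul]
      exact contDiffAt_const.congr_of_eventuallyEq h0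
  · filter_upwards [hψ1] with x hx
    rw [hx, one_smul]

omit [MeasurableSpace E] [BorelSpace E] in
theorem dl_divE_congr {Z Z' : E → E} {x : E} (h : Z' =ᶠ[𝓝 x] Z) : divE Z' x = divE Z x := by
  unfold divE; rw [h.fderiv_eq]

theorem IsReg.dl_isDelta (hw : IsReg w) : IsDelta w hw.dl_delta where
  fin := hw.dl_delta_finite
  supp := hw.dl_delta_supp
  flux := by
    intro Z hZ
    obtain ⟨Z', hZ', hZZ⟩ := dl_globalize hw.cpt hZ
    have h1 : ∀ x, w x ≤ 0 → Z' =ᶠ[𝓝 x] Z := fun x hx =>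
      hZZ.filter_mono (nhds_le_nhdsSet (show x ∈ {x | w x ≤ 0} from hx))
    have e1 : ∫ x in {x | w x < 0}, divE Z x = ∫ x in {x | w x < 0}, divE Z' x :=
      setIntegral_congr_fun hw.dl_measurableSet_lt fun x (hx : w x < 0) =>
        (dl_divE_congr (h1 x hx.le)).symm
    rw [e1, hw.dl_delta_flux hZ']
    refine integral_congr_ae ?_
    filter_upwards [hw.dl_delta_ae] with x hx
    rw [(h1 x hx.le).self_of_nhds]
  tang := by
    intro Y hY
    obtain ⟨Y', hY', hYY⟩ := dl_globalize hw.dl_sigma_cpt (hY.mono fun x hx => hx.1)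
    have h1 : ∀ x, w x = 0 → Y' =ᶠ[𝓝 x] Y := fun x hx =>
      hYY.filter_mono (nhds_le_nhdsSet (show x ∈ {x | w x = 0} from hx))
    have h2 : ∀ᶠ x in 𝓝ˢ {x | w x = 0}, fderiv ℝ w x (Y' x) = 0 := by
      filter_upwards [hYY, hY] with x hx1 hx2
      rw [hx1]; exact hx2.2
    rw [← hw.dl_delta_tang hY' h2]
    refine integral_congr_ae ?_
    filter_upwards [hw.dl_delta_ae] with x hx
    exact (dl_divE_congr (h1 x hx)).symm
  full := fun _ hx _ hr => hw.dl_delta_full hx hr
  lim := by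
    intro f hf
    obtain ⟨f', hf', hff⟩ := dl_globalize hw.dl_sigma_cpt hf
    obtain ⟨O, hO, hSO, hO1⟩ := (eventually_nhdsSet_iff_exists).1 hff
    obtain ⟨ε₀, hε₀, hlay⟩ := hw.dl_layer hO hSO
    have e1 : ∫ x, f x ∂hw.dl_delta = ∫ x, f' x ∂hw.dl_delta := by
      refine integral_congr_ae ?_
      filter_upwards [hw.dl_delta_ae] with x hx
      exact (hO1 x (hSO hx)).symm
    rw [e1]
    refine (hw.dl_delta_lim hf').congr' ?_
    have : Ioo (0 : ℝ) ε₀ ∈ 𝓝[>] (0 : ℝ) := Ioo_mem_nhdsGT hε₀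
    filter_upwards [this] with ε hε
    refine integral_congr_ae (Eventually.of_forall fun x => ?_)
    show cutd ε (w x) * f' x = f x * cutd ε (w x)
    by_cases h0 : w x ≤ 0
    · by_cases h3 : -ε ≤ w x
      · rw [hO1 x (hlay x (by linarith [hε.2]) h0), mul_comm]
      · rw [dl_cutd_of_lt hε.1 (not_le.1 h3)]; simp
    · rw [dl_cutd_zero_off hε.1 h0]; simp

end

/-- T1: existence of the surface measure `δ(w)`. -/
theorem exists_delta {w : E → ℝ} (hw : IsReg w) : ∃ μ : Measure E, IsDelta w μ :=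
  ⟨hw.dl_delta, hw.dl_isDelta⟩

end Pool.Agent.Work.MP_3b24f6_gt
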