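import Pool.Agent.Work.MP_3b24f6_gt.ModelB
import Pool.Agent.Work.MP_3b24f6_gt.Delta

/-!
Volume and perimeter of the balls of the chart.
-/

set_option autoImplicit false

open MeasureTheory Set Filter Topology
open scoped ContDiff InnerProductSpace

namespace Pool.Agent.Work.MP_3b24f6_gt

noncomputable section

namespace BallP

variable {E : Type*} [NormedAddCommGroup E] [InnerProductSpace ℝ E] [FiniteDimensional ℝ E]

theorem isReg_ball {R : ℝ} (hR : 0 < R) : IsReg (fun y : E => ‖y‖ ^ 2 - R ^ 2) where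
  smooth := (contDiff_norm_sq ℝ).sub contDiff_const
  cpt := by
    have : {x : E | ‖x‖ ^ 2 - R ^ 2 ≤ 0} = Metric.closedBall 0 R := by
      ext x
      simp only [mem_ofPred_eq, mem_closedBall_zero_iff, sub_nonpos]
      exact sq_le_sq₀ (norm_nonneg x) hR.le
    rw [this]
    exact isCompact_closedBall 0 R
  reg := by
    intro x hx h0
    have h1 : HasFDerivAt (fun y : E => ‖y‖ ^ 2 - R ^ 2) (2 • (innerSL ℝ x)) x :=
      (hasStrictFDerivAt_norm_sq x).hasFDerivAt.sub_const _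
    rw [h1.fderiv] at h0
    have h2 := congrArg (fun L : E →L[ℝ] ℝ => L x) h0
    simp at h2
    rw [h2] at hx
    simp at hx
    exact hR.ne' hx

omit [FiniteDimensional ℝ E] in
theorem fderiv_ball (R : ℝ) (x v : E) :
    fderiv ℝ (fun y : E => ‖y‖ ^ 2 - R ^ 2) x v = 2 * ⟪x, v⟫_ℝ := by
  have h1 : HasFDerivAt (fun y : E => ‖y‖ ^ 2 - R ^ 2) (2 • (innerSL ℝ x)) x :=
    (hasStrictFDerivAt_norm_sq x).hasFDerivAt.sub_const _
  rw [h1.fderiv]
  simp

omit [InnerProductSpace ℝ E] [FiniteDimensional ℝ E] in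
theorem set_ball {R : ℝ} (hR : 0 < R) : {x : E | ‖x‖ ^ 2 - R ^ 2 < 0} = Metric.ball 0 R := by
  ext x
  simp only [mem_ofPred_eq, mem_ball_zero_iff, sub_neg]
  exact sq_lt_sq₀ (norm_nonneg x) hR.le

omit [InnerProductSpace ℝ E] [FiniteDimensional ℝ E] in
theorem uu_eq_us (y : E) : uu y = us ‖y‖ := rfl

theorem us_pos (s : ℝ) : 0 < us s := Real.sqrt_pos.mpr (by positivity)

theorem us_sq (s : ℝ) : us s ^ 2 = 1 + s ^ 2 := Real.sq_sqrt (by positivity)

theorem us_mono {s t : ℝ} (hs : 0 ≤ s) (hst : s ≤ t) : us s ≤ us t :=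
  Real.sqrt_le_sqrt (by gcongr)

theorem continuous_us : Continuous us := by
  unfold us
  fun_prop

variable [MeasurableSpace E] [BorelSpace E]

theorem sg_nonneg : 0 ≤ sg E := ENNReal.toReal_nonneg

theorem sg_eq : sg E = (Module.finrank ℝ E : ℝ) * volume.real (Metric.ball (0 : E) 1) := by
  unfold sg
  rw [Measure.toSphere_apply_univ, ENNReal.toReal_mul, ENNReal.toReal_natCast]
  rfl

theorem polar [Nontrivial E] (f : ℝ → ℝ) : ∫ y : E, f ‖y‖
    = sg E * ∫ s in Ioi (0 : ℝ), s ^ (Module.finrank ℝ E - 1) * f s := by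
  have h := integral_fun_norm_addHaar (μ := (volume : Measure E)) f
  rw [h, sg_eq]
  simp only [smul_eq_mul, nsmul_eq_mul]
  ring

/-- the one-dimensional integral -/
theorem integral_cutd {R ε : ℝ} (hR : 0 < R) (hε : 0 < ε) (hεR : ε ≤ R ^ 2) :
    ∫ s in Ioi (0 : ℝ), cutd ε (s ^ 2 - R ^ 2) * (2 * s) = 1 := by
  have h1 : ∫ s in Ioi (0 : ℝ), cutd ε (s ^ 2 - R ^ 2) * (2 * s)
      = ∫ s in Ioc (0 : ℝ) R, cutd ε (s ^ 2 - R ^ 2) * (2 * s) := by
    refine setIntegral_eq_of_subset_of_forall_sdiff_eq_zero measurableSet_Ioi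
      Ioc_subset_Ioi_self (fun s hs => ?_)
    have hs0 : 0 < s := hs.1
    have hsR : R < s := by
      by_contra h
      exact hs.2 ⟨hs0, not_lt.mp h⟩
    rw [dl_cutd_of_pos hε (by nlinarith), zero_mul]
  rw [h1, ← intervalIntegral.integral_of_le hR.le]
  have hd : ∀ s ∈ uIcc (0 : ℝ) R, HasDerivAt (fun s => - cut ε (s ^ 2 - R ^ 2))
      (cutd ε (s ^ 2 - R ^ 2) * (2 * s)) s := by
    intro s _
    have h2 : HasDerivAt (fun s : ℝ => s ^ 2 - R ^ 2) (2 * s) s := by
      simpa using (hasDerivAt_pow 2 s).sub_const (R ^ 2)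
    have h3 := ((dl_hasDerivAt_cut ε (s ^ 2 - R ^ 2)).comp s h2).neg
    refine h3.congr_deriv ?_
    ring
  rw [intervalIntegral.integral_eq_sub_of_hasDerivAt hd]
  · have e1 : cut ε (R ^ 2 - R ^ 2) = 0 := dl_cut_of_nonneg hε (by simp)
    have e2 : cut ε ((0 : ℝ) ^ 2 - R ^ 2) = 1 := dl_cut_of_le hε (by nlinarith)
    rw [e1, e2]; norm_num
  · refine Continuous.intervalIntegrable ?_ _ _
    exact ((dl_cutd_contDiff ε (n := 0)).continuous.comp (by fun_prop)).mul (by fun_prop)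

/-- the radial flux integral -/
theorem integral_layer [Nontrivial E] (w : ℕ) {R ε : ℝ} (hR : 0 < R) (hε : 0 < ε)
    (hεR : ε ≤ R ^ 2) :
    ∫ y : E, cutd ε (‖y‖ ^ 2 - R ^ 2) * (2 * ‖y‖ * us ‖y‖ ^ w)
      ≤ sg E * rA (Module.finrank ℝ E - 1) w R := by
  rw [polar (E := E) (fun s => cutd ε (s ^ 2 - R ^ 2) * (2 * s * us s ^ w))]
  refine mul_le_mul_of_nonneg_left ?_ sg_nonneg
  change _ ≤ R ^ (Module.finrank ℝ E - 1) * us R ^ w
  have h1 := integral_cutd hR hε hεR
  have hcont : Continuous fun s : ℝ => cutd ε (s ^ 2 - R ^ 2) :=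
    (dl_cutd_contDiff ε (n := 0)).continuous.comp (by fun_prop)
  have hur : Continuous us := continuous_us
  have hsupp : ∀ s : ℝ, s ∉ Icc (-R) R → cutd ε (s ^ 2 - R ^ 2) = 0 := by
    intro s hs
    refine dl_cutd_of_pos hε ?_
    rw [mem_Icc, not_and_or, not_le, not_le] at hs
    rcases hs with h | h <;> nlinarith
  have hint : ∀ f : ℝ → ℝ, Continuous f → Integrable (fun s => cutd ε (s ^ 2 - R ^ 2) * f s) := by
    intro f hf
    refine (hcont.mul hf).integrable_of_hasCompactSupport ?_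
    refine HasCompactSupport.intro (K := Icc (-R) R) isCompact_Icc (fun s hs => ?_)
    show cutd ε (s ^ 2 - R ^ 2) * f s = 0
    rw [hsupp s hs, zero_mul]
  have h2 : R ^ (Module.finrank ℝ E - 1) * us R ^ w
      = ∫ s in Ioi (0 : ℝ), R ^ (Module.finrank ℝ E - 1) * us R ^ w
        * (cutd ε (s ^ 2 - R ^ 2) * (2 * s)) := by
    rw [integral_const_mul, h1, mul_one]
  rw [h2]
  refine setIntegral_mono_on ?_ ?_ measurableSet_Ioi (fun s hs => ?_)
  · have := (hint (fun s => 2 * s * us s ^ w * s ^ (Module.finrank ℝ E - 1)) (by fun_prop))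
    refine (this.congr (Eventually.of_forall fun s => ?_)).integrableOn
    simp only
    ring
  · exact ((hint (fun s => 2 * s) (by fun_prop)).const_mul _).integrableOn
  · have hs0 : 0 < s := hs
    by_cases hsR : s ≤ R
    · have e1 : s ^ (Module.finrank ℝ E - 1) * us s ^ w
          ≤ R ^ (Module.finrank ℝ E - 1) * us R ^ w :=
        mul_le_mul (pow_le_pow_left₀ hs0.le hsR _)
          (pow_le_pow_left₀ (us_pos s).le (us_mono hs0.le hsR) _)
          (pow_nonneg (us_pos s).le _) (pow_nonneg hR.le _)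
      have e2 : 0 ≤ cutd ε (s ^ 2 - R ^ 2) * (2 * s) :=
        mul_nonneg (dl_cutd_nonneg hε _) (by positivity)
      calc s ^ (Module.finrank ℝ E - 1) * (cutd ε (s ^ 2 - R ^ 2) * (2 * s * us s ^ w))
          = s ^ (Module.finrank ℝ E - 1) * us s ^ w * (cutd ε (s ^ 2 - R ^ 2) * (2 * s)) := by
            ring
        _ ≤ _ := mul_le_mul_of_nonneg_right e1 e2
    · rw [hsupp s (fun h => hsR h.2)]
      simp

theorem integral_ball [Nontrivial E] (f : ℝ → ℝ) {R : ℝ} (hR : 0 ≤ R) :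
    ∫ y in Metric.ball (0 : E) R, f ‖y‖
      = sg E * ∫ s in (0 : ℝ)..R, s ^ (Module.finrank ℝ E - 1) * f s := by
  rw [← integral_indicator Metric.isOpen_ball.measurableSet]
  have h1 : (fun y : E => (Metric.ball (0 : E) R).indicator (fun y => f ‖y‖) y)
      = fun y : E => (Iio R).indicator f ‖y‖ := by
    funext y
    by_cases hy : y ∈ Metric.ball (0 : E) R
    · rw [indicator_of_mem hy, indicator_of_mem (by simpa using hy)]
    · rw [indicator_of_notMem hy, indicator_of_notMem (by simpa using hy)]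
  rw [h1, polar]
  congr 1
  rw [intervalIntegral.integral_of_le hR, integral_Ioc_eq_integral_Ioo]
  have h2 : ∀ s : ℝ, s ^ (Module.finrank ℝ E - 1) * (Iio R).indicator f s
      = (Iio R).indicator (fun s => s ^ (Module.finrank ℝ E - 1) * f s) s := by
    intro s
    by_cases hs : s ∈ Iio R
    · rw [indicator_of_mem hs, indicator_of_mem hs]
    · rw [indicator_of_notMem hs, indicator_of_notMem hs, mul_zero]
  simp only [h2]
  rw [setIntegral_indicator measurableSet_Iio, Ioi_inter_Iio]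

omit [MeasurableSpace E] [BorelSpace E] in
theorem nontriv (V : Ver E) : Nontrivial E := by
  have := V.dim_le
  exact Module.nontrivial_of_finrank_pos (R := ℝ) (by omega)

omit [MeasurableSpace E] [BorelSpace E] in
theorem rho_pos (V : Ver E) (y : E) : 0 < rho V y := pow_pos (us_pos _) _

omit [FiniteDimensional ℝ E] [MeasurableSpace E] [BorelSpace E] in
theorem contDiff_uu' : ContDiff ℝ ∞ (uu : E → ℝ) := by
  unfold uu
  refine ContDiff.sqrt (contDiff_const.add (contDiff_norm_sq ℝ)) fun y => ?_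
  positivity

omit [MeasurableSpace E] [BorelSpace E] in
theorem contDiff_rho (V : Ver E) : ContDiff ℝ ∞ (rho V) := contDiff_uu'.pow _

omit [MeasurableSpace E] [BorelSpace E] in
theorem Q_nn (V : Ver E) (y v : E) : 0 ≤ ⟪V.Q y v, v⟫_ℝ := by
  by_cases hy : y = 0
  · have h := V.Q_smul 0 y
    rw [zero_smul] at h
    rw [hy, h]
    simp
  · have h1 : ‖y‖ ^ 2 * ⟪V.Q y v, v⟫_ℝ = ‖V.Q y v‖ ^ 2 := by
      rw [← real_inner_self_eq_norm_sq (V.Q y v), V.Q_symm y v (V.Q y v)] 
      rw [V.Q_Q, real_inner_smul_right, real_inner_comm]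
    have h2 : 0 < ‖y‖ ^ 2 := by positivity
    by_contra h3
    push Not at h3
    nlinarith [sq_nonneg ‖V.Q y v‖]

omit [MeasurableSpace E] [BorelSpace E] in
theorem inner_le_of_mg (V : Ver E) (y v : E) (h : mg V y v ≤ 1) : ⟪y, v⟫_ℝ ≤ ‖y‖ * us ‖y‖ := by
  unfold mg at h
  have h1 := Q_nn V y v
  have h2 := real_inner_mul_inner_self_le y v
  have hu := us_sq ‖y‖
  have hu0 := us_pos ‖y‖
  rw [uu_eq_us] at h
  have h3 : ⟪y, v⟫_ℝ ^ 2 ≤ (‖y‖ * us ‖y‖) ^ 2 := by
    have h4 : ‖v‖ ^ 2 - ⟪y, v⟫_ℝ ^ 2 / us ‖y‖ ^ 2 ≤ 1 := by linarith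
    have h5 : ‖v‖ ^ 2 * us ‖y‖ ^ 2 - ⟪y, v⟫_ℝ ^ 2 ≤ us ‖y‖ ^ 2 := by
      have := mul_le_mul_of_nonneg_right h4 (sq_nonneg (us ‖y‖))
      rw [sub_mul, div_mul_cancel₀ _ (by positivity)] at this
      linarith
    have h6 : ⟪y, v⟫_ℝ ^ 2 ≤ ‖y‖ ^ 2 * ‖v‖ ^ 2 := by
      have h7 := abs_real_inner_le_norm y v
      rw [← sq_abs, ← mul_pow]
      exact pow_le_pow_left₀ (abs_nonneg _) h7 2
    rw [mul_pow]
    rw [hu] at h5 ⊢
    nlinarith [sq_nonneg ‖y‖, sq_nonneg ‖v‖]
  exact abs_le_of_sq_le_sq h3 (by positivity) |>.trans' (le_abs_self _)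

end BallP

open BallP

variable {E : Type*} [NormedAddCommGroup E] [InnerProductSpace ℝ E] [FiniteDimensional ℝ E]
  [MeasurableSpace E] [BorelSpace E] (V : Ver E)

theorem mu_ball {s : ℝ} (hs : 0 < s) :
    mu V (Metric.ball 0 s) = ENNReal.ofReal (sg E * rV (Module.finrank ℝ E - 1) V.w s) := by
  have := nontriv V
  have h0 : (∫ x in (0 : ℝ)..s, rd (Module.finrank ℝ E - 1) V.w x)
      = ∫ x in (0 : ℝ)..s, x ^ (Module.finrank ℝ E - 1) * (us x ^ (V.w - 1)) := by
    refine intervalIntegral.integral_congr fun x _ => ?_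
    obtain ⟨k, hk⟩ : ∃ k, V.w = k + 1 := ⟨V.w - 1, by have := V.one_le_w; omega⟩
    have hx := us_pos x
    simp only [rd, hk, Nat.add_sub_cancel]
    change x ^ (Module.finrank ℝ E - 1) * us x ^ (k + 1) / us x
      = x ^ (Module.finrank ℝ E - 1) * us x ^ k
    field_simp
    try ring
  unfold rV mu
  rw [h0, ← integral_ball (E := E) (fun s => us s ^ (V.w - 1)) hs.le,
    withDensity_apply _ Metric.isOpen_ball.measurableSet, ← ofReal_integral_eq_lintegral_ofReal]
  · rfl
  · refine ((contDiff_rho V).continuous.continuousOn.integrableOn_compact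
      (isCompact_closedBall 0 s)).mono_set ?_
    exact Metric.ball_subset_closedBall
  · exact Eventually.of_forall fun y => (rho_pos V y).le

theorem area_ball_le {s : ℝ} (hs : 0 < s) :
    areaB V (Metric.ball 0 s) ≤ ENNReal.ofReal (sg E * rA (Module.finrank ℝ E - 1) V.w s) := by
  have := nontriv V
  have hreg := isReg_ball (E := E) hs
  unfold areaB
  refine iSup_le fun X => ENNReal.ofReal_le_ofReal ?_
  obtain ⟨X, hX, hXc, hX1⟩ := X
  simp only
  have hZ : ContDiff ℝ 1 (fun y => rho V y • X y) :=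
    ((contDiff_rho V).smul hX).of_le (by exact_mod_cast le_top)
  rw [← set_ball hs]
  have hlim := hreg.dl_tendsto_cut (dl_continuous_divE hZ)
  refine le_of_tendsto hlim ?_
  filter_upwards [Ioc_mem_nhdsGT (by positivity : (0 : ℝ) < s ^ 2)] with ε hε
  rw [hreg.dl_cut_flux hε.1 hZ]
  refine le_trans ?_ (integral_layer (E := E) V.w hs hε.1 hε.2)
  have hcd : Continuous fun y : E => cutd ε (‖y‖ ^ 2 - s ^ 2) :=
    (dl_cutd_contDiff ε (n := 0)).continuous.comp (by fun_prop)
  have hsup := hreg.dl_cutd_hcs hε.1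
  refine integral_mono ?_ ?_ (fun y => ?_)
  · refine Continuous.integrable_of_hasCompactSupport ?_ ?_
    · refine hcd.mul ?_
      exact (hreg.smooth.continuous_fderiv (by simp)).clm_apply
        (hZ.continuous)
    · exact hsup.mul_right
  · refine Continuous.integrable_of_hasCompactSupport ?_ ?_
    · exact hcd.mul ((continuous_const.mul continuous_norm).mul
        ((continuous_us.comp continuous_norm).pow V.w))
    · exact hsup.mul_right
  · refine mul_le_mul_of_nonneg_left ?_ (dl_cutd_nonneg hε.1 _)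
    have h1 := inner_le_of_mg V y (X y) (hX1 y)
    rw [fderiv_ball, real_inner_smul_right]
    have h2 := mul_le_mul_of_nonneg_left h1 (rho_pos V y).le
    have h3 : rho V y * (‖y‖ * us ‖y‖) = ‖y‖ * us ‖y‖ ^ V.w := by
      obtain ⟨k, hk⟩ : ∃ k, V.w = k + 1 := ⟨V.w - 1, by have := V.one_le_w; omega⟩
      rw [rho, uu_eq_us, hk, Nat.add_sub_cancel]
      ring
    rw [h3] at h2
    linarith

theorem ball_eq (H : HomB V) (a : E) {s : ℝ} (hs : 0 < s) :
    {y | H.chd a y < us s} = H.phi a '' Metric.ball 0 s := by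
  have h1 : ∀ x : E, H.chd a (H.phi a x) = us ‖x‖ := by
    intro x
    have h2 := H.chd_phi a 0 x
    rw [H.phi_zero, H.chd_zero] at h2
    exact h2
  have h3 : ∀ x : E, us ‖x‖ < us s ↔ ‖x‖ < s := by
    intro x
    unfold us
    rw [Real.sqrt_lt_sqrt_iff (by positivity), add_lt_add_iff_left]
    exact sq_lt_sq₀ (norm_nonneg x) hs.le
  ext y
  constructor
  · intro hy
    refine ⟨H.inv a y, ?_, H.phi_inv a y⟩
    rw [mem_ball_zero_iff, ← h3, ← h1, H.phi_inv]
    exact hy
  · rintro ⟨x, hx, rfl⟩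
    show H.chd a (H.phi a x) < us s
    rw [h1, h3]
    exact mem_ball_zero_iff.mp hx

theorem mu_phi (H : HomB V) (a : E) {D : Set E} (hD : MeasurableSet D) :
    mu V (H.phi a '' D) = mu V D := by
  have h1 : H.phi a '' D = (H.inv a) ⁻¹' D := by
    ext y
    constructor
    · rintro ⟨x, hx, rfl⟩
      show H.inv a (H.phi a x) ∈ D
      rwa [H.inv_phi]
    · intro hy
      exact ⟨H.inv a y, hy, H.phi_inv a y⟩
  have h2 : MeasurableSet (H.phi a '' D) := by
    rw [h1]
    exact (H.smooth_inv a).continuous.measurable hD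
  have h3 := (H.mp a).measure_preimage h2.nullMeasurableSet
  rw [← h3]
  congr 1
  ext x
  constructor
  · rintro ⟨z, hz, hzx⟩
    have : z = x := by rw [← H.inv_phi a z, hzx, H.inv_phi]
    rwa [← this]
  · intro hx
    exact ⟨x, hx, rfl⟩

namespace BallP

/-- the cutoff of the radial field -/
def th (s t : ℝ) : ℝ :=
  Real.smoothTransition (4 * t / s ^ 2 - 1) * Real.smoothTransition (3 - t / s ^ 2)

theorem th_nonneg (s t : ℝ) : 0 ≤ th s t :=
  mul_nonneg (Real.smoothTransition.nonneg _) (Real.smoothTransition.nonneg _)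

theorem th_le_one (s t : ℝ) : th s t ≤ 1 :=
  mul_le_one₀ (Real.smoothTransition.le_one _) (Real.smoothTransition.nonneg _)
    (Real.smoothTransition.le_one _)

theorem th_small {s t : ℝ} (hs : 0 < s) (ht : t ≤ s ^ 2 / 4) : th s t = 0 := by
  unfold th
  rw [Real.smoothTransition.zero_of_nonpos, zero_mul]
  rw [sub_nonpos, div_le_one (by positivity)]
  linarith

theorem th_large {s t : ℝ} (hs : 0 < s) (ht : 3 * s ^ 2 ≤ t) : th s t = 0 := by
  unfold th
  rw [Real.smoothTransition.zero_of_nonpos (x := 3 - t / s ^ 2), mul_zero]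
  rw [sub_nonpos, le_div_iff₀ (by positivity)]
  linarith

theorem th_one {s t : ℝ} (hs : 0 < s) (ht : s ^ 2 / 2 ≤ t) (ht' : t ≤ 2 * s ^ 2) :
    th s t = 1 := by
  unfold th
  rw [Real.smoothTransition.one_of_one_le, Real.smoothTransition.one_of_one_le, one_mul]
  · have : t / s ^ 2 ≤ 2 := by rw [div_le_iff₀ (by positivity)]; exact ht'
    linarith
  · have : 2 ≤ 4 * t / s ^ 2 := by rw [le_div_iff₀ (by positivity)]; linarith
    linarith

theorem contDiff_th (s : ℝ) : ContDiff ℝ ∞ (th s) := by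
  unfold th
  refine ContDiff.mul ?_ ?_
  · exact Real.smoothTransition.contDiff.comp
      (((contDiff_const.mul contDiff_id).div_const _).sub contDiff_const)
  · exact Real.smoothTransition.contDiff.comp (contDiff_const.sub (contDiff_id.div_const _))

/-- the radial profile -/
def Fp (s : ℝ) (k : ℕ) (t : ℝ) : ℝ := th s t * (Real.sqrt (1 + t) ^ k / Real.sqrt t)

theorem contDiff_Fp {s : ℝ} (hs : 0 < s) (k : ℕ) : ContDiff ℝ ∞ (Fp s k) := by
  rw [contDiff_iff_contDiffAt]
  intro t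
  by_cases ht : 0 < t
  · unfold Fp
    refine (contDiff_th s).contDiffAt.mul ?_
    refine ContDiffAt.div ?_ ?_ (Real.sqrt_pos.mpr ht).ne'
    · exact (ContDiffAt.sqrt (contDiffAt_const.add contDiffAt_id) (by
        simp only [id]; linarith)).pow k
    · exact ContDiffAt.sqrt contDiffAt_id ht.ne'
  · have h1 : Fp s k =ᶠ[𝓝 t] fun _ => (0 : ℝ) := by
      have h2 : t < s ^ 2 / 4 := lt_of_le_of_lt (not_lt.mp ht) (by positivity)
      filter_upwards [gt_mem_nhds h2] with x hx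
      unfold Fp
      rw [th_small hs (le_of_lt hx), zero_mul]
    exact contDiffAt_const.congr_of_eventuallyEq h1

/-- the flux of a radial field through a sphere -/
theorem flux_radial [Nontrivial E] {F : ℝ → ℝ} (hF : ContDiff ℝ ∞ F) {s : ℝ} (hs : 0 < s) :
    ∫ y in Metric.ball (0 : E) s, divE (fun z => F (‖z‖ ^ 2) • z) y
      = sg E * (s ^ (Module.finrank ℝ E) * F (s ^ 2)) := by
  have hn : 0 < Module.finrank ℝ E := Module.finrank_pos
  have h1 : ∀ y : E, divE (fun z => F (‖z‖ ^ 2) • z) y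
      = (fun r : ℝ => (Module.finrank ℝ E : ℝ) * F (r ^ 2) + 2 * r ^ 2 * deriv F (r ^ 2)) ‖y‖ := by
    intro y
    have hd : HasFDerivAt (fun z : E => F (‖z‖ ^ 2)) (deriv F (‖y‖ ^ 2) • (2 • (innerSL ℝ y))) y :=
      ((hF.differentiable (by simp)) (‖y‖ ^ 2)).hasDerivAt.comp_hasFDerivAt y
        (hasStrictFDerivAt_norm_sq y).hasFDerivAt
    rw [dl_divE_smul hd.differentiableAt differentiableAt_fun_id, hd.fderiv]
    have h2 : divE (fun z : E => z) y = Module.finrank ℝ E := by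
      unfold divE
      rw [fderiv_fun_id]
      unfold tr
      exact LinearMap.trace_id ℝ E
    rw [h2]
    simp
    ring
  rw [integral_congr_ae (Eventually.of_forall h1),
    integral_ball (E := E) (fun r : ℝ => (Module.finrank ℝ E : ℝ) * F (r ^ 2)
      + 2 * r ^ 2 * deriv F (r ^ 2)) hs.le]
  congr 1
  have h3 : ∀ r ∈ uIcc (0 : ℝ) s, HasDerivAt (fun r : ℝ => r ^ (Module.finrank ℝ E) * F (r ^ 2))
      (r ^ (Module.finrank ℝ E - 1) * ((Module.finrank ℝ E : ℝ) * F (r ^ 2)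
        + 2 * r ^ 2 * deriv F (r ^ 2))) r := by
    intro r _
    have h4 : HasDerivAt (fun r : ℝ => r ^ 2) (2 * r) r := by
      simpa using hasDerivAt_pow 2 r
    have h5 : HasDerivAt (fun r : ℝ => F (r ^ 2)) (deriv F (r ^ 2) * (2 * r)) r :=
      ((hF.differentiable (by simp)) (r ^ 2)).hasDerivAt.comp r h4
    refine ((hasDerivAt_pow (Module.finrank ℝ E) r).mul h5).congr_deriv ?_
    obtain ⟨k, hk⟩ : ∃ k, Module.finrank ℝ E = k + 1 := ⟨Module.finrank ℝ E - 1, by omega⟩
    rw [hk, Nat.add_sub_cancel]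
    ring
  rw [intervalIntegral.integral_eq_sub_of_hasDerivAt h3]
  · rw [zero_pow hn.ne']
    ring
  · refine Continuous.intervalIntegrable ?_ _ _
    have h6 : Continuous (deriv F) := hF.continuous_deriv (by simp)
    have h7 := hF.continuous
    fun_prop

end BallP

theorem le_area_ball {s : ℝ} (hs : 0 < s) :
    ENNReal.ofReal (sg E * rA (Module.finrank ℝ E - 1) V.w s) ≤ areaB V (Metric.ball 0 s) := by
  have := nontriv V
  have hn : 0 < Module.finrank ℝ E := Module.finrank_pos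
  unfold areaB
  have hX : ContDiff ℝ ∞ (fun y : E => Fp s 1 (‖y‖ ^ 2) • y) :=
    ((contDiff_Fp hs 1).comp (contDiff_norm_sq ℝ)).smul contDiff_id
  have hXc : HasCompactSupport (fun y : E => Fp s 1 (‖y‖ ^ 2) • y) := by
    refine HasCompactSupport.intro (isCompact_closedBall (0 : E) (2 * s)) (fun y hy => ?_)
    have h1 : 2 * s < ‖y‖ := by simpa using hy
    rw [Fp, th_large hs (by nlinarith), zero_mul, zero_smul]
  have hX1 : ∀ y : E, mg V y (Fp s 1 (‖y‖ ^ 2) • y) ≤ 1 := by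
    intro y
    by_cases hy : y = 0
    · rw [hy]
      simp [mg]
    · have hy0 : 0 < ‖y‖ := norm_pos_iff.mpr hy
      have hu := us_sq ‖y‖
      have hu0 := us_pos ‖y‖
      have e1 : Fp s 1 (‖y‖ ^ 2) = th s (‖y‖ ^ 2) * (us ‖y‖ / ‖y‖) := by
        rw [Fp, pow_one, Real.sqrt_sq hy0.le, us]
      have e2 : mg V y (Fp s 1 (‖y‖ ^ 2) • y) = th s (‖y‖ ^ 2) ^ 2 := by
        rw [mg, map_smul, V.Q_self, smul_zero, inner_zero_left, add_zero, norm_smul,
          real_inner_smul_right, real_inner_self_eq_norm_sq, e1, uu_eq_us, Real.norm_eq_abs,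
          mul_pow, sq_abs]
        field_simp
        rw [hu]
        ring
      rw [e2]
      exact pow_le_one₀ (th_nonneg _ _) (th_le_one _ _)
  refine le_trans ?_ (le_iSup _ ⟨_, hX, hXc, hX1⟩)
  refine ENNReal.ofReal_le_ofReal (le_of_eq ?_)
  have h1 : (fun z : E => rho V z • Fp s 1 (‖z‖ ^ 2) • z) = fun z => Fp s V.w (‖z‖ ^ 2) • z := by
    funext z
    rw [smul_smul]
    congr 1
    obtain ⟨k, hk⟩ : ∃ k, V.w = k + 1 := ⟨V.w - 1, by have := V.one_le_w; omega⟩
    rw [rho, hk, Nat.add_sub_cancel, uu, Fp, Fp]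
    ring
  simp only [h1]
  rw [flux_radial (contDiff_Fp hs V.w) hs]
  congr 1
  rw [Fp, th_one hs (by nlinarith [sq_nonneg s]) (by nlinarith [sq_nonneg s]), Real.sqrt_sq hs.le,
    rA]
  obtain ⟨k, hk⟩ : ∃ k, Module.finrank ℝ E = k + 1 := ⟨Module.finrank ℝ E - 1, by omega⟩
  rw [hk, Nat.add_sub_cancel]
  field_simp
  ring

end

end Pool.Agent.Work.MP_3b24f6_gt
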