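import Pool.Agent.Work.MP_3b24f6_gt.Model

set_option autoImplicit false

open MeasureTheory Set Filter Topology
open scoped ContDiff InnerProductSpace Manifold

namespace Pool.Agent.Work.MP_3b24f6_gt

noncomputable section

variable {E : Type*} [NormedAddCommGroup E] [InnerProductSpace ℝ E] [FiniteDimensional ℝ E]

namespace Loc

/-- Local data: near every point there is a smooth function with the sign pattern of `D`. -/
structure LocalDef (D : Set E) (f : E → ℝ) (V : Set E) : Prop where
  isOpen : IsOpen V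
  smooth : ContDiffOn ℝ ∞ f V
  neg : ∀ y ∈ V, y ∈ D → f y < 0
  pos : ∀ y ∈ V, y ∉ closure D → 0 < f y
  zero : ∀ y ∈ V, y ∈ frontier D → f y = 0
  reg : ∀ y ∈ V, f y = 0 → fderiv ℝ f y ≠ 0

omit [FiniteDimensional ℝ E] in
/-- A function with nonzero derivative at a zero is negative somewhere in every neighbourhood. -/
theorem exists_neg_near {f : E → ℝ} {y : E} (h0 : f y = 0)
    (hd : fderiv ℝ f y ≠ 0) {V : Set E} (hV : V ∈ 𝓝 y) : ∃ z ∈ V, f z < 0 := by
  by_contra hcon
  push Not at hcon
  have hmin : IsLocalMin f y := by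
    filter_upwards [hV] with z hz
    rw [h0]
    exact hcon z hz
  exact hd hmin.fderiv_eq_zero

omit [FiniteDimensional ℝ E] in
theorem exists_local {D : Set E} (hD : SmoothDomain D) (x : E) :
    ∃ f : E → ℝ, ∃ V : Set E, x ∈ V ∧ LocalDef D f V := by
  by_cases hxD : x ∈ D
  · refine ⟨fun _ => -1, D, hxD, ⟨hD.isOpen, contDiffOn_const, fun y _ _ => by norm_num, ?_, ?_, ?_⟩⟩
    · intro y hy hy'
      exact absurd (subset_closure hy) hy'
    · intro y hy hy'
      rw [hD.isOpen.frontier_eq] at hy'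
      exact absurd hy hy'.2
    · intro y _ h
      norm_num at h
  by_cases hxc : x ∈ closure D
  · have hxf : x ∈ frontier D := by
      rw [hD.isOpen.frontier_eq]
      exact ⟨hxc, hxD⟩
    obtain ⟨f, U, hU, hfU, hfx, hfD⟩ := hD.bdry x hxf
    obtain ⟨W, hWU, hWo, hxW⟩ := mem_nhds_iff.1 hU
    have hfW : ContDiffOn ℝ ∞ f W := hfU.mono hWU
    have hcont : ContinuousOn (fderiv ℝ f) W :=
      hfW.continuousOn_fderiv_of_isOpen hWo (by simp)
    have hopen : IsOpen (W ∩ (fderiv ℝ f) ⁻¹' {0}ᶜ) :=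
      hcont.isOpen_inter_preimage hWo isOpen_compl_singleton
    refine ⟨f, W ∩ (fderiv ℝ f) ⁻¹' {0}ᶜ, ⟨hxW, hfx⟩, ⟨hopen, hfW.mono inter_subset_left, ?_, ?_, ?_,
      ?_⟩⟩
    · intro y hy hyD
      exact (hfD y (hWU hy.1)).1 hyD
    · intro y hy hyc
      have h1 : ¬ f y < 0 := fun h => hyc (subset_closure ((hfD y (hWU hy.1)).2 h))
      rcases lt_or_eq_of_le (not_lt.1 h1) with h | h
      · exact h
      · exfalso
        have hnh : W ∩ (closure D)ᶜ ∈ 𝓝 y :=
          (hWo.inter isClosed_closure.isOpen_compl).mem_nhds ⟨hy.1, hyc⟩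
        obtain ⟨z, hz, hfz⟩ := exists_neg_near h.symm hy.2 hnh
        exact hz.2 (subset_closure ((hfD z (hWU hz.1)).2 hfz))
    · intro y hy hyf
      rw [hD.isOpen.frontier_eq] at hyf
      have h1 : 0 ≤ f y := by
        by_contra h
        exact hyf.2 ((hfD y (hWU hy.1)).2 (not_le.1 h))
      have h2 : f y ≤ 0 := by
        by_contra h
        have hc : ContinuousAt f y := (hfW.contDiffAt (hWo.mem_nhds hy.1)).continuousAt
        have h3 : ∀ᶠ z in 𝓝 y, 0 < f z := hc.eventually (lt_mem_nhds (not_le.1 h))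
        have h4 : ∃ᶠ z in 𝓝 y, z ∈ D := mem_closure_iff_frequently.1 hyf.1
        obtain ⟨z, hzD, hz0, hzW⟩ := (h4.and_eventually (h3.and (hWo.mem_nhds hy.1))).exists
        exact absurd ((hfD z (hWU hzW)).1 hzD) (not_lt.2 hz0.le)
      exact le_antisymm h2 h1
    · intro y hy _
      exact hy.2
  · refine ⟨fun _ => 1, (closure D)ᶜ, hxc, ⟨isClosed_closure.isOpen_compl, contDiffOn_const, ?_,
      fun y _ _ => by norm_num, ?_, ?_⟩⟩
    · intro y hy hy'
      exact absurd (subset_closure hy') hy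
    · intro y hy hy'
      exact absurd (frontier_subset_closure hy') hy
    · intro y _ h
      norm_num at h

theorem exists_reg {D : Set E} (hD : SmoothDomain D) :
    ∃ w : E → ℝ, IsReg w ∧ D = {x | w x < 0} := by
  choose f V hxV hL using exists_local hD
  obtain ⟨ρ, hρ⟩ := SmoothPartitionOfUnity.exists_isSubordinate (M := E) 𝓘(ℝ, E)
    (s := (univ : Set E)) isClosed_univ V (fun i => (hL i).isOpen)
    (fun x _ => mem_iUnion.2 ⟨x, hxV x⟩)
  let w : E → ℝ := fun y => ∑ᶠ i, ρ i y • f i y
  have hmem : ∀ y i, ρ i y ≠ 0 → y ∈ V i := fun y i h =>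
    hρ i (subset_tsupport _ (by simpa using h))
  have hw : ContDiff ℝ ∞ w := by
    have h1 : ContMDiff 𝓘(ℝ, E) 𝓘(ℝ, ℝ) ∞ fun y => ∑ᶠ i, ρ i y • f i y :=
      hρ.contMDiff_finsum_smul (fun i => (hL i).isOpen)
        (fun i => (hL i).smooth.contMDiffOn)
    exact h1.contDiff
  have hneg : ∀ y ∈ D, w y < 0 := fun y hy =>
    ρ.finsum_smul_mem_convex (g := f) (t := Iio (0 : ℝ)) (mem_univ y)
      (fun i hi => (hL i).neg y (hmem y i hi) hy) (convex_Iio 0)
  have hpos : ∀ y, y ∉ closure D → 0 < w y := fun y hy =>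
    ρ.finsum_smul_mem_convex (g := f) (t := Ioi (0 : ℝ)) (mem_univ y)
      (fun i hi => (hL i).pos y (hmem y i hi) hy) (convex_Ioi 0)
  have hzero : ∀ y ∈ frontier D, w y = 0 := fun y hy =>
    ρ.finsum_smul_mem_convex (g := f) (t := {(0 : ℝ)}) (mem_univ y)
      (fun i hi => (hL i).zero y (hmem y i hi) hy) (convex_singleton 0)
  have hfr : frontier D = closure D \ D := hD.isOpen.frontier_eq
  have hDeq : D = {x | w x < 0} := by
    ext y
    refine ⟨fun h => hneg y h, fun h => ?_⟩
    by_contra hy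
    by_cases hc : y ∈ closure D
    · have : w y = 0 := hzero y (by rw [hfr]; exact ⟨hc, hy⟩)
      exact absurd h (by simp [this])
    · exact absurd h (not_lt.2 (hpos y hc).le)
  have hz : ∀ y, w y = 0 → y ∈ frontier D := by
    intro y hy
    rw [hfr]
    refine ⟨?_, fun h => absurd (hneg y h) (by simp [hy])⟩
    by_contra hc
    exact absurd hy (hpos y hc).ne'
  refine ⟨w, ⟨hw, ?_, ?_⟩, hDeq⟩
  · have hcl : {x | w x ≤ 0} ⊆ closure D := by
      intro y hy
      by_contra hc
      exact absurd hy (not_le.2 (hpos y hc))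
    have hclosed : IsClosed {x | w x ≤ 0} := isClosed_le hw.continuous continuous_const
    exact Metric.isCompact_of_isClosed_isBounded hclosed (hD.bdd.closure.subset hcl)
  · intro y hy hdw
    have hyf := hz y hy
    obtain ⟨i, hi⟩ := ρ.exists_pos_of_mem (mem_univ y)
    have hyV : y ∈ V i := hmem y i hi.ne'
    have hfi : f i y = 0 := (hL i).zero y hyV hyf
    have hdi : fderiv ℝ (f i) y ≠ 0 := (hL i).reg y hyV hfi
    obtain ⟨v, hv⟩ : ∃ v, 0 < fderiv ℝ (f i) y v := by
      obtain ⟨v, hv⟩ : ∃ v, fderiv ℝ (f i) y v ≠ 0 := by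
        by_contra hcon
        push Not at hcon
        exact hdi (ContinuousLinearMap.ext hcon)
      rcases lt_or_gt_of_ne hv with h | h
      · exact ⟨-v, by simpa using h⟩
      · exact ⟨v, h⟩
    have hdfi : DifferentiableAt ℝ (f i) y :=
      ((hL i).smooth.contDiffAt ((hL i).isOpen.mem_nhds hyV)).differentiableAt (by simp)
    have hdρ : DifferentiableAt ℝ (fun z => ρ i z) y :=
      (ρ i).contMDiff.contDiff.differentiable (by simp) y
    have hdw' : DifferentiableAt ℝ w y := hw.differentiable (by simp) y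
    -- the difference along the ray
    have hline : HasDerivAt (fun t : ℝ => y + t • v) v 0 := by
      simpa using ((hasDerivAt_id (0 : ℝ)).smul_const v).const_add y
    have hy0 : y + (0 : ℝ) • v = y := by simp
    have h1 : HasDerivAt (fun t : ℝ => w (y + t • v)) 0 0 := by
      have := (hdw'.hasFDerivAt).comp_hasDerivAt_of_eq (0 : ℝ) hline hy0.symm
      simpa [hdw, Function.comp_def] using this
    have h2 : HasDerivAt (fun t : ℝ => f i (y + t • v)) (fderiv ℝ (f i) y v) 0 :=
      (hdfi.hasFDerivAt).comp_hasDerivAt_of_eq (0 : ℝ) hline hy0.symm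
    have h3 : HasDerivAt (fun t : ℝ => ρ i (y + t • v)) (fderiv ℝ (fun z => ρ i z) y v) 0 :=
      (hdρ.hasFDerivAt).comp_hasDerivAt_of_eq (0 : ℝ) hline hy0.symm
    have h4 : HasDerivAt (fun t : ℝ => w (y + t • v) - ρ i (y + t • v) * f i (y + t • v))
        (-(ρ i y * fderiv ℝ (f i) y v)) 0 := by
      have := h1.sub (h3.mul h2)
      simp only [zero_smul, add_zero, hfi, mul_zero, zero_add, zero_sub] at this
      exact this
    have hc : -(ρ i y * fderiv ℝ (f i) y v) < 0 := by
      have := mul_pos hi hv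
      linarith
    -- for small positive `t` the point leaves the closure of `D`
    have hcont : Tendsto (fun t : ℝ => y + t • v) (𝓝[>] 0) (𝓝 y) := by
      have : Tendsto (fun t : ℝ => y + t • v) (𝓝 0) (𝓝 (y + (0 : ℝ) • v)) :=
        hline.continuousAt
      rw [hy0] at this
      exact this.mono_left nhdsWithin_le_nhds
    have hev1 : ∀ᶠ t in 𝓝[>] (0 : ℝ), y + t • v ∈ V i :=
      hcont ((hL i).isOpen.mem_nhds hyV)
    have hev2 : ∀ᶠ t in 𝓝[>] (0 : ℝ), 0 < f i (y + t • v) := by
      have := (hasDerivAt_iff_tendsto_slope.1 h2).mono_left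
        (nhdsWithin_mono 0 (fun t (ht : t ∈ Ioi (0 : ℝ)) => ht.ne'))
      filter_upwards [this.eventually (lt_mem_nhds hv), self_mem_nhdsWithin] with t ht ht0
      rw [slope_def_field] at ht
      simp only [zero_smul, add_zero, hfi, sub_zero] at ht
      have ht0' : (0 : ℝ) < t := ht0
      exact (div_pos_iff_of_pos_right ht0').1 ht
    have hev3 : ∀ᶠ t in 𝓝[>] (0 : ℝ),
        0 ≤ w (y + t • v) - ρ i (y + t • v) * f i (y + t • v) := by
      filter_upwards [hev1, hev2] with t htV htf
      have hnot : y + t • v ∉ closure D := by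
        intro hcl
        by_cases hin : y + t • v ∈ D
        · exact absurd ((hL i).neg _ htV hin) (not_lt.2 htf.le)
        · have : f i (y + t • v) = 0 := (hL i).zero _ htV (by rw [hfr]; exact ⟨hcl, hin⟩)
          exact absurd this htf.ne'
      have hfin : (Function.support fun j => ρ j (y + t • v) • f j (y + t • v)).Finite :=
        (ρ.locallyFinite.point_finite (y + t • v)).subset (fun j hj => by
          simp only [Function.mem_support] at hj ⊢
          intro h0
          exact hj (by simp [h0]))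
      have hnn : ∀ j, 0 ≤ ρ j (y + t • v) • f j (y + t • v) := by
        intro j
        by_cases h0 : ρ j (y + t • v) = 0
        · simp [h0]
        · exact mul_nonneg (ρ.nonneg j _) ((hL j).pos _ (hmem _ j h0) hnot).le
      have := single_le_finsum i hfin hnn
      simp only [smul_eq_mul] at this
      show 0 ≤ (∑ᶠ j, ρ j (y + t • v) • f j (y + t • v)) - _
      simp only [smul_eq_mul]
      linarith
    have hlim := (hasDerivAt_iff_tendsto_slope.1 h4).mono_left
        (nhdsWithin_mono 0 (fun t (ht : t ∈ Ioi (0 : ℝ)) => ht.ne'))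
    have hge : 0 ≤ -(ρ i y * fderiv ℝ (f i) y v) := by
      refine ge_of_tendsto hlim ?_
      filter_upwards [hev3, self_mem_nhdsWithin] with t ht ht0
      rw [slope_def_field]
      have ht0' : (0 : ℝ) < t := ht0
      have h00 : w (y + (0 : ℝ) • v) - ρ i (y + (0 : ℝ) • v) * f i (y + (0 : ℝ) • v) = 0 := by
        simp [hfi, hy]
      rw [h00, sub_zero, sub_zero]
      exact div_nonneg ht ht0'.le
    exact absurd hge (not_le.2 hc)

end Loc

/-- T8 (file Local.lean). -/
theorem smoothDomain_iff (D : Set E) :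
    SmoothDomain D ↔ ∃ w : E → ℝ, IsReg w ∧ D = {x | w x < 0} := by
  constructor
  · exact fun h => Loc.exists_reg h
  · rintro ⟨w, hw, rfl⟩
    refine ⟨isOpen_lt hw.smooth.continuous continuous_const,
      hw.cpt.isBounded.subset (fun x (hx : w x < 0) => (le_of_lt hx : w x ≤ 0)), ?_⟩
    intro x hx
    have hx0 : w x = 0 := frontier_lt_subset_eq hw.smooth.continuous continuous_const hx
    exact ⟨w, univ, univ_mem, hw.smooth.contDiffOn, hw.reg x hx0, fun y _ => Iff.rfl⟩

end

end Pool.Agent.Work.MP_3b24f6_gt
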