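import Pool.Agent.Work.MP_3b24f6_gt.ModelB

set_option autoImplicit false
set_option linter.unusedSectionVars false

open MeasureTheory Set Filter Topology
open scoped ContDiff InnerProductSpace

namespace Pool.Agent.Work.MP_3b24f6_gt

noncomputable section

variable {E : Type*} [NormedAddCommGroup E] [InnerProductSpace ℝ E] [FiniteDimensional ℝ E]

/-! Elementary facts on `uu`. -/

theorem uu_sq (y : E) : uu y ^ 2 = 1 + ‖y‖ ^ 2 := Real.sq_sqrt (by positivity)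

theorem uu_pos (y : E) : 0 < uu y := Real.sqrt_pos.mpr (by positivity)

theorem one_le_uu (y : E) : 1 ≤ uu y := Real.one_le_sqrt.mpr (by nlinarith [sq_nonneg ‖y‖])

theorem norm_lt_uu (y : E) : ‖y‖ < uu y := by
  rw [uu, Real.lt_sqrt (norm_nonneg y)]; linarith

theorem contDiff_uu : ContDiff ℝ ∞ (uu : E → ℝ) := by
  unfold uu
  refine ContDiff.sqrt ?_ (fun y => by positivity)
  exact contDiff_const.add (contDiff_norm_sq ℝ)

theorem continuous_uu : Continuous (uu : E → ℝ) := contDiff_uu.continuous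

/-! Algebra of `Q`. -/

theorem Q_zero (V : Ver E) : V.Q 0 = 0 := by
  have := V.Q_smul 0 0
  simpa using this

theorem Q_nonneg (V : Ver E) (y ξ : E) : 0 ≤ ⟪V.Q y ξ, ξ⟫_ℝ := by
  rcases eq_or_ne y 0 with rfl | hy
  · rw [Q_zero]; simp
  · have h1 : ‖y‖ ^ 2 * ⟪V.Q y ξ, ξ⟫_ℝ = ‖V.Q y ξ‖ ^ 2 := by
      have h2 : ⟪V.Q y (V.Q y ξ), ξ⟫_ℝ = ‖V.Q y ξ‖ ^ 2 := by
        rw [V.Q_symm, real_inner_self_eq_norm_sq]
      rw [V.Q_Q, real_inner_smul_left] at h2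
      exact h2
    have hy2 : 0 < ‖y‖ ^ 2 := by positivity
    by_contra hneg
    push Not at hneg
    have : ‖y‖ ^ 2 * ⟪V.Q y ξ, ξ⟫_ℝ < 0 := mul_neg_of_pos_of_neg hy2 hneg
    nlinarith [sq_nonneg ‖V.Q y ξ‖]

theorem norm_Q_sq (V : Ver E) (y ξ : E) : ‖V.Q y ξ‖ ^ 2 = ‖y‖ ^ 2 * ⟪V.Q y ξ, ξ⟫_ℝ := by
  have h2 : ⟪V.Q y (V.Q y ξ), ξ⟫_ℝ = ‖V.Q y ξ‖ ^ 2 := by
    rw [V.Q_symm, real_inner_self_eq_norm_sq]
  rw [V.Q_Q, real_inner_smul_left] at h2
  exact h2.symm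

theorem inner_Q_self (V : Ver E) (y ξ : E) : ⟪V.Q y ξ, y⟫_ℝ = 0 := by
  rw [V.Q_symm, V.Q_self, inner_zero_right]

theorem inner_self_Q (V : Ver E) (y ξ : E) : ⟪y, V.Q y ξ⟫_ℝ = 0 := by
  rw [real_inner_comm, inner_Q_self]

theorem Q_le (V : Ver E) (y ξ : E) : ⟪V.Q y ξ, ξ⟫_ℝ ≤ ‖y‖ ^ 2 * ‖ξ‖ ^ 2 - ⟪y, ξ⟫_ℝ ^ 2 := by
  rcases eq_or_ne y 0 with rfl | hy
  · rw [Q_zero]; simp
  · have hy2 : 0 < ‖y‖ ^ 2 := by positivity
    -- ‖ |y|² ξ - ⟪y,ξ⟫ y - Q ξ ‖² ≥ 0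
    have h := sq_nonneg ‖(‖y‖ ^ 2) • ξ - ⟪y, ξ⟫_ℝ • y - V.Q y ξ‖
    have e : ‖(‖y‖ ^ 2) • ξ - ⟪y, ξ⟫_ℝ • y - V.Q y ξ‖ ^ 2
        = ‖y‖ ^ 2 * (‖y‖ ^ 2 * ‖ξ‖ ^ 2 - ⟪y, ξ⟫_ℝ ^ 2 - ⟪V.Q y ξ, ξ⟫_ℝ) := by
      rw [← real_inner_self_eq_norm_sq]
      simp only [inner_sub_left, inner_sub_right, real_inner_smul_left, real_inner_smul_right,
        inner_Q_self, inner_self_Q]
      rw [real_inner_self_eq_norm_sq, real_inner_self_eq_norm_sq, real_inner_self_eq_norm_sq,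
        norm_Q_sq, real_inner_comm (V.Q y ξ) ξ, real_inner_comm ξ y]
      ring
    rw [e] at h
    have := nonneg_of_mul_nonneg_right h hy2
    linarith

/-- The radicand of `an`, as a form. -/
def an2 (V : Ver E) (y ξ : E) : ℝ :=
  ‖ξ‖ ^ 2 + ⟪y, ξ⟫_ℝ ^ 2 - ⟪V.Q y ξ, ξ⟫_ℝ / uu y ^ 2

theorem norm_sq_le_an2 (V : Ver E) (y ξ : E) : ‖ξ‖ ^ 2 ≤ uu y ^ 2 * an2 V y ξ := by
  unfold an2
  have hu : 0 < uu y ^ 2 := by have := uu_pos y; positivity
  have h1 := Q_le V y ξ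
  have h2 : uu y ^ 2 * (‖ξ‖ ^ 2 + ⟪y, ξ⟫_ℝ ^ 2 - ⟪V.Q y ξ, ξ⟫_ℝ / uu y ^ 2)
      = uu y ^ 2 * (‖ξ‖ ^ 2 + ⟪y, ξ⟫_ℝ ^ 2) - ⟪V.Q y ξ, ξ⟫_ℝ := by
    rw [mul_sub, mul_div_cancel₀ _ hu.ne']
  rw [h2, uu_sq]
  nlinarith [sq_nonneg ⟪y, ξ⟫_ℝ, sq_nonneg ‖y‖, mul_nonneg (sq_nonneg ‖y‖) (sq_nonneg ⟪y, ξ⟫_ℝ)]

theorem an2_nonneg (V : Ver E) (y ξ : E) : 0 ≤ an2 V y ξ := by
  have hu : 0 < uu y ^ 2 := by have := uu_pos y; positivity
  have h := norm_sq_le_an2 V y ξ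
  by_contra hneg
  push Not at hneg
  have : uu y ^ 2 * an2 V y ξ < 0 := mul_neg_of_pos_of_neg hu hneg
  nlinarith [sq_nonneg ‖ξ‖]

theorem an_eq_sqrt (V : Ver E) (y ξ : E) : an V y ξ = Real.sqrt (an2 V y ξ) := rfl

theorem an_nonneg (V : Ver E) (y ξ : E) : 0 ≤ an V y ξ := Real.sqrt_nonneg _

theorem an_sq (V : Ver E) (y ξ : E) :
    an V y ξ ^ 2 = ‖ξ‖ ^ 2 + ⟪y, ξ⟫_ℝ ^ 2 - ⟪V.Q y ξ, ξ⟫_ℝ / uu y ^ 2 :=
  Real.sq_sqrt (an2_nonneg V y ξ)

theorem an_zero (V : Ver E) (y : E) : an V y 0 = 0 := by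
  simp [an]

/-- The metric operator and its inverse. -/
theorem mg_nonneg (V : Ver E) (y v : E) : 0 ≤ mg V y v := by
  unfold mg
  have hu : 0 < uu y ^ 2 := by have := uu_pos y; positivity
  have h1 : ⟪y, v⟫_ℝ ^ 2 ≤ ‖y‖ ^ 2 * ‖v‖ ^ 2 := by
    have := Q_nonneg V y v
    have := Q_le V y v
    linarith
  have h2 : ⟪y, v⟫_ℝ ^ 2 / uu y ^ 2 ≤ ‖v‖ ^ 2 := by
    rw [div_le_iff₀ hu, uu_sq]
    nlinarith [sq_nonneg ‖v‖]
  have := Q_nonneg V y v
  linarith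

/-- Riesz vector of the covector `ξ`. -/
def sharp (V : Ver E) (y ξ : E) : E := ξ + ⟪y, ξ⟫_ℝ • y - (uu y ^ 2)⁻¹ • V.Q y ξ

theorem inner_sharp (V : Ver E) (y ξ : E) : ⟪sharp V y ξ, ξ⟫_ℝ = an V y ξ ^ 2 := by
  rw [an_sq]
  simp only [sharp, inner_add_left, inner_sub_left, real_inner_smul_left,
    real_inner_self_eq_norm_sq]
  ring

/-- Expansion of `mg (v - t • sharp ξ)`. -/
theorem mg_sub_smul (V : Ver E) (y v ξ : E) (t : ℝ) :
    mg V y (v - t • sharp V y ξ) = mg V y v - 2 * t * ⟪v, ξ⟫_ℝ + t ^ 2 * an V y ξ ^ 2 := by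
  have hu : uu y ^ 2 ≠ 0 := by have := uu_pos y; positivity
  have hu2 := uu_sq y
  have hQs : V.Q y (sharp V y ξ) = (uu y ^ 2)⁻¹ • V.Q y ξ := by
    unfold sharp
    rw [map_sub, map_add, map_smul, map_smul, V.Q_self, V.Q_Q, smul_zero, add_zero, smul_smul]
    have : (1 - (uu y ^ 2)⁻¹ * ‖y‖ ^ 2) = (uu y ^ 2)⁻¹ := by
      have h3 : (uu y ^ 2)⁻¹ * uu y ^ 2 = 1 := inv_mul_cancel₀ hu
      rw [hu2] at h3 ⊢
      linarith
    calc V.Q y ξ - ((uu y ^ 2)⁻¹ * ‖y‖ ^ 2) • V.Q y ξ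
        = (1 - (uu y ^ 2)⁻¹ * ‖y‖ ^ 2) • V.Q y ξ := by rw [sub_smul, one_smul]
      _ = _ := by rw [this]
  have hys : ⟪y, sharp V y ξ⟫_ℝ = uu y ^ 2 * ⟪y, ξ⟫_ℝ := by
    unfold sharp
    rw [inner_sub_right, inner_add_right, real_inner_smul_right, real_inner_smul_right,
      inner_self_Q, real_inner_self_eq_norm_sq, hu2]
    ring
  have hs2 : ‖sharp V y ξ‖ ^ 2 = ‖ξ‖ ^ 2 + (2 + ‖y‖ ^ 2) * ⟪y, ξ⟫_ℝ ^ 2
      - 2 * (uu y ^ 2)⁻¹ * ⟪V.Q y ξ, ξ⟫_ℝ + ((uu y ^ 2)⁻¹) ^ 2 * (‖y‖ ^ 2 * ⟪V.Q y ξ, ξ⟫_ℝ) := by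
    rw [← norm_Q_sq, ← real_inner_self_eq_norm_sq (sharp V y ξ)]
    unfold sharp
    simp only [inner_sub_left, inner_sub_right, inner_add_left, inner_add_right,
      real_inner_smul_left, real_inner_smul_right, inner_Q_self, inner_self_Q]
    rw [real_inner_self_eq_norm_sq, real_inner_self_eq_norm_sq, real_inner_self_eq_norm_sq,
      real_inner_comm (V.Q y ξ) ξ, real_inner_comm ξ y]
    ring
  have hvs : ⟪v, sharp V y ξ⟫_ℝ = ⟪v, ξ⟫_ℝ + ⟪y, ξ⟫_ℝ * ⟪y, v⟫_ℝ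
      - (uu y ^ 2)⁻¹ * ⟪V.Q y ξ, v⟫_ℝ := by
    unfold sharp
    rw [inner_sub_right, inner_add_right, real_inner_smul_right, real_inner_smul_right,
      real_inner_comm v (V.Q y ξ), real_inner_comm v y]
  have hQv : ⟪V.Q y v, ξ⟫_ℝ = ⟪V.Q y ξ, v⟫_ℝ := by
    rw [V.Q_symm, real_inner_comm]
  have hn : ‖v - t • sharp V y ξ‖ ^ 2
      = ‖v‖ ^ 2 - 2 * t * ⟪v, sharp V y ξ⟫_ℝ + t ^ 2 * ‖sharp V y ξ‖ ^ 2 := by
    rw [norm_sub_sq_real, real_inner_smul_right, norm_smul, mul_pow, Real.norm_eq_abs, sq_abs]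
    ring
  have hi : ⟪y, v - t • sharp V y ξ⟫_ℝ = ⟪y, v⟫_ℝ - t * (uu y ^ 2 * ⟪y, ξ⟫_ℝ) := by
    rw [inner_sub_right, real_inner_smul_right, hys]
  have hQ2 : ⟪V.Q y (v - t • sharp V y ξ), v - t • sharp V y ξ⟫_ℝ
      = ⟪V.Q y v, v⟫_ℝ - 2 * t * ((uu y ^ 2)⁻¹ * ⟪V.Q y ξ, v⟫_ℝ)
        + t ^ 2 * ((uu y ^ 2)⁻¹ * ⟪V.Q y ξ, sharp V y ξ⟫_ℝ) := by
    rw [map_sub, map_smul, hQs, inner_sub_left, inner_sub_right, inner_sub_right,
      real_inner_smul_left, real_inner_smul_left, real_inner_smul_right, real_inner_smul_left,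
      real_inner_smul_left, real_inner_smul_right]
    have : ⟪V.Q y v, sharp V y ξ⟫_ℝ = (uu y ^ 2)⁻¹ * ⟪V.Q y ξ, v⟫_ℝ := by
      rw [V.Q_symm, hQs, real_inner_smul_right, real_inner_comm]
    rw [this]
    ring
  have hQs2 : ⟪V.Q y ξ, sharp V y ξ⟫_ℝ = (uu y ^ 2)⁻¹ * ⟪V.Q y ξ, ξ⟫_ℝ := by
    rw [V.Q_symm, hQs, real_inner_smul_right, real_inner_comm]
  unfold mg
  have hy2 : ‖y‖ ^ 2 = uu y ^ 2 - 1 := by linarith
  have hu0 : uu y ≠ 0 := (uu_pos y).ne'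
  rw [hn, hi, hQ2, hQs2, hs2, hvs, an_sq, hy2]
  field_simp
  ring

/-- Duality of `an` and `mg`. -/
theorem inner_le_an (V : Ver E) (y v ξ : E) : ⟪v, ξ⟫_ℝ ≤ Real.sqrt (mg V y v) * an V y ξ := by
  have hquad : ∀ t : ℝ, 0 ≤ an V y ξ ^ 2 * (t * t) + (-(2 * ⟪v, ξ⟫_ℝ)) * t + mg V y v := by
    intro t
    have := mg_nonneg V y (v - t • sharp V y ξ)
    rw [mg_sub_smul] at this
    nlinarith
  have hd := discrim_le_zero hquad
  unfold discrim at hd
  have h1 : ⟪v, ξ⟫_ℝ ^ 2 ≤ (Real.sqrt (mg V y v) * an V y ξ) ^ 2 := by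
    rw [mul_pow, Real.sq_sqrt (mg_nonneg V y v)]
    nlinarith
  exact le_of_sq_le_sq h1 (mul_nonneg (Real.sqrt_nonneg _) (an_nonneg V y ξ))

theorem mg_sharp (V : Ver E) (y ξ : E) : mg V y (sharp V y ξ) = an V y ξ ^ 2 := by
  have h := mg_sub_smul V y 0 ξ 1
  have h0 : mg V y (0 - (1 : ℝ) • sharp V y ξ) = mg V y (sharp V y ξ) := by
    unfold mg
    simp
  rw [h0] at h
  rw [h]
  simp [mg]

theorem mg_smul (V : Ver E) (y v : E) (c : ℝ) : mg V y (c • v) = c ^ 2 * mg V y v := by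
  unfold mg
  rw [norm_smul, Real.norm_eq_abs, mul_pow, sq_abs, real_inner_smul_right, map_smul,
    real_inner_smul_left, real_inner_smul_right]
  ring

theorem exists_dual (V : Ver E) (y ξ : E) : ∃ v, mg V y v ≤ 1 ∧ ⟪v, ξ⟫_ℝ = an V y ξ := by
  rcases eq_or_ne (an V y ξ) 0 with h | h
  · refine ⟨0, ?_, ?_⟩
    · simp [mg]
    · rw [h]; simp
  · refine ⟨(an V y ξ)⁻¹ • sharp V y ξ, ?_, ?_⟩
    · rw [mg_smul, mg_sharp]
      rw [← mul_pow, inv_mul_cancel₀ h]; norm_num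
    · rw [real_inner_smul_left, inner_sharp]
      field_simp

theorem an_add_le (V : Ver E) (y ξ η : E) : an V y (ξ + η) ≤ an V y ξ + an V y η := by
  obtain ⟨v, hv1, hv2⟩ := exists_dual V y (ξ + η)
  rw [← hv2, inner_add_right]
  have hs : Real.sqrt (mg V y v) ≤ 1 := Real.sqrt_le_one.mpr hv1
  have h1 := inner_le_an V y v ξ
  have h2 := inner_le_an V y v η
  have h3 : Real.sqrt (mg V y v) * an V y ξ ≤ an V y ξ :=
    mul_le_of_le_one_left (an_nonneg V y ξ) hs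
  have h4 : Real.sqrt (mg V y v) * an V y η ≤ an V y η :=
    mul_le_of_le_one_left (an_nonneg V y η) hs
  linarith

theorem an_smul (V : Ver E) (y ξ : E) (c : ℝ) : an V y (c • ξ) = |c| * an V y ξ := by
  have h : an V y (c • ξ) = Real.sqrt (c ^ 2 * (‖ξ‖ ^ 2 + ⟪y, ξ⟫_ℝ ^ 2
      - ⟪V.Q y ξ, ξ⟫_ℝ / uu y ^ 2)) := by
    unfold an
    congr 1
    rw [norm_smul, Real.norm_eq_abs, mul_pow, sq_abs, real_inner_smul_right, map_smul,
      real_inner_smul_left, real_inner_smul_right]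
    ring
  rw [h, Real.sqrt_mul (sq_nonneg c), Real.sqrt_sq_eq_abs]
  rfl

theorem norm_le_an (V : Ver E) (y ξ : E) : ‖ξ‖ ≤ uu y * an V y ξ := by
  refine le_of_sq_le_sq ?_ (mul_nonneg (uu_pos y).le (an_nonneg V y ξ))
  rw [mul_pow, an_eq_sqrt, Real.sq_sqrt (an2_nonneg V y ξ)]
  exact norm_sq_le_an2 V y ξ

theorem inner_sq_le (y ξ : E) : ⟪y, ξ⟫_ℝ ^ 2 ≤ ‖y‖ ^ 2 * ‖ξ‖ ^ 2 := by
  rw [← mul_pow, ← sq_abs ⟪y, ξ⟫_ℝ]
  exact pow_le_pow_left₀ (abs_nonneg _) (abs_real_inner_le_norm y ξ) 2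

theorem an_le (V : Ver E) (y ξ : E) : an V y ξ ≤ uu y * ‖ξ‖ := by
  refine le_of_sq_le_sq ?_ (mul_nonneg (uu_pos y).le (norm_nonneg ξ))
  rw [mul_pow, an_sq, uu_sq]
  have h1 := inner_sq_le y ξ
  have h2 : 0 ≤ ⟪V.Q y ξ, ξ⟫_ℝ / (1 + ‖y‖ ^ 2) := div_nonneg (Q_nonneg V y ξ) (by positivity)
  nlinarith

/-- The radial component. -/
theorem radial_le_an (V : Ver E) (y ξ : E) : uu y * |⟪y, ξ⟫_ℝ| ≤ ‖y‖ * an V y ξ := by
  refine le_of_sq_le_sq ?_ (mul_nonneg (norm_nonneg y) (an_nonneg V y ξ))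
  rw [mul_pow, mul_pow, sq_abs, an_sq, uu_sq]
  have h1 := Q_le V y ξ
  have h0 := Q_nonneg V y ξ
  have hu : (0:ℝ) < 1 + ‖y‖ ^ 2 := by positivity
  have h2 : ‖y‖ ^ 2 * (⟪V.Q y ξ, ξ⟫_ℝ / (1 + ‖y‖ ^ 2)) ≤ ⟪V.Q y ξ, ξ⟫_ℝ := by
    rw [mul_div_assoc', div_le_iff₀ hu]
    nlinarith
  nlinarith

theorem continuous_an (V : Ver E) : Continuous (fun q : E × E => an V q.1 q.2) := by
  unfold an
  have hQ : Continuous (fun q : E × E => V.Q q.1 q.2) :=
    (V.smooth_Q.continuous.comp continuous_fst).clm_apply continuous_snd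
  have hu : Continuous (fun q : E × E => uu q.1 ^ 2) := (continuous_uu.comp continuous_fst).pow 2
  refine Real.continuous_sqrt.comp ?_
  refine Continuous.sub ?_ ?_
  · exact (continuous_snd.norm.pow 2).add ((continuous_fst.inner continuous_snd).pow 2)
  · exact (hQ.inner continuous_snd).div hu (fun q => by have := uu_pos q.1; positivity)

theorem continuous_rho (V : Ver E) : Continuous (rho V) := continuous_uu.pow _

theorem rho_pos (V : Ver E) (y : E) : 0 < rho V y := pow_pos (uu_pos y) _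

theorem continuous_mg (V : Ver E) : Continuous (fun q : E × E => mg V q.1 q.2) := by
  unfold mg
  have hQ : Continuous (fun q : E × E => V.Q q.1 q.2) :=
    (V.smooth_Q.continuous.comp continuous_fst).clm_apply continuous_snd
  have hu : Continuous (fun q : E × E => uu q.1 ^ 2) := (continuous_uu.comp continuous_fst).pow 2
  refine Continuous.add ?_ (hQ.inner continuous_snd)
  exact (continuous_snd.norm.pow 2).sub (((continuous_fst.inner continuous_snd).pow 2).div hu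
    (fun q => by have := uu_pos q.1; positivity))

/-! Gradients. -/

theorem fn_continuous_grad {f : E → ℝ} (hf : Fn f) : Continuous (gradient f) := by
  have h1 : Continuous (fderiv ℝ f) := hf.1.continuous_fderiv (by simp)
  exact (InnerProductSpace.toDual ℝ E).symm.continuous.comp h1

theorem hasCompactSupport_gradient {f : E → ℝ} (hf : HasCompactSupport f) :
    HasCompactSupport (gradient f) := by
  have h1 : HasCompactSupport (fderiv ℝ f) := hf.fderiv ℝ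
  exact h1.comp_left (g := (InnerProductSpace.toDual ℝ E).symm) (map_zero _)

variable [MeasurableSpace E] [BorelSpace E]

instance (V : Ver E) : IsLocallyFiniteMeasure (mu V) :=
  IsLocallyFiniteMeasure.withDensity_ofReal (continuous_rho V)

theorem integrable_mu (V : Ver E) {g : E → ℝ} (hg : Continuous g) (hc : HasCompactSupport g) :
    Integrable g (mu V) := hg.integrable_of_hasCompactSupport hc

theorem integral_mu (V : Ver E) (g : E → ℝ) : ∫ y, g y ∂(mu V) = ∫ y, rho V y * g y := by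
  unfold mu
  rw [integral_withDensity_eq_integral_toReal_smul]
  · refine integral_congr_ae (Filter.Eventually.of_forall (fun y => ?_))
    simp only [smul_eq_mul]
    rw [ENNReal.toReal_ofReal (rho_pos V y).le]
  · exact (continuous_rho V).measurable.ennreal_ofReal
  · exact Filter.Eventually.of_forall (fun y => ENNReal.ofReal_lt_top)

theorem fn_integrable_an (V : Ver E) {f : E → ℝ} (hf : Fn f) :
    Integrable (fun y => an V y (gradient f y)) (mu V) := by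
  refine integrable_mu V ?_ ?_
  · exact (continuous_an V).comp (continuous_id.prodMk (fn_continuous_grad hf))
  · refine (hasCompactSupport_gradient hf.2.1).mono' ?_
    intro y hy
    refine subset_tsupport _ ?_
    intro h0
    apply hy
    simp only [h0, an_zero]

theorem fn_integrable_pow (V : Ver E) {f : E → ℝ} (hf : Fn f) {p : ℝ} (hp : 1 ≤ p) :
    Integrable (fun y => f y ^ p) (mu V) := by
  refine integrable_mu V ?_ ?_
  · exact hf.1.continuous.rpow_const (fun y => Or.inr (by linarith))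
  · exact hf.2.1.comp_left (g := fun x : ℝ => x ^ p) (Real.zero_rpow (by linarith))

theorem TV_nonneg (V : Ver E) (f : E → ℝ) : 0 ≤ TV V f :=
  integral_nonneg (fun y => an_nonneg V y _)

theorem mass_nonneg (V : Ver E) {f : E → ℝ} (hf : Fn f) (p : ℝ) : 0 ≤ mass V p f :=
  integral_nonneg (fun y => Real.rpow_nonneg (hf.2.2 y) _)

theorem qq_nonneg (V : Ver E) (p : ℝ) : 0 ≤ qq V p := by
  refine Real.sInf_nonneg ?_
  rintro r ⟨f, _, _, rfl⟩
  exact TV_nonneg V f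

theorem qq_bddBelow (V : Ver E) (p : ℝ) :
    BddBelow {r : ℝ | ∃ f : E → ℝ, Fn f ∧ mass V p f = 1 ∧ TV V f = r} := by
  refine ⟨0, ?_⟩
  rintro r ⟨f, _, _, rfl⟩
  exact TV_nonneg V f

theorem fn_smul {f : E → ℝ} (hf : Fn f) {c : ℝ} (hc : 0 ≤ c) : Fn (fun y => c * f y) :=
  ⟨contDiff_const.mul hf.1, hf.2.1.mul_left, fun y => mul_nonneg hc (hf.2.2 y)⟩

theorem gradient_const_mul {f : E → ℝ} (hf : Fn f) (c : ℝ) (y : E) :
    gradient (fun y => c * f y) y = c • gradient f y := by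
  unfold gradient
  have : fderiv ℝ (fun y => c * f y) y = c • fderiv ℝ f y :=
    fderiv_const_mul (hf.1.differentiable (by simp) y) c
  rw [this, map_smul]

theorem TV_smul (V : Ver E) {f : E → ℝ} (hf : Fn f) {c : ℝ} (hc : 0 ≤ c) :
    TV V (fun y => c * f y) = c * TV V f := by
  unfold TV
  rw [← integral_const_mul]
  refine integral_congr_ae (Filter.Eventually.of_forall (fun y => ?_))
  simp only []
  rw [gradient_const_mul hf, an_smul, abs_of_nonneg hc]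

theorem mass_smul (V : Ver E) {f : E → ℝ} (hf : Fn f) {c : ℝ} (hc : 0 ≤ c) (p : ℝ) :
    mass V p (fun y => c * f y) = c ^ p * mass V p f := by
  unfold mass
  rw [← integral_const_mul]
  refine integral_congr_ae (Filter.Eventually.of_forall (fun y => ?_))
  simp only []
  rw [Real.mul_rpow hc (hf.2.2 y)]

/-- Scaling. -/
theorem qq_le (V : Ver E) {p : ℝ} (hp : 1 ≤ p) {f : E → ℝ} (hf : Fn f) :
    qq V p * mass V p f ^ (1 / p) ≤ TV V f := by
  have hp0 : 0 < p := by linarith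
  rcases (mass_nonneg V hf p).eq_or_lt with h0 | h0
  · rw [← h0, Real.zero_rpow (by positivity), mul_zero]
    exact TV_nonneg V f
  · set c : ℝ := mass V p f ^ (-(1 / p)) with hc
    have hc0 : 0 < c := Real.rpow_pos_of_pos h0 _
    have h1 : mass V p (fun y => c * f y) = 1 := by
      rw [mass_smul V hf hc0.le, hc, ← Real.rpow_mul h0.le]
      have : -(1 / p) * p = -1 := by field_simp
      rw [this, Real.rpow_neg_one, inv_mul_cancel₀ h0.ne']
    have h2 : qq V p ≤ c * TV V f := by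
      rw [← TV_smul V hf hc0.le]
      exact csInf_le (qq_bddBelow V p) ⟨_, fn_smul hf hc0.le, h1, rfl⟩
    have h3 : c * mass V p f ^ (1 / p) = 1 := by
      rw [hc, ← Real.rpow_add h0]
      simp
    calc qq V p * mass V p f ^ (1 / p) ≤ c * TV V f * mass V p f ^ (1 / p) :=
          mul_le_mul_of_nonneg_right h2 (Real.rpow_nonneg h0.le _)
      _ = (c * mass V p f ^ (1 / p)) * TV V f := by ring
      _ = TV V f := by rw [h3, one_mul]

theorem exists_fn_mass_one (V : Ver E) {p : ℝ} (hp : 1 ≤ p) :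
    ∃ f : E → ℝ, Fn f ∧ mass V p f = 1 := by
  have hp0 : 0 < p := by linarith
  let b : ContDiffBump (0 : E) := ⟨1, 2, by norm_num, by norm_num⟩
  have hb : Fn (b : E → ℝ) := ⟨b.contDiff, b.hasCompactSupport, fun y => b.nonneg⟩
  have hpos : 0 < mass V p b := by
    unfold mass
    rw [integral_pos_iff_support_of_nonneg (fun y => Real.rpow_nonneg (hb.2.2 y) _)
      (fn_integrable_pow V hb hp)]
    have hsub : Metric.ball (0 : E) 1 ⊆ Function.support (fun y => (b : E → ℝ) y ^ p) := by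
      intro y hy
      have : (b : E → ℝ) y = 1 := b.one_of_mem_closedBall (Metric.ball_subset_closedBall hy)
      simp [this]
    refine lt_of_lt_of_le ?_ (measure_mono hsub)
    unfold mu
    have hm : AEMeasurable (fun y => ENNReal.ofReal (rho V y)) (volume : Measure E) :=
      (continuous_rho V).measurable.ennreal_ofReal.aemeasurable
    rw [pos_iff_ne_zero]
    intro h0
    rw [withDensity_apply_eq_zero' hm] at h0
    have hset : {y | ENNReal.ofReal (rho V y) ≠ 0} ∩ Metric.ball (0 : E) 1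
        = Metric.ball (0 : E) 1 := by
      rw [inter_eq_right]
      intro y _
      simp [rho_pos V y]
    rw [hset] at h0
    exact (Metric.measure_ball_pos volume (0 : E) one_pos).ne' h0
  set c : ℝ := mass V p b ^ (-(1 / p)) with hc
  have hc0 : 0 < c := Real.rpow_pos_of_pos hpos _
  refine ⟨_, fn_smul hb hc0.le, ?_⟩
  rw [mass_smul V hb hc0.le, hc, ← Real.rpow_mul hpos.le]
  have : -(1 / p) * p = -1 := by field_simp
  rw [this, Real.rpow_neg_one, inv_mul_cancel₀ hpos.ne']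

theorem exists_near (V : Ver E) {p : ℝ} (hp : 1 ≤ p) {ε : ℝ} (hε : 0 < ε) :
    ∃ f : E → ℝ, Fn f ∧ mass V p f = 1 ∧ TV V f ≤ qq V p + ε := by
  obtain ⟨f0, hf0, hm0⟩ := exists_fn_mass_one V hp
  have hne : {r : ℝ | ∃ f : E → ℝ, Fn f ∧ mass V p f = 1 ∧ TV V f = r}.Nonempty :=
    ⟨_, f0, hf0, hm0, rfl⟩
  obtain ⟨r, ⟨f, hf, hm, hr⟩, hlt⟩ := exists_lt_of_csInf_lt hne
    (show sInf {r : ℝ | ∃ f : E → ℝ, Fn f ∧ mass V p f = 1 ∧ TV V f = r} < qq V p + ε by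
      unfold qq; linarith)
  exact ⟨f, hf, hm, hr ▸ hlt.le⟩

section Hom

variable {V : Ver E} (H : HomB V)

/-- `phi a` as a homeomorphism. -/
def HomB.homeo (a : E) : E ≃ₜ E where
  toFun := H.phi a
  invFun := H.inv a
  left_inv := H.inv_phi a
  right_inv := H.phi_inv a
  continuous_toFun := (H.smooth_phi a).continuous
  continuous_invFun := (H.smooth_inv a).continuous

include H

theorem fn_comp {f : E → ℝ} (hf : Fn f) (a : E) : Fn (fun y => f (H.phi a y)) :=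
  ⟨hf.1.comp (H.smooth_phi a), hf.2.1.comp_homeomorph (H.homeo a), fun y => hf.2.2 _⟩

theorem integral_phi (a : E) (g : E → ℝ) :
    ∫ y, g (H.phi a y) ∂(mu V) = ∫ y, g y ∂(mu V) :=
  (H.mp a).integral_comp (H.homeo a).measurableEmbedding g

theorem mass_comp {f : E → ℝ} (hf : Fn f) {p : ℝ} (hp : 1 ≤ p) (a : E) :
    mass V p (fun y => f (H.phi a y)) = mass V p f :=
  integral_phi H a (fun y => f y ^ p)

theorem TV_comp {f : E → ℝ} (hf : Fn f) (a : E) :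
    TV V (fun y => f (H.phi a y)) = TV V f := by
  have h := integral_phi H a (fun y => an V y (gradient f y))
  unfold TV
  rw [← h]
  refine integral_congr_ae (Filter.Eventually.of_forall (fun y => ?_))
  exact H.an_phi a f y (hf.1.differentiable (by simp) _)

theorem chd_inv (a y : E) : H.chd a y = uu (H.inv a y) := by
  have h := H.chd_phi a 0 (H.inv a y)
  rw [H.phi_zero, H.phi_inv, H.chd_zero] at h
  exact h

theorem one_le_chd (x y : E) : 1 ≤ H.chd x y := by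
  rw [chd_inv H]
  exact one_le_uu _

theorem chd_triangle (x y z : E) : H.chd x z ≤ 2 * H.chd x y * H.chd y z := by
  have hx : ∀ w, H.chd x w = H.chd 0 (H.inv x w) := fun w => by
    rw [chd_inv H, H.chd_zero]
  have hyz : H.chd y z = H.chd (H.inv x z) (H.inv x y) := by
    rw [H.chd_symm (H.inv x z) (H.inv x y), ← H.chd_phi x (H.inv x y) (H.inv x z), H.phi_inv,
      H.phi_inv]
  rw [hx z, hx y, hyz, H.chd_zero, H.chd_zero]
  exact H.chd_coercive _ _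

end Hom

end

end Pool.Agent.Work.MP_3b24f6_gt
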