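import Pool.Agent.Work.MP_3b24f6_gt.ModelB

/-!
Generic bridge: an isometry (in the metric form) which respects the volume density preserves
`an` of gradients and the measure `mu V`.
-/

set_option autoImplicit false

open MeasureTheory Set Filter Topology
open scoped ContDiff InnerProductSpace

namespace Pool.Agent.Work.MP_3b24f6_gt

noncomputable section

variable {E : Type*} [NormedAddCommGroup E] [InnerProductSpace ℝ E] [FiniteDimensional ℝ E]

theorem br_uu_sq (y : E) : uu y ^ 2 = 1 + ‖y‖ ^ 2 := Real.sq_sqrt (by positivity)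

theorem br_uu_pos (y : E) : 0 < uu y := Real.sqrt_pos.2 (by positivity)

/-- Metric operator of `V`. -/
def vA (V : Ver E) (y : E) : E →L[ℝ] E :=
  ContinuousLinearMap.id ℝ E - (uu y ^ 2)⁻¹ • (innerSL ℝ y).smulRight y + V.Q y

/-- Its inverse. -/
def vC (V : Ver E) (y : E) : E →L[ℝ] E :=
  ContinuousLinearMap.id ℝ E + (innerSL ℝ y).smulRight y - (uu y ^ 2)⁻¹ • V.Q y

theorem vA_apply (V : Ver E) (y v : E) :
    vA V y v = v - ((uu y ^ 2)⁻¹ * ⟪y, v⟫_ℝ) • y + V.Q y v := by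
  simp [vA, smul_smul]

theorem vC_apply (V : Ver E) (y v : E) :
    vC V y v = v + ⟪y, v⟫_ℝ • y - (uu y ^ 2)⁻¹ • V.Q y v := by
  simp [vC]

theorem inner_Q (V : Ver E) (y v : E) : ⟪y, V.Q y v⟫_ℝ = 0 := by
  rw [← V.Q_symm, V.Q_self, inner_zero_left]

theorem vA_vC (V : Ver E) (y u : E) : vA V y (vC V y u) = u := by
  have hU := br_uu_sq y
  have hU0 : uu y ^ 2 ≠ 0 := (pow_pos (br_uu_pos y) 2).ne'
  rw [vA_apply, vC_apply]
  simp only [map_add, map_sub, map_smul, V.Q_self, V.Q_Q, smul_zero, add_zero, inner_add_right,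
    inner_sub_right, inner_smul_right, inner_Q, real_inner_self_eq_norm_sq, mul_zero, sub_zero]
  have e1 : (uu y ^ 2)⁻¹ * (⟪y, u⟫_ℝ + ⟪y, u⟫_ℝ * ‖y‖ ^ 2) = ⟪y, u⟫_ℝ := by
    rw [show ⟪y, u⟫_ℝ + ⟪y, u⟫_ℝ * ‖y‖ ^ 2 = uu y ^ 2 * ⟪y, u⟫_ℝ by rw [hU]; ring]
    rw [inv_mul_cancel_left₀ hU0]
  have e2 : (uu y ^ 2)⁻¹ • V.Q y u + (uu y ^ 2)⁻¹ • ‖y‖ ^ 2 • V.Q y u = V.Q y u := by
    rw [← smul_add, show V.Q y u + ‖y‖ ^ 2 • V.Q y u = uu y ^ 2 • V.Q y u by
      rw [hU, add_smul, one_smul], inv_smul_smul₀ hU0]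
  rw [e1]
  calc u + ⟪y, u⟫_ℝ • y - (uu y ^ 2)⁻¹ • V.Q y u - ⟪y, u⟫_ℝ • y
        + (V.Q y u - (uu y ^ 2)⁻¹ • ‖y‖ ^ 2 • V.Q y u)
      = u + V.Q y u - ((uu y ^ 2)⁻¹ • V.Q y u + (uu y ^ 2)⁻¹ • ‖y‖ ^ 2 • V.Q y u) := by abel
    _ = u := by rw [e2]; abel

theorem mg_eq (V : Ver E) (y v : E) : mg V y v = ⟪vA V y v, v⟫_ℝ := by
  rw [vA_apply, mg, inner_add_left, inner_sub_left, real_inner_smul_left,
    real_inner_self_eq_norm_sq]
  field_simp

theorem an_eq (V : Ver E) (y ξ : E) : an V y ξ = Real.sqrt ⟪vC V y ξ, ξ⟫_ℝ := by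
  rw [vC_apply, an, inner_sub_left, inner_add_left, real_inner_smul_left, real_inner_smul_left,
    real_inner_self_eq_norm_sq]
  congr 1
  field_simp

theorem vA_symm (V : Ver E) (y u v : E) : ⟪vA V y u, v⟫_ℝ = ⟪u, vA V y v⟫_ℝ := by
  rw [vA_apply, vA_apply]
  simp only [inner_add_left, inner_sub_left, inner_add_right, inner_sub_right,
    real_inner_smul_left, real_inner_smul_right, V.Q_symm]
  rw [real_inner_comm y u]
  ring

theorem inner_Q_nonneg (V : Ver E) (y v : E) : 0 ≤ ⟪V.Q y v, v⟫_ℝ := by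
  rcases eq_or_ne y 0 with rfl | hy
  · have h := V.Q_smul 0 (0 : E)
    simp only [smul_zero, ne_eq, OfNat.ofNat_ne_zero, not_false_eq_true, zero_pow, zero_smul] at h
    simp [h]
  · have h1 : ⟪V.Q y (V.Q y v), v⟫_ℝ = ‖V.Q y v‖ ^ 2 := by
      rw [V.Q_symm, real_inner_self_eq_norm_sq]
    rw [V.Q_Q, real_inner_smul_left] at h1
    have h2 : 0 < ‖y‖ ^ 2 := by positivity
    have h3 : 0 ≤ ‖y‖ ^ 2 * ⟪V.Q y v, v⟫_ℝ := by rw [h1]; positivity
    exact nonneg_of_mul_nonneg_right h3 h2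

theorem vA_pos (V : Ver E) (y v : E) (hv : v ≠ 0) : 0 < ⟪vA V y v, v⟫_ℝ := by
  rw [← mg_eq, mg]
  have h1 := inner_Q_nonneg V y v
  have h2 : ⟪y, v⟫_ℝ ^ 2 ≤ ‖y‖ ^ 2 * ‖v‖ ^ 2 := by
    rw [← mul_pow]
    exact sq_le_sq' (by linarith [neg_abs_le ⟪y, v⟫_ℝ, abs_real_inner_le_norm y v])
      (real_inner_le_norm y v)
  have hU := br_uu_sq y
  have hU0 : 0 < uu y ^ 2 := pow_pos (br_uu_pos y) 2
  have hv0 : 0 < ‖v‖ ^ 2 := by positivity
  have h3 : ⟪y, v⟫_ℝ ^ 2 / uu y ^ 2 < ‖v‖ ^ 2 := by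
    rw [div_lt_iff₀ hU0, hU]
    nlinarith
  linarith

theorem inner_polar_of_self {A B : E →L[ℝ] E} (hA : ∀ u v, ⟪A u, v⟫_ℝ = ⟪u, A v⟫_ℝ)
    (hB : ∀ u v, ⟪B u, v⟫_ℝ = ⟪u, B v⟫_ℝ) {L : E →L[ℝ] E}
    (h : ∀ u, ⟪A (L u), L u⟫_ℝ = ⟪B u, u⟫_ℝ) (u v : E) :
    ⟪A (L u), L v⟫_ℝ = ⟪B u, v⟫_ℝ := by
  have h1 := h (u + v)
  have h2 := h u
  have h3 := h v
  simp only [map_add, inner_add_left, inner_add_right] at h1
  have h4 : ⟪A (L v), L u⟫_ℝ = ⟪A (L u), L v⟫_ℝ := by rw [hA, real_inner_comm]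
  have h5 : ⟪B v, u⟫_ℝ = ⟪B u, v⟫_ℝ := by rw [hB, real_inner_comm]
  rw [h4, h5] at h1
  linarith

theorem br_inner_gradient (f : E → ℝ) (z v : E) : ⟪gradient f z, v⟫_ℝ = fderiv ℝ f z v := by
  unfold gradient
  exact InnerProductSpace.toDual_symm_apply

/-- Isometries preserve the lengths of gradients. -/
theorem an_of_isom (V : Ver E) {φ : E → E} {y : E} (hφ : DifferentiableAt ℝ φ y)
    (hiso : ∀ u, mg V (φ y) (fderiv ℝ φ y u) = mg V y u) {f : E → ℝ}
    (hf : DifferentiableAt ℝ f (φ y)) :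
    an V y (gradient (fun z => f (φ z)) y) = an V (φ y) (gradient f (φ y)) := by
  set L : E →L[ℝ] E := fderiv ℝ φ y with hL
  set g : E := gradient f (φ y) with hg
  have hgrad : gradient (fun z => f (φ z)) y = (ContinuousLinearMap.adjoint L) g := by
    refine ext_inner_right ℝ fun v => ?_
    rw [br_inner_gradient, ContinuousLinearMap.adjoint_inner_left, hg, br_inner_gradient]
    have h3 : HasFDerivAt (fun z => f (φ z)) ((fderiv ℝ f (φ y)).comp L) y :=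
      hf.hasFDerivAt.comp y hφ.hasFDerivAt
    rw [h3.fderiv]
    rfl
  rw [hgrad, an_eq, an_eq]
  congr 1
  set η : E := (ContinuousLinearMap.adjoint L) g with hη
  have hpol : ∀ u v, ⟪vA V (φ y) (L u), L v⟫_ℝ = ⟪vA V y u, v⟫_ℝ := by
    apply inner_polar_of_self (vA_symm V (φ y)) (vA_symm V y)
    intro u
    rw [← mg_eq, ← mg_eq]
    exact hiso u
  -- `L` is injective, hence surjective
  have hinj : Function.Injective L := by
    rw [injective_iff_map_eq_zero]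
    intro u hu
    by_contra hne
    have := vA_pos V y u hne
    rw [← hpol u u, hu, map_zero, inner_zero_left] at this
    exact lt_irrefl _ this
  have hsurj : Function.Surjective L := LinearMap.surjective_of_injective
    (f := (L : E →ₗ[ℝ] E)) hinj
  have hLC : L (vC V y η) = vC V (φ y) g := by
    have h1 : vA V (φ y) (L (vC V y η)) = g := by
      refine ext_inner_right ℝ fun x => ?_
      obtain ⟨v, rfl⟩ := hsurj x
      rw [hpol, vA_vC, hη, ContinuousLinearMap.adjoint_inner_left]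
    have h2 : vA V (φ y) (L (vC V y η) - vC V (φ y) g) = 0 := by
      rw [map_sub, h1, vA_vC, sub_self]
    by_contra hne
    have h3 : L (vC V y η) - vC V (φ y) g ≠ 0 := sub_ne_zero.2 hne
    have := vA_pos V (φ y) _ h3
    rw [h2, inner_zero_left] at this
    exact lt_irrefl _ this
  rw [← hLC, hη, ContinuousLinearMap.adjoint_inner_right]

section measure
variable [MeasurableSpace E] [BorelSpace E]

theorem br_contDiff_uu : ContDiff ℝ ∞ (uu : E → ℝ) := by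
  unfold uu
  refine ContDiff.sqrt ?_ fun z => ?_
  · exact contDiff_const.add (contDiff_norm_sq ℝ)
  · positivity

theorem br_measurable_rho (V : Ver E) : Measurable (fun y => ENNReal.ofReal (rho V y)) := by
  apply ENNReal.measurable_ofReal.comp
  exact ((br_contDiff_uu (E := E)).continuous.pow _).measurable

theorem br_rho_pos (V : Ver E) (y : E) : 0 < rho V y := pow_pos (br_uu_pos y) _

/-- Diffeomorphisms whose Jacobian matches the density preserve `mu V`. -/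
theorem mp_of_det (V : Ver E) {φ ψ : E → E} (hφ : ContDiff ℝ 1 φ)
    (hψφ : ∀ y, ψ (φ y) = y) (hφψ : ∀ y, φ (ψ y) = y)
    (hdet : ∀ y, rho V (φ y) * |(fderiv ℝ φ y).det| = rho V y) :
    MeasurePreserving φ (mu V) (mu V) := by
  have hmeas : Measurable φ := hφ.continuous.measurable
  refine ⟨hmeas, ?_⟩
  ext s hs
  rw [Measure.map_apply hmeas hs]
  unfold mu
  rw [withDensity_apply _ (hmeas hs), withDensity_apply _ hs]
  have himg : φ '' (φ ⁻¹' s) = s :=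
    image_preimage_eq s fun x => ⟨ψ x, hφψ x⟩
  have hinj : InjOn φ (φ ⁻¹' s) := fun a _ b _ hab => by
    rw [← hψφ a, ← hψφ b, hab]
  conv_rhs => rw [← himg]
  rw [lintegral_image_eq_lintegral_abs_det_fderiv_mul volume (hmeas hs)
    (fun x _ => ((hφ.differentiable (by norm_num)) x).hasFDerivAt.hasFDerivWithinAt) hinj]
  refine lintegral_congr fun y => ?_
  rw [← hdet y, ← ENNReal.ofReal_mul (abs_nonneg _), mul_comm]

end measure

end

end Pool.Agent.Work.MP_3b24f6_gt
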