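import Mathlib

set_option autoImplicit false

open MeasureTheory Set Filter Topology

namespace Pool.Agent.Work.MP_3b24f6_gt

noncomputable section

/-- Profile of the area of the metric sphere `|y| = s` (`s = sinh r`), without the constant. -/
def rA (m w : ℕ) (s : ℝ) : ℝ := s ^ m * Real.sqrt (1 + s ^ 2) ^ w

/-- Radial density of the Riemannian volume in the variable `s = |y|`. -/
def rd (m w : ℕ) (s : ℝ) : ℝ := s ^ m * Real.sqrt (1 + s ^ 2) ^ w / Real.sqrt (1 + s ^ 2)

/-- Profile of the volume of the metric ball `|y| < s`. -/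
def rV (m w : ℕ) (s : ℝ) : ℝ := ∫ t in (0 : ℝ)..s, rd m w t

/-- Mean curvature of the metric sphere `|y| = s`. -/
def rh (m w : ℕ) (s : ℝ) : ℝ :=
  m * (Real.sqrt (1 + s ^ 2) / s) + w * (s / Real.sqrt (1 + s ^ 2))

/-- Elasticity of the ball profile. -/
def re (m w : ℕ) (s : ℝ) : ℝ := rV m w s * rh m w s / rA m w s

theorem sq1_pos (s : ℝ) : 0 < 1 + s ^ 2 := by positivity

theorem su_pos (s : ℝ) : 0 < Real.sqrt (1 + s ^ 2) := Real.sqrt_pos.mpr (sq1_pos s)

theorem su_sq (s : ℝ) : Real.sqrt (1 + s ^ 2) ^ 2 = 1 + s ^ 2 := Real.sq_sqrt (sq1_pos s).le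

theorem rA_pos (m w : ℕ) {s : ℝ} (hs : 0 < s) : 0 < rA m w s := by
  unfold rA; have := su_pos s; positivity

theorem rd_pos (m w : ℕ) {s : ℝ} (hs : 0 < s) : 0 < rd m w s := by
  unfold rd; have := su_pos s; positivity

theorem continuous_su : Continuous fun s : ℝ => Real.sqrt (1 + s ^ 2) := by fun_prop

theorem continuous_rd (m w : ℕ) : Continuous (rd m w) := by
  unfold rd
  exact (((continuous_id.pow m).mul (continuous_su.pow w)).div continuous_su
    fun s => (su_pos s).ne')

theorem continuous_rA (m w : ℕ) : Continuous (rA m w) := by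
  unfold rA; fun_prop

theorem hasDerivAt_rV (m w : ℕ) (s : ℝ) : HasDerivAt (rV m w) (rd m w s) s := by
  unfold rV
  exact intervalIntegral.integral_hasDerivAt_right
    ((continuous_rd m w).intervalIntegrable _ _)
    ((continuous_rd m w).stronglyMeasurableAtFilter _ _) (continuous_rd m w).continuousAt

theorem rV_zero (m w : ℕ) : rV m w 0 = 0 := by simp [rV]

theorem continuous_rV (m w : ℕ) : Continuous (rV m w) :=
  continuous_iff_continuousAt.mpr fun s => (hasDerivAt_rV m w s).continuousAt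

theorem rV_strictMonoOn (m w : ℕ) : StrictMonoOn (rV m w) (Ici 0) := by
  refine strictMonoOn_of_deriv_pos (convex_Ici 0) (continuous_rV m w).continuousOn ?_
  intro s hs
  rw [interior_Ici, mem_Ioi] at hs
  rw [(hasDerivAt_rV m w s).deriv]
  exact rd_pos m w hs

theorem rV_pos (m w : ℕ) {s : ℝ} (hs : 0 < s) : 0 < rV m w s := by
  have := rV_strictMonoOn m w (mem_Ici.mpr le_rfl) (mem_Ici.mpr hs.le) hs
  rwa [rV_zero] at this

theorem hasDerivAt_su (s : ℝ) :
    HasDerivAt (fun s : ℝ => Real.sqrt (1 + s ^ 2)) (s / Real.sqrt (1 + s ^ 2)) s := by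
  have h1 : HasDerivAt (fun s : ℝ => 1 + s ^ 2) (2 * s) s := by
    simpa using ((hasDerivAt_pow 2 s).const_add 1)
  have h2 := h1.sqrt (sq1_pos s).ne'
  refine h2.congr_deriv ?_
  have := su_pos s
  field_simp

/-- `s ^ (m+1) * u ^ (w-1)`. -/
def rK (m w : ℕ) (s : ℝ) : ℝ := s ^ (m + 1) * Real.sqrt (1 + s ^ 2) ^ w / Real.sqrt (1 + s ^ 2)

theorem rK_eq (m w : ℕ) (s : ℝ) : rK m w s = s * rd m w s := by
  unfold rK rd; ring

theorem rK_pos (m w : ℕ) {s : ℝ} (hs : 0 < s) : 0 < rK m w s := by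
  rw [rK_eq]; exact mul_pos hs (rd_pos m w hs)

theorem hasDerivAt_supow (w : ℕ) (s : ℝ) :
    HasDerivAt (fun s : ℝ => Real.sqrt (1 + s ^ 2) ^ w)
      (Real.sqrt (1 + s ^ 2) ^ w * (w * (s / (1 + s ^ 2)))) s := by
  have h := (hasDerivAt_su s).pow w
  refine h.congr_deriv ?_
  have hu := su_pos s
  have hu2 := su_sq s
  generalize Real.sqrt (1 + s ^ 2) = u at *
  rw [← hu2]
  rcases w with _ | w
  · simp
  · rw [pow_succ, show w + 1 - 1 = w from rfl]
    field_simp

theorem pow_aux (m : ℕ) {s : ℝ} (hs : 0 < s) : (m : ℝ) * s ^ (m - 1) = s ^ m * (m / s) := by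
  rcases m with _ | m
  · simp
  · rw [show m + 1 - 1 = m from rfl, pow_succ]; field_simp

theorem hasDerivAt_rA (m w : ℕ) {s : ℝ} (hs : 0 < s) :
    HasDerivAt (rA m w) (rd m w s * rh m w s) s := by
  have hu := su_pos s
  have h1 := ((hasDerivAt_pow m s).mul (hasDerivAt_supow w s))
  have h2 : HasDerivAt (rA m w) _ s := h1
  refine h2.congr_deriv ?_
  unfold rd rh
  rw [pow_aux m hs]
  have hu2 := su_sq s
  generalize Real.sqrt (1 + s ^ 2) = u at *
  rw [← hu2]
  field_simp

theorem hasDerivAt_rd (m w : ℕ) {s : ℝ} (hs : 0 < s) :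
    HasDerivAt (rd m w) (rd m w s * (m / s + (w - 1) * (s / (1 + s ^ 2)))) s := by
  have hu := su_pos s
  have h1 := (hasDerivAt_rA m w hs).div (hasDerivAt_su s) hu.ne'
  have h2 : HasDerivAt (rd m w) _ s := h1
  refine h2.congr_deriv ?_
  unfold rd rh rA
  have hu2 := su_sq s
  generalize Real.sqrt (1 + s ^ 2) = u at *
  rw [← hu2]
  field_simp
  ring

theorem hasDerivAt_rK (m w : ℕ) {s : ℝ} (hs : 0 < s) :
    HasDerivAt (rK m w) (rd m w s * (m + 1 + (w - 1) * (s ^ 2 / (1 + s ^ 2)))) s := by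
  have h0 : rK m w = fun s => s * rd m w s := by funext s; exact rK_eq m w s
  rw [h0]
  have h := (hasDerivAt_id s).mul (hasDerivAt_rd m w hs)
  refine h.congr_deriv ?_
  have := sq1_pos s
  simp only [id]
  field_simp
  ring

/-- Comparison of `rK * b` with the volume profile. -/
theorem rK_mul_lt_rV (m w : ℕ) (b b' : ℝ → ℝ) (hb : Continuous b)
    (hb' : ∀ s, 0 < s → HasDerivAt b (b' s) s)
    (hlt : ∀ s, 0 < s → (m + 1 + (w - 1) * (s ^ 2 / (1 + s ^ 2))) * b s + s * b' s < 1)
    {s : ℝ} (hs : 0 < s) : rK m w s * b s < rV m w s := by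
  have hK : Continuous (rK m w) := by
    have h0 : rK m w = fun s => s * rd m w s := by funext s; exact rK_eq m w s
    rw [h0]; exact continuous_id.mul (continuous_rd m w)
  have hmono : StrictMonoOn (fun s => rV m w s - rK m w s * b s) (Ici 0) := by
    refine strictMonoOn_of_deriv_pos (convex_Ici 0)
      ((continuous_rV m w).sub (hK.mul hb)).continuousOn ?_
    intro x hx
    rw [interior_Ici, mem_Ioi] at hx
    have hD : HasDerivAt (fun s => rV m w s - rK m w s * b s) _ x :=
      (hasDerivAt_rV m w x).sub ((hasDerivAt_rK m w hx).mul (hb' x hx))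
    rw [hD.deriv, rK_eq]
    have h1 := hlt x hx
    have h2 := rd_pos m w hx
    have h3 := mul_pos h2 (sub_pos.mpr h1)
    nlinarith [h3]
  have h := hmono (mem_Ici.mpr le_rfl) (mem_Ici.mpr hs.le) hs
  simp only [rV_zero, rK_eq, zero_mul, sub_zero] at h
  rw [rK_eq]; linarith

/-- Comparison of `rK * b` with the volume profile. -/
theorem rV_lt_rK_mul (m w : ℕ) (b b' : ℝ → ℝ) (hb : Continuous b)
    (hb' : ∀ s, 0 < s → HasDerivAt b (b' s) s)
    (hlt : ∀ s, 0 < s → 1 < (m + 1 + (w - 1) * (s ^ 2 / (1 + s ^ 2))) * b s + s * b' s)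
    {s : ℝ} (hs : 0 < s) : rV m w s < rK m w s * b s := by
  have hK : Continuous (rK m w) := by
    have h0 : rK m w = fun s => s * rd m w s := by funext s; exact rK_eq m w s
    rw [h0]; exact continuous_id.mul (continuous_rd m w)
  have hmono : StrictMonoOn (fun s => rK m w s * b s - rV m w s) (Ici 0) := by
    refine strictMonoOn_of_deriv_pos (convex_Ici 0)
      ((hK.mul hb).sub (continuous_rV m w)).continuousOn ?_
    intro x hx
    rw [interior_Ici, mem_Ioi] at hx
    have hD : HasDerivAt (fun s => rK m w s * b s - rV m w s) _ x :=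
      ((hasDerivAt_rK m w hx).mul (hb' x hx)).sub (hasDerivAt_rV m w x)
    rw [hD.deriv, rK_eq]
    have h1 := hlt x hx
    have h2 := rd_pos m w hx
    have h3 := mul_pos h2 (sub_pos.mpr h1)
    nlinarith [h3]
  have h := hmono (mem_Ici.mpr le_rfl) (mem_Ici.mpr hs.le) hs
  simp only [rV_zero, rK_eq, zero_mul, sub_zero] at h
  rw [rK_eq]; linarith

/-- `m (1 + S) + w S`. -/
def rP (m w : ℕ) (s : ℝ) : ℝ := m * (1 + s ^ 2) + w * s ^ 2

/-- The polynomial `U² Q`. -/
def rQ (m w : ℕ) (s : ℝ) : ℝ :=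
  m * (m + 1) * (1 + s ^ 2) ^ 2 + (2 * m * w - m - w) * s ^ 2 * (1 + s ^ 2)
    + w * (w + 1) * (s ^ 2) ^ 2

theorem rP_pos {m : ℕ} (w : ℕ) (hm : 1 ≤ m) (s : ℝ) : 0 < rP m w s := by
  unfold rP
  have h1 : (1 : ℝ) ≤ m := by exact_mod_cast hm
  have := sq1_pos s
  positivity

theorem rQ_pos {m w : ℕ} (hw : 1 ≤ w) (hwm : w ≤ m) (s : ℝ) : 0 < rQ m w s := by
  unfold rQ
  have h1 : (1 : ℝ) ≤ w := by exact_mod_cast hw
  have h2 : (w : ℝ) ≤ m := by exact_mod_cast hwm
  have h3 : (0 : ℝ) ≤ 2 * m * w - m - w := by nlinarith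
  have h4 : 0 ≤ s ^ 2 := sq_nonneg s
  have h5 : (0 : ℝ) ≤ (2 * m * w - m - w) * s ^ 2 * (1 + s ^ 2) := by positivity
  have h6 : (0 : ℝ) < m * (m + 1) * (1 + s ^ 2) ^ 2 := by
    have : (0 : ℝ) < m := by linarith
    positivity
  have h7 : (0 : ℝ) ≤ w * (w + 1) * (s ^ 2) ^ 2 := by positivity
  linarith

theorem hasDerivAt_rP (m w : ℕ) (s : ℝ) : HasDerivAt (rP m w) (2 * (m + w) * s) s := by
  have h1 : HasDerivAt (fun s : ℝ => s ^ 2) (2 * s) s := by simpa using hasDerivAt_pow 2 s
  have h := ((h1.const_add 1).const_mul (m : ℝ)).add (h1.const_mul (w : ℝ))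
  have h2 : HasDerivAt (rP m w) _ s := h
  exact h2.congr_deriv (by ring)

theorem hasDerivAt_rQ (m w : ℕ) (s : ℝ) : HasDerivAt (rQ m w)
    (m * (m + 1) * (2 * (1 + s ^ 2) * (2 * s))
      + (2 * m * w - m - w) * (2 * s * (1 + s ^ 2) + s ^ 2 * (2 * s))
      + w * (w + 1) * (2 * s ^ 2 * (2 * s))) s := by
  have h1 : HasDerivAt (fun s : ℝ => s ^ 2) (2 * s) s := by simpa using hasDerivAt_pow 2 s
  have h3 := h1.const_add 1
  have h := (((h3.pow 2).const_mul ((m : ℝ) * (m + 1))).add
    ((h1.const_mul (2 * (m : ℝ) * w - m - w)).mul h3)).add ((h1.pow 2).const_mul ((w : ℝ) * (w + 1)))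
  have h2 : HasDerivAt (rQ m w) _ s := h
  refine h2.congr_deriv ?_
  simp only [Nat.cast_ofNat, Nat.add_one_sub_one, pow_one]
  ring

theorem continuous_rP (m w : ℕ) : Continuous (rP m w) := by unfold rP; fun_prop

theorem continuous_rQ (m w : ℕ) : Continuous (rQ m w) := by unfold rQ; fun_prop

/-- Lower bound of the elasticity. -/
theorem rV_gt {m w : ℕ} (hw : 1 ≤ w) (hwm : w ≤ m) {s : ℝ} (hs : 0 < s) :
    rK m w s * ((m / (m + 1)) * ((1 + s ^ 2) / rP m w s)) < rV m w s := by
  have hm : 1 ≤ m := hw.trans hwm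
  have h1 : (1 : ℝ) ≤ w := by exact_mod_cast hw
  have h2 : (w : ℝ) ≤ m := by exact_mod_cast hwm
  have hd : ∀ s : ℝ, HasDerivAt (fun s : ℝ => 1 + s ^ 2) (2 * s) s := fun s => by
    simpa using ((hasDerivAt_pow 2 s).const_add 1)
  refine rK_mul_lt_rV m w (fun s => (m / (m + 1)) * ((1 + s ^ 2) / rP m w s))
    (fun s => (m / (m + 1)) * ((2 * s * rP m w s - (1 + s ^ 2) * (2 * (m + w) * s))
      / rP m w s ^ 2)) ?_ ?_ ?_ hs
  · exact continuous_const.mul ((by fun_prop : Continuous fun s : ℝ => 1 + s ^ 2).div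
      (continuous_rP m w) fun s => (rP_pos w hm s).ne')
  · intro s hs
    exact (((hd s).div (hasDerivAt_rP m w s) (rP_pos w hm s).ne').const_mul _)
  · intro s hs
    have hP := rP_pos w hm s
    have hU := sq1_pos s
    have key : 1 - ((m + 1 + (w - 1) * (s ^ 2 / (1 + s ^ 2))) * ((m / (m + 1)) *
        ((1 + s ^ 2) / rP m w s)) + s * ((m / (m + 1)) *
        ((2 * s * rP m w s - (1 + s ^ 2) * (2 * (m + w) * s)) / rP m w s ^ 2)))
        = s ^ 2 * (rP m w s * (m + w) + 2 * m * w) / ((m + 1) * rP m w s ^ 2) := by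
      field_simp
      unfold rP
      ring
    have : 0 < s ^ 2 * (rP m w s * (m + w) + 2 * m * w) / ((m + 1) * rP m w s ^ 2) := by
      have : (0 : ℝ) < m := by linarith
      have : (0 : ℝ) < w := by linarith
      positivity
    linarith

/-- Upper bound of the elasticity. -/
theorem rV_lt {m w : ℕ} (hw : 1 ≤ w) (hwm : w ≤ m) {s : ℝ} (hs : 0 < s) :
    rV m w s < rK m w s * ((1 + s ^ 2) / rP m w s) := by
  have hm : 1 ≤ m := hw.trans hwm
  have h1 : (1 : ℝ) ≤ w := by exact_mod_cast hw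
  have h2 : (w : ℝ) ≤ m := by exact_mod_cast hwm
  have hd : ∀ s : ℝ, HasDerivAt (fun s : ℝ => 1 + s ^ 2) (2 * s) s := fun s => by
    simpa using ((hasDerivAt_pow 2 s).const_add 1)
  refine rV_lt_rK_mul m w (fun s => (1 + s ^ 2) / rP m w s)
    (fun s => (2 * s * rP m w s - (1 + s ^ 2) * (2 * (m + w) * s))
      / rP m w s ^ 2) ?_ ?_ ?_ hs
  · exact ((by fun_prop : Continuous fun s : ℝ => 1 + s ^ 2).div
      (continuous_rP m w) fun s => (rP_pos w hm s).ne')
  · intro s hs
    exact ((hd s).div (hasDerivAt_rP m w s) (rP_pos w hm s).ne')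
  · intro s hs
    have hP := rP_pos w hm s
    have hU := sq1_pos s
    have key : ((m + 1 + (w - 1) * (s ^ 2 / (1 + s ^ 2))) *
        ((1 + s ^ 2) / rP m w s) + s *
        ((2 * s * rP m w s - (1 + s ^ 2) * (2 * (m + w) * s)) / rP m w s ^ 2)) - 1
        = (rP m w s - 2 * w * s ^ 2) / rP m w s ^ 2 := by
      field_simp
      unfold rP
      ring
    have h5 : 0 < rP m w s - 2 * w * s ^ 2 := by
      unfold rP
      have : (0 : ℝ) < m := by linarith
      nlinarith [sq_nonneg s]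
    have : 0 < (rP m w s - 2 * w * s ^ 2) / rP m w s ^ 2 := by positivity
    linarith

/-- The comparison equivalent to the strict monotonicity of the elasticity. -/
theorem rV_lt' {m w : ℕ} (hw : 1 ≤ w) (hwm : w ≤ m) {s : ℝ} (hs : 0 < s) :
    rV m w s < rK m w s * (rP m w s * (1 + s ^ 2) / rQ m w s) := by
  have hm : 1 ≤ m := hw.trans hwm
  have h1 : (1 : ℝ) ≤ w := by exact_mod_cast hw
  have h2 : (w : ℝ) ≤ m := by exact_mod_cast hwm
  have hd : ∀ s : ℝ, HasDerivAt (fun s : ℝ => 1 + s ^ 2) (2 * s) s := fun s => by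
    simpa using ((hasDerivAt_pow 2 s).const_add 1)
  refine rV_lt_rK_mul m w (fun s => rP m w s * (1 + s ^ 2) / rQ m w s)
    (fun s => ((2 * (m + w) * s * (1 + s ^ 2) + rP m w s * (2 * s)) * rQ m w s
      - rP m w s * (1 + s ^ 2) * (m * (m + 1) * (2 * (1 + s ^ 2) * (2 * s))
      + (2 * m * w - m - w) * (2 * s * (1 + s ^ 2) + s ^ 2 * (2 * s))
      + w * (w + 1) * (2 * s ^ 2 * (2 * s)))) / rQ m w s ^ 2) ?_ ?_ ?_ hs
  · exact (((continuous_rP m w).mul (by fun_prop)).div
      (continuous_rQ m w) fun s => (rQ_pos hw hwm s).ne')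
  · intro s hs
    exact (((hasDerivAt_rP m w s).mul (hd s)).div (hasDerivAt_rQ m w s) (rQ_pos hw hwm s).ne')
  · intro s hs
    have hQ := rQ_pos hw hwm s
    have hU := sq1_pos s
    have key : (m + 1 + (w - 1) * (s ^ 2 / (1 + s ^ 2))) * (rP m w s * (1 + s ^ 2) / rQ m w s)
        + s * (((2 * (m + w) * s * (1 + s ^ 2) + rP m w s * (2 * s)) * rQ m w s
      - rP m w s * (1 + s ^ 2) * (m * (m + 1) * (2 * (1 + s ^ 2) * (2 * s))
      + (2 * m * w - m - w) * (2 * s * (1 + s ^ 2) + s ^ 2 * (2 * s))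
      + w * (w + 1) * (2 * s ^ 2 * (2 * s)))) / rQ m w s ^ 2) - 1
        = 2 * s ^ 2 * (1 + s ^ 2) * ((m ^ 2 + 3 * m * w) * (1 + s ^ 2)
          - w * (3 * m + w) * s ^ 2) / rQ m w s ^ 2 := by
      field_simp
      unfold rP rQ
      ring
    have h5 : 0 < (m ^ 2 + 3 * m * w : ℝ) * (1 + s ^ 2) - w * (3 * m + w) * s ^ 2 := by
      have : (0 : ℝ) < m := by linarith
      nlinarith [sq_nonneg s, mul_nonneg (sq_nonneg s) (mul_nonneg (sub_nonneg.mpr h2)
        (by linarith : (0:ℝ) ≤ m + w))]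
    have : 0 < 2 * s ^ 2 * (1 + s ^ 2) * ((m ^ 2 + 3 * m * w) * (1 + s ^ 2)
          - w * (3 * m + w) * s ^ 2) / rQ m w s ^ 2 := by positivity
    linarith

/-- `V ≤ s V' / N`, `N = m + 1`. -/
theorem rV_le_div {m w : ℕ} (hw : 1 ≤ w) {s : ℝ} (hs : 0 < s) :
    (m + 1) * rV m w s ≤ s * rd m w s := by
  have h1 : (1 : ℝ) ≤ w := by exact_mod_cast hw
  have hmono : MonotoneOn (fun s => rK m w s - (m + 1) * rV m w s) (Ici 0) := by
    refine monotoneOn_of_deriv_nonneg (convex_Ici 0) ?_ ?_ ?_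
    · have h0 : rK m w = fun s => s * rd m w s := by funext s; exact rK_eq m w s
      rw [h0]
      exact ((continuous_id.mul (continuous_rd m w)).sub
        (continuous_const.mul (continuous_rV m w))).continuousOn
    · intro x hx
      rw [interior_Ici, mem_Ioi] at hx
      exact ((hasDerivAt_rK m w hx).sub
        ((hasDerivAt_rV m w x).const_mul _)).differentiableAt.differentiableWithinAt
    · intro x hx
      rw [interior_Ici, mem_Ioi] at hx
      have hD : HasDerivAt (fun s => rK m w s - (m + 1) * rV m w s) _ x :=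
        (hasDerivAt_rK m w hx).sub ((hasDerivAt_rV m w x).const_mul _)
      rw [hD.deriv]
      have h2 := rd_pos m w hx
      have h3 : 0 ≤ rd m w x * ((w - 1) * (x ^ 2 / (1 + x ^ 2))) := by
        have := sq1_pos x
        have : (0 : ℝ) ≤ w - 1 := by linarith
        positivity
      linarith
  have h := hmono (mem_Ici.mpr le_rfl) (mem_Ici.mpr hs.le) hs.le
  simp only [rV_zero, rK_eq, zero_mul, sub_zero, mul_zero] at h
  linarith

/-- `s V' ≤ (N + (w-1) T) V`, `T = s²/(1+s²)`. -/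
theorem le_rV_mul {m w : ℕ} (hw : 1 ≤ w) {s : ℝ} (hs : 0 < s) :
    s * rd m w s ≤ (m + 1 + (w - 1) * (s ^ 2 / (1 + s ^ 2))) * rV m w s := by
  have h1 : (1 : ℝ) ≤ w := by exact_mod_cast hw
  have h2 : Continuous fun s : ℝ => s ^ 2 / (1 + s ^ 2) :=
    (continuous_pow 2).div (by fun_prop) fun s => (sq1_pos s).ne'
  have hmono : MonotoneOn (fun s => (m + 1 + (w - 1) * (s ^ 2 / (1 + s ^ 2))) * rV m w s
      - rK m w s) (Ici 0) := by
    have hd : ∀ x : ℝ, HasDerivAt (fun s : ℝ => s ^ 2 / (1 + s ^ 2))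
        (2 * x / (1 + x ^ 2) ^ 2) x := by
      intro x
      have e1 : HasDerivAt (fun s : ℝ => s ^ 2) (2 * x) x := by simpa using hasDerivAt_pow 2 x
      refine (e1.div (e1.const_add 1) (sq1_pos x).ne').congr_deriv ?_
      congr 1
      ring
    have hD : ∀ x : ℝ, 0 < x → HasDerivAt (fun s =>
        (m + 1 + (w - 1) * (s ^ 2 / (1 + s ^ 2))) * rV m w s - rK m w s)
        ((w - 1) * (2 * x / (1 + x ^ 2) ^ 2) * rV m w x) x := by
      intro x hx
      refine (((((hd x).const_mul ((w : ℝ) - 1)).const_add ((m : ℝ) + 1)).mul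
        (hasDerivAt_rV m w x)).sub (hasDerivAt_rK m w hx)).congr_deriv ?_
      ring
    refine monotoneOn_of_deriv_nonneg (convex_Ici 0) ?_ ?_ ?_
    · have h0 : rK m w = fun s => s * rd m w s := by funext s; exact rK_eq m w s
      rw [h0]
      exact (((continuous_const.add (continuous_const.mul h2)).mul (continuous_rV m w)).sub
        (continuous_id.mul (continuous_rd m w))).continuousOn
    · intro x hx
      rw [interior_Ici, mem_Ioi] at hx
      exact (hD x hx).differentiableAt.differentiableWithinAt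
    · intro x hx
      rw [interior_Ici, mem_Ioi] at hx
      rw [(hD x hx).deriv]
      have h3 := rV_pos m w hx
      have := sq1_pos x
      have : (0 : ℝ) ≤ w - 1 := by linarith
      positivity
  have h := hmono (mem_Ici.mpr le_rfl) (mem_Ici.mpr hs.le) hs.le
  simp only [rV_zero, rK_eq, zero_mul, sub_zero, mul_zero] at h
  linarith

/-- `V / (s V') < P / Q` in the variable `T = s²/(1+s²)`. -/
theorem rV_lt_PQ {m w : ℕ} (hw : 1 ≤ w) (hwm : w ≤ m) {s T : ℝ} (hs : 0 < s)
    (hT : T = s ^ 2 / (1 + s ^ 2)) :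
    rV m w s * ((m + w * T) * (m + 1 + (w - 1) * T) - 2 * w * T * (1 - T)) <
      s * rd m w s * (m + w * T) := by
  have h := rV_lt' hw hwm hs
  have hU := sq1_pos s
  have hQ := rQ_pos hw hwm s
  have e1 : (m + w * T) * (m + 1 + (w - 1) * T) - 2 * w * T * (1 - T)
      = rQ m w s / (1 + s ^ 2) ^ 2 := by
    rw [hT]; unfold rQ; field_simp; ring
  have e2 : (m + w * T) = rP m w s / (1 + s ^ 2) := by
    rw [hT]; unfold rP; field_simp
  rw [e1, e2, ← rK_eq]
  have h2 := mul_lt_mul_of_pos_right h (div_pos hQ (pow_pos hU 2))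
  refine lt_of_lt_of_eq h2 ?_
  field_simp

theorem re_eq {m w : ℕ} {s : ℝ} (hs : 0 < s) :
    re m w s = rV m w s * (rP m w s / (rK m w s * (1 + s ^ 2))) := by
  unfold re rh rA rP rK
  have hu := su_pos s
  have hu2 := su_sq s
  generalize Real.sqrt (1 + s ^ 2) = u at *
  rw [← hu2, pow_succ s m]
  field_simp

theorem re_gt {m w : ℕ} (hw : 1 ≤ w) (hwm : w ≤ m) {s : ℝ} (hs : 0 < s) :
    (m : ℝ) / (m + 1) < re m w s := by
  have hm : 1 ≤ m := hw.trans hwm
  have h1 := rV_gt hw hwm hs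
  have hP := rP_pos w hm s
  have hU := sq1_pos s
  have hK := rK_pos m w hs
  rw [re_eq hs]
  have h2 := mul_lt_mul_of_pos_right h1 (div_pos hP (mul_pos hK hU))
  refine lt_of_eq_of_lt ?_ h2
  field_simp

theorem re_lt {m w : ℕ} (hw : 1 ≤ w) (hwm : w ≤ m) {s : ℝ} (hs : 0 < s) :
    re m w s < 1 := by
  have hm : 1 ≤ m := hw.trans hwm
  have h1 := rV_lt hw hwm hs
  have hP := rP_pos w hm s
  have hU := sq1_pos s
  have hK := rK_pos m w hs
  rw [re_eq hs]
  have h2 := mul_lt_mul_of_pos_right h1 (div_pos hP (mul_pos hK hU))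
  refine lt_of_lt_of_eq h2 ?_
  field_simp

theorem re_strictMonoOn {m w : ℕ} (hw : 1 ≤ w) (hwm : w ≤ m) :
    StrictMonoOn (re m w) (Ioi 0) := by
  have hm : 1 ≤ m := hw.trans hwm
  have hd : ∀ s : ℝ, HasDerivAt (fun s : ℝ => 1 + s ^ 2) (2 * s) s := fun s => by
    simpa using ((hasDerivAt_pow 2 s).const_add 1)
  have hder : ∀ s : ℝ, 0 < s → HasDerivAt
      (fun s => rV m w s * (rP m w s / (rK m w s * (1 + s ^ 2))))
      ((rK m w s * rP m w s * (1 + s ^ 2) - rV m w s * rQ m w s) /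
        (s * rK m w s * (1 + s ^ 2) ^ 2)) s := by
    intro s hs
    have hP := rP_pos w hm s
    have hU := sq1_pos s
    have hK := rK_pos m w hs
    have h := (hasDerivAt_rV m w s).mul ((hasDerivAt_rP m w s).div
      ((hasDerivAt_rK m w hs).mul (hd s)) (mul_pos hK hU).ne')
    refine h.congr_deriv ?_
    have e : rd m w s = rK m w s / s := by rw [rK_eq]; field_simp
    simp only [Pi.mul_apply, Pi.div_apply]
    rw [e]
    field_simp
    unfold rP rQ
    ring
  have h1 : StrictMonoOn (fun s => rV m w s * (rP m w s / (rK m w s * (1 + s ^ 2)))) (Ioi 0) := by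
    refine strictMonoOn_of_deriv_pos (convex_Ioi 0) ?_ ?_
    · intro s hs
      exact (hder s hs).continuousAt.continuousWithinAt
    · intro s hs
      rw [interior_Ioi] at hs
      rw [(hder s hs).deriv]
      have hQ := rQ_pos hw hwm s
      have hU := sq1_pos s
      have hK := rK_pos m w hs
      have hs' : 0 < s := hs
      have h2 := mul_lt_mul_of_pos_right (rV_lt' hw hwm hs) hQ
      have h3 : rK m w s * (rP m w s * (1 + s ^ 2) / rQ m w s) * rQ m w s
        = rK m w s * rP m w s * (1 + s ^ 2) := by field_simp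
      rw [h3] at h2
      have h4 := sub_pos.mpr h2
      positivity
  intro x hx y hy hxy
  rw [re_eq hx, re_eq hy]
  exact h1 hx hy hxy

/-- **Elasticity**: for `β` the elasticity of the ball profile at `s₀`, the quotient
`A / V ^ β` is minimal at `s₀`. -/
theorem profile_min {m w : ℕ} (hw : 1 ≤ w) (hwm : w ≤ m) {s₀ : ℝ} (hs₀ : 0 < s₀)
    {s : ℝ} (hs : 0 < s) :
    rA m w s₀ * rV m w s ^ re m w s₀ ≤ rA m w s * rV m w s₀ ^ re m w s₀ := by
  set β := re m w s₀ with hβ
  have hder : ∀ s : ℝ, 0 < s → HasDerivAt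
      (fun s => Real.log (rA m w s) - β * Real.log (rV m w s))
      (rd m w s / rV m w s * (re m w s - β)) s := by
    intro s hs
    have hA := rA_pos m w hs
    have hV := rV_pos m w hs
    have h := ((hasDerivAt_rA m w hs).log hA.ne').sub
      (((hasDerivAt_rV m w s).log hV.ne').const_mul β)
    refine h.congr_deriv ?_
    unfold re
    field_simp
  have hmono := re_strictMonoOn hw hwm
  have key : Real.log (rA m w s₀) - β * Real.log (rV m w s₀) ≤
      Real.log (rA m w s) - β * Real.log (rV m w s) := by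
    rcases le_total s₀ s with h | h
    · have : MonotoneOn (fun s => Real.log (rA m w s) - β * Real.log (rV m w s)) (Icc s₀ s) := by
        refine monotoneOn_of_deriv_nonneg (convex_Icc _ _) ?_ ?_ ?_
        · intro x hx
          exact (hder x (hs₀.trans_le hx.1)).continuousAt.continuousWithinAt
        · intro x hx
          rw [interior_Icc] at hx
          exact (hder x (hs₀.trans hx.1)).differentiableAt.differentiableWithinAt
        · intro x hx
          rw [interior_Icc] at hx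
          have hx0 : 0 < x := hs₀.trans hx.1
          rw [(hder x hx0).deriv]
          have := hmono (mem_Ioi.mpr hs₀) (mem_Ioi.mpr hx0) hx.1
          have h1 := rd_pos m w hx0
          have h2 := rV_pos m w hx0
          have h3 : 0 ≤ re m w x - β := by linarith
          positivity
      exact this (left_mem_Icc.mpr h) (right_mem_Icc.mpr h) h
    · have : AntitoneOn (fun s => Real.log (rA m w s) - β * Real.log (rV m w s)) (Icc s s₀) := by
        refine antitoneOn_of_deriv_nonpos (convex_Icc _ _) ?_ ?_ ?_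
        · intro x hx
          exact (hder x (hs.trans_le hx.1)).continuousAt.continuousWithinAt
        · intro x hx
          rw [interior_Icc] at hx
          exact (hder x (hs.trans hx.1)).differentiableAt.differentiableWithinAt
        · intro x hx
          rw [interior_Icc] at hx
          have hx0 : 0 < x := hs.trans hx.1
          rw [(hder x hx0).deriv]
          have := hmono (mem_Ioi.mpr hx0) (mem_Ioi.mpr hs₀) hx.2
          have h1 := rd_pos m w hx0
          have h2 := rV_pos m w hx0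
          have h3 : re m w x - β ≤ 0 := by linarith
          exact mul_nonpos_of_nonneg_of_nonpos (by positivity) h3
      exact this (left_mem_Icc.mpr h) (right_mem_Icc.mpr h) h
  have hA0 := rA_pos m w hs₀
  have hV0 := rV_pos m w hs₀
  have hA := rA_pos m w hs
  have hV := rV_pos m w hs
  have h1 : Real.log (rA m w s₀ * rV m w s ^ β) ≤ Real.log (rA m w s * rV m w s₀ ^ β) := by
    rw [Real.log_mul hA0.ne' (Real.rpow_pos_of_pos hV _).ne',
      Real.log_mul hA.ne' (Real.rpow_pos_of_pos hV0 _).ne', Real.log_rpow hV, Real.log_rpow hV0]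
    linarith
  exact (Real.log_le_log_iff (by positivity) (by positivity)).mp h1

end

end Pool.Agent.Work.MP_3b24f6_gt
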