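import Pool.Agent.Work.MP_3b24f6_gt.Model
import Pool.Agent.Work.MP_3b24f6_gt.Elast

set_option autoImplicit false

open MeasureTheory Set Filter Topology
open scoped ContDiff InnerProductSpace

/-! Track B (full isoperimetric inequality in rank one spaces): common definitions. -/

namespace Pool.Agent.Work.MP_3b24f6_gt

noncomputable section

variable {E : Type*} [NormedAddCommGroup E] [InnerProductSpace ℝ E] [FiniteDimensional ℝ E]

/-- The vertical structure of a noncompact rank one space in the chart `y = sinh r • ω`: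
`Q y` is `‖y‖²` times the orthogonal projection onto a space of dimension `w` (`w = 1, 3, 7` for
the complex, quaternionic, octonionic case) orthogonal to `y`. -/
structure Ver (E : Type*) [NormedAddCommGroup E] [InnerProductSpace ℝ E]
    [FiniteDimensional ℝ E] where
  w : ℕ
  Q : E → E →L[ℝ] E
  one_le_w : 1 ≤ w
  dim_le : 2 * w + 2 ≤ Module.finrank ℝ E
  smooth_Q : ContDiff ℝ ∞ Q
  Q_symm : ∀ y u v, ⟪Q y u, v⟫_ℝ = ⟪u, Q y v⟫_ℝ
  Q_self : ∀ y, Q y y = 0
  Q_Q : ∀ y v, Q y (Q y v) = ‖y‖ ^ 2 • Q y v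
  tr_Q : ∀ y, tr (Q y) = w * ‖y‖ ^ 2
  Q_smul : ∀ (c : ℝ) y, Q (c • y) = c ^ 2 • Q y

/-- Squared Riemannian length of the tangent vector `v` at `y`. -/
def mg (V : Ver E) (y v : E) : ℝ :=
  ‖v‖ ^ 2 - ⟪y, v⟫_ℝ ^ 2 / uu y ^ 2 + ⟪V.Q y v, v⟫_ℝ

/-- Riemannian length of the covector `ξ` at `y`. -/
def an (V : Ver E) (y ξ : E) : ℝ :=
  Real.sqrt (‖ξ‖ ^ 2 + ⟪y, ξ⟫_ℝ ^ 2 - ⟪V.Q y ξ, ξ⟫_ℝ / uu y ^ 2)

/-- Euclidean length of the part of `ξ` orthogonal to `y`. -/
def tn (y ξ : E) : ℝ := ‖ξ - (⟪y, ξ⟫_ℝ / ‖y‖ ^ 2) • y‖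

/-- Density of the Riemannian volume. -/
def rho (V : Ver E) (y : E) : ℝ := uu y ^ (V.w - 1)

/-- The test functions. -/
def Fn (f : E → ℝ) : Prop := ContDiff ℝ ∞ f ∧ HasCompactSupport f ∧ ∀ y, 0 ≤ f y

/-- `cosh r` as a function of `s = sinh r`. The profiles `rA` (area), `rd` (density) and `rV`
(volume) of balls, up to the factor `sg E`, are in `Elast.lean`. -/
def us (s : ℝ) : ℝ := Real.sqrt (1 + s ^ 2)

section measure
variable [MeasurableSpace E] [BorelSpace E]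

/-- Riemannian volume. -/
def mu (V : Ver E) : Measure E := volume.withDensity (fun y => ENNReal.ofReal (rho V y))

/-- Total variation of `f` (Riemannian). -/
def TV (V : Ver E) (f : E → ℝ) : ℝ := ∫ y, an V y (gradient f y) ∂(mu V)

/-- `∫ f ^ p`. -/
def mass (V : Ver E) (p : ℝ) (f : E → ℝ) : ℝ := ∫ y, f y ^ p ∂(mu V)

/-- `∫ f ^ p` outside the ball `‖y‖ < R`. -/
def tail (V : Ver E) (p R : ℝ) (f : E → ℝ) : ℝ :=
  ∫ y in (Metric.ball (0 : E) R)ᶜ, f y ^ p ∂(mu V)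

/-- The Sobolev constant: infimum of `TV f` over test functions with `∫ f ^ p = 1`. -/
def qq (V : Ver E) (p : ℝ) : ℝ := sInf {r : ℝ | ∃ f : E → ℝ, Fn f ∧ mass V p f = 1 ∧ TV V f = r}

/-- Surface measure of the unit sphere. -/
def sg (E : Type*) [NormedAddCommGroup E] [InnerProductSpace ℝ E] [FiniteDimensional ℝ E]
    [MeasurableSpace E] [BorelSpace E] : ℝ := ((volume : Measure E).toSphere univ).toReal

/-- Riemannian perimeter (De Giorgi) of a measurable set. -/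
def areaB (V : Ver E) (D : Set E) : ENNReal :=
  ⨆ X : {X : E → E // ContDiff ℝ ∞ X ∧ HasCompactSupport X ∧ ∀ y, mg V y (X y) ≤ 1},
    ENNReal.ofReal (∫ y in D, divE (fun z => rho V z • X.1 z) y)

/-- Homogeneity data. -/
structure HomB (V : Ver E) where
  chd : E → E → ℝ
  phi : E → E → E
  inv : E → E → E
  smooth_phi : ∀ p, ContDiff ℝ ∞ (phi p)
  smooth_inv : ∀ p, ContDiff ℝ ∞ (inv p)
  phi_inv : ∀ p y, phi p (inv p y) = y
  inv_phi : ∀ p y, inv p (phi p y) = y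
  phi_zero : ∀ p, phi p 0 = p
  mp : ∀ p, MeasurePreserving (phi p) (mu V) (mu V)
  an_phi : ∀ (p : E) (f : E → ℝ) (y : E), DifferentiableAt ℝ f (phi p y) →
    an V y (gradient (fun z => f (phi p z)) y) = an V (phi p y) (gradient f (phi p y))
  chd_phi : ∀ p x y, chd (phi p x) (phi p y) = chd x y
  chd_symm : ∀ x y, chd x y = chd y x
  chd_zero : ∀ y, chd 0 y = uu y
  chd_smooth : ContDiff ℝ ∞ (fun q : E × E => chd q.1 q.2)
  chd_deriv : ∀ e y, HasDerivAt (fun t : ℝ => chd (t • e) y) (-⟪e, y⟫_ℝ) 0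
  chd_coercive : ∀ p y, uu p ≤ 2 * uu y * chd p y

end measure

end

end Pool.Agent.Work.MP_3b24f6_gt
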