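import Pool.Agent.Work.MP_3b24f6_gt.Model

set_option autoImplicit false

open MeasureTheory Set Filter Topology
open scoped ContDiff InnerProductSpace Manifold

namespace Pool.Agent.Work.MP_3b24f6_gt

noncomputable section

variable {E : Type*} [NormedAddCommGroup E] [InnerProductSpace ℝ E] [FiniteDimensional ℝ E]

namespace AreaAux

theorem inner_gradient (f : E → ℝ) (x v : E) : ⟪gradient f x, v⟫_ℝ = fderiv ℝ f x v := by
  unfold gradient
  rw [InnerProductSpace.toDual_symm_apply]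

theorem contDiff_gradient {f : E → ℝ} (hf : ContDiff ℝ ∞ f) :
    ContDiff ℝ ∞ (fun x => gradient f x) := by
  have h : (fun x => gradient f x) = fun x => ∑ i, (fderiv ℝ f x (stdOrthonormalBasis ℝ E i)) •
      (stdOrthonormalBasis ℝ E i) := by
    ext1 x
    conv_lhs => rw [← (stdOrthonormalBasis ℝ E).sum_repr' (gradient f x)]
    refine Finset.sum_congr rfl fun i _ => ?_
    rw [real_inner_comm, inner_gradient]
  rw [h]
  refine ContDiff.sum fun i _ => ?_
  refine ContDiff.smul ?_ contDiff_const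
  exact (hf.fderiv_right (m := ∞) (by exact_mod_cast le_refl _)).clm_apply contDiff_const

variable (G : Geo E)

theorem g_grad (f : E → ℝ) (z v : E) : G.g z (G.grad f z) v = fderiv ℝ f z v := by
  unfold Geo.g Geo.grad
  rw [G.AC, inner_gradient]

theorem C_nonneg (z u : E) : 0 ≤ ⟪G.C z u, u⟫_ℝ := by
  have h : ⟪G.C z u, u⟫_ℝ = ⟪G.A z (G.C z u), G.C z u⟫_ℝ := by
    rw [G.AC, real_inner_comm]
  rw [h]
  by_cases h0 : G.C z u = 0
  · rw [h0]; simp
  · exact (G.A_pos z _ h0).le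

theorem C_pos (z u : E) (hu : u ≠ 0) : 0 < ⟪G.C z u, u⟫_ℝ := by
  have h : ⟪G.C z u, u⟫_ℝ = ⟪G.A z (G.C z u), G.C z u⟫_ℝ := by
    rw [G.AC, real_inner_comm]
  rw [h]
  refine G.A_pos z _ fun h0 => hu ?_
  have := G.AC z u
  rw [h0, map_zero] at this
  exact this.symm

theorem gn_nonneg (w : E → ℝ) (z : E) : 0 ≤ G.gn w z := Real.sqrt_nonneg _

theorem gn_sq (w : E → ℝ) (z : E) : G.gn w z ^ 2 = G.g z (G.grad w z) (G.grad w z) := by
  unfold Geo.gn
  rw [Real.sq_sqrt (C_nonneg G z _)]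
  unfold Geo.g Geo.grad
  rw [G.AC, real_inner_comm]

theorem gradient_ne {w : E → ℝ} {z : E} (hz : fderiv ℝ w z ≠ 0) : gradient w z ≠ 0 := by
  intro h
  apply hz
  ext v
  rw [← inner_gradient, h]
  simp

theorem gn_pos {w : E → ℝ} {z : E} (hz : fderiv ℝ w z ≠ 0) : 0 < G.gn w z :=
  Real.sqrt_pos.2 (C_pos G z _ (gradient_ne hz))

theorem g_symm (z u v : E) : G.g z u v = G.g z v u := by
  unfold Geo.g
  rw [G.A_symm, real_inner_comm]

theorem g_nonneg (z u : E) : 0 ≤ G.g z u u := by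
  by_cases h0 : u = 0
  · rw [h0]; simp [Geo.g]
  · exact (G.A_pos z _ h0).le

theorem g_sub_smul (z u v : E) (t : ℝ) :
    G.g z (v - t • u) (v - t • u) = G.g z u u * (t * t) + (-2 * G.g z u v) * t + G.g z v v := by
  have h1 := g_symm G z v u
  unfold Geo.g at h1 ⊢
  simp only [map_sub, map_smul, inner_sub_left, inner_sub_right, inner_smul_left,
    inner_smul_right, RCLike.conj_to_real]
  rw [h1]
  ring

theorem cs (z u v : E) : G.g z u v ^ 2 ≤ G.g z u u * G.g z v v := by
  have h : ∀ t : ℝ, 0 ≤ G.g z u u * (t * t) + (-2 * G.g z u v) * t + G.g z v v := fun t => by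
    rw [← g_sub_smul]
    exact g_nonneg G z _
  have h2 := discrim_le_zero h
  unfold discrim at h2
  nlinarith [h2]

theorem dw_le (w : E → ℝ) (z X : E) (hX : G.g z X X ≤ 1) : fderiv ℝ w z X ≤ G.gn w z := by
  rw [← g_grad G]
  have h1 := cs G z (G.grad w z) X
  rw [← gn_sq] at h1
  have h2 : G.g z (G.grad w z) X ^ 2 ≤ G.gn w z ^ 2 :=
    h1.trans (mul_le_of_le_one_right (sq_nonneg _) hX)
  exact (le_abs_self _).trans (abs_le_of_sq_le_sq h2 (gn_nonneg G w z))

theorem g_nrm_le (w : E → ℝ) (z : E) : G.g z (G.nrm w z) (G.nrm w z) ≤ 1 := by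
  have h : G.g z (G.nrm w z) (G.nrm w z) = ((G.gn w z)⁻¹) ^ 2 * G.gn w z ^ 2 := by
    rw [gn_sq]
    unfold Geo.nrm Geo.g
    simp only [map_smul, inner_smul_left, inner_smul_right, RCLike.conj_to_real]
    ring
  rw [h, ← mul_pow]
  by_cases h0 : G.gn w z = 0
  · rw [h0]; norm_num
  · rw [inv_mul_cancel₀ h0]; norm_num

theorem dw_nrm (w : E → ℝ) (z : E) : fderiv ℝ w z (G.nrm w z) = G.gn w z := by
  unfold Geo.nrm
  rw [map_smul, ← g_grad G, ← gn_sq, smul_eq_mul]
  by_cases h0 : G.gn w z = 0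
  · rw [h0]; norm_num
  · rw [sq, ← mul_assoc, inv_mul_cancel₀ h0, one_mul]

theorem contDiff_Cgrad {w : E → ℝ} (hw : ContDiff ℝ ∞ w) :
    ContDiff ℝ ∞ (fun z => ⟪G.C z (gradient w z), gradient w z⟫_ℝ) :=
  (G.smooth_C.clm_apply (contDiff_gradient hw)).inner ℝ (contDiff_gradient hw)

theorem continuous_gn {w : E → ℝ} (hw : ContDiff ℝ ∞ w) : Continuous (G.gn w) :=
  (contDiff_Cgrad G hw).continuous.sqrt

theorem contDiffAt_gn {w : E → ℝ} (hw : ContDiff ℝ ∞ w) {z : E} (hz : fderiv ℝ w z ≠ 0) :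
    ContDiffAt ℝ ∞ (G.gn w) z :=
  (contDiff_Cgrad G hw).contDiffAt.sqrt (C_pos G z _ (gradient_ne hz)).ne'

theorem contDiffAt_nrm {w : E → ℝ} (hw : ContDiff ℝ ∞ w) {z : E} (hz : fderiv ℝ w z ≠ 0) :
    ContDiffAt ℝ ∞ (G.nrm w) z :=
  ((contDiffAt_gn G hw hz).inv (gn_pos G hz).ne').smul
    (G.smooth_C.clm_apply (contDiff_gradient hw)).contDiffAt

omit [FiniteDimensional ℝ E] in
theorem isCompact_surf {w : E → ℝ} (hw : IsReg w) : IsCompact (surf w) := by
  refine hw.cpt.of_isClosed_subset ?_ ?_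
  · exact isClosed_eq hw.smooth.continuous continuous_const
  · intro x hx
    exact le_of_eq hx

/-- A smooth cutoff equal to `1` on the compact set `K`, supported in the open set `U`. -/
theorem exists_cutoff {K U : Set E} (hK : IsCompact K) (hU : IsOpen U) (hKU : K ⊆ U) :
    ∃ χ : E → ℝ, ContDiff ℝ ∞ χ ∧ (∀ x ∈ K, χ x = 1) ∧ (∀ x, χ x ∈ Icc (0 : ℝ) 1) ∧
      ∃ L : Set E, IsCompact L ∧ L ⊆ U ∧ ∀ x, x ∉ L → χ x = 0 := by
  obtain ⟨L, hL, hKL, hLU⟩ := exists_compact_between hK hU hKU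
  obtain ⟨f, hf0, hf1, hf⟩ := exists_contMDiffMap_zero_one_of_isClosed (n := ⊤) 𝓘(ℝ, E)
    (s := (interior L)ᶜ) (t := K) isOpen_interior.isClosed_compl hK.isClosed
    (by
      rw [Set.disjoint_left]
      intro x hx hxK
      exact hx (hKL hxK))
  refine ⟨f, f.contMDiff.contDiff, fun x hx => hf1 hx, hf, L, hL, hLU, fun x hx => ?_⟩
  exact hf0 (fun h => hx (interior_subset h))

variable [MeasurableSpace E] [BorelSpace E]

theorem integrable_of_continuous {w : E → ℝ} (hw : IsReg w) {μ : Measure E}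
    (hμ : IsDelta w μ) {f : E → ℝ} (hf : Continuous f) : Integrable f μ := by
  have := hμ.fin
  have h1 : μ.restrict (surf w) = μ :=
    Measure.restrict_eq_self_of_ae_mem (by
      rw [ae_iff]
      exact hμ.supp)
  rw [← h1]
  exact (hf.continuousOn (s := surf w)).integrableOn_compact (isCompact_surf hw)

end AreaAux

open AreaAux

variable [MeasurableSpace E] [BorelSpace E]

/-- T3 (file Area.lean). -/
theorem area_eq (G : Geo E) {w : E → ℝ} (hw : IsReg w) {μ : Measure E} (hμ : IsDelta w μ) :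
    G.area {x | w x < 0} = ENNReal.ofReal (∫ x, G.ρ x * G.gn w x ∂μ) := by
  have hsurf : ∀ᵐ x ∂μ, w x = 0 := by
    rw [ae_iff]
    exact hμ.supp
  have hint : Integrable (fun x => G.ρ x * G.gn w x) μ :=
    integrable_of_continuous hw hμ (G.smooth_ρ.continuous.mul (continuous_gn G hw.smooth))
  have hflux : ∀ X : E → E, ContDiff ℝ ∞ X →
      ∫ x in {x | w x < 0}, divE (fun y => G.ρ y • X y) x
        = ∫ x, G.ρ x * fderiv ℝ w x (X x) ∂μ := by
    intro X hX
    rw [hμ.flux (fun y => G.ρ y • X y)]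
    · refine integral_congr_ae (Filter.Eventually.of_forall fun x => ?_)
      simp only [map_smul, smul_eq_mul]
    · refine Filter.Eventually.of_forall fun x => ?_
      exact ((G.smooth_ρ.smul hX).contDiffAt).of_le (by exact_mod_cast le_top)
  refine le_antisymm ?_ ?_
  · refine iSup_le fun X => ?_
    obtain ⟨X, hX, hXc, hX1⟩ := X
    refine ENNReal.ofReal_le_ofReal ?_
    simp only
    rw [hflux X hX]
    refine integral_mono ?_ hint fun x => ?_
    · refine integrable_of_continuous hw hμ (G.smooth_ρ.continuous.mul ?_)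
      exact (hw.smooth.continuous_fderiv (by simp)).clm_apply hX.continuous
    · exact mul_le_mul_of_nonneg_left (dw_le G w x _ (hX1 x)) (G.ρ_pos x).le
  · have hU : IsOpen {x | fderiv ℝ w x ≠ 0} :=
      isOpen_compl_iff.2 (isClosed_eq (hw.smooth.continuous_fderiv (by simp)) continuous_const)
    obtain ⟨χ, hχ, hχ1, hχI, L, hL, hLU, hχ0⟩ :=
      exists_cutoff (isCompact_surf hw) hU (fun x hx => hw.reg x hx)
    have hXs : ContDiff ℝ ∞ (fun x => χ x • G.nrm w x) := by
      rw [contDiff_iff_contDiffAt]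
      intro x
      by_cases hx : x ∈ L
      · exact hχ.contDiffAt.smul (contDiffAt_nrm G hw.smooth (hLU hx))
      · have h0 : (fun x => χ x • G.nrm w x) =ᶠ[𝓝 x] fun _ => 0 := by
          filter_upwards [hL.isClosed.isOpen_compl.mem_nhds hx] with y hy
          rw [hχ0 y hy, zero_smul]
        exact contDiffAt_const.congr_of_eventuallyEq h0
    have hXc : HasCompactSupport (fun x => χ x • G.nrm w x) :=
      HasCompactSupport.intro hL fun x hx => by rw [hχ0 x hx, zero_smul]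
    have hX1 : ∀ z, G.g z (χ z • G.nrm w z) (χ z • G.nrm w z) ≤ 1 := by
      intro z
      have h1 : G.g z (χ z • G.nrm w z) (χ z • G.nrm w z)
          = χ z ^ 2 * G.g z (G.nrm w z) (G.nrm w z) := by
        unfold Geo.g
        simp only [map_smul, inner_smul_left, inner_smul_right, RCLike.conj_to_real]
        ring
      rw [h1]
      have h2 : χ z ^ 2 ≤ 1 := pow_le_one₀ (hχI z).1 (hχI z).2
      exact mul_le_one₀ h2 (g_nonneg G z _) (g_nrm_le G w z)
    refine le_iSup_of_le ⟨fun x => χ x • G.nrm w x, hXs, hXc, hX1⟩ ?_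
    refine ENNReal.ofReal_le_ofReal (le_of_eq ?_)
    simp only
    rw [hflux _ hXs]
    refine integral_congr_ae ?_
    filter_upwards [hsurf] with x hx
    rw [map_smul, dw_nrm, hχ1 x hx, one_smul]

end

end Pool.Agent.Work.MP_3b24f6_gt
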