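import Pool.Agent.Work.MP_3b24f6_gt.Mollify
import Pool.Agent.Work.MP_3b24f6_gt.BasicB

/-!
# Lower semicontinuity and isometry invariance of the perimeter
-/

set_option autoImplicit false
set_option linter.unusedSectionVars false

open MeasureTheory Set Filter Topology
open scoped ContDiff InnerProductSpace

namespace Pool.Agent.Work.MP_3b24f6_gt

noncomputable section

variable {E : Type*} [NormedAddCommGroup E] [InnerProductSpace ℝ E] [FiniteDimensional ℝ E]
  [MeasurableSpace E] [BorelSpace E] (V : Ver E)

/-- The flux of a test function against an admissible field. -/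
theorem Mol.flux_le_TV {f : E → ℝ} (hf : Fn f) {X : E → E} (hX : Mol.Adm V X) :
    ∫ y, f y * divE (fun z => rho V z • X z) y ≤ TV V f := by
  obtain ⟨hX1, hX2, hX3⟩ := hX
  rw [dl_integral_mul_divE (hf.1.of_le (by exact_mod_cast le_top)) hf.2.1
    ((Mol.contDiff_rhoX V hX1).of_le (by exact_mod_cast le_top)), ← integral_neg, TV, Mol.int_mu]
  have hgc : Continuous (fun y => gradient f y) := (AreaAux.contDiff_gradient hf.1).continuous
  have hac : Continuous (fun y => an V y (gradient f y)) :=
    (Mol.continuous_an V).comp (continuous_id.prodMk hgc)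
  have hanc : HasCompactSupport (fun y => an V y (gradient f y)) := by
    refine (Mol.hcs_gradient hf.2.1).mono fun y hy => ?_
    rw [Function.mem_support] at hy ⊢
    intro h0
    apply hy
    rw [h0]
    simp [an]
  have i1 : Integrable (fun y => rho V y * an V y (gradient f y)) :=
    ((Mol.contDiff_rho V).continuous.mul hac).integrable_of_hasCompactSupport hanc.mul_left
  have i2 : Integrable (fun y => -fderiv ℝ f y (rho V y • X y)) := by
    refine Continuous.integrable_of_hasCompactSupport ?_ ?_
    · exact ((hf.1.continuous_fderiv (by simp)).clm_apply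
        (Mol.contDiff_rhoX V hX1).continuous).neg
    · refine (Mol.hcs_rhoX V hX2).mono fun y hy => ?_
      rw [Function.mem_support] at hy ⊢
      intro h0
      apply hy
      rw [h0, map_zero, neg_zero]
  refine integral_mono i2 i1 fun y => ?_
  simp only
  rw [map_smul, smul_eq_mul, ← mul_neg]
  refine mul_le_mul_of_nonneg_left ?_ (Mol.rho_pos V y).le
  rw [← AreaAux.inner_gradient]
  have h1 := Mol.abs_inner_le V y (X y) (gradient f y)
  have h2 : Real.sqrt (mg V y (X y)) ≤ 1 := Real.sqrt_le_one.mpr (hX3 y)
  have h3 : an V y (gradient f y) * Real.sqrt (mg V y (X y)) ≤ an V y (gradient f y) :=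
    mul_le_of_le_one_right (Mol.an_nonneg V y _) h2
  have h4 := neg_le_abs (⟪gradient f y, X y⟫_ℝ)
  linarith

/-- Lower semicontinuity. -/
theorem area_le_of_approx {D : Set E} (hD : MeasurableSet D) (hfin : mu V D ≠ ⊤) {A : ℝ}
    (h : ∀ ε, 0 < ε → ∃ f : E → ℝ, Fn f ∧ TV V f ≤ A + ε ∧
      ∫ y, |f y - D.indicator (fun _ => (1 : ℝ)) y| ∂(mu V) ≤ ε) :
    areaB V D ≤ ENNReal.ofReal A := by
  unfold areaB
  refine iSup_le fun X => ENNReal.ofReal_le_ofReal ?_
  obtain ⟨X, hX⟩ := X
  have hadm : Mol.Adm V X := hX
  simp only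
  obtain ⟨hX1, hX2, hX3⟩ := hX
  set d := divE (fun z => rho V z • X z) with hd
  have hdc : Continuous d := Mol.continuous_divE (Mol.contDiff_rhoX V hX1)
  have hds : HasCompactSupport d := Mol.hcs_divE (Mol.hcs_rhoX V hX2)
  -- bound of d / rho
  obtain ⟨S, hS⟩ : ∃ S, ∀ y, |d y| ≤ S * rho V y := by
    have hc : Continuous (fun y => d y / rho V y) :=
      hdc.div (Mol.contDiff_rho V).continuous fun y => (Mol.rho_pos V y).ne'
    have hs : HasCompactSupport (fun y => d y / rho V y) := by
      refine hds.mono fun y hy => ?_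
      rw [Function.mem_support] at hy ⊢
      intro h0
      apply hy
      rw [h0, zero_div]
    obtain ⟨S, hS⟩ := hc.bounded_above_of_compact_support hs
    refine ⟨S, fun y => ?_⟩
    have := hS y
    rw [Real.norm_eq_abs, abs_div, abs_of_pos (Mol.rho_pos V y),
      div_le_iff₀ (Mol.rho_pos V y)] at this
    exact this
  have hS0 : 0 ≤ S := by
    have h1 := hS 0
    have h2 := Mol.rho_pos V (0 : E)
    have h3 := abs_nonneg (d 0)
    by_contra hneg
    push Not at hneg
    nlinarith
  have hdi : Integrable d := hdc.integrable_of_hasCompactSupport hds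
  have key : ∀ ε, 0 < ε → ∫ y in D, d y ≤ A + (1 + S) * ε := by
    intro ε hε
    obtain ⟨f, hf, hTV, hL⟩ := h ε hε
    have h1 := Mol.flux_le_TV V hf hadm
    rw [← hd] at h1
    have i1 : Integrable (fun y => f y * d y) :=
      (hf.1.continuous.mul hdc).integrable_of_hasCompactSupport hds.mul_left
    have i2 : Integrable (fun y => rho V y * |f y - D.indicator (fun _ => (1 : ℝ)) y|) :=
      (Mol.integrable_mu_iff V).mp (Mol.integrable_sub_ind V hD hfin hf)
    rw [Mol.int_mu] at hL
    have h2 : ∫ y in D, d y ≤ ∫ y, (f y * d y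
        + S * (rho V y * |f y - D.indicator (fun _ => (1 : ℝ)) y|)) := by
      rw [← integral_indicator hD]
      refine integral_mono (hdi.indicator hD) (i1.add (i2.const_mul S)) fun y => ?_
      simp only
      have h3 := hS y
      by_cases hy : y ∈ D
      · simp only [indicator_of_mem hy]
        have h4 : (1 - f y) * d y ≤ |f y - 1| * |d y| := by
          rw [abs_sub_comm, ← abs_mul]
          exact le_abs_self _
        have h5 : |f y - 1| * |d y| ≤ |f y - 1| * (S * rho V y) :=
          mul_le_mul_of_nonneg_left h3 (abs_nonneg _)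
        linarith
      · simp only [indicator_of_notMem hy, sub_zero]
        have h4 : -(f y * d y) ≤ |f y| * |d y| := by
          rw [← abs_mul]
          exact neg_le_abs _
        have h5 : |f y| * |d y| ≤ |f y| * (S * rho V y) :=
          mul_le_mul_of_nonneg_left h3 (abs_nonneg _)
        linarith
    rw [integral_add i1 (i2.const_mul S), integral_const_mul] at h2
    have h6 : S * ∫ y, rho V y * |f y - D.indicator (fun _ => (1 : ℝ)) y| ≤ S * ε :=
      mul_le_mul_of_nonneg_left hL hS0
    linarith
  refine le_of_forall_pos_le_add fun δ hδ => ?_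
  have h7 := key (δ / (1 + S)) (by positivity)
  have h8 : (1 + S) * (δ / (1 + S)) = δ := by
    field_simp
  linarith

theorem Mol.mu_phi (H : HomB V) (a : E) {D : Set E} (hD : MeasurableSet D) :
    MeasurableSet (H.phi a '' D) ∧ mu V (H.phi a '' D) = mu V D := by
  have h1 : MeasurableSet (H.phi a '' D) :=
    (H.homeo a).measurableEmbedding.measurableSet_image.mpr hD
  refine ⟨h1, ?_⟩
  rw [← (H.mp a).measure_preimage h1.nullMeasurableSet]
  congr 1
  exact preimage_image_eq D (H.homeo a).injective

theorem Mol.integral_ind_comp (H : HomB V) (a : E) {D : Set E} (f : E → ℝ) :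
    ∫ y, |f y - (H.phi a '' D).indicator (fun _ => (1 : ℝ)) y| ∂(mu V)
      = ∫ y, |f (H.phi a y) - D.indicator (fun _ => (1 : ℝ)) y| ∂(mu V) := by
  rw [← integral_phi H a]
  refine integral_congr_ae (Eventually.of_forall fun y => ?_)
  simp only
  have hinj : Function.Injective (H.phi a) := (H.homeo a).injective
  by_cases hy : y ∈ D
  · rw [indicator_of_mem (mem_image_of_mem _ hy), indicator_of_mem hy]
  · rw [indicator_of_notMem (fun h => hy ((hinj.mem_set_image).mp h)), indicator_of_notMem hy]

theorem area_phi (H : HomB V) (a : E) {D : Set E} (hD : MeasurableSet D) (hfin : mu V D ≠ ⊤) :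
    areaB V (H.phi a '' D) = areaB V D := by
  obtain ⟨hD', hm⟩ := Mol.mu_phi V H a hD
  have hfin' : mu V (H.phi a '' D) ≠ ⊤ := by rw [hm]; exact hfin
  refine le_antisymm ?_ ?_
  · by_cases harea : areaB V D = ⊤
    · rw [harea]; exact le_top
    rw [← ENNReal.ofReal_toReal harea]
    refine area_le_of_approx V hD' hfin' fun ε hε => ?_
    obtain ⟨f, hf, -, hTV, hL⟩ := exists_approx V hD hfin harea hε
    have hg : Fn (fun y => f (H.inv a y)) :=
      ⟨hf.1.comp (H.smooth_inv a), hf.2.1.comp_homeomorph (H.homeo a).symm, fun y => hf.2.2 _⟩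
    have e : (fun y => f (H.inv a (H.phi a y))) = f := by
      funext y
      rw [H.inv_phi]
    refine ⟨fun y => f (H.inv a y), hg, ?_, ?_⟩
    · have := TV_comp H hg a
      rw [e] at this
      rw [← this]
      exact hTV
    · rw [Mol.integral_ind_comp V H a]
      simp only [H.inv_phi]
      exact hL
  · by_cases harea : areaB V (H.phi a '' D) = ⊤
    · rw [harea]; exact le_top
    rw [← ENNReal.ofReal_toReal harea]
    refine area_le_of_approx V hD hfin fun ε hε => ?_
    obtain ⟨f, hf, -, hTV, hL⟩ := exists_approx V hD' hfin' harea hε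
    refine ⟨fun y => f (H.phi a y), fn_comp H hf a, ?_, ?_⟩
    · rw [TV_comp H hf a]
      exact hTV
    · rw [← Mol.integral_ind_comp V H a]
      exact hL

end

end Pool.Agent.Work.MP_3b24f6_gt
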