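import Pool.Agent.Work.MP_3b24f6_gt.Trunc

set_option autoImplicit false

/-!
Abstract form of the near-minimiser argument (B9): `q ≥ b` from

* `nm`   near-minimisers exist,
* `prep` every near-minimiser can be moved to a prepared (balanced, tight) one,
* `sob`  near-minimisers are bounded in `L^r`, `r > p`,
* `ray`  a prepared near-minimiser has a radial comparison function `F` on the ball `B R`.
-/

open MeasureTheory Set Filter Topology

namespace Pool.Agent.Work.MP_3b24f6_gt.Trunc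

theorem assembly_abs {E : Type*} [MeasurableSpace E] {μ : Measure E}
    (TV : (E → ℝ) → ℝ) (Fn : (E → ℝ) → Prop) (Prep : ℝ → (E → ℝ) → Prop)
    (B : ℝ → Set E) (hB : ∀ R, MeasurableSet (B R))
    {p r q b : ℝ} (hp : 1 ≤ p) (hpr : p < r) (hq : 0 ≤ q) (hb : 0 ≤ b)
    (nonneg : ∀ f, Fn f → ∀ x, 0 ≤ f x)
    (int_p : ∀ f, Fn f → Integrable (fun x => f x ^ p) μ)
    (int_r : ∀ f, Fn f → Integrable (fun x => f x ^ r) μ)
    (nm : ∀ ε : ℝ, 0 < ε → ∃ f, Fn f ∧ ∫ x, f x ^ p ∂μ = 1 ∧ TV f ≤ q * (1 + ε))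
    (prep : ∀ η : ℝ, 0 < η → ∃ ε R : ℝ, 0 < ε ∧ 0 < R ∧ ∀ f, Fn f → ∫ x, f x ^ p ∂μ = 1 →
      TV f ≤ q * (1 + ε) → ∃ g, Fn g ∧ ∫ x, g x ^ p ∂μ = 1 ∧ TV g ≤ TV f ∧ Prep R g ∧
        ∫ x in (B R)ᶜ, g x ^ p ∂μ ≤ η)
    (sob : ∃ C : ℝ, ∀ f, Fn f → ∫ x, f x ^ p ∂μ = 1 → TV f ≤ 2 * q → ∫ x, f x ^ r ∂μ ≤ C)
    (ray : ∀ R δ : ℝ, 0 < R → 0 < δ → ∃ ε : ℝ, 0 < ε ∧ ∀ g, Fn g → ∫ x, g x ^ p ∂μ = 1 →
      Prep R g → TV g ≤ q * (1 + ε) → ∀ M : ℝ, 0 ≤ M → ∃ F : E → ℝ, ∃ X : ℝ,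
        (∀ x, 0 ≤ F x) ∧
        IntegrableOn (fun x => F x ^ p) (B R) μ ∧
        IntegrableOn (fun x => |g x - F x|) (B R) μ ∧
        b * (∫ x in B R, F x ^ p ∂μ) ^ (1 / p) ≤ X ∧
        X + M * ∫ x in B R, |g x - F x| ∂μ ≤ TV g + M * δ) :
    b ≤ q := by
  have hp0 : 0 < p := by linarith
  refine closing hp0 (fun η hη hη4 => ?_)
  obtain ⟨C, hC⟩ := sob
  -- choose L with L^(p-r) * |C| ≤ η
  have hTL : Tendsto (fun L : ℝ => L ^ (p - r) * |C|) atTop (𝓝 (0 * |C|)) := by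
    refine Tendsto.mul_const _ ?_
    have := tendsto_rpow_neg_atTop (y := r - p) (by linarith)
    simpa [neg_sub] using this
  rw [zero_mul] at hTL
  obtain ⟨L, hL1, hLC⟩ : ∃ L : ℝ, 1 ≤ L ∧ L ^ (p - r) * |C| ≤ η := by
    have h1 := (hTL.eventually (gt_mem_nhds hη)).and (eventually_ge_atTop (1:ℝ))
    obtain ⟨L, hL⟩ := h1.exists
    exact ⟨L, hL.2, hL.1.le⟩
  have hL0 : 0 < L := by linarith
  set K : ℝ := p * L ^ (p - 1) with hK
  have hK0 : 0 < K := mul_pos hp0 (Real.rpow_pos_of_pos hL0 _)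
  -- choose M with K * 2 q / M ≤ η / 2
  set M : ℝ := K * (4 * q) / η + 1 with hM
  have hM0 : 0 < M := by positivity
  have hM1 : 1 ≤ M := by
    have : 0 ≤ K * (4 * q) / η := by positivity
    linarith
  -- choose δ
  set δ : ℝ := min (η / M) (η / (2 * K)) with hδ
  have hδ0 : 0 < δ := lt_min (by positivity) (by positivity)
  obtain ⟨ε1, R, hε1, hR, hprep⟩ := prep η hη
  obtain ⟨ε2, hε2, hray⟩ := ray R δ hR hδ0
  set ε : ℝ := min (min ε1 ε2) η with hε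
  have hε0 : 0 < ε := lt_min (lt_min hε1 hε2) hη
  obtain ⟨f, hf, hf1, hfTV⟩ := nm ε hε0
  have hmono : ∀ a : ℝ, ε ≤ a → q * (1 + ε) ≤ q * (1 + a) := fun a ha =>
    mul_le_mul_of_nonneg_left (by linarith) hq
  obtain ⟨g, hg, hg1, hgTV, hgP, hgt⟩ := hprep f hf hf1
    (hfTV.trans (hmono ε1 ((min_le_left _ _).trans (min_le_left _ _))))
  have hgTV' : TV g ≤ q * (1 + ε) := hgTV.trans hfTV
  obtain ⟨F, X, hF0, iFp, iFd, hX, hXM⟩ := hray g hg hg1 hgP
    (hgTV'.trans (hmono ε2 ((min_le_left _ _).trans (min_le_right _ _)))) M hM0.le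
  have hgη : TV g ≤ q * (1 + η) := hgTV'.trans (hmono η (min_le_right _ _))
  have hg2 : TV g ≤ 2 * q := hgη.trans (by nlinarith)
  -- tail
  have hsplit : ∫ x in B R, g x ^ p ∂μ + ∫ x in (B R)ᶜ, g x ^ p ∂μ = 1 := by
    rw [integral_add_compl (hB R) (int_p g hg), hg1]
  have hin : 1 - η ≤ ∫ x in B R, g x ^ p ∂μ := by linarith
  -- closeness
  have hcl := integral_rpow_close (ν := μ.restrict (B R)) (f := g) (F := F) (L := L) hp hL0 hpr.le
    (nonneg g hg) hF0 (int_p g hg).integrableOn iFp (int_r g hg).integrableOn iFd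
  have hr' : ∫ x in B R, g x ^ r ∂μ ≤ |C| := by
    have h1 : ∫ x in B R, g x ^ r ∂μ ≤ ∫ x, g x ^ r ∂μ := by
      refine setIntegral_le_integral (int_r g hg) ?_
      exact Filter.Eventually.of_forall (fun x => Real.rpow_nonneg (nonneg g hg x) _)
    exact h1.trans ((hC g hg hg1 hg2).trans (le_abs_self C))
  have hLr : L ^ (p - r) * ∫ x in B R, g x ^ r ∂μ ≤ η :=
    (mul_le_mul_of_nonneg_left hr' (Real.rpow_nonneg hL0.le _)).trans hLC
  set Y : ℝ := ∫ x in B R, |g x - F x| ∂μ with hY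
  have hY0 : 0 ≤ Y := integral_nonneg (fun x => abs_nonneg _)
  have hI0 : 0 ≤ ∫ x in B R, F x ^ p ∂μ := integral_nonneg (fun x => Real.rpow_nonneg (hF0 x) _)
  have hX0 : 0 ≤ X := (mul_nonneg hb (Real.rpow_nonneg hI0 _)).trans hX
  -- bound of Y
  have hMY : M * Y ≤ 2 * q + M * δ := by linarith
  have hY1 : K * Y ≤ η := by
    have h1 : Y ≤ 2 * q / M + δ := by
      rw [div_add' _ _ _ hM0.ne', le_div_iff₀ hM0]
      nlinarith
    have h2 : K * δ ≤ η / 2 := by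
      have : δ ≤ η / (2 * K) := min_le_right _ _
      calc K * δ ≤ K * (η / (2 * K)) := mul_le_mul_of_nonneg_left this hK0.le
        _ = η / 2 := by field_simp
    have h3 : K * (2 * q / M) ≤ η / 2 := by
      rw [mul_div_assoc', div_le_iff₀ hM0]
      have : η / 2 * M = K * (2 * q) + η / 2 := by
        rw [hM]; field_simp; ring
      rw [this]; linarith
    calc K * Y ≤ K * (2 * q / M + δ) := mul_le_mul_of_nonneg_left h1 hK0.le
      _ = K * (2 * q / M) + K * δ := by ring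
      _ ≤ η := by linarith
  have hFp : 1 - 3 * η ≤ ∫ x in B R, F x ^ p ∂μ := by
    have h5 : p * L ^ (p - 1) * ∫ x in B R, |g x - F x| ∂μ ≤ η := hY1
    linarith
  have hpos : 0 ≤ 1 - 3 * η := by linarith
  have h6 : b * (1 - 3 * η) ^ (1 / p) ≤ X := by
    refine le_trans ?_ hX
    refine mul_le_mul_of_nonneg_left ?_ hb
    exact Real.rpow_le_rpow hpos hFp (by positivity)
  have h7 : M * δ ≤ η := by
    have : δ ≤ η / M := min_le_left _ _
    calc M * δ ≤ M * (η / M) := mul_le_mul_of_nonneg_left this hM0.le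
      _ = η := by field_simp
  have h8 : 0 ≤ M * Y := mul_nonneg hM0.le hY0
  linarith

end Pool.Agent.Work.MP_3b24f6_gt.Trunc
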