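import Pool.Agent.Work.MP_3b24f6_gt.ModelB

/-!
# Balancing (module B1 of track B)

For a compactly supported density `g` and a radial potential `W` with `W' = b`,
`c₁ / u ≤ b u ≤ c₂ / u`, there is a point `c` such that `g ∘ phi c` is balanced with respect to
`y ↦ b (uu y) y`, at controlled distance of a ball which carries most of the mass.
-/

set_option autoImplicit false

open MeasureTheory Set Filter Topology
open scoped ContDiff InnerProductSpace

namespace Pool.Agent.Work.MP_3b24f6_gt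

noncomputable section

variable {E : Type*} [NormedAddCommGroup E] [InnerProductSpace ℝ E] [FiniteDimensional ℝ E]

theorem bal_one_le_uu (y : E) : 1 ≤ uu y := by
  unfold uu
  exact Real.one_le_sqrt.2 (by nlinarith [sq_nonneg ‖y‖])

theorem bal_norm_le_uu (y : E) : ‖y‖ ≤ uu y := by
  unfold uu
  exact Real.le_sqrt_of_sq_le (by linarith)

theorem bal_continuous_uu : Continuous (uu : E → ℝ) := by
  unfold uu
  fun_prop

namespace HomB

variable [MeasurableSpace E] [BorelSpace E] {V : Ver E} (H : HomB V)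

theorem bal_chd_eq (p y : E) : H.chd p y = uu (H.inv p y) := by
  conv_lhs => rw [← H.phi_zero p, ← H.phi_inv p y]
  rw [H.chd_phi, H.chd_zero]

theorem bal_chd_phi (c z : E) : H.chd c (H.phi c z) = uu z := by
  rw [H.bal_chd_eq, H.inv_phi]

theorem bal_one_le_chd (p y : E) : 1 ≤ H.chd p y := by
  rw [H.bal_chd_eq]
  exact bal_one_le_uu _

theorem bal_chd_pos (p y : E) : 0 < H.chd p y := lt_of_lt_of_le one_pos (H.bal_one_le_chd p y)

/-- triangle inequality, upper bound -/
theorem bal_chd_le (p y : E) : H.chd p y ≤ 2 * uu p * uu y := by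
  have h1 := H.chd_coercive (H.inv p y) (H.inv p 0)
  have h2 : H.chd (H.inv p y) (H.inv p 0) = uu y := by
    rw [← H.chd_phi p, H.phi_inv, H.phi_inv, H.chd_symm, H.chd_zero]
  have h3 : uu (H.inv p 0) = uu p := by
    rw [← H.bal_chd_eq, H.chd_symm, H.chd_zero]
  rw [h2, h3] at h1
  rw [H.bal_chd_eq]
  exact h1

theorem bal_uu_le (p y : E) : uu y ≤ 2 * uu p * H.chd p y := by
  rw [H.chd_symm]
  exact H.chd_coercive y p

/-- `phi c` as a homeomorphism -/
def bal_homeo (c : E) : E ≃ₜ E where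
  toFun := H.phi c
  invFun := H.inv c
  left_inv := H.inv_phi c
  right_inv := H.phi_inv c
  continuous_toFun := (H.smooth_phi c).continuous
  continuous_invFun := (H.smooth_inv c).continuous

theorem bal_emb (c : E) : MeasurableEmbedding (H.phi c) :=
  (H.bal_homeo c).measurableEmbedding

theorem bal_integral_comp (c : E) (F : E → ℝ) :
    ∫ z, F (H.phi c z) ∂(mu V) = ∫ y, F y ∂(mu V) :=
  (H.mp c).integral_comp (H.bal_emb c) F

theorem bal_setIntegral_comp (c : E) (F : E → ℝ) (S : Set E) :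
    ∫ z in H.phi c ⁻¹' S, F (H.phi c z) ∂(mu V) = ∫ y in S, F y ∂(mu V) :=
  (H.mp c).setIntegral_preimage_emb (H.bal_emb c) F S

theorem bal_supp_comp (c : E) {g : E → ℝ} (hc : HasCompactSupport g) :
    HasCompactSupport fun z => g (H.phi c z) :=
  hc.comp_homeomorph (H.bal_homeo c)

theorem bal_chd_c1 : ContDiff ℝ 1 (fun q : E × E => H.chd q.1 q.2) :=
  H.chd_smooth.of_le (by exact_mod_cast le_top)

end HomB

/-- The potentials: `W' = b` on `[1, ∞)` and `c₁ / u ≤ b u ≤ c₂ / u` there. -/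
structure BalPot (W b : ℝ → ℝ) (c₁ c₂ : ℝ) : Prop where
  deriv : ∀ u, 1 ≤ u → HasDerivAt W (b u) u
  cont : ContinuousOn b (Ici 1)
  lo : ∀ u, 1 ≤ u → c₁ / u ≤ b u
  hi : ∀ u, 1 ≤ u → b u ≤ c₂ / u

theorem BalPot.contW {W b : ℝ → ℝ} {c₁ c₂ : ℝ} (h : BalPot W b c₁ c₂) : ContinuousOn W (Ici 1) :=
  fun u hu => (h.deriv u hu).continuousAt.continuousWithinAt

theorem bal_monoOn {W b : ℝ → ℝ} (h : ∀ u, 1 ≤ u → HasDerivAt W (b u) u)
    (hb : ∀ u, 1 ≤ u → 0 ≤ b u) : MonotoneOn W (Ici 1) := by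
  refine monotoneOn_of_deriv_nonneg (convex_Ici 1)
    (fun u hu => (h u hu).continuousAt.continuousWithinAt) ?_ ?_
  · intro u hu
    rw [interior_Ici] at hu
    exact (h u (le_of_lt hu)).differentiableAt.differentiableWithinAt
  · intro u hu
    rw [interior_Ici] at hu
    rw [(h u (le_of_lt hu)).deriv]
    exact hb u (le_of_lt hu)

theorem BalPot.lo_log {W b : ℝ → ℝ} {c₁ c₂ : ℝ} (h : BalPot W b c₁ c₂) {u v : ℝ} (hu : 1 ≤ u)
    (huv : u ≤ v) : c₁ * (Real.log v - Real.log u) ≤ W v - W u := by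
  have h1 := bal_monoOn (W := fun x => W x - c₁ * Real.log x) (b := fun x => b x - c₁ * x⁻¹)
    (fun x hx => (h.deriv x hx).sub ((Real.hasDerivAt_log (by positivity)).const_mul c₁))
    (fun x hx => by
      have := h.lo x hx
      rw [div_eq_mul_inv] at this
      linarith)
  have h2 := h1 hu (hu.trans huv : (1 : ℝ) ≤ v) huv
  simp only at h2
  linarith

theorem BalPot.hi_log {W b : ℝ → ℝ} {c₁ c₂ : ℝ} (h : BalPot W b c₁ c₂) {u v : ℝ} (hu : 1 ≤ u)
    (huv : u ≤ v) : W v - W u ≤ c₂ * (Real.log v - Real.log u) := by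
  have h1 := bal_monoOn (W := fun x => c₂ * Real.log x - W x) (b := fun x => c₂ * x⁻¹ - b x)
    (fun x hx => ((Real.hasDerivAt_log (by positivity)).const_mul c₂).sub (h.deriv x hx))
    (fun x hx => by
      have := h.hi x hx
      rw [div_eq_mul_inv] at this
      linarith)
  have h2 := h1 hu (hu.trans huv : (1 : ℝ) ≤ v) huv
  simp only at h2
  linarith

/-- The potential of a field `b`. -/
theorem bal_pot {b : ℝ → ℝ} {c₁ c₂ : ℝ} (hb : ContinuousOn b (Ici 1))
    (hb1 : ∀ u, 1 ≤ u → c₁ / u ≤ b u) (hb2 : ∀ u, 1 ≤ u → b u ≤ c₂ / u) :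
    ∃ W, BalPot W b c₁ c₂ := by
  have hcb : Continuous fun u => b (max u 1) :=
    hb.comp_continuous (continuous_id.max continuous_const) fun u => mem_Ici.2 (le_max_right u 1)
  refine ⟨fun u => ∫ x in (1 : ℝ)..u, b (max x 1), ?_, hb, hb1, hb2⟩
  intro u hu
  have h1 : HasDerivAt (fun u => ∫ x in (1 : ℝ)..u, b (max x 1)) (b (max u 1)) u :=
    (hcb.integral_hasStrictDerivAt 1 u).hasDerivAt
  rwa [max_eq_left hu] at h1

/-! ### The minimum of the potential -/

section
variable [MeasurableSpace E] [BorelSpace E]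

theorem bal_continuous_rho (V : Ver E) : Continuous (rho V) := by
  unfold rho
  exact bal_continuous_uu.pow _

instance bal_fin (V : Ver E) : IsFiniteMeasureOnCompacts (mu V) := by
  have : IsLocallyFiniteMeasure (mu V) :=
    IsLocallyFiniteMeasure.withDensity_ofReal (bal_continuous_rho V)
  infer_instance

variable {V : Ver E}

/-- integral over the space of a continuous function with compact support in the second variable -/
theorem bal_cont {g : E → ℝ} (hg : Continuous g) (hc : HasCompactSupport g)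
    {F : E → E → ℝ} (hF : Continuous fun q : E × E => F q.1 q.2) :
    Continuous fun c => ∫ y, g y * F c y ∂(mu V) := by
  have h : (fun c => ∫ y, g y * F c y ∂(mu V))
      = fun c => ∫ y in tsupport g, g y * F c y ∂(mu V) := by
    funext c
    refine (setIntegral_eq_integral_of_forall_compl_eq_zero fun y hy => ?_).symm
    rw [image_eq_zero_of_notMem_tsupport hy, zero_mul]
  rw [h]
  exact continuous_parametric_integral_of_continuous
    (by
      change Continuous fun q : E × E => g q.2 * F q.1 q.2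
      exact (hg.comp continuous_snd).mul hF) hc

theorem bal_integrable {g : E → ℝ} (hg : Continuous g) (hc : HasCompactSupport g)
    {k : E → ℝ} (hk : Continuous k) : Integrable (fun y => g y * k y) (mu V) :=
  (hg.mul hk).integrable_of_hasCompactSupport hc.mul_right

theorem bal_contW (H : HomB V) {W b : ℝ → ℝ} {c₁ c₂ : ℝ} (hW : BalPot W b c₁ c₂) :
    Continuous fun q : E × E => W (H.chd q.1 q.2) :=
  hW.contW.comp_continuous H.chd_smooth.continuous fun _ => H.bal_one_le_chd _ _

theorem bal_contW1 (H : HomB V) {W b : ℝ → ℝ} {c₁ c₂ : ℝ} (hW : BalPot W b c₁ c₂) (c : E) :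
    Continuous fun y : E => W (H.chd c y) :=
  (bal_contW H hW).comp (Continuous.prodMk_right c)

theorem bal_contW0 {W b : ℝ → ℝ} {c₁ c₂ : ℝ} (hW : BalPot W b c₁ c₂) :
    Continuous fun y : E => W (uu y) :=
  hW.contW.comp_continuous bal_continuous_uu fun _ => bal_one_le_uu _

/-- The potential has a minimum. -/
theorem bal_exists_min (H : HomB V) {W b : ℝ → ℝ} {c₁ c₂ : ℝ} (hc1 : 0 < c₁)
    (hW : BalPot W b c₁ c₂) {g : E → ℝ}
    (hg : Continuous g) (hc : HasCompactSupport g) (hg0 : ∀ y, 0 ≤ g y)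
    (hg1 : ∫ y, g y ∂(mu V) = 1) :
    ∃ c, ∀ c', ∫ y, g y * W (H.chd c y) ∂(mu V) ≤ ∫ y, g y * W (H.chd c' y) ∂(mu V) := by
  have hcont := bal_contW H hW
  refine (bal_cont hg hc hcont).exists_forall_le ?_
  obtain ⟨R0, hR0⟩ := (hc.isCompact.image bal_continuous_uu).bddAbove
  have hR : ∀ y, g y ≠ 0 → uu y ≤ R0 := fun y hy =>
    hR0 (mem_image_of_mem _ (subset_tsupport _ hy))
  have hR1 : 0 < R0 := by
    by_contra hcon
    have : ∀ y, g y = 0 := fun y => by
      by_contra hy
      linarith [hR y hy, bal_one_le_uu y]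
    simp [this] at hg1
  refine tendsto_atTop_mono
    (f := fun c : E => c₁ * (Real.log ‖c‖ + -Real.log (2 * R0)) + W 1) ?_ ?_
  · intro c
    have hint : Integrable g (mu V) := hg.integrable_of_hasCompactSupport hc
    have h1 : ∫ y, g y * (c₁ * (Real.log ‖c‖ + -Real.log (2 * R0)) + W 1) ∂(mu V)
        = c₁ * (Real.log ‖c‖ + -Real.log (2 * R0)) + W 1 := by
      rw [integral_mul_const, hg1, one_mul]
    rw [← h1]
    refine integral_mono (hint.mul_const _) (bal_integrable hg hc (bal_contW1 H hW c)) fun y => ?_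
    by_cases hy : g y = 0
    · simp [hy]
    refine mul_le_mul_of_nonneg_left ?_ (hg0 y)
    have h3 := hW.lo_log le_rfl (H.bal_one_le_chd c y)
    rw [Real.log_one, sub_zero] at h3
    have h6 : Real.log ‖c‖ + -Real.log (2 * R0) ≤ Real.log (H.chd c y) := by
      rcases eq_or_ne c 0 with rfl | hc0
      · have h4 : 0 ≤ Real.log (H.chd 0 y) := Real.log_nonneg (H.bal_one_le_chd _ _)
        have h5 : 0 ≤ Real.log (2 * R0) :=
          Real.log_nonneg (by linarith [hR y hy, bal_one_le_uu y])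
        simp only [norm_zero, Real.log_zero]
        linarith
      · have h4 : ‖c‖ ≤ 2 * R0 * H.chd c y := by
          refine (bal_norm_le_uu c).trans ((H.chd_coercive c y).trans ?_)
          exact mul_le_mul_of_nonneg_right (by linarith [hR y hy]) (H.bal_chd_pos c y).le
        have h5 := Real.log_le_log (norm_pos_iff.2 hc0) h4
        rw [Real.log_mul (by positivity) (H.bal_chd_pos c y).ne'] at h5
        linarith
    have h7 := mul_le_mul_of_nonneg_left h6 hc1.le
    linarith
  · have h1 : Tendsto (fun c : E => Real.log ‖c‖) (cocompact E) atTop :=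
      Real.tendsto_log_atTop.comp tendsto_norm_cocompact_atTop
    exact tendsto_atTop_add_const_right _ _
      ((tendsto_atTop_add_const_right _ _ h1).const_mul_atTop hc1)

/-- Derivative of the potential at the origin. -/
theorem bal_deriv (H : HomB V) {W b : ℝ → ℝ} {c₁ c₂ : ℝ} (hW : BalPot W b c₁ c₂) {G : E → ℝ}
    (hg : Continuous G) (hc : HasCompactSupport G) (e : E) :
    HasDerivAt (fun t : ℝ => ∫ z, G z * W (H.chd (t • e) z) ∂(mu V))
      (∫ z, G z * (b (uu z) * -⟪e, z⟫_ℝ) ∂(mu V)) 0 := by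
  set cc : E × E → ℝ := fun q => H.chd q.1 q.2 with hcc
  have hsm : ContDiff ℝ 1 cc := H.bal_chd_c1
  set D : ℝ → E → ℝ := fun t z => (fderiv ℝ cc (t • e, z)) (e, 0) with hD
  have hder : ∀ (t : ℝ) (z : E), HasDerivAt (fun s : ℝ => H.chd (s • e) z) (D t z) t := by
    intro t z
    have h1 : HasFDerivAt cc (fderiv ℝ cc (t • e, z)) (t • e, z) :=
      (hsm.differentiable one_ne_zero _).hasFDerivAt
    have h2 : HasDerivAt (fun s : ℝ => ((s • e, z) : E × E)) (e, 0) t := by
      have h3 : HasDerivAt (fun s : ℝ => s • e) e t := by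
        simpa using (hasDerivAt_id t).smul_const e
      exact h3.prodMk (hasDerivAt_const t z)
    exact h1.comp_hasDerivAt t h2
  have hW' : ∀ (t : ℝ) (z : E), HasDerivAt (fun s : ℝ => G z * W (H.chd (s • e) z))
      (G z * (b (H.chd (t • e) z) * D t z)) t := fun t z =>
    ((hW.deriv _ (H.bal_one_le_chd _ _)).comp t (hder t z)).const_mul _
  have hcD : Continuous fun q : ℝ × E => D q.1 q.2 := by
    have h1 : Continuous fun q : ℝ × E => fderiv ℝ cc (q.1 • e, q.2) :=
      (hsm.continuous_fderiv one_ne_zero).comp (by fun_prop)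
    exact h1.clm_apply continuous_const
  have hcB : Continuous fun q : ℝ × E => b (H.chd (q.1 • e) q.2) := by
    refine hW.cont.comp_continuous ?_ fun q => H.bal_one_le_chd _ _
    exact hsm.continuous.comp (by fun_prop : Continuous fun q : ℝ × E => (q.1 • e, q.2))
  have hcF : Continuous fun q : ℝ × E => G q.2 * (b (H.chd (q.1 • e) q.2) * D q.1 q.2) :=
    (hg.comp continuous_snd).mul (hcB.mul hcD)
  obtain ⟨M, hM⟩ := (isCompact_Icc (a := (-1 : ℝ)) (b := 1)).prod hc.isCompact
    |>.exists_bound_of_continuousOn hcF.continuousOn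
  have hcc2 : Continuous fun q : ℝ × E => W (H.chd (q.1 • e) q.2) := by
    refine hW.contW.comp_continuous ?_ fun q => H.bal_one_le_chd _ _
    exact hsm.continuous.comp (by fun_prop : Continuous fun q : ℝ × E => (q.1 • e, q.2))
  have key := hasDerivAt_integral_of_dominated_loc_of_deriv_le (μ := mu V)
    (F := fun (t : ℝ) z => G z * W (H.chd (t • e) z))
    (F' := fun (t : ℝ) z => G z * (b (H.chd (t • e) z) * D t z))
    (bound := (tsupport G).indicator fun _ => M) (s := Icc (-1 : ℝ) 1) (x₀ := (0 : ℝ))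
    (Icc_mem_nhds (by norm_num) (by norm_num))
    (Eventually.of_forall fun t =>
      ((hg.mul (hcc2.comp (Continuous.prodMk_right t))).aestronglyMeasurable))
    (bal_integrable hg hc (hcc2.comp (Continuous.prodMk_right 0)))
    ((hcF.comp (Continuous.prodMk_right 0)).aestronglyMeasurable)
    (Eventually.of_forall fun z t ht => by
      by_cases hz : z ∈ tsupport G
      · rw [indicator_of_mem hz]
        exact hM (t, z) ⟨ht, hz⟩
      · rw [indicator_of_notMem hz, image_eq_zero_of_notMem_tsupport hz]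
        simp)
    ((integrable_indicator_iff hc.isCompact.measurableSet).2
      (integrableOn_const hc.isCompact.measure_lt_top.ne))
    (Eventually.of_forall fun z t _ => hW' t z)
  have h0 : (fun z => G z * (b (H.chd ((0 : ℝ) • e) z) * D 0 z))
      = fun z => G z * (b (uu z) * -⟪e, z⟫_ℝ) := by
    funext z
    rw [(hder 0 z).unique (H.chd_deriv e z), zero_smul, H.chd_zero]
  rw [h0] at key
  exact key.2

/-- The balanced centre. -/
theorem bal_exists (H : HomB V) {W b : ℝ → ℝ} {c₁ c₂ : ℝ} (hc1 : 0 < c₁)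
    (hW : BalPot W b c₁ c₂) {g : E → ℝ}
    (hg : Continuous g) (hc : HasCompactSupport g) (hg0 : ∀ y, 0 ≤ g y)
    (hg1 : ∫ y, g y ∂(mu V) = 1) :
    ∃ c, (∀ e, ∫ z, g (H.phi c z) * (b (uu z) * ⟪e, z⟫_ℝ) ∂(mu V) = 0) ∧
      ∫ y, g y * (W (H.chd c y) - W (uu y)) ∂(mu V) ≤ 0 := by
  obtain ⟨c, hmin⟩ := bal_exists_min H hc1 hW hg hc hg0 hg1
  refine ⟨c, fun e => ?_, ?_⟩
  · have hG : Continuous fun z => g (H.phi c z) := hg.comp (H.smooth_phi c).continuous
    have hd := bal_deriv H hW hG (H.bal_supp_comp c hc) e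
    have heq : ∀ t : ℝ, ∫ z, g (H.phi c z) * W (H.chd (t • e) z) ∂(mu V)
        = ∫ y, g y * W (H.chd (H.phi c (t • e)) y) ∂(mu V) := fun t => by
      rw [← H.bal_integral_comp c (fun y => g y * W (H.chd (H.phi c (t • e)) y))]
      simp only [H.chd_phi]
    have hloc : IsLocalMin (fun t : ℝ => ∫ z, g (H.phi c z) * W (H.chd (t • e) z) ∂(mu V)) 0 := by
      refine Eventually.of_forall fun t => ?_
      simp only [heq]
      rw [zero_smul, H.phi_zero]
      exact hmin _
    have h0 := hloc.hasDerivAt_eq_zero hd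
    have h1 : (fun z => g (H.phi c z) * (b (uu z) * -⟪e, z⟫_ℝ))
        = fun z => -(g (H.phi c z) * (b (uu z) * ⟪e, z⟫_ℝ)) := by
      funext z
      ring
    rw [h1, integral_neg, neg_eq_zero] at h0
    exact h0
  · have h1 := hmin 0
    simp only [H.chd_zero] at h1
    have h2 : (fun y => g y * (W (H.chd c y) - W (uu y)))
        = fun y => g y * W (H.chd c y) - g y * W (uu y) := by
      funext y
      ring
    rw [h2, integral_sub (bal_integrable hg hc (bal_contW1 H hW c))
      (bal_integrable hg hc (bal_contW0 hW))]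
    linarith

/-- Distance bound for the balanced centre. -/
theorem bal_dist (H : HomB V) {W b : ℝ → ℝ} {c₁ c₂ : ℝ} (hc1 : 0 < c₁)
    (hW : BalPot W b c₁ c₂) {g : E → ℝ}
    (hg : Continuous g) (hc : HasCompactSupport g) (hg0 : ∀ y, 0 ≤ g y)
    (hg1 : ∫ y, g y ∂(mu V) = 1) {R : ℝ} (hR : 1 ≤ R) {η : ℝ} (hη : η ≤ 1 / 4)
    (hη2 : η * c₂ ≤ c₁ / 4)
    (hR4 : ∫ y in {y | R ≤ uu y}, g y ∂(mu V) ≤ η) {c : E}
    (hle : ∫ y, g y * (W (H.chd c y) - W (uu y)) ∂(mu V) ≤ 0) :
    uu c ≤ 4 * R ^ 3 := by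
  set L := Real.log (uu c) with hL
  have hR0 : 0 ≤ Real.log R := Real.log_nonneg hR
  have hl2 : 0 ≤ Real.log 2 := Real.log_nonneg (by norm_num)
  have hL0 : 0 ≤ L := Real.log_nonneg (bal_one_le_uu c)
  have hc12 : c₁ ≤ c₂ := by
    have h1 := hW.lo 1 le_rfl
    have h2 := hW.hi 1 le_rfl
    simp only [div_one] at h1 h2
    exact h1.trans h2
  have hmeas : MeasurableSet {y : E | R ≤ uu y} :=
    (isClosed_le continuous_const bal_continuous_uu).measurableSet
  suffices h : L ≤ 2 * Real.log 2 + 3 * Real.log R by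
    have h2 : Real.log (4 * R ^ 3) = 2 * Real.log 2 + 3 * Real.log R := by
      rw [Real.log_mul (by norm_num) (by positivity), Real.log_pow,
        show (4 : ℝ) = 2 ^ 2 by norm_num, Real.log_pow]
      push_cast
      ring
    rw [← h2] at h
    exact (Real.log_le_log_iff (lt_of_lt_of_le one_pos (bal_one_le_uu c)) (by positivity)).1 h
  by_cases hcase : L ≤ Real.log 2 + 2 * Real.log R
  · linarith
  rw [not_le] at hcase
  set K1 := c₁ * (L - Real.log 2 - 2 * Real.log R) with hK1
  set K3 := c₂ * (Real.log 2 + L) with hK3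
  have hK10 : 0 < K1 := mul_pos hc1 (by linarith)
  have hK30 : 0 ≤ K3 := mul_nonneg (hc1.le.trans hc12) (by linarith)
  have hpt : ∀ y, K1 - (K1 + K3) * ({y : E | R ≤ uu y}.indicator (fun _ => (1 : ℝ)) y)
      ≤ W (H.chd c y) - W (uu y) := by
    intro y
    have hy0 : 0 < uu y := lt_of_lt_of_le one_pos (bal_one_le_uu y)
    have hc0 : 0 < uu c := lt_of_lt_of_le one_pos (bal_one_le_uu c)
    have hd0 := H.bal_chd_pos c y
    by_cases hy : R ≤ uu y
    · rw [indicator_of_mem (show y ∈ {y : E | R ≤ uu y} from hy), mul_one]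
      have h3 := Real.log_le_log hy0 (H.bal_uu_le c y)
      rw [Real.log_mul (by positivity) hd0.ne', Real.log_mul (by norm_num) hc0.ne'] at h3
      rcases le_total (uu y) (H.chd c y) with h4 | h4
      · have h5 := hW.lo_log (bal_one_le_uu y) h4
        have h6 : 0 ≤ c₁ * (Real.log (H.chd c y) - Real.log (uu y)) :=
          mul_nonneg hc1.le (sub_nonneg.2 (Real.log_le_log hy0 h4))
        linarith
      · have h5 := hW.hi_log (H.bal_one_le_chd c y) h4
        have h6 : c₂ * (Real.log (uu y) - Real.log (H.chd c y)) ≤ K3 :=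
          mul_le_mul_of_nonneg_left (by linarith) (hc1.le.trans hc12)
        linarith
    · rw [indicator_of_notMem (show y ∉ {y : E | R ≤ uu y} from hy), mul_zero, sub_zero]
      have h3 := Real.log_le_log hc0 (H.chd_coercive c y)
      rw [Real.log_mul (by positivity) hd0.ne', Real.log_mul (by norm_num) hy0.ne'] at h3
      have h4 := Real.log_le_log hy0 (not_le.1 hy).le
      have h5 : uu y ≤ H.chd c y := by
        refine (Real.log_le_log_iff hy0 hd0).1 ?_
        linarith
      have h6 := hW.lo_log (bal_one_le_uu y) h5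
      have h7 : K1 ≤ c₁ * (Real.log (H.chd c y) - Real.log (uu y)) :=
        mul_le_mul_of_nonneg_left (by linarith) hc1.le
      linarith
  have hint : Integrable g (mu V) := hg.integrable_of_hasCompactSupport hc
  have hindeq : (fun y => g y * ({y : E | R ≤ uu y}.indicator (fun _ => (1 : ℝ)) y))
      = {y : E | R ≤ uu y}.indicator g := by
    funext y
    by_cases hy : y ∈ {y : E | R ≤ uu y}
    · rw [indicator_of_mem hy, indicator_of_mem hy, mul_one]
    · rw [indicator_of_notMem hy, indicator_of_notMem hy, mul_zero]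
  have hind : Integrable (fun y => g y * ({y : E | R ≤ uu y}.indicator (fun _ => (1 : ℝ)) y))
      (mu V) := by
    rw [hindeq]
    exact hint.indicator hmeas
  have hindv : ∫ y, g y * ({y : E | R ≤ uu y}.indicator (fun _ => (1 : ℝ)) y) ∂(mu V)
      = ∫ y in {y | R ≤ uu y}, g y ∂(mu V) := by
    rw [← integral_indicator hmeas, ← hindeq]
  have h3 : (fun y => g y * (K1 - (K1 + K3) * ({y : E | R ≤ uu y}.indicator (fun _ => (1 : ℝ)) y)))
      = fun y => g y * K1
        - (K1 + K3) * (g y * ({y : E | R ≤ uu y}.indicator (fun _ => (1 : ℝ)) y)) := by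
    funext y
    ring
  have hlow : ∫ y, g y * (K1 - (K1 + K3) * ({y : E | R ≤ uu y}.indicator (fun _ => (1 : ℝ)) y))
      ∂(mu V) = K1 - (K1 + K3) * ∫ y in {y | R ≤ uu y}, g y ∂(mu V) := by
    rw [h3, integral_sub (hint.mul_const _) (hind.const_mul _), integral_mul_const,
      integral_const_mul, hg1, hindv, one_mul]
  have hmono : ∫ y, g y * (K1 - (K1 + K3) * ({y : E | R ≤ uu y}.indicator (fun _ => (1 : ℝ)) y))
      ∂(mu V) ≤ ∫ y, g y * (W (H.chd c y) - W (uu y)) ∂(mu V) := by
    refine integral_mono ?_ ?_ fun y => mul_le_mul_of_nonneg_left (hpt y) (hg0 y)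
    · rw [h3]
      exact (hint.mul_const _).sub (hind.const_mul _)
    · exact bal_integrable hg hc ((bal_contW1 H hW c).sub (bal_contW0 hW))
  rw [hlow] at hmono
  have hη0 : 0 ≤ ∫ y in {y | R ≤ uu y}, g y ∂(mu V) := integral_nonneg hg0
  have h4 := mul_le_mul_of_nonneg_left hR4 (by linarith : 0 ≤ K1 + K3)
  have h5 : K1 * η ≤ K1 * (1 / 4) := mul_le_mul_of_nonneg_left hη hK10.le
  have h6 : K3 * η ≤ c₁ / 4 * (Real.log 2 + L) := by
    have := mul_le_mul_of_nonneg_right hη2 (by linarith : 0 ≤ Real.log 2 + L)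
    calc K3 * η = η * c₂ * (Real.log 2 + L) := by rw [hK3]; ring
      _ ≤ _ := this
  have h7 : K1 * (3 / 4) ≤ c₁ / 4 * (Real.log 2 + L) := by
    have h8 : (K1 + K3) * η = K1 * η + K3 * η := by ring
    linarith
  have h9 : c₁ * ((L - Real.log 2 - 2 * Real.log R) * 3) ≤ c₁ * (Real.log 2 + L) := by
    rw [hK1] at h7
    linarith
  have h10 := le_of_mul_le_mul_left h9 hc1
  linarith

/-- The mass far from the origin after centring. -/
theorem bal_mass (H : HomB V) {g : E → ℝ} (hg : Continuous g) (hc : HasCompactSupport g)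
    (hg0 : ∀ y, 0 ≤ g y) (c : E) {R R' : ℝ} (hR : 2 * uu c * R ≤ R') :
    ∫ z in {z | R' ≤ uu z}, g (H.phi c z) ∂(mu V) ≤ ∫ y in {y | R ≤ uu y}, g y ∂(mu V) := by
  rw [← H.bal_setIntegral_comp c g]
  refine setIntegral_mono_set ?_ ?_ ?_
  · exact ((hg.comp (H.smooth_phi c).continuous).integrable_of_hasCompactSupport
      (H.bal_supp_comp c hc)).integrableOn
  · exact Eventually.of_forall fun z => hg0 _
  · refine (HasSubset.Subset.eventuallyLE ?_)
    intro z hz
    change R ≤ uu (H.phi c z)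
    have h1 : uu z ≤ 2 * uu c * uu (H.phi c z) := by
      rw [← H.bal_chd_phi c z]
      exact H.bal_chd_le c _
    have h2 : 2 * uu c * R ≤ 2 * uu c * uu (H.phi c z) := (hR.trans hz).trans h1
    have hc0 : 0 < 2 * uu c := by linarith [bal_one_le_uu c]
    exact le_of_mul_le_mul_left h2 hc0

theorem bal_compl_ball {R : ℝ} (hR : 0 < R) :
    (Metric.ball (0 : E) R)ᶜ = {y : E | us R ≤ uu y} := by
  ext y
  rw [mem_compl_iff, mem_ball_zero_iff, not_lt, mem_setOf_eq]
  unfold us uu
  rw [Real.sqrt_le_sqrt_iff (by positivity)]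
  constructor
  · intro h
    nlinarith
  · intro h
    exact le_of_sq_le_sq (by linarith) (norm_nonneg y)

variable (V)

/-- **Balancing.** -/
theorem balance (H : HomB V) {p : ℝ} (hp : 1 < p) (b : ℝ → ℝ) (c₁ c₂ : ℝ) (hc : 0 < c₁)
    (hb : ContinuousOn b (Ici 1)) (hb1 : ∀ u, 1 ≤ u → c₁ / u ≤ b u)
    (hb2 : ∀ u, 1 ≤ u → b u ≤ c₂ / u) :
    ∃ η₀, 0 < η₀ ∧ ∀ R, 0 < R → ∃ R', 0 < R' ∧ ∀ f : E → ℝ, Fn f → mass V p f = 1 →
      ∀ η, η ≤ η₀ → tail V p R f ≤ η → ∃ a,
        (∀ e, ∫ y, f (H.phi a y) ^ p * (b (uu y) * ⟪e, y⟫_ℝ) ∂(mu V) = 0) ∧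
        tail V p R' (fun y => f (H.phi a y)) ≤ η := by
  obtain ⟨W, hW⟩ := bal_pot hb hb1 hb2
  have hc12 : c₁ ≤ c₂ := by
    have h1 := hW.lo 1 le_rfl
    have h2 := hW.hi 1 le_rfl
    simp only [div_one] at h1 h2
    exact h1.trans h2
  have hc2 : 0 < c₂ := lt_of_lt_of_le hc hc12
  refine ⟨c₁ / (4 * c₂), by positivity, fun R hR => ?_⟩
  have hR1 : 1 ≤ us R := by
    unfold us
    exact Real.one_le_sqrt.2 (by nlinarith [sq_nonneg R])
  refine ⟨8 * us R ^ 4, by positivity, fun f hf hm η hη ht => ?_⟩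
  obtain ⟨hfs, hfc, hf0⟩ := hf
  have hgc : Continuous fun y => f y ^ p :=
    hfs.continuous.rpow_const fun y => Or.inr (by linarith)
  have hgs : HasCompactSupport fun y => f y ^ p :=
    hfc.comp_left (g := fun x : ℝ => x ^ p) (Real.zero_rpow (by linarith))
  have hg0 : ∀ y, 0 ≤ f y ^ p := fun y => Real.rpow_nonneg (hf0 y) p
  obtain ⟨a, h1, h2⟩ := bal_exists H hc hW hgc hgs hg0 hm
  refine ⟨a, h1, ?_⟩
  have ht' : ∫ y in {y : E | us R ≤ uu y}, f y ^ p ∂(mu V) ≤ η := by
    rw [← bal_compl_ball hR]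
    exact ht
  have hη4 : η ≤ 1 / 4 := by
    refine hη.trans ?_
    rw [div_le_iff₀ (by positivity)]
    linarith
  have hη2 : η * c₂ ≤ c₁ / 4 := by
    have := mul_le_mul_of_nonneg_right hη hc2.le
    have h3 : c₁ / (4 * c₂) * c₂ = c₁ / 4 := by field_simp
    linarith
  have hd := bal_dist H hc hW hgc hgs hg0 hm hR1 hη4 hη2 ht' h2
  refine le_trans ?_ ht'
  refine le_trans ?_ (bal_mass H hgc hgs hg0 a (R := us R) (R' := 8 * us R ^ 4) ?_)
  · unfold tail
    refine setIntegral_mono_set ?_ (Eventually.of_forall fun z => hg0 _)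
      (HasSubset.Subset.eventuallyLE ?_)
    · exact ((hgc.comp (H.smooth_phi a).continuous).integrable_of_hasCompactSupport
        (H.bal_supp_comp a hgs)).integrableOn
    · intro z hz
      rw [mem_compl_iff, mem_ball_zero_iff, not_lt] at hz
      exact hz.trans (bal_norm_le_uu z)
  · have h3 : 2 * uu a * us R ≤ 2 * (4 * us R ^ 3) * us R :=
      mul_le_mul_of_nonneg_right (by linarith) (by linarith)
    calc 2 * uu a * us R ≤ 2 * (4 * us R ^ 3) * us R := h3
      _ = 8 * us R ^ 4 := by ring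

end

end

end Pool.Agent.Work.MP_3b24f6_gt
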