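import Pool.Agent.Work.MP_3b24f6_gt.IsoInv

/-! T6a: balancing of the boundary measure. -/

set_option autoImplicit false

open MeasureTheory Set Filter Topology
open scoped ContDiff InnerProductSpace

namespace Pool.Agent.Work.MP_3b24f6_gt

noncomputable section

variable {E : Type*} [NormedAddCommGroup E] [InnerProductSpace ℝ E] [FiniteDimensional ℝ E]
variable [MeasurableSpace E] [BorelSpace E] {G : Geo E} (h : Hom G)

theorem ba_chd_eq (p y : E) : h.chd p y = uu (h.inv p y) := by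
  conv_lhs => rw [← h.phi_zero p, ← h.phi_inv p y]
  rw [h.chd_phi, h.chd_zero]

omit [FiniteDimensional ℝ E] [MeasurableSpace E] [BorelSpace E] in
theorem ba_one_le_uu (y : E) : 1 ≤ uu y := by
  unfold uu
  exact Real.one_le_sqrt.2 (by nlinarith [sq_nonneg ‖y‖])

omit [FiniteDimensional ℝ E] [MeasurableSpace E] [BorelSpace E] in
theorem ba_norm_le_uu (y : E) : ‖y‖ ≤ uu y := by
  unfold uu
  exact Real.le_sqrt_of_sq_le (by linarith)

omit [FiniteDimensional ℝ E] [MeasurableSpace E] [BorelSpace E] in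
theorem ba_continuous_uu : Continuous (uu : E → ℝ) := by
  unfold uu
  fun_prop

theorem ba_cont_chd : Continuous (fun q : E × E => h.chd q.1 q.2) := h.chd_smooth.continuous

/-- Derivative at the origin of the potential. -/
theorem ba_deriv (ν : Measure E) [IsFiniteMeasure ν] {K : Set E} (hK : IsCompact K)
    (hνK : ν Kᶜ = 0) {q : E → ℝ} (hq : Continuous q) (e : E) :
    HasDerivAt (fun t : ℝ => ∫ z, h.chd (t • e) z * q z ∂ν) (∫ z, -⟪e, z⟫_ℝ * q z ∂ν) 0 := by
  set cc : E × E → ℝ := fun q => h.chd q.1 q.2 with hcc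
  have hsm : ContDiff ℝ 1 cc := h.chd_smooth.of_le (by exact_mod_cast le_top)
  set D : ℝ → E → ℝ := fun t z => (fderiv ℝ cc (t • e, z)) (e, 0) with hD
  have hder : ∀ (t : ℝ) (z : E), HasDerivAt (fun s : ℝ => h.chd (s • e) z) (D t z) t := by
    intro t z
    have h1 : HasFDerivAt cc (fderiv ℝ cc (t • e, z)) (t • e, z) :=
      (hsm.differentiable one_ne_zero _).hasFDerivAt
    have h2 : HasDerivAt (fun s : ℝ => ((s • e, z) : E × E)) (e, 0) t := by
      have h3 : HasDerivAt (fun s : ℝ => s • e) e t := by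
        simpa using (hasDerivAt_id t).smul_const e
      exact h3.prodMk (hasDerivAt_const t z)
    exact h1.comp_hasDerivAt t h2
  have hcD : Continuous fun p : ℝ × E => D p.1 p.2 := by
    have h1 : Continuous fun q : ℝ × E => fderiv ℝ cc (q.1 • e, q.2) :=
      (hsm.continuous_fderiv one_ne_zero).comp (by fun_prop)
    exact h1.clm_apply continuous_const
  have hcF : Continuous fun p : ℝ × E => D p.1 p.2 * q p.2 :=
    hcD.mul (hq.comp continuous_snd)
  have hcc2 : Continuous fun p : ℝ × E => h.chd (p.1 • e) p.2 * q p.2 :=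
    (hsm.continuous.comp (by fun_prop : Continuous fun q : ℝ × E => (q.1 • e, q.2))).mul
      (hq.comp continuous_snd)
  have haeK : ∀ᵐ z ∂ν, z ∈ K := by
    rw [ae_iff]
    exact hνK
  have hrest : ν.restrict K = ν := Measure.restrict_eq_self_of_ae_mem haeK
  obtain ⟨M, hM⟩ := (isCompact_Icc (a := (-1 : ℝ)) (b := 1)).prod hK
    |>.exists_bound_of_continuousOn hcF.continuousOn
  have key := hasDerivAt_integral_of_dominated_loc_of_deriv_le (μ := ν)
    (F := fun (t : ℝ) z => h.chd (t • e) z * q z)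
    (F' := fun (t : ℝ) z => D t z * q z)
    (bound := fun _ => M) (s := Icc (-1 : ℝ) 1) (x₀ := (0 : ℝ))
    (Icc_mem_nhds (by norm_num) (by norm_num))
    (Eventually.of_forall fun t => (hcc2.comp (Continuous.prodMk_right t)).aestronglyMeasurable)
    (by
      rw [← hrest]
      exact ((hcc2.comp (Continuous.prodMk_right 0)).continuousOn).integrableOn_compact hK)
    ((hcF.comp (Continuous.prodMk_right 0)).aestronglyMeasurable)
    (by
      filter_upwards [haeK] with z hz t ht
      exact hM (t, z) ⟨ht, hz⟩)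
    (integrable_const M)
    (Eventually.of_forall fun z t _ => (hder t z).mul_const (q z))
  have h0 : (fun z => D 0 z * q z) = fun z => -⟪e, z⟫_ℝ * q z := by
    funext z
    rw [(hder 0 z).unique (h.chd_deriv e z)]
  rw [h0] at key
  exact key.2

theorem ba_exists_min (μ : Measure E) [IsFiniteMeasure μ] {K : Set E} (hK : IsCompact K)
    (hμK : μ Kᶜ = 0) {q : E → ℝ} (hq : Continuous q) (hq0 : ∀ z, 0 ≤ q z)
    (hpos : 0 < ∫ z, q z ∂μ) :
    ∃ c, ∀ c', ∫ z, h.chd c z * q z ∂μ ≤ ∫ z, h.chd c' z * q z ∂μ := by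
  have haeK : ∀ᵐ z ∂μ, z ∈ K := by
    rw [ae_iff]
    exact hμK
  have hrest : μ.restrict K = μ := Measure.restrict_eq_self_of_ae_mem haeK
  have hcc : Continuous (fun p : E × E => h.chd p.1 p.2 * q p.2) :=
    (ba_cont_chd h).mul (hq.comp continuous_snd)
  have hcont : Continuous (fun c => ∫ z, h.chd c z * q z ∂μ) := by
    have h1 := continuous_parametric_integral_of_continuous (μ := μ)
      (f := fun c z => h.chd c z * q z) hcc hK
    rwa [hrest] at h1
  refine hcont.exists_forall_le ?_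
  obtain ⟨R0, hR0⟩ := (hK.image (ba_continuous_uu (E := E))).bddAbove
  have hKne : K.Nonempty := by
    by_contra hemp
    rw [not_nonempty_iff_eq_empty] at hemp
    rw [hemp, compl_empty, Measure.measure_univ_eq_zero] at hμK
    simp [hμK] at hpos
  obtain ⟨z0, hz0⟩ := hKne
  have hR1 : 0 < R0 := by
    have h1 : uu z0 ≤ R0 := hR0 (mem_image_of_mem _ hz0)
    linarith [ba_one_le_uu z0]
  have hint : ∀ c, Integrable (fun z => h.chd c z * q z) μ := by
    intro c
    rw [← hrest]
    exact ((hcc.comp (Continuous.prodMk_right c)).continuousOn).integrableOn_compact hK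
  have hintq : Integrable q μ := by
    rw [← hrest]
    exact hq.continuousOn.integrableOn_compact hK
  refine tendsto_atTop_mono
    (f := fun c : E => ‖c‖ * ((2 * R0)⁻¹ * ∫ z, q z ∂μ)) ?_ ?_
  · intro c
    have h1 : ∫ z, (‖c‖ * (2 * R0)⁻¹) * q z ∂μ = ‖c‖ * ((2 * R0)⁻¹ * ∫ z, q z ∂μ) := by
      rw [integral_const_mul, mul_assoc]
    rw [← h1]
    refine integral_mono_ae (hintq.const_mul _) (hint c) ?_
    filter_upwards [haeK] with z hz
    refine mul_le_mul_of_nonneg_right ?_ (hq0 z)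
    have h2 : uu z ≤ R0 := hR0 (mem_image_of_mem _ hz)
    have h3 := h.chd_coercive c z
    have h4 := ba_norm_le_uu c
    have h5 : 0 ≤ h.chd c z := by
      rw [ba_chd_eq]
      exact (zero_le_one.trans (ba_one_le_uu _))
    rw [← div_eq_mul_inv, div_le_iff₀ (by positivity)]
    nlinarith
  · exact tendsto_norm_cocompact_atTop.atTop_mul_const (by positivity)

/-- T6a. -/
theorem exists_balanced {w : E → ℝ} (hw : IsReg w) (_hne : ∃ x, w x < 0) :
    ∃ p : E, IsReg (w ∘ h.phi p) ∧ G.vol {x | (w ∘ h.phi p) x < 0} = G.vol {x | w x < 0} ∧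
      G.area {x | (w ∘ h.phi p) x < 0} = G.area {x | w x < 0} ∧
      ∀ μ : Measure E, IsDelta (w ∘ h.phi p) μ →
        ∀ e : E, ∫ x, ⟪e, x⟫_ℝ * (G.ρ x * G.gn (w ∘ h.phi p) x) ∂μ = 0 := by
  obtain ⟨μ, hμ⟩ := exists_delta hw
  have hfin := hμ.fin
  have hK : IsCompact (surf w) := AreaAux.isCompact_surf hw
  have hq : Continuous (fun z => G.ρ z * G.gn w z) :=
    G.smooth_ρ.continuous.mul (AreaAux.continuous_gn G hw.smooth)
  have hq0 : ∀ z, 0 ≤ G.ρ z * G.gn w z := fun z =>
    mul_nonneg (G.ρ_pos z).le (Real.sqrt_nonneg _)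
  have hall : ∀ p, IsReg (w ∘ h.phi p) ∧ G.vol {x | (w ∘ h.phi p) x < 0} = G.vol {x | w x < 0} ∧
      G.area {x | (w ∘ h.phi p) x < 0} = G.area {x | w x < 0} := fun p =>
    ⟨hw.comp_phi h p, h.vol_comp_reg hw p, h.area_comp hw p⟩
  have hnn : 0 ≤ ∫ z, G.ρ z * G.gn w z ∂μ := integral_nonneg hq0
  rcases hnn.eq_or_lt with h0 | hpos
  · refine ⟨0, (hall 0).1, (hall 0).2.1, (hall 0).2.2, fun ν hν e => ?_⟩
    have hfin' := hν.fin
    have hw' := hw.comp_phi h 0
    have h1 := h.integral_comp hw 0 hμ hν (f := fun _ => 1) contDiff_const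
    simp only [one_mul] at h1
    rw [← h0] at h1
    have hq' : Continuous (fun z => G.ρ z * G.gn (w ∘ h.phi 0) z) :=
      G.smooth_ρ.continuous.mul (AreaAux.continuous_gn G hw'.smooth)
    have haeK : ∀ᵐ z ∂ν, z ∈ surf (w ∘ h.phi 0) := by
      rw [ae_iff]
      exact hν.supp
    have hrest : ν.restrict (surf (w ∘ h.phi 0)) = ν := Measure.restrict_eq_self_of_ae_mem haeK
    have hint : Integrable (fun z => G.ρ z * G.gn (w ∘ h.phi 0) z) ν := by
      rw [← hrest]
      exact hq'.continuousOn.integrableOn_compact (AreaAux.isCompact_surf hw')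
    have h2 := (integral_eq_zero_iff_of_nonneg (fun z =>
      mul_nonneg (G.ρ_pos z).le (Real.sqrt_nonneg _)) hint).1 h1
    have h3 : ∫ x, ⟪e, x⟫_ℝ * (G.ρ x * G.gn (w ∘ h.phi 0) x) ∂ν = ∫ _, (0 : ℝ) ∂ν := by
      refine integral_congr_ae ?_
      filter_upwards [h2] with z hz
      have hz' : G.ρ z * G.gn (w ∘ h.phi 0) z = 0 := hz
      rw [hz', mul_zero]
    rw [h3, integral_zero]
  · obtain ⟨c, hmin⟩ := ba_exists_min h μ hK hμ.supp hq hq0 hpos
    refine ⟨c, (hall c).1, (hall c).2.1, (hall c).2.2, fun ν hν e => ?_⟩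
    have hfin' := hν.fin
    have hw' := hw.comp_phi h c
    have hq' : Continuous (fun z => G.ρ z * G.gn (w ∘ h.phi c) z) :=
      G.smooth_ρ.continuous.mul (AreaAux.continuous_gn G hw'.smooth)
    have hd := ba_deriv h ν (AreaAux.isCompact_surf hw') hν.supp hq' e
    have heq : ∀ t : ℝ, ∫ z, h.chd (t • e) z * (G.ρ z * G.gn (w ∘ h.phi c) z) ∂ν
        = ∫ y, h.chd (h.phi c (t • e)) y * (G.ρ y * G.gn w y) ∂μ := fun t => by
      rw [← h.integral_comp hw c hμ hν (f := fun y => h.chd (h.phi c (t • e)) y)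
        (h.chd_smooth.comp (contDiff_const.prodMk contDiff_id))]
      simp only [h.chd_phi]
    have hloc : IsLocalMin
        (fun t : ℝ => ∫ z, h.chd (t • e) z * (G.ρ z * G.gn (w ∘ h.phi c) z) ∂ν) 0 := by
      refine Eventually.of_forall fun t => ?_
      simp only [heq]
      rw [zero_smul, h.phi_zero]
      exact hmin _
    have h0 := hloc.hasDerivAt_eq_zero hd
    have h1 : (fun z => -⟪e, z⟫_ℝ * (G.ρ z * G.gn (w ∘ h.phi c) z))
        = fun z => -(⟪e, z⟫_ℝ * (G.ρ z * G.gn (w ∘ h.phi c) z)) := by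
      funext z
      ring
    rw [h1, integral_neg, neg_eq_zero] at h0
    exact h0

end

end Pool.Agent.Work.MP_3b24f6_gt
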