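import Pool.Agent.Work.MP_3b24f6_gt.Model

/-! T4, part 1: Riemannian calculus at a point. -/

set_option autoImplicit false

open MeasureTheory Set Filter Topology
open scoped ContDiff InnerProductSpace

namespace Pool.Agent.Work.MP_3b24f6_gt

noncomputable section

variable {E : Type*} [NormedAddCommGroup E] [InnerProductSpace ℝ E] [FiniteDimensional ℝ E]

/-! ### The trace -/

theorem tr_add (S T : E →L[ℝ] E) : tr (S + T) = tr S + tr T := by
  simp [tr]

theorem tr_sub (S T : E →L[ℝ] E) : tr (S - T) = tr S - tr T := by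
  simp [tr]

theorem tr_neg (T : E →L[ℝ] E) : tr (-T) = -tr T := by
  simp [tr]

theorem tr_smul (c : ℝ) (T : E →L[ℝ] E) : tr (c • T) = c * tr T := by
  simp [tr]

theorem tr_smulRight (f : E →L[ℝ] ℝ) (x : E) : tr (f.smulRight x) = f x := by
  have h : ((f.smulRight x : E →L[ℝ] E) : E →ₗ[ℝ] E) = (f : E →ₗ[ℝ] ℝ).smulRight x := by
    ext v; simp
  rw [tr, h, LinearMap.trace_smulRight]
  simp

theorem tr_comp_comm (S T : E →L[ℝ] E) : tr (S.comp T) = tr (T.comp S) := by
  have := LinearMap.trace_mul_comm ℝ (S : E →ₗ[ℝ] E) (T : E →ₗ[ℝ] E)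
  simpa [tr, Module.End.mul_eq_comp] using this

/-- The trace as a continuous linear functional. -/
def trL : (E →L[ℝ] E) →L[ℝ] ℝ :=
  LinearMap.toContinuousLinearMap
    { toFun := tr
      map_add' := tr_add
      map_smul' := fun c T => by simp [tr_smul] }

@[simp] theorem trL_apply (T : E →L[ℝ] E) : trL T = tr T := rfl

theorem continuous_tr : Continuous (tr : (E →L[ℝ] E) → ℝ) :=
  (trL : (E →L[ℝ] E) →L[ℝ] ℝ).continuous

theorem contDiff_tr {n : WithTop ℕ∞} : ContDiff ℝ n (tr : (E →L[ℝ] E) → ℝ) :=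
  (trL : (E →L[ℝ] E) →L[ℝ] ℝ).contDiff

theorem hasFDerivAt_tr {F : E → E →L[ℝ] E} {F' : E →L[ℝ] E →L[ℝ] E} {z : E}
    (hF : HasFDerivAt F F' z) : HasFDerivAt (fun y => tr (F y)) (trL.comp F') z :=
  (trL : (E →L[ℝ] E) →L[ℝ] ℝ).hasFDerivAt.comp z hF

variable (G : Geo E)

/-! ### First order calculus -/

theorem flip_Γ (z v : E) : (G.Γ z).flip v = G.Γ z v := by
  ext x
  simp [G.Γ_symm z x v]

theorem nab_apply (X : E → E) (z v : E) : G.nab X z v = fderiv ℝ X z v + G.Γ z v (X z) := by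
  simp [Geo.nab]

theorem nab_eq (X : E → E) (z : E) : G.nab X z = fderiv ℝ X z + G.Γ z (X z) := by
  rw [Geo.nab, flip_Γ]

theorem dv_eq (X : E → E) (z : E) : G.dv X z = divE X z + tr (G.Γ z (X z)) := by
  rw [Geo.dv, nab_eq, tr_add, divE]

theorem divE_smul (f : E → ℝ) (X : E → E) (z : E) (hf : DifferentiableAt ℝ f z)
    (hX : DifferentiableAt ℝ X z) :
    divE (fun y => f y • X y) z = f z * divE X z + fderiv ℝ f z (X z) := by
  rw [divE, fderiv_fun_smul hf hX, tr_add, tr_smul, tr_smulRight, divE]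

theorem differentiable_ρ : Differentiable ℝ G.ρ := G.smooth_ρ.differentiable (by simp)

theorem divE_rho (X : E → E) (z : E) (hX : DifferentiableAt ℝ X z) :
    divE (fun y => G.ρ y • X y) z = G.ρ z * G.dv X z := by
  rw [divE_smul G.ρ X z (differentiable_ρ G z) hX, G.ρ_deriv, dv_eq]
  ring

theorem nab_smul_eq (f : E → ℝ) (X : E → E) (z : E) (hf : DifferentiableAt ℝ f z)
    (hX : DifferentiableAt ℝ X z) :
    G.nab (fun y => f y • X y) z = f z • G.nab X z + (fderiv ℝ f z).smulRight (X z) := by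
  rw [nab_eq, nab_eq, fderiv_fun_smul hf hX, map_smul, smul_add]
  abel

theorem dv_smul (f : E → ℝ) (X : E → E) (z : E) (hf : DifferentiableAt ℝ f z)
    (hX : DifferentiableAt ℝ X z) :
    G.dv (fun y => f y • X y) z = f z * G.dv X z + fderiv ℝ f z (X z) := by
  rw [Geo.dv, nab_smul_eq G f X z hf hX, tr_add, tr_smul, tr_smulRight, Geo.dv]

theorem nab_smul (f : E → ℝ) (X : E → E) (z v : E) (hf : DifferentiableAt ℝ f z)
    (hX : DifferentiableAt ℝ X z) :
    G.nab (fun y => f y • X y) z v = f z • G.nab X z v + fderiv ℝ f z v • X z := by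
  rw [nab_smul_eq G f X z hf hX]
  simp

theorem nab_add (X Y : E → E) (z : E) (hX : DifferentiableAt ℝ X z)
    (hY : DifferentiableAt ℝ Y z) :
    G.nab (fun y => X y + Y y) z = G.nab X z + G.nab Y z := by
  rw [nab_eq, nab_eq, nab_eq, fderiv_fun_add hX hY, map_add]
  abel

theorem nab_sub (X Y : E → E) (z : E) (hX : DifferentiableAt ℝ X z)
    (hY : DifferentiableAt ℝ Y z) :
    G.nab (fun y => X y - Y y) z = G.nab X z - G.nab Y z := by
  rw [nab_eq, nab_eq, nab_eq, fderiv_fun_sub hX hY, map_sub]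
  abel

theorem dv_add (X Y : E → E) (z : E) (hX : DifferentiableAt ℝ X z)
    (hY : DifferentiableAt ℝ Y z) :
    G.dv (fun y => X y + Y y) z = G.dv X z + G.dv Y z := by
  rw [Geo.dv, nab_add G X Y z hX hY, tr_add, Geo.dv, Geo.dv]

theorem dv_sub (X Y : E → E) (z : E) (hX : DifferentiableAt ℝ X z)
    (hY : DifferentiableAt ℝ Y z) :
    G.dv (fun y => X y - Y y) z = G.dv X z - G.dv Y z := by
  rw [Geo.dv, nab_sub G X Y z hX hY, tr_sub, Geo.dv, Geo.dv]

theorem differentiable_A : Differentiable ℝ G.A := G.smooth_A.differentiable (by simp)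

theorem g_symm (z u v : E) : G.g z u v = G.g z v u := by
  rw [Geo.g, Geo.g, G.A_symm, real_inner_comm]

theorem differentiableAt_g (X Y : E → E) (z : E) (hX : DifferentiableAt ℝ X z)
    (hY : DifferentiableAt ℝ Y z) :
    DifferentiableAt ℝ (fun y => G.g y (X y) (Y y)) z := by
  have h1 : DifferentiableAt ℝ (fun y => G.A y (X y)) z :=
    (differentiable_A G z).clm_apply hX
  exact h1.inner ℝ hY

theorem fderiv_g (X Y : E → E) (z v : E) (hX : DifferentiableAt ℝ X z)
    (hY : DifferentiableAt ℝ Y z) :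
    fderiv ℝ (fun y => G.g y (X y) (Y y)) z v
      = G.g z (G.nab X z v) (Y z) + G.g z (X z) (G.nab Y z v) := by
  have h1 : DifferentiableAt ℝ (fun y => G.A y (X y)) z :=
    (differentiable_A G z).clm_apply hX
  have h2 : fderiv ℝ (fun y => G.g y (X y) (Y y)) z v
      = ⟪G.A z (X z), fderiv ℝ Y z v⟫_ℝ + ⟪fderiv ℝ (fun y => G.A y (X y)) z v, Y z⟫_ℝ := by
    have := fderiv_inner_apply ℝ h1 hY v
    simpa [Geo.g] using this
  have h3 : fderiv ℝ (fun y => G.A y (X y)) z v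
      = G.A z (fderiv ℝ X z v) + fderiv ℝ G.A z v (X z) := by
    rw [fderiv_clm_apply (differentiable_A G z) hX]
    simp
  rw [h2, h3, inner_add_left, G.compat, nab_apply, nab_apply]
  simp only [Geo.g, map_add, inner_add_left, inner_add_right]
  ring

theorem g_grad (f : E → ℝ) (z v : E) : G.g z (G.grad f z) v = fderiv ℝ f z v := by
  rw [Geo.g, Geo.grad, G.AC, gradient, InnerProductSpace.toDual_symm_apply]

/-! ### Smoothness -/

theorem contDiffAt_g {n : ℕ∞} {X Y : E → E} {z : E} (hX : ContDiffAt ℝ n X z)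
    (hY : ContDiffAt ℝ n Y z) : ContDiffAt ℝ n (fun y => G.g y (X y) (Y y)) z := by
  have hA : ContDiffAt ℝ n G.A z := (G.smooth_A.of_le (by exact_mod_cast le_top)).contDiffAt
  exact (hA.clm_apply hX).inner ℝ hY

theorem contDiffAt_nab {n : ℕ∞} {X : E → E} {z : E} (hX : ContDiffAt ℝ (n + 1) X z) :
    ContDiffAt ℝ n (G.nab X) z := by
  have hΓ : ContDiffAt ℝ n G.Γ z := (G.smooth_Γ.of_le (by exact_mod_cast le_top)).contDiffAt
  have h1 : G.nab X = fun y => fderiv ℝ X y + G.Γ y (X y) := by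
    funext y; rw [nab_eq]
  rw [h1]
  have h2 : ContDiffAt ℝ n (fderiv ℝ X) z := hX.fderiv_right (by norm_cast)
  exact h2.add (hΓ.clm_apply (hX.of_le (by exact_mod_cast le_self_add)))

theorem contDiffAt_dv {n : ℕ∞} {X : E → E} {z : E} (hX : ContDiffAt ℝ (n + 1) X z) :
    ContDiffAt ℝ n (G.dv X) z := by
  have h1 : G.dv X = fun y => tr (G.nab X y) := rfl
  rw [h1]
  exact contDiff_tr.contDiffAt.comp z (contDiffAt_nab G hX)

theorem contDiffAt_nab_apply {n : ℕ∞} {X Y : E → E} {z : E} (hX : ContDiffAt ℝ (n + 1) X z)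
    (hY : ContDiffAt ℝ n Y z) : ContDiffAt ℝ n (fun y => G.nab X y (Y y)) z :=
  (contDiffAt_nab G hX).clm_apply hY

theorem contDiffAt_dv_top {X : E → E} {z : E} (hX : ContDiffAt ℝ ∞ X z) :
    ContDiffAt ℝ ∞ (G.dv X) z := by
  have := contDiffAt_dv G (n := ⊤) (X := X) (z := z) (by simpa using hX)
  simpa using this

theorem contDiffAt_nab_top {X : E → E} {z : E} (hX : ContDiffAt ℝ ∞ X z) :
    ContDiffAt ℝ ∞ (G.nab X) z := by
  have := contDiffAt_nab G (n := ⊤) (X := X) (z := z) (by simpa using hX)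
  simpa using this

/-! ### The Bochner identity -/

theorem tr_flip_symm {B : E →L[ℝ] E →L[ℝ] E} (hB : ∀ u v, B u v = B v u) (v : E) :
    tr (B.flip v) = tr (B v) := by
  congr 1
  ext x
  simp [hB x v]

/-- Bochner identity. -/
theorem bochner (X : E → E) (z : E) (hX : ContDiffAt ℝ 2 X z) :
    fderiv ℝ (G.dv X) z (X z) = G.dv (fun y => G.nab X y (X y)) z
      - tr ((G.nab X z).comp (G.nab X z)) + G.R * G.g z (X z) (X z) := by
  have hXd : DifferentiableAt ℝ X z := hX.differentiableAt (by norm_num)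
  have hX1 : HasFDerivAt X (fderiv ℝ X z) z := hXd.hasFDerivAt
  have hDX : ContDiffAt ℝ 1 (fderiv ℝ X) z := hX.fderiv_right (by norm_num)
  have hDXd : DifferentiableAt ℝ (fderiv ℝ X) z := hDX.differentiableAt (by norm_num)
  have hDX1 : HasFDerivAt (fderiv ℝ X) (fderiv ℝ (fderiv ℝ X) z) z := hDXd.hasFDerivAt
  have hΓ1 : HasFDerivAt G.Γ (fderiv ℝ G.Γ z) z :=
    (G.smooth_Γ.differentiable (by simp) z).hasFDerivAt
  have hΓX : HasFDerivAt (fun y => G.Γ y (X y))
      ((G.Γ z).comp (fderiv ℝ X z) + (fderiv ℝ G.Γ z).flip (X z)) z := hΓ1.clm_apply hX1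
  -- symmetry of the second derivative
  have hsymm : ∀ u v, fderiv ℝ (fderiv ℝ X) z u v = fderiv ℝ (fderiv ℝ X) z v u := by
    have := (hX.isSymmSndFDerivAt (by simp))
    intro u v
    exact this.eq u v
  -- left hand side
  have hL : fderiv ℝ (G.dv X) z (X z)
      = tr (fderiv ℝ (fderiv ℝ X) z (X z)) + tr (G.Γ z (fderiv ℝ X z (X z)))
        + tr (fderiv ℝ G.Γ z (X z) (X z)) := by
    have h1 : G.dv X = fun y => tr (fderiv ℝ X y + G.Γ y (X y)) := by
      funext y
      rw [Geo.dv, nab_eq]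
    have h2 := hasFDerivAt_tr (hDX1.add hΓX)
    have h3 : HasFDerivAt (G.dv X) (trL.comp (fderiv ℝ (fderiv ℝ X) z
        + ((G.Γ z).comp (fderiv ℝ X z) + (fderiv ℝ G.Γ z).flip (X z)))) z := by
      rw [h1]; exact h2
    rw [h3.fderiv]
    simp
    ring
  -- the vector field ∇_X X
  have hY : HasFDerivAt (fun y => G.nab X y (X y))
      ((fderiv ℝ X z).comp (fderiv ℝ X z) + (fderiv ℝ (fderiv ℝ X) z).flip (X z)
        + ((G.Γ z (X z)).comp (fderiv ℝ X z)
          + ((G.Γ z).comp (fderiv ℝ X z) + (fderiv ℝ G.Γ z).flip (X z)).flip (X z))) z := by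
    have h1 : (fun y => G.nab X y (X y)) = fun y => fderiv ℝ X y (X y) + G.Γ y (X y) (X y) := by
      funext y
      rw [nab_eq]
      simp
    rw [h1]
    exact (hDX1.clm_apply hX1).add (hΓX.clm_apply hX1)
  have hR : G.dv (fun y => G.nab X y (X y)) z
      = tr ((fderiv ℝ X z).comp (fderiv ℝ X z)) + tr (fderiv ℝ (fderiv ℝ X) z (X z))
        + 2 * tr ((G.Γ z (X z)).comp (fderiv ℝ X z))
        + tr (((fderiv ℝ G.Γ z).flip (X z)).flip (X z))
        + tr (G.Γ z (fderiv ℝ X z (X z))) + tr (G.Γ z (G.Γ z (X z) (X z))) := by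
    rw [dv_eq, divE, hY.fderiv]
    have h2 : ((G.Γ z).comp (fderiv ℝ X z)).flip (X z) = (G.Γ z (X z)).comp (fderiv ℝ X z) := by
      ext v
      simp [G.Γ_symm z (fderiv ℝ X z v) (X z)]
    have h3 : ((G.Γ z).comp (fderiv ℝ X z) + (fderiv ℝ G.Γ z).flip (X z)).flip (X z)
        = (G.Γ z (X z)).comp (fderiv ℝ X z) + ((fderiv ℝ G.Γ z).flip (X z)).flip (X z) := by
      rw [← h2]
      ext v
      simp
    have h4 : G.nab X z (X z) = fderiv ℝ X z (X z) + G.Γ z (X z) (X z) := by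
      rw [nab_eq]; simp
    rw [h3, h4, map_add, tr_add, tr_add, tr_add, tr_add, tr_add, tr_flip_symm hsymm]
    ring
  have hsq : tr ((G.nab X z).comp (G.nab X z))
      = tr ((fderiv ℝ X z).comp (fderiv ℝ X z)) + 2 * tr ((G.Γ z (X z)).comp (fderiv ℝ X z))
        + tr ((G.Γ z (X z)).comp (G.Γ z (X z))) := by
    rw [nab_eq, ContinuousLinearMap.comp_add, ContinuousLinearMap.add_comp,
      ContinuousLinearMap.add_comp, tr_add, tr_add, tr_add,
      tr_comp_comm (fderiv ℝ X z) (G.Γ z (X z))]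
    ring
  have hric := G.ric z (X z)
  rw [hL, hR, hsq, Geo.g]
  linarith

end

end Pool.Agent.Work.MP_3b24f6_gt
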