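import Pool.Agent.Work.MP_3b24f6_gt.Model

/-!
# The unit normal field of the level sets

Pointwise calculus for `N = grad w / |grad w|`.
-/

set_option autoImplicit false

open MeasureTheory Set Filter Topology
open scoped ContDiff InnerProductSpace

namespace Pool.Agent.Work.MP_3b24f6_gt

noncomputable section

variable {E : Type*} [NormedAddCommGroup E] [InnerProductSpace ℝ E] [FiniteDimensional ℝ E]

section CalcN

variable (G : Geo E)

namespace CN

theorem geo_inner_gradient (f : E → ℝ) (z v : E) : ⟪gradient f z, v⟫_ℝ = fderiv ℝ f z v := by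
  unfold gradient
  exact InnerProductSpace.toDual_symm_apply

theorem geo_gradient_ne_zero {f : E → ℝ} {z : E} (h : fderiv ℝ f z ≠ 0) : gradient f z ≠ 0 := by
  intro h0
  apply h
  ext v
  rw [← geo_inner_gradient, h0, inner_zero_left]
  rfl

theorem geo_CA (z u : E) : G.C z (G.A z u) = u := by
  by_contra h
  have h1 : G.C z (G.A z u) - u ≠ 0 := sub_ne_zero.2 h
  have h2 := G.A_pos z _ h1
  rw [map_sub, G.AC, sub_self, inner_zero_left] at h2
  exact lt_irrefl _ h2

theorem geo_C_symm (z u v : E) : ⟪G.C z u, v⟫_ℝ = ⟪u, G.C z v⟫_ℝ := by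
  have h := G.A_symm z (G.C z u) (G.C z v)
  rw [G.AC, G.AC] at h
  exact h.symm

theorem geo_C_pos (z u : E) (hu : u ≠ 0) : 0 < ⟪G.C z u, u⟫_ℝ := by
  have hC : G.C z u ≠ 0 := by
    intro h
    apply hu
    have := G.AC z u
    rw [h, map_zero] at this
    exact this.symm
  have h := G.A_pos z _ hC
  rw [G.AC] at h
  rw [real_inner_comm]
  exact h

theorem geo_g_symm (z u v : E) : G.g z u v = G.g z v u := by
  unfold Geo.g
  rw [G.A_symm, real_inner_comm]

theorem geo_g_add_left (z u v x : E) : G.g z (u + v) x = G.g z u x + G.g z v x := by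
  unfold Geo.g
  rw [map_add, inner_add_left]

theorem geo_g_smul_left (z u x : E) (c : ℝ) : G.g z (c • u) x = c * G.g z u x := by
  unfold Geo.g
  rw [map_smul, real_inner_smul_left]

theorem geo_g_smul_right (z u x : E) (c : ℝ) : G.g z x (c • u) = c * G.g z x u := by
  unfold Geo.g
  rw [real_inner_smul_right]

theorem geo_g_grad (f : E → ℝ) (z v : E) : G.g z (G.grad f z) v = fderiv ℝ f z v := by
  unfold Geo.g Geo.grad
  rw [G.AC, geo_inner_gradient]

theorem geo_nab_apply (X : E → E) (z v : E) : G.nab X z v = fderiv ℝ X z v + G.Γ z v (X z) := by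
  unfold Geo.nab
  simp only [add_apply, ContinuousLinearMap.flip_apply]

theorem geo_fderiv_g {X Y : E → E} {z : E} (hX : DifferentiableAt ℝ X z)
    (hY : DifferentiableAt ℝ Y z) (v : E) :
    fderiv ℝ (fun y => G.g y (X y) (Y y)) z v
      = G.g z (G.nab X z v) (Y z) + G.g z (X z) (G.nab Y z v) := by
  have hA : DifferentiableAt ℝ G.A z := (G.smooth_A.differentiable (by simp)) z
  have h1 : HasFDerivAt (fun y => G.A y (X y))
      ((G.A z).comp (fderiv ℝ X z) + (fderiv ℝ G.A z).flip (X z)) z :=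
    hA.hasFDerivAt.clm_apply hX.hasFDerivAt
  have h2 := h1.inner ℝ hY.hasFDerivAt
  have h3 : fderiv ℝ (fun y => G.g y (X y) (Y y)) z v
      = ⟪G.A z (X z), fderiv ℝ Y z v⟫_ℝ
        + ⟪G.A z (fderiv ℝ X z v) + fderiv ℝ G.A z v (X z), Y z⟫_ℝ := by
    unfold Geo.g
    rw [h2.fderiv]
    simp
  rw [h3, inner_add_left, G.compat]
  unfold Geo.g
  rw [geo_nab_apply, geo_nab_apply, map_add, inner_add_left, inner_add_right]
  ring

end CN

variable {w : E → ℝ}

namespace CN

theorem geo_contDiff_gradient (hw : ContDiff ℝ ∞ w) : ContDiff ℝ ∞ (gradient w) := by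
  have h1 : ContDiff ℝ ∞ (fderiv ℝ w) := hw.fderiv_right (m := ∞) (by simp)
  unfold gradient
  exact (InnerProductSpace.toDual ℝ E).symm.toContinuousLinearEquiv.contDiff.comp h1

theorem geo_contDiff_grad (hw : ContDiff ℝ ∞ w) : ContDiff ℝ ∞ (G.grad w) := by
  unfold Geo.grad
  exact G.smooth_C.clm_apply (geo_contDiff_gradient hw)

end CN

open CN

theorem gn_pos {z : E} (hz : fderiv ℝ w z ≠ 0) : 0 < G.gn w z :=
  Real.sqrt_pos.2 (geo_C_pos G z _ (geo_gradient_ne_zero hz))

theorem contDiffAt_gn (hw : ContDiff ℝ ∞ w) {z : E} (hz : fderiv ℝ w z ≠ 0) :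
    ContDiffAt ℝ ∞ (G.gn w) z := by
  unfold Geo.gn
  refine ContDiffAt.sqrt ?_ (geo_C_pos G z _ (geo_gradient_ne_zero hz)).ne'
  exact ((geo_contDiff_grad G hw).inner ℝ (geo_contDiff_gradient hw)).contDiffAt

/-- smoothness of the normal. -/
theorem contDiffAt_nrm (hw : ContDiff ℝ ∞ w) {z : E} (hz : fderiv ℝ w z ≠ 0) :
    ContDiffAt ℝ ∞ (G.nrm w) z := by
  unfold Geo.nrm
  exact ((contDiffAt_gn G hw hz).inv (gn_pos G hz).ne').smul (geo_contDiff_grad G hw).contDiffAt

namespace CN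

theorem geo_gn_sq (z : E) : G.gn w z ^ 2 = G.g z (G.grad w z) (G.grad w z) := by
  have h0 : 0 ≤ ⟪G.C z (gradient w z), gradient w z⟫_ℝ := by
    by_cases h : gradient w z = 0
    · rw [h]; simp
    · exact (geo_C_pos G z _ h).le
  unfold Geo.gn
  rw [Real.sq_sqrt h0, geo_g_grad, ← geo_inner_gradient, real_inner_comm]
  rfl

theorem geo_grad_eq (z : E) (hz : fderiv ℝ w z ≠ 0) : G.grad w z = G.gn w z • G.nrm w z := by
  unfold Geo.nrm
  rw [smul_smul, mul_inv_cancel₀ (gn_pos G hz).ne', one_smul]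

end CN

open CN

theorem g_nrm_nrm {z : E} (hz : fderiv ℝ w z ≠ 0) :
    G.g z (G.nrm w z) (G.nrm w z) = 1 := by
  have h := gn_pos G hz
  unfold Geo.nrm
  rw [geo_g_smul_left, geo_g_smul_right, ← geo_gn_sq]
  field_simp

namespace CN

theorem geo_g_nrm (z v : E) :
    G.g z (G.nrm w z) v = fderiv ℝ w z v / G.gn w z := by
  unfold Geo.nrm
  rw [geo_g_smul_left, geo_g_grad]
  field_simp

/-- the Hessian is symmetric -/
theorem hess_symm (hw : ContDiff ℝ ∞ w) (z u v : E) :
    G.g z (G.nab (G.grad w) z u) v = G.g z (G.nab (G.grad w) z v) u := by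
  have hd : DifferentiableAt ℝ (G.grad w) z := ((geo_contDiff_grad G hw).differentiable (by simp)) z
  have key : ∀ a b : E, G.g z (G.nab (G.grad w) z a) b
      = fderiv ℝ (fderiv ℝ w) z a b - fderiv ℝ w z (G.Γ z a b) := by
    intro a b
    have h1 := geo_fderiv_g G (X := G.grad w) (Y := fun _ => b) hd
      (differentiableAt_const b) a
    have h2 : (fun y => G.g y (G.grad w y) b) = fun y => fderiv ℝ w y b := by
      funext y; exact geo_g_grad G w y b
    rw [h2] at h1
    have h3 : fderiv ℝ (fun y => fderiv ℝ w y b) z a = fderiv ℝ (fderiv ℝ w) z a b := by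
      have h4 : DifferentiableAt ℝ (fderiv ℝ w) z :=
        ((hw.fderiv_right (m := ∞) (by simp)).differentiable (by simp)) z
      have h5 := h4.hasFDerivAt.clm_apply (hasFDerivAt_const b z)
      rw [h5.fderiv]
      simp
    rw [h3] at h1
    have h6 : G.nab (fun _ => b) z a = G.Γ z a b := by
      rw [geo_nab_apply]; simp
    rw [h6, geo_g_grad] at h1
    linarith
  rw [key, key, G.Γ_symm z u v]
  have hs : IsSymmSndFDerivAt ℝ w z := by
    refine (hw.contDiffAt).isSymmSndFDerivAt ?_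
    rw [minSmoothness_of_isRCLikeNormedField]
    exact WithTop.coe_le_coe.2 le_top
  have := hs.eq u v
  rw [this]

/-- covariant derivative of the normal -/
theorem nab_nrm (hw : ContDiff ℝ ∞ w) {z : E} (hz : fderiv ℝ w z ≠ 0) (v : E) :
    G.nab (G.nrm w) z v = (G.gn w z)⁻¹ • G.nab (G.grad w) z v
      - (fderiv ℝ (G.gn w) z v / G.gn w z) • G.nrm w z := by
  have hg := gn_pos G hz
  have hd1 : DifferentiableAt ℝ (G.gn w) z := (contDiffAt_gn G hw hz).differentiableAt (by simp)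
  have hd2 : DifferentiableAt ℝ (G.grad w) z := ((geo_contDiff_grad G hw).differentiable (by simp)) z
  have h1 : HasFDerivAt (G.nrm w) _ z :=
    ((hasDerivAt_inv hg.ne').comp_hasFDerivAt z hd1.hasFDerivAt).smul hd2.hasFDerivAt
  rw [geo_nab_apply, geo_nab_apply, h1.fderiv]
  have h3 : G.Γ z v (G.nrm w z) = (G.gn w z)⁻¹ • G.Γ z v (G.grad w z) := by
    unfold Geo.nrm
    rw [map_smul]
  rw [h3]
  simp only [add_apply, smul_apply, ContinuousLinearMap.smulRight_apply, smul_eq_mul,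
    Function.comp_apply]
  unfold Geo.nrm
  rw [smul_smul, smul_add]
  have h4 : -(G.gn w z ^ 2)⁻¹ * fderiv ℝ (G.gn w) z v
      = - (fderiv ℝ (G.gn w) z v / G.gn w z * (G.gn w z)⁻¹) := by
    field_simp
  rw [h4, neg_smul]
  abel

theorem fderiv_gn (hw : ContDiff ℝ ∞ w) {z : E} (hz : fderiv ℝ w z ≠ 0) (v : E) :
    fderiv ℝ (G.gn w) z v = G.g z (G.nab (G.grad w) z v) (G.nrm w z) := by
  have hg := gn_pos G hz
  have hd1 : DifferentiableAt ℝ (G.gn w) z := (contDiffAt_gn G hw hz).differentiableAt (by simp)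
  have hd2 : DifferentiableAt ℝ (G.grad w) z := ((geo_contDiff_grad G hw).differentiable (by simp)) z
  have h1 := geo_fderiv_g G hd2 hd2 v
  have h2 : (fun y => G.g y (G.grad w y) (G.grad w y)) = fun y => G.gn w y ^ 2 := by
    funext y; exact (geo_gn_sq G y).symm
  rw [h2, geo_g_symm G z (G.grad w z)] at h1
  have h3 : fderiv ℝ (fun y => G.gn w y ^ 2) z v = 2 * G.gn w z * fderiv ℝ (G.gn w) z v := by
    rw [(hd1.hasFDerivAt.pow 2).fderiv]
    simp
  rw [h3] at h1
  have h4 : G.g z (G.nab (G.grad w) z v) (G.nrm w z)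
      = (G.gn w z)⁻¹ * G.g z (G.nab (G.grad w) z v) (G.grad w z) := by
    unfold Geo.nrm
    rw [geo_g_smul_right]
  rw [h4]
  field_simp
  linarith

end CN

open CN

theorem nab_nrm_orth (hw : ContDiff ℝ ∞ w) {z : E} (hz : fderiv ℝ w z ≠ 0) (v : E) :
    G.g z (G.nab (G.nrm w) z v) (G.nrm w z) = 0 := by
  have hg := gn_pos G hz
  rw [nab_nrm G hw hz, sub_eq_add_neg, ← neg_smul, geo_g_add_left, geo_g_smul_left,
    geo_g_smul_left, g_nrm_nrm G hz, ← fderiv_gn G hw hz]
  field_simp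
  ring

/-- `∇_N N = ∇^T log |∇w|`. -/
theorem nab_nrm_nrm (hw : ContDiff ℝ ∞ w) {z : E} (hz : fderiv ℝ w z ≠ 0) (v : E) :
    G.g z (G.nab (G.nrm w) z (G.nrm w z)) v
      = (fderiv ℝ (G.gn w) z v - fderiv ℝ (G.gn w) z (G.nrm w z) * G.g z (G.nrm w z) v)
        / G.gn w z := by
  have hg := gn_pos G hz
  rw [nab_nrm G hw hz, sub_eq_add_neg, ← neg_smul, geo_g_add_left, geo_g_smul_left,
    geo_g_smul_left, hess_symm G hw, ← fderiv_gn G hw hz]
  field_simp
  ring

theorem nab_nrm_symm (hw : ContDiff ℝ ∞ w) {z : E} (hz : fderiv ℝ w z ≠ 0) (u v : E)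
    (hu : G.g z (G.nrm w z) u = 0) (hv : G.g z (G.nrm w z) v = 0) :
    G.g z (G.nab (G.nrm w) z u) v = G.g z (G.nab (G.nrm w) z v) u := by
  rw [nab_nrm G hw hz, nab_nrm G hw hz]
  simp only [sub_eq_add_neg, ← neg_smul, geo_g_add_left, geo_g_smul_left, hu, hv, mul_zero,
    add_zero]
  rw [hess_symm G hw]

end CalcN

end

end Pool.Agent.Work.MP_3b24f6_gt
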