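import Pool.Agent.Work.MP_3b24f6_gt.Model

/-!
# The complex model

In the chart `y = sinh(r) ω` complex hyperbolic space has the metric
`|dy|² - ⟨y,dy⟩²/(1+|y|²) + ⟨Jy,dy⟩²`; the Christoffel map is explicit.
-/

set_option autoImplicit false
set_option linter.unusedSectionVars false
set_option linter.deprecated false

open MeasureTheory Set Filter Topology
open scoped ContDiff InnerProductSpace

namespace Pool.Agent.Work.MP_3b24f6_gt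

noncomputable section

variable {E : Type*} [NormedAddCommGroup E] [InnerProductSpace ℝ E]

namespace Cx

/-! ### the complex structure -/

theorem inner_JJ (S : CStr E) (x y : E) : ⟪S.J x, S.J y⟫_ℝ = ⟪x, y⟫_ℝ :=
  LinearIsometry.inner_map_map ⟨(S.J : E →ₗ[ℝ] E), S.norm_J⟩ x y

theorem inner_J (S : CStr E) (x y : E) : ⟪S.J x, y⟫_ℝ = -⟪x, S.J y⟫_ℝ := by
  have h := inner_JJ S x (S.J y)
  rw [S.JJ, inner_neg_right] at h
  linarith

theorem inner_J_self (S : CStr E) (x : E) : ⟪S.J x, x⟫_ℝ = 0 := by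
  have h := inner_J S x x
  rw [real_inner_comm (S.J x) x] at h
  linarith

theorem inner_self_J (S : CStr E) (x : E) : ⟪x, S.J x⟫_ℝ = 0 := by
  rw [real_inner_comm]
  exact inner_J_self S x

/-! ### the function `u` -/

theorem U_pos (z : E) : 0 < 1 + ‖z‖ ^ 2 := by positivity

theorem uu_sq (z : E) : uu z ^ 2 = 1 + ‖z‖ ^ 2 := Real.sq_sqrt (U_pos z).le

theorem uu_pos (z : E) : 0 < uu z := Real.sqrt_pos.2 (U_pos z)

theorem contDiff_U : ContDiff ℝ ∞ (fun z : E => 1 + ‖z‖ ^ 2) := contDiff_const.add (contDiff_norm_sq ℝ)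

theorem contDiff_Ui : ContDiff ℝ ∞ (fun z : E => (1 + ‖z‖ ^ 2)⁻¹) :=
  contDiff_U.inv fun z => (U_pos z).ne'

theorem hasFDerivAt_U (z : E) : HasFDerivAt (fun z : E => 1 + ‖z‖ ^ 2) ((2 : ℝ) • innerSL ℝ z) z := by
  have h := (hasStrictFDerivAt_norm_sq z).hasFDerivAt.const_add 1
  refine h.congr_fderiv ?_
  ext x
  simp [two_smul, two_mul]

theorem hasFDerivAt_Ui (z : E) : HasFDerivAt (fun z : E => (1 + ‖z‖ ^ 2)⁻¹)
    ((-(2 * ((1 + ‖z‖ ^ 2) ^ 2)⁻¹)) • innerSL ℝ z) z := by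
  have h := (hasDerivAt_inv (U_pos z).ne').comp_hasFDerivAt z (hasFDerivAt_U z)
  refine h.congr_fderiv ?_
  ext x
  simp
  ring

theorem hasFDerivAt_uu (z : E) : HasFDerivAt (uu : E → ℝ) ((uu z)⁻¹ • innerSL ℝ z) z := by
  have h := (hasFDerivAt_U z).sqrt (U_pos z).ne'
  refine h.congr_fderiv ?_
  ext x
  simp only [uu, ContinuousLinearMap.smul_apply, smul_eq_mul, innerSL_apply_apply]
  field_simp

/-! ### traces -/

section trace

variable [FiniteDimensional ℝ E]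

theorem tr_add (S T : E →L[ℝ] E) : tr (S + T) = tr S + tr T := by
  unfold tr
  rw [ContinuousLinearMap.coe_add, map_add]

theorem tr_sub (S T : E →L[ℝ] E) : tr (S - T) = tr S - tr T := by
  unfold tr
  rw [ContinuousLinearMap.coe_sub, map_sub]

theorem tr_smul (c : ℝ) (T : E →L[ℝ] E) : tr (c • T) = c * tr T := by
  unfold tr
  rw [ContinuousLinearMap.coe_smul, map_smul, smul_eq_mul]

theorem tr_smulRight (φ : E →L[ℝ] ℝ) (p : E) : tr (φ.smulRight p) = φ p :=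
  LinearMap.trace_smulRight (φ : E →ₗ[ℝ] ℝ) p

theorem tr_id : tr (ContinuousLinearMap.id ℝ E) = Module.finrank ℝ E :=
  LinearMap.trace_id ℝ E

theorem tr_comp_comm (S T : E →L[ℝ] E) : tr (S.comp T) = tr (T.comp S) :=
  LinearMap.trace_mul_comm ℝ (S : E →ₗ[ℝ] E) (T : E →ₗ[ℝ] E)

theorem tr_smulRight_comp (φ : E →L[ℝ] ℝ) (p : E) (T : E →L[ℝ] E) :
    tr ((φ.smulRight p).comp T) = φ (T p) := by
  rw [show (φ.smulRight p).comp T = (φ.comp T).smulRight p from rfl, tr_smulRight]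
  rfl

theorem tr_comp_smulRight (φ : E →L[ℝ] ℝ) (p : E) (T : E →L[ℝ] E) :
    tr (T.comp (φ.smulRight p)) = φ (T p) := by
  rw [tr_comp_comm, tr_smulRight_comp]

theorem tr_eq_sum {ι : Type*} [Fintype ι] (b : OrthonormalBasis ι ℝ E) (T : E →L[ℝ] E) :
    tr T = ∑ i, ⟪b i, T (b i)⟫_ℝ := by
  unfold tr
  rw [LinearMap.trace_eq_sum_inner _ b]
  rfl

theorem tr_skew (T : E →L[ℝ] E) (h : ∀ x, ⟪T x, x⟫_ℝ = 0) : tr T = 0 := by
  rw [tr_eq_sum (stdOrthonormalBasis ℝ E)]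
  refine Finset.sum_eq_zero fun i _ => ?_
  rw [real_inner_comm]
  exact h _

end trace

/-! ### the metric -/

theorem chA_apply (S : CStr E) (z v : E) : chA S z v
    = v - ((1 + ‖z‖ ^ 2)⁻¹ * ⟪z, v⟫_ℝ) • z + ⟪S.J z, v⟫_ℝ • S.J z := by
  simp only [chA, uu_sq, ContinuousLinearMap.add_apply, ContinuousLinearMap.sub_apply,
    ContinuousLinearMap.smul_apply, ContinuousLinearMap.smulRight_apply, innerSL_apply_apply,
    ContinuousLinearMap.id_apply, smul_smul]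

theorem chC_apply (S : CStr E) (z v : E) : chC S z v
    = v + ⟪z, v⟫_ℝ • z - ((1 + ‖z‖ ^ 2)⁻¹ * ⟪S.J z, v⟫_ℝ) • S.J z := by
  simp only [chC, uu_sq, ContinuousLinearMap.add_apply, ContinuousLinearMap.sub_apply,
    ContinuousLinearMap.smul_apply, ContinuousLinearMap.smulRight_apply, innerSL_apply_apply,
    ContinuousLinearMap.id_apply, smul_smul]

theorem inner_chA (S : CStr E) (z u v : E) : ⟪chA S z u, v⟫_ℝ
    = ⟪u, v⟫_ℝ - (1 + ‖z‖ ^ 2)⁻¹ * ⟪z, u⟫_ℝ * ⟪z, v⟫_ℝ + ⟪S.J z, u⟫_ℝ * ⟪S.J z, v⟫_ℝ := by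
  rw [chA_apply]
  simp only [inner_add_left, inner_sub_left, real_inner_smul_left]

theorem chA_symm (S : CStr E) (z u v : E) : ⟪chA S z u, v⟫_ℝ = ⟪u, chA S z v⟫_ℝ := by
  rw [real_inner_comm (chA S z v) u, inner_chA, inner_chA, real_inner_comm u v]
  ring

theorem chA_pos (S : CStr E) (z u : E) (hu : u ≠ 0) : 0 < ⟪chA S z u, u⟫_ℝ := by
  rw [inner_chA]
  have h1 : ⟪z, u⟫_ℝ * ⟪z, u⟫_ℝ ≤ ‖z‖ ^ 2 * ‖u‖ ^ 2 := by
    have := abs_real_inner_le_norm z u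
    rw [← abs_mul_abs_self ⟪z, u⟫_ℝ]
    nlinarith [abs_nonneg ⟪z, u⟫_ℝ, norm_nonneg z, norm_nonneg u]
  have h2 : 0 < ‖u‖ ^ 2 := by positivity
  have h3 := U_pos z
  have h4 : (1 + ‖z‖ ^ 2)⁻¹ * ⟪z, u⟫_ℝ * ⟪z, u⟫_ℝ ≤ (1 + ‖z‖ ^ 2)⁻¹ * (‖z‖ ^ 2 * ‖u‖ ^ 2) := by
    rw [mul_assoc]
    exact mul_le_mul_of_nonneg_left h1 (inv_nonneg.2 h3.le)
  have h5 : (1 + ‖z‖ ^ 2)⁻¹ * (‖z‖ ^ 2 * ‖u‖ ^ 2) = ‖u‖ ^ 2 - (1 + ‖z‖ ^ 2)⁻¹ * ‖u‖ ^ 2 := by
    field_simp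
    ring
  rw [real_inner_self_eq_norm_sq]
  nlinarith [mul_pos (inv_pos.2 h3) h2, mul_self_nonneg ⟪S.J z, u⟫_ℝ]

theorem chAC (S : CStr E) (z u : E) : chA S z (chC S z u) = u := by
  have h3 := (U_pos z).ne'
  have h5 := inner_self_J S z
  have h6 := inner_J_self S z
  rw [chA_apply, chC_apply]
  simp only [inner_add_right, inner_sub_right, real_inner_smul_right, h5, h6,
    real_inner_self_eq_norm_sq, S.norm_J]
  match_scalars <;> field_simp <;> ring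

/-! ### smoothness -/

theorem contDiff_innerSL : ContDiff ℝ ∞ (fun z : E => innerSL ℝ z) := (innerSL ℝ).contDiff

theorem contDiff_innerSLJ (S : CStr E) : ContDiff ℝ ∞ (fun z : E => innerSL ℝ (S.J z)) :=
  (innerSL ℝ).contDiff.comp S.J.contDiff

theorem chA_eq (S : CStr E) : chA S = fun z => ContinuousLinearMap.id ℝ E
    - (1 + ‖z‖ ^ 2)⁻¹ • (innerSL ℝ z).smulRight z
    + (innerSL ℝ (S.J z)).smulRight (S.J z) := by
  funext z
  rw [chA, uu_sq]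

theorem chC_eq (S : CStr E) : chC S = fun z => ContinuousLinearMap.id ℝ E
    + (innerSL ℝ z).smulRight z
    - (1 + ‖z‖ ^ 2)⁻¹ • (innerSL ℝ (S.J z)).smulRight (S.J z) := by
  funext z
  rw [chC, uu_sq]

theorem contDiff_chA (S : CStr E) : ContDiff ℝ ∞ (chA S) := by
  rw [chA_eq]
  exact (contDiff_const.sub (contDiff_Ui.smul (contDiff_innerSL.smulRight contDiff_id))).add
    ((contDiff_innerSLJ S).smulRight S.J.contDiff)

theorem contDiff_chC (S : CStr E) : ContDiff ℝ ∞ (chC S) := by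
  rw [chC_eq]
  exact (contDiff_const.add (contDiff_innerSL.smulRight contDiff_id)).sub
    (contDiff_Ui.smul ((contDiff_innerSLJ S).smulRight S.J.contDiff))

/-! ### the Christoffel map -/

/-- the real inner product as a bilinear map -/
def isl : E →L[ℝ] E →L[ℝ] ℝ :=
  LinearMap.mkContinuous₂ (innerₗ E) 1 fun x y => by
    rw [one_mul]
    exact norm_inner_le_norm x y

theorem isl_apply (x y : E) : isl x y = ⟪x, y⟫_ℝ := rfl

/-- the Christoffel map of the chart -/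
def chG (S : CStr E) (z : E) : E →L[ℝ] E →L[ℝ] E :=
  ((1 + ‖z‖ ^ 2)⁻¹ • innerSL ℝ z).smulRight ((innerSL ℝ z).smulRight z)
    - ((ContinuousLinearMap.smulRightL ℝ E E).flip z).comp isl
    - ((2 : ℝ) • innerSL ℝ (S.J z)).smulRight ((innerSL ℝ (S.J z)).smulRight z)
    - (((1 + ‖z‖ ^ 2)⁻¹ • innerSL ℝ z).smulRight ((innerSL ℝ (S.J z)).smulRight (S.J z))
        + ((1 + ‖z‖ ^ 2)⁻¹ • innerSL ℝ (S.J z)).smulRight ((innerSL ℝ z).smulRight (S.J z)))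
    + (ContinuousLinearMap.smulRightL ℝ E E (innerSL ℝ (S.J z))).comp S.J
    + (innerSL ℝ (S.J z)).smulRight S.J

theorem chG_apply (S : CStr E) (z x y : E) : chG S z x y
    = ((1 + ‖z‖ ^ 2)⁻¹ * ⟪z, x⟫_ℝ * ⟪z, y⟫_ℝ - ⟪x, y⟫_ℝ - 2 * ⟪S.J z, x⟫_ℝ * ⟪S.J z, y⟫_ℝ) • z
      - ((1 + ‖z‖ ^ 2)⁻¹ * (⟪z, x⟫_ℝ * ⟪S.J z, y⟫_ℝ + ⟪z, y⟫_ℝ * ⟪S.J z, x⟫_ℝ)) • S.J z
      + ⟪S.J z, y⟫_ℝ • S.J x + ⟪S.J z, x⟫_ℝ • S.J y := by
  simp only [chG, ContinuousLinearMap.add_apply, ContinuousLinearMap.sub_apply,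
    ContinuousLinearMap.smul_apply, ContinuousLinearMap.smulRight_apply, innerSL_apply_apply,
    ContinuousLinearMap.comp_apply, ContinuousLinearMap.flip_apply, isl_apply,
    ContinuousLinearMap.smulRightL_apply_apply, smul_eq_mul]
  module

theorem contDiff_chG (S : CStr E) : ContDiff ℝ ∞ (chG S) := by
  have h0 := contDiff_innerSL (E := E)
  have h1 := contDiff_innerSLJ S
  have h2 : ContDiff ℝ ∞ (fun z : E => z) := contDiff_id
  have h3 := S.J.contDiff (n := ∞)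
  have e : chG S = fun z : E => ((1 + ‖z‖ ^ 2)⁻¹ • innerSL ℝ z).smulRight ((innerSL ℝ z).smulRight z)
      - ((ContinuousLinearMap.smulRightL ℝ E E).flip z).comp isl
      - ((2 : ℝ) • innerSL ℝ (S.J z)).smulRight ((innerSL ℝ (S.J z)).smulRight z)
      - (((1 + ‖z‖ ^ 2)⁻¹ • innerSL ℝ z).smulRight ((innerSL ℝ (S.J z)).smulRight (S.J z))
          + ((1 + ‖z‖ ^ 2)⁻¹ • innerSL ℝ (S.J z)).smulRight ((innerSL ℝ z).smulRight (S.J z)))
      + (ContinuousLinearMap.smulRightL ℝ E E (innerSL ℝ (S.J z))).comp S.J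
      + (innerSL ℝ (S.J z)).smulRight S.J := rfl
  rw [e]
  refine ContDiff.add (ContDiff.add (ContDiff.sub (ContDiff.sub (ContDiff.sub ?_ ?_) ?_) ?_) ?_) ?_
  · exact (contDiff_Ui.smul h0).smulRight (h0.smulRight h2)
  · exact (ContinuousLinearMap.contDiff _).clm_comp contDiff_const
  · exact (h1.const_smul (2 : ℝ)).smulRight (h1.smulRight h2)
  · exact ((contDiff_Ui.smul h0).smulRight (h1.smulRight h3)).add
      ((contDiff_Ui.smul h1).smulRight (h0.smulRight h3))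
  · exact ((ContinuousLinearMap.contDiff _).comp h1).clm_comp contDiff_const
  · exact h1.smulRight contDiff_const

/-! ### derivatives -/

theorem hasFDerivAt_inner (v z : E) : HasFDerivAt (fun y : E => ⟪y, v⟫_ℝ) (innerSL ℝ v) z := by
  have h := (innerSL ℝ v).hasFDerivAt (x := z)
  refine h.congr_of_eventuallyEq (Eventually.of_forall fun y => ?_)
  exact real_inner_comm _ _

theorem hasFDerivAt_innerJ (S : CStr E) (v z : E) :
    HasFDerivAt (fun y : E => ⟪S.J y, v⟫_ℝ) ((innerSL ℝ v).comp S.J) z :=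
  (hasFDerivAt_inner v (S.J z)).comp z S.J.hasFDerivAt

theorem hasFDerivAt_chA (S : CStr E) (u z : E) : HasFDerivAt (fun y => chA S y u)
    (0 - (((1 + ‖z‖ ^ 2)⁻¹ * ⟪z, u⟫_ℝ) • ContinuousLinearMap.id ℝ E
      + ((1 + ‖z‖ ^ 2)⁻¹ • innerSL ℝ u
        + ⟪z, u⟫_ℝ • (-(2 * ((1 + ‖z‖ ^ 2) ^ 2)⁻¹)) • innerSL ℝ z).smulRight z)
      + (⟪S.J z, u⟫_ℝ • S.J + ((innerSL ℝ u).comp S.J).smulRight (S.J z))) z := by
  have e : (fun y => chA S y u) = fun y => u - ((1 + ‖y‖ ^ 2)⁻¹ * ⟪y, u⟫_ℝ) • y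
      + ⟪S.J y, u⟫_ℝ • S.J y := by
    funext y
    exact chA_apply S y u
  rw [e]
  exact ((hasFDerivAt_const u z).sub (((hasFDerivAt_Ui z).mul (hasFDerivAt_inner u z)).smul
    (hasFDerivAt_id z))).add ((hasFDerivAt_innerJ S u z).smul S.J.hasFDerivAt)

theorem fderiv_chA (S : CStr E) (z x u : E) : fderiv ℝ (chA S) z x u
    = -(((1 + ‖z‖ ^ 2)⁻¹ * ⟪z, u⟫_ℝ) • x
      + ((1 + ‖z‖ ^ 2)⁻¹ * ⟪u, x⟫_ℝ - 2 * ⟪z, u⟫_ℝ * ((1 + ‖z‖ ^ 2) ^ 2)⁻¹ * ⟪z, x⟫_ℝ) • z)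
      + (⟪S.J z, u⟫_ℝ • S.J x + ⟪u, S.J x⟫_ℝ • S.J z) := by
  have h := ((contDiff_chA S).differentiable (by simp)).differentiableAt (x := z)
  have h1 := h.hasFDerivAt.clm_apply (hasFDerivAt_const u z)
  have h2 := h1.unique (hasFDerivAt_chA S u z)
  have h3 := congrArg (fun L : E →L[ℝ] E => L x) h2
  simp at h3
  rw [h3]
  module

/-- scalar products with the Christoffel map -/
theorem inner_z_chG (S : CStr E) (z x y : E) : ⟪z, chG S z x y⟫_ℝ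
    = ((1 + ‖z‖ ^ 2)⁻¹ * ⟪z, x⟫_ℝ * ⟪z, y⟫_ℝ - ⟪x, y⟫_ℝ - 2 * ⟪S.J z, x⟫_ℝ * ⟪S.J z, y⟫_ℝ) * ‖z‖ ^ 2
      - 2 * ⟪S.J z, x⟫_ℝ * ⟪S.J z, y⟫_ℝ := by
  have e1 : ∀ v, ⟪z, S.J v⟫_ℝ = -⟪S.J z, v⟫_ℝ := fun v => by rw [inner_J, neg_neg]
  rw [chG_apply]
  simp only [inner_add_right, inner_sub_right, real_inner_smul_right, inner_self_J, e1,
    real_inner_self_eq_norm_sq, inner_J_self]
  ring

theorem inner_Jz_chG (S : CStr E) (z x y : E) : ⟪S.J z, chG S z x y⟫_ℝ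
    = (1 + ‖z‖ ^ 2)⁻¹ * (⟪z, x⟫_ℝ * ⟪S.J z, y⟫_ℝ + ⟪z, y⟫_ℝ * ⟪S.J z, x⟫_ℝ) := by
  have h3 := (U_pos z).ne'
  rw [chG_apply]
  simp only [inner_add_right, inner_sub_right, real_inner_smul_right, inner_J_self, inner_JJ,
    real_inner_self_eq_norm_sq, S.norm_J]
  field_simp
  ring

theorem inner_chG (S : CStr E) (z x y v : E) : ⟪chG S z x y, v⟫_ℝ
    = ((1 + ‖z‖ ^ 2)⁻¹ * ⟪z, x⟫_ℝ * ⟪z, y⟫_ℝ - ⟪x, y⟫_ℝ - 2 * ⟪S.J z, x⟫_ℝ * ⟪S.J z, y⟫_ℝ) * ⟪z, v⟫_ℝ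
      - ((1 + ‖z‖ ^ 2)⁻¹ * (⟪z, x⟫_ℝ * ⟪S.J z, y⟫_ℝ + ⟪z, y⟫_ℝ * ⟪S.J z, x⟫_ℝ)) * ⟪S.J z, v⟫_ℝ
      + ⟪S.J z, y⟫_ℝ * ⟪S.J x, v⟫_ℝ + ⟪S.J z, x⟫_ℝ * ⟪S.J y, v⟫_ℝ := by
  rw [chG_apply]
  simp only [inner_add_left, inner_sub_left, real_inner_smul_left]

theorem chG_symm (S : CStr E) (z x y : E) : chG S z x y = chG S z y x := by
  rw [chG_apply, chG_apply, real_inner_comm x y]
  module

theorem compat (S : CStr E) (z x u v : E) : ⟪fderiv ℝ (chA S) z x u, v⟫_ℝ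
    = ⟪chA S z (chG S z x u), v⟫_ℝ + ⟪chA S z u, chG S z x v⟫_ℝ := by
  have h3 := (U_pos z).ne'
  rw [fderiv_chA, inner_chA, inner_chA, inner_z_chG, inner_Jz_chG, inner_z_chG, inner_Jz_chG,
    inner_chG, real_inner_comm (chG S z x v) u, inner_chG]
  have e1 : ⟪S.J v, u⟫_ℝ = -⟪S.J u, v⟫_ℝ := by
    rw [inner_J, real_inner_comm]
  have e2 : ⟪u, S.J x⟫_ℝ = ⟪S.J x, u⟫_ℝ := real_inner_comm _ _
  have e3 : ⟪u, x⟫_ℝ = ⟪x, u⟫_ℝ := real_inner_comm _ _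
  have e4 : ⟪v, x⟫_ℝ = ⟪x, v⟫_ℝ := real_inner_comm _ _
  simp only [inner_add_left, inner_sub_left, inner_neg_left, real_inner_smul_left, e1, e2, e3, e4]
  field_simp
  ring

section trace

variable [FiniteDimensional ℝ E]

theorem chG_clm (S : CStr E) (z x : E) : chG S z x
    = (((1 + ‖z‖ ^ 2)⁻¹ * ⟪z, x⟫_ℝ) • innerSL ℝ z - innerSL ℝ x
        - (2 * ⟪S.J z, x⟫_ℝ) • innerSL ℝ (S.J z)).smulRight z
      - (((1 + ‖z‖ ^ 2)⁻¹ * ⟪z, x⟫_ℝ) • innerSL ℝ (S.J z)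
        + ((1 + ‖z‖ ^ 2)⁻¹ * ⟪S.J z, x⟫_ℝ) • innerSL ℝ z).smulRight (S.J z)
      + (innerSL ℝ (S.J z)).smulRight (S.J x) + ⟪S.J z, x⟫_ℝ • S.J := by
  ext y
  rw [chG_apply]
  simp only [ContinuousLinearMap.add_apply, ContinuousLinearMap.sub_apply,
    ContinuousLinearMap.smul_apply, ContinuousLinearMap.smulRight_apply, innerSL_apply_apply,
    smul_eq_mul]
  module

/-- trace of `T ∘ Γ(x)` -/
theorem tr_chG_comp (S : CStr E) (z x : E) (T : E →L[ℝ] E) : tr ((chG S z x).comp T)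
    = (1 + ‖z‖ ^ 2)⁻¹ * ⟪z, x⟫_ℝ * ⟪z, T z⟫_ℝ - ⟪x, T z⟫_ℝ - 2 * ⟪S.J z, x⟫_ℝ * ⟪S.J z, T z⟫_ℝ
      - ((1 + ‖z‖ ^ 2)⁻¹ * ⟪z, x⟫_ℝ * ⟪S.J z, T (S.J z)⟫_ℝ
        + (1 + ‖z‖ ^ 2)⁻¹ * ⟪S.J z, x⟫_ℝ * ⟪z, T (S.J z)⟫_ℝ)
      + ⟪S.J z, T (S.J x)⟫_ℝ + ⟪S.J z, x⟫_ℝ * tr (S.J.comp T) := by
  rw [chG_clm, ContinuousLinearMap.add_comp, ContinuousLinearMap.add_comp,
    ContinuousLinearMap.sub_comp, tr_add, tr_add, tr_sub, tr_smulRight_comp, tr_smulRight_comp,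
    tr_smulRight_comp, ContinuousLinearMap.smul_comp, tr_smul]
  simp only [ContinuousLinearMap.add_apply, ContinuousLinearMap.sub_apply,
      ContinuousLinearMap.smul_apply, innerSL_apply_apply, smul_eq_mul]

theorem tr_chG (S : CStr E) (z x : E) : tr (chG S z x) = 0 := by
  have h3 := (U_pos z).ne'
  have h := tr_chG_comp S z x (ContinuousLinearMap.id ℝ E)
  rw [ContinuousLinearMap.comp_id, ContinuousLinearMap.comp_id,
    tr_skew S.J (inner_J_self S)] at h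
  rw [h]
  simp only [ContinuousLinearMap.id_apply, inner_J_self, inner_self_J,
      inner_JJ, real_inner_self_eq_norm_sq, real_inner_comm z x, S.norm_J]
  field_simp
  ring

/-- the trace as a continuous linear map -/
def trL : (E →L[ℝ] E) →L[ℝ] ℝ :=
  LinearMap.toContinuousLinearMap ((LinearMap.trace ℝ E).comp (ContinuousLinearMap.coeLM ℝ))

theorem trL_apply (T : E →L[ℝ] E) : trL T = tr T := rfl

theorem tr_fderiv_chG (S : CStr E) (z x v : E) : tr (fderiv ℝ (chG S) z x v) = 0 := by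
  have h := ((contDiff_chG S).differentiable (by simp)).differentiableAt (x := z)
  have h1 := h.hasFDerivAt.clm_apply (hasFDerivAt_const v z)
  have h2 := (trL (E := E)).hasFDerivAt.comp z h1
  have h3 : HasFDerivAt (fun y => trL (chG S y v)) (0 : E →L[ℝ] ℝ) z := by
    have e : (fun y => trL (chG S y v)) = fun _ => (0 : ℝ) := by
      funext y
      rw [trL_apply, tr_chG]
    rw [e]
    exact hasFDerivAt_const _ _
  have h4 := congrArg (fun L : E →L[ℝ] ℝ => L x) (h2.unique h3)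
  simpa [trL_apply] using h4

/-- the derivative of `Γ(v, v)` -/
def dG (S : CStr E) (z v : E) : E →L[ℝ] E :=
  ((1 + ‖z‖ ^ 2)⁻¹ * ⟪z, v⟫_ℝ * ⟪z, v⟫_ℝ - ‖v‖ ^ 2 - 2 * ⟪S.J z, v⟫_ℝ * ⟪S.J z, v⟫_ℝ) •
      ContinuousLinearMap.id ℝ E
    + ((2 * (1 + ‖z‖ ^ 2)⁻¹ * ⟪z, v⟫_ℝ) • innerSL ℝ v
      - (2 * ((1 + ‖z‖ ^ 2) ^ 2)⁻¹ * ⟪z, v⟫_ℝ ^ 2) • innerSL ℝ z
      - (4 * ⟪S.J z, v⟫_ℝ) • (innerSL ℝ v).comp S.J).smulRight z
    - ((2 * (1 + ‖z‖ ^ 2)⁻¹ * ⟪z, v⟫_ℝ * ⟪S.J z, v⟫_ℝ) • S.J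
      + ((2 * (1 + ‖z‖ ^ 2)⁻¹ * ⟪S.J z, v⟫_ℝ) • innerSL ℝ v
        + (2 * (1 + ‖z‖ ^ 2)⁻¹ * ⟪z, v⟫_ℝ) • (innerSL ℝ v).comp S.J
        - (4 * ((1 + ‖z‖ ^ 2) ^ 2)⁻¹ * ⟪z, v⟫_ℝ * ⟪S.J z, v⟫_ℝ) • innerSL ℝ z).smulRight (S.J z))
    + ((2 : ℝ) • (innerSL ℝ v).comp S.J).smulRight (S.J v)

theorem hasFDerivAt_chG (S : CStr E) (z v : E) :
    HasFDerivAt (fun y => chG S y v v) (dG S z v) z := by
  have e : (fun y => chG S y v v) = fun y =>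
      ((1 + ‖y‖ ^ 2)⁻¹ * ⟪y, v⟫_ℝ * ⟪y, v⟫_ℝ - ‖v‖ ^ 2 - 2 * ⟪S.J y, v⟫_ℝ * ⟪S.J y, v⟫_ℝ) • y
      - (2 * (1 + ‖y‖ ^ 2)⁻¹ * ⟪y, v⟫_ℝ * ⟪S.J y, v⟫_ℝ) • S.J y
      + (2 * ⟪S.J y, v⟫_ℝ) • S.J v := by
    funext y
    rw [chG_apply, real_inner_self_eq_norm_sq]
    module
  have h1 := hasFDerivAt_Ui z
  have h2 := hasFDerivAt_inner v z
  have h3 := hasFDerivAt_innerJ S v z
  have k1 := (((((h1.mul h2).mul h2).sub_const (‖v‖ ^ 2)).sub ((h3.const_mul 2).mul h3)).smul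
    (hasFDerivAt_id z)).sub ((((h1.const_mul 2).mul h2).mul h3).smul S.J.hasFDerivAt)
  have k2 := k1.add (((h3.const_mul 2).smul_const (S.J v)))
  rw [e]
  refine k2.congr_fderiv ?_
  ext x
  simp [dG]
  module

theorem flip_fderiv_chG (S : CStr E) (z v : E) :
    ((fderiv ℝ (chG S) z).flip v).flip v = dG S z v := by
  have h := ((contDiff_chG S).differentiable (by simp)).differentiableAt (x := z)
  have h1 := (h.hasFDerivAt.clm_apply (hasFDerivAt_const v z)).clm_apply (hasFDerivAt_const v z)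
  have h2 := h1.unique (hasFDerivAt_chG S z v)
  ext x
  have h3 := congrArg (fun L : E →L[ℝ] E => L x) h2
  simpa using h3

theorem tr_dG (S : CStr E) (z v : E) : tr (dG S z v)
    = ((1 + ‖z‖ ^ 2)⁻¹ * ⟪z, v⟫_ℝ ^ 2 - ‖v‖ ^ 2 - 2 * ⟪S.J z, v⟫_ℝ ^ 2) * Module.finrank ℝ E
      + 4 * (1 + ‖z‖ ^ 2)⁻¹ * ⟪z, v⟫_ℝ ^ 2 - 2 * ((1 + ‖z‖ ^ 2) ^ 2)⁻¹ * ⟪z, v⟫_ℝ ^ 2 * ‖z‖ ^ 2
      - 4 * ⟪S.J z, v⟫_ℝ ^ 2 - 2 * (1 + ‖z‖ ^ 2)⁻¹ * ⟪S.J z, v⟫_ℝ ^ 2 - 2 * ‖v‖ ^ 2 := by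
  rw [dG, tr_add, tr_sub, tr_add, tr_add, tr_smul, tr_smul, tr_id, tr_smulRight, tr_smulRight,
    tr_smulRight, tr_skew S.J (inner_J_self S)]
  have e1 : ⟪v, z⟫_ℝ = ⟪z, v⟫_ℝ := real_inner_comm _ _
  have e2 : ⟪v, S.J z⟫_ℝ = ⟪S.J z, v⟫_ℝ := real_inner_comm _ _
  simp only [ContinuousLinearMap.add_apply, ContinuousLinearMap.sub_apply,
      ContinuousLinearMap.smul_apply, innerSL_apply_apply, smul_eq_mul,
      ContinuousLinearMap.comp_apply, S.JJ, inner_neg_right, e1, e2, inner_self_J,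
      real_inner_self_eq_norm_sq]
  ring

theorem tr_chG_sq (S : CStr E) (z v : E) : tr ((chG S z v).comp (chG S z v))
    = 2 * ((1 + ‖z‖ ^ 2) ^ 2)⁻¹ * ⟪z, v⟫_ℝ ^ 2
      - ⟪S.J z, v⟫_ℝ ^ 2 * (Module.finrank ℝ E + 2 + 2 * (1 + ‖z‖ ^ 2)⁻¹) := by
  have h3 := (U_pos z).ne'
  have k : tr (S.J.comp (chG S z v)) = -(2 * (1 + ‖z‖ ^ 2) * ⟪S.J z, v⟫_ℝ)
      + (1 + ‖z‖ ^ 2)⁻¹ * ⟪S.J z, v⟫_ℝ * ‖z‖ ^ 2 - ⟪S.J z, v⟫_ℝ * Module.finrank ℝ E := by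
    have e : S.J.comp S.J = -(ContinuousLinearMap.id ℝ E) := by
      ext x
      simp [S.JJ]
    rw [tr_comp_comm, tr_chG_comp, e]
    have e3 : tr (-(ContinuousLinearMap.id ℝ E)) = -(Module.finrank ℝ E : ℝ) := by
      rw [← tr_id (E := E), ← neg_one_smul ℝ (ContinuousLinearMap.id ℝ E), tr_smul]
      ring
    rw [e3]
    simp only [S.JJ, inner_neg_right, inner_self_J, inner_J_self, inner_JJ,
      real_inner_self_eq_norm_sq, S.norm_J, real_inner_comm v (S.J z)]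
    field_simp
    ring
  rw [tr_chG_comp, k, inner_z_chG, inner_Jz_chG, inner_z_chG, inner_Jz_chG, inner_Jz_chG,
    real_inner_comm (chG S z v z) v, inner_chG]
  have e1 : ⟪v, z⟫_ℝ = ⟪z, v⟫_ℝ := real_inner_comm _ _
  have e2 : ⟪v, S.J z⟫_ℝ = ⟪S.J z, v⟫_ℝ := real_inner_comm _ _
  have e4 : ⟪z, S.J v⟫_ℝ = -⟪S.J z, v⟫_ℝ := by rw [inner_J, neg_neg]
  simp only [inner_J_self, inner_self_J, inner_JJ, real_inner_self_eq_norm_sq, S.norm_J, e1, e2, e4]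
  field_simp
  ring

theorem ric (S : CStr E) (z v : E) : tr (((fderiv ℝ (chG S) z).flip v).flip v)
      + tr (chG S z (chG S z v v)) - tr (fderiv ℝ (chG S) z v v)
      - tr ((chG S z v).comp (chG S z v))
    = -((Module.finrank ℝ E : ℝ) + 2) * ⟪chA S z v, v⟫_ℝ := by
  have h3 := (U_pos z).ne'
  rw [flip_fderiv_chG, tr_dG, tr_chG, tr_fderiv_chG, tr_chG_sq, inner_chA,
    real_inner_self_eq_norm_sq]
  field_simp
  ring

/-- complex hyperbolic space as `Geo` -/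
def cgeo (S : CStr E) : Geo E where
  A := chA S
  C := chC S
  Γ := chG S
  ρ := fun _ => 1
  R := (Module.finrank ℝ E : ℝ) + 2
  smooth_A := contDiff_chA S
  smooth_C := contDiff_chC S
  smooth_Γ := contDiff_chG S
  smooth_ρ := contDiff_const
  A_symm := chA_symm S
  A_pos := chA_pos S
  AC := chAC S
  Γ_symm := chG_symm S
  compat := compat S
  ρ_pos := fun _ => one_pos
  ρ_deriv := fun z x => by
    rw [tr_chG, mul_zero, fderiv_fun_const]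
    rfl
  ric := ric S

theorem tr_chC (S : CStr E) (z : E) : tr (chC S z)
    = Module.finrank ℝ E + ‖z‖ ^ 2 - (1 + ‖z‖ ^ 2)⁻¹ * ‖z‖ ^ 2 := by
  have e := congrFun (chC_eq S) z
  rw [e]
  change tr (ContinuousLinearMap.id ℝ E + (innerSL ℝ z).smulRight z
    - (1 + ‖z‖ ^ 2)⁻¹ • (innerSL ℝ (S.J z)).smulRight (S.J z)) = _
  rw [tr_sub, tr_add, tr_id, tr_smulRight, tr_smul, tr_smulRight, innerSL_apply_apply,
    innerSL_apply_apply, real_inner_self_eq_norm_sq, real_inner_self_eq_norm_sq, S.norm_J]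

theorem g_cgeo (S : CStr E) (z u v : E) : (cgeo S).g z u v
    = ⟪u, v⟫_ℝ - (1 + ‖z‖ ^ 2)⁻¹ * ⟪z, u⟫_ℝ * ⟪z, v⟫_ℝ + ⟪S.J z, u⟫_ℝ * ⟪S.J z, v⟫_ℝ :=
  inner_chA S z u v

/-- the radial structure -/
def crad (S : CStr E) : Rad (cgeo S) Unit where
  ξ := fun _ z => S.J z
  smooth_ξ := fun _ => S.J.contDiff
  grad_u := fun z v => by
    have h3 := (U_pos z).ne'
    have h4 := (uu_pos z).ne'
    have h5 := uu_sq z
    rw [g_cgeo]
    simp only [real_inner_smul_left, real_inner_smul_right, real_inner_self_eq_norm_sq,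
      inner_J_self]
    rw [← h5]
    field_simp
    rw [h5]
    ring
  hess_u := fun z v => by
    have h3 := (U_pos z).ne'
    have h4 := (uu_pos z).ne'
    have h5 := uu_sq z
    have h6 : HasFDerivAt (fun y : E => uu y • y) (uu z • ContinuousLinearMap.id ℝ E
        + ((uu z)⁻¹ • innerSL ℝ z).smulRight z) z := (hasFDerivAt_uu z).smul (hasFDerivAt_id z)
    have h7 : (cgeo S).nab (fun y => uu y • y) z v
        = uu z • v + ((uu z)⁻¹ * ⟪z, v⟫_ℝ) • z + chG S z v (uu z • z) := by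
      unfold Geo.nab
      rw [h6.fderiv]
      simp [cgeo]
    have h8 : ⟪v, z⟫_ℝ = ⟪z, v⟫_ℝ := real_inner_comm _ _
    rw [h7, chG_apply]
    simp only [Finset.univ_unique, Finset.sum_const, Finset.card_singleton, one_smul, g_cgeo,
      real_inner_smul_right, real_inner_self_eq_norm_sq, inner_J_self, inner_self_J, S.norm_J,
      map_smul, h8]
    rw [← h5]
    have h9 : ‖z‖ ^ 2 = uu z ^ 2 - 1 := by linarith
    match_scalars
    · ring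
    · rw [h9]
      field_simp
      ring
    · rw [h9]
      field_simp
      ring
    · ring
  killing := fun a z v => by
    have h3 := (U_pos z).ne'
    have h7 : (cgeo S).nab (fun y => S.J y) z v = S.J v + chG S z v (S.J z) := by
      unfold Geo.nab
      rw [S.J.hasFDerivAt.fderiv]
      simp [cgeo]
    have h8 : ⟪v, S.J z⟫_ℝ = ⟪S.J z, v⟫_ℝ := real_inner_comm _ _
    have e4 : ⟪z, S.J v⟫_ℝ = -⟪S.J z, v⟫_ℝ := by rw [inner_J, neg_neg]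
    have e5 : ⟪S.J (S.J z), v⟫_ℝ = -⟪z, v⟫_ℝ := by rw [S.JJ, inner_neg_left]
    rw [h7, g_cgeo, inner_add_left, inner_add_right, inner_add_right, inner_chG, inner_z_chG,
      inner_Jz_chG]
    simp only [inner_J_self, inner_self_J, inner_JJ, real_inner_self_eq_norm_sq, S.norm_J, h8, e4,
      e5]
    field_simp
    ring
  ξξ := fun a b z => by
    have h5 := uu_sq z
    have h9 : ‖z‖ ^ 2 = uu z ^ 2 - 1 := by linarith
    rw [g_cgeo, if_pos (Subsingleton.elim a b)]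
    simp only [inner_self_J, real_inner_self_eq_norm_sq, S.norm_J, h9]
    ring
  ξz := fun a z => by
    rw [g_cgeo]
    simp only [inner_self_J, inner_J_self]
    ring
  g_eq := fun z v => by
    have h3 := (U_pos z).ne'
    have h5 := uu_sq z
    have h4 := (uu_pos z).ne'
    have h9 : ‖z‖ ^ 2 = uu z ^ 2 - 1 := by linarith
    simp only [Finset.univ_unique, Finset.sum_const, Finset.card_singleton, one_smul, g_cgeo,
      real_inner_self_eq_norm_sq, inner_self_J, S.norm_J, h9]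
    field_simp
    ring
  tr_C := fun z => by
    have h3 := (U_pos z).ne'
    have h5 := uu_sq z
    have h4 := (uu_pos z).ne'
    have h9 : ‖z‖ ^ 2 = uu z ^ 2 - 1 := by linarith
    rw [show (cgeo S).C z = chC S z from rfl, tr_chC, ← h5, h9, Fintype.card_unit, Nat.cast_one]
    field_simp
    ring
  R_eq := by
    rw [show (cgeo S).R = (Module.finrank ℝ E : ℝ) + 2 from rfl, Fintype.card_unit, Nat.cast_one]
    ring

end trace

end Cx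

/-- T5: the complex model. -/
theorem exists_geo [FiniteDimensional ℝ E] (S : CStr E) (hE : 2 ≤ Module.finrank ℝ E) :
    ∃ G : Geo E, G.A = chA S ∧ G.C = chC S ∧ G.ρ = (fun _ => 1) ∧ Nonempty (Rad G Unit) :=
  ⟨Cx.cgeo S, rfl, rfl, rfl, ⟨Cx.crad S⟩⟩

end

end Pool.Agent.Work.MP_3b24f6_gt
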