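import Pool.Agent.Work.MP_3b24f6_gt.Model

set_option autoImplicit false

open MeasureTheory Set Filter Topology
open scoped ContDiff InnerProductSpace

namespace Pool.Agent.Work.MP_3b24f6_gt

noncomputable section

variable {E : Type*} [NormedAddCommGroup E] [InnerProductSpace ℝ E]

namespace CIso

omit [InnerProductSpace ℝ E] in
theorem uu_sq (z : E) : uu z ^ 2 = 1 + ‖z‖ ^ 2 :=
  Real.sq_sqrt (by positivity)

omit [InnerProductSpace ℝ E] in
theorem one_le_uu (z : E) : 1 ≤ uu z :=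
  Real.one_le_sqrt.mpr (by nlinarith [sq_nonneg ‖z‖])

omit [InnerProductSpace ℝ E] in
theorem uu_pos (z : E) : 0 < uu z := lt_of_lt_of_le one_pos (one_le_uu z)

omit [InnerProductSpace ℝ E] in
@[simp] theorem uu_zero : uu (0 : E) = 1 := by simp [uu]

omit [InnerProductSpace ℝ E] in
@[simp] theorem uu_neg (z : E) : uu (-z) = uu z := by simp [uu]

theorem contDiff_uu : ContDiff ℝ ∞ (uu : E → ℝ) := by
  unfold uu
  refine ContDiff.sqrt (contDiff_const.add (contDiff_norm_sq ℝ)) ?_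
  intro x
  positivity

variable (S : CStr E)

theorem inner_JJ (x y : E) : ⟪S.J x, S.J y⟫_ℝ = ⟪x, y⟫_ℝ := by
  have h1 := norm_add_sq_real (S.J x) (S.J y)
  have h2 := norm_add_sq_real x y
  rw [← map_add, S.norm_J, S.norm_J, S.norm_J] at h1
  linarith

theorem inner_J_left (x y : E) : ⟪S.J x, y⟫_ℝ = -⟪x, S.J y⟫_ℝ := by
  have h := inner_JJ S x (S.J y)
  rw [S.JJ, inner_neg_right] at h
  linarith

theorem inner_J_self (x : E) : ⟪S.J x, x⟫_ℝ = 0 := by
  have h := inner_J_left S x x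
  rw [real_inner_comm x (S.J x)] at h
  rw [real_inner_comm x (S.J x)]
  linarith

theorem inner_self_J (x : E) : ⟪x, S.J x⟫_ℝ = 0 := by
  rw [real_inner_comm]; exact inner_J_self S x

theorem inner_J_swap (x y : E) : ⟪S.J x, y⟫_ℝ = -⟪S.J y, x⟫_ℝ := by
  rw [inner_J_left S x y, real_inner_comm]


/-- inner products of two transvected vectors, real part. -/
theorem inner_tv1_tv1 (p x y : E) : ⟪tv1 S p x, tv1 S p y⟫_ℝ
    = ⟪x, y⟫_ℝ - uu x * uu y + (tva S p x * tva S p y + tvb S p x * tvb S p y) := by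
  have hp : ⟪p, p⟫_ℝ = uu p ^ 2 - 1 := by rw [uu_sq, real_inner_self_eq_norm_sq]; ring
  have hJp : ⟪S.J p, S.J p⟫_ℝ = uu p ^ 2 - 1 := by rw [inner_JJ S]; exact hp
  have h1 : ⟪p, S.J p⟫_ℝ = 0 := inner_self_J S p
  have h2 : ⟪S.J p, p⟫_ℝ = 0 := inner_J_self S p
  have hu : uu p + 1 ≠ 0 := by have := uu_pos p; positivity
  unfold tv1 tva tvb
  simp only [inner_add_left, inner_add_right, real_inner_smul_left, real_inner_smul_right,
    hp, hJp, h1, h2, real_inner_comm p x, real_inner_comm (S.J p) x]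
  field_simp
  ring

/-- inner products of two transvected vectors, imaginary part. -/
theorem inner_J_tv1_tv1 (p x y : E) : ⟪S.J (tv1 S p y), tv1 S p x⟫_ℝ
    = ⟪S.J y, x⟫_ℝ + (tvb S p x * tva S p y - tva S p x * tvb S p y) := by
  have hp : ⟪p, p⟫_ℝ = uu p ^ 2 - 1 := by rw [uu_sq, real_inner_self_eq_norm_sq]; ring
  have hJp : ⟪S.J p, S.J p⟫_ℝ = uu p ^ 2 - 1 := by rw [inner_JJ S]; exact hp
  have h1 : ⟪p, S.J p⟫_ℝ = 0 := inner_self_J S p
  have h2 : ⟪S.J p, p⟫_ℝ = 0 := inner_J_self S p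
  have h3 : ⟪S.J y, p⟫_ℝ = -⟪S.J p, y⟫_ℝ := inner_J_swap S y p
  have h4 : ⟪S.J y, S.J p⟫_ℝ = ⟪p, y⟫_ℝ := by rw [inner_JJ S, real_inner_comm]
  have hu : uu p + 1 ≠ 0 := by have := uu_pos p; positivity
  unfold tv1 tva tvb
  simp only [map_add, map_smul, S.JJ, inner_add_left, inner_add_right, real_inner_smul_left,
    real_inner_smul_right, hp, hJp, h1, h2, h3, h4, inner_neg_left, smul_neg]
  field_simp
  ring

theorem norm_tv1_sq (p y : E) : ‖tv1 S p y‖ ^ 2 = tva S p y ^ 2 + tvb S p y ^ 2 - 1 := by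
  have h := inner_tv1_tv1 S p y y
  rw [real_inner_self_eq_norm_sq, real_inner_self_eq_norm_sq] at h
  have h2 := uu_sq y
  nlinarith

theorem one_le_tvab (p y : E) : 1 ≤ tva S p y ^ 2 + tvb S p y ^ 2 := by
  have := norm_tv1_sq S p y
  nlinarith [sq_nonneg ‖tv1 S p y‖]

theorem norm_rot_sq (a b : ℝ) (w : E) : ‖a • w - b • S.J w‖ ^ 2 = (a ^ 2 + b ^ 2) * ‖w‖ ^ 2 := by
  rw [norm_sub_sq_real, norm_smul, norm_smul, S.norm_J, real_inner_smul_left,
    real_inner_smul_right, inner_self_J S]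
  simp only [Real.norm_eq_abs, mul_pow, sq_abs]
  ring

theorem norm_phi_sq (p y : E) : ‖phi S p y‖ ^ 2 = tva S p y ^ 2 + tvb S p y ^ 2 - 1 := by
  have h1 := one_le_tvab S p y
  have h0 : 0 < tva S p y ^ 2 + tvb S p y ^ 2 := by linarith
  unfold phi
  rw [norm_smul, mul_pow, norm_rot_sq, norm_tv1_sq, Real.norm_eq_abs, sq_abs, inv_pow,
    Real.sq_sqrt h0.le]
  field_simp

/-- `cosh` of the distance of `phi p y` to the origin. -/
theorem uu_phi (p y : E) : uu (phi S p y) = Real.sqrt (tva S p y ^ 2 + tvb S p y ^ 2) := by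
  unfold uu
  rw [norm_phi_sq]
  congr 1
  ring

end CIso

open CIso

variable (S : CStr E)

theorem phi_zero (p : E) : phi S p 0 = p := by
  have hu := uu_pos p
  unfold phi tv1 tva tvb
  simp only [inner_zero_right, zero_div, uu_zero, zero_add, one_smul, mul_one, zero_smul,
    add_zero, sub_zero]
  rw [show uu p ^ 2 + (0 : ℝ) ^ 2 = uu p ^ 2 by ring, Real.sqrt_sq hu.le, smul_smul,
    inv_mul_cancel₀ hu.ne', one_smul]

theorem phi_neg (p y : E) : phi S (-p) (phi S p y) = y := by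
  have hu : uu p + 1 ≠ 0 := by have := uu_pos p; positivity
  have hv := uu_pos y
  set a := tva S p y with ha
  set b := tvb S p y with hb
  have h1 : 1 ≤ a ^ 2 + b ^ 2 := one_le_tvab S p y
  set c := Real.sqrt (a ^ 2 + b ^ 2) with hc
  have hc0 : 0 < c := Real.sqrt_pos.mpr (by linarith)
  have hcc : c ^ 2 = a ^ 2 + b ^ 2 := Real.sq_sqrt (by linarith)
  set t := tv1 S p y with ht
  have hphi : phi S p y = c⁻¹ • (a • t - b • S.J t) := rfl
  have huphi : uu (phi S p y) = c := uu_phi S p y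
  have hp : ⟪p, p⟫_ℝ = uu p ^ 2 - 1 := by rw [uu_sq, real_inner_self_eq_norm_sq]; ring
  have hJp : ⟪S.J p, S.J p⟫_ℝ = uu p ^ 2 - 1 := by rw [inner_JJ S]; exact hp
  have hP : ⟪p, y⟫_ℝ = a - uu p * uu y := by rw [ha]; unfold tva; ring
  have hQ : ⟪S.J p, y⟫_ℝ = b := by rw [hb]; rfl
  have hpt : ⟪p, t⟫_ℝ = uu p * a - uu y := by
    rw [ht]; unfold tv1
    simp only [inner_add_right, real_inner_smul_right, hp, inner_self_J S, hP, hQ]
    field_simp
    ring
  have hJpt : ⟪S.J p, t⟫_ℝ = uu p * b := by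
    rw [ht]; unfold tv1
    simp only [inner_add_right, real_inner_smul_right, hJp, inner_J_self S, hP, hQ]
    field_simp
    ring
  have hpJt : ⟪p, S.J t⟫_ℝ = -(uu p * b) := by
    have := inner_J_left S p t
    linarith
  have hJpJt : ⟪S.J p, S.J t⟫_ℝ = uu p * a - uu y := by rw [inner_JJ S]; exact hpt
  have hpphi : ⟪p, phi S p y⟫_ℝ = uu p * c - uu y * a / c := by
    rw [hphi, real_inner_smul_right, inner_sub_right, real_inner_smul_right,
      real_inner_smul_right, hpt, hpJt]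
    field_simp
    rw [hcc]; ring
  have hJpphi : ⟪S.J p, phi S p y⟫_ℝ = uu y * b / c := by
    rw [hphi, real_inner_smul_right, inner_sub_right, real_inner_smul_right,
      real_inner_smul_right, hJpt, hJpJt]
    field_simp
    ring
  have htva : tva S (-p) (phi S p y) = uu y * a / c := by
    unfold tva
    rw [inner_neg_left, hpphi, uu_neg, huphi]; ring
  have htvb : tvb S (-p) (phi S p y) = -(uu y * b / c) := by
    unfold tvb
    rw [map_neg, inner_neg_left, hJpphi]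
  have htv1 : tv1 S (-p) (phi S p y) = c⁻¹ • (a • y - b • S.J y) := by
    unfold tv1
    rw [map_neg, inner_neg_left, inner_neg_left, hpphi, hJpphi, uu_neg, huphi, hphi, ht]
    unfold tv1
    simp only [map_add, map_smul, S.JJ, hP, hQ, smul_add, smul_sub, smul_smul, smul_neg]
    match_scalars
    · ring
    · field_simp
      linear_combination (-1 : ℝ) * hcc
    · field_simp
      ring
    · ring
  have hfin : phi S (-p) (phi S p y) = (Real.sqrt ((tva S (-p) (phi S p y)) ^ 2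
      + (tvb S (-p) (phi S p y)) ^ 2))⁻¹ • (tva S (-p) (phi S p y) • tv1 S (-p) (phi S p y)
      - tvb S (-p) (phi S p y) • S.J (tv1 S (-p) (phi S p y))) := rfl
  rw [hfin, htva, htvb, htv1]
  have hs : Real.sqrt ((uu y * a / c) ^ 2 + (-(uu y * b / c)) ^ 2) = uu y := by
    have : (uu y * a / c) ^ 2 + (-(uu y * b / c)) ^ 2 = uu y ^ 2 := by
      field_simp
      rw [hcc]
    rw [this, Real.sqrt_sq hv.le]
  rw [hs]
  simp only [map_sub, map_smul, S.JJ, smul_sub, smul_smul, smul_neg]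
  match_scalars
  · field_simp
    linear_combination (-1 : ℝ) * hcc
  · field_simp
    ring

namespace CIso

theorem contDiff_inner_left (q : E) : ContDiff ℝ ∞ (fun y : E => ⟪q, y⟫_ℝ) :=
  (innerSL ℝ q).contDiff

theorem contDiff_tva (p : E) : ContDiff ℝ ∞ (tva S p) :=
  (contDiff_inner_left p).add (contDiff_const.mul contDiff_uu)

theorem contDiff_tvb (p : E) : ContDiff ℝ ∞ (tvb S p) := contDiff_inner_left (S.J p)

theorem contDiff_tv1 (p : E) : ContDiff ℝ ∞ (tv1 S p) :=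
  (contDiff_id.add ((((contDiff_inner_left p).div_const _).add contDiff_uu).smul
    contDiff_const)).add (((contDiff_inner_left (S.J p)).div_const _).smul contDiff_const)

theorem contDiff_sqrt_tvab (p : E) :
    ContDiff ℝ ∞ (fun y => Real.sqrt (tva S p y ^ 2 + tvb S p y ^ 2)) := by
  refine ContDiff.sqrt (((contDiff_tva S p).pow 2).add ((contDiff_tvb S p).pow 2)) (fun y => ?_)
  have := one_le_tvab S p y
  positivity

end CIso

theorem contDiff_phi (p : E) : ContDiff ℝ ∞ (phi S p) := by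
  have h1 := contDiff_sqrt_tvab S p
  have h2 : ContDiff ℝ ∞ (fun y => (Real.sqrt (tva S p y ^ 2 + tvb S p y ^ 2))⁻¹) := by
    refine h1.inv (fun y => ?_)
    have := one_le_tvab S p y
    exact (Real.sqrt_pos.mpr (by linarith)).ne'
  exact h2.smul (((contDiff_tva S p).smul (contDiff_tv1 S p)).sub
    ((contDiff_tvb S p).smul (S.J.contDiff.comp (contDiff_tv1 S p))))

theorem CIso.chd_sq_eq (x y : E) :
    chd S x y ^ 2 = (uu x * uu y - ⟪x, y⟫_ℝ) ^ 2 + ⟪S.J x, y⟫_ℝ ^ 2 := by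
  unfold chd
  exact Real.sq_sqrt (by positivity)

theorem chd_phi (p x y : E) : chd S (phi S p x) (phi S p y) = chd S x y := by
  unfold chd
  congr 1
  set a := tva S p x with ha
  set b := tvb S p x with hb
  set a' := tva S p y with ha'
  set b' := tvb S p y with hb'
  have h1 : 1 ≤ a ^ 2 + b ^ 2 := one_le_tvab S p x
  have h1' : 1 ≤ a' ^ 2 + b' ^ 2 := one_le_tvab S p y
  have huc : uu (phi S p x) = Real.sqrt (a ^ 2 + b ^ 2) := uu_phi S p x
  have huc' : uu (phi S p y) = Real.sqrt (a' ^ 2 + b' ^ 2) := uu_phi S p y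
  set c := Real.sqrt (a ^ 2 + b ^ 2) with hc
  set c' := Real.sqrt (a' ^ 2 + b' ^ 2) with hc'
  have hc0 : 0 < c := Real.sqrt_pos.mpr (by linarith)
  have hc0' : 0 < c' := Real.sqrt_pos.mpr (by linarith)
  have hcc : c ^ 2 = a ^ 2 + b ^ 2 := Real.sq_sqrt (by linarith)
  have hcc' : c' ^ 2 = a' ^ 2 + b' ^ 2 := Real.sq_sqrt (by linarith)
  set t := tv1 S p x with ht
  set t' := tv1 S p y with ht'
  have hphi : phi S p x = c⁻¹ • (a • t - b • S.J t) := rfl
  have hphi' : phi S p y = c'⁻¹ • (a' • t' - b' • S.J t') := rfl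
  have hr : ⟪t, t'⟫_ℝ = ⟪x, y⟫_ℝ - uu x * uu y + (a * a' + b * b') := inner_tv1_tv1 S p x y
  have hj : ⟪S.J t', t⟫_ℝ = ⟪S.J y, x⟫_ℝ + (b * a' - a * b') := inner_J_tv1_tv1 S p x y
  have hj2 : ⟪t, S.J t'⟫_ℝ = -⟪S.J x, y⟫_ℝ + (b * a' - a * b') := by
    rw [real_inner_comm, hj, inner_J_swap S y x]
  have hj3 : ⟪S.J t, t'⟫_ℝ = ⟪S.J x, y⟫_ℝ - (b * a' - a * b') := by
    rw [inner_J_left S, hj2]; ring
  have hj4 : ⟪S.J t, S.J t'⟫_ℝ = ⟪x, y⟫_ℝ - uu x * uu y + (a * a' + b * b') := by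
    rw [inner_JJ S, hr]
  have e1 : ⟪phi S p x, phi S p y⟫_ℝ = (c * c')⁻¹ * ((a * a' + b * b') * (⟪x, y⟫_ℝ - uu x * uu y
      + (a * a' + b * b')) - (a * b' - b * a') * (-⟪S.J x, y⟫_ℝ + (b * a' - a * b'))) := by
    rw [hphi, hphi']
    simp only [real_inner_smul_left, real_inner_smul_right, inner_sub_left, inner_sub_right,
      hr, hj2, hj3, hj4]
    field_simp
    ring
  have e2 : ⟪S.J (phi S p x), phi S p y⟫_ℝ = (c * c')⁻¹ * ((a * a' + b * b') * ⟪S.J x, y⟫_ℝ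
      - (a * b' - b * a') * (⟪x, y⟫_ℝ - uu x * uu y)) := by
    rw [hphi, hphi']
    simp only [map_smul, map_sub, S.JJ, real_inner_smul_left, real_inner_smul_right,
      inner_sub_left, inner_sub_right, inner_neg_left, hr, hj2, hj3, hj4]
    field_simp
    ring
  rw [e1, e2, huc, huc']
  have hA : (a * a' + b * b') ^ 2 + (a * b' - b * a') ^ 2 = c ^ 2 * c' ^ 2 := by
    rw [hcc, hcc']; ring
  have e3 : c * c' - (c * c')⁻¹ * ((a * a' + b * b') * (⟪x, y⟫_ℝ - uu x * uu y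
      + (a * a' + b * b')) - (a * b' - b * a') * (-⟪S.J x, y⟫_ℝ + (b * a' - a * b')))
      = (c * c')⁻¹ * ((a * a' + b * b') * (uu x * uu y - ⟪x, y⟫_ℝ)
        - (a * b' - b * a') * ⟪S.J x, y⟫_ℝ) := by
    field_simp
    linear_combination (-1 : ℝ) * hA
  rw [e3]
  field_simp
  linear_combination ((uu x * uu y - ⟪x, y⟫_ℝ) ^ 2 + ⟪S.J x, y⟫_ℝ ^ 2) * hA

/-- exact formula, gives the isometry property by looking at `x = y + t v`, `t → 0`. -/
theorem chd_sq (x y : E) : chd S x y ^ 2 = 1 + (‖x - y‖ ^ 2 - (uu x - uu y) ^ 2)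
    + ⟪x - y, S.J y⟫_ℝ ^ 2 + (‖x - y‖ ^ 2 - (uu x - uu y) ^ 2) ^ 2 / 4 := by
  rw [chd_sq_eq, norm_sub_sq_real, inner_sub_left, inner_self_J S, inner_J_left S x y]
  have h1 := uu_sq x
  have h2 := uu_sq y
  have h3 : ‖x‖ ^ 2 - 2 * ⟪x, y⟫_ℝ + ‖y‖ ^ 2 - (uu x - uu y) ^ 2
      = 2 * (uu x * uu y - ⟪x, y⟫_ℝ) - 2 := by
    nlinarith
  rw [h3]
  ring

end

end Pool.Agent.Work.MP_3b24f6_gt
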