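import Pool.Agent.Work.MP_3b24f6_gt.ComplexIso

set_option autoImplicit false

open MeasureTheory Set Filter Topology
open scoped ContDiff InnerProductSpace

namespace Pool.Agent.Work.MP_3b24f6_gt

noncomputable section

namespace CIso

variable {E : Type*} [NormedAddCommGroup E] [InnerProductSpace ℝ E]
variable (S : CStr E)

theorem chA_apply (z v : E) : chA S z v
    = v - (uu z ^ 2)⁻¹ • (⟪z, v⟫_ℝ • z) + ⟪S.J z, v⟫_ℝ • S.J z := by
  simp [chA]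

/-- The metric of complex hyperbolic space in the chart. -/
theorem chA_inner (z u v : E) : ⟪chA S z u, v⟫_ℝ
    = ⟪u, v⟫_ℝ - (uu z ^ 2)⁻¹ * (⟪z, u⟫_ℝ * ⟪z, v⟫_ℝ) + ⟪S.J z, u⟫_ℝ * ⟪S.J z, v⟫_ℝ := by
  rw [chA_apply]
  simp only [inner_add_left, inner_sub_left, real_inner_smul_left]

theorem inner_sq_le (z v : E) : ⟪z, v⟫_ℝ ^ 2 ≤ ‖z‖ ^ 2 * ‖v‖ ^ 2 := by
  have h := abs_real_inner_le_norm z v
  calc ⟪z, v⟫_ℝ ^ 2 = |⟪z, v⟫_ℝ| ^ 2 := (sq_abs _).symm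
    _ ≤ (‖z‖ * ‖v‖) ^ 2 := pow_le_pow_left₀ (abs_nonneg _) h 2
    _ = _ := by ring

theorem chA_self_nonneg (z v : E) : 0 ≤ ⟪chA S z v, v⟫_ℝ := by
  rw [chA_inner, real_inner_self_eq_norm_sq]
  have h1 := inner_sq_le z v
  have h2 := uu_sq z
  have h3 : (0 : ℝ) < uu z ^ 2 := by have := uu_pos z; positivity
  have h4 : (uu z ^ 2)⁻¹ * (⟪z, v⟫_ℝ * ⟪z, v⟫_ℝ) ≤ ‖v‖ ^ 2 := by
    rw [inv_mul_le_iff₀ h3, h2]
    nlinarith [sq_nonneg ‖v‖]
  nlinarith [mul_self_nonneg ⟪S.J z, v⟫_ℝ]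

end CIso

open CIso

variable {E : Type*} [NormedAddCommGroup E] [InnerProductSpace ℝ E] [FiniteDimensional ℝ E]

theorem contract_complex (S : CStr E) (hE : 2 ≤ Module.finrank ℝ E) (G : Geo E)
    (hA : G.A = chA S) (hρ : G.ρ = fun _ => 1) : Contract G := by
  intro θ hθ y v
  have hθ0 : 0 < θ := hθ.1
  have hθ1 : θ ≤ 1 := hθ.2
  unfold Geo.g
  rw [hA, hρ]
  simp only [mul_one, div_one]
  have hpow : (θ ^ (Module.finrank ℝ E - 1)) ^ 2 ≤ θ ^ 2 := by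
    have h1 : θ ^ (Module.finrank ℝ E - 1) ≤ θ ^ 1 :=
      pow_le_pow_of_le_one hθ0.le hθ1 (by omega)
    rw [pow_one] at h1
    exact pow_le_pow_left₀ (by positivity) h1 2
  have hnn := chA_self_nonneg S y v
  refine (mul_le_mul_of_nonneg_right hpow hnn).trans ?_
  rw [chA_inner, chA_inner, real_inner_self_eq_norm_sq, uu_sq, uu_sq, norm_smul,
    map_smul, real_inner_smul_left, real_inner_smul_left, Real.norm_eq_abs, mul_pow, sq_abs]
  set P := ⟪y, v⟫_ℝ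
  set Q := ⟪S.J y, v⟫_ℝ
  set Y := ‖y‖ ^ 2 with hY
  set V := ‖v‖ ^ 2 with hV
  have hY0 : 0 ≤ Y := by positivity
  have hV0 : 0 ≤ V := by positivity
  have hPP : P ^ 2 ≤ Y * V := inner_sq_le y v
  have ht0 : 0 < θ ^ 2 := by positivity
  have ht1 : θ ^ 2 ≤ 1 := pow_le_one₀ hθ0.le hθ1
  set T := θ ^ 2 with hT
  have key : T * P ^ 2 * ((1 + T * Y)⁻¹ - (1 + Y)⁻¹) ≤ (1 - T) * V := by
    have e : (1 + T * Y)⁻¹ - (1 + Y)⁻¹ = (1 - T) * Y / ((1 + T * Y) * (1 + Y)) := by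
      field_simp
      ring
    rw [e, mul_div_assoc', div_le_iff₀ (by positivity)]
    have h1 : T * P ^ 2 * ((1 - T) * Y) ≤ T * (Y * V) * ((1 - T) * Y) := by
      apply mul_le_mul_of_nonneg_right _ (mul_nonneg (by linarith) hY0)
      exact mul_le_mul_of_nonneg_left hPP ht0.le
    refine h1.trans ?_
    have h2 : T * (Y * V) * ((1 - T) * Y) = (1 - T) * V * (T * Y * Y) := by ring
    rw [h2]
    apply mul_le_mul_of_nonneg_left _ (mul_nonneg (by linarith) hV0)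
    nlinarith [mul_nonneg ht0.le hY0]
  nlinarith [key]

end

end Pool.Agent.Work.MP_3b24f6_gt
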