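import Pool.Agent.Work.MP_3b24f6_gt.Model

set_option autoImplicit false

open MeasureTheory Set Filter Topology
open scoped ContDiff InnerProductSpace

namespace Pool.Agent.Work.MP_3b24f6_gt

noncomputable section

set_option linter.unusedSectionVars false

variable {E : Type*} [NormedAddCommGroup E] [InnerProductSpace ℝ E] [FiniteDimensional ℝ E]

namespace CsT

theorem tr_add (S T : E →L[ℝ] E) : tr (S + T) = tr S + tr T := by
  simp [tr]

theorem tr_sub (S T : E →L[ℝ] E) : tr (S - T) = tr S - tr T := by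
  simp [tr]

theorem tr_smul (c : ℝ) (T : E →L[ℝ] E) : tr (c • T) = c * tr T := by
  simp [tr]

theorem tr_sum {ι : Type*} (s : Finset ι) (f : ι → E →L[ℝ] E) :
    tr (∑ a ∈ s, f a) = ∑ a ∈ s, tr (f a) := by
  simp [tr]

theorem tr_comp_comm (S T : E →L[ℝ] E) : tr (S.comp T) = tr (T.comp S) := by
  simp only [tr, ContinuousLinearMap.toLinearMap_comp]
  exact LinearMap.trace_comp_comm' _ _

theorem tr_smulRight (f : E →L[ℝ] ℝ) (x : E) : tr (f.smulRight x) = f x := by
  have h := LinearMap.trace_smulRight (f : E →ₗ[ℝ] ℝ) x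
  have h2 : ((f.smulRight x : E →L[ℝ] E) : E →ₗ[ℝ] E) = (f : E →ₗ[ℝ] ℝ).smulRight x := by
    ext v; simp
  rw [tr, h2, h]; rfl

theorem tr_id : tr (ContinuousLinearMap.id ℝ E) = Module.finrank ℝ E := by
  simp [tr]

variable (G : Geo E)

theorem g_symm (z u v : E) : G.g z u v = G.g z v u := by
  unfold Geo.g
  rw [G.A_symm, real_inner_comm]

theorem g_add_left (z u v x : E) : G.g z (u + v) x = G.g z u x + G.g z v x := by
  simp [Geo.g, inner_add_left]

theorem g_add_right (z u v x : E) : G.g z x (u + v) = G.g z x u + G.g z x v := by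
  simp [Geo.g, inner_add_right]

theorem g_smul_left (z u x : E) (c : ℝ) : G.g z (c • u) x = c * G.g z u x := by
  simp [Geo.g, inner_smul_left]

theorem g_smul_right (z u x : E) (c : ℝ) : G.g z x (c • u) = c * G.g z x u := by
  simp [Geo.g, inner_smul_right]

theorem g_sub_left (z u v x : E) : G.g z (u - v) x = G.g z u x - G.g z v x := by
  simp [Geo.g, inner_sub_left]

theorem g_sub_right (z u v x : E) : G.g z x (u - v) = G.g z x u - G.g z x v := by
  simp [Geo.g, inner_sub_right]

theorem g_nonneg (z u : E) : 0 ≤ G.g z u u := by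
  by_cases h : u = 0
  · simp [Geo.g, h]
  · exact (G.A_pos z u h).le

/-- A `g`-symmetric endomorphism has nonnegative squared trace. -/
theorem tr_sq_nonneg_of_symm (z : E) (S : E →L[ℝ] E)
    (hS : ∀ u v, G.g z (S u) v = G.g z (S v) u) : 0 ≤ tr (S.comp S) := by
  have hA : ((G.A z : E →L[ℝ] E) : E →ₗ[ℝ] E).IsSymmetric := fun u v => G.A_symm z u v
  set b := hA.eigenvectorBasis (rfl : Module.finrank ℝ E = Module.finrank ℝ E) with hb
  set a := hA.eigenvalues (rfl : Module.finrank ℝ E = Module.finrank ℝ E) with ha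
  have hab : ∀ i, G.A z (b i) = a i • b i := by
    intro i
    have := hA.apply_eigenvectorBasis (rfl : Module.finrank ℝ E = Module.finrank ℝ E) i
    exact this
  have hpos : ∀ i, 0 < a i := by
    intro i
    have hne : b i ≠ 0 := b.orthonormal.ne_zero i
    have h1 := G.A_pos z (b i) hne
    rw [hab i, inner_smul_left] at h1
    have h2 : ⟪b i, b i⟫_ℝ = 1 := by
      rw [real_inner_self_eq_norm_sq, b.orthonormal.1 i]; norm_num
    rw [h2] at h1
    simpa using h1
  have htr : tr (S.comp S) = ∑ i, ⟪b i, S (S (b i))⟫_ℝ := by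
    rw [tr, LinearMap.trace_eq_sum_inner _ b]
    rfl
  rw [htr]
  refine Finset.sum_nonneg fun i _ => ?_
  have h3 : a i * ⟪b i, S (S (b i))⟫_ℝ = G.g z (S (b i)) (S (b i)) := by
    have : a i * ⟪b i, S (S (b i))⟫_ℝ = G.g z (b i) (S (S (b i))) := by
      unfold Geo.g
      rw [hab i, inner_smul_left]; simp
    rw [this, g_symm, hS, g_symm]
  have h4 := g_nonneg G z (S (b i))
  rw [← h3] at h4
  exact nonneg_of_mul_nonneg_right h4 (hpos i)

/-- The functional `g(u, ·)`. -/
def gl (z u : E) : E →L[ℝ] ℝ := innerSL ℝ (G.A z u)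

theorem gl_apply (z u v : E) : gl G z u v = G.g z u v := rfl

/-- Projection on the orthogonal complement of the unit vector `N`. -/
def Pi (z N : E) : E →L[ℝ] E := ContinuousLinearMap.id ℝ E - (gl G z N).smulRight N

theorem Pi_apply (z N v : E) : Pi G z N v = v - G.g z N v • N := rfl

theorem Pi_of_orth (z N v : E) (h : G.g z N v = 0) : Pi G z N v = v := by
  rw [Pi_apply, h, zero_smul, sub_zero]

theorem orth_Pi (z N v : E) (hN : G.g z N N = 1) : G.g z N (Pi G z N v) = 0 := by
  rw [Pi_apply, g_sub_right, g_smul_right, hN]; ring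

theorem tr_sq_nonneg (z N : E) (S : E →L[ℝ] E) (hN : G.g z N N = 1)
    (hSN : ∀ v, G.g z N (S v) = 0)
    (hS : ∀ u v, G.g z N u = 0 → G.g z N v = 0 → G.g z (S u) v = G.g z (S v) u) :
    0 ≤ tr (S.comp S) := by
  have hPS : (Pi G z N).comp S = S := by
    ext v
    exact Pi_of_orth G z N _ (hSN v)
  have hsym : ∀ u v, G.g z ((S.comp (Pi G z N)) u) v = G.g z ((S.comp (Pi G z N)) v) u := by
    intro u v
    have e : ∀ u v, G.g z (S (Pi G z N u)) v = G.g z (S (Pi G z N u)) (Pi G z N v) := by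
      intro u v
      rw [Pi_apply G z N v, g_sub_right, g_smul_right, g_symm G z (S _) N, hSN]; ring
    show G.g z (S (Pi G z N u)) v = G.g z (S (Pi G z N v)) u
    rw [e u v, e v u]
    exact hS _ _ (orth_Pi G z N u hN) (orth_Pi G z N v hN)
  have h := tr_sq_nonneg_of_symm G z (S.comp (Pi G z N)) hsym
  have h2 : (S.comp (Pi G z N)).comp (S.comp (Pi G z N)) = (S.comp S).comp (Pi G z N) := by
    rw [ContinuousLinearMap.comp_assoc, ← ContinuousLinearMap.comp_assoc (Pi G z N) S, hPS,
      ← ContinuousLinearMap.comp_assoc]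
  rw [h2, tr_comp_comm, ← ContinuousLinearMap.comp_assoc, hPS] at h
  exact h

end CsT

open CsT

/-- Cauchy-Schwarz with the comparison tensor `∑ T_a ⊗ T_a` (pure linear algebra at one point):
`L = ∇N`, `N` unit, `T a` tangent, `H = tr L`, `m = dim E - 1`. -/
theorem cs_tensor (G : Geo E) {ι : Type} [Fintype ι] (z : E) (L : E →L[ℝ] E) (N : E) (T : ι → E)
    (hN : G.g z N N = 1) (hLN : ∀ v, G.g z (L v) N = 0)
    (hL : ∀ u v, G.g z N u = 0 → G.g z N v = 0 → G.g z (L u) v = G.g z (L v) u)
    (hT : ∀ a, G.g z N (T a) = 0) (κ m : ℝ) (hm : m = Module.finrank ℝ E - 1) (hm0 : 0 < m) :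
    tr L ^ 2 / m + 2 * κ * (∑ a, G.g z (L (T a)) (T a) - tr L / m * ∑ a, G.g z (T a) (T a))
      - κ ^ 2 * (∑ a, ∑ b, G.g z (T a) (T b) ^ 2 - (∑ a, G.g z (T a) (T a)) ^ 2 / m)
      ≤ tr (L.comp L) := by
  set B : E →L[ℝ] E := κ • ∑ a, (gl G z (T a)).smulRight (T a) with hB
  have hBv : ∀ v, B v = κ • ∑ a, G.g z (T a) v • T a := by
    intro v
    simp [hB, gl_apply]
  set l : ℝ := (tr L - tr B) / m with hl
  set P := Pi G z N with hP
  set S : E →L[ℝ] E := L - B - l • P with hSdef
  have hLN' : ∀ v, G.g z N (L v) = 0 := fun v => by rw [g_symm]; exact hLN v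
  have hBN : ∀ v, G.g z N (B v) = 0 := by
    intro v
    rw [hBv, g_smul_right]
    have : G.g z N (∑ a, G.g z (T a) v • T a) = ∑ a, G.g z (T a) v * G.g z N (T a) := by
      simp [Geo.g, inner_sum, inner_smul_right]
    rw [this]
    simp [hT]
  have hSN : ∀ v, G.g z N (S v) = 0 := by
    intro v
    have : S v = L v - B v - l • P v := rfl
    rw [this, g_sub_right, g_sub_right, g_smul_right, hLN', hBN, hP, orth_Pi G z N v hN]; ring
  have hBsym : ∀ u v, G.g z (B u) v = G.g z (B v) u := by
    intro u v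
    rw [hBv, hBv, g_smul_left, g_smul_left]
    have e : ∀ u v, G.g z (∑ a, G.g z (T a) u • T a) v = ∑ a, G.g z (T a) u * G.g z (T a) v := by
      intro u v
      simp [Geo.g, sum_inner, inner_smul_left]
    rw [e, e]
    congr 1
    exact Finset.sum_congr rfl fun a _ => mul_comm _ _
  have hSsym : ∀ u v, G.g z N u = 0 → G.g z N v = 0 → G.g z (S u) v = G.g z (S v) u := by
    intro u v hu hv
    have e1 : S u = L u - B u - l • P u := rfl
    have e2 : S v = L v - B v - l • P v := rfl
    rw [e1, e2, hP, Pi_of_orth G z N u hu, Pi_of_orth G z N v hv]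
    simp only [g_sub_left, g_smul_left]
    rw [hL u v hu hv, hBsym u v, g_symm G z u v]
  have hnn := tr_sq_nonneg G z N S hN hSN hSsym
  have hPL : P.comp L = L := by
    ext v; exact Pi_of_orth G z N _ (hLN' v)
  have hPB : P.comp B = B := by
    ext v; exact Pi_of_orth G z N _ (hBN v)
  have hPP : P.comp P = P := by
    ext v; exact Pi_of_orth G z N _ (orth_Pi G z N v hN)
  have hBP : tr (B.comp P) = tr B := by rw [tr_comp_comm, hPB]
  have hLP : tr (L.comp P) = tr L := by rw [tr_comp_comm, hPL]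
  have hexp : S.comp S = L.comp L - L.comp B - l • L.comp P - B.comp L + B.comp B
      + l • B.comp P - l • P.comp L + l • P.comp B + (l * l) • P.comp P := by
    ext v
    simp only [hSdef, ContinuousLinearMap.comp_apply, sub_apply,
      smul_apply, add_apply, map_sub, map_smul,
      smul_sub, mul_smul]
    abel
  have htrP : tr P = m := by
    rw [hP, Pi, tr_sub, tr_id, tr_smulRight, gl_apply, hN, hm]
  have htrLB : tr (L.comp B) = κ * ∑ a, G.g z (L (T a)) (T a) := by
    have : L.comp B = κ • ∑ a, (gl G z (T a)).smulRight (L (T a)) := by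
      ext v
      simp [hBv, gl_apply, map_sum]
    rw [this, tr_smul, tr_sum]
    congr 1
    refine Finset.sum_congr rfl fun a _ => ?_
    rw [tr_smulRight, gl_apply, g_symm]
  have htrB : tr B = κ * ∑ a, G.g z (T a) (T a) := by
    rw [hB, tr_smul, tr_sum]
    congr 1
    refine Finset.sum_congr rfl fun a _ => ?_
    rw [tr_smulRight, gl_apply]
  have htrBB : tr (B.comp B) = κ ^ 2 * ∑ a, ∑ b, G.g z (T a) (T b) ^ 2 := by
    have : B.comp B = (κ ^ 2) • ∑ a, ∑ b, G.g z (T a) (T b) • (gl G z (T b)).smulRight (T a) := by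
      ext v
      simp only [ContinuousLinearMap.comp_apply, smul_apply,
        sum_apply, ContinuousLinearMap.smulRight_apply, gl_apply]
      rw [hBv (B v)]
      have e : ∀ a, G.g z (T a) (B v) = κ * ∑ b, G.g z (T b) v * G.g z (T a) (T b) := by
        intro a
        rw [hBv, g_smul_right]
        congr 1
        simp [Geo.g, inner_sum, inner_smul_right]
      simp only [e]
      rw [pow_two, mul_smul]
      congr 1
      rw [Finset.smul_sum]
      refine Finset.sum_congr rfl fun a _ => ?_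
      rw [mul_smul, Finset.sum_smul]
      congr 1
      refine Finset.sum_congr rfl fun b _ => ?_
      rw [smul_smul, mul_comm]
    rw [this, tr_smul, tr_sum]
    congr 1
    refine Finset.sum_congr rfl fun a _ => ?_
    rw [tr_sum]
    refine Finset.sum_congr rfl fun b _ => ?_
    rw [tr_smul, tr_smulRight, gl_apply, g_symm G z (T b) (T a), pow_two]
  rw [hexp] at hnn
  simp only [tr_add, tr_sub, tr_smul] at hnn
  rw [hPL, hPB, hPP, hBP, hLP, tr_comp_comm B L, htrLB, htrBB, htrP] at hnn
  have hl' : l * m = tr L - tr B := by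
    rw [hl]; field_simp
  have key : tr (L.comp L) - 2 * (κ * ∑ a, G.g z (L (T a)) (T a))
      + κ ^ 2 * ∑ a, ∑ b, G.g z (T a) (T b) ^ 2 - (tr L - tr B) ^ 2 / m ≥ 0 := by
    have e : (tr L - tr B) ^ 2 / m = l * (tr L - tr B) := by
      rw [hl]; field_simp
    have e2 : l * l * m = l * (tr L - tr B) := by rw [mul_assoc, hl']
    rw [e2] at hnn
    rw [e]
    linarith
  rw [htrB] at key
  have e3 : (tr L - κ * ∑ a, G.g z (T a) (T a)) ^ 2 / m
      = tr L ^ 2 / m - 2 * κ * (tr L / m * ∑ a, G.g z (T a) (T a))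
        + κ ^ 2 * ((∑ a, G.g z (T a) (T a)) ^ 2 / m) := by
    field_simp
    ring
  rw [e3] at key
  linarith

end

end Pool.Agent.Work.MP_3b24f6_gt
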