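import Mathlib

set_option autoImplicit false

open MeasureTheory Set Filter Topology
open scoped ContDiff InnerProductSpace

namespace Pool.Agent.Work.MP_3b24f6_gt

noncomputable section

variable {E : Type*} [NormedAddCommGroup E] [InnerProductSpace ℝ E] [FiniteDimensional ℝ E]

/-- Trace of a continuous linear endomorphism. -/
def tr (T : E →L[ℝ] E) : ℝ := LinearMap.trace ℝ E (T : E →ₗ[ℝ] E)

/-- Euclidean divergence. -/
def divE (Z : E → E) (x : E) : ℝ := tr (fderiv ℝ Z x)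

/-- A smooth cutoff profile: `cut ε s = 1` for `s ≤ -ε`, `= 0` for `0 ≤ s`. -/
def cut (ε s : ℝ) : ℝ := Real.smoothTransition (-s / ε)

/-- Minus the derivative of `cut ε`; nonnegative, supported in `[-ε, 0]`. -/
def cutd (ε s : ℝ) : ℝ := - deriv (cut ε) s

/-- `w` is a global smooth defining function of the domain `{w < 0}`. -/
structure IsReg (w : E → ℝ) : Prop where
  smooth : ContDiff ℝ ∞ w
  cpt : IsCompact {x | w x ≤ 0}
  reg : ∀ x, w x = 0 → fderiv ℝ w x ≠ 0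

/-- The hypersurface `{w = 0}`. -/
def surf (w : E → ℝ) : Set E := {x | w x = 0}

/-- Riemannian data on `E` in one global chart: metric `⟪A z u, v⟫`, inverse `C`, Christoffel map
`Γ`, volume density `ρ`, and Ricci curvature `-R` times the metric. -/
structure Geo (E : Type*) [NormedAddCommGroup E] [InnerProductSpace ℝ E]
    [FiniteDimensional ℝ E] where
  A : E → E →L[ℝ] E
  C : E → E →L[ℝ] E
  Γ : E → E →L[ℝ] E →L[ℝ] E
  ρ : E → ℝ
  R : ℝ
  smooth_A : ContDiff ℝ ∞ A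
  smooth_C : ContDiff ℝ ∞ C
  smooth_Γ : ContDiff ℝ ∞ Γ
  smooth_ρ : ContDiff ℝ ∞ ρ
  A_symm : ∀ z u v, ⟪A z u, v⟫_ℝ = ⟪u, A z v⟫_ℝ
  A_pos : ∀ z u, u ≠ 0 → 0 < ⟪A z u, u⟫_ℝ
  AC : ∀ z u, A z (C z u) = u
  Γ_symm : ∀ z u v, Γ z u v = Γ z v u
  compat : ∀ z x u v, ⟪fderiv ℝ A z x u, v⟫_ℝ = ⟪A z (Γ z x u), v⟫_ℝ + ⟪A z u, Γ z x v⟫_ℝ
  ρ_pos : ∀ z, 0 < ρ z
  ρ_deriv : ∀ z x, fderiv ℝ ρ z x = ρ z * tr (Γ z x)
  ric : ∀ z v, tr (((fderiv ℝ Γ z).flip v).flip v) + tr (Γ z (Γ z v v))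
      - tr (fderiv ℝ Γ z v v) - tr ((Γ z v).comp (Γ z v)) = -R * ⟪A z v, v⟫_ℝ

namespace Geo

variable (G : Geo E)

/-- The metric. -/
def g (z u v : E) : ℝ := ⟪G.A z u, v⟫_ℝ

/-- Covariant derivative of the vector field `X` at `z`, as an endomorphism `v ↦ ∇_v X`. -/
def nab (X : E → E) (z : E) : E →L[ℝ] E := fderiv ℝ X z + (G.Γ z).flip (X z)

/-- Riemannian divergence. -/
def dv (X : E → E) (z : E) : ℝ := tr (G.nab X z)

/-- Riemannian gradient. -/
def grad (f : E → ℝ) (z : E) : E := G.C z (gradient f z)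

/-- Norm of the Riemannian gradient. -/
def gn (f : E → ℝ) (z : E) : ℝ := Real.sqrt (⟪G.C z (gradient f z), gradient f z⟫_ℝ)

/-- Unit normal field of the level sets of `w` (smooth where `dw ≠ 0`). -/
def nrm (w : E → ℝ) (z : E) : E := (G.gn w z)⁻¹ • G.grad w z

/-- Mean curvature (trace convention) of the level sets. -/
def mc (w : E → ℝ) (z : E) : ℝ := G.dv (G.nrm w) z

variable [MeasurableSpace E] [BorelSpace E]

/-- Riemannian volume. -/
def vol (D : Set E) : ENNReal := ∫⁻ z in D, ENNReal.ofReal (G.ρ z)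

/-- Riemannian perimeter (De Giorgi): the supremum of the fluxes of the smooth compactly supported
vector fields of length at most `1`. -/
def area (D : Set E) : ENNReal :=
  ⨆ X : {X : E → E // ContDiff ℝ ∞ X ∧ HasCompactSupport X ∧ ∀ z, G.g z (X z) (X z) ≤ 1},
    ENNReal.ofReal (∫ z in D, divE (fun y => G.ρ y • X.1 y) z)

end Geo

end

end Pool.Agent.Work.MP_3b24f6_gt
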