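import Pool.Agent.Work.MP_3b24f6_gt.ComplexIso

set_option autoImplicit false

open MeasureTheory Set Filter Topology
open scoped ContDiff InnerProductSpace

namespace Pool.Agent.Work.MP_3b24f6_gt

noncomputable section

set_option linter.unusedSectionVars false

variable {E : Type*} [NormedAddCommGroup E] [InnerProductSpace ℝ E] [FiniteDimensional ℝ E]

namespace DetP

theorem det_adjoint (f : E →ₗ[ℝ] E) : LinearMap.det (LinearMap.adjoint f) = LinearMap.det f := by
  let b := stdOrthonormalBasis ℝ E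
  rw [← LinearMap.det_toMatrix b.toBasis, ← LinearMap.det_toMatrix b.toBasis f,
    LinearMap.toMatrix_adjoint, Matrix.det_conjTranspose]
  simp

/-- Determinants and isometries of (constant) metrics. -/
theorem det_sq_of_isom (A A' L : E →L[ℝ] E) (h : ∀ u v, ⟪A' (L u), L v⟫_ℝ = ⟪A u, v⟫_ℝ) :
    L.det ^ 2 * A'.det = A.det := by
  have hcomp : (LinearMap.adjoint (L : E →ₗ[ℝ] E)) ∘ₗ ((A' : E →ₗ[ℝ] E) ∘ₗ (L : E →ₗ[ℝ] E))
      = (A : E →ₗ[ℝ] E) := by
    refine LinearMap.ext fun u => ext_inner_right ℝ fun v => ?_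
    rw [LinearMap.comp_apply, LinearMap.adjoint_inner_left]
    exact h u v
  have h2 := congrArg LinearMap.det hcomp
  rw [LinearMap.det_comp, LinearMap.det_comp, det_adjoint] at h2
  show (LinearMap.det (L : E →ₗ[ℝ] E)) ^ 2 * LinearMap.det (A' : E →ₗ[ℝ] E)
    = LinearMap.det (A : E →ₗ[ℝ] E)
  rw [← h2]; ring

/-- Determinant of the identity plus two orthogonal rank one maps. -/
theorem det_two (a b : ℝ) (x y : E) (hxy : ⟪x, y⟫_ℝ = 0) :
    (ContinuousLinearMap.id ℝ E + a • (innerSL ℝ x).smulRight x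
      + b • (innerSL ℝ y).smulRight y).det = (1 + a * ‖x‖ ^ 2) * (1 + b * ‖y‖ ^ 2) := by
  have e : ((ContinuousLinearMap.id ℝ E + a • (innerSL ℝ x).smulRight x
      + b • (innerSL ℝ y).smulRight y : E →L[ℝ] E) : E →ₗ[ℝ] E)
      = (LinearMap.transvection ((a • innerSL ℝ x : E →L[ℝ] ℝ) : E →ₗ[ℝ] ℝ) x) ∘ₗ
        (LinearMap.transvection ((b • innerSL ℝ y : E →L[ℝ] ℝ) : E →ₗ[ℝ] ℝ) y) := by
    refine LinearMap.ext fun v => ?_
    rw [LinearMap.comp_apply, LinearMap.transvection.apply, LinearMap.transvection.apply]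
    simp only [ContinuousLinearMap.coe_coe, add_apply, smul_apply,
      ContinuousLinearMap.smulRight_apply, innerSL_apply_apply, ContinuousLinearMap.coe_id', id,
      inner_add_right, inner_smul_right, hxy, smul_eq_mul, mul_zero, add_zero, smul_smul]
    abel
  show LinearMap.det _ = _
  rw [e, LinearMap.det_comp, LinearMap.transvection.det, LinearMap.transvection.det]
  simp only [ContinuousLinearMap.coe_coe, smul_apply, innerSL_apply_apply,
    real_inner_self_eq_norm_sq, smul_eq_mul]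

end DetP

open DetP CIso

theorem det_chA (S : CStr E) (z : E) : (chA S z).det = 1 := by
  have hz : ⟪z, S.J z⟫_ℝ = 0 := inner_self_J S z
  have h := det_two (-(uu z ^ 2)⁻¹) 1 z (S.J z) hz
  have e : chA S z = ContinuousLinearMap.id ℝ E + (-(uu z ^ 2)⁻¹) • (innerSL ℝ z).smulRight z
      + (1 : ℝ) • (innerSL ℝ (S.J z)).smulRight (S.J z) := by
    rw [chA, neg_smul, one_smul, sub_eq_add_neg]
  rw [e, h, S.norm_J, uu_sq]
  have : (1 + ‖z‖ ^ 2) ≠ 0 := by positivity
  field_simp
  ring

end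

end Pool.Agent.Work.MP_3b24f6_gt
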