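import Pool.Agent.Work.MP_3b24f6_gt.ContractC

set_option autoImplicit false

open MeasureTheory Set Filter Topology
open scoped ContDiff InnerProductSpace

namespace Pool.Agent.Work.MP_3b24f6_gt

noncomputable section

namespace CIso

variable {E : Type*} [NormedAddCommGroup E] [InnerProductSpace ℝ E]
variable (S : CStr E)

theorem one_le_uu_mul_sub (x y : E) : 1 ≤ uu x * uu y - ⟪x, y⟫_ℝ := by
  have h1 := real_inner_le_norm x y
  have hx := uu_sq x
  have hy := uu_sq y
  have hx0 := uu_pos x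
  have hy0 := uu_pos y
  have h2 : 1 + ‖x‖ * ‖y‖ ≤ uu x * uu y := by
    apply le_of_sq_le_sq _ (by positivity)
    rw [mul_pow, hx, hy]
    nlinarith [sq_nonneg (‖x‖ - ‖y‖)]
  linarith

theorem one_le_chd (x y : E) : 1 ≤ chd S x y := by
  unfold chd
  apply Real.one_le_sqrt.mpr
  have := one_le_uu_mul_sub x y
  nlinarith [sq_nonneg ⟪S.J x, y⟫_ℝ]

theorem sub_le_chd (x y : E) : uu x * uu y - ⟪x, y⟫_ℝ ≤ chd S x y := by
  unfold chd
  apply Real.le_sqrt_of_sq_le
  nlinarith [sq_nonneg ⟪S.J x, y⟫_ℝ]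

theorem chd_zero_left (y : E) : chd S 0 y = uu y := by
  unfold chd
  simp [Real.sqrt_sq (uu_pos y).le]

theorem contDiff_chd : ContDiff ℝ ∞ (fun q : E × E => chd S q.1 q.2) := by
  unfold chd
  refine ContDiff.sqrt ?_ ?_
  · refine ContDiff.add (ContDiff.pow (ContDiff.sub ?_ ?_) 2) (ContDiff.pow ?_ 2)
    · exact (contDiff_uu.comp contDiff_fst).mul (contDiff_uu.comp contDiff_snd)
    · exact contDiff_fst.inner ℝ contDiff_snd
    · exact (S.J.contDiff.comp contDiff_fst).inner ℝ contDiff_snd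
  · intro q
    have := one_le_uu_mul_sub q.1 q.2
    nlinarith [sq_nonneg ⟪S.J q.1, q.2⟫_ℝ]

theorem hasDerivAt_uu_line (e : E) : HasDerivAt (fun t : ℝ => uu (t • e)) 0 0 := by
  have h1 : HasDerivAt (fun t : ℝ => 1 + t ^ 2 * ‖e‖ ^ 2) 0 0 := by
    have h := ((hasDerivAt_pow 2 (0 : ℝ)).mul_const (‖e‖ ^ 2)).const_add 1
    simpa using h
  have h2 := h1.sqrt (by norm_num)
  have h3 : (fun t : ℝ => uu (t • e)) = fun t => Real.sqrt (1 + t ^ 2 * ‖e‖ ^ 2) := by
    funext t
    unfold uu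
    rw [norm_smul, mul_pow, Real.norm_eq_abs, sq_abs]
  rw [h3]
  simpa using h2

theorem hasDerivAt_chd_line (e y : E) :
    HasDerivAt (fun t : ℝ => chd S (t • e) y) (-⟪e, y⟫_ℝ) 0 := by
  have hy := uu_pos y
  have h1 : HasDerivAt (fun t : ℝ => uu (t • e) * uu y - t * ⟪e, y⟫_ℝ)
      (0 * uu y - 1 * ⟪e, y⟫_ℝ) 0 :=
    ((hasDerivAt_uu_line e).mul_const (uu y)).sub
      ((hasDerivAt_id' (0 : ℝ)).mul_const ⟪e, y⟫_ℝ)
  have h2 : HasDerivAt (fun t : ℝ => t * ⟪S.J e, y⟫_ℝ) (1 * ⟪S.J e, y⟫_ℝ) 0 :=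
    (hasDerivAt_id' (0 : ℝ)).mul_const ⟪S.J e, y⟫_ℝ
  have h3 : HasDerivAt (fun t : ℝ => (uu (t • e) * uu y - t * ⟪e, y⟫_ℝ) ^ 2
      + (t * ⟪S.J e, y⟫_ℝ) ^ 2) (-2 * uu y * ⟪e, y⟫_ℝ) 0 := by
    have h := (h1.pow 2).add (h2.pow 2)
    refine h.congr_deriv ?_
    simp
  have h4 := h3.sqrt (by simp [hy.ne'])
  have h5 : (fun t : ℝ => chd S (t • e) y) = fun t : ℝ =>
      Real.sqrt ((uu (t • e) * uu y - t * ⟪e, y⟫_ℝ) ^ 2 + (t * ⟪S.J e, y⟫_ℝ) ^ 2) := by
    funext t
    unfold chd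
    rw [map_smul, real_inner_smul_left, real_inner_smul_left]
  rw [h5]
  refine h4.congr_deriv ?_
  simp only [zero_smul, uu_zero, one_mul, zero_mul, sub_zero]
  rw [show uu y ^ 2 + (0 : ℝ) ^ 2 = uu y ^ 2 by ring, Real.sqrt_sq hy.le]
  field_simp

theorem chd_coercive (p y : E) : uu p ≤ 2 * uu y * chd S p y := by
  have h1 := sub_le_chd S p y
  have h2 := real_inner_le_norm p y
  have hp := uu_pos p
  have hy := uu_pos y
  have hpn : ‖p‖ ≤ uu p := by
    apply le_of_sq_le_sq _ hp.le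
    rw [uu_sq]; linarith
  have hyn : ‖y‖ ≤ uu y := by
    apply le_of_sq_le_sq _ hy.le
    rw [uu_sq]; linarith
  have hy2 := uu_sq y
  have h3 : uu p * (uu y - ‖y‖) ≤ chd S p y := by
    nlinarith [norm_nonneg y, norm_nonneg p]
  have h4 : (uu y - ‖y‖) * (uu y + ‖y‖) = 1 := by nlinarith
  have h5 : 1 ≤ (uu y - ‖y‖) * (2 * uu y) := by
    nlinarith
  calc uu p = uu p * 1 := (mul_one _).symm
    _ ≤ uu p * ((uu y - ‖y‖) * (2 * uu y)) := mul_le_mul_of_nonneg_left h5 hp.le
    _ = (2 * uu y) * (uu p * (uu y - ‖y‖)) := by ring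
    _ ≤ (2 * uu y) * chd S p y := mul_le_mul_of_nonneg_left h3 (by positivity)

end CIso

open CIso

variable {E : Type*} [NormedAddCommGroup E] [InnerProductSpace ℝ E] [FiniteDimensional ℝ E]

theorem exists_hom_of (S : CStr E) (G : Geo E) (hA : G.A = chA S) (hρ : G.ρ = fun _ => 1)
    (isom_phi : ∀ p y u v : E, ⟪chA S (phi S p y) (fderiv ℝ (phi S p) y u),
      fderiv ℝ (phi S p) y v⟫_ℝ = ⟪chA S y u, v⟫_ℝ)
    (det_phi : ∀ p y : E, |(fderiv ℝ (phi S p) y).det| = 1) :
    ∃ h : Hom G, h.chd = chd S := by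
  refine ⟨{ chd := chd S
            phi := phi S
            inv := fun p => phi S (-p)
            smooth_phi := contDiff_phi S
            smooth_inv := fun p => contDiff_phi S (-p)
            phi_inv := fun p y => by
              have := phi_neg S (-p) y
              rwa [neg_neg] at this
            inv_phi := phi_neg S
            phi_zero := phi_zero S
            isom := fun p y u v => by
              unfold Geo.g
              rw [hA]; exact isom_phi p y u v
            det := fun p y => by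
              rw [hρ]
              simp only [one_mul]
              exact det_phi p y
            chd_phi := chd_phi S
            chd_zero := chd_zero_left S
            chd_smooth := contDiff_chd S
            chd_deriv := hasDerivAt_chd_line S
            chd_coercive := CIso.chd_coercive S }, rfl⟩

end

end Pool.Agent.Work.MP_3b24f6_gt
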