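import Pool.Agent.Work.MP_3b24f6_gt.ContractC

set_option autoImplicit false

open MeasureTheory Set Filter Topology
open scoped ContDiff InnerProductSpace

namespace Pool.Agent.Work.MP_3b24f6_gt

noncomputable section

variable {E : Type*} [NormedAddCommGroup E] [InnerProductSpace ℝ E]
variable (S : CStr E)

namespace CIso

theorem hasDerivAt_uu_comp {γ : ℝ → E} {w : E} {t : ℝ} (hγ : HasDerivAt γ w t) :
    HasDerivAt (fun s => uu (γ s)) (⟪γ t, w⟫_ℝ / uu (γ t)) t := by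
  have h1 : HasDerivAt (fun s => 1 + ‖γ s‖ ^ 2) (2 * ⟪γ t, w⟫_ℝ) t := hγ.norm_sq.const_add 1
  have h2 := h1.sqrt (by positivity)
  refine h2.congr_deriv ?_
  have : Real.sqrt (1 + ‖γ t‖ ^ 2) = uu (γ t) := rfl
  rw [this]
  have := uu_pos (γ t)
  field_simp

/-- Second order expansion of `cosh² d` along a curve. -/
theorem tendsto_chd_sq {γ : ℝ → E} {x w : E} (h0 : γ 0 = x) (hγ : HasDerivAt γ w 0) :
    Tendsto (fun t => (chd S (γ t) x ^ 2 - 1) / t ^ 2) (𝓝[≠] 0) (𝓝 ⟪chA S x w, w⟫_ℝ) := by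
  have ha : Tendsto (fun t : ℝ => t⁻¹ • (γ t - x)) (𝓝[≠] 0) (𝓝 w) := by
    have h := hasDerivAt_iff_tendsto_slope.mp hγ
    refine h.congr (fun t => ?_)
    simp [slope, h0]
  have hb : Tendsto (fun t : ℝ => t⁻¹ * (uu (γ t) - uu x)) (𝓝[≠] 0) (𝓝 (⟪x, w⟫_ℝ / uu x)) := by
    have h := hasDerivAt_iff_tendsto_slope.mp (hasDerivAt_uu_comp hγ)
    rw [h0] at h
    refine h.congr (fun t => ?_)
    simp [slope, h0]
  have ht : Tendsto (fun t : ℝ => t) (𝓝[≠] 0) (𝓝 0) := tendsto_id.mono_left nhdsWithin_le_nhds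
  have hD := (ha.norm.pow 2).sub (hb.pow 2)
  have hJ0 : Tendsto (fun t : ℝ => ⟪t⁻¹ • (γ t - x), S.J x⟫_ℝ) (𝓝[≠] 0) (𝓝 ⟪w, S.J x⟫_ℝ) :=
    ha.inner (𝕜 := ℝ) tendsto_const_nhds
  have hJ := hJ0.pow 2
  have hE := (((ht.pow 2).mul (hD.pow 2)).div_const 4)
  have hsum := (hD.add hJ).add hE
  have e : ⟪chA S x w, w⟫_ℝ = ‖w‖ ^ 2 - (⟪x, w⟫_ℝ / uu x) ^ 2 + ⟪w, S.J x⟫_ℝ ^ 2
      + 0 ^ 2 * (‖w‖ ^ 2 - (⟪x, w⟫_ℝ / uu x) ^ 2) ^ 2 / 4 := by
    rw [chA_inner, real_inner_self_eq_norm_sq, real_inner_comm w (S.J x)]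
    have := uu_pos x
    field_simp
    ring
  rw [e]
  refine hsum.congr' ?_
  filter_upwards [self_mem_nhdsWithin] with t htne
  have htne' : t ≠ 0 := htne
  rw [chd_sq, norm_smul, real_inner_smul_left, Real.norm_eq_abs, mul_pow, sq_abs]
  field_simp
  ring

theorem chA_symm (z u v : E) : ⟪chA S z u, v⟫_ℝ = ⟪chA S z v, u⟫_ℝ := by
  rw [chA_inner, chA_inner, real_inner_comm v u]
  ring

theorem isom_phi_self (p y v : E) :
    ⟪chA S (phi S p y) (fderiv ℝ (phi S p) y v), fderiv ℝ (phi S p) y v⟫_ℝ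
      = ⟪chA S y v, v⟫_ℝ := by
  have h1 : HasDerivAt (fun t : ℝ => y + t • v) v 0 := by
    simpa using ((hasDerivAt_id (0 : ℝ)).smul_const v).const_add y
  have hd : HasFDerivAt (phi S p) (fderiv ℝ (phi S p) y) y :=
    ((contDiff_phi S p).differentiable (by simp)).differentiableAt.hasFDerivAt
  have h2 : HasDerivAt (fun t : ℝ => phi S p (y + t • v)) (fderiv ℝ (phi S p) y v) 0 := by
    have hd' : HasFDerivAt (phi S p) (fderiv ℝ (phi S p) y) ((fun t : ℝ => y + t • v) 0) := by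
      simpa using hd
    exact hd'.comp_hasDerivAt (0 : ℝ) h1
  have l1 := tendsto_chd_sq S (γ := fun t : ℝ => y + t • v) (x := y) (by simp) h1
  have l2 := tendsto_chd_sq S (γ := fun t : ℝ => phi S p (y + t • v)) (x := phi S p y)
    (by simp) h2
  have l3 : Tendsto (fun t : ℝ => (chd S (y + t • v) y ^ 2 - 1) / t ^ 2) (𝓝[≠] 0)
      (𝓝 ⟪chA S (phi S p y) (fderiv ℝ (phi S p) y v), fderiv ℝ (phi S p) y v⟫_ℝ) := by
    refine l2.congr (fun t => ?_)
    rw [chd_phi]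
  exact tendsto_nhds_unique l3 l1

end CIso

open CIso

theorem isom_phi (p y u v : E) :
    ⟪chA S (phi S p y) (fderiv ℝ (phi S p) y u), fderiv ℝ (phi S p) y v⟫_ℝ
      = ⟪chA S y u, v⟫_ℝ := by
  have h1 := isom_phi_self S p y (u + v)
  have h2 := isom_phi_self S p y u
  have h3 := isom_phi_self S p y v
  have h4 := chA_symm S (phi S p y) (fderiv ℝ (phi S p) y u) (fderiv ℝ (phi S p) y v)
  have h5 := chA_symm S y u v
  simp only [map_add, inner_add_left, inner_add_right] at h1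
  linarith

end

end Pool.Agent.Work.MP_3b24f6_gt
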