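import Pool.Agent.Work.MP_3b24f6_gt.DetChA
import Pool.Agent.Work.MP_3b24f6_gt.IsomPhi
import Pool.Agent.Work.MP_3b24f6_gt.HomC

set_option autoImplicit false

open MeasureTheory Set Filter Topology
open scoped ContDiff InnerProductSpace

namespace Pool.Agent.Work.MP_3b24f6_gt

noncomputable section

variable {E : Type*} [NormedAddCommGroup E] [InnerProductSpace ℝ E] [FiniteDimensional ℝ E]

open DetP CIso

theorem det_phi (S : CStr E) (p y : E) : |(fderiv ℝ (phi S p) y).det| = 1 := by
  have h := det_sq_of_isom (chA S y) (chA S (phi S p y)) (fderiv ℝ (phi S p) y)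
    (fun u v => isom_phi S p y u v)
  rw [det_chA, det_chA, mul_one] at h
  have h2 : |(fderiv ℝ (phi S p) y).det| ^ 2 = 1 := by rw [sq_abs]; exact h
  have h3 := abs_nonneg (fderiv ℝ (phi S p) y).det
  nlinarith

theorem exists_hom (S : CStr E) (G : Geo E) (hA : G.A = chA S) (hρ : G.ρ = fun _ => 1) :
    ∃ h : Hom G, h.chd = chd S :=
  exists_hom_of S G hA hρ (isom_phi S) (det_phi S)

end

end Pool.Agent.Work.MP_3b24f6_gt
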