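import Pool.Agent.Work.MP_3b24f6_gt.Model

set_option autoImplicit false

open MeasureTheory Set Filter Topology
open scoped ContDiff InnerProductSpace NNReal

namespace Pool.Agent.Work.MP_3b24f6_gt

noncomputable section

variable {E : Type*} [NormedAddCommGroup E] [InnerProductSpace ℝ E] [FiniteDimensional ℝ E]

namespace Diffeo

/-- The radial map with factor `lam`. -/
def radT (lam : E → ℝ) (y : E) : E := lam y • y

/-- Its derivative. -/
def radTD (lam : E → ℝ) (y : E) : E →L[ℝ] E :=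
  lam y • ContinuousLinearMap.id ℝ E + (fderiv ℝ lam y).smulRight y

theorem radTD_apply (lam : E → ℝ) (y v : E) :
    radTD lam y v = lam y • v + fderiv ℝ lam y v • y := by
  simp [radTD]

theorem hasFDerivAt_radT {lam : E → ℝ} {y : E} (h : DifferentiableAt ℝ lam y) :
    HasFDerivAt (radT lam) (radTD lam y) y := by
  have h1 := h.hasFDerivAt.smul (hasFDerivAt_id y)
  exact h1

theorem det_radTD (lam : E → ℝ) (y : E) (h : lam y ≠ 0) :
    (radTD lam y).det
      = lam y ^ Module.finrank ℝ E * (1 + fderiv ℝ lam y y / lam y) := by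
  have h1 : ((radTD lam y : E →L[ℝ] E) : E →ₗ[ℝ] E)
      = lam y • LinearMap.transvection ((lam y)⁻¹ • (fderiv ℝ lam y : E →ₗ[ℝ] ℝ)) y := by
    ext v
    simp only [ContinuousLinearMap.coe_coe, radTD_apply, LinearMap.smul_apply,
      LinearMap.transvection.apply, smul_add, smul_smul, smul_eq_mul]
    rw [← mul_assoc, mul_inv_cancel₀ h, one_mul]
  rw [ContinuousLinearMap.det, h1, LinearMap.det_smul, LinearMap.transvection.det]
  simp only [LinearMap.smul_apply, smul_eq_mul, ContinuousLinearMap.coe_coe]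
  congr 2
  field_simp

/-- `det DT • (DT)⁻ᵀ ξ` for the radial map. -/
def cof (lam : E → ℝ) (y : E) : E →L[ℝ] E :=
  (lam y ^ Module.finrank ℝ E / lam y) • ((1 + fderiv ℝ lam y y / lam y) •
    ContinuousLinearMap.id ℝ E - (innerSL ℝ y).smulRight ((lam y)⁻¹ • gradient lam y))

theorem cof_apply (lam : E → ℝ) (y ξ : E) : cof lam y ξ =
    (lam y ^ Module.finrank ℝ E / lam y) • ((1 + fderiv ℝ lam y y / lam y) • ξ
      - ⟪y, ξ⟫_ℝ • ((lam y)⁻¹ • gradient lam y)) := by
  simp [cof]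

theorem inner_gradient (f : E → ℝ) (x v : E) : ⟪gradient f x, v⟫_ℝ = fderiv ℝ f x v := by
  unfold gradient
  rw [InnerProductSpace.toDual_symm_apply]

theorem cof_inner (lam : E → ℝ) (y ξ v : E) (h : lam y ≠ 0) :
    ⟪cof lam y ξ, radTD lam y v⟫_ℝ = (radTD lam y).det * ⟪ξ, v⟫_ℝ := by
  rw [det_radTD lam y h, cof_apply, radTD_apply]
  simp only [inner_smul_left, inner_smul_right, inner_sub_left, inner_add_right, inner_gradient,
    RCLike.conj_to_real]
  rw [real_inner_comm y ξ]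
  field_simp
  ring


section bound
variable {lam : E → ℝ} {c : ℝ}

theorem lam_pos {y : E} (hc : c < 1) (hb : |lam y - 1| + ‖fderiv ℝ lam y‖ * ‖y‖ ≤ c) :
    0 < lam y := by
  have h0 : 0 ≤ ‖fderiv ℝ lam y‖ * ‖y‖ := by positivity
  have h1 : |lam y - 1| < 1 := by linarith
  linarith [(abs_lt.1 h1).1]

theorem one_add_pos {y : E} (hc : c < 1) (hb : |lam y - 1| + ‖fderiv ℝ lam y‖ * ‖y‖ ≤ c) :
    0 < 1 + fderiv ℝ lam y y / lam y := by
  have h0 := lam_pos hc hb
  have h1 : |fderiv ℝ lam y y| ≤ ‖fderiv ℝ lam y‖ * ‖y‖ := (fderiv ℝ lam y).le_opNorm y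
  have h2 : 0 < lam y + fderiv ℝ lam y y := by
    have h3 := neg_abs_le (lam y - 1)
    have h4 := neg_abs_le (fderiv ℝ lam y y)
    linarith
  have h5 : 1 + fderiv ℝ lam y y / lam y = (lam y + fderiv ℝ lam y y) / lam y := by
    field_simp
  rw [h5]
  positivity

theorem det_pos {y : E} (hc : c < 1) (hb : |lam y - 1| + ‖fderiv ℝ lam y‖ * ‖y‖ ≤ c) :
    0 < (radTD lam y).det := by
  rw [det_radTD lam y (lam_pos hc hb).ne']
  have := lam_pos hc hb
  have := one_add_pos hc hb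
  positivity

theorem norm_radTD_sub (y : E) :
    ‖radTD lam y - ContinuousLinearMap.id ℝ E‖ ≤ |lam y - 1| + ‖fderiv ℝ lam y‖ * ‖y‖ := by
  refine ContinuousLinearMap.opNorm_le_bound _ (by positivity) fun v => ?_
  have h1 : (radTD lam y - ContinuousLinearMap.id ℝ E) v
      = (lam y - 1) • v + fderiv ℝ lam y v • y := by
    rw [sub_apply, radTD_apply, ContinuousLinearMap.id_apply, sub_smul,
      one_smul]
    abel
  rw [h1]
  refine (norm_add_le _ _).trans ?_
  rw [norm_smul, norm_smul, Real.norm_eq_abs]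
  have h2 := (fderiv ℝ lam y).le_opNorm v
  have h3 : ‖fderiv ℝ lam y v‖ * ‖y‖ ≤ (‖fderiv ℝ lam y‖ * ‖v‖) * ‖y‖ :=
    mul_le_mul_of_nonneg_right h2 (norm_nonneg _)
  calc |lam y - 1| * ‖v‖ + ‖fderiv ℝ lam y v‖ * ‖y‖
      ≤ |lam y - 1| * ‖v‖ + (‖fderiv ℝ lam y‖ * ‖v‖) * ‖y‖ := by linarith
    _ = (|lam y - 1| + ‖fderiv ℝ lam y‖ * ‖y‖) * ‖v‖ := by ring

theorem approx (hl : Differentiable ℝ lam) (c0 : 0 ≤ c)
    (hb : ∀ y, |lam y - 1| + ‖fderiv ℝ lam y‖ * ‖y‖ ≤ c) :
    ApproximatesLinearOn (radT lam)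
      ((ContinuousLinearEquiv.refl ℝ E : E ≃L[ℝ] E) : E →L[ℝ] E) univ ⟨c, c0⟩ := by
  intro x _ y _
  refine Convex.norm_image_sub_le_of_norm_hasFDerivWithin_le' (f' := radTD lam)
    (fun z _ => (hasFDerivAt_radT (hl z)).hasFDerivWithinAt) (fun z _ => ?_) convex_univ
    (mem_univ y) (mem_univ x)
  exact (norm_radTD_sub z).trans (hb z)

end bound

/-- A diffeomorphism of `E` with positive Jacobian and the cofactor map of its derivative. -/
structure Dif (E : Type*) [NormedAddCommGroup E] [InnerProductSpace ℝ E] where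
  T : E ≃ₜ E
  D : E → E →L[ℝ] E
  K : E → E →L[ℝ] E
  smooth : ContDiff ℝ ∞ T
  smooth_symm : ContDiff ℝ ∞ T.symm
  has : ∀ y, HasFDerivAt T (D y) y
  pos : ∀ y, 0 < (D y).det
  cof : ∀ y ξ v, ⟪K y ξ, D y v⟫_ℝ = (D y).det * ⟪ξ, v⟫_ℝ

/-- The radial diffeomorphism. -/
def radDif (lam : E → ℝ) (c : ℝ) (hl : ContDiff ℝ ∞ lam) (c0 : 0 ≤ c) (c1 : c < 1)
    (hb : ∀ y, |lam y - 1| + ‖fderiv ℝ lam y‖ * ‖y‖ ≤ c) : Dif E := by
  have hd : Differentiable ℝ lam := hl.differentiable (by simp)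
  have hN : Subsingleton E ∨ (⟨c, c0⟩ : ℝ≥0) <
      ‖((ContinuousLinearEquiv.refl ℝ E : E ≃L[ℝ] E).symm : E →L[ℝ] E)‖₊⁻¹ := by
    rcases subsingleton_or_nontrivial E with h | h
    · exact Or.inl h
    · right
      have : ‖((ContinuousLinearEquiv.refl ℝ E : E ≃L[ℝ] E).symm : E →L[ℝ] E)‖₊ = 1 := by
        rw [← NNReal.coe_inj, coe_nnnorm]
        simp
      rw [this, inv_one]
      exact c1
  let T := (approx hd c0 hb).toHomeomorph (radT lam) hN
  have hT : ∀ y, T y = radT lam y := fun y => rfl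
  have hs : ContDiff ℝ ∞ T := by
    have : (T : E → E) = fun y => lam y • y := by
      ext1 y
      exact hT y
    rw [this]
    exact hl.smul contDiff_id
  have hD : ∀ y, HasFDerivAt T (radTD lam y) y := fun y => hasFDerivAt_radT (hd y)
  refine ⟨T, radTD lam, cof lam, hs, ?_, hD, fun y => det_pos c1 (hb y), fun y ξ v =>
    cof_inner lam y ξ v (lam_pos c1 (hb y)).ne'⟩
  refine T.contDiff_symm (f₀' := fun y => (radTD lam y).toContinuousLinearEquivOfDetNeZero
    (det_pos c1 (hb y)).ne') (fun y => ?_) hs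
  have h3 : (((radTD lam y).toContinuousLinearEquivOfDetNeZero
      (det_pos c1 (hb y)).ne' : E ≃L[ℝ] E) : E →L[ℝ] E) = radTD lam y := by
    ext v
    rfl
  simp only [h3]
  exact hD y

theorem radDif_T (lam : E → ℝ) (c : ℝ) (hl : ContDiff ℝ ∞ lam) (c0 : 0 ≤ c) (c1 : c < 1)
    (hb : ∀ y, |lam y - 1| + ‖fderiv ℝ lam y‖ * ‖y‖ ≤ c) (y : E) :
    (radDif lam c hl c0 c1 hb).T y = lam y • y := rfl

theorem radDif_K (lam : E → ℝ) (c : ℝ) (hl : ContDiff ℝ ∞ lam) (c0 : 0 ≤ c) (c1 : c < 1)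
    (hb : ∀ y, |lam y - 1| + ‖fderiv ℝ lam y‖ * ‖y‖ ≤ c) (y ξ : E) :
    (radDif lam c hl c0 c1 hb).K y ξ =
    (lam y ^ Module.finrank ℝ E / lam y) • ((1 + fderiv ℝ lam y y / lam y) • ξ
      - ⟪y, ξ⟫_ℝ • ((lam y)⁻¹ • gradient lam y)) :=
  cof_apply lam y ξ

theorem radDif_det (lam : E → ℝ) (c : ℝ) (hl : ContDiff ℝ ∞ lam) (c0 : 0 ≤ c) (c1 : c < 1)
    (hb : ∀ y, |lam y - 1| + ‖fderiv ℝ lam y‖ * ‖y‖ ≤ c) (y : E) :
    ((radDif lam c hl c0 c1 hb).D y).det
      = lam y ^ Module.finrank ℝ E * (1 + fderiv ℝ lam y y / lam y) :=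
  det_radTD lam y (lam_pos c1 (hb y)).ne'

namespace Dif
variable (d : Dif E)

/-- The transported function. -/
def push (f : E → ℝ) (z : E) : ℝ := f (d.T.symm z)

theorem push_T (f : E → ℝ) (y : E) : d.push f (d.T y) = f y := by
  unfold push
  rw [d.T.symm_apply_apply]

theorem surj_D (y : E) : Function.Surjective (d.D y) := by
  have h := ((d.D y).toContinuousLinearEquivOfDetNeZero (d.pos y).ne').surjective
  intro v
  obtain ⟨u, hu⟩ := h v
  exact ⟨u, hu⟩

theorem fderiv_push {f : E → ℝ} (hf : Differentiable ℝ f) (y v : E) :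
    fderiv ℝ (d.push f) (d.T y) (d.D y v) = fderiv ℝ f y v := by
  have h1 : DifferentiableAt ℝ (d.push f) (d.T y) :=
    (hf _).comp _ ((d.smooth_symm.differentiable (by simp)) _)
  have h2 := h1.hasFDerivAt.comp y (d.has y)
  have h3 : (d.push f) ∘ (d.T : E → E) = f := by
    ext1 z
    exact d.push_T f z
  rw [h3] at h2
  rw [h2.fderiv]
  rfl

theorem gradient_push {f : E → ℝ} (hf : Differentiable ℝ f) (y : E) :
    (d.D y).det • gradient (d.push f) (d.T y) = d.K y (gradient f y) := by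
  refine ext_inner_right ℝ fun w => ?_
  obtain ⟨v, rfl⟩ := d.surj_D y w
  rw [d.cof, inner_smul_left, inner_gradient, inner_gradient, d.fderiv_push hf]
  simp

theorem contDiff_push {n : WithTop ℕ∞} (hn : n ≤ ∞) {f : E → ℝ} (hf : ContDiff ℝ n f) :
    ContDiff ℝ n (d.push f) :=
  hf.comp (d.smooth_symm.of_le hn)

theorem hasCompactSupport_push {f : E → ℝ} (hf : HasCompactSupport f) :
    HasCompactSupport (d.push f) :=
  hf.comp_homeomorph d.T.symm

theorem push_nonneg {f : E → ℝ} (hf : ∀ y, 0 ≤ f y) (z : E) : 0 ≤ d.push f z := hf _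

variable [MeasurableSpace E] [BorelSpace E]

theorem integral_comp (h : E → ℝ) :
    ∫ z, h z = ∫ y, (d.D y).det * h (d.T y) := by
  have h1 := integral_image_eq_integral_abs_det_fderiv_smul (volume : Measure E)
    (s := univ) (f := d.T) (f' := d.D) MeasurableSet.univ
    (fun y _ => (d.has y).hasFDerivWithinAt) d.T.injective.injOn h
  rw [image_univ, d.T.surjective.range_eq, Measure.restrict_univ] at h1
  rw [h1]
  refine integral_congr_ae (Eventually.of_forall fun y => ?_)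
  simp only [smul_eq_mul, abs_of_pos (d.pos y)]

theorem lintegral_comp (h : E → ENNReal) :
    ∫⁻ z, h z = ∫⁻ y, ENNReal.ofReal (d.D y).det * h (d.T y) := by
  have h1 := lintegral_image_eq_lintegral_abs_det_fderiv_mul (volume : Measure E)
    (s := univ) (f := d.T) (f' := d.D) MeasurableSet.univ
    (fun y _ => (d.has y).hasFDerivWithinAt) d.T.injective.injOn h
  rw [image_univ, d.T.surjective.range_eq, Measure.restrict_univ] at h1
  rw [h1]
  refine lintegral_congr fun y => ?_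
  rw [abs_of_pos (d.pos y)]

theorem integrable_comp (h : E → ℝ) :
    Integrable h ↔ Integrable fun y => (d.D y).det * h (d.T y) := by
  have h1 := integrableOn_image_iff_integrableOn_abs_det_fderiv_smul (volume : Measure E)
    (s := univ) (f := d.T) (f' := d.D) MeasurableSet.univ
    (fun y _ => (d.has y).hasFDerivWithinAt) d.T.injective.injOn h
  rw [image_univ, d.T.surjective.range_eq, integrableOn_univ, integrableOn_univ] at h1
  rw [h1]
  have h2 : (fun y => |(d.D y).det| • h (d.T y)) = fun y => (d.D y).det * h (d.T y) := by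
    ext1 y
    rw [abs_of_pos (d.pos y), smul_eq_mul]
  rw [h2]

/-- Change of variables for `1`-homogeneous integrands. -/
theorem integral_grad {F : E → E → ℝ} (hF : ∀ z ξ, ∀ c : ℝ, 0 < c → F z (c • ξ) = c * F z ξ)
    {f : E → ℝ} (hf : Differentiable ℝ f) :
    ∫ z, F z (gradient (d.push f) z) = ∫ y, F (d.T y) (d.K y (gradient f y)) := by
  rw [d.integral_comp]
  refine integral_congr_ae (Eventually.of_forall fun y => ?_)
  simp only
  rw [← d.gradient_push hf, hF _ _ _ (d.pos y)]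

theorem integral_push (h : E → ℝ → ℝ) (f : E → ℝ) :
    ∫ z, h z (d.push f z) = ∫ y, (d.D y).det * h (d.T y) (f y) := by
  rw [d.integral_comp]
  refine integral_congr_ae (Eventually.of_forall fun y => ?_)
  simp only [push_T]

end Dif

end Diffeo

end

end Pool.Agent.Work.MP_3b24f6_gt
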