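import Pool.Agent.Work.MP_3b24f6_gt.ModelB

set_option autoImplicit false

open MeasureTheory Set Filter Topology
open scoped ContDiff InnerProductSpace

/-! Track B: the explicit polynomial deformations (definitions). -/

namespace Pool.Agent.Work.MP_3b24f6_gt

noncomputable section

variable {E : Type*} [NormedAddCommGroup E] [InnerProductSpace ℝ E] [FiniteDimensional ℝ E]

/-- The test function `⟪e, y⟫ / u`. -/
def al (e y : E) : ℝ := ⟪e, y⟫_ℝ / uu y

/-- `tanh²` of the distance to the origin. -/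
def tq (y : E) : ℝ := ‖y‖ ^ 2 / uu y ^ 2

/-- `N - 1 + (w - 1) tanh²`. -/
def kap (V : Ver E) (y : E) : ℝ := ((Module.finrank ℝ E : ℝ) - 1) + ((V.w : ℝ) - 1) * tq y

/-- The factor of the deformation. -/
def lamW (V : Ver E) (t : ℝ) (e y : E) : ℝ :=
  1 + t * al e y - t ^ 2 / 2 * kap V y * al e y ^ 2

/-- The deformation. -/
def TW (V : Ver E) (t : ℝ) (e y : E) : E := lamW V t e y • y

/-- Derivative of the factor with respect to `al`. -/
def lW (V : Ver E) (t : ℝ) (e y : E) : ℝ := t - t ^ 2 * kap V y * al e y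

/-- Gradient of the factor. -/
def dlam (V : Ver E) (t : ℝ) (e y : E) : E :=
  lW V t e y • ((uu y)⁻¹ • e - (al e y / uu y ^ 2) • y)
    - (t ^ 2 * ((V.w : ℝ) - 1) * al e y ^ 2 * (1 - tq y) / uu y ^ 2) • y

/-- `lamW + ⟪y, dlam⟫`. -/
def LamW (V : Ver E) (t : ℝ) (e y : E) : ℝ :=
  lamW V t e y + al e y * (1 - tq y) * lW V t e y
    - t ^ 2 * ((V.w : ℝ) - 1) * al e y ^ 2 * tq y * (1 - tq y)

/-- Cofactor map of the deformation (without the power of `lamW`). -/
def zetaW (V : Ver E) (t : ℝ) (e y ξ : E) : E :=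
  LamW V t e y • ξ - ⟪y, ξ⟫_ℝ • dlam V t e y

/-- Jacobian of the deformation with respect to the Riemannian volume. -/
def JW (V : Ver E) (t : ℝ) (e y : E) : ℝ :=
  (uu (TW V t e y) / uu y) ^ (V.w - 1) * lamW V t e y ^ (Module.finrank ℝ E - 1) * LamW V t e y

/-- The integrand of the total variation of the transported function. -/
def BW (V : Ver E) (t : ℝ) (e y ξ : E) : ℝ :=
  (uu (TW V t e y) / uu y) ^ (V.w - 1) * lamW V t e y ^ (Module.finrank ℝ E - 2)
    * an V (TW V t e y) (zetaW V t e y ξ)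

end

end Pool.Agent.Work.MP_3b24f6_gt
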