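import Pool.Agent.Work.MP_3b24f6_gt.BasicB
import Pool.Agent.Work.MP_3b24f6_gt.MapsW
import Pool.Agent.Work.MP_3b24f6_gt.Diffeo

set_option autoImplicit false
set_option linter.unusedSectionVars false

open MeasureTheory Set Filter Topology
open scoped ContDiff InnerProductSpace NNReal

namespace Pool.Agent.Work.MP_3b24f6_gt

noncomputable section

namespace Diffeo

variable {E : Type*} [NormedAddCommGroup E] [InnerProductSpace ℝ E] [FiniteDimensional ℝ E]

theorem hasFDerivAt_sq (y : E) :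
    HasFDerivAt (fun z : E => ‖z‖ ^ 2) ((2 : ℝ) • innerSL ℝ y) y := by
  refine (hasStrictFDerivAt_norm_sq y).hasFDerivAt.congr_fderiv ?_
  rw [two_smul, two_smul]

theorem hasFDerivAt_uu (y : E) : HasFDerivAt (uu : E → ℝ) ((uu y)⁻¹ • innerSL ℝ y) y := by
  have h1 : HasFDerivAt (fun z : E => 1 + ‖z‖ ^ 2) ((2 : ℝ) • innerSL ℝ y) y :=
    (hasFDerivAt_sq y).const_add 1
  have h2 := h1.sqrt (by positivity)
  refine h2.congr_fderiv ?_
  ext v
  simp only [FunLike.coe_smul, Pi.smul_apply, innerSL_apply_apply, smul_eq_mul]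
  unfold uu
  have : 0 < Real.sqrt (1 + ‖y‖ ^ 2) := Real.sqrt_pos.2 (by positivity)
  field_simp

theorem contDiff_al (e : E) : ContDiff ℝ ∞ (al e) := by
  unfold al
  exact (contDiff_const.inner ℝ contDiff_id).div contDiff_uu fun y => (uu_pos y).ne'

theorem contDiff_tq : ContDiff ℝ ∞ (tq : E → ℝ) := by
  unfold tq
  exact (contDiff_norm_sq ℝ).div (contDiff_uu.pow 2) fun y => (pow_pos (uu_pos y) 2).ne'

theorem contDiff_lamW (V : Ver E) (t : ℝ) (e : E) : ContDiff ℝ ∞ (lamW V t e) := by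
  unfold lamW kap
  exact (contDiff_const.add (contDiff_const.mul (contDiff_al e))).sub
    ((contDiff_const.mul (contDiff_const.add (contDiff_const.mul contDiff_tq))).mul
      ((contDiff_al e).pow 2))

theorem hasFDerivAt_al (e y : E) : HasFDerivAt (al e)
    ((uu y)⁻¹ • innerSL ℝ e - (al e y / uu y ^ 2) • innerSL ℝ y) y := by
  have h1 : HasFDerivAt (fun z : E => ⟪e, z⟫_ℝ) (innerSL ℝ e) y := (innerSL ℝ e).hasFDerivAt
  have h0 : HasFDerivAt (fun z : E => (uu z)⁻¹) _ y :=
    (hasDerivAt_inv (uu_pos y).ne').comp_hasFDerivAt y (hasFDerivAt_uu y)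
  have h2 := h1.mul h0
  have h3 : (al e) = fun z : E => ⟪e, z⟫_ℝ * (uu z)⁻¹ := by
    ext1 z
    unfold al
    rw [div_eq_mul_inv]
  have h4 : al e y = ⟪e, y⟫_ℝ / uu y := rfl
  rw [h4, h3]
  refine h2.congr_fderiv ?_
  have := uu_pos y
  ext v
  simp
  field_simp
  ring

theorem one_sub_tq (y : E) : 1 - tq y = 1 / uu y ^ 2 := by
  unfold tq
  have := uu_pos y
  have h1 := uu_sq y
  field_simp
  linarith

theorem hasFDerivAt_tq (y : E) : HasFDerivAt (tq : E → ℝ)
    ((2 * (1 - tq y) / uu y ^ 2) • innerSL ℝ y) y := by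
  have h3 : (tq : E → ℝ) = fun z : E => 1 - ((uu z) ^ 2)⁻¹ := by
    ext1 z
    have := one_sub_tq z
    rw [one_div] at this
    linarith
  have h0 : HasFDerivAt (fun z : E => ((uu z) ^ 2)⁻¹) _ y :=
    (hasDerivAt_inv (pow_pos (uu_pos y) 2).ne').comp_hasFDerivAt y ((hasFDerivAt_uu y).pow 2)
  have h1 := h0.const_sub 1
  rw [one_sub_tq]
  rw [h3]
  refine h1.congr_fderiv ?_
  have := uu_pos y
  ext v
  simp
  field_simp

theorem hasFDerivAt_lamW (V : Ver E) (t : ℝ) (e y : E) :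
    HasFDerivAt (lamW V t e) (innerSL ℝ (dlam V t e y)) y := by
  have h1 := hasFDerivAt_al e y
  have h2 : HasFDerivAt (kap V) (((V.w : ℝ) - 1) • ((2 * (1 - tq y) / uu y ^ 2) • innerSL ℝ y)) y :=
    ((hasFDerivAt_tq y).const_mul ((V.w : ℝ) - 1)).const_add _
  have h3 := ((h1.const_mul t).const_add 1).sub ((h2.const_mul (t ^ 2 / 2)).mul (h1.pow 2))
  have h4 : lamW V t e = fun z => 1 + t * al e z - t ^ 2 / 2 * kap V z * al e z ^ 2 := rfl
  rw [h4]
  refine h3.congr_fderiv ?_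
  ext v
  simp [dlam, lW]
  ring

theorem gradient_lamW (V : Ver E) (t : ℝ) (e y : E) :
    gradient (lamW V t e) y = dlam V t e y := by
  refine ext_inner_right ℝ fun v => ?_
  rw [inner_gradient, (hasFDerivAt_lamW V t e y).fderiv]
  rfl

theorem fderiv_lamW (V : Ver E) (t : ℝ) (e y v : E) :
    fderiv ℝ (lamW V t e) y v = ⟪dlam V t e y, v⟫_ℝ := by
  rw [(hasFDerivAt_lamW V t e y).fderiv]
  rfl

theorem LamW_eq (V : Ver E) (t : ℝ) (e y : E) :
    LamW V t e y = lamW V t e y + ⟪dlam V t e y, y⟫_ℝ := by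
  have := uu_pos y
  have h1 : al e y * (1 - tq y) = (uu y)⁻¹ * ⟪e, y⟫_ℝ - (al e y / uu y ^ 2) * ⟪y, y⟫_ℝ := by
    have h4 : al e y = ⟪e, y⟫_ℝ / uu y := rfl
    have h5 : tq y = ‖y‖ ^ 2 / uu y ^ 2 := rfl
    rw [real_inner_self_eq_norm_sq, h4, h5]
    field_simp
  have h2 : tq y = ⟪y, y⟫_ℝ / uu y ^ 2 := by
    rw [real_inner_self_eq_norm_sq]
    rfl
  unfold LamW dlam
  rw [inner_sub_left, inner_smul_left, inner_sub_left, inner_smul_left, inner_smul_left,
    inner_smul_left]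
  simp only [RCLike.conj_to_real]
  rw [← h1]
  rw [show t ^ 2 * ((V.w : ℝ) - 1) * al e y ^ 2 * (1 - tq y) / uu y ^ 2 * ⟪y, y⟫_ℝ
    = t ^ 2 * ((V.w : ℝ) - 1) * al e y ^ 2 * (1 - tq y) * (⟪y, y⟫_ℝ / uu y ^ 2) by ring, ← h2]
  ring

/-! Bounds. -/

theorem abs_al_le {e : E} (he : ‖e‖ ≤ 1) (y : E) : |al e y| ≤ 1 := by
  unfold al
  rw [abs_div, abs_of_pos (uu_pos y), div_le_one (uu_pos y)]
  calc |⟪e, y⟫_ℝ| ≤ ‖e‖ * ‖y‖ := abs_real_inner_le_norm e y
    _ ≤ 1 * ‖y‖ := mul_le_mul_of_nonneg_right he (norm_nonneg y)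
    _ ≤ uu y := by rw [one_mul]; exact (norm_lt_uu y).le

theorem tq_nonneg (y : E) : 0 ≤ tq y := by unfold tq; positivity

theorem tq_le_one (y : E) : tq y ≤ 1 := by
  have h1 := one_sub_tq y
  have h2 : 0 ≤ 1 / uu y ^ 2 := by positivity
  linarith

theorem kap_nonneg (V : Ver E) (y : E) : 0 ≤ kap V y := by
  unfold kap
  have h1 : (1 : ℝ) ≤ V.w := by exact_mod_cast V.one_le_w
  have h2 : (2 : ℝ) * V.w + 2 ≤ Module.finrank ℝ E := by exact_mod_cast V.dim_le
  have h3 := tq_nonneg y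
  have h4 : 0 ≤ ((V.w : ℝ) - 1) * tq y := mul_nonneg (by linarith) h3
  linarith

theorem kap_le (V : Ver E) (y : E) : kap V y ≤ Module.finrank ℝ E + V.w - 2 := by
  unfold kap
  have h1 : (1 : ℝ) ≤ V.w := by exact_mod_cast V.one_le_w
  have h3 := tq_le_one y
  have h4 : ((V.w : ℝ) - 1) * tq y ≤ ((V.w : ℝ) - 1) * 1 :=
    mul_le_mul_of_nonneg_left h3 (by linarith)
  linarith

/-- Range of the parameter. -/
def tW (V : Ver E) : ℝ := 1 / (16 * (Module.finrank ℝ E + V.w))

theorem tW_pos (V : Ver E) : 0 < tW V := by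
  unfold tW
  have h1 : (1 : ℝ) ≤ V.w := by exact_mod_cast V.one_le_w
  positivity

theorem bound_lamW (V : Ver E) {t : ℝ} (ht : |t| ≤ tW V) {e : E} (he : ‖e‖ ≤ 1) (y : E) :
    |lamW V t e y - 1| + ‖fderiv ℝ (lamW V t e) y‖ * ‖y‖ ≤ 1 / 2 := by
  have hw : (1 : ℝ) ≤ V.w := by exact_mod_cast V.one_le_w
  have hd : (2 : ℝ) * V.w + 2 ≤ Module.finrank ℝ E := by exact_mod_cast V.dim_le
  set n : ℝ := (Module.finrank ℝ E : ℝ) with hn
  have ha := abs_al_le he y
  have hk0 := kap_nonneg V y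
  have hk1 := kap_le V y
  have hT0 := tq_nonneg y
  have hT1 := tq_le_one y
  have hu := uu_pos y
  have hu1 := one_le_uu y
  have hyu := (norm_lt_uu y).le
  -- smallness
  have hK : 0 < n + V.w := by linarith
  have ht1 : |t| * (n + V.w) ≤ 1 / 16 := by
    have h1 : |t| ≤ 1 / (16 * (n + V.w)) := ht
    have h2 : |t| * (n + V.w) ≤ 1 / (16 * (n + V.w)) * (n + V.w) :=
      mul_le_mul_of_nonneg_right h1 hK.le
    have h3 : 1 / (16 * (n + V.w)) * (n + V.w) = 1 / 16 := by field_simp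
    linarith
  have ht0 : 0 ≤ |t| := abs_nonneg t
  have ht5 : |t| ≤ 1 / 80 := by nlinarith
  have htt : t ^ 2 = |t| * |t| := by rw [← sq, sq_abs]
  have hkt : |t| * kap V y ≤ 1 / 16 := by nlinarith
  have hwt : |t| * V.w ≤ 1 / 16 := by nlinarith
  -- first term
  have ha2 : al e y ^ 2 ≤ 1 := by
    rw [← sq_abs]
    exact pow_le_one₀ (abs_nonneg _) ha
  have h1 : |lamW V t e y - 1| ≤ |t| + |t| * (|t| * kap V y) / 2 := by
    have e1 : lamW V t e y - 1 = t * al e y - t ^ 2 / 2 * kap V y * al e y ^ 2 := by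
      unfold lamW
      ring
    rw [e1]
    refine (abs_sub _ _).trans ?_
    have e2 : |t * al e y| ≤ |t| := by
      rw [abs_mul]
      calc |t| * |al e y| ≤ |t| * 1 := mul_le_mul_of_nonneg_left ha ht0
        _ = |t| := mul_one _
    have e3 : |t ^ 2 / 2 * kap V y * al e y ^ 2| ≤ |t| * (|t| * kap V y) / 2 := by
      rw [abs_of_nonneg (by positivity), htt]
      have e4 : |t| * |t| / 2 * kap V y * al e y ^ 2 ≤ |t| * |t| / 2 * kap V y * 1 :=
        mul_le_mul_of_nonneg_left ha2 (by positivity)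
      linarith
    linarith
  -- gradient
  have h2 : ‖fderiv ℝ (lamW V t e) y‖ = ‖dlam V t e y‖ := by
    rw [(hasFDerivAt_lamW V t e y).fderiv, innerSL_apply_norm]
  have hl : |lW V t e y| ≤ |t| + |t| * (|t| * kap V y) := by
    unfold lW
    refine (abs_sub _ _).trans ?_
    have e3 : |t ^ 2 * kap V y * al e y| ≤ |t| * (|t| * kap V y) := by
      rw [abs_mul, abs_of_nonneg (by positivity : 0 ≤ t ^ 2 * kap V y), htt]
      calc |t| * |t| * kap V y * |al e y| ≤ |t| * |t| * kap V y * 1 :=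
            mul_le_mul_of_nonneg_left ha (by positivity)
        _ = |t| * (|t| * kap V y) := by ring
    linarith
  have hg : ‖(uu y)⁻¹ • e - (al e y / uu y ^ 2) • y‖ * ‖y‖ ≤ 2 := by
    have e1 : ‖(uu y)⁻¹ • e - (al e y / uu y ^ 2) • y‖ ≤ (uu y)⁻¹ * 1 + 1 / uu y ^ 2 * uu y := by
      refine (norm_sub_le _ _).trans ?_
      rw [norm_smul, norm_smul, Real.norm_eq_abs, Real.norm_eq_abs, abs_of_pos (inv_pos.2 hu),
        abs_div, abs_of_pos (by positivity : 0 < uu y ^ 2)]
      gcongr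
    have e2 : (uu y)⁻¹ * 1 + 1 / uu y ^ 2 * uu y = 2 / uu y := by
      field_simp
      norm_num
    rw [e2] at e1
    calc ‖(uu y)⁻¹ • e - (al e y / uu y ^ 2) • y‖ * ‖y‖ ≤ 2 / uu y * uu y := by gcongr
      _ = 2 := by field_simp
  have hr : |t ^ 2 * ((V.w : ℝ) - 1) * al e y ^ 2 * (1 - tq y) / uu y ^ 2| * (‖y‖ * ‖y‖)
      ≤ |t| * (|t| * V.w) := by
    have e1 : 0 ≤ t ^ 2 * ((V.w : ℝ) - 1) * al e y ^ 2 * (1 - tq y) / uu y ^ 2 := by
      have : 0 ≤ (V.w : ℝ) - 1 := by linarith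
      have : 0 ≤ 1 - tq y := by linarith
      positivity
    rw [abs_of_nonneg e1]
    have e2 : t ^ 2 * ((V.w : ℝ) - 1) * al e y ^ 2 * (1 - tq y) / uu y ^ 2 * (‖y‖ * ‖y‖)
        = t ^ 2 * ((V.w : ℝ) - 1) * (al e y ^ 2 * (1 - tq y) * tq y) := by
      unfold tq
      ring
    rw [e2]
    have e3 : al e y ^ 2 * (1 - tq y) * tq y ≤ 1 := by
      have e4 : al e y ^ 2 * (1 - tq y) ≤ 1 := by nlinarith [sq_nonneg (al e y)]
      have e5 : 0 ≤ al e y ^ 2 * (1 - tq y) := mul_nonneg (sq_nonneg _) (by linarith)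
      nlinarith
    calc t ^ 2 * ((V.w : ℝ) - 1) * (al e y ^ 2 * (1 - tq y) * tq y)
        ≤ t ^ 2 * ((V.w : ℝ) - 1) * 1 :=
          mul_le_mul_of_nonneg_left e3 (mul_nonneg (sq_nonneg t) (by linarith))
      _ ≤ |t| * (|t| * V.w) := by rw [htt]; nlinarith [mul_nonneg ht0 ht0]
  have h3 : ‖dlam V t e y‖ * ‖y‖ ≤ (|t| + |t| * (|t| * kap V y)) * 2 + |t| * (|t| * V.w) := by
    unfold dlam
    calc ‖lW V t e y • ((uu y)⁻¹ • e - (al e y / uu y ^ 2) • y)
          - (t ^ 2 * ((V.w : ℝ) - 1) * al e y ^ 2 * (1 - tq y) / uu y ^ 2) • y‖ * ‖y‖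
        ≤ (|lW V t e y| * ‖(uu y)⁻¹ • e - (al e y / uu y ^ 2) • y‖
          + |t ^ 2 * ((V.w : ℝ) - 1) * al e y ^ 2 * (1 - tq y) / uu y ^ 2| * ‖y‖) * ‖y‖ := by
          refine mul_le_mul_of_nonneg_right ((norm_sub_le _ _).trans ?_) (norm_nonneg y)
          rw [norm_smul, norm_smul, Real.norm_eq_abs, Real.norm_eq_abs]
      _ = |lW V t e y| * (‖(uu y)⁻¹ • e - (al e y / uu y ^ 2) • y‖ * ‖y‖)
          + |t ^ 2 * ((V.w : ℝ) - 1) * al e y ^ 2 * (1 - tq y) / uu y ^ 2| * (‖y‖ * ‖y‖) := by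
          ring
      _ ≤ (|t| + |t| * (|t| * kap V y)) * 2 + |t| * (|t| * V.w) := by
          refine add_le_add ?_ hr
          exact mul_le_mul hl hg (by positivity) (by positivity)
  rw [h2]
  have h4 : |t| * (|t| * kap V y) ≤ |t| * (1 / 16) := mul_le_mul_of_nonneg_left hkt ht0
  have h5 : |t| * (|t| * V.w) ≤ |t| * (1 / 16) := mul_le_mul_of_nonneg_left hwt ht0
  linarith

/-- The deformation as a diffeomorphism. -/
def polyDif (V : Ver E) (t : ℝ) (ht : |t| ≤ tW V) (e : E) (he : ‖e‖ ≤ 1) : Dif E :=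
  radDif (lamW V t e) (1 / 2) (contDiff_lamW V t e) (by norm_num) (by norm_num)
    (bound_lamW V ht he)

section poly
variable (V : Ver E) {t : ℝ} (ht : |t| ≤ tW V) {e : E} (he : ‖e‖ ≤ 1)
include ht he

theorem lamW_pos (y : E) : 0 < lamW V t e y :=
  lam_pos (c := 1 / 2) (by norm_num) (bound_lamW V ht he y)

theorem half_le_lamW (y : E) : 1 / 2 ≤ lamW V t e y := by
  have h1 := bound_lamW V ht he y
  have h2 : 0 ≤ ‖fderiv ℝ (lamW V t e) y‖ * ‖y‖ := by positivity
  have h3 := neg_abs_le (lamW V t e y - 1)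
  linarith

theorem LamW_pos (y : E) : 0 < LamW V t e y := by
  have h1 := lamW_pos V ht he y
  have h2 := one_add_pos (c := 1 / 2) (by norm_num) (bound_lamW V ht he y)
  have h3 : LamW V t e y = lamW V t e y * (1 + fderiv ℝ (lamW V t e) y y / lamW V t e y) := by
    rw [LamW_eq, fderiv_lamW]
    field_simp
  rw [h3]
  positivity

theorem half_le_LamW (y : E) : 1 / 2 ≤ LamW V t e y := by
  have h1 := bound_lamW V ht he y
  have h3 := neg_abs_le (lamW V t e y - 1)
  have h4 := neg_abs_le (fderiv ℝ (lamW V t e) y y)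
  have h5 : |fderiv ℝ (lamW V t e) y y| ≤ ‖fderiv ℝ (lamW V t e) y‖ * ‖y‖ :=
    (fderiv ℝ (lamW V t e) y).le_opNorm y
  rw [LamW_eq, ← fderiv_lamW]
  linarith

theorem polyDif_T (y : E) : (polyDif V t ht e he).T y = TW V t e y := rfl

theorem polyDif_D (y v : E) :
    (polyDif V t ht e he).D y v = lamW V t e y • v + ⟪dlam V t e y, v⟫_ℝ • y := by
  rw [← fderiv_lamW]
  exact radTD_apply _ _ _

theorem polyDif_det (y : E) : ((polyDif V t ht e he).D y).det
    = lamW V t e y ^ (Module.finrank ℝ E - 1) * LamW V t e y := by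
  have h1 := lamW_pos V ht he y
  have hd : 1 ≤ Module.finrank ℝ E := by have := V.dim_le; omega
  have h2 := radDif_det (lamW V t e) (1 / 2) (contDiff_lamW V t e) (by norm_num) (by norm_num)
    (bound_lamW V ht he) y
  have h3 : ((polyDif V t ht e he).D y).det = lamW V t e y ^ Module.finrank ℝ E
      * (1 + fderiv ℝ (lamW V t e) y y / lamW V t e y) := h2
  rw [h3, LamW_eq, fderiv_lamW]
  obtain ⟨M, hM⟩ := Nat.exists_eq_add_of_le hd
  rw [hM, Nat.add_sub_cancel_left, pow_add, pow_one]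
  field_simp

theorem polyDif_K (y ξ : E) : (polyDif V t ht e he).K y ξ
    = lamW V t e y ^ (Module.finrank ℝ E - 2) • zetaW V t e y ξ := by
  have h1 := lamW_pos V ht he y
  have hd : 2 ≤ Module.finrank ℝ E := by have := V.dim_le; omega
  have h2 := radDif_K (lamW V t e) (1 / 2) (contDiff_lamW V t e) (by norm_num) (by norm_num)
    (bound_lamW V ht he) y ξ
  have h3 : (polyDif V t ht e he).K y ξ = _ := h2
  rw [h3, gradient_lamW, fderiv_lamW]
  obtain ⟨M, hM⟩ := Nat.exists_eq_add_of_le hd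
  rw [hM, Nat.add_sub_cancel_left, pow_add]
  unfold zetaW
  rw [LamW_eq, smul_sub, smul_sub, smul_smul, smul_smul, smul_smul, smul_smul, smul_smul]
  congr 2
  · field_simp
  · field_simp

end poly

section measure
variable [MeasurableSpace E] [BorelSpace E] (V : Ver E)

theorem an_smul_pos (y ξ : E) {c : ℝ} (hc : 0 < c) : an V y (c • ξ) = c * an V y ξ := by
  rw [an_smul, abs_of_pos hc]

variable {t : ℝ} (ht : |t| ≤ tW V) {e : E} (he : ‖e‖ ≤ 1)
include ht he

theorem rho_TW (y : E) :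
    rho V (TW V t e y) = rho V y * (uu (TW V t e y) / uu y) ^ (V.w - 1) := by
  have := uu_pos y
  unfold rho
  rw [div_pow]
  field_simp

theorem fn_push {f : E → ℝ} (hf : Fn f) : Fn ((polyDif V t ht e he).push f) :=
  ⟨(polyDif V t ht e he).contDiff_push le_rfl hf.1,
    (polyDif V t ht e he).hasCompactSupport_push hf.2.1, fun _ => hf.2.2 _⟩

/-- Total variation of the transported function. -/
theorem TV_push {f : E → ℝ} (hf : Fn f) :
    TV V ((polyDif V t ht e he).push f) = ∫ y, BW V t e y (gradient f y) ∂(mu V) := by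
  unfold TV
  rw [integral_mu, integral_mu]
  have h1 := (polyDif V t ht e he).integral_grad (F := fun z ξ => rho V z * an V z ξ)
    (fun z ξ c hc => by simp only [an_smul_pos V z ξ hc]; ring) (f := f)
    (hf.1.differentiable (by simp))
  rw [h1]
  refine integral_congr_ae (Eventually.of_forall fun y => ?_)
  simp only
  rw [polyDif_T, polyDif_K, an_smul_pos V _ _ (pow_pos (lamW_pos V ht he y) _),
    rho_TW V ht he]
  unfold BW
  ring

/-- Change of variables for functions of the transported function. -/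
theorem integral_push' (h : E → ℝ → ℝ) (f : E → ℝ) :
    ∫ z, h z ((polyDif V t ht e he).push f z) ∂(mu V)
      = ∫ y, JW V t e y * h (TW V t e y) (f y) ∂(mu V) := by
  rw [integral_mu, integral_mu]
  have h1 := (polyDif V t ht e he).integral_push (fun z r => rho V z * h z r) f
  rw [h1]
  refine integral_congr_ae (Eventually.of_forall fun y => ?_)
  simp only
  rw [polyDif_det, polyDif_T, rho_TW V ht he]
  unfold JW
  ring

theorem mass_push (p : ℝ) (f : E → ℝ) :
    mass V p ((polyDif V t ht e he).push f) = ∫ y, f y ^ p * JW V t e y ∂(mu V) := by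
  unfold mass
  rw [integral_push' V ht he (fun _ r => r ^ p) f]
  refine integral_congr_ae (Eventually.of_forall fun y => ?_)
  simp only
  ring

theorem continuous_TW : Continuous (TW V t e) :=
  (contDiff_lamW V t e).continuous.smul continuous_id

theorem continuous_dlam : Continuous (dlam V t e) := by
  have h1 : dlam V t e = fun y => gradient (lamW V t e) y := by
    ext1 y
    rw [gradient_lamW]
  rw [h1]
  unfold gradient
  exact (InnerProductSpace.toDual ℝ E).symm.continuous.comp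
    ((contDiff_lamW V t e).continuous_fderiv (by simp))

theorem continuous_LamW : Continuous (LamW V t e) := by
  have h1 : LamW V t e = fun y => lamW V t e y + ⟪dlam V t e y, y⟫_ℝ := by
    ext1 y
    exact LamW_eq V t e y
  rw [h1]
  exact (contDiff_lamW V t e).continuous.add
    ((continuous_dlam V ht he).inner continuous_id)

theorem continuous_JW : Continuous (JW V t e) := by
  unfold JW
  exact (((continuous_uu.comp (continuous_TW V ht he)).div continuous_uu
    fun y => (uu_pos y).ne').pow _ |>.mul ((contDiff_lamW V t e).continuous.pow _)).mul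
      (continuous_LamW V ht he)

theorem continuous_BW {ξ : E → E} (hξ : Continuous ξ) :
    Continuous (fun y => BW V t e y (ξ y)) := by
  unfold BW zetaW
  have h1 : Continuous fun y => LamW V t e y • ξ y - ⟪y, ξ y⟫_ℝ • dlam V t e y :=
    ((continuous_LamW V ht he).smul hξ).sub
      ((continuous_id.inner hξ).smul (continuous_dlam V ht he))
  exact (((continuous_uu.comp (continuous_TW V ht he)).div continuous_uu
    fun y => (uu_pos y).ne').pow _ |>.mul ((contDiff_lamW V t e).continuous.pow _)).mul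
      ((continuous_an V).comp ((continuous_TW V ht he).prodMk h1))

theorem BW_zero (y : E) : BW V t e y 0 = 0 := by
  unfold BW zetaW
  simp [an_zero]

theorem integrable_BW {f : E → ℝ} (hf : Fn f) :
    Integrable (fun y => BW V t e y (gradient f y)) (mu V) := by
  refine integrable_mu V (continuous_BW V ht he (fn_continuous_grad hf)) ?_
  refine HasCompactSupport.mono (hasCompactSupport_gradient hf.2.1) ?_
  intro y hy hy0
  apply hy
  simp only
  rw [hy0]
  exact BW_zero V ht he y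

theorem integrable_JW {f : E → ℝ} (hf : Fn f) {p : ℝ} (hp : 1 ≤ p) :
    Integrable (fun y => f y ^ p * JW V t e y) (mu V) := by
  refine integrable_mu V ?_ ?_
  · refine Continuous.mul ?_ (continuous_JW V ht he)
    exact hf.1.continuous.rpow_const fun y => Or.inr (by linarith)
  · refine HasCompactSupport.mono hf.2.1 ?_
    intro y hy hy0
    apply hy
    simp only
    rw [hy0, Real.zero_rpow (by linarith), zero_mul]

end measure

end Diffeo

/-- Transport of a test function by `TW V t e`. -/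
theorem diffeoW {E : Type*} [NormedAddCommGroup E] [InnerProductSpace ℝ E]
    [FiniteDimensional ℝ E] [MeasurableSpace E] [BorelSpace E] (V : Ver E) :
    ∃ t₀, 0 < t₀ ∧ ∀ t : ℝ, |t| ≤ t₀ → ∀ e : E, ‖e‖ = 1 →
    ∀ f : E → ℝ, Fn f → ∃ g : E → ℝ, Fn g ∧
      Integrable (fun y => BW V t e y (gradient f y)) (mu V) ∧
      TV V g = ∫ y, BW V t e y (gradient f y) ∂(mu V) ∧
      ∀ p, 1 ≤ p → Integrable (fun y => f y ^ p * JW V t e y) (mu V) ∧
        mass V p g = ∫ y, f y ^ p * JW V t e y ∂(mu V) :=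
  ⟨Diffeo.tW V, Diffeo.tW_pos V, fun _ ht _ he f hf =>
    ⟨(Diffeo.polyDif V _ ht _ he.le).push f, Diffeo.fn_push V ht he.le hf,
      Diffeo.integrable_BW V ht he.le hf, Diffeo.TV_push V ht he.le hf, fun p hp =>
        ⟨Diffeo.integrable_JW V ht he.le hf hp, Diffeo.mass_push V ht he.le p f⟩⟩⟩

end

end Pool.Agent.Work.MP_3b24f6_gt
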