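import Pool.Agent.Work.MP_3b24f6_gt.Model

set_option autoImplicit false

open MeasureTheory Set Filter Topology
open scoped ContDiff InnerProductSpace

namespace Pool.Agent.Work.MP_3b24f6_gt

noncomputable section

variable {E : Type*} [NormedAddCommGroup E] [InnerProductSpace ℝ E] [FiniteDimensional ℝ E]

/-- Admissible variation functions: smooth, compactly supported in the region `dw ≠ 0`. -/
structure Adm (w φ : E → ℝ) : Prop where
  smooth : ContDiff ℝ ∞ φ
  cpt : HasCompactSupport φ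
  sub : ∀ z ∈ tsupport φ, fderiv ℝ w z ≠ 0

theorem Adm.add {w φ ψ : E → ℝ} (hφ : Adm w φ) (hψ : Adm w ψ) : Adm w (fun z => φ z + ψ z) where
  smooth := hφ.smooth.add hψ.smooth
  cpt := hφ.cpt.add hψ.cpt
  sub := by
    intro z hz
    have : z ∈ tsupport φ ∪ tsupport ψ := tsupport_add φ ψ hz
    rcases this with h | h
    · exact hφ.sub z h
    · exact hψ.sub z h

theorem Adm.const_mul {w φ : E → ℝ} (hφ : Adm w φ) (c : ℝ) : Adm w (fun z => c * φ z) where
  smooth := contDiff_const.mul hφ.smooth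
  cpt := hφ.cpt.mul_left
  sub := by
    intro z hz
    have : z ∈ tsupport φ := by
      have h := tsupport_mul_subset_right (f := fun _ : E => c) (g := φ)
      exact h hz
    exact hφ.sub z this

/-- A function continuous where `dw ≠ 0` times an admissible function is continuous. -/
theorem Adm.continuous_mul {w φ F : E → ℝ} (hφ : Adm w φ)
    (hF : ∀ z, fderiv ℝ w z ≠ 0 → ContinuousAt F z) : Continuous (fun z => F z * φ z) := by
  rw [continuous_iff_continuousAt]
  intro z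
  by_cases hz : z ∈ tsupport φ
  · exact (hF z (hφ.sub z hz)).mul hφ.smooth.continuous.continuousAt
  · have h0 : φ =ᶠ[𝓝 z] 0 := notMem_tsupport_iff_eventuallyEq.mp hz
    have h1 : (fun _ : E => (0 : ℝ)) =ᶠ[𝓝 z] fun z => F z * φ z := by
      filter_upwards [h0] with y hy
      simp [hy]
    exact continuousAt_const.congr h1

variable [MeasurableSpace E] [BorelSpace E]

theorem Adm.integrable_mul {w φ F : E → ℝ} (hφ : Adm w φ)
    (hF : ∀ z, fderiv ℝ w z ≠ 0 → ContinuousAt F z) (μ : Measure E) [IsFiniteMeasure μ] :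
    Integrable (fun z => F z * φ z) μ := by
  have hc := hφ.continuous_mul hF
  have hs : HasCompactSupport (fun z => F z * φ z) := hφ.cpt.mul_left
  exact hc.integrable_of_hasCompactSupport hs

variable (G : Geo E)

/-- First order part of the variation `w - t φ`. -/
def FirstVar (w : E → ℝ) (μ : Measure E) (φ : E → ℝ) : Prop :=
  ∃ t0 > 0, ∃ V A : ℝ → ℝ,
    (∀ t, |t| < t0 → IsReg (fun z => w z - t * φ z) ∧
      G.vol {z | w z - t * φ z < 0} = ENNReal.ofReal (V t) ∧ 0 ≤ V t ∧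
      G.area {z | w z - t * φ z < 0} = ENNReal.ofReal (A t) ∧ 0 ≤ A t) ∧
    HasDerivAt V (∫ z, G.ρ z * φ z ∂μ) 0 ∧
    HasDerivAt A (∫ z, G.mc w z * (G.ρ z * φ z) ∂μ) 0

/-- A function with a positive derivative at `0` is larger than its value at `0` on the right. -/
theorem eventually_gt_of_deriv_pos {V : ℝ → ℝ} {d : ℝ} (hV : HasDerivAt V d 0) (hd : 0 < d) :
    ∀ᶠ t in 𝓝[>] (0 : ℝ), V 0 < V t := by
  have h := hasDerivAt_iff_tendsto_slope.mp hV
  have h2 : ∀ᶠ t in 𝓝[≠] (0 : ℝ), 0 < slope V 0 t := h.eventually (lt_mem_nhds hd)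
  have h3 : ∀ᶠ t in 𝓝[>] (0 : ℝ), 0 < slope V 0 t :=
    h2.filter_mono (nhdsWithin_mono _ (fun x hx => ne_of_gt hx))
  filter_upwards [h3, self_mem_nhdsWithin] with t ht ht0
  have ht0' : (0 : ℝ) < t := ht0
  rw [slope_def_field] at ht
  have : 0 < V t - V 0 := by
    have := mul_pos ht (show (0 : ℝ) < t - 0 by linarith)
    rwa [div_mul_cancel₀] at this
    linarith
  linarith

/-- If `A` is minimal at `0` among small positive `t`, its derivative is nonnegative. -/
theorem deriv_nonneg_of_min {A : ℝ → ℝ} {d : ℝ} (hA : HasDerivAt A d 0)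
    (h : ∀ᶠ t in 𝓝[>] (0 : ℝ), A 0 ≤ A t) : 0 ≤ d := by
  by_contra hd
  push Not at hd
  have h1 : HasDerivAt (fun t => - A t) (-d) 0 := hA.neg
  have h2 := eventually_gt_of_deriv_pos h1 (by linarith)
  obtain ⟨t, ht, ht2⟩ := (h.and h2).exists
  simp only [neg_lt_neg_iff] at ht2
  linarith

theorem firstVar_nonneg {w : E → ℝ} {μ : Measure E} {φ : E → ℝ} (hv : FirstVar G w μ φ)
    (hmin : ∀ w', IsReg w' → G.vol {x | w x < 0} ≤ G.vol {x | w' x < 0} →
      G.area {x | w x < 0} ≤ G.area {x | w' x < 0})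
    (hpos : 0 < ∫ z, G.ρ z * φ z ∂μ) : 0 ≤ ∫ z, G.mc w z * (G.ρ z * φ z) ∂μ := by
  obtain ⟨t0, ht0, V, A, h, hV, hA⟩ := hv
  have e0 : {z | w z - 0 * φ z < 0} = {z | w z < 0} := by
    ext z; simp
  have hh0 := h 0 (by simpa using ht0)
  rw [e0] at hh0
  refine deriv_nonneg_of_min hA ?_
  have hsmall : ∀ᶠ t in 𝓝[>] (0 : ℝ), |t| < t0 := by
    have : ∀ᶠ t in 𝓝 (0 : ℝ), |t| < t0 := by
      have hc : Tendsto (fun t : ℝ => |t|) (𝓝 0) (𝓝 |0|) := continuous_abs.tendsto 0
      rw [abs_zero] at hc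
      exact hc.eventually (gt_mem_nhds ht0)
    exact this.filter_mono nhdsWithin_le_nhds
  filter_upwards [eventually_gt_of_deriv_pos hV hpos, hsmall] with t ht hts
  obtain ⟨hreg, hvol, hVt, har, hAt⟩ := h t hts
  have hle : G.vol {x | w x < 0} ≤ G.vol {x | w x - t * φ x < 0} := by
    rw [hvol, hh0.2.1]
    exact ENNReal.ofReal_le_ofReal ht.le
  have := hmin _ hreg hle
  rw [har, hh0.2.2.2.1] at this
  exact (ENNReal.ofReal_le_ofReal_iff hAt).mp this

/-- Bump functions around a point of the hypersurface. -/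
theorem exists_bump {w : E → ℝ} (hw : IsReg w) {z0 : E} (hz0 : w z0 = 0) {U : Set E}
    (hU : U ∈ 𝓝 z0) : ∃ φ : E → ℝ, Adm w φ ∧ (∀ z, 0 ≤ φ z) ∧ tsupport φ ⊆ U ∧
      ∃ r > 0, ∀ z ∈ Metric.ball z0 r, φ z = 1 := by
  have hd : {z | fderiv ℝ w z ≠ 0} ∈ 𝓝 z0 := by
    have hc : Continuous (fun z => fderiv ℝ w z) :=
      hw.smooth.continuous_fderiv (by simp)
    exact hc.continuousAt.eventually_ne (hw.reg z0 hz0)
  obtain ⟨r, hr, hrU⟩ := Metric.nhds_basis_closedBall.mem_iff.mp (Filter.inter_mem hU hd)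
  let b : ContDiffBump z0 := ⟨r / 2, r, by linarith, by linarith⟩
  refine ⟨b, ⟨b.contDiff, b.hasCompactSupport, ?_⟩, fun z => b.nonneg, ?_, r / 2, by linarith, ?_⟩
  · intro z hz
    rw [b.tsupport_eq] at hz
    exact (hrU hz).2
  · intro z hz
    rw [b.tsupport_eq] at hz
    exact (hrU hz).1
  · intro z hz
    exact b.one_of_mem_closedBall (Metric.ball_subset_closedBall hz)

/-- Positivity of integrals over the hypersurface. -/
theorem integral_pos_of {w : E → ℝ} {μ : Measure E} (hμ : IsDelta w μ) {f : E → ℝ}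
    (hf : Integrable f μ) (h0 : ∀ z, 0 ≤ f z) {z0 : E} (hz0 : w z0 = 0) {r : ℝ} (hr : 0 < r)
    (hpos : ∀ z ∈ Metric.ball z0 r, 0 < f z) : 0 < ∫ z, f z ∂μ := by
  rw [integral_pos_iff_support_of_nonneg h0 hf]
  refine lt_of_lt_of_le (hμ.full z0 hz0 r hr) (measure_mono ?_)
  intro z hz
  exact (hpos z hz).ne'

theorem exists_H_of {w : E → ℝ} (hw : IsReg w) {μ : Measure E} (hμ : IsDelta w μ)
    (hmc : ∀ z, fderiv ℝ w z ≠ 0 → ContinuousAt (G.mc w) z)
    (hvar : ∀ φ, Adm w φ → FirstVar G w μ φ)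
    (hmin : ∀ w', IsReg w' → G.vol {x | w x < 0} ≤ G.vol {x | w' x < 0} →
      G.area {x | w x < 0} ≤ G.area {x | w' x < 0}) :
    ∃ Λ : ℝ, ∀ z, w z = 0 → G.mc w z = Λ := by
  classical
  have hfin := hμ.fin
  by_cases hne : ∃ z1, w z1 = 0
  swap
  · exact ⟨0, fun z hz => absurd ⟨z, hz⟩ hne⟩
  obtain ⟨z1, hz1⟩ := hne
  have hρc : Continuous G.ρ := G.smooth_ρ.continuous
  -- the two functionals
  have hBi : ∀ φ, Adm w φ → Integrable (fun z => G.ρ z * φ z) μ := fun φ hφ =>
    hφ.integrable_mul (fun z _ => hρc.continuousAt) μ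
  have hAi : ∀ φ, Adm w φ → Integrable (fun z => G.mc w z * (G.ρ z * φ z)) μ := by
    intro φ hφ
    have := hφ.integrable_mul (F := fun z => G.mc w z * G.ρ z)
      (fun z hz => (hmc z hz).mul hρc.continuousAt) μ
    refine this.congr (Eventually.of_forall fun z => ?_)
    simp only
    ring
  set B : (E → ℝ) → ℝ := fun φ => ∫ z, G.ρ z * φ z ∂μ with hB
  set A : (E → ℝ) → ℝ := fun φ => ∫ z, G.mc w z * (G.ρ z * φ z) ∂μ with hA
  have hBlin : ∀ φ ψ, Adm w φ → Adm w ψ → ∀ a b : ℝ,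
      B (fun z => a * φ z + b * ψ z) = a * B φ + b * B ψ := by
    intro φ ψ hφ hψ a b
    simp only [hB]
    rw [← integral_const_mul, ← integral_const_mul, ← integral_add
      ((hBi φ hφ).const_mul a) ((hBi ψ hψ).const_mul b)]
    congr 1
    ext z
    ring
  have hAlin : ∀ φ ψ, Adm w φ → Adm w ψ → ∀ a b : ℝ,
      A (fun z => a * φ z + b * ψ z) = a * A φ + b * A ψ := by
    intro φ ψ hφ hψ a b
    simp only [hA]
    rw [← integral_const_mul, ← integral_const_mul, ← integral_add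
      ((hAi φ hφ).const_mul a) ((hAi ψ hψ).const_mul b)]
    congr 1
    ext z
    ring
  have hmain : ∀ φ, Adm w φ → 0 < B φ → 0 ≤ A φ := fun φ hφ hp =>
    firstVar_nonneg G (hvar φ hφ) hmin hp
  -- reference function
  obtain ⟨φ0, hφ0, hφ0n, -, r0, hr0, hφ01⟩ := exists_bump hw hz1 (U := univ) Filter.univ_mem
  have hB0 : 0 < B φ0 := by
    refine integral_pos_of hμ (hBi φ0 hφ0)
      (fun z => mul_nonneg (G.ρ_pos z).le (hφ0n z)) hz1 hr0 ?_
    intro z hz
    rw [hφ01 z hz, mul_one]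
    exact G.ρ_pos z
  -- kernel of B is in kernel of A
  have hker : ∀ φ, Adm w φ → B φ = 0 → 0 ≤ A φ := by
    intro φ hφ hφ0'
    have hlim : ∀ ε > 0, 0 ≤ ε * A φ0 + A φ := by
      intro ε hε
      have h1 : Adm w (fun z => ε * φ0 z + 1 * φ z) := (hφ0.const_mul ε).add (hφ.const_mul 1)
      have h2 := hmain _ h1 (by
        rw [hBlin φ0 φ hφ0 hφ ε 1, hφ0']
        have := mul_pos hε hB0
        linarith)
      rw [hAlin φ0 φ hφ0 hφ ε 1] at h2
      linarith
    by_contra hneg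
    push Not at hneg
    have hA0 : 0 ≤ A φ0 := hmain φ0 hφ0 hB0
    have h3 := hlim (-(A φ) / (2 * (A φ0 + 1))) (by
      apply div_pos <;> linarith)
    have h4 : -(A φ) / (2 * (A φ0 + 1)) * A φ0 ≤ -(A φ) / 2 := by
      rw [div_mul_eq_mul_div, div_le_div_iff₀ (by linarith) (by norm_num)]
      nlinarith
    linarith
  set Λ : ℝ := A φ0 / B φ0 with hΛ
  have hprop : ∀ φ, Adm w φ → A φ = Λ * B φ := by
    intro φ hφ
    have h1 : Adm w (fun z => (-(B φ / B φ0)) * φ0 z + 1 * φ z) :=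
      (hφ0.const_mul _).add (hφ.const_mul 1)
    have h2 : Adm w (fun z => (B φ / B φ0) * φ0 z + (-1) * φ z) :=
      (hφ0.const_mul _).add (hφ.const_mul _)
    have k1 := hker _ h1 (by rw [hBlin φ0 φ hφ0 hφ]; field_simp; ring)
    have k2 := hker _ h2 (by rw [hBlin φ0 φ hφ0 hφ]; field_simp; ring)
    rw [hAlin φ0 φ hφ0 hφ] at k1 k2
    have : A φ = B φ / B φ0 * A φ0 := by linarith
    rw [this, hΛ]
    ring
  -- the function (mc - Λ) vanishes on the surface
  have hdiff : ∀ φ, Adm w φ → ∫ z, (G.mc w z - Λ) * (G.ρ z * φ z) ∂μ = 0 := by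
    intro φ hφ
    have e : ∀ z, (G.mc w z - Λ) * (G.ρ z * φ z)
        = G.mc w z * (G.ρ z * φ z) - Λ * (G.ρ z * φ z) := fun z => by ring
    simp_rw [e]
    rw [integral_sub (hAi φ hφ) ((hBi φ hφ).const_mul Λ), integral_const_mul]
    have := hprop φ hφ
    simp only [hA, hB] at this
    linarith
  refine ⟨Λ, fun z0 hz0 => ?_⟩
  have hcont : ContinuousAt (G.mc w) z0 := hmc z0 (hw.reg z0 hz0)
  -- generic step with a sign
  have key : ∀ s : ℝ, 0 < s * (G.mc w z0 - Λ) → False := by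
    intro s hs
    have hU : {z | 0 < s * (G.mc w z - Λ)} ∈ 𝓝 z0 := by
      have hc : ContinuousAt (fun z => s * (G.mc w z - Λ)) z0 :=
        continuousAt_const.mul (hcont.sub continuousAt_const)
      exact hc.eventually (lt_mem_nhds hs)
    obtain ⟨φ, hφ, hφn, hφU, r, hr, hφ1⟩ := exists_bump hw hz0 hU
    have hint : Integrable (fun z => s * ((G.mc w z - Λ) * (G.ρ z * φ z))) μ := by
      have := ((hAi φ hφ).sub ((hBi φ hφ).const_mul Λ)).const_mul s
      refine this.congr (Eventually.of_forall fun z => ?_)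
      simp only [Pi.sub_apply]
      ring
    have hnn : ∀ z, 0 ≤ s * ((G.mc w z - Λ) * (G.ρ z * φ z)) := by
      intro z
      by_cases hz : z ∈ tsupport φ
      · have h1 : 0 < s * (G.mc w z - Λ) := hφU hz
        have h2 : 0 ≤ G.ρ z * φ z := mul_nonneg (G.ρ_pos z).le (hφn z)
        calc (0 : ℝ) ≤ (s * (G.mc w z - Λ)) * (G.ρ z * φ z) := mul_nonneg h1.le h2
          _ = _ := by ring
      · have : φ z = 0 := image_eq_zero_of_notMem_tsupport hz
        simp [this]
    have hp := integral_pos_of hμ hint hnn hz0 hr (by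
      intro z hz
      have hz1 : φ z = 1 := hφ1 z hz
      have hzt : z ∈ tsupport φ := subset_tsupport φ (by simp [hz1])
      have h1 : 0 < s * (G.mc w z - Λ) := hφU hzt
      rw [hz1, mul_one]
      calc (0 : ℝ) < (s * (G.mc w z - Λ)) * G.ρ z := mul_pos h1 (G.ρ_pos z)
        _ = _ := by ring)
    rw [integral_const_mul, hdiff φ hφ, mul_zero] at hp
    exact lt_irrefl 0 hp
  rcases lt_trichotomy (G.mc w z0) Λ with h | h | h
  · exact (key (-1) (by linarith)).elim
  · exact h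
  · exact (key 1 (by linarith)).elim

end

end Pool.Agent.Work.MP_3b24f6_gt
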