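import Pool.Agent.Work.MP_3b24f6_gt.FinalB1
import Pool.Agent.Work.MP_3b24f6_gt.Ball

set_option autoImplicit false
set_option linter.unusedSectionVars false

/-!
The isoperimetric inequality from the sharp Sobolev inequality.
-/

open MeasureTheory Set Filter Topology
open scoped ContDiff InnerProductSpace

namespace Pool.Agent.Work.MP_3b24f6_gt

noncomputable section

variable {E : Type*} [NormedAddCommGroup E] [InnerProductSpace ℝ E] [FiniteDimensional ℝ E]
  [MeasurableSpace E] [BorelSpace E]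

/-- The isoperimetric inequality, from the sharp Sobolev inequality (`hss`), the passage to sets
(`haf`) and the invariance of the area (`hphi`). -/
theorem isoperimetric_of {V : Ver E} (H : HomB V)
    (hss : ∀ {p : ℝ}, 1 < p → p < Module.finrank ℝ E / (Module.finrank ℝ E - 1) → ∀ {K : ℝ},
      0 ≤ K → (∀ s, 0 < s → K * rV (Module.finrank ℝ E - 1) V.w s ^ (1 / p)
        ≤ rA (Module.finrank ℝ E - 1) V.w s) → sg E ^ (1 - 1 / p) * K ≤ qq V p)
    {D : Set E}
    (haf : ∀ {p : ℝ}, 1 < p → ∀ {K : ℝ}, 0 ≤ K →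
      (∀ f : E → ℝ, Fn f → K * mass V p f ^ (1 / p) ≤ TV V f) → mu V D ≠ ⊤ →
      ENNReal.ofReal (K * (mu V D).toReal ^ (1 / p)) ≤ areaB V D)
    (hphi : ∀ (a : E) {D : Set E}, MeasurableSet D → mu V D ≠ ⊤ →
      areaB V (H.phi a '' D) = areaB V D)
    (a : E) {s : ℝ} (hs : 0 < s) (hv : mu V D = mu V {y | H.chd a y < us s}) :
    areaB V {y | H.chd a y < us s} ≤ areaB V D := by
  have hd := V.dim_le
  have hw := V.one_le_w
  set m : ℕ := Module.finrank ℝ E - 1 with hm
  have hmN : (Module.finrank ℝ E : ℝ) = m + 1 := by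
    have : Module.finrank ℝ E = m + 1 := by omega
    rw [this]; push_cast; ring
  have hwm : V.w ≤ m := by omega
  have hm1 : 1 ≤ m := hw.trans hwm
  have hm0 : (0 : ℝ) < m := by exact_mod_cast hm1
  have hsg : 0 < sg E := sg_pos' (by omega)
  have hball : MeasurableSet (Metric.ball (0 : E) s) := Metric.isOpen_ball.measurableSet
  rw [ball_eq V H a hs, mu_phi V H a hball, mu_ball V hs] at hv
  have hfin : mu V (Metric.ball (0 : E) s) ≠ ⊤ := by
    rw [mu_ball V hs]; exact ENNReal.ofReal_ne_top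
  rw [ball_eq V H a hs, hphi a hball hfin]
  refine (area_ball_le V hs).trans ?_
  -- parameters
  set β : ℝ := re m V.w s with hβ
  have hβg : (m : ℝ) / (m + 1) < β := re_gt hw hwm hs
  have hβ0 : 0 < β := lt_of_le_of_lt (by positivity) hβg
  have hβ1 : β < 1 := re_lt hw hwm hs
  have hV := rV_pos m V.w hs
  have hA := rA_pos m V.w hs
  have hVβ := Real.rpow_pos_of_pos hV β
  set p : ℝ := 1 / β with hp
  have hp1 : 1 < p := by rw [hp, lt_div_iff₀ hβ0]; linarith
  have hpβ : 1 / p = β := by rw [hp, one_div_one_div]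
  have hp2 : p < Module.finrank ℝ E / (Module.finrank ℝ E - 1) := by
    rw [hmN, hp, div_lt_div_iff₀ hβ0 (by linarith)]
    rw [div_lt_iff₀ (by linarith)] at hβg
    linarith
  set K : ℝ := rA m V.w s / rV m V.w s ^ β with hK
  have hK0 : 0 ≤ K := by positivity
  have hprof : ∀ s', 0 < s' → K * rV m V.w s' ^ (1 / p) ≤ rA m V.w s' := by
    intro s' hs'
    rw [hpβ, hK, div_mul_eq_mul_div, div_le_iff₀ hVβ]
    exact profile_min hw hwm hs hs'
  have hsob := hss hp1 hp2 hK0 hprof
  have hKs0 : 0 ≤ sg E ^ (1 - 1 / p) * K := mul_nonneg (Real.rpow_nonneg hsg.le _) hK0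
  have hDfin : mu V D ≠ ⊤ := by rw [hv]; exact ENNReal.ofReal_ne_top
  have hfin2 := haf hp1 hKs0 (fun f hf =>
    (mul_le_mul_of_nonneg_right hsob (Real.rpow_nonneg (mass_nonneg V hf p) _)).trans
      (qq_le V hp1.le hf)) hDfin
  refine le_trans (le_of_eq ?_) hfin2
  congr 1
  rw [hv, ENNReal.toReal_ofReal (mul_nonneg hsg.le hV.le), Real.mul_rpow hsg.le hV.le, hpβ, hK]
  have h2 : sg E ^ (1 - β) * sg E ^ β = sg E := by
    rw [← Real.rpow_add hsg]; simp
  calc sg E * rA m V.w s = (sg E ^ (1 - β) * sg E ^ β) * rA m V.w s := by rw [h2]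
    _ = sg E ^ (1 - β) * (rA m V.w s / rV m V.w s ^ β) * (sg E ^ β * rV m V.w s ^ β) := by
      field_simp

end

end Pool.Agent.Work.MP_3b24f6_gt
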