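import Pool.Agent.Work.MP_3b24f6_gt.MolConv

/-!
# From test functions to measurable sets
-/

set_option autoImplicit false
set_option linter.unusedSectionVars false

open MeasureTheory Set Filter Topology
open scoped ContDiff InnerProductSpace Convolution

namespace Pool.Agent.Work.MP_3b24f6_gt

noncomputable section

variable {E : Type*} [NormedAddCommGroup E] [InnerProductSpace ℝ E] [FiniteDimensional ℝ E]
  [MeasurableSpace E] [BorelSpace E]

namespace Mol

/-! ### the measure `mu` -/

theorem measurable_dens (V : Ver E) : Measurable (fun y => ENNReal.ofReal (rho V y)) :=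
  ENNReal.measurable_ofReal.comp (contDiff_rho V).continuous.measurable

theorem int_mu (V : Ver E) (g : E → ℝ) : ∫ y, g y ∂(mu V) = ∫ y, rho V y * g y := by
  rw [mu, integral_withDensity_eq_integral_toReal_smul (measurable_dens V)
    (Eventually.of_forall fun _ => ENNReal.ofReal_lt_top)]
  refine integral_congr_ae (Eventually.of_forall fun y => ?_)
  simp only [ENNReal.toReal_ofReal (rho_pos V y).le, smul_eq_mul]

theorem integrable_mu_iff (V : Ver E) {g : E → ℝ} :
    Integrable g (mu V) ↔ Integrable (fun y => rho V y * g y) := by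
  rw [mu, integrable_withDensity_iff_integrable_smul' (measurable_dens V)
    (Eventually.of_forall fun _ => ENNReal.ofReal_lt_top)]
  refine integrable_congr (Eventually.of_forall fun y => ?_)
  simp only [ENNReal.toReal_ofReal (rho_pos V y).le, smul_eq_mul]

theorem integrableOn_rho (V : Ver E) {D : Set E} (hD : MeasurableSet D) (hfin : mu V D ≠ ⊤) :
    IntegrableOn (rho V) D := by
  refine ⟨(contDiff_rho V).continuous.aestronglyMeasurable, ?_⟩
  rw [hasFiniteIntegral_iff_ofReal (Eventually.of_forall fun y => (rho_pos V y).le)]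
  rw [mu, withDensity_apply _ hD] at hfin
  exact lt_top_iff_ne_top.mpr hfin

theorem integral_rho (V : Ver E) {D : Set E} (hD : MeasurableSet D) :
    ∫ y in D, rho V y = (mu V D).toReal := by
  rw [mu, withDensity_apply _ hD,
    integral_eq_lintegral_of_nonneg_ae (Eventually.of_forall fun y => (rho_pos V y).le)
      (contDiff_rho V).continuous.aestronglyMeasurable]

/-! ### smooth cutoffs with small gradient -/

theorem exists_bound_st : ∃ C, 0 < C ∧ ∀ x, |deriv Real.smoothTransition x| ≤ C := by
  have hc : Continuous (deriv Real.smoothTransition) :=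
    (Real.smoothTransition.contDiff (n := 1)).continuous_deriv le_rfl
  have hs : HasCompactSupport (deriv Real.smoothTransition) := by
    refine HasCompactSupport.intro (isCompact_Icc (a := (0 : ℝ)) (b := 1)) fun x hx => ?_
    rw [mem_Icc, not_and_or, not_le, not_le] at hx
    rcases hx with hx | hx
    · have : Real.smoothTransition =ᶠ[𝓝 x] fun _ => (0 : ℝ) := by
        filter_upwards [Iio_mem_nhds hx] with y hy
        exact Real.smoothTransition.zero_of_nonpos (le_of_lt hy)
      rw [this.deriv_eq, deriv_const]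
    · have : Real.smoothTransition =ᶠ[𝓝 x] fun _ => (1 : ℝ) := by
        filter_upwards [Ioi_mem_nhds hx] with y hy
        exact Real.smoothTransition.one_of_one_le (le_of_lt hy)
      rw [this.deriv_eq, deriv_const]
  obtain ⟨C, hC⟩ := hc.bounded_above_of_compact_support hs
  refine ⟨max C 1, lt_max_of_lt_right one_pos, fun x => ?_⟩
  rw [← Real.norm_eq_abs]
  exact (hC x).trans (le_max_left _ _)

/-- The cutoff. -/
def chi (M : ℝ) (y : E) : ℝ := Real.smoothTransition (2 - Real.log (uu y) / M)

theorem contDiff_chi (M : ℝ) : ContDiff ℝ ∞ (chi M : E → ℝ) := by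
  refine (Real.smoothTransition.contDiff (n := (⊤ : ℕ∞))).comp ?_
  exact contDiff_const.sub ((contDiff_uu.log fun y => (uu_pos y).ne').div_const M)

theorem chi_nonneg (M : ℝ) (y : E) : 0 ≤ chi M y := Real.smoothTransition.nonneg _

theorem chi_le_one (M : ℝ) (y : E) : chi M y ≤ 1 := Real.smoothTransition.le_one _

theorem chi_eq_one {M : ℝ} (hM : 0 < M) {y : E} (h : Real.log (uu y) ≤ M) : chi M y = 1 := by
  refine Real.smoothTransition.one_of_one_le ?_
  have : Real.log (uu y) / M ≤ 1 := (div_le_one hM).mpr h
  linarith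

theorem chi_eq_zero {M : ℝ} (hM : 0 < M) {y : E} (h : Real.exp (2 * M) ≤ ‖y‖) :
    chi M y = 0 := by
  refine Real.smoothTransition.zero_of_nonpos ?_
  have h1 : 2 * M ≤ Real.log (uu y) := by
    rw [Real.le_log_iff_exp_le (uu_pos y)]
    exact h.trans (norm_le_uu y)
  have : 2 ≤ Real.log (uu y) / M := by
    rw [le_div_iff₀ hM]
    exact h1
  linarith

theorem hasFDerivAt_uu (y : E) : HasFDerivAt (uu : E → ℝ) ((uu y)⁻¹ • innerSL ℝ y) y := by
  have hn : HasFDerivAt (fun z : E => 1 + ‖z‖ ^ 2) ((2 : ℝ) • innerSL ℝ y) y := by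
    refine ((hasStrictFDerivAt_norm_sq y).hasFDerivAt.const_add 1).congr_fderiv ?_
    ext v; simp [two_smul]
  have hpos : (0 : ℝ) < 1 + ‖y‖ ^ 2 := by positivity
  refine (hn.sqrt hpos.ne').congr_fderiv ?_
  ext v
  simp only [smul_apply, innerSL_apply_apply, smul_eq_mul, uu]
  have : Real.sqrt (1 + ‖y‖ ^ 2) ≠ 0 := (Real.sqrt_pos.mpr hpos).ne'
  field_simp

theorem fderiv_chi (M : ℝ) (y v : E) : fderiv ℝ (chi M : E → ℝ) y v
    = deriv Real.smoothTransition (2 - Real.log (uu y) / M) * (-(⟪y, v⟫_ℝ / uu y ^ 2 / M)) := by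
  have h1 : HasFDerivAt (fun y : E => 2 - Real.log (uu y) / M)
      (-((M⁻¹ * (uu y)⁻¹ * (uu y)⁻¹) • innerSL ℝ y)) y := by
    have h := ((hasFDerivAt_uu y).log (uu_pos y).ne').mul_const M⁻¹
    have h2 := h.const_sub (2 : ℝ)
    refine (h2.congr_fderiv ?_)
    ext v
    simp only [neg_apply, smul_apply, innerSL_apply_apply, smul_eq_mul]
    ring
  have h3 : HasDerivAt Real.smoothTransition
      (deriv Real.smoothTransition (2 - Real.log (uu y) / M)) (2 - Real.log (uu y) / M) :=
    ((Real.smoothTransition.contDiff (n := 1)).differentiable one_ne_zero _).hasDerivAt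
  have h4 := h3.comp_hasFDerivAt y h1
  have h5 : fderiv ℝ (chi M : E → ℝ) y = _ := h4.fderiv
  rw [h5]
  simp only [neg_apply, smul_apply, innerSL_apply_apply, smul_eq_mul]
  field_simp

theorem abs_fderiv_chi (V : Ver E) {C : ℝ}
    (hC : ∀ x, |deriv Real.smoothTransition x| ≤ C) {M : ℝ} (hM : 0 < M) (y v : E) :
    |fderiv ℝ (chi M : E → ℝ) y v| ≤ C / M * Real.sqrt (mg V y v) := by
  rw [fderiv_chi, abs_mul, abs_neg, abs_div, abs_div, abs_of_pos hM,
    abs_of_pos (uu_sq_pos y)]
  have h1 := abs_inner_y_le V y v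
  have h2 : |⟪y, v⟫_ℝ| / uu y ^ 2 ≤ Real.sqrt (mg V y v) := by
    rw [div_le_iff₀ (uu_sq_pos y)]
    linarith
  have hC0 : 0 ≤ C := (abs_nonneg _).trans (hC 0)
  calc |deriv Real.smoothTransition (2 - Real.log (uu y) / M)| * (|⟪y, v⟫_ℝ| / uu y ^ 2 / M)
      ≤ C * (Real.sqrt (mg V y v) / M) := by
        gcongr
        exact hC _
    _ = C / M * Real.sqrt (mg V y v) := by ring

/-! ### the weak total variation -/

/-- Admissible fields. -/
def Adm (V : Ver E) (X : E → E) : Prop :=
  ContDiff ℝ ∞ X ∧ HasCompactSupport X ∧ ∀ y, mg V y (X y) ≤ 1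

theorem flux_le (V : Ver E) {D : Set E} (harea : areaB V D ≠ ⊤) {X : E → E} (hX : Adm V X) :
    ∫ y in D, divE (fun z => rho V z • X z) y ≤ (areaB V D).toReal := by
  rw [← ENNReal.ofReal_le_iff_le_toReal harea]
  exact le_iSup (fun X : {X : E → E // ContDiff ℝ ∞ X ∧ HasCompactSupport X ∧
    ∀ y, mg V y (X y) ≤ 1} => ENNReal.ofReal (∫ y in D, divE (fun z => rho V z • X.1 z) y))
    ⟨X, hX⟩

theorem contDiff_rhoX (V : Ver E) {X : E → E} (hX : ContDiff ℝ ∞ X) :
    ContDiff ℝ ∞ (fun z => rho V z • X z) := (contDiff_rho V).smul hX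

theorem hcs_rhoX (V : Ver E) {X : E → E} (hX : HasCompactSupport X) :
    HasCompactSupport (fun z => rho V z • X z) := hX.smul_left

theorem continuous_divE {Z : E → E} (hZ : ContDiff ℝ ∞ Z) : Continuous (divE Z) :=
  dl_continuous_divE (hZ.of_le (by exact_mod_cast le_top))

theorem hcs_divE {Z : E → E} (hZ : HasCompactSupport Z) : HasCompactSupport (divE Z) := by
  refine (hZ.fderiv (𝕜 := ℝ)).comp_left (g := tr) ?_
  simp [tr]

/-- Cutting off a set: the function `chi M * 1_D`. -/
def cutf (D : Set E) (M : ℝ) (y : E) : ℝ := chi M y * D.indicator (fun _ => (1 : ℝ)) y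

theorem flux_cutf_le (V : Ver E) {D : Set E} (hD : MeasurableSet D) (hfin : mu V D ≠ ⊤)
    (harea : areaB V D ≠ ⊤) {C : ℝ} (hC : ∀ x, |deriv Real.smoothTransition x| ≤ C)
    {M : ℝ} (hM : 0 < M) {X : E → E} (hX : Adm V X) :
    ∫ y, cutf D M y * divE (fun z => rho V z • X z) y
      ≤ (areaB V D).toReal + C / M * (mu V D).toReal := by
  obtain ⟨hX1, hX2, hX3⟩ := hX
  have hZ := contDiff_rhoX V hX1
  have hZc := hcs_rhoX V hX2
  have hd := continuous_divE hZ
  have hdc := hcs_divE hZc
  have hadm : Adm V (fun y => chi M y • X y) := by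
    refine ⟨(contDiff_chi M).smul hX1, hX2.smul_left, fun y => ?_⟩
    rw [mg_smul]
    have h0 := chi_nonneg M y
    have h1 := chi_le_one M y
    have h2 : chi M y ^ 2 ≤ 1 := by nlinarith
    have h3 := mg_nonneg V y (X y)
    have h4 := hX3 y
    nlinarith
  have h1 := flux_le V harea hadm
  have e1 : ∀ y, divE (fun z => rho V z • (chi M z • X z)) y
      = chi M y * divE (fun z => rho V z • X z) y
        + rho V y * fderiv ℝ (chi M : E → ℝ) y (X y) := by
    intro y
    have : (fun z => rho V z • (chi M z • X z)) = fun z => chi M z • (rho V z • X z) := by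
      funext z
      rw [smul_comm]
    rw [this, dl_divE_smul ((contDiff_chi M).differentiable (by simp) y)
      (hZ.differentiable (by simp) y), map_smul, smul_eq_mul]
  have i1 : Integrable (fun y => chi M y * divE (fun z => rho V z • X z) y) :=
    ((contDiff_chi M).continuous.mul hd).integrable_of_hasCompactSupport hdc.mul_left
  have i2 : Integrable (fun y => rho V y * fderiv ℝ (chi M : E → ℝ) y (X y)) := by
    refine Continuous.integrable_of_hasCompactSupport ?_ ?_
    · exact (contDiff_rho V).continuous.mul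
        (((contDiff_chi M).continuous_fderiv (by simp)).clm_apply hX1.continuous)
    · refine HasCompactSupport.mul_left ?_
      refine hX2.mono fun y hy => ?_
      rw [Function.mem_support] at hy ⊢
      intro h0
      exact hy (by rw [h0, map_zero])
  have e2 : ∫ y, cutf D M y * divE (fun z => rho V z • X z) y
      = ∫ y in D, chi M y * divE (fun z => rho V z • X z) y := by
    rw [← integral_indicator hD]
    refine integral_congr_ae (Eventually.of_forall fun y => ?_)
    by_cases hy : y ∈ D
    · simp [cutf, hy]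
    · simp [cutf, hy]
  have e3 : ∫ y in D, chi M y * divE (fun z => rho V z • X z) y
      = (∫ y in D, divE (fun z => rho V z • (chi M z • X z)) y)
        - ∫ y in D, rho V y * fderiv ℝ (chi M : E → ℝ) y (X y) := by
    rw [← integral_sub]
    · refine integral_congr_ae (Eventually.of_forall fun y => ?_)
      simp only [e1]
      ring
    · exact ((i1.add i2).congr (Eventually.of_forall fun y => (e1 y).symm)).integrableOn
    · exact i2.integrableOn
  have h2 : -∫ y in D, rho V y * fderiv ℝ (chi M : E → ℝ) y (X y)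
      ≤ C / M * (mu V D).toReal := by
    rw [← integral_rho V hD, ← integral_const_mul, ← integral_neg]
    refine integral_mono i2.neg.integrableOn ((integrableOn_rho V hD hfin).const_mul _)
      fun y => ?_
    simp only
    have h3 := abs_fderiv_chi V hC hM y (X y)
    have h4 : Real.sqrt (mg V y (X y)) ≤ 1 := Real.sqrt_le_one.mpr (hX3 y)
    have hC0 : 0 ≤ C := (abs_nonneg _).trans (hC 0)
    have h5 : |fderiv ℝ (chi M : E → ℝ) y (X y)| ≤ C / M := by
      refine h3.trans ?_
      exact mul_le_of_le_one_right (by positivity) h4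
    have h6 := neg_le_of_abs_le h5
    have h7 := (rho_pos V y).le
    nlinarith
  rw [e2, e3]
  linarith

/-! ### the smoothed gradient field -/

/-- The test field attached to `f`. -/
def tfield (V : Ver E) (f : E → ℝ) (e : ℝ) (y : E) : E :=
  -((Real.sqrt (⟪Cop V y (gradient f y), gradient f y⟫_ℝ + e ^ 2))⁻¹ • Cop V y (gradient f y))

theorem hcs_gradient {f : E → ℝ} (hf : HasCompactSupport f) :
    HasCompactSupport (fun y => gradient f y) := by
  have h := (hf.fderiv (𝕜 := ℝ)).comp_left (g := fun L => (InnerProductSpace.toDual ℝ E).symm L)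
    (by simp)
  exact h

theorem adm_tfield (V : Ver E) {f : E → ℝ} (hf : ContDiff ℝ ∞ f) (hfc : HasCompactSupport f)
    {e : ℝ} (he : 0 < e) : Adm V (tfield V f e) := by
  have hg : ContDiff ℝ ∞ (fun y => gradient f y) := AreaAux.contDiff_gradient hf
  have hCg : ContDiff ℝ ∞ (fun y => Cop V y (gradient f y)) := (contDiff_Cop V).clm_apply hg
  have hN : ContDiff ℝ ∞ (fun y => ⟪Cop V y (gradient f y), gradient f y⟫_ℝ + e ^ 2) :=
    (hCg.inner ℝ hg).add contDiff_const
  have hpos : ∀ y, 0 < ⟪Cop V y (gradient f y), gradient f y⟫_ℝ + e ^ 2 := fun y => by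
    have := inner_Cop_nonneg V y (gradient f y)
    positivity
  refine ⟨?_, ?_, fun y => ?_⟩
  · exact (((hN.sqrt fun y => (hpos y).ne').inv fun y =>
      (Real.sqrt_pos.mpr (hpos y)).ne').smul hCg).neg
  · have h := hcs_gradient hfc
    refine h.mono fun y hy => ?_
    rw [Function.mem_support] at hy ⊢
    intro h0
    apply hy
    simp only [tfield, h0, map_zero, smul_zero, neg_zero]
  · have h1 : mg V y (tfield V f e y)
        = (Real.sqrt (⟪Cop V y (gradient f y), gradient f y⟫_ℝ + e ^ 2))⁻¹ ^ 2
          * ⟪Cop V y (gradient f y), gradient f y⟫_ℝ := by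
      rw [tfield, ← neg_smul, mg_smul, mg_Cop, neg_sq]
    rw [h1, inv_pow, Real.sq_sqrt (hpos y).le, inv_mul_le_iff₀ (hpos y)]
    have := sq_nonneg e
    linarith

theorem inner_tfield (V : Ver E) (f : E → ℝ) (e : ℝ) (y : E) :
    -(fderiv ℝ f y (tfield V f e y))
      = an V y (gradient f y) ^ 2 / Real.sqrt (an V y (gradient f y) ^ 2 + e ^ 2) := by
  rw [tfield, map_neg, neg_neg, map_smul, ← AreaAux.inner_gradient, an_sq', smul_eq_mul,
    real_inner_comm]
  ring

theorem real_aux {a e : ℝ} (ha : 0 ≤ a) (he : 0 < e) : a ≤ a ^ 2 / Real.sqrt (a ^ 2 + e ^ 2) + e := by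
  have hpos : 0 < a ^ 2 + e ^ 2 := by positivity
  have h1 : 0 < Real.sqrt (a ^ 2 + e ^ 2) := Real.sqrt_pos.mpr hpos
  have h2 : Real.sqrt (a ^ 2 + e ^ 2) ≤ a + e := by
    rw [Real.sqrt_le_left (by positivity)]
    nlinarith [mul_nonneg ha he.le]
  have h3 : a ≤ Real.sqrt (a ^ 2 + e ^ 2) := by
    apply Real.le_sqrt_of_sq_le
    nlinarith
  rw [div_add' _ _ _ h1.ne', le_div_iff₀ h1]
  nlinarith

/-- Total variation of a mollified function. -/
theorem TV_moll_le (V : Ver E) (φ : ContDiffBump (0 : E)) {u : E → ℝ} (hu : Measurable u)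
    (hu0 : ∀ x, 0 ≤ u x) (hu1 : ∀ x, u x ≤ 1) {R : ℝ}
    (huR : ∀ x, R ≤ ‖x‖ → u x = 0) (hφ : φ.rOut ≤ 1) {B : ℝ}
    (hB : ∀ X, Adm V X → ∫ y, u y * divE (fun z => rho V z • X z) y ≤ B) {κ : ℝ} (hκ : 0 < κ)
    (hmg : ∀ x ∈ Metric.closedBall (0 : E) (R + 3), ∀ y ∈ Metric.closedBall (0 : E) (R + 3),
      dist x y < φ.rOut → ∀ v, rho V x ^ 2 * mg V y v ≤ (1 + κ) * (rho V y ^ 2 * mg V x v))
    {e : ℝ} (he : 0 < e) :
    TV V (moll φ u) ≤ (1 + κ) * B
      + e * (mu V (Metric.closedBall (0 : E) (R + 1))).toReal := by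
  have hui : Integrable u := by
    refine Integrable.mono' (g := (Metric.closedBall (0 : E) R).indicator fun _ => (1 : ℝ))
      ?_ hu.aestronglyMeasurable (Eventually.of_forall fun x => ?_)
    · exact (continuous_const.continuousOn.integrableOn_compact
        (isCompact_closedBall (0 : E) R)).integrable_indicator
        Metric.isClosed_closedBall.measurableSet
    · rw [Real.norm_eq_abs, abs_of_nonneg (hu0 x)]
      by_cases hx : x ∈ Metric.closedBall (0 : E) R
      · simp [hx, hu1 x]
      · rw [mem_closedBall_zero_iff, not_le] at hx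
        rw [huR x hx.le]
        exact indicator_nonneg (fun _ _ => zero_le_one) x
  set f := moll φ u with hf
  have hfs : ContDiff ℝ ∞ f := contDiff_moll_left φ hui.locallyIntegrable
  have hfz : ∀ x, R + 1 ≤ ‖x‖ → f x = 0 := fun x hx =>
    moll_zero_off φ huR x (by linarith)
  have hfc : HasCompactSupport f := by
    refine HasCompactSupport.intro (isCompact_closedBall (0 : E) (R + 1)) fun x hx => ?_
    rw [mem_closedBall_zero_iff, not_le] at hx
    exact hfz x hx.le
  set X := tfield V f e with hX
  have hadm : Adm V X := adm_tfield V hfs hfc he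
  obtain ⟨hX1, hX2, hX3⟩ := hadm
  have hZ := contDiff_rhoX V hX1
  have hZc := hcs_rhoX V hX2
  set Z : E → E := fun z => rho V z • X z with hZdef
  -- gradient vanishes outside
  have hgz : ∀ x, R + 1 < ‖x‖ → gradient f x = 0 := by
    intro x hx
    have : f =ᶠ[𝓝 x] fun _ => (0 : ℝ) := by
      have ho : IsOpen {x : E | R + 1 < ‖x‖} := isOpen_lt continuous_const continuous_norm
      filter_upwards [ho.mem_nhds hx] with y hy
      exact hfz y (le_of_lt hy)
    rw [gradient, this.fderiv_eq]
    simp
  -- the flux of the test field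
  have e1 : ∫ y, f y * divE Z y
      = ∫ y, rho V y * (an V y (gradient f y) ^ 2
        / Real.sqrt (an V y (gradient f y) ^ 2 + e ^ 2)) := by
    rw [dl_integral_mul_divE (hfs.of_le (by exact_mod_cast le_top)) hfc
      (hZ.of_le (by exact_mod_cast le_top)), ← integral_neg]
    refine integral_congr_ae (Eventually.of_forall fun y => ?_)
    simp only [hZdef, map_smul, smul_eq_mul]
    rw [← inner_tfield]
    ring
  have e2 : ∫ y, f y * divE Z y = ∫ y, u y * divE (moll φ Z) y := by
    rw [hf, integral_moll_mul φ hu hui (fun x => by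
      rw [abs_of_nonneg (hu0 x)]; exact hu1 x) (continuous_divE hZ) (hcs_divE hZc)]
    refine integral_congr_ae (Eventually.of_forall fun y => ?_)
    simp only [divE_moll φ hZ hZc y]
  -- the mollified field
  have hM1 : ContDiff ℝ ∞ (moll φ Z) := contDiff_moll φ hZ
  have hXz : ∀ x, R + 1 < ‖x‖ → X x = 0 := by
    intro x hx
    simp [hX, tfield, hgz x hx]
  have hMz : ∀ x, R + 2 < ‖x‖ → moll φ Z x = 0 := by
    intro x hx
    refine moll_eq_zero φ fun t ht => ?_
    have h1 := norm_sub_norm_le x t
    have h2 : R + 1 < ‖x - t‖ := by linarith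
    simp [hZdef, hXz _ h2]
  have hMc : HasCompactSupport (moll φ Z) := by
    refine HasCompactSupport.intro (isCompact_closedBall (0 : E) (R + 2)) fun x hx => ?_
    rw [mem_closedBall_zero_iff, not_le] at hx
    exact hMz x hx
  have hκ1 : 0 < 1 + κ := by linarith
  set s := Real.sqrt (1 + κ) with hs
  have hs0 : 0 < s := Real.sqrt_pos.mpr hκ1
  have hs2 : s ^ 2 = 1 + κ := Real.sq_sqrt hκ1.le
  have hs1 : 1 ≤ s := by
    rw [hs, Real.one_le_sqrt]
    linarith
  have hmgM : ∀ y, mg V y (moll φ Z y) ≤ (1 + κ) * rho V y ^ 2 := by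
    intro y
    by_cases hy : R + 2 < ‖y‖
    · rw [hMz y hy]
      have h0 : mg V y (0 : E) = 0 := by simp [mg]
      rw [h0]
      have := rho_pos V y
      positivity
    · push Not at hy
      refine mg_moll_le φ V hZ.continuous y fun t ht => ?_
      have hx : y - t ∈ Metric.closedBall (0 : E) (R + 3) := by
        rw [mem_closedBall_zero_iff]
        have := norm_sub_le y t
        linarith
      have hy' : y ∈ Metric.closedBall (0 : E) (R + 3) := by
        rw [mem_closedBall_zero_iff]
        linarith
      have hd : dist (y - t) y < φ.rOut := by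
        rw [dist_eq_norm]
        simpa using ht
      have h1 := hmg _ hx _ hy' hd (X (y - t))
      have h2 := hX3 (y - t)
      have h3 : 0 < rho V y ^ 2 := pow_pos (rho_pos V y) 2
      have e3 : mg V y (Z (y - t)) = rho V (y - t) ^ 2 * mg V y (X (y - t)) := by
        rw [hZdef, mg_smul]
      rw [e3]
      refine h1.trans ?_
      have : rho V y ^ 2 * mg V (y - t) (X (y - t)) ≤ rho V y ^ 2 := by nlinarith
      nlinarith
  have hadm2 : Adm V (fun y => (s⁻¹ * (rho V y)⁻¹) • moll φ Z y) := by
    refine ⟨?_, hMc.smul_left, fun y => ?_⟩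
    · exact (contDiff_const.mul ((contDiff_rho V).inv fun y => (rho_pos V y).ne')).smul hM1
    · rw [mg_smul]
      have h1 := hmgM y
      have h3 : 0 < rho V y ^ 2 := pow_pos (rho_pos V y) 2
      have e3 : (s⁻¹ * (rho V y)⁻¹) ^ 2 = ((1 + κ) * rho V y ^ 2)⁻¹ := by
        rw [mul_pow, inv_pow, inv_pow, hs2, mul_inv]
      rw [e3, inv_mul_le_iff₀ (by positivity)]
      linarith
  have h4 := hB _ hadm2
  have e4 : (fun z => rho V z • ((s⁻¹ * (rho V z)⁻¹) • moll φ Z z)) = fun z => s⁻¹ • moll φ Z z := by
    funext z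
    rw [smul_smul]
    congr 1
    have := (rho_pos V z).ne'
    field_simp
  have e5 : ∀ y, divE (fun z => s⁻¹ • moll φ Z z) y = s⁻¹ * divE (moll φ Z) y := by
    intro y
    rw [divE, divE, fderiv_fun_const_smul (hM1.differentiable (by simp) y)]
    simp [tr]
  have h5 : ∫ y, u y * divE (moll φ Z) y ≤ s * B := by
    have h6 : ∫ y, u y * divE (fun z => rho V z • ((s⁻¹ * (rho V z)⁻¹) • moll φ Z z)) y
        = s⁻¹ * ∫ y, u y * divE (moll φ Z) y := by
      rw [e4, ← integral_const_mul]
      refine integral_congr_ae (Eventually.of_forall fun y => ?_)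
      simp only [e5]
      ring
    rw [h6] at h4
    rwa [inv_mul_le_iff₀ hs0] at h4
  have hB0 : 0 ≤ B := by
    have h0 : Adm V (fun _ : E => (0 : E)) :=
      ⟨contDiff_const, HasCompactSupport.zero, fun y => by simp [mg]⟩
    have := hB _ h0
    have e0 : ∀ y : E, divE (fun z : E => rho V z • (0 : E)) y = 0 := by
      intro y
      simp [divE, tr]
    simp only [e0, mul_zero, integral_zero] at this
    exact this
  have h6 : ∫ y, f y * divE Z y ≤ (1 + κ) * B := by
    rw [e2]
    refine h5.trans ?_
    have : s ≤ 1 + κ := by nlinarith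
    exact mul_le_mul_of_nonneg_right this hB0
  -- pointwise comparison
  have hKm : MeasurableSet (Metric.closedBall (0 : E) (R + 1)) :=
    Metric.isClosed_closedBall.measurableSet
  have hgc : Continuous (fun y => gradient f y) := (AreaAux.contDiff_gradient hfs).continuous
  have hac : Continuous (fun y => an V y (gradient f y)) :=
    (continuous_an V).comp (continuous_id.prodMk hgc)
  have hanc : HasCompactSupport (fun y => an V y (gradient f y)) := by
    refine (hcs_gradient hfc).mono fun y hy => ?_
    rw [Function.mem_support] at hy ⊢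
    intro h0
    apply hy
    rw [h0]
    simp [an]
  have i1 : Integrable (fun y => rho V y * an V y (gradient f y)) :=
    ((contDiff_rho V).continuous.mul hac).integrable_of_hasCompactSupport hanc.mul_left
  have hsq : Continuous (fun y => an V y (gradient f y) ^ 2
        / Real.sqrt (an V y (gradient f y) ^ 2 + e ^ 2)) := by
    refine (hac.pow 2).div ((hac.pow 2).add continuous_const).sqrt fun y => ?_
    exact (Real.sqrt_pos.mpr (by positivity)).ne'
  have i2 : Integrable (fun y => rho V y * (an V y (gradient f y) ^ 2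
        / Real.sqrt (an V y (gradient f y) ^ 2 + e ^ 2))) := by
    refine ((contDiff_rho V).continuous.mul hsq).integrable_of_hasCompactSupport ?_
    refine HasCompactSupport.mul_left (hanc.mono fun y hy => ?_)
    rw [Function.mem_support] at hy ⊢
    intro h0
    apply hy
    simp [h0]
  have hKfin : mu V (Metric.closedBall (0 : E) (R + 1)) ≠ ⊤ := by
    rw [mu, withDensity_apply _ hKm]
    have := ((contDiff_rho V).continuous.continuousOn.integrableOn_compact
      (isCompact_closedBall (0 : E) (R + 1)) (μ := volume)).2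
    rw [hasFiniteIntegral_iff_ofReal (Eventually.of_forall fun y => (rho_pos V y).le)] at this
    exact this.ne
  have i3 : Integrable (fun y => e * (Metric.closedBall (0 : E) (R + 1)).indicator (rho V) y) :=
    ((integrableOn_rho V hKm hKfin).integrable_indicator hKm).const_mul e
  have e6 : TV V f = ∫ y, rho V y * an V y (gradient f y) := by
    rw [TV, int_mu]
  have h7 : ∫ y, rho V y * an V y (gradient f y)
      ≤ ∫ y, (rho V y * (an V y (gradient f y) ^ 2
        / Real.sqrt (an V y (gradient f y) ^ 2 + e ^ 2))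
        + e * (Metric.closedBall (0 : E) (R + 1)).indicator (rho V) y) := by
    refine integral_mono i1 (i2.add i3) fun y => ?_
    simp only
    by_cases hy : y ∈ Metric.closedBall (0 : E) (R + 1)
    · rw [indicator_of_mem hy]
      have h8 := real_aux (an_nonneg V y (gradient f y)) he
      have h9 := rho_pos V y
      nlinarith
    · rw [indicator_of_notMem hy]
      rw [mem_closedBall_zero_iff, not_le] at hy
      have h0 : an V y (gradient f y) = 0 := by
        rw [hgz y hy]
        simp [an]
      simp [h0]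
  rw [integral_add i2 i3, integral_const_mul, integral_indicator hKm, integral_rho V hKm,
    ← e1] at h7
  rw [e6]
  linarith

/-! ### convergence -/

theorem cutf_nonneg (D : Set E) (M : ℝ) (y : E) : 0 ≤ cutf D M y :=
  mul_nonneg (chi_nonneg M y) (indicator_nonneg (fun _ _ => zero_le_one) y)

theorem cutf_le_one (D : Set E) (M : ℝ) (y : E) : cutf D M y ≤ 1 := by
  refine mul_le_one₀ (chi_le_one M y) (indicator_nonneg (fun _ _ => zero_le_one) y) ?_
  exact indicator_le' (fun _ _ => le_rfl) (fun _ _ => zero_le_one) y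

theorem measurable_cutf {D : Set E} (hD : MeasurableSet D) (M : ℝ) : Measurable (cutf D M) :=
  (contDiff_chi M).continuous.measurable.mul (measurable_const.indicator hD)

/-- The bump functions of radius `2 / (n + 2)`. -/
def bump (n : ℕ) : ContDiffBump (0 : E) where
  rIn := 1 / (n + 2)
  rOut := 2 / (n + 2)
  rIn_pos := by positivity
  rIn_lt_rOut := by
    have : (0 : ℝ) < n + 2 := by positivity
    rw [div_lt_div_iff_of_pos_right this]
    norm_num

theorem tendsto_bump : Tendsto (fun n => (bump (E := E) n).rOut) atTop (𝓝 0) := by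
  have h : Tendsto (fun n : ℕ => (2 : ℝ) / ((n : ℝ) + 2)) atTop (𝓝 0) := by
    refine Tendsto.div_atTop tendsto_const_nhds ?_
    exact tendsto_atTop_add_const_right _ _ tendsto_natCast_atTop_atTop
  exact h

theorem bump_le (n : ℕ) : (bump (E := E) n).rOut ≤ 1 := by
  have : (0 : ℝ) < n + 2 := by positivity
  change (2 : ℝ) / (n + 2) ≤ 1
  rw [div_le_one this]
  have : (0 : ℝ) ≤ n := Nat.cast_nonneg n
  linarith

theorem tendsto_moll (V : Ver E) {u : E → ℝ} (hu : Measurable u)
    (hu0 : ∀ x, 0 ≤ u x) (hu1 : ∀ x, u x ≤ 1) {R : ℝ}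
    (huR : ∀ x, R ≤ ‖x‖ → u x = 0) (hui : LocallyIntegrable u) :
    Tendsto (fun n => ∫ y, rho V y * |moll (bump n) u y - u y|) atTop (𝓝 0) := by
  have hKm : MeasurableSet (Metric.closedBall (0 : E) (R + 1)) :=
    Metric.isClosed_closedBall.measurableSet
  have hb : Integrable ((Metric.closedBall (0 : E) (R + 1)).indicator (rho V)) :=
    ((contDiff_rho V).continuous.continuousOn.integrableOn_compact
      (isCompact_closedBall (0 : E) (R + 1))).integrable_indicator hKm
  have hae := ContDiffBump.ae_convolution_tendsto_right_of_locallyIntegrable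
    (μ := (volume : Measure E)) (φ := fun n : ℕ => bump (E := E) n) (l := atTop) (K := 2)
    tendsto_bump (Eventually.of_forall fun n => by
      change (2 : ℝ) / (n + 2) ≤ 2 * (1 / (n + 2))
      rw [mul_one_div]) hui
  have h0 : (0 : ℝ) = ∫ _ : E, (0 : ℝ) := by simp
  rw [h0]
  refine tendsto_integral_of_dominated_convergence
    ((Metric.closedBall (0 : E) (R + 1)).indicator (rho V)) (fun n => ?_) hb (fun n => ?_) ?_
  · have h1 : Continuous (moll (bump n) u) := (contDiff_moll_left (bump n) hui).continuous
    exact ((contDiff_rho V).continuous.measurable.mul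
      (h1.measurable.sub hu).abs).aestronglyMeasurable
  · refine Eventually.of_forall fun y => ?_
    rw [Real.norm_eq_abs, abs_mul, abs_abs, abs_of_pos (rho_pos V y)]
    have m0 := moll_nonneg (bump n) hu0 y
    have m1 := moll_le_one (bump n) hu0 hu1 y
    have h1 : |moll (bump n) u y - u y| ≤ 1 := by
      rw [abs_le]
      constructor
      · linarith [hu1 y]
      · linarith [hu0 y]
    by_cases hy : y ∈ Metric.closedBall (0 : E) (R + 1)
    · rw [indicator_of_mem hy]
      exact mul_le_of_le_one_right (rho_pos V y).le h1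
    · rw [indicator_of_notMem hy]
      rw [mem_closedBall_zero_iff, not_le] at hy
      have e1 : moll (bump n) u y = 0 :=
        moll_zero_off (bump n) huR y (by linarith [bump_le (E := E) n])
      have e2 : u y = 0 := huR y (by linarith)
      rw [e1, e2]
      simp
  · filter_upwards [hae] with y hy
    have h1 : Tendsto (fun n => moll (bump n) u y) atTop (𝓝 (u y)) := hy
    have h2 : Tendsto (fun n => rho V y * |moll (bump n) u y - u y|) atTop
        (𝓝 (rho V y * |u y - u y|)) := (h1.sub_const _).abs.const_mul _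
    simpa using h2

theorem tendsto_cutf (V : Ver E) {D : Set E} (hD : MeasurableSet D) (hfin : mu V D ≠ ⊤) :
    Tendsto (fun M : ℝ => ∫ y, rho V y * |cutf D M y - D.indicator (fun _ => (1 : ℝ)) y|)
      atTop (𝓝 0) := by
  have h0 : (0 : ℝ) = ∫ _ : E, (0 : ℝ) := by simp
  rw [h0]
  refine tendsto_integral_filter_of_dominated_convergence (D.indicator (rho V))
    (Eventually.of_forall fun M => ?_) (Eventually.of_forall fun M => ?_)
    ((integrableOn_rho V hD hfin).integrable_indicator hD) (Eventually.of_forall fun y => ?_)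
  · exact ((contDiff_rho V).continuous.measurable.mul
      ((measurable_cutf hD M).sub (measurable_const.indicator hD)).abs).aestronglyMeasurable
  · refine Eventually.of_forall fun y => ?_
    rw [Real.norm_eq_abs, abs_mul, abs_abs, abs_of_pos (rho_pos V y)]
    by_cases hy : y ∈ D
    · simp only [cutf, indicator_of_mem hy, mul_one]
      refine mul_le_of_le_one_right (rho_pos V y).le ?_
      rw [abs_le]
      constructor
      · linarith [chi_nonneg M y]
      · linarith [chi_le_one M y]
    · simp [cutf, indicator_of_notMem hy]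
  · refine tendsto_const_nhds.congr' ?_
    filter_upwards [eventually_ge_atTop (max 1 (Real.log (uu y)))] with M hM
    have hM0 : 0 < M := lt_of_lt_of_le one_pos ((le_max_left _ _).trans hM)
    rw [cutf, chi_eq_one hM0 ((le_max_right _ _).trans hM)]
    simp

end Mol

open Mol

/-- Approximation of a set of finite volume and perimeter by test functions. -/
theorem exists_approx (V : Ver E) {D : Set E} (hD : MeasurableSet D) (hfin : mu V D ≠ ⊤)
    (harea : areaB V D ≠ ⊤) {ε : ℝ} (hε : 0 < ε) :
    ∃ f : E → ℝ, Fn f ∧ (∀ y, f y ≤ 1) ∧ TV V f ≤ (areaB V D).toReal + ε ∧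
      ∫ y, |f y - D.indicator (fun _ => (1 : ℝ)) y| ∂(mu V) ≤ ε := by
  obtain ⟨C, hC0, hC⟩ := exists_bound_st
  set A := (areaB V D).toReal with hA
  have hA0 : 0 ≤ A := ENNReal.toReal_nonneg
  have hDm0 : 0 ≤ (mu V D).toReal := ENNReal.toReal_nonneg
  -- choice of the cutoff
  obtain ⟨M, hM0, hM1, hM2⟩ : ∃ M : ℝ, 0 < M ∧ C / M * (mu V D).toReal ≤ ε / 4 ∧
      ∫ y, rho V y * |cutf D M y - D.indicator (fun _ => (1 : ℝ)) y| < ε / 2 := by
    have h1 : ∀ᶠ M : ℝ in atTop,
        ∫ y, rho V y * |cutf D M y - D.indicator (fun _ => (1 : ℝ)) y| < ε / 2 :=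
      (tendsto_cutf V hD hfin).eventually (gt_mem_nhds (half_pos hε))
    have h2 : ∀ᶠ M : ℝ in atTop, 4 * C * (mu V D).toReal / ε ≤ M := eventually_ge_atTop _
    obtain ⟨M, ⟨h3, h4⟩, h5⟩ := ((h1.and h2).and (eventually_gt_atTop 0)).exists
    refine ⟨M, h5, ?_, h3⟩
    rw [div_le_iff₀ hε] at h4
    rw [div_mul_eq_mul_div, div_le_iff₀ h5]
    linarith
  set u := cutf D M with hu
  have hum : Measurable u := measurable_cutf hD M
  have hu0 : ∀ x, 0 ≤ u x := cutf_nonneg D M
  have hu1 : ∀ x, u x ≤ 1 := cutf_le_one D M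
  set R := Real.exp (2 * M) with hR
  have huR : ∀ x, R ≤ ‖x‖ → u x = 0 := fun x hx => by
    rw [hu, cutf, chi_eq_zero hM0 hx, zero_mul]
  have hui : Integrable u := by
    refine Integrable.mono' (g := (Metric.closedBall (0 : E) R).indicator fun _ => (1 : ℝ))
      ?_ hum.aestronglyMeasurable (Eventually.of_forall fun x => ?_)
    · exact (continuous_const.continuousOn.integrableOn_compact
        (isCompact_closedBall (0 : E) R)).integrable_indicator
        Metric.isClosed_closedBall.measurableSet
    · rw [Real.norm_eq_abs, abs_of_nonneg (hu0 x)]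
      by_cases hx : x ∈ Metric.closedBall (0 : E) R
      · simp [hx, hu1 x]
      · rw [mem_closedBall_zero_iff, not_le] at hx
        rw [huR x hx.le]
        exact indicator_nonneg (fun _ _ => zero_le_one) x
  have hB : ∀ X, Adm V X → ∫ y, u y * divE (fun z => rho V z • X z) y ≤ A + ε / 4 := by
    intro X hX
    have := flux_cutf_le V hD hfin harea hC hM0 hX
    linarith
  -- comparison of the metrics
  set κ := ε / (4 * (A + ε)) with hκ
  have hκ0 : 0 < κ := by positivity
  obtain ⟨δ, hδ, hδ2⟩ := exists_delta_mg V (isCompact_closedBall (0 : E) (R + 3)) hκ0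
  set m := (mu V (Metric.closedBall (0 : E) (R + 1))).toReal with hm
  have hm0 : 0 ≤ m := ENNReal.toReal_nonneg
  set e := ε / (4 * (m + 1)) with he
  have he0 : 0 < e := by positivity
  have t1 := (tendsto_moll V hum hu0 hu1 huR hui.locallyIntegrable).eventually
    (gt_mem_nhds (half_pos hε))
  have t2 := (tendsto_bump (E := E)).eventually (gt_mem_nhds hδ)
  obtain ⟨n, hn1, hn2⟩ := (t1.and t2).exists
  have hTV := TV_moll_le V (bump n) hum hu0 hu1 huR (bump_le n) hB hκ0
    (fun x hx y hy hxy v => hδ2 x hx y hy (hxy.trans hn2) v) he0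
  have hfs : ContDiff ℝ ∞ (moll (bump n) u) := contDiff_moll_left _ hui.locallyIntegrable
  refine ⟨moll (bump n) u, ⟨hfs, ?_, moll_nonneg _ hu0⟩, moll_le_one _ hu0 hu1, ?_, ?_⟩
  · refine HasCompactSupport.intro (isCompact_closedBall (0 : E) (R + 1)) fun x hx => ?_
    rw [mem_closedBall_zero_iff, not_le] at hx
    exact moll_zero_off _ huR x (by linarith [bump_le (E := E) n])
  · refine hTV.trans ?_
    have h1 : κ * (A + ε / 4) ≤ ε / 4 := by
      rw [hκ, div_mul_eq_mul_div, div_le_iff₀ (by positivity)]
      nlinarith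
    have h2 : e * m ≤ ε / 4 := by
      rw [he, div_mul_eq_mul_div, div_le_iff₀ (by positivity)]
      nlinarith
    nlinarith
  · rw [int_mu]
    have hcf : Continuous (moll (bump n) u) := hfs.continuous
    have i1 : Integrable (fun y => rho V y * |moll (bump n) u y - u y|) := by
      by_contra hcon
      -- bounded with bounded support
      apply hcon
      refine Integrable.mono' (g := (Metric.closedBall (0 : E) (R + 1)).indicator (rho V)) ?_
        ((contDiff_rho V).continuous.measurable.mul
          (hcf.measurable.sub hum).abs).aestronglyMeasurable (Eventually.of_forall fun y => ?_)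
      · exact ((contDiff_rho V).continuous.continuousOn.integrableOn_compact
          (isCompact_closedBall (0 : E) (R + 1))).integrable_indicator
          Metric.isClosed_closedBall.measurableSet
      · rw [Real.norm_eq_abs, abs_mul, abs_abs, abs_of_pos (rho_pos V y)]
        have m0 := moll_nonneg (bump n) hu0 y
        have m1 := moll_le_one (bump n) hu0 hu1 y
        have h1 : |moll (bump n) u y - u y| ≤ 1 := by
          rw [abs_le]
          constructor
          · linarith [hu1 y]
          · linarith [hu0 y]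
        by_cases hy : y ∈ Metric.closedBall (0 : E) (R + 1)
        · rw [indicator_of_mem hy]
          exact mul_le_of_le_one_right (rho_pos V y).le h1
        · rw [indicator_of_notMem hy]
          rw [mem_closedBall_zero_iff, not_le] at hy
          have e1 : moll (bump n) u y = 0 :=
            moll_zero_off (bump n) huR y (by linarith [bump_le (E := E) n])
          have e2 : u y = 0 := huR y (by linarith)
          rw [e1, e2]
          simp
    have i2 : Integrable (fun y => rho V y * |u y - D.indicator (fun _ => (1 : ℝ)) y|) := by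
      refine Integrable.mono' (g := D.indicator (rho V))
        ((integrableOn_rho V hD hfin).integrable_indicator hD)
        ((contDiff_rho V).continuous.measurable.mul
          (hum.sub (measurable_const.indicator hD)).abs).aestronglyMeasurable
        (Eventually.of_forall fun y => ?_)
      rw [Real.norm_eq_abs, abs_mul, abs_abs, abs_of_pos (rho_pos V y)]
      by_cases hy : y ∈ D
      · simp only [hu, cutf, indicator_of_mem hy, mul_one]
        refine mul_le_of_le_one_right (rho_pos V y).le ?_
        rw [abs_le]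
        constructor
        · linarith [chi_nonneg M y]
        · linarith [chi_le_one M y]
      · simp [hu, cutf, indicator_of_notMem hy]
    have h3 : ∫ y, rho V y * |moll (bump n) u y - D.indicator (fun _ => (1 : ℝ)) y|
        ≤ ∫ y, (rho V y * |moll (bump n) u y - u y|
          + rho V y * |u y - D.indicator (fun _ => (1 : ℝ)) y|) := by
      refine integral_mono_of_nonneg (Eventually.of_forall fun y =>
        mul_nonneg (rho_pos V y).le (abs_nonneg _)) (i1.add i2) (Eventually.of_forall fun y => ?_)
      simp only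
      rw [← mul_add]
      exact mul_le_mul_of_nonneg_left (abs_sub_le _ _ _) (rho_pos V y).le
    rw [integral_add i1 i2] at h3
    linarith

/-- Integrability of the difference. -/
theorem Mol.integrable_sub_ind (V : Ver E) {D : Set E} (hD : MeasurableSet D)
    (hfin : mu V D ≠ ⊤) {f : E → ℝ} (hf : Fn f) :
    Integrable (fun y => |f y - D.indicator (fun _ => (1 : ℝ)) y|) (mu V) := by
  have i1 : Integrable f (mu V) := by
    rw [integrable_mu_iff]
    exact ((contDiff_rho V).continuous.mul hf.1.continuous).integrable_of_hasCompactSupport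
      hf.2.1.mul_left
  have i2 : Integrable (D.indicator (fun _ => (1 : ℝ))) (mu V) :=
    (integrable_indicator_iff hD).mpr (integrableOn_const hfin)
  exact (i1.sub i2).abs

theorem Mol.rpow_sub_le {a p : ℝ} (hp : 1 ≤ p) (ha0 : 0 ≤ a) :
    1 - a ^ p ≤ p * (1 - a) := by
  have h := one_add_mul_self_le_rpow_one_add (s := a - 1) (by linarith) hp
  have e : 1 + (a - 1) = a := by ring
  rw [e] at h
  linarith

theorem area_of_fun (V : Ver E) {p : ℝ} (hp : 1 < p) {K : ℝ} (hK : 0 ≤ K)
    (h : ∀ f : E → ℝ, Fn f → K * mass V p f ^ (1 / p) ≤ TV V f)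
    {D : Set E} (hD : MeasurableSet D) (hfin : mu V D ≠ ⊤) :
    ENNReal.ofReal (K * (mu V D).toReal ^ (1 / p)) ≤ areaB V D := by
  by_cases harea : areaB V D = ⊤
  · rw [harea]; exact le_top
  rw [ENNReal.ofReal_le_iff_le_toReal harea]
  set A := (areaB V D).toReal
  set m := (mu V D).toReal with hm
  have hm0 : 0 ≤ m := ENNReal.toReal_nonneg
  -- for every ε
  have key : ∀ ε : ℝ, 0 < ε → K * (max (m - p * ε) 0) ^ (1 / p) ≤ A + ε := by
    intro ε hε
    obtain ⟨f, hf, hf1, hTV, hL⟩ := exists_approx V hD hfin harea hε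
    refine le_trans ?_ hTV
    refine le_trans ?_ (h f hf)
    refine mul_le_mul_of_nonneg_left ?_ hK
    refine Real.rpow_le_rpow (le_max_right _ _) ?_ (by positivity)
    have hmass0 : 0 ≤ mass V p f := integral_nonneg fun y => Real.rpow_nonneg (hf.2.2 y) p
    refine max_le ?_ hmass0
    have hint := Mol.integrable_sub_ind V hD hfin hf
    have e1 : m = ∫ y, D.indicator (fun _ => (1 : ℝ)) y ∂(mu V) := by
      rw [integral_indicator hD]
      simp [hm, Measure.real]
    have i2 : Integrable (D.indicator (fun _ => (1 : ℝ))) (mu V) :=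
      (integrable_indicator_iff hD).mpr (integrableOn_const hfin)
    have i3 : Integrable (fun y => f y ^ p) (mu V) := by
      rw [integrable_mu_iff]
      refine Continuous.integrable_of_hasCompactSupport ?_ ?_
      · exact (contDiff_rho V).continuous.mul (hf.1.continuous.rpow_const fun y => Or.inr
          (by linarith))
      · refine HasCompactSupport.mul_left (hf.2.1.mono fun y hy => ?_)
        rw [Function.mem_support] at hy ⊢
        intro h0
        apply hy
        rw [h0, Real.zero_rpow (by linarith)]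
    have h1 : ∫ y, D.indicator (fun _ => (1 : ℝ)) y ∂(mu V)
        ≤ ∫ y, (f y ^ p + p * |f y - D.indicator (fun _ => (1 : ℝ)) y|) ∂(mu V) := by
      refine integral_mono i2 (i3.add (hint.const_mul p)) fun y => ?_
      simp only
      by_cases hy : y ∈ D
      · simp only [indicator_of_mem hy]
        have h2 := Mol.rpow_sub_le hp.le (hf.2.2 y)
        have h3 : |f y - 1| = 1 - f y := by
          rw [abs_sub_comm, abs_of_nonneg]
          linarith [hf1 y]
        rw [h3]
        linarith
      · simp only [indicator_of_notMem hy]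
        have := Real.rpow_nonneg (hf.2.2 y) p
        positivity
    rw [integral_add i3 (hint.const_mul p), integral_const_mul, ← e1] at h1
    have h4 : p * ∫ y, |f y - D.indicator (fun _ => (1 : ℝ)) y| ∂(mu V) ≤ p * ε :=
      mul_le_mul_of_nonneg_left hL (by linarith)
    rw [mass]
    linarith
  have hlim1 : Tendsto (fun ε : ℝ => K * (max (m - p * ε) 0) ^ (1 / p)) (𝓝[>] 0)
      (𝓝 (K * m ^ (1 / p))) := by
    have hc : Continuous (fun ε : ℝ => K * (max (m - p * ε) 0) ^ (1 / p)) := by
      refine continuous_const.mul (Continuous.rpow_const ?_ fun _ => Or.inr (by positivity))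
      fun_prop
    have := (hc.tendsto 0).mono_left (nhdsWithin_le_nhds (s := Ioi (0 : ℝ)))
    simpa [hm0] using this
  have hlim2 : Tendsto (fun ε : ℝ => A + ε) (𝓝[>] 0) (𝓝 A) := by
    have hc : Continuous (fun ε : ℝ => A + ε) := by fun_prop
    have := (hc.tendsto 0).mono_left (nhdsWithin_le_nhds (s := Ioi (0 : ℝ)))
    simpa using this
  exact le_of_tendsto_of_tendsto hlim1 hlim2 (by
    filter_upwards [self_mem_nhdsWithin] with ε hε
    exact key ε hε)

end

end Pool.Agent.Work.MP_3b24f6_gt
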