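import Pool.Agent.Work.MP_3b24f6_gt.BasicB
import Pool.Agent.Work.MP_3b24f6_gt.Balance

set_option autoImplicit false

open MeasureTheory Set Filter Topology
open scoped ContDiff InnerProductSpace

/-! Near-minimisers of the Sobolev quotient are tight and almost radial (RANK1, track B). -/

namespace Pool.Agent.Work.MP_3b24f6_gt

noncomputable section

variable {E : Type*} [NormedAddCommGroup E] [InnerProductSpace ℝ E] [FiniteDimensional ℝ E]
  [MeasurableSpace E] [BorelSpace E]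

namespace NM

theorem tn_nonneg (y ξ : E) : 0 ≤ tn y ξ := norm_nonneg _

theorem tn_le (y ξ : E) : tn y ξ ≤ ‖ξ‖ := by
  unfold tn
  by_cases hy : y = 0
  · simp [hy]
  have hy2 : ‖y‖ ^ 2 ≠ 0 := pow_ne_zero 2 (norm_ne_zero_iff.mpr hy)
  have e : ‖ξ - (⟪y, ξ⟫_ℝ / ‖y‖ ^ 2) • y‖ ^ 2 = ‖ξ‖ ^ 2 - ⟪y, ξ⟫_ℝ ^ 2 / ‖y‖ ^ 2 := by
    rw [norm_sub_sq_real, real_inner_smul_right, norm_smul, mul_pow, Real.norm_eq_abs, sq_abs,
      real_inner_comm y ξ]
    field_simp
    ring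
  have h : ‖ξ - (⟪y, ξ⟫_ℝ / ‖y‖ ^ 2) • y‖ ^ 2 ≤ ‖ξ‖ ^ 2 := by
    rw [e]
    have : 0 ≤ ⟪y, ξ⟫_ℝ ^ 2 / ‖y‖ ^ 2 := by positivity
    linarith
  exact le_of_sq_le_sq h (norm_nonneg _)

theorem an_nonneg (V : Ver E) (y ξ : E) : 0 ≤ an V y ξ := Real.sqrt_nonneg _

theorem uu_ge (y : E) : 1 ≤ uu y := by
  unfold uu
  rw [Real.one_le_sqrt]
  have := sq_nonneg ‖y‖
  linarith

theorem uu_le_of_ball {y : E} {R : ℝ} (hy : y ∈ Metric.ball (0 : E) R) : uu y ≤ us R := by
  unfold uu us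
  apply Real.sqrt_le_sqrt
  have h : ‖y‖ < R := by simpa using hy
  have := norm_nonneg y
  nlinarith

/-- Pointwise Young inequality. -/
theorem tn_young (V : Ver E) (y ξ : E) {δ : ℝ} (hδ : 0 < δ) :
    ‖y‖ * tn y ξ ≤ δ / 2 * an V y ξ + 1 / (2 * δ) * (‖y‖ ^ 2 * tn y ξ ^ 2 / an V y ξ) := by
  have h1 := tn_le y ξ
  have h2 := norm_le_an V y ξ
  have h0 := tn_nonneg y ξ
  rcases (an_nonneg V y ξ).eq_or_lt with h | h
  · rw [← h, mul_zero] at h2
    have h3 : tn y ξ ≤ 0 := h1.trans h2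
    have h4 : tn y ξ = 0 := le_antisymm h3 h0
    rw [h4, ← h]
    simp
  · have h3 : 0 ≤ (δ * an V y ξ - ‖y‖ * tn y ξ) ^ 2 := sq_nonneg _
    rw [div_mul_div_comm, div_mul_eq_mul_div, div_add_div _ _ (by positivity) (by positivity),
      le_div_iff₀ (by positivity)]
    nlinarith [h3, mul_pos hδ h, mul_pos hδ hδ]

theorem measurable_tn_an (V : Ver E) {f : E → ℝ} (hf : Fn f) :
    Measurable (fun y => ‖y‖ ^ 2 * tn y (gradient f y) ^ 2 / an V y (gradient f y)) := by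
  have hg : Continuous (fun y => gradient f y) := by
    have h1 : Continuous (fun y => fderiv ℝ f y) := hf.1.continuous_fderiv (by simp)
    unfold gradient
    exact (InnerProductSpace.toDual ℝ E).symm.continuous.comp h1
  have ha : Measurable (fun y => an V y (gradient f y)) :=
    ((continuous_an V).comp (continuous_id.prodMk hg)).measurable
  have ht : Measurable (fun y => tn y (gradient f y)) := by
    unfold tn
    have hi : Continuous (fun y => ⟪y, gradient f y⟫_ℝ) := continuous_id.inner hg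
    exact (hg.measurable.sub ((hi.measurable.div (continuous_norm.pow 2).measurable).smul
      measurable_id)).norm
  exact ((measurable_norm.pow_const 2).mul (ht.pow_const 2)).div ha

theorem tn_sq_div_le (V : Ver E) (y ξ : E) :
    ‖y‖ ^ 2 * tn y ξ ^ 2 / an V y ξ ≤ ‖y‖ ^ 2 * (uu y ^ 2 * an V y ξ) := by
  have h1 := tn_le y ξ
  have h2 := norm_le_an V y ξ
  have h0 := tn_nonneg y ξ
  rcases (an_nonneg V y ξ).eq_or_lt with h | h
  · rw [← h]; simp
  · rw [div_le_iff₀ h]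
    have : tn y ξ ≤ uu y * an V y ξ := h1.trans h2
    calc ‖y‖ ^ 2 * tn y ξ ^ 2 ≤ ‖y‖ ^ 2 * (uu y * an V y ξ) ^ 2 :=
          mul_le_mul_of_nonneg_left (pow_le_pow_left₀ h0 this 2) (sq_nonneg _)
      _ = ‖y‖ ^ 2 * (uu y ^ 2 * an V y ξ) * an V y ξ := by ring

theorem tn_sq_div_nonneg (V : Ver E) (y ξ : E) : 0 ≤ ‖y‖ ^ 2 * tn y ξ ^ 2 / an V y ξ :=
  div_nonneg (by positivity) (an_nonneg V y ξ)

theorem integrableOn_tn_an (V : Ver E) {f : E → ℝ} (hf : Fn f) (R : ℝ) :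
    IntegrableOn (fun y => ‖y‖ ^ 2 * tn y (gradient f y) ^ 2 / an V y (gradient f y))
      (Metric.ball (0 : E) R) (mu V) := by
  refine Integrable.mono' (((fn_integrable_an V hf).const_mul (R ^ 2 * us R ^ 2)).integrableOn)
    (measurable_tn_an V hf).aestronglyMeasurable ?_
  refine (ae_restrict_iff' Metric.isOpen_ball.measurableSet).mpr (ae_of_all _ fun y hy => ?_)
  rw [Real.norm_of_nonneg (tn_sq_div_nonneg V y _)]
  refine (tn_sq_div_le V y _).trans ?_
  have h1 := uu_le_of_ball hy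
  have h2 := uu_ge y
  have h3 : ‖y‖ < R := by simpa using hy
  have h4 : ‖y‖ ^ 2 ≤ R ^ 2 := pow_le_pow_left₀ (norm_nonneg y) h3.le 2
  have h5 : uu y ^ 2 * an V y (gradient f y) ≤ us R ^ 2 * an V y (gradient f y) :=
    mul_le_mul_of_nonneg_right (pow_le_pow_left₀ (by linarith) h1 2) (an_nonneg V y _)
  calc ‖y‖ ^ 2 * (uu y ^ 2 * an V y (gradient f y))
      ≤ R ^ 2 * (us R ^ 2 * an V y (gradient f y)) :=
        mul_le_mul h4 h5 (mul_nonneg (sq_nonneg _) (an_nonneg V y _)) (sq_nonneg _)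
    _ = R ^ 2 * us R ^ 2 * an V y (gradient f y) := by ring

theorem measurable_tn (V : Ver E) {f : E → ℝ} (hf : Fn f) :
    Measurable (fun y => tn y (gradient f y)) := by
  have hg : Continuous (fun y => gradient f y) := by
    have h1 : Continuous (fun y => fderiv ℝ f y) := hf.1.continuous_fderiv (by simp)
    unfold gradient
    exact (InnerProductSpace.toDual ℝ E).symm.continuous.comp h1
  unfold tn
  have hi : Continuous (fun y => ⟪y, gradient f y⟫_ℝ) := continuous_id.inner hg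
  exact (hg.measurable.sub ((hi.measurable.div (continuous_norm.pow 2).measurable).smul
      measurable_id)).norm

theorem integrableOn_tn (V : Ver E) {f : E → ℝ} (hf : Fn f) (R : ℝ) :
    IntegrableOn (fun y => ‖y‖ * tn y (gradient f y)) (Metric.ball (0 : E) R) (mu V) := by
  refine Integrable.mono' (((fn_integrable_an V hf).const_mul (R * us R)).integrableOn)
    (measurable_norm.mul (measurable_tn V hf)).aestronglyMeasurable ?_
  refine (ae_restrict_iff' Metric.isOpen_ball.measurableSet).mpr (ae_of_all _ fun y hy => ?_)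
  rw [Real.norm_of_nonneg (mul_nonneg (norm_nonneg _) (tn_nonneg _ _))]
  have h1 := uu_le_of_ball hy
  have h2 := uu_ge y
  have h3 : ‖y‖ < R := by simpa using hy
  have h4 := (tn_le y (gradient f y)).trans (norm_le_an V y _)
  have h5 : tn y (gradient f y) ≤ us R * an V y (gradient f y) :=
    h4.trans (mul_le_mul_of_nonneg_right h1 (an_nonneg V y _))
  calc ‖y‖ * tn y (gradient f y) ≤ R * (us R * an V y (gradient f y)) :=
        mul_le_mul h3.le h5 (tn_nonneg _ _) ((norm_nonneg y).trans h3.le)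
    _ = R * us R * an V y (gradient f y) := by ring

/-- The weighted tangential integral is controlled by the quadratic one. -/
theorem tangential_le (V : Ver E) {f : E → ℝ} (hf : Fn f) {R : ℝ} {δ : ℝ} (hδ : 0 < δ) :
    ∫ y in Metric.ball (0 : E) R, ‖y‖ * tn y (gradient f y) ∂(mu V) ≤
      δ / 2 * TV V f + 1 / (2 * δ) * ∫ y in Metric.ball (0 : E) R,
        ‖y‖ ^ 2 * tn y (gradient f y) ^ 2 / an V y (gradient f y) ∂(mu V) := by
  have hI := integrableOn_tn_an V hf R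
  have hA := fn_integrable_an V hf
  have hS : IntegrableOn (fun y => δ / 2 * an V y (gradient f y)
      + 1 / (2 * δ) * (‖y‖ ^ 2 * tn y (gradient f y) ^ 2 / an V y (gradient f y)))
      (Metric.ball (0 : E) R) (mu V) :=
    Integrable.add (hA.integrableOn.const_mul (δ / 2)) (hI.const_mul (1 / (2 * δ)))
  calc ∫ y in Metric.ball (0 : E) R, ‖y‖ * tn y (gradient f y) ∂(mu V)
      ≤ ∫ y in Metric.ball (0 : E) R, (δ / 2 * an V y (gradient f y)
          + 1 / (2 * δ) * (‖y‖ ^ 2 * tn y (gradient f y) ^ 2 / an V y (gradient f y))) ∂(mu V) :=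
        setIntegral_mono_on (integrableOn_tn V hf R) hS Metric.isOpen_ball.measurableSet
          fun y _ => tn_young V y _ hδ
    _ = δ / 2 * (∫ y in Metric.ball (0 : E) R, an V y (gradient f y) ∂(mu V))
          + 1 / (2 * δ) * ∫ y in Metric.ball (0 : E) R,
            ‖y‖ ^ 2 * tn y (gradient f y) ^ 2 / an V y (gradient f y) ∂(mu V) := by
        rw [integral_add (hA.integrableOn.const_mul _) (hI.const_mul _),
          integral_const_mul, integral_const_mul]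
    _ ≤ _ := by
        have h1 : ∫ y in Metric.ball (0 : E) R, an V y (gradient f y) ∂(mu V) ≤ TV V f :=
          setIntegral_le_integral hA (ae_of_all _ fun y => an_nonneg V y _)
        have h2 : δ / 2 * (∫ y in Metric.ball (0 : E) R, an V y (gradient f y) ∂(mu V)) ≤
            δ / 2 * TV V f := mul_le_mul_of_nonneg_left h1 (by positivity)
        linarith

end NM

open NM in
/-- Near-minimisers of the Sobolev quotient: tight and almost radial. -/
theorem near_min_of {V : Ver E} (H : HomB V) {p : ℝ} (h1 : 1 < p)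
    (htight : ∀ η, 0 < η → ∃ ε, 0 < ε ∧ ∃ R, 0 < R ∧ ∀ f : E → ℝ, Fn f → mass V p f = 1 →
      TV V f ≤ qq V p + ε → ∃ a, tail V p R (fun y => f (H.phi a y)) ≤ η)
    (hvar : ∃ b : ℝ → ℝ, ∃ c₁ c₂ : ℝ, 0 < c₁ ∧ ContinuousOn b (Ici 1) ∧
      (∀ u, 1 ≤ u → c₁ / u ≤ b u) ∧ (∀ u, 1 ≤ u → b u ≤ c₂ / u) ∧
      ∃ t₀, 0 < t₀ ∧ ∃ C, 0 ≤ C ∧ ∃ c : ℝ → ℝ, (∀ R, 0 < c R) ∧
        ∀ p, 1 < p → ∀ f : E → ℝ, Fn f →
          (∀ e, ∫ y, f y ^ p * (b (uu y) * ⟪e, y⟫_ℝ) ∂(mu V) = 0) →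
          ∀ t, 0 < t → t ≤ t₀ → ∀ R, 0 < R →
            2 * Module.finrank ℝ E * (qq V p * mass V p f ^ (1 / p))
              + c R * t ^ 2 * ∫ y in Metric.ball (0 : E) R,
                  ‖y‖ ^ 2 * tn y (gradient f y) ^ 2 / an V y (gradient f y) ∂(mu V)
              ≤ (2 * Module.finrank ℝ E + C * t ^ 3) * TV V f) :
    ∀ η, 0 < η → ∃ R, 0 < R ∧ ∀ κ, 0 < κ → ∃ f : E → ℝ, Fn f ∧ mass V p f = 1 ∧
      TV V f ≤ qq V p + κ ∧ tail V p R f ≤ η ∧
      ∫ y in Metric.ball (0 : E) R, ‖y‖ * tn y (gradient f y) ∂(mu V) ≤ κ := by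
  intro η hη
  obtain ⟨b, c₁, c₂, hc₁, hb, hb1, hb2, t₀, ht₀, C, hC, c, hc, hvar⟩ := hvar
  obtain ⟨η₀, hη₀, hbal⟩ := balance V H h1 b c₁ c₂ hc₁ hb hb1 hb2
  obtain ⟨ε, hε, R₁, hR₁, ht⟩ := htight (min η η₀) (lt_min hη hη₀)
  obtain ⟨R, hR, hbal⟩ := hbal R₁ hR₁
  refine ⟨R, hR, fun κ hκ => ?_⟩
  set q := qq V p with hq
  have hq0 : 0 ≤ q := qq_nonneg V p
  set N : ℝ := (Module.finrank ℝ E : ℝ) with hN
  have hN0 : 0 ≤ N := Nat.cast_nonneg _
  set K := (2 * N + C * (q + 1)) / c R with hK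
  have hK0 : 0 ≤ K := div_nonneg (by positivity) (hc R).le
  obtain ⟨δ, hδ, hδ1, hδt, hδε, hδκ, hδK⟩ : ∃ δ : ℝ, 0 < δ ∧ δ ≤ 1 ∧ δ ≤ t₀ ∧ δ ≤ ε ∧ δ ≤ κ ∧
      δ * (q + 1 + K) ≤ κ := by
    refine ⟨min 1 (min t₀ (min ε (min κ (κ / (q + 1 + K))))), ?_, ?_, ?_, ?_, ?_, ?_⟩
    · have : 0 < κ / (q + 1 + K) := by positivity
      simp only [lt_min_iff]
      exact ⟨one_pos, ht₀, hε, hκ, this⟩
    · exact min_le_left _ _
    · exact (min_le_right _ _).trans (min_le_left _ _)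
    · exact (min_le_right _ _).trans ((min_le_right _ _).trans (min_le_left _ _))
    · exact (min_le_right _ _).trans ((min_le_right _ _).trans ((min_le_right _ _).trans
        (min_le_left _ _)))
    · have h3 : min 1 (min t₀ (min ε (min κ (κ / (q + 1 + K))))) ≤ κ / (q + 1 + K) :=
        (min_le_right _ _).trans ((min_le_right _ _).trans ((min_le_right _ _).trans
          (min_le_right _ _)))
      exact (le_div_iff₀ (by positivity)).mp h3
  set t := δ ^ 2 with ht2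
  have ht0 : 0 < t := by positivity
  have htδ : t ≤ δ := by rw [ht2]; nlinarith
  have ht1 : t ≤ 1 := htδ.trans hδ1
  have ht3 : t ^ 3 ≤ t := by
    have : t ^ 2 ≤ 1 := by nlinarith
    nlinarith
  obtain ⟨f₀, hf₀, hm₀, hT₀⟩ := exists_near V h1.le (ε := t ^ 3) (by positivity)
  obtain ⟨a₁, ha₁⟩ := ht f₀ hf₀ hm₀ (by linarith)
  set f₁ := fun y => f₀ (H.phi a₁ y) with hf₁d
  have hf₁ : Fn f₁ := fn_comp H hf₀ a₁
  have hm₁ : mass V p f₁ = 1 := by rw [hf₁d, mass_comp H hf₀ h1.le, hm₀]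
  have hT₁ : TV V f₁ = TV V f₀ := TV_comp H hf₀ a₁
  obtain ⟨a₂, hb0, htail⟩ := hbal f₁ hf₁ hm₁ (min η η₀) (min_le_right _ _) ha₁
  set f := fun y => f₁ (H.phi a₂ y) with hfd
  have hf : Fn f := fn_comp H hf₁ a₂
  have hm : mass V p f = 1 := by rw [hfd, mass_comp H hf₁ h1.le, hm₁]
  have hT : TV V f = TV V f₀ := by rw [hfd, TV_comp H hf₁ a₂, hT₁]
  have hTq : TV V f ≤ q + t ^ 3 := by rw [hT]; exact hT₀
  have hv := hvar p h1 f hf hb0 t ht0 (htδ.trans hδt) R hR
  rw [hm, Real.one_rpow, mul_one] at hv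
  set I := ∫ y in Metric.ball (0 : E) R,
    ‖y‖ ^ 2 * tn y (gradient f y) ^ 2 / an V y (gradient f y) ∂(mu V) with hI
  have hIle : I ≤ t * K := by
    have h5 : c R * t ^ 2 * I ≤ t ^ 3 * (2 * N + C * (q + 1)) := by
      have h6 : (2 * N + C * t ^ 3) * TV V f ≤ (2 * N + C * t ^ 3) * (q + t ^ 3) :=
        mul_le_mul_of_nonneg_left hTq (by positivity)
      have h7 : C * t ^ 3 * (q + t ^ 3) ≤ C * t ^ 3 * (q + 1) := by
        apply mul_le_mul_of_nonneg_left _ (by positivity)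
        linarith
      nlinarith
    have h8 : 0 < c R * t ^ 2 := mul_pos (hc R) (by positivity)
    rw [hK, ← mul_div_assoc, le_div_iff₀ (hc R)]
    have h9 : t ^ 2 * (I * c R) ≤ t ^ 2 * (t * (2 * N + C * (q + 1))) := by
      calc t ^ 2 * (I * c R) = c R * t ^ 2 * I := by ring
        _ ≤ t ^ 3 * (2 * N + C * (q + 1)) := h5
        _ = _ := by ring
    exact le_of_mul_le_mul_left h9 (by positivity)
  refine ⟨f, hf, hm, by linarith, htail.trans (min_le_left _ _), ?_⟩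
  refine (tangential_le V hf hδ).trans ?_
  have hTV1 : TV V f ≤ q + 1 := by linarith
  have h10 : 1 / (2 * δ) * I ≤ δ * K / 2 := by
    calc 1 / (2 * δ) * I ≤ 1 / (2 * δ) * (t * K) := mul_le_mul_of_nonneg_left hIle (by positivity)
      _ = δ * K / 2 := by rw [ht2]; field_simp
  have h11 : δ / 2 * TV V f ≤ δ / 2 * (q + 1) := mul_le_mul_of_nonneg_left hTV1 (by positivity)
  have : 0 ≤ δ * (q + 1 + K) := by positivity
  nlinarith

end

end Pool.Agent.Work.MP_3b24f6_gt
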