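import Pool.Agent.Work.MP_3b24f6_gt.Model

set_option autoImplicit false

/-! # Local Sobolev inequality (Euclidean form) -/

open MeasureTheory Set Filter Topology
open scoped ContDiff InnerProductSpace

namespace Pool.Agent.Work.MP_3b24f6_gt

noncomputable section

namespace LSob

section uu
variable {E : Type*} [NormedAddCommGroup E]

theorem continuous_uu : Continuous (uu : E → ℝ) := by
  unfold uu
  fun_prop

theorem uu_lt_iff {R : ℝ} (hR : 0 < R) (y : E) : uu y < R ↔ ‖y‖ ^ 2 < R ^ 2 - 1 := by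
  unfold uu
  rw [Real.sqrt_lt' hR]
  constructor <;> intro h <;> linarith

end uu

variable {E : Type*} [NormedAddCommGroup E] [InnerProductSpace ℝ E] [FiniteDimensional ℝ E]

/-- The cutoff function used in the local Sobolev inequality. -/
def bump : ContDiffBump (0 : E) where
  rIn := 18 / 10
  rOut := 28 / 10
  rIn_pos := by norm_num
  rIn_lt_rOut := by norm_num

theorem bump_eq_one {y : E} (hy : uu y < 2) : (bump : ContDiffBump (0 : E)) y = 1 := by
  apply ContDiffBump.one_of_mem_closedBall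
  have h := (uu_lt_iff (by norm_num) y).mp hy
  have h1 : ‖y‖ ≤ 18 / 10 := by
    by_contra h2
    push Not at h2
    nlinarith
  simpa [bump] using h1

theorem bump_support_lt {y : E} (hy : ‖y‖ ≤ 28 / 10) : uu y < 3 := by
  rw [uu_lt_iff (by norm_num)]
  nlinarith [norm_nonneg y]

theorem mem_closedBall_of_uu {y : E} (hy : uu y < 3) : y ∈ Metric.closedBall (0 : E) 3 := by
  have h := (uu_lt_iff (by norm_num) y).mp hy
  rw [mem_closedBall_zero_iff]
  by_contra h2
  push Not at h2
  nlinarith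

theorem exists_bump_fderiv_le : ∃ K : ℝ, 0 ≤ K ∧
    ∀ y : E, ‖fderiv ℝ (bump : ContDiffBump (0 : E)) y‖ ≤ K := by
  have h1 : Continuous (fderiv ℝ (bump : ContDiffBump (0 : E))) :=
    (ContDiffBump.contDiff (n := 1) (bump : ContDiffBump (0 : E))).continuous_fderiv (by norm_num)
  have h2 : HasCompactSupport (fderiv ℝ (bump : ContDiffBump (0 : E))) :=
    (ContDiffBump.hasCompactSupport (bump : ContDiffBump (0 : E))).fderiv ℝ
  obtain ⟨K, hK⟩ := h2.exists_bound_of_continuous h1
  exact ⟨K, (norm_nonneg _).trans (hK 0), hK⟩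

theorem fderiv_bump_mul_zero {f : E → ℝ} {y : E} (hy : 28 / 10 < ‖y‖) :
    fderiv ℝ (fun z => (bump : ContDiffBump (0 : E)) z * f z) y = 0 := by
  have h1 : y ∉ tsupport (fun z => (bump : ContDiffBump (0 : E)) z * f z) := by
    intro h
    have h2 := tsupport_mul_subset_left (f := (bump : ContDiffBump (0 : E))) (g := f) h
    rw [ContDiffBump.tsupport_eq, mem_closedBall_zero_iff] at h2
    have h3 : (bump : ContDiffBump (0 : E)).rOut = 28 / 10 := rfl
    rw [h3] at h2
    linarith
  have h4 := tsupport_fderiv_subset ℝ (f := fun z => (bump : ContDiffBump (0 : E)) z * f z)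
  by_contra h5
  exact h1 (h4 (subset_tsupport _ h5))

theorem norm_fderiv_bump_mul_le {K : ℝ}
    (hK : ∀ y : E, ‖fderiv ℝ (bump : ContDiffBump (0 : E)) y‖ ≤ K) {f : E → ℝ}
    (hf : ContDiff ℝ 1 f) (h0 : ∀ x, 0 ≤ f x) (y : E) :
    ‖fderiv ℝ (fun z => (bump : ContDiffBump (0 : E)) z * f z) y‖
      ≤ ‖fderiv ℝ f y‖ + K * f y := by
  have hd1 : DifferentiableAt ℝ (bump : ContDiffBump (0 : E)) y :=
    ((ContDiffBump.contDiff (n := 1) (bump : ContDiffBump (0 : E))).differentiable
      (by norm_num)) y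
  have hd2 : DifferentiableAt ℝ f y := (hf.differentiable (by norm_num)) y
  rw [fderiv_fun_mul hd1 hd2]
  refine (norm_add_le _ _).trans ?_
  rw [norm_smul, norm_smul, Real.norm_eq_abs, Real.norm_eq_abs, abs_of_nonneg (h0 y),
    abs_of_nonneg (ContDiffBump.nonneg _)]
  have h1 : (bump : ContDiffBump (0 : E)) y * ‖fderiv ℝ f y‖ ≤ ‖fderiv ℝ f y‖ :=
    mul_le_of_le_one_left (norm_nonneg _) (ContDiffBump.le_one _)
  have h2 := mul_le_mul_of_nonneg_left (hK y) (h0 y)
  linarith

variable [MeasurableSpace E] [BorelSpace E]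

theorem measurableSet_uu (R : ℝ) : MeasurableSet {y : E | uu y < R} :=
  (isOpen_lt continuous_uu continuous_const).measurableSet

end LSob

open LSob

variable {E : Type*} [NormedAddCommGroup E] [InnerProductSpace ℝ E] [FiniteDimensional ℝ E]
  [MeasurableSpace E] [BorelSpace E]

/-- Local Sobolev inequality at the origin, uniformly in the exponent `r`. -/
theorem local_sob (hN : 2 ≤ Module.finrank ℝ E) : ∃ C : ℝ, 0 < C ∧ ∀ r : ℝ, 1 ≤ r →
    r ≤ (Module.finrank ℝ E : ℝ) / (Module.finrank ℝ E - 1) →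
    ∀ f : E → ℝ, ContDiff ℝ 1 f → HasCompactSupport f → (∀ z, 0 ≤ f z) →
      (∫ z in {z | uu z < 2}, f z ^ r) ^ (1 / r)
        ≤ C * ∫ z in {z | uu z < 3}, (‖fderiv ℝ f z‖ + f z) := by
  obtain ⟨K, hK0, hK⟩ := exists_bump_fderiv_le (E := E)
  have hNR : (2 : ℝ) ≤ Module.finrank ℝ E := by exact_mod_cast hN
  -- the critical exponent
  obtain ⟨q, hq⟩ : ∃ q : NNReal, (q : ℝ) = (Module.finrank ℝ E : ℝ) / (Module.finrank ℝ E - 1) :=
    ⟨⟨(Module.finrank ℝ E : ℝ) / (Module.finrank ℝ E - 1),
      div_nonneg (by linarith) (by linarith)⟩, rfl⟩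
  have hq0 : 0 < (q : ℝ) := by
    rw [hq]
    exact div_pos (by linarith) (by linarith)
  have hqinv : (q : ℝ)⁻¹ = 1 - (Module.finrank ℝ E : ℝ)⁻¹ := by
    rw [hq, inv_div]
    field_simp
  set B : Set E := Metric.closedBall (0 : E) 3 with hB
  have hBtop : volume B ≠ ⊤ := Metric.isBounded_closedBall.measure_lt_top.ne
  set C0 := eLpNormLESNormFDerivOfLeConst ℝ (volume : Measure E) B 1 q with hC0
  set v : ℝ := (volume B).toReal with hv
  have hv0 : 0 ≤ v := ENNReal.toReal_nonneg
  refine ⟨(C0 + 1) * (1 + v) * (1 + K), by positivity, fun r hr1 hr f hf hc h0 => ?_⟩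
  have hr0 : 0 < r := by linarith
  rw [← hq] at hr
  lift r to NNReal using hr0.le
  set u : E → ℝ := fun z => (bump : ContDiffBump (0 : E)) z * f z with hu
  have hud : ContDiff ℝ 1 u := (ContDiffBump.contDiff _).mul hf
  have huc : HasCompactSupport u := hc.mul_left
  have hu0 : ∀ z, 0 ≤ u z := fun z => mul_nonneg (ContDiffBump.nonneg _) (h0 z)
  have husupp : u.support ⊆ B := by
    intro z hz
    have h1 : (bump : ContDiffBump (0 : E)) z ≠ 0 := left_ne_zero_of_mul hz
    have h2 : z ∈ Function.support (bump : ContDiffBump (0 : E)) := h1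
    rw [ContDiffBump.support_eq] at h2
    have h3 : (bump : ContDiffBump (0 : E)).rOut = 28 / 10 := rfl
    rw [h3, mem_ball_zero_iff] at h2
    rw [hB, mem_closedBall_zero_iff]
    linarith
  have hsob := eLpNorm_le_eLpNorm_fderiv_of_le (volume : Measure E) (p := 1) (q := q) hud husupp
    le_rfl (by exact_mod_cast (by omega : 1 < Module.finrank ℝ E))
    (by rw [hqinv]; simp) Metric.isBounded_closedBall
  rw [← hC0] at hsob
  have hrq : (r : ENNReal) ≤ q := by exact_mod_cast hr
  have hexp0 : 0 ≤ 1 / (r : ℝ) - 1 / (q : ℝ) := by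
    rw [sub_nonneg]
    exact one_div_le_one_div_of_le hr0 hr
  have hexp1 : 1 / (r : ℝ) - 1 / (q : ℝ) ≤ 1 := by
    have h1 : 1 / (r : ℝ) ≤ 1 := by
      rw [div_le_one hr0]
      exact hr1
    have h2 : 0 ≤ 1 / (q : ℝ) := by positivity
    linarith
  have hhold : eLpNorm u r volume ≤ eLpNorm u q volume * (1 + volume B) := by
    calc eLpNorm u r volume = eLpNorm u r (volume.restrict B) := by
          rw [eLpNorm_restrict_eq_of_support_subset husupp]
      _ ≤ eLpNorm u q (volume.restrict B)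
          * (volume.restrict B) Set.univ ^ (1 / (r : ENNReal).toReal - 1 / (q : ENNReal).toReal) :=
          eLpNorm_le_eLpNorm_mul_rpow_measure_univ hrq hud.continuous.aestronglyMeasurable
      _ ≤ eLpNorm u q volume * (1 + volume B) := by
          rw [eLpNorm_restrict_eq_of_support_subset husupp, Measure.restrict_apply_univ,
            ENNReal.coe_toReal, ENNReal.coe_toReal]
          gcongr
          calc volume B ^ (1 / (r : ℝ) - 1 / (q : ℝ))
              ≤ (1 + volume B) ^ (1 / (r : ℝ) - 1 / (q : ℝ)) :=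
                ENNReal.rpow_le_rpow le_add_self hexp0
            _ ≤ (1 + volume B) ^ (1 : ℝ) := ENNReal.rpow_le_rpow_of_exponent_le le_self_add hexp1
            _ = 1 + volume B := ENNReal.rpow_one _
  have hup : MemLp u r := hud.continuous.memLp_of_hasCompactSupport huc
  have hrne : (r : ENNReal) ≠ 0 := by
    have : r ≠ 0 := by
      intro h
      rw [h] at hr0
      simp at hr0
    exact_mod_cast this
  have hfi : Integrable (fderiv ℝ u) :=
    (hud.continuous_fderiv (by norm_num)).integrable_of_hasCompactSupport (huc.fderiv ℝ)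
  have h1 : (∫ z, u z ^ (r : ℝ)) ^ (1 / (r : ℝ)) ≤ C0 * (∫ z, ‖fderiv ℝ u z‖) * (1 + v) := by
    have hsob2 : eLpNorm u r volume
        ≤ (C0 : ENNReal) * eLpNorm (fderiv ℝ u) 1 volume * (1 + volume B) :=
      hhold.trans (by gcongr; simpa using hsob)
    rw [hup.eLpNorm_eq_integral_rpow_norm hrne ENNReal.coe_ne_top,
      eLpNorm_one_eq_lintegral_enorm, ← ofReal_integral_norm_eq_lintegral_enorm hfi] at hsob2
    have h2 : (C0 : ENNReal) * ENNReal.ofReal (∫ z, ‖fderiv ℝ u z‖) * (1 + volume B)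
        = ENNReal.ofReal (C0 * (∫ z, ‖fderiv ℝ u z‖) * (1 + v)) := by
      rw [ENNReal.ofReal_mul (by positivity), ENNReal.ofReal_mul C0.coe_nonneg,
        ENNReal.ofReal_coe_nnreal, ENNReal.ofReal_add zero_le_one hv0, ENNReal.ofReal_one, hv,
        ENNReal.ofReal_toReal hBtop]
    rw [h2, ENNReal.ofReal_le_ofReal_iff (by positivity)] at hsob2
    have h3 : (fun z => ‖u z‖ ^ (r : ENNReal).toReal) = fun z => u z ^ (r : ℝ) := by
      funext z
      rw [Real.norm_eq_abs, abs_of_nonneg (hu0 z), ENNReal.coe_toReal]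
    rw [h3, ENNReal.coe_toReal, ← one_div] at hsob2
    exact hsob2
  -- left side
  have hpint : Integrable (fun z => f z ^ (r : ℝ)) := by
    apply Continuous.integrable_of_hasCompactSupport
    · exact hf.continuous.rpow_const (fun z => Or.inr hr0.le)
    · refine hc.mono ?_
      intro z hz h
      apply hz
      simp [h, Real.zero_rpow hr0.ne']
  have hupint : Integrable (fun z => u z ^ (r : ℝ)) := by
    apply Continuous.integrable_of_hasCompactSupport
    · exact hud.continuous.rpow_const (fun z => Or.inr hr0.le)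
    · refine huc.mono ?_
      intro z hz h
      apply hz
      simp [h, Real.zero_rpow hr0.ne']
  have hleft : ∫ z in {z : E | uu z < 2}, f z ^ (r : ℝ) ≤ ∫ z, u z ^ (r : ℝ) := by
    refine (setIntegral_mono_on hpint.integrableOn hupint.integrableOn
      (measurableSet_uu 2) (fun z hz => ?_)).trans
      (setIntegral_le_integral hupint (Eventually.of_forall fun z => ?_))
    · have hz2 : uu z < 2 := hz
      have h4 : u z = f z := by rw [hu]; simp [bump_eq_one hz2]
      rw [h4]
    · exact Real.rpow_nonneg (hu0 z) _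
  have hleft2 : (∫ z in {z : E | uu z < 2}, f z ^ (r : ℝ)) ^ (1 / (r : ℝ))
      ≤ (∫ z, u z ^ (r : ℝ)) ^ (1 / (r : ℝ)) := by
    refine Real.rpow_le_rpow ?_ hleft (by positivity)
    exact integral_nonneg fun z => Real.rpow_nonneg (h0 z) _
  -- right side
  have hrint : Integrable (fun z => ‖fderiv ℝ f z‖ + f z) := by
    apply Integrable.add
    · exact ((hf.continuous_fderiv (by norm_num)).integrable_of_hasCompactSupport
        (hc.fderiv ℝ)).norm
    · exact hf.continuous.integrable_of_hasCompactSupport hc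
  have hright : ∫ z, ‖fderiv ℝ u z‖
      ≤ (1 + K) * ∫ z in {z : E | uu z < 3}, (‖fderiv ℝ f z‖ + f z) := by
    rw [← integral_const_mul]
    have h10 : ∫ z, ‖fderiv ℝ u z‖ = ∫ z in {z : E | uu z < 3}, ‖fderiv ℝ u z‖ := by
      rw [setIntegral_eq_integral_of_forall_compl_eq_zero]
      intro z hz
      have h11 : 28 / 10 < ‖z‖ := by
        by_contra h
        push Not at h
        exact hz (bump_support_lt h)
      rw [hu, fderiv_bump_mul_zero h11, norm_zero]
    rw [h10]
    refine setIntegral_mono_on hfi.norm.integrableOn (hrint.const_mul _).integrableOn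
      (measurableSet_uu 3) (fun z hz => ?_)
    have h12 := norm_fderiv_bump_mul_le hK hf h0 z
    nlinarith [mul_nonneg hK0 (norm_nonneg (fderiv ℝ f z)), h0 z]
  have hI : 0 ≤ ∫ z in {z : E | uu z < 3}, (‖fderiv ℝ f z‖ + f z) :=
    integral_nonneg fun z => add_nonneg (norm_nonneg _) (h0 z)
  calc (∫ z in {z : E | uu z < 2}, f z ^ (r : ℝ)) ^ (1 / (r : ℝ))
      ≤ (∫ z, u z ^ (r : ℝ)) ^ (1 / (r : ℝ)) := hleft2
    _ ≤ C0 * (∫ z, ‖fderiv ℝ u z‖) * (1 + v) := h1
    _ ≤ (C0 + 1) * ((1 + K) * ∫ z in {z : E | uu z < 3}, (‖fderiv ℝ f z‖ + f z)) * (1 + v) := by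
        gcongr
        linarith
    _ = (C0 + 1) * (1 + v) * (1 + K) * ∫ z in {z : E | uu z < 3}, (‖fderiv ℝ f z‖ + f z) := by
        ring

end

end Pool.Agent.Work.MP_3b24f6_gt
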