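import Pool.Agent.Work.MP_3b24f6_gt.TightSob

set_option autoImplicit false
set_option linter.unusedSectionVars false

open MeasureTheory Set Filter Topology
open scoped ContDiff InnerProductSpace ENNReal

namespace Pool.Agent.Work.MP_3b24f6_gt

noncomputable section

namespace TD

variable {E : Type*} [NormedAddCommGroup E] [InnerProductSpace ℝ E] [FiniteDimensional ℝ E]
    [MeasurableSpace E] [BorelSpace E] (D : TD E)

theorem one_le_uu (z : E) : 1 ≤ uu z := TU.one_le_uu z

theorem uu_pos (z : E) : 0 < uu z := TU.uu_pos z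

theorem uu_sq (z : E) : uu z ^ 2 = 1 + ‖z‖ ^ 2 := TU.uu_sq z

theorem contDiff_uu : ContDiff ℝ ∞ (uu : E → ℝ) := TU.contDiff_uu

/-- The logarithmic radius. -/
def lg (z : E) : ℝ := Real.log (uu z) - Real.log 2

theorem contDiff_lg : ContDiff ℝ ∞ (lg : E → ℝ) :=
  (contDiff_uu.log fun z => (uu_pos z).ne').sub contDiff_const

theorem gradient_lg (z : E) : gradient (lg : E → ℝ) z = (uu z ^ 2)⁻¹ • z := by
  refine ext_inner_right ℝ fun v => ?_
  rw [inner_gradient, inner_smul_left]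
  have h1 : (lg : E → ℝ) = fun y => (1 / 2) * Real.log (1 + ‖y‖ ^ 2) - Real.log 2 := by
    funext y
    unfold lg uu
    rw [Real.log_sqrt (by positivity)]
    ring
  have h2 : HasFDerivAt (fun y : E => 1 + ‖y‖ ^ 2) (2 • innerSL ℝ z) z :=
    (hasStrictFDerivAt_norm_sq z).hasFDerivAt.const_add 1
  have h3 := (h2.log (by positivity)).const_mul (1 / 2)
  have h4 : HasFDerivAt (lg : E → ℝ) ((1 / 2 : ℝ) • ((1 + ‖z‖ ^ 2)⁻¹ • (2 • innerSL ℝ z))) z := by
    rw [h1]
    exact h3.sub_const _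
  rw [h4.fderiv, uu_sq]
  simp only [smul_apply, nsmul_eq_mul, smul_eq_mul, innerSL_apply_apply,
    RCLike.conj_to_real, Nat.cast_ofNat]
  ring

/-- Cutoff functions. -/
def ct (L : ℝ) (k : ℕ) (z : E) : ℝ := TA.prof ((lg z - k * L) / L)

theorem contDiff_ct (L : ℝ) (k : ℕ) : ContDiff ℝ ∞ (ct L k : E → ℝ) :=
  TA.prof_contDiff.comp ((contDiff_lg.sub contDiff_const).div_const L)

theorem ct_nonneg (L : ℝ) (k : ℕ) (z : E) : 0 ≤ ct L k z := TA.prof_nonneg _

theorem ct_le_one (L : ℝ) (k : ℕ) (z : E) : ct L k z ≤ 1 := TA.prof_le_one _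

theorem ct_one {L : ℝ} (hL : 0 < L) {k : ℕ} {z : E} (h : lg z < k * L) : ct L k z = 1 :=
  TA.prof_one (div_nonpos_of_nonpos_of_nonneg (by linarith) hL.le)

theorem ct_zero {L : ℝ} (hL : 0 < L) {k : ℕ} {z : E} (h : (k + 1) * L ≤ lg z) :
    ct L k z = 0 := by
  refine TA.prof_zero ?_
  rw [le_div_iff₀ hL]
  linarith

theorem an_ct {M : ℝ} (hM : ∀ t, |deriv TA.prof t| ≤ M) {L : ℝ} (hL : 0 < L) (k : ℕ) (z : E) :
    D.an z (gradient (ct L k : E → ℝ) z) ≤ M / L := by
  have hM0 : 0 ≤ M := (abs_nonneg _).trans (hM 0)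
  have h1 : DifferentiableAt ℝ (fun z : E => (lg z - k * L) / L) z :=
    ((contDiff_lg.sub contDiff_const).div_const L).differentiable (by simp) z
  have h2 : gradient (ct L k : E → ℝ) z
      = deriv TA.prof ((lg z - k * L) / L) • gradient (fun z : E => (lg z - k * L) / L) z :=
    gradient_comp TA.prof _ z h1 (TA.prof_contDiff.differentiable (by simp) _)
  have h3 : gradient (fun z : E => (lg z - k * L) / L) z = L⁻¹ • ((uu z ^ 2)⁻¹ • z) := by
    have h4 : (fun z : E => (lg z - k * L) / L) = fun z => L⁻¹ * (lg z - k * L) := by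
      funext y
      rw [div_eq_inv_mul]
    have h5 : DifferentiableAt ℝ (fun z : E => lg z - k * L) z :=
      (contDiff_lg.sub contDiff_const).differentiable (by simp) z
    rw [h4, gradient_smul _ z _ h5]
    congr 1
    refine ext_inner_right ℝ fun v => ?_
    rw [inner_gradient, fderiv_sub_const, ← inner_gradient, gradient_lg]
  rw [h2, h3, D.an_smul, D.an_smul, abs_of_pos (inv_pos.2 hL)]
  have h6 := D.an_log z
  have h7 := hM ((lg z - k * L) / L)
  calc |deriv TA.prof ((lg z - k * L) / L)| * (L⁻¹ * D.an z ((uu z ^ 2)⁻¹ • z))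
      ≤ M * (L⁻¹ * 1) := by
        refine mul_le_mul h7 ?_ ?_ hM0
        · exact mul_le_mul_of_nonneg_left h6 (inv_pos.2 hL).le
        · exact mul_nonneg (inv_pos.2 hL).le (D.an_nonneg _ _)
    _ = M / L := by ring

theorem an_mul {f h : E → ℝ} (hf : IsFn f) (hh : ContDiff ℝ ∞ h) (h0 : ∀ z, 0 ≤ h z) (z : E) :
    D.an z (gradient (fun y => h y * f y) z)
      ≤ h z * D.an z (gradient f z) + f z * D.an z (gradient h z) := by
  rw [gradient_mul f h z (hf.differentiable z) (hh.differentiable (by simp) z)]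
  refine (D.an_add _ _ _).trans (le_of_eq ?_)
  rw [D.an_smul, D.an_smul, abs_of_nonneg (h0 z), abs_of_nonneg (hf.nonneg z)]

/-- Cutting. -/
theorem tv_cut {M : ℝ} (hM : ∀ t, |deriv TA.prof t| ≤ M) {L : ℝ} (hL : 0 < L) (k : ℕ)
    {f : E → ℝ} (hf : IsFn f) :
    D.tv (fun y => ct L k y * f y) + D.tv (fun y => (1 - ct L k y) * f y)
      ≤ D.tv f * (1 + 2 * M / (L * D.N)) := by
  have hM0 : 0 ≤ M := (abs_nonneg _).trans (hM 0)
  have hc := contDiff_ct (E := E) L k
  have h1c : ContDiff ℝ ∞ fun y : E => 1 - ct L k y := contDiff_const.sub hc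
  have h10 : ∀ y : E, 0 ≤ 1 - ct L k y := fun y => sub_nonneg.2 (ct_le_one L k y)
  have hF1 := hf.mul_left hc (ct_nonneg L k)
  have hF2 := hf.mul_left h1c h10
  have hgr : ∀ z : E, gradient (fun y : E => 1 - ct L k y) z = (-1 : ℝ) • gradient (ct L k) z := by
    intro z
    refine ext_inner_right ℝ fun v => ?_
    rw [inner_gradient, fderiv_const_sub, inner_smul_left, inner_gradient]
    simp
  have h1 : D.tv (fun y => ct L k y * f y) + D.tv (fun y => (1 - ct L k y) * f y)
      ≤ ∫ z, (D.an z (gradient f z) + 2 * M / L * f z) ∂D.μ := by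
    unfold tv
    rw [← integral_add (D.integrable_an hF1) (D.integrable_an hF2)]
    refine integral_mono ((D.integrable_an hF1).add (D.integrable_an hF2))
      ((D.integrable_an hf).add ((D.integrable_fn hf).const_mul _)) fun z => ?_
    have e1 := D.an_mul hf hc (ct_nonneg L k) z
    have e2 := D.an_mul hf h1c h10 z
    rw [hgr, D.an_smul, abs_neg, abs_one, one_mul] at e2
    have e3 := mul_le_mul_of_nonneg_left (D.an_ct hM hL k z) (hf.nonneg z)
    have e4 : 2 * M / L * f z = f z * (M / L) + f z * (M / L) := by ring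
    simp only
    rw [e4]
    linarith
  refine h1.trans ?_
  rw [integral_add (D.integrable_an hf) ((D.integrable_fn hf).const_mul _), integral_const_mul]
  have h2 := D.int_le f hf.smooth hf.cpt hf.nonneg
  have h3 : ∫ z, f z ∂D.μ ≤ D.tv f / D.N := by
    rw [le_div_iff₀ D.N_pos, mul_comm]
    exact h2
  have h4 : 2 * M / L * ∫ z, f z ∂D.μ ≤ 2 * M / L * (D.tv f / D.N) :=
    mul_le_mul_of_nonneg_left h3 (by positivity)
  have h5 : D.tv f * (1 + 2 * M / (L * D.N)) = D.tv f + 2 * M / L * (D.tv f / D.N) := by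
    have := D.N_pos.ne'
    field_simp
  rw [h5]
  exact add_le_add le_rfl h4

/-- The infimum is positive. -/
theorem qi_pos {P : ℝ} (h : LocSob E P) {p : ℝ} (hp1 : 1 ≤ p) (hpP : p ≤ P)
    (hne : {r | ∃ f : E → ℝ, IsFn f ∧ D.ms p f = 1 ∧ r = D.tv f}.Nonempty) : 0 < D.qi p := by
  obtain ⟨C, hC, hS⟩ := D.sobolev h
  refine lt_of_lt_of_le (inv_pos.2 hC) (le_csInf hne ?_)
  rintro r ⟨f, hf, hf1, rfl⟩
  have h1 := hS p hp1 hpP f hf
  rw [hf1, Real.one_rpow] at h1
  rw [inv_le_iff_one_le_mul₀ hC, mul_comm]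
  exact h1

/-- Tightness of near-minimisers. -/
theorem tight {P : ℝ} (h : LocSob E P) {p : ℝ} (hp1 : 1 < p) (hpP : p ≤ P) {η : ℝ}
    (hη : 0 < η) :
    ∃ ε, 0 < ε ∧ ∃ R, 0 < R ∧ ∀ f : E → ℝ, IsFn f → D.ms p f = 1 → D.tv f ≤ D.qi p + ε →
      ∃ c, ∫ y in {y | R ≤ uu y}, f (D.phi c y) ^ p ∂D.μ ≤ η := by
  by_cases hne : {r | ∃ f : E → ℝ, IsFn f ∧ D.ms p f = 1 ∧ r = D.tv f}.Nonempty
  swap
  · refine ⟨1, one_pos, 1, one_pos, fun f hf hf1 _ => ?_⟩
    exact absurd ⟨_, f, hf, hf1, rfl⟩ hne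
  have hp0 : 0 < p := by linarith
  have hq : 0 < D.qi p := D.qi_pos h hp1.le hpP hne
  set q := D.qi p with hqdef
  obtain ⟨C, hC, hA⟩ := D.avg h
  obtain ⟨M, hM, hMb⟩ := TA.exists_prof_deriv
  have hN := D.N_pos
  set β : ℝ := 1 / p with hβ
  have hβ0 : 0 < β := by positivity
  have hβ1 : β < 1 := by
    rw [hβ, div_lt_one hp0]
    exact hp1
  have h1β : 0 < 1 - β := by linarith
  -- the amount of mass in a ball
  set w0 : ℝ := 1 / (2 * (C * (q + 1))) with hw0
  have hw0' : 0 < w0 := by positivity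
  set v : ℝ := w0 ^ (1 / (1 - β)) with hv
  have hv0 : 0 < v := Real.rpow_pos_of_pos hw0' _
  have hvβ : v ^ (1 - β) = w0 := by
    rw [hv, ← Real.rpow_mul hw0'.le, one_div_mul_cancel h1β.ne', Real.rpow_one]
  by_cases hv1 : 1 < v
  · -- impossible case: no near-minimisers
    refine ⟨1, one_pos, 1, one_pos, fun f hf hf1 hfq => ?_⟩
    exfalso
    have h1 := hA p hp1.le hpP f hf v hv0.le fun c => by
      have h2 : ∫ z in {z | D.chd c z < 2}, f z ^ p ∂D.μ ≤ D.ms p f :=
        setIntegral_le_integral (D.integrable_rpow hf hp0)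
          (Filter.Eventually.of_forall fun z => Real.rpow_nonneg (hf.nonneg z) p)
      rw [hf1] at h2
      exact h2.trans hv1.le
    rw [hf1, ← hβ, hvβ] at h1
    have h2 : w0 * (C * D.tv f) ≤ w0 * (C * (q + 1)) :=
      mul_le_mul_of_nonneg_left (mul_le_mul_of_nonneg_left hfq hC.le) hw0'.le
    have h3 : w0 * (C * (q + 1)) = 1 / 2 := by
      rw [hw0]
      field_simp
    linarith
  have hv1' : v ≤ 1 := not_lt.1 hv1
  set κ : ℝ := 1 - (1 - v) ^ (1 - β) with hκ
  have hκ0 : 0 < κ := TA.one_sub_rpow_pos hv0 hv1' h1β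
  set δ : ℝ := κ * η ^ β / 3 with hδ
  have hδ0 : 0 < δ := by positivity
  obtain ⟨K, hK⟩ := exists_nat_gt (1 / δ)
  have hK0 : 0 < (K : ℝ) := lt_trans (by positivity) hK
  have hK0' : 0 < K := by exact_mod_cast hK0
  have hK1 : 1 / (K : ℝ) ≤ δ := by
    rw [div_le_iff₀ hK0]
    rw [div_lt_iff₀ hδ0] at hK
    linarith
  set L : ℝ := 4 * M / (D.N * δ) with hL
  have hL0 : 0 < L := by positivity
  have hy : 2 * M / (L * D.N) = δ / 2 := by
    rw [hL]
    field_simp
    ring
  set ε : ℝ := q * min 1 (δ / 2) with hε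
  have hm0 : 0 < min 1 (δ / 2) := lt_min one_pos (by positivity)
  have hε0 : 0 < ε := mul_pos hq hm0
  refine ⟨min ε 1, lt_min hε0 one_pos, 2 * Real.exp (K * L), by positivity,
    fun f hf hf1 hfq => ?_⟩
  have hfq1 : D.tv f ≤ q + 1 := hfq.trans (add_le_add le_rfl (min_le_right _ _))
  have hfq2 : D.tv f ≤ q + ε := hfq.trans (add_le_add le_rfl (min_le_left _ _))
  -- choice of the centre
  have hex : ∃ c, v < ∫ z in {z | D.chd c z < 2}, f z ^ p ∂D.μ := by
    by_contra hcon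
    push Not at hcon
    have h1 := hA p hp1.le hpP f hf v hv0.le hcon
    rw [hf1, ← hβ, hvβ] at h1
    have h2 : w0 * (C * D.tv f) ≤ w0 * (C * (q + 1)) :=
      mul_le_mul_of_nonneg_left (mul_le_mul_of_nonneg_left hfq1 hC.le) hw0'.le
    have h3 : w0 * (C * (q + 1)) = 1 / 2 := by
      rw [hw0]
      field_simp
    linarith
  obtain ⟨c, hc⟩ := hex
  rw [D.setIntegral_ball c 2] at hc
  refine ⟨c, ?_⟩
  set g : E → ℝ := fun y => f (D.phi c y) with hg
  have hgF : IsFn g := D.isFn_comp hf c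
  have hg1 : D.ms p g = 1 := by rw [hg, D.ms_comp, hf1]
  have hgt : D.tv g ≤ q + ε := by rw [hg, D.tv_comp hf c]; exact hfq2
  have hgi : Integrable (fun z => g z ^ p) D.μ := D.integrable_rpow hgF hp0
  have hg0 : ∀ z, 0 ≤ g z ^ p := fun z => Real.rpow_nonneg (hgF.nonneg z) p
  obtain ⟨k, hkK, hk⟩ := TA.pigeon D.μ hgi hg0 (l := lg)
    (contDiff_lg.continuous.measurable) hL0 hK0'
  have hgI : ∫ z, g z ^ p ∂D.μ = 1 := hg1
  rw [hgI, mul_one] at hk
  -- the three parts
  have hlm : Measurable (lg : E → ℝ) := contDiff_lg.continuous.measurable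
  set A : Set E := {z | lg z < k * L} with hAdef
  set B : Set E := {z | (k + 1) * L ≤ lg z} with hBdef
  set S : Set E := {z | k * L ≤ lg z ∧ lg z < (k + 1) * L} with hSdef
  have hAm : MeasurableSet A := measurableSet_lt hlm measurable_const
  have hBm : MeasurableSet B := measurableSet_le measurable_const hlm
  have hSm : MeasurableSet S :=
    (measurableSet_le measurable_const hlm).inter (measurableSet_lt hlm measurable_const)
  have hsplit : ∫ z, g z ^ p ∂D.μ
      = ∫ z in A, g z ^ p ∂D.μ + (∫ z in S, g z ^ p ∂D.μ + ∫ z in B, g z ^ p ∂D.μ) := by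
    rw [← integral_add_compl hAm hgi]
    congr 1
    have hAc : Aᶜ = S ∪ B := by
      ext z
      simp only [hAdef, hSdef, hBdef, mem_compl_iff, mem_ofPred_eq, mem_union, not_lt]
      constructor
      · intro hz
        by_cases h2 : lg z < (k + 1) * L
        · exact Or.inl ⟨hz, h2⟩
        · exact Or.inr (not_lt.1 h2)
      · rintro (⟨hz, _⟩ | hz)
        · exact hz
        · exact le_trans (mul_le_mul_of_nonneg_right (by linarith) hL0.le) hz
    rw [hAc, setIntegral_union ?_ hBm hgi.integrableOn hgi.integrableOn]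
    rw [Set.disjoint_left]
    rintro z ⟨_, hz⟩ hz'
    exact absurd hz (not_lt.2 hz')
  set a : ℝ := ∫ z in A, g z ^ p ∂D.μ with ha
  set b : ℝ := ∫ z in B, g z ^ p ∂D.μ with hb
  have hb0 : 0 ≤ b := integral_nonneg hg0
  have ha0 : 0 ≤ a := integral_nonneg hg0
  have hs0 : 0 ≤ ∫ z in S, g z ^ p ∂D.μ := integral_nonneg hg0
  rw [hgI] at hsplit
  have hab : a + b ≤ 1 := by linarith
  have hab2 : 1 - 1 / (K : ℝ) ≤ a + b := by linarith
  have hva : v ≤ a := by
    refine hc.le.trans ?_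
    refine setIntegral_mono_set hgi.integrableOn (Filter.Eventually.of_forall hg0) ?_
    refine LE.le.eventuallyLE fun z hz => ?_
    have hz' : uu z < 2 := hz
    have h1 : lg z < 0 := by
      unfold lg
      have := Real.log_lt_log (uu_pos z) hz'
      linarith
    have h2 : 0 ≤ (k : ℝ) * L := by positivity
    exact lt_of_lt_of_le h1 h2
  -- masses of the pieces
  have hct := contDiff_ct (E := E) L k
  have h10 : ∀ y : E, 0 ≤ 1 - ct L k y := fun y => sub_nonneg.2 (ct_le_one L k y)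
  have hF1 : IsFn (fun y => ct L k y * g y) := hgF.mul_left hct (ct_nonneg L k)
  have hF2 : IsFn (fun y => (1 - ct L k y) * g y) :=
    hgF.mul_left (contDiff_const.sub hct) h10
  have hma : a ≤ D.ms p (fun y => ct L k y * g y) := by
    have h1 : a = ∫ z in A, (ct L k z * g z) ^ p ∂D.μ := by
      refine setIntegral_congr_fun hAm fun z hz => ?_
      rw [ct_one hL0 hz, one_mul]
    rw [h1]
    exact setIntegral_le_integral (D.integrable_rpow hF1 hp0)
      (Filter.Eventually.of_forall fun z => Real.rpow_nonneg (hF1.nonneg z) p)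
  have hmb : b ≤ D.ms p (fun y => (1 - ct L k y) * g y) := by
    have h1 : b = ∫ z in B, ((1 - ct L k z) * g z) ^ p ∂D.μ := by
      refine setIntegral_congr_fun hBm fun z hz => ?_
      rw [ct_zero hL0 hz, sub_zero, one_mul]
    rw [h1]
    exact setIntegral_le_integral (D.integrable_rpow hF2 hp0)
      (Filter.Eventually.of_forall fun z => Real.rpow_nonneg (hF2.nonneg z) p)
  have hqa : q * a ^ β ≤ D.tv (fun y => ct L k y * g y) :=
    (mul_le_mul_of_nonneg_left (Real.rpow_le_rpow ha0 hma hβ0.le) hq.le).trans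
      (D.qi_mul_le hF1 hp0)
  have hqb : q * b ^ β ≤ D.tv (fun y => (1 - ct L k y) * g y) :=
    (mul_le_mul_of_nonneg_left (Real.rpow_le_rpow hb0 hmb hβ0.le) hq.le).trans
      (D.qi_mul_le hF2 hp0)
  have hcut := D.tv_cut hMb hL0 k hgF
  rw [hy] at hcut
  have hsum : q * (a ^ β + b ^ β) ≤ (q + ε) * (1 + δ / 2) := by
    have h1 : D.tv g * (1 + δ / 2) ≤ (q + ε) * (1 + δ / 2) :=
      mul_le_mul_of_nonneg_right hgt (by positivity)
    rw [mul_add]
    linarith
  have hd : a ^ β + b ^ β ≤ 1 + 2 * δ := by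
    have h1 : (q + ε) * (1 + δ / 2) ≤ q * (1 + 2 * δ) := by
      rw [hε]
      have h2 : min 1 (δ / 2) ≤ 1 := min_le_left _ _
      have h3 : min 1 (δ / 2) ≤ δ / 2 := min_le_right _ _
      have h4 : (1 + min 1 (δ / 2)) * (1 + δ / 2) ≤ 1 + 2 * δ := by nlinarith
      calc (q + q * min 1 (δ / 2)) * (1 + δ / 2)
          = q * ((1 + min 1 (δ / 2)) * (1 + δ / 2)) := by ring
        _ ≤ q * (1 + 2 * δ) := mul_le_mul_of_nonneg_left h4 hq.le
    exact le_of_mul_le_mul_left (hsum.trans h1) hq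
  have hfin := TA.cut_real hβ0 hβ1 hb0 hv0 hva hab hab2 hd
  rw [← hκ] at hfin
  have hbη : b ≤ η := by
    have h1 : b ^ β * κ ≤ η ^ β * κ := by
      have h2 : 2 * δ + 1 / (K : ℝ) ≤ 3 * δ := by linarith
      have h3 : 3 * δ = η ^ β * κ := by
        rw [hδ]
        ring
      linarith
    have h4 : b ^ β ≤ η ^ β := le_of_mul_le_mul_right h1 hκ0
    exact (Real.rpow_le_rpow_iff hb0 hη.le hβ0).1 h4
  refine le_trans ?_ hbη
  refine setIntegral_mono_set hgi.integrableOn (Filter.Eventually.of_forall hg0) ?_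
  refine LE.le.eventuallyLE fun z hz => ?_
  have hz' : 2 * Real.exp (K * L) ≤ uu z := hz
  have h1 : Real.log 2 + K * L ≤ Real.log (uu z) := by
    have h2 := Real.log_le_log (by positivity) hz'
    rwa [Real.log_mul two_ne_zero (Real.exp_ne_zero _), Real.log_exp] at h2
  have h3 : ((k : ℝ) + 1) * L ≤ K * L := by
    refine mul_le_mul_of_nonneg_right ?_ hL0.le
    exact_mod_cast hkK
  change (k + 1) * L ≤ lg z
  unfold lg
  linarith

end TD

end

end Pool.Agent.Work.MP_3b24f6_gt
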