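import Pool.Agent.Work.MP_3b24f6_gt.ModelB
import Pool.Agent.Work.MP_3b24f6_gt.TightCut
import Pool.Agent.Work.MP_3b24f6_gt.LocalSob
import Pool.Agent.Work.MP_3b24f6_gt.Delta

set_option autoImplicit false
set_option linter.unusedSectionVars false

open MeasureTheory Set Filter Topology
open scoped ContDiff InnerProductSpace ENNReal

namespace Pool.Agent.Work.MP_3b24f6_gt

noncomputable section

variable {E : Type*} [NormedAddCommGroup E] [InnerProductSpace ℝ E] [FiniteDimensional ℝ E]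

/-! Elementary facts about `an` (kept in a separate namespace). -/
namespace TI

variable (V : Ver E)

theorem Q_nonneg (y ξ : E) : 0 ≤ ⟪V.Q y ξ, ξ⟫_ℝ := by
  have h1 : ⟪V.Q y (V.Q y ξ), ξ⟫_ℝ = ‖y‖ ^ 2 * ⟪V.Q y ξ, ξ⟫_ℝ := by
    rw [V.Q_Q, inner_smul_left]
    simp
  rw [V.Q_symm, real_inner_self_eq_norm_sq] at h1
  by_cases hy : y = 0
  · subst hy
    have h2 : V.Q (0 : E) ξ = 0 := by
      have h3 : V.Q (0 : E) = 0 := by
        have h4 := V.Q_smul 0 (0 : E)
        rwa [smul_zero, zero_pow two_ne_zero, zero_smul] at h4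
      rw [h3]
      rfl
    rw [h2, inner_zero_left]
  · have h2 : 0 < ‖y‖ ^ 2 := by positivity
    by_contra hc
    have h3 : ‖y‖ ^ 2 * ⟪V.Q y ξ, ξ⟫_ℝ < 0 := mul_neg_of_pos_of_neg h2 (not_le.1 hc)
    nlinarith [sq_nonneg ‖V.Q y ξ‖]

/-- The vertical part is at most the tangential part. -/
theorem Q_le (y ξ : E) : ⟪V.Q y ξ, ξ⟫_ℝ ≤ ‖y‖ ^ 2 * ‖ξ‖ ^ 2 - ⟪y, ξ⟫_ℝ ^ 2 := by
  by_cases hy : y = 0
  · subst hy
    have h3 : V.Q (0 : E) = 0 := by
      have h4 := V.Q_smul 0 (0 : E)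
      rwa [smul_zero, zero_pow two_ne_zero, zero_smul] at h4
    rw [h3]
    simp
  · have h2 : 0 < ‖y‖ ^ 2 := by positivity
    have e1 : ⟪V.Q y ξ, V.Q y ξ⟫_ℝ = ‖y‖ ^ 2 * ⟪V.Q y ξ, ξ⟫_ℝ := by
      rw [← V.Q_symm, V.Q_Q, inner_smul_left]
      simp
    have e2 : ⟪V.Q y ξ, y⟫_ℝ = 0 := by
      rw [V.Q_symm, V.Q_self, inner_zero_right]
    -- the norm of the rest
    have h5 : 0 ≤ ‖‖y‖ ^ 2 • ξ - V.Q y ξ - ⟪y, ξ⟫_ℝ • y‖ ^ 2 := sq_nonneg _
    rw [← real_inner_self_eq_norm_sq] at h5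
    simp only [inner_sub_left, inner_sub_right, inner_smul_left, inner_smul_right,
      RCLike.conj_to_real, e1, e2] at h5
    have e3 : ⟪ξ, V.Q y ξ⟫_ℝ = ⟪V.Q y ξ, ξ⟫_ℝ := real_inner_comm _ _
    have e4 : ⟪y, V.Q y ξ⟫_ℝ = 0 := by rw [real_inner_comm, e2]
    have e5 : ⟪ξ, y⟫_ℝ = ⟪y, ξ⟫_ℝ := real_inner_comm _ _
    rw [e3, e4, e5, real_inner_self_eq_norm_sq, real_inner_self_eq_norm_sq] at h5
    have h6 : 0 ≤ ‖y‖ ^ 2 * (‖y‖ ^ 2 * ‖ξ‖ ^ 2 - ⟪y, ξ⟫_ℝ ^ 2 - ⟪V.Q y ξ, ξ⟫_ℝ) := by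
      nlinarith [h5]
    have h7 := nonneg_of_mul_nonneg_right h6 h2
    linarith

/-- The bilinear form of the dual metric. -/
def bf (y ξ ζ : E) : ℝ := ⟪ξ, ζ⟫_ℝ + ⟪y, ξ⟫_ℝ * ⟪y, ζ⟫_ℝ - ⟪V.Q y ξ, ζ⟫_ℝ / uu y ^ 2

theorem bf_self (y ξ : E) :
    bf V y ξ ξ = ‖ξ‖ ^ 2 + ⟪y, ξ⟫_ℝ ^ 2 - ⟪V.Q y ξ, ξ⟫_ℝ / uu y ^ 2 := by
  unfold bf
  rw [real_inner_self_eq_norm_sq]
  ring

theorem bf_low (y ξ : E) : ‖ξ‖ ^ 2 ≤ uu y ^ 2 * bf V y ξ ξ := by
  have hu := TU.uu_sq y
  have hu0 : 0 < uu y ^ 2 := by have := TU.uu_pos y; positivity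
  have h1 := Q_le V y ξ
  have h2 : uu y ^ 2 * bf V y ξ ξ
      = uu y ^ 2 * (‖ξ‖ ^ 2 + ⟪y, ξ⟫_ℝ ^ 2) - ⟪V.Q y ξ, ξ⟫_ℝ := by
    rw [bf_self, mul_sub, mul_div_cancel₀ _ hu0.ne']
  rw [h2, hu]
  nlinarith [sq_nonneg ⟪y, ξ⟫_ℝ, sq_nonneg ‖ξ‖, sq_nonneg (‖y‖ * ⟪y, ξ⟫_ℝ)]

theorem bf_nonneg (y ξ : E) : 0 ≤ bf V y ξ ξ := by
  have h := bf_low V y ξ
  have hu0 : 0 < uu y ^ 2 := by have := TU.uu_pos y; positivity
  exact nonneg_of_mul_nonneg_right ((sq_nonneg _).trans h) hu0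

theorem an_sq (y ξ : E) : an V y ξ ^ 2 = bf V y ξ ξ := by
  unfold an
  rw [← bf_self, Real.sq_sqrt (bf_nonneg V y ξ)]

theorem an_nonneg (y ξ : E) : 0 ≤ an V y ξ := Real.sqrt_nonneg _

theorem bf_symm (y ξ ζ : E) : bf V y ξ ζ = bf V y ζ ξ := by
  unfold bf
  rw [real_inner_comm, V.Q_symm, real_inner_comm (V.Q y ζ)]
  ring

theorem bf_add_smul (y ξ ζ : E) (t : ℝ) :
    bf V y (ζ - t • ξ) (ζ - t • ξ)
      = bf V y ξ ξ * (t * t) + (-2 * bf V y ξ ζ) * t + bf V y ζ ζ := by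
  have h1 := bf_symm V y ξ ζ
  have h2 : bf V y (ζ - t • ξ) (ζ - t • ξ)
      = bf V y ζ ζ - t * bf V y ζ ξ - t * bf V y ξ ζ + t * t * bf V y ξ ξ := by
    unfold bf
    simp only [map_sub, map_smul, inner_sub_left, inner_sub_right, inner_smul_left,
      inner_smul_right, RCLike.conj_to_real]
    ring
  rw [h2, ← h1]
  ring

theorem bf_cs (y ξ ζ : E) : bf V y ξ ζ ^ 2 ≤ bf V y ξ ξ * bf V y ζ ζ := by
  have h : ∀ t : ℝ, 0 ≤ bf V y ξ ξ * (t * t) + (-2 * bf V y ξ ζ) * t + bf V y ζ ζ := fun t => by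
    rw [← bf_add_smul]
    exact bf_nonneg V y _
  have h2 := discrim_le_zero h
  unfold discrim at h2
  nlinarith [h2]

theorem an_smul (y ξ : E) (a : ℝ) : an V y (a • ξ) = |a| * an V y ξ := by
  have h1 : (an V y (a • ξ)) ^ 2 = (|a| * an V y ξ) ^ 2 := by
    rw [mul_pow, an_sq, an_sq, sq_abs]
    unfold bf
    simp only [map_smul, inner_smul_left, inner_smul_right, RCLike.conj_to_real]
    ring
  exact (pow_left_inj₀ (an_nonneg V y _) (mul_nonneg (abs_nonneg a) (an_nonneg V y ξ))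
    two_ne_zero).1 h1

theorem an_add (y ξ ζ : E) : an V y (ξ + ζ) ≤ an V y ξ + an V y ζ := by
  have h0 := bf_cs V y ξ ζ
  rw [← an_sq, ← an_sq, ← mul_pow] at h0
  have h1 : bf V y ξ ζ ≤ an V y ξ * an V y ζ :=
    (le_abs_self _).trans (abs_le_of_sq_le_sq h0
      (mul_nonneg (an_nonneg V y ξ) (an_nonneg V y ζ)))
  have h3 : an V y (ξ + ζ) ^ 2 ≤ (an V y ξ + an V y ζ) ^ 2 := by
    have e1 : an V y (ξ + ζ) ^ 2 = bf V y ξ ξ + 2 * bf V y ξ ζ + bf V y ζ ζ := by
      have h4 := bf_add_smul V y ζ ξ (-1)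
      rw [neg_one_smul, sub_neg_eq_add] at h4
      rw [an_sq, h4, bf_symm V y ζ ξ]
      ring
    rw [e1, add_sq, an_sq, an_sq]
    linarith
  exact (le_abs_self _).trans (abs_le_of_sq_le_sq h3
    (add_nonneg (an_nonneg V y ξ) (an_nonneg V y ζ)))

theorem an_low (y ξ : E) : ‖ξ‖ ≤ uu y * an V y ξ := by
  have h := bf_low V y ξ
  rw [← an_sq, ← mul_pow] at h
  exact (le_abs_self _).trans (abs_le_of_sq_le_sq h
    (mul_nonneg (TU.uu_pos y).le (an_nonneg V y ξ)))

/-- `|⟨y, ξ⟩| ≤ an y ξ`. -/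
theorem inner_le_an (y ξ : E) : |⟪y, ξ⟫_ℝ| ≤ an V y ξ := by
  have hu := TU.uu_sq y
  have hu0 : 0 < uu y ^ 2 := by have := TU.uu_pos y; positivity
  have h1 := Q_le V y ξ
  have h2 : ⟪V.Q y ξ, ξ⟫_ℝ / uu y ^ 2 ≤ ‖ξ‖ ^ 2 := by
    rw [div_le_iff₀ hu0, hu]
    nlinarith [sq_nonneg ⟪y, ξ⟫_ℝ, sq_nonneg ‖ξ‖]
  have h3 : ⟪y, ξ⟫_ℝ ^ 2 ≤ an V y ξ ^ 2 := by
    rw [an_sq, bf_self]
    linarith
  exact abs_le_of_sq_le_sq h3 (an_nonneg V y ξ)

theorem an_log (y : E) : an V y ((uu y ^ 2)⁻¹ • y) ≤ 1 := by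
  have hu := TU.uu_sq y
  have hu0 : 0 < uu y ^ 2 := by have := TU.uu_pos y; positivity
  have h1 : an V y y ^ 2 = ‖y‖ ^ 2 * uu y ^ 2 := by
    rw [an_sq, bf_self, V.Q_self, inner_zero_left, real_inner_self_eq_norm_sq, hu]
    ring
  have h2 : an V y ((uu y ^ 2)⁻¹ • y) ^ 2 ≤ 1 ^ 2 := by
    rw [an_smul, mul_pow, sq_abs, h1]
    have h3 : ((uu y ^ 2)⁻¹) ^ 2 * (‖y‖ ^ 2 * uu y ^ 2) = ‖y‖ ^ 2 / uu y ^ 2 := by
      field_simp
    rw [h3, one_pow, div_le_one hu0, hu]
    linarith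
  exact (le_abs_self _).trans (abs_le_of_sq_le_sq h2 zero_le_one)

theorem continuous_an : Continuous fun q : E × E => an V q.1 q.2 := by
  unfold an
  refine Continuous.sqrt ?_
  have h1 : Continuous fun q : E × E => ⟪V.Q q.1 q.2, q.2⟫_ℝ :=
    ((V.smooth_Q.continuous.comp continuous_fst).clm_apply continuous_snd).inner continuous_snd
  have h2 : Continuous fun q : E × E => uu q.1 := TU.continuous_uu.comp continuous_fst
  refine ((continuous_snd.norm.pow 2).add
    ((continuous_fst.inner continuous_snd).pow 2)).sub (h1.div (h2.pow 2) fun q => ?_)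
  have := TU.uu_pos q.1
  positivity

theorem continuous_rho : Continuous (rho V) := by
  unfold rho
  exact TU.continuous_uu.pow _

theorem contDiff_rho : ContDiff ℝ ∞ (rho V) := by
  unfold rho
  exact TU.contDiff_uu.pow _

theorem rho_pos (y : E) : 0 < rho V y := pow_pos (TU.uu_pos y) _

theorem one_le_rho (y : E) : 1 ≤ rho V y := one_le_pow₀ (TU.one_le_uu y)

variable [MeasurableSpace E] [BorelSpace E]

theorem setIntegral_mu (g : E → ℝ) {s : Set E} (hs : MeasurableSet s) :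
    ∫ y in s, g y ∂(mu V) = ∫ y in s, rho V y * g y := by
  unfold mu
  rw [setIntegral_withDensity_eq_setIntegral_toReal_smul
    (continuous_rho V).measurable.ennreal_ofReal
    (Filter.Eventually.of_forall fun _ => ENNReal.ofReal_lt_top) _ hs]
  refine integral_congr_ae (Filter.Eventually.of_forall fun y => ?_)
  simp only
  rw [ENNReal.toReal_ofReal (rho_pos V y).le, smul_eq_mul]

theorem integral_mu (g : E → ℝ) : ∫ y, g y ∂(mu V) = ∫ y, rho V y * g y := by
  have h := setIntegral_mu V g MeasurableSet.univ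
  rwa [setIntegral_univ, setIntegral_univ] at h

instance : IsLocallyFiniteMeasure (mu V) :=
  IsLocallyFiniteMeasure.withDensity_ofReal (continuous_rho V)

instance : SFinite (mu V) := by
  unfold mu
  infer_instance

/-- The divergence theorem for the field `y`. -/
theorem int_le (f : E → ℝ) (hf : ContDiff ℝ ∞ f) (hc : HasCompactSupport f)
    (h0 : ∀ z, 0 ≤ f z) :
    (Module.finrank ℝ E : ℝ) * ∫ z, f z ∂(mu V) ≤ ∫ z, an V z (gradient f z) ∂(mu V) := by
  have hZ : ContDiff ℝ 1 (fun y : E => rho V y • y) :=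
    ((contDiff_rho V).smul contDiff_id).of_le (by exact_mod_cast le_top)
  have hdiv : ∀ y, (Module.finrank ℝ E : ℝ) * rho V y ≤ divE (fun y => rho V y • y) y := by
    intro y
    have h1 : HasFDerivAt (fun y : E => rho V y • y)
        (rho V y • ContinuousLinearMap.id ℝ E + (fderiv ℝ (rho V) y).smulRight y) y :=
      ((contDiff_rho V).differentiable (by simp) y).hasFDerivAt.smul (hasFDerivAt_id y)
    have h2 : 0 ≤ fderiv ℝ (rho V) y y := by
      have h3 : HasFDerivAt (uu : E → ℝ) ((1 / (2 * uu y)) • (2 • innerSL ℝ y)) y := by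
        have h4 : HasFDerivAt (fun y : E => 1 + ‖y‖ ^ 2) (2 • innerSL ℝ y) y :=
          (hasStrictFDerivAt_norm_sq y).hasFDerivAt.const_add 1
        exact h4.sqrt (by positivity)
      have h5 := h3.pow (V.w - 1)
      have h6 : fderiv ℝ (rho V) y = _ := h5.fderiv
      rw [h6]
      simp only [smul_apply, nsmul_eq_mul, smul_eq_mul, innerSL_apply_apply]
      have h7 : ⟪y, y⟫_ℝ = ‖y‖ ^ 2 := real_inner_self_eq_norm_sq y
      rw [h7]
      have := TU.uu_pos y
      positivity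
    unfold divE tr
    rw [h1.fderiv]
    have h8 : LinearMap.trace ℝ E
        ((rho V y • ContinuousLinearMap.id ℝ E + (fderiv ℝ (rho V) y).smulRight y : E →L[ℝ] E) :
          E →ₗ[ℝ] E)
        = rho V y * Module.finrank ℝ E + fderiv ℝ (rho V) y y := by
      have h9 : ((rho V y • ContinuousLinearMap.id ℝ E
          + (fderiv ℝ (rho V) y).smulRight y : E →L[ℝ] E) : E →ₗ[ℝ] E)
          = rho V y • LinearMap.id
            + ((fderiv ℝ (rho V) y : E →L[ℝ] ℝ) : E →ₗ[ℝ] ℝ).smulRight y := by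
        ext v
        simp
      rw [h9, map_add, map_smul, LinearMap.trace_id, smul_eq_mul]
      congr 1
      exact LinearMap.trace_smulRight _ _
    rw [h8]
    linarith
  have hkey := dl_integral_mul_divE (hf.of_le (by exact_mod_cast le_top)) hc hZ
  have hcontdiv : Continuous fun y => divE (fun y => rho V y • y) y := by
    unfold divE tr
    exact (LinearMap.continuous_of_finiteDimensional
      ((LinearMap.trace ℝ E).comp (ContinuousLinearMap.coeLM ℝ))).comp
      (hZ.continuous_fderiv one_ne_zero)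
  rw [integral_mu, integral_mu, ← integral_const_mul]
  calc ∫ y, (Module.finrank ℝ E : ℝ) * (rho V y * f y)
      ≤ ∫ y, f y * divE (fun y => rho V y • y) y := by
        refine integral_mono ?_ ?_ fun y => ?_
        · exact (((continuous_rho V).mul hf.continuous).integrable_of_hasCompactSupport
            hc.mul_left).const_mul _
        · exact (hf.continuous.mul hcontdiv).integrable_of_hasCompactSupport hc.mul_right
        · have h1 := mul_le_mul_of_nonneg_left (hdiv y) (h0 y)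
          simp only
          linarith
    _ = - ∫ y, fderiv ℝ f y (rho V y • y) := hkey
    _ = ∫ y, - fderiv ℝ f y (rho V y • y) := (integral_neg _).symm
    _ ≤ ∫ y, rho V y * an V y (gradient f y) := by
        refine integral_mono ?_ ?_ fun y => ?_
        · refine (Continuous.integrable_of_hasCompactSupport ?_ ?_).neg
          · exact (hf.continuous_fderiv (by simp)).clm_apply
              ((continuous_rho V).smul continuous_id)
          · exact (hc.fderiv (𝕜 := ℝ)).mono fun y hy => by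
              intro h
              exact hy (by simp [h])
        · refine ((continuous_rho V).mul ((continuous_an V).comp
            (continuous_id.prodMk (TU.continuous_gradient hf)))).integrable_of_hasCompactSupport
            (HasCompactSupport.mul_left ?_)
          refine HasCompactSupport.of_support_subset_isCompact (hc.fderiv (𝕜 := ℝ)) ?_
          intro z hz
          by_contra h
          have h1 : fderiv ℝ f z = 0 := image_eq_zero_of_notMem_tsupport h
          have h2 : gradient f z = 0 := by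
            refine ext_inner_right ℝ fun v => ?_
            rw [TU.inner_gradient, h1]
            simp
          refine hz ?_
          simp only [id_eq, Function.comp_apply]
          rw [h2]
          have h3 := an_smul V z 0 0
          rwa [smul_zero, abs_zero, zero_mul] at h3
        · simp only
          rw [map_smul, smul_eq_mul, ← TU.inner_gradient, ← mul_neg]
          refine mul_le_mul_of_nonneg_left ?_ (rho_pos V y).le
          have h1 := inner_le_an V y (gradient f y)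
          rw [real_inner_comm]
          exact (neg_le_abs _).trans h1

theorem lo : ∃ c : ℝ, 0 < c ∧ ∀ h : E → ℝ, Continuous h → (∀ z, 0 ≤ h z) →
    (∫ z in {z | uu z < 2}, h z ∂(mu V) ≤ c * ∫ z in {z | uu z < 2}, h z) ∧
    (∫ z in {z | uu z < 3}, h z ≤ c * ∫ z in {z | uu z < 3}, h z ∂(mu V)) := by
  have hm : ∀ R : ℝ, MeasurableSet {z : E | uu z < R} := fun R =>
    (TD.isOpen_ball R).measurableSet
  have hint : ∀ (R : ℝ) (h : E → ℝ), Continuous h → IntegrableOn h {z : E | uu z < R} := by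
    intro R h hh
    refine (hh.continuousOn.integrableOn_compact (TD.isCompact_cball (E := E) R)).mono_set ?_
    intro z hz
    have hz' : uu z < R := hz
    exact hz'.le
  refine ⟨2 ^ (V.w - 1), by positivity, fun h hh h0 => ⟨?_, ?_⟩⟩
  · rw [setIntegral_mu V h (hm 2), ← integral_const_mul]
    refine setIntegral_mono_on (hint 2 _ ((continuous_rho V).mul hh))
      ((hint 2 _ hh).const_mul _) (hm 2) fun z hz => ?_
    refine mul_le_mul_of_nonneg_right ?_ (h0 z)
    have hz' : uu z < 2 := hz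
    exact pow_le_pow_left₀ (TU.uu_pos z).le hz'.le _
  · rw [setIntegral_mu V h (hm 3)]
    have h1 : ∫ z in {z | uu z < 3}, h z ≤ ∫ z in {z | uu z < 3}, rho V z * h z := by
      refine setIntegral_mono_on (hint 3 _ hh) (hint 3 _ ((continuous_rho V).mul hh)) (hm 3)
        fun z _ => ?_
      exact le_mul_of_one_le_left (h0 z) (one_le_rho V z)
    have h2 : 0 ≤ ∫ z in {z | uu z < 3}, rho V z * h z :=
      integral_nonneg fun z => mul_nonneg (rho_pos V z).le (h0 z)
    exact h1.trans (le_mul_of_one_le_left h2 (one_le_pow₀ one_le_two))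

/-- The data for the abstract argument. -/
def td (H : HomB V) : TD E where
  N := Module.finrank ℝ E
  N_pos := by
    have h1 := V.dim_le
    have h2 : 0 < Module.finrank ℝ E := by omega
    exact_mod_cast h2
  μ := mu V
  fin := inferInstance
  sfin := inferInstance
  lo := lo V
  an := an V
  an_cont := continuous_an V
  an_nonneg := an_nonneg V
  an_add := an_add V
  an_smul := an_smul V
  an_low := an_low V
  an_log := an_log V
  int_le := int_le V
  chd := H.chd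
  phi := H.phi
  inv := H.inv
  smooth_phi := H.smooth_phi
  smooth_inv := H.smooth_inv
  phi_inv := H.phi_inv
  inv_phi := H.inv_phi
  phi_zero := H.phi_zero
  mp := H.mp
  an_phi := H.an_phi
  chd_phi := H.chd_phi
  chd_zero := H.chd_zero
  chd_symm := H.chd_symm
  chd_cont := H.chd_smooth.continuous

theorem isFn_iff (f : E → ℝ) : TD.IsFn f ↔ Fn f :=
  ⟨fun h => ⟨h.smooth, h.cpt, h.nonneg⟩, fun h => ⟨h.1, h.2.1, h.2.2⟩⟩

theorem qi_eq (H : HomB V) (p : ℝ) : (td V H).qi p = qq V p := by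
  unfold TD.qi qq
  congr 1
  ext r
  constructor
  · rintro ⟨f, hf, h1, h2⟩
    exact ⟨f, (isFn_iff f).1 hf, h1, h2.symm⟩
  · rintro ⟨f, hf, h1, h2⟩
    exact ⟨f, (isFn_iff f).2 hf, h1, h2.symm⟩

end TI

section Tight
variable [MeasurableSpace E] [BorelSpace E] (V : Ver E)

theorem lin_ineq {f : E → ℝ} (hf : Fn f) :
    Module.finrank ℝ E * ∫ y, f y ∂(mu V) ≤ TV V f :=
  TI.int_le V f hf.1 hf.2.1 hf.2.2

/-- Local Sobolev inequality with one constant. -/
theorem locSob_of_ver (V : Ver E) :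
    LocSob E ((Module.finrank ℝ E : ℝ) / (Module.finrank ℝ E - 1)) := by
  refine local_sob ?_
  have := V.dim_le
  omega

/-- Sobolev inequality, one constant for all exponents. -/
theorem sobolev_unif (H : HomB V) : ∃ C, 0 < C ∧ ∀ r : ℝ, 1 ≤ r →
    r ≤ (Module.finrank ℝ E : ℝ) / (Module.finrank ℝ E - 1) →
    ∀ f : E → ℝ, Fn f → mass V r f ^ (1 / r) ≤ C * TV V f := by
  obtain ⟨C, hC, hS⟩ := (TI.td V H).sobolev (locSob_of_ver V)
  exact ⟨C, hC, fun r h1 h2 f hf => hS r h1 h2 f ((TI.isFn_iff f).2 hf)⟩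

theorem sobolev (H : HomB V) {r : ℝ} (h1 : 1 ≤ r)
    (h2 : r ≤ Module.finrank ℝ E / (Module.finrank ℝ E - 1)) :
    ∃ C, 0 < C ∧ ∀ f : E → ℝ, Fn f → mass V r f ^ (1 / r) ≤ C * TV V f := by
  obtain ⟨C, hC, hS⟩ := sobolev_unif V H
  exact ⟨C, hC, hS r h1 h2⟩

theorem tight (H : HomB V) {p : ℝ} (h1 : 1 < p)
    (h2 : p < Module.finrank ℝ E / (Module.finrank ℝ E - 1)) :
    ∀ η, 0 < η → ∃ ε, 0 < ε ∧ ∃ R, 0 < R ∧ ∀ f : E → ℝ, Fn f → mass V p f = 1 →
      TV V f ≤ qq V p + ε → ∃ a, tail V p R (fun y => f (H.phi a y)) ≤ η := by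
  intro η hη
  obtain ⟨ε, hε, R, hR, h⟩ := (TI.td V H).tight (locSob_of_ver V) h1 h2.le hη
  refine ⟨ε, hε, R, hR, fun f hf hf1 hf2 => ?_⟩
  have hf' := (TI.isFn_iff f).2 hf
  obtain ⟨c, hc⟩ := h f hf' hf1 (by rw [TI.qi_eq]; exact hf2)
  refine ⟨c, le_trans ?_ hc⟩
  have hF := (TI.td V H).isFn_comp hf' c
  unfold tail
  refine setIntegral_mono_set ?_ ?_ ?_
  · exact ((TI.td V H).integrable_rpow hF (by linarith)).integrableOn
  · exact Filter.Eventually.of_forall fun z => Real.rpow_nonneg (hF.nonneg z) p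
  · refine LE.le.eventuallyLE fun z hz => ?_
    have h3 : R ≤ ‖z‖ := by
      by_contra h4
      exact hz (by rw [Metric.mem_ball, dist_zero_right]; exact not_le.1 h4)
    exact h3.trans (TU.norm_le_uu z)

end Tight

end

end Pool.Agent.Work.MP_3b24f6_gt
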