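import Pool.Agent.Work.MP_3b24f6_gt.Model

/-! Uniform second order jets, used for the pointwise second variation inequality. -/

set_option autoImplicit false

open MeasureTheory Set Filter Topology
open scoped ContDiff InnerProductSpace

namespace Pool.Agent.Work.MP_3b24f6_gt

noncomputable section

namespace Pt

section jets

variable {ι : Type*}

/-- Uniform second order jets on `|t| ≤ 1/2`. -/
def Jet (F : ι → ℝ → ℝ) (c0 c1 c2 : ι → ℝ) : Prop :=
  ∃ C : ℝ, 0 ≤ C ∧ ∀ i, |c0 i| ≤ C ∧ |c1 i| ≤ C ∧ |c2 i| ≤ C ∧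
    ∀ t : ℝ, |t| ≤ 1 / 2 → |F i t - (c0 i + c1 i * t + c2 i * t ^ 2)| ≤ C * |t| ^ 3

theorem Jet.congr {F G : ι → ℝ → ℝ} {c0 c1 c2 d0 d1 d2 : ι → ℝ} (h : Jet F c0 c1 c2)
    (hF : ∀ i t, |t| ≤ 1 / 2 → F i t = G i t) (h0 : ∀ i, c0 i = d0 i) (h1 : ∀ i, c1 i = d1 i)
    (h2 : ∀ i, c2 i = d2 i) : Jet G d0 d1 d2 := by
  obtain ⟨C, hC, h⟩ := h
  refine ⟨C, hC, fun i => ?_⟩
  obtain ⟨a, b, c, d⟩ := h i
  rw [h0] at a
  rw [h1] at b
  rw [h2] at c
  refine ⟨a, b, c, fun t ht => ?_⟩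
  have := d t ht
  rwa [hF i t ht, h0, h1, h2] at this

theorem Jet.const (c : ι → ℝ) (K : ℝ) (h : ∀ i, |c i| ≤ K) :
    Jet (fun i _ => c i) c (fun _ => 0) (fun _ => 0) := by
  refine ⟨max K 0, le_max_right _ _, fun i => ⟨(h i).trans (le_max_left _ _), ?_, ?_, ?_⟩⟩
  · simp
  · simp
  · intro t ht
    have h3 : 0 ≤ |t| ^ 3 := by positivity
    have : c i - (c i + 0 * t + 0 * t ^ 2) = 0 := by ring
    rw [this, abs_zero]
    exact mul_nonneg (le_max_right _ _) h3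

theorem Jet.var : Jet (fun (_ : ι) t => t) (fun _ => 0) (fun _ => 1) (fun _ => 0) := by
  refine ⟨1, zero_le_one, fun i => ⟨by simp, by simp, by simp, ?_⟩⟩
  intro t ht
  have h3 : 0 ≤ |t| ^ 3 := by positivity
  have : t - (0 + 1 * t + 0 * t ^ 2) = 0 := by ring
  rw [this, abs_zero, one_mul]
  exact h3

theorem Jet.add {F G : ι → ℝ → ℝ} {c0 c1 c2 d0 d1 d2 : ι → ℝ} (h : Jet F c0 c1 c2)
    (h' : Jet G d0 d1 d2) :
    Jet (fun i t => F i t + G i t) (fun i => c0 i + d0 i) (fun i => c1 i + d1 i)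
      (fun i => c2 i + d2 i) := by
  obtain ⟨C, hC, h⟩ := h
  obtain ⟨D, hD, h'⟩ := h'
  refine ⟨C + D, by positivity, fun i => ?_⟩
  obtain ⟨a, b, c, d⟩ := h i
  obtain ⟨a', b', c', d'⟩ := h' i
  refine ⟨(abs_add_le _ _).trans (add_le_add a a'), (abs_add_le _ _).trans (add_le_add b b'),
    (abs_add_le _ _).trans (add_le_add c c'), fun t ht => ?_⟩
  have e : F i t + G i t - (c0 i + d0 i + (c1 i + d1 i) * t + (c2 i + d2 i) * t ^ 2)
      = (F i t - (c0 i + c1 i * t + c2 i * t ^ 2)) + (G i t - (d0 i + d1 i * t + d2 i * t ^ 2)) := by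
    ring
  rw [e, add_mul]
  exact (abs_add_le _ _).trans (add_le_add (d t ht) (d' t ht))

theorem Jet.mul {F G : ι → ℝ → ℝ} {c0 c1 c2 d0 d1 d2 : ι → ℝ} (h : Jet F c0 c1 c2)
    (h' : Jet G d0 d1 d2) :
    Jet (fun i t => F i t * G i t) (fun i => c0 i * d0 i) (fun i => c0 i * d1 i + c1 i * d0 i)
      (fun i => c0 i * d2 i + c1 i * d1 i + c2 i * d0 i) := by
  obtain ⟨C, hC, h⟩ := h
  obtain ⟨D, hD, h'⟩ := h'
  refine ⟨8 * (C * D), by positivity, fun i => ?_⟩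
  obtain ⟨a, b, c, d⟩ := h i
  obtain ⟨a', b', c', d'⟩ := h' i
  have m : ∀ {x y : ℝ}, |x| ≤ C → |y| ≤ D → |x * y| ≤ C * D := by
    intro x y hx hy
    rw [abs_mul]
    exact mul_le_mul hx hy (abs_nonneg _) hC
  have hCD : 0 ≤ C * D := mul_nonneg hC hD
  refine ⟨(m a a').trans (by linarith), ?_, ?_, fun t ht => ?_⟩
  · exact (abs_add_le _ _).trans (by linarith [m a b', m b a'])
  · refine (abs_add_le _ _).trans ?_
    have := abs_add_le (c0 i * d2 i) (c1 i * d1 i)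
    linarith [m a c', m b b', m c a']
  · have h3 : 0 ≤ |t| ^ 3 := by positivity
    have h0 : 0 ≤ |t| := abs_nonneg t
    set x := F i t - (c0 i + c1 i * t + c2 i * t ^ 2) with hx
    set y := G i t - (d0 i + d1 i * t + d2 i * t ^ 2) with hy
    have hF : F i t = x + (c0 i + c1 i * t + c2 i * t ^ 2) := by rw [hx]; ring
    have hG : G i t = y + (d0 i + d1 i * t + d2 i * t ^ 2) := by rw [hy]; ring
    have dx : |x| ≤ C * |t| ^ 3 := d t ht
    have dy : |y| ≤ D * |t| ^ 3 := d' t ht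
    have t2 : |t| ^ 2 ≤ 1 / 4 := by nlinarith
    have t3 : |t| ^ 3 ≤ 1 / 8 := by
      have : |t| ^ 3 = |t| ^ 2 * |t| := by ring
      rw [this]; nlinarith
    have dx' : |x| ≤ C / 8 := by nlinarith
    have pc : |c0 i + c1 i * t + c2 i * t ^ 2| ≤ 2 * C := by
      have e1 := abs_add_le (c0 i + c1 i * t) (c2 i * t ^ 2)
      have e2 := abs_add_le (c0 i) (c1 i * t)
      rw [abs_mul] at e1 e2
      rw [abs_pow] at e1
      have e3 : |c1 i| * |t| ≤ C * (1 / 2) := mul_le_mul b ht h0 hC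
      have e4 : |c2 i| * |t| ^ 2 ≤ C * (1 / 4) := mul_le_mul c t2 (by positivity) hC
      linarith
    have pd : |d0 i + d1 i * t + d2 i * t ^ 2| ≤ 2 * D := by
      have e1 := abs_add_le (d0 i + d1 i * t) (d2 i * t ^ 2)
      have e2 := abs_add_le (d0 i) (d1 i * t)
      rw [abs_mul] at e1 e2
      rw [abs_pow] at e1
      have e3 : |d1 i| * |t| ≤ D * (1 / 2) := mul_le_mul b' ht h0 hD
      have e4 : |d2 i| * |t| ^ 2 ≤ D * (1 / 4) := mul_le_mul c' t2 (by positivity) hD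
      linarith
    have e : F i t * G i t - (c0 i * d0 i + (c0 i * d1 i + c1 i * d0 i) * t
        + (c0 i * d2 i + c1 i * d1 i + c2 i * d0 i) * t ^ 2)
        = x * y + x * (d0 i + d1 i * t + d2 i * t ^ 2) + (c0 i + c1 i * t + c2 i * t ^ 2) * y
          + ((c1 i * d2 i + c2 i * d1 i) * t ^ 3 + c2 i * d2 i * t * t ^ 3) := by
      rw [hF, hG]; ring
    rw [e]
    have f1 : |x * y| ≤ C / 8 * (D * |t| ^ 3) := by
      rw [abs_mul]
      exact mul_le_mul dx' dy (abs_nonneg _) (by positivity)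
    have f2 : |x * (d0 i + d1 i * t + d2 i * t ^ 2)| ≤ C * |t| ^ 3 * (2 * D) := by
      rw [abs_mul]
      exact mul_le_mul dx pd (abs_nonneg _) (by positivity)
    have f3 : |(c0 i + c1 i * t + c2 i * t ^ 2) * y| ≤ 2 * C * (D * |t| ^ 3) := by
      rw [abs_mul]
      exact mul_le_mul pc dy (abs_nonneg _) (by positivity)
    have f4 : |(c1 i * d2 i + c2 i * d1 i) * t ^ 3| ≤ 2 * (C * D) * |t| ^ 3 := by
      rw [abs_mul, abs_pow]
      refine mul_le_mul_of_nonneg_right ?_ h3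
      exact (abs_add_le _ _).trans (by linarith [m b c', m c b'])
    have f5 : |c2 i * d2 i * t * t ^ 3| ≤ (C * D) * |t| ^ 3 := by
      rw [abs_mul, abs_mul, abs_pow]
      refine mul_le_mul_of_nonneg_right ?_ h3
      have : |c2 i * d2 i| * |t| ≤ (C * D) * (1 / 2) := mul_le_mul (m c c') ht h0 hCD
      linarith
    have g1 := abs_add_le (x * y + x * (d0 i + d1 i * t + d2 i * t ^ 2)
      + (c0 i + c1 i * t + c2 i * t ^ 2) * y)
      ((c1 i * d2 i + c2 i * d1 i) * t ^ 3 + c2 i * d2 i * t * t ^ 3)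
    have g2 := abs_add_le (x * y + x * (d0 i + d1 i * t + d2 i * t ^ 2))
      ((c0 i + c1 i * t + c2 i * t ^ 2) * y)
    have g3 := abs_add_le (x * y) (x * (d0 i + d1 i * t + d2 i * t ^ 2))
    have g4 := abs_add_le ((c1 i * d2 i + c2 i * d1 i) * t ^ 3) (c2 i * d2 i * t * t ^ 3)
    have k : 0 ≤ C * D * |t| ^ 3 := by positivity
    nlinarith

theorem Jet.neg {F : ι → ℝ → ℝ} {c0 c1 c2 : ι → ℝ} (h : Jet F c0 c1 c2) :
    Jet (fun i t => - F i t) (fun i => - c0 i) (fun i => - c1 i) (fun i => - c2 i) := by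
  obtain ⟨C, hC, h⟩ := h
  refine ⟨C, hC, fun i => ?_⟩
  obtain ⟨a, b, c, d⟩ := h i
  refine ⟨by rwa [abs_neg], by rwa [abs_neg], by rwa [abs_neg], fun t ht => ?_⟩
  have e : - F i t - (- c0 i + - c1 i * t + - c2 i * t ^ 2)
      = - (F i t - (c0 i + c1 i * t + c2 i * t ^ 2)) := by ring
  rw [e, abs_neg]
  exact d t ht

theorem Jet.sub {F G : ι → ℝ → ℝ} {c0 c1 c2 d0 d1 d2 : ι → ℝ} (h : Jet F c0 c1 c2)
    (h' : Jet G d0 d1 d2) :
    Jet (fun i t => F i t - G i t) (fun i => c0 i - d0 i) (fun i => c1 i - d1 i)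
      (fun i => c2 i - d2 i) := by
  refine (h.add h'.neg).congr ?_ ?_ ?_ ?_ <;> intros <;> ring

/-- Reciprocals. -/
theorem Jet.inv {P : ι → ℝ → ℝ} {p1 p2 : ι → ℝ} (h : Jet P (fun _ => 1) p1 p2)
    (hP : ∀ i t, |t| ≤ 1 / 2 → 1 / 2 ≤ P i t) :
    Jet (fun i t => (P i t)⁻¹) (fun _ => 1) (fun i => - p1 i) (fun i => p1 i ^ 2 - p2 i) := by
  have h0 := h
  obtain ⟨C, hC, h1⟩ := h
  have hq : Jet (fun i t => 1 + (- p1 i) * t + (p1 i ^ 2 - p2 i) * t ^ 2) (fun _ => 1)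
      (fun i => - p1 i) (fun i => p1 i ^ 2 - p2 i) := by
    refine ⟨1 + C + C ^ 2, by positivity, fun i => ?_⟩
    obtain ⟨a, b, c, d⟩ := h1 i
    have hs : |p1 i ^ 2| ≤ C ^ 2 := by
      rw [abs_pow]
      exact pow_le_pow_left₀ (abs_nonneg _) b 2
    refine ⟨?_, ?_, ?_, fun t ht => ?_⟩
    · rw [abs_one]; nlinarith
    · rw [abs_neg]; nlinarith
    · have := abs_sub (p1 i ^ 2) (p2 i)
      linarith
    · have e : 1 + (- p1 i) * t + (p1 i ^ 2 - p2 i) * t ^ 2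
          - (1 + - p1 i * t + (p1 i ^ 2 - p2 i) * t ^ 2) = 0 := by ring
      rw [e, abs_zero]
      positivity
  obtain ⟨K, hK, hk⟩ := h0.mul hq
  obtain ⟨M, hM, hm⟩ := hq
  refine ⟨max M (2 * K), le_trans hM (le_max_left _ _), fun i => ?_⟩
  obtain ⟨a, b, c, d⟩ := hm i
  obtain ⟨-, -, -, dk⟩ := hk i
  refine ⟨a.trans (le_max_left _ _), b.trans (le_max_left _ _), c.trans (le_max_left _ _),
    fun t ht => ?_⟩
  have h3 : 0 ≤ |t| ^ 3 := by positivity
  have hp := hP i t ht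
  have hp0 : 0 < P i t := by linarith
  have hd := dk t ht
  have e : 1 * 1 + (1 * - p1 i + p1 i * 1) * t
      + (1 * (p1 i ^ 2 - p2 i) + p1 i * - p1 i + p2 i * 1) * t ^ 2 = 1 := by ring
  rw [e] at hd
  have e2 : (P i t)⁻¹ - (1 + - p1 i * t + (p1 i ^ 2 - p2 i) * t ^ 2)
      = - (P i t)⁻¹ * (P i t * (1 + - p1 i * t + (p1 i ^ 2 - p2 i) * t ^ 2) - 1) := by
    field_simp
    ring
  rw [e2, abs_mul, abs_neg, abs_of_pos (inv_pos.mpr hp0)]
  have hi : (P i t)⁻¹ ≤ 2 := by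
    rw [inv_le_comm₀ hp0 (by norm_num)]
    linarith
  calc (P i t)⁻¹ * |P i t * (1 + - p1 i * t + (p1 i ^ 2 - p2 i) * t ^ 2) - 1|
      ≤ 2 * (K * |t| ^ 3) := mul_le_mul hi hd (abs_nonneg _) (by norm_num)
    _ = 2 * K * |t| ^ 3 := by ring
    _ ≤ max M (2 * K) * |t| ^ 3 := mul_le_mul_of_nonneg_right (le_max_right _ _) h3

end jets

section rpow

/-- One integration. -/
theorem step_bound {f f' : ℝ → ℝ} {C : ℝ} {n : ℕ} (hf : ∀ x, |x| ≤ 1 / 2 → HasDerivAt f (f' x) x)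
    (h0 : f 0 = 0) (hC : 0 ≤ C) (hb : ∀ x, |x| ≤ 1 / 2 → |f' x| ≤ C * |x| ^ n) :
    ∀ x, |x| ≤ 1 / 2 → |f x| ≤ C * |x| ^ (n + 1) := by
  intro x hx
  have hle : ∀ y ∈ segment ℝ (0 : ℝ) x, |y| ≤ |x| := by
    intro y hy
    obtain ⟨a, b, ha, hb', hab, rfl⟩ := hy
    simp only [smul_eq_mul, mul_zero, zero_add]
    rw [abs_mul, abs_of_nonneg hb']
    have : b ≤ 1 := by linarith
    nlinarith [abs_nonneg x]
  have := Convex.norm_image_sub_le_of_norm_hasDerivWithin_le (f := f) (f' := f')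
    (C := C * |x| ^ n) (s := segment ℝ (0 : ℝ) x) (x := 0) (y := x)
    (fun y hy => (hf y ((hle y hy).trans hx)).hasDerivWithinAt)
    (fun y hy => by
      rw [Real.norm_eq_abs]
      refine (hb y ((hle y hy).trans hx)).trans ?_
      exact mul_le_mul_of_nonneg_left (pow_le_pow_left₀ (abs_nonneg _) (hle y hy) n) hC)
    (convex_segment _ _) (left_mem_segment _ _ _) (right_mem_segment _ _ _)
  rw [h0, sub_zero, sub_zero, Real.norm_eq_abs, Real.norm_eq_abs] at this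
  rw [pow_succ, ← mul_assoc]
  exact this

theorem hasDerivAt_rp (p x : ℝ) (hx : |x| ≤ 1 / 2) :
    HasDerivAt (fun x : ℝ => (1 + x) ^ p) (p * (1 + x) ^ (p - 1)) x := by
  have h1 : 0 < 1 + x := by
    have := neg_abs_le x
    linarith
  have h2 : HasDerivAt (fun x : ℝ => 1 + x) 1 x := by
    simpa using (hasDerivAt_id x).const_add 1
  have := h2.rpow_const (p := p) (Or.inl h1.ne')
  simpa using this

theorem rp_bdd (p : ℝ) : ∃ C : ℝ, 0 ≤ C ∧ ∀ x : ℝ, |x| ≤ 1 / 2 → |(1 + x) ^ p| ≤ C := by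
  have hc : ContinuousOn (fun x : ℝ => (1 + x) ^ p) (Icc (-(1 / 2)) (1 / 2)) := by
    intro x hx
    exact (hasDerivAt_rp p x (abs_le.mpr ⟨hx.1, hx.2⟩)).continuousAt.continuousWithinAt
  obtain ⟨C, hC⟩ := isCompact_Icc.exists_bound_of_continuousOn hc
  refine ⟨max C 0, le_max_right _ _, fun x hx => ?_⟩
  have := hC x ⟨(abs_le.mp hx).1, (abs_le.mp hx).2⟩
  rw [Real.norm_eq_abs] at this
  exact this.trans (le_max_left _ _)

theorem rp_taylor (p : ℝ) : ∃ C : ℝ, 0 ≤ C ∧ ∀ x : ℝ, |x| ≤ 1 / 2 →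
    |(1 + x) ^ p - (1 + p * x + p * (p - 1) / 2 * x ^ 2)| ≤ C * |x| ^ 3 := by
  obtain ⟨C, hC, h0⟩ := rp_bdd (p - 3)
  have h1 : ∀ x : ℝ, |x| ≤ 1 / 2 → |(1 + x) ^ (p - 2) - 1| ≤ (|p - 2| * C) * |x| ^ (0 + 1) := by
    refine step_bound (f' := fun x => (p - 2) * (1 + x) ^ (p - 3)) ?_ (by simp) (by positivity) ?_
    · intro x hx
      have := (hasDerivAt_rp (p - 2) x hx).sub_const 1
      rw [show p - 3 = p - 2 - 1 by ring]
      exact this
    · intro x hx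
      rw [abs_mul, pow_zero, mul_one]
      exact mul_le_mul_of_nonneg_left (h0 x hx) (abs_nonneg _)
  have h2 : ∀ x : ℝ, |x| ≤ 1 / 2 → |(1 + x) ^ (p - 1) - (1 + (p - 1) * x)|
      ≤ (|p - 1| * (|p - 2| * C)) * |x| ^ (0 + 1 + 1) := by
    refine step_bound (f' := fun x => (p - 1) * ((1 + x) ^ (p - 2) - 1)) ?_ (by simp)
      (by positivity) ?_
    · intro x hx
      have h3 := hasDerivAt_rp (p - 1) x hx
      have h4 : HasDerivAt (fun x : ℝ => 1 + (p - 1) * x) (p - 1) x := by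
        simpa using ((hasDerivAt_id x).const_mul (p - 1)).const_add 1
      refine (h3.sub h4).congr_deriv ?_
      rw [show p - 2 = p - 1 - 1 by ring]
      ring
    · intro x hx
      rw [abs_mul, mul_assoc]
      exact mul_le_mul_of_nonneg_left (h1 x hx) (abs_nonneg _)
  refine ⟨|p| * (|p - 1| * (|p - 2| * C)), by positivity, ?_⟩
  refine step_bound (n := 2) (f' := fun x => p * ((1 + x) ^ (p - 1) - (1 + (p - 1) * x))) ?_
    (by simp) (by positivity) ?_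
  · intro x hx
    have h3 := hasDerivAt_rp p x hx
    have h4 : HasDerivAt (fun x : ℝ => 1 + p * x + p * (p - 1) / 2 * x ^ 2)
        (p + p * (p - 1) / 2 * (2 * x)) x := by
      have h5 : HasDerivAt (fun x : ℝ => 1 + p * x) p x := by
        simpa using ((hasDerivAt_id x).const_mul p).const_add 1
      have h6 : HasDerivAt (fun x : ℝ => x ^ 2) (2 * x) x := by
        simpa using hasDerivAt_pow 2 x
      exact h5.add (h6.const_mul _)
    refine (h3.sub h4).congr_deriv ?_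
    ring
  · intro x hx
    rw [abs_mul, mul_assoc]
    exact mul_le_mul_of_nonneg_left (h2 x hx) (abs_nonneg _)

/-- The power `(1 + t f)^p` with `|f| ≤ 1`. -/
theorem Jet.rp {ι : Type*} (p : ℝ) (f : ι → ℝ) (hf : ∀ i, |f i| ≤ 1) :
    Jet (fun i t => (1 + t * f i) ^ p) (fun _ => 1) (fun i => p * f i)
      (fun i => p * (p - 1) / 2 * f i ^ 2) := by
  obtain ⟨C, hC, h⟩ := rp_taylor p
  refine ⟨C + 1 + |p| + |p * (p - 1) / 2|, by positivity, fun i => ⟨?_, ?_, ?_, fun t ht => ?_⟩⟩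
  · rw [abs_one]
    have := abs_nonneg p
    have := abs_nonneg (p * (p - 1) / 2)
    linarith
  · rw [abs_mul]
    have := mul_le_mul_of_nonneg_left (hf i) (abs_nonneg p)
    have := abs_nonneg (p * (p - 1) / 2)
    linarith
  · rw [abs_mul, abs_pow]
    have h1 : |f i| ^ 2 ≤ 1 := pow_le_one₀ (abs_nonneg _) (hf i)
    have := mul_le_mul_of_nonneg_left h1 (abs_nonneg (p * (p - 1) / 2))
    have := abs_nonneg p
    linarith
  · have h1 : |t * f i| ≤ |t| := by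
      rw [abs_mul]
      nlinarith [hf i, abs_nonneg t]
    have h2 := h (t * f i) (h1.trans ht)
    have e : (1 + t * f i) ^ p - (1 + p * f i * t + p * (p - 1) / 2 * f i ^ 2 * t ^ 2)
        = (1 + t * f i) ^ p - (1 + p * (t * f i) + p * (p - 1) / 2 * (t * f i) ^ 2) := by ring
    rw [e]
    have h3 : |t * f i| ^ 3 ≤ |t| ^ 3 := pow_le_pow_left₀ (abs_nonneg _) h1 3
    have h4 : 0 ≤ |t| ^ 3 := by positivity
    have h5 : C * |t * f i| ^ 3 ≤ C * |t| ^ 3 := mul_le_mul_of_nonneg_left h3 hC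
    have h6 : 0 ≤ (1 + |p| + |p * (p - 1) / 2|) * |t| ^ 3 := by positivity
    nlinarith

end rpow

/-- The square root is below its Taylor polynomial of order three. -/
theorem sqrt_le_poly (z : ℝ) (hz : 0 ≤ z) :
    Real.sqrt z ≤ 1 + (z - 1) / 2 - (z - 1) ^ 2 / 8 + (z - 1) ^ 3 / 16 := by
  have h0 : 0 ≤ 1 + (z - 1) / 2 - (z - 1) ^ 2 / 8 + (z - 1) ^ 3 / 16 := by
    nlinarith [mul_nonneg hz (sq_nonneg (z - 5 / 2)), mul_nonneg hz (sq_nonneg z)]
  rw [Real.sqrt_le_left h0]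
  nlinarith [mul_nonneg (sq_nonneg ((z - 1) ^ 2)) (show 0 ≤ 20 - 4 * (z - 1) + (z - 1) ^ 2 by
    nlinarith [sq_nonneg (z - 3)])]

end Pt

end

end Pool.Agent.Work.MP_3b24f6_gt
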