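import Pool.Agent.Work.MP_3b24f6_gt.MapsW
import Pool.Agent.Work.MP_3b24f6_gt.Jet

set_option autoImplicit false

open MeasureTheory Set Filter Topology
open scoped ContDiff InnerProductSpace

/-! Track B: expansion of the Jacobian of the polynomial deformations. -/

namespace Pool.Agent.Work.MP_3b24f6_gt

noncomputable section

/-- Linear coefficient of the Jacobian: `JW = 1 + t * bW V (uu y) * ⟪e, y⟫ + O(t³)`. -/
def bW {E : Type*} [NormedAddCommGroup E] [InnerProductSpace ℝ E] [FiniteDimensional ℝ E]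
    (V : Ver E) (u : ℝ) : ℝ :=
  ((Module.finrank ℝ E : ℝ) + V.w - 1) / u - ((V.w : ℝ) - 2) / u ^ 3

namespace JacW

variable {E : Type*} [NormedAddCommGroup E] [InnerProductSpace ℝ E]

theorem uu_sq (y : E) : uu y ^ 2 = 1 + ‖y‖ ^ 2 := by
  unfold uu
  rw [Real.sq_sqrt (by positivity)]

theorem uu_pos (y : E) : 0 < uu y := by
  unfold uu
  positivity

theorem norm_le_uu (y : E) : ‖y‖ ≤ uu y := by
  unfold uu
  apply Real.le_sqrt_of_sq_le
  linarith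

theorem abs_al_le {e : E} (he : ‖e‖ ≤ 1) (y : E) : |al e y| ≤ 1 := by
  unfold al
  rw [abs_div, abs_of_pos (uu_pos y), div_le_one (uu_pos y)]
  refine (abs_real_inner_le_norm e y).trans ?_
  calc ‖e‖ * ‖y‖ ≤ 1 * uu y := by
        gcongr
        exact norm_le_uu y
    _ = uu y := one_mul _

theorem tq_nonneg (y : E) : 0 ≤ tq y := by
  unfold tq
  positivity

theorem tq_le_one (y : E) : tq y ≤ 1 := by
  unfold tq
  have := uu_pos y
  rw [div_le_one (by positivity), uu_sq]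
  linarith

theorem one_sub_tq (y : E) : 1 - tq y = 1 / uu y ^ 2 := by
  unfold tq
  have := uu_pos y
  rw [eq_div_iff (by positivity), sub_mul, div_mul_cancel₀ _ (by positivity), uu_sq]
  ring

/-- Squared ratio of `uu` along a scaling. -/
theorem ratio_sq (c : ℝ) (y : E) : (uu (c • y) / uu y) ^ 2 = 1 + (c ^ 2 - 1) * tq y := by
  unfold tq
  have := uu_pos y
  rw [div_pow, uu_sq, norm_smul, mul_pow, Real.norm_eq_abs, sq_abs, uu_sq]
  have : 0 < 1 + ‖y‖ ^ 2 := by positivity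
  field_simp
  ring

/-- Powers of jets. -/
theorem Jet.pow {ι : Type*} {F : ι → ℝ → ℝ} {c1 c2 : ι → ℝ}
    (h : Pt.Jet F (fun _ => 1) c1 c2) (k : ℕ) :
    Pt.Jet (fun i t => F i t ^ k) (fun _ => 1) (fun i => k * c1 i)
      (fun i => k * c2 i + k * (k - 1) / 2 * c1 i ^ 2) := by
  induction k with
  | zero =>
      refine (Pt.Jet.const (fun _ : ι => (1 : ℝ)) 1 (by simp)).congr ?_ ?_ ?_ ?_ <;> intros <;> simp
  | succ k ih =>
      refine (ih.mul h).congr ?_ ?_ ?_ ?_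
      · intro i t _
        rw [pow_succ]
      · intro i
        ring
      · intro i
        push_cast
        ring
      · intro i
        push_cast
        ring


/-- Quadratic polynomials with bounded coefficients. -/
theorem Jet.quad {ι : Type*} (c0 c1 c2 : ι → ℝ) (K : ℝ) (hK : 0 ≤ K) (h0 : ∀ i, |c0 i| ≤ K)
    (h1 : ∀ i, |c1 i| ≤ K) (h2 : ∀ i, |c2 i| ≤ K) :
    Pt.Jet (fun i t => c0 i + c1 i * t + c2 i * t ^ 2) c0 c1 c2 := by
  refine ⟨K, hK, fun i => ⟨h0 i, h1 i, h2 i, fun t _ => ?_⟩⟩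
  rw [sub_self, abs_zero]
  positivity

theorem Jet.lip {ι : Type*} {F : ι → ℝ → ℝ} {c0 c1 c2 : ι → ℝ} (h : Pt.Jet F c0 c1 c2) :
    ∃ K, 0 ≤ K ∧ ∀ i t, |t| ≤ 1 / 2 → |F i t - c0 i| ≤ K * |t| := by
  obtain ⟨C, hC, h⟩ := h
  refine ⟨2 * C, by positivity, fun i t ht => ?_⟩
  obtain ⟨_, h1, h2, h3⟩ := h i
  have h4 := h3 t ht
  have ht0 := abs_nonneg t
  have e : F i t - c0 i = (F i t - (c0 i + c1 i * t + c2 i * t ^ 2)) + (c1 i * t + c2 i * t ^ 2) := by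
    ring
  rw [e]
  have a1 : |c1 i * t| ≤ C * |t| := by
    rw [abs_mul]
    gcongr
  have a2 : |c2 i * t ^ 2| ≤ C * (|t| * (1 / 2)) := by
    rw [abs_mul, abs_pow]
    have : |t| ^ 2 ≤ |t| * (1 / 2) := by nlinarith
    gcongr
  have a3 : C * |t| ^ 3 ≤ C * (|t| * (1 / 4)) := by
    have : |t| ^ 3 ≤ |t| * (1 / 4) := by
      have : |t| ^ 2 ≤ (1 / 4 : ℝ) := by nlinarith
      nlinarith
    gcongr
  calc |F i t - (c0 i + c1 i * t + c2 i * t ^ 2) + (c1 i * t + c2 i * t ^ 2)|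
      ≤ |F i t - (c0 i + c1 i * t + c2 i * t ^ 2)| + (|c1 i * t| + |c2 i * t ^ 2|) :=
        (abs_add_le _ _).trans (by gcongr; try exact abs_add_le _ _)
    _ ≤ C * (|t| * (1 / 4)) + (C * |t| + C * (|t| * (1 / 2))) := by linarith
    _ ≤ 2 * C * |t| := by nlinarith [mul_nonneg hC ht0]

variable [FiniteDimensional ℝ E]

/-- Index set: a unit vector and a point. -/
abbrev Ix (E : Type*) [NormedAddCommGroup E] := {q : E × E // ‖q.1‖ ≤ 1}

theorem kap_nonneg (V : Ver E) (y : E) : 0 ≤ kap V y := by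
  unfold kap
  have h1 : (1 : ℝ) ≤ V.w := by exact_mod_cast V.one_le_w
  have h2 : (2 * V.w + 2 : ℝ) ≤ Module.finrank ℝ E := by exact_mod_cast V.dim_le
  have h3 := tq_nonneg y
  have : 0 ≤ ((V.w : ℝ) - 1) * tq y := mul_nonneg (by linarith) h3
  linarith

theorem kap_le (V : Ver E) (y : E) : kap V y ≤ Module.finrank ℝ E + V.w := by
  unfold kap
  have h1 : (1 : ℝ) ≤ V.w := by exact_mod_cast V.one_le_w
  have h3 := tq_le_one y
  have : ((V.w : ℝ) - 1) * tq y ≤ ((V.w : ℝ) - 1) * 1 := by gcongr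
  linarith

theorem jet_lam (V : Ver E) :
    Pt.Jet (fun (i : Ix E) t => lamW V t i.1.1 i.1.2) (fun _ => 1) (fun i => al i.1.1 i.1.2)
      (fun i => -(kap V i.1.2 * al i.1.1 i.1.2 ^ 2 / 2)) := by
  have hK : (0 : ℝ) ≤ 1 + (Module.finrank ℝ E + V.w) := by positivity
  refine (Jet.quad (fun _ => 1) (fun i : Ix E => al i.1.1 i.1.2)
    (fun i => -(kap V i.1.2 * al i.1.1 i.1.2 ^ 2 / 2)) _ hK ?_ ?_ ?_).congr ?_ ?_ ?_ ?_
  · intro i
    rw [abs_one]
    have : (0 : ℝ) ≤ Module.finrank ℝ E + V.w := by positivity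
    linarith
  · intro i
    have := abs_al_le i.2 i.1.2
    have : (0 : ℝ) ≤ Module.finrank ℝ E + V.w := by positivity
    linarith
  · intro i
    have h1 := abs_al_le i.2 i.1.2
    have h2 := kap_nonneg V i.1.2
    have h3 := kap_le V i.1.2
    have h4 : al i.1.1 i.1.2 ^ 2 ≤ 1 := by
      rw [← sq_abs]
      exact pow_le_one₀ (abs_nonneg _) h1
    rw [abs_neg, abs_of_nonneg (by positivity)]
    nlinarith [sq_nonneg (al i.1.1 i.1.2)]
  · intro i t _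
    unfold lamW
    ring
  all_goals intro i; rfl

theorem jet_al (E : Type*) [NormedAddCommGroup E] [InnerProductSpace ℝ E] :
    Pt.Jet (fun (i : Ix E) _ => al i.1.1 i.1.2) (fun i => al i.1.1 i.1.2)
      (fun _ => 0) (fun _ => 0) :=
  Pt.Jet.const _ 1 (fun i => abs_al_le i.2 i.1.2)

theorem jet_tq (E : Type*) [NormedAddCommGroup E] [InnerProductSpace ℝ E] :
    Pt.Jet (fun (i : Ix E) _ => tq i.1.2) (fun i => tq i.1.2) (fun _ => 0) (fun _ => 0) :=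
  Pt.Jet.const _ 1 (fun i => by
    rw [abs_of_nonneg (tq_nonneg _)]
    exact tq_le_one _)

theorem jet_kap (V : Ver E) :
    Pt.Jet (fun (i : Ix E) _ => kap V i.1.2) (fun i => kap V i.1.2) (fun _ => 0) (fun _ => 0) :=
  Pt.Jet.const _ (Module.finrank ℝ E + V.w) (fun i => by
    rw [abs_of_nonneg (kap_nonneg V _)]
    exact kap_le V _)

theorem jet_cst {ι : Type*} (c : ℝ) : Pt.Jet (fun (_ : ι) _ => c) (fun _ => c) (fun _ => 0)
    (fun _ => 0) :=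
  Pt.Jet.const _ |c| (fun _ => le_rfl)

theorem jet_Lam (V : Ver E) :
    Pt.Jet (fun (i : Ix E) t => LamW V t i.1.1 i.1.2) (fun _ => 1)
      (fun i => al i.1.1 i.1.2 * (2 - tq i.1.2))
      (fun i => -(kap V i.1.2 * al i.1.1 i.1.2 ^ 2 / 2)
        - kap V i.1.2 * al i.1.1 i.1.2 ^ 2 * (1 - tq i.1.2)
        - ((V.w : ℝ) - 1) * al i.1.1 i.1.2 ^ 2 * tq i.1.2 * (1 - tq i.1.2)) := by
  have hA := jet_al E
  have hT := jet_tq E
  have h1 := jet_cst (ι := Ix E) 1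
  have hv := h1.sub hT
  have ht := Pt.Jet.var (ι := Ix E)
  have hl : Pt.Jet (fun (i : Ix E) t => lW V t i.1.1 i.1.2) (fun _ => 0) (fun _ => 1)
      (fun i => -(kap V i.1.2 * al i.1.1 i.1.2)) := by
    refine (ht.sub ((ht.mul ht).mul ((jet_kap V).mul hA))).congr ?_ ?_ ?_ ?_
    · intro i t _
      unfold lW
      ring
    all_goals intro i; ring
  have hw := jet_cst (ι := Ix E) ((V.w : ℝ) - 1)
  refine (((jet_lam V).add ((hA.mul hv).mul hl)).sub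
    ((ht.mul ht).mul (((hw.mul (hA.mul hA)).mul hT).mul hv))).congr ?_ ?_ ?_ ?_
  · intro i t _
    unfold LamW
    ring
  all_goals intro i; ring


theorem jet_x (V : Ver E) :
    Pt.Jet (fun (i : Ix E) t => (lamW V t i.1.1 i.1.2 ^ 2 - 1) * tq i.1.2) (fun _ => 0)
      (fun i => 2 * al i.1.1 i.1.2 * tq i.1.2)
      (fun i => (1 - kap V i.1.2) * al i.1.1 i.1.2 ^ 2 * tq i.1.2) := by
  refine ((((jet_lam V).mul (jet_lam V)).sub (jet_cst 1)).mul (jet_tq E)).congr ?_ ?_ ?_ ?_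
  · intro i t _
    ring
  all_goals intro i; ring

/-- The ratio of the densities. -/
theorem ratio_pow (V : Ver E) (t : ℝ) (e y : E) :
    (uu (TW V t e y) / uu y) ^ (V.w - 1)
      = (1 + (lamW V t e y ^ 2 - 1) * tq y) ^ (((V.w : ℝ) - 1) / 2) := by
  have h0 : 0 ≤ uu (TW V t e y) / uu y := div_nonneg (uu_pos _).le (uu_pos _).le
  have h1 : (uu (TW V t e y) / uu y) ^ 2 = 1 + (lamW V t e y ^ 2 - 1) * tq y := by
    unfold TW
    exact ratio_sq _ _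
  rw [← h1, ← Real.rpow_natCast (uu (TW V t e y) / uu y) (V.w - 1),
    ← Real.rpow_natCast (uu (TW V t e y) / uu y) 2, ← Real.rpow_mul h0]
  congr 1
  have := V.one_le_w
  push_cast [Nat.cast_sub this]
  ring

theorem bW_mul (V : Ver E) (e y : E) :
    bW V (uu y) * ⟪e, y⟫_ℝ
      = al e y * ((Module.finrank ℝ E : ℝ) + 1 + ((V.w : ℝ) - 2) * tq y) := by
  unfold bW al tq
  have h := uu_pos y
  have h2 : ‖y‖ ^ 2 = uu y ^ 2 - 1 := by rw [uu_sq]; ring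
  rw [h2]
  field_simp
  ring

/-- **Expansion of the Jacobian.** -/
theorem jac (V : Ver E) : ∃ t₀, 0 < t₀ ∧ t₀ ≤ 1 / 2 ∧ ∃ C, 0 ≤ C ∧ ∀ t : ℝ, |t| ≤ t₀ →
    ∀ e y : E, ‖e‖ ≤ 1 → (1 / 2 ≤ lamW V t e y ∧ lamW V t e y ≤ 2) ∧
      (1 / 2 ≤ LamW V t e y ∧ LamW V t e y ≤ 2) ∧ 1 / 2 ≤ JW V t e y ∧
      |JW V t e y - (1 + t * (bW V (uu y) * ⟪e, y⟫_ℝ))| ≤ C * |t| ^ 3 := by
  set p : ℝ := ((V.w : ℝ) - 1) / 2 with hp
  set n := Module.finrank ℝ E with hn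
  have hn1 : 1 ≤ n := by
    have := V.dim_le
    omega
  obtain ⟨C0, hC0, hrp⟩ := Pt.rp_taylor p
  -- jets
  have hL := jet_lam V
  have hx := jet_x V
  have hLam := jet_Lam V
  have hG : Pt.Jet (fun (i : Ix E) t => lamW V t i.1.1 i.1.2 ^ (n - 1) * LamW V t i.1.1 i.1.2)
      (fun _ => 1 * 1) _ _ := (Jet.pow hL (n - 1)).mul hLam
  have hR : Pt.Jet (fun (i : Ix E) t => 1 + p * ((lamW V t i.1.1 i.1.2 ^ 2 - 1) * tq i.1.2)
      + p * (p - 1) / 2 * (((lamW V t i.1.1 i.1.2 ^ 2 - 1) * tq i.1.2)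
        * ((lamW V t i.1.1 i.1.2 ^ 2 - 1) * tq i.1.2))) _ _ _ :=
    ((jet_cst 1).add ((jet_cst p).mul hx)).add ((jet_cst (p * (p - 1) / 2)).mul (hx.mul hx))
  have hJ : Pt.Jet (fun (i : Ix E) t => (1 + p * ((lamW V t i.1.1 i.1.2 ^ 2 - 1) * tq i.1.2)
      + p * (p - 1) / 2 * (((lamW V t i.1.1 i.1.2 ^ 2 - 1) * tq i.1.2)
        * ((lamW V t i.1.1 i.1.2 ^ 2 - 1) * tq i.1.2)))
        * (lamW V t i.1.1 i.1.2 ^ (n - 1) * LamW V t i.1.1 i.1.2)) (fun _ => 1)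
      (fun i => bW V (uu i.1.2) * ⟪i.1.1, i.1.2⟫_ℝ) (fun _ => 0) := by
    refine (hR.mul hG).congr (fun _ _ _ => rfl) ?_ ?_ ?_
    · intro i
      ring
    · intro i
      rw [bW_mul, hp, ← hn]
      push_cast [Nat.cast_sub hn1]
      ring
    · intro i
      have hk : kap V i.1.2 = ((n : ℝ) - 1) + ((V.w : ℝ) - 1) * tq i.1.2 := rfl
      rw [hk, hp]
      push_cast [Nat.cast_sub hn1]
      ring
  obtain ⟨K1, hK1, h1⟩ := Jet.lip hL
  obtain ⟨K2, hK2, h2⟩ := Jet.lip hLam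
  obtain ⟨K3, hK3, h3⟩ := Jet.lip hx
  obtain ⟨K4, hK4, h4⟩ := Jet.lip hG
  obtain ⟨C5, hC5, h5⟩ := hJ
  obtain ⟨K6, hK6, h6⟩ := Jet.lip ⟨C5, hC5, h5⟩
  set C := C0 * K3 ^ 3 * (1 + K4) + C5 with hC
  have hCnn : 0 ≤ C := by positivity
  set D := 2 * (K1 + K2 + K3 + K6 + C + 1) with hD
  have hDpos : 2 ≤ D := by
    rw [hD]
    nlinarith
  have hDinv : 1 / D ≤ 1 / 2 := one_div_le_one_div_of_le (by norm_num) hDpos
  refine ⟨1 / D, by positivity, hDinv, C, hCnn, ?_⟩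
  intro t ht e y he
  have ht2 : |t| ≤ 1 / 2 := ht.trans hDinv
  have ht0 := abs_nonneg t
  have htD : |t| * D ≤ 1 := by
    rwa [le_div_iff₀ (by linarith)] at ht
  let i : Ix E := ⟨(e, y), he⟩
  have g1 := h1 i t ht2
  have g2 := h2 i t ht2
  have g3 := h3 i t ht2
  have g4 := h4 i t ht2
  have g6 := h6 i t ht2
  obtain ⟨_, _, _, h5'⟩ := h5 i
  have g5 := h5' t ht2
  simp only [i, mul_one, sub_zero, zero_mul, add_zero] at g1 g2 g3 g4 g5 g6
  have k1 : K1 * |t| ≤ 1 / 2 := by nlinarith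
  have k2 : K2 * |t| ≤ 1 / 2 := by nlinarith
  have k3 : K3 * |t| ≤ 1 / 2 := by nlinarith
  have k6 : (K6 + C) * |t| ≤ 1 / 2 := by nlinarith
  have e1 := abs_le.1 g1
  have e2 := abs_le.1 g2
  have hxx : |(lamW V t e y ^ 2 - 1) * tq y| ≤ 1 / 2 := g3.trans k3
  have hG1 : |lamW V t e y ^ (n - 1) * LamW V t e y| ≤ 1 + K4 := by
    have e4 := abs_le.1 g4
    have : K4 * |t| ≤ K4 := by nlinarith
    rw [abs_le]
    constructor <;> linarith
  have hJW : JW V t e y = (1 + (lamW V t e y ^ 2 - 1) * tq y) ^ p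
      * (lamW V t e y ^ (n - 1) * LamW V t e y) := by
    unfold JW
    rw [ratio_pow, mul_assoc]
  have hdiff : |JW V t e y - (1 + p * ((lamW V t e y ^ 2 - 1) * tq y)
      + p * (p - 1) / 2 * (((lamW V t e y ^ 2 - 1) * tq y) * ((lamW V t e y ^ 2 - 1) * tq y)))
        * (lamW V t e y ^ (n - 1) * LamW V t e y)| ≤ C0 * K3 ^ 3 * (1 + K4) * |t| ^ 3 := by
    rw [hJW, ← sub_mul, abs_mul]
    have h7 := hrp _ hxx
    rw [sq ((lamW V t e y ^ 2 - 1) * tq y)] at h7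
    have h8 : |(lamW V t e y ^ 2 - 1) * tq y| ^ 3 ≤ (K3 * |t|) ^ 3 := by gcongr
    calc _ ≤ (C0 * |(lamW V t e y ^ 2 - 1) * tq y| ^ 3) * (1 + K4) := by
          gcongr
      _ ≤ (C0 * (K3 * |t|) ^ 3) * (1 + K4) := by gcongr
      _ = _ := by ring
  have hmain : |JW V t e y - (1 + t * (bW V (uu y) * ⟪e, y⟫_ℝ))| ≤ C * |t| ^ 3 := by
    have e7 : JW V t e y - (1 + t * (bW V (uu y) * ⟪e, y⟫_ℝ))
        = (JW V t e y - (1 + p * ((lamW V t e y ^ 2 - 1) * tq y)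
      + p * (p - 1) / 2 * (((lamW V t e y ^ 2 - 1) * tq y) * ((lamW V t e y ^ 2 - 1) * tq y)))
        * (lamW V t e y ^ (n - 1) * LamW V t e y))
        + ((1 + p * ((lamW V t e y ^ 2 - 1) * tq y)
      + p * (p - 1) / 2 * (((lamW V t e y ^ 2 - 1) * tq y) * ((lamW V t e y ^ 2 - 1) * tq y)))
        * (lamW V t e y ^ (n - 1) * LamW V t e y) - (1 + bW V (uu y) * ⟪e, y⟫_ℝ * t)) := by ring
    rw [e7]
    refine (abs_add_le _ _).trans ?_
    have e6 := add_le_add hdiff g5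
    rw [← add_mul, ← hC] at e6
    exact e6
  refine ⟨⟨by linarith [e1.1], by linarith [e1.2]⟩, ⟨by linarith [e2.1], by linarith [e2.2]⟩, ?_,
    hmain⟩
  -- lower bound of the Jacobian
  have e8 : |JW V t e y - 1| ≤ (K6 + C) * |t| := by
    have e9 : JW V t e y - 1
        = (JW V t e y - (1 + p * ((lamW V t e y ^ 2 - 1) * tq y)
      + p * (p - 1) / 2 * (((lamW V t e y ^ 2 - 1) * tq y) * ((lamW V t e y ^ 2 - 1) * tq y)))
        * (lamW V t e y ^ (n - 1) * LamW V t e y))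
        + ((1 + p * ((lamW V t e y ^ 2 - 1) * tq y)
      + p * (p - 1) / 2 * (((lamW V t e y ^ 2 - 1) * tq y) * ((lamW V t e y ^ 2 - 1) * tq y)))
        * (lamW V t e y ^ (n - 1) * LamW V t e y) - 1) := by ring
    rw [e9]
    refine (abs_add_le _ _).trans ?_
    have h9 : C0 * K3 ^ 3 * (1 + K4) * |t| ^ 3 ≤ C * |t| := by
      have h10 : |t| ^ 3 ≤ |t| := by
        have : |t| ^ 2 ≤ 1 := by nlinarith
        nlinarith
      have h11 : C0 * K3 ^ 3 * (1 + K4) ≤ C := by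
        rw [hC]
        linarith
      have h12 : 0 ≤ C0 * K3 ^ 3 * (1 + K4) := by positivity
      calc _ ≤ C0 * K3 ^ 3 * (1 + K4) * |t| := by gcongr
        _ ≤ _ := by gcongr
    nlinarith [hdiff.trans h9, g6]
  have e10 := abs_le.1 (e8.trans k6)
  linarith [e10.1]

end JacW

section Jac

variable {E : Type*} [NormedAddCommGroup E] [InnerProductSpace ℝ E] [FiniteDimensional ℝ E]

theorem bW_cont (V : Ver E) : ContinuousOn (bW V) (Ici 1) := by
  unfold bW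
  have h : ∀ u ∈ Ici (1 : ℝ), u ≠ 0 := fun u hu => by
    have : (1 : ℝ) ≤ u := hu
    positivity
  exact (continuousOn_const.div continuousOn_id h).sub
    (continuousOn_const.div (continuousOn_id.pow 3) (fun u hu => pow_ne_zero 3 (h u hu)))

theorem bW_lower (V : Ver E) : ∀ u, 1 ≤ u → 1 / u ≤ bW V u := by
  intro u hu
  unfold bW
  have hu0 : 0 < u := by linarith
  have h1 : (1 : ℝ) ≤ V.w := by exact_mod_cast V.one_le_w
  have h2 : (2 * V.w + 2 : ℝ) ≤ Module.finrank ℝ E := by exact_mod_cast V.dim_le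
  have h3 : 1 ≤ u ^ 2 := by nlinarith
  rw [div_sub_div _ _ (by positivity) (by positivity), div_le_div_iff₀ (by positivity) (by positivity)]
  have key : u ^ 2 ≤ ((Module.finrank ℝ E : ℝ) + V.w - 1) * u ^ 2 - ((V.w : ℝ) - 2) := by
    nlinarith
  have h4 : 0 < u ^ 2 := by positivity
  nlinarith [mul_le_mul_of_nonneg_left key (show 0 ≤ u ^ 2 from h4.le)]

theorem bW_upper (V : Ver E) : ∀ u, 1 ≤ u → bW V u ≤ ((Module.finrank ℝ E : ℝ) + V.w + 1) / u := by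
  intro u hu
  unfold bW
  have hu0 : 0 < u := by linarith
  have h1 : (1 : ℝ) ≤ V.w := by exact_mod_cast V.one_le_w
  have h3 : 1 ≤ u ^ 2 := by nlinarith
  rw [div_sub_div _ _ (by positivity) (by positivity), div_le_div_iff₀ (by positivity) (by positivity)]
  have key : ((Module.finrank ℝ E : ℝ) + V.w - 1) * u ^ 2 - ((V.w : ℝ) - 2)
      ≤ ((Module.finrank ℝ E : ℝ) + V.w + 1) * u ^ 2 := by
    nlinarith
  have h4 : 0 < u ^ 2 := by positivity
  nlinarith [mul_le_mul_of_nonneg_left key (show 0 ≤ u ^ 2 from h4.le)]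

theorem lamW_bounds (V : Ver E) : ∃ t₀, 0 < t₀ ∧ ∀ t : ℝ, |t| ≤ t₀ → ∀ e y : E, ‖e‖ ≤ 1 →
    1 / 2 ≤ lamW V t e y ∧ lamW V t e y ≤ 2 ∧ 1 / 2 ≤ LamW V t e y ∧ LamW V t e y ≤ 2 := by
  obtain ⟨t₀, h0, _, C, _, h⟩ := JacW.jac V
  refine ⟨t₀, h0, fun t ht e y he => ?_⟩
  obtain ⟨a, b, _, _⟩ := h t ht e y he
  exact ⟨a.1, a.2, b.1, b.2⟩

/-- The Jacobian is affine in `t` up to a uniform cubic error. -/
theorem jac_bound (V : Ver E) : ∃ t₀, 0 < t₀ ∧ ∃ C, 0 ≤ C ∧ ∀ t : ℝ, |t| ≤ t₀ →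
    ∀ e y : E, ‖e‖ ≤ 1 → |JW V t e y - (1 + t * (bW V (uu y) * ⟪e, y⟫_ℝ))| ≤ C * |t| ^ 3 := by
  obtain ⟨t₀, h0, _, C, hC, h⟩ := JacW.jac V
  exact ⟨t₀, h0, C, hC, fun t ht e y he => (h t ht e y he).2.2.2⟩

end Jac

end

end Pool.Agent.Work.MP_3b24f6_gt
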