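import Pool.Agent.Work.MP_3b24f6_gt.ModelB
import Pool.Agent.Work.MP_3b24f6_gt.Jet

/-! Pointwise second variation inequality for the radial maps `y ↦ lamW V t e y • y`,
all vertical structures at once. Scalar part. -/

set_option autoImplicit false

open MeasureTheory Set Filter Topology
open scoped ContDiff InnerProductSpace

namespace Pool.Agent.Work.MP_3b24f6_gt

noncomputable section

namespace Pt

section jetpow
variable {ι : Type*}

theorem Jet.pow {F : ι → ℝ → ℝ} {c1 c2 : ι → ℝ} (h : Jet F (fun _ => 1) c1 c2) (n : ℕ) :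
    Jet (fun i t => F i t ^ n) (fun _ => 1) (fun i => n * c1 i)
      (fun i => n * c2 i + n * (n - 1) / 2 * c1 i ^ 2) := by
  induction n with
  | zero =>
    refine (Jet.const (ι := ι) (fun _ => 1) 1 (fun _ => by simp)).congr ?_ ?_ ?_ ?_
    · intros; simp
    · intros; simp
    · intros; simp
    · intros; simp
  | succ n ih =>
    refine (ih.mul h).congr ?_ ?_ ?_ ?_
    · intros; rw [pow_succ]
    · intros; ring
    · intros; push_cast; ring
    · intros; push_cast; ring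

theorem Jet.cmul {F : ι → ℝ → ℝ} {c0 c1 c2 : ι → ℝ} (h : Jet F c0 c1 c2) (a : ι → ℝ) (K : ℝ)
    (ha : ∀ i, |a i| ≤ K) :
    Jet (fun i t => a i * F i t) (fun i => a i * c0 i) (fun i => a i * c1 i)
      (fun i => a i * c2 i) := by
  refine ((Jet.const a K ha).mul h).congr ?_ ?_ ?_ ?_
  · intros; rfl
  · intros; rfl
  · intros; ring
  · intros; ring

/-- Reciprocals near `t = 0`. -/
theorem Jet.inv_ex {P : ι → ℝ → ℝ} {p1 p2 : ι → ℝ} (h : Jet P (fun _ => 1) p1 p2) :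
    ∃ r : ℝ, 0 < r ∧ r ≤ 1 / 2 ∧ (∀ i t, |t| ≤ r → 1 / 2 ≤ P i t) ∧
      ∃ Q : ι → ℝ → ℝ, Jet Q (fun _ => 1) (fun i => - p1 i) (fun i => p1 i ^ 2 - p2 i) ∧
        ∀ i t, |t| ≤ r → Q i t = (P i t)⁻¹ := by
  obtain ⟨C, hC, h1⟩ := h
  set r : ℝ := min (1 / 2) (1 / (6 * C + 1)) with hr
  have hr0 : 0 < r := lt_min (by norm_num) (by positivity)
  have hr1 : r ≤ 1 / 2 := min_le_left _ _
  have hr2 : r * (6 * C + 1) ≤ 1 := by
    have := mul_le_mul_of_nonneg_right (min_le_right (1 / 2 : ℝ) (1 / (6 * C + 1)))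
      (show (0 : ℝ) ≤ 6 * C + 1 by positivity)
    rwa [one_div_mul_cancel (by positivity)] at this
  have hP : ∀ i t, |t| ≤ r → 1 / 2 ≤ P i t := by
    intro i t ht
    obtain ⟨a, b, c, d⟩ := h1 i
    have ht2 : |t| ≤ 1 / 2 := ht.trans hr1
    have hd := (abs_le.mp (d t ht2)).1
    have h0 : 0 ≤ |t| := abs_nonneg t
    have e1 : |p1 i * t| ≤ C * |t| := by
      rw [abs_mul]; exact mul_le_mul_of_nonneg_right b h0
    have e2 : |p2 i * t ^ 2| ≤ C * |t| := by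
      rw [abs_mul, abs_pow]
      have : |t| ^ 2 ≤ |t| := by nlinarith
      exact mul_le_mul c this (by positivity) hC
    have e3 : C * |t| ^ 3 ≤ C * |t| := by
      have : |t| ^ 3 ≤ |t| := by nlinarith [mul_nonneg h0 h0, pow_nonneg h0 3]
      exact mul_le_mul_of_nonneg_left this hC
    have f1 := (abs_le.mp e1).1
    have f2 := (abs_le.mp e2).1
    have e4 : C * |t| ≤ 1 / 6 := by
      have : |t| * (6 * C + 1) ≤ 1 := (mul_le_mul_of_nonneg_right ht (by positivity)).trans hr2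
      nlinarith
    linarith
  refine ⟨r, hr0, hr1, hP, ?_⟩
  classical
  have hj : Jet (fun i t => if |t| ≤ r then P i t else 1) (fun _ => 1) p1 p2 := by
    refine ⟨max C (2 * C / r ^ 2), le_trans hC (le_max_left _ _), fun i => ?_⟩
    obtain ⟨a, b, c, d⟩ := h1 i
    refine ⟨a.trans (le_max_left _ _), b.trans (le_max_left _ _), c.trans (le_max_left _ _),
      fun t ht => ?_⟩
    have h3 : 0 ≤ |t| ^ 3 := by positivity
    beta_reduce
    by_cases htr : |t| ≤ r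
    · rw [if_pos htr]
      exact (d t ht).trans (mul_le_mul_of_nonneg_right (le_max_left _ _) h3)
    · rw [if_neg htr]
      push Not at htr
      have h0 : 0 < |t| := hr0.trans htr
      have e1 : |p1 i * t| ≤ C * |t| := by
        rw [abs_mul]; exact mul_le_mul_of_nonneg_right b h0.le
      have e2 : |p2 i * t ^ 2| ≤ C * |t| := by
        rw [abs_mul, abs_pow]
        have : |t| ^ 2 ≤ |t| := by nlinarith
        exact mul_le_mul c this (by positivity) hC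
      have e : (1 : ℝ) - (1 + p1 i * t + p2 i * t ^ 2) = -(p1 i * t + p2 i * t ^ 2) := by ring
      rw [e, abs_neg]
      have e3 : |t| ≤ |t| ^ 3 / r ^ 2 := by
        rw [le_div_iff₀ (by positivity)]
        have : r ^ 2 ≤ |t| ^ 2 := pow_le_pow_left₀ hr0.le htr.le 2
        calc |t| * r ^ 2 ≤ |t| * |t| ^ 2 := mul_le_mul_of_nonneg_left this h0.le
          _ = |t| ^ 3 := by ring
      calc |p1 i * t + p2 i * t ^ 2| ≤ |p1 i * t| + |p2 i * t ^ 2| := abs_add_le _ _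
        _ ≤ 2 * C * |t| := by linarith
        _ ≤ 2 * C * (|t| ^ 3 / r ^ 2) := mul_le_mul_of_nonneg_left e3 (by positivity)
        _ = 2 * C / r ^ 2 * |t| ^ 3 := by ring
        _ ≤ max C (2 * C / r ^ 2) * |t| ^ 3 := mul_le_mul_of_nonneg_right (le_max_right _ _) h3
  refine ⟨fun i t => (if |t| ≤ r then P i t else 1)⁻¹, hj.inv ?_, ?_⟩
  · intro i t _
    by_cases htr : |t| ≤ r
    · simp only [if_pos htr]; exact hP i t htr
    · simp only [if_neg htr]; norm_num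
  · intro i t ht
    simp only [if_pos ht]

end jetpow

/-- The relative scalars. -/
structure Par where
  al : ℝ
  T : ℝ
  p : ℝ
  B : ℝ
  eh : ℝ
  b : ℝ
  c : ℝ
  hal : |al| ≤ 1
  hT0 : 0 ≤ T
  hT1 : T ≤ 1
  hp : |p| ≤ 1
  hB : |B| ≤ 1
  heh : |eh| ≤ 1
  hb : |b| ≤ 1
  hc : |c| ≤ 1

section scalar
variable (n w' k : ℝ)

/-- `κ`. -/
def kp (i : Par) : ℝ := (n - 1) + w' * i.T

def lamP (i : Par) (t : ℝ) : ℝ := 1 + t * i.al - t ^ 2 / 2 * kp n w' i * i.al ^ 2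

def lP (i : Par) (t : ℝ) : ℝ := t - t ^ 2 * kp n w' i * i.al

def LamP (i : Par) (t : ℝ) : ℝ :=
  lamP n w' i t + i.al * (1 - i.T) * lP n w' i t - t ^ 2 * w' * i.al ^ 2 * i.T * (1 - i.T)

def MP (i : Par) (t : ℝ) : ℝ := (1 - i.T) + lamP n w' i t ^ 2 * i.T

def XP (i : Par) (t : ℝ) : ℝ :=
  lP n w' i t * (i.eh - i.al * i.p * (1 - i.T)) - t ^ 2 * w' * i.al ^ 2 * (1 - i.T) ^ 2 * i.p

def DP (i : Par) (t : ℝ) : ℝ :=
  lP n w' i t ^ 2 * (1 - i.T) * (1 - 2 * i.al ^ 2 + i.al ^ 2 * i.T)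
    - 2 * lP n w' i t * (t ^ 2 * w' * i.al ^ 3 * (1 - i.T) ^ 3)
    + t ^ 4 * w' ^ 2 * i.al ^ 4 * (1 - i.T) ^ 3 * i.T

def BRP (i : Par) (t Mi : ℝ) : ℝ :=
  LamP n w' i t ^ 2 * (1 - i.p ^ 2)
    + LamP n w' i t ^ 2 * i.B * (1 - lamP n w' i t ^ 2) * Mi
    - 2 * LamP n w' i t * i.p * XP n w' i t + i.p ^ 2 * DP n w' i t
    + lamP n w' i t ^ 4 * i.p ^ 2
    + lamP n w' i t ^ 2 * Mi *
        (2 * LamP n w' i t * i.p * lP n w' i t * i.b
          - i.p ^ 2 * lP n w' i t ^ 2 * i.c * (1 - i.T))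

end scalar

section bounds

theorem Par.hv (i : Par) : |1 - i.T| ≤ 1 := by
  rw [abs_le]; constructor <;> linarith [i.hT0, i.hT1]

theorem Par.hT (i : Par) : |i.T| ≤ 1 := by
  rw [abs_le]; constructor <;> linarith [i.hT0, i.hT1]

theorem Par.halp (i : Par) (k : ℕ) : |i.al ^ k| ≤ 1 := by
  rw [abs_pow]; exact pow_le_one₀ (abs_nonneg _) i.hal

theorem kp_bdd (n w' : ℝ) (i : Par) : |kp n w' i| ≤ |n - 1| + |w'| := by
  unfold kp
  refine (abs_add_le _ _).trans ?_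
  rw [abs_mul]
  have := mul_le_mul_of_nonneg_left i.hT (abs_nonneg w')
  linarith

theorem mul_bdd {x y K : ℝ} (hx : |x| ≤ K) (hy : |y| ≤ 1) : |x * y| ≤ K := by
  rw [abs_mul]
  calc |x| * |y| ≤ K * 1 := mul_le_mul hx hy (abs_nonneg _) ((abs_nonneg _).trans hx)
    _ = K := mul_one _

end bounds

section jets
variable (n w' : ℝ)

theorem jet_lam : Jet (lamP n w') (fun _ => 1) (fun i => i.al)
    (fun i => - (kp n w' i * i.al ^ 2 / 2)) := by
  have h1 : Jet (fun (i : Par) (t : ℝ) => i.al * t) _ _ _ :=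
    (Jet.var (ι := Par)).cmul (fun i => i.al) 1 (fun i => i.hal)
  have h2 : Jet (fun (i : Par) (t : ℝ) => (kp n w' i * i.al ^ 2) * (t * t)) _ _ _ :=
    ((Jet.var (ι := Par)).mul Jet.var).cmul (fun i => kp n w' i * i.al ^ 2) (|n - 1| + |w'|)
      (fun i => mul_bdd (kp_bdd n w' i) (i.halp 2))
  have h3 := ((Jet.const (ι := Par) (fun _ => 1) 1 (fun _ => by simp)).add h1).sub
    (h2.cmul (fun _ => 1 / 2) 1 (fun _ => by rw [abs_of_pos] <;> norm_num))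
  refine h3.congr ?_ ?_ ?_ ?_
  · intro i t _; simp only [lamP]; ring
  · intro i; ring
  · intro i; ring
  · intro i; ring

theorem jet_l : Jet (lP n w') (fun _ => 0) (fun _ => 1) (fun i => - (kp n w' i * i.al)) := by
  have h2 : Jet (fun (i : Par) (t : ℝ) => (kp n w' i * i.al) * (t * t)) _ _ _ :=
    ((Jet.var (ι := Par)).mul Jet.var).cmul (fun i => kp n w' i * i.al) (|n - 1| + |w'|)
      (fun i => mul_bdd (kp_bdd n w' i) i.hal)
  refine ((Jet.var (ι := Par)).sub h2).congr ?_ ?_ ?_ ?_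
  · intro i t _; simp only [lP]; ring
  · intro i; ring
  · intro i; ring
  · intro i; ring

theorem jet_Lam : Jet (LamP n w') (fun _ => 1) (fun i => i.al + i.al * (1 - i.T))
    (fun i => - (kp n w' i * i.al ^ 2 / 2) - kp n w' i * i.al ^ 2 * (1 - i.T)
      - w' * i.al ^ 2 * i.T * (1 - i.T)) := by
  have h1 := (jet_l n w').cmul (fun i => i.al * (1 - i.T)) 1 (fun i => mul_bdd i.hal i.hv)
  have h2 := ((Jet.var (ι := Par)).mul Jet.var).cmul
    (fun i => w' * (i.al ^ 2) * i.T * (1 - i.T)) |w'|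
    (fun i => mul_bdd (mul_bdd (mul_bdd le_rfl (i.halp 2)) i.hT) i.hv)
  refine (((jet_lam n w').add h1).sub h2).congr ?_ ?_ ?_ ?_
  · intro i t _; simp only [LamP]; ring
  · intro i; ring
  · intro i; ring
  · intro i; ring

theorem jet_M : Jet (MP n w') (fun _ => 1) (fun i => 2 * i.al * i.T)
    (fun i => i.al ^ 2 * (1 - kp n w' i) * i.T) := by
  have h1 := ((jet_lam n w').pow 2).cmul (fun i => i.T) 1 (fun i => i.hT)
  have h2 := (Jet.const (ι := Par) (fun i => 1 - i.T) 1 (fun i => i.hv)).add h1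
  refine h2.congr ?_ ?_ ?_ ?_
  · intro i t _; simp only [MP]; ring
  · intro i; ring
  · intro i; push_cast; ring
  · intro i; push_cast; ring

theorem jet_X : Jet (XP n w') (fun _ => 0) (fun i => i.eh - i.al * i.p * (1 - i.T))
    (fun i => - (kp n w' i * i.al) * (i.eh - i.al * i.p * (1 - i.T))
      - w' * i.al ^ 2 * (1 - i.T) ^ 2 * i.p) := by
  have hx : ∀ i : Par, |i.eh - i.al * i.p * (1 - i.T)| ≤ 2 := fun i => by
    have h1 := abs_sub (i.eh) (i.al * i.p * (1 - i.T))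
    have h2 := mul_bdd (mul_bdd i.hal i.hp) i.hv
    linarith [i.heh]
  have h1 := (jet_l n w').cmul (fun i => i.eh - i.al * i.p * (1 - i.T)) 2 hx
  have h2 := ((Jet.var (ι := Par)).mul Jet.var).cmul
    (fun i => w' * (i.al ^ 2) * (1 - i.T) * (1 - i.T) * i.p) |w'|
    (fun i => mul_bdd (mul_bdd (mul_bdd (mul_bdd le_rfl (i.halp 2)) i.hv) i.hv) i.hp)
  refine (h1.sub h2).congr ?_ ?_ ?_ ?_
  · intro i t _; simp only [XP]; ring
  · intro i; ring
  · intro i; ring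
  · intro i; ring

theorem jet_D : Jet (DP n w') (fun _ => 0) (fun _ => 0)
    (fun i => (1 - i.T) * (1 - 2 * i.al ^ 2 + i.al ^ 2 * i.T)) := by
  have hx : ∀ i : Par, |(1 - 2 * i.al ^ 2 + i.al ^ 2 * i.T) * (1 - i.T)| ≤ 4 := fun i => by
    refine mul_bdd ?_ i.hv
    have h0 : 0 ≤ i.al ^ 2 := sq_nonneg _
    have h1 : i.al ^ 2 ≤ 1 := by
      have := i.halp 2
      rwa [abs_of_nonneg h0] at this
    have h2 : i.al ^ 2 * i.T ≤ 1 := by nlinarith [i.hT0, i.hT1]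
    have h3 : 0 ≤ i.al ^ 2 * i.T := mul_nonneg h0 i.hT0
    rw [abs_le]; constructor <;> linarith
  have h1 := (((jet_l n w').mul (jet_l n w'))).cmul
    (fun i => (1 - 2 * i.al ^ 2 + i.al ^ 2 * i.T) * (1 - i.T)) 4 hx
  have h2 := (((jet_l n w').mul ((Jet.var (ι := Par)).mul Jet.var))).cmul
    (fun i => w' * (i.al ^ 3) * (1 - i.T) * (1 - i.T) * (1 - i.T)) |w'|
    (fun i => mul_bdd (mul_bdd (mul_bdd (mul_bdd le_rfl (i.halp 3)) i.hv) i.hv) i.hv)
  have h3 := (((Jet.var (ι := Par)).mul Jet.var).mul ((Jet.var (ι := Par)).mul Jet.var)).cmul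
    (fun i => w' ^ 2 * (i.al ^ 4) * (1 - i.T) * (1 - i.T) * (1 - i.T) * i.T) |w' ^ 2|
    (fun i => mul_bdd (mul_bdd (mul_bdd (mul_bdd (mul_bdd le_rfl (i.halp 4)) i.hv) i.hv) i.hv)
      i.hT)
  have h4 := (h1.sub (h2.cmul (fun _ => 2) 2 (fun _ => by norm_num))).add h3
  refine h4.congr ?_ ?_ ?_ ?_
  · intro i t _; simp only [DP]; ring
  · intro i; ring
  · intro i; ring
  · intro i; ring

/-- First order coefficient of the bracket. -/
def br1 (i : Par) : ℝ :=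
  2 * i.al * (2 - i.T) * (1 - i.p ^ 2) - 2 * i.al * i.B
    - 2 * i.p * (i.eh - i.al * i.p * (1 - i.T)) + 4 * i.al * i.p ^ 2 + 2 * i.p * i.b

/-- Second order coefficient of the bracket. -/
def br2 (i : Par) : ℝ :=
  (1 - i.p ^ 2) * i.al ^ 2 * ((2 - i.T) ^ 2 - kp n w' i - 2 * kp n w' i * (1 - i.T)
      - 2 * w' * i.T * (1 - i.T))
    + i.B * i.al ^ 2 * (-(1 - kp n w' i) + 4 * i.T - 4 * (2 - i.T))
    - 2 * i.p * (i.al * (2 - i.T - kp n w' i) * (i.eh - i.al * i.p * (1 - i.T))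
      - w' * i.al ^ 2 * (1 - i.T) ^ 2 * i.p)
    + i.p ^ 2 * (1 - i.T) * (1 - 2 * i.al ^ 2 + i.al ^ 2 * i.T)
    + i.p ^ 2 * i.al ^ 2 * (6 - 2 * kp n w' i)
    + 2 * i.p * i.b * i.al * (4 - 3 * i.T - kp n w' i) - i.p ^ 2 * i.c * (1 - i.T)

theorem Par.hp2 (i : Par) : |i.p ^ 2| ≤ 1 := by
  rw [abs_pow]; exact pow_le_one₀ (abs_nonneg _) i.hp

theorem Par.h1p2 (i : Par) : |1 - i.p ^ 2| ≤ 1 := by
  have h := i.hp2
  have h0 : 0 ≤ i.p ^ 2 := sq_nonneg _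
  rw [abs_of_nonneg h0] at h
  rw [abs_le]; constructor <;> linarith

theorem jet_BR {Q : Par → ℝ → ℝ} (hQ : Jet Q (fun _ => 1) (fun i => - (2 * i.al * i.T))
      (fun i => (2 * i.al * i.T) ^ 2 - i.al ^ 2 * (1 - kp n w' i) * i.T)) :
    Jet (fun i t => BRP n w' i t (Q i t)) (fun _ => 1) br1 (br2 n w') := by
  have hL2 := (jet_Lam n w').pow 2
  have hl2 := (jet_lam n w').pow 2
  have hl4 := (jet_lam n w').pow 4
  have a1 := hL2.cmul (fun i => 1 - i.p ^ 2) 1 (fun i => i.h1p2)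
  have a2 := ((hL2.mul ((Jet.const (ι := Par) (fun _ => 1) 1 (fun _ => by simp)).sub hl2)).mul
    hQ).cmul (fun i => i.B) 1 (fun i => i.hB)
  have a3 := ((jet_Lam n w').mul (jet_X n w')).cmul (fun i => 2 * i.p) 2
    (fun i => by rw [abs_mul]; have := i.hp; rw [abs_of_pos (by norm_num : (0:ℝ) < 2)]; linarith)
  have a4 := (jet_D n w').cmul (fun i => i.p ^ 2) 1 (fun i => i.hp2)
  have a5 := hl4.cmul (fun i => i.p ^ 2) 1 (fun i => i.hp2)
  have b1 := ((jet_Lam n w').mul (jet_l n w')).cmul (fun i => 2 * i.p * i.b) 2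
    (fun i => mul_bdd (by
      rw [abs_mul]; have := i.hp; rw [abs_of_pos (by norm_num : (0:ℝ) < 2)]; linarith) i.hb)
  have b2 := ((jet_l n w').mul (jet_l n w')).cmul (fun i => i.p ^ 2 * i.c * (1 - i.T)) 1
    (fun i => mul_bdd (mul_bdd i.hp2 i.hc) i.hv)
  have a6 := (hl2.mul hQ).mul (b1.sub b2)
  refine (((((a1.add a2).sub a3).add a4).add a5).add a6).congr ?_ ?_ ?_ ?_
  · intro i t _; simp only [BRP]; ring
  · intro i; ring
  · intro i; simp only [br1]; push_cast; ring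
  · intro i; simp only [br2]; push_cast; ring

end jets

section total
variable (n w' : ℝ) (k v : ℕ)

/-- The whole squared quotient; `v = w - 1`, `k = n - 2`. -/
def ZP (i : Par) (t Mi : ℝ) : ℝ := MP n w' i t ^ v * lamP n w' i t ^ (2 * k) * BRP n w' i t Mi

def z1 (i : Par) : ℝ := i.al * (2 * v * i.T + 2 * k) + br1 i

def g2 (i : Par) : ℝ :=
  i.al ^ 2 * (v * i.T * (1 - kp n w' i) + 2 * v * (v - 1) * i.T ^ 2
    - k * kp n w' i + k * (2 * k - 1) + 4 * v * k * i.T)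

def z2 (i : Par) : ℝ :=
  g2 n w' k v i + i.al * (2 * v * i.T + 2 * k) * br1 i + br2 n w' i

theorem jet_Z {Q : Par → ℝ → ℝ} (hQ : Jet Q (fun _ => 1) (fun i => - (2 * i.al * i.T))
      (fun i => (2 * i.al * i.T) ^ 2 - i.al ^ 2 * (1 - kp n w' i) * i.T)) :
    Jet (fun i t => ZP n w' k v i t (Q i t)) (fun _ => 1) (z1 k v) (z2 n w' k v) := by
  refine ((((jet_M n w').pow v).mul ((jet_lam n w').pow (2 * k))).mul
    (jet_BR n w' hQ)).congr ?_ ?_ ?_ ?_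
  · intro i t _; rfl
  · intro i; ring
  · intro i; simp only [z1]; push_cast; ring
  · intro i; simp only [z2, g2]; push_cast; ring

/-- The square root bound. -/
theorem sqrt_Z {Q : Par → ℝ → ℝ} (hQ : Jet Q (fun _ => 1) (fun i => - (2 * i.al * i.T))
      (fun i => (2 * i.al * i.T) ^ 2 - i.al ^ 2 * (1 - kp n w' i) * i.T)) :
    ∃ C : ℝ, 0 ≤ C ∧ ∀ (i : Par) (t : ℝ), |t| ≤ 1 / 2 → 0 ≤ ZP n w' k v i t (Q i t) →
      Real.sqrt (ZP n w' k v i t (Q i t))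
        ≤ 1 + z1 k v i / 2 * t + (z2 n w' k v i / 2 - z1 k v i ^ 2 / 8) * t ^ 2
          + C * |t| ^ 3 := by
  have hZ := jet_Z n w' k v hQ
  have h1 : Jet (fun (_ : Par) (_ : ℝ) => (1 : ℝ)) (fun _ => 1) (fun _ => 0) (fun _ => 0) :=
    Jet.const (ι := Par) (fun _ => 1) 1 (fun _ => by simp)
  have hU := hZ.sub h1
  have hW : Jet (fun i t => 1 + (ZP n w' k v i t (Q i t) - 1) / 2
      - (ZP n w' k v i t (Q i t) - 1) ^ 2 / 8 + (ZP n w' k v i t (Q i t) - 1) ^ 3 / 16)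
      (fun _ => 1) (fun i => z1 k v i / 2) (fun i => z2 n w' k v i / 2 - z1 k v i ^ 2 / 8) := by
    refine (((h1.add (hU.cmul (fun _ => 1 / 2) 1 (fun _ => by rw [abs_of_pos] <;> norm_num))).sub
      ((hU.mul hU).cmul (fun _ => 1 / 8) 1 (fun _ => by rw [abs_of_pos] <;> norm_num))).add
      (((hU.mul hU).mul hU).cmul (fun _ => 1 / 16) 1
        (fun _ => by rw [abs_of_pos] <;> norm_num))).congr ?_ ?_ ?_ ?_
    · intro i t _; ring
    · intro i; ring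
    · intro i; ring
    · intro i; ring
  obtain ⟨C, hC, h⟩ := hW
  refine ⟨C, hC, fun i t ht hz => ?_⟩
  obtain ⟨-, -, -, d⟩ := h i
  have hd := (abs_le.mp (d t ht)).2
  have hs := sqrt_le_poly _ hz
  linarith

/-- The sum over an orthonormal basis. -/
theorem sum_coeff {ι : Type*} [Fintype ι] (P : ι → Par) {T p B w N : ℝ}
    (hT : ∀ j, (P j).T = T) (hp : ∀ j, (P j).p = p) (hB : ∀ j, (P j).B = B)
    (s1 : ∑ j, (P j).al ^ 2 = T) (s2 : ∑ j, (P j).al * (P j).eh = p * (1 - T))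
    (s3 : ∑ j, (P j).eh ^ 2 = (1 - p ^ 2) * (1 - T) + B) (s4 : ∑ j, (P j).al * (P j).b = 0)
    (s5 : ∑ j, (P j).eh * (P j).b = B) (s6 : ∑ j, (P j).b ^ 2 = T * B)
    (s7 : ∑ j, (P j).c = w * T) (s8 : (Fintype.card ι : ℝ) = N)
    (hk : (k : ℝ) = N - 2) (hv : (v : ℝ) = w - 1) :
    ∑ j, (z2 N v k v (P j) - z1 k v (P j) ^ 2 / 4)
      = -(N - 1 + 2) * (T - p ^ 2) - w * T * (T - p ^ 2) + 3 * (T - p ^ 2) ^ 2
        - (N - 1 + 4) * T * B + (T - p ^ 2) * B + 4 * T ^ 2 * (T - p ^ 2)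
        - 4 * T * (T - p ^ 2) ^ 2 + (10 - w) * T ^ 2 * B - 3 * T * (T - p ^ 2) * B - T * B ^ 2 := by
  have key : ∀ j, z2 N v k v (P j) - z1 k v (P j) ^ 2 / 4 =
      (((w - 1) * T * (1 - ((N - 1) + (w - 1) * T)) + 2 * (w - 1) * (w - 1 - 1) * T ^ 2
          - (N - 2) * ((N - 1) + (w - 1) * T) + (N - 2) * (2 * (N - 2) - 1)
          + 4 * (w - 1) * (N - 2) * T)
        + (2 * (w - 1) * T + 2 * (N - 2)) * (2 * (2 - T) * (1 - p ^ 2) - 2 * B
          + 2 * p ^ 2 * (1 - T) + 4 * p ^ 2)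
        + ((1 - p ^ 2) * ((2 - T) ^ 2 - ((N - 1) + (w - 1) * T)
            - 2 * ((N - 1) + (w - 1) * T) * (1 - T) - 2 * (w - 1) * T * (1 - T))
          + B * (-(1 - ((N - 1) + (w - 1) * T)) + 4 * T - 4 * (2 - T))
          + 2 * p ^ 2 * (2 - T - ((N - 1) + (w - 1) * T)) * (1 - T)
          + 2 * p ^ 2 * (w - 1) * (1 - T) ^ 2
          + p ^ 2 * (1 - T) * (-2 + T) + p ^ 2 * (6 - 2 * ((N - 1) + (w - 1) * T)))
        - ((2 * (w - 1) * T + 2 * (N - 2)) + (2 * (2 - T) * (1 - p ^ 2) - 2 * B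
          + 2 * p ^ 2 * (1 - T) + 4 * p ^ 2)) ^ 2 / 4) * (P j).al ^ 2
      + (-2 * p * (2 * (w - 1) * T + 2 * (N - 2)) - 2 * p * (2 - T - ((N - 1) + (w - 1) * T))
        + p * ((2 * (w - 1) * T + 2 * (N - 2)) + (2 * (2 - T) * (1 - p ^ 2) - 2 * B
          + 2 * p ^ 2 * (1 - T) + 4 * p ^ 2))) * ((P j).al * (P j).eh)
      + (2 * p * (2 * (w - 1) * T + 2 * (N - 2)) + 2 * p * (4 - 3 * T - ((N - 1) + (w - 1) * T))
        - p * ((2 * (w - 1) * T + 2 * (N - 2)) + (2 * (2 - T) * (1 - p ^ 2) - 2 * B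
          + 2 * p ^ 2 * (1 - T) + 4 * p ^ 2))) * ((P j).al * (P j).b)
      + (- p ^ 2) * (P j).eh ^ 2 + (2 * p ^ 2) * ((P j).eh * (P j).b) + (- p ^ 2) * (P j).b ^ 2
      + (- (p ^ 2 * (1 - T))) * (P j).c + p ^ 2 * (1 - T) := by
    intro j
    simp only [z2, z1, g2, br1, br2, kp, hT, hp, hB, hk, hv]
    ring
  simp_rw [key]
  rw [Finset.sum_add_distrib, Finset.sum_add_distrib, Finset.sum_add_distrib,
    Finset.sum_add_distrib, Finset.sum_add_distrib, Finset.sum_add_distrib,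
    Finset.sum_add_distrib, ← Finset.mul_sum, ← Finset.mul_sum, ← Finset.mul_sum,
    ← Finset.mul_sum, ← Finset.mul_sum, ← Finset.mul_sum, ← Finset.mul_sum, s1, s2, s3, s4, s5,
    s6, s7, Finset.sum_const, Finset.card_univ, nsmul_eq_mul, s8]
  ring

/-- Closed form negativity of the second order coefficient (all `m ≥ 3`, `w ≥ 1`). -/
theorem second_coeff_le' {m w A B T : ℝ} (hm : 3 ≤ m) (hw : 1 ≤ w) (hB : 0 ≤ B) (hBA : B ≤ A)
    (hAT : A ≤ T) (hT : T ≤ 1) :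
    -(m+2)*A - w*T*A + 3*A^2 - (m+4)*T*B + A*B + 4*T^2*A - 4*T*A^2 + (10-w)*T^2*B
      - 3*T*A*B - T*B^2 ≤ -3*(1-T)*A := by
  have hA : 0 ≤ A := le_trans hB hBA
  have hT0 : 0 ≤ T := le_trans hA hAT
  have key : -(m+2)*A - w*T*A + 3*A^2 - (m+4)*T*B + A*B + 4*T^2*A - 4*T*A^2 + (10-w)*T^2*B
      - 3*T*A*B - T*B^2 =
      -2*(A-B) - (A+B)^2 - (1-T)*(3*A+2*B) - (m-3)*(A+T*B) - (w-1)*(T*A+T^2*B)
      - (1-T)*(4*A*(T-A) + 3*B*(T-A) + B*(T-B) + 5*B*T) := by ring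
  rw [key]
  have h1 : 0 ≤ (1-T)*(4*A*(T-A) + 3*B*(T-A) + B*(T-B) + 5*B*T) := by
    apply mul_nonneg (by linarith)
    have a1 : 0 ≤ 4*A*(T-A) := by nlinarith
    have a2 : 0 ≤ 3*B*(T-A) := by nlinarith
    have a3 : 0 ≤ B*(T-B) := by nlinarith
    have a4 : 0 ≤ 5*B*T := by nlinarith
    linarith
  have h2 : 0 ≤ (m-3)*(A+T*B) := mul_nonneg (by linarith) (by positivity)
  have h3 : 0 ≤ (w-1)*(T*A+T^2*B) := mul_nonneg (by linarith) (by positivity)
  nlinarith [sq_nonneg (A+B), mul_nonneg (sub_nonneg.2 hT) hB]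

end total

end Pt

end

end Pool.Agent.Work.MP_3b24f6_gt
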