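import Pool.Agent.Work.MP_3b24f6_gt.MapsW
import Pool.Agent.Work.MP_3b24f6_gt.PointwiseSc

set_option autoImplicit false

open MeasureTheory Set Filter Topology
open scoped ContDiff InnerProductSpace

namespace Pool.Agent.Work.MP_3b24f6_gt

noncomputable section

variable {E : Type*} [NormedAddCommGroup E] [InnerProductSpace ℝ E] [FiniteDimensional ℝ E]

namespace PW

theorem uu_sq (y : E) : uu y ^ 2 = 1 + ‖y‖ ^ 2 := by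
  unfold uu
  rw [Real.sq_sqrt (by positivity)]

theorem uu_pos (y : E) : 0 < uu y := by
  unfold uu
  exact Real.sqrt_pos.2 (by positivity)

theorem one_le_uu (y : E) : 1 ≤ uu y := by
  have h := uu_sq y
  have h0 := uu_pos y
  nlinarith [sq_nonneg ‖y‖]

theorem one_sub_tq (y : E) : 1 - tq y = 1 / uu y ^ 2 := by
  unfold tq
  have h := uu_sq y
  have h0 : uu y ≠ 0 := (uu_pos y).ne'
  field_simp
  linarith

theorem tq_mul (y : E) : tq y * uu y ^ 2 = ‖y‖ ^ 2 := by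
  unfold tq
  have h0 : uu y ≠ 0 := (uu_pos y).ne'
  field_simp

theorem tq_nonneg (y : E) : 0 ≤ tq y := by
  unfold tq; positivity

theorem tq_le_one (y : E) : tq y ≤ 1 := by
  have h := one_sub_tq y
  have : 0 ≤ 1 / uu y ^ 2 := by positivity
  linarith

variable (V : Ver E)

theorem Q_zero : V.Q 0 = 0 := by
  have := V.Q_smul 0 (0 : E)
  simpa using this

theorem normQ_sq (y ξ : E) : ‖V.Q y ξ‖ ^ 2 = ‖y‖ ^ 2 * ⟪V.Q y ξ, ξ⟫_ℝ := by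
  rw [← real_inner_self_eq_norm_sq, V.Q_symm y ξ (V.Q y ξ), V.Q_Q, real_inner_smul_right,
    real_inner_comm]

theorem Q_nonneg (y ξ : E) : 0 ≤ ⟪V.Q y ξ, ξ⟫_ℝ := by
  by_cases hy : y = 0
  · rw [hy, Q_zero]; simp
  · have h := normQ_sq V y ξ
    have h1 : 0 < ‖y‖ ^ 2 := by positivity
    by_contra hc
    push Not at hc
    nlinarith [sq_nonneg ‖V.Q y ξ‖]

theorem Q_le_norm (y ξ : E) : ⟪V.Q y ξ, ξ⟫_ℝ ≤ ‖y‖ ^ 2 * ‖ξ‖ ^ 2 := by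
  have h := normQ_sq V y ξ
  have h1 := real_inner_le_norm (V.Q y ξ) ξ
  have h0 := Q_nonneg V y ξ
  have h2 : ⟪V.Q y ξ, ξ⟫_ℝ ^ 2 ≤ ‖V.Q y ξ‖ ^ 2 * ‖ξ‖ ^ 2 := by
    rw [← mul_pow]; exact pow_le_pow_left₀ h0 h1 2
  rw [h] at h2
  by_contra hc
  push Not at hc
  have h3 : 0 < ⟪V.Q y ξ, ξ⟫_ℝ := lt_of_le_of_lt (by positivity) hc
  nlinarith

theorem Q_le (y ξ : E) : ⟪V.Q y ξ, ξ⟫_ℝ ≤ ‖y‖ ^ 2 * ‖ξ‖ ^ 2 - ⟪y, ξ⟫_ℝ ^ 2 := by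
  by_cases hy : y = 0
  · rw [hy, Q_zero]; simp
  · have h1 : ‖y‖ ^ 2 ≠ 0 := by positivity
    have h := Q_le_norm V y (ξ - (⟪y, ξ⟫_ℝ / ‖y‖ ^ 2) • y)
    have e1 : ⟪V.Q y (ξ - (⟪y, ξ⟫_ℝ / ‖y‖ ^ 2) • y), ξ - (⟪y, ξ⟫_ℝ / ‖y‖ ^ 2) • y⟫_ℝ
        = ⟪V.Q y ξ, ξ⟫_ℝ := by
      rw [map_sub, map_smul, V.Q_self, smul_zero, sub_zero, inner_sub_right,
        real_inner_smul_right, V.Q_symm y ξ y, V.Q_self]
      simp
    have e2 : ‖ξ - (⟪y, ξ⟫_ℝ / ‖y‖ ^ 2) • y‖ ^ 2 = ‖ξ‖ ^ 2 - ⟪y, ξ⟫_ℝ ^ 2 / ‖y‖ ^ 2 := by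
      rw [norm_sub_sq_real, real_inner_smul_right, norm_smul, mul_pow, Real.norm_eq_abs, sq_abs,
        real_inner_comm]
      field_simp
      ring
    rw [e1, e2] at h
    have e3 : ‖y‖ ^ 2 * (‖ξ‖ ^ 2 - ⟪y, ξ⟫_ℝ ^ 2 / ‖y‖ ^ 2)
        = ‖y‖ ^ 2 * ‖ξ‖ ^ 2 - ⟪y, ξ⟫_ℝ ^ 2 := by
      field_simp
    rwa [e3] at h

theorem rad_nonneg (y ξ : E) :
    0 ≤ ‖ξ‖ ^ 2 + ⟪y, ξ⟫_ℝ ^ 2 - ⟪V.Q y ξ, ξ⟫_ℝ / uu y ^ 2 := by
  have h := Q_le_norm V y ξ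
  have hu := uu_sq y
  have hu0 : 0 < uu y ^ 2 := by have := uu_pos y; positivity
  have h1 : ⟪V.Q y ξ, ξ⟫_ℝ / uu y ^ 2 ≤ ‖ξ‖ ^ 2 := by
    rw [div_le_iff₀ hu0, hu]
    nlinarith [sq_nonneg ‖ξ‖]
  nlinarith [sq_nonneg ⟪y, ξ⟫_ℝ]

theorem an_sq (y ξ : E) :
    an V y ξ ^ 2 = ‖ξ‖ ^ 2 + ⟪y, ξ⟫_ℝ ^ 2 - ⟪V.Q y ξ, ξ⟫_ℝ / uu y ^ 2 := by
  unfold an
  exact Real.sq_sqrt (rad_nonneg V y ξ)

theorem an_nonneg (y ξ : E) : 0 ≤ an V y ξ := Real.sqrt_nonneg _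

/-- The tangential defect in terms of the relative scalars. -/
theorem tang_ge (y ξ : E) :
    ⟪V.Q y ξ, ξ⟫_ℝ / uu y ^ 4 ≤ tq y * an V y ξ ^ 2 - ⟪y, ξ⟫_ℝ ^ 2 := by
  rw [an_sq]
  have h := Q_le V y ξ
  have hu := uu_sq y
  have hu1 := uu_pos y
  have hu0 : 0 < uu y ^ 2 := by positivity
  have e : tq y * (‖ξ‖ ^ 2 + ⟪y, ξ⟫_ℝ ^ 2 - ⟪V.Q y ξ, ξ⟫_ℝ / uu y ^ 2) - ⟪y, ξ⟫_ℝ ^ 2
      - ⟪V.Q y ξ, ξ⟫_ℝ / uu y ^ 4
      = (‖y‖ ^ 2 * ‖ξ‖ ^ 2 - ⟪y, ξ⟫_ℝ ^ 2 - ⟪V.Q y ξ, ξ⟫_ℝ) / uu y ^ 2 := by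
    unfold tq
    have hs : ‖y‖ ^ 2 = uu y ^ 2 - 1 := by linarith
    rw [hs]
    field_simp
    ring
  have h2 : 0 ≤ (‖y‖ ^ 2 * ‖ξ‖ ^ 2 - ⟪y, ξ⟫_ℝ ^ 2 - ⟪V.Q y ξ, ξ⟫_ℝ) / uu y ^ 2 :=
    div_nonneg (by linarith) hu0.le
  linarith

theorem norm_le_an (y ξ : E) : ‖ξ‖ ≤ uu y * an V y ξ := by
  have h := an_sq V y ξ
  have h0 := Q_le V y ξ
  have hu := uu_sq y
  have hu1 := uu_pos y
  have hu0 : 0 < uu y ^ 2 := by positivity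
  have h1 : ‖ξ‖ ^ 2 ≤ (uu y * an V y ξ) ^ 2 := by
    rw [mul_pow, h]
    have e : uu y ^ 2 * (‖ξ‖ ^ 2 + ⟪y, ξ⟫_ℝ ^ 2 - ⟪V.Q y ξ, ξ⟫_ℝ / uu y ^ 2)
        = uu y ^ 2 * ‖ξ‖ ^ 2 + uu y ^ 2 * ⟪y, ξ⟫_ℝ ^ 2 - ⟪V.Q y ξ, ξ⟫_ℝ := by
      field_simp
    rw [e, hu]
    nlinarith [sq_nonneg ⟪y, ξ⟫_ℝ, sq_nonneg ‖y‖, mul_nonneg (sq_nonneg ‖y‖)
      (sq_nonneg ⟪y, ξ⟫_ℝ)]
  exact le_of_sq_le_sq h1 (mul_nonneg hu1.le (an_nonneg V y ξ))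

/-! ### The relative scalars -/

theorem abs_al_le {e : E} (he : ‖e‖ = 1) (y : E) : |al e y| ≤ 1 := by
  unfold al
  rw [abs_div, abs_of_pos (uu_pos y), div_le_one (uu_pos y)]
  have h := abs_real_inner_le_norm e y
  rw [he, one_mul] at h
  have hu := uu_sq y
  have : ‖y‖ ≤ uu y := by
    apply le_of_sq_le_sq _ (uu_pos y).le
    linarith
  linarith

section par
variable {e y ξ : E}

theorem abs_p_le (ha : 0 < an V y ξ) : |⟪y, ξ⟫_ℝ / an V y ξ| ≤ 1 := by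
  rw [abs_div, abs_of_pos ha, div_le_one ha]
  have h := tang_ge V y ξ
  have h0 := Q_nonneg V y ξ
  have h1 := tq_le_one y
  have h2 := tq_nonneg y
  have h3 : 0 ≤ ⟪V.Q y ξ, ξ⟫_ℝ / uu y ^ 4 := div_nonneg h0 (by have := uu_pos y; positivity)
  apply abs_le_of_sq_le_sq _ ha.le
  nlinarith [sq_nonneg (an V y ξ)]

theorem B_nonneg (ha : 0 < an V y ξ) : 0 ≤ ⟪V.Q y ξ, ξ⟫_ℝ / (uu y ^ 4 * an V y ξ ^ 2) :=
  div_nonneg (Q_nonneg V y ξ) (by have := uu_pos y; positivity)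

theorem B_le (ha : 0 < an V y ξ) : ⟪V.Q y ξ, ξ⟫_ℝ / (uu y ^ 4 * an V y ξ ^ 2)
    ≤ tq y - (⟪y, ξ⟫_ℝ / an V y ξ) ^ 2 := by
  have h := tang_ge V y ξ
  have hu := uu_pos y
  have ha2 : 0 < an V y ξ ^ 2 := by positivity
  have e1 : ⟪V.Q y ξ, ξ⟫_ℝ / (uu y ^ 4 * an V y ξ ^ 2)
      = ⟪V.Q y ξ, ξ⟫_ℝ / uu y ^ 4 / an V y ξ ^ 2 := by rw [div_div]
  have e2 : tq y - (⟪y, ξ⟫_ℝ / an V y ξ) ^ 2
      = (tq y * an V y ξ ^ 2 - ⟪y, ξ⟫_ℝ ^ 2) / an V y ξ ^ 2 := by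
    rw [div_pow]; field_simp
  rw [e1, e2]
  exact div_le_div_of_nonneg_right h ha2.le

theorem abs_B_le (ha : 0 < an V y ξ) : |⟪V.Q y ξ, ξ⟫_ℝ / (uu y ^ 4 * an V y ξ ^ 2)| ≤ 1 := by
  rw [abs_of_nonneg (B_nonneg V ha)]
  have h := B_le V ha
  have h1 := tq_le_one y
  nlinarith [sq_nonneg (⟪y, ξ⟫_ℝ / an V y ξ)]

theorem abs_eh_le (he : ‖e‖ = 1) (ha : 0 < an V y ξ) :
    |⟪e, ξ⟫_ℝ / (uu y * an V y ξ)| ≤ 1 := by
  have hu := uu_pos y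
  rw [abs_div, abs_of_pos (mul_pos hu ha), div_le_one (mul_pos hu ha)]
  have h := abs_real_inner_le_norm e ξ
  rw [he, one_mul] at h
  exact h.trans (norm_le_an V y ξ)

theorem abs_b_le (he : ‖e‖ = 1) (ha : 0 < an V y ξ) :
    |⟪V.Q y ξ, e⟫_ℝ / (uu y ^ 3 * an V y ξ)| ≤ 1 := by
  have hu := uu_pos y
  have hd : 0 < uu y ^ 3 * an V y ξ := by positivity
  rw [abs_div, abs_of_pos hd, div_le_one hd]
  have h := abs_real_inner_le_norm (V.Q y ξ) e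
  rw [he, mul_one] at h
  refine h.trans ?_
  apply le_of_sq_le_sq _ hd.le
  rw [normQ_sq]
  have h1 := abs_B_le V ha
  rw [abs_of_nonneg (B_nonneg V ha), div_le_one (by positivity)] at h1
  have h2 : ‖y‖ ^ 2 ≤ uu y ^ 2 := by rw [uu_sq]; linarith
  calc ‖y‖ ^ 2 * ⟪V.Q y ξ, ξ⟫_ℝ ≤ uu y ^ 2 * (uu y ^ 4 * an V y ξ ^ 2) :=
        mul_le_mul h2 h1 (Q_nonneg V y ξ) (by positivity)
    _ = (uu y ^ 3 * an V y ξ) ^ 2 := by ring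

theorem abs_c_le (he : ‖e‖ = 1) : |⟪V.Q y e, e⟫_ℝ / uu y ^ 2| ≤ 1 := by
  have hu := uu_pos y
  have hd : 0 < uu y ^ 2 := by positivity
  rw [abs_div, abs_of_pos hd, div_le_one hd, abs_of_nonneg (Q_nonneg V y e)]
  have h := Q_le_norm V y e
  rw [he] at h
  rw [uu_sq]
  linarith

theorem abs_tq_le (y : E) : |tq y| ≤ 1 := by
  rw [abs_of_nonneg (tq_nonneg y)]; exact tq_le_one y

/-- The tuple of relative scalars. -/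
def par (he : ‖e‖ = 1) (ha : 0 < an V y ξ) : Pt.Par where
  al := al e y
  T := tq y
  p := ⟪y, ξ⟫_ℝ / an V y ξ
  B := ⟪V.Q y ξ, ξ⟫_ℝ / (uu y ^ 4 * an V y ξ ^ 2)
  eh := ⟪e, ξ⟫_ℝ / (uu y * an V y ξ)
  b := ⟪V.Q y ξ, e⟫_ℝ / (uu y ^ 3 * an V y ξ)
  c := ⟪V.Q y e, e⟫_ℝ / uu y ^ 2
  hal := abs_al_le he y
  hT0 := tq_nonneg y
  hT1 := tq_le_one y
  hp := abs_p_le V ha
  hB := abs_B_le V ha
  heh := abs_eh_le V he ha
  hb := abs_b_le V he ha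
  hc := abs_c_le V he

variable (he : ‖e‖ = 1) (ha : 0 < an V y ξ)

theorem kp_par : Pt.kp (Module.finrank ℝ E) ((V.w : ℝ) - 1) (par V he ha) = kap V y := rfl

theorem lamP_par (t : ℝ) :
    Pt.lamP (Module.finrank ℝ E) ((V.w : ℝ) - 1) (par V he ha) t = lamW V t e y := rfl

theorem lP_par (t : ℝ) :
    Pt.lP (Module.finrank ℝ E) ((V.w : ℝ) - 1) (par V he ha) t = lW V t e y := rfl

theorem LamP_par (t : ℝ) :
    Pt.LamP (Module.finrank ℝ E) ((V.w : ℝ) - 1) (par V he ha) t = LamW V t e y := rfl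

theorem MP_par (t : ℝ) :
    Pt.MP (Module.finrank ℝ E) ((V.w : ℝ) - 1) (par V he ha) t
      = (uu (TW V t e y) / uu y) ^ 2 := by
  change (1 - tq y) + lamW V t e y ^ 2 * tq y = _
  rw [div_pow, uu_sq (TW V t e y), TW, norm_smul, mul_pow, Real.norm_eq_abs, sq_abs,
    one_sub_tq, tq]
  ring

end par

/-- Coefficient form of `dlam`. -/
theorem dlam_eq (t : ℝ) (e y : E) : dlam V t e y = (lW V t e y / uu y) • e
    - ((lW V t e y * al e y + t ^ 2 * ((V.w : ℝ) - 1) * al e y ^ 2 * (1 - tq y)) / uu y ^ 2)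
      • y := by
  unfold dlam
  rw [smul_sub, smul_smul, smul_smul, sub_sub, ← add_smul, div_eq_mul_inv]
  congr 2
  ring

theorem inner_dlam (t : ℝ) (e y : E) :
    ⟪y, dlam V t e y⟫_ℝ = LamW V t e y - lamW V t e y := by
  have hu := uu_pos y
  have h1 := one_sub_tq y
  have h2 := tq_mul y
  have h3 : ⟪e, y⟫_ℝ = al e y * uu y := by
    unfold al; field_simp
  rw [dlam_eq, inner_sub_right, real_inner_smul_right, real_inner_smul_right,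
    real_inner_self_eq_norm_sq, real_inner_comm, h3, ← h2, LamW]
  field_simp
  ring

theorem norm_zeta_sq {e : E} (he : ‖e‖ = 1) (y ξ : E) (L P A1 A2 : ℝ) :
    ‖L • ξ - P • (A1 • e - A2 • y)‖ ^ 2 = L ^ 2 * ‖ξ‖ ^ 2
      - 2 * L * P * (A1 * ⟪e, ξ⟫_ℝ - A2 * ⟪y, ξ⟫_ℝ)
      + P ^ 2 * (A1 ^ 2 - 2 * A1 * A2 * ⟪e, y⟫_ℝ + A2 ^ 2 * ‖y‖ ^ 2) := by
  rw [← real_inner_self_eq_norm_sq, ← real_inner_self_eq_norm_sq ξ,
    ← real_inner_self_eq_norm_sq y]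
  have hee : ⟪e, e⟫_ℝ = 1 := by rw [real_inner_self_eq_norm_sq, he]; norm_num
  simp only [inner_sub_left, inner_sub_right, real_inner_smul_left, real_inner_smul_right]
  rw [hee, real_inner_comm e ξ, real_inner_comm y ξ, real_inner_comm e y]
  ring

theorem inner_Q_zeta (y e ξ : E) (L P A1 A2 : ℝ) :
    ⟪V.Q y (L • ξ - P • (A1 • e - A2 • y)), L • ξ - P • (A1 • e - A2 • y)⟫_ℝ
      = L ^ 2 * ⟪V.Q y ξ, ξ⟫_ℝ - 2 * L * P * A1 * ⟪V.Q y ξ, e⟫_ℝ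
        + P ^ 2 * A1 ^ 2 * ⟪V.Q y e, e⟫_ℝ := by
  have h1 : V.Q y (L • ξ - P • (A1 • e - A2 • y)) = L • V.Q y ξ - (P * A1) • V.Q y e := by
    rw [map_sub, map_smul, map_smul, map_sub, map_smul, map_smul, V.Q_self, smul_zero, sub_zero,
      smul_smul]
  rw [h1]
  simp only [inner_sub_left, inner_sub_right, real_inner_smul_left, real_inner_smul_right]
  have h2 : ∀ v : E, ⟪V.Q y v, y⟫_ℝ = 0 := fun v => by
    rw [V.Q_symm, V.Q_self, inner_zero_right]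
  have h3 : ⟪V.Q y e, ξ⟫_ℝ = ⟪V.Q y ξ, e⟫_ℝ := by
    rw [V.Q_symm, real_inner_comm]
  rw [h2, h2, h3]
  ring

theorem scalar_id {a u T lam l L α t w' p B h b c M A2 : ℝ} (hu : u ≠ 0) (hM : M ≠ 0)
    (hu2 : u ^ 2 * (1 - T) = 1) (hMv : M = (1 - T) + lam ^ 2 * T)
    (hA2 : A2 = (l * α + t ^ 2 * w' * α ^ 2 * (1 - T)) / u ^ 2) :
    L ^ 2 * (a ^ 2 - (p * a) ^ 2 + B * (u ^ 4 * a ^ 2) / u ^ 2)
      - 2 * L * (p * a) * (l / u * (h * (u * a)) - A2 * (p * a))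
      + (p * a) ^ 2 * ((l / u) ^ 2 - 2 * (l / u) * A2 * (α * u) + A2 ^ 2 * (T * u ^ 2))
      + (lam ^ 2 * (p * a)) ^ 2
      - lam ^ 2 * (L ^ 2 * (B * (u ^ 4 * a ^ 2)) - 2 * L * (p * a) * (l / u) * (b * (u ^ 3 * a))
          + (p * a) ^ 2 * (l / u) ^ 2 * (c * u ^ 2)) / (u ^ 2 * M)
    = a ^ 2 * (L ^ 2 * (1 - p ^ 2)
      + L ^ 2 * B * (1 - lam ^ 2) * M⁻¹
      - 2 * L * p * (l * (h - α * p * (1 - T))
        - t ^ 2 * w' * α ^ 2 * (1 - T) ^ 2 * p)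
      + p ^ 2 * (l ^ 2 * (1 - T) * (1 - 2 * α ^ 2 + α ^ 2 * T)
        - 2 * l * (t ^ 2 * w' * α ^ 3 * (1 - T) ^ 3)
        + t ^ 4 * w' ^ 2 * α ^ 4 * (1 - T) ^ 3 * T)
      + lam ^ 4 * p ^ 2
      + lam ^ 2 * M⁻¹ * (2 * L * p * l * b
        - p ^ 2 * l ^ 2 * c * (1 - T))) := by
  have hv : 1 - T = 1 / u ^ 2 := by field_simp; linarith
  have hT : T = 1 - 1 / u ^ 2 := by linarith
  have hM2 : M * u ^ 2 = 1 + lam ^ 2 * (u ^ 2 - 1) := by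
    rw [hMv, hT]; field_simp; ring
  have hB1 : L ^ 2 * (B * (u ^ 4 * a ^ 2) / u ^ 2)
      - lam ^ 2 * (L ^ 2 * (B * (u ^ 4 * a ^ 2))) / (u ^ 2 * M)
      = a ^ 2 * (L ^ 2 * B * (1 - lam ^ 2) * M⁻¹) := by
    field_simp
    linear_combination (L ^ 2 * B * a ^ 2) * hM2
  have e : ∀ x y z : ℝ, x - y = z → x = y + z := fun x y z hh => by linarith
  have hB2 := e _ _ _ hB1
  rw [mul_add, hB2, hA2, hT]
  field_simp
  ring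

/-- The key algebraic identity. -/
theorem an_TW_sq {e y ξ : E} (he : ‖e‖ = 1) (ha : 0 < an V y ξ) (t : ℝ) :
    an V (TW V t e y) (zetaW V t e y ξ) ^ 2 = an V y ξ ^ 2 *
      Pt.BRP (Module.finrank ℝ E) ((V.w : ℝ) - 1) (par V he ha) t
        (Pt.MP (Module.finrank ℝ E) ((V.w : ℝ) - 1) (par V he ha) t)⁻¹ := by
  have hu := uu_pos y
  have hu0 := hu.ne'
  have hT := uu_pos (TW V t e y)
  have hM := MP_par V he ha t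
  have hM0 : Pt.MP (Module.finrank ℝ E) ((V.w : ℝ) - 1) (par V he ha) t ≠ 0 := by
    rw [hM]; positivity
  have hQ : V.Q (TW V t e y) = lamW V t e y ^ 2 • V.Q y := by
    unfold TW; exact V.Q_smul _ _
  have hz1 : ⟪TW V t e y, zetaW V t e y ξ⟫_ℝ = lamW V t e y ^ 2 * ⟪y, ξ⟫_ℝ := by
    unfold TW zetaW
    rw [real_inner_smul_left, inner_sub_right, real_inner_smul_right, real_inner_smul_right,
      inner_dlam]
    ring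
  have hey : ⟪e, y⟫_ℝ = al e y * uu y := by
    unfold al; field_simp
  have hye : ⟪y, e⟫_ℝ = al e y * uu y := by rw [real_inner_comm]; exact hey
  -- abbreviations
  set L := LamW V t e y with hL
  set lam := lamW V t e y with hlam
  set l := lW V t e y with hl
  set α := al e y with hα
  set T := tq y with hTq
  set u := uu y with hudef
  set a := an V y ξ with hadef
  set w' : ℝ := (V.w : ℝ) - 1 with hw'
  set A2 : ℝ := (l * α + t ^ 2 * w' * α ^ 2 * (1 - T)) / u ^ 2 with hA2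
  have hd : dlam V t e y = (l / u) • e - A2 • y := dlam_eq V t e y
  have hzeta : zetaW V t e y ξ = L • ξ - ⟪y, ξ⟫_ℝ • ((l / u) • e - A2 • y) := by
    unfold zetaW; rw [hd]
  have hu2 : u ^ 2 * (1 - T) = 1 := by
    have := one_sub_tq y
    rw [← hTq, ← hudef] at this
    rw [this]; field_simp
  have hy2 : ‖y‖ ^ 2 = T * u ^ 2 := (tq_mul y).symm
  have haq : ‖ξ‖ ^ 2 = a ^ 2 - ⟪y, ξ⟫_ℝ ^ 2 + ⟪V.Q y ξ, ξ⟫_ℝ / u ^ 2 := by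
    have := an_sq V y ξ
    rw [← hadef, ← hudef] at this
    linarith
  have hMv : Pt.MP (Module.finrank ℝ E) ((V.w : ℝ) - 1) (par V he ha) t
      = (1 - T) + lam ^ 2 * T := rfl
  have huT : uu (TW V t e y) ^ 2 = u ^ 2 *
      Pt.MP (Module.finrank ℝ E) ((V.w : ℝ) - 1) (par V he ha) t := by
    rw [hM]; field_simp
  set M := Pt.MP (Module.finrank ℝ E) ((V.w : ℝ) - 1) (par V he ha) t with hMdef
  rw [an_sq V (TW V t e y), hz1, hQ, huT]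
  rw [_root_.smul_apply, real_inner_smul_left, hzeta, norm_zeta_sq he,
    inner_Q_zeta, hey, hy2, haq]
  have hp : ⟪y, ξ⟫_ℝ = (⟪y, ξ⟫_ℝ / a) * a := by field_simp
  have hB : ⟪V.Q y ξ, ξ⟫_ℝ = (⟪V.Q y ξ, ξ⟫_ℝ / (u ^ 4 * a ^ 2)) * (u ^ 4 * a ^ 2) := by
    field_simp
  have heh : ⟪e, ξ⟫_ℝ = (⟪e, ξ⟫_ℝ / (u * a)) * (u * a) := by field_simp
  have hb : ⟪V.Q y ξ, e⟫_ℝ = (⟪V.Q y ξ, e⟫_ℝ / (u ^ 3 * a)) * (u ^ 3 * a) := by field_simp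
  have hc : ⟪V.Q y e, e⟫_ℝ = (⟪V.Q y e, e⟫_ℝ / u ^ 2) * u ^ 2 := by field_simp
  have hBR : Pt.BRP (Module.finrank ℝ E) ((V.w : ℝ) - 1) (par V he ha) t M⁻¹ =
      L ^ 2 * (1 - (⟪y, ξ⟫_ℝ / a) ^ 2)
      + L ^ 2 * (⟪V.Q y ξ, ξ⟫_ℝ / (u ^ 4 * a ^ 2)) * (1 - lam ^ 2) * M⁻¹
      - 2 * L * (⟪y, ξ⟫_ℝ / a) * (l * ((⟪e, ξ⟫_ℝ / (u * a)) - α * (⟪y, ξ⟫_ℝ / a) * (1 - T))
        - t ^ 2 * w' * α ^ 2 * (1 - T) ^ 2 * (⟪y, ξ⟫_ℝ / a))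
      + (⟪y, ξ⟫_ℝ / a) ^ 2 * (l ^ 2 * (1 - T) * (1 - 2 * α ^ 2 + α ^ 2 * T)
        - 2 * l * (t ^ 2 * w' * α ^ 3 * (1 - T) ^ 3)
        + t ^ 4 * w' ^ 2 * α ^ 4 * (1 - T) ^ 3 * T)
      + lam ^ 4 * (⟪y, ξ⟫_ℝ / a) ^ 2
      + lam ^ 2 * M⁻¹ * (2 * L * (⟪y, ξ⟫_ℝ / a) * l * (⟪V.Q y ξ, e⟫_ℝ / (u ^ 3 * a))
        - (⟪y, ξ⟫_ℝ / a) ^ 2 * l ^ 2 * (⟪V.Q y e, e⟫_ℝ / u ^ 2) * (1 - T)) := rfl
  rw [hBR]
  generalize hp' : ⟪y, ξ⟫_ℝ / a = p at *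
  generalize hB' : ⟪V.Q y ξ, ξ⟫_ℝ / (u ^ 4 * a ^ 2) = B at *
  generalize heh' : ⟪e, ξ⟫_ℝ / (u * a) = h at *
  generalize hb' : ⟪V.Q y ξ, e⟫_ℝ / (u ^ 3 * a) = b at *
  generalize hc' : ⟪V.Q y e, e⟫_ℝ / u ^ 2 = c at *
  rw [hp, hB, heh, hb, hc]
  refine Eq.trans ?_ (scalar_id hu0 hM0 hu2 hMv hA2)
  ring

theorem BW_nonneg {e y ξ : E} {t : ℝ} (hlam : 0 ≤ lamW V t e y) : 0 ≤ BW V t e y ξ := by
  unfold BW
  have h1 := uu_pos y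
  have h2 := uu_pos (TW V t e y)
  have h3 := an_nonneg V (TW V t e y) (zetaW V t e y ξ)
  positivity

theorem BW_sq {e y ξ : E} (he : ‖e‖ = 1) (ha : 0 < an V y ξ) (t : ℝ) :
    BW V t e y ξ ^ 2 = an V y ξ ^ 2 *
      Pt.ZP (Module.finrank ℝ E) ((V.w : ℝ) - 1) (Module.finrank ℝ E - 2) (V.w - 1)
        (par V he ha) t (Pt.MP (Module.finrank ℝ E) ((V.w : ℝ) - 1) (par V he ha) t)⁻¹ := by
  unfold BW
  rw [mul_pow, an_TW_sq V he ha, Pt.ZP, MP_par, lamP_par]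
  ring

theorem BW_eq {e y ξ : E} (he : ‖e‖ = 1) (ha : 0 < an V y ξ) {t : ℝ}
    (hlam : 0 ≤ lamW V t e y) :
    BW V t e y ξ = an V y ξ * Real.sqrt
      (Pt.ZP (Module.finrank ℝ E) ((V.w : ℝ) - 1) (Module.finrank ℝ E - 2) (V.w - 1)
        (par V he ha) t (Pt.MP (Module.finrank ℝ E) ((V.w : ℝ) - 1) (par V he ha) t)⁻¹) := by
  have h := BW_sq V he ha t
  have h0 := BW_nonneg V (ξ := ξ) hlam
  rw [← Real.sqrt_sq h0, h, Real.sqrt_mul (by positivity), Real.sqrt_sq ha.le]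

theorem ZP_nonneg {e y ξ : E} (he : ‖e‖ = 1) (ha : 0 < an V y ξ) (t : ℝ) :
    0 ≤ Pt.ZP (Module.finrank ℝ E) ((V.w : ℝ) - 1) (Module.finrank ℝ E - 2) (V.w - 1)
        (par V he ha) t (Pt.MP (Module.finrank ℝ E) ((V.w : ℝ) - 1) (par V he ha) t)⁻¹ := by
  have h := BW_sq V he ha t
  have h1 : 0 < an V y ξ ^ 2 := by positivity
  by_contra hc
  push Not at hc
  nlinarith [sq_nonneg (BW V t e y ξ)]

theorem tr_eq_sum' {ι : Type*} [Fintype ι] (b : OrthonormalBasis ι ℝ E) (T : E →L[ℝ] E) :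
    tr T = ∑ j, ⟪T (b j), b j⟫_ℝ := by
  unfold tr
  rw [LinearMap.trace_eq_sum_inner _ b]
  refine Finset.sum_congr rfl fun j _ => ?_
  rw [real_inner_comm]
  rfl

section sums
variable {ι : Type*} [Fintype ι] (b : OrthonormalBasis ι ℝ E) {y ξ : E} (ha : 0 < an V y ξ)

theorem sum_inner (x z : E) : ∑ j, ⟪b j, x⟫_ℝ * ⟪b j, z⟫_ℝ = ⟪x, z⟫_ℝ := by
  rw [← b.sum_inner_mul_inner x z]
  refine Finset.sum_congr rfl fun j _ => ?_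
  rw [real_inner_comm x (b j)]

/-- The sum of the second order coefficients. -/
theorem sum_z (hN : 4 ≤ Module.finrank ℝ E) :
    ∑ j, (Pt.z2 (Module.finrank ℝ E) ((V.w - 1 : ℕ) : ℝ) (Module.finrank ℝ E - 2) (V.w - 1)
        (par V (b.norm_eq_one j) ha)
      - Pt.z1 (Module.finrank ℝ E - 2) (V.w - 1) (par V (b.norm_eq_one j) ha) ^ 2 / 4)
      ≤ -3 * (1 - tq y) * (tq y - (⟪y, ξ⟫_ℝ / an V y ξ) ^ 2) := by
  have hu := uu_pos y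
  have hu0 := hu.ne'
  have ha0 := ha.ne'
  have hw := V.one_le_w
  have hv := one_sub_tq y
  rw [Pt.sum_coeff (w := (V.w : ℝ)) (N := (Module.finrank ℝ E : ℝ)) _ _
    (fun j => par V (b.norm_eq_one j) ha) (T := tq y) (p := ⟪y, ξ⟫_ℝ / an V y ξ)
    (B := ⟪V.Q y ξ, ξ⟫_ℝ / (uu y ^ 4 * an V y ξ ^ 2)) (fun _ => rfl) (fun _ => rfl)
    (fun _ => rfl)]
  · have h4 : (4 : ℝ) ≤ Module.finrank ℝ E := by exact_mod_cast hN
    refine (Pt.second_coeff_le' (m := (Module.finrank ℝ E : ℝ) - 1) (w := (V.w : ℝ))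
      (A := tq y - (⟪y, ξ⟫_ℝ / an V y ξ) ^ 2) (by linarith) (by exact_mod_cast hw)
      (B_nonneg V ha) (B_le V ha) (by linarith [sq_nonneg (⟪y, ξ⟫_ℝ / an V y ξ)])
      (tq_le_one y))
  · -- s1
    change ∑ j, al (b j) y ^ 2 = tq y
    have : ∀ j, al (b j) y ^ 2 = (1 / uu y ^ 2) * (⟪b j, y⟫_ℝ * ⟪b j, y⟫_ℝ) := fun j => by
      unfold al; field_simp
    simp_rw [this]
    rw [← Finset.mul_sum, sum_inner, real_inner_self_eq_norm_sq, tq]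
    ring
  · -- s2
    change ∑ j, al (b j) y * (⟪b j, ξ⟫_ℝ / (uu y * an V y ξ)) = _
    have : ∀ j, al (b j) y * (⟪b j, ξ⟫_ℝ / (uu y * an V y ξ))
        = (1 / (uu y ^ 2 * an V y ξ)) * (⟪b j, y⟫_ℝ * ⟪b j, ξ⟫_ℝ) := fun j => by
      unfold al; field_simp
    simp_rw [this]
    rw [← Finset.mul_sum, sum_inner, hv]
    field_simp
  · -- s3
    change ∑ j, (⟪b j, ξ⟫_ℝ / (uu y * an V y ξ)) ^ 2 = _
    have : ∀ j, (⟪b j, ξ⟫_ℝ / (uu y * an V y ξ)) ^ 2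
        = (1 / (uu y ^ 2 * an V y ξ ^ 2)) * (⟪b j, ξ⟫_ℝ * ⟪b j, ξ⟫_ℝ) := fun j => by
      field_simp
    simp_rw [this]
    rw [← Finset.mul_sum, sum_inner, real_inner_self_eq_norm_sq, hv]
    have h := an_sq V y ξ
    have h2 : ‖ξ‖ ^ 2 = an V y ξ ^ 2 - ⟪y, ξ⟫_ℝ ^ 2 + ⟪V.Q y ξ, ξ⟫_ℝ / uu y ^ 2 := by linarith
    rw [h2]
    field_simp
  · -- s4
    change ∑ j, al (b j) y * (⟪V.Q y ξ, b j⟫_ℝ / (uu y ^ 3 * an V y ξ)) = 0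
    have : ∀ j, al (b j) y * (⟪V.Q y ξ, b j⟫_ℝ / (uu y ^ 3 * an V y ξ))
        = (1 / (uu y ^ 4 * an V y ξ)) * (⟪b j, y⟫_ℝ * ⟪b j, V.Q y ξ⟫_ℝ) := fun j => by
      rw [real_inner_comm (V.Q y ξ) (b j)]
      unfold al; field_simp
    simp_rw [this]
    rw [← Finset.mul_sum, sum_inner, ← V.Q_symm, V.Q_self, inner_zero_left, mul_zero]
  · -- s5
    change ∑ j, (⟪b j, ξ⟫_ℝ / (uu y * an V y ξ)) * (⟪V.Q y ξ, b j⟫_ℝ / (uu y ^ 3 * an V y ξ)) = _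
    have : ∀ j, (⟪b j, ξ⟫_ℝ / (uu y * an V y ξ)) * (⟪V.Q y ξ, b j⟫_ℝ / (uu y ^ 3 * an V y ξ))
        = (1 / (uu y ^ 4 * an V y ξ ^ 2)) * (⟪b j, ξ⟫_ℝ * ⟪b j, V.Q y ξ⟫_ℝ) := fun j => by
      rw [real_inner_comm (V.Q y ξ) (b j)]
      field_simp
    simp_rw [this]
    rw [← Finset.mul_sum, sum_inner, real_inner_comm]
    ring
  · -- s6
    change ∑ j, (⟪V.Q y ξ, b j⟫_ℝ / (uu y ^ 3 * an V y ξ)) ^ 2 = _
    have : ∀ j, (⟪V.Q y ξ, b j⟫_ℝ / (uu y ^ 3 * an V y ξ)) ^ 2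
        = (1 / (uu y ^ 6 * an V y ξ ^ 2)) * (⟪b j, V.Q y ξ⟫_ℝ * ⟪b j, V.Q y ξ⟫_ℝ) := fun j => by
      rw [real_inner_comm (V.Q y ξ) (b j)]
      field_simp
    simp_rw [this]
    rw [← Finset.mul_sum, sum_inner, real_inner_self_eq_norm_sq, normQ_sq, tq]
    field_simp
  · -- s7
    change ∑ j, ⟪V.Q y (b j), b j⟫_ℝ / uu y ^ 2 = _
    rw [← Finset.sum_div, ← tr_eq_sum', V.tr_Q, tq]
    ring
  · rw [← Module.finrank_eq_card_basis b.toBasis]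
  · rw [Nat.cast_sub (by omega)]; norm_num
  · rw [Nat.cast_sub hw]; norm_num

end sums

theorem tn_sq_mul (y ξ : E) : ‖y‖ ^ 2 * tn y ξ ^ 2 = ‖y‖ ^ 2 * ‖ξ‖ ^ 2 - ⟪y, ξ⟫_ℝ ^ 2 := by
  unfold tn
  by_cases hy : y = 0
  · rw [hy]; simp
  · have h1 : ‖y‖ ≠ 0 := by positivity
    rw [norm_sub_sq_real, real_inner_smul_right, norm_smul, mul_pow, Real.norm_eq_abs, sq_abs,
      real_inner_comm]
    field_simp
    ring

theorem tn_le (y ξ : E) :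
    ‖y‖ ^ 2 * tn y ξ ^ 2 / uu y ^ 4 ≤ tq y * an V y ξ ^ 2 - ⟪y, ξ⟫_ℝ ^ 2 := by
  rw [an_sq, tn_sq_mul]
  have h := Q_le V y ξ
  have hu := uu_sq y
  have hu1 := uu_pos y
  have hu0 : 0 < uu y ^ 2 := by positivity
  have hs : ‖y‖ ^ 2 = uu y ^ 2 - 1 := by linarith
  have e : tq y * (‖ξ‖ ^ 2 + ⟪y, ξ⟫_ℝ ^ 2 - ⟪V.Q y ξ, ξ⟫_ℝ / uu y ^ 2) - ⟪y, ξ⟫_ℝ ^ 2
      - (‖y‖ ^ 2 * ‖ξ‖ ^ 2 - ⟪y, ξ⟫_ℝ ^ 2) / uu y ^ 4
      = (‖y‖ ^ 2 * (‖y‖ ^ 2 * ‖ξ‖ ^ 2 - ⟪y, ξ⟫_ℝ ^ 2 - ⟪V.Q y ξ, ξ⟫_ℝ)) / uu y ^ 4 := by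
    unfold tq
    rw [hs]
    field_simp
    ring
  have h2 : 0 ≤ (‖y‖ ^ 2 * (‖y‖ ^ 2 * ‖ξ‖ ^ 2 - ⟪y, ξ⟫_ℝ ^ 2 - ⟪V.Q y ξ, ξ⟫_ℝ)) / uu y ^ 4 :=
    div_nonneg (mul_nonneg (by positivity) (by linarith)) (by positivity)
  linarith

end PW

/-- The pointwise second variation inequality, for all vertical structures, with a uniform
remainder. -/
theorem pointwiseW (V : Ver E) {ι : Type*} [Fintype ι] (b : OrthonormalBasis ι ℝ E) :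
    ∃ t₀, 0 < t₀ ∧ ∃ C, 0 ≤ C ∧ ∀ t, |t| ≤ t₀ → ∀ y ξ : E,
      ∑ j, (BW V t (b j) y ξ + BW V (-t) (b j) y ξ)
        ≤ (2 * Module.finrank ℝ E + C * |t| ^ 3) * an V y ξ
          - 3 * t ^ 2 * (‖y‖ ^ 2 * tn y ξ ^ 2 / (uu y ^ 6 * an V y ξ)) := by
  classical
  have hN : 4 ≤ Module.finrank ℝ E := by
    have h1 := V.one_le_w
    have h2 := V.dim_le
    omega
  obtain ⟨r1, hr1, hr1', hM, Q, hQ, hQM⟩ :=
    (Pt.jet_M (Module.finrank ℝ E) ((V.w : ℝ) - 1)).inv_ex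
  obtain ⟨r2, hr2, hr2', hl, -⟩ :=
    (Pt.jet_lam (Module.finrank ℝ E) ((V.w : ℝ) - 1)).inv_ex
  obtain ⟨C, hC, hs⟩ := Pt.sqrt_Z (Module.finrank ℝ E) ((V.w : ℝ) - 1)
    (Module.finrank ℝ E - 2) (V.w - 1) hQ
  refine ⟨min r1 r2, lt_min hr1 hr2, 2 * Module.finrank ℝ E * C, by positivity, ?_⟩
  intro t ht y ξ
  have ht1 : |t| ≤ r1 := ht.trans (min_le_left _ _)
  have ht2 : |t| ≤ r2 := ht.trans (min_le_right _ _)
  have hth : |t| ≤ 1 / 2 := ht1.trans hr1'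
  rcases (PW.an_nonneg V y ξ).lt_or_eq with ha | ha
  · -- main case
    have hw1 : ((V.w - 1 : ℕ) : ℝ) = (V.w : ℝ) - 1 := by
      rw [Nat.cast_sub V.one_le_w]; norm_num
    have one : ∀ (j : ι) (s : ℝ), |s| = |t| → BW V s (b j) y ξ ≤ an V y ξ *
        (1 + Pt.z1 (Module.finrank ℝ E - 2) (V.w - 1) (PW.par V (b.norm_eq_one j) ha) / 2 * s
          + (Pt.z2 (Module.finrank ℝ E) ((V.w : ℝ) - 1) (Module.finrank ℝ E - 2) (V.w - 1)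
              (PW.par V (b.norm_eq_one j) ha) / 2
            - Pt.z1 (Module.finrank ℝ E - 2) (V.w - 1)
              (PW.par V (b.norm_eq_one j) ha) ^ 2 / 8) * s ^ 2 + C * |t| ^ 3) := by
      intro j s hst
      have hlam := hl (PW.par V (b.norm_eq_one j) ha) s (by rw [hst]; exact ht2)
      rw [PW.lamP_par] at hlam
      rw [PW.BW_eq V (b.norm_eq_one j) ha (by linarith)]
      refine mul_le_mul_of_nonneg_left ?_ ha.le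
      have h1 := hs (PW.par V (b.norm_eq_one j) ha) s (by rw [hst]; exact hth)
      rw [hQM _ s (by rw [hst]; exact ht1), hst] at h1
      exact h1 (PW.ZP_nonneg V (b.norm_eq_one j) ha s)
    have hsum := PW.sum_z V b ha hN
    rw [hw1] at hsum
    have htn := PW.tn_le V y ξ
    have hu := PW.uu_pos y
    calc ∑ j, (BW V t (b j) y ξ + BW V (-t) (b j) y ξ)
        ≤ ∑ j, (an V y ξ * (2 + 2 * C * |t| ^ 3) + (an V y ξ * t ^ 2) *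
          (Pt.z2 (Module.finrank ℝ E) ((V.w : ℝ) - 1) (Module.finrank ℝ E - 2) (V.w - 1)
              (PW.par V (b.norm_eq_one j) ha)
            - Pt.z1 (Module.finrank ℝ E - 2) (V.w - 1)
              (PW.par V (b.norm_eq_one j) ha) ^ 2 / 4)) := by
          refine Finset.sum_le_sum fun j _ => ?_
          have h1 := one j t rfl
          have h2 := one j (-t) (abs_neg t)
          nlinarith [h1, h2]
      _ = Module.finrank ℝ E * (an V y ξ * (2 + 2 * C * |t| ^ 3)) + (an V y ξ * t ^ 2) *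
          ∑ j, (Pt.z2 (Module.finrank ℝ E) ((V.w : ℝ) - 1) (Module.finrank ℝ E - 2) (V.w - 1)
              (PW.par V (b.norm_eq_one j) ha)
            - Pt.z1 (Module.finrank ℝ E - 2) (V.w - 1)
              (PW.par V (b.norm_eq_one j) ha) ^ 2 / 4) := by
          rw [Finset.sum_add_distrib, Finset.sum_const, Finset.card_univ, nsmul_eq_mul,
            ← Module.finrank_eq_card_basis b.toBasis, ← Finset.mul_sum]
      _ ≤ Module.finrank ℝ E * (an V y ξ * (2 + 2 * C * |t| ^ 3)) + (an V y ξ * t ^ 2) *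
          (-3 * (1 - tq y) * (tq y - (⟪y, ξ⟫_ℝ / an V y ξ) ^ 2)) := by
          have := mul_le_mul_of_nonneg_left hsum
            (show 0 ≤ an V y ξ * t ^ 2 by positivity)
          linarith
      _ ≤ (2 * Module.finrank ℝ E + 2 * Module.finrank ℝ E * C * |t| ^ 3) * an V y ξ
          - 3 * t ^ 2 * (‖y‖ ^ 2 * tn y ξ ^ 2 / (uu y ^ 6 * an V y ξ)) := by
          have e1 : (an V y ξ * t ^ 2) *
              (-3 * (1 - tq y) * (tq y - (⟪y, ξ⟫_ℝ / an V y ξ) ^ 2))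
              = -(3 * t ^ 2 * ((tq y * an V y ξ ^ 2 - ⟪y, ξ⟫_ℝ ^ 2) / (uu y ^ 2 * an V y ξ))) := by
            rw [PW.one_sub_tq]
            field_simp
          have e2 : ‖y‖ ^ 2 * tn y ξ ^ 2 / (uu y ^ 6 * an V y ξ)
              = ‖y‖ ^ 2 * tn y ξ ^ 2 / uu y ^ 4 / (uu y ^ 2 * an V y ξ) := by
            field_simp
          rw [e1, e2]
          have h3 := div_le_div_of_nonneg_right htn
            (show 0 ≤ uu y ^ 2 * an V y ξ by positivity)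
          have h4 := mul_le_mul_of_nonneg_left h3 (show 0 ≤ 3 * t ^ 2 by positivity)
          nlinarith [h4]
  · -- degenerate case
    have hξ : ξ = 0 := by
      have h := PW.norm_le_an V y ξ
      rw [← ha, mul_zero] at h
      exact norm_le_zero_iff.1 h
    have hB : ∀ (s : ℝ) (j : ι), BW V s (b j) y ξ = 0 := by
      intro s j
      unfold BW zetaW an
      rw [hξ]
      simp
    simp only [hB, ← ha]
    simp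

end

end Pool.Agent.Work.MP_3b24f6_gt
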