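import Pool.Agent.Work.MP_3b24f6_gt.BasicB
import Pool.Agent.Work.MP_3b24f6_gt.JacW
import Pool.Agent.Work.MP_3b24f6_gt.DiffeoW
import Pool.Agent.Work.MP_3b24f6_gt.PointwiseW

set_option autoImplicit false
set_option linter.unusedSectionVars false

open MeasureTheory Set Filter Topology
open scoped ContDiff InnerProductSpace

namespace Pool.Agent.Work.MP_3b24f6_gt

noncomputable section

variable {E : Type*} [NormedAddCommGroup E] [InnerProductSpace ℝ E] [FiniteDimensional ℝ E]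
  [MeasurableSpace E] [BorelSpace E] (V : Ver E)

theorem vb_continuous_bal (e : E) : Continuous (fun y : E => bW V (uu y) * ⟪e, y⟫_ℝ) := by
  have h2 : Continuous (fun y : E => bW V (uu y)) :=
    (bW_cont V).comp_continuous continuous_uu (fun y => one_le_uu y)
  exact h2.mul (continuous_const.inner continuous_id)

/-- Lower bound for the mass of the transported function, for balanced `f`. -/
theorem vb_mass_lower : ∃ t₀, 0 < t₀ ∧ ∃ C, 0 ≤ C ∧ ∀ p, 1 < p → ∀ f : E → ℝ, Fn f →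
    (∀ e, ∫ y, f y ^ p * (bW V (uu y) * ⟪e, y⟫_ℝ) ∂(mu V) = 0) →
    ∀ t : ℝ, |t| ≤ t₀ → ∀ e : E, ‖e‖ = 1 →
      Integrable (fun y => f y ^ p * JW V t e y) (mu V) →
      (1 - C * |t| ^ 3) * mass V p f ≤ ∫ y, f y ^ p * JW V t e y ∂(mu V) := by
  obtain ⟨t₀, ht₀, C, hC, hJ⟩ := jac_bound V
  refine ⟨t₀, ht₀, C, hC, ?_⟩
  intro p hp f hf hbal t ht e he hint
  have hf0 : ∀ y, 0 ≤ f y := hf.2.2
  have hcont : Continuous (fun y => f y ^ p) :=
    (hf.1.continuous).rpow_const (fun y => Or.inr (by linarith))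
  have hcs : HasCompactSupport (fun y => f y ^ p) := by
    have := hf.2.1
    refine this.comp_left (g := fun x : ℝ => x ^ p) ?_
    exact Real.zero_rpow (by linarith)
  have hI0 : Integrable (fun y => f y ^ p) (mu V) := integrable_mu V hcont hcs
  have hI1 : Integrable (fun y => f y ^ p * (bW V (uu y) * ⟪e, y⟫_ℝ)) (mu V) :=
    integrable_mu V (hcont.mul (vb_continuous_bal V e)) hcs.mul_right
  have h1 : ∫ y, ((1 - C * |t| ^ 3) * f y ^ p + t * (f y ^ p * (bW V (uu y) * ⟪e, y⟫_ℝ))) ∂(mu V)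
      = (1 - C * |t| ^ 3) * mass V p f := by
    rw [integral_add (hI0.const_mul _) (hI1.const_mul _), integral_const_mul,
      integral_const_mul, hbal e]
    unfold mass
    ring
  rw [← h1]
  refine integral_mono ((hI0.const_mul _).add (hI1.const_mul _)) hint ?_
  intro y
  have h2 := hJ t ht e y he.le
  have h3 := (abs_le.1 h2).1
  have h4 : 0 ≤ f y ^ p := Real.rpow_nonneg (hf0 y) p
  have h5 : f y ^ p * (1 - C * |t| ^ 3 + t * (bW V (uu y) * ⟪e, y⟫_ℝ)) ≤ f y ^ p * JW V t e y :=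
    mul_le_mul_of_nonneg_left (by linarith) h4
  simp only
  linarith

/-- The total variation of the transported function, for balanced `f`. -/
theorem mass_transport : ∃ t₀, 0 < t₀ ∧ ∃ C, 0 ≤ C ∧ ∀ p, 1 < p → ∀ f : E → ℝ, Fn f →
    (∀ e, ∫ y, f y ^ p * (bW V (uu y) * ⟪e, y⟫_ℝ) ∂(mu V) = 0) →
    ∀ t : ℝ, |t| ≤ t₀ → ∀ e : E, ‖e‖ = 1 →
      (1 - C * |t| ^ 3) * (qq V p * mass V p f ^ (1 / p))
        ≤ ∫ y, BW V t e y (gradient f y) ∂(mu V) := by
  obtain ⟨t₁, ht₁, C, hC, hm⟩ := vb_mass_lower V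
  obtain ⟨t₂, ht₂, hd⟩ := diffeoW V
  refine ⟨min (min t₁ t₂) (min 1 (1 / (C + 1))), by positivity, C, hC, ?_⟩
  intro p hp f hf hbal t ht e he
  have hta : |t| ≤ t₁ := ht.trans ((min_le_left _ _).trans (min_le_left _ _))
  have htb : |t| ≤ t₂ := ht.trans ((min_le_left _ _).trans (min_le_right _ _))
  have htc : |t| ≤ 1 := ht.trans ((min_le_right _ _).trans (min_le_left _ _))
  have htd : |t| ≤ 1 / (C + 1) := ht.trans ((min_le_right _ _).trans (min_le_right _ _))
  have ha : 0 ≤ |t| := abs_nonneg t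
  have hx0 : 0 ≤ C * |t| ^ 3 := by positivity
  have hx1 : C * |t| ^ 3 ≤ 1 := by
    have h1 : |t| ^ 3 ≤ |t| := by
      calc |t| ^ 3 = |t| * |t| ^ 2 := by ring
        _ ≤ |t| * 1 := by
            refine mul_le_mul_of_nonneg_left ?_ ha
            nlinarith
        _ = |t| := by ring
    have h2 : |t| * (C + 1) ≤ 1 := by
      rw [le_div_iff₀ (by linarith)] at htd
      exact htd
    nlinarith [mul_le_mul_of_nonneg_left h1 hC]
  obtain ⟨g, hg, hBint, hTV, hmass⟩ := hd t htb e he f hf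
  obtain ⟨hJint, hmg⟩ := hmass p hp.le
  have h3 := hm p hp f hf hbal t hta e he hJint
  rw [← hmg] at h3
  have hmf : 0 ≤ mass V p f := mass_nonneg V hf p
  have hp1 : 0 < 1 / p := by positivity
  have hp2 : 1 / p ≤ 1 := by
    rw [div_le_one (by linarith)]
    exact hp.le
  have h4 : (1 - C * |t| ^ 3) * mass V p f ^ (1 / p) ≤ mass V p g ^ (1 / p) := by
    calc (1 - C * |t| ^ 3) * mass V p f ^ (1 / p)
        ≤ (1 - C * |t| ^ 3) ^ (1 / p) * mass V p f ^ (1 / p) := by
          refine mul_le_mul_of_nonneg_right ?_ (Real.rpow_nonneg hmf _)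
          have := Real.rpow_le_rpow_of_exponent_ge' (x := 1 - C * |t| ^ 3) (y := 1) (z := 1 / p)
            (by linarith) (by linarith) hp1.le hp2
          simpa using this
      _ = ((1 - C * |t| ^ 3) * mass V p f) ^ (1 / p) := by
          rw [Real.mul_rpow (by linarith) hmf]
      _ ≤ mass V p g ^ (1 / p) :=
          Real.rpow_le_rpow (mul_nonneg (by linarith) hmf) h3 hp1.le
  have h5 := qq_le V hp.le hg
  have h6 := mul_le_mul_of_nonneg_left h4 (qq_nonneg V p)
  rw [hTV] at h5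
  linarith

theorem tn_le (y ξ : E) : tn y ξ ≤ ‖ξ‖ := by
  unfold tn
  rcases eq_or_ne y 0 with h | h
  · simp [h]
  have hy : 0 < ‖y‖ := norm_pos_iff.2 h
  have h1 : ‖ξ - (⟪y, ξ⟫_ℝ / ‖y‖ ^ 2) • y‖ ^ 2 = ‖ξ‖ ^ 2 - ⟪y, ξ⟫_ℝ ^ 2 / ‖y‖ ^ 2 := by
    rw [norm_sub_sq_real, norm_smul, real_inner_smul_right, mul_pow, Real.norm_eq_abs, sq_abs,
      real_inner_comm ξ y]
    field_simp
    ring
  have h2 : ‖ξ - (⟪y, ξ⟫_ℝ / ‖y‖ ^ 2) • y‖ ^ 2 ≤ ‖ξ‖ ^ 2 := by
    rw [h1]
    have : 0 ≤ ⟪y, ξ⟫_ℝ ^ 2 / ‖y‖ ^ 2 := by positivity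
    linarith
  exact le_of_sq_le_sq h2 (norm_nonneg _)

/-- The gain. -/
def gainB (V : Ver E) (f : E → ℝ) (y : E) : ℝ :=
  ‖y‖ ^ 2 * tn y (gradient f y) ^ 2 / an V y (gradient f y)

theorem gainB_nonneg (f : E → ℝ) (y : E) : 0 ≤ gainB V f y := by
  unfold gainB
  have := an_nonneg V y (gradient f y)
  positivity

theorem gainB_le (f : E → ℝ) (y : E) : gainB V f y ≤ ‖y‖ ^ 2 * (uu y * ‖gradient f y‖) := by
  unfold gainB
  set ξ := gradient f y
  rcases (an_nonneg V y ξ).eq_or_lt with h | h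
  · rw [← h, div_zero]
    have := uu_pos y
    positivity
  · rw [div_le_iff₀ h]
    have h1 : tn y ξ ^ 2 ≤ ‖ξ‖ ^ 2 := by
      have h0 : 0 ≤ tn y ξ := norm_nonneg _
      have := tn_le y ξ
      gcongr
    have h2 : ‖ξ‖ ^ 2 ≤ uu y * ‖ξ‖ * an V y ξ := by
      have := norm_le_an V y ξ
      nlinarith [norm_nonneg ξ]
    calc ‖y‖ ^ 2 * tn y ξ ^ 2 ≤ ‖y‖ ^ 2 * (uu y * ‖ξ‖ * an V y ξ) := by
          refine mul_le_mul_of_nonneg_left (h1.trans h2) (by positivity)
      _ = _ := by ring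

theorem gainB_integrable {f : E → ℝ} (hf : Fn f) : Integrable (gainB V f) (mu V) := by
  have hg := fn_continuous_grad hf
  have hk : Integrable (fun y => ‖y‖ ^ 2 * (uu y * ‖gradient f y‖)) (mu V) := by
    refine integrable_mu V ?_ ?_
    · exact (continuous_norm.pow 2).mul (continuous_uu.mul hg.norm)
    · exact ((hasCompactSupport_gradient hf.2.1).norm.mul_left).mul_left
  refine hk.mono' ?_ ?_
  · have h1 : Measurable (gradient f) := hg.measurable
    have h2 : Measurable (fun y => an V y (gradient f y)) :=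
      ((continuous_an V).comp (continuous_id.prodMk hg)).measurable
    have h3 : Measurable (fun y => tn y (gradient f y)) := by
      unfold tn
      have h4 : Measurable (fun y : E => ⟪y, gradient f y⟫_ℝ / ‖y‖ ^ 2) :=
        (continuous_id.inner hg).measurable.div (continuous_norm.pow 2).measurable
      exact (h1.sub (h4.smul measurable_id)).norm
    unfold gainB
    exact ((((continuous_norm.pow 2).measurable).mul (h3.pow_const 2)).div h2).aestronglyMeasurable
  · refine Eventually.of_forall (fun y => ?_)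
    rw [Real.norm_eq_abs, abs_of_nonneg (gainB_nonneg V f y)]
    exact gainB_le V f y

theorem var : ∃ b : ℝ → ℝ, ∃ c₁ c₂ : ℝ, 0 < c₁ ∧ ContinuousOn b (Ici 1) ∧
    (∀ u, 1 ≤ u → c₁ / u ≤ b u) ∧ (∀ u, 1 ≤ u → b u ≤ c₂ / u) ∧
    ∃ t₀, 0 < t₀ ∧ ∃ C, 0 ≤ C ∧ ∃ c : ℝ → ℝ, (∀ R, 0 < c R) ∧
      ∀ p, 1 < p → ∀ f : E → ℝ, Fn f →
        (∀ e, ∫ y, f y ^ p * (b (uu y) * ⟪e, y⟫_ℝ) ∂(mu V) = 0) →
        ∀ t, 0 < t → t ≤ t₀ → ∀ R, 0 < R →
          2 * Module.finrank ℝ E * (qq V p * mass V p f ^ (1 / p))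
            + c R * t ^ 2 * ∫ y in Metric.ball (0 : E) R,
                ‖y‖ ^ 2 * tn y (gradient f y) ^ 2 / an V y (gradient f y) ∂(mu V)
            ≤ (2 * Module.finrank ℝ E + C * t ^ 3) * TV V f := by
  obtain ⟨t₁, ht₁, C₁, hC₁, hmt⟩ := mass_transport V
  obtain ⟨t₂, ht₂, C₂, hC₂, hpw⟩ := pointwiseW V (stdOrthonormalBasis ℝ E)
  obtain ⟨t₃, ht₃, hd⟩ := diffeoW V
  set n : ℝ := (Module.finrank ℝ E : ℝ) with hn
  have hn0 : 0 ≤ n := Nat.cast_nonneg _
  refine ⟨bW V, 1, n + V.w + 1, one_pos, bW_cont V, bW_lower V, bW_upper V,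
    min t₁ (min t₂ t₃), by positivity, C₂ + 2 * n * C₁, by positivity,
    fun R => 3 / (1 + R ^ 2) ^ 3, fun R => by positivity, ?_⟩
  intro p hp f hf hbal t ht0 ht R hR
  have hta : |t| = t := abs_of_pos ht0
  have hta' : |(-t)| = t := by rw [abs_neg, hta]
  have h1 : t ≤ t₁ := ht.trans (min_le_left _ _)
  have h2 : t ≤ t₂ := ht.trans ((min_le_right _ _).trans (min_le_left _ _))
  have h3 : t ≤ t₃ := ht.trans ((min_le_right _ _).trans (min_le_right _ _))
  set b := stdOrthonormalBasis ℝ E with hb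
  set Q : ℝ := qq V p * mass V p f ^ (1 / p) with hQ
  have hlow : ∀ j, 2 * ((1 - C₁ * t ^ 3) * Q)
      ≤ ∫ y, (BW V t (b j) y (gradient f y) + BW V (-t) (b j) y (gradient f y)) ∂(mu V) := by
    intro j
    have hbj : ‖b j‖ = 1 := b.norm_eq_one j
    have e1 := hmt p hp f hf hbal t (by rw [hta]; exact h1) (b j) hbj
    have e2 := hmt p hp f hf hbal (-t) (by rw [hta']; exact h1) (b j) hbj
    obtain ⟨_, _, i1, _⟩ := hd t (by rw [hta]; exact h3) (b j) hbj f hf
    obtain ⟨_, _, i2, _⟩ := hd (-t) (by rw [hta']; exact h3) (b j) hbj f hf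
    rw [hta] at e1
    rw [hta'] at e2
    rw [integral_add i1 i2]
    linarith
  have hsum : 2 * n * ((1 - C₁ * t ^ 3) * Q)
      ≤ ∫ y, ∑ j, (BW V t (b j) y (gradient f y) + BW V (-t) (b j) y (gradient f y)) ∂(mu V) := by
    rw [integral_finsetSum]
    · calc 2 * n * ((1 - C₁ * t ^ 3) * Q)
          = ∑ _j : Fin (Module.finrank ℝ E), 2 * ((1 - C₁ * t ^ 3) * Q) := by
            rw [Finset.sum_const, Finset.card_univ, Fintype.card_fin, nsmul_eq_mul]
            ring
        _ ≤ _ := Finset.sum_le_sum (fun j _ => hlow j)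
    · intro j _
      have hbj : ‖b j‖ = 1 := b.norm_eq_one j
      obtain ⟨_, _, i1, _⟩ := hd t (by rw [hta]; exact h3) (b j) hbj f hf
      obtain ⟨_, _, i2, _⟩ := hd (-t) (by rw [hta']; exact h3) (b j) hbj f hf
      exact i1.add i2
  have hball : MeasurableSet (Metric.ball (0 : E) R) := measurableSet_ball
  have hIan := fn_integrable_an V hf
  have hIg := (gainB_integrable V hf).indicator hball
  have hupp : ∫ y, ∑ j, (BW V t (b j) y (gradient f y) + BW V (-t) (b j) y (gradient f y)) ∂(mu V)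
      ≤ (2 * n + C₂ * t ^ 3) * TV V f
        - 3 / (1 + R ^ 2) ^ 3 * t ^ 2 * ∫ y in Metric.ball (0 : E) R, gainB V f y ∂(mu V) := by
    have e1 : (2 * n + C₂ * t ^ 3) * TV V f
        - 3 / (1 + R ^ 2) ^ 3 * t ^ 2 * ∫ y in Metric.ball (0 : E) R, gainB V f y ∂(mu V)
        = ∫ y, ((2 * n + C₂ * t ^ 3) * an V y (gradient f y)
          - 3 / (1 + R ^ 2) ^ 3 * t ^ 2 *
            (Metric.ball (0 : E) R).indicator (gainB V f) y) ∂(mu V) := by
      rw [integral_sub (hIan.const_mul _) (hIg.const_mul _), integral_const_mul,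
        integral_const_mul, integral_indicator hball]
      rfl
    rw [e1]
    refine integral_mono ?_ ((hIan.const_mul _).sub (hIg.const_mul _)) ?_
    · refine integrable_finsetSum _ (fun j _ => ?_)
      have hbj : ‖b j‖ = 1 := b.norm_eq_one j
      obtain ⟨_, _, i1, _⟩ := hd t (by rw [hta]; exact h3) (b j) hbj f hf
      obtain ⟨_, _, i2, _⟩ := hd (-t) (by rw [hta']; exact h3) (b j) hbj f hf
      exact i1.add i2
    · intro y
      have e2 := hpw t (by rw [hta]; exact h2) y (gradient f y)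
      rw [hta] at e2
      refine e2.trans ?_
      have e3 : 3 / (1 + R ^ 2) ^ 3 * t ^ 2 * (Metric.ball (0 : E) R).indicator (gainB V f) y
          ≤ 3 * t ^ 2 * (‖y‖ ^ 2 * tn y (gradient f y) ^ 2
            / (uu y ^ 6 * an V y (gradient f y))) := by
        have e4 : ‖y‖ ^ 2 * tn y (gradient f y) ^ 2 / (uu y ^ 6 * an V y (gradient f y))
            = gainB V f y / uu y ^ 6 := by
          unfold gainB
          rw [div_div, mul_comm (uu y ^ 6)]
        rw [e4]
        have hg0 := gainB_nonneg V f y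
        have hu := uu_pos y
        by_cases hy : y ∈ Metric.ball (0 : E) R
        · rw [indicator_of_mem hy]
          have hyR : ‖y‖ < R := by simpa using hy
          have e5 : uu y ^ 6 ≤ (1 + R ^ 2) ^ 3 := by
            have e6 : uu y ^ 2 ≤ 1 + R ^ 2 := by
              rw [uu_sq]
              have := norm_nonneg y
              nlinarith
            calc uu y ^ 6 = (uu y ^ 2) ^ 3 := by ring
              _ ≤ (1 + R ^ 2) ^ 3 := by gcongr
          calc 3 / (1 + R ^ 2) ^ 3 * t ^ 2 * gainB V f y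
              = 3 * t ^ 2 * (gainB V f y / (1 + R ^ 2) ^ 3) := by ring
            _ ≤ 3 * t ^ 2 * (gainB V f y / uu y ^ 6) := by gcongr
        · rw [indicator_of_notMem hy, mul_zero]
          positivity
      linarith
  have hQTV : Q ≤ TV V f := qq_le V hp.le hf
  have hT : 0 ≤ TV V f := TV_nonneg V f
  have ht3 : 0 ≤ t ^ 3 := by positivity
  have hfin := hsum.trans hupp
  have e7 : 2 * n * (C₁ * t ^ 3) * Q ≤ 2 * n * (C₁ * t ^ 3) * TV V f :=
    mul_le_mul_of_nonneg_left hQTV (by positivity)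
  have e8 : (fun y => ‖y‖ ^ 2 * tn y (gradient f y) ^ 2 / an V y (gradient f y)) = gainB V f := rfl
  rw [e8]
  linarith

end

end Pool.Agent.Work.MP_3b24f6_gt
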