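import Pool.Agent.Work.MP_3b24f6_gt.FinalB1
import Pool.Agent.Work.MP_3b24f6_gt.FinalB2
import Pool.Agent.Work.MP_3b24f6_gt.NearMin
import Pool.Agent.Work.MP_3b24f6_gt.Mollify
import Pool.Agent.Work.MP_3b24f6_gt.AreaLsc
import Pool.Agent.Work.MP_3b24f6_gt.Tight
import Pool.Agent.Work.MP_3b24f6_gt.VarB

set_option autoImplicit false

/-!
The sharp Sobolev inequality and the isoperimetric inequality in noncompact rank one spaces.
-/

open MeasureTheory Set Filter Topology
open scoped ContDiff InnerProductSpace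

namespace Pool.Agent.Work.MP_3b24f6_gt

noncomputable section

variable {E : Type*} [NormedAddCommGroup E] [InnerProductSpace ℝ E] [FiniteDimensional ℝ E]
  [MeasurableSpace E] [BorelSpace E]

/-- Sharp Sobolev inequality. -/
theorem sharp_sobolev (V : Ver E) (H : HomB V) {p : ℝ} (h1 : 1 < p)
    (h2 : p < Module.finrank ℝ E / (Module.finrank ℝ E - 1)) {K : ℝ} (hK : 0 ≤ K)
    (h : ∀ s, 0 < s → K * rV (Module.finrank ℝ E - 1) V.w s ^ (1 / p)
      ≤ rA (Module.finrank ℝ E - 1) V.w s) :
    sg E ^ (1 - 1 / p) * K ≤ qq V p := by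
  have hd := V.dim_le
  have hN : (1 : ℝ) < Module.finrank ℝ E := by
    have : 1 < Module.finrank ℝ E := by omega
    exact_mod_cast this
  have hr1 : (1 : ℝ) ≤ Module.finrank ℝ E / (Module.finrank ℝ E - 1) := by linarith
  exact sharp_of_near h1 h2 hK h (sobolev V H hr1 le_rfl)
    (near_min_of H h1 (tight V H h1 h2) (var V))

/-- **Isoperimetric inequality**: metric balls have the least perimeter among all measurable sets
of the same volume. -/
theorem isoperimetric (V : Ver E) (H : HomB V) {D : Set E} (hD : MeasurableSet D) (a : E)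
    {s : ℝ} (hs : 0 < s) (hv : mu V D = mu V {y | H.chd a y < us s}) :
    areaB V {y | H.chd a y < us s} ≤ areaB V D :=
  isoperimetric_of H (fun h1 h2 _ hK h => sharp_sobolev V H h1 h2 hK h)
    (fun hp _ hK hf hfin => area_of_fun V hp hK hf hD hfin)
    (fun a _ hB hfin => area_phi V H a hB hfin) a hs hv

end

end Pool.Agent.Work.MP_3b24f6_gt
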