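import Mathlib
import Pool.Agent.Work.MP_3b24f6_gt.Elast

set_option autoImplicit false

open MeasureTheory Set Filter Topology

namespace Pool.Agent.Work.MP_3b24f6_gt

noncomputable section

/-- Weighted Young inequality. -/
theorem young_aux {β c x : ℝ} (hβ0 : 0 < β) (hβ1 : β < 1) (hc : 0 < c) (hx : 0 ≤ x) :
    x ^ (1 / β - 1) ≤ (1 - β) * (c * x ^ (1 / β)) + β * c ^ (1 - 1 / β) := by
  have h := Real.geom_mean_le_arith_mean2_weighted (w₁ := 1 - β) (w₂ := β)
    (p₁ := c * x ^ (1 / β)) (p₂ := c ^ (1 - 1 / β)) (by linarith) hβ0.le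
    (mul_nonneg hc.le (Real.rpow_nonneg hx _)) (Real.rpow_nonneg hc.le _) (by ring)
  refine le_trans (le_of_eq ?_) h
  rw [Real.mul_rpow hc.le (Real.rpow_nonneg hx _), ← Real.rpow_mul hx, ← Real.rpow_mul hc.le]
  have e1 : 1 / β * (1 - β) = 1 / β - 1 := by field_simp
  rw [e1, mul_comm (c ^ (1 - β)) _, mul_assoc, ← Real.rpow_add hc]
  have e2 : 1 - β + (1 - 1 / β) * β = 0 := by field_simp; ring
  rw [e2, Real.rpow_zero, mul_one]

/-- The one-dimensional inequality on a bounded interval, for a continuous nonnegative density `a`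
with primitive `V`. -/
theorem oneD_bound {a V A F : ℝ → ℝ} {β q R : ℝ} (hβ0 : 0 < β) (hβ1 : β < 1)
    (ha : Continuous a) (ha0 : ∀ s, 0 ≤ s → 0 ≤ a s)
    (hV : ∀ s, V s = ∫ t in (0 : ℝ)..s, a t) (hA : Continuous A)
    (hq : ∀ s, 0 < s → q * V s ^ β ≤ A s)
    (hF : ContDiff ℝ 1 F) (hF0 : ∀ s, 0 ≤ s → 0 ≤ F s) (hR : 0 < R) (hFR : F R = 0)
    (hq0 : 0 ≤ q) :
    q * (∫ s in (0 : ℝ)..R, F s ^ (1 / β) * a s) ^ β ≤ ∫ s in (0 : ℝ)..R, |deriv F s| * A s := by
  have hβi : 1 < 1 / β := by rw [lt_div_iff₀ hβ0]; linarith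
  have hFc : Continuous F := hF.continuous
  have hF' : Continuous (deriv F) := hF.continuous_deriv le_rfl
  have hpc : Continuous fun s => F s ^ (1 / β) := hFc.rpow_const fun s => Or.inr (by linarith)
  have hpc1 : Continuous fun s => F s ^ (1 / β - 1) := hFc.rpow_const fun s => Or.inr (by linarith)
  set M := ∫ s in (0 : ℝ)..R, F s ^ (1 / β) * a s with hM
  set P := fun s => ∫ t in (0 : ℝ)..s, F t ^ (1 / β - 1) * a t with hP
  have hVd : ∀ s, HasDerivAt V (a s) s := by
    intro s
    have : V = fun s => ∫ t in (0 : ℝ)..s, a t := funext hV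
    rw [this]
    exact intervalIntegral.integral_hasDerivAt_right (ha.intervalIntegrable _ _)
      (ha.stronglyMeasurableAtFilter _ _) ha.continuousAt
  have hVc : Continuous V := continuous_iff_continuousAt.mpr fun s => (hVd s).continuousAt
  have hPi : Continuous fun s => F s ^ (1 / β - 1) * a s := hpc1.mul ha
  have hPd : ∀ s, HasDerivAt P (F s ^ (1 / β - 1) * a s) s := fun s =>
    intervalIntegral.integral_hasDerivAt_right (hPi.intervalIntegrable _ _)
      (hPi.stronglyMeasurableAtFilter _ _) hPi.continuousAt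
  have hPc : Continuous P := continuous_iff_continuousAt.mpr fun s => (hPd s).continuousAt
  have hP0 : P 0 = 0 := by simp [hP]
  have hV0 : ∀ s, 0 ≤ s → 0 ≤ V s := fun s hs => by
    rw [hV]
    exact intervalIntegral.integral_nonneg hs fun t ht => ha0 t ht.1
  have hMi : Continuous fun s => F s ^ (1 / β) * a s := hpc.mul ha
  have hM0 : 0 ≤ M := intervalIntegral.integral_nonneg hR.le fun t ht =>
    mul_nonneg (Real.rpow_nonneg (hF0 t ht.1) _) (ha0 t ht.1)
  have hPnn : ∀ s, 0 ≤ s → 0 ≤ P s := fun s hs =>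
    intervalIntegral.integral_nonneg hs fun t ht =>
      mul_nonneg (Real.rpow_nonneg (hF0 t ht.1) _) (ha0 t ht.1)
  -- integration by parts
  have hparts : M = - ∫ s in (0 : ℝ)..R, deriv F s * P s := by
    have h := intervalIntegral.integral_mul_deriv_eq_deriv_mul (a := (0 : ℝ)) (b := R)
      (u := F) (v := P) (u' := deriv F) (v' := fun s => F s ^ (1 / β - 1) * a s)
      (fun x _ => (hF.differentiable one_ne_zero x).hasDerivAt) (fun x _ => hPd x)
      (hF'.intervalIntegrable _ _) (hPi.intervalIntegrable _ _)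
    rw [hFR, hP0] at h
    have e : M = ∫ s in (0 : ℝ)..R, F s * (F s ^ (1 / β - 1) * a s) := by
      rw [hM]
      refine intervalIntegral.integral_congr fun s hs => ?_
      rw [uIcc_of_le hR.le] at hs
      show F s ^ (1 / β) * a s = F s * (F s ^ (1 / β - 1) * a s)
      rcases (hF0 s hs.1).eq_or_lt with h0 | h0
      · rw [← h0, Real.zero_rpow (by positivity)]; simp
      · rw [Real.rpow_sub_one h0.ne']; field_simp
    rw [e, h]; ring
  -- Hölder
  have hPV : ∀ s, 0 ≤ s → s ≤ R → ∀ c, 0 < c →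
      P s ≤ (1 - β) * (c * M) + β * c ^ (1 - 1 / β) * V s := by
    intro s hs hsR c hc
    have h1 : P s ≤ ∫ t in (0 : ℝ)..s,
        ((1 - β) * (c * (F t ^ (1 / β) * a t)) + β * c ^ (1 - 1 / β) * a t) := by
      refine intervalIntegral.integral_mono_on hs (hPi.intervalIntegrable _ _)
        (Continuous.intervalIntegrable (by
          exact (continuous_const.mul (continuous_const.mul hMi)).add
            (continuous_const.mul ha)) _ _) ?_
      intro t ht
      have := mul_le_mul_of_nonneg_right (young_aux hβ0 hβ1 hc (hF0 t ht.1)) (ha0 t ht.1)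
      refine this.trans (le_of_eq ?_)
      ring
    refine h1.trans ?_
    have i1 : IntervalIntegrable (fun t => (1 - β) * (c * (F t ^ (1 / β) * a t)))
        volume 0 s := (continuous_const.mul (continuous_const.mul hMi)).intervalIntegrable _ _
    have i2 : IntervalIntegrable (fun t => β * c ^ (1 - 1 / β) * a t) volume 0 s :=
      (continuous_const.mul ha).intervalIntegrable _ _
    rw [intervalIntegral.integral_add i1 i2,
      intervalIntegral.integral_const_mul, intervalIntegral.integral_const_mul,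
      intervalIntegral.integral_const_mul, ← hV s]
    have h2 : ∫ t in (0 : ℝ)..s, F t ^ (1 / β) * a t ≤ M := by
      rw [hM, ← intervalIntegral.integral_add_adjacent_intervals
        (hMi.intervalIntegrable 0 s) (hMi.intervalIntegrable s R)]
      have : 0 ≤ ∫ t in s..R, F t ^ (1 / β) * a t :=
        intervalIntegral.integral_nonneg hsR fun t ht =>
          mul_nonneg (Real.rpow_nonneg (hF0 t (hs.trans ht.1)) _) (ha0 t (hs.trans ht.1))
      linarith
    have h3 := mul_le_mul_of_nonneg_left (mul_le_mul_of_nonneg_left h2 hc.le)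
      (by linarith : (0 : ℝ) ≤ 1 - β)
    linarith
  rcases hM0.eq_or_lt with hM00 | hMpos
  · rw [← hM00, Real.zero_rpow hβ0.ne', mul_zero]
    exact intervalIntegral.integral_nonneg hR.le fun t ht => by
      have hAt : 0 ≤ A t := by
        rcases ht.1.eq_or_lt with h0 | h0
        · have hcl : t ∈ closure (Ioi (0 : ℝ)) := by rw [closure_Ioi]; exact ht.1
          have : ∀ s ∈ closure (Ioi (0 : ℝ)), 0 ≤ A s := by
            intro s hs
            have hcl2 : IsClosed {s | 0 ≤ A s} := isClosed_le continuous_const hA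
            refine hcl2.closure_subset_iff.mpr (fun x hx => ?_) hs
            exact (mul_nonneg hq0 (Real.rpow_nonneg (hV0 x (le_of_lt hx)) _)).trans (hq x hx)
          exact this t hcl
        · exact (mul_nonneg hq0 (Real.rpow_nonneg (hV0 t h0.le) _)).trans (hq t h0)
      positivity
  · have hPV2 : ∀ s, 0 ≤ s → s ≤ R → P s ≤ V s ^ β * M ^ (1 - β) := by
      intro s hs hsR
      rcases (hV0 s hs).eq_or_lt with h0 | h0
      · -- V s = 0: let c → 0
        have hlim : Tendsto (fun c : ℝ => (1 - β) * (c * M) + β * c ^ (1 - 1 / β) * V s)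
            (𝓝[>] 0) (𝓝 0) := by
          rw [← h0]
          have : Tendsto (fun c : ℝ => (1 - β) * (c * M) + β * c ^ (1 - 1 / β) * 0)
              (𝓝[>] 0) (𝓝 ((1 - β) * (0 * M) + 0)) := by
            simp only [mul_zero]
            exact (((tendsto_nhdsWithin_of_tendsto_nhds tendsto_id).mul_const M).const_mul
              (1 - β)).add tendsto_const_nhds
          simpa using this
        have h4 : P s ≤ 0 := ge_of_tendsto hlim (by
          filter_upwards [self_mem_nhdsWithin] with c hc using hPV s hs hsR c hc)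
        rw [← h0, Real.zero_rpow hβ0.ne', zero_mul]
        exact h4
      · have hc : 0 < (V s / M) ^ β := Real.rpow_pos_of_pos (div_pos h0 hMpos) _
        have h5 := hPV s hs hsR _ hc
        refine h5.trans (le_of_eq ?_)
        have e1 : (V s / M) ^ β * M = V s ^ β * M ^ (1 - β) := by
          rw [Real.div_rpow h0.le hMpos.le, Real.rpow_sub hMpos, Real.rpow_one]
          have := Real.rpow_pos_of_pos hMpos β
          field_simp
        have e2 : ((V s / M) ^ β) ^ (1 - 1 / β) * V s = V s ^ β * M ^ (1 - β) := by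
          rw [← Real.rpow_mul (div_pos h0 hMpos).le]
          have : β * (1 - 1 / β) = β - 1 := by field_simp
          rw [this, Real.div_rpow h0.le hMpos.le, Real.rpow_sub h0, Real.rpow_one]
          have hh : M ^ (β - 1) = (M ^ (1 - β))⁻¹ := by
            rw [← Real.rpow_neg hMpos.le]; congr 1; ring
          rw [hh]
          field_simp
        rw [e1, mul_assoc β, e2]; ring
    -- conclusion
    have h6 : M ≤ ∫ s in (0 : ℝ)..R, |deriv F s| * (V s ^ β * M ^ (1 - β)) := by
      refine hparts.le.trans ?_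
      rw [← intervalIntegral.integral_neg]
      refine intervalIntegral.integral_mono_on hR.le
        ((hF'.mul hPc).neg.intervalIntegrable _ _)
        ((hF'.abs.mul ((hVc.rpow_const fun s => Or.inr hβ0.le).mul
          continuous_const)).intervalIntegrable _ _) ?_
      intro t ht
      have h7 : -(deriv F t * P t) ≤ |deriv F t| * P t := by
        have := mul_le_mul_of_nonneg_right (neg_abs_le (deriv F t)) (hPnn t ht.1)
        linarith
      exact h7.trans (mul_le_mul_of_nonneg_left (hPV2 t ht.1 ht.2) (abs_nonneg _))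
    have h8 : q * ∫ s in (0 : ℝ)..R, |deriv F s| * V s ^ β ≤
        ∫ s in (0 : ℝ)..R, |deriv F s| * A s := by
      rw [← intervalIntegral.integral_const_mul]
      refine intervalIntegral.integral_mono_on_of_le_Ioo hR.le
        ((continuous_const.mul (hF'.abs.mul
          (hVc.rpow_const fun s => Or.inr hβ0.le))).intervalIntegrable _ _)
        ((hF'.abs.mul hA).intervalIntegrable _ _) ?_
      intro t ht
      have := mul_le_mul_of_nonneg_left (hq t ht.1) (abs_nonneg (deriv F t))
      linarith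
    have h9 : M ≤ M ^ (1 - β) * ∫ s in (0 : ℝ)..R, |deriv F s| * V s ^ β := by
      refine h6.trans (le_of_eq ?_)
      rw [← intervalIntegral.integral_const_mul]
      refine intervalIntegral.integral_congr fun s _ => ?_
      ring
    have hM1 : 0 < M ^ (1 - β) := Real.rpow_pos_of_pos hMpos _
    have h10 : M ^ β ≤ ∫ s in (0 : ℝ)..R, |deriv F s| * V s ^ β := by
      have e : M = M ^ (1 - β) * M ^ β := by
        rw [← Real.rpow_add hMpos]; simp
      rw [e] at h9
      have e3 : (M ^ (1 - β) * M ^ β) ^ (1 - β) = M ^ (1 - β) := by rw [← e]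
      rw [e3] at h9
      exact le_of_mul_le_mul_left h9 hM1
    exact (mul_le_mul_of_nonneg_left h10 hq0).trans h8

/-- **Radial inequality** (B6): if the balls satisfy `q V^β ≤ A` then every nonnegative `C¹`
function of the radius with compact support satisfies the functional inequality. -/
theorem radial_ineq (m w : ℕ) {β q : ℝ} (hβ0 : 0 < β) (hβ1 : β < 1) (hq0 : 0 ≤ q)
    (hq : ∀ s, 0 < s → q * rV m w s ^ β ≤ rA m w s) {F : ℝ → ℝ} (hF : ContDiff ℝ 1 F)
    (hF0 : ∀ s, 0 ≤ s → 0 ≤ F s) (hFc : HasCompactSupport F) :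
    q * (∫ s in Ioi (0 : ℝ), F s ^ (1 / β) * rd m w s) ^ β ≤
      ∫ s in Ioi (0 : ℝ), |deriv F s| * rA m w s := by
  obtain ⟨R, hR⟩ : ∃ R : ℝ, 0 < R ∧ ∀ s, R ≤ s → s ∉ tsupport F := by
    obtain ⟨R, hR⟩ := hFc.isCompact.bddAbove
    refine ⟨max R 0 + 1, by positivity, fun s hs hs' => ?_⟩
    have h1 := hR hs'
    have h2 := le_max_left R 0
    linarith
  have hFz : ∀ s, R ≤ s → F s = 0 := fun s hs => image_eq_zero_of_notMem_tsupport (hR.2 s hs)
  have hF'z : ∀ s, R ≤ s → deriv F s = 0 := fun s hs =>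
    image_eq_zero_of_notMem_tsupport fun h => hR.2 s hs (tsupport_deriv_subset (𝕜 := ℝ) h)
  have hβi : 1 / β ≠ 0 := by positivity
  have e1 : ∫ s in Ioi (0 : ℝ), F s ^ (1 / β) * rd m w s =
      ∫ s in (0 : ℝ)..R, F s ^ (1 / β) * rd m w s := by
    rw [intervalIntegral.integral_of_le hR.1.le]
    refine setIntegral_eq_of_subset_of_forall_sdiff_eq_zero measurableSet_Ioi
      (fun s hs => hs.1) ?_
    intro s hs
    have : R ≤ s := by
      by_contra hlt
      exact hs.2 ⟨hs.1, (not_le.mp hlt).le⟩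
    rw [hFz s this, Real.zero_rpow hβi, zero_mul]
  have e2 : ∫ s in Ioi (0 : ℝ), |deriv F s| * rA m w s =
      ∫ s in (0 : ℝ)..R, |deriv F s| * rA m w s := by
    rw [intervalIntegral.integral_of_le hR.1.le]
    refine setIntegral_eq_of_subset_of_forall_sdiff_eq_zero measurableSet_Ioi
      (fun s hs => hs.1) ?_
    intro s hs
    have : R ≤ s := by
      by_contra hlt
      exact hs.2 ⟨hs.1, (not_le.mp hlt).le⟩
    rw [hF'z s this, abs_zero, zero_mul]
  rw [e1, e2]
  refine oneD_bound hβ0 hβ1 (continuous_rd m w) ?_ (fun s => rfl) (continuous_rA m w) hq hF hF0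
    hR.1 (hFz R le_rfl) hq0
  intro s hs
  unfold rd
  have := su_pos s
  positivity

/-- B6 + B7 together: with `β` the elasticity at `s₀`. -/
theorem radial_sharp {m w : ℕ} (hw : 1 ≤ w) (hwm : w ≤ m) {s₀ : ℝ} (hs₀ : 0 < s₀)
    {F : ℝ → ℝ} (hF : ContDiff ℝ 1 F) (hF0 : ∀ s, 0 ≤ s → 0 ≤ F s) (hFc : HasCompactSupport F) :
    rA m w s₀ * (∫ s in Ioi (0 : ℝ), F s ^ (1 / re m w s₀) * rd m w s) ^ re m w s₀ ≤
      rV m w s₀ ^ re m w s₀ * ∫ s in Ioi (0 : ℝ), |deriv F s| * rA m w s := by
  have hβ0 : 0 < re m w s₀ := lt_of_le_of_lt (by positivity) (re_gt hw hwm hs₀)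
  have hβ1 := re_lt hw hwm hs₀
  have hV := Real.rpow_pos_of_pos (rV_pos m w hs₀) (re m w s₀)
  have h := radial_ineq m w (q := rA m w s₀ / rV m w s₀ ^ re m w s₀) hβ0 hβ1
    (div_nonneg (rA_pos m w hs₀).le hV.le) (fun s hs => by
      have := profile_min hw hwm hs₀ hs
      rw [div_mul_eq_mul_div, div_le_iff₀ hV]
      exact this) hF hF0 hFc
  rw [div_mul_eq_mul_div, div_le_iff₀ hV] at h
  linarith

end

end Pool.Agent.Work.MP_3b24f6_gt
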