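import Pool.Agent.Work.MP_3b24f6_gt.SpherePoincare
import Pool.Agent.Work.MP_3b24f6_gt.ModelB

set_option autoImplicit false
set_option linter.unusedSectionVars false

open MeasureTheory Set Filter Topology
open scoped ContDiff InnerProductSpace ENNReal

namespace Pool.Agent.Work.MP_3b24f6_gt

noncomputable section

variable {E : Type*} [NormedAddCommGroup E] [InnerProductSpace ℝ E] [FiniteDimensional ℝ E]
  [MeasurableSpace E] [BorelSpace E]

theorem sig_ne_zero (hN : 1 ≤ Module.finrank ℝ E) : sig E ≠ 0 := by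
  have hnt : Nontrivial E := by
    have : 0 < Module.finrank ℝ E := by omega
    exact Module.finrank_pos_iff.mp this
  unfold sig
  exact Measure.toSphere_ne_zero _

/-- Choice of one good ray. -/
theorem exists_ray_lint (hN : 2 ≤ Module.finrank ℝ E) : ∃ C : ℝ≥0∞, C ≠ ⊤ ∧
    ∀ (ρ b : ℝ → ℝ≥0∞), Measurable ρ → Measurable b →
    ∀ (f : E → ℝ), ContDiff ℝ 1 f → ∀ (T : E → ℝ≥0∞), Measurable T →
      (∀ y v : E, ⟪y, v⟫_ℝ = 0 → ‖fderiv ℝ f y v‖ₑ ≤ T y * ‖v‖ₑ) → ∀ (R : ℝ) (M : ℝ≥0∞),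
      ∃ e : E, ‖e‖ = 1 ∧
        sig E univ * (∫⁻ s, ‖fderiv ℝ f (s • e) e‖ₑ * (b s * ρ s)
            ∂(radL (Module.finrank ℝ E - 1)))
          + M * ∫⁻ y in Metric.ball (0 : E) R, ‖f y - f (‖y‖ • e)‖ₑ * ρ ‖y‖
        ≤ (∫⁻ y, ‖fderiv ℝ f y (‖y‖⁻¹ • y)‖ₑ * (b ‖y‖ * ρ ‖y‖))
          + M * (C * ∫⁻ y in Metric.ball (0 : E) R, ‖y‖ₑ * T y * ρ ‖y‖) := by
  obtain ⟨C, hC, hP⟩ := rot_poincare (E := E) hN
  have hN1 : 1 ≤ Module.finrank ℝ E := by omega
  have hσ0 : sig E univ ≠ 0 := by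
    rw [Ne, Measure.measure_univ_eq_zero]
    exact sig_ne_zero hN1
  have hσt : sig E univ ≠ ⊤ := measure_ne_top _ _
  refine ⟨(sig E univ)⁻¹ * C, ENNReal.mul_ne_top (ENNReal.inv_ne_top.2 hσ0) hC, ?_⟩
  intro ρ b hρ hb f hf T hT hfT R M
  have hfc := hf.continuous
  have hfd := hf.continuous_fderiv one_ne_zero
  set n := Module.finrank ℝ E - 1 with hn
  -- measurability
  have mX : Measurable fun p : Metric.sphere (0 : E) 1 × ℝ =>
      ‖fderiv ℝ f (p.2 • (p.1 : E)) (p.1 : E)‖ₑ * (b p.2 * ρ p.2) := by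
    have h1 : Continuous fun p : Metric.sphere (0 : E) 1 × ℝ =>
        fderiv ℝ f (p.2 • (p.1 : E)) (p.1 : E) := by
      refine Continuous.clm_apply (hfd.comp (by fun_prop)) (by fun_prop)
    exact h1.measurable.enorm.mul ((hb.comp measurable_snd).mul (hρ.comp measurable_snd))
  have mY : Measurable fun p : Metric.sphere (0 : E) 1 × E =>
      ‖f p.2 - f (‖p.2‖ • (p.1 : E))‖ₑ * ρ ‖p.2‖ := by
    have h1 : Continuous fun p : Metric.sphere (0 : E) 1 × E =>
        f p.2 - f (‖p.2‖ • (p.1 : E)) := by fun_prop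
    exact h1.measurable.enorm.mul (hρ.comp (by fun_prop))
  -- the mean value of X
  have hX : ∫⁻ w, (∫⁻ s, ‖fderiv ℝ f (s • (w : E)) (w : E)‖ₑ * (b s * ρ s) ∂(radL n)) ∂(sig E)
      = ∫⁻ y, ‖fderiv ℝ f y (‖y‖⁻¹ • y)‖ₑ * (b ‖y‖ * ρ ‖y‖) := by
    rw [lpolar hN1]
    · refine lintegral_congr fun w => lintegral_congr_ae ?_
      filter_upwards [ae_radL_pos n] with r hr
      have hw : ‖(w : E)‖ = 1 := by simp
      rw [norm_smul, hw, mul_one, Real.norm_of_nonneg hr.le, smul_smul,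
        inv_mul_cancel₀ hr.ne', one_smul]
    · have h1 : Measurable fun y : E => fderiv ℝ f y (‖y‖⁻¹ • y) := by
        have h2 : Measurable fun y : E => ‖y‖⁻¹ • y := by fun_prop
        exact (isBoundedBilinearMap_apply.continuous.measurable).comp
          ((hfd.measurable).prodMk h2)
      exact h1.enorm.mul ((hb.comp measurable_norm).mul (hρ.comp measurable_norm))
  -- the mean value of Y
  have hY : ∫⁻ w, (∫⁻ y in Metric.ball (0 : E) R, ‖f y - f (‖y‖ • (w : E))‖ₑ * ρ ‖y‖) ∂(sig E)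
      ≤ C * ∫⁻ y in Metric.ball (0 : E) R, ‖y‖ₑ * T y * ρ ‖y‖ := by
    set χ : ℝ → ℝ≥0∞ := (Iio R).indicator (fun _ => 1) with hχ
    have hχm : Measurable χ := measurable_const.indicator measurableSet_Iio
    have hball : ∀ F : E → ℝ≥0∞, ∫⁻ y in Metric.ball (0 : E) R, F y = ∫⁻ y, χ ‖y‖ * F y := by
      intro F
      rw [← lintegral_indicator Metric.isOpen_ball.measurableSet]
      refine lintegral_congr fun y => ?_
      by_cases hy : ‖y‖ < R
      · rw [indicator_of_mem (by simpa using hy), hχ, indicator_of_mem (show ‖y‖ ∈ Iio R from hy),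
          one_mul]
      · rw [indicator_of_notMem (by simpa using hy), hχ,
          indicator_of_notMem (show ‖y‖ ∉ Iio R from hy), zero_mul]
    have mG : Measurable fun p : (Metric.sphere (0 : E) 1 × Metric.sphere (0 : E) 1) × ℝ =>
        χ p.2 * (‖f (p.2 • (p.1.2 : E)) - f (p.2 • (p.1.1 : E))‖ₑ * ρ p.2) := by
      have h1 : Continuous fun p : (Metric.sphere (0 : E) 1 × Metric.sphere (0 : E) 1) × ℝ =>
          f (p.2 • (p.1.2 : E)) - f (p.2 • (p.1.1 : E)) := by fun_prop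
      exact (hχm.comp measurable_snd).mul (h1.measurable.enorm.mul (hρ.comp measurable_snd))
    have e1 : ∀ w : Metric.sphere (0 : E) 1,
        ∫⁻ y in Metric.ball (0 : E) R, ‖f y - f (‖y‖ • (w : E))‖ₑ * ρ ‖y‖ =
        ∫⁻ r, ∫⁻ w' : Metric.sphere (0 : E) 1,
          χ r * (‖f (r • (w' : E)) - f (r • (w : E))‖ₑ * ρ r) ∂(sig E) ∂(radL n) := by
      intro w
      have h1 : Measurable fun y : E => χ ‖y‖ * (‖f y - f (‖y‖ • (w : E))‖ₑ * ρ ‖y‖) := by
        have h1 : Continuous fun y : E => f y - f (‖y‖ • (w : E)) := by fun_prop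
        exact (hχm.comp measurable_norm).mul (h1.measurable.enorm.mul (hρ.comp measurable_norm))
      rw [hball, lpolar hN1 _ h1]
      have h2 : Measurable fun p : Metric.sphere (0 : E) 1 × ℝ =>
          χ p.2 * (‖f (p.2 • (p.1 : E)) - f (p.2 • (w : E))‖ₑ * ρ p.2) := by
        have h1 : Continuous fun p : Metric.sphere (0 : E) 1 × ℝ =>
          f (p.2 • (p.1 : E)) - f (p.2 • (w : E)) := by fun_prop
        exact (hχm.comp measurable_snd).mul (h1.measurable.enorm.mul (hρ.comp measurable_snd))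
      rw [← lintegral_lintegral_swap (μ := sig E) (ν := radL n)
        (f := fun w' r => χ r * (‖f (r • (w' : E)) - f (r • (w : E))‖ₑ * ρ r)) h2.aemeasurable]
      refine lintegral_congr fun w' => lintegral_congr_ae ?_
      filter_upwards [ae_radL_pos n] with r hr
      have hw : ‖(w' : E)‖ = 1 := by simp
      rw [norm_smul, hw, mul_one, Real.norm_of_nonneg hr.le]
    rw [lintegral_congr e1]
    have m3 : Measurable fun p : Metric.sphere (0 : E) 1 × ℝ =>
        ∫⁻ w' : Metric.sphere (0 : E) 1,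
          χ p.2 * (‖f (p.2 • (w' : E)) - f (p.2 • (p.1 : E))‖ₑ * ρ p.2) ∂(sig E) := by
      refine Measurable.lintegral_prod_right' (f := fun q : (Metric.sphere (0 : E) 1 × ℝ) ×
        Metric.sphere (0 : E) 1 => χ q.1.2 *
          (‖f (q.1.2 • (q.2 : E)) - f (q.1.2 • (q.1.1 : E))‖ₑ * ρ q.1.2)) ?_
      have h1 : Continuous fun q : (Metric.sphere (0 : E) 1 × ℝ) × Metric.sphere (0 : E) 1 =>
          f (q.1.2 • (q.2 : E)) - f (q.1.2 • (q.1.1 : E)) := by fun_prop
      exact (hχm.comp (by fun_prop)).mul (h1.measurable.enorm.mul (hρ.comp (by fun_prop)))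
    rw [lintegral_lintegral_swap m3.aemeasurable]
    have m4 : Measurable fun y : E => χ ‖y‖ * (‖y‖ₑ * T y * ρ ‖y‖) := by
      exact (hχm.comp measurable_norm).mul ((measurable_enorm.mul hT).mul
        (hρ.comp measurable_norm))
    rw [hball, lpolar hN1 _ m4]
    have m5 : Measurable fun p : Metric.sphere (0 : E) 1 × ℝ =>
        χ ‖p.2 • (p.1 : E)‖ * (‖p.2 • (p.1 : E)‖ₑ * T (p.2 • (p.1 : E)) *
          ρ ‖p.2 • (p.1 : E)‖) := m4.comp (polar_mp hN1).measurable
    rw [lintegral_lintegral_swap (μ := sig E) (ν := radL n)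
      (f := fun w r => χ ‖r • (w : E)‖ * (‖r • (w : E)‖ₑ * T (r • (w : E)) *
          ρ ‖r • (w : E)‖)) m5.aemeasurable]
    rw [← lintegral_const_mul' _ _ hC]
    refine lintegral_mono_ae ?_
    filter_upwards [ae_radL_pos n] with r hr
    have m6 : Measurable fun p : Metric.sphere (0 : E) 1 × Metric.sphere (0 : E) 1 =>
        ‖f (r • (p.2 : E)) - f (r • (p.1 : E))‖ₑ := by
      have h1 : Continuous fun p : Metric.sphere (0 : E) 1 × Metric.sphere (0 : E) 1 =>
          f (r • (p.2 : E)) - f (r • (p.1 : E)) := by fun_prop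
      exact h1.measurable.enorm
    have h3 : ∫⁻ w : Metric.sphere (0 : E) 1, ∫⁻ w' : Metric.sphere (0 : E) 1,
        χ r * (‖f (r • (w' : E)) - f (r • (w : E))‖ₑ * ρ r) ∂(sig E) ∂(sig E) =
        χ r * ρ r * ∫⁻ w : Metric.sphere (0 : E) 1, ∫⁻ w' : Metric.sphere (0 : E) 1,
        ‖f (r • (w' : E)) - f (r • (w : E))‖ₑ ∂(sig E) ∂(sig E) := by
      have h5 : ∀ w w' : Metric.sphere (0 : E) 1,
          χ r * (‖f (r • (w' : E)) - f (r • (w : E))‖ₑ * ρ r) =
          (χ r * ρ r) * ‖f (r • (w' : E)) - f (r • (w : E))‖ₑ := fun w w' => by ring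
      simp_rw [h5]
      have h6 : ∀ w : Metric.sphere (0 : E) 1, ∫⁻ w' : Metric.sphere (0 : E) 1,
          (χ r * ρ r) * ‖f (r • (w' : E)) - f (r • (w : E))‖ₑ ∂(sig E) =
          (χ r * ρ r) * ∫⁻ w' : Metric.sphere (0 : E) 1,
            ‖f (r • (w' : E)) - f (r • (w : E))‖ₑ ∂(sig E) := by
        intro w
        exact lintegral_const_mul _ (m6.comp measurable_prodMk_left)
      simp_rw [h6]
      exact lintegral_const_mul _ m6.lintegral_prod_right'
    have h4 : ∫⁻ w : Metric.sphere (0 : E) 1, χ ‖r • (w : E)‖ *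
        (‖r • (w : E)‖ₑ * T (r • (w : E)) * ρ ‖r • (w : E)‖) ∂(sig E) =
        χ r * ρ r * (ENNReal.ofReal r * ∫⁻ w, T (r • (w : E)) ∂(sig E)) := by
      have hTm : Measurable fun w : Metric.sphere (0 : E) 1 => T (r • (w : E)) :=
        hT.comp (by fun_prop : Measurable fun w : Metric.sphere (0 : E) 1 => r • (w : E))
      rw [← lintegral_const_mul _ hTm, ← lintegral_const_mul _ (hTm.const_mul _)]
      refine lintegral_congr fun w => ?_
      have hw : ‖(w : E)‖ = 1 := by simp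
      rw [enorm_smul, Real.enorm_of_nonneg hr.le, norm_smul, hw, mul_one,
        Real.norm_of_nonneg hr.le]
      have hw2 : ‖(w : E)‖ₑ = 1 := by
        rw [← ofReal_norm, hw, ENNReal.ofReal_one]
      rw [hw2]
      ring
    rw [h3, h4]
    calc χ r * ρ r * ∫⁻ w : Metric.sphere (0 : E) 1, ∫⁻ w' : Metric.sphere (0 : E) 1,
        ‖f (r • (w' : E)) - f (r • (w : E))‖ₑ ∂(sig E) ∂(sig E)
        ≤ χ r * ρ r * (C * ENNReal.ofReal r * ∫⁻ w, T (r • (w : E)) ∂(sig E)) := by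
          gcongr
          exact hP f hf T hT hfT r hr
      _ = C * (χ r * ρ r * (ENNReal.ofReal r * ∫⁻ w, T (r • (w : E)) ∂(sig E))) := by
          ring
  set g : Metric.sphere (0 : E) 1 → ℝ≥0∞ := fun w =>
    sig E univ * (∫⁻ s, ‖fderiv ℝ f (s • (w : E)) (w : E)‖ₑ * (b s * ρ s) ∂(radL n))
      + M * ∫⁻ y in Metric.ball (0 : E) R, ‖f y - f (‖y‖ • (w : E))‖ₑ * ρ ‖y‖ with hg
  have mg1 : Measurable fun w : Metric.sphere (0 : E) 1 =>
      ∫⁻ s, ‖fderiv ℝ f (s • (w : E)) (w : E)‖ₑ * (b s * ρ s) ∂(radL n) :=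
    Measurable.lintegral_prod_right' mX
  have mg2 : Measurable fun w : Metric.sphere (0 : E) 1 =>
      ∫⁻ y in Metric.ball (0 : E) R, ‖f y - f (‖y‖ • (w : E))‖ₑ * ρ ‖y‖ :=
    Measurable.lintegral_prod_right' mY
  have mg : Measurable g := (measurable_const.mul mg1).add (measurable_const.mul mg2)
  obtain ⟨w, hw⟩ := exists_le_laverage (sig_ne_zero hN1) mg.aemeasurable
  refine ⟨(w : E), by simp, ?_⟩
  have h1 : g w ≤ _ := hw
  refine h1.trans ?_
  have h2 : ∫⁻ w, g w ∂(sig E) = sig E univ *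
      (∫⁻ y, ‖fderiv ℝ f y (‖y‖⁻¹ • y)‖ₑ * (b ‖y‖ * ρ ‖y‖)) + M * ∫⁻ w, (∫⁻ y in
      Metric.ball (0 : E) R, ‖f y - f (‖y‖ • (w : E))‖ₑ * ρ ‖y‖) ∂(sig E) := by
    have m1 : Measurable fun w : Metric.sphere (0 : E) 1 => sig E univ *
      (∫⁻ s, ‖fderiv ℝ f (s • (w : E)) (w : E)‖ₑ * (b s * ρ s) ∂(radL n)) := mg1.const_mul _
    rw [hg, lintegral_add_left m1, lintegral_const_mul _ mg1, lintegral_const_mul _ mg2, hX]
  rw [laverage_eq, h2, ENNReal.div_eq_inv_mul, mul_add, ← mul_assoc, ENNReal.inv_mul_cancel hσ0 hσt,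
    one_mul]
  refine add_le_add le_rfl ?_
  calc (sig E univ)⁻¹ * (M * ∫⁻ w, (∫⁻ y in
      Metric.ball (0 : E) R, ‖f y - f (‖y‖ • (w : E))‖ₑ * ρ ‖y‖) ∂(sig E))
      ≤ (sig E univ)⁻¹ * (M * (C * ∫⁻ y in Metric.ball (0 : E) R, ‖y‖ₑ * T y * ρ ‖y‖)) := by
        gcongr
    _ = _ := by ring

/-! ### Elementary facts -/

theorem ray_uu_sq (y : E) : uu y ^ 2 = 1 + ‖y‖ ^ 2 := by
  unfold uu
  exact Real.sq_sqrt (by positivity)

theorem ray_uu_pos (y : E) : 0 < uu y := by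
  unfold uu
  positivity

theorem ray_Q_le (V : Ver E) (y ξ : E) :
    ⟪V.Q y ξ, ξ⟫_ℝ ≤ ‖y‖ ^ 2 * ‖ξ‖ ^ 2 - ⟪y, ξ⟫_ℝ ^ 2 := by
  by_cases hy : y = 0
  · subst hy
    have h := V.Q_smul 0 (0 : E)
    rw [zero_smul] at h
    rw [h]
    simp
  have hn : ‖y‖ ≠ 0 := norm_ne_zero_iff.2 hy
  set c := ⟪y, ξ⟫_ℝ / ‖y‖ ^ 2 with hc
  set η := ξ - c • y with hη
  have h1 : V.Q y η = V.Q y ξ := by
    rw [hη, map_sub, map_smul, V.Q_self, smul_zero, sub_zero]
  have h2 : ⟪V.Q y ξ, ξ⟫_ℝ = ⟪V.Q y η, η⟫_ℝ := by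
    rw [h1, hη, inner_sub_right, inner_smul_right, V.Q_symm y ξ y, V.Q_self, inner_zero_right]
    simp
  have h3 : ‖V.Q y η‖ ^ 2 = ‖y‖ ^ 2 * ⟪V.Q y η, η⟫_ℝ := by
    rw [← real_inner_self_eq_norm_sq, ← V.Q_symm, V.Q_Q, inner_smul_left]
    simp
  have h4 : ‖η‖ ^ 2 = ‖ξ‖ ^ 2 - ⟪y, ξ⟫_ℝ ^ 2 / ‖y‖ ^ 2 := by
    rw [hη, @norm_sub_sq ℝ, norm_smul, mul_pow, inner_smul_right, real_inner_comm y ξ, hc]
    simp only [Real.norm_eq_abs, sq_abs, RCLike.re_to_real]
    field_simp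
    ring
  have h5 : ⟪V.Q y η, η⟫_ℝ ≤ ‖V.Q y η‖ * ‖η‖ := real_inner_le_norm _ _
  have h6 : ⟪V.Q y η, η⟫_ℝ ≤ ‖y‖ ^ 2 * ‖η‖ ^ 2 := by
    by_contra hcon
    push Not at hcon
    have h7 : 0 ≤ ⟪V.Q y η, η⟫_ℝ := le_trans (by positivity) hcon.le
    have h8 : ⟪V.Q y η, η⟫_ℝ ^ 2 ≤ (‖V.Q y η‖ * ‖η‖) ^ 2 := pow_le_pow_left₀ h7 h5 2
    rw [mul_pow, h3] at h8
    have h9 : 0 < ⟪V.Q y η, η⟫_ℝ := lt_of_le_of_lt (by positivity) hcon
    nlinarith
  rw [h2]
  refine h6.trans (le_of_eq ?_)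
  rw [h4]
  field_simp

theorem ray_Q_nonneg (V : Ver E) (y ξ : E) : 0 ≤ ⟪V.Q y ξ, ξ⟫_ℝ := by
  by_cases hy : y = 0
  · subst hy
    have h := V.Q_smul 0 (0 : E)
    rw [zero_smul] at h
    rw [h]
    simp
  have hn : ‖y‖ ≠ 0 := norm_ne_zero_iff.2 hy
  have h3 : ‖V.Q y ξ‖ ^ 2 = ‖y‖ ^ 2 * ⟪V.Q y ξ, ξ⟫_ℝ := by
    rw [← real_inner_self_eq_norm_sq, ← V.Q_symm, V.Q_Q, inner_smul_left]
    simp
  by_contra hcon
  push Not at hcon
  have : 0 < ‖y‖ ^ 2 := by positivity
  nlinarith [sq_nonneg ‖V.Q y ξ‖]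

theorem ray_radial_le_an (V : Ver E) (y ξ : E) : uu y * |⟪y, ξ⟫_ℝ| ≤ ‖y‖ * an V y ξ := by
  have hu := ray_uu_sq y
  have hu0 := ray_uu_pos y
  have h1 : 0 ≤ ‖ξ‖ ^ 2 + ⟪y, ξ⟫_ℝ ^ 2 - ⟪V.Q y ξ, ξ⟫_ℝ / uu y ^ 2 := by
    have h2 : ⟪V.Q y ξ, ξ⟫_ℝ / uu y ^ 2 ≤ ‖ξ‖ ^ 2 := by
      rw [div_le_iff₀ (by positivity), hu]
      nlinarith [ray_Q_le V y ξ, sq_nonneg ⟪y, ξ⟫_ℝ, sq_nonneg ‖ξ‖]
    nlinarith [sq_nonneg ⟪y, ξ⟫_ℝ]
  have h2 : (uu y * |⟪y, ξ⟫_ℝ|) ^ 2 ≤ (‖y‖ * an V y ξ) ^ 2 := by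
    unfold an
    rw [mul_pow, mul_pow, sq_abs, Real.sq_sqrt h1]
    have h3 : ⟪V.Q y ξ, ξ⟫_ℝ / uu y ^ 2 ≤ (‖y‖ ^ 2 * ‖ξ‖ ^ 2 - ⟪y, ξ⟫_ℝ ^ 2) / uu y ^ 2 := by
      gcongr
      exact ray_Q_le V y ξ
    have h4 : ⟪y, ξ⟫_ℝ ^ 2 ≤ ‖y‖ ^ 2 * ‖ξ‖ ^ 2 := by
      have := abs_real_inner_le_norm y ξ
      rw [← mul_pow, ← sq_abs]
      exact pow_le_pow_left₀ (abs_nonneg _) this 2
    have h5 : uu y ^ 2 * ⟪y, ξ⟫_ℝ ^ 2 ≤ ‖y‖ ^ 2 * (‖ξ‖ ^ 2 + ⟪y, ξ⟫_ℝ ^ 2 -
        (‖y‖ ^ 2 * ‖ξ‖ ^ 2 - ⟪y, ξ⟫_ℝ ^ 2) / uu y ^ 2) := by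
      have h6 : ‖y‖ ^ 2 * (‖ξ‖ ^ 2 + ⟪y, ξ⟫_ℝ ^ 2 -
        (‖y‖ ^ 2 * ‖ξ‖ ^ 2 - ⟪y, ξ⟫_ℝ ^ 2) / uu y ^ 2) - uu y ^ 2 * ⟪y, ξ⟫_ℝ ^ 2 =
          (‖y‖ ^ 2 * ‖ξ‖ ^ 2 - ⟪y, ξ⟫_ℝ ^ 2) / uu y ^ 2 := by
        have hy2 : ‖y‖ ^ 2 = uu y ^ 2 - 1 := by linarith
        rw [hy2]
        field_simp
        ring
      have h7 : 0 ≤ (‖y‖ ^ 2 * ‖ξ‖ ^ 2 - ⟪y, ξ⟫_ℝ ^ 2) / uu y ^ 2 := by
        apply div_nonneg _ (by positivity)
        linarith
      linarith
    refine h5.trans ?_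
    gcongr
  have h3 : 0 ≤ an V y ξ := Real.sqrt_nonneg _
  exact (sq_le_sq₀ (by positivity) (by positivity)).1 h2

/-- Radial integrals. -/
theorem integral_radial (V : Ver E) (g : ℝ → ℝ) :
    ∫ y, g ‖y‖ ∂(mu V) = sg E * ∫ s in Ioi (0 : ℝ), g s * rd (Module.finrank ℝ E - 1) V.w s := by
  have hnt : Nontrivial E := by
    have h1 := V.dim_le
    have : 0 < Module.finrank ℝ E := by omega
    exact Module.finrank_pos_iff.mp this
  have hm : Measurable fun y : E => ENNReal.ofReal (rho V y) := by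
    have : Continuous fun y : E => rho V y := by
      unfold rho uu
      fun_prop
    exact this.measurable.ennreal_ofReal
  unfold mu
  rw [integral_withDensity_eq_integral_toReal_smul hm
    (Eventually.of_forall fun y => ENNReal.ofReal_lt_top)]
  have h1 : ∀ y : E, (ENNReal.ofReal (rho V y)).toReal • g ‖y‖ =
      (fun s : ℝ => us s ^ (V.w - 1) * g s) ‖y‖ := by
    intro y
    have h2 : 0 ≤ rho V y := by
      unfold rho uu
      positivity
    rw [ENNReal.toReal_ofReal h2]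
    rfl
  simp_rw [h1]
  rw [integral_fun_norm_addHaar (volume : Measure E) (fun s : ℝ => us s ^ (V.w - 1) * g s)]
  unfold sg
  rw [Measure.toSphere_apply_univ]
  rw [ENNReal.toReal_mul]
  simp only [smul_eq_mul, nsmul_eq_mul, ENNReal.toReal_natCast]
  rw [← mul_assoc]
  congr 1
  refine integral_congr_ae (Eventually.of_forall fun s => ?_)
  have hw := V.one_le_w
  have hs : 0 < us s := by
    unfold us
    positivity
  show s ^ (Module.finrank ℝ E - 1) * (us s ^ (V.w - 1) * g s) =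
    g s * rd (Module.finrank ℝ E - 1) V.w s
  unfold rd
  change _ = g s * (s ^ (Module.finrank ℝ E - 1) * us s ^ V.w / us s)
  have h3 : us s ^ V.w = us s ^ (V.w - 1) * us s := by
    rw [← pow_succ]
    congr 1
    omega
  rw [h3]
  field_simp

/-- Nonnegative continuous functions: lower integral with respect to `mu`. -/
theorem ray_lint_mu (V : Ver E) {g : E → ℝ} {s : Set E} (hs : MeasurableSet s)
    (hg : IntegrableOn g s (mu V)) (hg0 : ∀ y, 0 ≤ g y) (hgm : Measurable g) :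
    ∫⁻ y in s, ENNReal.ofReal (g y) * ENNReal.ofReal (us ‖y‖ ^ (V.w - 1)) =
      ENNReal.ofReal (∫ y in s, g y ∂(mu V)) := by
  rw [ofReal_integral_eq_lintegral_ofReal hg (Eventually.of_forall hg0)]
  have hm : Measurable fun y : E => ENNReal.ofReal (rho V y) := by
    have : Continuous fun y : E => rho V y := by
      unfold rho uu
      fun_prop
    exact this.measurable.ennreal_ofReal
  unfold mu
  rw [restrict_withDensity hs, lintegral_withDensity_eq_lintegral_mul _ hm hgm.ennreal_ofReal]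
  refine lintegral_congr fun y => ?_
  rw [Pi.mul_apply, mul_comm]
  rfl

theorem ray_integrableOn (V : Ver E) {g : E → ℝ} (hg : Continuous g) {K : Set E}
    (hK : IsCompact K) : IntegrableOn g K (mu V) := by
  have hm : Measurable fun y : E => ENNReal.ofReal (rho V y) := by
    have : Continuous fun y : E => rho V y := by
      unfold rho uu
      fun_prop
    exact this.measurable.ennreal_ofReal
  have hc : Continuous fun y : E => rho V y := by
    unfold rho uu
    fun_prop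
  have hlf : IsLocallyFiniteMeasure (mu V) := by
    unfold mu
    have h1 : (fun y : E => ENNReal.ofReal (rho V y)) = fun y => ((Real.toNNReal (rho V y) :
      NNReal) : ℝ≥0∞) := rfl
    rw [h1]
    exact IsLocallyFiniteMeasure.withDensity_coe (continuous_real_toNNReal.comp hc)
  exact hg.continuousOn.integrableOn_compact hK

theorem ray_integrable (V : Ver E) {g : E → ℝ} (hg : Continuous g) (hc : HasCompactSupport g) :
    Integrable g (mu V) := by
  have h1 := ray_integrableOn V hg hc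
  rwa [integrableOn_iff_integrable_of_support_subset (subset_tsupport g)] at h1

theorem exists_ray (V : Ver E) : ∃ C, 0 ≤ C ∧ ∀ f : E → ℝ, Fn f → ∀ R, 0 < R → ∀ M, 0 ≤ M →
    ∃ e : E, ‖e‖ = 1 ∧
      sg E * (∫ s in Ioi (0 : ℝ), |deriv (fun s : ℝ => f (s • e)) s|
          * rA (Module.finrank ℝ E - 1) V.w s)
        + M * ∫ y in Metric.ball (0 : E) R, |f y - f (‖y‖ • e)| ∂(mu V)
      ≤ TV V f + M * C * ∫ y in Metric.ball (0 : E) R, ‖y‖ * tn y (gradient f y) ∂(mu V) := by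
  have hN : 2 ≤ Module.finrank ℝ E := by
    have h1 := V.dim_le
    have h2 := V.one_le_w
    omega
  obtain ⟨C, hC, hmain⟩ := exists_ray_lint (E := E) hN
  refine ⟨C.toReal, ENNReal.toReal_nonneg, ?_⟩
  intro f hf R hR M hM
  obtain ⟨hf1, hf2, hf3⟩ := hf
  have hfC : ContDiff ℝ 1 f := hf1.of_le (by exact_mod_cast le_top)
  have hfc := hf1.continuous
  have hus : Continuous us := by
    unfold us
    fun_prop
  have hus0 : ∀ s, 0 < us s := fun s => by
    unfold us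
    positivity
  have hgr : Continuous (gradient f) := by
    unfold gradient
    exact (LinearIsometryEquiv.continuous _).comp (hfC.continuous_fderiv one_ne_zero)
  have hgrc : HasCompactSupport (gradient f) := by
    unfold gradient
    exact (hf2.fderiv ℝ).comp_left (map_zero _)
  have hfd : ∀ y v : E, fderiv ℝ f y v = ⟪gradient f y, v⟫_ℝ := by
    intro y v
    unfold gradient
    rw [InnerProductSpace.toDual_symm_apply]
  have htn : Measurable fun y : E => tn y (gradient f y) := by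
    unfold tn
    have h1 : Measurable fun y : E => ⟪y, gradient f y⟫_ℝ / ‖y‖ ^ 2 := by
      have h2 : Measurable fun y : E => ⟪y, gradient f y⟫_ℝ := by
        have : Continuous fun y : E => ⟪y, gradient f y⟫_ℝ := by fun_prop
        exact this.measurable
      exact h2.div (by fun_prop)
    have h3 : Measurable fun y : E => gradient f y - (⟪y, gradient f y⟫_ℝ / ‖y‖ ^ 2) • y :=
      hgr.measurable.sub (h1.smul measurable_id)
    exact h3.norm
  have htn0 : ∀ y : E, 0 ≤ tn y (gradient f y) := fun y => norm_nonneg _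
  have htnle : ∀ y : E, tn y (gradient f y) ≤ ‖gradient f y‖ := by
    intro y
    unfold tn
    by_cases hy : y = 0
    · subst hy
      simp
    have hn : ‖y‖ ≠ 0 := norm_ne_zero_iff.2 hy
    have h4 : ‖gradient f y - (⟪y, gradient f y⟫_ℝ / ‖y‖ ^ 2) • y‖ ^ 2 =
        ‖gradient f y‖ ^ 2 - ⟪y, gradient f y⟫_ℝ ^ 2 / ‖y‖ ^ 2 := by
      rw [@norm_sub_sq ℝ, norm_smul, mul_pow, inner_smul_right,
        real_inner_comm y (gradient f y)]
      simp only [Real.norm_eq_abs, sq_abs, RCLike.re_to_real]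
      field_simp
      ring
    refine (sq_le_sq₀ (norm_nonneg _) (norm_nonneg _)).1 ?_
    rw [h4]
    have : 0 ≤ ⟪y, gradient f y⟫_ℝ ^ 2 / ‖y‖ ^ 2 := by positivity
    linarith
  -- apply the lower integral version
  obtain ⟨e, he, hineq⟩ := hmain (fun s => ENNReal.ofReal (us s ^ (V.w - 1)))
    (fun s => ENNReal.ofReal (us s)) (by fun_prop) (by fun_prop) f hfC
    (fun y => ENNReal.ofReal (tn y (gradient f y))) htn.ennreal_ofReal (by
      intro y v hyv
      rw [hfd, ← ofReal_norm, ← ofReal_norm, ← ENNReal.ofReal_mul (htn0 y)]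
      refine ENNReal.ofReal_le_ofReal ?_
      have h1 : ⟪gradient f y, v⟫_ℝ =
          ⟪gradient f y - (⟪y, gradient f y⟫_ℝ / ‖y‖ ^ 2) • y, v⟫_ℝ := by
        rw [inner_sub_left, inner_smul_left, hyv]
        simp
      rw [h1]
      exact norm_inner_le_norm _ _) R (ENNReal.ofReal M)
  refine ⟨e, he, ?_⟩
  have he0 : e ≠ 0 := by
    intro h0
    rw [h0, norm_zero] at he
    exact zero_ne_one he
  have hw := V.one_le_w
  set n := Module.finrank ℝ E - 1 with hn
  -- (A) the ray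
  have hder : ∀ s : ℝ, deriv (fun s : ℝ => f (s • e)) s = fderiv ℝ f (s • e) e := by
    intro s
    have h1 : HasDerivAt (fun s : ℝ => s • e) ((1 : ℝ) • e) s := (hasDerivAt_id s).smul_const e
    rw [one_smul] at h1
    exact ((hfC.differentiable one_ne_zero).differentiableAt.hasFDerivAt.comp_hasDerivAt s
      h1).deriv
  have hFc : Continuous fun s : ℝ => deriv (fun s : ℝ => f (s • e)) s := by
    have h1 : (fun s : ℝ => deriv (fun s : ℝ => f (s • e)) s) =
      fun s => fderiv ℝ f (s • e) e := funext hder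
    rw [h1]
    exact ((hfC.continuous_fderiv one_ne_zero).comp (by fun_prop)).clm_apply continuous_const
  have hFs : HasCompactSupport (fun s : ℝ => f (s • e)) :=
    hf2.comp_isClosedEmbedding (isClosedEmbedding_smul_left he0)
  have hXi : IntegrableOn (fun s : ℝ => |deriv (fun s : ℝ => f (s • e)) s| * rA n V.w s)
      (Ioi 0) := by
    refine Integrable.integrableOn (Continuous.integrable_of_hasCompactSupport ?_ ?_)
    · exact hFc.abs.mul (continuous_rA n V.w)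
    · exact (hFs.deriv.abs).mul_right
  have hX : ∫⁻ s, ‖fderiv ℝ f (s • e) e‖ₑ * (ENNReal.ofReal (us s) *
      ENNReal.ofReal (us s ^ (V.w - 1))) ∂(radL n) =
      ENNReal.ofReal (∫ s in Ioi (0 : ℝ), |deriv (fun s : ℝ => f (s • e)) s| * rA n V.w s) := by
    rw [ofReal_integral_eq_lintegral_ofReal hXi]
    · unfold radL
      rw [lintegral_withDensity_eq_lintegral_mul _ (by fun_prop)]
      · refine setLIntegral_congr_fun measurableSet_Ioi fun s hs => ?_
        have hs0 : (0 : ℝ) < s := hs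
        rw [Pi.mul_apply, hder, ← ofReal_norm, Real.norm_eq_abs]
        rw [← ENNReal.ofReal_mul (hus0 s).le, ← ENNReal.ofReal_mul (abs_nonneg _),
          ← ENNReal.ofReal_mul (by positivity)]
        congr 1
        unfold rA
        change _ = _ * (s ^ n * us s ^ V.w)
        have h3 : us s ^ V.w = us s ^ (V.w - 1) * us s := by
          rw [← pow_succ]
          congr 1
          omega
        rw [h3]
        ring
      · have h1 : Continuous fun s : ℝ => fderiv ℝ f (s • e) e :=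
          ((hfC.continuous_fderiv one_ne_zero).comp (by fun_prop)).clm_apply continuous_const
        have h2 : Measurable fun s : ℝ => (ENNReal.ofReal (us s) *
          ENNReal.ofReal (us s ^ (V.w - 1))) := by fun_prop
        exact h1.measurable.enorm.mul h2
    · filter_upwards [ae_restrict_mem measurableSet_Ioi] with s hs
      have hs0 : (0 : ℝ) < s := hs
      have := rA_pos n V.w hs0
      positivity
  -- (B)
  have hYi : IntegrableOn (fun y : E => |f y - f (‖y‖ • e)|) (Metric.ball (0 : E) R) (mu V) := by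
    refine IntegrableOn.mono_set (ray_integrableOn V (by fun_prop) (isCompact_closedBall 0 R))
      Metric.ball_subset_closedBall
  have hY : ∫⁻ y in Metric.ball (0 : E) R, ‖f y - f (‖y‖ • e)‖ₑ *
      ENNReal.ofReal (us ‖y‖ ^ (V.w - 1)) =
      ENNReal.ofReal (∫ y in Metric.ball (0 : E) R, |f y - f (‖y‖ • e)| ∂(mu V)) := by
    rw [← ray_lint_mu V Metric.isOpen_ball.measurableSet hYi (fun y => abs_nonneg _)
      (by fun_prop)]
    refine lintegral_congr fun y => ?_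
    rw [← ofReal_norm, Real.norm_eq_abs]
  -- (C)
  have hanc : Continuous fun y => an V y (gradient f y) := by
    unfold an uu
    have h1 : Continuous fun y : E => V.Q y (gradient f y) :=
      V.smooth_Q.continuous.clm_apply hgr
    have h2 : Continuous fun y : E => ⟪V.Q y (gradient f y), gradient f y⟫_ℝ := h1.inner hgr
    refine Real.continuous_sqrt.comp ?_
    refine Continuous.sub (by fun_prop) (h2.div (by fun_prop) fun y => ?_)
    positivity
  have hTVi : Integrable (fun y => an V y (gradient f y)) (mu V) := by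
    refine ray_integrable V hanc ?_
    refine HasCompactSupport.of_support_subset_isCompact hgrc fun y hy => ?_
    by_contra h1
    have h2 : gradient f y = 0 := image_eq_zero_of_notMem_tsupport h1
    apply hy
    show an V y (gradient f y) = 0
    unfold an
    rw [h2]
    simp
  have hTV : ∫⁻ y, ‖fderiv ℝ f y (‖y‖⁻¹ • y)‖ₑ * (ENNReal.ofReal (us ‖y‖) *
      ENNReal.ofReal (us ‖y‖ ^ (V.w - 1))) ≤ ENNReal.ofReal (TV V f) := by
    unfold TV
    have h1 := ray_lint_mu V (g := fun y => an V y (gradient f y)) MeasurableSet.univ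
      hTVi.integrableOn (fun y => Real.sqrt_nonneg _)
      hanc.measurable
    rw [Measure.restrict_univ, Measure.restrict_univ] at h1
    rw [← h1]
    refine lintegral_mono fun y => ?_
    rw [← mul_assoc]
    gcongr
    rw [← ofReal_norm, ← ENNReal.ofReal_mul (norm_nonneg _)]
    refine ENNReal.ofReal_le_ofReal ?_
    by_cases hy : y = 0
    · subst hy
      simp only [smul_zero, map_zero, norm_zero, zero_mul]
      exact Real.sqrt_nonneg _
    have hyn : 0 < ‖y‖ := norm_pos_iff.2 hy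
    have h2 := ray_radial_le_an V y (gradient f y)
    rw [map_smul, smul_eq_mul, norm_mul, norm_inv, norm_norm, hfd, Real.norm_eq_abs,
      real_inner_comm]
    have h3 : us ‖y‖ = uu y := rfl
    rw [h3]
    calc ‖y‖⁻¹ * |⟪y, gradient f y⟫_ℝ| * uu y = ‖y‖⁻¹ * (uu y * |⟪y, gradient f y⟫_ℝ|) := by ring
      _ ≤ ‖y‖⁻¹ * (‖y‖ * an V y (gradient f y)) := by gcongr
      _ = an V y (gradient f y) := by field_simp
  -- (D)
  have hZi : IntegrableOn (fun y : E => ‖y‖ * tn y (gradient f y)) (Metric.ball (0 : E) R)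
      (mu V) := by
    have h1 : IntegrableOn (fun y : E => ‖y‖ * ‖gradient f y‖) (Metric.ball (0 : E) R) (mu V) :=
      IntegrableOn.mono_set (ray_integrableOn V (by fun_prop) (isCompact_closedBall 0 R))
        Metric.ball_subset_closedBall
    refine Integrable.mono' h1 (measurable_norm.mul htn).aestronglyMeasurable ?_
    refine Eventually.of_forall fun y => ?_
    rw [Real.norm_of_nonneg (mul_nonneg (norm_nonneg _) (htn0 y))]
    exact mul_le_mul_of_nonneg_left (htnle y) (norm_nonneg _)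
  have hZ : ∫⁻ y in Metric.ball (0 : E) R, ‖y‖ₑ * ENNReal.ofReal (tn y (gradient f y)) *
      ENNReal.ofReal (us ‖y‖ ^ (V.w - 1)) =
      ENNReal.ofReal (∫ y in Metric.ball (0 : E) R, ‖y‖ * tn y (gradient f y) ∂(mu V)) := by
    rw [← ray_lint_mu V Metric.isOpen_ball.measurableSet hZi
      (fun y => mul_nonneg (norm_nonneg _) (htn0 y)) (measurable_norm.mul htn)]
    refine lintegral_congr fun y => ?_
    rw [ENNReal.ofReal_mul (norm_nonneg _), ofReal_norm]
  have hsg : sig E univ = ENNReal.ofReal (sg E) := by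
    unfold sg
    rw [ENNReal.ofReal_toReal (measure_ne_top _ _)]
    rfl
  have hsg0 : 0 ≤ sg E := ENNReal.toReal_nonneg
  rw [hX, hY, hZ, hsg] at hineq
  have hCr : C = ENNReal.ofReal C.toReal := (ENNReal.ofReal_toReal hC).symm
  have hX0 : 0 ≤ ∫ s in Ioi (0 : ℝ), |deriv (fun s : ℝ => f (s • e)) s| * rA n V.w s := by
    refine setIntegral_nonneg measurableSet_Ioi fun s hs => ?_
    have := rA_pos n V.w hs
    positivity
  have hY0 : 0 ≤ ∫ y in Metric.ball (0 : E) R, |f y - f (‖y‖ • e)| ∂(mu V) :=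
    integral_nonneg fun y => abs_nonneg _
  have hZ0 : 0 ≤ ∫ y in Metric.ball (0 : E) R, ‖y‖ * tn y (gradient f y) ∂(mu V) :=
    integral_nonneg fun y => mul_nonneg (norm_nonneg _) (htn0 y)
  have hTV0 : 0 ≤ TV V f := integral_nonneg fun y => Real.sqrt_nonneg _
  have hfin := hineq.trans (add_le_add hTV le_rfl)
  rw [hCr, ← ENNReal.ofReal_mul hsg0, ← ENNReal.ofReal_mul hM, ← ENNReal.ofReal_add
    (mul_nonneg hsg0 hX0) (mul_nonneg hM hY0), ← ENNReal.ofReal_mul ENNReal.toReal_nonneg,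
    ← ENNReal.ofReal_mul hM, ← ENNReal.ofReal_add hTV0 (mul_nonneg hM
      (mul_nonneg ENNReal.toReal_nonneg hZ0))] at hfin
  rw [ENNReal.ofReal_le_ofReal_iff (add_nonneg hTV0 (mul_nonneg hM
      (mul_nonneg ENNReal.toReal_nonneg hZ0)))] at hfin
  rw [mul_assoc M]
  exact hfin

end

end Pool.Agent.Work.MP_3b24f6_gt
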