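import Mathlib

set_option autoImplicit false

/-!
Interface-free lemmas for the assembly (B9): truncation and the closing limit.
-/

open MeasureTheory Set Filter Topology

namespace Pool.Agent.Work.MP_3b24f6_gt.Trunc

/-- `x ↦ min(x,L)^p` is Lipschitz with constant `p L^(p-1)` on `[0,∞)`. -/
theorem min_rpow_lip {p L : ℝ} (hp : 1 ≤ p) (hL : 0 ≤ L) {x y : ℝ} (hx : 0 ≤ x) (hy : 0 ≤ y) :
    |min x L ^ p - min y L ^ p| ≤ p * L ^ (p - 1) * |x - y| := by
  have hp0 : 0 ≤ p := by linarith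
  -- on [0, L]
  have key : ∀ a ∈ Icc (0:ℝ) L, ∀ b ∈ Icc (0:ℝ) L, |a ^ p - b ^ p| ≤ p * L ^ (p - 1) * |a - b| := by
    intro a ha b hb
    have hder : ∀ z ∈ Icc (0:ℝ) L,
        HasDerivWithinAt (fun z : ℝ => z ^ p) (p * z ^ (p - 1)) (Icc (0:ℝ) L) z := by
      intro z _
      exact (Real.hasDerivAt_rpow_const (Or.inr hp)).hasDerivWithinAt
    have hbd : ∀ z ∈ Icc (0:ℝ) L, ‖p * z ^ (p - 1)‖ ≤ p * L ^ (p - 1) := by
      intro z hz
      rw [Real.norm_of_nonneg (mul_nonneg hp0 (Real.rpow_nonneg hz.1 _))]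
      exact mul_le_mul_of_nonneg_left
        (Real.rpow_le_rpow hz.1 hz.2 (by linarith)) hp0
    have := (convex_Icc (0:ℝ) L).norm_image_sub_le_of_norm_hasDerivWithin_le hder hbd hb ha
    simpa [Real.norm_eq_abs] using this
  have h1 := key (min x L) ⟨le_min hx hL, min_le_right _ _⟩ (min y L) ⟨le_min hy hL, min_le_right _ _⟩
  refine h1.trans ?_
  refine mul_le_mul_of_nonneg_left ?_ (mul_nonneg hp0 (Real.rpow_nonneg hL _))
  have := abs_min_sub_min_le_max x L y L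
  simpa using this

/-- Pointwise tail estimate: `x^p ≤ min(x,L)^p + L^(p-r) x^r` for `p ≤ r`. -/
theorem rpow_le_min_add {p r L : ℝ} (hL : 0 < L) (hpr : p ≤ r) {x : ℝ} (hx : 0 ≤ x) :
    x ^ p ≤ min x L ^ p + L ^ (p - r) * x ^ r := by
  rcases le_or_gt x L with h | h
  · rw [min_eq_left h]
    have : 0 ≤ L ^ (p - r) * x ^ r := mul_nonneg (Real.rpow_nonneg hL.le _) (Real.rpow_nonneg hx _)
    linarith
  · have hx0 : 0 < x := hL.trans h
    have h1 : x ^ p = x ^ (p - r) * x ^ r := by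
      rw [← Real.rpow_add hx0]; ring_nf
    have h2 : x ^ (p - r) ≤ L ^ (p - r) :=
      Real.rpow_le_rpow_of_nonpos hL h.le (by linarith)
    have h3 : 0 ≤ min x L ^ p := Real.rpow_nonneg (le_min hx hL.le) _
    have h4 : x ^ (p - r) * x ^ r ≤ L ^ (p - r) * x ^ r :=
      mul_le_mul_of_nonneg_right h2 (Real.rpow_nonneg hx _)
    linarith

/-- The combined pointwise estimate: `x^p ≤ y^p + p L^(p-1) |x-y| + L^(p-r) x^r`. -/
theorem rpow_le_rpow_add {p r L : ℝ} (hp : 1 ≤ p) (hL : 0 < L) (hpr : p ≤ r) {x y : ℝ}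
    (hx : 0 ≤ x) (hy : 0 ≤ y) :
    x ^ p ≤ y ^ p + p * L ^ (p - 1) * |x - y| + L ^ (p - r) * x ^ r := by
  have h1 := rpow_le_min_add (p := p) hL hpr hx
  have h2 := min_rpow_lip hp hL.le hx hy
  have h3 : min y L ^ p ≤ y ^ p :=
    Real.rpow_le_rpow (le_min hy hL.le) (min_le_left _ _) (by linarith)
  have h4 := (abs_le.mp h2).2
  linarith

/-- Closing limit. -/
theorem closing {q b p : ℝ} (hp : 0 < p)
    (h : ∀ η : ℝ, 0 < η → η < 1/4 → b * (1 - 3 * η) ^ (1 / p) ≤ q * (1 + η) + η) : b ≤ q := by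
  have hT1 : Tendsto (fun η : ℝ => b * (1 - 3 * η) ^ (1 / p)) (𝓝[>] 0) (𝓝 (b * (1 - 3 * 0) ^ (1 / p))) := by
    refine Tendsto.mono_left ?_ nhdsWithin_le_nhds
    have hc : ContinuousAt (fun η : ℝ => b * (1 - 3 * η) ^ (1 / p)) 0 := by
      refine ContinuousAt.mul continuousAt_const ?_
      refine ContinuousAt.rpow_const (by fun_prop) (Or.inr (by positivity))
    exact hc
  have hT2 : Tendsto (fun η : ℝ => q * (1 + η) + η) (𝓝[>] 0) (𝓝 (q * (1 + 0) + 0)) := by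
    refine Tendsto.mono_left ?_ nhdsWithin_le_nhds
    have hc : ContinuousAt (fun η : ℝ => q * (1 + η) + η) 0 := by fun_prop
    exact hc
  have hev : ∀ᶠ η : ℝ in 𝓝[>] 0, b * (1 - 3 * η) ^ (1 / p) ≤ q * (1 + η) + η := by
    have : Ioo (0:ℝ) (1/4) ∈ 𝓝[>] (0:ℝ) := Ioo_mem_nhdsGT (by norm_num)
    filter_upwards [this] with η hη
    exact h η hη.1 hη.2
  have := le_of_tendsto_of_tendsto hT1 hT2 hev
  simpa using this

/-- Closing limit, additive form. -/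
theorem closing' {q b p : ℝ} (hp : 0 < p)
    (h : ∀ η : ℝ, 0 < η → η < 1/4 → b * (1 - 3 * η) ^ (1 / p) ≤ q + 2 * η) : b ≤ q := by
  have hT1 : Tendsto (fun η : ℝ => b * (1 - 3 * η) ^ (1 / p)) (𝓝[>] 0) (𝓝 (b * (1 - 3 * 0) ^ (1 / p))) := by
    refine Tendsto.mono_left ?_ nhdsWithin_le_nhds
    have hc : ContinuousAt (fun η : ℝ => b * (1 - 3 * η) ^ (1 / p)) 0 := by
      refine ContinuousAt.mul continuousAt_const ?_
      refine ContinuousAt.rpow_const (by fun_prop) (Or.inr (by positivity))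
    exact hc
  have hT2 : Tendsto (fun η : ℝ => q + 2 * η) (𝓝[>] 0) (𝓝 (q + 2 * 0)) := by
    refine Tendsto.mono_left ?_ nhdsWithin_le_nhds
    have hc : ContinuousAt (fun η : ℝ => q + 2 * η) 0 := by fun_prop
    exact hc
  have hev : ∀ᶠ η : ℝ in 𝓝[>] 0, b * (1 - 3 * η) ^ (1 / p) ≤ q + 2 * η := by
    have : Ioo (0:ℝ) (1/4) ∈ 𝓝[>] (0:ℝ) := Ioo_mem_nhdsGT (by norm_num)
    filter_upwards [this] with η hη
    exact h η hη.1 hη.2
  have := le_of_tendsto_of_tendsto hT1 hT2 hev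
  simpa using this

/-- Integrated closeness estimate on a measure (restricted to a ball, say). -/
theorem integral_rpow_close {α : Type*} [MeasurableSpace α] {ν : Measure α} {f F : α → ℝ}
    {p r L : ℝ} (hp : 1 ≤ p) (hL : 0 < L) (hpr : p ≤ r)
    (hf : ∀ x, 0 ≤ f x) (hF : ∀ x, 0 ≤ F x)
    (ifp : Integrable (fun x => f x ^ p) ν) (iFp : Integrable (fun x => F x ^ p) ν)
    (ifr : Integrable (fun x => f x ^ r) ν) (id : Integrable (fun x => |f x - F x|) ν) :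
    ∫ x, f x ^ p ∂ν ≤ ∫ x, F x ^ p ∂ν + p * L ^ (p - 1) * ∫ x, |f x - F x| ∂ν
      + L ^ (p - r) * ∫ x, f x ^ r ∂ν := by
  have hle : ∫ x, f x ^ p ∂ν ≤
      ∫ x, (F x ^ p + p * L ^ (p - 1) * |f x - F x| + L ^ (p - r) * f x ^ r) ∂ν := by
    refine integral_mono ifp ?_ ?_
    · exact (iFp.add (id.const_mul _)).add (ifr.const_mul _)
    · intro x
      exact rpow_le_rpow_add hp hL hpr (hf x) (hF x)
  have e1 : ∫ x, (F x ^ p + p * L ^ (p - 1) * |f x - F x| + L ^ (p - r) * f x ^ r) ∂ν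
      = ∫ x, (F x ^ p + p * L ^ (p - 1) * |f x - F x|) ∂ν + ∫ x, L ^ (p - r) * f x ^ r ∂ν :=
    integral_add (iFp.add (id.const_mul _)) (ifr.const_mul _)
  have e2 : ∫ x, (F x ^ p + p * L ^ (p - 1) * |f x - F x|) ∂ν
      = ∫ x, F x ^ p ∂ν + ∫ x, p * L ^ (p - 1) * |f x - F x| ∂ν :=
    integral_add iFp (id.const_mul _)
  rw [e1, e2, integral_const_mul, integral_const_mul] at hle
  exact hle

end Pool.Agent.Work.MP_3b24f6_gt.Trunc
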