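import Pool.Agent.Work.MP_3b24f6_gt.BasicB
import Pool.Agent.Work.MP_3b24f6_gt.Trunc
import Pool.Agent.Work.MP_3b24f6_gt.RayB
import Pool.Agent.Work.MP_3b24f6_gt.RadialB

set_option autoImplicit false
set_option linter.unusedSectionVars false

/-!
The last step of the near-minimiser argument: the sharp Sobolev inequality from `near_min`,
the Sobolev inequality, a good ray and the one-dimensional inequality.
-/

open MeasureTheory Set Filter Topology
open scoped ContDiff InnerProductSpace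

namespace Pool.Agent.Work.MP_3b24f6_gt

noncomputable section

variable {E : Type*} [NormedAddCommGroup E] [InnerProductSpace ℝ E] [FiniteDimensional ℝ E]
  [MeasurableSpace E] [BorelSpace E]

theorem sg_nonneg' : 0 ≤ sg E := ENNReal.toReal_nonneg

theorem sg_pos' (h : 1 ≤ Module.finrank ℝ E) : 0 < sg E := by
  unfold sg
  have : Nontrivial E := Module.nontrivial_of_finrank_pos (R := ℝ) (by omega)
  rw [ENNReal.toReal_pos_iff]
  constructor
  · rw [pos_iff_ne_zero]
    intro h0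
    have h1 : (volume : Measure E).toSphere = 0 := Measure.measure_univ_eq_zero.mp h0
    exact (Measure.toSphere_ne_zero (μ := (volume : Measure E))) h1
  · exact measure_lt_top _ _

/-- The radial function built from the restriction of `f` to a ray. -/
theorem ray_radial {V : Ver E} {p : ℝ} (hp : 1 < p) {K : ℝ} (hK : 0 ≤ K)
    (h : ∀ s, 0 < s → K * rV (Module.finrank ℝ E - 1) V.w s ^ (1 / p)
      ≤ rA (Module.finrank ℝ E - 1) V.w s) {f : E → ℝ} (hf : Fn f) {e : E} (he : ‖e‖ = 1)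
    {R : ℝ} :
    sg E ^ (1 - 1 / p) * K * (∫ y in Metric.ball (0 : E) R, f (‖y‖ • e) ^ p ∂(mu V)) ^ (1 / p)
      ≤ sg E * (∫ s in Ioi (0 : ℝ), |deriv (fun s : ℝ => f (s • e)) s|
          * rA (Module.finrank ℝ E - 1) V.w s) := by
  have hp0 : 0 < p := by linarith
  have hβ0 : 0 < 1 / p := by positivity
  have hβ1 : 1 / p < 1 := by rw [div_lt_one hp0]; exact hp
  have hd := V.dim_le
  have hw := V.one_le_w
  have hN : 1 ≤ Module.finrank ℝ E := by omega
  have hsg := sg_pos' (E := E) hN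
  have hcF : Continuous (fun y : E => f (‖y‖ • e)) :=
    hf.1.continuous.comp (continuous_norm.smul continuous_const)
  obtain ⟨r, hr⟩ := hf.2.1.isCompact.isBounded.subset_closedBall (0 : E)
  have hz : ∀ s : ℝ, r < |s| → f (s • e) = 0 := by
    intro s hs
    by_contra hne
    have h1 : s • e ∈ tsupport f := subset_tsupport _ hne
    have h2 := hr h1
    rw [mem_closedBall_zero_iff, norm_smul, he, mul_one, Real.norm_eq_abs] at h2
    linarith
  have hcs : HasCompactSupport (fun y : E => f (‖y‖ • e)) := by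
    refine HasCompactSupport.of_support_subset_isCompact (isCompact_closedBall (0 : E) r) ?_
    intro y hy
    rw [mem_closedBall_zero_iff]
    by_contra hlt
    push Not at hlt
    exact hy (hz ‖y‖ (by rwa [abs_norm]))
  have hcs1 : HasCompactSupport (fun s : ℝ => f (s • e)) := by
    refine HasCompactSupport.of_support_subset_isCompact (isCompact_Icc (a := -r) (b := r)) ?_
    intro s hs
    by_contra hlt
    refine hs (hz s ?_)
    by_contra hle
    push Not at hle
    exact hlt (abs_le.mp hle)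
  have hF : ContDiff ℝ 1 (fun s : ℝ => f (s • e)) :=
    (hf.1.of_le (by exact_mod_cast le_top)).comp (contDiff_id.smul contDiff_const)
  have hrad := radial_ineq (Module.finrank ℝ E - 1) V.w hβ0 hβ1 hK h hF
    (fun s _ => hf.2.2 _) hcs1
  rw [one_div_one_div] at hrad
  have hint := integral_radial V (fun s => f (s • e) ^ p)
  have hmono : ∫ y in Metric.ball (0 : E) R, f (‖y‖ • e) ^ p ∂(mu V)
      ≤ ∫ y, f (‖y‖ • e) ^ p ∂(mu V) := by
    refine setIntegral_le_integral ?_ (Filter.Eventually.of_forall fun y =>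
      Real.rpow_nonneg (hf.2.2 _) _)
    refine integrable_mu V (hcF.rpow_const fun y => Or.inr hp0.le) ?_
    exact hcs.comp_left (g := fun x : ℝ => x ^ p) (Real.zero_rpow hp0.ne')
  have hI0 : 0 ≤ ∫ y in Metric.ball (0 : E) R, f (‖y‖ • e) ^ p ∂(mu V) :=
    integral_nonneg fun y => Real.rpow_nonneg (hf.2.2 _) _
  have hJ0 : 0 ≤ ∫ s in Ioi (0 : ℝ), f (s • e) ^ p * rd (Module.finrank ℝ E - 1) V.w s := by
    refine setIntegral_nonneg measurableSet_Ioi fun s hs => ?_
    exact mul_nonneg (Real.rpow_nonneg (hf.2.2 _) _) (rd_pos _ _ hs).le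
  have h1 : (∫ y in Metric.ball (0 : E) R, f (‖y‖ • e) ^ p ∂(mu V)) ^ (1 / p)
      ≤ (sg E * ∫ s in Ioi (0 : ℝ), f (s • e) ^ p * rd (Module.finrank ℝ E - 1) V.w s) ^ (1 / p) := by
    refine Real.rpow_le_rpow hI0 ?_ hβ0.le
    rw [← hint]
    exact hmono
  rw [Real.mul_rpow hsg.le hJ0] at h1
  have h2 : sg E ^ (1 - 1 / p) * sg E ^ (1 / p) = sg E := by
    rw [← Real.rpow_add hsg]; simp
  have h3 : 0 ≤ sg E ^ (1 - 1 / p) * K := mul_nonneg (Real.rpow_nonneg hsg.le _) hK
  calc sg E ^ (1 - 1 / p) * K * (∫ y in Metric.ball (0 : E) R, f (‖y‖ • e) ^ p ∂(mu V)) ^ (1 / p)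
      ≤ sg E ^ (1 - 1 / p) * K * (sg E ^ (1 / p) *
        (∫ s in Ioi (0 : ℝ), f (s • e) ^ p * rd (Module.finrank ℝ E - 1) V.w s) ^ (1 / p)) :=
        mul_le_mul_of_nonneg_left h1 h3
    _ = (sg E ^ (1 - 1 / p) * sg E ^ (1 / p)) * (K *
        (∫ s in Ioi (0 : ℝ), f (s • e) ^ p * rd (Module.finrank ℝ E - 1) V.w s) ^ (1 / p)) := by
        ring
    _ ≤ _ := by
        rw [h2]
        exact mul_le_mul_of_nonneg_left hrad hsg.le

/-- Sharp Sobolev inequality, from near-minimisers that are almost radial (`hnm`) and the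
non-sharp Sobolev inequality (`hsob`). -/
theorem sharp_of_near {V : Ver E} {p r : ℝ} (h1 : 1 < p) (hpr : p < r) {K : ℝ} (hK : 0 ≤ K)
    (h : ∀ s, 0 < s → K * rV (Module.finrank ℝ E - 1) V.w s ^ (1 / p)
      ≤ rA (Module.finrank ℝ E - 1) V.w s)
    (hsob : ∃ C, 0 < C ∧ ∀ f : E → ℝ, Fn f → mass V r f ^ (1 / r) ≤ C * TV V f)
    (hnm : ∀ η, 0 < η → ∃ R, 0 < R ∧ ∀ κ, 0 < κ → ∃ f : E → ℝ, Fn f ∧ mass V p f = 1 ∧
      TV V f ≤ qq V p + κ ∧ tail V p R f ≤ η ∧
      ∫ y in Metric.ball (0 : E) R, ‖y‖ * tn y (gradient f y) ∂(mu V) ≤ κ) :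
    sg E ^ (1 - 1 / p) * K ≤ qq V p := by
  have hp0 : 0 < p := by linarith
  have hr0 : 0 < r := by linarith
  set q : ℝ := qq V p with hqdef
  have hq0 : 0 ≤ q := qq_nonneg V p
  set b : ℝ := sg E ^ (1 - 1 / p) * K with hbdef
  have hb0 : 0 ≤ b := mul_nonneg (Real.rpow_nonneg sg_nonneg' _) hK
  obtain ⟨C, hC0, hC⟩ := hsob
  obtain ⟨D, hD0, hD⟩ := exists_ray V
  refine Trunc.closing' hp0 (fun η hη hη4 => ?_)
  -- the bound of `mass r`
  set C' : ℝ := (C * (q + 1)) ^ r with hC'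
  have hC'0 : 0 ≤ C' := Real.rpow_nonneg (by positivity) _
  have hTL : Tendsto (fun L : ℝ => L ^ (p - r) * C') atTop (𝓝 (0 * C')) := by
    refine Tendsto.mul_const _ ?_
    have := tendsto_rpow_neg_atTop (y := r - p) (by linarith)
    simpa [neg_sub] using this
  rw [zero_mul] at hTL
  obtain ⟨L, hL1, hLC⟩ : ∃ L : ℝ, 1 ≤ L ∧ L ^ (p - r) * C' ≤ η := by
    obtain ⟨L, hL⟩ := ((hTL.eventually (gt_mem_nhds hη)).and (eventually_ge_atTop (1:ℝ))).exists
    exact ⟨L, hL.2, hL.1.le⟩
  have hL0 : 0 < L := by linarith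
  set K' : ℝ := p * L ^ (p - 1) with hK'
  have hK'0 : 0 < K' := mul_pos hp0 (Real.rpow_pos_of_pos hL0 _)
  set M : ℝ := 2 * K' * (q + 1) / η + 1 with hM
  have hM0 : 0 < M := by positivity
  obtain ⟨R, hR, hRnm⟩ := hnm η hη
  set κ : ℝ := min (min 1 η) (min (η / (M * (D + 1))) (η / (2 * K' * (D + 1)))) with hκ
  have hκ0 : 0 < κ := by
    refine lt_min (lt_min one_pos hη) (lt_min ?_ ?_) <;> positivity
  have hκ1 : κ ≤ 1 := (min_le_left _ _).trans (min_le_left _ _)
  have hκη : κ ≤ η := (min_le_left _ _).trans (min_le_right _ _)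
  have hκM : M * (D + 1) * κ ≤ η := by
    have : κ ≤ η / (M * (D + 1)) := (min_le_right _ _).trans (min_le_left _ _)
    rw [le_div_iff₀ (by positivity)] at this
    linarith
  have hκK : 2 * K' * (D + 1) * κ ≤ η := by
    have : κ ≤ η / (2 * K' * (D + 1)) := (min_le_right _ _).trans (min_le_right _ _)
    rw [le_div_iff₀ (by positivity)] at this
    linarith
  obtain ⟨f, hf, hf1, hfTV, hft, hftn⟩ := hRnm κ hκ0
  obtain ⟨e, he, hray⟩ := hD f hf R hR M hM0.le
  set X : ℝ := sg E * (∫ s in Ioi (0 : ℝ), |deriv (fun s : ℝ => f (s • e)) s|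
          * rA (Module.finrank ℝ E - 1) V.w s) with hX
  set Y : ℝ := ∫ y in Metric.ball (0 : E) R, |f y - f (‖y‖ • e)| ∂(mu V) with hY
  set T : ℝ := ∫ y in Metric.ball (0 : E) R, ‖y‖ * tn y (gradient f y) ∂(mu V) with hT
  have hbX := ray_radial (R := R) h1 hK h hf he
  rw [← hX, ← hbdef] at hbX
  have hY0 : 0 ≤ Y := integral_nonneg (fun x => abs_nonneg _)
  have hI0 : 0 ≤ ∫ y in Metric.ball (0 : E) R, f (‖y‖ • e) ^ p ∂(mu V) :=
    integral_nonneg fun y => Real.rpow_nonneg (hf.2.2 _) _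
  have hX0 : 0 ≤ X := (mul_nonneg hb0 (Real.rpow_nonneg hI0 _)).trans hbX
  have hMDT : M * D * T ≤ M * D * κ := mul_le_mul_of_nonneg_left hftn (by positivity)
  have hMDκ : M * D * κ ≤ η := by nlinarith [mul_nonneg hM0.le hκ0.le]
  -- closeness
  have hcF : Continuous (fun y : E => f (‖y‖ • e)) :=
    hf.1.continuous.comp (continuous_norm.smul continuous_const)
  have hcompact : ∀ {g : E → ℝ}, Continuous g → IntegrableOn g (Metric.ball (0 : E) R) (mu V) := by
    intro g hg
    exact (hg.continuousOn.integrableOn_compact (isCompact_closedBall (0 : E) R)).mono_set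
      Metric.ball_subset_closedBall
  have hr1 : 1 ≤ r := by linarith
  have hcl := Trunc.integral_rpow_close (ν := (mu V).restrict (Metric.ball (0 : E) R)) (f := f)
    (F := fun y => f (‖y‖ • e)) (L := L) h1.le hL0 hpr.le hf.2.2 (fun y => hf.2.2 _)
    (fn_integrable_pow V hf h1.le).integrableOn
    (hcompact (hcF.rpow_const fun y => Or.inr hp0.le))
    (fn_integrable_pow V hf hr1).integrableOn
    (hcompact ((hf.1.continuous.sub hcF).abs))
  -- split the mass
  have hsplit : ∫ y in Metric.ball (0 : E) R, f y ^ p ∂(mu V) + tail V p R f = 1 := by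
    unfold tail
    rw [integral_add_compl Metric.isOpen_ball.measurableSet (fn_integrable_pow V hf h1.le)]
    exact hf1
  have hmr : ∫ y in Metric.ball (0 : E) R, f y ^ r ∂(mu V) ≤ C' := by
    have e1 : ∫ y in Metric.ball (0 : E) R, f y ^ r ∂(mu V) ≤ mass V r f :=
      setIntegral_le_integral (fn_integrable_pow V hf hr1)
        (Filter.Eventually.of_forall fun y => Real.rpow_nonneg (hf.2.2 y) _)
    have e2 : mass V r f ^ (1 / r) ≤ C * (q + 1) :=
      (hC f hf).trans (mul_le_mul_of_nonneg_left (by linarith) hC0.le)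
    have e3 : mass V r f = (mass V r f ^ (1 / r)) ^ r := by
      rw [← Real.rpow_mul (mass_nonneg V hf r), one_div_mul_cancel hr0.ne', Real.rpow_one]
    have e4 : mass V r f ≤ C' := by
      rw [e3]
      exact Real.rpow_le_rpow (Real.rpow_nonneg (mass_nonneg V hf r) _) e2 hr0.le
    exact e1.trans e4
  have hLr : L ^ (p - r) * ∫ y in Metric.ball (0 : E) R, f y ^ r ∂(mu V) ≤ η :=
    (mul_le_mul_of_nonneg_left hmr (Real.rpow_nonneg hL0.le _)).trans hLC
  -- bound of Y
  have hMY : M * Y ≤ (q + 1) + M * D * κ := by linarith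
  have hKY : K' * Y ≤ η := by
    have e1 : Y ≤ (q + 1) / M + D * κ := by
      rw [div_add' _ _ _ hM0.ne', le_div_iff₀ hM0]
      linarith
    have e2 : K' * ((q + 1) / M) ≤ η / 2 := by
      rw [mul_div_assoc', div_le_iff₀ hM0]
      have : η / 2 * M = K' * (q + 1) + η / 2 := by
        rw [hM]; field_simp
      rw [this]; linarith
    have e3 : K' * (D * κ) ≤ η / 2 := by
      nlinarith [mul_nonneg hK'0.le hκ0.le]
    calc K' * Y ≤ K' * ((q + 1) / M + D * κ) := mul_le_mul_of_nonneg_left e1 hK'0.le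
      _ = K' * ((q + 1) / M) + K' * (D * κ) := by ring
      _ ≤ η := by linarith
  have hFp : 1 - 3 * η ≤ ∫ y in Metric.ball (0 : E) R, f (‖y‖ • e) ^ p ∂(mu V) := by
    have h5 : p * L ^ (p - 1) * ∫ y in Metric.ball (0 : E) R, |f y - f (‖y‖ • e)| ∂(mu V) ≤ η := hKY
    linarith
  have hpos : 0 ≤ 1 - 3 * η := by linarith
  have h6 : b * (1 - 3 * η) ^ (1 / p) ≤ X := by
    refine le_trans ?_ hbX
    exact mul_le_mul_of_nonneg_left (Real.rpow_le_rpow hpos hFp (by positivity)) hb0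
  have h8 : 0 ≤ M * Y := mul_nonneg hM0.le hY0
  linarith

end

end Pool.Agent.Work.MP_3b24f6_gt
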