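import Pool.Agent.Work.MP_3b24f6_gt.Area
import Pool.Agent.Work.MP_3b24f6_gt.Delta
import Pool.Agent.Work.MP_3b24f6_gt.Calc
import Pool.Agent.Work.MP_3b24f6_gt.CalcN

/-! Invariance of volumes and areas of regular domains under the isometries `phi p`. -/

set_option autoImplicit false

open MeasureTheory Set Filter Topology
open scoped ContDiff InnerProductSpace

namespace Pool.Agent.Work.MP_3b24f6_gt

noncomputable section

variable {E : Type*} [NormedAddCommGroup E] [InnerProductSpace ℝ E] [FiniteDimensional ℝ E]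

theorem ii_comp_fderiv {f g : E → E} (hf : ContDiff ℝ ∞ f) (hg : ContDiff ℝ ∞ g)
    (gf : ∀ y, g (f y) = y) (y v : E) : fderiv ℝ g (f y) (fderiv ℝ f y v) = v := by
  have h1 : HasFDerivAt f (fderiv ℝ f y) y := (hf.differentiable (by simp) y).hasFDerivAt
  have h2 : HasFDerivAt g (fderiv ℝ g (f y)) (f y) :=
    (hg.differentiable (by simp) (f y)).hasFDerivAt
  have h3 := h2.comp y h1
  have h4 : g ∘ f = id := funext gf
  rw [h4] at h3
  have h5 := h3.unique (hasFDerivAt_id y)
  have := congrArg (fun L : E →L[ℝ] E => L v) h5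
  simpa using this

theorem ii_surj {f g : E → E} (hf : ContDiff ℝ ∞ f) (hg : ContDiff ℝ ∞ g)
    (fg : ∀ y, f (g y) = y) (gf : ∀ y, g (f y) = y) (y v : E) :
    ∃ u, fderiv ℝ f y u = v := by
  refine ⟨fderiv ℝ g (f y) v, ?_⟩
  have := ii_comp_fderiv hg hf fg (f y) v
  rwa [gf] at this

theorem ii_fderiv_comp {w : E → ℝ} {f : E → E} (hw : ContDiff ℝ ∞ w) (hf : ContDiff ℝ ∞ f)
    (y : E) : fderiv ℝ (w ∘ f) y = (fderiv ℝ w (f y)).comp (fderiv ℝ f y) :=
  fderiv_comp y (hw.differentiable (by simp) _) (hf.differentiable (by simp) _)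

theorem IsReg.comp_diffeo {w : E → ℝ} (hw : IsReg w) {f g : E → E} (hf : ContDiff ℝ ∞ f)
    (hg : ContDiff ℝ ∞ g) (fg : ∀ y, f (g y) = y) (gf : ∀ y, g (f y) = y) :
    IsReg (w ∘ f) where
  smooth := hw.smooth.comp hf
  cpt := by
    have : {x | (w ∘ f) x ≤ 0} = g '' {x | w x ≤ 0} := by
      ext x
      constructor
      · intro hx
        exact ⟨f x, hx, gf x⟩
      · rintro ⟨y, hy, rfl⟩
        have hy' : w y ≤ 0 := hy
        simpa [fg] using hy'
    rw [this]
    exact hw.cpt.image hg.continuous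
  reg := by
    intro x hx h0
    apply hw.reg (f x) hx
    ext v
    obtain ⟨u, hu⟩ := ii_surj hf hg fg gf x v
    rw [ii_fderiv_comp hw.smooth hf] at h0
    have := congrArg (fun L : E →L[ℝ] ℝ => L u) h0
    simpa [hu] using this

variable {G : Geo E} (h : Hom G)

theorem IsReg.comp_phi {w : E → ℝ} (hw : IsReg w) (p : E) : IsReg (w ∘ h.phi p) :=
  hw.comp_diffeo (h.smooth_phi p) (h.smooth_inv p) (h.phi_inv p) (h.inv_phi p)

theorem IsReg.comp_inv {w : E → ℝ} (hw : IsReg w) (p : E) : IsReg (w ∘ h.inv p) :=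
  hw.comp_diffeo (h.smooth_inv p) (h.smooth_phi p) (h.inv_phi p) (h.phi_inv p)

theorem Hom.grad_comp {w : E → ℝ} (hw : ContDiff ℝ ∞ w) (p y : E) :
    fderiv ℝ (h.phi p) y (G.grad (w ∘ h.phi p) y) = G.grad w (h.phi p y) := by
  by_contra hne
  have h1 := G.A_pos (h.phi p y) _ (sub_ne_zero.2 hne)
  have h2 : ∀ v, G.g (h.phi p y) (fderiv ℝ (h.phi p) y (G.grad (w ∘ h.phi p) y)
      - G.grad w (h.phi p y)) v = 0 := by
    intro v
    obtain ⟨u, hu⟩ := ii_surj (h.smooth_phi p) (h.smooth_inv p) (h.phi_inv p) (h.inv_phi p) y v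
    have h3 : G.g (h.phi p y) (fderiv ℝ (h.phi p) y (G.grad (w ∘ h.phi p) y)) v
        = fderiv ℝ w (h.phi p y) v := by
      rw [← hu, h.isom, g_grad, ii_fderiv_comp hw (h.smooth_phi p)]
      rfl
    have h4 : G.g (h.phi p y) (G.grad w (h.phi p y)) v = fderiv ℝ w (h.phi p y) v := g_grad ..
    have h5 : G.g (h.phi p y) (fderiv ℝ (h.phi p) y (G.grad (w ∘ h.phi p) y)
      - G.grad w (h.phi p y)) v = G.g (h.phi p y) (fderiv ℝ (h.phi p) y
        (G.grad (w ∘ h.phi p) y)) v - G.g (h.phi p y) (G.grad w (h.phi p y)) v := by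
      simp only [Geo.g, map_sub, inner_sub_left]
    rw [h5, h3, h4, sub_self]
  have h6 := h2 (fderiv ℝ (h.phi p) y (G.grad (w ∘ h.phi p) y) - G.grad w (h.phi p y))
  rw [Geo.g] at h6
  linarith

theorem ii_gn_eq (f : E → ℝ) (z : E) : G.gn f z = Real.sqrt (G.g z (G.grad f z) (G.grad f z)) := by
  rw [Geo.gn]
  congr 1
  rw [Geo.g, Geo.grad, G.AC, real_inner_comm]

theorem Hom.gn_comp {w : E → ℝ} (hw : ContDiff ℝ ∞ w) (p y : E) :
    G.gn (w ∘ h.phi p) y = G.gn w (h.phi p y) := by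
  rw [ii_gn_eq, ii_gn_eq, ← h.grad_comp hw p y, h.isom]

/-- `phi p` as a homeomorphism. -/
def Hom.homeo (p : E) : E ≃ₜ E where
  toFun := h.phi p
  invFun := h.inv p
  left_inv := h.inv_phi p
  right_inv := h.phi_inv p
  continuous_toFun := (h.smooth_phi p).continuous
  continuous_invFun := (h.smooth_inv p).continuous

theorem Hom.injective (p : E) : Function.Injective (h.phi p) := (h.homeo p).injective

theorem Hom.image_preimage (p : E) (D : Set E) : h.phi p '' (h.phi p ⁻¹' D) = D :=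
  Set.image_preimage_eq _ (h.homeo p).surjective

variable [MeasurableSpace E] [BorelSpace E]

theorem Hom.vol_comp (p : E) {D : Set E} (hD : MeasurableSet D) :
    G.vol (h.phi p ⁻¹' D) = G.vol D := by
  have hms : MeasurableSet (h.phi p ⁻¹' D) :=
    (h.smooth_phi p).continuous.measurable hD
  have key := lintegral_image_eq_lintegral_abs_det_fderiv_mul (μ := volume) (s := h.phi p ⁻¹' D)
    hms (f := h.phi p) (f' := fun y => fderiv ℝ (h.phi p) y)
    (fun y _ => ((h.smooth_phi p).differentiable (by simp) y).hasFDerivAt.hasFDerivWithinAt)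
    (h.injective p).injOn (fun z => ENNReal.ofReal (G.ρ z))
  rw [h.image_preimage] at key
  unfold Geo.vol
  rw [key]
  refine lintegral_congr fun y => ?_
  rw [← h.det p y, ← ENNReal.ofReal_mul (abs_nonneg _), mul_comm]

theorem Hom.integral_map (p : E) (F : E → ℝ) :
    ∫ y, |(fderiv ℝ (h.phi p) y).det| * F (h.phi p y) = ∫ x, F x := by
  have key := integral_image_eq_integral_abs_det_fderiv_smul (μ := volume) (s := univ)
    MeasurableSet.univ (f := h.phi p) (f' := fun y => fderiv ℝ (h.phi p) y)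
    (fun y _ => ((h.smooth_phi p).differentiable (by simp) y).hasFDerivAt.hasFDerivWithinAt)
    (h.injective p).injOn F
  have hr : range (h.phi p) = univ := (h.homeo p).surjective.range_eq
  rw [image_univ, hr] at key
  simp only [Measure.restrict_univ, smul_eq_mul] at key
  exact key.symm

/-- Change of variables for the boundary measures. -/
theorem Hom.integral_comp {w : E → ℝ} (hw : IsReg w) (p : E) {μ ν : Measure E}
    (hμ : IsDelta w μ) (hν : IsDelta (w ∘ h.phi p) ν) {f : E → ℝ} (hf : ContDiff ℝ ∞ f) :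
    ∫ y, f (h.phi p y) * (G.ρ y * G.gn (w ∘ h.phi p) y) ∂ν
      = ∫ x, f x * (G.ρ x * G.gn w x) ∂μ := by
  have hw' := hw.comp_phi h p
  have hsm : ∀ {v : E → ℝ}, IsReg v → ∀ {F : E → ℝ}, ContDiff ℝ ∞ F →
      ∀ᶠ x in 𝓝ˢ (surf v), ContDiffAt ℝ 1 (fun x => F x * (G.ρ x * G.gn v x)) x := by
    intro v hv F hF
    rw [eventually_nhdsSet_iff_forall]
    intro z hz
    have hc : Continuous (fun z => fderiv ℝ v z) := hv.smooth.continuous_fderiv (by simp)
    filter_upwards [hc.continuousAt.eventually_ne (hv.reg z hz)] with x hx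
    exact (hF.contDiffAt.mul (G.smooth_ρ.contDiffAt.mul (contDiffAt_gn G hv.smooth hx))).of_le
      (by exact_mod_cast le_top)
  have k1 := hμ.lim _ (hsm hw hf)
  have k2 := hν.lim _ (hsm hw' (hf.comp (h.smooth_phi p)))
  have hEq : ∀ ε : ℝ, ∫ x, (f ∘ h.phi p) x * (G.ρ x * G.gn (w ∘ h.phi p) x)
      * cutd ε ((w ∘ h.phi p) x) = ∫ x, f x * (G.ρ x * G.gn w x) * cutd ε (w x) := by
    intro ε
    rw [← h.integral_map p (fun x => f x * (G.ρ x * G.gn w x) * cutd ε (w x))]
    refine integral_congr_ae (Eventually.of_forall fun y => ?_)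
    simp only [Function.comp_apply]
    rw [h.gn_comp hw.smooth, ← h.det p y]
    ring
  simp only [hEq] at k2
  exact tendsto_nhds_unique k2 k1

theorem Hom.area_comp {w : E → ℝ} (hw : IsReg w) (p : E) :
    G.area {x | (w ∘ h.phi p) x < 0} = G.area {x | w x < 0} := by
  have hw' := hw.comp_phi h p
  obtain ⟨μ, hμ⟩ := exists_delta hw
  obtain ⟨ν, hν⟩ := exists_delta hw'
  rw [area_eq G hw hμ, area_eq G hw' hν]
  have := h.integral_comp hw p hμ hν (f := fun _ => 1) contDiff_const
  simp only [one_mul] at this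
  rw [this]

theorem Hom.vol_comp_reg {w : E → ℝ} (hw : IsReg w) (p : E) :
    G.vol {x | (w ∘ h.phi p) x < 0} = G.vol {x | w x < 0} :=
  h.vol_comp p (isOpen_lt hw.smooth.continuous continuous_const).measurableSet

end

end Pool.Agent.Work.MP_3b24f6_gt
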