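import Pool.Agent.Work.MP_3b24f6_gt.KDefs

/-! Algebra of a closed anticommuting family, and the traces used for the curvature. -/

set_option autoImplicit false

open MeasureTheory Set Filter Topology
open scoped ContDiff InnerProductSpace

namespace Pool.Agent.Work.MP_3b24f6_gt

noncomputable section

variable {E : Type*} [NormedAddCommGroup E] [InnerProductSpace ℝ E] {w : ℕ}

namespace KStr

variable (S : KStr E w)

theorem inner_JJ (a : Fin w) (x y : E) : ⟪S.J a x, S.J a y⟫_ℝ = ⟪x, y⟫_ℝ := by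
  have h := LinearIsometry.inner_map_map
    (⟨(S.J a : E →ₗ[ℝ] E), S.norm_J a⟩ : E →ₗᵢ[ℝ] E) x y
  exact h

theorem inner_J_left (a : Fin w) (x y : E) : ⟪S.J a x, y⟫_ℝ = -⟪x, S.J a y⟫_ℝ := by
  have h := S.inner_JJ a x (S.J a y)
  rw [S.JJ, inner_neg_right] at h
  linarith

theorem inner_J_right (a : Fin w) (x y : E) : ⟪x, S.J a y⟫_ℝ = -⟪S.J a x, y⟫_ℝ := by
  rw [S.inner_J_left, neg_neg]

theorem inner_J_self (a : Fin w) (x : E) : ⟪S.J a x, x⟫_ℝ = 0 := by
  have h := S.inner_J_left a x x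
  rw [real_inner_comm] at h
  have h2 : ⟪x, S.J a x⟫_ℝ = ⟪S.J a x, x⟫_ℝ := real_inner_comm _ _
  linarith

theorem inner_self_J (a : Fin w) (x : E) : ⟪x, S.J a x⟫_ℝ = 0 := by
  rw [real_inner_comm, S.inner_J_self]

theorem inner_J_J_self {a b : Fin w} (hab : a ≠ b) (x : E) : ⟪S.J a x, S.J b x⟫_ℝ = 0 := by
  have h1 : ⟪S.J a x, S.J b x⟫_ℝ = -⟪x, S.J a (S.J b x)⟫_ℝ := S.inner_J_left a x _
  have h2 : ⟪S.J b x, S.J a x⟫_ℝ = -⟪x, S.J b (S.J a x)⟫_ℝ := S.inner_J_left b x _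
  rw [S.anti a b hab, inner_neg_right] at h1
  rw [real_inner_comm] at h2
  linarith

theorem inner_J_J (a b : Fin w) (x : E) :
    ⟪S.J a x, S.J b x⟫_ℝ = if a = b then ‖x‖ ^ 2 else 0 := by
  split_ifs with h
  · subst h
    rw [S.inner_JJ, real_inner_self_eq_norm_sq]
  · exact S.inner_J_J_self h x

variable [Nontrivial E]

theorem J_ne_one (a : Fin w) : ¬ (∀ x, S.J a x = x) := by
  intro h
  obtain ⟨x, hx⟩ := exists_ne (0 : E)
  have h1 := S.JJ a x
  rw [h, h] at h1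
  have : (2 : ℝ) • x = 0 := by
    rw [two_smul]
    nth_rewrite 1 [h1]
    simp
  rcases smul_eq_zero.mp this with h2 | h2
  · norm_num at h2
  · exact hx h2

theorem J_ne_neg_one (a : Fin w) : ¬ (∀ x, S.J a x = -x) := by
  intro h
  obtain ⟨x, hx⟩ := exists_ne (0 : E)
  have h1 := S.JJ a x
  rw [h, h, neg_neg] at h1
  have : (2 : ℝ) • x = 0 := by
    rw [two_smul]
    nth_rewrite 1 [h1]
    simp
  rcases smul_eq_zero.mp this with h2 | h2
  · norm_num at h2
  · exact hx h2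

theorem J_inj {a b : Fin w} (h : (∀ x, S.J a x = S.J b x) ∨ (∀ x, S.J a x = -S.J b x)) :
    a = b := by
  by_contra hab
  obtain ⟨x, hx⟩ := exists_ne (0 : E)
  have h1 := S.inner_J_J_self hab x
  have h2 : ⟪S.J b x, S.J b x⟫_ℝ = ‖x‖ ^ 2 := by
    rw [S.inner_JJ, real_inner_self_eq_norm_sq]
  have h3 : 0 < ‖x‖ ^ 2 := by positivity
  rcases h with h | h
  · rw [h x, h2] at h1
    linarith
  · rw [h x, inner_neg_left, h2] at h1
    linarith

/-- Right multiplication by `J b` permutes the family up to signs. -/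
theorem exists_perm (b : Fin w) : ∃ g : Equiv.Perm (Fin w), g b = b ∧ ∀ a, a ≠ b →
    ((∀ x, S.J a (S.J b x) = S.J (g a) x) ∨ (∀ x, S.J a (S.J b x) = -S.J (g a) x)) := by
  classical
  choose! c hc using fun a => S.closed a b
  have key : ∀ a, a ≠ b → (∀ x, S.J a x = S.J (c a) (-S.J b x)) ∨
      (∀ x, S.J a x = -S.J (c a) (-S.J b x)) := by
    intro a ha
    rcases hc a ha with h | h
    · left
      intro x
      have := h (-S.J b x)
      rw [map_neg, S.JJ, neg_neg] at this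
      rw [← this]
    · right
      intro x
      have := h (-S.J b x)
      rw [map_neg, S.JJ, neg_neg] at this
      rw [← this]
  have hcb : ∀ a, a ≠ b → c a ≠ b := by
    intro a ha hcab
    rcases key a ha with h | h
    · refine S.J_ne_one a fun x => ?_
      rw [h x, hcab, map_neg, S.JJ, neg_neg]
    · refine S.J_ne_neg_one a fun x => ?_
      rw [h x, hcab, map_neg, S.JJ, neg_neg]
  let g : Fin w → Fin w := fun a => if a = b then b else c a
  have hg : Function.Injective g := by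
    intro a a' haa
    by_cases ha : a = b
    · by_cases ha' : a' = b
      · rw [ha, ha']
      · exfalso
        have h1 : g a = b := by simp [g, ha]
        have h2 : g a' = c a' := by simp [g, ha']
        exact hcb a' ha' (by rw [← h2, ← haa, h1])
    · by_cases ha' : a' = b
      · exfalso
        have h1 : g a' = b := by simp [g, ha']
        have h2 : g a = c a := by simp [g, ha]
        exact hcb a ha (by rw [← h2, haa, h1])
      · have h1 : g a' = c a' := by simp [g, ha']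
        have h2 : g a = c a := by simp [g, ha]
        have h3 : c a = c a' := by rw [← h1, ← h2, haa]
        apply S.J_inj
        rcases key a ha with h | h <;> rcases key a' ha' with h' | h'
        · left; intro x; rw [h x, h' x, h3]
        · right; intro x; rw [h x, h' x, h3, neg_neg]
        · right; intro x; rw [h x, h' x, h3]
        · left; intro x; rw [h x, h' x, h3]
  refine ⟨Equiv.ofBijective g (Finite.injective_iff_bijective.mp hg), by simp [g], ?_⟩
  intro a ha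
  have h2 : g a = c a := by simp [g, ha]
  rw [Equiv.ofBijective_apply, h2]
  exact hc a ha

/-- The cross terms of the Christoffel map cancel. -/
theorem cross (z x u : E) (b : Fin w) :
    ∑ a, (⟪S.J a z, u⟫_ℝ * ⟪S.J b z, S.J a x⟫_ℝ + ⟪S.J a z, x⟫_ℝ * ⟪S.J b z, S.J a u⟫_ℝ)
      = ⟪S.J b z, u⟫_ℝ * ⟪z, x⟫_ℝ + ⟪S.J b z, x⟫_ℝ * ⟪z, u⟫_ℝ := by
  classical
  obtain ⟨g, hgb, hg⟩ := S.exists_perm b
  set f : Fin w → ℝ := fun a =>
    ⟪S.J a z, u⟫_ℝ * ⟪S.J b z, S.J a x⟫_ℝ + ⟪S.J a z, x⟫_ℝ * ⟪S.J b z, S.J a u⟫_ℝ with hf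
  have hb : f b = ⟪S.J b z, u⟫_ℝ * ⟪z, x⟫_ℝ + ⟪S.J b z, x⟫_ℝ * ⟪z, u⟫_ℝ := by
    simp only [hf, S.inner_JJ]
  have hga : ∀ a, a ≠ b → f (g a) = - f a := by
    intro a ha
    have e1 : ∀ y : E, ⟪S.J b z, S.J a y⟫_ℝ = -⟪S.J a (S.J b z), y⟫_ℝ := by
      intro y; rw [S.inner_J_right]
    have e2 : ∀ y : E, ⟪S.J b z, S.J a (S.J b y)⟫_ℝ = ⟪S.J a z, y⟫_ℝ := by
      intro y
      rw [S.anti a b ha, inner_neg_right, S.inner_JJ, S.inner_J_right, neg_neg]
    rcases hg a ha with h | h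
    · simp only [hf, ← h]
      rw [e2 x, e2 u, e1 x, e1 u]
      ring
    · have h' : ∀ y, S.J (g a) y = -S.J a (S.J b y) := by
        intro y; rw [h y, neg_neg]
      simp only [hf, h', inner_neg_left, inner_neg_right]
      rw [e2 x, e2 u, e1 x, e1 u]
      ring
  have hsum : ∑ a, f a = ∑ a, f (g a) := (Equiv.sum_comp g f).symm
  have hsplit : ∀ F : Fin w → ℝ, ∑ a, F a = F b + ∑ a ∈ Finset.univ.erase b, F a := by
    intro F
    rw [Finset.add_sum_erase _ _ (Finset.mem_univ b)]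
  have h1 := hsplit f
  have h2 := hsplit (fun a => f (g a))
  have h3 : ∑ a ∈ Finset.univ.erase b, f (g a) = - ∑ a ∈ Finset.univ.erase b, f a := by
    rw [← Finset.sum_neg_distrib]
    exact Finset.sum_congr rfl fun a ha => hga a (Finset.ne_of_mem_erase ha)
  simp only [hgb] at h2
  rw [h3] at h2
  rw [← hb]
  linarith

/-- The identity behind the Ricci curvature. -/
theorem cross2 (z v : E) (k : Fin w) :
    ∑ a, (⟪S.J a z, S.J k v⟫_ℝ * ⟪S.J k z, S.J a v⟫_ℝ
      + ⟪S.J a z, v⟫_ℝ * ⟪S.J k z, S.J a (S.J k v)⟫_ℝ)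
      = ⟪z, v⟫_ℝ ^ 2 - ⟪S.J k z, v⟫_ℝ ^ 2 := by
  classical
  obtain ⟨g, hgb, hg⟩ := S.exists_perm k
  set F : Fin w → ℝ := fun a => ⟪S.J a z, v⟫_ℝ ^ 2 with hF
  have hterm : ∀ a, a ≠ k → ⟪S.J a z, S.J k v⟫_ℝ * ⟪S.J k z, S.J a v⟫_ℝ
      + ⟪S.J a z, v⟫_ℝ * ⟪S.J k z, S.J a (S.J k v)⟫_ℝ = F a - F (g a) := by
    intro a ha
    have e1 : ⟪S.J a z, S.J k v⟫_ℝ = ⟪S.J a (S.J k z), v⟫_ℝ := by
      rw [S.inner_J_right, S.anti a k ha, inner_neg_left]
    have e2 : ⟪S.J k z, S.J a v⟫_ℝ = -⟪S.J a (S.J k z), v⟫_ℝ := by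
      rw [S.inner_J_right]
    have e3 : ⟪S.J k z, S.J a (S.J k v)⟫_ℝ = ⟪S.J a z, v⟫_ℝ := by
      rw [S.anti a k ha, inner_neg_right, S.inner_JJ, S.inner_J_right, neg_neg]
    have e4 : F (g a) = ⟪S.J a (S.J k z), v⟫_ℝ ^ 2 := by
      rcases hg a ha with h | h
      · simp only [hF, ← h]
      · have h' : S.J (g a) z = -S.J a (S.J k z) := by rw [h z, neg_neg]
        simp only [hF, h', inner_neg_left]
        ring
    rw [e1, e2, e3, e4]
    simp only [hF]
    ring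
  have hsplit : ∀ f : Fin w → ℝ, ∑ a, f a = f k + ∑ a ∈ Finset.univ.erase k, f a := by
    intro f
    rw [Finset.add_sum_erase _ _ (Finset.mem_univ k)]
  rw [hsplit]
  rw [Finset.sum_congr rfl fun a ha => hterm a (Finset.ne_of_mem_erase ha),
    Finset.sum_sub_distrib]
  have hsum : ∑ a, F (g a) = ∑ a, F a := Equiv.sum_comp g F
  rw [hsplit F, hsplit (fun a => F (g a))] at hsum
  simp only [hgb] at hsum
  rw [S.inner_JJ, S.inner_JJ]
  have : ∑ a ∈ Finset.univ.erase k, F (g a) = ∑ a ∈ Finset.univ.erase k, F a := by linarith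
  rw [this, S.inner_J_right]
  ring

end KStr

section traces

variable {F : Type*} [NormedAddCommGroup F] [InnerProductSpace ℝ F] [FiniteDimensional ℝ F]

theorem ktr_add (T T' : F →L[ℝ] F) : tr (T + T') = tr T + tr T' := by
  unfold tr
  rw [ContinuousLinearMap.toLinearMap_add, map_add]

theorem ktr_neg (T : F →L[ℝ] F) : tr (-T) = -tr T := by
  unfold tr
  rw [ContinuousLinearMap.toLinearMap_neg, map_neg]

theorem ktr_sub (T T' : F →L[ℝ] F) : tr (T - T') = tr T - tr T' := by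
  rw [sub_eq_add_neg, ktr_add, ktr_neg, sub_eq_add_neg]

theorem ktr_smul (c : ℝ) (T : F →L[ℝ] F) : tr (c • T) = c * tr T := by
  unfold tr
  rw [ContinuousLinearMap.toLinearMap_smul, map_smul, smul_eq_mul]

theorem ktr_sum {ι : Type*} (s : Finset ι) (T : ι → F →L[ℝ] F) :
    tr (∑ i ∈ s, T i) = ∑ i ∈ s, tr (T i) := by
  classical
  induction s using Finset.induction_on with
  | empty => simp [tr]
  | insert a s ha ih => rw [Finset.sum_insert ha, Finset.sum_insert ha, ktr_add, ih]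

theorem ktr_id : tr (ContinuousLinearMap.id ℝ F) = Module.finrank ℝ F := by
  unfold tr
  rw [ContinuousLinearMap.coe_id, LinearMap.trace_id]

theorem ktr_rank (l p : F) : tr ((innerSL ℝ l).smulRight p) = ⟪l, p⟫_ℝ := by
  have h : (((innerSL ℝ l).smulRight p : F →L[ℝ] F) : F →ₗ[ℝ] F)
      = ((innerSL ℝ l : F →L[ℝ] ℝ) : F →ₗ[ℝ] ℝ).smulRight p := by
    ext x; simp
  unfold tr
  rw [h, LinearMap.trace_smulRight]
  simp

theorem ktr_comp_rank (T : F →L[ℝ] F) (l p : F) :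
    tr (T.comp ((innerSL ℝ l).smulRight p)) = ⟪l, T p⟫_ℝ := by
  rw [← ktr_rank]
  congr 1
  ext x; simp

theorem ktr_comp_comm (T T' : F →L[ℝ] F) : tr (T.comp T') = tr (T'.comp T) := by
  unfold tr
  rw [ContinuousLinearMap.toLinearMap_comp, ContinuousLinearMap.toLinearMap_comp]
  exact LinearMap.trace_comp_comm' _ _

theorem ktr_rank_comp (T : F →L[ℝ] F) (l p : F) :
    tr (((innerSL ℝ l).smulRight p).comp T) = ⟪l, T p⟫_ℝ := by
  rw [ktr_comp_comm, ktr_comp_rank]

theorem ktr_eq_sum (T : F →L[ℝ] F) :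
    tr T = ∑ i, ⟪stdOrthonormalBasis ℝ F i, T (stdOrthonormalBasis ℝ F i)⟫_ℝ := by
  unfold tr
  rw [LinearMap.trace_eq_sum_inner _ (stdOrthonormalBasis ℝ F)]
  rfl

theorem KStr.tr_J (S : KStr F w) (a : Fin w) : tr (S.J a) = 0 := by
  rw [ktr_eq_sum]
  exact Finset.sum_eq_zero fun i _ => S.inner_self_J a _

end traces

end

end Pool.Agent.Work.MP_3b24f6_gt
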