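import Pool.Agent.Work.MP_3b24f6_gt.KRic

/-! The hyperbolic spaces over `ℂ` and `ℍ` as instances of `Geo` and `Rad`. -/

set_option autoImplicit false
set_option linter.unusedSectionVars false

open MeasureTheory Set Filter Topology
open scoped ContDiff InnerProductSpace

namespace Pool.Agent.Work.MP_3b24f6_gt

noncomputable section

variable {E : Type*} [NormedAddCommGroup E] [InnerProductSpace ℝ E] [FiniteDimensional ℝ E]
  {w : ℕ}

/-- The Riemannian data of the hyperbolic space over `ℂ` (`w = 1`) or `ℍ` (`w = 3`). -/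
def kGeo [Nontrivial E] (S : KStr E w) (hw : 1 ≤ w) : Geo E where
  A := kA S
  C := kC S
  Γ := kGam S
  ρ := krho w
  R := (Module.finrank ℝ E - 1) + 3 * w
  smooth_A := contDiff_kA S
  smooth_C := contDiff_kC S
  smooth_Γ := contDiff_kGam S
  smooth_ρ := contDiff_krho w
  A_symm := kA_symm S
  A_pos := kA_pos S
  AC := kA_kC S
  Γ_symm := kGam_symm S
  compat := kcompat S
  ρ_pos := krho_pos w
  ρ_deriv := krho_deriv hw S
  ric := kric S

theorem tr_kC (S : KStr E w) (z : E) :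
    tr (kC S z) = uu z ^ 2 + (Module.finrank ℝ E - 1) - w + w / uu z ^ 2 := by
  rw [kC, ktr_sub, ktr_add, ktr_id, ktr_rank, ktr_smul, ktr_sum]
  simp only [ktr_rank, S.inner_JJ]
  rw [Finset.sum_const, Finset.card_univ, Fintype.card_fin, nsmul_eq_mul,
    real_inner_self_eq_norm_sq]
  have hU : ‖z‖ ^ 2 = uu z ^ 2 - 1 := by rw [uu_sq_eq]; ring
  rw [hU]
  have h0 := (uu_pos' z).ne'
  field_simp
  ring

theorem inner_kA_Jz (S : KStr E w) (z v : E) (a : Fin w) :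
    ⟪kA S z (S.J a z), v⟫_ℝ = uu z ^ 2 * ⟪S.J a z, v⟫_ℝ := by
  rw [kA_Jz, real_inner_smul_left]

theorem kkilling [Nontrivial E] (S : KStr E w) (z v : E) (a : Fin w) :
    ⟪kA S z (S.J a v + kGamL S z v (S.J a z)), v⟫_ℝ = 0 := by
  rw [map_add, inner_add_left, kA_kGam, inner_kA, inner_add_left, real_inner_smul_left, sum_inner,
    S.inner_J_self, S.inner_J_right a z v, S.inner_self_J, real_inner_comm (S.J a z) v]
  have e1 : ∀ c, ⟪⟪S.J c z, S.J a z⟫_ℝ • S.J c v + ⟪S.J c z, v⟫_ℝ • S.J c (S.J a z), v⟫_ℝ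
      = ⟪S.J c z, v⟫_ℝ * ⟪S.J c (S.J a z), v⟫_ℝ := by
    intro c
    rw [inner_add_left, real_inner_smul_left, real_inner_smul_left, S.inner_J_self]
    ring
  have e2 : ∀ c, ⟪S.J c z, S.J a v⟫_ℝ * ⟪S.J c z, v⟫_ℝ
      = ⟪S.J c z, v⟫_ℝ * ⟪S.J c (S.J a z), v⟫_ℝ
        + if c = a then 2 * ⟪S.J a z, v⟫_ℝ * ⟪z, v⟫_ℝ else 0 := by
    intro c
    split_ifs with hc
    · subst hc
      rw [S.inner_JJ, S.JJ, inner_neg_left]
      ring
    · rw [S.inner_J_right, S.anti a c (Ne.symm hc), inner_neg_left]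
      ring
  have e3 : ∑ c, ⟪S.J c z, v⟫_ℝ * ⟪S.J c (S.J a z), v⟫_ℝ = -(⟪S.J a z, v⟫_ℝ * ⟪z, v⟫_ℝ) := by
    have h := S.cross z v v a
    have h2 : ∑ c, (⟪S.J c z, v⟫_ℝ * ⟪S.J a z, S.J c v⟫_ℝ + ⟪S.J c z, v⟫_ℝ * ⟪S.J a z, S.J c v⟫_ℝ)
        = -2 * ∑ c, ⟪S.J c z, v⟫_ℝ * ⟪S.J c (S.J a z), v⟫_ℝ := by
      rw [Finset.mul_sum]
      refine Finset.sum_congr rfl fun c _ => ?_
      rw [S.inner_J_right]
      ring
    rw [h2] at h
    linarith
  simp only [e1, e2]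
  rw [Finset.sum_add_distrib, Finset.sum_ite_eq']
  simp only [Finset.mem_univ, if_true]
  rw [e3]
  ring

/-- Radial structure of the hyperbolic spaces over `ℂ` and `ℍ`. -/
def kRad [Nontrivial E] (S : KStr E w) (hw : 1 ≤ w) : Rad (kGeo S hw) (Fin w) where
  ξ := fun a z => S.J a z
  smooth_ξ := fun a => (S.J a).contDiff
  grad_u := by
    intro z v
    change ⟪kA S z (uu z • z), v⟫_ℝ = _
    rw [map_smul, kA_z, real_inner_smul_left, real_inner_smul_left]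
    have := (uu_pos' z).ne'
    field_simp
  hess_u := by
    intro z v
    have h1 : HasFDerivAt (fun y : E => uu y • y)
        (uu z • ContinuousLinearMap.id ℝ E + ((uu z)⁻¹ • innerSL ℝ z).smulRight z) z :=
      (kr_hasFDerivAt_uu z).smul (hasFDerivAt_id z)
    change fderiv ℝ (fun y => uu y • y) z v + kGamL S z v (uu z • z)
      = uu z • v + (uu z ^ 3)⁻¹ • ∑ a, ⟪kA S z (S.J a z), v⟫_ℝ • S.J a z
    rw [h1.fderiv, map_smul, kGam_z]
    simp only [inner_kA_Jz, add_apply, smul_apply, ContinuousLinearMap.smulRight_apply,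
      innerSL_apply_apply, ContinuousLinearMap.id_apply, smul_eq_mul]
    have h2 : ∑ a, (uu z ^ 2 * ⟪S.J a z, v⟫_ℝ) • S.J a z
        = uu z ^ 2 • ∑ a, ⟪S.J a z, v⟫_ℝ • S.J a z := by
      rw [Finset.smul_sum]
      exact Finset.sum_congr rfl fun a _ => by rw [smul_smul]
    rw [h2]
    have h0 := (uu_pos' z).ne'
    have h3 : (uu z ^ 3)⁻¹ * uu z ^ 2 = (uu z)⁻¹ := by field_simp
    have h4 : uu z * (uu z ^ 2)⁻¹ = (uu z)⁻¹ := by field_simp
    rw [smul_smul, smul_smul, h3, h4]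
    module
  killing := by
    intro a z v
    change ⟪kA S z (fderiv ℝ (fun y => S.J a y) z v + kGamL S z v (S.J a z)), v⟫_ℝ = 0
    have : fderiv ℝ (fun y => S.J a y) z = S.J a := (S.J a).fderiv
    rw [this]
    exact kkilling S z v a
  ξξ := by
    intro a b z
    change ⟪kA S z (S.J a z), S.J b z⟫_ℝ = _
    rw [inner_kA_Jz, S.inner_J_J]
    have hU : ‖z‖ ^ 2 = uu z ^ 2 - 1 := by rw [uu_sq_eq]; ring
    rw [hU]
    split_ifs <;> ring
  ξz := by
    intro a z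
    change ⟪kA S z (S.J a z), z⟫_ℝ = 0
    rw [inner_kA_Jz, S.inner_J_self, mul_zero]
  g_eq := by
    intro z v
    change ⟪kA S z v, v⟫_ℝ = ‖v‖ ^ 2 - ⟪z, v⟫_ℝ ^ 2 / uu z ^ 2
      + (uu z ^ 4)⁻¹ * ∑ a, ⟪kA S z (S.J a z), v⟫_ℝ ^ 2
    simp only [inner_kA_Jz]
    rw [inner_kA, real_inner_self_eq_norm_sq, Finset.mul_sum]
    have h0 := (uu_pos' z).ne'
    have h1 : ∀ a, (uu z ^ 4)⁻¹ * (uu z ^ 2 * ⟪S.J a z, v⟫_ℝ) ^ 2
        = ⟪S.J a z, v⟫_ℝ * ⟪S.J a z, v⟫_ℝ := by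
      intro a
      field_simp
    simp only [h1]
    field_simp
  tr_C := by
    intro z
    change tr (kC S z) = _
    rw [tr_kC, Fintype.card_fin]
  R_eq := by
    change ((Module.finrank ℝ E : ℝ) - 1) + 3 * w = _
    rw [Fintype.card_fin]

theorem exists_geo_k (S : KStr E w) (hw : 1 ≤ w) (hE : 2 ≤ Module.finrank ℝ E) :
    ∃ G : Geo E, G.A = kA S ∧ G.C = kC S ∧ G.ρ = krho w ∧ Nonempty (Rad G (Fin w)) := by
  have : Nontrivial E := Module.nontrivial_of_finrank_pos (R := ℝ) (by omega)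
  exact ⟨kGeo S hw, rfl, rfl, rfl, ⟨kRad S hw⟩⟩

end

end Pool.Agent.Work.MP_3b24f6_gt
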