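import Pool.Agent.Work.MP_3b24f6_gt.KHom
import Pool.Agent.Work.MP_3b24f6_gt.KGeo

/-! All the data of track A for the hyperbolic spaces over `ℂ` and `ℍ`. -/

set_option autoImplicit false

open MeasureTheory Set Filter Topology
open scoped ContDiff InnerProductSpace

namespace Pool.Agent.Work.MP_3b24f6_gt

noncomputable section

variable {E : Type*} [NormedAddCommGroup E] [InnerProductSpace ℝ E] [FiniteDimensional ℝ E]
  {w : ℕ}

/-- All the data of track A. -/
theorem exists_all_k (S : KStr E w) (hw : 1 ≤ w) (hE : 2 ≤ Module.finrank ℝ E) :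
    ∃ G : Geo E, G.A = kA S ∧ G.C = kC S ∧ G.ρ = krho w ∧ Nonempty (Rad G (Fin w)) ∧
      Contract G ∧ ∃ h : Hom G, h.chd = kchd S := by
  obtain ⟨G, hA, hC, hρ, hR⟩ := exists_geo_k S hw hE
  exact ⟨G, hA, hC, hρ, hR, contract_k S hE G hA hρ, exists_hom_k S hw G hA hρ⟩

end

end Pool.Agent.Work.MP_3b24f6_gt
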