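import Pool.Agent.Work.MP_3b24f6_gt.Model

/-! The hyperbolic spaces over `ℝ`, `ℂ`, `ℍ` in one chart: structure and formulas. -/

set_option autoImplicit false

open MeasureTheory Set Filter Topology
open scoped ContDiff InnerProductSpace

namespace Pool.Agent.Work.MP_3b24f6_gt

noncomputable section

/-- A closed anticommuting family of orthogonal complex structures (`w = 0, 1, 3`: a real, complex,
quaternionic vector space with a compatible inner product). -/
structure KStr (E : Type*) [NormedAddCommGroup E] [InnerProductSpace ℝ E] (w : ℕ) where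
  J : Fin w → E →L[ℝ] E
  norm_J : ∀ a x, ‖J a x‖ = ‖x‖
  JJ : ∀ a x, J a (J a x) = -x
  anti : ∀ a b, a ≠ b → ∀ x, J a (J b x) = -J b (J a x)
  closed : ∀ a b, a ≠ b → ∃ c, (∀ x, J a (J b x) = J c x) ∨ (∀ x, J a (J b x) = -J c x)

variable {E : Type*} [NormedAddCommGroup E] [InnerProductSpace ℝ E] {w : ℕ}

/-- Metric operator of the hyperbolic space in the chart `y = z/√(1-|z|²)`. -/
def kA (S : KStr E w) (z : E) : E →L[ℝ] E :=
  ContinuousLinearMap.id ℝ E - (uu z ^ 2)⁻¹ • (innerSL ℝ z).smulRight z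
    + ∑ a, (innerSL ℝ (S.J a z)).smulRight (S.J a z)

/-- Its inverse. -/
def kC (S : KStr E w) (z : E) : E →L[ℝ] E :=
  ContinuousLinearMap.id ℝ E + (innerSL ℝ z).smulRight z
    - (uu z ^ 2)⁻¹ • ∑ a, (innerSL ℝ (S.J a z)).smulRight (S.J a z)

/-- Volume density (for `1 ≤ w`). -/
def krho (w : ℕ) (z : E) : ℝ := uu z ^ (w - 1)

/-- `cosh` of the distance. -/
def kchd (S : KStr E w) (x y : E) : ℝ :=
  Real.sqrt ((uu x * uu y - ⟪x, y⟫_ℝ) ^ 2 + ∑ a, ⟪S.J a x, y⟫_ℝ ^ 2)

/-- First component of the transvection `(0,1) ↦ (p, u p)` applied to `(y, u y)`. -/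
def kv1 (S : KStr E w) (p y : E) : E :=
  y + (⟪p, y⟫_ℝ / (uu p + 1) + uu y) • p + ∑ a, (⟪S.J a p, y⟫_ℝ / (uu p + 1)) • S.J a p

/-- Real part of its last component. -/
def ka (p y : E) : ℝ := ⟪p, y⟫_ℝ + uu p * uu y

/-- Imaginary parts of its last component. -/
def kb (S : KStr E w) (a : Fin w) (p y : E) : ℝ := ⟪S.J a p, y⟫_ℝ

/-- The transvection of hyperbolic space taking `0` to `p`, in the chart. -/
def kphi (S : KStr E w) (p y : E) : E :=
  (Real.sqrt (ka p y ^ 2 + ∑ a, kb S a p y ^ 2))⁻¹ •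
    (ka p y • kv1 S p y - ∑ a, kb S a p y • S.J a (kv1 S p y))

end

end Pool.Agent.Work.MP_3b24f6_gt
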