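import Pool.Agent.Work.MP_3b24f6_gt.KAlg

/-! Christoffel map of the hyperbolic spaces over `ℂ` and `ℍ`. -/

set_option autoImplicit false

open MeasureTheory Set Filter Topology
open scoped ContDiff InnerProductSpace

namespace Pool.Agent.Work.MP_3b24f6_gt

noncomputable section

variable {E : Type*} [NormedAddCommGroup E] [InnerProductSpace ℝ E] {w : ℕ}

theorem uu_sq_eq (z : E) : uu z ^ 2 = 1 + ‖z‖ ^ 2 := by
  unfold uu
  rw [Real.sq_sqrt (by positivity)]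

theorem uu_pos' (z : E) : 0 < uu z := by
  unfold uu
  positivity

theorem uu_sq_pos' (z : E) : 0 < uu z ^ 2 := by
  have := uu_pos' z
  positivity

theorem contDiff_uu_sq : ContDiff ℝ ∞ (fun z : E => uu z ^ 2) := by
  have : (fun z : E => uu z ^ 2) = fun z => 1 + ‖z‖ ^ 2 := by
    funext z; exact uu_sq_eq z
  rw [this]
  exact contDiff_const.add (contDiff_norm_sq ℝ)

theorem contDiff_uu_sq_inv : ContDiff ℝ ∞ (fun z : E => (uu z ^ 2)⁻¹) :=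
  contDiff_uu_sq.inv fun z => (uu_sq_pos' z).ne'

theorem kg_contDiff_uu : ContDiff ℝ ∞ (fun z : E => uu z) := by
  unfold uu
  refine ContDiff.sqrt (contDiff_const.add (contDiff_norm_sq ℝ)) fun z => ?_
  positivity

theorem hasFDerivAt_uu_sq (z : E) :
    HasFDerivAt (fun z : E => uu z ^ 2) ((2 : ℝ) • innerSL ℝ z) z := by
  have : (fun z : E => uu z ^ 2) = fun z => 1 + ‖z‖ ^ 2 := by
    funext z; exact uu_sq_eq z
  rw [this]
  have h := (hasStrictFDerivAt_norm_sq z).hasFDerivAt.const_add (1 : ℝ)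
  refine h.congr_fderiv ?_
  ext y
  simp [two_smul]

theorem hasFDerivAt_uu_sq_inv (z : E) :
    HasFDerivAt (fun z : E => (uu z ^ 2)⁻¹) (-(2 * ((uu z ^ 2)⁻¹) ^ 2) • innerSL ℝ z) z := by
  have h := (hasDerivAt_inv (uu_sq_pos' z).ne').comp_hasFDerivAt z (hasFDerivAt_uu_sq z)
  refine h.congr_fderiv ?_
  ext y
  simp only [smul_apply, innerSL_apply_apply, smul_eq_mul]
  ring

/-- The Christoffel map, partially applied. -/
def kGamL (S : KStr E w) (z x : E) : E →L[ℝ] E :=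
  (innerSL ℝ (-x + ((uu z ^ 2)⁻¹ * ⟪z, x⟫_ℝ) • z
      - (2 : ℝ) • ∑ a, ⟪S.J a z, x⟫_ℝ • S.J a z)).smulRight z
    + ∑ a, ((innerSL ℝ (S.J a z)).smulRight (S.J a x) + ⟪S.J a z, x⟫_ℝ • S.J a)
    - (uu z ^ 2)⁻¹ • ∑ a, (innerSL ℝ (⟪z, x⟫_ℝ • S.J a z + ⟪S.J a z, x⟫_ℝ • z)).smulRight
        (S.J a z)

theorem kGamL_apply (S : KStr E w) (z x u : E) :
    kGamL S z x u = (-⟪x, u⟫_ℝ + (uu z ^ 2)⁻¹ * (⟪z, x⟫_ℝ * ⟪z, u⟫_ℝ)
        - 2 * ∑ a, ⟪S.J a z, x⟫_ℝ * ⟪S.J a z, u⟫_ℝ) • z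
      + ∑ a, (⟪S.J a z, u⟫_ℝ • S.J a x + ⟪S.J a z, x⟫_ℝ • S.J a u)
      - (uu z ^ 2)⁻¹ • ∑ a, (⟪z, x⟫_ℝ * ⟪S.J a z, u⟫_ℝ + ⟪S.J a z, x⟫_ℝ * ⟪z, u⟫_ℝ) • S.J a z := by
  simp only [kGamL, add_apply, sub_apply,
    smul_apply, sum_apply,
    ContinuousLinearMap.smulRight_apply, innerSL_apply_apply, inner_add_left, inner_sub_left,
    inner_neg_left, real_inner_smul_left, sum_inner, mul_assoc]

variable [FiniteDimensional ℝ E]

/-- The Christoffel map. -/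
def kGam (S : KStr E w) (z : E) : E →L[ℝ] E →L[ℝ] E :=
  LinearMap.toContinuousLinearMap
    { toFun := kGamL S z
      map_add' := by
        intro x y
        ext u
        simp only [kGamL_apply, add_apply, inner_add_left, inner_add_right,
          map_add, mul_add, add_mul, Finset.sum_add_distrib, smul_add, add_smul]
        module
      map_smul' := by
        intro c x
        ext u
        simp only [kGamL_apply, smul_apply, RingHom.id_apply,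
          real_inner_smul_left, real_inner_smul_right, map_smul]
        have h1 : ∑ a, c * ⟪S.J a z, x⟫_ℝ * ⟪S.J a z, u⟫_ℝ
            = c * ∑ a, ⟪S.J a z, x⟫_ℝ * ⟪S.J a z, u⟫_ℝ := by
          rw [Finset.mul_sum]
          exact Finset.sum_congr rfl fun a _ => by ring
        have h2 : ∑ a, (⟪S.J a z, u⟫_ℝ • c • S.J a x + (c * ⟪S.J a z, x⟫_ℝ) • S.J a u)
            = c • ∑ a, (⟪S.J a z, u⟫_ℝ • S.J a x + ⟪S.J a z, x⟫_ℝ • S.J a u) := by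
          rw [Finset.smul_sum]
          exact Finset.sum_congr rfl fun a _ => by module
        have h3 : ∑ a, (c * ⟪z, x⟫_ℝ * ⟪S.J a z, u⟫_ℝ + c * ⟪S.J a z, x⟫_ℝ * ⟪z, u⟫_ℝ) • S.J a z
            = c • ∑ a, (⟪z, x⟫_ℝ * ⟪S.J a z, u⟫_ℝ + ⟪S.J a z, x⟫_ℝ * ⟪z, u⟫_ℝ) • S.J a z := by
          rw [Finset.smul_sum]
          exact Finset.sum_congr rfl fun a _ => by module
        rw [h1, h2, h3]
        module }

theorem kGam_apply (S : KStr E w) (z x u : E) :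
    kGam S z x u = (-⟪x, u⟫_ℝ + (uu z ^ 2)⁻¹ * (⟪z, x⟫_ℝ * ⟪z, u⟫_ℝ)
        - 2 * ∑ a, ⟪S.J a z, x⟫_ℝ * ⟪S.J a z, u⟫_ℝ) • z
      + ∑ a, (⟪S.J a z, u⟫_ℝ • S.J a x + ⟪S.J a z, x⟫_ℝ • S.J a u)
      - (uu z ^ 2)⁻¹ • ∑ a, (⟪z, x⟫_ℝ * ⟪S.J a z, u⟫_ℝ + ⟪S.J a z, x⟫_ℝ * ⟪z, u⟫_ℝ) • S.J a z :=
  kGamL_apply S z x u

theorem kGam_eq (S : KStr E w) (z x : E) : kGam S z x = kGamL S z x := rfl

theorem kGam_symm (S : KStr E w) (z x u : E) : kGam S z x u = kGam S z u x := by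
  rw [kGam_apply, kGam_apply]
  have h1 : ∑ a, ⟪S.J a z, u⟫_ℝ * ⟪S.J a z, x⟫_ℝ = ∑ a, ⟪S.J a z, x⟫_ℝ * ⟪S.J a z, u⟫_ℝ :=
    Finset.sum_congr rfl fun a _ => by ring
  have h2 : ∑ a, (⟪S.J a z, x⟫_ℝ • S.J a u + ⟪S.J a z, u⟫_ℝ • S.J a x)
      = ∑ a, (⟪S.J a z, u⟫_ℝ • S.J a x + ⟪S.J a z, x⟫_ℝ • S.J a u) :=
    Finset.sum_congr rfl fun a _ => by abel
  have h3 : ∑ a, (⟪z, u⟫_ℝ * ⟪S.J a z, x⟫_ℝ + ⟪S.J a z, u⟫_ℝ * ⟪z, x⟫_ℝ) • S.J a z
      = ∑ a, (⟪z, x⟫_ℝ * ⟪S.J a z, u⟫_ℝ + ⟪S.J a z, x⟫_ℝ * ⟪z, u⟫_ℝ) • S.J a z :=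
    Finset.sum_congr rfl fun a _ => by ring_nf
  rw [h1, h2, h3, real_inner_comm u x, mul_comm (⟪z, u⟫_ℝ) (⟪z, x⟫_ℝ)]

theorem contDiff_kGam (S : KStr E w) : ContDiff ℝ ∞ (kGam S) := by
  rw [contDiff_clm_apply_iff]
  intro x
  rw [contDiff_clm_apply_iff]
  intro u
  simp only [kGam_apply]
  have h := contDiff_uu_sq_inv (E := E)
  have hi : ∀ v : E, ContDiff ℝ ∞ (fun z : E => ⟪z, v⟫_ℝ) := fun v =>
    contDiff_id.inner ℝ contDiff_const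
  have hJ : ∀ (a : Fin w) (v : E), ContDiff ℝ ∞ (fun z : E => ⟪S.J a z, v⟫_ℝ) := fun a v =>
    (S.J a).contDiff.inner ℝ contDiff_const
  refine ((ContDiff.smul ?_ contDiff_id).add (ContDiff.sum fun a _ => ?_)).sub
    (h.smul (ContDiff.sum fun a _ => ?_))
  · exact (contDiff_const.add (h.mul ((hi x).mul (hi u)))).sub
      (contDiff_const.mul (ContDiff.sum fun a _ => (hJ a x).mul (hJ a u)))
  · exact ((hJ a u).smul contDiff_const).add ((hJ a x).smul contDiff_const)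
  · exact (((hi x).mul (hJ a u)).add ((hJ a x).mul (hi u))).smul (S.J a).contDiff

end

end Pool.Agent.Work.MP_3b24f6_gt
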