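import Pool.Agent.Work.MP_3b24f6_gt.KPhi
import Pool.Agent.Work.MP_3b24f6_gt.DetChA

/-! Homogeneity and contraction for the hyperbolic spaces over `ℝ`, `ℂ`, `ℍ`. -/

set_option autoImplicit false
set_option linter.unusedSectionVars false

open MeasureTheory Set Filter Topology
open scoped ContDiff InnerProductSpace

namespace Pool.Agent.Work.MP_3b24f6_gt

noncomputable section

namespace KIso

open CIso (uu_sq one_le_uu uu_pos uu_zero uu_neg contDiff_uu contDiff_inner_left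
  one_le_uu_mul_sub hasDerivAt_uu_line hasDerivAt_uu_comp inner_sq_le)

section basic
variable {E : Type*} [NormedAddCommGroup E] [InnerProductSpace ℝ E] {w : ℕ} (S : KStr E w)

theorem one_le_kchd (x y : E) : 1 ≤ kchd S x y := by
  unfold kchd
  apply Real.one_le_sqrt.mpr
  have := one_le_uu_mul_sub x y
  have h2 : 0 ≤ ∑ a, ⟪S.J a x, y⟫_ℝ ^ 2 := Finset.sum_nonneg fun a _ => sq_nonneg _
  nlinarith

theorem sub_le_kchd (x y : E) : uu x * uu y - ⟪x, y⟫_ℝ ≤ kchd S x y := by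
  unfold kchd
  apply Real.le_sqrt_of_sq_le
  have h2 : 0 ≤ ∑ a, ⟪S.J a x, y⟫_ℝ ^ 2 := Finset.sum_nonneg fun a _ => sq_nonneg _
  linarith

theorem kchd_zero_left (y : E) : kchd S 0 y = uu y := by
  unfold kchd
  simp [Real.sqrt_sq (uu_pos y).le]

theorem contDiff_kchd : ContDiff ℝ ∞ (fun q : E × E => kchd S q.1 q.2) := by
  unfold kchd
  refine ContDiff.sqrt ?_ ?_
  · refine ContDiff.add (ContDiff.pow (ContDiff.sub ?_ ?_) 2)
      (ContDiff.sum fun a _ => ContDiff.pow ?_ 2)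
    · exact (contDiff_uu.comp contDiff_fst).mul (contDiff_uu.comp contDiff_snd)
    · exact contDiff_fst.inner ℝ contDiff_snd
    · exact ((S.J a).contDiff.comp contDiff_fst).inner ℝ contDiff_snd
  · intro q
    have := one_le_uu_mul_sub q.1 q.2
    have h2 : 0 ≤ ∑ a, ⟪S.J a q.1, q.2⟫_ℝ ^ 2 := Finset.sum_nonneg fun a _ => sq_nonneg _
    nlinarith

theorem hasDerivAt_kchd_line (e y : E) :
    HasDerivAt (fun t : ℝ => kchd S (t • e) y) (-⟪e, y⟫_ℝ) 0 := by
  have hy := uu_pos y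
  have h1 : HasDerivAt (fun t : ℝ => uu (t • e) * uu y - t * ⟪e, y⟫_ℝ)
      (0 * uu y - 1 * ⟪e, y⟫_ℝ) 0 :=
    ((hasDerivAt_uu_line e).mul_const (uu y)).sub
      ((hasDerivAt_id' (0 : ℝ)).mul_const ⟪e, y⟫_ℝ)
  have h2 : HasDerivAt (fun t : ℝ => t ^ 2 * ∑ a, ⟪S.J a e, y⟫_ℝ ^ 2) 0 0 := by
    have h := (hasDerivAt_pow 2 (0 : ℝ)).mul_const (∑ a, ⟪S.J a e, y⟫_ℝ ^ 2)
    simpa using h
  have h3 : HasDerivAt (fun t : ℝ => (uu (t • e) * uu y - t * ⟪e, y⟫_ℝ) ^ 2
      + t ^ 2 * ∑ a, ⟪S.J a e, y⟫_ℝ ^ 2) (-2 * uu y * ⟪e, y⟫_ℝ) 0 := by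
    have h := (h1.pow 2).add h2
    refine h.congr_deriv ?_
    simp
  have h4 := h3.sqrt (by simp [hy.ne'])
  have h5 : (fun t : ℝ => kchd S (t • e) y) = fun t : ℝ =>
      Real.sqrt ((uu (t • e) * uu y - t * ⟪e, y⟫_ℝ) ^ 2 + t ^ 2 * ∑ a, ⟪S.J a e, y⟫_ℝ ^ 2) := by
    funext t
    unfold kchd
    have e1 : ∀ a, ⟪S.J a (t • e), y⟫_ℝ ^ 2 = t ^ 2 * ⟪S.J a e, y⟫_ℝ ^ 2 := by
      intro a; rw [map_smul, real_inner_smul_left]; ring
    simp only [e1, real_inner_smul_left]
    rw [← Finset.mul_sum]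
  rw [h5]
  refine h4.congr_deriv ?_
  simp only [zero_smul, uu_zero, one_mul, zero_mul, sub_zero]
  rw [show uu y ^ 2 + (0 : ℝ) ^ 2 * ∑ a, ⟪S.J a e, y⟫_ℝ ^ 2 = uu y ^ 2 by ring,
    Real.sqrt_sq hy.le]
  field_simp

theorem kchd_coercive (p y : E) : uu p ≤ 2 * uu y * kchd S p y := by
  have h1 := sub_le_kchd S p y
  have h2 := real_inner_le_norm p y
  have hp := uu_pos p
  have hy := uu_pos y
  have hpn : ‖p‖ ≤ uu p := by
    apply le_of_sq_le_sq _ hp.le
    rw [uu_sq]; linarith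
  have hyn : ‖y‖ ≤ uu y := by
    apply le_of_sq_le_sq _ hy.le
    rw [uu_sq]; linarith
  have hy2 := uu_sq y
  have h3 : uu p * (uu y - ‖y‖) ≤ kchd S p y := by
    nlinarith [norm_nonneg y, norm_nonneg p]
  have h4 : (uu y - ‖y‖) * (uu y + ‖y‖) = 1 := by nlinarith
  have h5 : 1 ≤ (uu y - ‖y‖) * (2 * uu y) := by
    nlinarith
  calc uu p = uu p * 1 := (mul_one _).symm
    _ ≤ uu p * ((uu y - ‖y‖) * (2 * uu y)) := mul_le_mul_of_nonneg_left h5 hp.le
    _ = (2 * uu y) * (uu p * (uu y - ‖y‖)) := by ring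
    _ ≤ (2 * uu y) * kchd S p y := mul_le_mul_of_nonneg_left h3 (by positivity)

theorem kA_self_nonneg (z v : E) : 0 ≤ ⟪kA S z v, v⟫_ℝ := by
  rw [kA_inner, real_inner_self_eq_norm_sq]
  have h1 := inner_sq_le z v
  have h2 := uu_sq z
  have h3 : (0 : ℝ) < uu z ^ 2 := by have := uu_pos z; positivity
  have h4 : (uu z ^ 2)⁻¹ * (⟪z, v⟫_ℝ * ⟪z, v⟫_ℝ) ≤ ‖v‖ ^ 2 := by
    rw [inv_mul_le_iff₀ h3, h2]
    nlinarith [sq_nonneg ‖v‖]
  have h5 : 0 ≤ ∑ a, ⟪S.J a z, v⟫_ℝ * ⟪S.J a z, v⟫_ℝ :=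
    Finset.sum_nonneg fun a _ => mul_self_nonneg _
  linarith

end basic

section findim
variable {E : Type*} [NormedAddCommGroup E] [InnerProductSpace ℝ E] [FiniteDimensional ℝ E]
  {w : ℕ} (S : KStr E w)

/-- Adding a rank one map orthogonal to the others multiplies the determinant. -/
theorem det_add_rank_one (a : ℝ) (x : E) (B : E →L[ℝ] E) (hB : ∀ v, ⟪x, B v⟫_ℝ = ⟪x, v⟫_ℝ) :
    (B + a • (innerSL ℝ x).smulRight x).det = (1 + a * ‖x‖ ^ 2) * B.det := by
  have e : ((B + a • (innerSL ℝ x).smulRight x : E →L[ℝ] E) : E →ₗ[ℝ] E)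
      = (LinearMap.transvection ((a • innerSL ℝ x : E →L[ℝ] ℝ) : E →ₗ[ℝ] ℝ) x) ∘ₗ
        (B : E →ₗ[ℝ] E) := by
    refine LinearMap.ext fun v => ?_
    rw [LinearMap.comp_apply, LinearMap.transvection.apply]
    simp only [ContinuousLinearMap.coe_coe, add_apply, smul_apply,
      ContinuousLinearMap.smulRight_apply, innerSL_apply_apply, hB, smul_eq_mul, smul_smul]
  show LinearMap.det _ = _
  rw [e, LinearMap.det_comp, LinearMap.transvection.det]
  simp only [ContinuousLinearMap.coe_coe, smul_apply, innerSL_apply_apply,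
    real_inner_self_eq_norm_sq, smul_eq_mul]

theorem det_add_sum (s : Finset (Fin w)) (z : E) :
    (ContinuousLinearMap.id ℝ E + ∑ a ∈ s, (innerSL ℝ (S.J a z)).smulRight (S.J a z)).det
      = (uu z ^ 2) ^ s.card := by
  classical
  induction s using Finset.induction_on with
  | empty =>
    rw [Finset.sum_empty, add_zero, Finset.card_empty, pow_zero]
    show LinearMap.det _ = _
    rw [ContinuousLinearMap.coe_id]
    exact LinearMap.det_id
  | insert i s hi ih =>
    have e : ContinuousLinearMap.id ℝ E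
        + ∑ a ∈ insert i s, (innerSL ℝ (S.J a z)).smulRight (S.J a z)
        = (ContinuousLinearMap.id ℝ E + ∑ a ∈ s, (innerSL ℝ (S.J a z)).smulRight (S.J a z))
          + (1 : ℝ) • (innerSL ℝ (S.J i z)).smulRight (S.J i z) := by
      rw [Finset.sum_insert hi, one_smul]
      abel
    rw [e, det_add_rank_one, ih, S.norm_J, uu_sq, Finset.card_insert_of_notMem hi, pow_succ]
    · ring
    · intro v
      simp only [add_apply, ContinuousLinearMap.coe_id', id, sum_apply,
        ContinuousLinearMap.smulRight_apply, innerSL_apply_apply, inner_add_right, inner_sum,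
        real_inner_smul_right]
      rw [Finset.sum_eq_zero, add_zero]
      intro a ha
      have hne : i ≠ a := by rintro rfl; exact hi ha
      rw [inner_J_J_of_ne S hne, mul_zero]

theorem det_kA (z : E) : uu z ^ 2 * (kA S z).det = (uu z ^ 2) ^ w := by
  have h := det_add_sum S Finset.univ z
  have e : kA S z = (ContinuousLinearMap.id ℝ E
      + ∑ a, (innerSL ℝ (S.J a z)).smulRight (S.J a z))
      + (-(uu z ^ 2)⁻¹) • (innerSL ℝ z).smulRight z := by
    rw [kA, neg_smul]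
    abel
  rw [e, det_add_rank_one, h, Finset.card_univ, Fintype.card_fin, uu_sq]
  · have : (1 + ‖z‖ ^ 2) ≠ 0 := by positivity
    field_simp
    ring
  · intro v
    simp only [add_apply, ContinuousLinearMap.coe_id', id, sum_apply,
      ContinuousLinearMap.smulRight_apply, innerSL_apply_apply, inner_add_right, inner_sum,
      real_inner_smul_right]
    rw [Finset.sum_eq_zero, add_zero]
    intro a _
    rw [inner_self_J S, mul_zero]

theorem krho_pos (z : E) : 0 < krho w z := pow_pos (uu_pos z) _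

theorem det_kA_eq (hw : 1 ≤ w) (z : E) : (kA S z).det = krho w z ^ 2 := by
  have h := det_kA S z
  obtain ⟨m, rfl⟩ : ∃ m, w = m + 1 := ⟨w - 1, by omega⟩
  have hu : (0 : ℝ) < uu z ^ 2 := by have := uu_pos z; positivity
  rw [pow_succ (uu z ^ 2) m, mul_comm _ (uu z ^ 2)] at h
  have h2 := mul_left_cancel₀ hu.ne' h
  rw [h2, krho, Nat.add_sub_cancel]
  ring

theorem det_kphi (hw : 1 ≤ w) (p y : E) :
    krho w (kphi S p y) * |(fderiv ℝ (kphi S p) y).det| = krho w y := by
  have h := DetP.det_sq_of_isom (kA S y) (kA S (kphi S p y)) (fderiv ℝ (kphi S p) y)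
    (fun u v => isom_kphi S p y u v)
  rw [det_kA_eq S hw, det_kA_eq S hw] at h
  have h2 : (krho w (kphi S p y) * |(fderiv ℝ (kphi S p) y).det|) ^ 2 = krho w y ^ 2 := by
    rw [mul_pow, sq_abs]; linarith
  exact (pow_left_inj₀ (mul_nonneg (krho_pos _).le (abs_nonneg _)) (krho_pos y).le
    two_ne_zero).mp h2

end findim

end KIso

open KIso CIso

variable {E : Type*} [NormedAddCommGroup E] [InnerProductSpace ℝ E] [FiniteDimensional ℝ E]
  {w : ℕ}

/-- Homogeneity of the hyperbolic spaces. -/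
theorem exists_hom_k (S : KStr E w) (hw : 1 ≤ w) (G : Geo E) (hA : G.A = kA S)
    (hρ : G.ρ = krho w) : ∃ h : Hom G, h.chd = kchd S := by
  refine ⟨{ chd := kchd S
            phi := kphi S
            inv := fun p => kphi S (-p)
            smooth_phi := contDiff_kphi S
            smooth_inv := fun p => contDiff_kphi S (-p)
            phi_inv := fun p y => by
              have := kphi_neg S (-p) y
              rwa [neg_neg] at this
            inv_phi := kphi_neg S
            phi_zero := kphi_zero S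
            isom := fun p y u v => by
              unfold Geo.g
              rw [hA]; exact isom_kphi S p y u v
            det := fun p y => by
              rw [hρ]
              exact det_kphi S hw p y
            chd_phi := kchd_phi S
            chd_zero := kchd_zero_left S
            chd_smooth := contDiff_kchd S
            chd_deriv := hasDerivAt_kchd_line S
            chd_coercive := kchd_coercive S }, rfl⟩

/-- The scalings do not increase areas. -/
theorem contract_k (S : KStr E w) (hE : 2 ≤ Module.finrank ℝ E) (G : Geo E)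
    (hA : G.A = kA S) (hρ : G.ρ = krho w) : Contract G := by
  intro θ hθ y v
  have hθ0 : 0 < θ := hθ.1
  have hθ1 : θ ≤ 1 := hθ.2
  have hy := krho_pos (w := w) y
  have huy := uu_pos y
  have huθ := uu_pos (θ • y)
  unfold Geo.g
  rw [hA, hρ]
  have hule : uu (θ • y) ≤ uu y := by
    apply le_of_sq_le_sq _ huy.le
    rw [uu_sq, uu_sq, norm_smul, Real.norm_eq_abs, mul_pow, sq_abs]
    have : θ ^ 2 ≤ 1 := pow_le_one₀ hθ0.le hθ1
    nlinarith [sq_nonneg ‖y‖]
  have hrho : krho w (θ • y) / krho w y ≤ 1 := by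
    rw [div_le_one hy]
    exact pow_le_pow_left₀ huθ.le hule _
  have hpow : (θ ^ (Module.finrank ℝ E - 1) * krho w (θ • y) / krho w y) ^ 2 ≤ θ ^ 2 := by
    have h1 : θ ^ (Module.finrank ℝ E - 1) ≤ θ ^ 1 :=
      pow_le_pow_of_le_one hθ0.le hθ1 (by omega)
    rw [pow_one] at h1
    have h0 : 0 ≤ krho w (θ • y) / krho w y := div_nonneg (krho_pos _).le hy.le
    apply pow_le_pow_left₀
    · rw [mul_div_assoc]; positivity
    · rw [mul_div_assoc]
      calc θ ^ (Module.finrank ℝ E - 1) * (krho w (θ • y) / krho w y) ≤ θ * 1 :=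
            mul_le_mul h1 hrho h0 hθ0.le
        _ = θ := mul_one _
  have hnn := kA_self_nonneg S y v
  refine (mul_le_mul_of_nonneg_right hpow hnn).trans ?_
  rw [kA_inner, kA_inner, real_inner_self_eq_norm_sq, uu_sq, uu_sq, norm_smul,
    real_inner_smul_left, Real.norm_eq_abs, mul_pow, sq_abs]
  have e1 : ∀ a, ⟪S.J a (θ • y), v⟫_ℝ * ⟪S.J a (θ • y), v⟫_ℝ
      = θ ^ 2 * (⟪S.J a y, v⟫_ℝ * ⟪S.J a y, v⟫_ℝ) := by
    intro a; rw [map_smul, real_inner_smul_left]; ring
  simp only [e1]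
  rw [← Finset.mul_sum]
  set P := ⟪y, v⟫_ℝ
  set Q := ∑ a, ⟪S.J a y, v⟫_ℝ * ⟪S.J a y, v⟫_ℝ
  set Y := ‖y‖ ^ 2 with hY
  set V := ‖v‖ ^ 2 with hV
  have hY0 : 0 ≤ Y := by positivity
  have hV0 : 0 ≤ V := by positivity
  have hPP : P ^ 2 ≤ Y * V := inner_sq_le y v
  have ht0 : 0 < θ ^ 2 := by positivity
  have ht1 : θ ^ 2 ≤ 1 := pow_le_one₀ hθ0.le hθ1
  set T := θ ^ 2 with hT
  have key : T * P ^ 2 * ((1 + T * Y)⁻¹ - (1 + Y)⁻¹) ≤ (1 - T) * V := by
    have e : (1 + T * Y)⁻¹ - (1 + Y)⁻¹ = (1 - T) * Y / ((1 + T * Y) * (1 + Y)) := by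
      field_simp
      ring
    rw [e, mul_div_assoc', div_le_iff₀ (by positivity)]
    have h1 : T * P ^ 2 * ((1 - T) * Y) ≤ T * (Y * V) * ((1 - T) * Y) := by
      apply mul_le_mul_of_nonneg_right _ (mul_nonneg (by linarith) hY0)
      exact mul_le_mul_of_nonneg_left hPP ht0.le
    refine h1.trans ?_
    have h2 : T * (Y * V) * ((1 - T) * Y) = (1 - T) * V * (T * Y * Y) := by ring
    rw [h2]
    apply mul_le_mul_of_nonneg_left _ (mul_nonneg (by linarith) hV0)
    nlinarith [mul_nonneg ht0.le hY0]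
  have hPT : θ * P * (θ * P) = T * P ^ 2 := by rw [hT]; ring
  rw [hPT]
  nlinarith [key]

end

end Pool.Agent.Work.MP_3b24f6_gt
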