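import Pool.Agent.Work.MP_3b24f6_gt.KVer
import Pool.Agent.Work.MP_3b24f6_gt.Bridge

/-! Homogeneity data (track B) of the hyperbolic spaces over `ℂ` and `ℍ`. -/

set_option autoImplicit false
set_option linter.unusedSectionVars false

open MeasureTheory Set Filter Topology
open scoped ContDiff InnerProductSpace

namespace Pool.Agent.Work.MP_3b24f6_gt

noncomputable section

namespace KVer

variable {E : Type*} [NormedAddCommGroup E] [InnerProductSpace ℝ E] [FiniteDimensional ℝ E]
  [MeasurableSpace E] [BorelSpace E] {w : ℕ} (S : KStr E w)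

theorem kphi_neg' (p y : E) : kphi S p (kphi S (-p) y) = y := by
  have := KIso.kphi_neg S (-p) y
  rwa [neg_neg] at this

/-- Homogeneity data of the hyperbolic space of a `KStr`. -/
def homB (hw : 1 ≤ w) (hd : 2 * w + 2 ≤ Module.finrank ℝ E) : HomB (ver S hw hd) where
  chd := kchd S
  phi := kphi S
  inv := fun p => kphi S (-p)
  smooth_phi := KIso.contDiff_kphi S
  smooth_inv := fun p => KIso.contDiff_kphi S (-p)
  phi_inv := kphi_neg' S
  inv_phi := KIso.kphi_neg S
  phi_zero := KIso.kphi_zero S
  mp := fun p => mp_of_det (ver S hw hd) ((KIso.contDiff_kphi S p).of_le (by simp))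
    (KIso.kphi_neg S p) (kphi_neg' S p) (rho_kphi S hw hd p)
  an_phi := fun p _ y hf => an_of_isom (ver S hw hd)
    (((KIso.contDiff_kphi S p).differentiable (by simp)) y) (mg_kphi S hw hd p y) hf
  chd_phi := KIso.kchd_phi S
  chd_symm := kchd_symm S
  chd_zero := KIso.kchd_zero_left S
  chd_smooth := KIso.contDiff_kchd S
  chd_deriv := KIso.hasDerivAt_kchd_line S
  chd_coercive := KIso.kchd_coercive S

theorem homB_chd (hw : 1 ≤ w) (hd : 2 * w + 2 ≤ Module.finrank ℝ E) :
    (homB S hw hd).chd = kchd S := rfl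

end KVer

end

end Pool.Agent.Work.MP_3b24f6_gt
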