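import Pool.Agent.Work.MP_3b24f6_gt.KDefs

/-! Concrete models: complex and quaternionic coordinate spaces. -/

set_option autoImplicit false

open scoped InnerProductSpace Quaternion

namespace Pool.Agent.Work.MP_3b24f6_gt

noncomputable section

namespace KInst

section diag
variable {A : Type*} [NormedAddCommGroup A] [InnerProductSpace ℝ A] [FiniteDimensional ℝ A]

/-- Coordinatewise action of a linear map. -/
def diagL (n : ℕ) (T : A →ₗ[ℝ] A) :
    PiLp 2 (fun _ : Fin n => A) →ₗ[ℝ] PiLp 2 (fun _ : Fin n => A) where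
  toFun x := WithLp.toLp 2 (fun m => T (x m))
  map_add' x y := by
    ext m
    simp
  map_smul' r x := by
    ext m
    simp

/-- Coordinatewise action of a linear map. -/
def diag (n : ℕ) (T : A →ₗ[ℝ] A) :
    PiLp 2 (fun _ : Fin n => A) →L[ℝ] PiLp 2 (fun _ : Fin n => A) :=
  LinearMap.toContinuousLinearMap (diagL n T)

theorem diag_apply (n : ℕ) (T : A →ₗ[ℝ] A) (x : PiLp 2 (fun _ : Fin n => A)) (m : Fin n) :
    diag n T x m = T (x m) := rfl

theorem norm_diag (n : ℕ) (T : A →ₗ[ℝ] A) (hT : ∀ a, ‖T a‖ = ‖a‖)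
    (x : PiLp 2 (fun _ : Fin n => A)) : ‖diag n T x‖ = ‖x‖ := by
  rw [PiLp.norm_eq_of_L2, PiLp.norm_eq_of_L2]
  simp only [diag_apply, hT]

theorem finrank_pi (n : ℕ) :
    Module.finrank ℝ (PiLp 2 (fun _ : Fin n => A)) = n * Module.finrank ℝ A := by
  rw [(WithLp.linearEquiv 2 ℝ (Fin n → A)).finrank_eq, Module.finrank_pi_fintype]
  simp

end diag

/-- The complex structure of `ℂⁿ`. -/
def kstrC (n : ℕ) : KStr (PiLp 2 (fun _ : Fin n => ℂ)) 1 where
  J _ := diag n (LinearMap.mulLeft ℝ Complex.I)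
  norm_J _ x := norm_diag n _ (fun a => by simp) x
  JJ _ x := by
    ext m
    rw [diag_apply, diag_apply]
    simp [← mul_assoc]
  anti a b h := absurd (Subsingleton.elim a b) h
  closed a b h := absurd (Subsingleton.elim a b) h

/-- The imaginary units of the quaternions. -/
def qi : Fin 3 → ℍ[ℝ] := ![⟨0, 1, 0, 0⟩, ⟨0, 0, 1, 0⟩, ⟨0, 0, 0, 1⟩]

theorem qi_sq (a : Fin 3) : qi a * qi a = -1 := by
  fin_cases a <;> (ext <;> simp [qi])

theorem qi_anti (a b : Fin 3) (h : a ≠ b) : qi a * qi b = -(qi b * qi a) := by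
  fin_cases a <;> fin_cases b <;> first | exact absurd rfl h | (ext <;> simp [qi])

theorem qi_closed (a b : Fin 3) (h : a ≠ b) :
    ∃ c, qi a * qi b = qi c ∨ qi a * qi b = -qi c := by
  fin_cases a <;> fin_cases b
  · exact absurd rfl h
  · exact ⟨2, Or.inl (by ext <;> simp [qi])⟩
  · exact ⟨1, Or.inr (by ext <;> simp [qi])⟩
  · exact ⟨2, Or.inr (by ext <;> simp [qi])⟩
  · exact absurd rfl h
  · exact ⟨0, Or.inl (by ext <;> simp [qi])⟩
  · exact ⟨1, Or.inl (by ext <;> simp [qi])⟩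
  · exact ⟨0, Or.inr (by ext <;> simp [qi])⟩
  · exact absurd rfl h

theorem norm_qi (a : Fin 3) : ‖qi a‖ = 1 := by
  have h : ‖qi a‖ * ‖qi a‖ = 1 := by
    rw [← Quaternion.normSq_eq_norm_mul_self, Quaternion.normSq_def']
    fin_cases a <;> simp [qi]
  nlinarith [norm_nonneg (qi a)]

/-- The quaternionic structure of `ℍⁿ` (left multiplications by `i`, `j`, `k`). -/
def kstrH (n : ℕ) : KStr (PiLp 2 (fun _ : Fin n => ℍ[ℝ])) 3 where
  J a := diag n (LinearMap.mulLeft ℝ (qi a))
  norm_J a x := norm_diag n _ (fun q => by simp [norm_qi]) x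
  JJ a x := by
    ext1 m
    rw [diag_apply, diag_apply, LinearMap.mulLeft_apply, LinearMap.mulLeft_apply, ← mul_assoc,
      qi_sq, neg_one_mul]
    rfl
  anti a b h x := by
    ext1 m
    rw [diag_apply, diag_apply, PiLp.neg_apply, diag_apply, diag_apply, LinearMap.mulLeft_apply,
      LinearMap.mulLeft_apply, LinearMap.mulLeft_apply, LinearMap.mulLeft_apply, ← mul_assoc,
      ← mul_assoc, qi_anti a b h, neg_mul]
  closed a b h := by
    obtain ⟨c, hc | hc⟩ := qi_closed a b h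
    · refine ⟨c, Or.inl fun x => ?_⟩
      ext1 m
      rw [diag_apply, diag_apply, diag_apply, LinearMap.mulLeft_apply, LinearMap.mulLeft_apply,
        LinearMap.mulLeft_apply, ← mul_assoc, hc]
    · refine ⟨c, Or.inr fun x => ?_⟩
      ext1 m
      rw [diag_apply, diag_apply, PiLp.neg_apply, diag_apply, LinearMap.mulLeft_apply,
        LinearMap.mulLeft_apply, LinearMap.mulLeft_apply, ← mul_assoc, hc, neg_mul]

theorem finrank_C (n : ℕ) : Module.finrank ℝ (PiLp 2 (fun _ : Fin n => ℂ)) = 2 * n := by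
  rw [finrank_pi, Complex.finrank_real_complex, mul_comm]

theorem finrank_H (n : ℕ) : Module.finrank ℝ (PiLp 2 (fun _ : Fin n => ℍ[ℝ])) = 4 * n := by
  rw [finrank_pi, Quaternion.finrank_eq_four, mul_comm]

end KInst

end

end Pool.Agent.Work.MP_3b24f6_gt
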