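import Pool.Agent.Work.MP_3b24f6_gt.KOp
import Pool.Agent.Work.MP_3b24f6_gt.ComplexIso

/-! The transvections of the hyperbolic spaces over `ℝ`, `ℂ`, `ℍ`, in the chart. -/

set_option autoImplicit false
set_option linter.unusedSectionVars false

open MeasureTheory Set Filter Topology
open scoped ContDiff InnerProductSpace

namespace Pool.Agent.Work.MP_3b24f6_gt

noncomputable section

namespace KIso

open CIso (uu_sq one_le_uu uu_pos uu_zero uu_neg contDiff_uu)

variable {E : Type*} [NormedAddCommGroup E] [InnerProductSpace ℝ E] {w : ℕ} (S : KStr E w)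

/-- The squared norm of the last component. -/
def kn2 (p y : E) : ℝ := ka p y ^ 2 + ∑ a, kb S a p y ^ 2

/-- The last component. -/
def kq (p y : E) : E →L[ℝ] E := M S y p + (uu p * uu y) • (1 : E →L[ℝ] E)

/-- The coefficient of `p` in the first component. -/
def kAp (p y : E) : E →L[ℝ] E := (uu p + 1)⁻¹ • M S y p + uu y • (1 : E →L[ℝ] E)

theorem kq_eq (p y : E) : kq S p y = kop S (ka p y) (fun a => kb S a p y) := by
  ext z
  simp only [kq, M, add_apply, smul_apply, kop_apply, ka, kb, one_apply_eq_self,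
    add_smul, real_inner_comm y]
  abel

theorem isK_kq (p y : E) : IsK S (kq S p y) := by rw [kq_eq]; exact isK_kop S _ _

theorem isK_kAp (p y : E) : IsK S (kAp S p y) :=
  ((isK_M S y p).smul S _).add S ((isK_one S).smul S _)

theorem kv1_eq (p y : E) : kv1 S p y = y + kAp S p y p := by
  simp only [kAp, M, add_apply, smul_apply, kop_apply, kv1, one_apply_eq_self,
    real_inner_comm y]
  rw [smul_add, Finset.smul_sum, add_smul, smul_smul]
  have : ∀ a, (⟪y, S.J a p⟫_ℝ / (uu p + 1)) • S.J a p = (uu p + 1)⁻¹ • ⟪y, S.J a p⟫_ℝ • S.J a p := by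
    intro a
    rw [smul_smul]; congr 1; ring
  simp only [this]
  rw [show (uu p + 1)⁻¹ * ⟪y, p⟫_ℝ = ⟪y, p⟫_ℝ / (uu p + 1) by ring]
  abel

section complete
variable [CompleteSpace E]

theorem kphi_eq (p y : E) :
    kphi S p y = (Real.sqrt (kn2 S p y))⁻¹ • (star (kq S p y)) (kv1 S p y) := by
  rw [kq_eq, star_kop, kop_apply]
  simp only [kphi, kn2, neg_smul, Finset.sum_neg_distrib, sub_eq_add_neg]

theorem star_kq_mul (p y : E) : star (kq S p y) * kq S p y = kn2 S p y • (1 : E →L[ℝ] E) := by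
  rw [kq_eq, star_kop_mul]; rfl

theorem kq_mul_star (p y : E) : kq S p y * star (kq S p y) = kn2 S p y • (1 : E →L[ℝ] E) := by
  rw [kq_eq, kop_mul_star]; rfl

variable {z0 : E} (hz : ‖z0‖ = 1)

include hz in
/-- Invariance of the indefinite hermitian form. -/
theorem form_inv {T : E →L[ℝ] E} (hT : IsK S T) (p x y : E) :
    re z0 (T * (kq S p x * star (kq S p y))) - ⟪T (kv1 S p x), kv1 S p y⟫_ℝ
      = re z0 T * (uu x * uu y) - ⟪T x, y⟫_ℝ := by
  have hA := isK_kAp S p
  have hP := fun x => isK_M S x p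
  have e1 : ⟪T x, kAp S p y p⟫_ℝ = re z0 (T * (M S x p * star (kAp S p y))) := by
    rw [← mul_assoc, re_mul_comm S hz (hT.mul S (hP x)) ((hA y).star S), ← mul_assoc,
      re_mul_M S hz (((hA y).star S).mul S hT), mul_apply_eq_comp, inner_star]
  have e2 : ⟪T (kAp S p x p), y⟫_ℝ = re z0 (T * (kAp S p x * star (M S y p))) := by
    have h1 : re z0 (star (T * kAp S p x) * M S y p) = ⟪T (kAp S p x p), y⟫_ℝ := by
      rw [re_mul_M S hz ((hT.mul S (hA x)).star S), inner_star, real_inner_comm]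
      rfl
    rw [← h1, ← mul_assoc, ← re_star, star_mul, star_star,
      re_mul_comm S hz ((hP y).star S) (hT.mul S (hA x))]
  have e3 : ⟪T (kAp S p x p), kAp S p y p⟫_ℝ
      = re z0 (T * (kAp S p x * star (kAp S p y))) * ‖p‖ ^ 2 := by
    rw [← mul_assoc, re_mul_comm S hz (hT.mul S (hA x)) ((hA y).star S),
      ← inner_self_of_isK S hz (((hA y).star S).mul S (hT.mul S (hA x)))]
    rw [mul_apply_eq_comp, inner_star]
    rfl
  have e4 : kq S p x * star (kq S p y) - M S x p * star (kAp S p y)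
      - kAp S p x * star (M S y p) - (uu p ^ 2 - 1) • (kAp S p x * star (kAp S p y))
      = (uu x * uu y) • (1 : E →L[ℝ] E) := by
    have hu : uu p + 1 ≠ 0 := by have := uu_pos p; positivity
    simp only [kq, kAp, star_add, star_smul, star_one, mul_add, add_mul, smul_mul_assoc,
      mul_smul_comm, mul_one, one_mul, star_trivial]
    match_scalars <;> field_simp <;> ring
  have hp : ‖p‖ ^ 2 = uu p ^ 2 - 1 := by rw [uu_sq]; ring
  have e5 := congrArg (fun V => re z0 (T * V)) e4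
  simp only [mul_sub, re_sub, mul_smul_comm, re_smul, mul_one] at e5
  rw [kv1_eq, kv1_eq, map_add, inner_add_left, inner_add_right, inner_add_right, e1, e2, e3, hp]
  linarith

omit [CompleteSpace E] in
theorem re_one (hz : ‖z0‖ = 1) : re z0 (1 : E →L[ℝ] E) = 1 := by
  unfold re
  rw [one_apply_eq_self, real_inner_self_eq_norm_sq, hz]; norm_num

include hz in
theorem norm_kv1_sq (p y : E) : ‖kv1 S p y‖ ^ 2 = kn2 S p y - 1 := by
  have h := form_inv S hz (isK_one S) p y y
  rw [one_mul, kq_mul_star, re_smul, re_one hz, one_apply_eq_self, one_apply_eq_self,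
    real_inner_self_eq_norm_sq, real_inner_self_eq_norm_sq] at h
  have h2 := uu_sq y
  nlinarith

include hz in
theorem one_le_kn2 (p y : E) : 1 ≤ kn2 S p y := by
  have := norm_kv1_sq S hz p y
  nlinarith [sq_nonneg ‖kv1 S p y‖]

theorem norm_star_kq_sq (p y v : E) : ‖(star (kq S p y)) v‖ ^ 2 = kn2 S p y * ‖v‖ ^ 2 := by
  rw [kq_eq, star_kop, norm_kop_sq]
  simp [kn2]

include hz in
theorem norm_kphi_sq (p y : E) : ‖kphi S p y‖ ^ 2 = kn2 S p y - 1 := by
  have h1 := one_le_kn2 S hz p y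
  rw [kphi_eq, norm_smul, mul_pow, norm_star_kq_sq, norm_kv1_sq S hz, Real.norm_eq_abs, sq_abs,
    inv_pow, Real.sq_sqrt (by linarith)]
  field_simp

include hz in
theorem uu_kphi (p y : E) : uu (kphi S p y) = Real.sqrt (kn2 S p y) := by
  unfold uu
  rw [norm_kphi_sq S hz]
  congr 1
  ring

omit [CompleteSpace E] in
theorem kchd_sq_eq (x y : E) :
    kchd S x y ^ 2 = (uu x * uu y - ⟪x, y⟫_ℝ) ^ 2 + ∑ a, ⟪S.J a x, y⟫_ℝ ^ 2 := by
  unfold kchd
  exact Real.sq_sqrt (add_nonneg (sq_nonneg _) (Finset.sum_nonneg fun a _ => sq_nonneg _))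

omit [CompleteSpace E] in
theorem kchd_nonneg (x y : E) : 0 ≤ kchd S x y := Real.sqrt_nonneg _

omit [CompleteSpace E] in
theorem kop_form (t0 : ℝ) (t : Fin w → ℝ) (x y : E) :
    t0 * (uu x * uu y) - ⟪kop S t0 t x, y⟫_ℝ
      = t0 * (uu x * uu y - ⟪x, y⟫_ℝ) + ∑ a, t a * -⟪S.J a x, y⟫_ℝ := by
  rw [inner_kop_left]
  simp only [mul_neg, Finset.sum_neg_distrib]
  ring

theorem cs (t0 a0 : ℝ) (t a : Fin w → ℝ) :
    (t0 * a0 + ∑ i, t i * a i) ^ 2 ≤ (t0 ^ 2 + ∑ i, t i ^ 2) * (a0 ^ 2 + ∑ i, a i ^ 2) := by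
  have h := Finset.sum_mul_sq_le_sq_mul_sq (Finset.univ : Finset (Option (Fin w)))
    (fun o => o.elim t0 t) (fun o => o.elim a0 a)
  simpa [Fintype.sum_option] using h

include hz in
theorem form_le {T : E →L[ℝ] E} (hT : IsK S T) (x y : E) :
    re z0 T * (uu x * uu y) - ⟪T x, y⟫_ℝ ≤ ‖T z0‖ * kchd S x y := by
  obtain ⟨t0, t, rfl⟩ := hT
  rw [re_kop S hz, kop_form]
  have h0 := norm_kop_sq S t0 t z0
  rw [hz, one_pow, mul_one] at h0
  have h1 := cs t0 (uu x * uu y - ⟪x, y⟫_ℝ) t (fun a => -⟪S.J a x, y⟫_ℝ)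
  simp only [neg_sq] at h1
  rw [← kchd_sq_eq, ← h0, ← mul_pow] at h1
  exact le_of_abs_le (abs_le_of_sq_le_sq' h1 (mul_nonneg (norm_nonneg _) (kchd_nonneg S x y)) |> abs_le.mpr)

include hz in
theorem form_attain (x y : E) (hd : 0 < kchd S x y) : ∃ T : E →L[ℝ] E, IsK S T ∧ ‖T z0‖ = 1 ∧
    re z0 T * (uu x * uu y) - ⟪T x, y⟫_ℝ = kchd S x y := by
  have h2 := kchd_sq_eq S x y
  set d := kchd S x y with hdef
  refine ⟨kop S ((uu x * uu y - ⟪x, y⟫_ℝ) / d) (fun a => -⟪S.J a x, y⟫_ℝ / d), isK_kop S _ _,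
    ?_, ?_⟩
  · have h0 := norm_kop_sq S ((uu x * uu y - ⟪x, y⟫_ℝ) / d) (fun a => -⟪S.J a x, y⟫_ℝ / d) z0
    rw [hz, one_pow, mul_one] at h0
    simp only [div_pow, neg_sq] at h0
    rw [← Finset.sum_div, ← add_div, ← h2, div_self (by positivity)] at h0
    exact (pow_eq_one_iff_of_nonneg (norm_nonneg _) two_ne_zero).mp h0
  · rw [re_kop S hz, kop_form]
    have : ∀ a, -⟪S.J a x, y⟫_ℝ / d * -⟪S.J a x, y⟫_ℝ = ⟪S.J a x, y⟫_ℝ ^ 2 / d := by
      intro a; ring
    simp only [this]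
    rw [← Finset.sum_div, div_mul_eq_mul_div, ← add_div, ← pow_two, ← h2]
    field_simp

omit [CompleteSpace E] in
include hz in
theorem norm_mul_z0 {T U : E →L[ℝ] E} (hT : IsK S T) :
    ‖(T * U) z0‖ = ‖T z0‖ * ‖U z0‖ := by
  rw [mul_apply_eq_comp]
  have := norm_sq_of_isK S hz hT (U z0)
  rw [← mul_pow] at this
  exact (pow_left_inj₀ (norm_nonneg _) (by positivity) two_ne_zero).mp this

omit [CompleteSpace E] in
include hz in
theorem norm_kq_z0 (p y : E) : ‖(kq S p y) z0‖ = Real.sqrt (kn2 S p y) := by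
  have h : ‖(kq S p y) z0‖ ^ 2 = kn2 S p y := by
    rw [kq_eq, norm_kop_sq, hz]; simp [kn2]
  rw [← h, Real.sqrt_sq (norm_nonneg _)]

include hz in
theorem norm_star_kq_z0 (p y : E) : ‖(star (kq S p y)) z0‖ = Real.sqrt (kn2 S p y) := by
  have h := norm_star_kq_sq S p y z0
  rw [hz, one_pow, mul_one] at h
  rw [← h, Real.sqrt_sq (norm_nonneg _)]

include hz in
theorem kchd_phi_le (p x y : E) (hd : 0 < kchd S (kphi S p x) (kphi S p y)) :
    kchd S (kphi S p x) (kphi S p y) ≤ kchd S x y := by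
  obtain ⟨T, hT, hT1, hT2⟩ := form_attain S hz (kphi S p x) (kphi S p y) hd
  have hx := one_le_kn2 S hz p x
  have hy := one_le_kn2 S hz p y
  set nx := Real.sqrt (kn2 S p x) with hnx
  set ny := Real.sqrt (kn2 S p y) with hny
  have hnx0 : 0 < nx := Real.sqrt_pos.mpr (by linarith)
  have hny0 : 0 < ny := Real.sqrt_pos.mpr (by linarith)
  have hnx2 : nx ^ 2 = kn2 S p x := Real.sq_sqrt (by linarith)
  have hny2 : ny ^ 2 = kn2 S p y := Real.sq_sqrt (by linarith)
  have hqx := isK_kq S p x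
  have hqy := isK_kq S p y
  set T' : E →L[ℝ] E := (nx * ny)⁻¹ • (kq S p y * (T * star (kq S p x))) with hT'
  have hK' : IsK S T' := (hqy.mul S (hT.mul S (hqx.star S))).smul S _
  have hn' : ‖T' z0‖ = 1 := by
    rw [hT', smul_apply, norm_smul, norm_mul_z0 S hz hqy, norm_mul_z0 S hz hT, hT1,
      norm_kq_z0 S hz, norm_star_kq_z0 S hz, Real.norm_eq_abs, abs_of_pos (by positivity)]
    rw [← hnx, ← hny]
    field_simp
  have h1 := form_inv S hz hK' p x y
  have h2 := form_le S hz hK' x y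
  rw [hn', one_mul, ← h1] at h2
  refine le_trans (le_of_eq ?_) h2
  rw [← hT2, uu_kphi S hz, uu_kphi S hz, ← hnx, ← hny, kphi_eq, kphi_eq, ← hnx, ← hny]
  congr 1
  · have e : T' * (kq S p x * star (kq S p y))
        = (nx * ny)⁻¹ • (kn2 S p x • (kq S p y * (T * star (kq S p y)))) := by
      rw [hT', smul_mul_assoc]
      congr 1
      calc kq S p y * (T * star (kq S p x)) * (kq S p x * star (kq S p y))
          = kq S p y * (T * ((star (kq S p x) * kq S p x) * star (kq S p y))) := by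
            simp only [mul_assoc]
        _ = _ := by
            rw [star_kq_mul, smul_mul_assoc, one_mul, mul_smul_comm, mul_smul_comm]
    rw [e, re_smul, re_smul, re_mul_comm S hz hqy (hT.mul S (hqy.star S)), mul_assoc,
      star_kq_mul, mul_smul_comm, re_smul, mul_one, ← hnx2, ← hny2]
    field_simp
  · rw [hT', map_smul, real_inner_smul_left, real_inner_smul_right, smul_apply,
      real_inner_smul_left, mul_apply_eq_comp, mul_apply_eq_comp, inner_star', mul_inv,
      mul_assoc]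

end complete

end KIso

end

end Pool.Agent.Work.MP_3b24f6_gt
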