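import Pool.Agent.Work.MP_3b24f6_gt.KGam

/-! The metric of the hyperbolic spaces over `ℂ` and `ℍ` and its compatibility with the
Christoffel map. -/

set_option autoImplicit false
set_option linter.unusedSectionVars false

open MeasureTheory Set Filter Topology
open scoped ContDiff InnerProductSpace

namespace Pool.Agent.Work.MP_3b24f6_gt

noncomputable section

variable {E : Type*} [NormedAddCommGroup E] [InnerProductSpace ℝ E] {w : ℕ}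

theorem inv_uu_sq_mul (z : E) : (uu z ^ 2)⁻¹ * (1 + ‖z‖ ^ 2) = 1 := by
  rw [← uu_sq_eq]
  exact inv_mul_cancel₀ (uu_sq_pos' z).ne'

theorem kA_apply (S : KStr E w) (z u : E) :
    kA S z u = u - ((uu z ^ 2)⁻¹ * ⟪z, u⟫_ℝ) • z + ∑ a, ⟪S.J a z, u⟫_ℝ • S.J a z := by
  simp only [kA, add_apply, sub_apply, smul_apply, sum_apply,
    ContinuousLinearMap.smulRight_apply, innerSL_apply_apply, ContinuousLinearMap.id_apply,
    smul_smul]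

theorem kC_apply (S : KStr E w) (z u : E) :
    kC S z u = u + ⟪z, u⟫_ℝ • z - (uu z ^ 2)⁻¹ • ∑ a, ⟪S.J a z, u⟫_ℝ • S.J a z := by
  simp only [kC, add_apply, sub_apply, smul_apply, sum_apply,
    ContinuousLinearMap.smulRight_apply, innerSL_apply_apply, ContinuousLinearMap.id_apply]

theorem inner_kA (S : KStr E w) (z u v : E) :
    ⟪kA S z u, v⟫_ℝ = ⟪u, v⟫_ℝ - (uu z ^ 2)⁻¹ * (⟪z, u⟫_ℝ * ⟪z, v⟫_ℝ)
      + ∑ a, ⟪S.J a z, u⟫_ℝ * ⟪S.J a z, v⟫_ℝ := by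
  rw [kA_apply, inner_add_left, inner_sub_left, real_inner_smul_left, sum_inner]
  simp only [real_inner_smul_left, mul_assoc]

theorem kA_symm (S : KStr E w) (z u v : E) : ⟪kA S z u, v⟫_ℝ = ⟪u, kA S z v⟫_ℝ := by
  rw [inner_kA, real_inner_comm (kA S z v) u, inner_kA, real_inner_comm u v]
  have : ∑ a, ⟪S.J a z, u⟫_ℝ * ⟪S.J a z, v⟫_ℝ = ∑ a, ⟪S.J a z, v⟫_ℝ * ⟪S.J a z, u⟫_ℝ :=
    Finset.sum_congr rfl fun a _ => mul_comm _ _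
  rw [this]
  ring

theorem kA_pos (S : KStr E w) (z u : E) (hu : u ≠ 0) : 0 < ⟪kA S z u, u⟫_ℝ := by
  rw [inner_kA]
  have h1 : 0 ≤ ∑ a, ⟪S.J a z, u⟫_ℝ * ⟪S.J a z, u⟫_ℝ :=
    Finset.sum_nonneg fun a _ => mul_self_nonneg _
  have h2 : ⟪z, u⟫_ℝ * ⟪z, u⟫_ℝ ≤ ‖z‖ ^ 2 * ‖u‖ ^ 2 := by
    have := real_inner_mul_inner_self_le z u
    rw [real_inner_self_eq_norm_sq, real_inner_self_eq_norm_sq] at this
    exact this
  have h3 := inv_uu_sq_mul z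
  have h4 : 0 < (uu z ^ 2)⁻¹ := inv_pos.mpr (uu_sq_pos' z)
  have h5 : 0 < ‖u‖ ^ 2 := by
    have := norm_pos_iff.mpr hu
    positivity
  rw [real_inner_self_eq_norm_sq]
  nlinarith [mul_le_mul_of_nonneg_left h2 h4.le, mul_pos h4 h5]

theorem inner_z_kC (S : KStr E w) (z u : E) :
    ⟪z, kC S z u⟫_ℝ = (1 + ‖z‖ ^ 2) * ⟪z, u⟫_ℝ := by
  rw [kC_apply, inner_sub_right, inner_add_right, real_inner_smul_right, real_inner_smul_right,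
    inner_sum]
  have : ∑ a, ⟪z, ⟪S.J a z, u⟫_ℝ • S.J a z⟫_ℝ = 0 :=
    Finset.sum_eq_zero fun a _ => by rw [real_inner_smul_right, S.inner_self_J, mul_zero]
  rw [this, real_inner_self_eq_norm_sq]
  ring

theorem sum_inner_J_smul (S : KStr E w) (z : E) (b : Fin w) (c : Fin w → ℝ) :
    ⟪S.J b z, ∑ a, c a • S.J a z⟫_ℝ = c b * ‖z‖ ^ 2 := by
  rw [inner_sum]
  simp only [real_inner_smul_right, S.inner_J_J, mul_ite, mul_zero]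
  rw [Finset.sum_ite_eq]
  simp

theorem inner_z_sum_J (S : KStr E w) (z : E) (c : Fin w → ℝ) :
    ⟪z, ∑ a, c a • S.J a z⟫_ℝ = 0 := by
  rw [inner_sum]
  exact Finset.sum_eq_zero fun a _ => by rw [real_inner_smul_right, S.inner_self_J, mul_zero]

theorem inner_Jz_kC (S : KStr E w) (z u : E) (b : Fin w) :
    ⟪S.J b z, kC S z u⟫_ℝ = (uu z ^ 2)⁻¹ * ⟪S.J b z, u⟫_ℝ := by
  rw [kC_apply, inner_sub_right, inner_add_right, real_inner_smul_right, real_inner_smul_right,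
    sum_inner_J_smul, S.inner_J_self]
  have h := inv_uu_sq_mul z
  linear_combination -⟪S.J b z, u⟫_ℝ * h

theorem kA_kC (S : KStr E w) (z u : E) : kA S z (kC S z u) = u := by
  rw [kA_apply, inner_z_kC]
  simp only [inner_Jz_kC]
  rw [kC_apply]
  have h := inv_uu_sq_mul z
  have h1 : (uu z ^ 2)⁻¹ * ((1 + ‖z‖ ^ 2) * ⟪z, u⟫_ℝ) = ⟪z, u⟫_ℝ := by
    rw [← mul_assoc, h, one_mul]
  rw [h1]
  have h2 : ∑ a, ((uu z ^ 2)⁻¹ * ⟪S.J a z, u⟫_ℝ) • S.J a z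
      = (uu z ^ 2)⁻¹ • ∑ a, ⟪S.J a z, u⟫_ℝ • S.J a z := by
    rw [Finset.smul_sum]
    exact Finset.sum_congr rfl fun a _ => by rw [smul_smul]
  rw [h2]
  abel

theorem kA_z (S : KStr E w) (z : E) : kA S z z = (uu z ^ 2)⁻¹ • z := by
  rw [kA_apply, real_inner_self_eq_norm_sq]
  simp only [S.inner_J_self, zero_smul, Finset.sum_const_zero, add_zero]
  have h := inv_uu_sq_mul z
  have : (uu z ^ 2)⁻¹ * ‖z‖ ^ 2 = 1 - (uu z ^ 2)⁻¹ := by linear_combination h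
  rw [this]
  module

theorem kA_Jz (S : KStr E w) (z : E) (b : Fin w) : kA S z (S.J b z) = uu z ^ 2 • S.J b z := by
  rw [kA_apply, S.inner_self_J]
  simp only [S.inner_J_J, ite_smul, zero_smul]
  rw [Finset.sum_ite_eq', uu_sq_eq]
  simp only [Finset.mem_univ, if_true, mul_zero, zero_smul, sub_zero]
  module

/-! ### The Christoffel map against the special directions -/

theorem inner_z_kGam (S : KStr E w) (z x u : E) :
    ⟪z, kGamL S z x u⟫_ℝ = (-⟪x, u⟫_ℝ + (uu z ^ 2)⁻¹ * (⟪z, x⟫_ℝ * ⟪z, u⟫_ℝ)) * ‖z‖ ^ 2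
      - 2 * (1 + ‖z‖ ^ 2) * ∑ a, ⟪S.J a z, x⟫_ℝ * ⟪S.J a z, u⟫_ℝ := by
  rw [kGamL_apply, inner_sub_right, inner_add_right, real_inner_smul_right, real_inner_smul_right,
    inner_z_sum_J, inner_sum, real_inner_self_eq_norm_sq]
  have h : ∑ a, ⟪z, ⟪S.J a z, u⟫_ℝ • S.J a x + ⟪S.J a z, x⟫_ℝ • S.J a u⟫_ℝ
      = -2 * ∑ a, ⟪S.J a z, x⟫_ℝ * ⟪S.J a z, u⟫_ℝ := by
    rw [Finset.mul_sum]
    refine Finset.sum_congr rfl fun a _ => ?_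
    rw [inner_add_right, real_inner_smul_right, real_inner_smul_right, S.inner_J_right,
      S.inner_J_right]
    ring
  rw [h]
  ring

theorem inner_Jz_kGam [Nontrivial E] (S : KStr E w) (z x u : E) (b : Fin w) :
    ⟪S.J b z, kGamL S z x u⟫_ℝ
      = (uu z ^ 2)⁻¹ * (⟪z, x⟫_ℝ * ⟪S.J b z, u⟫_ℝ + ⟪S.J b z, x⟫_ℝ * ⟪z, u⟫_ℝ) := by
  rw [kGamL_apply, inner_sub_right, inner_add_right, real_inner_smul_right, real_inner_smul_right,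
    sum_inner_J_smul, S.inner_J_self, inner_sum]
  have h : ∑ a, ⟪S.J b z, ⟪S.J a z, u⟫_ℝ • S.J a x + ⟪S.J a z, x⟫_ℝ • S.J a u⟫_ℝ
      = ⟪S.J b z, u⟫_ℝ * ⟪z, x⟫_ℝ + ⟪S.J b z, x⟫_ℝ * ⟪z, u⟫_ℝ := by
    rw [← S.cross z x u b]
    refine Finset.sum_congr rfl fun a _ => ?_
    rw [inner_add_right, real_inner_smul_right, real_inner_smul_right]
  rw [h]
  have h2 := inv_uu_sq_mul z
  linear_combination -(⟪z, x⟫_ℝ * ⟪S.J b z, u⟫_ℝ + ⟪S.J b z, x⟫_ℝ * ⟪z, u⟫_ℝ) * h2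

theorem kA_kGam [Nontrivial E] (S : KStr E w) (z x u : E) :
    kA S z (kGamL S z x u) = (-(uu z ^ 2)⁻¹ * ⟪x, u⟫_ℝ
        + ((uu z ^ 2)⁻¹) ^ 2 * (⟪z, x⟫_ℝ * ⟪z, u⟫_ℝ)) • z
      + ∑ a, (⟪S.J a z, u⟫_ℝ • S.J a x + ⟪S.J a z, x⟫_ℝ • S.J a u) := by
  rw [kA_apply, inner_z_kGam]
  simp only [inner_Jz_kGam]
  rw [kGamL_apply]
  have h2 : ∑ a, ((uu z ^ 2)⁻¹ * (⟪z, x⟫_ℝ * ⟪S.J a z, u⟫_ℝ + ⟪S.J a z, x⟫_ℝ * ⟪z, u⟫_ℝ)) • S.J a z
      = (uu z ^ 2)⁻¹ • ∑ a, (⟪z, x⟫_ℝ * ⟪S.J a z, u⟫_ℝ + ⟪S.J a z, x⟫_ℝ * ⟪z, u⟫_ℝ) • S.J a z := by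
    rw [Finset.smul_sum]
    exact Finset.sum_congr rfl fun a _ => by rw [smul_smul]
  rw [h2]
  have h := inv_uu_sq_mul z
  set i := (uu z ^ 2)⁻¹ with hi
  set P := ∑ a, (⟪S.J a z, u⟫_ℝ • S.J a x + ⟪S.J a z, x⟫_ℝ • S.J a u) with hP
  set Q := ∑ a, (⟪z, x⟫_ℝ * ⟪S.J a z, u⟫_ℝ + ⟪S.J a z, x⟫_ℝ * ⟪z, u⟫_ℝ) • S.J a z with hQ
  set s := ∑ a, ⟪S.J a z, x⟫_ℝ * ⟪S.J a z, u⟫_ℝ with hs
  have h3 : (-⟪x, u⟫_ℝ + i * (⟪z, x⟫_ℝ * ⟪z, u⟫_ℝ) - 2 * s)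
      - i * ((-⟪x, u⟫_ℝ + i * (⟪z, x⟫_ℝ * ⟪z, u⟫_ℝ)) * ‖z‖ ^ 2 - 2 * (1 + ‖z‖ ^ 2) * s)
      = -i * ⟪x, u⟫_ℝ + i ^ 2 * (⟪z, x⟫_ℝ * ⟪z, u⟫_ℝ) := by
    linear_combination (⟪x, u⟫_ℝ - i * (⟪z, x⟫_ℝ * ⟪z, u⟫_ℝ) + 2 * s) * h
  rw [← h3]
  module

theorem contDiff_kA [FiniteDimensional ℝ E] (S : KStr E w) : ContDiff ℝ ∞ (kA S) := by
  rw [contDiff_clm_apply_iff]
  intro u
  simp only [kA_apply]
  have h := contDiff_uu_sq_inv (E := E)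
  have hi : ContDiff ℝ ∞ (fun z : E => ⟪z, u⟫_ℝ) := contDiff_id.inner ℝ contDiff_const
  have hJ : ∀ (a : Fin w), ContDiff ℝ ∞ (fun z : E => ⟪S.J a z, u⟫_ℝ) := fun a =>
    (S.J a).contDiff.inner ℝ contDiff_const
  exact (contDiff_const.sub ((h.mul hi).smul contDiff_id)).add
    (ContDiff.sum fun a _ => (hJ a).smul (S.J a).contDiff)

theorem contDiff_kC [FiniteDimensional ℝ E] (S : KStr E w) : ContDiff ℝ ∞ (kC S) := by
  rw [contDiff_clm_apply_iff]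
  intro u
  simp only [kC_apply]
  have h := contDiff_uu_sq_inv (E := E)
  have hi : ContDiff ℝ ∞ (fun z : E => ⟪z, u⟫_ℝ) := contDiff_id.inner ℝ contDiff_const
  have hJ : ∀ (a : Fin w), ContDiff ℝ ∞ (fun z : E => ⟪S.J a z, u⟫_ℝ) := fun a =>
    (S.J a).contDiff.inner ℝ contDiff_const
  exact (contDiff_const.add (hi.smul contDiff_id)).sub
    (h.smul (ContDiff.sum fun a _ => (hJ a).smul (S.J a).contDiff))

theorem hasFDerivAt_inner_J (S : KStr E w) (a : Fin w) (u z : E) :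
    HasFDerivAt (fun y : E => ⟪S.J a y, u⟫_ℝ) (-innerSL ℝ (S.J a u)) z := by
  have h : (fun y : E => ⟪S.J a y, u⟫_ℝ) = fun y => (-innerSL ℝ (S.J a u)) y := by
    funext y
    rw [neg_apply, innerSL_apply_apply, S.inner_J_left, real_inner_comm]
  rw [h]
  exact (-innerSL ℝ (S.J a u)).hasFDerivAt

theorem hasFDerivAt_inner_l (u z : E) :
    HasFDerivAt (fun y : E => ⟪y, u⟫_ℝ) (innerSL ℝ u) z := by
  have h : (fun y : E => ⟪y, u⟫_ℝ) = fun y => (innerSL ℝ u) y := by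
    funext y
    rw [innerSL_apply_apply, real_inner_comm]
  rw [h]
  exact (innerSL ℝ u).hasFDerivAt

theorem kcompat [FiniteDimensional ℝ E] [Nontrivial E] (S : KStr E w) (z x u v : E) :
    ⟪fderiv ℝ (kA S) z x u, v⟫_ℝ = ⟪kA S z (kGam S z x u), v⟫_ℝ + ⟪kA S z u, kGam S z x v⟫_ℝ := by
  have hd : DifferentiableAt ℝ (kA S) z := (contDiff_kA S).differentiable (by simp) z
  have h1 : HasFDerivAt (fun y => ⟪kA S y u, v⟫_ℝ)
      ((innerSL ℝ v).comp ((fderiv ℝ (kA S) z).flip u)) z := by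
    have h2 := hd.hasFDerivAt.clm_apply (hasFDerivAt_const u z)
    have h3 := (innerSL ℝ v).hasFDerivAt.comp z h2
    refine (h3.congr_fderiv ?_).congr_of_eventuallyEq ?_
    · ext y; simp
    · refine Filter.Eventually.of_forall fun y => ?_
      simp only [Function.comp, innerSL_apply_apply]
      rw [real_inner_comm]
  have h4 : HasFDerivAt (fun y => ⟪kA S y u, v⟫_ℝ)
      (-((uu z ^ 2)⁻¹ • (⟪z, u⟫_ℝ • innerSL ℝ v + ⟪z, v⟫_ℝ • innerSL ℝ u)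
        + (⟪z, u⟫_ℝ * ⟪z, v⟫_ℝ) • (-(2 * ((uu z ^ 2)⁻¹) ^ 2) • innerSL ℝ z))
      + ∑ a, (⟪S.J a z, u⟫_ℝ • (-innerSL ℝ (S.J a v)) + ⟪S.J a z, v⟫_ℝ • (-innerSL ℝ (S.J a u))))
      z := by
    have e : (fun y => ⟪kA S y u, v⟫_ℝ) = fun y => (⟪u, v⟫_ℝ
        - (uu y ^ 2)⁻¹ * (⟪y, u⟫_ℝ * ⟪y, v⟫_ℝ)) + ∑ a, ⟪S.J a y, u⟫_ℝ * ⟪S.J a y, v⟫_ℝ := by
      funext y; rw [inner_kA]
    rw [e]
    refine HasFDerivAt.add ?_ (HasFDerivAt.fun_sum fun a _ => ?_)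
    · exact ((hasFDerivAt_uu_sq_inv z).mul
        ((hasFDerivAt_inner_l u z).mul (hasFDerivAt_inner_l v z))).const_sub _
    · exact (hasFDerivAt_inner_J S a u z).mul (hasFDerivAt_inner_J S a v z)
  have h5 := congrArg (fun L : E →L[ℝ] ℝ => L x) (h1.unique h4)
  simp only [ContinuousLinearMap.comp_apply, ContinuousLinearMap.flip_apply, innerSL_apply_apply,
    add_apply, neg_apply, smul_apply, smul_eq_mul, sum_apply] at h5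
  have h7 : ⟪kA S z u, kGam S z x v⟫_ℝ = ⟪kA S z (kGamL S z x v), u⟫_ℝ := by
    rw [kA_symm, real_inner_comm, kGam_eq]
  rw [real_inner_comm, h5, h7, kGam_eq, kA_kGam, kA_kGam, inner_add_left, inner_add_left,
    sum_inner, sum_inner, real_inner_smul_left, real_inner_smul_left]
  have h6 : ∑ a, ⟪⟪S.J a z, u⟫_ℝ • S.J a x + ⟪S.J a z, x⟫_ℝ • S.J a u, v⟫_ℝ
      + ∑ a, ⟪⟪S.J a z, v⟫_ℝ • S.J a x + ⟪S.J a z, x⟫_ℝ • S.J a v, u⟫_ℝ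
      = ∑ a, (⟪S.J a z, u⟫_ℝ * -⟪S.J a v, x⟫_ℝ + ⟪S.J a z, v⟫_ℝ * -⟪S.J a u, x⟫_ℝ) := by
    rw [← Finset.sum_add_distrib]
    refine Finset.sum_congr rfl fun a _ => ?_
    rw [inner_add_left, inner_add_left, real_inner_smul_left, real_inner_smul_left,
      real_inner_smul_left, real_inner_smul_left, S.inner_J_left a x v, S.inner_J_left a x u,
      S.inner_J_left a u v, real_inner_comm (S.J a v) x, real_inner_comm (S.J a u) x,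
      real_inner_comm (S.J a v) u]
    ring
  rw [← h6, real_inner_comm x u, real_inner_comm x v]
  ring

end

end Pool.Agent.Work.MP_3b24f6_gt
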