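import Pool.Agent.Work.MP_3b24f6_gt.KDefs

/-! `KStr` from a complex structure, or from two anticommuting complex structures. -/

set_option autoImplicit false

open scoped InnerProductSpace

namespace Pool.Agent.Work.MP_3b24f6_gt

noncomputable section

namespace KOf

variable {E : Type*} [NormedAddCommGroup E] [InnerProductSpace ℝ E]

/-- A complex structure as a `KStr`. -/
def kstrOfJ (J : E →L[ℝ] E) (hn : ∀ x, ‖J x‖ = ‖x‖) (hJ : ∀ x, J (J x) = -x) : KStr E 1 where
  J _ := J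
  norm_J _ := hn
  JJ _ := hJ
  anti a b h := absurd (Subsingleton.elim a b) h
  closed a b h := absurd (Subsingleton.elim a b) h

theorem kA_kstrOfJ (J : E →L[ℝ] E) (hn : ∀ x, ‖J x‖ = ‖x‖) (hJ : ∀ x, J (J x) = -x) (z : E) :
    kA (kstrOfJ J hn hJ) z = ContinuousLinearMap.id ℝ E
      - (uu z ^ 2)⁻¹ • (innerSL ℝ z).smulRight z + (innerSL ℝ (J z)).smulRight (J z) := by
  simp [kA, kstrOfJ]

section quat
variable (I J : E →L[ℝ] E)

/-- The three imaginary units. -/
def unit3 (I J : E →L[ℝ] E) : Fin 3 → E →L[ℝ] E := ![I, J, I.comp J]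

theorem KJ_rel (hI : ∀ x, I (I x) = -x) (hJ : ∀ x, J (J x) = -x)
    (hIJ : ∀ x, I (J x) = -J (I x)) :
    (∀ x, I (J (I x)) = J x) ∧ (∀ x, J (I (J x)) = I x) := by
  constructor
  · intro x
    have h := hIJ (I x)
    rw [hI] at h
    rw [h, map_neg, neg_neg]
  · intro x
    have h := hIJ (J x)
    rw [hJ, map_neg] at h
    exact (neg_injective h).symm

/-- Two anticommuting complex structures as a `KStr` with three units. -/
def kstrOfIJ (hnI : ∀ x, ‖I x‖ = ‖x‖) (hnJ : ∀ x, ‖J x‖ = ‖x‖) (hI : ∀ x, I (I x) = -x)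
    (hJ : ∀ x, J (J x) = -x) (hIJ : ∀ x, I (J x) = -J (I x)) : KStr E 3 where
  J := unit3 I J
  norm_J a x := by
    fin_cases a
    · exact hnI x
    · exact hnJ x
    · exact (hnI _).trans (hnJ x)
  JJ a x := by
    obtain ⟨h1, h2⟩ := KJ_rel I J hI hJ hIJ
    fin_cases a
    · exact hI x
    · exact hJ x
    · show I (J (I (J x))) = -x
      rw [h2, hI]
  anti a b h x := by
    obtain ⟨h1, h2⟩ := KJ_rel I J hI hJ hIJ
    fin_cases a <;> fin_cases b
    · exact absurd rfl h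
    · exact hIJ x
    · show I (I (J x)) = -I (J (I x))
      rw [hI, h1]
    · show J (I x) = -I (J x)
      rw [hIJ, neg_neg]
    · exact absurd rfl h
    · show J (I (J x)) = -I (J (J x))
      rw [h2, hJ, map_neg, neg_neg]
    · show I (J (I x)) = -I (I (J x))
      rw [hI, h1, neg_neg]
    · show I (J (J x)) = -J (I (J x))
      rw [h2, hJ, map_neg]
    · exact absurd rfl h
  closed a b h := by
    obtain ⟨h1, h2⟩ := KJ_rel I J hI hJ hIJ
    fin_cases a <;> fin_cases b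
    · exact absurd rfl h
    · exact ⟨2, Or.inl fun x => rfl⟩
    · exact ⟨1, Or.inr fun x => hI (J x)⟩
    · refine ⟨2, Or.inr fun x => ?_⟩
      show J (I x) = -I (J x)
      rw [hIJ, neg_neg]
    · exact absurd rfl h
    · exact ⟨0, Or.inl fun x => h2 x⟩
    · exact ⟨1, Or.inl fun x => h1 x⟩
    · refine ⟨0, Or.inr fun x => ?_⟩
      show I (J (J x)) = -I x
      rw [hJ, map_neg]
    · exact absurd rfl h

theorem kA_kstrOfIJ (hnI : ∀ x, ‖I x‖ = ‖x‖) (hnJ : ∀ x, ‖J x‖ = ‖x‖) (hI : ∀ x, I (I x) = -x)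
    (hJ : ∀ x, J (J x) = -x) (hIJ : ∀ x, I (J x) = -J (I x)) (z : E) :
    kA (kstrOfIJ I J hnI hnJ hI hJ hIJ) z = ContinuousLinearMap.id ℝ E
      - (uu z ^ 2)⁻¹ • (innerSL ℝ z).smulRight z + (innerSL ℝ (I z)).smulRight (I z)
      + (innerSL ℝ (J z)).smulRight (J z) + (innerSL ℝ (I (J z))).smulRight (I (J z)) := by
  unfold kA
  rw [Fin.sum_univ_three]
  show _ - _ + (_ + _ + _) = _
  rw [← add_assoc, ← add_assoc]
  rfl

end quat

end KOf

end

end Pool.Agent.Work.MP_3b24f6_gt
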