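import Pool.Agent.Work.MP_3b24f6_gt.KDefs

/-! The algebra generated by the complex structures of a `KStr`, and its action. -/

set_option autoImplicit false

open MeasureTheory Set Filter Topology
open scoped ContDiff InnerProductSpace

namespace Pool.Agent.Work.MP_3b24f6_gt

noncomputable section

namespace KIso

variable {E : Type*} [NormedAddCommGroup E] [InnerProductSpace ℝ E] {w : ℕ} (S : KStr E w)

theorem inner_JJ (a : Fin w) (x y : E) : ⟪S.J a x, S.J a y⟫_ℝ = ⟪x, y⟫_ℝ := by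
  have h := (real_inner_eq_norm_add_mul_self_sub_norm_mul_self_sub_norm_mul_self_div_two
    (S.J a x) (S.J a y))
  have h2 := (real_inner_eq_norm_add_mul_self_sub_norm_mul_self_sub_norm_mul_self_div_two x y)
  rw [h, h2, ← map_add, S.norm_J, S.norm_J, S.norm_J]

theorem inner_J_left (a : Fin w) (x y : E) : ⟪S.J a x, y⟫_ℝ = -⟪x, S.J a y⟫_ℝ := by
  have h := inner_JJ S a x (S.J a y)
  rw [S.JJ, inner_neg_right] at h
  linarith

theorem inner_J_self (a : Fin w) (x : E) : ⟪S.J a x, x⟫_ℝ = 0 := by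
  have h := inner_J_left S a x x
  have h2 : ⟪x, S.J a x⟫_ℝ = ⟪S.J a x, x⟫_ℝ := real_inner_comm _ _
  linarith

theorem inner_self_J (a : Fin w) (x : E) : ⟪x, S.J a x⟫_ℝ = 0 := by
  rw [real_inner_comm]; exact inner_J_self S a x

theorem inner_J_J_of_ne {a b : Fin w} (h : a ≠ b) (x : E) : ⟪S.J a x, S.J b x⟫_ℝ = 0 := by
  have h1 := inner_J_left S a x (S.J b x)
  rw [S.anti a b h, inner_neg_right, neg_neg] at h1
  have h2 := inner_J_left S b x (S.J a x)
  have h3 : ⟪S.J b x, S.J a x⟫_ℝ = ⟪S.J a x, S.J b x⟫_ℝ := real_inner_comm _ _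
  linarith

theorem inner_J_J (a b : Fin w) (x : E) :
    ⟪S.J a x, S.J b x⟫_ℝ = if a = b then ‖x‖ ^ 2 else 0 := by
  split_ifs with h
  · subst h
    rw [inner_JJ, real_inner_self_eq_norm_sq]
  · exact inner_J_J_of_ne S h x

/-- The operator `t₀ + ∑ t_a J_a`. -/
def kop (t0 : ℝ) (t : Fin w → ℝ) : E →L[ℝ] E :=
  t0 • ContinuousLinearMap.id ℝ E + ∑ a, t a • S.J a

theorem kop_apply (t0 : ℝ) (t : Fin w → ℝ) (x : E) :
    kop S t0 t x = t0 • x + ∑ a, t a • S.J a x := by
  simp [kop]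

theorem inner_kop_left (t0 : ℝ) (t : Fin w → ℝ) (x y : E) :
    ⟪kop S t0 t x, y⟫_ℝ = t0 * ⟪x, y⟫_ℝ + ∑ a, t a * ⟪S.J a x, y⟫_ℝ := by
  rw [kop_apply, inner_add_left, real_inner_smul_left, sum_inner]
  simp only [real_inner_smul_left]

theorem inner_kop_right (t0 : ℝ) (t : Fin w → ℝ) (x y : E) :
    ⟪x, kop S t0 t y⟫_ℝ = t0 * ⟪x, y⟫_ℝ + ∑ a, t a * ⟪x, S.J a y⟫_ℝ := by
  rw [kop_apply, inner_add_right, real_inner_smul_right, inner_sum]
  simp only [real_inner_smul_right]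

theorem kop_adj (t0 : ℝ) (t : Fin w → ℝ) (x y : E) :
    ⟪kop S t0 t x, y⟫_ℝ = ⟪x, kop S t0 (fun a => - t a) y⟫_ℝ := by
  rw [inner_kop_left, inner_kop_right]
  simp only [inner_J_left, mul_neg, neg_mul]

theorem inner_kop_self (t0 : ℝ) (t : Fin w → ℝ) (x : E) :
    ⟪kop S t0 t x, x⟫_ℝ = t0 * ‖x‖ ^ 2 := by
  rw [inner_kop_left]
  simp only [inner_J_self, mul_zero, Finset.sum_const_zero, add_zero, real_inner_self_eq_norm_sq]

theorem inner_J_kop (t0 : ℝ) (t : Fin w → ℝ) (x : E) (a : Fin w) :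
    ⟪S.J a x, kop S t0 t x⟫_ℝ = t a * ‖x‖ ^ 2 := by
  rw [inner_kop_right, inner_J_self, mul_zero, zero_add]
  simp only [inner_J_J, mul_ite, mul_zero, Finset.sum_ite_eq, Finset.mem_univ, if_true]

theorem norm_kop_sq (t0 : ℝ) (t : Fin w → ℝ) (x : E) :
    ‖kop S t0 t x‖ ^ 2 = (t0 ^ 2 + ∑ a, t a ^ 2) * ‖x‖ ^ 2 := by
  rw [← real_inner_self_eq_norm_sq, inner_kop_left, inner_kop_right]
  simp only [inner_J_kop, inner_self_J, mul_zero, Finset.sum_const_zero, add_zero,
    real_inner_self_eq_norm_sq]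
  rw [add_mul, Finset.sum_mul]
  congr 1
  · ring
  · refine Finset.sum_congr rfl fun a _ => by ring

theorem inner_kop_kop (t0 : ℝ) (t : Fin w → ℝ) (x y : E) :
    ⟪kop S t0 t x, kop S t0 t y⟫_ℝ = (t0 ^ 2 + ∑ a, t a ^ 2) * ⟪x, y⟫_ℝ := by
  have h := real_inner_eq_norm_add_mul_self_sub_norm_mul_self_sub_norm_mul_self_div_two
    (kop S t0 t x) (kop S t0 t y)
  have h2 := real_inner_eq_norm_add_mul_self_sub_norm_mul_self_sub_norm_mul_self_div_two x y
  rw [h, h2, ← map_add]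
  have e1 := norm_kop_sq S t0 t (x + y)
  have e2 := norm_kop_sq S t0 t x
  have e3 := norm_kop_sq S t0 t y
  rw [← pow_two, ← pow_two, ← pow_two, ← pow_two, ← pow_two, ← pow_two, e1, e2, e3]
  ring

/-- Membership in the algebra spanned by `1` and the `J_a`. -/
def IsK (T : E →L[ℝ] E) : Prop := ∃ (t0 : ℝ) (t : Fin w → ℝ), T = kop S t0 t

theorem isK_kop (t0 : ℝ) (t : Fin w → ℝ) : IsK S (kop S t0 t) := ⟨t0, t, rfl⟩

theorem isK_one : IsK S (1 : E →L[ℝ] E) := by
  refine ⟨1, fun _ => 0, ?_⟩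
  ext x; simp [kop_apply]

theorem isK_J (a : Fin w) : IsK S (S.J a) := by
  refine ⟨0, fun b => if b = a then 1 else 0, ?_⟩
  ext x
  simp [kop_apply]

theorem IsK.add {T U : E →L[ℝ] E} (hT : IsK S T) (hU : IsK S U) : IsK S (T + U) := by
  obtain ⟨t0, t, rfl⟩ := hT
  obtain ⟨u0, u, rfl⟩ := hU
  refine ⟨t0 + u0, fun a => t a + u a, ?_⟩
  ext x
  simp only [add_apply, kop_apply, add_smul, Finset.sum_add_distrib]
  abel

theorem IsK.smul {T : E →L[ℝ] E} (c : ℝ) (hT : IsK S T) : IsK S (c • T) := by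
  obtain ⟨t0, t, rfl⟩ := hT
  refine ⟨c * t0, fun a => c * t a, ?_⟩
  ext x
  simp only [smul_apply, kop_apply, mul_smul, smul_add, Finset.smul_sum]

theorem IsK.neg {T : E →L[ℝ] E} (hT : IsK S T) : IsK S (-T) := by
  have := hT.smul S (-1)
  simpa using this

theorem IsK.sub {T U : E →L[ℝ] E} (hT : IsK S T) (hU : IsK S U) : IsK S (T - U) := by
  rw [sub_eq_add_neg]; exact hT.add S (hU.neg S)

theorem isK_zero : IsK S (0 : E →L[ℝ] E) := by
  have := (isK_one S).smul S 0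
  simpa using this

theorem IsK.sum {ι : Type*} (s : Finset ι) (T : ι → E →L[ℝ] E) (h : ∀ i ∈ s, IsK S (T i)) :
    IsK S (∑ i ∈ s, T i) := by
  classical
  induction s using Finset.induction_on with
  | empty => simpa using isK_zero S
  | insert i s hi ih =>
    rw [Finset.sum_insert hi]
    exact (h i (Finset.mem_insert_self _ _)).add S
      (ih fun j hj => h j (Finset.mem_insert_of_mem hj))

theorem isK_J_mul_J (a b : Fin w) : IsK S (S.J a * S.J b) := by
  by_cases h : a = b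
  · subst h
    have : S.J a * S.J a = -1 := by
      ext x; simp [S.JJ]
    rw [this]
    exact (isK_one S).neg S
  · obtain ⟨c, hc | hc⟩ := S.closed a b h
    · have : S.J a * S.J b = S.J c := by
        ext x; simp [hc]
      rw [this]; exact isK_J S c
    · have : S.J a * S.J b = -S.J c := by
        ext x; simp [hc]
      rw [this]; exact (isK_J S c).neg S

theorem kop_eq (t0 : ℝ) (t : Fin w → ℝ) :
    kop S t0 t = t0 • (1 : E →L[ℝ] E) + ∑ a, t a • S.J a := rfl

theorem IsK.mul {T U : E →L[ℝ] E} (hT : IsK S T) (hU : IsK S U) : IsK S (T * U) := by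
  obtain ⟨t0, t, rfl⟩ := hT
  obtain ⟨u0, u, rfl⟩ := hU
  have e : kop S t0 t * kop S u0 u = t0 • kop S u0 u
      + ∑ a, t a • (u0 • S.J a + ∑ b, u b • (S.J a * S.J b)) := by
    rw [kop_eq S t0 t, add_mul, smul_mul_assoc, one_mul, Finset.sum_mul]
    congr 1
    refine Finset.sum_congr rfl fun a _ => ?_
    rw [smul_mul_assoc, kop_eq S u0 u, mul_add, mul_smul_comm, mul_one, Finset.mul_sum]
    simp only [mul_smul_comm]
  rw [e]
  refine ((isK_kop S u0 u).smul S t0).add S (IsK.sum S _ _ fun a _ => IsK.smul S _ ?_)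
  exact ((isK_J S a).smul S _).add S (IsK.sum S _ _ fun b _ => (isK_J_mul_J S a b).smul S _)

theorem kop_inj_zero {z0 : E} (hz : ‖z0‖ = 1) {t0 : ℝ} {t : Fin w → ℝ}
    (h : kop S t0 t z0 = 0) : kop S t0 t = 0 := by
  have h1 := norm_kop_sq S t0 t z0
  rw [h, norm_zero, hz] at h1
  have h2 : 0 ≤ ∑ a, t a ^ 2 := Finset.sum_nonneg fun a _ => sq_nonneg _
  have h3 : t0 = 0 := by nlinarith [sq_nonneg t0]
  have h4 : ∑ a, t a ^ 2 = 0 := by nlinarith [sq_nonneg t0]
  have h5 : ∀ a, t a = 0 := by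
    intro a
    have := (Finset.sum_eq_zero_iff_of_nonneg (fun a _ => sq_nonneg (t a))).mp h4 a
      (Finset.mem_univ a)
    exact pow_eq_zero_iff (two_ne_zero) |>.mp this
  ext x
  simp [kop_apply, h3, h5]

/-- Real part, computed with a unit vector `z0`. -/
def re (z0 : E) (T : E →L[ℝ] E) : ℝ := ⟪T z0, z0⟫_ℝ

variable {z0 : E} (hz : ‖z0‖ = 1)

theorem re_add (T U : E →L[ℝ] E) : re z0 (T + U) = re z0 T + re z0 U := by
  simp [re, inner_add_left]

theorem re_sub (T U : E →L[ℝ] E) : re z0 (T - U) = re z0 T - re z0 U := by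
  simp [re, inner_sub_left]

theorem re_smul (c : ℝ) (T : E →L[ℝ] E) : re z0 (c • T) = c * re z0 T := by
  simp [re, real_inner_smul_left]

include hz in
theorem re_kop (t0 : ℝ) (t : Fin w → ℝ) : re z0 (kop S t0 t) = t0 := by
  unfold re
  rw [inner_kop_self, hz]; ring

include hz in
theorem inner_self_of_isK {T : E →L[ℝ] E} (hT : IsK S T) (x : E) :
    ⟪T x, x⟫_ℝ = re z0 T * ‖x‖ ^ 2 := by
  obtain ⟨t0, t, rfl⟩ := hT
  rw [inner_kop_self, re_kop S hz]

include hz in
theorem norm_sq_of_isK {T : E →L[ℝ] E} (hT : IsK S T) (x : E) :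
    ‖T x‖ ^ 2 = ‖T z0‖ ^ 2 * ‖x‖ ^ 2 := by
  obtain ⟨t0, t, rfl⟩ := hT
  rw [norm_kop_sq, norm_kop_sq, hz]; ring

include hz in
theorem re_kop_mul_kop (t0 : ℝ) (t : Fin w → ℝ) (u0 : ℝ) (u : Fin w → ℝ) :
    re z0 (kop S t0 t * kop S u0 u) = t0 * u0 - ∑ a, t a * u a := by
  show ⟪kop S t0 t (kop S u0 u z0), z0⟫_ℝ = _
  rw [kop_adj, inner_kop_left, inner_kop_right]
  simp only [inner_J_kop, inner_self_J, mul_zero, Finset.sum_const_zero, add_zero,
    real_inner_self_eq_norm_sq, hz]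
  rw [sub_eq_add_neg, ← Finset.sum_neg_distrib]
  congr 1
  · ring
  · refine Finset.sum_congr rfl fun a _ => by ring

include hz in
theorem re_mul_comm {T U : E →L[ℝ] E} (hT : IsK S T) (hU : IsK S U) :
    re z0 (T * U) = re z0 (U * T) := by
  obtain ⟨t0, t, rfl⟩ := hT
  obtain ⟨u0, u, rfl⟩ := hU
  rw [re_kop_mul_kop S hz, re_kop_mul_kop S hz]
  congr 1
  · ring
  · refine Finset.sum_congr rfl fun a _ => by ring

/-- The hermitian form, as an element of the algebra. -/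
def M (x p : E) : E →L[ℝ] E := kop S ⟪x, p⟫_ℝ (fun a => ⟪x, S.J a p⟫_ℝ)

theorem isK_M (x p : E) : IsK S (M S x p) := isK_kop S _ _

include hz in
theorem re_mul_M {T : E →L[ℝ] E} (hT : IsK S T) (x p : E) :
    re z0 (T * M S x p) = ⟪T x, p⟫_ℝ := by
  obtain ⟨t0, t, rfl⟩ := hT
  unfold M
  rw [re_kop_mul_kop S hz, inner_kop_left]
  simp only [inner_J_left, mul_neg, Finset.sum_neg_distrib]
  ring

theorem M_neg_right (x p : E) : M S x (-p) = -M S x p := by
  ext y
  simp only [M, kop_apply, inner_neg_right, map_neg, neg_smul, Finset.sum_neg_distrib, neg_apply]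
  abel

theorem M_self (p : E) : M S p p = ‖p‖ ^ 2 • (1 : E →L[ℝ] E) := by
  ext y
  simp [M, kop_apply, inner_self_J]

theorem M_add_left (x y p : E) : M S (x + y) p = M S x p + M S y p := by
  ext z
  simp only [M, kop_apply, inner_add_left, add_smul, Finset.sum_add_distrib, add_apply]
  abel

theorem M_smul_left (c : ℝ) (x p : E) : M S (c • x) p = c • M S x p := by
  ext z
  simp only [M, kop_apply, real_inner_smul_left, smul_apply, smul_add, smul_smul,
    Finset.smul_sum]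

theorem M_zero_left (p : E) : M S 0 p = 0 := by
  ext z
  simp [M, kop_apply]

section complete
variable [CompleteSpace E]

theorem star_kop (t0 : ℝ) (t : Fin w → ℝ) : star (kop S t0 t) = kop S t0 (fun a => - t a) := by
  rw [ContinuousLinearMap.star_eq_adjoint]
  symm
  rw [ContinuousLinearMap.eq_adjoint_iff]
  intro x y
  rw [kop_adj]
  simp

theorem IsK.star {T : E →L[ℝ] E} (hT : IsK S T) : IsK S (star T) := by
  obtain ⟨t0, t, rfl⟩ := hT
  rw [star_kop]; exact isK_kop S _ _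

theorem inner_star (T : E →L[ℝ] E) (x y : E) : ⟪(star T) x, y⟫_ℝ = ⟪x, T y⟫_ℝ := by
  rw [ContinuousLinearMap.star_eq_adjoint, ContinuousLinearMap.adjoint_inner_left]

theorem inner_star' (T : E →L[ℝ] E) (x y : E) : ⟪x, (star T) y⟫_ℝ = ⟪T x, y⟫_ℝ := by
  rw [ContinuousLinearMap.star_eq_adjoint, ContinuousLinearMap.adjoint_inner_right]

theorem re_star (T : E →L[ℝ] E) : re z0 (star T) = re z0 T := by
  unfold re
  rw [inner_star, real_inner_comm]

theorem star_kop_mul (t0 : ℝ) (t : Fin w → ℝ) :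
    star (kop S t0 t) * kop S t0 t = (t0 ^ 2 + ∑ a, t a ^ 2) • (1 : E →L[ℝ] E) := by
  ext x
  refine ext_inner_right ℝ fun y => ?_
  rw [mul_apply_eq_comp, inner_star, inner_kop_kop, smul_apply,
    one_apply_eq_self, real_inner_smul_left]

theorem kop_mul_star (t0 : ℝ) (t : Fin w → ℝ) :
    kop S t0 t * star (kop S t0 t) = (t0 ^ 2 + ∑ a, t a ^ 2) • (1 : E →L[ℝ] E) := by
  have h := star_kop_mul S t0 (fun a => - t a)
  rw [star_kop] at h
  rw [star_kop]
  simpa using h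

include hz in
/-- Left linearity of the hermitian form. -/
theorem M_mul {T : E →L[ℝ] E} (hT : IsK S T) (x p : E) : M S (T x) p = T * M S x p := by
  have hD : IsK S (M S (T x) p - T * M S x p) := (isK_M S _ _).sub S (hT.mul S (isK_M S _ _))
  have h0 : ∀ U, IsK S U → re z0 (U * (M S (T x) p - T * M S x p)) = 0 := by
    intro U hU
    rw [mul_sub, re_sub, re_mul_M S hz hU, ← mul_assoc, re_mul_M S hz (hU.mul S hT)]
    simp
  have h1 := h0 _ (hD.star S)
  obtain ⟨d0, d, hd⟩ := hD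
  rw [hd, star_kop_mul, re_smul] at h1
  have h2 : re z0 (1 : E →L[ℝ] E) = 1 := by
    unfold re
    simp [hz]
  rw [h2, mul_one] at h1
  have h3 : kop S d0 d = 0 := by
    apply kop_inj_zero S hz
    have := norm_kop_sq S d0 d z0
    rw [h1, zero_mul] at this
    exact norm_eq_zero.mp (pow_eq_zero_iff (two_ne_zero) |>.mp this)
  rw [h3] at hd
  exact sub_eq_zero.mp hd

end complete

end KIso

end

end Pool.Agent.Work.MP_3b24f6_gt
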