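import Pool.Agent.Work.MP_3b24f6_gt.KIso
import Pool.Agent.Work.MP_3b24f6_gt.HomC
import Pool.Agent.Work.MP_3b24f6_gt.IsomPhi

/-! The transvections of the hyperbolic spaces over `ℝ`, `ℂ`, `ℍ` are isometries. -/

set_option autoImplicit false
set_option linter.unusedSectionVars false
set_option linter.unnecessarySeqFocus false

open MeasureTheory Set Filter Topology
open scoped ContDiff InnerProductSpace

namespace Pool.Agent.Work.MP_3b24f6_gt

noncomputable section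

namespace KIso

open CIso (uu_sq one_le_uu uu_pos uu_zero uu_neg contDiff_uu contDiff_inner_left
  one_le_uu_mul_sub hasDerivAt_uu_line hasDerivAt_uu_comp)

variable {E : Type*} [NormedAddCommGroup E] [InnerProductSpace ℝ E] {w : ℕ} (S : KStr E w)

theorem kphi_zero (p : E) : kphi S p 0 = p := by
  have hu := uu_pos p
  have e1 : ∀ a, kb S a p (0 : E) = 0 := by intro a; simp [kb]
  have e2 : ka p (0 : E) = uu p := by simp [ka]
  have e3 : kv1 S p 0 = p := by simp [kv1]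
  unfold kphi
  simp only [e1, e2, e3]
  simp [Real.sqrt_sq hu.le, smul_smul, inv_mul_cancel₀ hu.ne']

section complete
variable [CompleteSpace E]

theorem M_kphi {z0 : E} (hz : ‖z0‖ = 1) (p y : E) :
    M S (kphi S p y) p = (uu p * Real.sqrt (kn2 S p y)) • (1 : E →L[ℝ] E)
      - ((Real.sqrt (kn2 S p y))⁻¹ * uu y) • star (kq S p y) := by
  have h1 := one_le_kn2 S hz p y
  set n := Real.sqrt (kn2 S p y) with hn
  have hn0 : 0 < n := Real.sqrt_pos.mpr (by linarith)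
  have hn2 : n ^ 2 = kn2 S p y := Real.sq_sqrt (by linarith)
  have hp : ‖p‖ ^ 2 = uu p ^ 2 - 1 := by rw [uu_sq]; ring
  have hu : uu p + 1 ≠ 0 := by have := uu_pos p; positivity
  have e1 : M S y p + (uu p ^ 2 - 1) • kAp S p y
      = uu p • kq S p y - uu y • (1 : E →L[ℝ] E) := by
    simp only [kq, kAp]
    match_scalars <;> field_simp <;> ring
  rw [kphi_eq, ← hn, M_smul_left, M_mul S hz ((isK_kq S p y).star S), kv1_eq, M_add_left,
    M_mul S hz (isK_kAp S p y), M_self, mul_smul_comm, mul_one, hp, e1, mul_sub, mul_smul_comm,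
    star_kq_mul, ← hn2, mul_smul_comm, mul_one]
  match_scalars
  · field_simp
  · ring

theorem kphi_neg (p y : E) : kphi S (-p) (kphi S p y) = y := by
  rcases subsingleton_or_nontrivial E with hE | hE
  · exact Subsingleton.elim _ _
  obtain ⟨z0, hz⟩ := exists_norm_eq E zero_le_one
  have h1 := one_le_kn2 S hz p y
  have hun := uu_kphi S hz p y
  have hM := M_kphi S hz p y
  have h3 := kphi_eq S p y
  set n := Real.sqrt (kn2 S p y) with hn
  have hn0 : 0 < n := Real.sqrt_pos.mpr (by linarith)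
  have hn2 : n ^ 2 = kn2 S p y := Real.sq_sqrt (by linarith)
  have hu : uu p + 1 ≠ 0 := by have := uu_pos p; positivity
  have hy := uu_pos y
  have hq' : kq S (-p) (kphi S p y) = (n⁻¹ * uu y) • star (kq S p y) := by
    rw [kq, M_neg_right, hM, uu_neg, hun]
    match_scalars
    · ring
    · ring
  have hA' : kAp S (-p) (kphi S p y)
      = (uu p + 1)⁻¹ • (n • (1 : E →L[ℝ] E) + (n⁻¹ * uu y) • star (kq S p y)) := by
    rw [kAp, M_neg_right, hM, uu_neg, hun]
    match_scalars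
    · field_simp; ring
    · ring
  have hv : kv1 S (-p) (kphi S p y) = n⁻¹ • (star (kq S p y)) y := by
    rw [kv1_eq, hA', h3, kv1_eq, map_add]
    have e2 : star (kq S p y) * kAp S p y
        = (uu p + 1)⁻¹ • (kn2 S p y • (1 : E →L[ℝ] E) + uu y • star (kq S p y)) := by
      have e3 : kAp S p y = (uu p + 1)⁻¹ • (kq S p y + uu y • (1 : E →L[ℝ] E)) := by
        simp only [kq, kAp]
        match_scalars <;> field_simp
      rw [e3, mul_smul_comm, mul_add, star_kq_mul, mul_smul_comm, mul_one]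
    have e4 := congrArg (fun V : E →L[ℝ] E => V p) e2
    simp only [mul_apply_eq_comp, smul_apply, add_apply, one_apply_eq_self] at e4
    rw [e4, ← hn2]
    simp only [smul_apply, add_apply, one_apply_eq_self, map_neg]
    match_scalars
    · ring
    · field_simp; ring
    · ring
  have hk : kn2 S (-p) (kphi S p y) = uu y ^ 2 := by
    have h5 := norm_kq_z0 S hz (-p) (kphi S p y)
    have h6 := one_le_kn2 S hz (-p) (kphi S p y)
    rw [hq', smul_apply, norm_smul, norm_star_kq_z0 S hz, ← hn, Real.norm_eq_abs,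
      abs_of_pos (by positivity)] at h5
    have h7 : n⁻¹ * uu y * n = uu y := by field_simp
    rw [h7] at h5
    rw [h5, Real.sq_sqrt (by linarith)]
  rw [kphi_eq, hk, Real.sqrt_sq hy.le, hq', hv, star_smul, star_star, star_trivial, smul_apply,
    map_smul]
  have e5 := congrArg (fun V : E →L[ℝ] E => V y) (kq_mul_star S p y)
  simp only [mul_apply_eq_comp, smul_apply, one_apply_eq_self] at e5
  rw [e5, ← hn2]
  match_scalars
  field_simp

theorem kchd_pos (x y : E) : 0 < kchd S x y := by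
  apply Real.sqrt_pos.mpr
  have := one_le_uu_mul_sub x y
  have h2 : 0 ≤ ∑ a, ⟪S.J a x, y⟫_ℝ ^ 2 := Finset.sum_nonneg fun a _ => sq_nonneg _
  nlinarith

theorem kchd_phi (p x y : E) : kchd S (kphi S p x) (kphi S p y) = kchd S x y := by
  rcases subsingleton_or_nontrivial E with hE | hE
  · rw [Subsingleton.elim (kphi S p x) x, Subsingleton.elim (kphi S p y) y]
  obtain ⟨z0, hz⟩ := exists_norm_eq E zero_le_one
  apply le_antisymm (kchd_phi_le S hz p x y (kchd_pos S _ _))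
  have h := kchd_phi_le S hz (-p) (kphi S p x) (kphi S p y) (kchd_pos S _ _)
  rwa [kphi_neg, kphi_neg] at h

theorem one_le_kn2' (p y : E) : 1 ≤ kn2 S p y := by
  rcases subsingleton_or_nontrivial E with hE | hE
  · have hp : p = 0 := Subsingleton.elim _ _
    have hy : y = 0 := Subsingleton.elim _ _
    subst hp; subst hy
    simp [kn2, ka, kb]
  obtain ⟨z0, hz⟩ := exists_norm_eq E zero_le_one
  exact one_le_kn2 S hz p y

theorem contDiff_ka (p : E) : ContDiff ℝ ∞ (ka p) :=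
  (contDiff_inner_left p).add (contDiff_const.mul contDiff_uu)

theorem contDiff_kb (a : Fin w) (p : E) : ContDiff ℝ ∞ (kb S a p) :=
  contDiff_inner_left (S.J a p)

theorem contDiff_kv1 (p : E) : ContDiff ℝ ∞ (kv1 S p) :=
  (contDiff_id.add ((((contDiff_inner_left p).div_const _).add contDiff_uu).smul
    contDiff_const)).add (ContDiff.sum fun a _ =>
      ((contDiff_inner_left (S.J a p)).div_const _).smul contDiff_const)

theorem contDiff_sqrt_kn2 (p : E) : ContDiff ℝ ∞ (fun y => Real.sqrt (kn2 S p y)) := by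
  refine ContDiff.sqrt (((contDiff_ka p).pow 2).add
    (ContDiff.sum fun a _ => (contDiff_kb S a p).pow 2)) (fun y => ?_)
  have := one_le_kn2' S p y
  have h : (0 : ℝ) < kn2 S p y := by linarith
  exact h.ne'

theorem contDiff_kphi (p : E) : ContDiff ℝ ∞ (kphi S p) := by
  have h1 := contDiff_sqrt_kn2 S p
  have h2 : ContDiff ℝ ∞ (fun y => (Real.sqrt (kn2 S p y))⁻¹) := by
    refine h1.inv (fun y => ?_)
    have := one_le_kn2' S p y
    exact (Real.sqrt_pos.mpr (by linarith)).ne'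
  exact h2.smul (((contDiff_ka p).smul (contDiff_kv1 S p)).sub
    (ContDiff.sum fun a _ => (contDiff_kb S a p).smul
      ((S.J a).contDiff.comp (contDiff_kv1 S p))))

end complete

/-- exact formula, gives the isometry property by looking at `x = y + t v`, `t → 0`. -/
theorem kchd_sq (x y : E) : kchd S x y ^ 2 = 1 + (‖x - y‖ ^ 2 - (uu x - uu y) ^ 2)
    + ∑ a, ⟪x - y, S.J a y⟫_ℝ ^ 2 + (‖x - y‖ ^ 2 - (uu x - uu y) ^ 2) ^ 2 / 4 := by
  have e : ∀ a, ⟪x - y, S.J a y⟫_ℝ ^ 2 = ⟪S.J a x, y⟫_ℝ ^ 2 := by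
    intro a
    rw [inner_sub_left, inner_self_J S, inner_J_left S a x y]; ring
  rw [kchd_sq_eq, norm_sub_sq_real]
  simp only [e]
  have h1 := uu_sq x
  have h2 := uu_sq y
  have h3 : ‖x‖ ^ 2 - 2 * ⟪x, y⟫_ℝ + ‖y‖ ^ 2 - (uu x - uu y) ^ 2
      = 2 * (uu x * uu y - ⟪x, y⟫_ℝ) - 2 := by
    nlinarith
  rw [h3]
  ring

theorem kA_apply (z v : E) : kA S z v
    = v - (uu z ^ 2)⁻¹ • (⟪z, v⟫_ℝ • z) + ∑ a, ⟪S.J a z, v⟫_ℝ • S.J a z := by
  simp [kA]

theorem kA_inner (z u v : E) : ⟪kA S z u, v⟫_ℝ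
    = ⟪u, v⟫_ℝ - (uu z ^ 2)⁻¹ * (⟪z, u⟫_ℝ * ⟪z, v⟫_ℝ)
      + ∑ a, ⟪S.J a z, u⟫_ℝ * ⟪S.J a z, v⟫_ℝ := by
  rw [kA_apply]
  simp only [inner_add_left, inner_sub_left, real_inner_smul_left, sum_inner]

theorem kA_symm (z u v : E) : ⟪kA S z u, v⟫_ℝ = ⟪kA S z v, u⟫_ℝ := by
  rw [kA_inner, kA_inner, real_inner_comm v u, mul_comm ⟪z, u⟫_ℝ]
  congr 1
  exact Finset.sum_congr rfl fun a _ => mul_comm _ _

/-- Second order expansion of `cosh² d` along a curve. -/
theorem tendsto_kchd_sq {γ : ℝ → E} {x v : E} (h0 : γ 0 = x) (hγ : HasDerivAt γ v 0) :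
    Tendsto (fun t => (kchd S (γ t) x ^ 2 - 1) / t ^ 2) (𝓝[≠] 0) (𝓝 ⟪kA S x v, v⟫_ℝ) := by
  have ha : Tendsto (fun t : ℝ => t⁻¹ • (γ t - x)) (𝓝[≠] 0) (𝓝 v) := by
    have h := hasDerivAt_iff_tendsto_slope.mp hγ
    refine h.congr (fun t => ?_)
    simp [slope, h0]
  have hb : Tendsto (fun t : ℝ => t⁻¹ * (uu (γ t) - uu x)) (𝓝[≠] 0) (𝓝 (⟪x, v⟫_ℝ / uu x)) := by
    have h := hasDerivAt_iff_tendsto_slope.mp (hasDerivAt_uu_comp hγ)
    rw [h0] at h
    refine h.congr (fun t => ?_)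
    simp [slope, h0]
  have ht : Tendsto (fun t : ℝ => t) (𝓝[≠] 0) (𝓝 0) := tendsto_id.mono_left nhdsWithin_le_nhds
  have hD := (ha.norm.pow 2).sub (hb.pow 2)
  have hJ : Tendsto (fun t : ℝ => ∑ a, ⟪t⁻¹ • (γ t - x), S.J a x⟫_ℝ ^ 2) (𝓝[≠] 0)
      (𝓝 (∑ a, ⟪v, S.J a x⟫_ℝ ^ 2)) :=
    tendsto_finsetSum _ fun a _ => (ha.inner (𝕜 := ℝ) tendsto_const_nhds).pow 2
  have hE := (((ht.pow 2).mul (hD.pow 2)).div_const 4)
  have hsum := (hD.add hJ).add hE
  have e : ⟪kA S x v, v⟫_ℝ = ‖v‖ ^ 2 - (⟪x, v⟫_ℝ / uu x) ^ 2 + ∑ a, ⟪v, S.J a x⟫_ℝ ^ 2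
      + 0 ^ 2 * (‖v‖ ^ 2 - (⟪x, v⟫_ℝ / uu x) ^ 2) ^ 2 / 4 := by
    rw [kA_inner, real_inner_self_eq_norm_sq]
    have := uu_pos x
    have e2 : ∀ a, ⟪S.J a x, v⟫_ℝ * ⟪S.J a x, v⟫_ℝ = ⟪v, S.J a x⟫_ℝ ^ 2 := by
      intro a; rw [real_inner_comm v]; ring
    simp only [e2]
    field_simp
    ring
  rw [e]
  refine hsum.congr' ?_
  filter_upwards [self_mem_nhdsWithin] with t htne
  have htne' : t ≠ 0 := htne
  have e3 : ∀ a, ⟪t⁻¹ • (γ t - x), S.J a x⟫_ℝ ^ 2 = (t ^ 2)⁻¹ * ⟪γ t - x, S.J a x⟫_ℝ ^ 2 := by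
    intro a; rw [real_inner_smul_left]; ring
  simp only [e3]
  rw [kchd_sq, norm_smul, Real.norm_eq_abs, mul_pow, sq_abs, ← Finset.mul_sum]
  field_simp
  ring

section complete2
variable [CompleteSpace E]

theorem isom_kphi_self (p y v : E) :
    ⟪kA S (kphi S p y) (fderiv ℝ (kphi S p) y v), fderiv ℝ (kphi S p) y v⟫_ℝ
      = ⟪kA S y v, v⟫_ℝ := by
  have h1 : HasDerivAt (fun t : ℝ => y + t • v) v 0 := by
    simpa using ((hasDerivAt_id (0 : ℝ)).smul_const v).const_add y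
  have hd : HasFDerivAt (kphi S p) (fderiv ℝ (kphi S p) y) y :=
    ((contDiff_kphi S p).differentiable (by simp)).differentiableAt.hasFDerivAt
  have h2 : HasDerivAt (fun t : ℝ => kphi S p (y + t • v)) (fderiv ℝ (kphi S p) y v) 0 := by
    have hd' : HasFDerivAt (kphi S p) (fderiv ℝ (kphi S p) y) ((fun t : ℝ => y + t • v) 0) := by
      simpa using hd
    exact hd'.comp_hasDerivAt (0 : ℝ) h1
  have l1 := tendsto_kchd_sq S (γ := fun t : ℝ => y + t • v) (x := y) (by simp) h1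
  have l2 := tendsto_kchd_sq S (γ := fun t : ℝ => kphi S p (y + t • v)) (x := kphi S p y)
    (by simp) h2
  have l3 : Tendsto (fun t : ℝ => (kchd S (y + t • v) y ^ 2 - 1) / t ^ 2) (𝓝[≠] 0)
      (𝓝 ⟪kA S (kphi S p y) (fderiv ℝ (kphi S p) y v), fderiv ℝ (kphi S p) y v⟫_ℝ) := by
    refine l2.congr (fun t => ?_)
    rw [kchd_phi]
  exact tendsto_nhds_unique l3 l1

theorem isom_kphi (p y u v : E) :
    ⟪kA S (kphi S p y) (fderiv ℝ (kphi S p) y u), fderiv ℝ (kphi S p) y v⟫_ℝ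
      = ⟪kA S y u, v⟫_ℝ := by
  have h1 := isom_kphi_self S p y (u + v)
  have h2 := isom_kphi_self S p y u
  have h3 := isom_kphi_self S p y v
  have h4 := kA_symm S (kphi S p y) (fderiv ℝ (kphi S p) y u) (fderiv ℝ (kphi S p) y v)
  have h5 := kA_symm S y u v
  simp only [map_add, inner_add_left, inner_add_right] at h1
  linarith

end complete2

end KIso

end

end Pool.Agent.Work.MP_3b24f6_gt
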