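import Pool.Agent.Work.MP_3b24f6_gt.KMet

/-! Ricci curvature of the hyperbolic spaces over `ℂ` and `ℍ`. -/

set_option autoImplicit false
set_option linter.unusedSectionVars false

open MeasureTheory Set Filter Topology
open scoped ContDiff InnerProductSpace

namespace Pool.Agent.Work.MP_3b24f6_gt

noncomputable section

variable {E : Type*} [NormedAddCommGroup E] [InnerProductSpace ℝ E] [FiniteDimensional ℝ E]
  {w : ℕ}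

/-- Trace of the Christoffel map. -/
theorem tr_kGam (S : KStr E w) (z x : E) :
    tr (kGam S z x) = (w - 1) * ((uu z ^ 2)⁻¹ * ⟪z, x⟫_ℝ) := by
  rw [kGam_eq, kGamL, ktr_sub, ktr_add, ktr_smul, ktr_sum, ktr_sum, ktr_rank]
  have h1 : ∀ a, tr ((innerSL ℝ (S.J a z)).smulRight (S.J a x) + ⟪S.J a z, x⟫_ℝ • S.J a)
      = ⟪z, x⟫_ℝ := by
    intro a
    rw [ktr_add, ktr_smul, ktr_rank, S.tr_J, S.inner_JJ]
    ring
  have h2 : ∀ a, tr ((innerSL ℝ (⟪z, x⟫_ℝ • S.J a z + ⟪S.J a z, x⟫_ℝ • z)).smulRight (S.J a z))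
      = ⟪z, x⟫_ℝ * ‖z‖ ^ 2 := by
    intro a
    rw [ktr_rank, inner_add_left, real_inner_smul_left, real_inner_smul_left, S.inner_self_J,
      real_inner_self_eq_norm_sq, S.norm_J]
    ring
  simp only [h1, h2]
  rw [inner_sub_left, inner_add_left, inner_neg_left, real_inner_smul_left,
    real_inner_smul_left, real_inner_self_eq_norm_sq, real_inner_comm z (∑ a, ⟪S.J a z, x⟫_ℝ • S.J a z)]
  have h3 : ⟪z, ∑ a, ⟪S.J a z, x⟫_ℝ • S.J a z⟫_ℝ = 0 := inner_z_sum_J S z _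
  rw [h3, real_inner_comm z x, Finset.sum_const, Finset.sum_const, Finset.card_univ,
    Fintype.card_fin, nsmul_eq_mul, nsmul_eq_mul]
  have h := inv_uu_sq_mul z
  linear_combination (-w + 1 : ℝ) * ⟪z, x⟫_ℝ * h

/-- Volume density. -/
theorem kr_hasFDerivAt_uu (z : E) : HasFDerivAt (fun y : E => uu y) ((uu z)⁻¹ • innerSL ℝ z) z := by
  have h1 : (fun y : E => uu y) = fun y => Real.sqrt (uu y ^ 2) := by
    funext y; rw [Real.sqrt_sq (uu_pos' y).le]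
  rw [h1]
  have h := (Real.hasDerivAt_sqrt (uu_sq_pos' z).ne').comp_hasFDerivAt z (hasFDerivAt_uu_sq z)
  refine h.congr_fderiv ?_
  ext y
  simp only [smul_apply, innerSL_apply_apply, smul_eq_mul]
  rw [Real.sqrt_sq (uu_pos' z).le]
  have := (uu_pos' z).ne'
  field_simp

theorem krho_pos (w : ℕ) (z : E) : 0 < krho w z := pow_pos (uu_pos' z) _

theorem contDiff_krho (w : ℕ) : ContDiff ℝ ∞ (krho w : E → ℝ) := by
  unfold krho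
  exact kg_contDiff_uu.pow _

theorem krho_deriv (hw : 1 ≤ w) (S : KStr E w) (z x : E) :
    fderiv ℝ (krho w) z x = krho w z * tr (kGam S z x) := by
  rw [tr_kGam]
  obtain ⟨n, rfl⟩ : ∃ n, w = n + 1 := ⟨w - 1, by omega⟩
  have h : HasFDerivAt (krho (n + 1) : E → ℝ) ((n * uu z ^ (n - 1)) • ((uu z)⁻¹ • innerSL ℝ z)) z := by
    have := (kr_hasFDerivAt_uu z).pow n
    refine this.congr_fderiv ?_
    ext y
    simp
  rw [h.fderiv]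
  have h0 := (uu_pos' z).ne'
  simp only [smul_apply, innerSL_apply_apply, smul_eq_mul, krho, Nat.add_sub_cancel]
  push_cast
  rcases n with _ | n
  · simp
  · rw [Nat.add_sub_cancel]
    field_simp
    ring

/-- The derivative of `y ↦ Γ_y(v, v)`. -/
def kdF (S : KStr E w) (z v : E) : E →L[ℝ] E :=
  (innerSL ℝ ((-(2 * ((uu z ^ 2)⁻¹) ^ 2) * ⟪z, v⟫_ℝ ^ 2) • z
      + (2 * (uu z ^ 2)⁻¹ * ⟪z, v⟫_ℝ) • v
      + (4 : ℝ) • ∑ a, ⟪S.J a z, v⟫_ℝ • S.J a v)).smulRight z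
    + (-‖v‖ ^ 2 + (uu z ^ 2)⁻¹ * ⟪z, v⟫_ℝ ^ 2 - 2 * ∑ a, ⟪S.J a z, v⟫_ℝ ^ 2) •
        ContinuousLinearMap.id ℝ E
    - (2 : ℝ) • ∑ a, (innerSL ℝ (S.J a v)).smulRight (S.J a v)
    - (2 : ℝ) • ((innerSL ℝ ((-(2 * ((uu z ^ 2)⁻¹) ^ 2) * ⟪z, v⟫_ℝ) • z
        + (uu z ^ 2)⁻¹ • v)).smulRight (∑ a, ⟪S.J a z, v⟫_ℝ • S.J a z)
      + ((uu z ^ 2)⁻¹ * ⟪z, v⟫_ℝ) • ∑ a, (-(innerSL ℝ (S.J a v)).smulRight (S.J a z)
        + ⟪S.J a z, v⟫_ℝ • S.J a))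

theorem kGam_diag (S : KStr E w) (z v : E) :
    kGam S z v v = (-‖v‖ ^ 2 + (uu z ^ 2)⁻¹ * ⟪z, v⟫_ℝ ^ 2 - 2 * ∑ a, ⟪S.J a z, v⟫_ℝ ^ 2) • z
      + (2 : ℝ) • ∑ a, ⟪S.J a z, v⟫_ℝ • S.J a v
      - (2 : ℝ) • (((uu z ^ 2)⁻¹ * ⟪z, v⟫_ℝ) • ∑ a, ⟪S.J a z, v⟫_ℝ • S.J a z) := by
  rw [kGam_apply, real_inner_self_eq_norm_sq]
  have h1 : ∑ a, (⟪S.J a z, v⟫_ℝ • S.J a v + ⟪S.J a z, v⟫_ℝ • S.J a v)
      = (2 : ℝ) • ∑ a, ⟪S.J a z, v⟫_ℝ • S.J a v := by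
    rw [Finset.smul_sum]
    exact Finset.sum_congr rfl fun a _ => by module
  have h2 : ∑ a, (⟪z, v⟫_ℝ * ⟪S.J a z, v⟫_ℝ + ⟪S.J a z, v⟫_ℝ * ⟪z, v⟫_ℝ) • S.J a z
      = (2 * ⟪z, v⟫_ℝ) • ∑ a, ⟪S.J a z, v⟫_ℝ • S.J a z := by
    rw [Finset.smul_sum]
    exact Finset.sum_congr rfl fun a _ => by module
  have h3 : ∑ a, ⟪S.J a z, v⟫_ℝ * ⟪S.J a z, v⟫_ℝ = ∑ a, ⟪S.J a z, v⟫_ℝ ^ 2 :=
    Finset.sum_congr rfl fun a _ => by ring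
  rw [h1, h2, h3]
  module

theorem hasFDerivAt_kGam_diag (S : KStr E w) (z v : E) :
    HasFDerivAt (fun y => kGam S y v v) (kdF S z v) z := by
  have ha := hasFDerivAt_inner_l v z
  have hb := fun a => hasFDerivAt_inner_J S a v z
  have hi := hasFDerivAt_uu_sq_inv z
  have hz := hasFDerivAt_id (𝕜 := ℝ) z
  have h1 := ((((hi.mul (ha.pow 2)).const_add (-‖v‖ ^ 2)).sub
    ((HasFDerivAt.fun_sum (u := Finset.univ) fun a _ => (hb a).pow 2).const_mul 2)).smul hz)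
  have h2 := (HasFDerivAt.fun_sum (u := Finset.univ) fun a _ =>
    (hb a).smul_const (S.J a v)).const_smul (2 : ℝ)
  have h3 := ((hi.mul ha).smul (HasFDerivAt.fun_sum (u := Finset.univ) fun a _ =>
    (hb a).smul (S.J a).hasFDerivAt)).const_smul (2 : ℝ)
  have h := (h1.add h2).sub h3
  have e : (fun y => kGam S y v v) = fun y =>
      (-‖v‖ ^ 2 + (uu y ^ 2)⁻¹ * ⟪y, v⟫_ℝ ^ 2 - 2 * ∑ a, ⟪S.J a y, v⟫_ℝ ^ 2) • id y
      + (2 : ℝ) • ∑ a, ⟪S.J a y, v⟫_ℝ • S.J a v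
      - (2 : ℝ) • (((uu y ^ 2)⁻¹ * ⟪y, v⟫_ℝ) • ∑ a, ⟪S.J a y, v⟫_ℝ • S.J a y) := by
    funext y
    rw [kGam_diag]
    rfl
  rw [e]
  refine h.congr_fderiv ?_
  ext x
  simp only [kdF, add_apply, sub_apply, smul_apply, neg_apply, sum_apply,
    ContinuousLinearMap.smulRight_apply, innerSL_apply_apply, ContinuousLinearMap.id_apply,
    inner_add_left, real_inner_smul_left, sum_inner, smul_eq_mul, nsmul_eq_mul, id_eq,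
    Nat.add_one_sub_one, pow_one, Nat.cast_ofNat, Pi.sub_apply, Pi.mul_apply, Pi.smul_apply']
  have s1 : ∑ a, 2 * ⟪S.J a z, v⟫_ℝ * -⟪S.J a v, x⟫_ℝ
      = -2 * ∑ a, ⟪S.J a z, v⟫_ℝ * ⟪S.J a v, x⟫_ℝ := by
    rw [Finset.mul_sum]
    exact Finset.sum_congr rfl fun a _ => by ring
  have s2 : ∑ a, -⟪S.J a v, x⟫_ℝ • S.J a v = -∑ a, ⟪S.J a v, x⟫_ℝ • S.J a v := by
    rw [← Finset.sum_neg_distrib]
    exact Finset.sum_congr rfl fun a _ => by module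
  have s3 : ∑ a, (⟪S.J a z, v⟫_ℝ • S.J a x + -⟪S.J a v, x⟫_ℝ • S.J a z)
      = ∑ a, (-(⟪S.J a v, x⟫_ℝ • S.J a z) + ⟪S.J a z, v⟫_ℝ • S.J a x) :=
    Finset.sum_congr rfl fun a _ => by module
  rw [s1, s2, s3]
  module

theorem tr_kdF (S : KStr E w) (z v : E) :
    tr (kdF S z v) = Module.finrank ℝ E * (-‖v‖ ^ 2 + (uu z ^ 2)⁻¹ * ⟪z, v⟫_ℝ ^ 2
        - 2 * ∑ a, ⟪S.J a z, v⟫_ℝ ^ 2)
      + 2 * (uu z ^ 2)⁻¹ * ⟪z, v⟫_ℝ ^ 2 - 2 * ((uu z ^ 2)⁻¹) ^ 2 * ⟪z, v⟫_ℝ ^ 2 * ‖z‖ ^ 2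
      - 4 * ∑ a, ⟪S.J a z, v⟫_ℝ ^ 2 - 2 * w * ‖v‖ ^ 2
      - 2 * (uu z ^ 2)⁻¹ * (∑ a, ⟪S.J a z, v⟫_ℝ ^ 2 - w * ⟪z, v⟫_ℝ ^ 2) := by
  rw [kdF, ktr_sub, ktr_sub, ktr_add, ktr_rank, ktr_smul, ktr_smul, ktr_smul, ktr_add, ktr_smul,
    ktr_rank, ktr_sum, ktr_sum, ktr_id]
  have h1 : ∀ a, tr ((innerSL ℝ (S.J a v)).smulRight (S.J a v)) = ‖v‖ ^ 2 := by
    intro a
    rw [ktr_rank, real_inner_self_eq_norm_sq, S.norm_J]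
  have h2 : ∀ a, tr (-(innerSL ℝ (S.J a v)).smulRight (S.J a z) + ⟪S.J a z, v⟫_ℝ • S.J a)
      = -⟪z, v⟫_ℝ := by
    intro a
    rw [ktr_add, ktr_neg, ktr_smul, ktr_rank, S.tr_J, S.inner_JJ, real_inner_comm]
    ring
  simp only [h1, h2, inner_add_left, real_inner_smul_left, sum_inner, inner_z_sum_J]
  have h3 : ∑ a, ⟪S.J a z, v⟫_ℝ * ⟪S.J a v, z⟫_ℝ = -∑ a, ⟪S.J a z, v⟫_ℝ ^ 2 := by
    rw [← Finset.sum_neg_distrib]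
    refine Finset.sum_congr rfl fun a _ => ?_
    rw [S.inner_J_left a v z, real_inner_comm]
    ring
  have h4 : ⟪v, ∑ a, ⟪S.J a z, v⟫_ℝ • S.J a z⟫_ℝ = ∑ a, ⟪S.J a z, v⟫_ℝ ^ 2 := by
    rw [inner_sum]
    refine Finset.sum_congr rfl fun a _ => ?_
    rw [real_inner_smul_right, real_inner_comm]
    ring
  rw [h3, h4, real_inner_self_eq_norm_sq, real_inner_comm z v, Finset.sum_const, Finset.sum_const,
    Finset.card_univ, Fintype.card_fin, nsmul_eq_mul, nsmul_eq_mul]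
  ring

/-- Composition of the Christoffel map with an operator. -/
theorem tr_kGam_comp (S : KStr E w) (z v : E) (T : E →L[ℝ] E) :
    tr ((kGamL S z v).comp T) = ⟪-v + ((uu z ^ 2)⁻¹ * ⟪z, v⟫_ℝ) • z
        - (2 : ℝ) • ∑ a, ⟪S.J a z, v⟫_ℝ • S.J a z, T z⟫_ℝ
      + ∑ a, (⟪S.J a z, T (S.J a v)⟫_ℝ + ⟪S.J a z, v⟫_ℝ * tr (T.comp (S.J a)))
      - (uu z ^ 2)⁻¹ * ∑ a, (⟪z, v⟫_ℝ * ⟪S.J a z, T (S.J a z)⟫_ℝ
          + ⟪S.J a z, v⟫_ℝ * ⟪z, T (S.J a z)⟫_ℝ) := by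
  have e : (kGamL S z v).comp T = ((innerSL ℝ (-v + ((uu z ^ 2)⁻¹ * ⟪z, v⟫_ℝ) • z
        - (2 : ℝ) • ∑ a, ⟪S.J a z, v⟫_ℝ • S.J a z)).smulRight z).comp T
      + ∑ a, (((innerSL ℝ (S.J a z)).smulRight (S.J a v)).comp T
        + ⟪S.J a z, v⟫_ℝ • (S.J a).comp T)
      - (uu z ^ 2)⁻¹ • ∑ a, ((innerSL ℝ (⟪z, v⟫_ℝ • S.J a z
        + ⟪S.J a z, v⟫_ℝ • z)).smulRight (S.J a z)).comp T := by
    ext x
    simp only [kGamL, ContinuousLinearMap.comp_apply, add_apply, sub_apply, smul_apply, sum_apply]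
  rw [e, ktr_sub, ktr_add, ktr_smul, ktr_sum, ktr_sum, ktr_rank_comp]
  have h1 : ∀ a, tr (((innerSL ℝ (S.J a z)).smulRight (S.J a v)).comp T
        + ⟪S.J a z, v⟫_ℝ • (S.J a).comp T)
      = ⟪S.J a z, T (S.J a v)⟫_ℝ + ⟪S.J a z, v⟫_ℝ * tr (T.comp (S.J a)) := by
    intro a
    rw [ktr_add, ktr_smul, ktr_rank_comp, ktr_comp_comm]
  have h2 : ∀ a, tr (((innerSL ℝ (⟪z, v⟫_ℝ • S.J a z
        + ⟪S.J a z, v⟫_ℝ • z)).smulRight (S.J a z)).comp T)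
      = ⟪z, v⟫_ℝ * ⟪S.J a z, T (S.J a z)⟫_ℝ + ⟪S.J a z, v⟫_ℝ * ⟪z, T (S.J a z)⟫_ℝ := by
    intro a
    rw [ktr_rank_comp, inner_add_left, real_inner_smul_left, real_inner_smul_left]
  simp only [h1, h2]

theorem tr_JJ (S : KStr E w) (a b : Fin w) :
    tr ((S.J b).comp (S.J a)) = if a = b then -(Module.finrank ℝ E : ℝ) else 0 := by
  split_ifs with h
  · subst h
    have : (S.J a).comp (S.J a) = -ContinuousLinearMap.id ℝ E := by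
      ext x
      simp [S.JJ]
    rw [this, ktr_neg, ktr_id]
  · have h1 : (S.J b).comp (S.J a) = -(S.J a).comp (S.J b) := by
      ext x
      rw [neg_apply, ContinuousLinearMap.comp_apply, ContinuousLinearMap.comp_apply,
        S.anti b a (Ne.symm h)]
    have h2 := ktr_comp_comm (S.J b) (S.J a)
    rw [h1, ktr_neg] at h2
    rw [h1, ktr_neg]
    linarith

/-- `∑ b_a tr(Γ_v J_a)`. -/
theorem sum_tr_kGam_J (S : KStr E w) (z v : E) :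
    ∑ a, ⟪S.J a z, v⟫_ℝ * tr ((kGamL S z v).comp (S.J a))
      = (-(1 + 2 * ‖z‖ ^ 2) + (w - 2) - Module.finrank ℝ E + (uu z ^ 2)⁻¹ * ‖z‖ ^ 2)
        * ∑ a, ⟪S.J a z, v⟫_ℝ ^ 2 := by
  have h1 : ∀ a, tr ((kGamL S z v).comp (S.J a))
      = (-(1 + 2 * ‖z‖ ^ 2) + (w - 2) - Module.finrank ℝ E + (uu z ^ 2)⁻¹ * ‖z‖ ^ 2)
        * ⟪S.J a z, v⟫_ℝ := by
    intro a
    rw [tr_kGam_comp]
    have e1 : ⟪-v + ((uu z ^ 2)⁻¹ * ⟪z, v⟫_ℝ) • z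
        - (2 : ℝ) • ∑ c, ⟪S.J c z, v⟫_ℝ • S.J c z, S.J a z⟫_ℝ
        = -(1 + 2 * ‖z‖ ^ 2) * ⟪S.J a z, v⟫_ℝ := by
      rw [inner_sub_left, inner_add_left, inner_neg_left, real_inner_smul_left,
        real_inner_smul_left, S.inner_self_J,
        real_inner_comm (S.J a z) (∑ c, ⟪S.J c z, v⟫_ℝ • S.J c z), sum_inner_J_smul,
        real_inner_comm]
      ring
    have e2 : ∀ c, ⟪S.J c z, S.J a (S.J c v)⟫_ℝ
        = (if c = a then -2 * ⟪S.J a z, v⟫_ℝ else 0) + ⟪S.J a z, v⟫_ℝ := by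
      intro c
      split_ifs with hc
      · subst hc
        rw [S.JJ, inner_neg_right]
        ring
      · rw [S.anti a c (Ne.symm hc), inner_neg_right, S.inner_JJ, S.inner_J_right]
        ring
    have e3 : ∀ c, ⟪z, v⟫_ℝ * ⟪S.J c z, S.J a (S.J c z)⟫_ℝ + ⟪S.J c z, v⟫_ℝ * ⟪z, S.J a (S.J c z)⟫_ℝ
        = if c = a then -‖z‖ ^ 2 * ⟪S.J a z, v⟫_ℝ else 0 := by
      intro c
      rw [S.inner_self_J a (S.J c z), S.inner_J_right a z (S.J c z), S.inner_J_J]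
      by_cases hc : c = a
      · subst hc
        simp
        ring
      · rw [if_neg (Ne.symm hc), if_neg hc]
        ring
    simp only [e1, e2, e3, tr_JJ]
    rw [Finset.sum_ite_eq', Finset.sum_add_distrib, Finset.sum_add_distrib, Finset.sum_ite_eq']
    simp only [mul_ite, mul_zero, Finset.sum_ite_eq', Finset.mem_univ, if_true, Finset.sum_const,
      Finset.card_univ, Fintype.card_fin, nsmul_eq_mul]
    ring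
  simp only [h1]
  rw [Finset.mul_sum]
  exact Finset.sum_congr rfl fun a _ => by ring

theorem kGam_z (S : KStr E w) (z v : E) :
    kGamL S z v z = (uu z ^ 2)⁻¹ • (-⟪z, v⟫_ℝ • z + ∑ a, ⟪S.J a z, v⟫_ℝ • S.J a z) := by
  rw [kGamL_apply]
  simp only [S.inner_J_self, mul_zero, zero_smul, zero_add, Finset.sum_const_zero,
    real_inner_self_eq_norm_sq]
  have h1 : ∑ a, (⟪S.J a z, v⟫_ℝ * ‖z‖ ^ 2) • S.J a z
      = ‖z‖ ^ 2 • ∑ a, ⟪S.J a z, v⟫_ℝ • S.J a z := by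
    rw [Finset.smul_sum]
    exact Finset.sum_congr rfl fun a _ => by module
  rw [h1, real_inner_comm]
  have h := inv_uu_sq_mul z
  have h2 : (uu z ^ 2)⁻¹ * ‖z‖ ^ 2 = 1 - (uu z ^ 2)⁻¹ := by linear_combination h
  have h3 : (uu z ^ 2)⁻¹ • ‖z‖ ^ 2 • ∑ a, ⟪S.J a z, v⟫_ℝ • S.J a z
      = (1 - (uu z ^ 2)⁻¹) • ∑ a, ⟪S.J a z, v⟫_ℝ • S.J a z := by
    rw [smul_smul, h2]
  have h4 : (uu z ^ 2)⁻¹ * (⟪z, v⟫_ℝ * ‖z‖ ^ 2) = (1 - (uu z ^ 2)⁻¹) * ⟪z, v⟫_ℝ := by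
    rw [← h2]; ring
  rw [h3, h4]
  module

theorem tr_kGam_kGam [Nontrivial E] (S : KStr E w) (z v : E) :
    tr ((kGam S z v).comp (kGam S z v))
      = (uu z ^ 2)⁻¹ * ((uu z ^ 2)⁻¹ * ⟪z, v⟫_ℝ ^ 2
          - (1 + 2 * ‖z‖ ^ 2) * ∑ a, ⟪S.J a z, v⟫_ℝ ^ 2)
      + (uu z ^ 2)⁻¹ * (w * ⟪z, v⟫_ℝ ^ 2 - ∑ a, ⟪S.J a z, v⟫_ℝ ^ 2)
      + (-(1 + 2 * ‖z‖ ^ 2) + (w - 2) - Module.finrank ℝ E + (uu z ^ 2)⁻¹ * ‖z‖ ^ 2)
        * ∑ a, ⟪S.J a z, v⟫_ℝ ^ 2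
      - (uu z ^ 2)⁻¹ * (w * (uu z ^ 2)⁻¹ * ⟪z, v⟫_ℝ ^ 2 * ‖z‖ ^ 2
        - ‖z‖ ^ 2 * (3 + 2 * ‖z‖ ^ 2) * ∑ a, ⟪S.J a z, v⟫_ℝ ^ 2) := by
  rw [kGam_eq, tr_kGam_comp, Finset.sum_add_distrib, sum_tr_kGam_J, kGam_z]
  have h := inv_uu_sq_mul z
  have h4 : ⟪v, ∑ a, ⟪S.J a z, v⟫_ℝ • S.J a z⟫_ℝ = ∑ a, ⟪S.J a z, v⟫_ℝ ^ 2 := by
    rw [inner_sum]
    refine Finset.sum_congr rfl fun a _ => ?_
    rw [real_inner_smul_right, real_inner_comm]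
    ring
  have h5 : ⟪∑ a, ⟪S.J a z, v⟫_ℝ • S.J a z, ∑ a, ⟪S.J a z, v⟫_ℝ • S.J a z⟫_ℝ
      = ‖z‖ ^ 2 * ∑ a, ⟪S.J a z, v⟫_ℝ ^ 2 := by
    rw [sum_inner, Finset.mul_sum]
    refine Finset.sum_congr rfl fun a _ => ?_
    rw [real_inner_smul_left, sum_inner_J_smul]
    ring
  have h6 := inner_z_sum_J S z (fun a => ⟪S.J a z, v⟫_ℝ)
  have e1 : ⟪-v + ((uu z ^ 2)⁻¹ * ⟪z, v⟫_ℝ) • z - (2 : ℝ) • ∑ a, ⟪S.J a z, v⟫_ℝ • S.J a z,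
      (uu z ^ 2)⁻¹ • (-⟪z, v⟫_ℝ • z + ∑ a, ⟪S.J a z, v⟫_ℝ • S.J a z)⟫_ℝ
      = (uu z ^ 2)⁻¹ * ((uu z ^ 2)⁻¹ * ⟪z, v⟫_ℝ ^ 2
          - (1 + 2 * ‖z‖ ^ 2) * ∑ a, ⟪S.J a z, v⟫_ℝ ^ 2) := by
    simp only [inner_sub_left, inner_add_left, inner_neg_left, real_inner_smul_left,
      real_inner_smul_right, inner_add_right, h4, h5, h6, real_inner_self_eq_norm_sq,
      real_inner_comm z (∑ a, ⟪S.J a z, v⟫_ℝ • S.J a z), real_inner_comm z v]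
    linear_combination -((uu z ^ 2)⁻¹ * ⟪z, v⟫_ℝ ^ 2) * h
  have e2 : ∑ a, ⟪S.J a z, kGamL S z v (S.J a v)⟫_ℝ
      = (uu z ^ 2)⁻¹ * (w * ⟪z, v⟫_ℝ ^ 2 - ∑ a, ⟪S.J a z, v⟫_ℝ ^ 2) := by
    have : ∀ a, ⟪S.J a z, kGamL S z v (S.J a v)⟫_ℝ
        = (uu z ^ 2)⁻¹ * (⟪z, v⟫_ℝ ^ 2 - ⟪S.J a z, v⟫_ℝ ^ 2) := by
      intro a
      rw [inner_Jz_kGam, S.inner_JJ, S.inner_J_right]
      ring
    simp only [this]
    rw [← Finset.mul_sum, Finset.sum_sub_distrib, Finset.sum_const, Finset.card_univ,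
      Fintype.card_fin, nsmul_eq_mul]
  have e3 : ∑ a, (⟪z, v⟫_ℝ * ⟪S.J a z, kGamL S z v (S.J a z)⟫_ℝ
        + ⟪S.J a z, v⟫_ℝ * ⟪z, kGamL S z v (S.J a z)⟫_ℝ)
      = w * (uu z ^ 2)⁻¹ * ⟪z, v⟫_ℝ ^ 2 * ‖z‖ ^ 2
        - ‖z‖ ^ 2 * (3 + 2 * ‖z‖ ^ 2) * ∑ a, ⟪S.J a z, v⟫_ℝ ^ 2 := by
    have : ∀ a, ⟪z, v⟫_ℝ * ⟪S.J a z, kGamL S z v (S.J a z)⟫_ℝ
        + ⟪S.J a z, v⟫_ℝ * ⟪z, kGamL S z v (S.J a z)⟫_ℝ
        = (uu z ^ 2)⁻¹ * ⟪z, v⟫_ℝ ^ 2 * ‖z‖ ^ 2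
          - ‖z‖ ^ 2 * (3 + 2 * ‖z‖ ^ 2) * ⟪S.J a z, v⟫_ℝ ^ 2 := by
      intro a
      have e4 : ∑ c, ⟪S.J c z, v⟫_ℝ * ⟪S.J c z, S.J a z⟫_ℝ = ⟪S.J a z, v⟫_ℝ * ‖z‖ ^ 2 := by
        simp only [S.inner_J_J, mul_ite, mul_zero]
        rw [Finset.sum_ite_eq']
        simp
      rw [inner_Jz_kGam, inner_z_kGam, e4, S.inner_self_J, S.inner_JJ, real_inner_self_eq_norm_sq,
        real_inner_comm (S.J a z) v]
      ring
    simp only [this]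
    rw [Finset.sum_sub_distrib, Finset.sum_const, Finset.card_univ,
      Fintype.card_fin, nsmul_eq_mul, ← Finset.mul_sum]
    ring
  rw [e1, e2, e3]
  ring

theorem fderiv_apply₂ {f : E → E →L[ℝ] E →L[ℝ] E} {z : E} (hf : DifferentiableAt ℝ f z)
    (x u y : E) : fderiv ℝ (fun z => f z x u) z y = fderiv ℝ f z y x u := by
  have h2 := (hf.hasFDerivAt.clm_apply (hasFDerivAt_const x z)).clm_apply (hasFDerivAt_const u z)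
  rw [h2.fderiv]
  simp

theorem tr_fderiv_kGam_diag (S : KStr E w) (z v : E) :
    tr (((fderiv ℝ (kGam S) z).flip v).flip v) = tr (kdF S z v) := by
  have hd : DifferentiableAt ℝ (kGam S) z := (contDiff_kGam S).differentiable (by simp) z
  congr 1
  ext x
  rw [ContinuousLinearMap.flip_apply, ContinuousLinearMap.flip_apply, ← fderiv_apply₂ hd,
    (hasFDerivAt_kGam_diag S z v).fderiv]

/-- The trace as a continuous linear form. -/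
def ktrL (F : Type*) [NormedAddCommGroup F] [InnerProductSpace ℝ F] [FiniteDimensional ℝ F] :
    (F →L[ℝ] F) →L[ℝ] ℝ :=
  LinearMap.toContinuousLinearMap
    { toFun := tr
      map_add' := ktr_add
      map_smul' := fun c T => by rw [ktr_smul, RingHom.id_apply, smul_eq_mul] }

theorem tr_fderiv_kGam (S : KStr E w) (z v : E) :
    tr (fderiv ℝ (kGam S) z v v) = (w - 1) * ((uu z ^ 2)⁻¹ * ‖v‖ ^ 2
      - 2 * ((uu z ^ 2)⁻¹) ^ 2 * ⟪z, v⟫_ℝ ^ 2) := by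
  have hd : DifferentiableAt ℝ (kGam S) z := (contDiff_kGam S).differentiable (by simp) z
  have h1 : HasFDerivAt (fun y => tr (kGam S y v))
      ((ktrL E).comp ((fderiv ℝ (kGam S) z).flip v)) z := by
    have h2 := hd.hasFDerivAt.clm_apply (hasFDerivAt_const v z)
    have h3 := (ktrL E).hasFDerivAt.comp z h2
    refine (h3.congr_fderiv ?_).congr_of_eventuallyEq ?_
    · ext y; simp
    · exact Filter.Eventually.of_forall fun y => rfl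
  have h2 : HasFDerivAt (fun y => tr (kGam S y v))
      (((w : ℝ) - 1) • ((uu z ^ 2)⁻¹ • innerSL ℝ v
        + ⟪z, v⟫_ℝ • (-(2 * ((uu z ^ 2)⁻¹) ^ 2) • innerSL ℝ z))) z := by
    simp only [tr_kGam]
    exact ((hasFDerivAt_uu_sq_inv z).mul (hasFDerivAt_inner_l v z)).const_mul _
  have h3 := congrArg (fun L : E →L[ℝ] ℝ => L v) (h1.unique h2)
  simp only [ContinuousLinearMap.comp_apply, ContinuousLinearMap.flip_apply, innerSL_apply_apply,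
    add_apply, smul_apply, smul_eq_mul, real_inner_self_eq_norm_sq] at h3
  have h4 : ktrL E (fderiv ℝ (kGam S) z v v) = tr (fderiv ℝ (kGam S) z v v) := rfl
  rw [← h4, h3]
  ring

/-- Einstein: the Ricci curvature is `-(N - 1 + 3 w)` times the metric. -/
theorem kric [Nontrivial E] (S : KStr E w) (z v : E) :
    tr (((fderiv ℝ (kGam S) z).flip v).flip v) + tr (kGam S z (kGam S z v v))
      - tr (fderiv ℝ (kGam S) z v v) - tr ((kGam S z v).comp (kGam S z v))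
      = -((Module.finrank ℝ E - 1) + 3 * w) * ⟪kA S z v, v⟫_ℝ := by
  rw [tr_fderiv_kGam_diag, tr_kdF, tr_kGam S z (kGam S z v v), tr_fderiv_kGam, tr_kGam_kGam,
    kGam_eq, inner_z_kGam, inner_kA, real_inner_self_eq_norm_sq]
  have h1 : ∑ a, ⟪S.J a z, v⟫_ℝ * ⟪S.J a z, v⟫_ℝ = ∑ a, ⟪S.J a z, v⟫_ℝ ^ 2 :=
    Finset.sum_congr rfl fun a _ => by ring
  rw [h1]
  have hU : ‖z‖ ^ 2 = uu z ^ 2 - 1 := by rw [uu_sq_eq]; ring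
  have h0 := (uu_sq_pos' z).ne'
  rw [hU]
  set U := uu z ^ 2 with hUdef
  set β := ∑ a, ⟪S.J a z, v⟫_ℝ ^ 2 with hβ
  field_simp
  ring

end

end Pool.Agent.Work.MP_3b24f6_gt
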