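import Pool.Agent.Work.MP_3b24f6_gt.KHom
import Pool.Agent.Work.MP_3b24f6_gt.KAlg
import Pool.Agent.Work.MP_3b24f6_gt.ModelB

/-! The vertical structure of the hyperbolic spaces over `ℂ` and `ℍ`. -/

set_option autoImplicit false
set_option linter.unusedSectionVars false

open MeasureTheory Set Filter Topology
open scoped ContDiff InnerProductSpace

namespace Pool.Agent.Work.MP_3b24f6_gt

noncomputable section

namespace KVer

variable {E : Type*} [NormedAddCommGroup E] [InnerProductSpace ℝ E] {w : ℕ} (S : KStr E w)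

/-- The vertical operator. -/
def kQ (S : KStr E w) (z : E) : E →L[ℝ] E :=
  ∑ a, (innerSL ℝ (S.J a z)).smulRight (S.J a z)

theorem kQ_apply (z v : E) : kQ S z v = ∑ a, ⟪S.J a z, v⟫_ℝ • S.J a z := by
  simp [kQ]

theorem kQ_inner (z u v : E) : ⟪kQ S z u, v⟫_ℝ = ∑ a, ⟪S.J a z, u⟫_ℝ * ⟪S.J a z, v⟫_ℝ := by
  rw [kQ_apply, sum_inner]
  simp only [real_inner_smul_left]

theorem kQ_symm (z u v : E) : ⟪kQ S z u, v⟫_ℝ = ⟪u, kQ S z v⟫_ℝ := by
  rw [← real_inner_comm u, kQ_inner, kQ_inner]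
  exact Finset.sum_congr rfl fun a _ => mul_comm _ _

theorem kQ_self (z : E) : kQ S z z = 0 := by
  rw [kQ_apply]
  simp [KIso.inner_J_self S]

theorem kQ_kQ (z v : E) : kQ S z (kQ S z v) = ‖z‖ ^ 2 • kQ S z v := by
  rw [kQ_apply S z (kQ S z v), kQ_apply S z v, Finset.smul_sum]
  refine Finset.sum_congr rfl fun a _ => ?_
  rw [inner_sum]
  simp only [real_inner_smul_right, KIso.inner_J_J S, mul_ite, mul_zero, Finset.sum_ite_eq,
    Finset.mem_univ, if_true, smul_smul]
  congr 1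
  ring

theorem kQ_smul (c : ℝ) (z : E) : kQ S (c • z) = c ^ 2 • kQ S z := by
  ext v
  rw [smul_apply, kQ_apply, kQ_apply, Finset.smul_sum]
  refine Finset.sum_congr rfl fun a _ => ?_
  rw [map_smul, real_inner_smul_left, smul_smul, smul_smul]
  congr 1
  ring

theorem contDiff_kQ : ContDiff ℝ ∞ (kQ S) := by
  unfold kQ
  refine ContDiff.sum fun a _ => ?_
  exact ((innerSL ℝ).contDiff.comp (S.J a).contDiff).smulRight (S.J a).contDiff

variable [FiniteDimensional ℝ E]

theorem tr_kQ (z : E) : tr (kQ S z) = w * ‖z‖ ^ 2 := by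
  unfold kQ
  rw [ktr_sum]
  simp only [ktr_rank, real_inner_self_eq_norm_sq, S.norm_J, Finset.sum_const,
    Finset.card_univ, Fintype.card_fin, nsmul_eq_mul]

/-- The vertical structure of the hyperbolic space of a `KStr`. -/
def ver (S : KStr E w) (hw : 1 ≤ w) (hd : 2 * w + 2 ≤ Module.finrank ℝ E) : Ver E where
  w := w
  Q := kQ S
  one_le_w := hw
  dim_le := hd
  smooth_Q := contDiff_kQ S
  Q_symm := kQ_symm S
  Q_self := kQ_self S
  Q_Q := kQ_kQ S
  tr_Q := tr_kQ S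
  Q_smul := kQ_smul S

variable (hw : 1 ≤ w) (hd : 2 * w + 2 ≤ Module.finrank ℝ E)

theorem mg_ver (z v : E) : mg (ver S hw hd) z v = ⟪kA S z v, v⟫_ℝ := by
  show ‖v‖ ^ 2 - ⟪z, v⟫_ℝ ^ 2 / uu z ^ 2 + ⟪kQ S z v, v⟫_ℝ = _
  rw [KIso.kA_inner, kQ_inner, real_inner_self_eq_norm_sq]
  ring

theorem rho_ver (z : E) : rho (ver S hw hd) z = krho w z := rfl

theorem mg_kphi (p y v : E) :
    mg (ver S hw hd) (kphi S p y) (fderiv ℝ (kphi S p) y v) = mg (ver S hw hd) y v := by
  rw [mg_ver, mg_ver]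
  exact KIso.isom_kphi_self S p y v

theorem rho_kphi (p y : E) :
    rho (ver S hw hd) (kphi S p y) * |(fderiv ℝ (kphi S p) y).det| = rho (ver S hw hd) y := by
  rw [rho_ver, rho_ver]
  exact KIso.det_kphi S hw p y

theorem kchd_symm (x y : E) : kchd S x y = kchd S y x := by
  unfold kchd
  congr 1
  rw [mul_comm (uu x), real_inner_comm]
  congr 1
  refine Finset.sum_congr rfl fun a _ => ?_
  rw [KIso.inner_J_left S a x y, real_inner_comm x]
  ring

end KVer

end

end Pool.Agent.Work.MP_3b24f6_gt
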