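import Pool.Agent.Work.MP_3b24f6_gt.PhiPos

/-! Real algebra for the key step: the integrand `Fhat` with the regularised `σ = √(s²+ε²)` and its
lower bound `Theta - C ε`. -/

set_option autoImplicit false

namespace Pool.Agent.Work.MP_3b24f6_gt

noncomputable section

/-- Square norm of the trace free part of `∑ T_a ⊗ T_a`. -/
def Qf (m w s u β : ℝ) : ℝ :=
  w * (u ^ 2 * s ^ 2) ^ 2 - 2 * (u ^ 2 * s ^ 2) * β + β ^ 2 - (w * (u ^ 2 * s ^ 2) - β) ^ 2 / m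

def Fhat (m w s u a β Λ σ ε : ℝ) : ℝ :=
  s ^ 2 * Λ ^ 2 / m - 2 * (σ / u ^ 3) * (Λ / m) * (w * (u ^ 2 * s ^ 2) - β)
    - Qf m w s u β / u ^ 6 - (w + 1) * ε ^ 2
    + 2 * w * (σ / u ^ 3) * (2 * u ^ 3 - u) * a
    + 2 * (a / (σ * u ^ 2) - 3 * σ * a / u ^ 4) * β + 2 * Λ * (σ / u ^ 3) * β
    - (u ^ 2 + m - w + w / u ^ 2) + 1 + a ^ 2 - β / u ^ 4 - (m + 3 * w) * s ^ 2
    + 2 * (1 + w) * s ^ 2 + 2 * m * u ^ 2 - 2 * a ^ 2 - 2 * β / u ^ 2 - 2 * Λ * u * a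

def Theta (m w s u a Λ : ℝ) : ℝ :=
  (s * Λ - m * u - w * s ^ 2 / u) ^ 2 / m + 2 * (m - w - 1) * (s ^ 2 - a * s)

theorem Fhat_zero (m w s u a β Λ : ℝ) (hs : 0 < s) (hu : 0 < u) (hu2 : u ^ 2 = 1 + s ^ 2)
    (hm : 0 < m) :
    Fhat m w s u a β Λ s 0
      = s ^ 2 * CHIso.Phi m w (u / s) (s / u) Λ (1 - a / s) (β / (u ^ 2 * s ^ 2)) := by
  have hs0 := hs.ne'
  have hu0 := hu.ne'
  have hm0 := hm.ne'
  have key : Fhat m w s u a β Λ s 0
      - s ^ 2 * CHIso.Phi m w (u / s) (s / u) Λ (1 - a / s) (β / (u ^ 2 * s ^ 2))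
      = (-β / u ^ 4 + 1 - w / u ^ 2 - 2 * w * s * a / u ^ 2 + w * s ^ 2 / u ^ 2 - m)
        * (s ^ 2 - u ^ 2 + 1) := by
    unfold Fhat Qf CHIso.Phi
    field_simp
    ring
  have h0 : s ^ 2 - u ^ 2 + 1 = 0 := by linarith
  rw [h0, mul_zero] at key
  linarith

theorem Fhat_zero_ge {m w s u a β Λ : ℝ} (hs : 0 < s) (hu : 0 < u) (hu2 : u ^ 2 = 1 + s ^ 2)
    (hw : 1 ≤ w) (hm : 2 * w + 1 ≤ m) (hΛ : m + w ≤ Λ) (ha : |a| ≤ s) (hβ0 : 0 ≤ β)
    (hβ : β ≤ u ^ 2 * (s ^ 2 - a ^ 2)) :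
    Theta m w s u a Λ ≤ Fhat m w s u a β Λ s 0 := by
  have hm0 : 0 < m := by linarith
  rw [Fhat_zero m w s u a β Λ hs hu hu2 hm0]
  have hs2 : 0 < s ^ 2 := by positivity
  have hu2' : 0 < u ^ 2 := by positivity
  have ha1 := abs_le.1 ha
  have hus : s ≤ u := by nlinarith
  have h := CHIso.Phi_ge (m := m) (w := w) (κ := u / s) (τ := s / u) (H := Λ) (t := 1 - a / s)
    (Y := β / (u ^ 2 * s ^ 2)) hw hm (by rw [le_div_iff₀ hs]; linarith)
    (by field_simp) hΛ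
    (by
      have : a / s ≤ 1 := by rw [div_le_one hs]; exact ha1.2
      linarith)
    (by
      have : -1 ≤ a / s := by rw [le_div_iff₀ hs]; linarith [ha1.1]
      linarith)
    (by positivity)
    (by
      rw [div_le_iff₀ (by positivity)]
      have e : (1 - a / s) * (2 - (1 - a / s)) * (u ^ 2 * s ^ 2) = u ^ 2 * (s ^ 2 - a ^ 2) := by
        field_simp
        ring
      rw [e]; exact hβ)
  have h2 := mul_le_mul_of_nonneg_left h hs2.le
  refine le_trans (le_of_eq ?_) h2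
  unfold Theta
  field_simp
  ring

theorem Fhat_at_zero (m w a β Λ σ ε : ℝ) (ha : a = 0) (hβ : β = 0) :
    Fhat m w 0 1 a β Λ σ ε = Theta m w 0 1 0 Λ - (w + 1) * ε ^ 2 + (m - m ^ 2 / m) := by
  subst ha hβ
  unfold Fhat Theta Qf
  ring

theorem Fhat_ge {m w s u a β Λ σ ε : ℝ} (hs : 0 ≤ s) (hu : 0 < u) (hu2 : u ^ 2 = 1 + s ^ 2)
    (hw : 1 ≤ w) (hm : 2 * w + 1 ≤ m) (hΛ : m + w ≤ Λ) (ha : |a| ≤ s) (hβ0 : 0 ≤ β)
    (hβ : β ≤ u ^ 2 * (s ^ 2 - a ^ 2)) (hε0 : 0 < ε) (hε1 : ε ≤ 1) (hσ0 : 0 < σ)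
    (hσ : σ ^ 2 = s ^ 2 + ε ^ 2) :
    Theta m w s u a Λ - (2 * Λ * w + 5 * w + 9) * u ^ 4 * ε ≤ Fhat m w s u a β Λ σ ε := by
  have hm0 : 0 < m := by linarith
  have ha1 := abs_le.1 ha
  have hu1 : 1 ≤ u := by nlinarith
  have hsu : s ≤ u := by nlinarith
  have hΛ0 : 0 < Λ := by linarith
  have hu4 : 1 ≤ u ^ 4 := one_le_pow₀ hu1
  have hu2p : 0 < u ^ 2 := by positivity
  have hu3p : 0 < u ^ 3 := by positivity
  have hu4p : 0 < u ^ 4 := by positivity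
  have hε2 : ε ^ 2 ≤ ε := by nlinarith
  have hσs : s ≤ σ := by
    by_contra hc
    have : σ < s := not_le.1 hc
    nlinarith
  have hσε : σ ≤ s + ε := by
    by_contra hc
    have : s + ε < σ := not_le.1 hc
    nlinarith
  have hβu : β ≤ u ^ 2 * s ^ 2 := by
    have : u ^ 2 * (s ^ 2 - a ^ 2) ≤ u ^ 2 * s ^ 2 := by
      apply mul_le_mul_of_nonneg_left _ hu2p.le
      nlinarith [sq_nonneg a]
    linarith
  rcases hs.eq_or_lt with h0 | hs'
  · -- s = 0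
    have hs0 : s = 0 := h0.symm
    subst hs0
    have hu1' : u = 1 := by nlinarith
    have ha0 : a = 0 := by
      have := ha1.1; have := ha1.2; linarith
    have hβ0' : β = 0 := by
      have : u ^ 2 * ((0:ℝ) ^ 2 - a ^ 2) ≤ 0 := by nlinarith [sq_nonneg a]
      linarith
    subst hu1'
    rw [Fhat_at_zero m w a β Λ σ ε ha0 hβ0', ha0]
    have e : m - m ^ 2 / m = 0 := by field_simp; ring
    rw [e]
    nlinarith [mul_pos hΛ0 hε0, mul_nonneg (by linarith : (0:ℝ) ≤ w) hε0.le,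
      mul_nonneg (mul_nonneg hΛ0.le (by linarith : (0:ℝ) ≤ w)) hε0.le]
  · have hz := Fhat_zero_ge hs' hu hu2 hw hm hΛ ha hβ0 hβ
    set δ := σ - s with hδ
    have hδ0 : 0 ≤ δ := by linarith
    have hδε : δ ≤ ε := by linarith
    have hdiff : Fhat m w s u a β Λ σ ε - Fhat m w s u a β Λ s 0
        = - (2 * (Λ / m) * ((w * (u ^ 2 * s ^ 2) - β) / u ^ 3)) * δ
          + 2 * w * ((2 * u ^ 3 - u) * a / u ^ 3) * δ
          + 2 * Λ * (β / u ^ 3) * δ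
          - 2 * (a * β / (s * σ * u ^ 2)) * δ - 6 * (a * β / u ^ 4) * δ - (w + 1) * ε ^ 2 := by
      rw [hδ]
      unfold Fhat
      have hs0 := hs'.ne'
      have hσ0' := hσ0.ne'
      have hu0 := hu.ne'
      have hm0' := hm0.ne'
      field_simp
      ring
    -- bounds
    have haβ : |a * β| ≤ s * (u ^ 2 * s ^ 2) := by
      rw [abs_mul, abs_of_nonneg hβ0]
      exact mul_le_mul ha hβu hβ0 hs
    have haβ' := abs_le.1 haβ
    have hw0 : 0 ≤ w := by linarith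
    have b1 : 2 * (Λ / m) * ((w * (u ^ 2 * s ^ 2) - β) / u ^ 3) ≤ 2 * Λ * w * u ^ 4 := by
      have h1 : Λ / m ≤ Λ := by
        rw [div_le_iff₀ hm0]; nlinarith
      have h2 : (w * (u ^ 2 * s ^ 2) - β) / u ^ 3 ≤ w * u ^ 4 := by
        rw [div_le_iff₀ hu3p]
        have h3 : w * (u ^ 2 * s ^ 2) ≤ w * u ^ 4 * 1 := by
          have : u ^ 2 * s ^ 2 ≤ u ^ 4 := by nlinarith
          nlinarith
        have h4 : w * u ^ 4 * 1 ≤ w * u ^ 4 * u ^ 3 := by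
          apply mul_le_mul_of_nonneg_left _ (by positivity)
          exact one_le_pow₀ hu1
        linarith
      have h5 : 0 ≤ (w * (u ^ 2 * s ^ 2) - β) / u ^ 3 := by
        apply div_nonneg _ hu3p.le
        nlinarith [mul_nonneg hu2p.le (sq_nonneg s)]
      calc 2 * (Λ / m) * ((w * (u ^ 2 * s ^ 2) - β) / u ^ 3)
          ≤ 2 * Λ * ((w * (u ^ 2 * s ^ 2) - β) / u ^ 3) := by
            apply mul_le_mul_of_nonneg_right _ h5; linarith
        _ ≤ 2 * Λ * (w * u ^ 4) := by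
            apply mul_le_mul_of_nonneg_left h2; linarith
        _ = 2 * Λ * w * u ^ 4 := by ring
    have b2 : -(4 * w * u ^ 4) ≤ 2 * w * ((2 * u ^ 3 - u) * a / u ^ 3) := by
      have h1 : -(2 * u ^ 4) ≤ (2 * u ^ 3 - u) * a / u ^ 3 := by
        rw [le_div_iff₀ hu3p]
        have h2 : 0 ≤ 2 * u ^ 3 - u := by nlinarith [sq_nonneg (u - 1)]
        have h3 : -((2 * u ^ 3 - u) * s) ≤ (2 * u ^ 3 - u) * a := by nlinarith [ha1.1]
        have h4 : (2 * u ^ 3 - u) * s ≤ 2 * u ^ 3 * u := by nlinarith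
        have h5 : 2 * u ^ 3 * u ≤ 2 * u ^ 4 * u ^ 3 := by
          have : 1 ≤ u ^ 3 := one_le_pow₀ hu1
          nlinarith
        linarith
      nlinarith
    have b3 : 0 ≤ 2 * Λ * (β / u ^ 3) := by positivity
    have b4 : 2 * (a * β / (s * σ * u ^ 2)) ≤ 2 * u ^ 4 := by
      have h1 : a * β / (s * σ * u ^ 2) ≤ u ^ 4 := by
        rw [div_le_iff₀ (by positivity)]
        have h2 : s * (u ^ 2 * s ^ 2) ≤ u ^ 4 * (s * σ * u ^ 2) := by
          have h3 : s ^ 2 ≤ u ^ 4 * σ := by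
            have h4 : s * s ≤ u * σ := mul_le_mul hsu hσs hs hu.le
            have h5 : u * σ ≤ u ^ 4 * σ := by
              apply mul_le_mul_of_nonneg_right _ hσ0.le
              calc u = u ^ 1 := by ring
                _ ≤ u ^ 4 := pow_le_pow_right₀ hu1 (by norm_num)
            nlinarith
          have : 0 ≤ s * u ^ 2 := by positivity
          nlinarith [mul_le_mul_of_nonneg_left h3 this]
        linarith [haβ'.2]
      linarith
    have b5 : 6 * (a * β / u ^ 4) ≤ 6 * u ^ 4 := by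
      have h1 : a * β / u ^ 4 ≤ u ^ 4 := by
        rw [div_le_iff₀ hu4p]
        have h2 : s * (u ^ 2 * s ^ 2) ≤ u ^ 4 * u ^ 4 := by
          have h3 : s * s ^ 2 ≤ u * u ^ 2 := by
            apply mul_le_mul hsu (by nlinarith) (by positivity) hu.le
          have h4 : s * (u ^ 2 * s ^ 2) ≤ u ^ 5 := by nlinarith
          have h5 : u ^ 5 ≤ u ^ 8 := pow_le_pow_right₀ hu1 (by norm_num)
          calc s * (u ^ 2 * s ^ 2) ≤ u ^ 5 := h4
            _ ≤ u ^ 8 := h5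
            _ = u ^ 4 * u ^ 4 := by ring
        linarith [haβ'.2]
      linarith
    have c1 := mul_le_mul_of_nonneg_right b1 hδ0
    have c2 := mul_le_mul_of_nonneg_right b2 hδ0
    have c3 := mul_nonneg b3 hδ0
    have c4 := mul_le_mul_of_nonneg_right b4 hδ0
    have c5 := mul_le_mul_of_nonneg_right b5 hδ0
    have d1 : (2 * Λ * w * u ^ 4 + 4 * w * u ^ 4 + 2 * u ^ 4 + 6 * u ^ 4) * δ
        ≤ (2 * Λ * w * u ^ 4 + 4 * w * u ^ 4 + 2 * u ^ 4 + 6 * u ^ 4) * ε :=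
      mul_le_mul_of_nonneg_left hδε (by positivity)
    have d2 : (w + 1) * ε ^ 2 ≤ (w + 1) * u ^ 4 * ε := by
      have h1 : (w + 1) * ε ^ 2 ≤ (w + 1) * ε := mul_le_mul_of_nonneg_left hε2 (by linarith)
      have h2 : (w + 1) * ε * 1 ≤ (w + 1) * ε * u ^ 4 :=
        mul_le_mul_of_nonneg_left hu4 (by positivity)
      linarith
    linarith

end

end Pool.Agent.Work.MP_3b24f6_gt
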