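import Pool.Agent.Work.MP_3b24f6_gt.Model
import Pool.Agent.Work.MP_3b24f6_gt.CalcN

set_option autoImplicit false

open MeasureTheory Set Filter Topology
open scoped ContDiff InnerProductSpace

namespace Pool.Agent.Work.MP_3b24f6_gt

noncomputable section

variable {E : Type*} [NormedAddCommGroup E] [InnerProductSpace ℝ E] [FiniteDimensional ℝ E]

theorem ke_isCompact_surf {w : E → ℝ} (hw : IsReg w) : IsCompact (surf w) := by
  refine hw.cpt.of_isClosed_subset ?_ ?_
  · exact isClosed_eq hw.smooth.continuous continuous_const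
  · intro x hx
    have hx' : w x = 0 := hx
    show w x ≤ 0
    rw [hx']

/-- If the boundary lies in a sphere about the origin then the domain is the ball. -/
theorem eq_ball_of_surf {w : E → ℝ} (hw : IsReg w) (hne : ∃ x, w x < 0) {c : ℝ} (hc : 0 < c)
    (h : ∀ z, w z = 0 → ‖z‖ = c) : {x | w x < 0} = Metric.ball (0 : E) c := by
  have hcont : Continuous w := hw.smooth.continuous
  -- no point outside the closed ball
  have hout : ∀ x, w x < 0 → ¬ c < ‖x‖ := by
    intro x hx hcx
    have hx0 : 0 < ‖x‖ := hc.trans hcx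
    obtain ⟨R, hR⟩ := hw.cpt.isBounded.subset_closedBall (0 : E)
    -- a far point on the ray
    set T : ℝ := max 1 ((|R| + 1) / ‖x‖) with hT
    have hT1 : 1 ≤ T := le_max_left _ _
    have hTR : R < T * ‖x‖ := by
      have h1 : (|R| + 1) / ‖x‖ ≤ T := le_max_right _ _
      have h2 : |R| + 1 ≤ T * ‖x‖ := by
        rwa [div_le_iff₀ hx0] at h1
      have := le_abs_self R
      linarith
    have hfar : 0 < w (T • x) := by
      by_contra hcon
      have h3 := hR (show T • x ∈ {y | w y ≤ 0} from not_lt.mp hcon)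
      rw [mem_closedBall_zero_iff, norm_smul, Real.norm_eq_abs, abs_of_pos (by linarith)] at h3
      linarith
    have hf : ContinuousOn (fun t : ℝ => w (t • x)) (Icc 1 T) :=
      (hcont.comp (continuous_id.smul continuous_const)).continuousOn
    obtain ⟨t, ht, ht0⟩ := intermediate_value_Icc hT1 hf
      (show (0 : ℝ) ∈ Icc (w ((1 : ℝ) • x)) (w (T • x)) by
        rw [one_smul]; exact ⟨hx.le, hfar.le⟩)
    have h4 := h (t • x) ht0
    rw [norm_smul, Real.norm_eq_abs, abs_of_pos (by linarith [ht.1])] at h4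
    nlinarith [ht.1]
  -- hence `D` is inside the open ball
  have hin : ∀ x, w x < 0 → ‖x‖ < c := by
    intro x hx
    by_contra hcon
    have hcx : ‖x‖ = c := le_antisymm (not_lt.mp (hout x hx)) (not_lt.mp hcon)
    have hf : Tendsto (fun t : ℝ => w (t • x)) (𝓝[>] 1) (𝓝 (w x)) := by
      have h1 : Continuous (fun t : ℝ => w (t • x)) :=
        hcont.comp (continuous_id.smul continuous_const)
      have h2 := (h1.tendsto 1).mono_left (nhdsWithin_le_nhds (s := Ioi (1 : ℝ)))
      rwa [one_smul] at h2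
    have h3 : ∀ᶠ t : ℝ in 𝓝[>] 1, w (t • x) < 0 := hf.eventually_lt_const hx
    obtain ⟨t, ht1, ht2⟩ := (h3.and self_mem_nhdsWithin).exists
    have ht2' : (1 : ℝ) < t := ht2
    apply hout _ ht1
    rw [norm_smul, Real.norm_eq_abs, abs_of_pos (by linarith), hcx]
    nlinarith
  apply Subset.antisymm
  · intro x hx
    rw [mem_ball_zero_iff]
    exact hin x hx
  · intro y hy
    rw [mem_ball_zero_iff] at hy
    obtain ⟨x, hx⟩ := hne
    by_contra hcon
    have hy0 : 0 ≤ w y := not_lt.mp hcon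
    -- the segment from `x` to `y` stays in the ball
    have hf : ContinuousOn (fun t : ℝ => w ((1 - t) • x + t • y)) (Icc 0 1) := by
      apply Continuous.continuousOn
      exact hcont.comp (((continuous_const.sub continuous_id).smul continuous_const).add
        (continuous_id.smul continuous_const))
    obtain ⟨t, ht, ht0⟩ := intermediate_value_Icc zero_le_one hf
      (show (0 : ℝ) ∈ Icc (w ((1 - (0 : ℝ)) • x + (0 : ℝ) • y))
        (w ((1 - (1 : ℝ)) • x + (1 : ℝ) • y)) by
        constructor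
        · simpa using hx.le
        · simpa using hy0)
    have h4 := h _ ht0
    have h5 : ‖(1 - t) • x + t • y‖ < c := by
      have hx' : x ∈ Metric.ball (0 : E) c := by rw [mem_ball_zero_iff]; exact hin x hx
      have hy' : y ∈ Metric.ball (0 : E) c := by rw [mem_ball_zero_iff]; exact hy
      have := (convex_ball (0 : E) c) hx' hy' (show 0 ≤ 1 - t by linarith [ht.2]) ht.1
        (by ring)
      rwa [mem_ball_zero_iff] at this
    linarith

section measure

variable [MeasurableSpace E] [BorelSpace E]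

theorem ke_ae_surf {w : E → ℝ} {μ : Measure E} (hμ : IsDelta w μ) : ∀ᵐ x ∂μ, x ∈ surf w :=
  hμ.supp

theorem ke_restrict {w : E → ℝ} {μ : Measure E} (hμ : IsDelta w μ) : μ.restrict (surf w) = μ :=
  Measure.restrict_eq_self_of_ae_mem (ke_ae_surf hμ)

theorem ke_integrable {w : E → ℝ} (hw : IsReg w) {μ : Measure E} (hμ : IsDelta w μ) {q : E → ℝ}
    (hq : ContinuousOn q (surf w)) : Integrable q μ := by
  have := hμ.fin
  have h1 : IntegrableOn q (surf w) μ := hq.integrableOn_compact (ke_isCompact_surf hw)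
  rw [IntegrableOn, ke_restrict hμ] at h1
  exact h1

theorem ke_integral_nonneg {w : E → ℝ} {μ : Measure E} (hμ : IsDelta w μ) {q : E → ℝ}
    (h0 : ∀ z, w z = 0 → 0 ≤ q z) : 0 ≤ ∫ z, q z ∂μ := by
  apply integral_nonneg_of_ae
  filter_upwards [ke_ae_surf hμ] with z hz
  exact h0 z hz

theorem ke_integral_mono {w : E → ℝ} (hw : IsReg w) {μ : Measure E} (hμ : IsDelta w μ)
    {p q : E → ℝ} (hp : ContinuousOn p (surf w)) (hq : ContinuousOn q (surf w))
    (h0 : ∀ z, w z = 0 → p z ≤ q z) : ∫ z, p z ∂μ ≤ ∫ z, q z ∂μ := by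
  apply integral_mono_ae (ke_integrable hw hμ hp) (ke_integrable hw hμ hq)
  filter_upwards [ke_ae_surf hμ] with z hz
  exact h0 z hz

theorem ke_integral_congr {w : E → ℝ} {μ : Measure E} (hμ : IsDelta w μ)
    {p q : E → ℝ} (h0 : ∀ z, w z = 0 → p z = q z) : ∫ z, p z ∂μ = ∫ z, q z ∂μ := by
  apply integral_congr_ae
  filter_upwards [ke_ae_surf hμ] with z hz
  exact h0 z hz

/-- A continuous nonnegative function on the hypersurface with nonpositive integral vanishes. -/
theorem eq_zero_of_integral_nonpos {w : E → ℝ} (hw : IsReg w) {μ : Measure E}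
    (hμ : IsDelta w μ) {q : E → ℝ} (hq : ContinuousOn q (surf w))
    (h0 : ∀ z, w z = 0 → 0 ≤ q z) (hint : ∫ z, q z ∂μ ≤ 0) : ∀ z, w z = 0 → q z = 0 := by
  have := hμ.fin
  have hae : ∀ᵐ z ∂μ, q z = 0 := by
    have h1 : 0 ≤ᵐ[μ] q := by
      filter_upwards [ke_ae_surf hμ] with z hz
      exact h0 z hz
    have h2 : ∫ z, q z ∂μ = 0 := le_antisymm hint (integral_nonneg_of_ae h1)
    rw [integral_eq_zero_iff_of_nonneg_ae h1 (ke_integrable hw hμ hq)] at h2
    exact h2
  intro z hz
  by_contra hcon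
  have hpos : 0 < q z := lt_of_le_of_ne (h0 z hz) (Ne.symm hcon)
  have h3 : ∀ᶠ y in 𝓝[surf w] z, 0 < q y := (hq z hz).eventually_const_lt hpos
  rw [eventually_nhdsWithin_iff] at h3
  obtain ⟨r, hr, hball⟩ := Metric.eventually_nhds_iff_ball.1 h3
  have h4 : ∀ᵐ y ∂μ, y ∉ Metric.ball z r := by
    filter_upwards [hae, ke_ae_surf hμ] with y hy1 hy2 hy3
    exact (hball y hy3 hy2).ne' hy1
  have h5 : μ (Metric.ball z r) = 0 := by
    rw [ae_iff] at h4
    have h6 : {a | ¬ a ∉ Metric.ball z r} = Metric.ball z r := by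
      ext a
      exact not_not
    rwa [h6] at h4
  exact (hμ.full z hz r hr).ne' h5

end measure

theorem ke_continuous_tr : Continuous (tr : (E →L[ℝ] E) → ℝ) := by
  let T : (E →L[ℝ] E) →ₗ[ℝ] ℝ :=
    (LinearMap.trace ℝ E).comp (ContinuousLinearMap.coeLM (R := ℝ) (M := E) (N₃ := E) ℝ)
  exact T.continuous_of_finiteDimensional

theorem ke_tr_eq_sum {n : ℕ} (b : OrthonormalBasis (Fin n) ℝ E) (T : E →L[ℝ] E) :
    tr T = ∑ i, ⟪b i, T (b i)⟫_ℝ := by
  unfold tr
  rw [LinearMap.trace_eq_sum_inner _ b]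
  rfl

section cont
variable (G : Geo E) {w : E → ℝ}

theorem ke_cont_nrm (hw : IsReg w) : ContinuousOn (G.nrm w) (surf w) := fun z hz =>
  (contDiffAt_nrm G hw.smooth (hw.reg z hz)).continuousAt.continuousWithinAt

theorem ke_cont_gn (hw : IsReg w) : ContinuousOn (G.gn w) (surf w) := fun z hz =>
  (contDiffAt_gn G hw.smooth (hw.reg z hz)).continuousAt.continuousWithinAt

theorem ke_cont_dens (hw : IsReg w) : ContinuousOn (fun z => G.ρ z * G.gn w z) (surf w) :=
  G.smooth_ρ.continuous.continuousOn.mul (ke_cont_gn G hw)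

theorem ke_cont_nab (hw : IsReg w) : ContinuousOn (G.nab (G.nrm w)) (surf w) := fun z hz => by
  have h1 : ContDiffAt ℝ ∞ (G.nrm w) z := contDiffAt_nrm G hw.smooth (hw.reg z hz)
  have h2 : ContinuousAt (fderiv ℝ (G.nrm w)) z :=
    (h1.fderiv_right (m := 0) (by norm_num)).continuousAt
  have h3 : ContinuousAt (fun y => (G.Γ y).flip (G.nrm w y)) z := by
    have h4 : ContinuousAt (fun y => (G.Γ y).flip) z :=
      (ContinuousLinearMap.flipₗᵢ ℝ E E E).continuous.continuousAt.comp
        G.smooth_Γ.continuous.continuousAt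
    exact h4.clm_apply h1.continuousAt
  exact (h2.add h3).continuousWithinAt

theorem ke_cont_trLL (hw : IsReg w) :
    ContinuousOn (fun z => tr ((G.nab (G.nrm w) z).comp (G.nab (G.nrm w) z))) (surf w) :=
  ke_continuous_tr.comp_continuousOn ((ke_cont_nab G hw).clm_comp (ke_cont_nab G hw))

end cont

section measure
variable [MeasurableSpace E] [BorelSpace E]

/-- The stability inequality summed over an orthonormal basis of test functions. -/
theorem sum_stab (G : Geo E) {w : E → ℝ} (hw : IsReg w) {μ : Measure E} (hμ : IsDelta w μ)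
    (hstab : ∀ e : E, 0 ≤ ∫ z, (⟪G.C z e, e⟫_ℝ - ⟪e, G.nrm w z⟫_ℝ ^ 2
      - ⟪e, z⟫_ℝ ^ 2 * (tr ((G.nab (G.nrm w) z).comp (G.nab (G.nrm w) z)) - G.R))
      * (G.ρ z * G.gn w z) ∂μ) :
    0 ≤ ∫ z, (tr (G.C z) - ‖G.nrm w z‖ ^ 2
      - ‖z‖ ^ 2 * (tr ((G.nab (G.nrm w) z).comp (G.nab (G.nrm w) z)) - G.R))
      * (G.ρ z * G.gn w z) ∂μ := by
  let b := stdOrthonormalBasis ℝ E
  have hint : ∀ e : E, Integrable (fun z => (⟪G.C z e, e⟫_ℝ - ⟪e, G.nrm w z⟫_ℝ ^ 2
      - ⟪e, z⟫_ℝ ^ 2 * (tr ((G.nab (G.nrm w) z).comp (G.nab (G.nrm w) z)) - G.R))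
      * (G.ρ z * G.gn w z)) μ := by
    intro e
    apply ke_integrable hw hμ
    apply ContinuousOn.mul _ (ke_cont_dens G hw)
    apply ContinuousOn.sub
    · apply ContinuousOn.sub
      · apply Continuous.continuousOn
        exact (G.smooth_C.continuous.clm_apply continuous_const).inner continuous_const
      · exact (continuousOn_const.inner (ke_cont_nrm G hw)).pow 2
    · apply ContinuousOn.mul
      · exact ((continuous_const.inner continuous_id).pow 2).continuousOn
      · exact (ke_cont_trLL G hw).sub continuousOn_const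
  have hsum : 0 ≤ ∑ i, ∫ z, (⟪G.C z (b i), b i⟫_ℝ - ⟪b i, G.nrm w z⟫_ℝ ^ 2
      - ⟪b i, z⟫_ℝ ^ 2 * (tr ((G.nab (G.nrm w) z).comp (G.nab (G.nrm w) z)) - G.R))
      * (G.ρ z * G.gn w z) ∂μ := Finset.sum_nonneg fun i _ => hstab (b i)
  rw [← integral_finsetSum _ fun i _ => hint (b i)] at hsum
  refine hsum.trans_eq (integral_congr_ae (Eventually.of_forall fun z => ?_))
  have e1 : ∑ i, ⟪G.C z (b i), b i⟫_ℝ = tr (G.C z) := by
    rw [ke_tr_eq_sum b]
    exact Finset.sum_congr rfl fun i _ => real_inner_comm _ _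
  have e2 : ∀ v : E, ∑ i, ⟪b i, v⟫_ℝ ^ 2 = ‖v‖ ^ 2 := by
    intro v
    have := b.sum_sq_norm_inner_right v
    simpa only [Real.norm_eq_abs, sq_abs] using this
  simp only [← Finset.sum_mul, Finset.sum_sub_distrib]
  rw [e1, e2, e2]

end measure

end

end Pool.Agent.Work.MP_3b24f6_gt
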