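import Pool.Agent.Work.MP_3b24f6_gt.Calc
import Pool.Agent.Work.MP_3b24f6_gt.CalcN

set_option autoImplicit false

open MeasureTheory Set Filter Topology
open scoped ContDiff InnerProductSpace

namespace Pool.Agent.Work.MP_3b24f6_gt

noncomputable section

variable {E : Type*} [NormedAddCommGroup E] [InnerProductSpace ℝ E] [FiniteDimensional ℝ E]

section SurfDivAux
variable (G : Geo E)

theorem sd_g_symm (z u v : E) : G.g z u v = G.g z v u := by
  unfold Geo.g
  rw [G.A_symm, real_inner_comm]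

theorem sd_g_add_left (z u v x : E) : G.g z (u + v) x = G.g z u x + G.g z v x := by
  unfold Geo.g
  rw [map_add, inner_add_left]

theorem sd_g_sub_right (z u v x : E) : G.g z x (u - v) = G.g z x u - G.g z x v := by
  unfold Geo.g
  rw [inner_sub_right]

theorem sd_g_smul_left (z u x : E) (c : ℝ) : G.g z (c • u) x = c * G.g z u x := by
  unfold Geo.g
  rw [map_smul, real_inner_smul_left]

theorem sd_g_smul_right (z u x : E) (c : ℝ) : G.g z x (c • u) = c * G.g z x u := by
  unfold Geo.g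
  rw [real_inner_smul_right]

theorem sd_tr_add (S T : E →L[ℝ] E) : tr (S + T) = tr S + tr T := by
  unfold tr
  simp

theorem sd_nab_add (X Y : E → E) (z : E) (hX : DifferentiableAt ℝ X z)
    (hY : DifferentiableAt ℝ Y z) :
    G.nab (fun y => X y + Y y) z = G.nab X z + G.nab Y z := by
  unfold Geo.nab
  rw [fderiv_fun_add hX hY, map_add]
  abel

theorem sd_dv_add (X Y : E → E) (z : E) (hX : DifferentiableAt ℝ X z)
    (hY : DifferentiableAt ℝ Y z) :
    G.dv (fun y => X y + Y y) z = G.dv X z + G.dv Y z := by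
  unfold Geo.dv
  rw [sd_nab_add G X Y z hX hY, sd_tr_add]

/-- The derivative of `w` in direction `v` is `|∇w| ⟨N, v⟩`. -/
theorem sd_dw {w : E → ℝ} {z : E} (hz : fderiv ℝ w z ≠ 0) (v : E) :
    fderiv ℝ w z v = G.gn w z * G.g z (G.nrm w z) v := by
  have h := gn_pos G hz
  unfold Geo.nrm
  rw [sd_g_smul_left, g_grad, ← mul_assoc, mul_inv_cancel₀ h.ne', one_mul]

/-- Tangential part of a vector field. -/
def tanPart (w : E → ℝ) (X : E → E) (z : E) : E := X z - G.g z (X z) (G.nrm w z) • G.nrm w z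

theorem sd_tan_orth {w : E → ℝ} (X : E → E) {z : E} (hz : fderiv ℝ w z ≠ 0) :
    G.g z (tanPart G w X z) (G.nrm w z) = 0 := by
  rw [sd_g_symm]
  unfold tanPart
  rw [sd_g_sub_right, sd_g_smul_right, g_nrm_nrm G hz, sd_g_symm G z (G.nrm w z) (X z)]
  ring

theorem sd_contDiffAt_g {n : WithTop ℕ∞} (hn : n ≤ ∞) (X Y : E → E) {z : E}
    (hX : ContDiffAt ℝ n X z) (hY : ContDiffAt ℝ n Y z) :
    ContDiffAt ℝ n (fun y => G.g y (X y) (Y y)) z := by
  unfold Geo.g
  have hA : ContDiffAt ℝ n G.A z := (G.smooth_A.contDiffAt).of_le hn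
  exact (hA.clm_apply hX).inner ℝ hY

theorem sd_contDiffAt_tan {w : E → ℝ} (hw : ContDiff ℝ ∞ w) (X : E → E) {z : E}
    (hz : fderiv ℝ w z ≠ 0) (hX : ContDiffAt ℝ 1 X z) : ContDiffAt ℝ 1 (tanPart G w X) z := by
  have hN : ContDiffAt ℝ 1 (G.nrm w) z := (contDiffAt_nrm G hw hz).of_le (by exact_mod_cast le_top)
  unfold tanPart
  exact hX.sub ((sd_contDiffAt_g G (by exact_mod_cast le_top) X (G.nrm w) hX hN).smul hN)

/-- The regular points form an open set. -/
theorem sd_isOpen_reg {w : E → ℝ} (hw : ContDiff ℝ ∞ w) : IsOpen {z | fderiv ℝ w z ≠ 0} := by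
  have hc : Continuous (fderiv ℝ w) := hw.continuous_fderiv (by simp)
  exact isOpen_compl_singleton.preimage hc

theorem sd_eventually_reg {w : E → ℝ} (hw : IsReg w) :
    ∀ᶠ z in 𝓝ˢ (surf w), fderiv ℝ w z ≠ 0 :=
  (sd_isOpen_reg hw.smooth).mem_nhdsSet.2 fun z hz => hw.reg z hz

/-- Pointwise form of the divergence identity. -/
theorem sd_pointwise {w : E → ℝ} (hw : ContDiff ℝ ∞ w) (X : E → E) {z : E}
    (hz : fderiv ℝ w z ≠ 0) (hX : ContDiffAt ℝ 1 X z) :
    (G.dv X z - G.g z (G.nab X z (G.nrm w z)) (G.nrm w z)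
      - G.mc w z * G.g z (X z) (G.nrm w z)) * (G.ρ z * G.gn w z)
      = divE (fun y => G.ρ y • (G.gn w y • tanPart G w X y)) z := by
  have hN : ContDiffAt ℝ 1 (G.nrm w) z := (contDiffAt_nrm G hw hz).of_le (by exact_mod_cast le_top)
  have hgn : ContDiffAt ℝ 1 (G.gn w) z := (contDiffAt_gn G hw hz).of_le (by exact_mod_cast le_top)
  have hT : ContDiffAt ℝ 1 (tanPart G w X) z := sd_contDiffAt_tan G hw X hz hX
  have hf : ContDiffAt ℝ 1 (fun y => G.g y (X y) (G.nrm w y)) z :=
    sd_contDiffAt_g G (by exact_mod_cast le_top) X (G.nrm w) hX hN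
  have dN : DifferentiableAt ℝ (G.nrm w) z := hN.differentiableAt (by simp)
  have dgn : DifferentiableAt ℝ (G.gn w) z := hgn.differentiableAt (by simp)
  have dT : DifferentiableAt ℝ (tanPart G w X) z := hT.differentiableAt (by simp)
  have df : DifferentiableAt ℝ (fun y => G.g y (X y) (G.nrm w y)) z :=
    hf.differentiableAt (by simp)
  have dfN : DifferentiableAt ℝ (fun y => G.g y (X y) (G.nrm w y) • G.nrm w y) z := df.smul dN
  have hXe : X = fun y => tanPart G w X y + G.g y (X y) (G.nrm w y) • G.nrm w y := by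
    funext y
    unfold tanPart
    abel
  have hgp := gn_pos G hz
  have h11 := g_nrm_nrm G hz
  have hzero : G.g z (G.nab (tanPart G w X) z (G.nrm w z)) (G.nrm w z)
      + G.g z (tanPart G w X z) (G.nab (G.nrm w) z (G.nrm w z)) = 0 := by
    rw [← fderiv_g G (tanPart G w X) (G.nrm w) z (G.nrm w z) dT dN]
    have he : (fun y => G.g y (tanPart G w X y) (G.nrm w y)) =ᶠ[𝓝 z] fun _ => (0 : ℝ) := by
      filter_upwards [(sd_isOpen_reg hw).mem_nhds hz] with y hy
      exact sd_tan_orth G X hy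
    rw [he.fderiv_eq]
    simp
  have hNN := nab_nrm_nrm G hw hz (tanPart G w X z)
  have hNo := nab_nrm_orth G hw hz (G.nrm w z)
  have horth := sd_tan_orth G X hz
  have horth' : G.g z (G.nrm w z) (tanPart G w X z) = 0 := by
    rw [sd_g_symm]
    exact horth
  rw [horth', mul_zero, sub_zero] at hNN
  rw [sd_g_symm G z (tanPart G w X z)] at hzero
  rw [hNN] at hzero
  have e1 : G.dv X z = G.dv (tanPart G w X) z + (G.g z (X z) (G.nrm w z) * G.dv (G.nrm w) z
      + fderiv ℝ (fun y => G.g y (X y) (G.nrm w y)) z (G.nrm w z)) := by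
    conv_lhs => rw [hXe]
    rw [sd_dv_add G _ _ z dT dfN, dv_smul G _ _ z df dN]
  have e2 : G.nab X z (G.nrm w z) = G.nab (tanPart G w X) z (G.nrm w z)
      + (G.g z (X z) (G.nrm w z) • G.nab (G.nrm w) z (G.nrm w z)
      + fderiv ℝ (fun y => G.g y (X y) (G.nrm w y)) z (G.nrm w z) • G.nrm w z) := by
    conv_lhs => rw [hXe]
    rw [sd_nab_add G _ _ z dT dfN, ContinuousLinearMap.add_apply, nab_smul G _ _ z _ df dN]
  have e3 : divE (fun y => G.ρ y • (G.gn w y • tanPart G w X y)) z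
      = G.ρ z * (G.gn w z * G.dv (tanPart G w X) z + fderiv ℝ (G.gn w) z (tanPart G w X z)) := by
    rw [divE_rho G (fun y => G.gn w y • tanPart G w X y) z (dgn.smul dT),
      dv_smul G _ _ z dgn dT]
  rw [e3, e1, e2, sd_g_add_left, sd_g_add_left, sd_g_smul_left, sd_g_smul_left, h11, hNo]
  unfold Geo.mc
  have hz1 : G.g z (G.nab (tanPart G w X) z (G.nrm w z)) (G.nrm w z)
      = -(fderiv ℝ (G.gn w) z (tanPart G w X z) / G.gn w z) := by linarith
  rw [hz1]
  field_simp
  ring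

end SurfDivAux

section T12
variable [MeasurableSpace E] [BorelSpace E] (G : Geo E)

/-- Divergence theorem on the hypersurface `{w = 0}`. -/
theorem surf_div {w : E → ℝ} (hw : IsReg w) {μ : Measure E} (hμ : IsDelta w μ) (X : E → E)
    (hX : ∀ᶠ z in 𝓝ˢ (surf w), ContDiffAt ℝ 1 X z) :
    ∫ z, (G.dv X z - G.g z (G.nab X z (G.nrm w z)) (G.nrm w z)
      - G.mc w z * G.g z (X z) (G.nrm w z)) * (G.ρ z * G.gn w z) ∂μ = 0 := by
  have hreg := sd_eventually_reg hw
  have hY := hμ.tang (fun y => G.ρ y • (G.gn w y • tanPart G w X y)) (by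
    filter_upwards [hreg, hX] with z hz hXz
    have hgn : ContDiffAt ℝ 1 (G.gn w) z :=
      (contDiffAt_gn G hw.smooth hz).of_le (by exact_mod_cast le_top)
    have hρ : ContDiffAt ℝ 1 G.ρ z := (G.smooth_ρ.contDiffAt).of_le (by exact_mod_cast le_top)
    refine ⟨hρ.smul (hgn.smul (sd_contDiffAt_tan G hw.smooth X hz hXz)), ?_⟩
    rw [map_smul, map_smul, sd_dw G hz, sd_g_symm, sd_tan_orth G X hz]
    simp)
  rw [← hY]
  apply integral_congr_ae
  have hs : ∀ᵐ z ∂μ, z ∈ surf w := by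
    rw [ae_iff]
    exact hμ.supp
  filter_upwards [hs] with z hz
  have h1 : fderiv ℝ w z ≠ 0 := hw.reg z hz
  have h2 : ContDiffAt ℝ 1 X z := hX.self_of_nhdsSet z hz
  exact sd_pointwise G hw.smooth X h1 h2

end T12

end

end Pool.Agent.Work.MP_3b24f6_gt
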