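import Pool.Agent.Work.MP_3b24f6_gt.KeyDiv
import Pool.Agent.Work.MP_3b24f6_gt.KeyEnd
import Pool.Agent.Work.MP_3b24f6_gt.KeyAlg
import Pool.Agent.Work.MP_3b24f6_gt.CsTensor
import Pool.Agent.Work.MP_3b24f6_gt.SurfDiv

/-! T13: a balanced stable constant mean curvature domain is a ball. -/

set_option autoImplicit false

open MeasureTheory Set Filter Topology
open scoped ContDiff InnerProductSpace

namespace Pool.Agent.Work.MP_3b24f6_gt

noncomputable section

variable {E : Type*} [NormedAddCommGroup E] [InnerProductSpace ℝ E] [FiniteDimensional ℝ E]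

namespace Key

/-- The integrand of the divergence theorem. -/
def sdI (G : Geo E) (w : E → ℝ) (X : E → E) (z : E) : ℝ :=
  G.dv X z - G.g z (G.nab X z (G.nrm w z)) (G.nrm w z) - G.mc w z * G.g z (X z) (G.nrm w z)

/-- The integrand of the summed stability inequality. -/
def stI (G : Geo E) (w : E → ℝ) (z : E) : ℝ :=
  tr (G.C z) - ‖G.nrm w z‖ ^ 2
    - ‖z‖ ^ 2 * (tr ((G.nab (G.nrm w) z).comp (G.nab (G.nrm w) z)) - G.R)

section pointwise

variable {G : Geo E} {ι : Type} [Fintype ι] [DecidableEq ι] (hR : Rad G ι) {w : E → ℝ}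

/-- The Cauchy-Schwarz step. -/
theorem cs_step (hw : IsReg w) (hι : 1 ≤ Fintype.card ι)
    (hdim : 2 * Fintype.card ι + 2 ≤ Module.finrank ℝ E) {z : E} (hz : fderiv ℝ w z ≠ 0)
    {ε : ℝ} (hε : 0 < ε) :
    ‖z‖ ^ 2 * G.mc w z ^ 2 / (Module.finrank ℝ E - 1)
      + 2 * (Real.sqrt (‖z‖ ^ 2 + ε ^ 2) / uu z ^ 3)
        * ∑ a, G.g z (G.nab (G.nrm w) z (kT hR w a z)) (kT hR w a z)
      - 2 * (Real.sqrt (‖z‖ ^ 2 + ε ^ 2) / uu z ^ 3) * (G.mc w z / (Module.finrank ℝ E - 1))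
        * (Fintype.card ι * (uu z ^ 2 * ‖z‖ ^ 2) - kbeta hR w z)
      - Qf (Module.finrank ℝ E - 1) (Fintype.card ι) ‖z‖ (uu z) (kbeta hR w z) / uu z ^ 6
      - (Fintype.card ι + 1) * ε ^ 2
      ≤ ‖z‖ ^ 2 * tr ((G.nab (G.nrm w) z).comp (G.nab (G.nrm w) z)) := by
  have hu := ky_uu_pos z
  have hσ : 0 < Real.sqrt (‖z‖ ^ 2 + ε ^ 2) := Real.sqrt_pos.mpr (by positivity)
  have hσ2 : Real.sqrt (‖z‖ ^ 2 + ε ^ 2) ^ 2 = ‖z‖ ^ 2 + ε ^ 2 := Real.sq_sqrt (by positivity)
  have hm0 : (0 : ℝ) < Module.finrank ℝ E - 1 := by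
    have : (4 : ℝ) ≤ Module.finrank ℝ E := by
      have : 4 ≤ Module.finrank ℝ E := by omega
      exact_mod_cast this
    linarith
  have hβ0 := kbeta_nonneg hR (w := w) z
  have hβ := kbeta_le hR hz
  have hTT := sum_gTT hR hz
  have hTT2 := sum_gTT_sq hR hz
  generalize hσe : Real.sqrt (‖z‖ ^ 2 + ε ^ 2) = σ at *
  rcases eq_or_ne z 0 with h0 | h0
  · have hs0 : ‖z‖ = 0 := by rw [h0]; simp
    have hb : kbeta hR w z = 0 := by
      have : uu z ^ 2 * (‖z‖ ^ 2 - kya G w z ^ 2) ≤ 0 := by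
        rw [hs0]
        have := mul_nonneg (sq_nonneg (uu z)) (sq_nonneg (kya G w z))
        nlinarith
      linarith
    have hT0 : ∀ a, kT hR w a z = 0 := by
      intro a
      by_contra hne
      have h1 := G.A_pos z _ hne
      have h2 : G.g z (kT hR w a z) (kT hR w a z) ≤ ∑ a, G.g z (kT hR w a z) (kT hR w a z) :=
        Finset.single_le_sum (f := fun a => G.g z (kT hR w a z) (kT hR w a z))
          (fun b _ => g_nonneg G z _) (Finset.mem_univ a)
      rw [hTT, hb, hs0, Geo.g] at h2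
      simp only [ne_eq, OfNat.ofNat_ne_zero, not_false_eq_true, zero_pow, mul_zero, sub_zero] at h2
      linarith
    have hL0 : ∑ a, G.g z (G.nab (G.nrm w) z (kT hR w a z)) (kT hR w a z) = 0 := by
      refine Finset.sum_eq_zero fun a _ => ?_
      rw [hT0 a]
      simp [Geo.g]
    rw [hL0, hb, hs0, Qf]
    have : 0 ≤ ((Fintype.card ι : ℝ) + 1) * ε ^ 2 := by positivity
    simp only [ne_eq, OfNat.ofNat_ne_zero, not_false_eq_true, zero_pow, mul_zero, zero_mul,
      zero_div, sub_zero, zero_sub, add_zero]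
    linarith
  · have hs : 0 < ‖z‖ := norm_pos_iff.mpr h0
    have h := cs_tensor G z (G.nab (G.nrm w) z) (G.nrm w z) (fun a => kT hR w a z)
      (g_nrm_nrm G hz) (nab_nrm_orth G hw.smooth hz)
      (fun u v hu hv => nab_nrm_symm G hw.smooth hz u v hu hv)
      (fun a => g_nrm_kT hR hz a)
      (σ / (‖z‖ ^ 2 * uu z ^ 3)) (Module.finrank ℝ E - 1) rfl hm0
    rw [hTT, hTT2] at h
    have hmc : tr (G.nab (G.nrm w) z) = G.mc w z := rfl
    rw [hmc] at h
    have h2 := mul_le_mul_of_nonneg_left h (sq_nonneg ‖z‖)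
    refine le_trans ?_ h2
    -- compare the quadratic terms
    have hQ : Qf (Module.finrank ℝ E - 1) (Fintype.card ι) ‖z‖ (uu z) (kbeta hR w z)
        ≤ Fintype.card ι * (uu z ^ 2 * ‖z‖ ^ 2) ^ 2 := by
      unfold Qf
      have e1 : kbeta hR w z ≤ uu z ^ 2 * ‖z‖ ^ 2 := by
        have := mul_nonneg (sq_nonneg (uu z)) (sq_nonneg (kya G w z))
        nlinarith
      have e2 : kbeta hR w z ^ 2 ≤ (uu z ^ 2 * ‖z‖ ^ 2) * kbeta hR w z := by nlinarith
      have e3 : 0 ≤ (Fintype.card ι * (uu z ^ 2 * ‖z‖ ^ 2) - kbeta hR w z) ^ 2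
          / (Module.finrank ℝ E - 1 : ℝ) := div_nonneg (sq_nonneg _) hm0.le
      have e4 : 0 ≤ (uu z ^ 2 * ‖z‖ ^ 2) * kbeta hR w z := by positivity
      linarith
    have hQ2 : ε ^ 2 * Qf (Module.finrank ℝ E - 1) (Fintype.card ι) ‖z‖ (uu z) (kbeta hR w z)
        / (‖z‖ ^ 2 * uu z ^ 6) ≤ (Fintype.card ι + 1) * ε ^ 2 := by
      rw [div_le_iff₀ (by positivity)]
      have hsu : ‖z‖ ^ 2 ≤ uu z ^ 2 := by rw [ky_uu_sq]; linarith
      have f1 : Fintype.card ι * (uu z ^ 2 * ‖z‖ ^ 2) ^ 2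
          ≤ (Fintype.card ι + 1) * (‖z‖ ^ 2 * uu z ^ 6) := by
        have f2 : (uu z ^ 2 * ‖z‖ ^ 2) ^ 2 ≤ ‖z‖ ^ 2 * uu z ^ 6 := by
          have f3 : 0 ≤ uu z ^ 4 * ‖z‖ ^ 2 := by positivity
          nlinarith [mul_le_mul_of_nonneg_left hsu f3]
        have f4 : (0 : ℝ) ≤ Fintype.card ι := by positivity
        nlinarith [mul_le_mul_of_nonneg_left f2 f4, (by positivity : 0 ≤ ‖z‖ ^ 2 * uu z ^ 6)]
      nlinarith [mul_le_mul_of_nonneg_left (hQ.trans f1) (sq_nonneg ε)]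
    have e : ‖z‖ ^ 2 * (G.mc w z ^ 2 / (Module.finrank ℝ E - 1)
        + 2 * (σ / (‖z‖ ^ 2 * uu z ^ 3))
          * (∑ a, G.g z (G.nab (G.nrm w) z (kT hR w a z)) (kT hR w a z)
            - G.mc w z / (Module.finrank ℝ E - 1)
              * (Fintype.card ι * (uu z ^ 2 * ‖z‖ ^ 2) - kbeta hR w z))
        - (σ / (‖z‖ ^ 2 * uu z ^ 3)) ^ 2
          * (Fintype.card ι * (uu z ^ 2 * ‖z‖ ^ 2) ^ 2
              - 2 * (uu z ^ 2 * ‖z‖ ^ 2) * kbeta hR w z + kbeta hR w z ^ 2
            - (Fintype.card ι * (uu z ^ 2 * ‖z‖ ^ 2) - kbeta hR w z) ^ 2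
              / (Module.finrank ℝ E - 1)))
        = ‖z‖ ^ 2 * G.mc w z ^ 2 / (Module.finrank ℝ E - 1)
          + 2 * (σ / uu z ^ 3)
            * ∑ a, G.g z (G.nab (G.nrm w) z (kT hR w a z)) (kT hR w a z)
          - 2 * (σ / uu z ^ 3) * (G.mc w z / (Module.finrank ℝ E - 1))
            * (Fintype.card ι * (uu z ^ 2 * ‖z‖ ^ 2) - kbeta hR w z)
          - Qf (Module.finrank ℝ E - 1) (Fintype.card ι) ‖z‖ (uu z) (kbeta hR w z) / uu z ^ 6
          - ε ^ 2 * Qf (Module.finrank ℝ E - 1) (Fintype.card ι) ‖z‖ (uu z) (kbeta hR w z)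
            / (‖z‖ ^ 2 * uu z ^ 6) := by
      have hε2 : ε ^ 2 = σ ^ 2 - ‖z‖ ^ 2 := by linarith
      rw [hε2]
      unfold Qf
      have hs' := hs.ne'
      have hu' := hu.ne'
      have hm' := hm0.ne'
      field_simp
      ring
    rw [e]
    linarith

/-- The pointwise inequality. -/
theorem pointwise (hw : IsReg w) (hι : 1 ≤ Fintype.card ι)
    (hdim : 2 * Fintype.card ι + 2 ≤ Module.finrank ℝ E) {z : E} (hz : fderiv ℝ w z ≠ 0)
    {ε : ℝ} (hε : 0 < ε) :
    stI G w z + 2 * sdI G w (kX2 hR w ε) z - sdI G w kX1 z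
      ≤ -Fhat (Module.finrank ℝ E - 1) (Fintype.card ι) ‖z‖ (uu z) (kya G w z) (kbeta hR w z)
        (G.mc w z) (Real.sqrt (‖z‖ ^ 2 + ε ^ 2)) ε := by
  have hu := ky_uu_pos z
  have hcs := cs_step hR hw hι hdim hz hε
  have h1 := keydiv1 hR hz
  have h2 := keydiv2 hR hw hε hz
  have h3 := g_kX1_nrm hR w z
  have h4 := g_kX2_nrm hR (w := w) ε z
  have hN := norm_nrm_sq hR hz
  have htr := hR.tr_C z
  have hRe := hR.R_eq
  unfold stI sdI Fhat
  rw [h1, h2, h3, h4, hN, htr, hRe]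
  nlinarith [hcs]

end pointwise

section cont

variable {G : Geo E} {w : E → ℝ}

theorem cont_sdI (hw : IsReg w) {X : E → E} (hX : ∀ z, w z = 0 → ContDiffAt ℝ ∞ X z) :
    ContinuousOn (sdI G w X) (surf w) := by
  intro z hz
  apply ContinuousAt.continuousWithinAt
  have hreg := hw.reg z hz
  have hN := contDiffAt_nrm G hw.smooth hreg
  have hNc : ContinuousAt (G.nrm w) z := hN.continuousAt
  have hA : ContinuousAt G.A z := G.smooth_A.continuous.continuousAt
  have hXc : ContinuousAt X z := (hX z hz).continuousAt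
  have h1 : ContinuousAt (G.dv X) z := (contDiffAt_dv_top G (hX z hz)).continuousAt
  have h2 : ContinuousAt (G.nab X) z := (contDiffAt_nab_top G (hX z hz)).continuousAt
  have h3 : ContinuousAt (G.mc w) z := (contDiffAt_dv_top G hN).continuousAt
  have h4 : ContinuousAt (fun z => G.g z (G.nab X z (G.nrm w z)) (G.nrm w z)) z :=
    (hA.clm_apply (h2.clm_apply hNc)).inner hNc
  have h5 : ContinuousAt (fun z => G.g z (X z) (G.nrm w z)) z :=
    (hA.clm_apply hXc).inner hNc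
  exact (h1.sub h4).sub (h3.mul h5)

theorem cont_stI (hw : IsReg w) : ContinuousOn (stI G w) (surf w) := by
  unfold stI
  apply ContinuousOn.sub
  · apply ContinuousOn.sub
    · exact (ke_continuous_tr.comp G.smooth_C.continuous).continuousOn
    · exact (ke_cont_nrm G hw).norm.pow 2
  · exact ((continuous_norm.pow 2).continuousOn).mul ((ke_cont_trLL G hw).sub continuousOn_const)

theorem continuous_uu : Continuous (uu : E → ℝ) := (ky_contDiff_uu (n := 0)).continuous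

theorem cont_ka (hw : IsReg w) : ContinuousOn (kya G w) (surf w) := by
  unfold kya
  apply ContinuousOn.div
  · exact continuousOn_id.inner (ke_cont_nrm G hw)
  · exact continuous_uu.continuousOn
  · intro z _
    exact (ky_uu_pos z).ne'

theorem cont_Theta (hw : IsReg w) (m ww Λ : ℝ) :
    ContinuousOn (fun z => Theta m ww ‖z‖ (uu z) (kya G w z) Λ) (surf w) := by
  unfold Theta
  have hs : ContinuousOn (fun z : E => ‖z‖) (surf w) := continuous_norm.continuousOn
  have hu : ContinuousOn (fun z : E => uu z) (surf w) := continuous_uu.continuousOn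
  have ha := cont_ka (G := G) hw
  apply ContinuousOn.add
  · apply ContinuousOn.div_const
    apply ContinuousOn.pow
    apply ContinuousOn.sub
    · exact (hs.mul continuousOn_const).sub (continuousOn_const.mul hu)
    · apply ContinuousOn.div
      · exact continuousOn_const.mul (hs.pow 2)
      · exact hu
      · intro z _
        exact (ky_uu_pos z).ne'
  · exact continuousOn_const.mul ((hs.pow 2).sub (ha.mul hs))

end cont

theorem exists_surf [Nontrivial E] {w : E → ℝ} (hw : IsReg w) (hne : ∃ x, w x < 0) :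
    ∃ z, w z = 0 := by
  by_contra hcon0
  have hcon : ∀ z, w z ≠ 0 := not_exists.mp hcon0
  have hc : Continuous w := hw.smooth.continuous
  have he : {x | w x < 0} = {x | w x ≤ 0} := by
    ext x
    simp only [mem_ofPred_eq]
    constructor
    · intro h; exact h.le
    · intro h; exact lt_of_le_of_ne h (hcon x)
  have ho : IsOpen {x | w x < 0} := isOpen_lt hc continuous_const
  have hcl : IsClosed {x | w x < 0} := by
    rw [he]; exact isClosed_le hc continuous_const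
  have huniv : {x | w x < 0} = univ := IsClopen.eq_univ ⟨hcl, ho⟩ hne
  have hcpt : IsCompact (univ : Set E) := by
    rw [← huniv, he]; exact hw.cpt
  exact (NormedSpace.noncompactSpace ℝ E).noncompact_univ hcpt

section measure

variable [MeasurableSpace E] [BorelSpace E] {G : Geo E} {ι : Type} [Fintype ι] [DecidableEq ι]
  (hR : Rad G ι) {w : E → ℝ}

include hR in
theorem flux_pos (hw : IsReg w) {μ : Measure E} (hμ : IsDelta w μ) (hne : ∃ x, w x < 0)
    (hdim : 2 ≤ Module.finrank ℝ E) :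
    0 < ∫ z, (2 * uu z * kya G w z) * (G.ρ z * G.gn w z) ∂μ := by
  have hZs : ContDiff ℝ ∞ (fun y => G.ρ y • kX1 y) := G.smooth_ρ.smul contDiff_kX1
  have hf := hμ.flux (fun y => G.ρ y • kX1 y)
    (Eventually.of_forall fun x => (hZs.contDiffAt).of_le (by exact_mod_cast le_top))
  have h1 : ∫ z, (2 * uu z * kya G w z) * (G.ρ z * G.gn w z) ∂μ
      = ∫ z, fderiv ℝ w z (G.ρ z • kX1 z) ∂μ := by
    apply ke_integral_congr hμ
    intro z hz
    have hreg := hw.reg z hz
    have hg := gn_pos G hreg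
    have e1 := g_kX1_nrm hR w z
    rw [g_symm, CN.geo_g_nrm] at e1
    rw [map_smul, smul_eq_mul, ← e1]
    field_simp
  rw [h1, ← hf]
  have h2 : ∀ z, divE (fun y => G.ρ y • kX1 y) z
      = G.ρ z * (2 * (uu z ^ 2 * Module.finrank ℝ E + (Fintype.card ι + 1) * ‖z‖ ^ 2)) := by
    intro z
    rw [divE_rho G kX1 z ((contDiff_kX1.differentiable (by simp)) z), dv_kX1 hR]
  simp only [h2]
  have hpos : ∀ z, 0 < G.ρ z * (2 * (uu z ^ 2 * Module.finrank ℝ E
      + (Fintype.card ι + 1) * ‖z‖ ^ 2)) := by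
    intro z
    have := G.ρ_pos z
    have := ky_uu_pos z
    have : (0 : ℝ) < Module.finrank ℝ E := by
      have : 0 < Module.finrank ℝ E := by omega
      exact_mod_cast this
    positivity
  have hcont : Continuous (fun z => G.ρ z * (2 * (uu z ^ 2 * Module.finrank ℝ E
      + (Fintype.card ι + 1) * ‖z‖ ^ 2))) := by
    have h3 : Continuous (uu : E → ℝ) := continuous_uu
    have h4 := G.smooth_ρ.continuous
    fun_prop
  have hc : Continuous w := hw.smooth.continuous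
  have hint : IntegrableOn (fun z => G.ρ z * (2 * (uu z ^ 2 * Module.finrank ℝ E
      + (Fintype.card ι + 1) * ‖z‖ ^ 2))) {x | w x < 0} :=
    (hcont.continuousOn.integrableOn_compact hw.cpt).mono_set
      fun x hx => show w x ≤ 0 from le_of_lt (show w x < 0 from hx)
  rw [setIntegral_pos_iff_support_of_nonneg_ae (Eventually.of_forall fun z => (hpos z).le) hint]
  have hsupp : Function.support (fun z => G.ρ z * (2 * (uu z ^ 2 * Module.finrank ℝ E
      + (Fintype.card ι + 1) * ‖z‖ ^ 2))) = univ := by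
    ext z
    simp only [Function.mem_support, mem_univ, iff_true]
    exact (hpos z).ne'
  rw [hsupp, univ_inter]
  exact (isOpen_lt hc continuous_const).measure_pos _ hne

include hR in
/-- The mean curvature is at least that of a horosphere. -/
theorem le_mc (hw : IsReg w) {μ : Measure E} (hμ : IsDelta w μ) (hne : ∃ x, w x < 0)
    (hdim : 2 * Fintype.card ι + 2 ≤ Module.finrank ℝ E)
    (hsd : ∀ X : E → E, (∀ᶠ z in 𝓝ˢ (surf w), ContDiffAt ℝ 1 X z) →
      ∫ z, (G.dv X z - G.g z (G.nab X z (G.nrm w z)) (G.nrm w z)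
        - G.mc w z * G.g z (X z) (G.nrm w z)) * (G.ρ z * G.gn w z) ∂μ = 0)
    (Λ : ℝ) (hΛ : ∀ z, w z = 0 → G.mc w z = Λ) :
    (Module.finrank ℝ E - 1 : ℝ) + Fintype.card ι ≤ Λ := by
  have hpos := flux_pos hR hw hμ hne (by omega)
  have h1 := hsd kX1 (Eventually.of_forall fun x =>
    (contDiff_kX1.contDiffAt).of_le (by exact_mod_cast le_top))
  have hcd : ∀ z, w z = 0 → 0 ≤ G.ρ z * G.gn w z := fun z hz =>
    mul_nonneg (G.ρ_pos z).le (gn_pos G (hw.reg z hz)).le
  have hmw : (Fintype.card ι : ℝ) ≤ Module.finrank ℝ E - 1 := by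
    have : Fintype.card ι + 1 ≤ Module.finrank ℝ E := by omega
    have : ((Fintype.card ι + 1 : ℕ) : ℝ) ≤ Module.finrank ℝ E := by exact_mod_cast this
    push_cast at this
    linarith
  have hc1 : ContinuousOn (fun z => ((Module.finrank ℝ E - 1 : ℝ) + Fintype.card ι - Λ)
      * ((2 * uu z * kya G w z) * (G.ρ z * G.gn w z))) (surf w) :=
    continuousOn_const.mul (((continuous_const.mul continuous_uu).continuousOn.mul
      (cont_ka hw)).mul (ke_cont_dens G hw))
  have hc2 : ContinuousOn (fun z => sdI G w kX1 z * (G.ρ z * G.gn w z)) (surf w) :=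
    (cont_sdI hw fun z _ => contDiff_kX1.contDiffAt).mul (ke_cont_dens G hw)
  have h2 : ∫ z, ((Module.finrank ℝ E - 1 : ℝ) + Fintype.card ι - Λ)
      * ((2 * uu z * kya G w z) * (G.ρ z * G.gn w z)) ∂μ
      ≤ ∫ z, sdI G w kX1 z * (G.ρ z * G.gn w z) ∂μ := by
    apply ke_integral_mono hw hμ hc1 hc2
    intro z hz
    have hreg := hw.reg z hz
    rw [← mul_assoc]
    apply mul_le_mul_of_nonneg_right _ (hcd z hz)
    have k1 := keydiv1 hR hreg
    have k2 := g_kX1_nrm hR w z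
    have k3 := kbeta_le hR hreg
    have k4 := abs_le.mp (abs_ka_le hR hreg)
    have hu := ky_uu_pos z
    have hsu := ky_norm_lt_uu z
    have hs := norm_nonneg z
    have hι0 : (0 : ℝ) ≤ Fintype.card ι := by positivity
    unfold sdI
    rw [k1, k2, hΛ z hz]
    have k5 : kbeta hR w z / uu z ^ 2 ≤ ‖z‖ ^ 2 - kya G w z ^ 2 := by
      rw [div_le_iff₀ (by positivity)]
      linarith
    have k6 : 2 * kbeta hR w z / uu z ^ 2 ≤ 2 * (‖z‖ ^ 2 - kya G w z ^ 2) := by
      rw [mul_div_assoc]; linarith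
    have k7 : ((Module.finrank ℝ E - 1 : ℝ) + Fintype.card ι) * (uu z * kya G w z)
        ≤ ((Module.finrank ℝ E - 1 : ℝ) + Fintype.card ι) * (uu z * ‖z‖) := by
      apply mul_le_mul_of_nonneg_left _ (by linarith)
      exact mul_le_mul_of_nonneg_left k4.2 hu.le
    have k8 : 0 ≤ (uu z - ‖z‖) * ((Module.finrank ℝ E - 1 : ℝ) * uu z
        - Fintype.card ι * ‖z‖) := by
      apply mul_nonneg (by linarith)
      have : (Fintype.card ι : ℝ) * ‖z‖ ≤ (Module.finrank ℝ E - 1 : ℝ) * uu z :=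
        mul_le_mul hmw hsu.le hs (by linarith)
      linarith
    nlinarith [k7, k8, k6]
  have h3 : ∫ z, sdI G w kX1 z * (G.ρ z * G.gn w z) ∂μ = 0 := h1
  rw [h3, integral_const_mul] at h2
  by_contra hcon
  have : 0 < (Module.finrank ℝ E - 1 : ℝ) + Fintype.card ι - Λ := by
    linarith [not_le.mp hcon]
  have := mul_pos this hpos
  linarith

include hR in
/-- T13, with the divergence theorem as a hypothesis. -/
theorem main (hι : 1 ≤ Fintype.card ι) (hdim : 2 * Fintype.card ι + 2 ≤ Module.finrank ℝ E)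
    (hw : IsReg w) {μ : Measure E} (hμ : IsDelta w μ) (hne : ∃ x, w x < 0)
    (hsd : ∀ X : E → E, (∀ᶠ z in 𝓝ˢ (surf w), ContDiffAt ℝ 1 X z) →
      ∫ z, (G.dv X z - G.g z (G.nab X z (G.nrm w z)) (G.nrm w z)
        - G.mc w z * G.g z (X z) (G.nrm w z)) * (G.ρ z * G.gn w z) ∂μ = 0)
    (Λ : ℝ) (hΛ : ∀ z, w z = 0 → G.mc w z = Λ)
    (hstab : ∀ e : E, 0 ≤ ∫ z, (⟪G.C z e, e⟫_ℝ - ⟪e, G.nrm w z⟫_ℝ ^ 2
      - ⟪e, z⟫_ℝ ^ 2 * (tr ((G.nab (G.nrm w) z).comp (G.nab (G.nrm w) z)) - G.R))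
      * (G.ρ z * G.gn w z) ∂μ) :
    ∃ c > 0, {x | w x < 0} = Metric.ball (0 : E) c := by
  have hΛ0 := le_mc hR hw hμ hne hdim hsd Λ hΛ
  have hcard : (1 : ℝ) ≤ Fintype.card ι := by exact_mod_cast hι
  have hmw : 2 * (Fintype.card ι : ℝ) + 1 ≤ Module.finrank ℝ E - 1 := by
    have : ((2 * Fintype.card ι + 2 : ℕ) : ℝ) ≤ Module.finrank ℝ E := by exact_mod_cast hdim
    push_cast at this
    linarith
  have hm0 : (0 : ℝ) < Module.finrank ℝ E - 1 := by linarith
  obtain ⟨m, hm⟩ : ∃ m : ℝ, m = Module.finrank ℝ E - 1 := ⟨_, rfl⟩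
  obtain ⟨ww, hww⟩ : ∃ ww : ℝ, ww = Fintype.card ι := ⟨_, rfl⟩
  have hdens : ∀ z, w z = 0 → 0 < G.ρ z * G.gn w z := fun z hz =>
    mul_pos (G.ρ_pos z) (gn_pos G (hw.reg z hz))
  have hcd := ke_cont_dens G hw
  -- the bound for every `ε`
  have hbound : ∀ ε : ℝ, 0 < ε → ε ≤ 1 →
      ∫ z, Theta m ww ‖z‖ (uu z) (kya G w z) Λ * (G.ρ z * G.gn w z) ∂μ
        ≤ ε * ∫ z, (2 * Λ * ww + 5 * ww + 9) * uu z ^ 4 * (G.ρ z * G.gn w z) ∂μ := by
    intro ε hε hε1
    have i1 : ∫ z, sdI G w kX1 z * (G.ρ z * G.gn w z) ∂μ = 0 :=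
      hsd kX1 (Eventually.of_forall fun x =>
        (contDiff_kX1.contDiffAt).of_le (by exact_mod_cast le_top))
    have i2 : ∫ z, sdI G w (kX2 hR w ε) z * (G.ρ z * G.gn w z) ∂μ = 0 :=
      hsd (kX2 hR w ε) (by
        filter_upwards [eventually_contDiffAt_kX2 hR hw hε] with z hz
        exact hz.of_le (by exact_mod_cast le_top))
    have i3 : 0 ≤ ∫ z, stI G w z * (G.ρ z * G.gn w z) ∂μ := sum_stab G hw hμ hstab
    have c1 : ContinuousOn (fun z => sdI G w kX1 z * (G.ρ z * G.gn w z)) (surf w) :=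
      (cont_sdI hw fun z _ => contDiff_kX1.contDiffAt).mul hcd
    have c2 : ContinuousOn (fun z => sdI G w (kX2 hR w ε) z * (G.ρ z * G.gn w z)) (surf w) :=
      (cont_sdI hw fun z hz => contDiffAt_kX2 hR hw hε (hw.reg z hz)).mul hcd
    have c3 : ContinuousOn (fun z => stI G w z * (G.ρ z * G.gn w z)) (surf w) :=
      (cont_stI hw).mul hcd
    have j1 := ke_integrable hw hμ c1
    have j2 := ke_integrable hw hμ c2
    have j3 := ke_integrable hw hμ c3
    have c4 : ContinuousOn (fun z => Theta m ww ‖z‖ (uu z) (kya G w z) Λ * (G.ρ z * G.gn w z))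
        (surf w) := (cont_Theta hw m ww Λ).mul hcd
    have c5 : ContinuousOn (fun z => (2 * Λ * ww + 5 * ww + 9) * uu z ^ 4
        * (G.ρ z * G.gn w z)) (surf w) :=
      (continuous_const.mul (continuous_uu.pow 4)).continuousOn.mul hcd
    have j4 := ke_integrable hw hμ c4
    have j5 := ke_integrable hw hμ c5
    have hsum : 0 ≤ ∫ z, (stI G w z * (G.ρ z * G.gn w z)
        + 2 * (sdI G w (kX2 hR w ε) z * (G.ρ z * G.gn w z))
        - sdI G w kX1 z * (G.ρ z * G.gn w z)) ∂μ := by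
      have k1 : Integrable (fun z => stI G w z * (G.ρ z * G.gn w z)
          + 2 * (sdI G w (kX2 hR w ε) z * (G.ρ z * G.gn w z))) μ := j3.add (j2.const_mul 2)
      rw [integral_sub k1 j1, integral_add j3 (j2.const_mul 2), integral_const_mul, i1, i2]
      linarith
    have hle : ∫ z, (stI G w z * (G.ρ z * G.gn w z)
        + 2 * (sdI G w (kX2 hR w ε) z * (G.ρ z * G.gn w z))
        - sdI G w kX1 z * (G.ρ z * G.gn w z)) ∂μ
        ≤ ∫ z, (ε * ((2 * Λ * ww + 5 * ww + 9) * uu z ^ 4 * (G.ρ z * G.gn w z))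
          - Theta m ww ‖z‖ (uu z) (kya G w z) Λ * (G.ρ z * G.gn w z)) ∂μ := by
      apply ke_integral_mono hw hμ
      · exact (c3.add (continuousOn_const.mul c2)).sub c1
      · exact (continuousOn_const.mul c5).sub c4
      · intro z hz
        have hreg := hw.reg z hz
        have hp := pointwise hR hw hι hdim hreg hε
        have hσ2 : Real.sqrt (‖z‖ ^ 2 + ε ^ 2) ^ 2 = ‖z‖ ^ 2 + ε ^ 2 :=
          Real.sq_sqrt (by positivity)
        have hσ0 : 0 < Real.sqrt (‖z‖ ^ 2 + ε ^ 2) := Real.sqrt_pos.mpr (by positivity)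
        rw [hΛ z hz, ← hm, ← hww] at hp
        have hF := Fhat_ge (m := m) (w := ww) (s := ‖z‖) (u := uu z) (a := kya G w z)
          (β := kbeta hR w z) (Λ := Λ) (σ := Real.sqrt (‖z‖ ^ 2 + ε ^ 2)) (ε := ε)
          (norm_nonneg z) (ky_uu_pos z) (ky_uu_sq z) (by rw [hww]; exact hcard)
          (by rw [hww, hm]; exact hmw) (by rw [hm, hww]; exact hΛ0) (abs_ka_le hR hreg)
          (kbeta_nonneg hR z) (kbeta_le hR hreg) hε hε1 hσ0 hσ2
        have hd := (hdens z hz).le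
        have hfin : stI G w z + 2 * sdI G w (kX2 hR w ε) z - sdI G w kX1 z
            ≤ ε * ((2 * Λ * ww + 5 * ww + 9) * uu z ^ 4)
              - Theta m ww ‖z‖ (uu z) (kya G w z) Λ := by linarith
        have := mul_le_mul_of_nonneg_right hfin hd
        nlinarith [this]
    rw [integral_sub (j5.const_mul ε) j4, integral_const_mul] at hle
    linarith
  -- hence the integral of `Theta` is nonpositive
  have hint : ∫ z, Theta m ww ‖z‖ (uu z) (kya G w z) Λ * (G.ρ z * G.gn w z) ∂μ ≤ 0 := by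
    by_contra hcon1
    have hcon := not_le.mp hcon1
    set I := ∫ z, Theta m ww ‖z‖ (uu z) (kya G w z) Λ * (G.ρ z * G.gn w z) ∂μ with hI
    set M := ∫ z, (2 * Λ * ww + 5 * ww + 9) * uu z ^ 4 * (G.ρ z * G.gn w z) ∂μ with hM
    have hden : 0 < 2 * (|M| + 1) := by positivity
    have h1 := hbound (min 1 (I / (2 * (|M| + 1)))) (lt_min one_pos (div_pos hcon hden))
      (min_le_left _ _)
    have h2 : min 1 (I / (2 * (|M| + 1))) * M ≤ (I / (2 * (|M| + 1))) * |M| := by
      have h0 : 0 ≤ min 1 (I / (2 * (|M| + 1))) := le_min one_pos.le (div_pos hcon hden).le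
      calc min 1 (I / (2 * (|M| + 1))) * M ≤ min 1 (I / (2 * (|M| + 1))) * |M| :=
            mul_le_mul_of_nonneg_left (le_abs_self M) h0
        _ ≤ (I / (2 * (|M| + 1))) * |M| :=
            mul_le_mul_of_nonneg_right (min_le_right _ _) (abs_nonneg M)
    have h3 : (I / (2 * (|M| + 1))) * |M| ≤ I / 2 := by
      rw [div_mul_eq_mul_div, div_le_iff₀ hden]
      nlinarith [abs_nonneg M]
    linarith
  have hThn : ∀ z, w z = 0 → 0 ≤ Theta m ww ‖z‖ (uu z) (kya G w z) Λ := by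
    intro z hz
    have ha := abs_le.mp (abs_ka_le hR (hw.reg z hz))
    unfold Theta
    apply add_nonneg
    · apply div_nonneg (sq_nonneg _)
      rw [hm]; exact hm0.le
    · apply mul_nonneg
      · rw [hm, hww]; linarith
      · nlinarith [norm_nonneg z, ha.2]
  have hzero := eq_zero_of_integral_nonpos hw hμ
    (q := fun z => Theta m ww ‖z‖ (uu z) (kya G w z) Λ * (G.ρ z * G.gn w z))
    ((cont_Theta hw m ww Λ).mul hcd)
    (fun z hz => mul_nonneg (hThn z hz) (hdens z hz).le) hint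
  -- the radius is constant
  have hcurv : ∀ z, w z = 0 → ‖z‖ * Λ - m * uu z - ww * ‖z‖ ^ 2 / uu z = 0 := by
    intro z hz
    have h1 := hzero z hz
    have h2 : Theta m ww ‖z‖ (uu z) (kya G w z) Λ = 0 := by
      rcases mul_eq_zero.mp h1 with h | h
      · exact h
      · exact absurd h (hdens z hz).ne'
    have ha := abs_le.mp (abs_ka_le hR (hw.reg z hz))
    unfold Theta at h2
    have h3 : 0 ≤ (‖z‖ * Λ - m * uu z - ww * ‖z‖ ^ 2 / uu z) ^ 2 / m := by
      apply div_nonneg (sq_nonneg _)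
      rw [hm]; exact hm0.le
    have h4 : 0 ≤ 2 * (m - ww - 1) * (‖z‖ ^ 2 - kya G w z * ‖z‖) := by
      apply mul_nonneg
      · rw [hm, hww]; linarith
      · nlinarith [norm_nonneg z, ha.2]
    have h5 : (‖z‖ * Λ - m * uu z - ww * ‖z‖ ^ 2 / uu z) ^ 2 / m = 0 := by linarith
    have h6 : (‖z‖ * Λ - m * uu z - ww * ‖z‖ ^ 2 / uu z) ^ 2 = 0 := by
      rcases div_eq_zero_iff.mp h5 with h | h
      · exact h
      · rw [hm] at h; exact absurd h hm0.ne'
    simpa using h6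
  have hspos : ∀ z, w z = 0 → 0 < ‖z‖ := by
    intro z hz
    rcases (norm_nonneg z).eq_or_lt with h | h
    · exfalso
      have h1 := hcurv z hz
      rw [← h] at h1
      have hu := ky_uu_pos z
      simp only [zero_mul, ne_eq, OfNat.ofNat_ne_zero, not_false_eq_true, zero_pow, mul_zero,
        zero_div, sub_zero, zero_sub] at h1
      have : 0 < m * uu z := mul_pos (by rw [hm]; exact hm0) hu
      linarith
    · exact h
  have hnt : Nontrivial E := by
    have : 0 < Module.finrank ℝ E := by omega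
    exact Module.finrank_pos_iff.mp this
  obtain ⟨z0, hz0⟩ := exists_surf hw hne
  refine ⟨‖z0‖, hspos z0 hz0, eq_ball_of_surf hw hne (hspos z0 hz0) ?_⟩
  intro z hz
  have hτ : ∀ y : E, w y = 0 → 0 < ‖y‖ / uu y ∧ ‖y‖ / uu y < 1 ∧
      m * (‖y‖ / uu y)⁻¹ + ww * (‖y‖ / uu y) = Λ := by
    intro y hy
    have hs := hspos y hy
    have hu := ky_uu_pos y
    refine ⟨div_pos hs hu, ?_, ?_⟩
    · rw [div_lt_one hu]; exact ky_norm_lt_uu y
    · have h1 := hcurv y hy
      have h2 : ‖y‖ * Λ = m * uu y + ww * ‖y‖ ^ 2 / uu y := by linarith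
      have h3 : Λ = (m * uu y + ww * ‖y‖ ^ 2 / uu y) / ‖y‖ := by
        rw [eq_div_iff hs.ne']; linarith
      rw [h3]
      field_simp
  have t1 := hτ z hz
  have t2 := hτ z0 hz0
  have hinj := CHIso.meanCurv_inj (m := m) (w := ww) (by rw [hww]; positivity)
    (by rw [hm, hww]; linarith) t1.1 t1.2.1 t2.1 t2.2.1 (t1.2.2.trans t2.2.2.symm)
  -- `s/u` determines `s`
  have hu1 := ky_uu_pos z
  have hu2 := ky_uu_pos z0
  have h1 : (‖z‖ / uu z) ^ 2 = (‖z0‖ / uu z0) ^ 2 := by rw [hinj]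
  rw [div_pow, div_pow, ky_uu_sq, ky_uu_sq, div_eq_div_iff (by positivity) (by positivity)] at h1
  have h2 : ‖z‖ ^ 2 = ‖z0‖ ^ 2 := by nlinarith
  have h3 := abs_eq_abs.mpr (sq_eq_sq_iff_eq_or_eq_neg.mp h2)
  rwa [abs_of_nonneg (norm_nonneg z), abs_of_nonneg (norm_nonneg z0)] at h3

end measure

end Key

/-- T13: a balanced stable domain of constant mean curvature is a ball. -/
theorem balanced_min_ball [MeasurableSpace E] [BorelSpace E] (G : Geo E) {ι : Type} [Fintype ι]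
    [DecidableEq ι] (hR : Rad G ι)
    (hι : 1 ≤ Fintype.card ι) (hdim : 2 * Fintype.card ι + 2 ≤ Module.finrank ℝ E)
    {w : E → ℝ} (hw : IsReg w) {μ : Measure E} (hμ : IsDelta w μ) (hne : ∃ x, w x < 0)
    (Λ : ℝ) (hΛ : ∀ z, w z = 0 → G.mc w z = Λ)
    (hstab : ∀ e : E, 0 ≤ ∫ z, (⟪G.C z e, e⟫_ℝ - ⟪e, G.nrm w z⟫_ℝ ^ 2
      - ⟪e, z⟫_ℝ ^ 2 * (tr ((G.nab (G.nrm w) z).comp (G.nab (G.nrm w) z)) - G.R))
      * (G.ρ z * G.gn w z) ∂μ) :
    ∃ c > 0, {x | w x < 0} = Metric.ball (0 : E) c :=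
  Key.main hR hι hdim hw hμ hne (fun X hX => surf_div G hw hμ X hX) Λ hΛ hstab

end

end Pool.Agent.Work.MP_3b24f6_gt
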