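import Pool.Agent.Work.MP_3b24f6_gt.Calc

/-! T13, part A: pointwise formulas for the radial structure. -/

set_option autoImplicit false

open MeasureTheory Set Filter Topology
open scoped ContDiff InnerProductSpace

namespace Pool.Agent.Work.MP_3b24f6_gt

noncomputable section

variable {E : Type*} [NormedAddCommGroup E] [InnerProductSpace ℝ E] [FiniteDimensional ℝ E]

/-! ### The function `uu` -/

theorem ky_uu_sq (z : E) : uu z ^ 2 = 1 + ‖z‖ ^ 2 := Real.sq_sqrt (by positivity)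

theorem ky_uu_pos (z : E) : 0 < uu z := Real.sqrt_pos.mpr (by positivity)

theorem ky_one_le_uu (z : E) : 1 ≤ uu z := by
  have h := ky_uu_sq z
  have h0 := ky_uu_pos z
  nlinarith [sq_nonneg ‖z‖]

theorem ky_norm_lt_uu (z : E) : ‖z‖ < uu z := by
  have h := ky_uu_sq z
  have h0 := ky_uu_pos z
  nlinarith [norm_nonneg z]

theorem ky_contDiff_uu {n : WithTop ℕ∞} : ContDiff ℝ n (uu : E → ℝ) := by
  unfold uu
  apply ContDiff.sqrt
  · exact contDiff_const.add (contDiff_norm_sq ℝ)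
  · intro x
    positivity

theorem ky_hasFDerivAt_uu (z : E) :
    HasFDerivAt (uu : E → ℝ) ((uu z)⁻¹ • (innerSL ℝ z : E →L[ℝ] ℝ)) z := by
  have h1 : HasFDerivAt (fun y : E => 1 + ‖y‖ ^ 2) ((2 : ℝ) • (innerSL ℝ z : E →L[ℝ] ℝ)) z := by
    have h0 := ((hasStrictFDerivAt_norm_sq z).hasFDerivAt).const_add 1
    have e0 : (2 : ℝ) • (innerSL ℝ z : E →L[ℝ] ℝ) = 2 • (innerSL ℝ z : E →L[ℝ] ℝ) := by
      ext v; simp [two_smul]
    rw [e0]
    exact h0
  have h2 := h1.sqrt (by positivity)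
  have h3 : (1 / (2 * Real.sqrt (1 + ‖z‖ ^ 2))) • ((2 : ℝ) • (innerSL ℝ z : E →L[ℝ] ℝ))
      = (uu z)⁻¹ • (innerSL ℝ z : E →L[ℝ] ℝ) := by
    rw [smul_smul]
    congr 1
    have : Real.sqrt (1 + ‖z‖ ^ 2) ≠ 0 := (ky_uu_pos z).ne'
    unfold uu
    field_simp
  rw [← h3]
  exact h2

theorem fderiv_uu (z v : E) : fderiv ℝ (uu : E → ℝ) z v = ⟪z, v⟫_ℝ / uu z := by
  rw [(ky_hasFDerivAt_uu z).fderiv]
  simp [div_eq_inv_mul]

theorem differentiableAt_uu (z : E) : DifferentiableAt ℝ (uu : E → ℝ) z :=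
  (ky_hasFDerivAt_uu z).differentiableAt

/-! ### Bilinearity of the metric -/

variable (G : Geo E)

theorem g_add_left (z u v x : E) : G.g z (u + v) x = G.g z u x + G.g z v x := by
  simp [Geo.g, inner_add_left]

theorem g_add_right (z u v x : E) : G.g z x (u + v) = G.g z x u + G.g z x v := by
  simp [Geo.g, inner_add_right]

theorem g_sub_left (z u v x : E) : G.g z (u - v) x = G.g z u x - G.g z v x := by
  simp [Geo.g, inner_sub_left]

theorem g_sub_right (z u v x : E) : G.g z x (u - v) = G.g z x u - G.g z x v := by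
  simp [Geo.g, inner_sub_right]

theorem g_smul_left (z : E) (c : ℝ) (u x : E) : G.g z (c • u) x = c * G.g z u x := by
  simp [Geo.g, real_inner_smul_left]

theorem g_smul_right (z : E) (c : ℝ) (u x : E) : G.g z x (c • u) = c * G.g z x u := by
  simp [Geo.g, real_inner_smul_right]

theorem g_sum_left {ι : Type} [Fintype ι] (z : E) (T : ι → E) (x : E) :
    G.g z (∑ a, T a) x = ∑ a, G.g z (T a) x := by
  simp [Geo.g, sum_inner]

theorem g_sum_right {ι : Type} [Fintype ι] (z : E) (T : ι → E) (x : E) :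
    G.g z x (∑ a, T a) = ∑ a, G.g z x (T a) := by
  simp [Geo.g, inner_sum]

theorem g_nonneg (z v : E) : 0 ≤ G.g z v v := by
  rcases eq_or_ne v 0 with h | h
  · simp [h, Geo.g]
  · exact (G.A_pos z v h).le

/-- The functional `v ↦ g(x, v)`. -/
def gL (z x : E) : E →L[ℝ] ℝ := innerSL ℝ (G.A z x)

@[simp] theorem gL_apply (z x v : E) : gL G z x v = G.g z x v := by
  simp [gL, Geo.g]

theorem CA (z v : E) : G.C z (G.A z v) = v := by
  have hinj : Function.Injective (G.A z) := by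
    intro x y hxy
    by_contra hne
    have h := G.A_pos z (x - y) (sub_ne_zero.mpr hne)
    rw [map_sub, hxy, sub_self, inner_zero_left] at h
    exact lt_irrefl _ h
  exact hinj (G.AC z _)

/-- The trace of a `g`-skew operator vanishes. -/
theorem tr_skew (z : E) (T : E →L[ℝ] E) (hT : ∀ v, G.g z (T v) v = 0) : tr T = 0 := by
  have hpol : ∀ v x, G.g z (T v) x + G.g z (T x) v = 0 := by
    intro v x
    have h := hT (v + x)
    rw [map_add, g_add_left, g_add_right, g_add_right, hT v, hT x] at h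
    linarith
  have hsk : ∀ v x, ⟪G.A z (T v), x⟫_ℝ = -⟪v, G.A z (T x)⟫_ℝ := by
    intro v x
    have := hpol v x
    unfold Geo.g at this
    rw [real_inner_comm (G.A z (T x)) v]
    linarith
  -- `T = - C T^* A`
  have hadj : T = -((G.C z).comp ((ContinuousLinearMap.adjoint T).comp (G.A z))) := by
    ext v
    have h1 : G.A z (T v) = -(ContinuousLinearMap.adjoint T (G.A z v)) := by
      apply ext_inner_right ℝ
      intro x
      rw [hsk, inner_neg_left, ContinuousLinearMap.adjoint_inner_left, ← G.A_symm]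
    have h2 : T v = G.C z (G.A z (T v)) := (CA G z _).symm
    rw [h2, h1]
    simp
  have h3 : tr T = -tr (ContinuousLinearMap.adjoint T) := by
    conv_lhs => rw [hadj]
    rw [tr_neg, tr_comp_comm]
    congr 2
    ext v
    simp [G.AC]
  have h4 : tr (ContinuousLinearMap.adjoint T) = tr T := by
    have b := stdOrthonormalBasis ℝ E
    rw [tr, tr, LinearMap.trace_eq_sum_inner _ b, LinearMap.trace_eq_sum_inner _ b]
    refine Finset.sum_congr rfl fun i _ => ?_
    have : ⟪b i, (ContinuousLinearMap.adjoint T) (b i)⟫_ℝ = ⟪T (b i), b i⟫_ℝ :=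
      ContinuousLinearMap.adjoint_inner_right T (b i) (b i)
    simpa [real_inner_comm] using this
  rw [h4] at h3
  linarith

/-! ### Consequences of the radial structure -/

section rad

variable {G} {ι : Type} [Fintype ι] [DecidableEq ι] (hR : Rad G ι)

include hR

theorem rad_gz (z v : E) : G.g z z v = ⟪z, v⟫_ℝ / uu z ^ 2 := by
  have h := hR.grad_u z v
  rw [g_smul_left] at h
  have hu := (ky_uu_pos z).ne'
  field_simp
  field_simp at h
  linarith

theorem rad_inner_ξ (a : ι) (z : E) : ⟪z, hR.ξ a z⟫_ℝ = 0 := by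
  have h := hR.ξz a z
  rw [g_symm, rad_gz hR] at h
  have hu := (ky_uu_pos z).ne'
  rcases div_eq_zero_iff.mp h with h1 | h1
  · exact h1
  · exact absurd h1 (by positivity)

theorem rad_differentiable_ξ (a : ι) (z : E) : DifferentiableAt ℝ (hR.ξ a) z :=
  (hR.smooth_ξ a).differentiable (by simp) z

/-- Polarised Killing equation. -/
theorem rad_killing (a : ι) (z v x : E) :
    G.g z (G.nab (hR.ξ a) z v) x = -G.g z (G.nab (hR.ξ a) z x) v := by
  have h := hR.killing a z (v + x)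
  rw [map_add, g_add_left, g_add_right, g_add_right, hR.killing a z v, hR.killing a z x] at h
  linarith

theorem rad_dv_ξ (a : ι) (z : E) : G.dv (hR.ξ a) z = 0 :=
  tr_skew G z _ (hR.killing a z)

theorem rad_nab_ξ_ξ (a : ι) (z v : E) :
    G.g z (G.nab (hR.ξ a) z (hR.ξ a z)) v = -(2 * uu z ^ 2 - 1) * ⟪z, v⟫_ℝ := by
  rw [rad_killing hR]
  have h1 := fderiv_g G (hR.ξ a) (hR.ξ a) z v (rad_differentiable_ξ hR a z)
    (rad_differentiable_ξ hR a z)
  have h2 : (fun y => G.g y (hR.ξ a y) (hR.ξ a y)) = fun y => uu y ^ 2 * (uu y ^ 2 - 1) := by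
    funext y
    rw [hR.ξξ a a y, if_pos rfl]
  have h3 : HasFDerivAt (fun y : E => uu y ^ 2 * (uu y ^ 2 - 1))
      ((4 * uu z ^ 3 - 2 * uu z) • ((uu z)⁻¹ • (innerSL ℝ z : E →L[ℝ] ℝ))) z := by
    have hd : HasDerivAt (fun t : ℝ => t ^ 2 * (t ^ 2 - 1)) (4 * uu z ^ 3 - 2 * uu z) (uu z) := by
      have h4 := (hasDerivAt_pow 2 (uu z)).fun_mul ((hasDerivAt_pow 2 (uu z)).sub_const 1)
      refine h4.congr_deriv ?_
      push_cast
      ring
    exact hd.comp_hasFDerivAt z (ky_hasFDerivAt_uu z)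
  rw [h2, h3.fderiv, g_symm G z (hR.ξ a z)] at h1
  have hu := (ky_uu_pos z).ne'
  have h4 : ((4 * uu z ^ 3 - 2 * uu z) • ((uu z)⁻¹ • (innerSL ℝ z : E →L[ℝ] ℝ))) v
      = 2 * ((2 * uu z ^ 2 - 1) * ⟪z, v⟫_ℝ) := by
    simp
    field_simp
    ring
  rw [h4] at h1
  linarith

/-- Covariant derivative of the Euler field. -/
theorem rad_nab_id (z : E) : G.nab (fun y => y) z
    = ContinuousLinearMap.id ℝ E - ((uu z ^ 2)⁻¹ • (innerSL ℝ z : E →L[ℝ] ℝ)).smulRight z
      + ∑ a, ((uu z ^ 4)⁻¹ • gL G z (hR.ξ a z)).smulRight (hR.ξ a z) := by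
  ext v
  have h1 := hR.hess_u z v
  rw [nab_smul G uu (fun y => y) z v (differentiableAt_uu z) differentiableAt_id, fderiv_uu] at h1
  have hu := (ky_uu_pos z).ne'
  have h2 : G.nab (fun y => y) z v = (uu z)⁻¹ • (uu z • G.nab (fun y => y) z v) := by
    rw [smul_smul, inv_mul_cancel₀ hu, one_smul]
  have h3 : uu z • G.nab (fun y => y) z v = uu z • v
      + (uu z ^ 3)⁻¹ • ∑ a, G.g z (hR.ξ a z) v • hR.ξ a z - (⟪z, v⟫_ℝ / uu z) • z := by
    rw [← h1]; abel
  rw [h2, h3, smul_sub, smul_add, smul_smul, smul_smul, smul_smul, inv_mul_cancel₀ hu, one_smul]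
  simp only [add_apply, sub_apply,
    ContinuousLinearMap.coe_id', id_eq, ContinuousLinearMap.smulRight_apply,
    smul_apply, innerSL_apply_apply, smul_eq_mul,
    sum_apply, gL_apply, Finset.smul_sum, smul_smul]
  have e1 : (uu z)⁻¹ * (⟪z, v⟫_ℝ / uu z) = (uu z ^ 2)⁻¹ * ⟪z, v⟫_ℝ := by
    field_simp
  have e2 : ∀ a, (uu z)⁻¹ * (uu z ^ 3)⁻¹ * G.g z (hR.ξ a z) v
      = (uu z ^ 4)⁻¹ * G.g z (hR.ξ a z) v := by
    intro a
    field_simp
  rw [e1]
  simp only [e2]
  abel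

theorem rad_nab_id_apply (z v : E) : G.nab (fun y => y) z v
    = v - ((uu z ^ 2)⁻¹ * ⟪z, v⟫_ℝ) • z
      + ∑ a, ((uu z ^ 4)⁻¹ * G.g z (hR.ξ a z) v) • hR.ξ a z := by
  rw [rad_nab_id hR]
  simp

theorem rad_dv_id (z : E) : G.dv (fun y => y) z
    = Module.finrank ℝ E - ‖z‖ ^ 2 / uu z ^ 2 + Fintype.card ι * ‖z‖ ^ 2 / uu z ^ 2 := by
  rw [Geo.dv, rad_nab_id hR, tr_add, tr_sub, tr_smulRight]
  have h1 : tr (ContinuousLinearMap.id ℝ E) = (Module.finrank ℝ E : ℝ) := by
    simp [tr]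
  have h2 : tr (∑ a, ((uu z ^ 4)⁻¹ • gL G z (hR.ξ a z)).smulRight (hR.ξ a z))
      = ∑ a : ι, (uu z ^ 4)⁻¹ * (uu z ^ 2 * (uu z ^ 2 - 1)) := by
    have : tr (∑ a, ((uu z ^ 4)⁻¹ • gL G z (hR.ξ a z)).smulRight (hR.ξ a z))
        = ∑ a, tr (((uu z ^ 4)⁻¹ • gL G z (hR.ξ a z)).smulRight (hR.ξ a z)) := by
      exact map_sum (trL : (E →L[ℝ] E) →L[ℝ] ℝ)
        (fun a => ((uu z ^ 4)⁻¹ • gL G z (hR.ξ a z)).smulRight (hR.ξ a z)) Finset.univ
    rw [this]
    refine Finset.sum_congr rfl fun a _ => ?_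
    rw [tr_smulRight]
    simp [hR.ξξ a a z]
  rw [h1, h2]
  have hu := (ky_uu_pos z).ne'
  have hu2 := ky_uu_sq z
  simp only [smul_apply, innerSL_apply_apply, smul_eq_mul,
    real_inner_self_eq_norm_sq, Finset.sum_const, Finset.card_univ, nsmul_eq_mul]
  have e : uu z ^ 2 - 1 = ‖z‖ ^ 2 := by linarith
  rw [e]
  field_simp

end rad

end

end Pool.Agent.Work.MP_3b24f6_gt
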