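import Pool.Agent.Work.MP_3b24f6_gt.KeyA
import Pool.Agent.Work.MP_3b24f6_gt.CalcN

/-! T13, part KeyDiv: the two tangential divergences. -/

set_option autoImplicit false

open MeasureTheory Set Filter Topology
open scoped ContDiff InnerProductSpace

namespace Pool.Agent.Work.MP_3b24f6_gt

noncomputable section

variable {E : Type*} [NormedAddCommGroup E] [InnerProductSpace ℝ E] [FiniteDimensional ℝ E]

/-! ### Finite sums -/

section sums
variable (G : Geo E) {ι : Type} [Fintype ι]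

theorem tr_sum (T : ι → E →L[ℝ] E) : tr (∑ a, T a) = ∑ a, tr (T a) :=
  map_sum (trL : (E →L[ℝ] E) →L[ℝ] ℝ) T Finset.univ

theorem nab_sum (Y : ι → E → E) (z : E) (hY : ∀ a, DifferentiableAt ℝ (Y a) z) :
    G.nab (fun y => ∑ a, Y a y) z = ∑ a, G.nab (Y a) z := by
  simp only [nab_eq]
  rw [fderiv_fun_sum (fun a _ => hY a), map_sum, Finset.sum_add_distrib]

end sums

section keydiv

variable {G : Geo E} {ι : Type} [Fintype ι] [DecidableEq ι] (hR : Rad G ι)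

/-! ### The first field -/

/-- The first test field. -/
def kX1 (y : E) : E := (2 * uu y) • (uu y • y)

theorem contDiff_kX1 : ContDiff ℝ ∞ (kX1 : E → E) :=
  (contDiff_const.mul ky_contDiff_uu).smul (ky_contDiff_uu.smul contDiff_id)

theorem nab_kX1 (z v : E) :
    G.nab kX1 z v = (2 * uu z) • (uu z • v + (uu z ^ 3)⁻¹ • ∑ a, G.g z (hR.ξ a z) v • hR.ξ a z)
      + (2 * ⟪z, v⟫_ℝ) • z := by
  have hd1 : DifferentiableAt ℝ (fun y : E => 2 * uu y) z := (differentiableAt_uu z).const_mul 2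
  have hd2 : DifferentiableAt ℝ (fun y : E => uu y • y) z :=
    (differentiableAt_uu z).smul differentiableAt_id
  have h1 := nab_smul G (fun y : E => 2 * uu y) (fun y => uu y • y) z v hd1 hd2
  have h2 : fderiv ℝ (fun y : E => 2 * uu y) z v = 2 * (⟪z, v⟫_ℝ / uu z) := by
    rw [fderiv_const_mul (differentiableAt_uu z)]
    simp [fderiv_uu]
  have hu := (ky_uu_pos z).ne'
  rw [show (kX1 : E → E) = fun y => (2 * uu y) • (uu y • y) from rfl, h1, hR.hess_u, h2, smul_smul]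
  congr 2
  field_simp

include hR in
theorem dv_kX1 (z : E) : G.dv kX1 z
    = 2 * (uu z ^ 2 * Module.finrank ℝ E + (Fintype.card ι + 1) * ‖z‖ ^ 2) := by
  have hd1 : DifferentiableAt ℝ (fun y : E => 2 * uu y) z := (differentiableAt_uu z).const_mul 2
  have hd2 : DifferentiableAt ℝ (fun y : E => uu y • y) z :=
    (differentiableAt_uu z).smul differentiableAt_id
  have h2 : ∀ v, fderiv ℝ (fun y : E => 2 * uu y) z v = 2 * (⟪z, v⟫_ℝ / uu z) := by
    intro v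
    rw [fderiv_const_mul (differentiableAt_uu z)]
    simp [fderiv_uu]
  have hu := (ky_uu_pos z).ne'
  rw [show (kX1 : E → E) = fun y => (2 * uu y) • (uu y • y) from rfl,
    dv_smul G (fun y : E => 2 * uu y) (fun y => uu y • y) z hd1 hd2, h2,
    dv_smul G uu (fun y => y) z (differentiableAt_uu z) differentiableAt_id, rad_dv_id hR,
    fderiv_uu, real_inner_smul_right, real_inner_self_eq_norm_sq]
  field_simp
  ring

/-- `a = ⟪z, N⟫ / u`. -/
def kya (G : Geo E) (w : E → ℝ) (z : E) : ℝ := ⟪z, G.nrm w z⟫_ℝ / uu z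

/-- `b_a = g(ξ_a, N)`. -/
def kyb (w : E → ℝ) (a : ι) (z : E) : ℝ := G.g z (hR.ξ a z) (G.nrm w z)

/-- `β = ∑ b_a²`. -/
def kbeta (w : E → ℝ) (z : E) : ℝ := ∑ a, kyb hR w a z ^ 2

/-- tangential part of `ξ_a`. -/
def kT (w : E → ℝ) (a : ι) (z : E) : E := hR.ξ a z - kyb hR w a z • G.nrm w z

theorem inner_nrm (w : E → ℝ) (z : E) : ⟪z, G.nrm w z⟫_ℝ = uu z * kya G w z := by
  have hu := (ky_uu_pos z).ne'
  rw [kya]
  field_simp

include hR in
theorem g_z_nrm (w : E → ℝ) (z : E) : G.g z z (G.nrm w z) = kya G w z / uu z := by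
  rw [rad_gz hR, inner_nrm]
  have hu := (ky_uu_pos z).ne'
  field_simp

include hR in
theorem g_kX1_nrm (w : E → ℝ) (z : E) :
    G.g z (kX1 z) (G.nrm w z) = 2 * uu z * kya G w z := by
  have hu := (ky_uu_pos z).ne'
  rw [kX1, g_smul_left, g_smul_left, g_z_nrm hR]
  field_simp

theorem keydiv1 {w : E → ℝ} {z : E} (hz : fderiv ℝ w z ≠ 0) :
    G.dv kX1 z - G.g z (G.nab kX1 z (G.nrm w z)) (G.nrm w z)
      = 2 * (1 + Fintype.card ι) * ‖z‖ ^ 2 + 2 * (Module.finrank ℝ E - 1) * uu z ^ 2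
        - 2 * kya G w z ^ 2 - 2 * kbeta hR w z / uu z ^ 2 := by
  have hN := g_nrm_nrm G hz
  have hu := (ky_uu_pos z).ne'
  rw [dv_kX1 hR, nab_kX1 hR, g_add_left, g_smul_left, g_add_left, g_smul_left, g_smul_left,
    g_smul_left, g_sum_left, hN, g_z_nrm hR, inner_nrm]
  have h1 : ∑ a, G.g z (G.g z (hR.ξ a z) (G.nrm w z) • hR.ξ a z) (G.nrm w z)
      = kbeta hR w z := by
    rw [kbeta]
    refine Finset.sum_congr rfl fun a _ => ?_
    rw [g_smul_left, kyb, sq]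
  rw [h1]
  field_simp
  ring

/-! ### The second field -/

/-- The radial factor. -/
def kpsi (ε : ℝ) (y : E) : ℝ := Real.sqrt (‖y‖ ^ 2 + ε ^ 2) / uu y ^ 3

/-- The sum `∑ g(ξ_a, N) ξ_a`. -/
def kS (w : E → ℝ) (y : E) : E := ∑ a, G.g y (hR.ξ a y) (G.nrm w y) • hR.ξ a y

/-- The second test field. -/
def kX2 (w : E → ℝ) (ε : ℝ) (y : E) : E :=
  kpsi ε y • ∑ a, G.g y (hR.ξ a y) (G.nrm w y) • hR.ξ a y

theorem contDiff_kpsi {ε : ℝ} (hε : 0 < ε) : ContDiff ℝ ∞ (kpsi ε : E → ℝ) := by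
  unfold kpsi
  apply ContDiff.div
  · apply ContDiff.sqrt
    · exact (contDiff_norm_sq ℝ).add contDiff_const
    · intro x
      positivity
  · exact ky_contDiff_uu.pow 3
  · intro x
    have := ky_uu_pos x
    positivity

theorem fderiv_kpsi {ε : ℝ} (hε : 0 < ε) (z v : E) : fderiv ℝ (kpsi ε : E → ℝ) z v
    = (1 / (Real.sqrt (‖z‖ ^ 2 + ε ^ 2) * uu z ^ 3)
        - 3 * Real.sqrt (‖z‖ ^ 2 + ε ^ 2) / uu z ^ 5) * ⟪z, v⟫_ℝ := by
  have hσ : 0 < Real.sqrt (‖z‖ ^ 2 + ε ^ 2) := Real.sqrt_pos.mpr (by positivity)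
  have hu := ky_uu_pos z
  have h1 : HasFDerivAt (fun y : E => ‖y‖ ^ 2 + ε ^ 2)
      (2 • (innerSL ℝ z : E →L[ℝ] ℝ)) z :=
    ((hasStrictFDerivAt_norm_sq z).hasFDerivAt).add_const (ε ^ 2)
  have h2 := h1.sqrt (by positivity)
  have h3 : HasFDerivAt (fun y : E => (uu y ^ 3)⁻¹)
      ((-3 * (uu z ^ 4)⁻¹) • ((uu z)⁻¹ • (innerSL ℝ z : E →L[ℝ] ℝ))) z := by
    have hd : HasDerivAt (fun t : ℝ => (t ^ 3)⁻¹) (-3 * (uu z ^ 4)⁻¹) (uu z) := by
      have h4 := (hasDerivAt_pow 3 (uu z)).fun_inv (by positivity)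
      refine h4.congr_deriv ?_
      push_cast
      field_simp
    exact hd.comp_hasFDerivAt z (ky_hasFDerivAt_uu z)
  have h5 := h2.fun_mul h3
  have h6 : (kpsi ε : E → ℝ) = fun y => Real.sqrt (‖y‖ ^ 2 + ε ^ 2) * (uu y ^ 3)⁻¹ := by
    funext y; rw [kpsi, div_eq_mul_inv]
  rw [h6, h5.fderiv]
  simp only [add_apply, smul_apply, innerSL_apply_apply, smul_eq_mul, nsmul_eq_mul]
  field_simp
  ring

variable {w : E → ℝ}

theorem differentiableAt_nrm (hw : IsReg w) {z : E} (hz : fderiv ℝ w z ≠ 0) :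
    DifferentiableAt ℝ (G.nrm w) z :=
  (contDiffAt_nrm G hw.smooth hz).differentiableAt (by simp)

theorem contDiffAt_kb (hw : IsReg w) {z : E} (hz : fderiv ℝ w z ≠ 0) (a : ι) :
    ContDiffAt ℝ ∞ (fun y => G.g y (hR.ξ a y) (G.nrm w y)) z := by
  have := contDiffAt_g G (n := ⊤) (X := hR.ξ a) (Y := G.nrm w) (z := z)
    (by simpa using (hR.smooth_ξ a).contDiffAt) (by simpa using contDiffAt_nrm G hw.smooth hz)
  simpa using this

theorem contDiffAt_kS (hw : IsReg w) {z : E} (hz : fderiv ℝ w z ≠ 0) :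
    ContDiffAt ℝ ∞ (kS hR w) z := by
  unfold kS
  exact ContDiffAt.sum fun a _ => (contDiffAt_kb hR hw hz a).smul (hR.smooth_ξ a).contDiffAt

theorem contDiffAt_kX2 (hw : IsReg w) {ε : ℝ} (hε : 0 < ε) {z : E} (hz : fderiv ℝ w z ≠ 0) :
    ContDiffAt ℝ ∞ (kX2 hR w ε) z :=
  (contDiff_kpsi hε).contDiffAt.smul (contDiffAt_kS hR hw hz)

/-- smoothness near the surface. -/
theorem eventually_contDiffAt_kX2 (hw : IsReg w) {ε : ℝ} (hε : 0 < ε) :
    ∀ᶠ z in 𝓝ˢ (surf w), ContDiffAt ℝ ∞ (kX2 hR w ε) z := by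
  have hc : Continuous (fderiv ℝ w) := hw.smooth.continuous_fderiv (by simp)
  have ho : IsOpen {z | fderiv ℝ w z ≠ 0} := isOpen_ne.preimage hc
  have hsub : surf w ⊆ {z | fderiv ℝ w z ≠ 0} := fun z hz => hw.reg z hz
  filter_upwards [ho.mem_nhdsSet.mpr hsub] with z hz
  exact contDiffAt_kX2 hR hw hε hz

theorem nab_kS (hw : IsReg w) {z : E} (hz : fderiv ℝ w z ≠ 0) (v : E) :
    G.nab (kS hR w) z v = ∑ a, (kyb hR w a z • G.nab (hR.ξ a) z v
      + (G.g z (G.nab (hR.ξ a) z v) (G.nrm w z) + G.g z (hR.ξ a z) (G.nab (G.nrm w) z v))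
        • hR.ξ a z) := by
  have hbd : ∀ a, DifferentiableAt ℝ (fun y => G.g y (hR.ξ a y) (G.nrm w y)) z :=
    fun a => (contDiffAt_kb hR hw hz a).differentiableAt (by simp)
  have hξd : ∀ a, DifferentiableAt ℝ (hR.ξ a) z := fun a => rad_differentiable_ξ hR a z
  have hYd : ∀ a, DifferentiableAt ℝ (fun y => G.g y (hR.ξ a y) (G.nrm w y) • hR.ξ a y) z :=
    fun a => (hbd a).smul (hξd a)
  have h1 := nab_sum G (fun a y => G.g y (hR.ξ a y) (G.nrm w y) • hR.ξ a y) z hYd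
  rw [show kS hR w = fun y => ∑ a, G.g y (hR.ξ a y) (G.nrm w y) • hR.ξ a y from rfl, h1,
    sum_apply]
  refine Finset.sum_congr rfl fun a _ => ?_
  rw [nab_smul G (fun y => G.g y (hR.ξ a y) (G.nrm w y)) (hR.ξ a) z v (hbd a) (hξd a),
    fderiv_g G (hR.ξ a) (G.nrm w) z v (hξd a) (differentiableAt_nrm hw hz)]
  rfl

theorem dv_kS (hw : IsReg w) {z : E} (hz : fderiv ℝ w z ≠ 0) :
    G.dv (kS hR w) z = ∑ a, (-(2 * uu z ^ 2 - 1) * ⟪z, G.nrm w z⟫_ℝ
      + G.g z (hR.ξ a z) (G.nab (G.nrm w) z (hR.ξ a z))) := by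
  have hbd : ∀ a, DifferentiableAt ℝ (fun y => G.g y (hR.ξ a y) (G.nrm w y)) z :=
    fun a => (contDiffAt_kb hR hw hz a).differentiableAt (by simp)
  have hξd : ∀ a, DifferentiableAt ℝ (hR.ξ a) z := fun a => rad_differentiable_ξ hR a z
  have hYd : ∀ a, DifferentiableAt ℝ (fun y => G.g y (hR.ξ a y) (G.nrm w y) • hR.ξ a y) z :=
    fun a => (hbd a).smul (hξd a)
  have h1 := nab_sum G (fun a y => G.g y (hR.ξ a y) (G.nrm w y) • hR.ξ a y) z hYd
  rw [Geo.dv, show kS hR w = fun y => ∑ a, G.g y (hR.ξ a y) (G.nrm w y) • hR.ξ a y from rfl, h1,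
    tr_sum]
  refine Finset.sum_congr rfl fun a _ => ?_
  have h2 := dv_smul G (fun y => G.g y (hR.ξ a y) (G.nrm w y)) (hR.ξ a) z (hbd a) (hξd a)
  rw [Geo.dv] at h2
  rw [h2, rad_dv_ξ hR,
    fderiv_g G (hR.ξ a) (G.nrm w) z _ (hξd a) (differentiableAt_nrm hw hz), rad_nab_ξ_ξ hR]
  ring

theorem g_kS_nrm (z : E) : G.g z (kS hR w z) (G.nrm w z) = kbeta hR w z := by
  rw [kS, g_sum_left, kbeta]
  refine Finset.sum_congr rfl fun a _ => ?_
  rw [g_smul_left, kyb, sq]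

theorem g_kX2_nrm (ε : ℝ) (z : E) : G.g z (kX2 hR w ε z) (G.nrm w z)
    = Real.sqrt (‖z‖ ^ 2 + ε ^ 2) / uu z ^ 3 * kbeta hR w z := by
  have h := g_kS_nrm hR (w := w) z
  rw [kS] at h
  rw [kX2, g_smul_left, h, kpsi]

theorem inner_z_kS (z : E) : ⟪z, kS hR w z⟫_ℝ = 0 := by
  rw [kS, inner_sum]
  refine Finset.sum_eq_zero fun a _ => ?_
  rw [real_inner_smul_right, rad_inner_ξ hR, mul_zero]

theorem g_L_kT (hw : IsReg w) {z : E} (hz : fderiv ℝ w z ≠ 0) (a : ι) :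
    G.g z (G.nab (G.nrm w) z (kT hR w a z)) (kT hR w a z)
      = G.g z (hR.ξ a z) (G.nab (G.nrm w) z (hR.ξ a z))
        - kyb hR w a z * G.g z (hR.ξ a z) (G.nab (G.nrm w) z (G.nrm w z)) := by
  rw [kT, g_sub_right, g_smul_right, nab_nrm_orth G hw.smooth hz, map_sub, map_smul, g_sub_left,
    g_smul_left, g_symm G z (G.nab (G.nrm w) z (hR.ξ a z)),
    g_symm G z (G.nab (G.nrm w) z (G.nrm w z))]
  ring

theorem keydiv2 (hw : IsReg w) {ε : ℝ} (hε : 0 < ε) {z : E} (hz : fderiv ℝ w z ≠ 0) :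
    G.dv (kX2 hR w ε) z - G.g z (G.nab (kX2 hR w ε) z (G.nrm w z)) (G.nrm w z)
      = Real.sqrt (‖z‖ ^ 2 + ε ^ 2) / uu z ^ 3
          * ∑ a, G.g z (G.nab (G.nrm w) z (kT hR w a z)) (kT hR w a z)
        - Fintype.card ι * (Real.sqrt (‖z‖ ^ 2 + ε ^ 2) / uu z ^ 3)
          * (2 * uu z ^ 3 - uu z) * kya G w z
        - (kya G w z / (Real.sqrt (‖z‖ ^ 2 + ε ^ 2) * uu z ^ 2)
            - 3 * Real.sqrt (‖z‖ ^ 2 + ε ^ 2) * kya G w z / uu z ^ 4) * kbeta hR w z := by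
  have hσ : 0 < Real.sqrt (‖z‖ ^ 2 + ε ^ 2) := Real.sqrt_pos.mpr (by positivity)
  have hu := ky_uu_pos z
  have hψd : DifferentiableAt ℝ (kpsi ε : E → ℝ) z := (contDiff_kpsi hε).differentiable (by simp) z
  have hSd : DifferentiableAt ℝ (kS hR w) z := (contDiffAt_kS hR hw hz).differentiableAt (by simp)
  have hX : kX2 hR w ε = fun y => kpsi ε y • kS hR w y := rfl
  have h1 := dv_smul G (kpsi ε) (kS hR w) z hψd hSd
  have h2 := nab_smul G (kpsi ε) (kS hR w) z (G.nrm w z) hψd hSd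
  have h3 : G.g z (G.nab (kS hR w) z (G.nrm w z)) (G.nrm w z)
      = ∑ a, kyb hR w a z * G.g z (hR.ξ a z) (G.nab (G.nrm w) z (G.nrm w z)) := by
    rw [nab_kS hR hw hz, g_sum_left]
    refine Finset.sum_congr rfl fun a _ => ?_
    rw [g_add_left, g_smul_left, g_smul_left, hR.killing a z]
    rw [show G.g z (hR.ξ a z) (G.nrm w z) = kyb hR w a z from rfl]
    ring
  rw [hX, h1, h2, g_add_left, g_smul_left, g_smul_left, h3, g_kS_nrm, dv_kS hR hw hz,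
    fderiv_kpsi hε, fderiv_kpsi hε, inner_z_kS, mul_zero, add_zero, inner_nrm]
  simp only [g_L_kT hR hw hz]
  rw [Finset.sum_add_distrib, Finset.sum_sub_distrib]
  simp only [Finset.sum_const, Finset.card_univ, nsmul_eq_mul]
  rw [kpsi]
  field_simp
  ring

/-! ### Algebraic facts -/

theorem sum_gTT {z : E} (hz : fderiv ℝ w z ≠ 0) :
    ∑ a, G.g z (kT hR w a z) (kT hR w a z)
      = Fintype.card ι * (uu z ^ 2 * ‖z‖ ^ 2) - kbeta hR w z := by
  have hN := g_nrm_nrm G hz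
  have e : uu z ^ 2 - 1 = ‖z‖ ^ 2 := by rw [ky_uu_sq]; ring
  have h1 : ∀ a, G.g z (kT hR w a z) (kT hR w a z) = uu z ^ 2 * ‖z‖ ^ 2 - kyb hR w a z ^ 2 := by
    intro a
    rw [kT, g_sub_left, g_sub_right, g_sub_right, g_smul_left, g_smul_left, g_smul_right,
      g_smul_right, hN, hR.ξξ, if_pos rfl, e, g_symm G z (G.nrm w z) (hR.ξ a z)]
    rw [show G.g z (hR.ξ a z) (G.nrm w z) = kyb hR w a z from rfl]
    ring
  simp only [h1]
  rw [Finset.sum_sub_distrib, kbeta]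
  simp

theorem sum_gTT_sq {z : E} (hz : fderiv ℝ w z ≠ 0) :
    ∑ a, ∑ b, G.g z (kT hR w a z) (kT hR w b z) ^ 2
      = Fintype.card ι * (uu z ^ 2 * ‖z‖ ^ 2) ^ 2 - 2 * (uu z ^ 2 * ‖z‖ ^ 2) * kbeta hR w z
        + kbeta hR w z ^ 2 := by
  have hN := g_nrm_nrm G hz
  have e : uu z ^ 2 - 1 = ‖z‖ ^ 2 := by rw [ky_uu_sq]; ring
  have h1 : ∀ a b, G.g z (kT hR w a z) (kT hR w b z)
      = (if a = b then uu z ^ 2 * ‖z‖ ^ 2 else 0) - kyb hR w a z * kyb hR w b z := by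
    intro a b
    rw [kT, kT, g_sub_left, g_sub_right, g_sub_right, g_smul_left, g_smul_left, g_smul_right,
      g_smul_right, hN, hR.ξξ, e, g_symm G z (G.nrm w z) (hR.ξ b z)]
    rw [show G.g z (hR.ξ a z) (G.nrm w z) = kyb hR w a z from rfl,
      show G.g z (hR.ξ b z) (G.nrm w z) = kyb hR w b z from rfl]
    ring
  have h2 : ∀ a b, G.g z (kT hR w a z) (kT hR w b z) ^ 2
      = (if a = b then (uu z ^ 2 * ‖z‖ ^ 2) ^ 2 - 2 * (uu z ^ 2 * ‖z‖ ^ 2) * kyb hR w a z ^ 2 else 0)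
        + kyb hR w a z ^ 2 * kyb hR w b z ^ 2 := by
    intro a b
    rw [h1]
    split_ifs with h
    · subst h; ring
    · ring
  simp only [h2, Finset.sum_add_distrib, Finset.sum_ite_eq, Finset.mem_univ, if_true,
    Finset.sum_sub_distrib, ← Finset.mul_sum, ← Finset.sum_mul]
  rw [show ∑ a, kyb hR w a z ^ 2 = kbeta hR w z from rfl]
  simp
  ring

theorem g_nrm_kT {z : E} (hz : fderiv ℝ w z ≠ 0) (a : ι) :
    G.g z (G.nrm w z) (kT hR w a z) = 0 := by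
  have hN := g_nrm_nrm G hz
  rw [kT, g_sub_right, g_smul_right, hN, g_symm G z (G.nrm w z) (hR.ξ a z)]
  rw [show G.g z (hR.ξ a z) (G.nrm w z) = kyb hR w a z from rfl]
  ring

theorem norm_nrm_sq {z : E} (hz : fderiv ℝ w z ≠ 0) :
    ‖G.nrm w z‖ ^ 2 = 1 + kya G w z ^ 2 - kbeta hR w z / uu z ^ 4 := by
  have hN := g_nrm_nrm G hz
  have h := hR.g_eq z (G.nrm w z)
  rw [hN, inner_nrm] at h
  rw [show ∑ a, G.g z (hR.ξ a z) (G.nrm w z) ^ 2 = kbeta hR w z from rfl] at h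
  have hu := ky_uu_pos z
  have e : (uu z * kya G w z) ^ 2 / uu z ^ 2 = kya G w z ^ 2 := by field_simp
  rw [e] at h
  rw [div_eq_inv_mul]
  linarith

/-- Bessel: `a² + β/u² ≤ s²`. -/
theorem kbeta_le {z : E} (hz : fderiv ℝ w z ≠ 0) :
    kbeta hR w z ≤ uu z ^ 2 * (‖z‖ ^ 2 - kya G w z ^ 2) := by
  have hN := g_nrm_nrm G hz
  have hu := ky_uu_pos z
  have hus := ky_uu_sq z
  rcases eq_or_ne z 0 with h0 | h0
  · -- at the origin everything vanishes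
    have hξ : ∀ a, hR.ξ a z = 0 := by
      intro a
      by_contra hne
      have h1 := G.A_pos z (hR.ξ a z) hne
      have h2 := hR.ξξ a a z
      rw [if_pos rfl, Geo.g] at h2
      rw [h2, hus, h0] at h1
      simp at h1
    have hb : kbeta hR w z = 0 := by
      rw [kbeta]
      refine Finset.sum_eq_zero fun a _ => ?_
      rw [kyb, hξ a]
      simp [Geo.g]
    have ha : kya G w z = 0 := by
      rw [kya, h0]; simp
    rw [hb, ha, h0]
    simp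
  · have hs : 0 < ‖z‖ ^ 2 := by positivity
    -- `V = N - (a u / s²) z - ∑ b_a/(u² s²) ξ_a`
    obtain ⟨c, hc⟩ : ∃ c : ℝ, c = (uu z ^ 2 * ‖z‖ ^ 2)⁻¹ := ⟨_, rfl⟩
    obtain ⟨d, hd⟩ : ∃ d : ℝ, d = uu z * kya G w z / ‖z‖ ^ 2 := ⟨_, rfl⟩
    obtain ⟨Q, hQ⟩ : ∃ Q : E, Q = ∑ a, kyb hR w a z • hR.ξ a z := ⟨_, rfl⟩
    have hQN : G.g z Q (G.nrm w z) = kbeta hR w z := by
      rw [hQ, g_sum_left, kbeta]
      refine Finset.sum_congr rfl fun a _ => ?_
      rw [g_smul_left]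
      rw [show G.g z (hR.ξ a z) (G.nrm w z) = kyb hR w a z from rfl]
      ring
    have hQz : G.g z Q z = 0 := by
      rw [hQ, g_sum_left]
      refine Finset.sum_eq_zero fun a _ => ?_
      rw [g_smul_left, hR.ξz, mul_zero]
    have e1 : uu z ^ 2 - 1 = ‖z‖ ^ 2 := by rw [hus]; ring
    have hQξ : ∀ a, G.g z Q (hR.ξ a z) = kyb hR w a z * (uu z ^ 2 * ‖z‖ ^ 2) := by
      intro a
      rw [hQ, g_sum_left, Finset.sum_eq_single a]
      · rw [g_smul_left, hR.ξξ, if_pos rfl, e1]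
      · intro b _ hba
        rw [g_smul_left, hR.ξξ, if_neg hba, mul_zero]
      · intro h; exact absurd (Finset.mem_univ a) h
    have hQQ : G.g z Q Q = kbeta hR w z * (uu z ^ 2 * ‖z‖ ^ 2) := by
      nth_rewrite 2 [hQ]
      rw [g_sum_right, kbeta, Finset.sum_mul]
      refine Finset.sum_congr rfl fun a _ => ?_
      rw [g_smul_right, hQξ]
      ring
    have hzz : G.g z z z = ‖z‖ ^ 2 / uu z ^ 2 := by
      rw [rad_gz hR, real_inner_self_eq_norm_sq]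
    have hV := g_nonneg G z (G.nrm w z - d • z - c • Q)
    simp only [g_sub_left, g_sub_right, g_smul_left, g_smul_right, hN, hQQ, hzz,
      g_symm G z (G.nrm w z) Q, g_symm G z (G.nrm w z) z, g_symm G z z Q, hQN, hQz,
      g_z_nrm hR] at hV
    have h3 : 1 - d * (kya G w z / uu z) - c * kbeta hR w z - d * (kya G w z / uu z - d * (‖z‖ ^ 2 / uu z ^ 2) - c * 0)
        - c * (kbeta hR w z - d * 0 - c * (kbeta hR w z * (uu z ^ 2 * ‖z‖ ^ 2)))
        = 1 - kya G w z ^ 2 / ‖z‖ ^ 2 - kbeta hR w z / (uu z ^ 2 * ‖z‖ ^ 2) := by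
      rw [hc, hd]
      field_simp
      ring
    have h4 : 0 ≤ 1 - kya G w z ^ 2 / ‖z‖ ^ 2 - kbeta hR w z / (uu z ^ 2 * ‖z‖ ^ 2) := by
      rw [← h3]
      linarith
    have h5 : 0 ≤ (1 - kya G w z ^ 2 / ‖z‖ ^ 2 - kbeta hR w z / (uu z ^ 2 * ‖z‖ ^ 2))
        * (uu z ^ 2 * ‖z‖ ^ 2) := mul_nonneg h4 (by positivity)
    have h6 : (1 - kya G w z ^ 2 / ‖z‖ ^ 2 - kbeta hR w z / (uu z ^ 2 * ‖z‖ ^ 2))
        * (uu z ^ 2 * ‖z‖ ^ 2) = uu z ^ 2 * (‖z‖ ^ 2 - kya G w z ^ 2) - kbeta hR w z := by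
      field_simp
    rw [h6] at h5
    linarith

theorem kbeta_nonneg (z : E) : 0 ≤ kbeta hR w z := Finset.sum_nonneg fun a _ => sq_nonneg _

include hR in
theorem abs_ka_le {z : E} (hz : fderiv ℝ w z ≠ 0) : |kya G w z| ≤ ‖z‖ := by
  have h1 := kbeta_le hR hz
  have h2 := kbeta_nonneg hR (w := w) z
  have hu := ky_uu_pos z
  have h3 : 0 ≤ ‖z‖ ^ 2 - kya G w z ^ 2 := by
    by_contra hcon
    have : uu z ^ 2 * (‖z‖ ^ 2 - kya G w z ^ 2) < 0 := by
      apply mul_neg_of_pos_of_neg (by positivity) (by linarith)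
    linarith
  exact abs_le_of_sq_le_sq (by linarith) (norm_nonneg z)

end keydiv

end

end Pool.Agent.Work.MP_3b24f6_gt
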