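import Pool.Agent.Work.MP_3b24f6_gt.Model

set_option autoImplicit false

open MeasureTheory Set Filter Topology
open scoped ContDiff InnerProductSpace Pointwise

namespace Pool.Agent.Work.MP_3b24f6_gt

noncomputable section

variable {E : Type*} [NormedAddCommGroup E] [InnerProductSpace ℝ E] [FiniteDimensional ℝ E]

namespace Shr

/-- The defining function of the scaled domain. -/
def scl (θ : ℝ) (w : E → ℝ) (y : E) : ℝ := w (θ⁻¹ • y)

theorem scl_set {θ : ℝ} (hθ : 0 < θ) (w : E → ℝ) :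
    {x | scl θ w x < 0} = θ • {x | w x < 0} := by
  ext x
  rw [Set.mem_smul_set_iff_inv_smul_mem₀ hθ.ne']
  rfl

theorem scl_reg {θ : ℝ} (hθ : 0 < θ) {w : E → ℝ} (hw : IsReg w) : IsReg (scl θ w) := by
  refine ⟨?_, ?_, ?_⟩
  · exact hw.smooth.comp (contDiff_const_smul _)
  · have h : {x | scl θ w x ≤ 0} = θ • {x | w x ≤ 0} := by
      ext x
      rw [Set.mem_smul_set_iff_inv_smul_mem₀ hθ.ne']
      rfl
    rw [h]
    exact hw.cpt.smul θ
  · intro x hx h0
    have hd : DifferentiableAt ℝ w (θ⁻¹ • x) := hw.smooth.differentiable (by simp) _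
    have h1 : HasFDerivAt (scl θ w)
        ((fderiv ℝ w (θ⁻¹ • x)).comp (θ⁻¹ • ContinuousLinearMap.id ℝ E)) x := by
      have h2 : HasFDerivAt (fun y : E => θ⁻¹ • y) (θ⁻¹ • ContinuousLinearMap.id ℝ E) x :=
        (hasFDerivAt_id x).const_smul θ⁻¹
      exact hd.hasFDerivAt.comp x h2
    have h3 := h1.fderiv
    rw [h0] at h3
    apply hw.reg (θ⁻¹ • x) hx
    ext v
    have h4 := congrArg (fun T : E →L[ℝ] ℝ => T (θ • v)) h3
    simp only [zero_apply, ContinuousLinearMap.comp_apply,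
      smul_apply, ContinuousLinearMap.id_apply, smul_smul,
      inv_mul_cancel₀ hθ.ne', one_smul] at h4
    exact h4.symm

variable [MeasurableSpace E] [BorelSpace E]

theorem integrableOn_rho (G : Geo E) {w : E → ℝ} (hw : IsReg w) (f : E → ℝ) (hf : Continuous f) :
    IntegrableOn f {x | w x < 0} := by
  have h1 : IntegrableOn f {x | w x ≤ 0} := hf.continuousOn.integrableOn_compact hw.cpt
  exact h1.mono_set (fun x (hx : w x < 0) => show w x ≤ 0 from hx.le)

theorem vol_eq (G : Geo E) {w : E → ℝ} (hw : IsReg w) :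
    G.vol {x | w x < 0} = ENNReal.ofReal (∫ z in {x | w x < 0}, G.ρ z) := by
  rw [Geo.vol, ofReal_integral_eq_lintegral_ofReal
    (integrableOn_rho G hw G.ρ G.smooth_ρ.continuous)
    (Eventually.of_forall (fun z => (G.ρ_pos z).le))]

theorem int_scl {θ : ℝ} (hθ : 0 < θ) (w : E → ℝ) (f : E → ℝ) :
    ∫ z in {x | scl θ w x < 0}, f z
      = ∫ z in {x | w x < 0}, θ ^ Module.finrank ℝ E * f (θ • z) := by
  rw [scl_set hθ, integral_const_mul, Measure.setIntegral_comp_smul _ _ _ hθ.ne']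
  rw [smul_eq_mul, abs_of_pos (by positivity), ← mul_assoc,
    mul_inv_cancel₀ (by positivity), one_mul]

/-- Volume of the scaled domain as a function of the ratio. -/
def vf (G : Geo E) (w : E → ℝ) (θ : ℝ) : ℝ :=
  ∫ z in {x | w x < 0}, θ ^ Module.finrank ℝ E * G.ρ (θ • z)

theorem continuous_vf (G : Geo E) {w : E → ℝ} (hw : IsReg w) :
    ContinuousOn (vf G w) (Icc 0 1) := by
  have hc : Continuous (fun q : ℝ × E => q.1 ^ Module.finrank ℝ E * G.ρ (q.1 • q.2)) := by
    have := G.smooth_ρ.continuous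
    fun_prop
  obtain ⟨M, hM⟩ := ((isCompact_Icc (a := (0 : ℝ)) (b := 1)).prod hw.cpt).exists_bound_of_continuousOn
    hc.continuousOn
  refine continuousOn_of_dominated (bound := fun _ => M) ?_ ?_ ?_ ?_
  · intro θ _
    have := G.smooth_ρ.continuous
    exact (by fun_prop : Continuous fun z : E => θ ^ Module.finrank ℝ E * G.ρ (θ • z)).aestronglyMeasurable
  · intro θ hθ
    refine (ae_restrict_iff' ?_).2 (Eventually.of_forall fun z hz => ?_)
    · exact (isOpen_lt hw.smooth.continuous continuous_const).measurableSet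
    · have hz' : w z < 0 := hz
      exact hM (θ, z) ⟨hθ, show w z ≤ 0 from hz'.le⟩
  · exact integrableOn_rho G hw _ continuous_const
  · refine Eventually.of_forall fun z => ?_
    have := G.smooth_ρ.continuous
    exact (by fun_prop : Continuous fun θ : ℝ => θ ^ Module.finrank ℝ E * G.ρ (θ • z)).continuousOn

theorem area_scl {G : Geo E} (hE : 1 ≤ Module.finrank ℝ E) (hG : Contract G) {w : E → ℝ}
    {θ : ℝ} (hθ : θ ∈ Ioc (0 : ℝ) 1) :
    G.area {x | scl θ w x < 0} ≤ G.area {x | w x < 0} := by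
  obtain ⟨h0, h1⟩ := hθ
  obtain ⟨k, hk⟩ : ∃ k, Module.finrank ℝ E = k + 1 := ⟨_, (Nat.sub_add_cancel hE).symm⟩
  refine iSup_le fun X => ?_
  obtain ⟨X, hX1, hX2, hX3⟩ := X
  -- the pulled back field
  set c : E → ℝ := fun y => θ ^ k * G.ρ (θ • y) / G.ρ y with hc
  have hρ := G.smooth_ρ
  have hcs : ContDiff ℝ ∞ c := by
    have h2 : ContDiff ℝ ∞ (fun y : E => θ ^ k * G.ρ (θ • y)) :=
      contDiff_const.mul (hρ.comp (contDiff_const_smul _))
    exact h2.div hρ (fun y => (G.ρ_pos y).ne')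
  have hXs : ContDiff ℝ ∞ (fun y : E => X (θ • y)) := hX1.comp (contDiff_const_smul _)
  let Y : E → E := fun y => c y • X (θ • y)
  have hY1 : ContDiff ℝ ∞ Y := hcs.smul hXs
  have hY2 : HasCompactSupport Y := by
    have h3 : HasCompactSupport (fun y : E => X (θ • y)) :=
      hX2.comp_homeomorph (Homeomorph.smulOfNeZero θ h0.ne')
    exact h3.smul_left
  have hY3 : ∀ z, G.g z (Y z) (Y z) ≤ 1 := by
    intro z
    have h4 := hG θ ⟨h0, h1⟩ z (X (θ • z))
    have h5 : G.g z (Y z) (Y z) = c z ^ 2 * G.g z (X (θ • z)) (X (θ • z)) := by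
      simp only [Geo.g, Y, map_smul, inner_smul_left, inner_smul_right, conj_trivial]
      ring
    rw [h5]
    have h6 : c z = θ ^ (Module.finrank ℝ E - 1) * G.ρ (θ • z) / G.ρ z := by
      rw [hc, hk]; rfl
    rw [h6]
    exact h4.trans (hX3 _)
  have h7 : ∫ z in {x | scl θ w x < 0}, divE (fun y => G.ρ y • X y) z
      = ∫ z in {x | w x < 0}, divE (fun y => G.ρ y • Y y) z := by
    rw [int_scl h0]
    refine integral_congr_ae (Eventually.of_forall fun z => ?_)
    have h8 : (fun y => G.ρ y • Y y) = fun y => θ ^ k • ((fun x => G.ρ x • X x) (θ • y)) := by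
      funext y
      simp only [Y, hc, smul_smul]
      congr 1
      have := (G.ρ_pos y).ne'
      field_simp
    have h9 : HasFDerivAt (fun y => θ ^ k • ((fun x => G.ρ x • X x) (θ • y)))
        (θ ^ k • ((fderiv ℝ (fun x => G.ρ x • X x) (θ • z)).comp
          (θ • ContinuousLinearMap.id ℝ E))) z := by
      have h10 : HasFDerivAt (fun y : E => θ • y) (θ • ContinuousLinearMap.id ℝ E) z :=
        (hasFDerivAt_id z).const_smul θ
      have h11 : DifferentiableAt ℝ (fun x => G.ρ x • X x) (θ • z) :=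
        ((hρ.smul hX1).differentiable (by simp)) _
      exact (h11.hasFDerivAt.comp z h10).const_smul _
    simp only [divE]
    rw [h8, h9.fderiv, hk]
    simp only [ContinuousLinearMap.comp_smul, ContinuousLinearMap.comp_id, tr,
      ContinuousLinearMap.toLinearMap_smul, map_smul, smul_eq_mul]
    ring
  rw [show (fun y => G.ρ y • (⟨X, hX1, hX2, hX3⟩ : {X : E → E // ContDiff ℝ ∞ X ∧
    HasCompactSupport X ∧ ∀ z, G.g z (X z) (X z) ≤ 1}).1 y) = fun y => G.ρ y • X y from rfl, h7]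
  exact le_iSup (fun X : {X : E → E // ContDiff ℝ ∞ X ∧ HasCompactSupport X ∧
    ∀ z, G.g z (X z) (X z) ≤ 1} => ENNReal.ofReal (∫ z in {x | w x < 0},
      divE (fun y => G.ρ y • X.1 y) z)) ⟨Y, hY1, hY2, hY3⟩

end Shr

variable [MeasurableSpace E] [BorelSpace E]

open Shr in
/-- T7. -/
theorem shrink {G : Geo E} (hE : 1 ≤ Module.finrank ℝ E) (hG : Contract G) {w : E → ℝ}
    (hw : IsReg w) (V : ENNReal)
    (hV : V ≤ G.vol {x | w x < 0}) (hV0 : 0 < V) :
    ∃ w' : E → ℝ, IsReg w' ∧ G.vol {x | w' x < 0} = V ∧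
      G.area {x | w' x < 0} ≤ G.area {x | w x < 0} := by
  have hVt : V ≠ ⊤ := by
    rw [vol_eq G hw] at hV
    exact ne_top_of_le_ne_top ENNReal.ofReal_ne_top hV
  have hV1 : 0 < V.toReal := ENNReal.toReal_pos hV0.ne' hVt
  have hf0 : vf G w 0 = 0 := by
    have hne : Module.finrank ℝ E ≠ 0 := by omega
    simp [vf, zero_pow hne]
  have hf1 : V.toReal ≤ vf G w 1 := by
    have h1 : vf G w 1 = ∫ z in {x | w x < 0}, G.ρ z := by simp [vf]
    rw [h1]
    rw [vol_eq G hw] at hV
    have h2 := ENNReal.toReal_mono ENNReal.ofReal_ne_top hV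
    rwa [ENNReal.toReal_ofReal
      (integral_nonneg (fun z => (G.ρ_pos z).le))] at h2
  obtain ⟨θ, hθ, hθV⟩ := intermediate_value_Icc (zero_le_one (α := ℝ)) (continuous_vf G hw)
    (show V.toReal ∈ Icc (vf G w 0) (vf G w 1) from ⟨by rw [hf0]; exact hV1.le, hf1⟩)
  have hθ0 : 0 < θ := by
    rcases hθ.1.eq_or_lt with h | h
    · rw [← h, hf0] at hθV
      exact absurd hθV hV1.ne
    · exact h
  refine ⟨scl θ w, scl_reg hθ0 hw, ?_, area_scl hE hG ⟨hθ0, hθ.2⟩⟩
  rw [vol_eq G (scl_reg hθ0 hw), int_scl hθ0, show (∫ z in {x | w x < 0},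
    θ ^ Module.finrank ℝ E * G.ρ (θ • z)) = V.toReal from hθV, ENNReal.ofReal_toReal hVt]

end

end Pool.Agent.Work.MP_3b24f6_gt
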