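import Pool.Agent.Work.MP_3b24f6_gt.SecondVar
import Pool.Agent.Work.MP_3b24f6_gt.Calc

set_option autoImplicit false

open MeasureTheory Set Filter Topology
open scoped ContDiff InnerProductSpace

namespace Pool.Agent.Work.MP_3b24f6_gt

noncomputable section

variable {E : Type*} [NormedAddCommGroup E] [InnerProductSpace ℝ E] [FiniteDimensional ℝ E]

theorem continuousAt_divE {Z : E → E} {z : E} (hZ : ContDiffAt ℝ ∞ Z z) :
    ContinuousAt (divE Z) z := by
  have h : ContinuousAt (fun y => fderiv ℝ Z y) z :=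
    (hZ.fderiv_right (m := 0) (by simp)).continuousAt
  exact continuous_tr.continuousAt.comp h

theorem continuousAt_nab (G : Geo E) {X : E → E} {z : E} (hX : ContDiffAt ℝ ∞ X z) :
    ContinuousAt (G.nab X) z := by
  have h : ContinuousAt (fun y => fderiv ℝ X y) z :=
    (hX.fderiv_right (m := 0) (by simp)).continuousAt
  have h2 : ContinuousAt (fun y => (G.Γ y).flip (X y)) z := by
    have hΓ : ContinuousAt (fun y => (G.Γ y).flip) z := by
      have hc : Continuous G.Γ := G.smooth_Γ.continuous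
      exact ((ContinuousLinearMap.flipₗᵢ ℝ E E E).continuous.comp hc).continuousAt
    exact hΓ.clm_apply hX.continuousAt
  exact h.add h2

theorem continuousAt_dv (G : Geo E) {X : E → E} {z : E} (hX : ContDiffAt ℝ ∞ X z) :
    ContinuousAt (G.dv X) z :=
  continuous_tr.continuousAt.comp (continuousAt_nab G hX)

variable (G : Geo E)

theorem contDiffAt_W0 {w φ : E → ℝ} (hφ : ContDiff ℝ ∞ φ) {z : E}
    (hN : ContDiffAt ℝ ∞ (G.nrm w) z) (hg : ContDiffAt ℝ ∞ (G.gn w) z)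
    (hg0 : G.gn w z ≠ 0) : ContDiffAt ℝ ∞ (W0 G w φ) z := by
  unfold W0
  exact (hφ.contDiffAt.div hg hg0).smul hN

variable [MeasurableSpace E] [BorelSpace E]

theorem integrable_rest {w φ : E → ℝ} (hφ : Adm w φ)
    (hN : ∀ z, fderiv ℝ w z ≠ 0 → ContDiffAt ℝ ∞ (G.nrm w) z)
    (hg : ∀ z, fderiv ℝ w z ≠ 0 → ContDiffAt ℝ ∞ (G.gn w) z)
    (hg0 : ∀ z, fderiv ℝ w z ≠ 0 → 0 < G.gn w z) (μ : Measure E) [IsFiniteMeasure μ] :
    Integrable (fun z => G.ρ z * fderiv ℝ φ z (W0 G w φ z)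
        + φ z * divE (fun y => G.ρ y • W0 G w φ y) z) μ := by
  have hρ : Continuous G.ρ := G.smooth_ρ.continuous
  have hsub : ∀ z, z ∉ tsupport φ → (fun z => G.ρ z * fderiv ℝ φ z (W0 G w φ z)
        + φ z * divE (fun y => G.ρ y • W0 G w φ y) z) =ᶠ[𝓝 z] fun _ => (0 : ℝ) := by
    intro z hz
    have h1 : ∀ᶠ y in 𝓝 z, y ∉ tsupport φ :=
      (isClosed_tsupport φ).isOpen_compl.mem_nhds hz
    filter_upwards [h1] with y hy
    have h0 : φ =ᶠ[𝓝 y] fun _ => (0 : ℝ) := notMem_tsupport_iff_eventuallyEq.mp hy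
    have h2 : fderiv ℝ φ y = 0 := by
      rw [h0.fderiv_eq]
      simp
    rw [h2, h0.eq_of_nhds]
    simp
  have hc : Continuous (fun z => G.ρ z * fderiv ℝ φ z (W0 G w φ z)
        + φ z * divE (fun y => G.ρ y • W0 G w φ y) z) := by
    rw [continuous_iff_continuousAt]
    intro z
    by_cases hz : z ∈ tsupport φ
    · have hz' := hφ.sub z hz
      have hW := contDiffAt_W0 G hφ.smooth (hN z hz') (hg z hz') (hg0 z hz').ne'
      have hd : ContinuousAt (fun y => fderiv ℝ φ y) z :=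
        (hφ.smooth.continuous_fderiv (by simp)).continuousAt
      refine ((hρ.continuousAt).mul (hd.clm_apply hW.continuousAt)).add
        (hφ.smooth.continuous.continuousAt.mul ?_)
      exact continuousAt_divE (G.smooth_ρ.contDiffAt.smul hW)
    · exact continuousAt_const.congr (hsub z hz).symm
  refine hc.integrable_of_hasCompactSupport ?_
  refine HasCompactSupport.intro hφ.cpt ?_
  intro z hz
  exact (hsub z hz).eq_of_nhds

/-- `exists_H` and `second_var_nonneg` from the pointwise calculus and `variation`. -/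
theorem exists_H_of_var {w : E → ℝ} (hw : IsReg w) {μ : Measure E} (hμ : IsDelta w μ)
    (hN : ∀ z, fderiv ℝ w z ≠ 0 → ContDiffAt ℝ ∞ (G.nrm w) z)
    (hvar : ∀ φ ψ, Adm w φ → Adm w ψ → ∀ σ, VarData G w μ φ ψ σ)
    (hmin : ∀ w', IsReg w' → G.vol {x | w x < 0} ≤ G.vol {x | w' x < 0} →
      G.area {x | w x < 0} ≤ G.area {x | w' x < 0}) :
    ∃ Λ : ℝ, ∀ z, w z = 0 → G.mc w z = Λ :=
  exists_H_of G hw hμ (fun z hz => continuousAt_dv G (hN z hz))
    (fun φ hφ => (hvar φ φ hφ hφ 0).firstVar G) hmin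

theorem second_var_nonneg_of_var {w : E → ℝ} (hw : IsReg w) {μ : Measure E} (hμ : IsDelta w μ)
    (hN : ∀ z, fderiv ℝ w z ≠ 0 → ContDiffAt ℝ ∞ (G.nrm w) z)
    (hg : ∀ z, fderiv ℝ w z ≠ 0 → ContDiffAt ℝ ∞ (G.gn w) z)
    (hg0 : ∀ z, fderiv ℝ w z ≠ 0 → 0 < G.gn w z)
    (hvar : ∀ φ ψ, Adm w φ → Adm w ψ → ∀ σ, VarData G w μ φ ψ σ)
    (hmin : ∀ w', IsReg w' → G.vol {x | w x < 0} ≤ G.vol {x | w' x < 0} →
      G.area {x | w x < 0} ≤ G.area {x | w' x < 0})
    (φ : E → ℝ) (hφ : ContDiff ℝ ∞ φ) (hφc : HasCompactSupport φ)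
    (hφs : ∀ z ∈ tsupport φ, fderiv ℝ w z ≠ 0) (h0 : ∫ z, G.ρ z * φ z ∂μ = 0)
    (Λ : ℝ) (hΛ : ∀ z, w z = 0 → G.mc w z = Λ) :
    0 ≤ ∫ z, G.ρ z * φ z * (G.dv (Ndot G w φ) z
          + fderiv ℝ (G.mc w) z (W0 G w φ z)) ∂μ := by
  have hfin := hμ.fin
  have hφA : Adm w φ := ⟨hφ, hφc, hφs⟩
  by_cases hne : ∃ z1, w z1 = 0
  · obtain ⟨z1, hz1⟩ := hne
    obtain ⟨ψ, hψ, hψn, -, r, hr, hψ1⟩ := exists_bump hw hz1 (U := univ) Filter.univ_mem
    have hψi : Integrable (fun z => G.ρ z * ψ z) μ :=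
      hψ.integrable_mul (fun z _ => G.smooth_ρ.continuous.continuousAt) μ
    have hB : 0 < ∫ z, G.ρ z * ψ z ∂μ := by
      refine integral_pos_of hμ hψi
        (fun z => mul_nonneg (G.ρ_pos z).le (hψn z)) hz1 hr ?_
      intro z hz
      rw [hψ1 z hz, mul_one]
      exact G.ρ_pos z
    exact second_var_nonneg_of G hμ hmin hψ hB h0 hΛ
      (integrable_rest G hφA hN hg hg0 μ) (fun σ => hvar φ ψ hφA hψ σ)
  · have hμ0 : μ = 0 := by
      rw [← Measure.measure_univ_eq_zero]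
      have : (univ : Set E) = (surf w)ᶜ := by
        ext z
        simp only [mem_univ, surf, mem_compl_iff, mem_ofPred_eq, true_iff]
        exact fun h => hne ⟨z, h⟩
      rw [this]
      exact hμ.supp
    rw [hμ0, integral_zero_measure]

end

end Pool.Agent.Work.MP_3b24f6_gt
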