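import Pool.Agent.Work.MP_3b24f6_gt.Area
import Pool.Agent.Work.MP_3b24f6_gt.Calc
import Pool.Agent.Work.MP_3b24f6_gt.CalcN
import Pool.Agent.Work.MP_3b24f6_gt.SecondVarB

/-! T11, second part: the stability inequality of a minimiser. -/

set_option autoImplicit false

open MeasureTheory Set Filter Topology
open scoped ContDiff InnerProductSpace

namespace Pool.Agent.Work.MP_3b24f6_gt

noncomputable section

variable {E : Type*} [NormedAddCommGroup E] [InnerProductSpace ℝ E] [FiniteDimensional ℝ E]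

namespace StableAux

open AreaAux

variable (G : Geo E)

/-- Tangential gradient of `f` along the level sets of `w`. -/
def tg (w f : E → ℝ) (z : E) : E := G.grad f z - fderiv ℝ f z (G.nrm w z) • G.nrm w z

theorem g_add_left (z u u' v : E) : G.g z (u + u') v = G.g z u v + G.g z u' v := by
  unfold Geo.g; rw [map_add, inner_add_left]

theorem g_sub_left (z u u' v : E) : G.g z (u - u') v = G.g z u v - G.g z u' v := by
  unfold Geo.g; rw [map_sub, inner_sub_left]

theorem g_neg_left (z u v : E) : G.g z (-u) v = -G.g z u v := by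
  unfold Geo.g; rw [map_neg, inner_neg_left]

theorem g_smul_left (z : E) (t : ℝ) (u v : E) : G.g z (t • u) v = t * G.g z u v := by
  unfold Geo.g; rw [map_smul, real_inner_smul_left]

theorem g_ext {z u u' : E} (h : ∀ v, G.g z u v = G.g z u' v) : u = u' := by
  by_contra hne
  have h1 : 0 < G.g z (u - u') (u - u') := G.A_pos z _ (sub_ne_zero.2 hne)
  rw [g_sub_left, h, sub_self] at h1
  exact lt_irrefl _ h1

theorem nab_neg {X : E → E} {z : E} :
    G.nab (fun y => -X y) z = -G.nab X z := by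
  unfold Geo.nab
  rw [fderiv_fun_neg, map_neg]
  abel

theorem dv_neg {X : E → E} {z : E} :
    G.dv (fun y => -X y) z = -G.dv X z := by
  unfold Geo.dv
  rw [nab_neg G, tr_neg]

theorem dv_congr {X Y : E → E} {z : E} (h : X =ᶠ[𝓝 z] Y) : G.dv X z = G.dv Y z := by
  unfold Geo.dv Geo.nab
  rw [h.fderiv_eq, h.eq_of_nhds]

omit [FiniteDimensional ℝ E] in
theorem isOpen_reg {w : E → ℝ} (hw : ContDiff ℝ ∞ w) : IsOpen {x | fderiv ℝ w x ≠ 0} :=
  isOpen_compl_iff.2 (isClosed_eq (hw.continuous_fderiv (by simp)) continuous_const)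

theorem ev_reg {w : E → ℝ} (hw : ContDiff ℝ ∞ w) {z : E} (hz : fderiv ℝ w z ≠ 0) :
    ∀ᶠ y in 𝓝 z, fderiv ℝ w y ≠ 0 :=
  (isOpen_reg hw).mem_nhds hz

theorem contDiff_grad {f : E → ℝ} (hf : ContDiff ℝ ∞ f) : ContDiff ℝ ∞ (G.grad f) :=
  G.smooth_C.clm_apply (contDiff_gradient hf)

theorem contDiffAt_tg {w f : E → ℝ} (hw : ContDiff ℝ ∞ w) (hf : ContDiff ℝ ∞ f) {z : E}
    (hz : fderiv ℝ w z ≠ 0) : ContDiffAt ℝ ∞ (tg G w f) z := by
  have hN := contDiffAt_nrm G hw hz
  refine (contDiff_grad G hf).contDiffAt.sub (ContDiffAt.smul ?_ hN)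
  exact ((hf.fderiv_right (m := ∞) (by simp)).contDiffAt).clm_apply hN

theorem g_tg (w f : E → ℝ) (z v : E) :
    G.g z (tg G w f z) v = fderiv ℝ f z v - fderiv ℝ f z (G.nrm w z) * G.g z (G.nrm w z) v := by
  unfold tg
  rw [g_sub_left, g_smul_left, g_grad]

theorem g_tg_nrm {w f : E → ℝ} {z : E} (hz : fderiv ℝ w z ≠ 0) :
    G.g z (tg G w f z) (G.nrm w z) = 0 := by
  rw [g_tg, g_nrm_nrm G hz]
  ring

theorem Ndot_eq {w : E → ℝ} (hw : ContDiff ℝ ∞ w) {z : E} (hz : fderiv ℝ w z ≠ 0)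
    {f φ : E → ℝ} (hf : DifferentiableAt ℝ f z)
    (hφ : φ =ᶠ[𝓝 z] fun y => G.gn w y * f y) :
    Ndot G w φ z = -tg G w f z - f z • G.nab (G.nrm w) z (G.nrm w z) := by
  have hgn := gn_pos G hz
  have hdgn : DifferentiableAt ℝ (G.gn w) z :=
    (contDiffAt_gn G hw hz).differentiableAt (by simp)
  have hd : fderiv ℝ φ z = G.gn w z • fderiv ℝ f z + f z • fderiv ℝ (G.gn w) z := by
    rw [hφ.fderiv_eq, fderiv_fun_mul hdgn hf]
  apply g_ext G
  intro v
  unfold Ndot
  rw [g_smul_left, g_sub_left, g_smul_left, g_grad, g_grad, g_sub_left, g_neg_left, g_smul_left,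
    g_tg, nab_nrm_nrm G hw hz, hd]
  simp only [add_apply, smul_apply, smul_eq_mul]
  field_simp
  ring

theorem fderiv_grad_self (f : E → ℝ) (z : E) :
    fderiv ℝ f z (G.grad f z) = ⟪G.C z (gradient f z), gradient f z⟫_ℝ := by
  rw [← inner_gradient, real_inner_comm]
  rfl

/-- The pointwise identity behind the stability inequality. -/
theorem key_pt {w f φ : E → ℝ} (hw : ContDiff ℝ ∞ w) (hf : ContDiff ℝ ∞ f) {z : E}
    (hz : fderiv ℝ w z ≠ 0) (hφ : φ =ᶠ[𝓝 z] fun y => G.gn w y * f y) :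
    G.ρ z * φ z * (G.dv (Ndot G w φ) z + fderiv ℝ (G.mc w) z (W0 G w φ z))
      = (⟪G.C z (gradient f z), gradient f z⟫_ℝ - fderiv ℝ f z (G.nrm w z) ^ 2
          - f z ^ 2 * (tr ((G.nab (G.nrm w) z).comp (G.nab (G.nrm w) z)) - G.R))
          * (G.ρ z * G.gn w z)
        - (G.dv (fun y => f y • tg G w f y) z
          - G.g z (G.nab (fun y => f y • tg G w f y) z (G.nrm w z)) (G.nrm w z)
          - G.mc w z * G.g z (f z • tg G w f z) (G.nrm w z)) * (G.ρ z * G.gn w z) := by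
  have hgn := gn_pos G hz
  have hN : ContDiffAt ℝ ∞ (G.nrm w) z := contDiffAt_nrm G hw hz
  have hNd : DifferentiableAt ℝ (G.nrm w) z := hN.differentiableAt (by simp)
  have hfd : DifferentiableAt ℝ f z := hf.contDiffAt.differentiableAt (by simp)
  have hT : ContDiffAt ℝ ∞ (tg G w f) z := contDiffAt_tg G hw hf hz
  have hTd : DifferentiableAt ℝ (tg G w f) z := hT.differentiableAt (by simp)
  have hK : ContDiffAt ℝ ∞ (fun y => G.nab (G.nrm w) y (G.nrm w y)) z :=
    (contDiffAt_nab_top G hN).clm_apply hN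
  have hKd : DifferentiableAt ℝ (fun y => G.nab (G.nrm w) y (G.nrm w y)) z :=
    hK.differentiableAt (by simp)
  -- the derivative of the normal
  have e1 : Ndot G w φ =ᶠ[𝓝 z]
      fun y => (fun y => -tg G w f y) y - (fun y => f y • G.nab (G.nrm w) y (G.nrm w y)) y := by
    have h1 : ∀ᶠ y in 𝓝 z, φ =ᶠ[𝓝 y] fun y => G.gn w y * f y := hφ.eventually_nhds
    filter_upwards [h1, ev_reg hw hz] with y hy hzy
    exact Ndot_eq G hw hzy (hf.contDiffAt.differentiableAt (by simp)) hy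
  have e2 : G.dv (Ndot G w φ) z = -G.dv (tg G w f) z
      - (f z * G.dv (fun y => G.nab (G.nrm w) y (G.nrm w y)) z
        + fderiv ℝ f z (G.nab (G.nrm w) z (G.nrm w z))) := by
    rw [dv_congr G e1, dv_sub G _ _ z hTd.fun_neg (hfd.fun_smul hKd), dv_neg, dv_smul G f _ z hfd hKd]
  -- value of phi and of the variation field
  have e3 : φ z = G.gn w z * f z := hφ.eq_of_nhds
  have e4 : W0 G w φ z = f z • G.nrm w z := by
    unfold W0
    rw [e3, mul_div_cancel_left₀ _ hgn.ne']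
  -- Bochner
  have e5 := bochner G (G.nrm w) z (hN.of_le (WithTop.coe_le_coe.2 le_top))
  rw [g_nrm_nrm G hz, mul_one] at e5
  have e6 : fderiv ℝ (G.mc w) z (W0 G w φ z)
      = f z * (G.dv (fun y => G.nab (G.nrm w) y (G.nrm w y)) z
        - tr ((G.nab (G.nrm w) z).comp (G.nab (G.nrm w) z)) + G.R) := by
    rw [e4, map_smul, smul_eq_mul, ← e5]
    rfl
  -- the surface divergence of `f T`
  have e7 : G.dv (fun y => f y • tg G w f y) z
      = f z * G.dv (tg G w f) z + fderiv ℝ f z (tg G w f z) := dv_smul G f _ z hfd hTd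
  have e8 : fderiv ℝ f z (tg G w f z)
      = ⟪G.C z (gradient f z), gradient f z⟫_ℝ - fderiv ℝ f z (G.nrm w z) ^ 2 := by
    unfold tg
    rw [map_sub, map_smul, fderiv_grad_self, smul_eq_mul]
    ring
  have e9 : G.g z (G.nab (fun y => f y • tg G w f y) z (G.nrm w z)) (G.nrm w z)
      = - (f z * fderiv ℝ f z (G.nab (G.nrm w) z (G.nrm w z))) := by
    have h0 : (fun y => G.g y (f y • tg G w f y) (G.nrm w y)) =ᶠ[𝓝 z] fun _ => 0 := by
      filter_upwards [ev_reg hw hz] with y hy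
      rw [g_smul_left, g_tg_nrm G hy, mul_zero]
    have h1 := fderiv_g G (fun y => f y • tg G w f y) (G.nrm w) z (G.nrm w z)
      (hfd.fun_smul hTd) hNd
    rw [h0.fderiv_eq, g_smul_left, g_tg, g_symm G z (G.nrm w z), nab_nrm_orth G hw hz] at h1
    simp only [fderiv_fun_const, Pi.zero_apply, zero_apply, mul_zero,
      sub_zero] at h1
    linarith
  rw [e2, e3, e6, e7, e8, e9, g_smul_left, g_tg_nrm G hz]
  ring

end StableAux

open StableAux AreaAux

variable [MeasurableSpace E] [BorelSpace E] (G : Geo E)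

/-- The stability inequality from the nonnegativity of the second variation. -/
theorem stability_core {w : E → ℝ} (hw : IsReg w) {μ : Measure E} (hμ : IsDelta w μ)
    (hdiv : ∀ X : E → E, (∀ᶠ z in 𝓝ˢ (surf w), ContDiffAt ℝ 1 X z) →
      ∫ z, (G.dv X z - G.g z (G.nab X z (G.nrm w z)) (G.nrm w z)
        - G.mc w z * G.g z (X z) (G.nrm w z)) * (G.ρ z * G.gn w z) ∂μ = 0)
    (hsec : ∀ φ : E → ℝ, ContDiff ℝ ∞ φ → HasCompactSupport φ →
      (∀ z ∈ tsupport φ, fderiv ℝ w z ≠ 0) → ∫ z, G.ρ z * φ z ∂μ = 0 →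
      0 ≤ ∫ z, G.ρ z * φ z * (G.dv (Ndot G w φ) z
          + fderiv ℝ (G.mc w) z (W0 G w φ z)) ∂μ)
    (f : E → ℝ) (hf : ContDiff ℝ ∞ f) (hf0 : ∫ z, f z * (G.ρ z * G.gn w z) ∂μ = 0) :
    0 ≤ ∫ z, (⟪G.C z (gradient f z), gradient f z⟫_ℝ - fderiv ℝ f z (G.nrm w z) ^ 2
      - f z ^ 2 * (tr ((G.nab (G.nrm w) z).comp (G.nab (G.nrm w) z)) - G.R))
      * (G.ρ z * G.gn w z) ∂μ := by
  have hws := hw.smooth
  have hfin := hμ.fin
  have hK0 : IsCompact (surf w) := AreaAux.isCompact_surf hw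
  have hsurf : ∀ᵐ x ∂μ, x ∈ surf w := by
    rw [ae_iff]
    exact hμ.supp
  have hU := isOpen_reg hws
  obtain ⟨K1, hK1, hKK1, hK1U⟩ := exists_compact_between hK0 hU (fun x hx => hw.reg x hx)
  obtain ⟨χ, hχ, hχ1, -, L, hL, hLU, hχ0⟩ := exists_cutoff hK1 hU hK1U
  have htχ : tsupport (fun y => χ y * (G.gn w y * f y)) ⊆ L := by
    refine closure_minimal (fun x hx => ?_) hL.isClosed
    by_contra hxL
    exact hx (by simp only; rw [hχ0 x hxL, zero_mul])
  have hφ : ContDiff ℝ ∞ (fun y => χ y * (G.gn w y * f y)) := by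
    rw [contDiff_iff_contDiffAt]
    intro x
    by_cases hx : x ∈ L
    · exact hχ.contDiffAt.mul ((contDiffAt_gn G hws (hLU hx)).mul hf.contDiffAt)
    · have h0 : (fun y => χ y * (G.gn w y * f y)) =ᶠ[𝓝 x] fun _ => 0 := by
        filter_upwards [hL.isClosed.isOpen_compl.mem_nhds hx] with y hy
        rw [hχ0 y hy, zero_mul]
      exact contDiffAt_const.congr_of_eventuallyEq h0
  have hφc : HasCompactSupport (fun y => χ y * (G.gn w y * f y)) :=
    HasCompactSupport.intro hL fun x hx => by rw [hχ0 x hx, zero_mul]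
  have hφev : ∀ z ∈ surf w, (fun y => χ y * (G.gn w y * f y)) =ᶠ[𝓝 z]
      fun y => G.gn w y * f y := by
    intro z hz
    filter_upwards [isOpen_interior.mem_nhds (hKK1 hz)] with y hy
    rw [hχ1 y (interior_subset hy), one_mul]
  have h0 : ∫ z, G.ρ z * (χ z * (G.gn w z * f z)) ∂μ = 0 := by
    rw [← hf0]
    refine integral_congr_ae ?_
    filter_upwards [hsurf] with z hz
    rw [(hφev z hz).eq_of_nhds]
    ring
  have hsv := hsec (fun y => χ y * (G.gn w y * f y)) hφ hφc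
    (fun z hz => hLU (htχ hz)) h0
  have hdivz := hdiv (fun y => f y • tg G w f y) (by
    rw [eventually_nhdsSet_iff_forall]
    intro z hz
    filter_upwards [ev_reg hws (hw.reg z hz)] with y hy
    exact (hf.contDiffAt.smul (contDiffAt_tg G hws hf hy)).of_le (by exact_mod_cast le_top))
  -- integrability
  have hInt : ∀ q : E → ℝ, (∀ z ∈ surf w, ContinuousAt q z) → Integrable q μ := by
    intro q hq
    have h1 : μ.restrict (surf w) = μ := Measure.restrict_eq_self_of_ae_mem hsurf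
    rw [← h1]
    exact ContinuousOn.integrableOn_compact hK0
      (fun z hz => (hq z hz).continuousWithinAt)
  have hρg : ∀ z ∈ surf w, ContinuousAt (fun z => G.ρ z * G.gn w z) z := fun z _ =>
    (G.smooth_ρ.continuous.mul (continuous_gn G hws)).continuousAt
  have hI1 : Integrable (fun z => (⟪G.C z (gradient f z), gradient f z⟫_ℝ
      - fderiv ℝ f z (G.nrm w z) ^ 2
      - f z ^ 2 * (tr ((G.nab (G.nrm w) z).comp (G.nab (G.nrm w) z)) - G.R))
      * (G.ρ z * G.gn w z)) μ := by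
    refine hInt _ fun z hz => ?_
    have hzw := hw.reg z hz
    have hN := contDiffAt_nrm G hws hzw
    have hdf : ContDiff ℝ ∞ (fun z => fderiv ℝ f z) := hf.fderiv_right (m := ∞) (by simp)
    have hL1 := contDiffAt_nab_top G hN
    refine ContinuousAt.mul (((((contDiff_Cgrad G hf).contDiffAt).sub
      ((hdf.contDiffAt.clm_apply hN).pow 2)).sub ((hf.contDiffAt.pow 2).mul
      (((contDiff_tr.contDiffAt).comp z (hL1.clm_comp hL1)).sub contDiffAt_const))).continuousAt) (hρg z hz)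
  have hI2 : Integrable (fun z => (G.dv (fun y => f y • tg G w f y) z
      - G.g z (G.nab (fun y => f y • tg G w f y) z (G.nrm w z)) (G.nrm w z)
      - G.mc w z * G.g z (f z • tg G w f z) (G.nrm w z)) * (G.ρ z * G.gn w z)) μ := by
    refine hInt _ fun z hz => ?_
    have hzw := hw.reg z hz
    have hN := contDiffAt_nrm G hws hzw
    have hX : ContDiffAt ℝ ∞ (fun y => f y • tg G w f y) z :=
      hf.contDiffAt.smul (contDiffAt_tg G hws hf hzw)
    have hmc : ContDiffAt ℝ ∞ (G.mc w) z := contDiffAt_dv_top G hN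
    have hg : ∀ X Y : E → E, ContDiffAt ℝ ∞ X z → ContDiffAt ℝ ∞ Y z →
        ContDiffAt ℝ ∞ (fun y => G.g y (X y) (Y y)) z := fun X Y hX hY =>
      (G.smooth_A.contDiffAt.clm_apply hX).inner ℝ hY
    refine ContinuousAt.mul (((contDiffAt_dv_top G hX).sub
      (hg _ _ ((contDiffAt_nab_top G hX).clm_apply hN) hN)).sub
      (hmc.mul (hg _ _ hX hN))).continuousAt (hρg z hz)
  calc (0 : ℝ) ≤ _ := hsv
    _ = ∫ z, ((⟪G.C z (gradient f z), gradient f z⟫_ℝ - fderiv ℝ f z (G.nrm w z) ^ 2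
          - f z ^ 2 * (tr ((G.nab (G.nrm w) z).comp (G.nab (G.nrm w) z)) - G.R))
          * (G.ρ z * G.gn w z)
        - (G.dv (fun y => f y • tg G w f y) z
          - G.g z (G.nab (fun y => f y • tg G w f y) z (G.nrm w z)) (G.nrm w z)
          - G.mc w z * G.g z (f z • tg G w f z) (G.nrm w z)) * (G.ρ z * G.gn w z)) ∂μ := by
        refine integral_congr_ae ?_
        filter_upwards [hsurf] with z hz
        exact key_pt G hws hf (hw.reg z hz) (hφev z hz)
    _ = _ := by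
        rw [integral_sub hI1 hI2, hdivz, sub_zero]

/-- T11: stability inequality of a minimiser. -/
theorem stability_of {w : E → ℝ} (hw : IsReg w) {μ : Measure E} (hμ : IsDelta w μ)
    (hvar : ∀ φ ψ, Adm w φ → Adm w ψ → ∀ σ, VarData G w μ φ ψ σ)
    (hdiv : ∀ X : E → E, (∀ᶠ z in 𝓝ˢ (surf w), ContDiffAt ℝ 1 X z) →
      ∫ z, (G.dv X z - G.g z (G.nab X z (G.nrm w z)) (G.nrm w z)
        - G.mc w z * G.g z (X z) (G.nrm w z)) * (G.ρ z * G.gn w z) ∂μ = 0)
    (hmin : ∀ w', IsReg w' → G.vol {x | w x < 0} ≤ G.vol {x | w' x < 0} →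
      G.area {x | w x < 0} ≤ G.area {x | w' x < 0})
    (f : E → ℝ) (hf : ContDiff ℝ ∞ f) (hf0 : ∫ z, f z * (G.ρ z * G.gn w z) ∂μ = 0) :
    0 ≤ ∫ z, (⟪G.C z (gradient f z), gradient f z⟫_ℝ - fderiv ℝ f z (G.nrm w z) ^ 2
      - f z ^ 2 * (tr ((G.nab (G.nrm w) z).comp (G.nab (G.nrm w) z)) - G.R))
      * (G.ρ z * G.gn w z) ∂μ := by
  have hN0 : ∀ z, fderiv ℝ w z ≠ 0 → ContDiffAt ℝ ∞ (G.nrm w) z :=
    fun z hz => contDiffAt_nrm G hw.smooth hz
  obtain ⟨Λ, hΛ⟩ := exists_H_of_var G hw hμ hN0 hvar hmin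
  exact stability_core G hw hμ hdiv (fun φ hφ hφc hφs h0 => second_var_nonneg_of_var G hw hμ hN0
    (fun z hz => contDiffAt_gn G hw.smooth hz) (fun z hz => gn_pos G hz) hvar hmin φ hφ hφc hφs
    h0 Λ hΛ) f hf hf0

end

end Pool.Agent.Work.MP_3b24f6_gt
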