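import Pool.Agent.Work.MP_3b24f6_gt.VarA
import Pool.Agent.Work.MP_3b24f6_gt.SurfDiv
import Pool.Agent.Work.MP_3b24f6_gt.Stable

set_option autoImplicit false

open MeasureTheory Set Filter Topology
open scoped ContDiff InnerProductSpace

namespace Pool.Agent.Work.MP_3b24f6_gt

noncomputable section

variable {E : Type*} [NormedAddCommGroup E] [InnerProductSpace ℝ E] [FiniteDimensional ℝ E]
variable [MeasurableSpace E] [BorelSpace E] (G : Geo E)

theorem varData {w : E → ℝ} (hw : IsReg w) {μ : Measure E} (hμ : IsDelta w μ)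
    (φ ψ : E → ℝ) (hφ : Adm w φ) (hψ : Adm w ψ) (σ : ℝ) : VarData G w μ φ ψ σ :=
  variation G hw hμ φ ψ hφ.smooth hψ.smooth hφ.cpt hψ.cpt hφ.sub hψ.sub σ

/-- T11: the mean curvature of the boundary of a minimiser is constant. -/
theorem exists_H {w : E → ℝ} (hw : IsReg w) {μ : Measure E} (hμ : IsDelta w μ)
    (_hne : ∃ x, w x < 0)
    (hmin : ∀ w', IsReg w' → G.vol {x | w x < 0} ≤ G.vol {x | w' x < 0} →
      G.area {x | w x < 0} ≤ G.area {x | w' x < 0}) :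
    ∃ Λ : ℝ, ∀ z, w z = 0 → G.mc w z = Λ :=
  exists_H_of_var G hw hμ (fun _ hz => contDiffAt_nrm G hw.smooth hz)
    (fun φ ψ h1 h2 s => varData G hw hμ φ ψ h1 h2 s) hmin

/-- T11: the second variation is nonnegative. -/
theorem second_var_nonneg {w : E → ℝ} (hw : IsReg w) {μ : Measure E} (hμ : IsDelta w μ)
    (hmin : ∀ w', IsReg w' → G.vol {x | w x < 0} ≤ G.vol {x | w' x < 0} →
      G.area {x | w x < 0} ≤ G.area {x | w' x < 0})
    (φ : E → ℝ) (hφ : ContDiff ℝ ∞ φ) (hφc : HasCompactSupport φ)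
    (hφs : ∀ z ∈ tsupport φ, fderiv ℝ w z ≠ 0) (h0 : ∫ z, G.ρ z * φ z ∂μ = 0)
    (Λ : ℝ) (hΛ : ∀ z, w z = 0 → G.mc w z = Λ) :
    0 ≤ ∫ z, G.ρ z * φ z * (G.dv (Ndot G w φ) z
          + fderiv ℝ (G.mc w) z (W0 G w φ z)) ∂μ :=
  second_var_nonneg_of_var G hw hμ (fun _ hz => contDiffAt_nrm G hw.smooth hz)
    (fun _ hz => contDiffAt_gn G hw.smooth hz) (fun _ hz => gn_pos G hz)
    (fun φ ψ h1 h2 s => varData G hw hμ φ ψ h1 h2 s) hmin φ hφ hφc hφs h0 Λ hΛ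

/-- T11: stability of the boundary of a minimiser. -/
theorem stability {w : E → ℝ} (hw : IsReg w) {μ : Measure E} (hμ : IsDelta w μ)
    (_hne : ∃ x, w x < 0)
    (hmin : ∀ w', IsReg w' → G.vol {x | w x < 0} ≤ G.vol {x | w' x < 0} →
      G.area {x | w x < 0} ≤ G.area {x | w' x < 0})
    (f : E → ℝ) (hf : ContDiff ℝ ∞ f) (hf0 : ∫ z, f z * (G.ρ z * G.gn w z) ∂μ = 0) :
    0 ≤ ∫ z, (⟪G.C z (gradient f z), gradient f z⟫_ℝ - fderiv ℝ f z (G.nrm w z) ^ 2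
      - f z ^ 2 * (tr ((G.nab (G.nrm w) z).comp (G.nab (G.nrm w) z)) - G.R))
      * (G.ρ z * G.gn w z) ∂μ :=
  stability_of G hw hμ (fun φ ψ h1 h2 s => varData G hw hμ φ ψ h1 h2 s)
    (fun X hX => surf_div G hw hμ X hX) hmin f hf hf0

end

end Pool.Agent.Work.MP_3b24f6_gt
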