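import Pool.Agent.Work.MP_3b24f6_gt.Delta
import Pool.Agent.Work.MP_3b24f6_gt.Local
import Pool.Agent.Work.MP_3b24f6_gt.Stable0
import Pool.Agent.Work.MP_3b24f6_gt.Key
import Pool.Agent.Work.MP_3b24f6_gt.BalanceA
import Pool.Agent.Work.MP_3b24f6_gt.Shrink

set_option autoImplicit false

open MeasureTheory Set Filter Topology
open scoped ContDiff InnerProductSpace

namespace Pool.Agent.Work.MP_3b24f6_gt

noncomputable section

variable {E : Type*} [NormedAddCommGroup E] [InnerProductSpace ℝ E]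

theorem mn_fderiv_inner (e z v : E) : fderiv ℝ (fun x : E => ⟪e, x⟫_ℝ) z v = ⟪e, v⟫_ℝ := by
  have h : HasFDerivAt (fun x : E => ⟪e, x⟫_ℝ) (innerSL ℝ e) z := (innerSL ℝ e).hasFDerivAt
  rw [h.fderiv]
  rfl

theorem mn_contDiff_inner (e : E) : ContDiff ℝ ∞ (fun x : E => ⟪e, x⟫_ℝ) :=
  (innerSL ℝ e).contDiff

theorem mn_norm_lt_iff (z : E) {c : ℝ} (hc : 0 < c) :
    ‖z‖ < c ↔ uu z < Real.sqrt (1 + c ^ 2) := by
  unfold uu
  rw [Real.sqrt_lt_sqrt_iff (by positivity)]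
  constructor
  · intro h
    have := pow_lt_pow_left₀ h (norm_nonneg z) (two_ne_zero)
    linarith
  · intro h
    exact lt_of_pow_lt_pow_left₀ 2 hc.le (by linarith)

variable [FiniteDimensional ℝ E]

theorem mn_gradient_inner (e z : E) : gradient (fun x : E => ⟪e, x⟫_ℝ) z = e := by
  have h : HasGradientAt (fun x : E => ⟪e, x⟫_ℝ) e z := by
    rw [hasGradientAt_iff_hasFDerivAt]
    exact (innerSL ℝ e).hasFDerivAt
  exact h.gradient

variable [MeasurableSpace E] [BorelSpace E]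

theorem mn_vol_pos (G : Geo E) {D : Set E} (hD : IsOpen D) (hne : D.Nonempty) : 0 < G.vol D := by
  unfold Geo.vol
  rw [setLIntegral_pos_iff (by
    exact (ENNReal.measurable_ofReal.comp G.smooth_ρ.continuous.measurable))]
  have h1 : (Function.support fun z => ENNReal.ofReal (G.ρ z)) = univ := by
    ext z
    simp [G.ρ_pos z]
  rw [h1, univ_inter]
  exact hD.measure_pos volume hne

/-- T14: a smooth bounded isoperimetric domain is a metric ball. -/
theorem main_abstract (G : Geo E) {ι : Type} [Fintype ι] [DecidableEq ι] (hR : Rad G ι)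
    (hι : 1 ≤ Fintype.card ι) (hdim : 2 * Fintype.card ι + 2 ≤ Module.finrank ℝ E)
    (h : Hom G) (hG : Contract G) {D : Set E} (hD : SmoothDomain D) (hne : D.Nonempty)
    (hmin : ∀ D', SmoothDomain D' → G.vol D' = G.vol D → G.area D ≤ G.area D') :
    ∃ p : E, ∃ c : ℝ, 1 < c ∧ D = {x | h.chd p x < c} := by
  obtain ⟨w, hw, hDw⟩ := (smoothDomain_iff D).1 hD
  subst hDw
  have hvol0 : 0 < G.vol {x | w x < 0} := mn_vol_pos G hD.isOpen hne
  have hmin' : ∀ w', IsReg w' → G.vol {x | w x < 0} ≤ G.vol {x | w' x < 0} →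
      G.area {x | w x < 0} ≤ G.area {x | w' x < 0} := by
    intro w' hw' hvol
    obtain ⟨w'', hw'', hv'', ha''⟩ := shrink (by omega) hG hw' _ hvol hvol0
    exact (hmin _ ((smoothDomain_iff _).2 ⟨w'', hw'', rfl⟩) hv'').trans ha''
  obtain ⟨p, hreg, hv, ha, hbal⟩ := exists_balanced h hw hne
  set v : E → ℝ := w ∘ h.phi p with hvdef
  obtain ⟨μ, hμ⟩ := exists_delta hreg
  have hne' : ∃ x, v x < 0 := by
    obtain ⟨x, hx⟩ := hne
    refine ⟨h.inv p x, ?_⟩
    simpa [hvdef, h.phi_inv] using hx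
  have hminv : ∀ w', IsReg w' → G.vol {x | v x < 0} ≤ G.vol {x | w' x < 0} →
      G.area {x | v x < 0} ≤ G.area {x | w' x < 0} := by
    intro w' hw' hvol
    rw [ha]
    exact hmin' w' hw' (hv ▸ hvol)
  obtain ⟨Λ, hΛ⟩ := exists_H G hreg hμ hne' hminv
  have hstab : ∀ e : E, 0 ≤ ∫ z, (⟪G.C z e, e⟫_ℝ - ⟪e, G.nrm v z⟫_ℝ ^ 2
      - ⟪e, z⟫_ℝ ^ 2 * (tr ((G.nab (G.nrm v) z).comp (G.nab (G.nrm v) z)) - G.R))
      * (G.ρ z * G.gn v z) ∂μ := by
    intro e
    have hs := stability G hreg hμ hne' hminv (fun x => ⟪e, x⟫_ℝ) (mn_contDiff_inner e)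
      (hbal μ hμ e)
    simpa only [mn_gradient_inner, mn_fderiv_inner] using hs
  obtain ⟨c, hc, hball⟩ := balanced_min_ball G hR hι hdim hreg hμ hne' Λ hΛ hstab
  refine ⟨p, Real.sqrt (1 + c ^ 2), ?_, ?_⟩
  · rw [Real.lt_sqrt (by norm_num)]
    nlinarith
  ext x
  have h1 : (w x < 0) ↔ h.inv p x ∈ Metric.ball (0 : E) c := by
    rw [← hball]
    simp [hvdef, h.phi_inv]
  have h2 : h.chd p x = uu (h.inv p x) := by
    have := h.chd_phi p 0 (h.inv p x)
    rw [h.phi_zero, h.phi_inv, h.chd_zero] at this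
    exact this
  simp only [mem_ofPred_eq]
  rw [h1, mem_ball_zero_iff, h2]
  exact mn_norm_lt_iff _ hc

end

end Pool.Agent.Work.MP_3b24f6_gt
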