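import Pool.Agent.Work.MP_3b24f6_gt.Defs

set_option autoImplicit false

open MeasureTheory Set Filter Topology
open scoped ContDiff InnerProductSpace

namespace Pool.Agent.Work.MP_3b24f6_gt

noncomputable section

variable {E : Type*} [NormedAddCommGroup E] [InnerProductSpace ℝ E] [FiniteDimensional ℝ E]

/-- `cosh` of the distance to the origin. -/
def uu (z : E) : ℝ := Real.sqrt (1 + ‖z‖ ^ 2)

/-- Radial structure of a rank one space in the chart in which the test functions are the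
coordinates: `ξ a` are the Killing fields (rotations by imaginary units). -/
structure Rad (G : Geo E) (ι : Type) [Fintype ι] [DecidableEq ι] where
  ξ : ι → E → E
  smooth_ξ : ∀ a, ContDiff ℝ ∞ (ξ a)
  grad_u : ∀ z v, G.g z (uu z • z) v = ⟪z, v⟫_ℝ / uu z
  hess_u : ∀ z v, G.nab (fun y => uu y • y) z v
    = uu z • v + (uu z ^ 3)⁻¹ • ∑ a, G.g z (ξ a z) v • ξ a z
  killing : ∀ a z v, G.g z (G.nab (ξ a) z v) v = 0
  ξξ : ∀ a b z, G.g z (ξ a z) (ξ b z) = if a = b then uu z ^ 2 * (uu z ^ 2 - 1) else 0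
  ξz : ∀ a z, G.g z (ξ a z) z = 0
  g_eq : ∀ z v, G.g z v v = ‖v‖ ^ 2 - ⟪z, v⟫_ℝ ^ 2 / uu z ^ 2
    + (uu z ^ 4)⁻¹ * ∑ a, G.g z (ξ a z) v ^ 2
  tr_C : ∀ z, tr (G.C z) = uu z ^ 2 + (Module.finrank ℝ E - 1) - Fintype.card ι
    + Fintype.card ι / uu z ^ 2
  R_eq : G.R = (Module.finrank ℝ E - 1) + 3 * Fintype.card ι

/-- A complex structure. -/
structure CStr (E : Type*) [NormedAddCommGroup E] [InnerProductSpace ℝ E] where
  J : E →L[ℝ] E
  norm_J : ∀ x, ‖J x‖ = ‖x‖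
  JJ : ∀ x, J (J x) = -x

/-- Metric operator of complex hyperbolic space in the chart `y = z/√(1-|z|²)`. -/
def chA (S : CStr E) (z : E) : E →L[ℝ] E :=
  ContinuousLinearMap.id ℝ E - (uu z ^ 2)⁻¹ • (innerSL ℝ z).smulRight z
    + (innerSL ℝ (S.J z)).smulRight (S.J z)

/-- Its inverse. -/
def chC (S : CStr E) (z : E) : E →L[ℝ] E :=
  ContinuousLinearMap.id ℝ E + (innerSL ℝ z).smulRight z
    - (uu z ^ 2)⁻¹ • (innerSL ℝ (S.J z)).smulRight (S.J z)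

/-- `cosh` of the distance of complex hyperbolic space. -/
def chd (S : CStr E) (x y : E) : ℝ :=
  Real.sqrt ((uu x * uu y - ⟪x, y⟫_ℝ) ^ 2 + ⟪S.J x, y⟫_ℝ ^ 2)

/-- First component of the transvection `(0,1) ↦ (p, u p)` applied to `(y, u y)`. -/
def tv1 (S : CStr E) (p y : E) : E :=
  y + (⟪p, y⟫_ℝ / (uu p + 1) + uu y) • p + (⟪S.J p, y⟫_ℝ / (uu p + 1)) • S.J p

/-- Real part of its last component. -/
def tva (S : CStr E) (p y : E) : ℝ := ⟪p, y⟫_ℝ + uu p * uu y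

/-- Imaginary part of its last component. -/
def tvb (S : CStr E) (p y : E) : ℝ := ⟪S.J p, y⟫_ℝ

/-- The transvection of complex hyperbolic space taking `0` to `p`, in the chart. -/
def phi (S : CStr E) (p y : E) : E :=
  (Real.sqrt (tva S p y ^ 2 + tvb S p y ^ 2))⁻¹ •
    (tva S p y • tv1 S p y - tvb S p y • S.J (tv1 S p y))

/-- Homogeneity data: `chd` is `cosh` of the distance, `phi p` an isometry taking `0` to `p`. -/
structure Hom (G : Geo E) where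
  chd : E → E → ℝ
  phi : E → E → E
  inv : E → E → E
  smooth_phi : ∀ p, ContDiff ℝ ∞ (phi p)
  smooth_inv : ∀ p, ContDiff ℝ ∞ (inv p)
  phi_inv : ∀ p y, phi p (inv p y) = y
  inv_phi : ∀ p y, inv p (phi p y) = y
  phi_zero : ∀ p, phi p 0 = p
  isom : ∀ p y u v, G.g (phi p y) (fderiv ℝ (phi p) y u) (fderiv ℝ (phi p) y v) = G.g y u v
  det : ∀ p y, G.ρ (phi p y) * |(fderiv ℝ (phi p) y).det| = G.ρ y
  chd_phi : ∀ p x y, chd (phi p x) (phi p y) = chd x y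
  chd_zero : ∀ y, chd 0 y = uu y
  chd_smooth : ContDiff ℝ ∞ (fun q : E × E => chd q.1 q.2)
  chd_deriv : ∀ e y, HasDerivAt (fun t : ℝ => chd (t • e) y) (-⟪e, y⟫_ℝ) 0
  chd_coercive : ∀ p y, uu p ≤ 2 * uu y * chd p y

/-- The scalings `y ↦ θ y`, `0 < θ ≤ 1`, do not increase areas. -/
def Contract (G : Geo E) : Prop := ∀ θ ∈ Ioc (0 : ℝ) 1, ∀ y v : E,
  (θ ^ (Module.finrank ℝ E - 1) * G.ρ (θ • y) / G.ρ y) ^ 2 * G.g y v v ≤ G.g (θ • y) v v

section measure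
variable [MeasurableSpace E] [BorelSpace E]

/-- `μ` is the measure `δ(w)` on the hypersurface `{w = 0}`. -/
structure IsDelta (w : E → ℝ) (μ : Measure E) : Prop where
  fin : IsFiniteMeasure μ
  supp : μ (surf w)ᶜ = 0
  flux : ∀ Z : E → E, (∀ᶠ x in 𝓝ˢ {x | w x ≤ 0}, ContDiffAt ℝ 1 Z x) →
    ∫ x in {x | w x < 0}, divE Z x = ∫ x, fderiv ℝ w x (Z x) ∂μ
  tang : ∀ Y : E → E,
    (∀ᶠ x in 𝓝ˢ (surf w), ContDiffAt ℝ 1 Y x ∧ fderiv ℝ w x (Y x) = 0) →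
    ∫ x, divE Y x ∂μ = 0
  full : ∀ x, w x = 0 → ∀ r > 0, 0 < μ (Metric.ball x r)
  lim : ∀ f : E → ℝ, (∀ᶠ x in 𝓝ˢ (surf w), ContDiffAt ℝ 1 f x) →
    Tendsto (fun ε => ∫ x, f x * cutd ε (w x)) (𝓝[>] 0) (𝓝 (∫ x, f x ∂μ))

end measure

/-- Bounded domain with smooth boundary (the definition of the problem). -/
structure SmoothDomain (D : Set E) : Prop where
  isOpen : IsOpen D
  bdd : Bornology.IsBounded D
  bdry : ∀ x ∈ frontier D, ∃ f : E → ℝ, ∃ U ∈ 𝓝 x, ContDiffOn ℝ ∞ f U ∧ fderiv ℝ f x ≠ 0 ∧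
    ∀ y ∈ U, (y ∈ D ↔ f y < 0)

section normal
variable (G : Geo E)

/-- Derivative at `t = 0` of the normal field of `w - t φ`. -/
def Ndot (w φ : E → ℝ) (z : E) : E :=
  -(G.gn w z)⁻¹ • (G.grad φ z - G.g z (G.grad φ z) (G.nrm w z) • G.nrm w z)

/-- Variation field at `t = 0`. -/
def W0 (w φ : E → ℝ) (z : E) : E := (φ z / G.gn w z) • G.nrm w z

end normal

end

end Pool.Agent.Work.MP_3b24f6_gt
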