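import Pool.Agent.Work.MP_3b24f6_gt.ModelB
import Pool.Agent.Work.MP_3b24f6_gt.Area
import Pool.Agent.Work.MP_3b24f6_gt.Delta

/-!
# Pointwise facts on the metric `mg` and the conormal norm `an` (for `Mollify`)
-/

set_option autoImplicit false
set_option linter.unusedSectionVars false

open MeasureTheory Set Filter Topology
open scoped ContDiff InnerProductSpace

namespace Pool.Agent.Work.MP_3b24f6_gt

noncomputable section

variable {E : Type*} [NormedAddCommGroup E] [InnerProductSpace ℝ E] [FiniteDimensional ℝ E]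

namespace Mol

omit [FiniteDimensional ℝ E] in
theorem uu_sq (y : E) : uu y ^ 2 = 1 + ‖y‖ ^ 2 := Real.sq_sqrt (by positivity)

omit [FiniteDimensional ℝ E] in
theorem uu_pos (y : E) : 0 < uu y := Real.sqrt_pos.mpr (by positivity)

omit [FiniteDimensional ℝ E] in
theorem uu_sq_pos (y : E) : 0 < uu y ^ 2 := pow_pos (uu_pos y) 2

omit [FiniteDimensional ℝ E] in
theorem one_le_uu (y : E) : 1 ≤ uu y := by
  rw [uu, Real.one_le_sqrt]
  nlinarith [sq_nonneg ‖y‖]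

omit [FiniteDimensional ℝ E] in
theorem norm_le_uu (y : E) : ‖y‖ ≤ uu y := by
  rw [uu]
  apply Real.le_sqrt_of_sq_le
  linarith

omit [FiniteDimensional ℝ E] in
theorem contDiff_uu : ContDiff ℝ ∞ (uu : E → ℝ) := by
  unfold uu
  refine ContDiff.sqrt (contDiff_const.add (contDiff_norm_sq ℝ)) fun z => ?_
  positivity

theorem contDiff_rho (V : Ver E) : ContDiff ℝ ∞ (rho V) := contDiff_uu.pow _

theorem rho_pos (V : Ver E) (y : E) : 0 < rho V y := pow_pos (uu_pos y) _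

/-- The metric operator. -/
def Aop (V : Ver E) (y : E) : E →L[ℝ] E :=
  ContinuousLinearMap.id ℝ E - (uu y ^ 2)⁻¹ • (innerSL ℝ y).smulRight y + V.Q y

/-- Its inverse. -/
def Cop (V : Ver E) (y : E) : E →L[ℝ] E :=
  ContinuousLinearMap.id ℝ E + (innerSL ℝ y).smulRight y - (uu y ^ 2)⁻¹ • V.Q y

theorem Aop_apply (V : Ver E) (y v : E) :
    Aop V y v = v - ((uu y ^ 2)⁻¹ * ⟪y, v⟫_ℝ) • y + V.Q y v := by
  simp [Aop, smul_smul]

theorem Cop_apply (V : Ver E) (y v : E) :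
    Cop V y v = v + ⟪y, v⟫_ℝ • y - (uu y ^ 2)⁻¹ • V.Q y v := by
  simp [Cop]

theorem inner_Aop (V : Ver E) (y u v : E) : ⟪Aop V y u, v⟫_ℝ
    = ⟪u, v⟫_ℝ - (uu y ^ 2)⁻¹ * ⟪y, u⟫_ℝ * ⟪y, v⟫_ℝ + ⟪V.Q y u, v⟫_ℝ := by
  rw [Aop_apply, inner_add_left, inner_sub_left, real_inner_smul_left]

theorem inner_Aop_self (V : Ver E) (y v : E) : ⟪Aop V y v, v⟫_ℝ = mg V y v := by
  rw [inner_Aop, mg, real_inner_self_eq_norm_sq]
  ring

theorem inner_Aop_comm (V : Ver E) (y u v : E) : ⟪Aop V y u, v⟫_ℝ = ⟪Aop V y v, u⟫_ℝ := by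
  rw [inner_Aop, inner_Aop, V.Q_symm, real_inner_comm u v, real_inner_comm u (V.Q y v)]
  ring

theorem inner_y_Q (V : Ver E) (y v : E) : ⟪y, V.Q y v⟫_ℝ = 0 := by
  rw [← V.Q_symm, V.Q_self, inner_zero_left]

theorem Aop_Cop (V : Ver E) (y ξ : E) : Aop V y (Cop V y ξ) = ξ := by
  have hU := uu_sq y
  have hU0 : (1 + ‖y‖ ^ 2 : ℝ) ≠ 0 := by positivity
  have h1 : ⟪y, Cop V y ξ⟫_ℝ = uu y ^ 2 * ⟪y, ξ⟫_ℝ := by
    rw [Cop_apply, inner_sub_right, inner_add_right, inner_smul_right, inner_smul_right,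
      inner_y_Q, real_inner_self_eq_norm_sq, hU]
    ring
  have h2 : V.Q y (Cop V y ξ) = (uu y ^ 2)⁻¹ • V.Q y ξ := by
    rw [Cop_apply, map_sub, map_add, map_smul, map_smul, V.Q_self, V.Q_Q, smul_zero, add_zero,
      smul_smul]
    have e : V.Q y ξ - ((uu y ^ 2)⁻¹ * ‖y‖ ^ 2) • V.Q y ξ
        = (1 - (uu y ^ 2)⁻¹ * ‖y‖ ^ 2) • V.Q y ξ := by module
    rw [e, hU]
    congr 1
    field_simp
    ring
  rw [Aop_apply, h1, h2, Cop_apply, ← mul_assoc, inv_mul_cancel₀ (uu_sq_pos y).ne', one_mul]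
  abel

theorem an_sq (V : Ver E) (y ξ : E) (h : 0 ≤ ⟪Cop V y ξ, ξ⟫_ℝ) :
    an V y ξ ^ 2 = ⟪Cop V y ξ, ξ⟫_ℝ := by
  have e : ⟪Cop V y ξ, ξ⟫_ℝ = ‖ξ‖ ^ 2 + ⟪y, ξ⟫_ℝ ^ 2 - ⟪V.Q y ξ, ξ⟫_ℝ / uu y ^ 2 := by
    rw [Cop_apply, inner_sub_left, inner_add_left, real_inner_smul_left, real_inner_smul_left,
      real_inner_self_eq_norm_sq]
    ring
  rw [an, ← e, Real.sq_sqrt h]

theorem Q_nonneg (V : Ver E) (y v : E) : 0 ≤ ⟪V.Q y v, v⟫_ℝ := by
  rcases eq_or_ne y 0 with rfl | hy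
  · have h : V.Q (0 : E) = 0 := by
      have := V.Q_smul 0 (0 : E)
      simpa using this
    rw [h]; simp
  · have h1 : ‖V.Q y v‖ ^ 2 = ‖y‖ ^ 2 * ⟪V.Q y v, v⟫_ℝ := by
      rw [← real_inner_self_eq_norm_sq, V.Q_symm, V.Q_Q, inner_smul_right, real_inner_comm]
    have h2 : 0 < ‖y‖ ^ 2 := by positivity
    by_contra h3
    push Not at h3
    have := mul_neg_of_pos_of_neg h2 h3
    linarith [sq_nonneg ‖V.Q y v‖]

theorem mg_lower (V : Ver E) (y v : E) : ‖v‖ ^ 2 / uu y ^ 2 ≤ mg V y v := by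
  have h1 := Q_nonneg V y v
  have h2 : ⟪y, v⟫_ℝ ^ 2 ≤ ‖y‖ ^ 2 * ‖v‖ ^ 2 := by
    rw [← mul_pow]
    exact sq_le_sq' (by linarith [neg_le_of_abs_le (abs_real_inner_le_norm y v)])
      (real_inner_le_norm y v)
  have h3 := uu_sq_pos y
  have h4 : ‖v‖ ^ 2 / uu y ^ 2 = ‖v‖ ^ 2 - ‖y‖ ^ 2 * ‖v‖ ^ 2 / uu y ^ 2 := by
    rw [uu_sq]
    field_simp
    ring
  have h5 : ⟪y, v⟫_ℝ ^ 2 / uu y ^ 2 ≤ ‖y‖ ^ 2 * ‖v‖ ^ 2 / uu y ^ 2 := by gcongr
  rw [h4, mg]
  linarith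

theorem mg_nonneg (V : Ver E) (y v : E) : 0 ≤ mg V y v :=
  le_trans (by positivity) (mg_lower V y v)

theorem mg_pos (V : Ver E) (y : E) {v : E} (hv : v ≠ 0) : 0 < mg V y v :=
  lt_of_lt_of_le (by have := uu_sq_pos y; positivity) (mg_lower V y v)

theorem mg_smul (V : Ver E) (y : E) (t : ℝ) (v : E) : mg V y (t • v) = t ^ 2 * mg V y v := by
  rw [← inner_Aop_self, ← inner_Aop_self, map_smul, real_inner_smul_left, inner_smul_right]
  ring

theorem mg_cs (V : Ver E) (y u v : E) : ⟪Aop V y u, v⟫_ℝ ^ 2 ≤ mg V y u * mg V y v := by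
  have h : ∀ t : ℝ, 0 ≤ mg V y u * (t * t) + (-2 * ⟪Aop V y u, v⟫_ℝ) * t + mg V y v := by
    intro t
    have h0 := mg_nonneg V y (v - t • u)
    have e : mg V y (v - t • u)
        = mg V y u * (t * t) + (-2 * ⟪Aop V y u, v⟫_ℝ) * t + mg V y v := by
      rw [← inner_Aop_self, ← inner_Aop_self, ← inner_Aop_self, map_sub, map_smul,
        inner_sub_left, inner_sub_right, inner_sub_right, real_inner_smul_left,
        real_inner_smul_left, inner_smul_right, inner_smul_right, inner_Aop_comm V y v u]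
      ring
    rwa [e] at h0
  have h2 := discrim_le_zero h
  unfold discrim at h2
  nlinarith [h2]

theorem mg_Cop (V : Ver E) (y ξ : E) : mg V y (Cop V y ξ) = ⟪Cop V y ξ, ξ⟫_ℝ := by
  rw [← inner_Aop_self, Aop_Cop, real_inner_comm]

theorem inner_Cop_nonneg (V : Ver E) (y ξ : E) : 0 ≤ ⟪Cop V y ξ, ξ⟫_ℝ := by
  rw [← mg_Cop]
  exact mg_nonneg V y _

theorem an_sq' (V : Ver E) (y ξ : E) : an V y ξ ^ 2 = ⟪Cop V y ξ, ξ⟫_ℝ :=
  an_sq V y ξ (inner_Cop_nonneg V y ξ)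

theorem an_nonneg (V : Ver E) (y ξ : E) : 0 ≤ an V y ξ := Real.sqrt_nonneg _

/-- Duality. -/
theorem abs_inner_le (V : Ver E) (y v ξ : E) : |⟪ξ, v⟫_ℝ| ≤ an V y ξ * Real.sqrt (mg V y v) := by
  have h := mg_cs V y (Cop V y ξ) v
  rw [Aop_Cop, mg_Cop, ← an_sq'] at h
  have h2 : an V y ξ ^ 2 * mg V y v = (an V y ξ * Real.sqrt (mg V y v)) ^ 2 := by
    rw [mul_pow, Real.sq_sqrt (mg_nonneg V y v)]
  rw [h2] at h
  exact abs_le_of_sq_le_sq h (mul_nonneg (an_nonneg V y ξ) (Real.sqrt_nonneg _))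

theorem an_self (V : Ver E) (y : E) : an V y y = ‖y‖ * uu y := by
  have h : an V y y ^ 2 = (‖y‖ * uu y) ^ 2 := by
    rw [an_sq', Cop_apply, V.Q_self, smul_zero, sub_zero, inner_add_left, real_inner_smul_left,
      real_inner_self_eq_norm_sq, mul_pow, uu_sq]
    ring
  exact (pow_left_inj₀ (an_nonneg V y y) (mul_nonneg (norm_nonneg _) (uu_pos y).le)
    two_ne_zero).mp h

/-- The radial component of a vector. -/
theorem abs_inner_y_le (V : Ver E) (y v : E) :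
    |⟪y, v⟫_ℝ| ≤ uu y ^ 2 * Real.sqrt (mg V y v) := by
  refine (abs_inner_le V y v y).trans ?_
  rw [an_self]
  have := norm_le_uu y
  have h0 := (uu_pos y).le
  have : ‖y‖ * uu y ≤ uu y ^ 2 := by nlinarith
  exact mul_le_mul_of_nonneg_right this (Real.sqrt_nonneg _)

/-! ### smoothness -/

theorem contDiff_Aop (V : Ver E) : ContDiff ℝ ∞ (Aop V) := by
  have h1 : ContDiff ℝ ∞ (fun z : E => (uu z ^ 2)⁻¹) :=
    (contDiff_uu.pow 2).inv fun z => (uu_sq_pos z).ne'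
  have h2 : ContDiff ℝ ∞ (fun z : E => (innerSL ℝ z).smulRight z) :=
    ((innerSL ℝ).contDiff.comp contDiff_id).smulRight contDiff_id
  exact (contDiff_const.sub (h1.smul h2)).add V.smooth_Q

theorem contDiff_Cop (V : Ver E) : ContDiff ℝ ∞ (Cop V) := by
  have h1 : ContDiff ℝ ∞ (fun z : E => (uu z ^ 2)⁻¹) :=
    (contDiff_uu.pow 2).inv fun z => (uu_sq_pos z).ne'
  have h2 : ContDiff ℝ ∞ (fun z : E => (innerSL ℝ z).smulRight z) :=
    ((innerSL ℝ).contDiff.comp contDiff_id).smulRight contDiff_id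
  exact (contDiff_const.add h2).sub (h1.smul V.smooth_Q)

theorem continuous_mg (V : Ver E) : Continuous (fun q : E × E => mg V q.1 q.2) := by
  have : (fun q : E × E => mg V q.1 q.2) = fun q => ⟪Aop V q.1 q.2, q.2⟫_ℝ := by
    funext q
    exact (inner_Aop_self V q.1 q.2).symm
  rw [this]
  exact (((contDiff_Aop V).continuous.comp continuous_fst).clm_apply continuous_snd).inner
    continuous_snd

theorem continuous_an (V : Ver E) : Continuous (fun q : E × E => an V q.1 q.2) := by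
  have : (fun q : E × E => an V q.1 q.2) = fun q => Real.sqrt (⟪Cop V q.1 q.2, q.2⟫_ℝ) := by
    funext q
    rw [← an_sq', Real.sqrt_sq (an_nonneg V _ _)]
  rw [this]
  exact ((((contDiff_Cop V).continuous.comp continuous_fst).clm_apply continuous_snd).inner
    continuous_snd).sqrt

end Mol

end

end Pool.Agent.Work.MP_3b24f6_gt
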