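import Pool.Agent.Work.MP_3b24f6_gt.MolAlg

/-!
# Mollification in the chart (for `Mollify`)
-/

set_option autoImplicit false
set_option linter.unusedSectionVars false

open MeasureTheory Set Filter Topology
open scoped ContDiff InnerProductSpace Convolution

namespace Pool.Agent.Work.MP_3b24f6_gt

noncomputable section

variable {E : Type*} [NormedAddCommGroup E] [InnerProductSpace ℝ E] [FiniteDimensional ℝ E]
  [MeasurableSpace E] [BorelSpace E]

namespace Mol

/-- Mollification. -/
def moll {F : Type*} [NormedAddCommGroup F] [NormedSpace ℝ F] (φ : ContDiffBump (0 : E))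
    (u : E → F) (x : E) : F := ∫ t, φ.normed volume t • u (x - t)

theorem moll_eq {F : Type*} [NormedAddCommGroup F] [NormedSpace ℝ F] (φ : ContDiffBump (0 : E))
    (u : E → F) :
    moll φ u = (φ.normed volume ⋆[ContinuousLinearMap.lsmul ℝ ℝ, volume] u) := rfl

theorem moll_plus {F : Type*} [NormedAddCommGroup F] [NormedSpace ℝ F] (φ : ContDiffBump (0 : E))
    (u : E → F) (x : E) : moll φ u x = ∫ t, φ.normed volume t • u (x + t) := by
  rw [moll, ← integral_neg_eq_self]
  refine integral_congr_ae (Eventually.of_forall fun t => ?_)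
  simp only [φ.normed_neg, sub_neg_eq_add]

variable (φ : ContDiffBump (0 : E))

theorem integrable_eta : Integrable (φ.normed (volume : Measure E)) :=
  (φ.continuous_normed).integrable_of_hasCompactSupport φ.hasCompactSupport_normed

/-- Duality of mollification. -/
theorem integral_moll_mul {u h : E → ℝ} (hu : Measurable u) (hui : Integrable u)
    (hu1 : ∀ x, |u x| ≤ 1) (hh : Continuous h) (hhc : HasCompactSupport h) :
    ∫ x, moll φ u x * h x = ∫ x, u x * moll φ h x := by
  have hη := integrable_eta φ
  have hηc : Continuous (φ.normed (volume : Measure E)) := φ.continuous_normed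
  have hhi : Integrable h := hh.integrable_of_hasCompactSupport hhc
  obtain ⟨C, hC⟩ := hh.bounded_above_of_compact_support hhc
  have i1 : Integrable (Function.uncurry fun x t => φ.normed volume t * u (x - t) * h x)
      ((volume : Measure E).prod volume) := by
    refine Integrable.mono' (g := fun p : E × E => ‖h p.1‖ * φ.normed volume p.2)
      (hhi.norm.mul_prod hη) ?_ (Eventually.of_forall fun p => ?_)
    · refine Measurable.aestronglyMeasurable ?_
      exact ((hηc.measurable.comp measurable_snd).mul
        (hu.comp (measurable_fst.sub measurable_snd))).mul (hh.measurable.comp measurable_fst)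
    · simp only [Function.uncurry, norm_mul, Real.norm_eq_abs]
      have h1 := hu1 (p.1 - p.2)
      have h2 : |φ.normed (volume : Measure E) p.2| = φ.normed volume p.2 :=
        abs_of_nonneg (φ.nonneg_normed _)
      rw [h2]
      have h3 := φ.nonneg_normed (μ := (volume : Measure E)) p.2
      have h4 := abs_nonneg (h p.1)
      calc φ.normed volume p.2 * |u (p.1 - p.2)| * |h p.1|
          ≤ φ.normed volume p.2 * 1 * |h p.1| := by gcongr
        _ = |h p.1| * φ.normed volume p.2 := by ring
  have i2 : Integrable (Function.uncurry fun x t => φ.normed volume t * u x * h (x + t))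
      ((volume : Measure E).prod volume) := by
    refine Integrable.mono' (g := fun p : E × E => (C * ‖u p.1‖) * φ.normed volume p.2)
      ((hui.norm.const_mul C).mul_prod hη) ?_ (Eventually.of_forall fun p => ?_)
    · refine Measurable.aestronglyMeasurable ?_
      exact ((hηc.measurable.comp measurable_snd).mul
        (hu.comp measurable_fst)).mul (hh.measurable.comp (measurable_fst.add measurable_snd))
    · simp only [Function.uncurry, norm_mul, Real.norm_eq_abs]
      have h1 := hC (p.1 + p.2)
      rw [Real.norm_eq_abs] at h1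
      have h2 : |φ.normed (volume : Measure E) p.2| = φ.normed volume p.2 :=
        abs_of_nonneg (φ.nonneg_normed _)
      rw [h2]
      have h3 := φ.nonneg_normed (μ := (volume : Measure E)) p.2
      have h4 := abs_nonneg (u p.1)
      calc φ.normed volume p.2 * |u p.1| * |h (p.1 + p.2)|
          ≤ φ.normed volume p.2 * |u p.1| * C := by gcongr
        _ = C * |u p.1| * φ.normed volume p.2 := by ring
  have s1 := integral_integral_swap i1
  have s2 := integral_integral_swap i2
  have e1 : ∀ t, ∫ x, φ.normed volume t * u (x - t) * h x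
      = ∫ x, φ.normed volume t * u x * h (x + t) := by
    intro t
    rw [← integral_sub_right_eq_self (fun x => φ.normed volume t * u x * h (x + t)) t]
    simp only [sub_add_cancel]
  calc ∫ x, moll φ u x * h x = ∫ x, ∫ t, φ.normed volume t * u (x - t) * h x := by
        refine integral_congr_ae (Eventually.of_forall fun x => ?_)
        simp only [moll, smul_eq_mul]
        rw [integral_mul_const]
    _ = ∫ t, ∫ x, φ.normed volume t * u (x - t) * h x := s1
    _ = ∫ t, ∫ x, φ.normed volume t * u x * h (x + t) := by simp_rw [e1]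
    _ = ∫ x, ∫ t, φ.normed volume t * u x * h (x + t) := s2.symm
    _ = ∫ x, u x * moll φ h x := by
        refine integral_congr_ae (Eventually.of_forall fun x => ?_)
        simp only [moll_plus, smul_eq_mul]
        rw [← integral_const_mul]
        refine integral_congr_ae (Eventually.of_forall fun t => ?_)
        simp only
        ring

theorem hasFDerivAt_moll {Z : E → E} (hZ : ContDiff ℝ ∞ Z) (hZc : HasCompactSupport Z) (x : E) :
    HasFDerivAt (moll φ Z) (∫ t, φ.normed volume t • fderiv ℝ Z (x - t)) x := by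
  have h := HasCompactSupport.hasFDerivAt_convolution_right (ContinuousLinearMap.lsmul ℝ ℝ)
    (μ := (volume : Measure E)) hZc (f := φ.normed volume)
    (φ.continuous_normed.locallyIntegrable) (hZ.of_le (by exact_mod_cast le_top)) x
  exact h

theorem integrable_moll_aux {F : Type*} [NormedAddCommGroup F] [NormedSpace ℝ F] {g : E → F}
    (hg : Continuous g) (x : E) : Integrable (fun t => φ.normed volume t • g (x - t)) := by
  refine Continuous.integrable_of_hasCompactSupport ?_ ?_
  · exact φ.continuous_normed.smul (hg.comp (continuous_const.sub continuous_id))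
  · exact φ.hasCompactSupport_normed.smul_right

/-- The trace as a continuous functional. -/
def trC : (E →L[ℝ] E) →L[ℝ] ℝ :=
  LinearMap.toContinuousLinearMap
    { toFun := tr
      map_add' := fun S T => by simp [tr]
      map_smul' := fun c T => by simp [tr] }

theorem trC_apply (T : E →L[ℝ] E) : trC T = tr T := rfl

theorem divE_moll {Z : E → E} (hZ : ContDiff ℝ ∞ Z) (hZc : HasCompactSupport Z) (x : E) :
    divE (moll φ Z) x = moll φ (divE Z) x := by
  rw [divE, (hasFDerivAt_moll φ hZ hZc x).fderiv, ← trC_apply]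
  rw [← (trC (E := E)).integral_comp_comm (integrable_moll_aux φ
    (hZ.continuous_fderiv (by simp)) x)]
  simp only [map_smul, trC_apply]
  rfl

theorem contDiff_moll_left {u : E → ℝ} (hu : LocallyIntegrable u) : ContDiff ℝ ∞ (moll φ u) := by
  rw [moll_eq]
  exact φ.hasCompactSupport_normed.contDiff_convolution_left _ φ.contDiff_normed hu

theorem contDiff_moll {Z : E → E} (hZ : ContDiff ℝ ∞ Z) : ContDiff ℝ ∞ (moll φ Z) := by
  rw [moll_eq]
  exact φ.hasCompactSupport_normed.contDiff_convolution_left _ φ.contDiff_normed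
    hZ.continuous.locallyIntegrable

theorem moll_eq_zero {F : Type*} [NormedAddCommGroup F] [NormedSpace ℝ F] {u : E → F} {x : E}
    (h : ∀ t, ‖t‖ < φ.rOut → u (x - t) = 0) : moll φ u x = 0 := by
  rw [moll]
  refine integral_eq_zero_of_ae (Eventually.of_forall fun t => ?_)
  by_cases ht : ‖t‖ < φ.rOut
  · simp [h t ht]
  · have : φ.normed (volume : Measure E) t = 0 := by
      by_contra h0
      have : t ∈ Function.support (φ.normed (volume : Measure E)) := h0
      rw [φ.support_normed_eq, Metric.mem_ball, dist_zero_right] at this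
      exact ht this
    simp [this]

theorem moll_zero_off {F : Type*} [NormedAddCommGroup F] [NormedSpace ℝ F] {u : E → F}
    {R : ℝ} (h : ∀ x, R ≤ ‖x‖ → u x = 0) (x : E) (hx : R + φ.rOut ≤ ‖x‖) : moll φ u x = 0 := by
  refine moll_eq_zero φ fun t ht => h _ ?_
  have := norm_sub_norm_le x t
  linarith

theorem moll_nonneg {u : E → ℝ} (hu : ∀ x, 0 ≤ u x) (x : E) : 0 ≤ moll φ u x :=
  integral_nonneg fun t => smul_nonneg (φ.nonneg_normed _) (hu _)

theorem moll_le_one {u : E → ℝ} (hu0 : ∀ x, 0 ≤ u x) (hu : ∀ x, u x ≤ 1) (x : E) :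
    moll φ u x ≤ 1 := by
  have h1 : ∫ t, φ.normed (volume : Measure E) t = 1 := φ.integral_normed
  rw [← h1, moll]
  refine integral_mono_of_nonneg (Eventually.of_forall fun t =>
    smul_nonneg (φ.nonneg_normed _) (hu0 _)) (integrable_eta φ)
    (Eventually.of_forall fun t => ?_)
  simp only [smul_eq_mul]
  exact mul_le_of_le_one_right (φ.nonneg_normed _) (hu _)

/-- Jensen. -/
theorem mg_moll_le (V : Ver E) {Z : E → E} (hZ : Continuous Z) (y : E) {c : ℝ}
    (h : ∀ t, ‖t‖ < φ.rOut → mg V y (Z (y - t)) ≤ c) : mg V y (moll φ Z y) ≤ c := by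
  set m := moll φ Z y with hm
  have h1 : mg V y m = ∫ t, φ.normed volume t * ⟪Aop V y m, Z (y - t)⟫_ℝ := by
    have h0 := integral_inner (𝕜 := ℝ) (integrable_moll_aux φ hZ y) (Aop V y m)
    have e : ⟪Aop V y m, m⟫_ℝ
        = ⟪Aop V y m, ∫ t, φ.normed volume t • Z (y - t)⟫_ℝ := rfl
    rw [← inner_Aop_self, e, ← h0]
    refine integral_congr_ae (Eventually.of_forall fun t => ?_)
    simp only [inner_smul_right]
  have h2 : ∫ t, φ.normed volume t * ⟪Aop V y m, Z (y - t)⟫_ℝ
      ≤ ∫ t, φ.normed (volume : Measure E) t * ((mg V y m + c) / 2) := by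
    refine integral_mono ?_ ((integrable_eta φ).mul_const _) fun t => ?_
    · have := (integrable_moll_aux φ hZ y).const_inner (𝕜 := ℝ) (Aop V y m)
      refine this.congr (Eventually.of_forall fun t => ?_)
      simp only [inner_smul_right]
    · simp only
      by_cases ht : ‖t‖ < φ.rOut
      · refine mul_le_mul_of_nonneg_left ?_ (φ.nonneg_normed _)
        have h0 := mg_nonneg V y (m - Z (y - t))
        have e : mg V y (m - Z (y - t)) = mg V y m - 2 * ⟪Aop V y m, Z (y - t)⟫_ℝ
            + mg V y (Z (y - t)) := by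
          rw [← inner_Aop_self, ← inner_Aop_self, ← inner_Aop_self, map_sub, inner_sub_left,
            inner_sub_right, inner_sub_right, inner_Aop_comm V y (Z (y - t)) m]
          ring
        rw [e] at h0
        have := h t ht
        linarith
      · have : φ.normed (volume : Measure E) t = 0 := by
          by_contra h0
          have : t ∈ Function.support (φ.normed (volume : Measure E)) := h0
          rw [φ.support_normed_eq, Metric.mem_ball, dist_zero_right] at this
          exact ht this
        simp [this]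
  rw [← h1, integral_mul_const, φ.integral_normed, one_mul] at h2
  linarith

/-- Uniform comparison of the metric at nearby points. -/
theorem exists_delta_mg (V : Ver E) {K : Set E} (hK : IsCompact K) {κ : ℝ} (hκ : 0 < κ) :
    ∃ δ, 0 < δ ∧ ∀ x ∈ K, ∀ y ∈ K, dist x y < δ → ∀ v,
      rho V x ^ 2 * mg V y v ≤ (1 + κ) * (rho V y ^ 2 * mg V x v) := by
  set S : Set (E × E × E) := {p | p.1 ∈ K ∧ p.2.1 ∈ K ∧ p.2.2 ∈ Metric.sphere (0 : E) 1 ∧
    (1 + κ) * (rho V p.2.1 ^ 2 * mg V p.1 p.2.2) ≤ rho V p.1 ^ 2 * mg V p.2.1 p.2.2} with hS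
  have hρ : Continuous (rho V) := (contDiff_rho V).continuous
  have hm := continuous_mg V
  have hc1 : Continuous fun p : E × E × E => (1 + κ) * (rho V p.2.1 ^ 2 * mg V p.1 p.2.2) := by
    refine continuous_const.mul (((hρ.comp (continuous_fst.comp continuous_snd)).pow 2).mul ?_)
    exact hm.comp (continuous_fst.prodMk (continuous_snd.comp continuous_snd))
  have hc2 : Continuous fun p : E × E × E => rho V p.1 ^ 2 * mg V p.2.1 p.2.2 := by
    refine ((hρ.comp continuous_fst).pow 2).mul ?_
    exact hm.comp ((continuous_fst.comp continuous_snd).prodMk (continuous_snd.comp continuous_snd))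
  have hScomp : IsCompact S := by
    have hP : IsCompact (K ×ˢ (K ×ˢ (Metric.sphere (0 : E) 1))) :=
      hK.prod (hK.prod (isCompact_sphere 0 1))
    have hcl : IsClosed {p : E × E × E | (1 + κ) * (rho V p.2.1 ^ 2 * mg V p.1 p.2.2)
        ≤ rho V p.1 ^ 2 * mg V p.2.1 p.2.2} := isClosed_le hc1 hc2
    have : S = (K ×ˢ (K ×ˢ (Metric.sphere (0 : E) 1))) ∩ {p : E × E × E |
        (1 + κ) * (rho V p.2.1 ^ 2 * mg V p.1 p.2.2) ≤ rho V p.1 ^ 2 * mg V p.2.1 p.2.2} := by
      ext p
      simp only [hS, mem_ofPred_eq, mem_inter_iff, mem_prod]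
      tauto
    rw [this]
    exact hP.inter_right hcl
  have key : ∃ δ, 0 < δ ∧ ∀ p ∈ S, δ ≤ dist p.1 p.2.1 := by
    rcases S.eq_empty_or_nonempty with hE | hne
    · exact ⟨1, one_pos, fun p hp => by rw [hE] at hp; exact absurd hp (notMem_empty p)⟩
    · obtain ⟨p0, hp0, hmin⟩ := hScomp.exists_isMinOn hne
        (f := fun p : E × E × E => dist p.1 p.2.1)
        (continuous_fst.dist (continuous_fst.comp continuous_snd)).continuousOn
      refine ⟨dist p0.1 p0.2.1, ?_, fun p hp => hmin hp⟩
      rw [dist_pos]
      intro heq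
      obtain ⟨-, -, h3, h4⟩ := hp0
      rw [← heq] at h4
      have hv : p0.2.2 ≠ 0 := by
        intro h0
        rw [h0] at h3
        simp at h3
      have hpos : 0 < rho V p0.1 ^ 2 * mg V p0.1 p0.2.2 :=
        mul_pos (pow_pos (rho_pos V _) 2) (mg_pos V _ hv)
      nlinarith
  obtain ⟨δ, hδ, hδ2⟩ := key
  refine ⟨δ, hδ, fun x hx y hy hxy v => ?_⟩
  rcases eq_or_ne v 0 with rfl | hv
  · have h0 : ∀ z, mg V z (0 : E) = 0 := fun z => by simp [mg]
    simp [h0]
  · by_contra hcon
    push Not at hcon
    have hn : 0 < ‖v‖ := norm_pos_iff.mpr hv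
    set v' := ‖v‖⁻¹ • v with hv'
    have hvv : v = ‖v‖ • v' := by
      rw [hv', smul_smul, mul_inv_cancel₀ hn.ne', one_smul]
    have hv1 : v' ∈ Metric.sphere (0 : E) 1 := by
      rw [mem_sphere_zero_iff_norm, hv', norm_smul, norm_inv, norm_norm, inv_mul_cancel₀ hn.ne']
    have hmem : (x, y, v') ∈ S := by
      refine ⟨hx, hy, hv1, ?_⟩
      have m1 : mg V y v = ‖v‖ ^ 2 * mg V y v' := by
        conv_lhs => rw [hvv, mg_smul]
      have m2 : mg V x v = ‖v‖ ^ 2 * mg V x v' := by
        conv_lhs => rw [hvv, mg_smul]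
      rw [m1, m2] at hcon
      have h2 : 0 < ‖v‖ ^ 2 := pow_pos hn 2
      have h3 : ‖v‖ ^ 2 * ((1 + κ) * (rho V y ^ 2 * mg V x v'))
          ≤ ‖v‖ ^ 2 * (rho V x ^ 2 * mg V y v') := by nlinarith
      exact le_of_mul_le_mul_left h3 h2
    have := hδ2 _ hmem
    exact absurd hxy (not_lt.mpr this)

end Mol

end

end Pool.Agent.Work.MP_3b24f6_gt
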