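import Mathlib

set_option autoImplicit false

open Finset
open scoped InnerProductSpace

namespace Pool.Agent.Work.MP_3b24f6_gt

noncomputable section

/-- A Clifford system of symmetric operators with the Hopf identity (for the Cayley plane:
`E = ℝ^16`, nine operators). -/
structure Clif (E : Type*) [NormedAddCommGroup E] [InnerProductSpace ℝ E] (ι : Type) [Fintype ι]
    [DecidableEq ι] where
  S : ι → E →L[ℝ] E
  symm : ∀ a x y, ⟪S a x, y⟫_ℝ = ⟪x, S a y⟫_ℝ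
  rel : ∀ a b x, S a (S b x) + S b (S a x) = if a = b then (2 : ℝ) • x else 0
  hopf : ∀ x, ∑ a, ⟪S a x, x⟫_ℝ ^ 2 = ‖x‖ ^ 4

namespace Clif

variable {E : Type*} [NormedAddCommGroup E] [InnerProductSpace ℝ E] {ι : Type} [Fintype ι]
  [DecidableEq ι] (c : Clif E ι)

/-- `q(x,y) = |x|²|y|² - ∑ ⟨S_a x, y⟩²`. -/
def q (x y : E) : ℝ := ‖x‖ ^ 2 * ‖y‖ ^ 2 - ∑ a, ⟪c.S a x, y⟫_ℝ ^ 2

/-- The operator `S_v = ∑ v_a S_a`. -/
def sv (v : ι → ℝ) : E →L[ℝ] E := ∑ a, v a • c.S a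

theorem sv_apply (v : ι → ℝ) (x : E) : c.sv v x = ∑ a, v a • c.S a x := by
  simp [sv, ContinuousLinearMap.sum_apply]

theorem sv_symm (v : ι → ℝ) (x y : E) : ⟪c.sv v x, y⟫_ℝ = ⟪x, c.sv v y⟫_ℝ := by
  simp only [sv_apply, sum_inner, inner_sum, inner_smul_left, inner_smul_right, c.symm]
  simp

theorem S_S (a b : ι) (x : E) :
    c.S a (c.S b x) = (if a = b then (2 : ℝ) • x else 0) - c.S b (c.S a x) := by
  rw [← c.rel a b x]; abel

theorem S_sv (a : ι) (v : ι → ℝ) (x : E) :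
    c.S a (c.sv v x) = (2 * v a) • x - c.sv v (c.S a x) := by
  rw [sv_apply, sv_apply, map_sum]
  have : ∀ b, c.S a (v b • c.S b x)
      = (if a = b then (2 * v b) • x else 0) - v b • c.S b (c.S a x) := by
    intro b
    rw [map_smul, S_S, smul_sub]
    split_ifs with h
    · rw [smul_smul, mul_comm]
    · rw [smul_zero]
  simp_rw [this]
  rw [sum_sub_distrib, Finset.sum_ite_eq]
  simp

theorem sv_sv (v : ι → ℝ) (x : E) : c.sv v (c.sv v x) = (∑ a, v a ^ 2) • x := by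
  have h : c.sv v (c.sv v x) = ∑ a, (v a • ((2 * v a) • x)) - c.sv v (c.sv v x) := by
    conv_lhs => rw [sv_apply c v (c.sv v x)]
    simp_rw [S_sv, smul_sub]
    rw [sum_sub_distrib]
    congr 1
    conv_rhs => rw [sv_apply c v x]
    rw [map_sum]
    simp_rw [map_smul]
  have h2 : (2 : ℝ) • c.sv v (c.sv v x) = (2 : ℝ) • ((∑ a, v a ^ 2) • x) := by
    rw [two_smul]
    nth_rewrite 1 [h]
    rw [sub_add_cancel, sum_smul, smul_sum]
    refine sum_congr rfl fun a _ => ?_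
    rw [smul_smul, smul_smul]
    congr 1
    ring
  exact smul_right_injective E (two_ne_zero) h2

theorem inner_sv_sv (v : ι → ℝ) (x y : E) :
    ⟪c.sv v x, c.sv v y⟫_ℝ = (∑ a, v a ^ 2) * ⟪x, y⟫_ℝ := by
  rw [sv_symm, sv_sv, inner_smul_right]

theorem norm_sv {v : ι → ℝ} (hv : ∑ a, v a ^ 2 = 1) (x : E) : ‖c.sv v x‖ = ‖x‖ := by
  have h := c.inner_sv_sv v x x
  rw [hv, one_mul, real_inner_self_eq_norm_sq, real_inner_self_eq_norm_sq] at h
  exact (pow_left_inj₀ (norm_nonneg _) (norm_nonneg _) two_ne_zero).mp h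

theorem inner_S_sv (a : ι) {v : ι → ℝ} (hv : ∑ a, v a ^ 2 = 1) (x y : E) :
    ⟪c.S a (c.sv v x), c.sv v y⟫_ℝ = 2 * v a * (∑ b, v b * ⟪c.S b x, y⟫_ℝ) - ⟪c.S a x, y⟫_ℝ := by
  rw [S_sv, inner_sub_left, inner_smul_left, inner_sv_sv, hv, one_mul]
  congr 2
  rw [← sv_symm, sv_apply, sum_inner]
  refine sum_congr rfl fun b _ => ?_
  rw [inner_smul_left]
  simp

theorem sum_reflect {v s : ι → ℝ} (hv : ∑ a, v a ^ 2 = 1) :
    ∑ a, (2 * v a * (∑ b, v b * s b) - s a) ^ 2 = ∑ a, s a ^ 2 := by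
  set t := ∑ b, v b * s b with ht
  have : ∀ a, (2 * v a * t - s a) ^ 2 = 4 * t ^ 2 * v a ^ 2 - 4 * t * (v a * s a) + s a ^ 2 :=
    fun a => by ring
  simp_rw [this]
  rw [sum_add_distrib, sum_sub_distrib, ← mul_sum, ← mul_sum, hv, ← ht]
  ring

theorem q_sv {v : ι → ℝ} (hv : ∑ a, v a ^ 2 = 1) (x y : E) :
    c.q (c.sv v x) (c.sv v y) = c.q x y := by
  unfold q
  rw [c.norm_sv hv, c.norm_sv hv]
  simp_rw [c.inner_S_sv _ hv]
  rw [sum_reflect hv]

/-- The reflection `S_v` as a linear isometry. -/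
def svI {v : ι → ℝ} (hv : ∑ a, v a ^ 2 = 1) : E ≃ₗᵢ[ℝ] E where
  toFun := c.sv v
  invFun := c.sv v
  map_add' := map_add _
  map_smul' := map_smul _
  left_inv x := by rw [sv_sv, hv, one_smul]
  right_inv x := by rw [sv_sv, hv, one_smul]
  norm_map' x := c.norm_sv hv x

@[simp] theorem svI_apply {v : ι → ℝ} (hv : ∑ a, v a ^ 2 = 1) (x : E) :
    c.svI hv x = c.sv v x := rfl

/-- The Hopf map. -/
def h (x : E) (a : ι) : ℝ := ⟪c.S a x, x⟫_ℝ

theorem h_sv {v : ι → ℝ} (hv : ∑ a, v a ^ 2 = 1) (x : E) (a : ι) :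
    c.h (c.sv v x) a = 2 * v a * (∑ b, v b * c.h x b) - c.h x a := c.inner_S_sv a hv x x

/-- Polarised Hopf identity. -/
theorem hopf_polar (x y : E) :
    2 * ∑ a, ⟪c.S a x, y⟫_ℝ ^ 2 + ∑ a, c.h x a * c.h y a
      = 2 * ⟪x, y⟫_ℝ ^ 2 + ‖x‖ ^ 2 * ‖y‖ ^ 2 := by
  have e : ∀ t : ℝ, ∀ a, ⟪c.S a (x + t • y), x + t • y⟫_ℝ
      = c.h x a + 2 * t * ⟪c.S a x, y⟫_ℝ + t ^ 2 * c.h y a := by
    intro t a
    have hs : ⟪c.S a y, x⟫_ℝ = ⟪c.S a x, y⟫_ℝ := by
      rw [c.symm, real_inner_comm]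
    simp only [h, map_add, map_smul, inner_add_left, inner_add_right, inner_smul_left,
      inner_smul_right, hs]
    simp only [RCLike.conj_to_real]
    ring
  have n : ∀ t : ℝ, ‖x + t • y‖ ^ 4 = (‖x‖ ^ 2 + 2 * t * ⟪x, y⟫_ℝ + t ^ 2 * ‖y‖ ^ 2) ^ 2 := by
    intro t
    have : ‖x + t • y‖ ^ 2 = ‖x‖ ^ 2 + 2 * t * ⟪x, y⟫_ℝ + t ^ 2 * ‖y‖ ^ 2 := by
      rw [norm_add_sq_real, inner_smul_right, norm_smul, mul_pow, Real.norm_eq_abs, sq_abs]
      ring
    rw [← this]; ring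
  have k : ∀ t : ℝ, ∑ a, (c.h x a + 2 * t * ⟪c.S a x, y⟫_ℝ + t ^ 2 * c.h y a) ^ 2
      = (‖x‖ ^ 2 + 2 * t * ⟪x, y⟫_ℝ + t ^ 2 * ‖y‖ ^ 2) ^ 2 := by
    intro t
    rw [← n t, ← c.hopf (x + t • y)]
    simp_rw [e t]
  have h0 := c.hopf x
  have h1 := c.hopf y
  have e1 : ∑ a, c.h x a ^ 2 = ‖x‖ ^ 4 := h0
  have e2 : ∑ a, c.h y a ^ 2 = ‖y‖ ^ 4 := h1
  have kp := k 1
  have km := k (-1)
  have sp : ∀ t : ℝ, ∑ a, (c.h x a + 2 * t * ⟪c.S a x, y⟫_ℝ + t ^ 2 * c.h y a) ^ 2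
      = ∑ a, c.h x a ^ 2 + 4 * t * ∑ a, c.h x a * ⟪c.S a x, y⟫_ℝ
        + t ^ 2 * (4 * ∑ a, ⟪c.S a x, y⟫_ℝ ^ 2 + 2 * ∑ a, c.h x a * c.h y a)
        + 4 * t ^ 3 * ∑ a, ⟪c.S a x, y⟫_ℝ * c.h y a + t ^ 4 * ∑ a, c.h y a ^ 2 := by
    intro t
    simp only [mul_sum, ← sum_add_distrib]
    refine sum_congr rfl fun a _ => ?_
    ring
  rw [sp, e1, e2] at kp km
  nlinarith [kp, km]

theorem sum_S_sq {x y : E} (hx : ‖x‖ = 1) (hy : ‖y‖ = 1) (hxy : ∀ a, c.h y a = - c.h x a) :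
    ⟪x, y⟫_ℝ ^ 2 + 1 = ∑ a, ⟪c.S a x, y⟫_ℝ ^ 2 := by
  have := c.hopf_polar x y
  have e : ∑ a, c.h x a * c.h y a = -1 := by
    simp_rw [hxy, mul_neg]
    rw [sum_neg_distrib]
    have h0 := c.hopf x
    rw [hx] at h0
    have e1 : ∑ a, c.h x a * c.h x a = 1 := by
      have : ∑ a, c.h x a ^ 2 = 1 ^ 4 := h0
      simp_rw [sq] at this
      simpa using this
    rw [e1]
  rw [e, hx, hy] at this
  linarith

/-- If the Hopf images are opposite, some `S_v` maps `x` to `y`. -/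
theorem exists_sv {x y : E} (hx : ‖x‖ = 1) (hy : ‖y‖ = 1) (hxy : ∀ a, c.h y a = - c.h x a) :
    ∃ v : ι → ℝ, ∑ a, v a ^ 2 = 1 ∧ c.sv v x = y := by
  have h1 := c.sum_S_sq hx hy hxy
  set v : ι → ℝ := fun a => ⟪c.S a x, y⟫_ℝ with hv
  set s : ℝ := ∑ a, v a ^ 2 with hs
  have hs1 : 1 ≤ s := by
    have : s = ⟪x, y⟫_ℝ ^ 2 + 1 := h1.symm
    nlinarith [sq_nonneg ⟪x, y⟫_ℝ]
  have hin : ⟪c.sv v x, y⟫_ℝ = s := by
    rw [sv_apply, sum_inner, hs]
    refine sum_congr rfl fun a _ => ?_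
    rw [inner_smul_left, hv]
    simp [sq]
  have hn : ‖c.sv v x‖ ^ 2 = s := by
    rw [← real_inner_self_eq_norm_sq, inner_sv_sv, real_inner_self_eq_norm_sq, hx, ← hs]
    ring
  have hcs := real_inner_le_norm (c.sv v x) y
  rw [hin, hy, mul_one] at hcs
  have hs2 : s ≤ 1 := by
    have hn0 := norm_nonneg (c.sv v x)
    nlinarith
  have hs3 : s = 1 := le_antisymm hs2 hs1
  refine ⟨v, hs3, ?_⟩
  have : ‖c.sv v x - y‖ ^ 2 = 0 := by
    rw [norm_sub_sq_real, hn, hin, hy, hs3]; norm_num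
  have : ‖c.sv v x - y‖ = 0 := by
    exact pow_eq_zero_iff (two_ne_zero) |>.mp this
  exact sub_eq_zero.mp (norm_eq_zero.mp this)

theorem sum_h_sq {x : E} (hx : ‖x‖ = 1) : ∑ a, c.h x a ^ 2 = 1 := by
  have h0 : ∑ a, c.h x a ^ 2 = ‖x‖ ^ 4 := c.hopf x
  rw [h0, hx]; norm_num

/-- Moving the Hopf image to the opposite of a given one. -/
theorem exists_move (hι : 2 ≤ Fintype.card ι) {m n : ι → ℝ} (hm : ∑ a, m a ^ 2 = 1)
    (hn : ∑ a, n a ^ 2 = 1) :
    ∃ w : ι → ℝ, ∑ a, w a ^ 2 = 1 ∧ ∀ a, 2 * w a * (∑ b, w b * m b) - m a = - n a := by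
  by_cases hmn : m = n
  · -- orthogonal vector
    subst hmn
    obtain ⟨i, j, hij⟩ : ∃ i j : ι, i ≠ j := by
      have := Fintype.one_lt_card_iff.mp (show 1 < Fintype.card ι by omega)
      obtain ⟨i, j, h⟩ := this
      exact ⟨i, j, h⟩
    by_cases h0 : m i ^ 2 + m j ^ 2 = 0
    · have hi : m i = 0 := by nlinarith [sq_nonneg (m i), sq_nonneg (m j)]
      refine ⟨fun a => if a = i then 1 else 0, by simp, ?_⟩
      intro a
      have : ∑ b, (if b = i then (1 : ℝ) else 0) * m b = 0 := by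
        simp [hi]
      rw [this]; ring
    · have hpos : 0 < m i ^ 2 + m j ^ 2 :=
        lt_of_le_of_ne (by positivity) (Ne.symm h0)
      set r := Real.sqrt (m i ^ 2 + m j ^ 2) with hr
      have hr0 : 0 < r := Real.sqrt_pos.mpr hpos
      have hr2 : r ^ 2 = m i ^ 2 + m j ^ 2 := Real.sq_sqrt hpos.le
      refine ⟨fun a => (if a = i then m j / r else 0) + (if a = j then - m i / r else 0), ?_, ?_⟩
      · have e : ∀ a, ((if a = i then m j / r else 0) + (if a = j then - m i / r else 0)) ^ 2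
            = (if a = i then (m j / r) ^ 2 else 0) + (if a = j then (m i / r) ^ 2 else 0) := by
          intro a
          by_cases h1 : a = i
          · have : a ≠ j := fun h2 => hij (h1 ▸ h2)
            simp [h1, hij]
          · by_cases h2 : a = j
            · simp [h2, hij.symm, neg_div]
            · simp [h1, h2]
        simp_rw [e]
        rw [sum_add_distrib]
        simp only [Finset.sum_ite_eq', Finset.mem_univ, if_true]
        rw [div_pow, div_pow, ← add_div, add_comm, ← hr2, div_self (by positivity)]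
      · intro a
        have : ∑ b, ((if b = i then m j / r else 0) + (if b = j then - m i / r else 0)) * m b
            = 0 := by
          simp_rw [add_mul, ite_mul, zero_mul]
          rw [sum_add_distrib]
          simp only [Finset.sum_ite_eq', Finset.mem_univ, if_true]
          ring
        rw [this]; ring
  · set s : ℝ := ∑ a, (m a - n a) ^ 2 with hs
    have hpos : 0 < s := by
      obtain ⟨a, ha⟩ := Function.ne_iff.mp hmn
      have : 0 < (m a - n a) ^ 2 := by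
        have : m a - n a ≠ 0 := sub_ne_zero.mpr ha
        positivity
      exact lt_of_lt_of_le this
        (Finset.single_le_sum (f := fun a => (m a - n a) ^ 2) (fun b _ => sq_nonneg _)
          (Finset.mem_univ a))
    have hs2 : s = 2 * (1 - ∑ a, m a * n a) := by
      rw [hs]
      have : ∀ a, (m a - n a) ^ 2 = m a ^ 2 + n a ^ 2 - 2 * (m a * n a) := fun a => by ring
      simp_rw [this]
      rw [sum_sub_distrib, sum_add_distrib, hm, hn, ← mul_sum]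
      ring
    set r := Real.sqrt s with hr
    have hr0 : 0 < r := Real.sqrt_pos.mpr hpos
    have hr2 : r ^ 2 = s := Real.sq_sqrt hpos.le
    refine ⟨fun a => (m a - n a) / r, ?_, ?_⟩
    · simp_rw [div_pow]
      rw [← sum_div, ← hs, hr2, div_self hpos.ne']
    · intro a
      have : ∑ b, (m b - n b) / r * m b = (1 - ∑ a, m a * n a) / r := by
        have : ∀ b, (m b - n b) / r * m b = (m b ^ 2 - m b * n b) / r := fun b => by ring
        simp_rw [this]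
        rw [← sum_div, sum_sub_distrib, hm]
      rw [this]
      have : 2 * ((m a - n a) / r) * ((1 - ∑ a, m a * n a) / r)
          = (m a - n a) * (2 * (1 - ∑ a, m a * n a)) / r ^ 2 := by
        field_simp
      rw [this, hr2, ← hs2, mul_div_assoc, div_self hpos.ne']
      ring

/-- `Spin(9)` acts transitively on the unit sphere and preserves `q`. -/
theorem exists_isometry (hι : 2 ≤ Fintype.card ι) {x e : E} (hx : ‖x‖ = 1) (he : ‖e‖ = 1) :
    ∃ k : E ≃ₗᵢ[ℝ] E, k x = e ∧ ∀ y z, c.q (k y) (k z) = c.q y z := by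
  obtain ⟨w, hw, hw2⟩ := exists_move hι (c.sum_h_sq he) (c.sum_h_sq hx)
  have hy : ‖c.sv w e‖ = 1 := by rw [c.norm_sv hw, he]
  obtain ⟨v, hv, hv2⟩ := c.exists_sv hx hy (fun a => by rw [c.h_sv hw]; exact hw2 a)
  refine ⟨(c.svI hv).trans (c.svI hw), ?_, ?_⟩
  · simp only [LinearIsometryEquiv.coe_trans, Function.comp_apply, svI_apply]
    rw [hv2, sv_sv, hw, one_smul]
  · intro y z
    simp only [LinearIsometryEquiv.coe_trans, Function.comp_apply, svI_apply]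
    rw [c.q_sv hw, c.q_sv hv]

end Clif

end

end Pool.Agent.Work.MP_3b24f6_gt
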