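import Pool.Agent.Work.MP_3b24f6_gt.Model
import Pool.Agent.Work.MP_3b24f6_gt.OSpin

/-!
# The Cayley plane from a Clifford system: the vertical operator `Q_z` and its identities
-/

set_option autoImplicit false

open Finset
open scoped InnerProductSpace ContDiff

namespace Pool.Agent.Work.MP_3b24f6_gt

noncomputable section

namespace Clif

variable {E : Type*} [NormedAddCommGroup E] [InnerProductSpace ℝ E] {ι : Type} [Fintype ι]
  [DecidableEq ι] (c : Clif E ι)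

/-- The vertical operator: `Q z = |z|² - ∑ S_a z ⊗ S_a z`. -/
def Q (z : E) : E →L[ℝ] E :=
  ‖z‖ ^ 2 • ContinuousLinearMap.id ℝ E - ∑ a, (innerSL ℝ (c.S a z)).smulRight (c.S a z)

theorem Q_apply (z v : E) : c.Q z v = ‖z‖ ^ 2 • v - ∑ a, ⟪c.S a z, v⟫_ℝ • c.S a z := by
  simp [Q, ContinuousLinearMap.sum_apply]

/-- The metric operator. -/
def oA (z : E) : E →L[ℝ] E :=
  ContinuousLinearMap.id ℝ E - (1 + ‖z‖ ^ 2)⁻¹ • (innerSL ℝ z).smulRight z + c.Q z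

/-- Its inverse. -/
def oC (z : E) : E →L[ℝ] E :=
  ContinuousLinearMap.id ℝ E + (innerSL ℝ z).smulRight z - (1 + ‖z‖ ^ 2)⁻¹ • c.Q z

/-- The real inner product as a bilinear map. -/
def isl' : E →L[ℝ] E →L[ℝ] ℝ :=
  LinearMap.mkContinuous₂ (innerₗ E) 1 fun x y => by
    rw [one_mul]
    exact norm_inner_le_norm x y

theorem isl'_apply (x y : E) : isl' x y = ⟪x, y⟫_ℝ := rfl

/-- The Christoffel map. -/
def oG (z : E) : E →L[ℝ] E →L[ℝ] E :=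
  ((1 + ‖z‖ ^ 2)⁻¹ • innerSL ℝ z).smulRight ((innerSL ℝ z).smulRight z)
    - (3 : ℝ) • ((ContinuousLinearMap.smulRightL ℝ E E).flip z).comp isl'
    - (2 : ℝ) • (((ContinuousLinearMap.smulRightL ℝ E E).flip z).comp isl').comp (c.Q z)
    + ∑ a, ((innerSL ℝ (c.S a z)).smulRight (c.S a)
        + (ContinuousLinearMap.smulRightL ℝ E E (innerSL ℝ (c.S a z))).comp (c.S a))
    - (1 + ‖z‖ ^ 2)⁻¹ • ((innerSL ℝ z).smulRight (c.Q z)
        + (ContinuousLinearMap.smulRightL ℝ E E (innerSL ℝ z)).comp (c.Q z))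

/-- The volume density. -/
def orho (_ : Clif E ι) (z : E) : ℝ := uu z ^ (Fintype.card ι - 3)

/-- `cosh` of the distance. -/
def ochd (x y : E) : ℝ := Real.sqrt ((uu x * uu y - ⟪x, y⟫_ℝ) ^ 2 + c.q x y)

theorem oA_apply (z v : E) : c.oA z v
    = v - ((1 + ‖z‖ ^ 2)⁻¹ * ⟪z, v⟫_ℝ) • z + c.Q z v := by
  simp only [oA, ContinuousLinearMap.add_apply, ContinuousLinearMap.sub_apply,
    ContinuousLinearMap.smul_apply, ContinuousLinearMap.smulRight_apply, innerSL_apply_apply,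
    ContinuousLinearMap.id_apply, smul_smul]

theorem oC_apply (z v : E) : c.oC z v
    = v + ⟪z, v⟫_ℝ • z - (1 + ‖z‖ ^ 2)⁻¹ • c.Q z v := by
  simp only [oC, ContinuousLinearMap.add_apply, ContinuousLinearMap.sub_apply,
    ContinuousLinearMap.smul_apply, ContinuousLinearMap.smulRight_apply, innerSL_apply_apply,
    ContinuousLinearMap.id_apply]

theorem oG_apply (z v x : E) : c.oG z v x
    = ((1 + ‖z‖ ^ 2)⁻¹ * ⟪z, v⟫_ℝ * ⟪z, x⟫_ℝ - 3 * ⟪v, x⟫_ℝ - 2 * ⟪c.Q z v, x⟫_ℝ) • z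
      + ∑ a, (⟪c.S a z, v⟫_ℝ • c.S a x + ⟪c.S a z, x⟫_ℝ • c.S a v)
      - (1 + ‖z‖ ^ 2)⁻¹ • (⟪z, v⟫_ℝ • c.Q z x + ⟪z, x⟫_ℝ • c.Q z v) := by
  simp only [oG, ContinuousLinearMap.add_apply, ContinuousLinearMap.sub_apply,
    ContinuousLinearMap.smul_apply, ContinuousLinearMap.smulRight_apply, innerSL_apply_apply,
    ContinuousLinearMap.comp_apply, ContinuousLinearMap.flip_apply, isl'_apply,
    ContinuousLinearMap.smulRightL_apply_apply, smul_eq_mul, ContinuousLinearMap.sum_apply]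
  module

/-! ### basic identities -/

theorem SS (a : ι) (x : E) : c.S a (c.S a x) = x := by
  have h := c.rel a a x
  rw [if_pos rfl, ← two_smul ℝ] at h
  exact smul_right_injective E (two_ne_zero (α := ℝ)) h

theorem inner_S_comm (a : ι) (x y : E) : ⟪c.S a x, y⟫_ℝ = ⟪c.S a y, x⟫_ℝ := by
  rw [c.symm, real_inner_comm]

theorem inner_SS (a : ι) (x y : E) : ⟪c.S a x, c.S a y⟫_ℝ = ⟪x, y⟫_ℝ := by
  rw [c.symm, c.SS]

theorem norm_S (a : ι) (x : E) : ‖c.S a x‖ = ‖x‖ := by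
  have h := c.inner_SS a x x
  rw [real_inner_self_eq_norm_sq, real_inner_self_eq_norm_sq] at h
  exact (pow_left_inj₀ (norm_nonneg _) (norm_nonneg _) two_ne_zero).mp h

theorem inner_S_S_add (a b : ι) (x y : E) : ⟪c.S a x, c.S b y⟫_ℝ + ⟪c.S b x, c.S a y⟫_ℝ
    = if a = b then 2 * ⟪x, y⟫_ℝ else 0 := by
  rw [c.symm, c.symm, ← inner_add_right, c.rel]
  split_ifs
  · rw [inner_smul_right]
  · rw [inner_zero_right]

theorem inner_S_S_self (a b : ι) (x : E) : ⟪c.S a x, c.S b x⟫_ℝ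
    = if a = b then ‖x‖ ^ 2 else 0 := by
  have h := c.inner_S_S_add a b x x
  rw [real_inner_comm (c.S a x) (c.S b x), real_inner_self_eq_norm_sq] at h
  split_ifs at h ⊢ <;> linarith

theorem q_comm (x y : E) : c.q x y = c.q y x := by
  unfold q
  simp_rw [c.inner_S_comm _ x y]
  ring

theorem inner_Q (z u v : E) : ⟪c.Q z u, v⟫_ℝ
    = ‖z‖ ^ 2 * ⟪u, v⟫_ℝ - ∑ a, ⟪c.S a z, u⟫_ℝ * ⟪c.S a z, v⟫_ℝ := by
  rw [Q_apply, inner_sub_left, sum_inner, real_inner_smul_left]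
  simp_rw [real_inner_smul_left]

theorem Q_symm (z u v : E) : ⟪c.Q z u, v⟫_ℝ = ⟪u, c.Q z v⟫_ℝ := by
  rw [real_inner_comm (c.Q z v) u, inner_Q, inner_Q, real_inner_comm u v]
  simp_rw [mul_comm]

theorem inner_Q_self (z v : E) : ⟪c.Q z v, v⟫_ℝ = c.q z v := by
  rw [inner_Q, q, real_inner_self_eq_norm_sq]
  simp_rw [sq]

theorem norm_sv_h (x : E) : ‖c.sv (c.h x) x‖ ^ 2 = ‖x‖ ^ 6 := by
  have h0 : ∑ a, c.h x a ^ 2 = ‖x‖ ^ 4 := c.hopf x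
  rw [← real_inner_self_eq_norm_sq, inner_sv_sv, h0, real_inner_self_eq_norm_sq]
  ring

/-- `S_{h(x)} x = |x|² x`. -/
theorem sv_h (x : E) : c.sv (c.h x) x = ‖x‖ ^ 2 • x := by
  have h0 : ∑ a, c.h x a ^ 2 = ‖x‖ ^ 4 := c.hopf x
  have h1 : ⟪c.sv (c.h x) x, x⟫_ℝ = ‖x‖ ^ 4 := by
    rw [sv_apply, sum_inner, ← h0]
    refine sum_congr rfl fun a _ => ?_
    rw [real_inner_smul_left, sq]
    rfl
  have h2 : ‖c.sv (c.h x) x - ‖x‖ ^ 2 • x‖ ^ 2 = 0 := by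
    rw [norm_sub_sq_real, norm_sv_h, inner_smul_right, h1, norm_smul, Real.norm_eq_abs,
      abs_of_nonneg (by positivity)]
    ring
  exact sub_eq_zero.mp (norm_eq_zero.mp (pow_eq_zero_iff two_ne_zero |>.mp h2))

theorem sum_h_S (x : E) : ∑ a, ⟪c.S a x, x⟫_ℝ • c.S a x = ‖x‖ ^ 2 • x := by
  rw [← c.sv_h x, sv_apply]
  rfl

/-- First polarisation of `∑ ⟨S_a x, x⟩ S_a x = |x|² x`. -/
theorem polar (x y : E) : ∑ a, (⟪c.S a x, x⟫_ℝ • c.S a y + (2 * ⟪c.S a x, y⟫_ℝ) • c.S a x)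
    = ‖x‖ ^ 2 • y + (2 * ⟪x, y⟫_ℝ) • x := by
  have h1 := c.sum_h_S (x + y)
  have h2 := c.sum_h_S (x - y)
  have h3 := c.sum_h_S y
  have e : ∑ a, ⟪c.S a (x + y), x + y⟫_ℝ • c.S a (x + y)
      - ∑ a, ⟪c.S a (x - y), x - y⟫_ℝ • c.S a (x - y)
      = (2 : ℝ) • ∑ a, (⟪c.S a x, x⟫_ℝ • c.S a y + (2 * ⟪c.S a x, y⟫_ℝ) • c.S a x)
        + (2 : ℝ) • ∑ a, ⟪c.S a y, y⟫_ℝ • c.S a y := by
    rw [← sum_sub_distrib, smul_sum, smul_sum, ← sum_add_distrib]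
    refine sum_congr rfl fun a _ => ?_
    simp only [map_add, map_sub, inner_add_left, inner_add_right, inner_sub_left,
      inner_sub_right, c.inner_S_comm a y x]
    module
  rw [h1, h2, h3, norm_add_sq_real, norm_sub_sq_real] at e
  have e2 : (2 : ℝ) • ∑ a, (⟪c.S a x, x⟫_ℝ • c.S a y + (2 * ⟪c.S a x, y⟫_ℝ) • c.S a x)
      = (2 : ℝ) • (‖x‖ ^ 2 • y + (2 * ⟪x, y⟫_ℝ) • x) := by
    rw [← sub_eq_iff_eq_add] at e
    rw [← e]
    module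
  exact smul_right_injective E (two_ne_zero (α := ℝ)) e2

/-- Full polarisation. -/
theorem polar3 (x y z : E) : ∑ a, (⟪c.S a x, y⟫_ℝ • c.S a z + ⟪c.S a y, z⟫_ℝ • c.S a x
      + ⟪c.S a z, x⟫_ℝ • c.S a y)
    = ⟪x, y⟫_ℝ • z + ⟪y, z⟫_ℝ • x + ⟪z, x⟫_ℝ • y := by
  have h1 := c.polar (x + y) z
  have h2 := c.polar x z
  have h3 := c.polar y z
  have e : ∑ a, (⟪c.S a (x + y), x + y⟫_ℝ • c.S a z + (2 * ⟪c.S a (x + y), z⟫_ℝ) • c.S a (x + y))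
      - ∑ a, (⟪c.S a x, x⟫_ℝ • c.S a z + (2 * ⟪c.S a x, z⟫_ℝ) • c.S a x)
      - ∑ a, (⟪c.S a y, y⟫_ℝ • c.S a z + (2 * ⟪c.S a y, z⟫_ℝ) • c.S a y)
      = (2 : ℝ) • ∑ a, (⟪c.S a x, y⟫_ℝ • c.S a z + ⟪c.S a y, z⟫_ℝ • c.S a x
      + ⟪c.S a z, x⟫_ℝ • c.S a y) := by
    rw [← sum_sub_distrib, ← sum_sub_distrib, smul_sum]
    refine sum_congr rfl fun a _ => ?_
    simp only [map_add, inner_add_left, inner_add_right, c.inner_S_comm a y x,
      c.inner_S_comm a z x]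
    module
  rw [h1, h2, h3, norm_add_sq_real] at e
  have e2 : (2 : ℝ) • ∑ a, (⟪c.S a x, y⟫_ℝ • c.S a z + ⟪c.S a y, z⟫_ℝ • c.S a x
      + ⟪c.S a z, x⟫_ℝ • c.S a y)
      = (2 : ℝ) • (⟪x, y⟫_ℝ • z + ⟪y, z⟫_ℝ • x + ⟪z, x⟫_ℝ • y) := by
    rw [← e, real_inner_comm x z]
    simp only [inner_add_left]
    module
  exact smul_right_injective E (two_ne_zero (α := ℝ)) e2

/-! ### the operator `Q` -/

theorem Q_self (z : E) : c.Q z z = 0 := by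
  rw [Q_apply, c.sum_h_S, sub_self]

theorem Q_S (a : ι) (z : E) : c.Q z (c.S a z) = 0 := by
  rw [Q_apply]
  simp_rw [c.inner_S_S_self]
  simp

theorem QQ (z v : E) : c.Q z (c.Q z v) = ‖z‖ ^ 2 • c.Q z v := by
  conv_lhs => rw [c.Q_apply z v]
  rw [map_sub, map_smul, map_sum]
  simp_rw [map_smul, Q_S]
  simp

theorem inner_z_Q (z v : E) : ⟪z, c.Q z v⟫_ℝ = 0 := by
  rw [← Q_symm, Q_self, inner_zero_left]

theorem inner_S_Q (a : ι) (z v : E) : ⟪c.S a z, c.Q z v⟫_ℝ = 0 := by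
  rw [← Q_symm, Q_S, inner_zero_left]

theorem norm_Q_sq (z v : E) : ‖c.Q z v‖ ^ 2 = ‖z‖ ^ 2 * c.q z v := by
  rw [← real_inner_self_eq_norm_sq, Q_symm, QQ, inner_smul_right, real_inner_comm, inner_Q_self]

theorem q_nonneg (z v : E) : 0 ≤ c.q z v := by
  rcases eq_or_ne z 0 with rfl | hz
  · simp [q]
  · have h := c.norm_Q_sq z v
    have h1 : 0 < ‖z‖ ^ 2 := by positivity
    by_contra h2
    push Not at h2
    have := mul_neg_of_pos_of_neg h1 h2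
    linarith [sq_nonneg ‖c.Q z v‖]

theorem sum_S_le (z v : E) : ⟪z, v⟫_ℝ ^ 2 ≤ ∑ a, ⟪c.S a z, v⟫_ℝ ^ 2 := by
  rcases eq_or_ne z 0 with rfl | hz
  · simp
  · have h0 : ∑ a, c.h z a ^ 2 = ‖z‖ ^ 4 := c.hopf z
    have h1 : ‖z‖ ^ 2 * ⟪z, v⟫_ℝ = ∑ a, c.h z a * ⟪c.S a z, v⟫_ℝ := by
      rw [← real_inner_smul_left, ← c.sum_h_S, sum_inner]
      refine sum_congr rfl fun a _ => ?_
      rw [real_inner_smul_left]
      rfl
    have h2 := Finset.sum_mul_sq_le_sq_mul_sq univ (c.h z) (fun a => ⟪c.S a z, v⟫_ℝ)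
    rw [h0, ← h1, mul_pow] at h2
    have h3 : 0 < ‖z‖ ^ 4 := by positivity
    have h4 : (‖z‖ ^ 2) ^ 2 = ‖z‖ ^ 4 := by ring
    rw [h4] at h2
    exact le_of_mul_le_mul_left h2 h3

theorem q_le (z v : E) : c.q z v ≤ ‖z‖ ^ 2 * ‖v‖ ^ 2 - ⟪z, v⟫_ℝ ^ 2 := by
  have := c.sum_S_le z v
  unfold q
  linarith

theorem Q_zero : c.Q 0 = 0 := by
  ext v
  simp [Q_apply]

theorem Q_smul (t : ℝ) (z : E) : c.Q (t • z) = t ^ 2 • c.Q z := by
  ext v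
  rw [Q_apply, ContinuousLinearMap.smul_apply, Q_apply, norm_smul, Real.norm_eq_abs, mul_pow,
    sq_abs, smul_sub, smul_sum, smul_smul]
  congr 1
  refine sum_congr rfl fun a _ => ?_
  rw [map_smul, real_inner_smul_left]
  module

theorem q_smul (t : ℝ) (z v : E) : c.q (t • z) v = t ^ 2 * c.q z v := by
  rw [← inner_Q_self, Q_smul, ContinuousLinearMap.smul_apply, real_inner_smul_left, inner_Q_self]

theorem contDiff_Q : ContDiff ℝ ∞ c.Q := by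
  have h : c.Q = fun z => ‖z‖ ^ 2 • ContinuousLinearMap.id ℝ E
      - ∑ a, (innerSL ℝ (c.S a z)).smulRight (c.S a z) := rfl
  rw [h]
  refine ((contDiff_norm_sq ℝ).smul contDiff_const).sub (ContDiff.sum fun a _ => ?_)
  exact ((innerSL ℝ).contDiff.comp (c.S a).contDiff).smulRight (c.S a).contDiff

end Clif

end

end Pool.Agent.Work.MP_3b24f6_gt
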