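import Pool.Agent.Work.MP_3b24f6_gt.OBasic
import Pool.Agent.Work.MP_3b24f6_gt.Calc

/-!
# The Cayley plane: symmetry, metric compatibility and density of the Christoffel map
-/

set_option autoImplicit false

open Finset
open scoped InnerProductSpace ContDiff

namespace Pool.Agent.Work.MP_3b24f6_gt

noncomputable section

namespace Clif

variable {E : Type*} [NormedAddCommGroup E] [InnerProductSpace ℝ E] {ι : Type} [Fintype ι]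
  [DecidableEq ι] (c : Clif E ι)

theorem oG_symm (z v x : E) : c.oG z v x = c.oG z x v := by
  rw [oG_apply, oG_apply]
  have h1 : ⟪c.Q z x, v⟫_ℝ = ⟪c.Q z v, x⟫_ℝ := by
    rw [Q_symm, real_inner_comm]
  have h2 : ∑ a, (⟪c.S a z, x⟫_ℝ • c.S a v + ⟪c.S a z, v⟫_ℝ • c.S a x)
      = ∑ a, (⟪c.S a z, v⟫_ℝ • c.S a x + ⟪c.S a z, x⟫_ℝ • c.S a v) :=
    sum_congr rfl fun a _ => add_comm _ _
  rw [h1, h2, real_inner_comm x v]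
  module

/-- The symmetric part of the Christoffel map. -/
def oW (z x u : E) : E := ∑ a, (⟪c.S a z, x⟫_ℝ • c.S a u + ⟪c.S a z, u⟫_ℝ • c.S a x)

theorem oW_eq (z x u : E) : c.oW z x u
    = ⟪x, u⟫_ℝ • z + ⟪z, u⟫_ℝ • x + ⟪z, x⟫_ℝ • u - ∑ a, ⟪c.S a x, u⟫_ℝ • c.S a z := by
  have h := c.polar3 z x u
  have e : ∑ a, (⟪c.S a z, x⟫_ℝ • c.S a u + ⟪c.S a x, u⟫_ℝ • c.S a z
      + ⟪c.S a u, z⟫_ℝ • c.S a x) = c.oW z x u + ∑ a, ⟪c.S a x, u⟫_ℝ • c.S a z := by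
    rw [oW, ← sum_add_distrib]
    refine sum_congr rfl fun a _ => ?_
    rw [c.inner_S_comm a u z]
    module
  rw [e] at h
  rw [real_inner_comm u z] at *
  rw [← eq_sub_iff_add_eq] at h
  rw [h]
  module

theorem Q_oW (z x u : E) : c.Q z (c.oW z x u) = ⟪z, u⟫_ℝ • c.Q z x + ⟪z, x⟫_ℝ • c.Q z u := by
  rw [oW_eq, map_sub, map_sum, map_add, map_add, map_smul, map_smul, map_smul, Q_self]
  simp_rw [map_smul, Q_S]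
  simp

theorem inner_z_oW (z x u : E) : ⟪z, c.oW z x u⟫_ℝ
    = 2 * (‖z‖ ^ 2 * ⟪x, u⟫_ℝ - ⟪c.Q z x, u⟫_ℝ) := by
  rw [inner_Q, oW, inner_sum]
  have : ∀ a, ⟪z, ⟪c.S a z, x⟫_ℝ • c.S a u + ⟪c.S a z, u⟫_ℝ • c.S a x⟫_ℝ
      = 2 * (⟪c.S a z, x⟫_ℝ * ⟪c.S a z, u⟫_ℝ) := by
    intro a
    rw [inner_add_right, inner_smul_right, inner_smul_right, ← c.symm, ← c.symm]
    ring
  simp_rw [this]
  rw [← mul_sum]
  ring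

/-- `A Γ(x,u)`. -/
theorem oA_oG (z x u : E) : c.oA z (c.oG z x u)
    = c.oW z x u + ((1 + ‖z‖ ^ 2)⁻¹ ^ 2 * ⟪z, x⟫_ℝ * ⟪z, u⟫_ℝ - (1 + ‖z‖ ^ 2)⁻¹ * ⟪x, u⟫_ℝ
      - 2 * ⟪x, u⟫_ℝ) • z := by
  have hU : (1 + ‖z‖ ^ 2 : ℝ) ≠ 0 := by positivity
  have hG : c.oG z x u = ((1 + ‖z‖ ^ 2)⁻¹ * ⟪z, x⟫_ℝ * ⟪z, u⟫_ℝ - 3 * ⟪x, u⟫_ℝ
      - 2 * ⟪c.Q z x, u⟫_ℝ) • z + c.oW z x u
      - (1 + ‖z‖ ^ 2)⁻¹ • (⟪z, x⟫_ℝ • c.Q z u + ⟪z, u⟫_ℝ • c.Q z x) := oG_apply c z x u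
  have h1 : ⟪z, c.oG z x u⟫_ℝ = ‖z‖ ^ 2 * ((1 + ‖z‖ ^ 2)⁻¹ * ⟪z, x⟫_ℝ * ⟪z, u⟫_ℝ - ⟪x, u⟫_ℝ)
      - 2 * (1 + ‖z‖ ^ 2) * ⟪c.Q z x, u⟫_ℝ := by
    rw [hG, inner_sub_right, inner_add_right, inner_smul_right, inner_smul_right,
      inner_add_right, inner_smul_right, inner_smul_right, inner_z_Q, inner_z_Q, inner_z_oW,
      real_inner_self_eq_norm_sq]
    ring
  have h2 : c.Q z (c.oG z x u) = (1 + ‖z‖ ^ 2)⁻¹ • (⟪z, x⟫_ℝ • c.Q z u + ⟪z, u⟫_ℝ • c.Q z x) := by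
    rw [hG, map_sub, map_add, map_smul, map_smul, map_add, map_smul, map_smul, QQ, QQ, Q_self,
      Q_oW]
    have : (⟪z, u⟫_ℝ • c.Q z x + ⟪z, x⟫_ℝ • c.Q z u) - (1 + ‖z‖ ^ 2)⁻¹ •
        (⟪z, x⟫_ℝ • ‖z‖ ^ 2 • c.Q z u + ⟪z, u⟫_ℝ • ‖z‖ ^ 2 • c.Q z x)
        = (1 - (1 + ‖z‖ ^ 2)⁻¹ * ‖z‖ ^ 2) • (⟪z, x⟫_ℝ • c.Q z u + ⟪z, u⟫_ℝ • c.Q z x) := by
      module
    have e : 1 - (1 + ‖z‖ ^ 2)⁻¹ * ‖z‖ ^ 2 = (1 + ‖z‖ ^ 2)⁻¹ := by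
      field_simp
      ring
    rw [smul_zero, zero_add, this, e]
  rw [oA_apply, h1, h2, hG]
  have e : (1 + ‖z‖ ^ 2)⁻¹ * (‖z‖ ^ 2 * ((1 + ‖z‖ ^ 2)⁻¹ * ⟪z, x⟫_ℝ * ⟪z, u⟫_ℝ - ⟪x, u⟫_ℝ)
      - 2 * (1 + ‖z‖ ^ 2) * ⟪c.Q z x, u⟫_ℝ)
      = ((1 + ‖z‖ ^ 2)⁻¹ * ⟪z, x⟫_ℝ * ⟪z, u⟫_ℝ - 3 * ⟪x, u⟫_ℝ - 2 * ⟪c.Q z x, u⟫_ℝ)
        - ((1 + ‖z‖ ^ 2)⁻¹ ^ 2 * ⟪z, x⟫_ℝ * ⟪z, u⟫_ℝ - (1 + ‖z‖ ^ 2)⁻¹ * ⟪x, u⟫_ℝ
      - 2 * ⟪x, u⟫_ℝ) := by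
    field_simp
    ring
  rw [e]
  module

theorem inner_oW (z x u v : E) : ⟪c.oW z x u, v⟫_ℝ
    = ∑ a, (⟪c.S a z, x⟫_ℝ * ⟪c.S a u, v⟫_ℝ + ⟪c.S a z, u⟫_ℝ * ⟪c.S a x, v⟫_ℝ) := by
  rw [oW, sum_inner]
  refine sum_congr rfl fun a _ => ?_
  rw [inner_add_left, real_inner_smul_left, real_inner_smul_left]

theorem contDiff_oA : ContDiff ℝ ∞ c.oA := by
  have h : c.oA = fun z => ContinuousLinearMap.id ℝ E
      - (1 + ‖z‖ ^ 2)⁻¹ • (innerSL ℝ z).smulRight z + c.Q z := rfl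
  rw [h]
  have h1 : ContDiff ℝ ∞ (fun z : E => (1 + ‖z‖ ^ 2)⁻¹) :=
    (contDiff_const.add (contDiff_norm_sq ℝ)).inv fun z => by positivity
  have h2 : ContDiff ℝ ∞ (fun z : E => (innerSL ℝ z).smulRight z) :=
    ((innerSL ℝ).contDiff.comp contDiff_id).smulRight contDiff_id
  exact (contDiff_const.sub (h1.smul h2)).add c.contDiff_Q

theorem inner_oA (z u v : E) : ⟪c.oA z u, v⟫_ℝ = ⟪u, v⟫_ℝ
    - (1 + ‖z‖ ^ 2)⁻¹ * ⟪z, u⟫_ℝ * ⟪z, v⟫_ℝ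
    + (‖z‖ ^ 2 * ⟪u, v⟫_ℝ - ∑ a, ⟪c.S a z, u⟫_ℝ * ⟪c.S a z, v⟫_ℝ) := by
  rw [oA_apply, inner_add_left, inner_sub_left, real_inner_smul_left, inner_Q]

theorem hasFDerivAt_inner_oA (z u v : E) : HasFDerivAt (fun z => ⟪c.oA z u, v⟫_ℝ)
    (((2 * (1 + ‖z‖ ^ 2)⁻¹ ^ 2 * ⟪z, u⟫_ℝ * ⟪z, v⟫_ℝ + 2 * ⟪u, v⟫_ℝ) • innerSL ℝ z
      - (1 + ‖z‖ ^ 2)⁻¹ • (⟪z, v⟫_ℝ • innerSL ℝ u + ⟪z, u⟫_ℝ • innerSL ℝ v))
      - ∑ a, (⟪c.S a z, v⟫_ℝ • innerSL ℝ (c.S a u) + ⟪c.S a z, u⟫_ℝ • innerSL ℝ (c.S a v))) z := by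
  have hf : (fun z => ⟪c.oA z u, v⟫_ℝ) = fun z => ⟪u, v⟫_ℝ
    - (1 + ‖z‖ ^ 2)⁻¹ * ⟪z, u⟫_ℝ * ⟪z, v⟫_ℝ
    + (‖z‖ ^ 2 * ⟪u, v⟫_ℝ - ∑ a, ⟪c.S a z, u⟫_ℝ * ⟪c.S a z, v⟫_ℝ) := by
    funext z
    exact c.inner_oA z u v
  rw [hf]
  have hn : HasFDerivAt (fun z : E => ‖z‖ ^ 2) ((2 : ℝ) • innerSL ℝ z) z := by
    refine (hasStrictFDerivAt_norm_sq z).hasFDerivAt.congr_fderiv ?_
    ext y; simp [two_smul]
  have hi : ∀ w : E, HasFDerivAt (fun z : E => ⟪z, w⟫_ℝ) (innerSL ℝ w) z := by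
    intro w
    have := (innerSL ℝ w).hasFDerivAt (x := z)
    refine this.congr_of_eventuallyEq (Filter.Eventually.of_forall fun y => ?_)
    exact real_inner_comm _ _
  have hS : ∀ a, ∀ w : E, HasFDerivAt (fun z : E => ⟪c.S a z, w⟫_ℝ) (innerSL ℝ (c.S a w)) z := by
    intro a w
    refine (hi (c.S a w)).congr_of_eventuallyEq (Filter.Eventually.of_forall fun y => ?_)
    exact c.symm a y w
  have hU : HasFDerivAt (fun z : E => (1 + ‖z‖ ^ 2)⁻¹)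
      (-(2 * ((1 + ‖z‖ ^ 2)⁻¹) ^ 2) • innerSL ℝ z) z := by
    have h := (hasDerivAt_inv (show (1 + ‖z‖ ^ 2 : ℝ) ≠ 0 by positivity)).comp_hasFDerivAt z
      (hn.const_add 1)
    refine h.congr_fderiv ?_
    ext y
    simp only [smul_apply, innerSL_apply_apply, smul_eq_mul]
    rw [inv_pow]
    ring
  have h1 := (hU.fun_mul (hi u)).fun_mul (hi v)
  have h2 := hn.mul_const (⟪u, v⟫_ℝ)
  have h3 : HasFDerivAt (fun z : E => ∑ a, ⟪c.S a z, u⟫_ℝ * ⟪c.S a z, v⟫_ℝ)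
      (∑ a, (⟪c.S a z, u⟫_ℝ • innerSL ℝ (c.S a v) + ⟪c.S a z, v⟫_ℝ • innerSL ℝ (c.S a u))) z :=
    HasFDerivAt.fun_sum fun a _ => (hS a u).fun_mul (hS a v)
  refine ((h1.const_sub (⟪u, v⟫_ℝ)).add (h2.sub h3)).congr_fderiv ?_
  ext x
  simp only [add_apply, sub_apply,
    neg_apply, smul_apply, innerSL_apply_apply,
    smul_eq_mul, _root_.sum_apply]
  have e : ∑ a, (⟪c.S a z, v⟫_ℝ * ⟪c.S a u, x⟫_ℝ + ⟪c.S a z, u⟫_ℝ * ⟪c.S a v, x⟫_ℝ)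
      = ∑ a, (⟪c.S a z, u⟫_ℝ * ⟪c.S a v, x⟫_ℝ + ⟪c.S a z, v⟫_ℝ * ⟪c.S a u, x⟫_ℝ) :=
    sum_congr rfl fun a _ => add_comm _ _
  rw [e]
  ring

/-- Metric compatibility. -/
theorem oG_compat (z x u v : E) : ⟪fderiv ℝ c.oA z x u, v⟫_ℝ
    = ⟪c.oA z (c.oG z x u), v⟫_ℝ + ⟪c.oA z u, c.oG z x v⟫_ℝ := by
  have hd : DifferentiableAt ℝ c.oA z := (c.contDiff_oA.differentiable (by simp)) z
  have h1 : ⟪fderiv ℝ c.oA z x u, v⟫_ℝ = fderiv ℝ (fun z => ⟪c.oA z u, v⟫_ℝ) z x := by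
    have h := ((hd.hasFDerivAt.clm_apply (hasFDerivAt_const u z)).inner ℝ
      (hasFDerivAt_const v z)).fderiv
    rw [h]
    simp
  have h2 : ⟪c.oA z u, c.oG z x v⟫_ℝ = ⟪c.oA z (c.oG z x v), u⟫_ℝ := by
    rw [inner_oA, inner_oA, real_inner_comm u (c.oG z x v)]
    have : ∑ a, ⟪c.S a z, c.oG z x v⟫_ℝ * ⟪c.S a z, u⟫_ℝ
        = ∑ a, ⟪c.S a z, u⟫_ℝ * ⟪c.S a z, c.oG z x v⟫_ℝ := sum_congr rfl fun a _ => mul_comm _ _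
    rw [this]
    ring
  have hp : ⟪∑ a, (⟪c.S a z, x⟫_ℝ • c.S a u + ⟪c.S a x, u⟫_ℝ • c.S a z
      + ⟪c.S a u, z⟫_ℝ • c.S a x), v⟫_ℝ
      = ⟪⟪z, x⟫_ℝ • u + ⟪x, u⟫_ℝ • z + ⟪u, z⟫_ℝ • x, v⟫_ℝ := by
    rw [c.polar3 z x u]
  rw [sum_inner] at hp
  simp only [inner_add_left, real_inner_smul_left, sum_add_distrib] at hp
  rw [h1, (c.hasFDerivAt_inner_oA z u v).fderiv, h2, oA_oG, oA_oG, inner_add_left,
    inner_add_left, inner_oW, inner_oW, real_inner_smul_left, real_inner_smul_left]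
  simp only [add_apply, sub_apply,
    smul_apply, innerSL_apply_apply,
    smul_eq_mul, _root_.sum_apply, sum_add_distrib]
  have e1 : ∑ a, ⟪c.S a z, v⟫_ℝ * ⟪c.S a u, x⟫_ℝ = ∑ a, ⟪c.S a x, u⟫_ℝ * ⟪c.S a z, v⟫_ℝ :=
    sum_congr rfl fun a _ => by rw [c.inner_S_comm a u x, mul_comm]
  have e2 : ∑ a, ⟪c.S a z, u⟫_ℝ * ⟪c.S a v, x⟫_ℝ = ∑ a, ⟪c.S a u, z⟫_ℝ * ⟪c.S a x, v⟫_ℝ :=
    sum_congr rfl fun a _ => by rw [c.inner_S_comm a z u, c.inner_S_comm a v x]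
  have e3 : ∑ a, ⟪c.S a z, x⟫_ℝ * ⟪c.S a v, u⟫_ℝ = ∑ a, ⟪c.S a z, x⟫_ℝ * ⟪c.S a u, v⟫_ℝ :=
    sum_congr rfl fun a _ => by rw [c.inner_S_comm a v u]
  have e4 : ∑ a, ⟪c.S a z, v⟫_ℝ * ⟪c.S a x, u⟫_ℝ = ∑ a, ⟪c.S a x, u⟫_ℝ * ⟪c.S a z, v⟫_ℝ :=
    sum_congr rfl fun a _ => mul_comm _ _
  have e5 : ∑ a, ⟪c.S a z, u⟫_ℝ * ⟪c.S a x, v⟫_ℝ = ∑ a, ⟪c.S a u, z⟫_ℝ * ⟪c.S a x, v⟫_ℝ :=
    sum_congr rfl fun a _ => by rw [c.inner_S_comm a z u]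
  rw [e1, e2, e3, e4, e5, real_inner_comm x u, real_inner_comm x v]
  rw [real_inner_comm z u] at hp
  linear_combination (-2) * hp

section trace

variable [FiniteDimensional ℝ E]

theorem tr_S (hι : 2 ≤ Fintype.card ι) (a : ι) : tr (c.S a) = 0 := by
  obtain ⟨b, hb⟩ : ∃ b, b ≠ a := by
    have : Nontrivial ι := Fintype.one_lt_card_iff_nontrivial.mp (by omega)
    exact exists_ne a
  have h1 : ∀ x, c.S a x = - c.S b ((c.S a) (c.S b x)) := by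
    intro x
    have := c.rel a b (x)
    rw [if_neg (fun h => hb h.symm)] at this
    have h2 : c.S a (c.S b x) = - c.S b (c.S a x) := eq_neg_of_add_eq_zero_left this
    rw [h2, map_neg, neg_neg, c.SS]
  have h2 : tr (c.S a) = - tr ((c.S b).comp ((c.S a).comp (c.S b))) := by
    rw [← tr_neg]
    congr 1
    ext x
    exact h1 x
  have h3 : tr ((c.S b).comp ((c.S a).comp (c.S b))) = tr (c.S a) := by
    rw [tr_comp_comm]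
    congr 1
    ext x
    simp [c.SS]
  linarith

theorem tr_id' : tr (ContinuousLinearMap.id ℝ E) = Module.finrank ℝ E := by
  exact LinearMap.trace_id ℝ E

theorem tr_sum' {κ : Type*} (s : Finset κ) (f : κ → E →L[ℝ] E) :
    tr (∑ a ∈ s, f a) = ∑ a ∈ s, tr (f a) := by
  simp [tr]

theorem tr_Q (z : E) : tr (c.Q z) = (Module.finrank ℝ E - Fintype.card ι) * ‖z‖ ^ 2 := by
  rw [Q, tr_sub, tr_smul, tr_id', tr_sum']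
  simp_rw [tr_smulRight, innerSL_apply_apply, real_inner_self_eq_norm_sq, c.norm_S]
  simp
  ring

theorem tr_oG (hι : 2 ≤ Fintype.card ι) (hE : Module.finrank ℝ E = 2 * Fintype.card ι - 2)
    (z x : E) : tr (c.oG z x) = (Fintype.card ι - 3) * ⟪z, x⟫_ℝ / (1 + ‖z‖ ^ 2) := by
  have hE' : (Module.finrank ℝ E : ℝ) = 2 * Fintype.card ι - 2 := by
    rw [hE, Nat.cast_sub (by omega)]; push_cast; ring
  have h : c.oG z x = (innerSL ℝ (((1 + ‖z‖ ^ 2)⁻¹ * ⟪z, x⟫_ℝ) • z - (3 : ℝ) • x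
        - (2 : ℝ) • c.Q z x)).smulRight z
      + ∑ a, (⟪c.S a z, x⟫_ℝ • c.S a + (innerSL ℝ (c.S a z)).smulRight (c.S a x))
      - (1 + ‖z‖ ^ 2)⁻¹ • (⟪z, x⟫_ℝ • c.Q z + (innerSL ℝ z).smulRight (c.Q z x)) := by
    ext v
    rw [oG_apply]
    simp only [add_apply, sub_apply,
      smul_apply, ContinuousLinearMap.smulRight_apply, innerSL_apply_apply,
      _root_.sum_apply, inner_sub_left, real_inner_smul_left, mul_assoc]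
  rw [h, tr_sub, tr_add, tr_smulRight, tr_sum', tr_smul, tr_add, tr_smul, tr_smulRight, tr_Q]
  simp_rw [tr_add, tr_smul, tr_smulRight, c.tr_S hι, innerSL_apply_apply, c.inner_SS]
  rw [inner_sub_left, inner_sub_left, real_inner_smul_left, real_inner_smul_left,
    real_inner_smul_left, real_inner_self_eq_norm_sq, real_inner_comm z (c.Q z x), inner_z_Q,
    real_inner_comm z x, hE']
  simp only [mul_zero, zero_add, sum_const, card_univ, nsmul_eq_mul, sub_zero, add_zero]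
  have hU : (1 + ‖z‖ ^ 2 : ℝ) ≠ 0 := by positivity
  field_simp
  ring

theorem orho_deriv (hι : 3 ≤ Fintype.card ι) (hE : Module.finrank ℝ E = 2 * Fintype.card ι - 2)
    (z x : E) : fderiv ℝ c.orho z x = c.orho z * tr (c.oG z x) := by
  rw [c.tr_oG (by omega) hE]
  have hn : HasFDerivAt (fun z : E => 1 + ‖z‖ ^ 2) ((2 : ℝ) • innerSL ℝ z) z := by
    refine ((hasStrictFDerivAt_norm_sq z).hasFDerivAt.const_add 1).congr_fderiv ?_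
    ext y; simp [two_smul]
  have hpos : (0 : ℝ) < 1 + ‖z‖ ^ 2 := by positivity
  have hu : HasFDerivAt (fun z : E => uu z) ((uu z)⁻¹ • innerSL ℝ z) z := by
    have := hn.sqrt hpos.ne'
    refine this.congr_fderiv ?_
    ext y
    simp only [smul_apply, innerSL_apply_apply, smul_eq_mul, uu]
    have : Real.sqrt (1 + ‖z‖ ^ 2) ≠ 0 := (Real.sqrt_pos.mpr hpos).ne'
    field_simp
  have hu0 : 0 < uu z := Real.sqrt_pos.mpr hpos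
  have huu : uu z ^ 2 = 1 + ‖z‖ ^ 2 := Real.sq_sqrt hpos.le
  have hp := hu.pow (Fintype.card ι - 3)
  have hr : c.orho = fun z => uu z ^ (Fintype.card ι - 3) := rfl
  rw [hr, hp.fderiv]
  simp only [smul_apply, innerSL_apply_apply, smul_eq_mul]
  rw [← huu]
  obtain ⟨k, hk⟩ : ∃ k, Fintype.card ι = k + 3 := ⟨Fintype.card ι - 3, by omega⟩
  have hk' : (Fintype.card ι : ℝ) - 3 = k := by rw [hk]; push_cast; ring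
  have hk2 : Fintype.card ι - 3 = k := by omega
  rw [hk', hk2]
  rcases Nat.eq_zero_or_pos k with h0 | h0
  · subst h0; simp
  · obtain ⟨j, rfl⟩ : ∃ j, k = j + 1 := ⟨k - 1, by omega⟩
    simp only [Nat.add_sub_cancel, nsmul_eq_mul]
    rw [pow_succ]
    field_simp

end trace

end Clif

end

end Pool.Agent.Work.MP_3b24f6_gt
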