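import Pool.Agent.Work.MP_3b24f6_gt.OSpin

set_option autoImplicit false

open Finset
open scoped InnerProductSpace

namespace Pool.Agent.Work.MP_3b24f6_gt

noncomputable section

namespace OInst

/-- The index permutation of the operator `S_a`: `j ↦ j xor (8 + a)` for `a < 8`, identity for
`a = 8`. -/
def pm (a : Fin 9) (j : Fin 16) : Fin 16 :=
  if a.val = 8 then j else ⟨(j.val ^^^ (8 + a.val)) % 16, Nat.mod_lt _ (by norm_num)⟩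

/-- Bit masks of the minus signs (octonion multiplication table). -/
def mask (a : Fin 9) : ℕ :=
  match a.val with
  | 0 => 0
  | 1 => 38250
  | 2 => 14790
  | 3 => 21420
  | 4 => 57630
  | 5 => 35700
  | 6 => 10200
  | 7 => 19890
  | _ => 65280

/-- Is the sign of entry `j` of `S_a` negative? -/
def ng (a : Fin 9) (j : Fin 16) : Bool := (mask a).testBit j.val

theorem pm_pm : ∀ a j, pm a (pm a j) = j := by decide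

theorem ng_pm : ∀ a j, ng a (pm a j) = ng a j := by decide

theorem pm_comm : ∀ a b, a ≠ b → ∀ j, pm b (pm a j) = pm a (pm b j) := by decide

theorem ng_comm : ∀ a b, a ≠ b → ∀ j,
    xor (ng a j) (ng b (pm a j)) = !(xor (ng b j) (ng a (pm b j))) := by decide

/-- Signs. -/
def ep (b : Bool) : ℝ := if b then -1 else 1

theorem ep_mul (a b : Bool) : ep a * ep b = ep (xor a b) := by
  cases a <;> cases b <;> simp [ep]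

theorem ep_not (a : Bool) : ep (!a) = - ep a := by
  cases a <;> simp [ep]

theorem ep_self (a : Bool) : ep a * ep a = 1 := by
  cases a <;> simp [ep]

/-- Linear version of `S_a`. -/
def SL (a : Fin 9) : EuclideanSpace ℝ (Fin 16) →ₗ[ℝ] EuclideanSpace ℝ (Fin 16) where
  toFun x := WithLp.toLp 2 (fun j => ep (ng a j) * x (pm a j))
  map_add' x y := by
    ext j
    simp only [PiLp.add_apply]
    ring
  map_smul' r x := by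
    ext j
    simp only [PiLp.smul_apply, smul_eq_mul, RingHom.id_apply]
    ring

/-- The nine operators on `ℝ^16`. -/
def S (a : Fin 9) : EuclideanSpace ℝ (Fin 16) →L[ℝ] EuclideanSpace ℝ (Fin 16) :=
  LinearMap.toContinuousLinearMap (SL a)

theorem S_apply (a : Fin 9) (x : EuclideanSpace ℝ (Fin 16)) (j : Fin 16) :
    S a x j = ep (ng a j) * x (pm a j) := rfl

theorem inner_eq (x y : EuclideanSpace ℝ (Fin 16)) : ⟪x, y⟫_ℝ = ∑ j, x j * y j := by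
  rw [PiLp.inner_apply]
  refine sum_congr rfl fun j _ => ?_
  simp [mul_comm]

/-- `pm a` as a permutation. -/
def pe (a : Fin 9) : Equiv.Perm (Fin 16) where
  toFun := pm a
  invFun := pm a
  left_inv := pm_pm a
  right_inv := pm_pm a

theorem S_symm (a : Fin 9) (x y : EuclideanSpace ℝ (Fin 16)) :
    ⟪S a x, y⟫_ℝ = ⟪x, S a y⟫_ℝ := by
  rw [inner_eq, inner_eq, ← Equiv.sum_comp (pe a)]
  refine sum_congr rfl fun j _ => ?_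
  change S a x (pm a j) * y (pm a j) = x j * S a y j
  rw [S_apply, S_apply, pm_pm, ng_pm]
  ring

theorem S_rel (a b : Fin 9) (x : EuclideanSpace ℝ (Fin 16)) :
    S a (S b x) + S b (S a x) = if a = b then (2 : ℝ) • x else 0 := by
  split_ifs with h
  · subst h
    ext j
    rw [PiLp.add_apply, S_apply, S_apply, pm_pm, ng_pm, PiLp.smul_apply, smul_eq_mul,
      ← mul_assoc, ep_self]
    ring
  · ext j
    rw [PiLp.add_apply, S_apply, S_apply, S_apply, S_apply, PiLp.zero_apply,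
      pm_comm a b h j, ← mul_assoc, ← mul_assoc, ep_mul, ep_mul, ng_comm a b h j, ep_not]
    ring

theorem sum16 (f : Fin 16 → ℝ) : ∑ j, f j = f 0 + f 1 + f 2 + f 3 + f 4 + f 5 + f 6 + f 7
    + f 8 + f 9 + f 10 + f 11 + f 12 + f 13 + f 14 + f 15 := by
  simp only [Fin.sum_univ_succ, Fin.sum_univ_zero]
  simp [add_assoc]

theorem sum9 (f : Fin 9 → ℝ) : ∑ j, f j = f 0 + f 1 + f 2 + f 3 + f 4 + f 5 + f 6 + f 7
    + f 8 := by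
  simp only [Fin.sum_univ_succ, Fin.sum_univ_zero]
  simp [add_assoc]

theorem h0 (x : EuclideanSpace ℝ (Fin 16)) : ⟪S 0 x, x⟫_ℝ
    = 2 * (x 0 * x 8 + x 1 * x 9 + x 2 * x 10 + x 3 * x 11 + x 4 * x 12 + x 5 * x 13 + x 6 * x
      14 + x 7 * x 15) := by
  rw [inner_eq, sum16]
  change ((1 : ℝ) * x 8) * x 0 + ((1 : ℝ) * x 9) * x 1 + ((1 : ℝ) * x 10) * x 2 + ((1 : ℝ) * x
      11) * x 3 + ((1 : ℝ) * x 12) * x 4 + ((1 : ℝ) * x 13) * x 5 + ((1 : ℝ) * x 14) * x 6 +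
      ((1 : ℝ) * x 15) * x 7 + ((1 : ℝ) * x 0) * x 8 + ((1 : ℝ) * x 1) * x 9 + ((1 : ℝ) * x 2)
      * x 10 + ((1 : ℝ) * x 3) * x 11 + ((1 : ℝ) * x 4) * x 12 + ((1 : ℝ) * x 5) * x 13 + ((1 :
      ℝ) * x 6) * x 14 + ((1 : ℝ) * x 7) * x 15 = _
  ring

theorem h1 (x : EuclideanSpace ℝ (Fin 16)) : ⟪S 1 x, x⟫_ℝ
    = 2 * (x 0 * x 9 - x 1 * x 8 + x 2 * x 11 - x 3 * x 10 + x 4 * x 13 - x 5 * x 12 - x 6 * x
      15 + x 7 * x 14) := by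
  rw [inner_eq, sum16]
  change ((1 : ℝ) * x 9) * x 0 + ((-1 : ℝ) * x 8) * x 1 + ((1 : ℝ) * x 11) * x 2 + ((-1 : ℝ) *
      x 10) * x 3 + ((1 : ℝ) * x 13) * x 4 + ((-1 : ℝ) * x 12) * x 5 + ((-1 : ℝ) * x 15) * x 6
      + ((1 : ℝ) * x 14) * x 7 + ((-1 : ℝ) * x 1) * x 8 + ((1 : ℝ) * x 0) * x 9 + ((-1 : ℝ) * x
      3) * x 10 + ((1 : ℝ) * x 2) * x 11 + ((-1 : ℝ) * x 5) * x 12 + ((1 : ℝ) * x 4) * x 13 +
      ((1 : ℝ) * x 7) * x 14 + ((-1 : ℝ) * x 6) * x 15 = _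
  ring

theorem h2 (x : EuclideanSpace ℝ (Fin 16)) : ⟪S 2 x, x⟫_ℝ
    = 2 * (x 0 * x 10 - x 1 * x 11 - x 2 * x 8 + x 3 * x 9 + x 4 * x 14 + x 5 * x 15 - x 6 * x
      12 - x 7 * x 13) := by
  rw [inner_eq, sum16]
  change ((1 : ℝ) * x 10) * x 0 + ((-1 : ℝ) * x 11) * x 1 + ((-1 : ℝ) * x 8) * x 2 + ((1 : ℝ) *
      x 9) * x 3 + ((1 : ℝ) * x 14) * x 4 + ((1 : ℝ) * x 15) * x 5 + ((-1 : ℝ) * x 12) * x 6 +
      ((-1 : ℝ) * x 13) * x 7 + ((-1 : ℝ) * x 2) * x 8 + ((1 : ℝ) * x 3) * x 9 + ((1 : ℝ) * x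
      0) * x 10 + ((-1 : ℝ) * x 1) * x 11 + ((-1 : ℝ) * x 6) * x 12 + ((-1 : ℝ) * x 7) * x 13 +
      ((1 : ℝ) * x 4) * x 14 + ((1 : ℝ) * x 5) * x 15 = _
  ring

theorem h3 (x : EuclideanSpace ℝ (Fin 16)) : ⟪S 3 x, x⟫_ℝ
    = 2 * (x 0 * x 11 + x 1 * x 10 - x 2 * x 9 - x 3 * x 8 + x 4 * x 15 - x 5 * x 14 + x 6 * x
      13 - x 7 * x 12) := by
  rw [inner_eq, sum16]
  change ((1 : ℝ) * x 11) * x 0 + ((1 : ℝ) * x 10) * x 1 + ((-1 : ℝ) * x 9) * x 2 + ((-1 : ℝ) *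
      x 8) * x 3 + ((1 : ℝ) * x 15) * x 4 + ((-1 : ℝ) * x 14) * x 5 + ((1 : ℝ) * x 13) * x 6 +
      ((-1 : ℝ) * x 12) * x 7 + ((-1 : ℝ) * x 3) * x 8 + ((-1 : ℝ) * x 2) * x 9 + ((1 : ℝ) * x
      1) * x 10 + ((1 : ℝ) * x 0) * x 11 + ((-1 : ℝ) * x 7) * x 12 + ((1 : ℝ) * x 6) * x 13 +
      ((-1 : ℝ) * x 5) * x 14 + ((1 : ℝ) * x 4) * x 15 = _
  ring

theorem h4 (x : EuclideanSpace ℝ (Fin 16)) : ⟪S 4 x, x⟫_ℝ
    = 2 * (x 0 * x 12 - x 1 * x 13 - x 2 * x 14 - x 3 * x 15 - x 4 * x 8 + x 5 * x 9 + x 6 * x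
      10 + x 7 * x 11) := by
  rw [inner_eq, sum16]
  change ((1 : ℝ) * x 12) * x 0 + ((-1 : ℝ) * x 13) * x 1 + ((-1 : ℝ) * x 14) * x 2 + ((-1 : ℝ)
      * x 15) * x 3 + ((-1 : ℝ) * x 8) * x 4 + ((1 : ℝ) * x 9) * x 5 + ((1 : ℝ) * x 10) * x 6 +
      ((1 : ℝ) * x 11) * x 7 + ((-1 : ℝ) * x 4) * x 8 + ((1 : ℝ) * x 5) * x 9 + ((1 : ℝ) * x 6)
      * x 10 + ((1 : ℝ) * x 7) * x 11 + ((1 : ℝ) * x 0) * x 12 + ((-1 : ℝ) * x 1) * x 13 + ((-1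
      : ℝ) * x 2) * x 14 + ((-1 : ℝ) * x 3) * x 15 = _
  ring

theorem h5 (x : EuclideanSpace ℝ (Fin 16)) : ⟪S 5 x, x⟫_ℝ
    = 2 * (x 0 * x 13 + x 1 * x 12 - x 2 * x 15 + x 3 * x 14 - x 4 * x 9 - x 5 * x 8 - x 6 * x
      11 + x 7 * x 10) := by
  rw [inner_eq, sum16]
  change ((1 : ℝ) * x 13) * x 0 + ((1 : ℝ) * x 12) * x 1 + ((-1 : ℝ) * x 15) * x 2 + ((1 : ℝ) *
      x 14) * x 3 + ((-1 : ℝ) * x 9) * x 4 + ((-1 : ℝ) * x 8) * x 5 + ((-1 : ℝ) * x 11) * x 6 +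
      ((1 : ℝ) * x 10) * x 7 + ((-1 : ℝ) * x 5) * x 8 + ((-1 : ℝ) * x 4) * x 9 + ((1 : ℝ) * x
      7) * x 10 + ((-1 : ℝ) * x 6) * x 11 + ((1 : ℝ) * x 1) * x 12 + ((1 : ℝ) * x 0) * x 13 +
      ((1 : ℝ) * x 3) * x 14 + ((-1 : ℝ) * x 2) * x 15 = _
  ring

theorem h6 (x : EuclideanSpace ℝ (Fin 16)) : ⟪S 6 x, x⟫_ℝ
    = 2 * (x 0 * x 14 + x 1 * x 15 + x 2 * x 12 - x 3 * x 13 - x 4 * x 10 + x 5 * x 11 - x 6 *
      x 8 - x 7 * x 9) := by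
  rw [inner_eq, sum16]
  change ((1 : ℝ) * x 14) * x 0 + ((1 : ℝ) * x 15) * x 1 + ((1 : ℝ) * x 12) * x 2 + ((-1 : ℝ) *
      x 13) * x 3 + ((-1 : ℝ) * x 10) * x 4 + ((1 : ℝ) * x 11) * x 5 + ((-1 : ℝ) * x 8) * x 6 +
      ((-1 : ℝ) * x 9) * x 7 + ((-1 : ℝ) * x 6) * x 8 + ((-1 : ℝ) * x 7) * x 9 + ((-1 : ℝ) * x
      4) * x 10 + ((1 : ℝ) * x 5) * x 11 + ((1 : ℝ) * x 2) * x 12 + ((-1 : ℝ) * x 3) * x 13 +
      ((1 : ℝ) * x 0) * x 14 + ((1 : ℝ) * x 1) * x 15 = _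
  ring

theorem h7 (x : EuclideanSpace ℝ (Fin 16)) : ⟪S 7 x, x⟫_ℝ
    = 2 * (x 0 * x 15 - x 1 * x 14 + x 2 * x 13 + x 3 * x 12 - x 4 * x 11 - x 5 * x 10 + x 6 *
      x 9 - x 7 * x 8) := by
  rw [inner_eq, sum16]
  change ((1 : ℝ) * x 15) * x 0 + ((-1 : ℝ) * x 14) * x 1 + ((1 : ℝ) * x 13) * x 2 + ((1 : ℝ) *
      x 12) * x 3 + ((-1 : ℝ) * x 11) * x 4 + ((-1 : ℝ) * x 10) * x 5 + ((1 : ℝ) * x 9) * x 6 +
      ((-1 : ℝ) * x 8) * x 7 + ((-1 : ℝ) * x 7) * x 8 + ((1 : ℝ) * x 6) * x 9 + ((-1 : ℝ) * x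
      5) * x 10 + ((-1 : ℝ) * x 4) * x 11 + ((1 : ℝ) * x 3) * x 12 + ((1 : ℝ) * x 2) * x 13 +
      ((-1 : ℝ) * x 1) * x 14 + ((1 : ℝ) * x 0) * x 15 = _
  ring

theorem h8 (x : EuclideanSpace ℝ (Fin 16)) : ⟪S 8 x, x⟫_ℝ
    = x 0 ^ 2 + x 1 ^ 2 + x 2 ^ 2 + x 3 ^ 2 + x 4 ^ 2 + x 5 ^ 2 + x 6 ^ 2 + x 7 ^ 2 - (x 8 ^ 2
      + x 9 ^ 2 + x 10 ^ 2 + x 11 ^ 2 + x 12 ^ 2 + x 13 ^ 2 + x 14 ^ 2 + x 15 ^ 2) := by
  rw [inner_eq, sum16]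
  change ((1 : ℝ) * x 0) * x 0 + ((1 : ℝ) * x 1) * x 1 + ((1 : ℝ) * x 2) * x 2 + ((1 : ℝ) * x
      3) * x 3 + ((1 : ℝ) * x 4) * x 4 + ((1 : ℝ) * x 5) * x 5 + ((1 : ℝ) * x 6) * x 6 + ((1 :
      ℝ) * x 7) * x 7 + ((-1 : ℝ) * x 8) * x 8 + ((-1 : ℝ) * x 9) * x 9 + ((-1 : ℝ) * x 10) * x
      10 + ((-1 : ℝ) * x 11) * x 11 + ((-1 : ℝ) * x 12) * x 12 + ((-1 : ℝ) * x 13) * x 13 +
      ((-1 : ℝ) * x 14) * x 14 + ((-1 : ℝ) * x 15) * x 15 = _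
  ring

theorem hopf (x : EuclideanSpace ℝ (Fin 16)) : ∑ a, ⟪S a x, x⟫_ℝ ^ 2 = ‖x‖ ^ 4 := by
  have e : ‖x‖ ^ 4 = (∑ j, x j * x j) ^ 2 := by
    rw [← inner_eq, real_inner_self_eq_norm_sq]; ring
  rw [e, sum9, sum16, h0, h1, h2, h3, h4, h5, h6, h7, h8]
  ring


end OInst

/-- The Clifford system of the octonions: nine signed permutation matrices on `ℝ^16`. -/
def clif16 : Clif (EuclideanSpace ℝ (Fin 16)) (Fin 9) where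
  S := OInst.S
  symm := OInst.S_symm
  rel := OInst.S_rel
  hopf := OInst.hopf

end

end Pool.Agent.Work.MP_3b24f6_gt
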