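import Pool.Agent.Work.MP_3b24f6_gt.OBasic
import Pool.Agent.Work.MP_3b24f6_gt.Complex

/-!
# The Ricci identity for the Christoffel map of the Cayley plane
-/

set_option autoImplicit false
set_option linter.unusedSectionVars false

open Finset Filter Topology
open scoped InnerProductSpace ContDiff

namespace Pool.Agent.Work.MP_3b24f6_gt

noncomputable section

namespace Clif

variable {E : Type*} [NormedAddCommGroup E] [InnerProductSpace ℝ E] {ι : Type} [Fintype ι]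
  [DecidableEq ι] (c : Clif E ι)

open Cx (U_pos tr_add tr_sub tr_smul tr_smulRight tr_id tr_comp_comm tr_smulRight_comp
  tr_comp_smulRight)

/-! ### the coefficients `s_a = ⟨S_a z, v⟩` -/

/-- `s_a = ⟨S_a z, v⟩`. -/
def ric_cs (z v : E) (a : ι) : ℝ := ⟪c.S a z, v⟫_ℝ

theorem ric_sum_cs_sq (z v : E) : ∑ a, c.ric_cs z v a ^ 2 = ‖z‖ ^ 2 * ‖v‖ ^ 2 - c.q z v := by
  unfold q ric_cs
  ring

theorem ric_sv_cs_z (z v : E) : c.sv (c.ric_cs z v) z = ‖z‖ ^ 2 • v - c.Q z v := by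
  rw [sv_apply, Q_apply]
  simp [ric_cs]

/-- `∑ S_a S_b S_a = (2 - card) S_b`. -/
theorem ric_sum_SSS (b : ι) (x : E) :
    ∑ a, c.S a (c.S b (c.S a x)) = (2 - (Fintype.card ι : ℝ)) • c.S b x := by
  have h : ∀ a, c.S a (c.S b (c.S a x)) = (if a = b then (2 : ℝ) • c.S a x else 0) - c.S b x := by
    intro a
    rw [c.S_S a b, c.SS]
  simp_rw [h]
  rw [sum_sub_distrib, Finset.sum_ite_eq']
  simp only [mem_univ, if_true, sum_const, card_univ]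
  rw [sub_smul, ← Nat.cast_smul_eq_nsmul ℝ]

theorem ric_sum_inner_S_sv_S (y : ι → ℝ) (x v : E) :
    ∑ a, ⟪c.S a x, c.sv y (c.S a v)⟫_ℝ = (2 - (Fintype.card ι : ℝ)) * ⟪x, c.sv y v⟫_ℝ := by
  have h : ∀ a, ⟪c.S a x, c.sv y (c.S a v)⟫_ℝ = ∑ b, y b * ⟪x, c.S a (c.S b (c.S a v))⟫_ℝ := by
    intro a
    rw [c.symm, sv_apply, map_sum, inner_sum]
    simp_rw [map_smul, real_inner_smul_right]
  simp_rw [h]
  rw [sum_comm]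
  simp_rw [← mul_sum, ← inner_sum, ric_sum_SSS, real_inner_smul_right]
  rw [sv_apply, inner_sum, mul_sum]
  refine sum_congr rfl fun b _ => ?_
  rw [real_inner_smul_right]
  ring

/-- `ric_P3 z v x = ∑ ⟨S_a z, x⟩ S_a v`. -/
def ric_P3 (z v : E) : E →L[ℝ] E := ∑ a, (innerSL ℝ (c.S a z)).smulRight (c.S a v)

theorem ric_P3_apply (z v x : E) : c.ric_P3 z v x = ∑ a, ⟪c.S a z, x⟫_ℝ • c.S a v := by
  simp [ric_P3]

theorem ric_P3_z (z v : E) : c.ric_P3 z v z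
    = (2 * ⟪z, v⟫_ℝ) • z - ‖z‖ ^ 2 • v + (2 : ℝ) • c.Q z v := by
  have h := c.polar z v
  have h1 : ∑ a, (⟪c.S a z, z⟫_ℝ • c.S a v + (2 * ⟪c.S a z, v⟫_ℝ) • c.S a z)
      = c.ric_P3 z v z + (2 : ℝ) • c.sv (c.ric_cs z v) z := by
    rw [sum_add_distrib, ric_P3_apply, sv_apply, smul_sum]
    congr 1
    refine sum_congr rfl fun a _ => ?_
    rw [smul_smul]
    rfl
  rw [h1, ric_sv_cs_z] at h
  rw [eq_sub_of_add_eq h]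
  module

theorem ric_h_dot_h (z v : E) : ∑ a, ⟪c.S a z, z⟫_ℝ * ⟪c.S a v, v⟫_ℝ
    = 2 * ⟪z, v⟫_ℝ ^ 2 - ‖z‖ ^ 2 * ‖v‖ ^ 2 + 2 * c.q z v := by
  have h : ⟪c.ric_P3 z v z, v⟫_ℝ = ∑ a, ⟪c.S a z, z⟫_ℝ * ⟪c.S a v, v⟫_ℝ := by
    rw [ric_P3_apply, sum_inner]
    simp_rw [real_inner_smul_left]
  rw [← h, ric_P3_z, inner_add_left, inner_sub_left]
  simp only [real_inner_smul_left, real_inner_self_eq_norm_sq, inner_Q_self]
  ring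

/-- `X = ∑ ⟨S_a z, S_b v⟩²`, in the form of the trace of `ric_P3²`. -/
theorem ric_sum_X (z v : E) : ∑ a, ∑ b, ⟪c.S a z, c.S b v⟫_ℝ * ⟪c.S b z, c.S a v⟫_ℝ
    = (Fintype.card ι + 2) * ⟪z, v⟫_ℝ ^ 2 - 2 * (‖z‖ ^ 2 * ‖v‖ ^ 2)
      - ((Fintype.card ι : ℝ) - 3) * c.q z v := by
  have key : ∀ b, ∑ a, (⟪c.S a z, c.S b v⟫_ℝ * ⟪c.S b z, c.S a v⟫_ℝ
      + ⟪c.S a v, c.S b v⟫_ℝ * ⟪c.S a z, c.S b z⟫_ℝ
      + ⟪c.S a v, z⟫_ℝ * ⟪c.S b z, c.S a (c.S b v)⟫_ℝ)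
      = ⟪c.S b z, v⟫_ℝ * ⟪c.S b z, v⟫_ℝ + ⟪c.S b v, v⟫_ℝ * ⟪c.S b z, z⟫_ℝ
        + ⟪z, v⟫_ℝ * ⟪z, v⟫_ℝ := by
    intro b
    have h := c.polar3 z (c.S b v) v
    have h2 := congrArg (fun y => ⟪c.S b z, y⟫_ℝ) h
    simp only [inner_sum, inner_add_right, real_inner_smul_right] at h2
    rw [c.inner_SS b z v, ← c.symm b z v, real_inner_comm z v] at h2
    rw [← h2]
    refine sum_congr rfl fun a _ => ?_
    rw [c.symm a (c.S b v) v, real_inner_comm (c.S a v) (c.S b v),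
      real_inner_comm (c.S a z) (c.S b z)]
  have k2 := sum_congr (rfl : (univ : Finset ι) = univ) fun b _ => key b
  simp only [sum_add_distrib] at k2
  have e1 : ∑ b, ∑ a, ⟪c.S a v, c.S b v⟫_ℝ * ⟪c.S a z, c.S b z⟫_ℝ
      = Fintype.card ι * (‖z‖ ^ 2 * ‖v‖ ^ 2) := by
    simp_rw [c.inner_S_S_self]
    simp [mul_comm]
  have e2 : ∑ b, ∑ a, ⟪c.S a v, z⟫_ℝ * ⟪c.S b z, c.S a (c.S b v)⟫_ℝ
      = (2 - (Fintype.card ι : ℝ)) * (‖z‖ ^ 2 * ‖v‖ ^ 2 - c.q z v) := by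
    have e3 : ∀ b, ∑ a, ⟪c.S a v, z⟫_ℝ * ⟪c.S b z, c.S a (c.S b v)⟫_ℝ
        = ⟪c.S b z, c.sv (c.ric_cs z v) (c.S b v)⟫_ℝ := by
      intro b
      rw [sv_apply, inner_sum]
      refine sum_congr rfl fun a _ => ?_
      rw [real_inner_smul_right, ric_cs, c.inner_S_comm a v z]
    simp_rw [e3]
    rw [ric_sum_inner_S_sv_S, ← ric_sum_cs_sq, sv_apply, inner_sum]
    congr 1
    refine sum_congr rfl fun a _ => ?_
    rw [real_inner_smul_right, ric_cs, ← c.symm, sq]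
  have e4 : ∑ b, ⟪c.S b z, v⟫_ℝ * ⟪c.S b z, v⟫_ℝ = ‖z‖ ^ 2 * ‖v‖ ^ 2 - c.q z v := by
    rw [← ric_sum_cs_sq]
    refine sum_congr rfl fun a _ => ?_
    rw [ric_cs, sq]
  have e5 : ∑ b, ⟪c.S b v, v⟫_ℝ * ⟪c.S b z, z⟫_ℝ
      = 2 * ⟪z, v⟫_ℝ ^ 2 - ‖z‖ ^ 2 * ‖v‖ ^ 2 + 2 * c.q z v := by
    rw [← ric_h_dot_h]
    exact sum_congr rfl fun a _ => mul_comm _ _
  have e6 : ∑ _b : ι, ⟪z, v⟫_ℝ * ⟪z, v⟫_ℝ = Fintype.card ι * ⟪z, v⟫_ℝ ^ 2 := by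
    rw [sum_const, card_univ, nsmul_eq_mul, sq]
  rw [e1, e2, e4, e5, e6] at k2
  rw [sum_comm]
  linarith

/-! ### the vectors `Γ(v, z)` and the scalar products -/

/-- The covector `l` with `Γ_v = z ⊗ l + …`. -/
def ric_ol (z v : E) : E := ((1 + ‖z‖ ^ 2)⁻¹ * ⟪z, v⟫_ℝ) • z - (3 : ℝ) • v - (2 : ℝ) • c.Q z v

theorem ric_norm_Q_sq' (z v : E) : ⟪c.Q z v, c.Q z v⟫_ℝ = ‖z‖ ^ 2 * c.q z v := by
  rw [real_inner_self_eq_norm_sq, norm_Q_sq]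

theorem ric_inner_Q_self' (z v : E) : ⟪v, c.Q z v⟫_ℝ = c.q z v := by
  rw [real_inner_comm, inner_Q_self]

theorem ric_inner_Q_z (z v : E) : ⟪c.Q z v, z⟫_ℝ = 0 := by
  rw [Q_symm, Q_self, inner_zero_right]

theorem ric_inner_ol (z v x : E) : ⟪c.ric_ol z v, x⟫_ℝ
    = (1 + ‖z‖ ^ 2)⁻¹ * ⟪z, v⟫_ℝ * ⟪z, x⟫_ℝ - 3 * ⟪v, x⟫_ℝ - 2 * ⟪c.Q z v, x⟫_ℝ := by
  simp only [ric_ol, inner_sub_left, real_inner_smul_left]

theorem ric_inner_ol_z (z v : E) : ⟪c.ric_ol z v, z⟫_ℝ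
    = (1 + ‖z‖ ^ 2)⁻¹ * ⟪z, v⟫_ℝ * ‖z‖ ^ 2 - 3 * ⟪z, v⟫_ℝ := by
  rw [ric_inner_ol, ric_inner_Q_z, real_inner_self_eq_norm_sq, real_inner_comm z v]
  ring

theorem ric_inner_ol_v (z v : E) : ⟪c.ric_ol z v, v⟫_ℝ
    = (1 + ‖z‖ ^ 2)⁻¹ * ⟪z, v⟫_ℝ ^ 2 - 3 * ‖v‖ ^ 2 - 2 * c.q z v := by
  rw [ric_inner_ol, inner_Q_self, real_inner_self_eq_norm_sq]
  ring

theorem ric_inner_ol_Q (z v : E) : ⟪c.ric_ol z v, c.Q z v⟫_ℝ = -3 * c.q z v - 2 * (‖z‖ ^ 2 * c.q z v) := by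
  rw [ric_inner_ol, inner_z_Q, ric_inner_Q_self', ric_norm_Q_sq']
  ring

theorem ric_oG_eq (z v x : E) : c.oG z v x = ⟪c.ric_ol z v, x⟫_ℝ • z + c.sv (c.ric_cs z v) x + c.ric_P3 z v x
    - ((1 + ‖z‖ ^ 2)⁻¹ * ⟪z, v⟫_ℝ) • c.Q z x - ((1 + ‖z‖ ^ 2)⁻¹ * ⟪z, x⟫_ℝ) • c.Q z v := by
  rw [oG_apply, ric_inner_ol, sv_apply, ric_P3_apply, sum_add_distrib]
  simp only [ric_cs]
  module

theorem ric_oG_clm (z v : E) : c.oG z v = (innerSL ℝ (c.ric_ol z v)).smulRight z + c.sv (c.ric_cs z v)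
    + c.ric_P3 z v - ((1 + ‖z‖ ^ 2)⁻¹ * ⟪z, v⟫_ℝ) • c.Q z
    - (innerSL ℝ ((1 + ‖z‖ ^ 2)⁻¹ • z)).smulRight (c.Q z v) := by
  ext x
  rw [ric_oG_eq]
  simp only [ContinuousLinearMap.add_apply, ContinuousLinearMap.sub_apply,
    ContinuousLinearMap.smul_apply, ContinuousLinearMap.smulRight_apply, innerSL_apply_apply,
    real_inner_smul_left]

theorem ric_oG_z (z v : E) : c.oG z v z = (1 + ‖z‖ ^ 2)⁻¹ • (c.Q z v - ⟪z, v⟫_ℝ • z) := by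
  have h3 := (U_pos z).ne'
  rw [ric_oG_eq, ric_inner_ol_z, ric_sv_cs_z, ric_P3_z, Q_self, real_inner_self_eq_norm_sq]
  match_scalars <;> field_simp <;> ring

theorem ric_inner_z_sv_Q (z v : E) : ⟪z, c.sv (c.ric_cs z v) (c.Q z v)⟫_ℝ = 0 := by
  rw [← sv_symm, ric_sv_cs_z, inner_sub_left, real_inner_smul_left, ric_inner_Q_self', ric_norm_Q_sq',
    sub_self]

theorem ric_inner_ol_sv_z (z v : E) : ⟪c.ric_ol z v, c.sv (c.ric_cs z v) z⟫_ℝ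
    = (1 + ‖z‖ ^ 2)⁻¹ * ⟪z, v⟫_ℝ ^ 2 * ‖z‖ ^ 2 - 3 * (‖z‖ ^ 2 * ‖v‖ ^ 2 - c.q z v) := by
  rw [ric_sv_cs_z, inner_sub_right, real_inner_smul_right, ric_inner_ol_v, ric_inner_ol_Q]
  ring

theorem ric_inner_ol_P3_z (z v : E) : ⟪c.ric_ol z v, c.ric_P3 z v z⟫_ℝ
    = (1 + ‖z‖ ^ 2)⁻¹ * ⟪z, v⟫_ℝ ^ 2 * ‖z‖ ^ 2 + 3 * (‖z‖ ^ 2 * ‖v‖ ^ 2) - 6 * ⟪z, v⟫_ℝ ^ 2
      - 6 * c.q z v - 2 * (‖z‖ ^ 2 * c.q z v) := by
  rw [ric_P3_z, inner_add_right, inner_sub_right, real_inner_smul_right, real_inner_smul_right,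
    real_inner_smul_right, ric_inner_ol_v, ric_inner_ol_z, ric_inner_ol_Q]
  ring

theorem ric_sum_cs_h (z v : E) : ⟪z, c.sv (c.ric_cs z v) z⟫_ℝ = ‖z‖ ^ 2 * ⟪z, v⟫_ℝ := by
  rw [ric_sv_cs_z, inner_sub_right, real_inner_smul_right, inner_z_Q, sub_zero]

theorem ric_inner_z_oG_Q (z v : E) : ⟪z, c.oG z v (c.Q z v)⟫_ℝ
    = (-3 * c.q z v - 2 * (‖z‖ ^ 2 * c.q z v)) * ‖z‖ ^ 2 := by
  have h : ⟪z, c.ric_P3 z v (c.Q z v)⟫_ℝ = 0 := by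
    rw [ric_P3_apply]
    simp_rw [inner_S_Q]
    simp
  rw [ric_oG_eq, inner_sub_right, inner_sub_right, inner_add_right, inner_add_right, h,
    ric_inner_z_sv_Q]
  simp only [real_inner_smul_right, inner_z_Q, ric_inner_ol_Q, real_inner_self_eq_norm_sq]
  ring

theorem ric_inner_S_oG_S (z v : E) : ∑ a, ⟪c.S a z, c.oG z v (c.S a v)⟫_ℝ
    = ⟪c.ric_ol z v, c.ric_P3 z v z⟫_ℝ
      + (2 - (Fintype.card ι : ℝ)) * (‖z‖ ^ 2 * ‖v‖ ^ 2 - c.q z v)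
      + ((Fintype.card ι + 2) * ⟪z, v⟫_ℝ ^ 2 - 2 * (‖z‖ ^ 2 * ‖v‖ ^ 2)
        - ((Fintype.card ι : ℝ) - 3) * c.q z v) := by
  have h : ∀ a, ⟪c.S a z, c.oG z v (c.S a v)⟫_ℝ
      = ⟪c.S a z, z⟫_ℝ * ⟪c.ric_ol z v, c.S a v⟫_ℝ + ⟪c.S a z, c.sv (c.ric_cs z v) (c.S a v)⟫_ℝ
        + ∑ b, ⟪c.S a z, c.S b v⟫_ℝ * ⟪c.S b z, c.S a v⟫_ℝ := by
    intro a
    rw [ric_oG_eq, inner_sub_right, inner_sub_right, inner_add_right, inner_add_right, ric_P3_apply,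
      inner_sum]
    simp only [real_inner_smul_right, inner_S_Q]
    simp_rw [mul_comm ⟪c.S a z, c.S _ v⟫_ℝ]
    ring
  have h1 : ⟪z, c.sv (c.ric_cs z v) v⟫_ℝ = ‖z‖ ^ 2 * ‖v‖ ^ 2 - c.q z v := by
    rw [← sv_symm, ric_sv_cs_z, inner_sub_left, real_inner_smul_left, inner_Q_self,
      real_inner_self_eq_norm_sq]
  simp_rw [h]
  rw [sum_add_distrib, sum_add_distrib, ric_sum_X, ric_sum_inner_S_sv_S, h1]
  congr 2
  rw [ric_P3_apply, inner_sum]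
  refine sum_congr rfl fun a _ => ?_
  rw [real_inner_smul_right]

section trace

variable [FiniteDimensional ℝ E]

theorem ric_tr_sum {κ : Type} (s : Finset κ) (T : κ → E →L[ℝ] E) :
    tr (∑ i ∈ s, T i) = ∑ i ∈ s, tr (T i) := by
  classical
  induction s using Finset.induction_on with
  | empty => simp [tr]
  | insert i s hi ih => rw [sum_insert hi, sum_insert hi, tr_add, ih]

theorem ric_tr_S (h2 : 2 ≤ Fintype.card ι) (a : ι) : tr (c.S a) = 0 := by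
  obtain ⟨b, hb⟩ : ∃ b : ι, b ≠ a := Fintype.exists_ne_of_one_lt_card h2 a
  have e1 : (c.S b).comp ((c.S b).comp (c.S a)) = c.S a := by
    ext x
    exact c.SS b _
  have e2 : ((c.S b).comp (c.S a)).comp (c.S b) = -c.S a := by
    ext x
    change c.S b (c.S a (c.S b x)) = -c.S a x
    rw [c.S_S b a, if_neg hb, c.SS, zero_sub]
  have h := tr_comp_comm (c.S b) ((c.S b).comp (c.S a))
  rw [e1, e2] at h
  have e3 : tr (-c.S a) = -tr (c.S a) := by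
    rw [← neg_one_smul ℝ (c.S a), tr_smul]
    ring
  rw [e3] at h
  linarith

theorem ric_tr_sv (h2 : 2 ≤ Fintype.card ι) (y : ι → ℝ) : tr (c.sv y) = 0 := by
  rw [sv, ric_tr_sum]
  simp_rw [tr_smul, c.ric_tr_S h2]
  simp

theorem ric_tr_Q_comp (z : E) (T : E →L[ℝ] E) : tr ((c.Q z).comp T)
    = ‖z‖ ^ 2 * tr T - ∑ a, ⟪c.S a z, T (c.S a z)⟫_ℝ := by
  have e : (c.Q z).comp T = ‖z‖ ^ 2 • T - ∑ a, ((innerSL ℝ (c.S a z)).smulRight (c.S a z)).comp T := by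
    ext x
    simp [Q_apply]
  rw [e, tr_sub, tr_smul, ric_tr_sum]
  simp_rw [tr_smulRight_comp, innerSL_apply_apply]

theorem ric_tr_Q (z : E) : tr (c.Q z) = (Module.finrank ℝ E - Fintype.card ι) * ‖z‖ ^ 2 := by
  have h := c.ric_tr_Q_comp z (ContinuousLinearMap.id ℝ E)
  rw [ContinuousLinearMap.comp_id, tr_id] at h
  rw [h]
  simp [c.norm_S]
  ring

theorem ric_tr_P3_comp (z v : E) (T : E →L[ℝ] E) : tr ((c.ric_P3 z v).comp T)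
    = ∑ a, ⟪c.S a z, T (c.S a v)⟫_ℝ := by
  have e : (c.ric_P3 z v).comp T
      = ∑ a, ((innerSL ℝ (c.S a z)).smulRight (c.S a v)).comp T := by
    ext x
    simp [ric_P3_apply]
  rw [e, ric_tr_sum]
  simp_rw [tr_smulRight_comp, innerSL_apply_apply]

/-- trace of `Γ_v ∘ T` -/
theorem ric_tr_oG_comp (z v : E) (T : E →L[ℝ] E) : tr ((c.oG z v).comp T)
    = ⟪c.ric_ol z v, T z⟫_ℝ + tr ((c.sv (c.ric_cs z v)).comp T) + ∑ a, ⟪c.S a z, T (c.S a v)⟫_ℝ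
      - (1 + ‖z‖ ^ 2)⁻¹ * ⟪z, v⟫_ℝ * tr ((c.Q z).comp T)
      - (1 + ‖z‖ ^ 2)⁻¹ * ⟪z, T (c.Q z v)⟫_ℝ := by
  rw [ric_oG_clm, ContinuousLinearMap.sub_comp, ContinuousLinearMap.sub_comp,
    ContinuousLinearMap.add_comp, ContinuousLinearMap.add_comp, tr_sub, tr_sub, tr_add, tr_add,
    tr_smulRight_comp, tr_smulRight_comp, ContinuousLinearMap.smul_comp, tr_smul, ric_tr_P3_comp,
    innerSL_apply_apply, innerSL_apply_apply, real_inner_smul_left]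

theorem ric_tr_oG (h2 : 2 ≤ Fintype.card ι) (z v : E) : tr (c.oG z v)
    = ((Fintype.card ι : ℝ) * (1 + (1 + ‖z‖ ^ 2)⁻¹ * ‖z‖ ^ 2)
        - (1 + ‖z‖ ^ 2)⁻¹ * ‖z‖ ^ 2 * (Module.finrank ℝ E - 1) - 3) * ⟪z, v⟫_ℝ := by
  have h := c.ric_tr_oG_comp z v (ContinuousLinearMap.id ℝ E)
  rw [ContinuousLinearMap.comp_id, ContinuousLinearMap.comp_id, ContinuousLinearMap.comp_id,
    c.ric_tr_sv h2, ric_tr_Q] at h
  rw [h]
  simp only [ContinuousLinearMap.id_apply, ric_inner_ol_z, inner_SS, inner_z_Q, sum_const, card_univ,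
    nsmul_eq_mul]
  ring

theorem ric_tr_sv_comp_Q (h2 : 2 ≤ Fintype.card ι) (z v : E) :
    tr ((c.sv (c.ric_cs z v)).comp (c.Q z))
      = ((Fintype.card ι : ℝ) - 2) * (‖z‖ ^ 2 * ⟪z, v⟫_ℝ) := by
  rw [tr_comp_comm, ric_tr_Q_comp, c.ric_tr_sv h2, ric_sum_inner_S_sv_S, ric_sum_cs_h]
  ring

theorem ric_tr_sv_sq (y : ι → ℝ) :
    tr ((c.sv y).comp (c.sv y)) = (∑ a, y a ^ 2) * Module.finrank ℝ E := by
  have e : (c.sv y).comp (c.sv y) = (∑ a, y a ^ 2) • ContinuousLinearMap.id ℝ E := by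
    ext x
    exact c.sv_sv y x
  rw [e, tr_smul, tr_id]

theorem ric_tr_Q_comp_Q (z : E) : tr ((c.Q z).comp (c.Q z))
    = ‖z‖ ^ 2 * ((Module.finrank ℝ E - Fintype.card ι) * ‖z‖ ^ 2) := by
  have e : (c.Q z).comp (c.Q z) = ‖z‖ ^ 2 • c.Q z := by
    ext x
    exact c.QQ z x
  rw [e, tr_smul, ric_tr_Q]

theorem ric_tr_sv_comp_oG (h2 : 2 ≤ Fintype.card ι) (z v : E) :
    tr ((c.sv (c.ric_cs z v)).comp (c.oG z v))
      = (1 + ‖z‖ ^ 2)⁻¹ * ⟪z, v⟫_ℝ ^ 2 * ‖z‖ ^ 2 - 3 * (‖z‖ ^ 2 * ‖v‖ ^ 2 - c.q z v)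
        + (‖z‖ ^ 2 * ‖v‖ ^ 2 - c.q z v) * Module.finrank ℝ E
        + (2 - (Fintype.card ι : ℝ)) * (‖z‖ ^ 2 * ‖v‖ ^ 2 - c.q z v)
        - (1 + ‖z‖ ^ 2)⁻¹ * ⟪z, v⟫_ℝ * (((Fintype.card ι : ℝ) - 2) * (‖z‖ ^ 2 * ⟪z, v⟫_ℝ)) := by
  have h1 : ⟪z, c.sv (c.ric_cs z v) v⟫_ℝ = ‖z‖ ^ 2 * ‖v‖ ^ 2 - c.q z v := by
    rw [← sv_symm, ric_sv_cs_z, inner_sub_left, real_inner_smul_left, inner_Q_self,
      real_inner_self_eq_norm_sq]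
  rw [tr_comp_comm, ric_tr_oG_comp, ric_inner_ol_sv_z, ric_tr_sv_sq, ric_sum_cs_sq, ric_sum_inner_S_sv_S, h1,
    tr_comp_comm (c.Q z), c.ric_tr_sv_comp_Q h2, ric_inner_z_sv_Q]
  ring

theorem ric_tr_Q_comp_oG (h2 : 2 ≤ Fintype.card ι) (z v : E) : tr ((c.Q z).comp (c.oG z v))
    = ((Fintype.card ι : ℝ) - 2) * (‖z‖ ^ 2 * ⟪z, v⟫_ℝ)
      - (1 + ‖z‖ ^ 2)⁻¹ * ⟪z, v⟫_ℝ
        * (‖z‖ ^ 2 * ((Module.finrank ℝ E - Fintype.card ι) * ‖z‖ ^ 2)) := by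
  rw [tr_comp_comm, ric_tr_oG_comp, Q_self, c.ric_tr_sv_comp_Q h2, ric_tr_Q_comp_Q]
  simp only [inner_S_Q, inner_z_Q, sum_const_zero, inner_zero_right]
  ring

/-- T4 -/
theorem ric_tr_oG_sq (h2 : 2 ≤ Fintype.card ι)
    (hN : (Module.finrank ℝ E : ℝ) = 2 * Fintype.card ι - 2) (z v : E) :
    tr ((c.oG z v).comp (c.oG z v))
      = ((Fintype.card ι : ℝ) - 1) * ((1 + ‖z‖ ^ 2) ^ 2)⁻¹ * ⟪z, v⟫_ℝ ^ 2
        - ((Fintype.card ι : ℝ) + 3 + 2 * (1 + ‖z‖ ^ 2)⁻¹) * c.q z v := by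
  have h3 := (U_pos z).ne'
  rw [ric_tr_oG_comp, c.ric_tr_sv_comp_oG h2, c.ric_tr_Q_comp_oG h2, ric_inner_S_oG_S, ric_inner_z_oG_Q, ric_oG_z,
    real_inner_smul_right, inner_sub_right, real_inner_smul_right, ric_inner_ol_Q, ric_inner_ol_z,
    ric_inner_ol_P3_z, hN]
  field_simp
  ring

/-- trace of the Christoffel map -/
theorem ric_tr_oG' (h2 : 2 ≤ Fintype.card ι)
    (hN : (Module.finrank ℝ E : ℝ) = 2 * Fintype.card ι - 2) (z v : E) : tr (c.oG z v)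
    = ((Fintype.card ι : ℝ) - 3) * ((1 + ‖z‖ ^ 2)⁻¹ * ⟪z, v⟫_ℝ) := by
  have h3 := (U_pos z).ne'
  rw [c.ric_tr_oG h2, hN]
  field_simp
  ring

/-! ### derivatives -/

theorem ric_hasFDerivAt_innerS (a : ι) (v z : E) :
    HasFDerivAt (fun y : E => ⟪c.S a y, v⟫_ℝ) ((innerSL ℝ v).comp (c.S a)) z :=
  (Cx.hasFDerivAt_inner v (c.S a z)).comp z (c.S a).hasFDerivAt

theorem ric_hasFDerivAt_normSq (z : E) :
    HasFDerivAt (fun y : E => ‖y‖ ^ 2) ((2 : ℝ) • innerSL ℝ z) z := by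
  have h := (hasStrictFDerivAt_norm_sq z).hasFDerivAt
  refine h.congr_fderiv ?_
  ext x
  simp [two_smul]

/-- derivative of `z ↦ Q_z v` -/
def ric_dQ (z v : E) : E →L[ℝ] E :=
  ((2 : ℝ) • innerSL ℝ z).smulRight v
    - ∑ a, (⟪c.S a z, v⟫_ℝ • c.S a + ((innerSL ℝ v).comp (c.S a)).smulRight (c.S a z))

theorem ric_hasFDerivAt_Q (v z : E) : HasFDerivAt (fun y => c.Q y v) (c.ric_dQ z v) z := by
  have e : (fun y => c.Q y v) = fun y => ‖y‖ ^ 2 • v - ∑ a, ⟪c.S a y, v⟫_ℝ • c.S a y := by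
    funext y
    exact c.Q_apply y v
  rw [e]
  refine ((ric_hasFDerivAt_normSq z).smul_const v).sub (HasFDerivAt.fun_sum fun a _ => ?_)
  exact (c.ric_hasFDerivAt_innerS a v z).smul (c.S a).hasFDerivAt

theorem ric_hasFDerivAt_q (v z : E) :
    HasFDerivAt (fun y => c.q y v) ((2 : ℝ) • innerSL ℝ (c.Q v z)) z := by
  have e : (fun y => c.q y v) = fun y => ‖y‖ ^ 2 * ‖v‖ ^ 2 - ∑ a, ⟪c.S a y, v⟫_ℝ ^ 2 := rfl
  rw [e]
  have h := ((ric_hasFDerivAt_normSq z).mul_const (‖v‖ ^ 2)).sub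
    (HasFDerivAt.fun_sum (u := univ) fun a _ => (c.ric_hasFDerivAt_innerS a v z).pow 2)
  refine h.congr_fderiv ?_
  ext x
  simp only [ContinuousLinearMap.sub_apply, ContinuousLinearMap.smul_apply, innerSL_apply_apply,
    smul_eq_mul, ContinuousLinearMap.sum_apply, ContinuousLinearMap.comp_apply, inner_Q, mul_sub,
    mul_sum]
  congr 1
  · ring
  · refine sum_congr rfl fun a _ => ?_
    rw [c.inner_S_comm a z v, ← c.symm a v x]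
    simp
    ring

/-- the derivative of `Γ(v, v)` -/
def ric_dG (z v : E) : E →L[ℝ] E :=
  ((1 + ‖z‖ ^ 2)⁻¹ * ⟪z, v⟫_ℝ * ⟪z, v⟫_ℝ - 3 * ‖v‖ ^ 2 - 2 * c.q z v) •
      ContinuousLinearMap.id ℝ E
    + ((2 * (1 + ‖z‖ ^ 2)⁻¹ * ⟪z, v⟫_ℝ) • innerSL ℝ v
      - (2 * ((1 + ‖z‖ ^ 2) ^ 2)⁻¹ * ⟪z, v⟫_ℝ ^ 2) • innerSL ℝ z
      - (4 : ℝ) • innerSL ℝ (c.Q v z)).smulRight z
    + (2 : ℝ) • c.ric_P3 v v
    - ((2 * (1 + ‖z‖ ^ 2)⁻¹ * ⟪z, v⟫_ℝ) • c.ric_dQ z v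
      + ((2 * (1 + ‖z‖ ^ 2)⁻¹) • innerSL ℝ v
        - (4 * ((1 + ‖z‖ ^ 2) ^ 2)⁻¹ * ⟪z, v⟫_ℝ) • innerSL ℝ z).smulRight (c.Q z v))

theorem ric_hasFDerivAt_oG (z v : E) :
    HasFDerivAt (fun y => c.oG y v v) (c.ric_dG z v) z := by
  have e : (fun y => c.oG y v v) = fun y =>
      ((1 + ‖y‖ ^ 2)⁻¹ * ⟪y, v⟫_ℝ * ⟪y, v⟫_ℝ - 3 * ‖v‖ ^ 2 - 2 * c.q y v) • y
      + ∑ a, (2 * ⟪c.S a y, v⟫_ℝ) • c.S a v
      - (2 * (1 + ‖y‖ ^ 2)⁻¹ * ⟪y, v⟫_ℝ) • c.Q y v := by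
    funext y
    rw [oG_apply, real_inner_self_eq_norm_sq, inner_Q_self]
    congr 1
    · congr 1
      refine sum_congr rfl fun a _ => ?_
      module
    · module
  have h1 := Cx.hasFDerivAt_Ui z
  have h2 := Cx.hasFDerivAt_inner v z
  have h3 := c.ric_hasFDerivAt_q v z
  have h4 := c.ric_hasFDerivAt_Q v z
  have h5 : HasFDerivAt (fun y => ∑ a, (2 * ⟪c.S a y, v⟫_ℝ) • c.S a v)
      (∑ a, ((2 : ℝ) • (innerSL ℝ v).comp (c.S a)).smulRight (c.S a v)) z :=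
    HasFDerivAt.fun_sum fun a _ => ((c.ric_hasFDerivAt_innerS a v z).const_mul 2).smul_const (c.S a v)
  have k1 := ((((((h1.mul h2).mul h2).sub_const (3 * ‖v‖ ^ 2)).sub (h3.const_mul 2)).smul
    (hasFDerivAt_id z)).add h5).sub (((h1.const_mul 2).mul h2).smul h4)
  rw [e]
  refine k1.congr_fderiv ?_
  ext x
  have e5 : ∑ a, (2 * ⟪v, c.S a x⟫_ℝ) • c.S a v = (2 : ℝ) • c.ric_P3 v v x := by
    rw [ric_P3_apply, smul_sum]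
    refine sum_congr rfl fun a _ => ?_
    rw [smul_smul, c.symm a v x]
  simp only [ric_dG, ContinuousLinearMap.add_apply, ContinuousLinearMap.sub_apply,
    ContinuousLinearMap.smul_apply, ContinuousLinearMap.smulRight_apply, innerSL_apply_apply,
    ContinuousLinearMap.id_apply, ContinuousLinearMap.sum_apply, ContinuousLinearMap.comp_apply,
    smul_eq_mul, e5, Pi.sub_apply, Pi.mul_apply, id_eq]
  module

theorem ric_tr_dQ (h2 : 2 ≤ Fintype.card ι) (z v : E) :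
    tr (c.ric_dQ z v) = (2 - (Fintype.card ι : ℝ)) * ⟪z, v⟫_ℝ := by
  rw [ric_dQ, tr_sub, ric_tr_sum]
  simp_rw [tr_add, tr_smul, c.ric_tr_S h2, tr_smulRight]
  simp only [ContinuousLinearMap.comp_apply, ContinuousLinearMap.smul_apply, innerSL_apply_apply,
    c.SS, smul_eq_mul, mul_zero, zero_add, sum_const, card_univ, nsmul_eq_mul,
    real_inner_comm z v]
  ring

theorem ric_tr_P3 (z v : E) : tr (c.ric_P3 z v) = Fintype.card ι * ⟪z, v⟫_ℝ := by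
  have h := c.ric_tr_P3_comp z v (ContinuousLinearMap.id ℝ E)
  rw [ContinuousLinearMap.comp_id] at h
  rw [h]
  simp [c.inner_SS]

/-- T1 -/
theorem ric_tr_dG (h2 : 2 ≤ Fintype.card ι) (z v : E) : tr (c.ric_dG z v)
    = ((1 + ‖z‖ ^ 2)⁻¹ * ⟪z, v⟫_ℝ ^ 2 - 3 * ‖v‖ ^ 2 - 2 * c.q z v) * Module.finrank ℝ E
      + 2 * (1 + ‖z‖ ^ 2)⁻¹ * ⟪z, v⟫_ℝ ^ 2 - 2 * ((1 + ‖z‖ ^ 2) ^ 2)⁻¹ * ⟪z, v⟫_ℝ ^ 2 * ‖z‖ ^ 2
      - 4 * c.q z v + 2 * Fintype.card ι * ‖v‖ ^ 2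
      + 2 * (1 + ‖z‖ ^ 2)⁻¹ * ((Fintype.card ι : ℝ) - 2) * ⟪z, v⟫_ℝ ^ 2
      - 2 * (1 + ‖z‖ ^ 2)⁻¹ * c.q z v := by
  rw [ric_dG, tr_sub, tr_add, tr_add, tr_add, tr_smul, tr_smul, tr_smul, tr_id, tr_smulRight,
    tr_smulRight, c.ric_tr_dQ h2, ric_tr_P3]
  have e1 : ⟪c.Q v z, z⟫_ℝ = c.q z v := by rw [inner_Q_self, q_comm]
  have e2 : ⟪v, z⟫_ℝ = ⟪z, v⟫_ℝ := real_inner_comm _ _
  simp only [ContinuousLinearMap.sub_apply, ContinuousLinearMap.smul_apply, innerSL_apply_apply,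
    smul_eq_mul, e1, e2, inner_z_Q, ric_inner_Q_self', real_inner_self_eq_norm_sq]
  ring

theorem ric_contDiff_oG_ric : ContDiff ℝ ∞ c.oG := by
  have h0 : ContDiff ℝ ∞ (fun z : E => innerSL ℝ z) := (innerSL ℝ).contDiff
  have h1 : ContDiff ℝ ∞ (fun z : E => z) := contDiff_id
  have hS : ∀ a, ContDiff ℝ ∞ (fun z : E => innerSL ℝ (c.S a z)) := fun a =>
    (innerSL ℝ).contDiff.comp (c.S a).contDiff
  have hf : ContDiff ℝ ∞ (fun z : E => ((ContinuousLinearMap.smulRightL ℝ E E).flip z).comp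
      (isl' : E →L[ℝ] E →L[ℝ] ℝ)) := (ContinuousLinearMap.contDiff _).clm_comp contDiff_const
  have hU : ContDiff ℝ ∞ (fun z : E => (1 + ‖z‖ ^ 2)⁻¹ • innerSL ℝ z) := Cx.contDiff_Ui.smul h0
  have e : c.oG = fun z : E =>
      ((1 + ‖z‖ ^ 2)⁻¹ • innerSL ℝ z).smulRight ((innerSL ℝ z).smulRight z)
      - (3 : ℝ) • ((ContinuousLinearMap.smulRightL ℝ E E).flip z).comp isl'
      - (2 : ℝ) • (((ContinuousLinearMap.smulRightL ℝ E E).flip z).comp isl').comp (c.Q z)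
      + ∑ a, ((innerSL ℝ (c.S a z)).smulRight (c.S a)
          + (ContinuousLinearMap.smulRightL ℝ E E (innerSL ℝ (c.S a z))).comp (c.S a))
      - (((1 + ‖z‖ ^ 2)⁻¹ • innerSL ℝ z).smulRight (c.Q z)
          + (ContinuousLinearMap.smulRightL ℝ E E ((1 + ‖z‖ ^ 2)⁻¹ • innerSL ℝ z)).comp
            (c.Q z)) := by
    funext z
    rw [oG]
    congr 1
    ext v x
    simp only [ContinuousLinearMap.add_apply, ContinuousLinearMap.smul_apply,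
      ContinuousLinearMap.smulRight_apply, innerSL_apply_apply, ContinuousLinearMap.comp_apply,
      ContinuousLinearMap.smulRightL_apply_apply, smul_eq_mul]
    module
  rw [e]
  refine ContDiff.sub (ContDiff.add (ContDiff.sub (ContDiff.sub ?_ ?_) ?_) (ContDiff.sum ?_)) ?_
  · exact hU.smulRight (h0.smulRight h1)
  · fun_prop
  · have := hf.clm_comp c.contDiff_Q
    fun_prop
  · intro a _
    exact ((hS a).smulRight contDiff_const).add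
      (((ContinuousLinearMap.contDiff _).comp (hS a)).clm_comp contDiff_const)
  · exact (hU.smulRight c.contDiff_Q).add
      (((ContinuousLinearMap.contDiff _).comp hU).clm_comp c.contDiff_Q)

theorem ric_flip_fderiv_oG (z v : E) :
    ((fderiv ℝ c.oG z).flip v).flip v = c.ric_dG z v := by
  have h := (c.ric_contDiff_oG_ric.differentiable (by simp)).differentiableAt (x := z)
  have h1 := (h.hasFDerivAt.clm_apply (hasFDerivAt_const v z)).clm_apply (hasFDerivAt_const v z)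
  have h2 := h1.unique (c.ric_hasFDerivAt_oG z v)
  ext x
  have h3 := congrArg (fun L : E →L[ℝ] E => L x) h2
  simpa using h3

/-- T3 -/
theorem ric_tr_fderiv_oG (h2 : 2 ≤ Fintype.card ι)
    (hN : (Module.finrank ℝ E : ℝ) = 2 * Fintype.card ι - 2) (z x v : E) :
    tr (fderiv ℝ c.oG z x v) = ((Fintype.card ι : ℝ) - 3) * ((1 + ‖z‖ ^ 2)⁻¹ * ⟪v, x⟫_ℝ
      - 2 * ((1 + ‖z‖ ^ 2) ^ 2)⁻¹ * ⟪z, v⟫_ℝ * ⟪z, x⟫_ℝ) := by
  have h := (c.ric_contDiff_oG_ric.differentiable (by simp)).differentiableAt (x := z)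
  have h1 := h.hasFDerivAt.clm_apply (hasFDerivAt_const v z)
  have h4 := (Cx.trL (E := E)).hasFDerivAt.comp z h1
  have h3 : HasFDerivAt (fun y => Cx.trL (c.oG y v))
      (((Fintype.card ι : ℝ) - 3) • ((1 + ‖z‖ ^ 2)⁻¹ • innerSL ℝ v
        + ⟪z, v⟫_ℝ • (-(2 * ((1 + ‖z‖ ^ 2) ^ 2)⁻¹)) • innerSL ℝ z)) z := by
    have e : (fun y => Cx.trL (c.oG y v))
        = fun y => ((Fintype.card ι : ℝ) - 3) * ((1 + ‖y‖ ^ 2)⁻¹ * ⟪y, v⟫_ℝ) := by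
      funext y
      rw [Cx.trL_apply, c.ric_tr_oG' h2 hN]
    rw [e]
    exact ((Cx.hasFDerivAt_Ui z).mul (Cx.hasFDerivAt_inner v z)).const_mul _
  have h5 := congrArg (fun L : E →L[ℝ] ℝ => L x) (h4.unique h3)
  have h6 : Cx.trL ((fderiv ℝ c.oG z x) v)
      = ((Fintype.card ι : ℝ) - 3) * ((1 + ‖z‖ ^ 2)⁻¹ * ⟪v, x⟫_ℝ)
        + -(((Fintype.card ι : ℝ) - 3)
          * (⟪z, v⟫_ℝ * (2 * ((1 + ‖z‖ ^ 2) ^ 2)⁻¹ * ⟪z, x⟫_ℝ))) := by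
    simpa using h5
  rw [Cx.trL_apply] at h6
  rw [h6]
  ring

/-- The Ricci identity. -/
theorem ric (h2 : 2 ≤ Fintype.card ι)
    (hN : (Module.finrank ℝ E : ℝ) = 2 * Fintype.card ι - 2) (z v : E) :
    tr (((fderiv ℝ c.oG z).flip v).flip v) + tr (c.oG z (c.oG z v v))
      - tr (fderiv ℝ c.oG z v v) - tr ((c.oG z v).comp (c.oG z v))
    = -((Module.finrank ℝ E : ℝ) - 1 + 3 * (Fintype.card ι - 2)) * ⟪c.oA z v, v⟫_ℝ := by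
  have h3 := (U_pos z).ne'
  have e1 : ⟪z, c.oG z v v⟫_ℝ = ((1 + ‖z‖ ^ 2)⁻¹ * ⟪z, v⟫_ℝ ^ 2 - ‖v‖ ^ 2 - 2 * c.q z v) * ‖z‖ ^ 2
      - 2 * c.q z v := by
    have e2 : ⟪z, c.sv (c.ric_cs z v) v⟫_ℝ = ‖z‖ ^ 2 * ‖v‖ ^ 2 - c.q z v := by
      rw [← sv_symm, ric_sv_cs_z, inner_sub_left, real_inner_smul_left, inner_Q_self,
        real_inner_self_eq_norm_sq]
    have e3 : ⟪z, c.ric_P3 z v v⟫_ℝ = ‖z‖ ^ 2 * ‖v‖ ^ 2 - c.q z v := by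
      rw [ric_P3_apply, inner_sum, ← ric_sum_cs_sq]
      refine sum_congr rfl fun a _ => ?_
      rw [real_inner_smul_right, ← c.symm, ric_cs, sq]
    rw [ric_oG_eq, inner_sub_right, inner_sub_right, inner_add_right, inner_add_right, e2, e3]
    simp only [real_inner_smul_right, inner_z_Q, ric_inner_ol_v, real_inner_self_eq_norm_sq]
    ring
  have e4 : ⟪c.oA z v, v⟫_ℝ = ‖v‖ ^ 2 - (1 + ‖z‖ ^ 2)⁻¹ * ⟪z, v⟫_ℝ ^ 2 + c.q z v := by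
    rw [oA_apply, inner_add_left, inner_sub_left, real_inner_smul_left, inner_Q_self,
      real_inner_self_eq_norm_sq]
    ring
  rw [ric_flip_fderiv_oG, c.ric_tr_dG h2, c.ric_tr_oG' h2 hN, c.ric_tr_fderiv_oG h2 hN, c.ric_tr_oG_sq h2 hN, e1, e4,
    real_inner_self_eq_norm_sq, hN]
  field_simp
  ring

end trace

end Clif

end

end Pool.Agent.Work.MP_3b24f6_gt
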