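import Pool.Agent.Work.MP_3b24f6_gt.OctHomB
import Pool.Agent.Work.MP_3b24f6_gt.OGam
import Pool.Agent.Work.MP_3b24f6_gt.OInst

/-!
# The Cayley hyperbolic plane as an instance of the common interface
-/

set_option autoImplicit false

open MeasureTheory Set Filter Topology
open scoped ContDiff InnerProductSpace

namespace Pool.Agent.Work.MP_3b24f6_gt

noncomputable section

/-- The vertical structure defined by a Clifford system. -/
def Clif.ver {E : Type*} [NormedAddCommGroup E] [InnerProductSpace ℝ E] [FiniteDimensional ℝ E]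
    {ι : Type} [Fintype ι] [DecidableEq ι] (c : Clif E ι) (w : ℕ) (hw : 1 ≤ w)
    (hι : Fintype.card ι = w + 2) (hE : Module.finrank ℝ E = 2 * w + 2) : Ver E where
  w := w
  Q := c.Q
  one_le_w := hw
  dim_le := hE.ge
  smooth_Q := c.contDiff_Q
  Q_symm := c.Q_symm
  Q_self := c.Q_self
  Q_Q := c.QQ
  tr_Q := fun y => by
    rw [c.tr_Q, hE, hι]
    push_cast
    ring
  Q_smul := c.Q_smul

/-- The Cayley hyperbolic plane: `ℝ^16` with `Q y v = ‖y‖² v - ∑ a, ⟪S a y, v⟫ S a y`, where
`S 0, …, S 8` are the nine symmetric operators of the Hopf fibration `S^15 → S^8`. -/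
def verO : Ver (EuclideanSpace ℝ (Fin 16)) :=
  clif16.ver 7 (by norm_num) (by simp) (by simp)

/-- Homogeneity of the Cayley hyperbolic plane. -/
def homO : HomB verO :=
  OIso.ohomB clif16 verO rfl (by
    have : verO.w = 7 := rfl
    rw [this]
    simp)

end

end Pool.Agent.Work.MP_3b24f6_gt
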