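import Pool.Agent.Work.MP_3b24f6_gt.OSpin
import Pool.Agent.Work.MP_3b24f6_gt.Model

set_option autoImplicit false

open MeasureTheory Set Filter Topology
open scoped ContDiff InnerProductSpace

namespace Pool.Agent.Work.MP_3b24f6_gt

noncomputable section

variable {E : Type*} [NormedAddCommGroup E] [InnerProductSpace ℝ E]
variable {ι : Type} [Fintype ι] [DecidableEq ι]

namespace OIso

variable (c : Clif E ι)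

theorem SS (a : ι) (x : E) : c.S a (c.S a x) = x := by
  have h := c.rel a a x
  rw [if_pos rfl, two_smul] at h
  have h2 : (2 : ℝ) • c.S a (c.S a x) = (2 : ℝ) • x := by rw [two_smul, two_smul]; exact h
  exact smul_right_injective E (two_ne_zero) h2

theorem norm_S (a : ι) (x : E) : ‖c.S a x‖ = ‖x‖ := by
  have h : ‖c.S a x‖ ^ 2 = ‖x‖ ^ 2 := by
    rw [← real_inner_self_eq_norm_sq, c.symm, SS, real_inner_self_eq_norm_sq]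
  exact (pow_left_inj₀ (norm_nonneg _) (norm_nonneg _) two_ne_zero).mp h

theorem inner_SS (a : ι) (x y : E) : ⟪c.S a x, c.S a y⟫_ℝ = ⟪x, y⟫_ℝ := by
  rw [c.symm, SS]

theorem inner_S_comm (a : ι) (x y : E) : ⟪c.S a x, y⟫_ℝ = ⟪c.S a y, x⟫_ℝ := by
  rw [c.symm, real_inner_comm]

/-- `S a x ⟂ S b x` -/
theorem inner_S_S (a b : ι) (x : E) :
    ⟪c.S a x, c.S b x⟫_ℝ = if a = b then ‖x‖ ^ 2 else 0 := by
  have h1 : ⟪c.S a x, c.S b x⟫_ℝ = ⟪x, c.S a (c.S b x)⟫_ℝ := c.symm _ _ _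
  have h2 : ⟪c.S a x, c.S b x⟫_ℝ = ⟪x, c.S b (c.S a x)⟫_ℝ := by
    rw [real_inner_comm, c.symm]
  have h3 : 2 * ⟪c.S a x, c.S b x⟫_ℝ = ⟪x, c.S a (c.S b x) + c.S b (c.S a x)⟫_ℝ := by
    rw [inner_add_right, ← h1, ← h2]; ring
  rw [c.rel] at h3
  split_ifs with hab
  · rw [if_pos hab, real_inner_smul_right, real_inner_self_eq_norm_sq] at h3
    linarith
  · rw [if_neg hab, inner_zero_right] at h3
    linarith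

/-- second polarisation of the quartic identity. -/
theorem pol2 (x y : E) : ∑ a, ⟪c.S a x, x⟫_ℝ * ⟪c.S a y, y⟫_ℝ + 2 * ∑ a, ⟪c.S a x, y⟫_ℝ ^ 2
    = ‖x‖ ^ 2 * ‖y‖ ^ 2 + 2 * ⟪x, y⟫_ℝ ^ 2 := by
  have h1 := c.hopf (x + y)
  have h2 := c.hopf (x - y)
  have h3 := c.hopf x
  have h4 := c.hopf y
  have e1 : ∀ a, ⟪c.S a (x + y), x + y⟫_ℝ
      = ⟪c.S a x, x⟫_ℝ + 2 * ⟪c.S a x, y⟫_ℝ + ⟪c.S a y, y⟫_ℝ := by
    intro a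
    rw [map_add, inner_add_left, inner_add_right, inner_add_right, inner_S_comm c a y x]
    ring
  have e2 : ∀ a, ⟪c.S a (x - y), x - y⟫_ℝ
      = ⟪c.S a x, x⟫_ℝ - 2 * ⟪c.S a x, y⟫_ℝ + ⟪c.S a y, y⟫_ℝ := by
    intro a
    rw [map_sub, inner_sub_left, inner_sub_right, inner_sub_right, inner_S_comm c a y x]
    ring
  have n1 : ‖x + y‖ ^ 4 = (‖x‖ ^ 2 + 2 * ⟪x, y⟫_ℝ + ‖y‖ ^ 2) ^ 2 := by
    rw [← norm_add_sq_real]; ring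
  have n2 : ‖x - y‖ ^ 4 = (‖x‖ ^ 2 - 2 * ⟪x, y⟫_ℝ + ‖y‖ ^ 2) ^ 2 := by
    rw [← norm_sub_sq_real]; ring
  rw [n1] at h1
  rw [n2] at h2
  simp only [e1] at h1
  simp only [e2] at h2
  have e3 : (∑ a, (⟪c.S a x, x⟫_ℝ + 2 * ⟪c.S a x, y⟫_ℝ + ⟪c.S a y, y⟫_ℝ) ^ 2)
      + (∑ a, (⟪c.S a x, x⟫_ℝ - 2 * ⟪c.S a x, y⟫_ℝ + ⟪c.S a y, y⟫_ℝ) ^ 2)
      = 2 * ∑ a, ⟪c.S a x, x⟫_ℝ ^ 2 + 2 * ∑ a, ⟪c.S a y, y⟫_ℝ ^ 2
        + 4 * (∑ a, ⟪c.S a x, x⟫_ℝ * ⟪c.S a y, y⟫_ℝ) + 8 * ∑ a, ⟪c.S a x, y⟫_ℝ ^ 2 := by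
    simp only [Finset.mul_sum, ← Finset.sum_add_distrib]
    exact Finset.sum_congr rfl fun a _ => by ring
  rw [h1, h2, h3, h4] at e3
  nlinarith [e3]

/-- polarised in the second argument. -/
theorem pol3 (x y z : E) : ∑ a, ⟪c.S a x, x⟫_ℝ * ⟪c.S a y, z⟫_ℝ
      + 2 * ∑ a, ⟪c.S a x, y⟫_ℝ * ⟪c.S a x, z⟫_ℝ
    = ‖x‖ ^ 2 * ⟪y, z⟫_ℝ + 2 * ⟪x, y⟫_ℝ * ⟪x, z⟫_ℝ := by
  have h1 := pol2 c x (y + z)
  have h2 := pol2 c x (y - z)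
  have e1 : ∀ a, ⟪c.S a (y + z), y + z⟫_ℝ
      = ⟪c.S a y, y⟫_ℝ + 2 * ⟪c.S a y, z⟫_ℝ + ⟪c.S a z, z⟫_ℝ := by
    intro a
    rw [map_add, inner_add_left, inner_add_right, inner_add_right, inner_S_comm c a z y]
    ring
  have e2 : ∀ a, ⟪c.S a (y - z), y - z⟫_ℝ
      = ⟪c.S a y, y⟫_ℝ - 2 * ⟪c.S a y, z⟫_ℝ + ⟪c.S a z, z⟫_ℝ := by
    intro a
    rw [map_sub, inner_sub_left, inner_sub_right, inner_sub_right, inner_S_comm c a z y]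
    ring
  simp only [e1, inner_add_right] at h1
  simp only [e2, inner_sub_right] at h2
  rw [norm_add_sq_real] at h1
  rw [norm_sub_sq_real] at h2
  have e3 : (∑ a, ⟪c.S a x, x⟫_ℝ * (⟪c.S a y, y⟫_ℝ + 2 * ⟪c.S a y, z⟫_ℝ + ⟪c.S a z, z⟫_ℝ)
        + 2 * ∑ a, (⟪c.S a x, y⟫_ℝ + ⟪c.S a x, z⟫_ℝ) ^ 2)
      - (∑ a, ⟪c.S a x, x⟫_ℝ * (⟪c.S a y, y⟫_ℝ - 2 * ⟪c.S a y, z⟫_ℝ + ⟪c.S a z, z⟫_ℝ)
        + 2 * ∑ a, (⟪c.S a x, y⟫_ℝ - ⟪c.S a x, z⟫_ℝ) ^ 2)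
      = 4 * (∑ a, ⟪c.S a x, x⟫_ℝ * ⟪c.S a y, z⟫_ℝ
      + 2 * ∑ a, ⟪c.S a x, y⟫_ℝ * ⟪c.S a x, z⟫_ℝ) := by
    simp only [Finset.mul_sum, ← Finset.sum_add_distrib, ← Finset.sum_sub_distrib]
    exact Finset.sum_congr rfl fun a _ => by ring
  rw [h1, h2] at e3
  linarith [e3]

/-- polarised in all arguments. -/
theorem pol4 (x w y z : E) : ∑ a, ⟪c.S a x, w⟫_ℝ * ⟪c.S a y, z⟫_ℝ
      + ∑ a, ⟪c.S a x, y⟫_ℝ * ⟪c.S a w, z⟫_ℝ + ∑ a, ⟪c.S a w, y⟫_ℝ * ⟪c.S a x, z⟫_ℝ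
    = ⟪x, w⟫_ℝ * ⟪y, z⟫_ℝ + ⟪x, y⟫_ℝ * ⟪w, z⟫_ℝ + ⟪w, y⟫_ℝ * ⟪x, z⟫_ℝ := by
  have h1 := pol3 c (x + w) y z
  have h2 := pol3 c (x - w) y z
  have e1 : ∀ a, ⟪c.S a (x + w), x + w⟫_ℝ
      = ⟪c.S a x, x⟫_ℝ + 2 * ⟪c.S a x, w⟫_ℝ + ⟪c.S a w, w⟫_ℝ := by
    intro a
    rw [map_add, inner_add_left, inner_add_right, inner_add_right, inner_S_comm c a w x]
    ring
  have e2 : ∀ a, ⟪c.S a (x - w), x - w⟫_ℝ
      = ⟪c.S a x, x⟫_ℝ - 2 * ⟪c.S a x, w⟫_ℝ + ⟪c.S a w, w⟫_ℝ := by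
    intro a
    rw [map_sub, inner_sub_left, inner_sub_right, inner_sub_right, inner_S_comm c a w x]
    ring
  simp only [e1] at h1
  simp only [map_add, inner_add_left] at h1
  simp only [e2] at h2
  simp only [map_sub, inner_sub_left] at h2
  rw [norm_add_sq_real] at h1
  rw [norm_sub_sq_real] at h2
  have e3 : (∑ a, (⟪c.S a x, x⟫_ℝ + 2 * ⟪c.S a x, w⟫_ℝ + ⟪c.S a w, w⟫_ℝ) * ⟪c.S a y, z⟫_ℝ
        + 2 * ∑ a, (⟪c.S a x, y⟫_ℝ + ⟪c.S a w, y⟫_ℝ) * (⟪c.S a x, z⟫_ℝ + ⟪c.S a w, z⟫_ℝ))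
      - (∑ a, (⟪c.S a x, x⟫_ℝ - 2 * ⟪c.S a x, w⟫_ℝ + ⟪c.S a w, w⟫_ℝ) * ⟪c.S a y, z⟫_ℝ
        + 2 * ∑ a, (⟪c.S a x, y⟫_ℝ - ⟪c.S a w, y⟫_ℝ) * (⟪c.S a x, z⟫_ℝ - ⟪c.S a w, z⟫_ℝ))
      = 4 * (∑ a, ⟪c.S a x, w⟫_ℝ * ⟪c.S a y, z⟫_ℝ
      + ∑ a, ⟪c.S a x, y⟫_ℝ * ⟪c.S a w, z⟫_ℝ + ∑ a, ⟪c.S a w, y⟫_ℝ * ⟪c.S a x, z⟫_ℝ) := by
    simp only [Finset.mul_sum, ← Finset.sum_add_distrib, ← Finset.sum_sub_distrib]
    exact Finset.sum_congr rfl fun a _ => by ring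
  rw [h1, h2] at e3
  linarith [e3]

/-- vector form of `pol3`. -/
theorem pol3v (x y : E) : ∑ a, ⟪c.S a x, x⟫_ℝ • c.S a y + (2 : ℝ) • ∑ a, ⟪c.S a x, y⟫_ℝ • c.S a x
    = ‖x‖ ^ 2 • y + (2 * ⟪x, y⟫_ℝ) • x := by
  refine ext_inner_right ℝ fun z => ?_
  have h := pol3 c x y z
  simp only [inner_add_left, sum_inner, real_inner_smul_left]
  exact h

/-- `∑ ⟪S a x, x⟫ S a x = |x|² x`. -/
theorem S_sg (x : E) : ∑ a, ⟪c.S a x, x⟫_ℝ • c.S a x = ‖x‖ ^ 2 • x := by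
  have h := pol3v c x x
  rw [real_inner_self_eq_norm_sq] at h
  have h1 : (3 : ℝ) • ∑ a, ⟪c.S a x, x⟫_ℝ • c.S a x = (3 : ℝ) • (‖x‖ ^ 2 • x) := by
    rw [show (3 : ℝ) = 1 + 2 by norm_num, add_smul, one_smul, h, add_smul, one_smul, mul_smul]
  exact smul_right_injective E (three_ne_zero) h1

/-- `(∑ v a S a)(∑ w b S b) + (∑ w b S b)(∑ v a S a) = 2 ⟪v, w⟫`. -/
theorem cliff_sum (v w : ι → ℝ) (x : E) :
    ∑ a, v a • c.S a (∑ b, w b • c.S b x) + ∑ a, w a • c.S a (∑ b, v b • c.S b x)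
      = (2 * ∑ a, v a * w a) • x := by
  have h1 : ∑ a, v a • c.S a (∑ b, w b • c.S b x) = ∑ a, ∑ b, (v a * w b) • c.S a (c.S b x) := by
    refine Finset.sum_congr rfl fun a _ => ?_
    rw [map_sum, Finset.smul_sum]
    exact Finset.sum_congr rfl fun b _ => by rw [map_smul, smul_smul]
  have h2 : ∑ a, w a • c.S a (∑ b, v b • c.S b x) = ∑ a, ∑ b, (v a * w b) • c.S b (c.S a x) := by
    rw [Finset.sum_comm]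
    refine Finset.sum_congr rfl fun a _ => ?_
    rw [map_sum, Finset.smul_sum]
    exact Finset.sum_congr rfl fun b _ => by rw [map_smul, smul_smul, mul_comm]
  rw [h1, h2, ← Finset.sum_add_distrib]
  have h3 : ∀ a, ∑ b, (v a * w b) • c.S a (c.S b x) + ∑ b, (v a * w b) • c.S b (c.S a x)
      = (2 * (v a * w a)) • x := by
    intro a
    rw [← Finset.sum_add_distrib]
    have : ∀ b, (v a * w b) • c.S a (c.S b x) + (v a * w b) • c.S b (c.S a x)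
        = if a = b then (2 * (v a * w b)) • x else 0 := by
      intro b
      rw [← smul_add, c.rel]
      split_ifs
      · rw [smul_smul]; congr 1; ring
      · exact smul_zero _
    simp only [this]
    rw [Finset.sum_ite_eq]
    simp
  simp only [h3]
  rw [← Finset.sum_smul, Finset.mul_sum]

end OIso

end

end Pool.Agent.Work.MP_3b24f6_gt
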