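import Pool.Agent.Work.MP_3b24f6_gt.OctAlg
import Pool.Agent.Work.MP_3b24f6_gt.ComplexIso

set_option autoImplicit false

open MeasureTheory Set Filter Topology
open scoped ContDiff InnerProductSpace

namespace Pool.Agent.Work.MP_3b24f6_gt

noncomputable section

namespace OIso

section generic

variable {V : Type*} [NormedAddCommGroup V] [NormedSpace ℝ V] [CompleteSpace V]

/-- The linear flow of `D`. -/
def flow (D : V →L[ℝ] V) (t : ℝ) : V →L[ℝ] V := NormedSpace.exp (t • D)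

theorem flow_zero (D : V →L[ℝ] V) : flow D 0 = 1 := by
  unfold flow
  rw [zero_smul, NormedSpace.exp_zero]

theorem hasDerivAt_flow (D : V →L[ℝ] V) (t : ℝ) (x : V) :
    HasDerivAt (fun t => flow D t x) (D (flow D t x)) t := by
  have h := hasDerivAt_exp_smul_const' D t
  have h2 := h.clm_apply (hasDerivAt_const t x)
  refine h2.congr_deriv ?_
  simp [flow]

theorem hasDerivAt_flow_op (D : V →L[ℝ] V) (t : ℝ) :
    HasDerivAt (fun t => flow D t) (flow D t * D) t :=
  hasDerivAt_exp_smul_const D t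

theorem flow_neg_mul (D : V →L[ℝ] V) (t : ℝ) : flow D (-t) * flow D t = 1 := by
  unfold flow
  letI : NormedAlgebra ℚ (V →L[ℝ] V) := NormedAlgebra.restrictScalars ℚ ℝ (V →L[ℝ] V)
  rw [← NormedSpace.exp_add_of_commute (((Commute.refl D).smul_left _).smul_right _),
    ← add_smul, neg_add_cancel, zero_smul, NormedSpace.exp_zero]

theorem flow_mul_neg (D : V →L[ℝ] V) (t : ℝ) : flow D t * flow D (-t) = 1 := by
  have := flow_neg_mul D (-t)
  rwa [neg_neg] at this

omit [CompleteSpace V] in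
theorem flow_neg (D : V →L[ℝ] V) (t : ℝ) : flow (-D) t = flow D (-t) := by
  unfold flow
  rw [smul_neg, neg_smul]

/-- Uniqueness for linear equations. -/
theorem eq_flow (D : V →L[ℝ] V) (X : ℝ → V) (hX : ∀ t, HasDerivAt X (D (X t)) t) (t : ℝ) :
    X t = flow D t (X 0) := by
  have h1 : ∀ s, HasDerivAt (fun s => flow D (-s) (X s)) 0 s := by
    intro s
    have h2 : HasDerivAt (fun s => flow D (-s)) (-(flow D (-s) * D)) s := by
      have h3 := (hasDerivAt_flow_op D (-s)).scomp s (hasDerivAt_neg s)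
      refine h3.congr_deriv ?_
      simp
    have h4 := h2.clm_apply (hX s)
    refine h4.congr_deriv ?_
    simp
  have h2 : ∀ s, flow D (-s) (X s) = X 0 := by
    intro s
    have h3 := is_const_of_deriv_eq_zero (fun s => (h1 s).differentiableAt)
      (fun s => (h1 s).deriv) s 0
    simpa [flow_zero] using h3
  rw [← h2 t, ← ContinuousLinearMap.comp_apply]
  have := flow_mul_neg D t
  rw [ContinuousLinearMap.mul_def] at this
  rw [this]
  rfl

end generic

variable {E : Type*} [NormedAddCommGroup E] [InnerProductSpace ℝ E] [FiniteDimensional ℝ E]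
variable {ι : Type} [Fintype ι] [DecidableEq ι] (c : Clif E ι)

/-- The ambient linear space: `(σ, ψ, β, α)`. -/
abbrev VV (E : Type*) (ι : Type) : Type _ := (ι → ℝ) × E × ℝ × ℝ

/-- The generator of the transvections in the direction `e`. -/
def gen (e : E) : VV E ι →L[ℝ] VV E ι :=
  LinearMap.toContinuousLinearMap
    { toFun := fun X => (fun a => 2 * ⟪c.S a X.2.1, e⟫_ℝ,
        (X.2.2.1 + X.2.2.2) • e + (2 : ℝ)⁻¹ • ∑ a, X.1 a • c.S a e,
        2 * ⟪X.2.1, e⟫_ℝ, ⟪X.2.1, e⟫_ℝ)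
      map_add' := by
        intro X Y
        refine Prod.ext ?_ (Prod.ext ?_ (Prod.ext ?_ ?_))
        · funext a
          simp only [Prod.fst_add, Prod.snd_add, map_add, inner_add_left, Pi.add_apply]
          ring
        · simp only [Prod.fst_add, Prod.snd_add, Pi.add_apply, add_smul, Finset.sum_add_distrib,
            smul_add]
          abel
        · simp only [Prod.fst_add, Prod.snd_add, inner_add_left]
          ring
        · simp only [Prod.fst_add, Prod.snd_add, inner_add_left]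
      map_smul' := by
        intro r X
        refine Prod.ext ?_ (Prod.ext ?_ (Prod.ext ?_ ?_))
        · funext a
          simp only [Prod.smul_fst, Prod.smul_snd, map_smul, real_inner_smul_left, Pi.smul_apply,
            smul_eq_mul, RingHom.id_apply]
          ring
        · simp only [Prod.smul_fst, Prod.smul_snd, Pi.smul_apply, smul_eq_mul, smul_add,
            RingHom.id_apply, Finset.smul_sum, smul_smul]
          congr 1
          · congr 1; ring
          · refine Finset.sum_congr rfl fun a _ => ?_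
            congr 1; ring
        · simp only [Prod.smul_fst, Prod.smul_snd, real_inner_smul_left, smul_eq_mul,
            RingHom.id_apply]
          ring
        · simp only [Prod.smul_fst, Prod.smul_snd, real_inner_smul_left, smul_eq_mul,
            RingHom.id_apply] }

theorem gen_apply (e : E) (X : VV E ι) : gen c e X = (fun a => 2 * ⟪c.S a X.2.1, e⟫_ℝ,
        (X.2.2.1 + X.2.2.2) • e + (2 : ℝ)⁻¹ • ∑ a, X.1 a • c.S a e,
        2 * ⟪X.2.1, e⟫_ℝ, ⟪X.2.1, e⟫_ℝ) := rfl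

/-- The equations of motion of the four relations. -/
def gen2 (e : E) : VV E ι →L[ℝ] VV E ι :=
  LinearMap.toContinuousLinearMap
    { toFun := fun X => (fun a => -⟪c.S a X.2.1, e⟫_ℝ,
        (X.2.2.1 + 2⁻¹ * X.2.2.2) • e - ∑ a, X.1 a • c.S a e,
        ⟪X.2.1, e⟫_ℝ, 4 * ⟪X.2.1, e⟫_ℝ)
      map_add' := by
        intro X Y
        refine Prod.ext ?_ (Prod.ext ?_ (Prod.ext ?_ ?_))
        · funext a
          simp only [Prod.fst_add, Prod.snd_add, map_add, inner_add_left, Pi.add_apply]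
          ring
        · simp only [Prod.fst_add, Prod.snd_add, Pi.add_apply, add_smul, Finset.sum_add_distrib,
            smul_add, mul_add]
          abel
        · simp only [Prod.fst_add, Prod.snd_add, inner_add_left]
        · simp only [Prod.fst_add, Prod.snd_add, inner_add_left]
          ring
      map_smul' := by
        intro r X
        refine Prod.ext ?_ (Prod.ext ?_ (Prod.ext ?_ ?_))
        · funext a
          simp only [Prod.smul_fst, Prod.smul_snd, map_smul, real_inner_smul_left, Pi.smul_apply,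
            smul_eq_mul, RingHom.id_apply]
          ring
        · simp only [Prod.smul_fst, Prod.smul_snd, Pi.smul_apply, smul_eq_mul, smul_sub,
            RingHom.id_apply, Finset.smul_sum, smul_smul]
          congr 1
          congr 1; ring
        · simp only [Prod.smul_fst, Prod.smul_snd, real_inner_smul_left, smul_eq_mul,
            RingHom.id_apply]
        · simp only [Prod.smul_fst, Prod.smul_snd, real_inner_smul_left, smul_eq_mul,
            RingHom.id_apply]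
          ring }

theorem gen2_apply (e : E) (X : VV E ι) : gen2 c e X = (fun a => -⟪c.S a X.2.1, e⟫_ℝ,
        (X.2.2.1 + 2⁻¹ * X.2.2.2) • e - ∑ a, X.1 a • c.S a e,
        ⟪X.2.1, e⟫_ℝ, 4 * ⟪X.2.1, e⟫_ℝ) := rfl

/-- The embedding of the Cayley plane. -/
def emb (y : E) : VV E ι :=
  (fun a => ⟪c.S a y, y⟫_ℝ, uu y • y, uu y ^ 2, 2⁻¹ * ‖y‖ ^ 2)

/-- The relations. -/
def rels (X : VV E ι) : VV E ι :=
  (fun a => ⟪c.S a X.2.1, X.2.1⟫_ℝ - X.2.2.1 * X.1 a,
    ∑ a, X.1 a • c.S a X.2.1 - (2 * X.2.2.2) • X.2.1,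
    ⟪X.2.1, X.2.1⟫_ℝ - 2 * X.2.2.2 * X.2.2.1,
    ∑ a, X.1 a ^ 2 - 4 * X.2.2.2 ^ 2)

omit [FiniteDimensional ℝ E] in
theorem rels_emb (y : E) : rels c (emb c y) = 0 := by
  have hu := CIso.uu_sq y
  refine Prod.ext ?_ (Prod.ext ?_ (Prod.ext ?_ ?_))
  · funext a
    simp only [rels, emb, map_smul, real_inner_smul_left, real_inner_smul_right]
    simp only [Prod.fst_zero, Pi.zero_apply]
    ring
  · simp only [rels, emb, map_smul]
    have h := S_sg c y
    have h2 : ∑ a, ⟪c.S a y, y⟫_ℝ • uu y • c.S a y = uu y • ‖y‖ ^ 2 • y := by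
      rw [← h, Finset.smul_sum]
      exact Finset.sum_congr rfl fun a _ => smul_comm _ _ _
    rw [h2, smul_smul, smul_smul]
    simp only [Prod.snd_zero, Prod.fst_zero]
    rw [← sub_smul]
    rw [show uu y * ‖y‖ ^ 2 - 2 * (2⁻¹ * ‖y‖ ^ 2) * uu y = 0 by ring, zero_smul]
  · simp only [rels, emb]
    rw [real_inner_smul_left, real_inner_smul_right, real_inner_self_eq_norm_sq]
    simp only [Prod.snd_zero, Prod.fst_zero]
    ring
  · simp only [rels, emb]
    rw [c.hopf]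
    simp only [Prod.snd_zero]
    ring

omit [FiniteDimensional ℝ E] in
theorem alg1 (e ψ : E) (σ : ι → ℝ) (β α : ℝ) (a : ι) :
    2 * ⟪c.S a ψ, (β + α) • e + (2 : ℝ)⁻¹ • ∑ b, σ b • c.S b e⟫_ℝ
      - (2 * ⟪ψ, e⟫_ℝ * σ a + β * (2 * ⟪c.S a ψ, e⟫_ℝ))
      = -⟪c.S a (∑ b, σ b • c.S b ψ - (2 * α) • ψ), e⟫_ℝ := by
  have h1 : ⟪c.S a (∑ b, σ b • c.S b ψ), e⟫_ℝ
      = 2 * σ a * ⟪ψ, e⟫_ℝ - ∑ b, σ b * ⟪c.S a ψ, c.S b e⟫_ℝ := by
    rw [map_sum, sum_inner]
    have : ∀ b, ⟪c.S a (σ b • c.S b ψ), e⟫_ℝ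
        = (if a = b then 2 * σ b * ⟪ψ, e⟫_ℝ else 0) - σ b * ⟪c.S a ψ, c.S b e⟫_ℝ := by
      intro b
      have h2 := congrArg (fun x => ⟪x, e⟫_ℝ) (c.rel a b ψ)
      simp only [inner_add_left] at h2
      rw [c.symm b (c.S a ψ) e] at h2
      rw [map_smul, real_inner_smul_left, eq_sub_of_add_eq h2]
      split_ifs
      · rw [real_inner_smul_left]; ring
      · rw [inner_zero_left]; ring
    simp only [this]
    rw [Finset.sum_sub_distrib, Finset.sum_ite_eq]
    simp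
  rw [map_sub, inner_sub_left, h1, map_smul, real_inner_smul_left, inner_add_right,
    real_inner_smul_right, real_inner_smul_right, inner_sum]
  simp only [real_inner_smul_right]
  ring

omit [FiniteDimensional ℝ E] in
theorem alg2 (e ψ : E) (σ : ι → ℝ) (β α : ℝ) :
    ∑ a, (σ a • c.S a ((β + α) • e + (2 : ℝ)⁻¹ • ∑ b, σ b • c.S b e)
        + (2 * ⟪c.S a ψ, e⟫_ℝ) • c.S a ψ)
      - ((2 * α) • ((β + α) • e + (2 : ℝ)⁻¹ • ∑ b, σ b • c.S b e) + (2 * ⟪ψ, e⟫_ℝ) • ψ)
      = ((⟪ψ, ψ⟫_ℝ - 2 * α * β) + 2⁻¹ * (∑ a, σ a ^ 2 - 4 * α ^ 2)) • e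
        - ∑ a, (⟪c.S a ψ, ψ⟫_ℝ - β * σ a) • c.S a e := by
  have h1 := pol3v c ψ e
  have h2 := cliff_sum c σ σ e
  set s := ∑ b, σ b • c.S b e with hs
  have h3 : ∑ a, σ a • c.S a s = (∑ a, σ a ^ 2) • e := by
    have h4 : (2 : ℝ) • ∑ a, σ a • c.S a s = (2 : ℝ) • ((∑ a, σ a ^ 2) • e) := by
      rw [two_smul, h2, smul_smul]
      simp only [sq]
    exact smul_right_injective E (two_ne_zero) h4
  have h5 : ∑ a, (σ a • c.S a ((β + α) • e + (2 : ℝ)⁻¹ • s) + (2 * ⟪c.S a ψ, e⟫_ℝ) • c.S a ψ)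
      = (β + α) • s + (2 : ℝ)⁻¹ • ((∑ a, σ a ^ 2) • e)
        + (2 : ℝ) • ∑ a, ⟪c.S a ψ, e⟫_ℝ • c.S a ψ := by
    have e1 : ∀ a, σ a • c.S a ((β + α) • e + (2 : ℝ)⁻¹ • s)
        = (β + α) • (σ a • c.S a e) + (2 : ℝ)⁻¹ • (σ a • c.S a s) := by
      intro a
      rw [map_add, map_smul, map_smul, smul_add, smul_comm, smul_comm (2 : ℝ)⁻¹]
    have e2 : ∀ a, (2 * ⟪c.S a ψ, e⟫_ℝ) • c.S a ψ = (2 : ℝ) • (⟪c.S a ψ, e⟫_ℝ • c.S a ψ) := by
      intro a
      rw [mul_smul]
    simp only [e1, e2]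
    rw [Finset.sum_add_distrib, Finset.sum_add_distrib, ← Finset.smul_sum, ← Finset.smul_sum,
      ← Finset.smul_sum, h3]
  have h6 : ∑ a, (⟪c.S a ψ, ψ⟫_ℝ - β * σ a) • c.S a e
      = ∑ a, ⟪c.S a ψ, ψ⟫_ℝ • c.S a e - β • s := by
    rw [hs, Finset.smul_sum, ← Finset.sum_sub_distrib]
    exact Finset.sum_congr rfl fun a _ => by rw [sub_smul, mul_smul]
  rw [h5, h6]
  rw [← eq_sub_iff_add_eq'] at h1
  rw [h1, real_inner_self_eq_norm_sq]
  module

omit [FiniteDimensional ℝ E] in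
theorem alg3 (e ψ : E) (σ : ι → ℝ) (β α : ℝ) :
    2 * ⟪ψ, (β + α) • e + (2 : ℝ)⁻¹ • ∑ b, σ b • c.S b e⟫_ℝ
      - 2 * (⟪ψ, e⟫_ℝ * β + α * (2 * ⟪ψ, e⟫_ℝ))
      = ⟪∑ b, σ b • c.S b ψ - (2 * α) • ψ, e⟫_ℝ := by
  rw [inner_add_right, real_inner_smul_right, real_inner_smul_right, inner_sum, inner_sub_left,
    real_inner_smul_left, sum_inner]
  simp only [real_inner_smul_right, real_inner_smul_left, c.symm]
  ring

omit [FiniteDimensional ℝ E] in
theorem alg4 (e ψ : E) (σ : ι → ℝ) (α : ℝ) :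
    ∑ a, 2 * σ a * (2 * ⟪c.S a ψ, e⟫_ℝ) - 4 * (2 * α * ⟪ψ, e⟫_ℝ)
      = 4 * ⟪∑ b, σ b • c.S b ψ - (2 * α) • ψ, e⟫_ℝ := by
  rw [inner_sub_left, real_inner_smul_left, sum_inner, mul_sub, Finset.mul_sum]
  simp only [real_inner_smul_left]
  congr 1
  exact Finset.sum_congr rfl fun a _ => by ring

/-- Along the flow of `gen`, the relations follow the linear equation `gen2`. -/
theorem hasDerivAt_rels (e : E) (X : ℝ → VV E ι) (hX : ∀ t, HasDerivAt X (gen c e (X t)) t)
    (t : ℝ) : HasDerivAt (fun t => rels c (X t)) (gen2 c e (rels c (X t))) t := by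
  -- components
  have hσ : ∀ a, HasDerivAt (fun t => (X t).1 a) (2 * ⟪c.S a (X t).2.1, e⟫_ℝ) t := by
    intro a
    have h := (hX t).fst
    have h2 := (hasDerivAt_pi.mp h) a
    exact h2
  have hψ : HasDerivAt (fun t => (X t).2.1)
      (((X t).2.2.1 + (X t).2.2.2) • e + (2 : ℝ)⁻¹ • ∑ a, (X t).1 a • c.S a e) t :=
    (hX t).snd.fst
  have hβ : HasDerivAt (fun t => (X t).2.2.1) (2 * ⟪(X t).2.1, e⟫_ℝ) t := (hX t).snd.snd.fst
  have hα : HasDerivAt (fun t => (X t).2.2.2) (⟪(X t).2.1, e⟫_ℝ) t := (hX t).snd.snd.snd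
  have hS : ∀ a, HasDerivAt (fun t => c.S a (X t).2.1)
      (c.S a (((X t).2.2.1 + (X t).2.2.2) • e + (2 : ℝ)⁻¹ • ∑ b, (X t).1 b • c.S b e)) t :=
    fun a => (c.S a).hasFDerivAt.comp_hasDerivAt t hψ
  rw [gen2_apply]
  unfold rels
  refine HasDerivAt.prodMk ?_ (HasDerivAt.prodMk ?_ (HasDerivAt.prodMk ?_ ?_))
  · rw [hasDerivAt_pi]
    intro a
    have h1 := ((hS a).inner ℝ hψ).sub (hβ.mul (hσ a))
    refine h1.congr_deriv ?_
    have h2 := alg1 c e (X t).2.1 (X t).1 (X t).2.2.1 (X t).2.2.2 a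
    simp only
    rw [← h2, inner_S_comm c a _ (X t).2.1]
    ring
  · have h1 : HasDerivAt (fun t => ∑ a, (X t).1 a • c.S a (X t).2.1) _ t :=
      HasDerivAt.fun_sum (fun a _ => (hσ a).smul (hS a))
    have h2 := h1.sub ((hα.const_mul 2).smul hψ)
    refine h2.congr_deriv ?_
    exact alg2 c e (X t).2.1 (X t).1 (X t).2.2.1 (X t).2.2.2
  · have h1 := (hψ.inner ℝ hψ).sub ((hα.const_mul 2).mul hβ)
    refine h1.congr_deriv ?_
    have h2 := alg3 c e (X t).2.1 (X t).1 (X t).2.2.1 (X t).2.2.2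
    simp only
    rw [← h2, real_inner_comm (X t).2.1]
    ring
  · have h1 : HasDerivAt (fun t => ∑ a, (X t).1 a ^ 2) _ t :=
      HasDerivAt.fun_sum (fun a _ => (hσ a).pow 2)
    have h2 := h1.sub ((hα.pow 2).const_mul 4)
    refine h2.congr_deriv ?_
    have h3 := alg4 c e (X t).2.1 (X t).1 (X t).2.2.2
    simp only
    rw [← h3]
    congr 1
    · exact Finset.sum_congr rfl fun a _ => by simp
    · simp

end OIso

end

end Pool.Agent.Work.MP_3b24f6_gt
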