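import Pool.Agent.Work.MP_3b24f6_gt.OctIso

set_option autoImplicit false

open MeasureTheory Set Filter Topology
open scoped ContDiff InnerProductSpace

namespace Pool.Agent.Work.MP_3b24f6_gt

noncomputable section

variable {E : Type*} [NormedAddCommGroup E] [InnerProductSpace ℝ E]
variable {ι : Type} [Fintype ι] [DecidableEq ι] (c : Clif E ι)

open CIso

namespace OIso

theorem one_le_ochd (x y : E) : 1 ≤ c.ochd x y := by
  unfold Clif.ochd
  apply Real.one_le_sqrt.mpr
  have := one_le_uu_mul_sub x y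
  nlinarith [c.q_nonneg x y]

theorem sub_le_ochd (x y : E) : uu x * uu y - ⟪x, y⟫_ℝ ≤ c.ochd x y := by
  unfold Clif.ochd
  apply Real.le_sqrt_of_sq_le
  nlinarith [c.q_nonneg x y]

theorem ochd_comm (x y : E) : c.ochd x y = c.ochd y x := by
  unfold Clif.ochd
  rw [c.q_comm x y, real_inner_comm y x, mul_comm (uu x)]

theorem ochd_zero_left (y : E) : c.ochd 0 y = uu y := by
  unfold Clif.ochd
  have : c.q 0 y = 0 := by simp [Clif.q]
  simp [Real.sqrt_sq (uu_pos y).le, this]

theorem ochd_self (y : E) : c.ochd y y = 1 := by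
  have h : c.ochd y y ^ 2 = 1 := by
    rw [ochd_sq']
    have : c.q y (y - y) = 0 := by simp [Clif.q]
    rw [this]
    simp
  have h2 := one_le_ochd c y y
  nlinarith

theorem contDiff_ochd : ContDiff ℝ ∞ (fun q : E × E => c.ochd q.1 q.2) := by
  unfold Clif.ochd Clif.q
  refine ContDiff.sqrt ?_ ?_
  · refine ContDiff.add (ContDiff.pow (ContDiff.sub ?_ ?_) 2) (ContDiff.sub ?_ ?_)
    · exact (contDiff_uu.comp contDiff_fst).mul (contDiff_uu.comp contDiff_snd)
    · exact contDiff_fst.inner ℝ contDiff_snd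
    · exact ((contDiff_norm_sq ℝ).comp contDiff_fst).mul ((contDiff_norm_sq ℝ).comp contDiff_snd)
    · refine ContDiff.sum fun a _ => ContDiff.pow ?_ 2
      exact ((c.S a).contDiff.comp contDiff_fst).inner ℝ contDiff_snd
  · intro q
    have h1 := one_le_uu_mul_sub q.1 q.2
    have h2 := c.q_nonneg q.1 q.2
    unfold Clif.q at h2
    nlinarith

theorem hasDerivAt_ochd_line (e y : E) :
    HasDerivAt (fun t : ℝ => c.ochd (t • e) y) (-⟪e, y⟫_ℝ) 0 := by
  have hy := uu_pos y
  have h1 : HasDerivAt (fun t : ℝ => uu (t • e) * uu y - t * ⟪e, y⟫_ℝ)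
      (0 * uu y - 1 * ⟪e, y⟫_ℝ) 0 :=
    ((hasDerivAt_uu_line e).mul_const (uu y)).sub
      ((hasDerivAt_id' (0 : ℝ)).mul_const ⟪e, y⟫_ℝ)
  have h2 : HasDerivAt (fun t : ℝ => t ^ 2 * c.q e y) 0 0 := by
    have h := (hasDerivAt_pow 2 (0 : ℝ)).mul_const (c.q e y)
    refine h.congr_deriv ?_
    simp
  have h3 : HasDerivAt (fun t : ℝ => (uu (t • e) * uu y - t * ⟪e, y⟫_ℝ) ^ 2
      + t ^ 2 * c.q e y) (-2 * uu y * ⟪e, y⟫_ℝ) 0 := by
    have h := (h1.pow 2).add h2
    refine h.congr_deriv ?_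
    simp
  have h4 := h3.sqrt (by simp [hy.ne'])
  have h5 : (fun t : ℝ => c.ochd (t • e) y) = fun t : ℝ =>
      Real.sqrt ((uu (t • e) * uu y - t * ⟪e, y⟫_ℝ) ^ 2 + t ^ 2 * c.q e y) := by
    funext t
    unfold Clif.ochd
    rw [c.q_smul, real_inner_smul_left]
  rw [h5]
  refine h4.congr_deriv ?_
  simp only [zero_smul, uu_zero, one_mul, zero_mul, sub_zero]
  rw [show uu y ^ 2 + (0 : ℝ) ^ 2 * c.q e y = uu y ^ 2 by ring, Real.sqrt_sq hy.le]
  field_simp

theorem ochd_coercive (p y : E) : uu p ≤ 2 * uu y * c.ochd p y := by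
  have h1 := sub_le_ochd c p y
  have h2 := real_inner_le_norm p y
  have hp := uu_pos p
  have hy := uu_pos y
  have hpn : ‖p‖ ≤ uu p := by
    apply le_of_sq_le_sq _ hp.le
    rw [uu_sq]; linarith
  have hyn : ‖y‖ ≤ uu y := by
    apply le_of_sq_le_sq _ hy.le
    rw [uu_sq]; linarith
  have hy2 := uu_sq y
  have h3 : uu p * (uu y - ‖y‖) ≤ c.ochd p y := by
    nlinarith [norm_nonneg y, norm_nonneg p]
  have h4 : (uu y - ‖y‖) * (uu y + ‖y‖) = 1 := by nlinarith
  have h5 : 1 ≤ (uu y - ‖y‖) * (2 * uu y) := by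
    nlinarith
  calc uu p = uu p * 1 := (mul_one _).symm
    _ ≤ uu p * ((uu y - ‖y‖) * (2 * uu y)) := mul_le_mul_of_nonneg_left h5 hp.le
    _ = (2 * uu y) * (uu p * (uu y - ‖y‖)) := by ring
    _ ≤ (2 * uu y) * c.ochd p y := mul_le_mul_of_nonneg_left h3 (by positivity)

variable [FiniteDimensional ℝ E]

/-- The transvection taking `0` to `p`. -/
def ophi (p y : E) : E := tvo c (dir p) y

/-- Its inverse. -/
def oinv (p y : E) : E := tvo c (-dir p) y

theorem ophi_zero (p : E) : ophi c p 0 = p := tvo_dir c p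

theorem oinv_ophi (p y : E) : oinv c p (ophi c p y) = y := tvo_neg c _ _

theorem ophi_oinv (p y : E) : ophi c p (oinv c p y) = y := by
  have := tvo_neg c (-dir p) y
  rwa [neg_neg] at this

theorem contDiff_ophi (p : E) : ContDiff ℝ ∞ (ophi c p) := contDiff_tvo c _

theorem contDiff_oinv (p : E) : ContDiff ℝ ∞ (oinv c p) := contDiff_tvo c _

theorem ochd_ophi (p x y : E) : c.ochd (ophi c p x) (ophi c p y) = c.ochd x y :=
  ochd_tvo c _ _ _

theorem isom_ophi (p y u v : E) :
    ⟪c.oA (ophi c p y) (fderiv ℝ (ophi c p) y u), fderiv ℝ (ophi c p) y v⟫_ℝ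
      = ⟪c.oA y u, v⟫_ℝ := isom_tvo c _ _ _ _

section measure

variable [MeasurableSpace E] [BorelSpace E]

/-- The volume `uu^(w-1) dy`. -/
def omu (E : Type*) [NormedAddCommGroup E] [InnerProductSpace ℝ E] [FiniteDimensional ℝ E]
    [MeasurableSpace E] [BorelSpace E] (w : ℕ) : Measure E :=
  (volume : Measure E).withDensity (fun z => ENNReal.ofReal (uu z ^ (w - 1)))

theorem measurePreserving_tvo (w : ℕ) (hdim : Module.finrank ℝ E = Fintype.card ι + w)
    (hw : 1 ≤ w) (e : E) : MeasurePreserving (tvo c e) (omu E w) (omu E w) := by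
  have hcont : Continuous (tvo c e) := (contDiff_tvo c e).continuous
  have hρm : Measurable (fun z : E => ENNReal.ofReal (uu z ^ (w - 1))) := by
    have : Continuous (fun z : E => uu z ^ (w - 1)) :=
      ((contDiff_uu (E := E)).continuous).pow _
    exact this.measurable.ennreal_ofReal
  refine ⟨hcont.measurable, ?_⟩
  refine Measure.ext fun s hs => ?_
  rw [Measure.map_apply hcont.measurable hs]
  have hpre : MeasurableSet (tvo c e ⁻¹' s) := hcont.measurable hs
  have hsurj : Function.Surjective (tvo c e) := by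
    intro y
    refine ⟨tvo c (-e) y, ?_⟩
    have := tvo_neg c (-e) y
    rwa [neg_neg] at this
  have hinj : Function.Injective (tvo c e) := by
    intro x y hxy
    have h1 := tvo_neg c e x
    rw [hxy, tvo_neg] at h1
    exact h1.symm
  have himg : tvo c e '' (tvo c e ⁻¹' s) = s := Set.image_preimage_eq s hsurj
  have h1 := lintegral_image_eq_lintegral_abs_det_fderiv_mul (volume : Measure E) hpre
    (f := tvo c e) (f' := fun x => fderiv ℝ (tvo c e) x)
    (fun x _ => (((contDiff_tvo c e).differentiable (by simp)).differentiableAt).hasFDerivAt.hasFDerivWithinAt)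
    hinj.injOn (fun z => ENNReal.ofReal (uu z ^ (w - 1)))
  rw [himg] at h1
  unfold omu
  rw [withDensity_apply _ hs, withDensity_apply _ hpre, h1]
  refine lintegral_congr fun x => ?_
  rw [← ENNReal.ofReal_mul (abs_nonneg _), mul_comm, det_tvo c w hdim hw]

end measure

end OIso

end

end Pool.Agent.Work.MP_3b24f6_gt
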