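import Pool.Agent.Work.MP_3b24f6_gt.OctHom
import Pool.Agent.Work.MP_3b24f6_gt.ModelB

set_option autoImplicit false

open MeasureTheory Set Filter Topology
open scoped ContDiff InnerProductSpace

namespace Pool.Agent.Work.MP_3b24f6_gt

noncomputable section

variable {E : Type*} [NormedAddCommGroup E] [InnerProductSpace ℝ E]
variable {ι : Type} [Fintype ι] [DecidableEq ι] (c : Clif E ι)

open CIso

namespace OIso

theorem oA_oC (z u : E) : c.oA z (c.oC z u) = u := by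
  have hU0 : (1 + ‖z‖ ^ 2 : ℝ) ≠ 0 := by positivity
  have h1 : ⟪z, c.oC z u⟫_ℝ = (1 + ‖z‖ ^ 2) * ⟪z, u⟫_ℝ := by
    rw [c.oC_apply, inner_sub_right, inner_add_right, real_inner_smul_right,
      real_inner_smul_right, c.inner_z_Q, real_inner_self_eq_norm_sq]
    ring
  have h2 : c.Q z (c.oC z u) = (1 + ‖z‖ ^ 2)⁻¹ • c.Q z u := by
    rw [c.oC_apply, map_sub, map_add, map_smul, map_smul, c.Q_self, c.QQ, smul_zero, add_zero,
      smul_smul]
    have h3 : (1 : ℝ) - (1 + ‖z‖ ^ 2)⁻¹ * ‖z‖ ^ 2 = (1 + ‖z‖ ^ 2)⁻¹ := by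
      field_simp
      ring
    nth_rewrite 2 [← h3]
    rw [sub_smul, one_smul]
  rw [c.oA_apply, h1, h2, c.oC_apply, ← mul_assoc, inv_mul_cancel₀ hU0, one_mul]
  module

theorem oC_symm (z u v : E) : ⟪c.oC z u, v⟫_ℝ = ⟪u, c.oC z v⟫_ℝ := by
  rw [c.oC_apply, c.oC_apply, inner_sub_left, inner_add_left, inner_sub_right, inner_add_right,
    real_inner_smul_left, real_inner_smul_left, real_inner_smul_right, real_inner_smul_right,
    c.Q_symm, real_inner_comm z u]
  ring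

theorem oC_oA (z u : E) : c.oC z (c.oA z u) = u := by
  refine ext_inner_right ℝ fun v => ?_
  have h1 : ⟪c.oC z (c.oA z u), v⟫_ℝ = ⟪c.oA z u, c.oC z v⟫_ℝ := oC_symm c _ _ _
  rw [h1, oA_symm, oA_oC, real_inner_comm]

/-- Isometries preserve the dual metric. -/
theorem dual_isom [CompleteSpace E] (z z' : E) (L M : E →L[ℝ] E) (hLM : ∀ v, L (M v) = v)
    (h : ∀ u v, ⟪c.oA z' (L u), L v⟫_ℝ = ⟪c.oA z u, v⟫_ℝ) (ξ η : E)
    (hξ : ∀ v, ⟪ξ, v⟫_ℝ = ⟪η, L v⟫_ℝ) : ⟪c.oC z ξ, ξ⟫_ℝ = ⟪c.oC z' η, η⟫_ℝ := by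
  have h1 : L (c.oC z ξ) = c.oC z' η := by
    have h2 : c.oA z' (L (c.oC z ξ)) = η := by
      refine ext_inner_right ℝ fun v => ?_
      rw [← hLM v, h, oA_oC, hξ]
    rw [← h2, oC_oA]
  rw [real_inner_comm, hξ, h1, real_inner_comm]

theorem oC_inner_self (z ξ : E) : ⟪c.oC z ξ, ξ⟫_ℝ
    = ‖ξ‖ ^ 2 + ⟪z, ξ⟫_ℝ ^ 2 - ⟪c.Q z ξ, ξ⟫_ℝ / uu z ^ 2 := by
  rw [c.oC_apply, inner_sub_left, inner_add_left, real_inner_smul_left, real_inner_smul_left,
    real_inner_self_eq_norm_sq, uu_sq]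
  ring

variable [FiniteDimensional ℝ E]

theorem fderiv_tvo_right (e y v : E) :
    fderiv ℝ (tvo c e) y (fderiv ℝ (tvo c (-e)) (tvo c e y) v) = v := by
  have h1 : HasFDerivAt (tvo c (-e)) (fderiv ℝ (tvo c (-e)) (tvo c e y)) (tvo c e y) :=
    (((contDiff_tvo c (-e)).differentiable (by simp)).differentiableAt).hasFDerivAt
  have h2 : HasFDerivAt (tvo c e) (fderiv ℝ (tvo c e) y) (tvo c (-e) (tvo c e y)) := by
    rw [tvo_neg]
    exact (((contDiff_tvo c e).differentiable (by simp)).differentiableAt).hasFDerivAt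
  have h3 := h2.comp (tvo c e y) h1
  have h4 : (tvo c e ∘ tvo c (-e)) = id := by
    funext x
    have := tvo_neg c (-e) x
    rw [neg_neg] at this
    exact this
  rw [h4] at h3
  have h5 := h3.unique (hasFDerivAt_id (𝕜 := ℝ) (tvo c e y))
  have h6 := congrArg (fun T : E →L[ℝ] E => T v) h5
  simpa using h6

theorem an_tvo (V : Ver E) (hQ : V.Q = c.Q) (e : E) (f : E → ℝ) (y : E)
    (hf : DifferentiableAt ℝ f (tvo c e y)) :
    an V y (gradient (fun z => f (tvo c e z)) y) = an V (tvo c e y) (gradient f (tvo c e y)) := by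
  unfold an
  rw [hQ, ← oC_inner_self, ← oC_inner_self]
  congr 1
  refine dual_isom c y (tvo c e y) (fderiv ℝ (tvo c e) y) (fderiv ℝ (tvo c (-e)) (tvo c e y))
    (fderiv_tvo_right c e y) (fun u v => isom_tvo c e y u v) _ _ fun v => ?_
  have hd : DifferentiableAt ℝ (tvo c e) y :=
    ((contDiff_tvo c e).differentiable (by simp)).differentiableAt
  have h1 : ⟪gradient (fun z => f (tvo c e z)) y, v⟫_ℝ = fderiv ℝ (fun z => f (tvo c e z)) y v := by
    unfold gradient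
    exact InnerProductSpace.toDual_symm_apply
  have h2 : ⟪gradient f (tvo c e y), fderiv ℝ (tvo c e) y v⟫_ℝ
      = fderiv ℝ f (tvo c e y) (fderiv ℝ (tvo c e) y v) := by
    unfold gradient
    exact InnerProductSpace.toDual_symm_apply
  rw [h1, h2]
  have h3 : fderiv ℝ (fun z => f (tvo c e z)) y
      = (fderiv ℝ f (tvo c e y)).comp (fderiv ℝ (tvo c e) y) :=
    (hf.hasFDerivAt.comp y hd.hasFDerivAt).fderiv
  rw [h3]
  rfl

variable [MeasurableSpace E] [BorelSpace E]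

/-- Homogeneity data of the plane of a Clifford system. -/
def ohomB (V : Ver E) (hQ : V.Q = c.Q) (hdim : Module.finrank ℝ E = Fintype.card ι + V.w) :
    HomB V where
  chd := c.ochd
  phi := ophi c
  inv := oinv c
  smooth_phi := contDiff_ophi c
  smooth_inv := contDiff_oinv c
  phi_inv := ophi_oinv c
  inv_phi := oinv_ophi c
  phi_zero := ophi_zero c
  mp := fun p => measurePreserving_tvo c V.w hdim V.one_le_w (dir p)
  an_phi := fun p f y hf => an_tvo c V hQ (dir p) f y hf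
  chd_phi := ochd_ophi c
  chd_symm := ochd_comm c
  chd_zero := ochd_zero_left c
  chd_smooth := contDiff_ochd c
  chd_deriv := hasDerivAt_ochd_line c
  chd_coercive := ochd_coercive c

end OIso

end

end Pool.Agent.Work.MP_3b24f6_gt
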