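import Pool.Agent.Work.MP_3b24f6_gt.OctPhi
import Pool.Agent.Work.MP_3b24f6_gt.OBasic
import Pool.Agent.Work.MP_3b24f6_gt.DetChA
import Pool.Agent.Work.MP_3b24f6_gt.IsomPhi

set_option autoImplicit false

open MeasureTheory Set Filter Topology
open scoped ContDiff InnerProductSpace

namespace Pool.Agent.Work.MP_3b24f6_gt

noncomputable section

variable {E : Type*} [NormedAddCommGroup E] [InnerProductSpace ℝ E]
variable {ι : Type} [Fintype ι] [DecidableEq ι] (c : Clif E ι)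

open CIso

namespace OIso

theorem oA_inner (z u v : E) : ⟪c.oA z u, v⟫_ℝ
    = ⟪u, v⟫_ℝ - ⟪z, u⟫_ℝ * ⟪z, v⟫_ℝ / uu z ^ 2 + ⟪c.Q z u, v⟫_ℝ := by
  rw [Clif.oA_apply, inner_add_left, inner_sub_left, real_inner_smul_left, uu_sq]
  have : (1 + ‖z‖ ^ 2) ≠ 0 := by positivity
  field_simp

theorem oA_symm (z u v : E) : ⟪c.oA z u, v⟫_ℝ = ⟪c.oA z v, u⟫_ℝ := by
  rw [oA_inner, oA_inner, real_inner_comm v u, c.Q_symm z v u, real_inner_comm (c.Q z u) v]
  ring

theorem ochd_sq (x y : E) :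
    c.ochd x y ^ 2 = (uu x * uu y - ⟪x, y⟫_ℝ) ^ 2 + c.q x y := by
  unfold Clif.ochd
  exact Real.sq_sqrt (add_nonneg (sq_nonneg _) (c.q_nonneg x y))

theorem q_sub (x y : E) : c.q x y = c.q y (x - y) := by
  rw [c.q_comm, ← c.inner_Q_self y x, ← c.inner_Q_self y (x - y), map_sub, c.Q_self, sub_zero,
    inner_sub_right, c.Q_symm y x y, c.Q_self, inner_zero_right, sub_zero]

/-- exact formula for `cosh² d` -/
theorem ochd_sq' (x y : E) : c.ochd x y ^ 2 = 1 + (‖x - y‖ ^ 2 - (uu x - uu y) ^ 2)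
    + c.q y (x - y) + (‖x - y‖ ^ 2 - (uu x - uu y) ^ 2) ^ 2 / 4 := by
  rw [ochd_sq, q_sub]
  have hx := uu_sq x
  have hy := uu_sq y
  have h : uu x * uu y - ⟪x, y⟫_ℝ = 1 + (‖x - y‖ ^ 2 - (uu x - uu y) ^ 2) / 2 := by
    rw [norm_sub_sq_real]
    nlinarith
  rw [h]
  ring

theorem q_smul_right (t : ℝ) (z v : E) : c.q z (t • v) = t ^ 2 * c.q z v := by
  rw [c.q_comm, c.q_smul, c.q_comm]

theorem continuous_q_right (z : E) : Continuous (fun v => c.q z v) := by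
  unfold Clif.q
  fun_prop

/-- Second order expansion of `cosh² d` along a curve. -/
theorem tendsto_ochd_sq {γ : ℝ → E} {x w : E} (h0 : γ 0 = x) (hγ : HasDerivAt γ w 0) :
    Tendsto (fun t => (c.ochd (γ t) x ^ 2 - 1) / t ^ 2) (𝓝[≠] 0) (𝓝 ⟪c.oA x w, w⟫_ℝ) := by
  have ha : Tendsto (fun t : ℝ => t⁻¹ • (γ t - x)) (𝓝[≠] 0) (𝓝 w) := by
    have h := hasDerivAt_iff_tendsto_slope.mp hγ
    refine h.congr (fun t => ?_)
    simp [slope, h0]
  have hb : Tendsto (fun t : ℝ => t⁻¹ * (uu (γ t) - uu x)) (𝓝[≠] 0) (𝓝 (⟪x, w⟫_ℝ / uu x)) := by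
    have h := hasDerivAt_iff_tendsto_slope.mp (hasDerivAt_uu_comp hγ)
    rw [h0] at h
    refine h.congr (fun t => ?_)
    simp [slope, h0]
  have ht : Tendsto (fun t : ℝ => t) (𝓝[≠] 0) (𝓝 0) := tendsto_id.mono_left nhdsWithin_le_nhds
  have hD := (ha.norm.pow 2).sub (hb.pow 2)
  have hJ : Tendsto (fun t : ℝ => c.q x (t⁻¹ • (γ t - x))) (𝓝[≠] 0) (𝓝 (c.q x w)) :=
    ((continuous_q_right c x).tendsto w).comp ha
  have hE := (((ht.pow 2).mul (hD.pow 2)).div_const 4)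
  have hsum := (hD.add hJ).add hE
  have e : ⟪c.oA x w, w⟫_ℝ = ‖w‖ ^ 2 - (⟪x, w⟫_ℝ / uu x) ^ 2 + c.q x w
      + 0 ^ 2 * (‖w‖ ^ 2 - (⟪x, w⟫_ℝ / uu x) ^ 2) ^ 2 / 4 := by
    rw [oA_inner, real_inner_self_eq_norm_sq, c.inner_Q_self]
    have := uu_pos x
    field_simp
    ring
  rw [e]
  refine hsum.congr' ?_
  filter_upwards [self_mem_nhdsWithin] with t htne
  have htne' : t ≠ 0 := htne
  rw [ochd_sq', norm_smul, q_smul_right, Real.norm_eq_abs, mul_pow, sq_abs]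
  field_simp
  ring

variable [FiniteDimensional ℝ E]

theorem ochd_tvo (e x y : E) : c.ochd (tvo c e x) (tvo c e y) = c.ochd x y := by
  unfold Clif.ochd
  rw [dist_tvo]

theorem isom_tvo_self (e y v : E) :
    ⟪c.oA (tvo c e y) (fderiv ℝ (tvo c e) y v), fderiv ℝ (tvo c e) y v⟫_ℝ
      = ⟪c.oA y v, v⟫_ℝ := by
  have h1 : HasDerivAt (fun t : ℝ => y + t • v) v 0 := by
    simpa using ((hasDerivAt_id (0 : ℝ)).smul_const v).const_add y
  have hd : HasFDerivAt (tvo c e) (fderiv ℝ (tvo c e) y) y :=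
    ((contDiff_tvo c e).differentiable (by simp)).differentiableAt.hasFDerivAt
  have h2 : HasDerivAt (fun t : ℝ => tvo c e (y + t • v)) (fderiv ℝ (tvo c e) y v) 0 := by
    have hd' : HasFDerivAt (tvo c e) (fderiv ℝ (tvo c e) y) ((fun t : ℝ => y + t • v) 0) := by
      simpa using hd
    exact hd'.comp_hasDerivAt (0 : ℝ) h1
  have l1 := tendsto_ochd_sq c (γ := fun t : ℝ => y + t • v) (x := y) (by simp) h1
  have l2 := tendsto_ochd_sq c (γ := fun t : ℝ => tvo c e (y + t • v)) (x := tvo c e y)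
    (by simp) h2
  have l3 : Tendsto (fun t : ℝ => (c.ochd (y + t • v) y ^ 2 - 1) / t ^ 2) (𝓝[≠] 0)
      (𝓝 ⟪c.oA (tvo c e y) (fderiv ℝ (tvo c e) y v), fderiv ℝ (tvo c e) y v⟫_ℝ) := by
    refine l2.congr (fun t => ?_)
    rw [ochd_tvo]
  exact tendsto_nhds_unique l3 l1

theorem isom_tvo (e y u v : E) :
    ⟪c.oA (tvo c e y) (fderiv ℝ (tvo c e) y u), fderiv ℝ (tvo c e) y v⟫_ℝ
      = ⟪c.oA y u, v⟫_ℝ := by
  have h1 := isom_tvo_self c e y (u + v)
  have h2 := isom_tvo_self c e y u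
  have h3 := isom_tvo_self c e y v
  have h4 := oA_symm c (tvo c e y) (fderiv ℝ (tvo c e) y u) (fderiv ℝ (tvo c e) y v)
  have h5 := oA_symm c y u v
  simp only [map_add, inner_add_left, inner_add_right] at h1
  linarith

omit [FiniteDimensional ℝ E] in
/-- product of transvections along an orthogonal family. -/
theorem det_family [FiniteDimensional ℝ E] (r : ℝ) (v : ι → E)
    (hv : ∀ a b, a ≠ b → ⟪v a, v b⟫_ℝ = 0) (s : Finset ι) :
    LinearMap.det ((ContinuousLinearMap.id ℝ E - r • ∑ a ∈ s, (innerSL ℝ (v a)).smulRight (v a) :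
      E →L[ℝ] E) : E →ₗ[ℝ] E) = ∏ a ∈ s, (1 - r * ‖v a‖ ^ 2) := by
  classical
  induction s using Finset.induction_on with
  | empty => simp
  | insert b s hb ih =>
    rw [Finset.prod_insert hb, ← ih]
    have e : ((ContinuousLinearMap.id ℝ E
        - r • ∑ a ∈ insert b s, (innerSL ℝ (v a)).smulRight (v a) : E →L[ℝ] E) : E →ₗ[ℝ] E)
        = (LinearMap.transvection (((-r) • innerSL ℝ (v b) : E →L[ℝ] ℝ) : E →ₗ[ℝ] ℝ) (v b)) ∘ₗ
          ((ContinuousLinearMap.id ℝ E - r • ∑ a ∈ s, (innerSL ℝ (v a)).smulRight (v a) :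
            E →L[ℝ] E) : E →ₗ[ℝ] E) := by
      refine LinearMap.ext fun x => ?_
      rw [LinearMap.comp_apply, LinearMap.transvection.apply, Finset.sum_insert hb]
      have h0 : ⟪v b, ∑ a ∈ s, ⟪v a, x⟫_ℝ • v a⟫_ℝ = 0 := by
        rw [inner_sum]
        refine Finset.sum_eq_zero fun a ha => ?_
        rw [real_inner_smul_right, hv b a (fun h => hb (h ▸ ha)), mul_zero]
      simp only [ContinuousLinearMap.coe_coe, ContinuousLinearMap.sub_apply,
        ContinuousLinearMap.add_apply, ContinuousLinearMap.smul_apply,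
        ContinuousLinearMap.smulRight_apply, innerSL_apply_apply, ContinuousLinearMap.id_apply,
        ContinuousLinearMap.sum_apply, inner_sub_right, inner_smul_right, h0, mul_zero, sub_zero,
        smul_eq_mul]
      module
    rw [e, LinearMap.det_comp, LinearMap.transvection.det]
    congr 1
    simp only [ContinuousLinearMap.coe_coe, ContinuousLinearMap.smul_apply, innerSL_apply_apply,
      real_inner_self_eq_norm_sq, smul_eq_mul]
    ring

theorem det_oA (w : ℕ) (hdim : Module.finrank ℝ E = Fintype.card ι + w) (hw : 1 ≤ w) (z : E) :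
    (c.oA z).det = (uu z ^ (w - 1)) ^ 2 := by
  have hU := uu_sq z
  have hpos := uu_pos z
  have hU0 : (0 : ℝ) < 1 + ‖z‖ ^ 2 := by positivity
  -- `1 + Q z`
  have e1 : ((ContinuousLinearMap.id ℝ E + c.Q z : E →L[ℝ] E) : E →ₗ[ℝ] E)
      = (1 + ‖z‖ ^ 2) • ((ContinuousLinearMap.id ℝ E
        - (1 + ‖z‖ ^ 2)⁻¹ • ∑ a ∈ Finset.univ, (innerSL ℝ (c.S a z)).smulRight (c.S a z) :
          E →L[ℝ] E) : E →ₗ[ℝ] E) := by
    refine LinearMap.ext fun x => ?_
    simp only [ContinuousLinearMap.coe_coe, LinearMap.smul_apply,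
      ContinuousLinearMap.add_apply, ContinuousLinearMap.sub_apply,
      ContinuousLinearMap.smul_apply, ContinuousLinearMap.id_apply,
      ContinuousLinearMap.sum_apply, ContinuousLinearMap.smulRight_apply, innerSL_apply_apply]
    rw [c.Q_apply, smul_sub, smul_smul, mul_inv_cancel₀ hU0.ne']
    module
  have h1 := det_family (E := E) (1 + ‖z‖ ^ 2)⁻¹ (fun a => c.S a z) (fun a b hab => by
    rw [c.inner_S_S_self, if_neg hab]) Finset.univ
  have h2 : LinearMap.det ((ContinuousLinearMap.id ℝ E + c.Q z : E →L[ℝ] E) : E →ₗ[ℝ] E)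
      = (1 + ‖z‖ ^ 2) ^ w := by
    rw [e1, LinearMap.det_smul, h1]
    have h3 : ∀ a, 1 - (1 + ‖z‖ ^ 2)⁻¹ * ‖c.S a z‖ ^ 2 = (1 + ‖z‖ ^ 2)⁻¹ := by
      intro a
      rw [c.norm_S]
      field_simp
      ring
    simp only [h3]
    rw [Finset.prod_const, Finset.card_univ, hdim, pow_add, inv_pow]
    field_simp
  have e2 : ((c.oA z : E →L[ℝ] E) : E →ₗ[ℝ] E)
      = (LinearMap.transvection (((-(1 + ‖z‖ ^ 2)⁻¹) • innerSL ℝ z : E →L[ℝ] ℝ) : E →ₗ[ℝ] ℝ) z)
        ∘ₗ ((ContinuousLinearMap.id ℝ E + c.Q z : E →L[ℝ] E) : E →ₗ[ℝ] E) := by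
    refine LinearMap.ext fun x => ?_
    rw [LinearMap.comp_apply, LinearMap.transvection.apply]
    simp only [ContinuousLinearMap.coe_coe, ContinuousLinearMap.add_apply,
      ContinuousLinearMap.smul_apply, ContinuousLinearMap.id_apply, innerSL_apply_apply,
      c.oA_apply, inner_add_right, c.inner_z_Q, add_zero, smul_eq_mul]
    module
  show LinearMap.det ((c.oA z : E →L[ℝ] E) : E →ₗ[ℝ] E) = _
  rw [e2, LinearMap.det_comp, LinearMap.transvection.det, h2]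
  simp only [ContinuousLinearMap.coe_coe, ContinuousLinearMap.smul_apply, innerSL_apply_apply,
      real_inner_self_eq_norm_sq, smul_eq_mul]
  rw [← pow_mul, mul_comm (w - 1) 2, pow_mul, hU]
  obtain ⟨k, rfl⟩ : ∃ k, w = k + 1 := ⟨w - 1, by omega⟩
  rw [Nat.add_sub_cancel, pow_succ]
  field_simp
  ring

theorem det_tvo (w : ℕ) (hdim : Module.finrank ℝ E = Fintype.card ι + w) (hw : 1 ≤ w)
    (e y : E) :
    uu (tvo c e y) ^ (w - 1) * |(fderiv ℝ (tvo c e) y).det| = uu y ^ (w - 1) := by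
  have h := DetP.det_sq_of_isom (c.oA y) (c.oA (tvo c e y)) (fderiv ℝ (tvo c e) y)
    (fun u v => isom_tvo c e y u v)
  rw [det_oA c w hdim hw, det_oA c w hdim hw] at h
  have h1 := uu_pos y
  have h2 := uu_pos (tvo c e y)
  have h3 : (uu (tvo c e y) ^ (w - 1) * |(fderiv ℝ (tvo c e) y).det|) ^ 2
      = (uu y ^ (w - 1)) ^ 2 := by
    rw [mul_pow, sq_abs, ← h]; ring
  exact (pow_left_inj₀ (by positivity) (by positivity) two_ne_zero).mp h3

end OIso

end

end Pool.Agent.Work.MP_3b24f6_gt
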