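import Pool.Agent.Work.MP_3b24f6_gt.OctFlow
import Pool.Agent.Work.MP_3b24f6_gt.HomC

set_option autoImplicit false

open MeasureTheory Set Filter Topology
open scoped ContDiff InnerProductSpace

namespace Pool.Agent.Work.MP_3b24f6_gt

noncomputable section

namespace OIso

variable {E : Type*} [NormedAddCommGroup E] [InnerProductSpace ℝ E] [FiniteDimensional ℝ E]
variable {ι : Type} [Fintype ι] [DecidableEq ι] (c : Clif E ι)

theorem dσ (e : E) (X : VV E ι) (t : ℝ) (a : ι) :
    HasDerivAt (fun t => (flow (gen c e) t X).1 a) (2 * ⟪c.S a (flow (gen c e) t X).2.1, e⟫_ℝ) t :=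
  (hasDerivAt_pi.mp (hasDerivAt_flow (gen c e) t X).fst) a

theorem dψ (e : E) (X : VV E ι) (t : ℝ) :
    HasDerivAt (fun t => (flow (gen c e) t X).2.1)
      (((flow (gen c e) t X).2.2.1 + (flow (gen c e) t X).2.2.2) • e
        + (2 : ℝ)⁻¹ • ∑ a, (flow (gen c e) t X).1 a • c.S a e) t :=
  (hasDerivAt_flow (gen c e) t X).snd.fst

theorem dβ (e : E) (X : VV E ι) (t : ℝ) :
    HasDerivAt (fun t => (flow (gen c e) t X).2.2.1) (2 * ⟪(flow (gen c e) t X).2.1, e⟫_ℝ) t :=
  (hasDerivAt_flow (gen c e) t X).snd.snd.fst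

theorem dα (e : E) (X : VV E ι) (t : ℝ) :
    HasDerivAt (fun t => (flow (gen c e) t X).2.2.2) (⟪(flow (gen c e) t X).2.1, e⟫_ℝ) t :=
  (hasDerivAt_flow (gen c e) t X).snd.snd.snd

theorem rels_flow (e y : E) (t : ℝ) : rels c (flow (gen c e) t (emb c y)) = 0 := by
  have h := eq_flow (gen2 c e) (fun t => rels c (flow (gen c e) t (emb c y)))
    (fun t => hasDerivAt_rels c e _ (fun t => hasDerivAt_flow _ _ _) t) t
  have h0 : rels c (flow (gen c e) 0 (emb c y)) = 0 := by
    rw [flow_zero]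
    exact rels_emb c y
  rw [h0, map_zero] at h
  exact h

theorem beta_flow (e y : E) (t : ℝ) : (flow (gen c e) t (emb c y)).2.2.1
    = 1 + 2 * (flow (gen c e) t (emb c y)).2.2.2 := by
  have h1 : ∀ t, HasDerivAt (fun t => (flow (gen c e) t (emb c y)).2.2.1
      - 2 * (flow (gen c e) t (emb c y)).2.2.2) 0 t := by
    intro t
    have h2 := (dβ c e (emb c y) t).sub ((dα c e (emb c y) t).const_mul 2)
    refine h2.congr_deriv ?_
    ring
  have h2 := is_const_of_deriv_eq_zero (fun t => (h1 t).differentiableAt)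
    (fun t => (h1 t).deriv) t 0
  simp only [flow_zero, ContinuousLinearMap.one_apply] at h2
  have h3 := CIso.uu_sq y
  have h4 : (emb c y).2.2.1 - 2 * (emb c y).2.2.2 = 1 := by
    simp only [emb]
    rw [h3]; ring
  rw [h4] at h2
  linarith

theorem one_le_beta (e y : E) (t : ℝ) : 1 ≤ (flow (gen c e) t (emb c y)).2.2.1 := by
  set f : ℝ → ℝ := fun t => (flow (gen c e) t (emb c y)).2.2.1 with hf
  have hcont : Continuous f := by
    refine continuous_iff_continuousAt.mpr fun s => ?_
    exact (dβ c e (emb c y) s).continuousAt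
  have hq : ∀ s, 0 ≤ f s * (f s - 1) := by
    intro s
    have h1 := rels_flow c e y s
    have h2 := congrArg (fun X => X.2.2.1) h1
    simp only [rels] at h2
    have h3 := beta_flow c e y s
    have h4 : (0 : ℝ) ≤ ⟪(flow (gen c e) s (emb c y)).2.1, (flow (gen c e) s (emb c y)).2.1⟫_ℝ :=
      real_inner_self_nonneg
    simp only [Prod.snd_zero, Prod.fst_zero] at h2
    have h5 : f s = 1 + 2 * (flow (gen c e) s (emb c y)).2.2.2 := h3
    have h6 : (flow (gen c e) s (emb c y)).2.2.1 = f s := rfl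
    rw [h6] at h2
    have h7 : 2 * (flow (gen c e) s (emb c y)).2.2.2 = f s - 1 := by rw [h5]; ring
    rw [h7] at h2
    linarith
  have h0 : 1 ≤ f 0 := by
    simp only [hf, flow_zero, ContinuousLinearMap.one_apply, emb]
    rw [CIso.uu_sq]
    nlinarith [sq_nonneg ‖y‖]
  by_contra hlt
  push Not at hlt
  have hle : f t ≤ 0 := by
    by_contra hpos
    push Not at hpos
    have := hq t
    have h6 : f t < 1 := hlt
    nlinarith
  obtain ⟨s, hs⟩ : (1 / 2 : ℝ) ∈ Set.range f :=
    mem_range_of_exists_le_of_exists_ge hcont ⟨t, by linarith⟩ ⟨0, by linarith⟩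
  have := hq s
  rw [hs] at this
  norm_num at this

/-- Recover the point from its image. -/
def rec' (X : VV E ι) : E := (Real.sqrt X.2.2.1)⁻¹ • X.2.1

omit [FiniteDimensional ℝ E] in
theorem rec_emb (y : E) : rec' (emb c y) = y := by
  have h := CIso.uu_pos y
  simp only [rec', emb]
  rw [Real.sqrt_sq h.le, smul_smul, inv_mul_cancel₀ h.ne', one_smul]

/-- The transvection with generator `e`. -/
def tvo (e y : E) : E := rec' (flow (gen c e) 1 (emb c y))

theorem emb_tvo (e y : E) : emb c (tvo c e y) = flow (gen c e) 1 (emb c y) := by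
  have h1 := rels_flow c e y 1
  have h2 := beta_flow c e y 1
  have h3 := one_le_beta c e y 1
  unfold tvo
  set X := flow (gen c e) 1 (emb c y) with hX
  have hb : 0 < X.2.2.1 := by linarith
  have hs : Real.sqrt X.2.2.1 ^ 2 = X.2.2.1 := Real.sq_sqrt hb.le
  have hs0 : 0 < Real.sqrt X.2.2.1 := Real.sqrt_pos.mpr hb
  have r1 := fun a => congrFun (congrArg (fun X => X.1) h1) a
  have r3 := congrArg (fun X => X.2.2.1) h1
  simp only [rels, Prod.fst_zero, Prod.snd_zero, Pi.zero_apply] at r1 r3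
  rw [real_inner_self_eq_norm_sq] at r3
  have hn : ‖rec' X‖ ^ 2 = X.2.2.1 - 1 := by
    unfold rec'
    rw [norm_smul, mul_pow, norm_inv, Real.norm_eq_abs, inv_pow, sq_abs, hs]
    field_simp
    nlinarith
  have hu : uu (rec' X) = Real.sqrt X.2.2.1 := by
    unfold uu
    rw [hn]; ring_nf
  refine Prod.ext ?_ (Prod.ext ?_ (Prod.ext ?_ ?_))
  · funext a
    simp only [emb, rec', map_smul, real_inner_smul_left, real_inner_smul_right]
    have := r1 a
    rw [← mul_assoc, ← sq, inv_pow, hs, inv_mul_eq_iff_eq_mul₀ hb.ne']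
    linarith
  · simp only [emb]
    rw [hu]
    unfold rec'
    rw [smul_smul, mul_inv_cancel₀ hs0.ne', one_smul]
  · simp only [emb]
    rw [hu, hs]
  · simp only [emb]
    rw [hn]
    linarith

theorem gen_neg (e : E) : gen c (-e) = -gen c e := by
  refine ContinuousLinearMap.ext fun X => ?_
  rw [ContinuousLinearMap.neg_apply, gen_apply, gen_apply]
  refine Prod.ext ?_ (Prod.ext ?_ (Prod.ext ?_ ?_))
  · funext a
    simp
  · simp only [Prod.fst_neg, Prod.snd_neg, map_neg, smul_neg, Finset.sum_neg_distrib]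
    abel
  · simp
  · simp

theorem tvo_neg (e y : E) : tvo c (-e) (tvo c e y) = y := by
  have h : flow (gen c (-e)) 1 (emb c (tvo c e y)) = emb c y := by
    rw [emb_tvo, gen_neg, flow_neg, ← ContinuousLinearMap.comp_apply]
    have := flow_neg_mul (gen c e) 1
    rw [ContinuousLinearMap.mul_def] at this
    rw [this]
    rfl
  unfold tvo at h ⊢
  rw [h, rec_emb]

/-- The invariant form. -/
def frm (X Y : VV E ι) : ℝ := X.2.2.1 * Y.2.2.1 - 2 * ⟪X.2.1, Y.2.1⟫_ℝ
  + 2⁻¹ * (4 * (X.2.2.2 * Y.2.2.2) + ∑ a, X.1 a * Y.1 a)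

theorem frm_flow (e : E) (X Y : VV E ι) (t : ℝ) :
    frm (flow (gen c e) t X) (flow (gen c e) t Y) = frm X Y := by
  have h1 : ∀ t, HasDerivAt (fun t => frm (flow (gen c e) t X) (flow (gen c e) t Y)) 0 t := by
    intro t
    have h2 := (((dβ c e X t).mul (dβ c e Y t)).sub
      (((dψ c e X t).inner ℝ (dψ c e Y t)).const_mul 2)).add
      (((((dα c e X t).mul (dα c e Y t)).const_mul 4).add
        (HasDerivAt.fun_sum (fun a (_ : a ∈ Finset.univ) =>
          (dσ c e X t a).mul (dσ c e Y t a)))).const_mul 2⁻¹)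
    unfold frm
    refine h2.congr_deriv ?_
    set σ := (flow (gen c e) t X).1
    set ψ := (flow (gen c e) t X).2.1
    set β := (flow (gen c e) t X).2.2.1
    set α := (flow (gen c e) t X).2.2.2
    set σ' := (flow (gen c e) t Y).1
    set ψ' := (flow (gen c e) t Y).2.1
    set β' := (flow (gen c e) t Y).2.2.1
    set α' := (flow (gen c e) t Y).2.2.2
    simp only [inner_add_left, inner_add_right, real_inner_smul_left, real_inner_smul_right,
      inner_sum, sum_inner, Finset.sum_add_distrib]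
    have e1 : ∑ a, 2 * ⟪c.S a ψ, e⟫_ℝ * σ' a = 2 * ∑ a, σ' a * ⟪ψ, c.S a e⟫_ℝ := by
      rw [Finset.mul_sum]
      exact Finset.sum_congr rfl fun a _ => by rw [c.symm]; ring
    have e2 : ∑ a, σ a * (2 * ⟪c.S a ψ', e⟫_ℝ) = 2 * ∑ a, σ a * ⟪c.S a e, ψ'⟫_ℝ := by
      rw [Finset.mul_sum]
      exact Finset.sum_congr rfl fun a _ => by rw [inner_S_comm]; ring
    rw [e1, e2, real_inner_comm ψ' e]
    ring
  have h2 := is_const_of_deriv_eq_zero (fun t => (h1 t).differentiableAt)
    (fun t => (h1 t).deriv) t 0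
  simpa [flow_zero] using h2

omit [FiniteDimensional ℝ E] in
theorem frm_emb (x y : E) : frm (emb c x) (emb c y)
    = (uu x * uu y - ⟪x, y⟫_ℝ) ^ 2 + c.q x y := by
  have h := pol2 c x y
  simp only [frm, emb, Clif.q, real_inner_smul_left, real_inner_smul_right]
  linear_combination (2 : ℝ)⁻¹ * h

theorem dist_tvo (e x y : E) :
    (uu (tvo c e x) * uu (tvo c e y) - ⟪tvo c e x, tvo c e y⟫_ℝ) ^ 2
      + c.q (tvo c e x) (tvo c e y) = (uu x * uu y - ⟪x, y⟫_ℝ) ^ 2 + c.q x y := by
  rw [← frm_emb, ← frm_emb, emb_tvo, emb_tvo, frm_flow]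

omit [FiniteDimensional ℝ E] in
theorem contDiff_emb : ContDiff ℝ ∞ (emb c : E → VV E ι) := by
  unfold emb
  refine ContDiff.prodMk ?_ (ContDiff.prodMk ?_ (ContDiff.prodMk ?_ ?_))
  · rw [contDiff_pi]
    intro a
    exact (c.S a).contDiff.inner ℝ contDiff_id
  · exact CIso.contDiff_uu.smul contDiff_id
  · exact CIso.contDiff_uu.pow 2
  · exact contDiff_const.mul (contDiff_norm_sq ℝ)

theorem contDiff_tvo (e : E) : ContDiff ℝ ∞ (tvo c e) := by
  have h1 : ContDiff ℝ ∞ (fun y => flow (gen c e) 1 (emb c y)) :=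
    (flow (gen c e) 1).contDiff.comp (contDiff_emb c)
  have h2 : ContDiff ℝ ∞ (fun y => (flow (gen c e) 1 (emb c y)).2.2.1) :=
    h1.snd.snd.fst
  have h3 : ContDiff ℝ ∞ (fun y => (flow (gen c e) 1 (emb c y)).2.1) := h1.snd.fst
  have hpos : ∀ y, (flow (gen c e) 1 (emb c y)).2.2.1 ≠ 0 := fun y => by
    have := one_le_beta c e y 1
    linarith
  have h4 : ∀ y, Real.sqrt (flow (gen c e) 1 (emb c y)).2.2.1 ≠ 0 := fun y =>
    (Real.sqrt_pos.mpr (by have := one_le_beta c e y 1; linarith)).ne'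
  exact ((h2.sqrt hpos).inv h4).smul h3

/-- The explicit trajectory of the origin. -/
theorem flow_origin {e : E} (he : ‖e‖ = 1) (s t : ℝ) :
    flow (gen c (s • e)) t (emb c 0) = (fun a => Real.sinh (t * s) ^ 2 * ⟪c.S a e, e⟫_ℝ,
      (Real.sinh (t * s) * Real.cosh (t * s)) • e, Real.cosh (t * s) ^ 2,
      2⁻¹ * Real.sinh (t * s) ^ 2) := by
  set X : ℝ → VV E ι := fun t => (fun a => Real.sinh (t * s) ^ 2 * ⟪c.S a e, e⟫_ℝ,
      (Real.sinh (t * s) * Real.cosh (t * s)) • e, Real.cosh (t * s) ^ 2,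
      2⁻¹ * Real.sinh (t * s) ^ 2) with hX
  have hs : ∀ t, HasDerivAt (fun t => Real.sinh (t * s)) (Real.cosh (t * s) * s) t := by
    intro t
    have := (Real.hasDerivAt_sinh (t * s)).comp t ((hasDerivAt_id' t).mul_const s)
    exact this.congr_deriv (by ring)
  have hc : ∀ t, HasDerivAt (fun t => Real.cosh (t * s)) (Real.sinh (t * s) * s) t := by
    intro t
    have := (Real.hasDerivAt_cosh (t * s)).comp t ((hasDerivAt_id' t).mul_const s)
    exact this.congr_deriv (by ring)
  have hee : ⟪e, e⟫_ℝ = 1 := by rw [real_inner_self_eq_norm_sq, he]; norm_num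
  have hD : ∀ t, HasDerivAt X (gen c (s • e) (X t)) t := by
    intro t
    have hcs := Real.cosh_sq' (t * s)
    rw [gen_apply]
    refine HasDerivAt.prodMk ?_ (HasDerivAt.prodMk ?_ (HasDerivAt.prodMk ?_ ?_))
    · rw [hasDerivAt_pi]
      intro a
      refine (((hs t).pow 2).mul_const _).congr_deriv ?_
      simp only [hX, map_smul, real_inner_smul_left, real_inner_smul_right]
      simp
      ring
    · refine (((hs t).mul (hc t)).smul_const e).congr_deriv ?_
      have h1 : ∑ a, (Real.sinh (t * s) ^ 2 * ⟪c.S a e, e⟫_ℝ) • c.S a (s • e)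
          = (Real.sinh (t * s) ^ 2 * s) • e := by
        have h2 := S_sg c e
        rw [he, one_pow, one_smul] at h2
        have h3 : ∀ a, (Real.sinh (t * s) ^ 2 * ⟪c.S a e, e⟫_ℝ) • c.S a (s • e)
            = (Real.sinh (t * s) ^ 2 * s) • (⟪c.S a e, e⟫_ℝ • c.S a e) := by
          intro a
          rw [map_smul, smul_smul, smul_smul]
          congr 1; ring
        simp only [h3]
        rw [← Finset.smul_sum, h2]
      simp only [hX]
      rw [h1, smul_smul, smul_smul, ← add_smul]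
      congr 1
      ring
    · refine ((hc t).pow 2).congr_deriv ?_
      simp only [hX, real_inner_smul_left, real_inner_smul_right, hee]
      simp
      ring
    · refine (((hs t).pow 2).const_mul 2⁻¹).congr_deriv ?_
      simp only [hX, real_inner_smul_left, real_inner_smul_right, hee]
      simp
      ring
  have h := eq_flow (gen c (s • e)) X hD t
  have h0 : X 0 = emb c 0 := by
    simp only [hX, emb]
    refine Prod.ext ?_ (Prod.ext ?_ (Prod.ext ?_ ?_))
    · funext a; simp
    · simp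
    · simp
    · simp
  rw [h0] at h
  exact h.symm

/-- The generator taking `0` to `p`. -/
def dir (p : E) : E := Real.arsinh ‖p‖ • (‖p‖⁻¹ • p)

theorem tvo_dir (p : E) : tvo c (dir p) 0 = p := by
  by_cases hp : p = 0
  · subst hp
    unfold dir tvo
    rw [smul_zero, smul_zero]
    have : gen c (0 : E) = 0 := by
      refine ContinuousLinearMap.ext fun X => ?_
      rw [gen_apply]
      simp
      rfl
    rw [this]
    unfold flow
    rw [smul_zero, NormedSpace.exp_zero, ContinuousLinearMap.one_apply, rec_emb]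
  · have hn : ‖p‖ ≠ 0 := norm_ne_zero_iff.mpr hp
    have he : ‖‖p‖⁻¹ • p‖ = 1 := by
      rw [norm_smul, norm_inv, norm_norm, inv_mul_cancel₀ hn]
    unfold tvo dir
    rw [flow_origin c he]
    simp only [rec']
    rw [one_mul, Real.sqrt_sq (Real.cosh_pos _).le, Real.sinh_arsinh, smul_smul, smul_smul]
    have h2 := (Real.cosh_pos (Real.arsinh ‖p‖)).ne'
    rw [show (Real.cosh (Real.arsinh ‖p‖))⁻¹ * (‖p‖ * Real.cosh (Real.arsinh ‖p‖)) * ‖p‖⁻¹ = 1 by
      field_simp, one_smul]

end OIso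

end

end Pool.Agent.Work.MP_3b24f6_gt
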