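import Pool.Agent.Work.MP_3b24f6_gt.RDist
import Pool.Agent.Work.MP_3b24f6_gt.Ball
import Pool.Agent.Work.MP_3b24f6_gt.FinalB

/-!
# Balls are optimal: from the abstract theorems to the intrinsic statement
-/

set_option autoImplicit false
set_option linter.unusedSectionVars false

open MeasureTheory Set Filter Topology
open scoped ContDiff InnerProductSpace

namespace Pool.Agent.Work.MP_3b24f6_gt

noncomputable section

namespace Opt

variable {E : Type*} [NormedAddCommGroup E] [InnerProductSpace ℝ E] [FiniteDimensional ℝ E]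
  [MeasurableSpace E] [BorelSpace E]

theorem len_le_one {g : E → E → E → ℝ} (z v : E) :
    Riem.len g z v ≤ 1 ↔ g z v v ≤ 1 := by
  unfold Riem.len
  rw [Real.sqrt_le_iff]
  simp

theorem area_empty (g : E → E → E → ℝ) : Riem.area g ∅ = 0 := by
  unfold Riem.area
  simp

theorem vol_eq_mu {V : Ver E} {g : E → E → E → ℝ} (hd : ∀ z, Riem.dens g z = rho V z)
    (D : Set E) : Riem.vol g D = mu V D := by
  unfold Riem.vol mu
  rw [withDensity_apply']
  simp_rw [hd]

theorem area_eq_areaB {V : Ver E} {g : E → E → E → ℝ} (hA : ∀ z v, g z v v = mg V z v)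
    (hd : ∀ z, Riem.dens g z = rho V z) (D : Set E) : Riem.area g D = areaB V D := by
  have e1 : (fun z => Riem.dens g z) = fun z => rho V z := funext hd
  unfold Riem.area areaB
  have e2 : ∀ X : E → E, (ContDiff ℝ ∞ X ∧ HasCompactSupport X ∧ ∀ z, Riem.len g z (X z) ≤ 1)
      ↔ (ContDiff ℝ ∞ X ∧ HasCompactSupport X ∧ ∀ y, mg V y (X y) ≤ 1) := by
    intro X
    simp only [len_le_one, hA]
  have e3 : ∀ X : E → E, (∫ z in D, Riem.div (fun y => Riem.dens g y • X y) z)
      = ∫ z in D, divE (fun y => rho V y • X y) z := by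
    intro X
    simp only [hd]
    rfl
  refine le_antisymm ?_ ?_
  · refine iSup_le fun X => ?_
    rw [e3]
    exact le_iSup (fun X : {X : E → E // ContDiff ℝ ∞ X ∧ HasCompactSupport X ∧
      ∀ y, mg V y (X y) ≤ 1} => ENNReal.ofReal (∫ z in D, divE (fun y => rho V y • X.1 y) z))
      ⟨X.1, (e2 X.1).1 X.2⟩
  · refine iSup_le fun X => ?_
    rw [← e3]
    exact le_iSup (fun X : {X : E → E // ContDiff ℝ ∞ X ∧ HasCompactSupport X ∧
      ∀ z, Riem.len g z (X z) ≤ 1} =>
        ENNReal.ofReal (∫ z in D, Riem.div (fun y => Riem.dens g y • X.1 y) z))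
      ⟨X.1, (e2 X.1).2 X.2⟩

/-- The isoperimetric inequality. -/
theorem ineq {V : Ver E} (H : HomB V) {g : E → E → E → ℝ} (hA : ∀ z v, g z v v = mg V z v)
    (hd : ∀ z, Riem.dens g z = rho V z)
    (hiso : ∀ p y v, mg V (H.phi p y) (fderiv ℝ (H.phi p) y v) = mg V y v) (p : E) (r : ℝ)
    {D : Set E} (hD : MeasurableSet D) (hv : Riem.vol g D = Riem.vol g (Riem.ball g p r)) :
    Riem.area g (Riem.ball g p r) ≤ Riem.area g D := by
  rcases le_or_gt r 0 with hr | hr
  · rw [RD.ball_nonpos g p hr, area_empty]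
    exact zero_le
  · rw [area_eq_areaB hA hd, area_eq_areaB hA hd]
    rw [vol_eq_mu hd, vol_eq_mu hd] at hv
    rw [RD.ball_eq_chd H hA hiso p hr] at hv ⊢
    exact isoperimetric V H hD p (Real.sinh_pos_iff.2 hr) hv

/-- Balls are optimal. -/
theorem ballsOptimal {V : Ver E} (H : HomB V) {g : E → E → E → ℝ}
    (hA : ∀ z v, g z v v = mg V z v) (hd : ∀ z, Riem.dens g z = rho V z)
    (hiso : ∀ p y v, mg V (H.phi p y) (fderiv ℝ (H.phi p) y v) = mg V y v) :
    Riem.BallsOptimal g :=
  fun _ hD p r hv => ineq H hA hd hiso p r hD hv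

end Opt

end

end Pool.Agent.Work.MP_3b24f6_gt
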