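import Pool.Agent.Work.MP_3b24f6_gt.Opt
import Pool.Agent.Work.MP_3b24f6_gt.KOf
import Pool.Agent.Work.MP_3b24f6_gt.KHomB
import Pool.Agent.Work.MP_3b24f6_gt.OVer

/-!
# The hyperbolic spaces over `ℂ`, `ℍ` and the Cayley plane
-/

set_option autoImplicit false
set_option linter.unusedSectionVars false

open MeasureTheory Set Filter Topology
open scoped ContDiff InnerProductSpace

namespace Pool.Agent.Work.MP_3b24f6_gt

noncomputable section

namespace Opt

section det
variable {E : Type*} [NormedAddCommGroup E] [InnerProductSpace ℝ E] [FiniteDimensional ℝ E]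

theorem dens_eq (A : E → E →L[ℝ] E) {g : E → E → E → ℝ} (hg : ∀ z u v, g z u v = ⟪A z u, v⟫_ℝ)
    (z : E) : Riem.dens g z = Real.sqrt (A z).det := by
  unfold Riem.dens
  congr 1
  have h1 : (A z).det = LinearMap.det ((A z : E →L[ℝ] E) : E →ₗ[ℝ] E) := rfl
  rw [h1, ← LinearMap.det_toMatrix (stdOrthonormalBasis ℝ E).toBasis, ← Matrix.det_transpose]
  congr 1
  ext i j
  show g z (stdOrthonormalBasis ℝ E j) (stdOrthonormalBasis ℝ E i) = _
  rw [hg, LinearMap.toMatrix_apply, OrthonormalBasis.coe_toBasis,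
    OrthonormalBasis.coe_toBasis_repr_apply, OrthonormalBasis.repr_apply_apply, real_inner_comm]
  rfl

end det

section K

variable {E : Type*} [NormedAddCommGroup E] [InnerProductSpace ℝ E] [FiniteDimensional ℝ E]
  {w : ℕ} (S : KStr E w) {g : E → E → E → ℝ} (hg : ∀ z u v, g z u v = ⟪kA S z u, v⟫_ℝ)
include hg

theorem dens_kA (hw : 1 ≤ w) (z : E) : Riem.dens g z = krho w z := by
  rw [dens_eq (kA S) hg, KIso.det_kA_eq S hw, krho, Real.sqrt_sq (pow_nonneg (uu_pos z).le _)]

variable [MeasurableSpace E] [BorelSpace E]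

theorem kBalls (hw : 1 ≤ w) (hd : 2 * w + 2 ≤ Module.finrank ℝ E) : Riem.BallsOptimal g :=
  ballsOptimal (KVer.homB S hw hd) (fun z v => (hg z v v).trans (KVer.mg_ver S hw hd z v).symm)
    (fun z => dens_kA S hg hw z) (KVer.mg_kphi S hw hd)

end K

section O

variable {E : Type*} [NormedAddCommGroup E] [InnerProductSpace ℝ E] [FiniteDimensional ℝ E]
  [MeasurableSpace E] [BorelSpace E] {ι : Type} [Fintype ι] [DecidableEq ι] (c : Clif E ι)

theorem oBalls {g : E → E → E → ℝ} (hg : ∀ z u v, g z u v = ⟪c.oA z u, v⟫_ℝ) (w : ℕ) (hw : 1 ≤ w)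
    (hι : Fintype.card ι = w + 2) (hE : Module.finrank ℝ E = 2 * w + 2) :
    Riem.BallsOptimal g := by
  have hdim : Module.finrank ℝ E = Fintype.card ι + w := by omega
  have hA : ∀ z v : E, g z v v = mg (c.ver w hw hι hE) z v := by
    intro z v
    show _ = ‖v‖ ^ 2 - ⟪z, v⟫_ℝ ^ 2 / uu z ^ 2 + ⟪c.Q z v, v⟫_ℝ
    rw [hg, OIso.oA_inner, c.inner_Q_self, real_inner_self_eq_norm_sq, uu_sq]
    ring
  refine ballsOptimal (V := c.ver w hw hι hE) (OIso.ohomB c _ rfl hdim) hA (fun z => ?_)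
    fun p y v => ?_
  · rw [dens_eq c.oA hg, OIso.det_oA c w hdim hw, Real.sqrt_sq (pow_nonneg (uu_pos z).le _)]
    rfl
  · rw [← hA, ← hA, hg, hg]
    exact OIso.isom_ophi c p y v v

end O

section final

variable {E : Type*} [NormedAddCommGroup E] [InnerProductSpace ℝ E] [FiniteDimensional ℝ E]

theorem metC_eq (J : E →L[ℝ] E) (h : Riem.IsCplx J) (z u v : E) :
    Riem.metC J z u v = ⟪kA (KOf.kstrOfJ J (fun x => (h x).1) (fun x => (h x).2)) z u, v⟫_ℝ := by
  rw [KOf.kA_kstrOfJ]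
  unfold Riem.metC
  simp only [add_apply, sub_apply, smul_apply,
    ContinuousLinearMap.smulRight_apply, ContinuousLinearMap.id_apply, innerSL_apply_apply,
    inner_add_left, inner_sub_left, real_inner_smul_left, uu_sq]
  ring

theorem metH_eq (I J : E →L[ℝ] E) (h : Riem.IsQuat I J) (z u v : E) :
    Riem.metH I J z u v = ⟪kA (KOf.kstrOfIJ I J (fun x => (h.1 x).1) (fun x => (h.2.1 x).1)
      (fun x => (h.1 x).2) (fun x => (h.2.1 x).2) h.2.2) z u, v⟫_ℝ := by
  rw [KOf.kA_kstrOfIJ]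
  unfold Riem.metH
  simp only [add_apply, sub_apply, smul_apply,
    ContinuousLinearMap.smulRight_apply, ContinuousLinearMap.id_apply, innerSL_apply_apply,
    inner_add_left, inner_sub_left, real_inner_smul_left, uu_sq]
  ring

/-- The Clifford system of the Cayley plane. -/
def clifOfOct (S : Fin 9 → E →L[ℝ] E) (h : Riem.IsOct S) : Clif E (Fin 9) where
  S := S
  symm := h.symm
  rel a b x := by
    split_ifs with hab
    · rw [hab, h.sq, two_smul]
    · rw [h.anti a b hab, neg_add_cancel]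
  hopf := h.hopf

theorem metO_eq (S : Fin 9 → E →L[ℝ] E) (h : Riem.IsOct S) (z u v : E) :
    Riem.metO S z u v = ⟪(clifOfOct S h).oA z u, v⟫_ℝ := by
  rw [Clif.oA_apply, Clif.Q_apply]
  unfold Riem.metO
  simp only [inner_add_left, inner_sub_left, real_inner_smul_left, sum_inner, clifOfOct]
  ring

theorem isOct_of_clif (c : Clif E (Fin 9)) : Riem.IsOct c.S where
  symm := c.symm
  sq a x := by
    have h := c.rel a a x
    rw [if_pos rfl, ← two_smul ℝ (c.S a (c.S a x))] at h
    exact smul_right_injective E (two_ne_zero) h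
  anti a b hab x := by
    have h := c.rel a b x
    rw [if_neg hab] at h
    exact eq_neg_of_add_eq_zero_left h
  hopf := c.hopf

theorem exists_isOct : ∃ S : Fin 9 → EuclideanSpace ℝ (Fin 16) →L[ℝ] EuclideanSpace ℝ (Fin 16),
    Riem.IsOct S :=
  ⟨clif16.S, isOct_of_clif clif16⟩

variable [MeasurableSpace E] [BorelSpace E]

theorem ballsC (J : E →L[ℝ] E) (h : Riem.IsCplx J) (hE : 4 ≤ Module.finrank ℝ E) :
    Riem.BallsOptimal (Riem.metC J) :=
  kBalls _ (metC_eq J h) le_rfl (by omega)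

theorem ballsH (I J : E →L[ℝ] E) (h : Riem.IsQuat I J) (hE : 8 ≤ Module.finrank ℝ E) :
    Riem.BallsOptimal (Riem.metH I J) :=
  kBalls _ (metH_eq I J h) (by norm_num) (by omega)

theorem ballsO (S : Fin 9 → E →L[ℝ] E) (h : Riem.IsOct S) (hE : Module.finrank ℝ E = 16) :
    Riem.BallsOptimal (Riem.metO S) :=
  oBalls _ (metO_eq S h) 7 (by norm_num) (by simp) (by rw [hE])

end final

end Opt

end

end Pool.Agent.Work.MP_3b24f6_gt
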