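import Pool.Agent.Work.MP_3b24f6_gt.OptInst
import Pool.Agent.Work.MP_3b24f6_gt.Main
import Pool.Agent.Work.MP_3b24f6_gt.KAll

/-!
# Equality case for smooth domains in the hyperbolic spaces over `ℂ` and `ℍ`
-/

set_option autoImplicit false
set_option linter.unusedSectionVars false

open MeasureTheory Set Filter Topology
open scoped ContDiff InnerProductSpace

namespace Pool.Agent.Work.MP_3b24f6_gt

noncomputable section

/-- Equality case: a bounded domain with smooth boundary which has the volume and the perimeter of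
a ball is a ball. -/
def Riem.OnlyBalls {E : Type*} [NormedAddCommGroup E] [InnerProductSpace ℝ E]
    [FiniteDimensional ℝ E] [MeasurableSpace E] [BorelSpace E] (g : E → E → E → ℝ) : Prop :=
  ∀ D : Set E, SmoothDomain D → ∀ (p : E) (r : ℝ), vol g D = vol g (ball g p r) →
    area g D = area g (ball g p r) → ∃ q, D = ball g q r

namespace Opt

variable {E : Type*} [NormedAddCommGroup E] [InnerProductSpace ℝ E] [FiniteDimensional ℝ E]
  [MeasurableSpace E] [BorelSpace E]

theorem geo_vol (G : Geo E) {g : E → E → E → ℝ} (hρ : ∀ z, G.ρ z = Riem.dens g z) (D : Set E) :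
    G.vol D = Riem.vol g D := by
  unfold Geo.vol Riem.vol
  simp_rw [hρ]

theorem geo_area (G : Geo E) {g : E → E → E → ℝ} (hg : ∀ z v, g z v v = ⟪G.A z v, v⟫_ℝ)
    (hρ : ∀ z, G.ρ z = Riem.dens g z) (D : Set E) : G.area D = Riem.area g D := by
  unfold Geo.area Riem.area Geo.g
  have e2 : ∀ X : E → E, (ContDiff ℝ ∞ X ∧ HasCompactSupport X ∧ ∀ z, Riem.len g z (X z) ≤ 1)
      ↔ (ContDiff ℝ ∞ X ∧ HasCompactSupport X ∧ ∀ y, ⟪G.A y (X y), X y⟫_ℝ ≤ 1) := by
    intro X
    simp only [len_le_one, hg]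
  have e3 : ∀ X : E → E, (∫ z in D, Riem.div (fun y => Riem.dens g y • X y) z)
      = ∫ z in D, divE (fun y => G.ρ y • X y) z := by
    intro X
    simp only [hρ]
    rfl
  refine le_antisymm ?_ ?_
  · refine iSup_le fun X => ?_
    rw [← e3]
    exact le_iSup (fun X : {X : E → E // ContDiff ℝ ∞ X ∧ HasCompactSupport X ∧
      ∀ z, Riem.len g z (X z) ≤ 1} =>
        ENNReal.ofReal (∫ z in D, Riem.div (fun y => Riem.dens g y • X.1 y) z))
      ⟨X.1, (e2 X.1).2 X.2⟩
  · refine iSup_le fun X => ?_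
    rw [e3]
    exact le_iSup (fun X : {X : E → E // ContDiff ℝ ∞ X ∧ HasCompactSupport X ∧
      ∀ y, ⟪G.A y (X y), X y⟫_ℝ ≤ 1} => ENNReal.ofReal (∫ z in D, divE (fun y => G.ρ y • X.1 y) z))
      ⟨X.1, (e2 X.1).1 X.2⟩

theorem mu_sub {V : Ver E} (H : HomB V) (p : E) {s : ℝ} (hs : 0 < s) :
    mu V {y | H.chd p y < us s}
      = ENNReal.ofReal (sg E * rV (Module.finrank ℝ E - 1) V.w s) := by
  rw [ball_eq V H p hs, mu_phi V H p Metric.isOpen_ball.measurableSet, mu_ball V hs]

theorem sg_pos (V : Ver E) : 0 < sg E := by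
  have h1 := V.dim_le
  have : Nontrivial E := Module.nontrivial_of_finrank_pos (R := ℝ) (by omega)
  unfold sg
  refine ENNReal.toReal_pos ?_ (measure_ne_top _ _)
  rw [Measure.toSphere_apply_univ]
  refine mul_ne_zero ?_ ?_
  · have : 0 < Module.finrank ℝ E := by omega
    exact_mod_cast this.ne'
  · exact (Metric.measure_ball_pos volume (0 : E) one_pos).ne'

/-- The equality case for smooth domains. -/
theorem rigid {V : Ver E} (H : HomB V) {g : E → E → E → ℝ} (hA : ∀ z v, g z v v = mg V z v)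
    (hd : ∀ z, Riem.dens g z = rho V z)
    (hiso : ∀ p y v, mg V (H.phi p y) (fderiv ℝ (H.phi p) y v) = mg V y v)
    (G : Geo E) (hGA : ∀ z v, g z v v = ⟪G.A z v, v⟫_ℝ) (hGρ : ∀ z, G.ρ z = rho V z)
    {ι : Type} [Fintype ι] [DecidableEq ι] (hR : Rad G ι)
    (hι : 1 ≤ Fintype.card ι) (hdim : 2 * Fintype.card ι + 2 ≤ Module.finrank ℝ E)
    (h : Hom G) (hchd : h.chd = H.chd) (hG : Contract G)
    (p : E) (r : ℝ) {D : Set E} (hD : SmoothDomain D)
    (hv : Riem.vol g D = Riem.vol g (Riem.ball g p r))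
    (ha : Riem.area g D = Riem.area g (Riem.ball g p r)) : ∃ q, D = Riem.ball g q r := by
  have hρ : ∀ z, G.ρ z = Riem.dens g z := fun z => by rw [hGρ, hd]
  rcases D.eq_empty_or_nonempty with hne | hne
  · refine ⟨p, ?_⟩
    rw [hne]
    rcases le_or_gt r 0 with hr | hr
    · rw [RD.ball_nonpos _ p hr]
    · exfalso
      rw [hne, vol_eq_mu hd, vol_eq_mu hd, RD.ball_eq_chd H hA hiso p hr, measure_empty,
        mu_sub H p (Real.sinh_pos_iff.2 hr)] at hv
      have h1 : 0 < sg E * rV (Module.finrank ℝ E - 1) V.w (Real.sinh r) :=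
        mul_pos (sg_pos V) (rV_pos _ _ (Real.sinh_pos_iff.2 hr))
      rw [eq_comm, ENNReal.ofReal_eq_zero] at hv
      linarith
  · have hmin : ∀ D', SmoothDomain D' → G.vol D' = G.vol D → G.area D ≤ G.area D' := by
      intro D' hD' hv'
      rw [geo_area G hGA hρ, geo_area G hGA hρ, ha]
      rw [geo_vol G hρ, geo_vol G hρ, hv] at hv'
      exact ineq H hA hd hiso p r hD'.isOpen.measurableSet hv'
    obtain ⟨q, c, hc, hDc⟩ := main_abstract G hR hι hdim h hG hD hne hmin
    have hc' : us (Real.sinh (Real.arcosh c)) = c := by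
      have h1 : us (Real.sinh (Real.arcosh c)) = Real.cosh (Real.arcosh c) := by
        unfold us
        rw [add_comm, ← Real.cosh_sq, Real.sqrt_sq (Real.cosh_pos _).le]
      rw [h1, Real.cosh_arcosh hc.le]
    have hr' : 0 < Real.arcosh c := Real.arcosh_pos hc
    have hDq : D = Riem.ball g q (Real.arcosh c) := by
      rw [RD.ball_eq_chd H hA hiso q hr', hc', hDc, hchd]
    refine ⟨q, ?_⟩
    have hrr : Real.arcosh c = r := by
      rw [hDq, vol_eq_mu hd, vol_eq_mu hd, RD.ball_eq_chd H hA hiso q hr',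
        mu_sub H q (Real.sinh_pos_iff.2 hr')] at hv
      have hpos : 0 < sg E * rV (Module.finrank ℝ E - 1) V.w (Real.sinh (Real.arcosh c)) :=
        mul_pos (sg_pos V) (rV_pos _ _ (Real.sinh_pos_iff.2 hr'))
      rcases le_or_gt r 0 with hr | hr
      · rw [RD.ball_nonpos _ p hr, measure_empty, ENNReal.ofReal_eq_zero] at hv
        linarith
      · rw [RD.ball_eq_chd H hA hiso p hr, mu_sub H p (Real.sinh_pos_iff.2 hr),
          ENNReal.ofReal_eq_ofReal_iff hpos.le (mul_nonneg (sg_pos V).le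
            (rV_pos _ _ (Real.sinh_pos_iff.2 hr)).le)] at hv
        have h1 := mul_left_cancel₀ (sg_pos V).ne' hv
        have h2 := (rV_strictMonoOn (Module.finrank ℝ E - 1) V.w).injOn
          (Real.sinh_pos_iff.2 hr').le (Real.sinh_pos_iff.2 hr).le h1
        exact Real.sinh_injective h2
    rw [hDq, hrr]

theorem kOnly {w : ℕ} (S : KStr E w) {g : E → E → E → ℝ}
    (hg : ∀ z u v, g z u v = ⟪kA S z u, v⟫_ℝ) (hw : 1 ≤ w)
    (hd : 2 * w + 2 ≤ Module.finrank ℝ E) : Riem.OnlyBalls g := by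
  obtain ⟨G, hA, -, hρ, ⟨hR⟩, hC, h, hh⟩ := exists_all_k S hw (by omega)
  intro D hD p r hv ha
  exact rigid (KVer.homB S hw hd) (fun z v => (hg z v v).trans (KVer.mg_ver S hw hd z v).symm)
    (fun z => dens_kA S hg hw z) (KVer.mg_kphi S hw hd) G (fun z v => by rw [hg, hA])
    (fun z => by rw [hρ]; rfl) hR (by simpa using hw) (by simpa using hd) h hh hC p r hD hv ha

theorem onlyC (J : E →L[ℝ] E) (h : Riem.IsCplx J) (hE : 4 ≤ Module.finrank ℝ E) :
    Riem.OnlyBalls (Riem.metC J) :=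
  kOnly _ (metC_eq J h) le_rfl (by omega)

theorem onlyH (I J : E →L[ℝ] E) (h : Riem.IsQuat I J) (hE : 8 ≤ Module.finrank ℝ E) :
    Riem.OnlyBalls (Riem.metH I J) :=
  kOnly _ (metH_eq I J h) (by norm_num) (by omega)

end Opt

end

end Pool.Agent.Work.MP_3b24f6_gt
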