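import Mathlib

/-! The pointwise inequality at the end of the stability argument (helper7, note 4721).

`κ = coth r`, `τ = tanh r`, `t = 1 - x`, `x = ⟨e_r, ν⟩`, `Y = |P ν|²`, `h(r) = m κ + w τ`. -/

set_option autoImplicit false

namespace Pool.Agent.CHIso

/-- The integrand `Φ`. -/
noncomputable def Phi (m w κ τ H t Y : ℝ) : ℝ :=
  (H - (m * κ + w * τ)) ^ 2 / m
    + 2 * (H - (m * κ + w * τ)) * (κ * t + (1 + 1 / m) * τ * Y)
    + t * (2 * m * κ ^ 2 + 2 - t - 2 * w * τ ^ 2)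
    + Y * (2 * m + 1 + (2 * w - 3) * τ ^ 2 - 2 * t + 6 * τ ^ 2 * t)
    - (1 - 1 / m) * τ ^ 2 * Y ^ 2

/-- `Φ ≥ (H - h)²/m + 2 (m - w - 1) t`. -/
theorem Phi_ge {m w κ τ H t Y : ℝ} (hw : 1 ≤ w) (hm : 2 * w + 1 ≤ m) (hκ : 1 ≤ κ)
    (hκτ : κ * τ = 1) (hH : m + w ≤ H) (ht0 : 0 ≤ t) (ht2 : t ≤ 2) (hY0 : 0 ≤ Y)
    (hY : Y ≤ t * (2 - t)) :
    (H - (m * κ + w * τ)) ^ 2 / m + 2 * (m - w - 1) * t ≤ Phi m w κ τ H t Y := by
  have hm0 : 0 < m := by linarith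
  have hτ0 : 0 < τ := by
    by_contra hcon
    have : τ ≤ 0 := not_lt.mp hcon
    nlinarith
  have hτ1 : τ ≤ 1 := by nlinarith
  have hτsq : τ ^ 2 ≤ 1 := by nlinarith
  have hτsq0 : 0 ≤ τ ^ 2 := sq_nonneg τ
  have hτττ : τ ^ 2 ≤ τ := by nlinarith
  have hκsq : 1 ≤ κ ^ 2 := by nlinarith
  have hκsq' : κ ≤ κ ^ 2 := by nlinarith
  have hY1 : Y ≤ 1 := by nlinarith [sq_nonneg (t - 1)]
  have him : 0 < 1 / m := by positivity
  have him1 : 1 / m ≤ 1 := by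
    rw [div_le_one hm0]; linarith
  -- the last term
  have hlast : (1 - 1 / m) * τ ^ 2 * Y ^ 2 ≤ τ ^ 2 * Y := by
    have h1 : (1 - 1 / m) * (τ ^ 2 * Y ^ 2) ≤ 1 * (τ ^ 2 * Y ^ 2) := by
      apply mul_le_mul_of_nonneg_right (by linarith)
      positivity
    have h2 : τ ^ 2 * Y ^ 2 ≤ τ ^ 2 * Y := by
      apply mul_le_mul_of_nonneg_left _ hτsq0
      nlinarith
    calc (1 - 1 / m) * τ ^ 2 * Y ^ 2 = (1 - 1 / m) * (τ ^ 2 * Y ^ 2) := by ring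
      _ ≤ 1 * (τ ^ 2 * Y ^ 2) := h1
      _ = τ ^ 2 * Y ^ 2 := by ring
      _ ≤ τ ^ 2 * Y := h2
  unfold Phi
  set d := H - (m * κ + w * τ) with hd
  rcases le_or_gt 0 d with hd0 | hd0
  · -- case `H ≥ h`
    have h1 : 0 ≤ 2 * d * (κ * t + (1 + 1 / m) * τ * Y) := by positivity
    have h2 : 2 * (m - w - 1) * t ≤ t * (2 * m * κ ^ 2 + 2 - t - 2 * w * τ ^ 2) := by
      have : 2 * (m - w - 1) ≤ 2 * m * κ ^ 2 + 2 - t - 2 * w * τ ^ 2 := by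
        have e1 : 2 * m ≤ 2 * m * κ ^ 2 := by nlinarith
        have e2 : 2 * w * τ ^ 2 ≤ 2 * w := by nlinarith
        linarith
      calc 2 * (m - w - 1) * t = t * (2 * (m - w - 1)) := by ring
        _ ≤ _ := mul_le_mul_of_nonneg_left this ht0
    have h3 : τ ^ 2 * Y ≤ Y * (2 * m + 1 + (2 * w - 3) * τ ^ 2 - 2 * t + 6 * τ ^ 2 * t) := by
      have : τ ^ 2 ≤ 2 * m + 1 + (2 * w - 3) * τ ^ 2 - 2 * t + 6 * τ ^ 2 * t := by
        have e1 : 0 ≤ τ ^ 2 * t := by positivity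
        have e2 : 0 ≤ (w - 1) * τ ^ 2 := mul_nonneg (by linarith) hτsq0
        nlinarith
      calc τ ^ 2 * Y = Y * τ ^ 2 := by ring
        _ ≤ _ := mul_le_mul_of_nonneg_left this hY0
    linarith
  · -- case `H < h`
    have hdge : -(m * (κ - 1)) ≤ d := by
      have : w * τ ≤ w := by nlinarith
      rw [hd]; nlinarith
    have hfac : 0 ≤ κ * t + (1 + 1 / m) * τ * Y := by positivity
    have h1 : -(2 * (m * (κ - 1)) * (κ * t + (1 + 1 / m) * τ * Y))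
        ≤ 2 * d * (κ * t + (1 + 1 / m) * τ * Y) := by
      have := mul_le_mul_of_nonneg_right hdge hfac
      nlinarith
    have h1' : 2 * (m * (κ - 1)) * (κ * t + (1 + 1 / m) * τ * Y)
        = 2 * m * κ ^ 2 * t - 2 * m * κ * t + 2 * (m + 1) * (1 - τ) * Y := by
      have e : m * (1 + 1 / m) = m + 1 := by field_simp
      calc 2 * (m * (κ - 1)) * (κ * t + (1 + 1 / m) * τ * Y)
          = 2 * m * κ ^ 2 * t - 2 * m * κ * t
              + 2 * (m * (1 + 1 / m)) * (κ * τ - τ) * Y := by ring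
        _ = _ := by rw [e, hκτ]
    have h2 : (m - w) * 2 + (2 - t) ≤ 2 * m * κ + 2 - t - 2 * w * τ ^ 2 := by
      have e1 : 2 * m ≤ 2 * m * κ := by nlinarith
      have e2 : 2 * w * τ ^ 2 ≤ 2 * w := by nlinarith
      linarith
    have h2' := mul_le_mul_of_nonneg_left h2 ht0
    -- the coefficient of `Y`
    have h3 : -(1 + 2 * t) + τ ^ 2
        ≤ 2 * m + 1 + (2 * w - 3) * τ ^ 2 - 2 * t + 6 * τ ^ 2 * t - 2 * (m + 1) * (1 - τ) := by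
      have e1 : 0 ≤ τ ^ 2 * t := by positivity
      have e2 : 0 ≤ (w - 1) * τ ^ 2 := mul_nonneg (by linarith) hτsq0
      have e3 : 8 * τ ≤ 2 * (m + 1) * τ := by nlinarith
      nlinarith
    have h3' := mul_le_mul_of_nonneg_left h3 hY0
    have h4 : (1 + 2 * t) * Y ≤ (1 + 2 * t) * (t * (2 - t)) :=
      mul_le_mul_of_nonneg_left hY (by linarith)
    have h5 : t * ((m - w) * 2 + (2 - t)) - (1 + 2 * t) * (t * (2 - t))
        = 2 * (m - w - 1) * t + 2 * t * (1 - t) ^ 2 := by ring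
    have h6 : 0 ≤ 2 * t * (1 - t) ^ 2 := by positivity
    nlinarith

/-- `Φ ≥ 2 (m - w - 1) t ≥ 0`. -/
theorem Phi_nonneg {m w κ τ H t Y : ℝ} (hw : 1 ≤ w) (hm : 2 * w + 1 ≤ m) (hκ : 1 ≤ κ)
    (hκτ : κ * τ = 1) (hH : m + w ≤ H) (ht0 : 0 ≤ t) (ht2 : t ≤ 2) (hY0 : 0 ≤ Y)
    (hY : Y ≤ t * (2 - t)) : 0 ≤ Phi m w κ τ H t Y := by
  have h := Phi_ge hw hm hκ hκτ hH ht0 ht2 hY0 hY
  have h1 : 0 ≤ (H - (m * κ + w * τ)) ^ 2 / m := by
    apply div_nonneg (sq_nonneg _); linarith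
  have h2 : 0 ≤ 2 * (m - w - 1) * t := by
    apply mul_nonneg _ ht0; linarith
  linarith

/-- Equality case: `Φ ≤ 0` forces `t = 0`, `Y = 0` and `H = h`. -/
theorem Phi_eq_zero {m w κ τ H t Y : ℝ} (hw : 1 ≤ w) (hm : 2 * w + 1 ≤ m) (hκ : 1 ≤ κ)
    (hκτ : κ * τ = 1) (hH : m + w ≤ H) (ht0 : 0 ≤ t) (ht2 : t ≤ 2) (hY0 : 0 ≤ Y)
    (hY : Y ≤ t * (2 - t)) (h0 : Phi m w κ τ H t Y ≤ 0) :
    t = 0 ∧ Y = 0 ∧ H = m * κ + w * τ := by
  have hm0 : 0 < m := by linarith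
  have h := Phi_ge hw hm hκ hκτ hH ht0 ht2 hY0 hY
  have h1 : 0 ≤ (H - (m * κ + w * τ)) ^ 2 / m := div_nonneg (sq_nonneg _) hm0.le
  have h2 : 0 ≤ 2 * (m - w - 1) * t := by
    apply mul_nonneg _ ht0; linarith
  have ht : t = 0 := by
    have : 2 * (m - w - 1) * t ≤ 0 := by linarith
    have h3 : 0 < 2 * (m - w - 1) := by linarith
    by_contra hne
    have : 0 < t := lt_of_le_of_ne ht0 (Ne.symm hne)
    have := mul_pos h3 this
    linarith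
  refine ⟨ht, ?_, ?_⟩
  · subst ht
    have : Y ≤ 0 := by simpa using hY
    exact le_antisymm this hY0
  · have h4 : (H - (m * κ + w * τ)) ^ 2 / m = 0 := by linarith
    have h5 : (H - (m * κ + w * τ)) ^ 2 = 0 := by
      rcases div_eq_zero_iff.mp h4 with h6 | h6
      · exact h6
      · exact absurd h6 hm0.ne'
    have h6 : H - (m * κ + w * τ) = 0 := by simpa using h5
    linarith

/-- `h(r) = m κ + w τ` is injective in `r` (`κ = 1/τ`, `τ ∈ (0,1)`), for `w ≤ m`. -/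
theorem meanCurv_inj {m w τ₁ τ₂ : ℝ} (hw : 0 ≤ w) (hm : w < m) (h₁ : 0 < τ₁) (h₁' : τ₁ < 1)
    (h₂ : 0 < τ₂) (h₂' : τ₂ < 1) (h : m * τ₁⁻¹ + w * τ₁ = m * τ₂⁻¹ + w * τ₂) : τ₁ = τ₂ := by
  have e1 : m * τ₁⁻¹ + w * τ₁ = (m + w * τ₁ ^ 2) / τ₁ := by field_simp
  have e2 : m * τ₂⁻¹ + w * τ₂ = (m + w * τ₂ ^ 2) / τ₂ := by field_simp
  rw [e1, e2, div_eq_div_iff h₁.ne' h₂.ne'] at h
  have h3 : (τ₂ - τ₁) * (m - w * (τ₁ * τ₂)) = 0 := by ring_nf; ring_nf at h; linarith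
  have h4 : 0 < m - w * (τ₁ * τ₂) := by
    have : τ₁ * τ₂ < 1 := by nlinarith
    nlinarith
  rcases mul_eq_zero.mp h3 with h5 | h5
  · linarith
  · exact absurd h5 h4.ne'

end Pool.Agent.CHIso
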