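import Pool.Agent.Work.MP_3b24f6_gt.PtwSum
import Pool.Agent.Work.MP_3b24f6_gt.ComplexIso

/-!
The pointwise inequality for the maps `T e t y = (1 + t ⟪e,y⟫/u)^(1/N) • y` (complex case, in a form
which only uses a vector `k` with `‖k‖ = ‖y‖`, `k ⟂ y`, in the application `k = J y`).
-/

set_option autoImplicit false

open scoped InnerProductSpace

noncomputable section

namespace Pool.Agent.Work.MP_3b24f6_gt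

namespace Ptw

open CIso

variable {E : Type*} [NormedAddCommGroup E] [InnerProductSpace ℝ E]

/-- square of the dual norm -/
def a2 (y k ξ : E) : ℝ := ‖ξ‖ ^ 2 + ⟪y, ξ⟫_ℝ ^ 2 - ⟪k, ξ⟫_ℝ ^ 2 / uu y ^ 2

lemma nsq (g c : ℝ) (ξ v : E) :
    ‖g • ξ - c • v‖ ^ 2 = g ^ 2 * ‖ξ‖ ^ 2 - 2 * g * c * ⟪ξ, v⟫_ℝ + c ^ 2 * ‖v‖ ^ 2 := by
  rw [norm_sub_sq_real, norm_smul, norm_smul, real_inner_smul_left, real_inner_smul_right,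
    mul_pow, mul_pow, Real.norm_eq_abs, Real.norm_eq_abs, sq_abs, sq_abs]
  ring

lemma bessel {y k : E} (hk : ‖k‖ = ‖y‖) (hky : ⟪k, y⟫_ℝ = 0) (ξ : E) :
    ⟪y, ξ⟫_ℝ ^ 2 + ⟪k, ξ⟫_ℝ ^ 2 ≤ ‖y‖ ^ 2 * ‖ξ‖ ^ 2 := by
  rcases eq_or_lt_of_le (norm_nonneg y) with h | h
  · have hy : y = 0 := norm_eq_zero.1 h.symm
    have hk0 : k = 0 := norm_eq_zero.1 (hk.trans h.symm)
    simp [hy, hk0]
  · have hyk : ⟪y, k⟫_ℝ = 0 := by rw [real_inner_comm]; exact hky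
    have h1 := nsq (‖y‖ ^ 2) 1 ξ (⟪y, ξ⟫_ℝ • y + ⟪k, ξ⟫_ℝ • k)
    have h2 : ‖⟪y, ξ⟫_ℝ • y + ⟪k, ξ⟫_ℝ • k‖ ^ 2
        = (⟪y, ξ⟫_ℝ ^ 2 + ⟪k, ξ⟫_ℝ ^ 2) * ‖y‖ ^ 2 := by
      rw [norm_add_sq_real, norm_smul, norm_smul, real_inner_smul_left, real_inner_smul_right,
        hyk, mul_pow, mul_pow, Real.norm_eq_abs, Real.norm_eq_abs, sq_abs, sq_abs, hk]
      ring
    have h3 : ⟪ξ, ⟪y, ξ⟫_ℝ • y + ⟪k, ξ⟫_ℝ • k⟫_ℝ = ⟪y, ξ⟫_ℝ ^ 2 + ⟪k, ξ⟫_ℝ ^ 2 := by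
      rw [inner_add_right, real_inner_smul_right, real_inner_smul_right, real_inner_comm y ξ,
        real_inner_comm k ξ]
      ring
    rw [h2, h3] at h1
    have h0 := sq_nonneg ‖(‖y‖ ^ 2) • ξ - (1 : ℝ) • (⟪y, ξ⟫_ℝ • y + ⟪k, ξ⟫_ℝ • k)‖
    rw [h1] at h0
    have h4 : 0 < ‖y‖ ^ 2 := by positivity
    have e : 0 ≤ ‖y‖ ^ 2 * (‖y‖ ^ 2 * ‖ξ‖ ^ 2 - (⟪y, ξ⟫_ℝ ^ 2 + ⟪k, ξ⟫_ℝ ^ 2)) := by
      linarith
    have := nonneg_of_mul_nonneg_right e h4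
    linarith

lemma a2_bounds {y k : E} (hk : ‖k‖ = ‖y‖) (hky : ⟪k, y⟫_ℝ = 0) (ξ : E) :
    ‖ξ‖ ^ 2 ≤ uu y ^ 2 * a2 y k ξ ∧ ⟪y, ξ⟫_ℝ ^ 2 ≤ a2 y k ξ ∧
      ⟪k, ξ⟫_ℝ ^ 2 ≤ (uu y ^ 2) ^ 2 * a2 y k ξ ∧
      uu y ^ 2 * (⟪y, ξ⟫_ℝ ^ 2 + ⟪k, ξ⟫_ℝ ^ 2) ≤ uu y ^ 2 * (‖y‖ ^ 2 * ‖ξ‖ ^ 2) ∧ 0 ≤ a2 y k ξ := by
  have hb := bessel hk hky ξ
  have hU := uu_sq y
  have hU1 : 1 ≤ uu y ^ 2 := by rw [hU]; nlinarith [sq_nonneg ‖y‖]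
  have hU0 : 0 < uu y ^ 2 := by linarith
  have e : uu y ^ 2 * a2 y k ξ = ‖ξ‖ ^ 2 + (‖y‖ ^ 2 * ‖ξ‖ ^ 2 - (⟪y, ξ⟫_ℝ ^ 2 + ⟪k, ξ⟫_ℝ ^ 2))
      + (uu y ^ 2 + 1) * ⟪y, ξ⟫_ℝ ^ 2 := by
    unfold a2
    rw [mul_sub, mul_add, mul_div_cancel₀ _ hU0.ne']
    rw [show uu y ^ 2 * ‖ξ‖ ^ 2 = (1 + ‖y‖ ^ 2) * ‖ξ‖ ^ 2 by rw [hU]]
    ring
  have x0 : 0 ≤ ‖ξ‖ ^ 2 := sq_nonneg _
  have r0 : 0 ≤ ⟪y, ξ⟫_ℝ ^ 2 := sq_nonneg _
  have k0 : 0 ≤ ⟪k, ξ⟫_ℝ ^ 2 := sq_nonneg _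
  have h1 : ‖ξ‖ ^ 2 ≤ uu y ^ 2 * a2 y k ξ := by rw [e]; nlinarith
  have h2 : ⟪y, ξ⟫_ℝ ^ 2 ≤ a2 y k ξ := by
    have : uu y ^ 2 * ⟪y, ξ⟫_ℝ ^ 2 ≤ uu y ^ 2 * a2 y k ξ := by rw [e]; nlinarith
    exact le_of_mul_le_mul_left this hU0
  have h3 : ⟪k, ξ⟫_ℝ ^ 2 ≤ (uu y ^ 2) ^ 2 * a2 y k ξ := by
    have : ‖y‖ ^ 2 * ‖ξ‖ ^ 2 ≤ uu y ^ 2 * (uu y ^ 2 * a2 y k ξ) :=
      mul_le_mul (by rw [hU]; linarith) h1 x0 hU0.le
    nlinarith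
  refine ⟨h1, h2, h3, mul_le_mul_of_nonneg_left hb hU0.le, ?_⟩
  nlinarith

/-- the bounded scalars of `(y, k, ξ, e)` -/
def mk (y k ξ e : E) (hk : ‖k‖ = ‖y‖) (hky : ⟪k, y⟫_ℝ = 0) (ha : 0 < a2 y k ξ)
    (he : ‖e‖ = 1) : Sc where
  q := ⟪e, y⟫_ℝ / uu y
  w := (uu y ^ 2)⁻¹
  al := ⟪y, ξ⟫_ℝ / Real.sqrt (a2 y k ξ)
  be := ⟪k, ξ⟫_ℝ / (uu y ^ 2 * Real.sqrt (a2 y k ξ))
  ep := ⟪e, ξ⟫_ℝ / (uu y * Real.sqrt (a2 y k ξ))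
  jh := ⟪k, e⟫_ℝ / uu y
  hq := by
    rw [← sq_le_one_iff_abs_le_one, div_pow, div_le_one (pow_pos (uu_pos y) 2), uu_sq]
    have h := abs_real_inner_le_norm e y
    rw [he, one_mul] at h
    have : ⟪e, y⟫_ℝ ^ 2 ≤ ‖y‖ ^ 2 := by
      rw [← sq_abs ⟪e, y⟫_ℝ]; exact pow_le_pow_left₀ (abs_nonneg _) h 2
    linarith
  hw0 := by have := uu_pos y; positivity
  hw1 := by
    have h1 : 1 ≤ uu y ^ 2 := by rw [uu_sq]; nlinarith [sq_nonneg ‖y‖]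
    exact inv_le_one_of_one_le₀ h1
  hal := by
    rw [← sq_le_one_iff_abs_le_one, div_pow, Real.sq_sqrt ha.le, div_le_one ha]
    exact (a2_bounds hk hky ξ).2.1
  hbe := by
    have := uu_pos y
    rw [← sq_le_one_iff_abs_le_one, div_pow, mul_pow, Real.sq_sqrt ha.le,
      div_le_one (by positivity)]
    exact (a2_bounds hk hky ξ).2.2.1
  hep := by
    have := uu_pos y
    rw [← sq_le_one_iff_abs_le_one, div_pow, mul_pow, Real.sq_sqrt ha.le,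
      div_le_one (by positivity)]
    have h := abs_real_inner_le_norm e ξ
    rw [he, one_mul] at h
    have : ⟪e, ξ⟫_ℝ ^ 2 ≤ ‖ξ‖ ^ 2 := by
      rw [← sq_abs ⟪e, ξ⟫_ℝ]; exact pow_le_pow_left₀ (abs_nonneg _) h 2
    exact this.trans (a2_bounds hk hky ξ).1
  hjh := by
    rw [← sq_le_one_iff_abs_le_one, div_pow, div_le_one (pow_pos (uu_pos y) 2), uu_sq]
    have h := abs_real_inner_le_norm k e
    rw [he, mul_one, hk] at h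
    have : ⟪k, e⟫_ℝ ^ 2 ≤ ‖y‖ ^ 2 := by
      rw [← sq_abs ⟪k, e⟫_ℝ]; exact pow_le_pow_left₀ (abs_nonneg _) h 2
    linarith

/-- the (rescaled) cofactor applied to `ξ` -/
def zeta (N : ℝ) (e : E) (t : ℝ) (y ξ : E) : E :=
  (1 + t * (⟪e, y⟫_ℝ / uu y * (1 + (uu y ^ 2)⁻¹ / N))) • ξ
    - (t / N * ⟪y, ξ⟫_ℝ) • ((uu y)⁻¹ • e - (⟪e, y⟫_ℝ / uu y ^ 3) • y)

/-- `λ^(-2)` -/
def LL (N : ℝ) (e : E) (t : ℝ) (y : E) : ℝ :=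
  Real.exp ((-2 / N) * Real.log (1 + t * (⟪e, y⟫_ℝ / uu y)))
/-- `λ^2` -/
def MM (N : ℝ) (e : E) (t : ℝ) (y : E) : ℝ :=
  Real.exp ((2 / N) * Real.log (1 + t * (⟪e, y⟫_ℝ / uu y)))

lemma LM (N : ℝ) (e : E) (t : ℝ) (y : E) : LL N e t y * MM N e t y = 1 := by
  unfold LL MM
  rw [← Real.exp_add]
  have : -2 / N * Real.log (1 + t * (⟪e, y⟫_ℝ / uu y)) + 2 / N * Real.log (1 + t * (⟪e, y⟫_ℝ / uu y))
      = 0 := by ring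
  rw [this, Real.exp_zero]

lemma MM_pos (N : ℝ) (e : E) (t : ℝ) (y : E) : 0 < MM N e t y := Real.exp_pos _
lemma LL_pos (N : ℝ) (e : E) (t : ℝ) (y : E) : 0 < LL N e t y := Real.exp_pos _

/-- the square of the integrand of the deformed perimeter -/
def B2 (N : ℝ) (e : E) (t : ℝ) (y k ξ : E) : ℝ :=
  LL N e t y * ‖zeta N e t y ξ‖ ^ 2 + ⟪y, zeta N e t y ξ⟫_ℝ ^ 2
    - ⟪k, zeta N e t y ξ⟫_ℝ ^ 2 / (1 + MM N e t y * ‖y‖ ^ 2)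

lemma B2_eq {N : ℝ} (hN : N ≠ 0) {y k ξ e : E} (hk : ‖k‖ = ‖y‖) (hky : ⟪k, y⟫_ℝ = 0)
    (ha : 0 < a2 y k ξ) (he : ‖e‖ = 1) (t : ℝ) :
    B2 N e t y k ξ = a2 y k ξ * (mk y k ξ e hk hky ha he).Pi N t := by
  set p := mk y k ξ e hk hky ha he with hp
  set a := Real.sqrt (a2 y k ξ) with haa
  have ha0 : 0 < a := Real.sqrt_pos.2 ha
  have hasq : a ^ 2 = a2 y k ξ := Real.sq_sqrt ha.le
  have hu := uu_pos y
  have hU := uu_sq y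
  have hu3 : uu y ^ 3 ≠ 0 := by positivity
  have s2 : ‖y‖ ^ 2 = uu y ^ 2 - 1 := by linarith
  have hM := MM_pos N e t y
  have hML := LM N e t y
  -- the scalars
  have e1 : ⟪e, y⟫_ℝ = uu y * p.q := by
    rw [hp]; simp only [mk]; field_simp
  have e2 : ⟪y, ξ⟫_ℝ = a * p.al := by
    rw [hp]; simp only [mk]; rw [← haa]; field_simp
  have e3 : ⟪k, ξ⟫_ℝ = uu y ^ 2 * a * p.be := by
    rw [hp]; simp only [mk]; rw [← haa]; field_simp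
  have e4 : ⟪e, ξ⟫_ℝ = uu y * a * p.ep := by
    rw [hp]; simp only [mk]; rw [← haa]; field_simp
  have e5 : ⟪k, e⟫_ℝ = uu y * p.jh := by
    rw [hp]; simp only [mk]; field_simp
  have e6 : p.w = (uu y ^ 2)⁻¹ := by rw [hp]; simp only [mk]
  have e7 : ‖ξ‖ ^ 2 = a ^ 2 * (1 - p.al ^ 2 + uu y ^ 2 * p.be ^ 2) := by
    have := hasq
    unfold a2 at this
    rw [e2, e3] at this
    have h : (uu y ^ 2 * a * p.be) ^ 2 / uu y ^ 2 = uu y ^ 2 * a ^ 2 * p.be ^ 2 := by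
      field_simp
    rw [h] at this
    linarith
  have eL : p.L N t = LL N e t y := by rw [hp]; rfl
  have eM : p.M N t = MM N e t y := by rw [hp]; rfl
  set u := uu y with huu
  have hyk : ⟪y, k⟫_ℝ = 0 := by rw [real_inner_comm]; exact hky
  have hg : 1 + t * (⟪e, y⟫_ℝ / u * (1 + (u ^ 2)⁻¹ / N)) = p.gg N t := by
    simp only [Sc.gg, Sc.bt, e1, e6]; field_simp
  -- inner products with zeta
  have hy1 : ⟪y, zeta N e t y ξ⟫_ℝ = a * p.al * (1 + t * p.q) := by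
    unfold zeta
    rw [← huu, hg]
    simp only [inner_sub_right, real_inner_smul_right, real_inner_self_eq_norm_sq,
      real_inner_comm e y, e1, e2, s2]
    simp only [Sc.gg, Sc.bt, e6]
    field_simp
    ring
  have hk1 : ⟪k, zeta N e t y ξ⟫_ℝ
      = u ^ 2 * a * (p.gg N t * p.be - (t / N) * p.al * p.jh * p.w) := by
    unfold zeta
    rw [← huu, hg]
    simp only [inner_sub_right, real_inner_smul_right, hky, e1, e2, e3, e5, e6]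
    field_simp
    ring
  have hz1 : ‖zeta N e t y ξ‖ ^ 2 = p.gg N t ^ 2 * ‖ξ‖ ^ 2
      - 2 * p.gg N t * (t / N) * a ^ 2 * p.al * (p.ep - p.q * p.al * p.w)
      + (t / N) ^ 2 * (a * p.al) ^ 2 * (p.w * (1 - p.q ^ 2 * (1 + p.w))) := by
    unfold zeta
    rw [← huu, hg, nsq, nsq, inner_sub_right, real_inner_smul_right, real_inner_smul_right,
      real_inner_comm e ξ, real_inner_comm y ξ, he, s2, e1, e2, e4, e6]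
    field_simp
    ring
  have hD : 1 + MM N e t y * ‖y‖ ^ 2 = u ^ 2 * (1 + (MM N e t y - 1) * (1 - p.w)) := by
    rw [s2, e6]; field_simp; ring
  have hD0 : 0 < 1 + MM N e t y * ‖y‖ ^ 2 := by positivity
  have hD1 : 0 < 1 + (MM N e t y - 1) * (1 - p.w) := by
    rw [hD] at hD0
    have : 0 < u ^ 2 := by positivity
    exact (mul_pos_iff_of_pos_left this).1 hD0
  unfold B2
  rw [hy1, hk1, hz1, hD, e7]
  simp only [Sc.Pi, Sc.Br, Sc.Cr, Sc.E, Sc.D, eL, eM]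
  rw [← hasq]
  have hw : u ^ 2 = p.w⁻¹ := by rw [e6, inv_inv]
  have hw0 : p.w ≠ 0 := by rw [e6]; positivity
  rw [hw]
  have hLM : LL N e t y = (MM N e t y)⁻¹ := eq_inv_of_mul_eq_one_left hML
  rw [hLM]
  have hM0 : MM N e t y ≠ 0 := hM.ne'
  have hD2 : 1 + (MM N e t y - 1) * (1 - p.w) ≠ 0 := hD1.ne'
  generalize MM N e t y = M at *
  generalize p.gg N t = g at *
  field_simp
  ring

lemma sums {ι : Type*} [Fintype ι] [FiniteDimensional ℝ E] (b : OrthonormalBasis ι ℝ E) (x y : E) :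
    ∑ j, ⟪b j, x⟫_ℝ * ⟪b j, y⟫_ℝ = ⟪x, y⟫_ℝ := by
  rw [← b.sum_inner_mul_inner x y]
  exact Finset.sum_congr rfl fun j _ => by rw [real_inner_comm x (b j)]

/-- **The pointwise inequality.** -/
theorem pointwise {ι : Type*} [Fintype ι] [FiniteDimensional ℝ E] (b : OrthonormalBasis ι ℝ E)
    {N : ℝ} (hN : (Module.finrank ℝ E : ℝ) = N) (hN4 : 4 ≤ N) : ∃ C r : ℝ, 0 ≤ C ∧ 0 < r ∧ r ≤ 1 ∧
    ∀ y k ξ : E, ‖k‖ = ‖y‖ → ⟪k, y⟫_ℝ = 0 → 0 < a2 y k ξ → ∀ t : ℝ, |t| ≤ r →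
    ∑ j, (Real.sqrt (B2 N (b j) t y k ξ) + Real.sqrt (B2 N (b j) (-t) y k ξ))
      ≤ (2 * N + C * |t| ^ 3) * Real.sqrt (a2 y k ξ)
        - 3 / N ^ 2 * t ^ 2 * ((‖y‖ ^ 2 * ‖ξ‖ ^ 2 - ⟪y, ξ⟫_ℝ ^ 2)
          / (uu y ^ 6 * Real.sqrt (a2 y k ξ))) := by
  obtain ⟨C, r, hC, hr, hr1, h⟩ := (ex_Pi N).sqrt
  have hN0 : N ≠ 0 := by linarith
  have hcard : (Fintype.card ι : ℝ) = N := by
    rw [← hN, Module.finrank_eq_card_basis b.toBasis]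
  refine ⟨2 * N * C, r, by positivity, hr, hr1, fun y k ξ hk hky ha t ht => ?_⟩
  set a := Real.sqrt (a2 y k ξ) with haa
  have ha0 : 0 < a := Real.sqrt_pos.2 ha
  have hasq : a ^ 2 = a2 y k ξ := Real.sq_sqrt ha.le
  let p : ι → Sc := fun j => mk y k ξ (b j) hk hky ha (b.norm_eq_one j)
  have hB : ∀ j s, Real.sqrt (B2 N (b j) s y k ξ) = a * Real.sqrt ((p j).Pi N s) := fun j s => by
    rw [B2_eq hN0 hk hky ha (b.norm_eq_one j) s, Real.sqrt_mul ha.le]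
  have hmt : |-t| ≤ r := by rwa [abs_neg]
  have h1 : ∀ j, Real.sqrt (B2 N (b j) t y k ξ) + Real.sqrt (B2 N (b j) (-t) y k ξ)
      ≤ a * (2 + t ^ 2 * ((p j).P2 N - (p j).P1 N ^ 2 / 4) + 2 * C * |t| ^ 3) := fun j => by
    rw [hB, hB, ← mul_add]
    refine mul_le_mul_of_nonneg_left ?_ ha0.le
    have u1 := (h (p j) t ht).2.2
    have u2 := (h (p j) (-t) hmt).2.2
    rw [abs_neg] at u2
    nlinarith
  refine (Finset.sum_le_sum fun j _ => h1 j).trans ?_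
  rw [← Finset.mul_sum, Finset.sum_add_distrib, Finset.sum_add_distrib, ← Finset.mul_sum,
    Finset.sum_const, Finset.sum_const, Finset.card_univ, nsmul_eq_mul, nsmul_eq_mul, hcard]
  -- the sum
  have hu := uu_pos y
  have hU := uu_sq y
  have hU1 : 1 ≤ uu y ^ 2 := by rw [hU]; nlinarith [sq_nonneg ‖y‖]
  set w := (uu y ^ 2)⁻¹ with hw
  have hw1 : w ≤ 1 := inv_le_one_of_one_le₀ hU1
  have hw0 : 0 < w := by positivity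
  set al := ⟪y, ξ⟫_ℝ / a with hal
  set be := ⟪k, ξ⟫_ℝ / (uu y ^ 2 * a) with hbe
  have hwU : uu y ^ 2 * w = 1 := mul_inv_cancel₀ (by positivity)
  have s2w : ‖y‖ ^ 2 * w = 1 - w := by
    have : ‖y‖ ^ 2 = uu y ^ 2 - 1 := by linarith
    rw [this, sub_mul, hwU, one_mul]
  have hXe : ‖ξ‖ ^ 2 / (uu y * a) ^ 2 = w * (1 - al ^ 2) + be ^ 2 := by
    have h2 := hasq
    unfold a2 at h2
    rw [hal, hbe, hw]
    have h3 : ‖ξ‖ ^ 2 = a ^ 2 - ⟪y, ξ⟫_ℝ ^ 2 + ⟪k, ξ⟫_ℝ ^ 2 / uu y ^ 2 := by linarith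
    rw [h3]
    field_simp
  have hid := sum_identity (ι := ι) hN0 rfl hcard p (w := w) (al := al) (be := be)
    (X := ‖ξ‖ ^ 2 / (uu y * a) ^ 2) (fun _ => rfl) (fun _ => rfl) (fun _ => rfl)
    (by
      have := sums b y y
      rw [real_inner_self_eq_norm_sq] at this
      calc ∑ j, (p j).q ^ 2 = ∑ j, (⟪b j, y⟫_ℝ * ⟪b j, y⟫_ℝ) * w :=
            Finset.sum_congr rfl fun j _ => by simp only [p, mk, hw]; field_simp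
        _ = 1 - w := by rw [← Finset.sum_mul, this, s2w])
    (by
      have := sums b y ξ
      calc ∑ j, (p j).q * (p j).ep = ∑ j, (⟪b j, y⟫_ℝ * ⟪b j, ξ⟫_ℝ) * (w / a) :=
            Finset.sum_congr rfl fun j _ => by simp only [p, mk, hw, ← haa]; field_simp
        _ = al * w := by rw [← Finset.sum_mul, this, hal]; ring)
    (by
      have := sums b y k
      rw [real_inner_comm, hky] at this
      calc ∑ j, (p j).q * (p j).jh = ∑ j, (⟪b j, y⟫_ℝ * ⟪b j, k⟫_ℝ) * w :=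
            Finset.sum_congr rfl fun j _ => by
              simp only [p, mk, hw, real_inner_comm (b j) k]; field_simp
        _ = 0 := by rw [← Finset.sum_mul, this, zero_mul])
    (by
      have := sums b ξ ξ
      rw [real_inner_self_eq_norm_sq] at this
      calc ∑ j, (p j).ep ^ 2 = ∑ j, (⟪b j, ξ⟫_ℝ * ⟪b j, ξ⟫_ℝ) * (1 / (uu y * a) ^ 2) :=
            Finset.sum_congr rfl fun j _ => by simp only [p, mk, ← haa]; field_simp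
        _ = _ := by rw [← Finset.sum_mul, this]; ring)
    (by
      have := sums b ξ k
      rw [real_inner_comm] at this
      calc ∑ j, (p j).ep * (p j).jh = ∑ j, (⟪b j, ξ⟫_ℝ * ⟪b j, k⟫_ℝ) * (1 / (uu y ^ 2 * a)) :=
            Finset.sum_congr rfl fun j _ => by
              simp only [p, mk, ← haa, real_inner_comm (b j) k]; field_simp
        _ = be := by rw [← Finset.sum_mul, this, hbe]; ring)
    (by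
      have := sums b k k
      rw [real_inner_self_eq_norm_sq, hk] at this
      calc ∑ j, (p j).jh ^ 2 = ∑ j, (⟪b j, k⟫_ℝ * ⟪b j, k⟫_ℝ) * w :=
            Finset.sum_congr rfl fun j _ => by
              simp only [p, mk, hw, real_inner_comm (b j) k]; field_simp
        _ = 1 - w := by rw [← Finset.sum_mul, this, s2w])
    hXe
  obtain ⟨f1, f2, f3, f4, f5⟩ := a2_bounds hk hky ξ
  have hbes := bessel hk hky ξ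
  -- `A` and `B`
  set A := (1 - w) - al ^ 2 with hA
  have hasq' : al ^ 2 = ⟪y, ξ⟫_ℝ ^ 2 / a ^ 2 := by rw [hal, div_pow]
  have hbsq : be ^ 2 = ⟪k, ξ⟫_ℝ ^ 2 / (uu y ^ 4 * a ^ 2) := by rw [hbe, div_pow]; ring
  -- `A = S-like`
  have hAe : A = (‖y‖ ^ 2 * ‖ξ‖ ^ 2 - ⟪y, ξ⟫_ℝ ^ 2 - ‖y‖ ^ 2 * ⟪k, ξ⟫_ℝ ^ 2 / uu y ^ 2)
      / (uu y ^ 2 * a ^ 2) := by
    have h2 := hasq
    unfold a2 at h2
    have h3 : ‖ξ‖ ^ 2 = a ^ 2 - ⟪y, ξ⟫_ℝ ^ 2 + ⟪k, ξ⟫_ℝ ^ 2 / uu y ^ 2 := by linarith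
    have h4 : ‖y‖ ^ 2 = uu y ^ 2 - 1 := by linarith
    rw [hA, hasq', h3, h4, hw]
    field_simp
    ring
  have hAS : (‖y‖ ^ 2 * ‖ξ‖ ^ 2 - ⟪y, ξ⟫_ℝ ^ 2) / (uu y ^ 4 * a ^ 2) ≤ A := by
    rw [hAe, div_le_div_iff₀ (by positivity) (by positivity)]
    have h5 : ‖y‖ ^ 2 * ⟪k, ξ⟫_ℝ ^ 2 / uu y ^ 2
        ≤ (‖y‖ ^ 2 * ‖ξ‖ ^ 2 - ⟪y, ξ⟫_ℝ ^ 2) * (1 - w) := by
      have : ‖y‖ ^ 2 * ⟪k, ξ⟫_ℝ ^ 2 / uu y ^ 2 = ⟪k, ξ⟫_ℝ ^ 2 * (1 - w) := by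
        rw [← s2w, hw]; ring
      rw [this]
      exact mul_le_mul_of_nonneg_right (by linarith) (by linarith)
    have h6 : (‖y‖ ^ 2 * ‖ξ‖ ^ 2 - ⟪y, ξ⟫_ℝ ^ 2) * w
        ≤ ‖y‖ ^ 2 * ‖ξ‖ ^ 2 - ⟪y, ξ⟫_ℝ ^ 2 - ‖y‖ ^ 2 * ⟪k, ξ⟫_ℝ ^ 2 / uu y ^ 2 := by
      nlinarith
    have h7 : (‖y‖ ^ 2 * ‖ξ‖ ^ 2 - ⟪y, ξ⟫_ℝ ^ 2)
        ≤ (‖y‖ ^ 2 * ‖ξ‖ ^ 2 - ⟪y, ξ⟫_ℝ ^ 2 - ‖y‖ ^ 2 * ⟪k, ξ⟫_ℝ ^ 2 / uu y ^ 2) * uu y ^ 2 := by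
      have := mul_le_mul_of_nonneg_right h6 (by positivity : 0 ≤ uu y ^ 2)
      rw [mul_assoc, mul_comm w, hwU, mul_one] at this
      exact this
    have h8 : 0 ≤ uu y ^ 2 * a ^ 2 := by positivity
    have := mul_le_mul_of_nonneg_right h7 h8
    calc _ ≤ _ := this
      _ = _ := by ring
  have hBA : be ^ 2 ≤ A := by
    rw [hAe, hbsq, div_le_div_iff₀ (by positivity) (by positivity)]
    have h5 : ‖y‖ ^ 2 * ⟪k, ξ⟫_ℝ ^ 2 / uu y ^ 2 = ⟪k, ξ⟫_ℝ ^ 2 * (1 - w) := by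
      rw [← s2w, hw]; ring
    have h6 : ⟪k, ξ⟫_ℝ ^ 2 * w
        ≤ ‖y‖ ^ 2 * ‖ξ‖ ^ 2 - ⟪y, ξ⟫_ℝ ^ 2 - ‖y‖ ^ 2 * ⟪k, ξ⟫_ℝ ^ 2 / uu y ^ 2 := by
      rw [h5]; nlinarith
    have h7 : ⟪k, ξ⟫_ℝ ^ 2
        ≤ (‖y‖ ^ 2 * ‖ξ‖ ^ 2 - ⟪y, ξ⟫_ℝ ^ 2 - ‖y‖ ^ 2 * ⟪k, ξ⟫_ℝ ^ 2 / uu y ^ 2) * uu y ^ 2 := by
      have := mul_le_mul_of_nonneg_right h6 (by positivity : 0 ≤ uu y ^ 2)
      rw [mul_assoc, mul_comm w, hwU, mul_one] at this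
      exact this
    have h8 : 0 ≤ uu y ^ 2 * a ^ 2 := by positivity
    have := mul_le_mul_of_nonneg_right h7 h8
    calc _ ≤ _ := this
      _ = _ := by ring
  have hAT : A ≤ 1 - w := by rw [hA]; nlinarith [sq_nonneg al]
  have hpoly := poly_neg (m := N - 1) (T := 1 - w) (A := A) (B := be ^ 2) (by linarith)
    (sq_nonneg _) hBA hAT (by linarith)
  have hA0 : 0 ≤ A := (sq_nonneg be).trans hBA
  set Sg := ∑ j, ((p j).P2 N - (p j).P1 N ^ 2 / 4) with hSg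
  have hS1 : N ^ 2 * Sg ≤ - (3 * w * A) := by
    rw [hid]
    have e1 : 1 - (1 - w) = w := by ring
    rw [e1] at hpoly
    nlinarith [sq_nonneg A]
  have hNN : 0 < N ^ 2 := by positivity
  have hS2 : Sg ≤ - (3 / N ^ 2 * (w * A)) := by
    have : Sg = (N ^ 2 * Sg) / N ^ 2 := by field_simp
    rw [this, div_le_iff₀ hNN]
    calc _ ≤ _ := hS1
      _ = _ := by field_simp
  have hS3 : Sg ≤ - (3 / N ^ 2 * (w * ((‖y‖ ^ 2 * ‖ξ‖ ^ 2 - ⟪y, ξ⟫_ℝ ^ 2)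
      / (uu y ^ 4 * a ^ 2)))) := by
    refine hS2.trans (neg_le_neg ?_)
    exact mul_le_mul_of_nonneg_left (mul_le_mul_of_nonneg_left hAS hw0.le) (by positivity)
  have hfin : a * (N * 2 + t ^ 2 * Sg + N * (2 * C * |t| ^ 3))
      ≤ a * (N * 2 + t ^ 2 * (- (3 / N ^ 2 * (w * ((‖y‖ ^ 2 * ‖ξ‖ ^ 2 - ⟪y, ξ⟫_ℝ ^ 2)
      / (uu y ^ 4 * a ^ 2))))) + N * (2 * C * |t| ^ 3)) := by
    refine mul_le_mul_of_nonneg_left ?_ ha0.le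
    have := mul_le_mul_of_nonneg_left hS3 (sq_nonneg t)
    linarith
  refine hfin.trans (le_of_eq ?_)
  rw [hw]
  field_simp
  ring

end Ptw

end Pool.Agent.Work.MP_3b24f6_gt
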