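import Mathlib

/-!
A small calculus of uniform second order expansions in a real variable `t`, depending on a
parameter `p`.
-/

set_option autoImplicit false

namespace Pool.Agent.Work.MP_3b24f6_gt

namespace Ptw

variable {P : Type*}

/-- `f p t = f0 p + t f1 p + t² f2 p + O(|t|³)` for `|t| ≤ r`, uniformly in `p`,
with bounded coefficients. -/
def Ex (f : P → ℝ → ℝ) (f0 f1 f2 : P → ℝ) : Prop :=
  ∃ C r : ℝ, 0 ≤ C ∧ 0 < r ∧ r ≤ 1 ∧ ∀ p, |f0 p| ≤ C ∧ |f1 p| ≤ C ∧ |f2 p| ≤ C ∧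
    ∀ t, |t| ≤ r → |f p t - (f0 p + t * f1 p + t ^ 2 * f2 p)| ≤ C * |t| ^ 3

lemma Ex.congr {f g : P → ℝ → ℝ} {f0 f1 f2 g0 g1 g2 : P → ℝ} (h : Ex f f0 f1 f2)
    (hf : ∀ p t, f p t = g p t) (h0 : ∀ p, f0 p = g0 p) (h1 : ∀ p, f1 p = g1 p)
    (h2 : ∀ p, f2 p = g2 p) : Ex g g0 g1 g2 := by
  have e1 : f = g := by funext p t; exact hf p t
  have e2 : f0 = g0 := funext h0
  have e3 : f1 = g1 := funext h1
  have e4 : f2 = g2 := funext h2
  rw [← e1, ← e2, ← e3, ← e4]; exact h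

lemma Ex.const {c : P → ℝ} {K : ℝ} (hc : ∀ p, |c p| ≤ K) :
    Ex (fun p _ => c p) c (fun _ => 0) (fun _ => 0) := by
  refine ⟨|K|, 1, abs_nonneg _, one_pos, le_refl _, fun p => ⟨(hc p).trans (le_abs_self _),
    by simp, by simp, fun t _ => ?_⟩⟩
  simp
  positivity

lemma Ex.lin {c : P → ℝ} {K : ℝ} (hc : ∀ p, |c p| ≤ K) :
    Ex (fun p t => t * c p) (fun _ => 0) c (fun _ => 0) := by
  refine ⟨|K|, 1, abs_nonneg _, one_pos, le_refl _, fun p => ⟨by simp, (hc p).trans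
    (le_abs_self _), by simp, fun t _ => ?_⟩⟩
  simp
  positivity

lemma Ex.add {f g : P → ℝ → ℝ} {f0 f1 f2 g0 g1 g2 : P → ℝ} (hf : Ex f f0 f1 f2)
    (hg : Ex g g0 g1 g2) :
    Ex (fun p t => f p t + g p t) (fun p => f0 p + g0 p) (fun p => f1 p + g1 p)
      (fun p => f2 p + g2 p) := by
  obtain ⟨C, r, hC, hr, hr1, h⟩ := hf
  obtain ⟨D, s, hD, hs, hs1, k⟩ := hg
  refine ⟨C + D, min r s, by positivity, lt_min hr hs, (min_le_left _ _).trans hr1, fun p => ?_⟩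
  obtain ⟨a0, a1, a2, a3⟩ := h p
  obtain ⟨b0, b1, b2, b3⟩ := k p
  refine ⟨(abs_add_le _ _).trans (add_le_add a0 b0), (abs_add_le _ _).trans (add_le_add a1 b1),
    (abs_add_le _ _).trans (add_le_add a2 b2), fun t ht => ?_⟩
  have c1 := a3 t (ht.trans (min_le_left _ _))
  have c2 := b3 t (ht.trans (min_le_right _ _))
  have e : f p t + g p t - (f0 p + g0 p + t * (f1 p + g1 p) + t ^ 2 * (f2 p + g2 p))
      = (f p t - (f0 p + t * f1 p + t ^ 2 * f2 p)) + (g p t - (g0 p + t * g1 p + t ^ 2 * g2 p)) := by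
    ring
  rw [e, add_mul]
  exact (abs_add_le _ _).trans (add_le_add c1 c2)

lemma Ex.neg {f : P → ℝ → ℝ} {f0 f1 f2 : P → ℝ} (hf : Ex f f0 f1 f2) :
    Ex (fun p t => - f p t) (fun p => - f0 p) (fun p => - f1 p) (fun p => - f2 p) := by
  obtain ⟨C, r, hC, hr, hr1, h⟩ := hf
  refine ⟨C, r, hC, hr, hr1, fun p => ?_⟩
  obtain ⟨a0, a1, a2, a3⟩ := h p
  refine ⟨by rwa [abs_neg], by rwa [abs_neg], by rwa [abs_neg], fun t ht => ?_⟩
  have e : - f p t - (- f0 p + t * (- f1 p) + t ^ 2 * (- f2 p))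
      = - (f p t - (f0 p + t * f1 p + t ^ 2 * f2 p)) := by ring
  rw [e, abs_neg]; exact a3 t ht

lemma Ex.sub {f g : P → ℝ → ℝ} {f0 f1 f2 g0 g1 g2 : P → ℝ} (hf : Ex f f0 f1 f2)
    (hg : Ex g g0 g1 g2) :
    Ex (fun p t => f p t - g p t) (fun p => f0 p - g0 p) (fun p => f1 p - g1 p)
      (fun p => f2 p - g2 p) :=
  (hf.add hg.neg).congr (fun _ _ => (sub_eq_add_neg _ _).symm) (fun _ => (sub_eq_add_neg _ _).symm)
    (fun _ => (sub_eq_add_neg _ _).symm) (fun _ => (sub_eq_add_neg _ _).symm)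

/-- values are bounded -/
lemma Ex.bdd {f : P → ℝ → ℝ} {f0 f1 f2 : P → ℝ} (hf : Ex f f0 f1 f2) :
    ∃ C r : ℝ, 0 ≤ C ∧ 0 < r ∧ r ≤ 1 ∧ ∀ p t, |t| ≤ r → |f p t| ≤ C ∧
      |f p t - f0 p| ≤ C * |t| := by
  obtain ⟨C, r, hC, hr, hr1, h⟩ := hf
  refine ⟨4 * C, r, by positivity, hr, hr1, fun p t ht => ?_⟩
  obtain ⟨a0, a1, a2, a3⟩ := h p
  have c := a3 t ht
  have ht1 : |t| ≤ 1 := ht.trans hr1
  have t0 : 0 ≤ |t| := abs_nonneg t
  have t2 : |t| ^ 2 ≤ |t| := by nlinarith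
  have t3 : |t| ^ 3 ≤ |t| := by nlinarith [mul_nonneg t0 t0]
  have e : f p t - f0 p = (f p t - (f0 p + t * f1 p + t ^ 2 * f2 p)) + t * f1 p + t ^ 2 * f2 p := by
    ring
  have b1 : |t * f1 p| ≤ C * |t| := by
    rw [abs_mul, mul_comm]; exact mul_le_mul_of_nonneg_right a1 t0
  have b2 : |t ^ 2 * f2 p| ≤ C * |t| := by
    rw [abs_mul, abs_pow, mul_comm]
    exact mul_le_mul a2 t2 (by positivity) hC
  have b3 : |f p t - (f0 p + t * f1 p + t ^ 2 * f2 p)| ≤ C * |t| :=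
    c.trans (mul_le_mul_of_nonneg_left t3 hC)
  have key : |f p t - f0 p| ≤ 3 * C * |t| := by
    rw [e]
    calc _ ≤ |f p t - (f0 p + t * f1 p + t ^ 2 * f2 p)| + |t * f1 p| + |t ^ 2 * f2 p| :=
          abs_add_three _ _ _
      _ ≤ _ := by linarith
  refine ⟨?_, key.trans (by nlinarith)⟩
  have : f p t = (f p t - f0 p) + f0 p := by ring
  rw [this]
  refine (abs_add_le _ _).trans ?_
  nlinarith

lemma Ex.mul {f g : P → ℝ → ℝ} {f0 f1 f2 g0 g1 g2 : P → ℝ} (hf : Ex f f0 f1 f2)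
    (hg : Ex g g0 g1 g2) :
    Ex (fun p t => f p t * g p t) (fun p => f0 p * g0 p) (fun p => f0 p * g1 p + f1 p * g0 p)
      (fun p => f0 p * g2 p + f1 p * g1 p + f2 p * g0 p) := by
  obtain ⟨G, r', hG, hr', hr1', hb⟩ := hg.bdd
  obtain ⟨C, r, hC, hr, hr1, h⟩ := hf
  obtain ⟨D, s, hD, hs, hs1, k⟩ := hg
  refine ⟨C * G + 6 * (C * D) + 6 * (C * D), min (min r s) r', by positivity,
    lt_min (lt_min hr hs) hr', ((min_le_left _ _).trans (min_le_left _ _)).trans hr1,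
    fun p => ?_⟩
  obtain ⟨a0, a1, a2, a3⟩ := h p
  obtain ⟨b0, b1, b2, b3⟩ := k p
  have CD : 0 ≤ C * D := by positivity
  have CG : 0 ≤ C * G := by positivity
  have m : ∀ {x y : ℝ}, |x| ≤ C → |y| ≤ D → |x * y| ≤ C * D := fun hx hy => by
    rw [abs_mul]; exact mul_le_mul hx hy (abs_nonneg _) hC
  refine ⟨(m a0 b0).trans (by linarith), ?_, ?_, fun t ht => ?_⟩
  · exact (abs_add_le _ _).trans (by have := m a0 b1; have := m a1 b0; linarith)
  · exact (abs_add_three _ _ _).trans (by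
      have := m a0 b2; have := m a1 b1; have := m a2 b0; linarith)
  have htr : |t| ≤ r := ht.trans ((min_le_left _ _).trans (min_le_left _ _))
  have hts : |t| ≤ s := ht.trans ((min_le_left _ _).trans (min_le_right _ _))
  have htr' : |t| ≤ r' := ht.trans (min_le_right _ _)
  have c1 := a3 t htr
  have c2 := b3 t hts
  have c3 := (hb p t htr').1
  have ht1 : |t| ≤ 1 := htr.trans hr1
  have t0 : 0 ≤ |t| := abs_nonneg t
  have t3 : 0 ≤ |t| ^ 3 := by positivity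
  have t4 : |t| ^ 4 ≤ |t| ^ 3 := by
    calc |t| ^ 4 = |t| ^ 3 * |t| := by ring
      _ ≤ |t| ^ 3 * 1 := mul_le_mul_of_nonneg_left ht1 t3
      _ = _ := mul_one _
  have e : f p t * g p t - (f0 p * g0 p + t * (f0 p * g1 p + f1 p * g0 p)
        + t ^ 2 * (f0 p * g2 p + f1 p * g1 p + f2 p * g0 p))
      = (f p t - (f0 p + t * f1 p + t ^ 2 * f2 p)) * g p t
        + (f0 p + t * f1 p + t ^ 2 * f2 p) * (g p t - (g0 p + t * g1 p + t ^ 2 * g2 p))
        + (t ^ 3 * (f1 p * g2 p) + t ^ 3 * (f2 p * g1 p) + t ^ 4 * (f2 p * g2 p)) := by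
    ring
  have d0 : |f0 p + t * f1 p + t ^ 2 * f2 p| ≤ 3 * C := by
    refine (abs_add_three _ _ _).trans ?_
    have q1 : |t * f1 p| ≤ C := by
      rw [abs_mul]
      calc |t| * |f1 p| ≤ 1 * C := mul_le_mul ht1 a1 (abs_nonneg _) zero_le_one
        _ = C := one_mul _
    have q2 : |t ^ 2 * f2 p| ≤ C := by
      rw [abs_mul, abs_pow]
      have : |t| ^ 2 ≤ 1 := pow_le_one₀ t0 ht1
      calc |t| ^ 2 * |f2 p| ≤ 1 * C := mul_le_mul this a2 (abs_nonneg _) zero_le_one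
        _ = C := one_mul _
    linarith
  have d1 : |(f p t - (f0 p + t * f1 p + t ^ 2 * f2 p)) * g p t| ≤ C * G * |t| ^ 3 := by
    rw [abs_mul]
    calc _ ≤ (C * |t| ^ 3) * G := mul_le_mul c1 c3 (abs_nonneg _) (by positivity)
      _ = _ := by ring
  have d2 : |(f0 p + t * f1 p + t ^ 2 * f2 p) * (g p t - (g0 p + t * g1 p + t ^ 2 * g2 p))|
      ≤ 3 * (C * D) * |t| ^ 3 := by
    rw [abs_mul]
    calc _ ≤ (3 * C) * (D * |t| ^ 3) := mul_le_mul d0 c2 (abs_nonneg _) (by positivity)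
      _ = _ := by ring
  have d3 : |t ^ 3 * (f1 p * g2 p) + t ^ 3 * (f2 p * g1 p) + t ^ 4 * (f2 p * g2 p)|
      ≤ 3 * (C * D) * |t| ^ 3 := by
    refine (abs_add_three _ _ _).trans ?_
    have q1 : |t ^ 3 * (f1 p * g2 p)| ≤ C * D * |t| ^ 3 := by
      rw [abs_mul, abs_pow, mul_comm]; exact mul_le_mul_of_nonneg_right (m a1 b2) t3
    have q2 : |t ^ 3 * (f2 p * g1 p)| ≤ C * D * |t| ^ 3 := by
      rw [abs_mul, abs_pow, mul_comm]; exact mul_le_mul_of_nonneg_right (m a2 b1) t3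
    have q3 : |t ^ 4 * (f2 p * g2 p)| ≤ C * D * |t| ^ 3 := by
      rw [abs_mul, abs_pow, mul_comm]
      exact mul_le_mul (m a2 b2) t4 (by positivity) CD
    linarith
  rw [e]
  refine (abs_add_three _ _ _).trans ?_
  have : 0 ≤ C * D * |t| ^ 3 := by positivity
  nlinarith

lemma Ex.pow2 {f : P → ℝ → ℝ} {f0 f1 f2 : P → ℝ} (hf : Ex f f0 f1 f2) :
    Ex (fun p t => f p t ^ 2) (fun p => f0 p ^ 2) (fun p => 2 * f0 p * f1 p)
      (fun p => 2 * f0 p * f2 p + f1 p ^ 2) :=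
  (hf.mul hf).congr (fun _ _ => by ring) (fun _ => by ring) (fun _ => by ring)
    (fun _ => by ring)

/-- composition with a function of one variable -/
lemma Ex.comp {f : P → ℝ → ℝ} {f1 f2 : P → ℝ} (hf : Ex f (fun _ => 0) f1 f2)
    {φ : ℝ → ℝ} {c0 c1 c2 K ρ : ℝ} (hρ : 0 < ρ)
    (hφ : ∀ x, |x| ≤ ρ → |φ x - (c0 + c1 * x + c2 * x ^ 2)| ≤ K * |x| ^ 3) :
    Ex (fun p t => φ (f p t)) (fun _ => c0) (fun p => c1 * f1 p)
      (fun p => c1 * f2 p + c2 * f1 p ^ 2) := by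
  have h2 := ((Ex.const (P := P) (c := fun _ => c0) (K := |c0|) (fun _ => le_refl _)).add
    ((Ex.const (P := P) (c := fun _ => c1) (K := |c1|) (fun _ => le_refl _)).mul hf)).add
    ((Ex.const (P := P) (c := fun _ => c2) (K := |c2|) (fun _ => le_refl _)).mul hf.pow2)
  obtain ⟨G, r', hG, hr', hr1', hb⟩ := hf.bdd
  obtain ⟨C, r, hC, hr, hr1, h⟩ := h2
  have hK : 0 ≤ K := by
    have := (abs_nonneg _).trans (hφ ρ (by rw [abs_of_pos hρ]))
    by_contra hneg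
    push Not at hneg
    have : K * |ρ| ^ 3 < 0 := mul_neg_of_neg_of_pos hneg (by positivity)
    linarith
  have hG' : 0 < G + 1 := by positivity
  refine ⟨C + K * G ^ 3, min (min r r') (ρ / (G + 1)), by positivity,
    lt_min (lt_min hr hr') (by positivity), ((min_le_left _ _).trans (min_le_left _ _)).trans hr1,
    fun p => ?_⟩
  obtain ⟨a0, a1, a2, a3⟩ := h p
  have KG : 0 ≤ K * G ^ 3 := by positivity
  refine ⟨?_, ?_, ?_, fun t ht => ?_⟩
  · refine le_trans ?_ (a0.trans (by linarith)); simp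
  · refine le_trans ?_ (a1.trans (by linarith)); simp
  · refine le_trans ?_ (a2.trans (by linarith)); simp
  have htr : |t| ≤ r := ht.trans ((min_le_left _ _).trans (min_le_left _ _))
  have htr' : |t| ≤ r' := ht.trans ((min_le_left _ _).trans (min_le_right _ _))
  have htρ : |t| ≤ ρ / (G + 1) := ht.trans (min_le_right _ _)
  have b := (hb p t htr').2
  rw [sub_zero] at b
  have t0 : 0 ≤ |t| := abs_nonneg t
  have b' : |f p t| ≤ ρ := by
    refine b.trans ?_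
    rw [le_div_iff₀ hG'] at htρ
    nlinarith
  have c := hφ _ b'
  have d := a3 t htr
  have e : φ (f p t) - (c0 + t * (c1 * f1 p) + t ^ 2 * (c1 * f2 p + c2 * f1 p ^ 2))
      = (φ (f p t) - (c0 + c1 * f p t + c2 * f p t ^ 2))
        + (c0 + c1 * f p t + c2 * f p t ^ 2
          - (c0 + t * (c1 * f1 p) + t ^ 2 * (c1 * f2 p + c2 * f1 p ^ 2))) := by ring
  have d' : |c0 + c1 * f p t + c2 * f p t ^ 2
          - (c0 + t * (c1 * f1 p) + t ^ 2 * (c1 * f2 p + c2 * f1 p ^ 2))| ≤ C * |t| ^ 3 := by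
    convert d using 2
    ring
  rw [e]
  refine (abs_add_le _ _).trans ?_
  have : K * |f p t| ^ 3 ≤ K * G ^ 3 * |t| ^ 3 := by
    rw [mul_assoc, ← mul_pow]
    exact mul_le_mul_of_nonneg_left (pow_le_pow_left₀ (abs_nonneg _) b 3) hK
  linarith

lemma inv_exp {x : ℝ} (hx : |x| ≤ 1 / 2) :
    |(1 + x)⁻¹ - (1 + (-1) * x + 1 * x ^ 2)| ≤ 2 * |x| ^ 3 := by
  have h1 : (1 : ℝ) / 2 ≤ 1 + x := by
    have := abs_le.1 hx; linarith [this.1]
  have h0 : (0 : ℝ) < 1 + x := by linarith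
  have e : (1 + x)⁻¹ - (1 + (-1) * x + 1 * x ^ 2) = - (x ^ 3 * (1 + x)⁻¹) := by
    field_simp
    ring
  rw [e, abs_neg, abs_mul, abs_pow, abs_inv, abs_of_pos h0, mul_comm]
  have : (1 + x)⁻¹ ≤ 2 := by
    rw [inv_le_comm₀ h0 (by norm_num)]; linarith
  exact mul_le_mul_of_nonneg_right this (by positivity)

lemma log_exp {x : ℝ} (hx : |x| ≤ 1 / 2) :
    |Real.log (1 + x) - (0 + 1 * x + (-1 / 2) * x ^ 2)| ≤ 2 * |x| ^ 3 := by
  have h := Real.abs_log_sub_add_sum_range_le (x := -x) (by rw [abs_neg]; linarith) 2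
  rw [abs_neg] at h
  have e : ∑ i ∈ Finset.range 2, (-x) ^ (i + 1) / ((i : ℝ) + 1) + Real.log (1 - -x)
      = Real.log (1 + x) - (0 + 1 * x + (-1 / 2) * x ^ 2) := by
    rw [Finset.sum_range_succ, Finset.sum_range_one, sub_neg_eq_add]
    norm_num
    ring
  rw [e] at h
  refine h.trans ?_
  have h1 : (1 : ℝ) / 2 ≤ 1 - |x| := by linarith
  rw [div_le_iff₀ (by linarith)]
  have : 0 ≤ |x| ^ 3 := by positivity
  norm_num
  nlinarith

lemma exp_exp {x : ℝ} (hx : |x| ≤ 1) :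
    |Real.exp x - (1 + 1 * x + (1 / 2) * x ^ 2)| ≤ 1 * |x| ^ 3 := by
  have h := Real.exp_bound hx (n := 3) (by norm_num)
  have e : ∑ m ∈ Finset.range 3, x ^ m / (m.factorial : ℝ) = 1 + 1 * x + (1 / 2) * x ^ 2 := by
    simp [Finset.sum_range_succ, Nat.factorial]
    ring
  rw [e] at h
  refine h.trans ?_
  have : 0 ≤ |x| ^ 3 := by positivity
  norm_num [Nat.factorial]
  nlinarith

/-- real powers of `1 + t q` -/
lemma Ex.rpow {q : P → ℝ} {K : ℝ} (hq : ∀ p, |q p| ≤ K) (s : ℝ) :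
    Ex (fun p t => Real.exp (s * Real.log (1 + t * q p))) (fun _ => 1) (fun p => s * q p)
      (fun p => s * (s - 1) / 2 * q p ^ 2) := by
  have h1 := (Ex.lin hq).comp (by norm_num : (0 : ℝ) < 1 / 2) (fun x hx => log_exp hx)
  have h2 := ((Ex.const (P := P) (c := fun _ => s) (K := |s|) (fun _ => le_refl _)).mul h1)
  have h3 : Ex (fun p t => s * Real.log (1 + t * q p)) (fun _ => 0) (fun p => s * q p)
      (fun p => - s / 2 * q p ^ 2) :=
    h2.congr (fun _ _ => rfl) (fun _ => by ring) (fun _ => by ring) (fun _ => by ring)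
  exact (h3.comp one_pos (fun x hx => exp_exp hx)).congr (fun _ _ => rfl) (fun _ => rfl)
    (fun _ => by ring) (fun _ => by ring)

/-- `√(1+z) ≤ 1 + z/2 - z²/8 + z³/16` -/
lemma sqrt_le {x : ℝ} (hx : -1 ≤ x) :
    Real.sqrt (1 + x) ≤ 1 + x / 2 - x ^ 2 / 8 + x ^ 3 / 16 := by
  have h0 : (0 : ℝ) ≤ 1 + x := by linarith
  set s := Real.sqrt (1 + x) with hs
  have s0 : 0 ≤ s := Real.sqrt_nonneg _
  have ss : s ^ 2 = 1 + x := Real.sq_sqrt h0
  have hx' : x = s ^ 2 - 1 := by linarith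
  rw [hx']
  -- 16 (RHS - s) = (s-1)^4 (s^2 + 4 s + 5)
  nlinarith [mul_nonneg (pow_nonneg (sq_nonneg (s - 1)) 2)
    (by positivity : 0 ≤ s ^ 2 + 4 * s + 5)]

/-- the upper bound for square roots -/
lemma Ex.sqrt {f : P → ℝ → ℝ} {f1 f2 : P → ℝ} (hf : Ex f (fun _ => 1) f1 f2) :
    ∃ C r : ℝ, 0 ≤ C ∧ 0 < r ∧ r ≤ 1 ∧ ∀ p t, |t| ≤ r → 0 < f p t ∧ f p t ≤ (1 + C * |t|) ^ 2 ∧
      Real.sqrt (f p t) ≤ 1 + t * (f1 p / 2) + t ^ 2 * (f2 p / 2 - f1 p ^ 2 / 8) + C * |t| ^ 3 := by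
  have hz : Ex (fun p t => f p t - 1) (fun _ => 0) f1 f2 :=
    (hf.sub (Ex.const (P := P) (c := fun _ => (1 : ℝ)) (K := 1) (fun _ => by simp))).congr
      (fun _ _ => rfl) (fun _ => by ring) (fun _ => by ring) (fun _ => by ring)
  have hsum : Ex (fun p t => 1 + (f p t - 1) / 2 - (f p t - 1) ^ 2 / 8 + (f p t - 1) ^ 3 / 16)
      (fun _ => 1) (fun p => f1 p / 2) (fun p => f2 p / 2 - f1 p ^ 2 / 8) := by
    have k : ∀ c : ℝ, Ex (P := P) (fun _ _ => c) (fun _ => c) (fun _ => 0) (fun _ => 0) :=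
      fun c => Ex.const (P := P) (c := fun _ => c) (K := |c|) (fun _ => le_refl _)
    have := (((k 1).add ((k (1 / 2)).mul hz)).sub ((k (1 / 8)).mul hz.pow2)).add
      ((k (1 / 16)).mul (hz.mul hz.pow2))
    exact this.congr (fun _ _ => by ring) (fun _ => by ring) (fun _ => by ring)
      (fun _ => by ring)
  obtain ⟨G, r', hG, hr', hr1', hb⟩ := hf.bdd
  obtain ⟨C, r, hC, hr, hr1, h⟩ := hsum
  have hG1 : 0 < 2 * (G + 1) := by positivity
  refine ⟨max C G, min (min r r') (1 / (2 * (G + 1))), le_max_of_le_left hC,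
    lt_min (lt_min hr hr') (by positivity), ((min_le_left _ _).trans (min_le_left _ _)).trans hr1,
    fun p t ht => ?_⟩
  have ht1 : |t| ≤ r := ht.trans ((min_le_left _ _).trans (min_le_left _ _))
  have ht2 : |t| ≤ r' := ht.trans ((min_le_left _ _).trans (min_le_right _ _))
  have ht3 : |t| ≤ 1 / (2 * (G + 1)) := ht.trans (min_le_right _ _)
  have t0 := abs_nonneg t
  have b := (hb p t ht2).2
  have b2 : G * |t| ≤ 1 / 2 := by
    rw [le_div_iff₀ hG1] at ht3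
    nlinarith
  have hpos : 0 < f p t := by
    have := (abs_le.1 b).1
    linarith
  have h1 := (h p).2.2.2 t ht1
  have h2 := sqrt_le (x := f p t - 1) (by linarith)
  rw [add_sub_cancel] at h2
  have h3 := (abs_le.1 h1).2
  have h4 : C * |t| ^ 3 ≤ max C G * |t| ^ 3 :=
    mul_le_mul_of_nonneg_right (le_max_left _ _) (by positivity)
  refine ⟨hpos, ?_, by linarith⟩
  have h5 : f p t ≤ 1 + G * |t| := by have := (abs_le.1 b).2; linarith
  have h6 : G * |t| ≤ max C G * |t| := mul_le_mul_of_nonneg_right (le_max_right _ _) t0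
  have h7 : 0 ≤ max C G * |t| := (mul_nonneg hG t0).trans h6
  nlinarith

end Ptw

end Pool.Agent.Work.MP_3b24f6_gt
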