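import Pool.Agent.Work.MP_3b24f6_gt.PtwEx

/-!
The relative integrand of the deformed perimeter as a function of six bounded scalars, its second
order expansion, and the final polynomial inequality.
-/

set_option autoImplicit false

namespace Pool.Agent.Work.MP_3b24f6_gt

noncomputable section

namespace Ptw

/-- the bounded scalars -/
structure Sc where
  q : ℝ
  w : ℝ
  al : ℝ
  be : ℝ
  ep : ℝ
  jh : ℝ
  hq : |q| ≤ 1
  hw0 : 0 ≤ w
  hw1 : w ≤ 1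
  hal : |al| ≤ 1
  hbe : |be| ≤ 1
  hep : |ep| ≤ 1
  hjh : |jh| ≤ 1

namespace Sc

variable (N : ℝ) (p : Sc)

def bt : ℝ := p.q * (1 + p.w / N)
def E : ℝ := p.ep - p.q * p.al * p.w - p.be * p.jh
def D : ℝ := p.al ^ 2 * p.w * (1 - p.q ^ 2 * (1 + p.w) - p.jh ^ 2)
/-- `λ^(-2)` -/
def L (t : ℝ) : ℝ := Real.exp ((-2 / N) * Real.log (1 + t * p.q))
/-- `λ^2` -/
def M (t : ℝ) : ℝ := Real.exp ((2 / N) * Real.log (1 + t * p.q))
def gg (t : ℝ) : ℝ := 1 + t * p.bt N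
def Br (t : ℝ) : ℝ := p.gg N t ^ 2 * (1 - p.al ^ 2) - 2 * p.gg N t * (t / N) * p.al * p.E
  + (t / N) ^ 2 * p.D
def Cr (t : ℝ) : ℝ := (p.gg N t * p.be - (t / N) * p.al * p.jh * p.w) ^ 2 * (1 - p.M N t)
  * p.L N t * (1 + (p.M N t - 1) * (1 - p.w))⁻¹

/-- the relative integrand (squared) -/
def Pi (t : ℝ) : ℝ := p.L N t * p.Br N t + p.Cr N t + p.al ^ 2 * (1 + t * p.q) ^ 2

def B1 : ℝ := 2 * p.bt N * (1 - p.al ^ 2) - 2 / N * p.al * p.E
def B2 : ℝ := p.bt N ^ 2 * (1 - p.al ^ 2) - 2 / N * p.bt N * p.al * p.E + (1 / N) ^ 2 * p.D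
def L1 : ℝ := -2 / N * p.q
def L2 : ℝ := (-2 / N) * (-2 / N - 1) / 2 * p.q ^ 2
def M2 : ℝ := (2 / N) * (2 / N - 1) / 2 * p.q ^ 2
def C1 : ℝ := - (2 / N) * p.q * p.be ^ 2
def C2 : ℝ := p.be ^ 2 * (- p.M2 N + (4 / N ^ 2) * p.q ^ 2 + (4 / N ^ 2) * p.q ^ 2 * (1 - p.w))
  - (2 / N) * p.q * (2 * p.bt N * p.be ^ 2 - 2 / N * p.be * p.al * p.jh * p.w)
def P1 : ℝ := p.L1 N * (1 - p.al ^ 2) + p.B1 N + p.C1 N + 2 * p.al ^ 2 * p.q
def P2 : ℝ := p.L2 N * (1 - p.al ^ 2) + p.L1 N * p.B1 N + p.B2 N + p.C2 N + p.al ^ 2 * p.q ^ 2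

end Sc

open Sc

/-- a product of bounded functions is bounded, in the form used here -/
def Bd (f : Sc → ℝ) : Prop := ∃ K, ∀ p, |f p| ≤ K

lemma Bd.add {f g : Sc → ℝ} (hf : Bd f) (hg : Bd g) : Bd (fun p => f p + g p) := by
  obtain ⟨K, hK⟩ := hf; obtain ⟨L, hL⟩ := hg
  exact ⟨K + L, fun p => (abs_add_le _ _).trans (add_le_add (hK p) (hL p))⟩

lemma Bd.neg {f : Sc → ℝ} (hf : Bd f) : Bd (fun p => - f p) := by
  obtain ⟨K, hK⟩ := hf; exact ⟨K, fun p => by rw [abs_neg]; exact hK p⟩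

lemma Bd.sub {f g : Sc → ℝ} (hf : Bd f) (hg : Bd g) : Bd (fun p => f p - g p) := by
  simpa only [sub_eq_add_neg] using hf.add hg.neg

lemma Bd.mul {f g : Sc → ℝ} (hf : Bd f) (hg : Bd g) : Bd (fun p => f p * g p) := by
  obtain ⟨K, hK⟩ := hf; obtain ⟨L, hL⟩ := hg
  refine ⟨K * L, fun p => ?_⟩
  rw [abs_mul]
  exact mul_le_mul (hK p) (hL p) (abs_nonneg _) ((abs_nonneg _).trans (hK p))

lemma Bd.pow {f : Sc → ℝ} (hf : Bd f) (k : ℕ) : Bd (fun p => f p ^ k) := by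
  obtain ⟨K, hK⟩ := hf
  exact ⟨K ^ k, fun p => by rw [abs_pow]; exact pow_le_pow_left₀ (abs_nonneg _) (hK p) k⟩

lemma Bd.const (c : ℝ) : Bd (fun _ => c) := ⟨|c|, fun _ => le_refl _⟩

lemma Bd.q : Bd (fun p => p.q) := ⟨1, fun p => p.hq⟩
lemma Bd.w : Bd (fun p => p.w) := ⟨1, fun p => by rw [abs_of_nonneg p.hw0]; exact p.hw1⟩
lemma Bd.al : Bd (fun p => p.al) := ⟨1, fun p => p.hal⟩
lemma Bd.be : Bd (fun p => p.be) := ⟨1, fun p => p.hbe⟩
lemma Bd.ep : Bd (fun p => p.ep) := ⟨1, fun p => p.hep⟩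
lemma Bd.jh : Bd (fun p => p.jh) := ⟨1, fun p => p.hjh⟩

lemma Bd.bt (N : ℝ) : Bd (fun p => p.bt N) :=
  Bd.q.mul ((Bd.const 1).add (Bd.w.mul (Bd.const N⁻¹)))
lemma Bd.E : Bd (fun p => p.E) := (Bd.ep.sub ((Bd.q.mul Bd.al).mul Bd.w)).sub (Bd.be.mul Bd.jh)
lemma Bd.D : Bd (fun p => p.D) := ((Bd.al.pow 2).mul Bd.w).mul
  (((Bd.const 1).sub ((Bd.q.pow 2).mul ((Bd.const 1).add Bd.w))).sub (Bd.jh.pow 2))

/-- constant expansions of bounded functions -/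
lemma Bd.ex {f : Sc → ℝ} (hf : Bd f) : Ex (fun p _ => f p) f (fun _ => 0) (fun _ => 0) := by
  obtain ⟨K, hK⟩ := hf; exact Ex.const hK

lemma Bd.lin {f : Sc → ℝ} (hf : Bd f) : Ex (fun p t => t * f p) (fun _ => 0) f (fun _ => 0) := by
  obtain ⟨K, hK⟩ := hf; exact Ex.lin hK

variable (N : ℝ)

lemma ex_gg : Ex (fun p t => gg N p t) (fun _ => 1) (fun p => p.bt N) (fun _ => 0) :=
  ((Bd.const 1).ex.add (Bd.bt N).lin).congr (fun _ _ => rfl) (fun _ => by ring)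
    (fun _ => by ring) (fun _ => by ring)

lemma ex_k : Ex (P := Sc) (fun _ t => t / N) (fun _ => 0) (fun _ => 1 / N) (fun _ => 0) :=
  (Bd.lin (Bd.const (1 / N))).congr (fun _ _ => by ring) (fun _ => rfl) (fun _ => rfl)
    (fun _ => rfl)

lemma ex_Br : Ex (fun p t => Br N p t) (fun p => 1 - p.al ^ 2) (fun p => p.B1 N)
    (fun p => p.B2 N) := by
  have h1 := (ex_gg N).pow2.mul ((Bd.const 1).sub (Bd.al.pow 2)).ex
  have h2 := (((((Bd.const 2).ex).mul (ex_gg N)).mul (ex_k N)).mul Bd.al.ex).mul Bd.E.ex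
  have h3 := (ex_k N).pow2.mul Bd.D.ex
  refine ((h1.sub h2).add h3).congr (fun p t => ?_) (fun p => ?_) (fun p => ?_) (fun p => ?_)
  · simp only [Br]
  · ring
  · simp only [B1]; ring
  · simp only [B2]; ring

lemma ex_L : Ex (fun p t => L N p t) (fun _ => 1) (fun p => p.L1 N) (fun p => p.L2 N) :=
  (Ex.rpow (fun p : Sc => p.hq) (-2 / N)).congr (fun _ _ => rfl) (fun _ => rfl)
    (fun _ => rfl) (fun _ => rfl)

lemma ex_M : Ex (fun p t => M N p t) (fun _ => 1) (fun p => 2 / N * p.q) (fun p => p.M2 N) :=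
  (Ex.rpow (fun p : Sc => p.hq) (2 / N)).congr (fun _ _ => rfl) (fun _ => rfl)
    (fun _ => rfl) (fun _ => rfl)

lemma ex_Cr : Ex (fun p t => Cr N p t) (fun _ => 0) (fun p => p.C1 N) (fun p => p.C2 N) := by
  have hb := ((ex_gg N).mul Bd.be.ex).sub ((((ex_k N).mul Bd.al.ex).mul Bd.jh.ex).mul Bd.w.ex)
  have hM := (Bd.const 1).ex.sub (ex_M N)
  have hx : Ex (fun (p : Sc) t => (M N p t - 1) * (1 - p.w)) (fun _ => 0)
      (fun p => 2 / N * p.q * (1 - p.w)) (fun p => p.M2 N * (1 - p.w)) :=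
    (((ex_M N).sub (Bd.const 1).ex).mul ((Bd.const 1).sub Bd.w).ex).congr (fun _ _ => rfl)
      (fun _ => by ring) (fun _ => by ring) (fun _ => by ring)
  have hi := hx.comp (by norm_num : (0 : ℝ) < 1 / 2) (fun x hx => inv_exp hx)
  refine (((hb.pow2.mul hM).mul (ex_L N)).mul hi).congr (fun p t => ?_) (fun p => ?_)
    (fun p => ?_) (fun p => ?_)
  · simp only [Cr]
  · ring
  · simp only [C1]; ring
  · simp only [C2, L1]; ring

lemma ex_Pi : Ex (fun p t => Pi N p t) (fun _ => 1) (fun p => p.P1 N) (fun p => p.P2 N) := by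
  have h3 : Ex (fun (p : Sc) t => p.al ^ 2 * (1 + t * p.q) ^ 2) (fun p => p.al ^ 2)
      (fun p => 2 * p.al ^ 2 * p.q) (fun p => p.al ^ 2 * p.q ^ 2) :=
    ((Bd.al.pow 2).ex.mul (((Bd.const 1).ex.add Bd.q.lin).pow2)).congr (fun _ _ => rfl)
      (fun _ => by ring) (fun _ => by ring) (fun _ => by ring)
  refine ((((ex_L N).mul (ex_Br N)).add (ex_Cr N)).add h3).congr (fun p t => ?_) (fun p => ?_)
    (fun p => ?_) (fun p => ?_)
  · simp only [Pi]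
  · ring
  · simp only [P1]; ring
  · simp only [P2]; ring

/-- the polynomial inequality (the identity behind it is helper22's) -/
lemma poly_neg {m T A B : ℝ} (hm : 3 ≤ m) (hB : 0 ≤ B) (hBA : B ≤ A) (hAT : A ≤ T) (hT : T ≤ 1) :
    -(m + 2) * A - T * A + 3 * A ^ 2 - (m + 4) * T * B + A * B + 4 * T ^ 2 * A - 4 * T * A ^ 2
      + 9 * T ^ 2 * B - 3 * T * A * B - T * B ^ 2 ≤ - (3 * (1 - T) * A + A ^ 2) := by
  have hA : 0 ≤ A := hB.trans hBA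
  have hT0 : 0 ≤ T := hA.trans hAT
  have hm0 : 0 ≤ m - 3 := by linarith
  have h1 : 0 ≤ 1 - T := by linarith
  have h2 : 0 ≤ T - A := by linarith
  have h3 : 0 ≤ T - B := by linarith
  have e : -(m + 2) * A - T * A + 3 * A ^ 2 - (m + 4) * T * B + A * B + 4 * T ^ 2 * A
      - 4 * T * A ^ 2 + 9 * T ^ 2 * B - 3 * T * A * B - T * B ^ 2
      = - (3 * (1 - T) * A + A ^ 2) - (2 * (A - B) + (2 * A * B + B ^ 2) + 2 * (1 - T) * B
        + (m - 3) * (A + T * B) + (1 - T) * (4 * (A * (T - A)) + 3 * (B * (T - A))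
          + B * (T - B) + 5 * (B * T))) := by ring
  rw [e]
  have : 0 ≤ 2 * (A - B) + (2 * A * B + B ^ 2) + 2 * (1 - T) * B
        + (m - 3) * (A + T * B) + (1 - T) * (4 * (A * (T - A)) + 3 * (B * (T - A))
          + B * (T - B) + 5 * (B * T)) := by
    have : 0 ≤ A - B := by linarith
    positivity
  linarith

end Ptw

end

end Pool.Agent.Work.MP_3b24f6_gt
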