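import Pool.Agent.Work.MP_3b24f6_gt.PtwSc

/-!
The sum over an orthonormal basis of the second order coefficients.
-/

set_option autoImplicit false

noncomputable section

namespace Pool.Agent.Work.MP_3b24f6_gt

namespace Ptw

open Sc

lemma P_expand {N i : ℝ} (hi : i = 1 / N) (p : Sc) :
    p.P2 N - p.P1 N ^ 2 / 4 =
      (i * (2 * i + 1) * (1 - p.al ^ 2) - 4 * i * (1 + i * p.w) * (1 - p.al ^ 2)
        - 4 * i ^ 2 * p.al ^ 2 * p.w + (1 + i * p.w) ^ 2 * (1 - p.al ^ 2)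
        + 2 * i * (1 + i * p.w) * p.al ^ 2 * p.w - i ^ 2 * p.al ^ 2 * p.w * (1 + p.w)
        + p.be ^ 2 * (i + 2 * i ^ 2 + 4 * i ^ 2 * (1 - p.w) - 4 * i * (1 + i * p.w)) + p.al ^ 2
        - (1 - i * (1 - p.al ^ 2) + i * p.w - i * p.be ^ 2) ^ 2) * p.q ^ 2
      + (4 * i ^ 2 * p.al - 2 * i * (1 + i * p.w) * p.al
        + 2 * (1 - i * (1 - p.al ^ 2) + i * p.w - i * p.be ^ 2) * i * p.al) * (p.q * p.ep)
      + (- 4 * i ^ 2 * p.al * p.be + 2 * i * (1 + i * p.w) * p.al * p.be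
        + 4 * i ^ 2 * p.al * p.be * p.w
        - 2 * (1 - i * (1 - p.al ^ 2) + i * p.w - i * p.be ^ 2) * i * p.al * p.be) * (p.q * p.jh)
      + (- i ^ 2 * p.al ^ 2) * p.ep ^ 2 + (2 * i ^ 2 * p.al ^ 2 * p.be) * (p.ep * p.jh)
      + (- i ^ 2 * p.al ^ 2 * p.w - i ^ 2 * p.al ^ 2 * p.be ^ 2) * p.jh ^ 2
      + i ^ 2 * p.al ^ 2 * p.w := by
  have h1 : ∀ c : ℝ, c / N = c * i := fun c => by rw [hi]; ring
  simp only [Sc.P1, Sc.P2, Sc.L1, Sc.L2, Sc.B1, Sc.B2, Sc.C1, Sc.C2, Sc.M2, Sc.bt, Sc.E, Sc.D, h1]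
  have h2 : (4 : ℝ) / N ^ 2 = 4 * i ^ 2 := by rw [hi]; ring
  simp only [h2]
  ring

variable {ι : Type*} [Fintype ι]

lemma sum_identity {N i w al be X : ℝ} (hN : N ≠ 0) (hi : i = 1 / N)
    (hcard : (Fintype.card ι : ℝ) = N) (p : ι → Sc)
    (hw : ∀ j, (p j).w = w) (hal : ∀ j, (p j).al = al) (hbe : ∀ j, (p j).be = be)
    (h1 : ∑ j, (p j).q ^ 2 = 1 - w) (h2 : ∑ j, (p j).q * (p j).ep = al * w)
    (h3 : ∑ j, (p j).q * (p j).jh = 0) (h4 : ∑ j, (p j).ep ^ 2 = X)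
    (h5 : ∑ j, (p j).ep * (p j).jh = be) (h6 : ∑ j, (p j).jh ^ 2 = 1 - w)
    (hX : X = w * (1 - al ^ 2) + be ^ 2) :
    N ^ 2 * ∑ j, ((p j).P2 N - (p j).P1 N ^ 2 / 4) =
      -((N - 1) + 2) * ((1 - w) - al ^ 2) - (1 - w) * ((1 - w) - al ^ 2)
      + 3 * ((1 - w) - al ^ 2) ^ 2 - ((N - 1) + 4) * (1 - w) * be ^ 2
      + ((1 - w) - al ^ 2) * be ^ 2 + 4 * (1 - w) ^ 2 * ((1 - w) - al ^ 2)
      - 4 * (1 - w) * ((1 - w) - al ^ 2) ^ 2 + 9 * (1 - w) ^ 2 * be ^ 2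
      - 3 * (1 - w) * ((1 - w) - al ^ 2) * be ^ 2 - (1 - w) * (be ^ 2) ^ 2 := by
  have e : ∀ j, (p j).P2 N - (p j).P1 N ^ 2 / 4 = _ := fun j => P_expand hi (p j)
  simp only [e, hw, hal, hbe, Finset.sum_add_distrib, ← Finset.mul_sum, h1, h2, h3, h4, h5, h6,
    Finset.sum_const, Finset.card_univ, nsmul_eq_mul, hcard, hX]
  rw [hi]
  field_simp
  ring

end Ptw

end Pool.Agent.Work.MP_3b24f6_gt
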