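import Pool.Agent.Work.MP_3b24f6_gt.Model

set_option autoImplicit false

open MeasureTheory Set Filter Topology
open scoped ContDiff InnerProductSpace

namespace Pool.Agent.Work.MP_3b24f6_gt

noncomputable section

variable {E : Type*} [NormedAddCommGroup E] [InnerProductSpace ℝ E]

/-- A quaternionic structure: three isometric complex structures `J 0, J 1, J 2` with
`J 0 ∘ J 1 = J 2` (multiplication by the quaternion units). -/
structure QStr (E : Type*) [NormedAddCommGroup E] [InnerProductSpace ℝ E] where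
  J : Fin 3 → E →L[ℝ] E
  norm_J : ∀ a x, ‖J a x‖ = ‖x‖
  JJ : ∀ a x, J a (J a x) = -x
  J01 : ∀ x, J 0 (J 1 x) = J 2 x

/-- Metric operator of quaternionic hyperbolic space in the chart `y = z/√(1-|z|²)`. -/
def qhA (S : QStr E) (z : E) : E →L[ℝ] E :=
  ContinuousLinearMap.id ℝ E - (uu z ^ 2)⁻¹ • (innerSL ℝ z).smulRight z
    + ∑ a, (innerSL ℝ (S.J a z)).smulRight (S.J a z)

/-- Its inverse. -/
def qhC (S : QStr E) (z : E) : E →L[ℝ] E :=
  ContinuousLinearMap.id ℝ E + (innerSL ℝ z).smulRight z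
    - (uu z ^ 2)⁻¹ • ∑ a, (innerSL ℝ (S.J a z)).smulRight (S.J a z)

/-- `cosh` of the distance of quaternionic hyperbolic space. -/
def qhd (S : QStr E) (x y : E) : ℝ :=
  Real.sqrt ((uu x * uu y - ⟪x, y⟫_ℝ) ^ 2 + ∑ a, ⟪S.J a x, y⟫_ℝ ^ 2)

/-- First component of the transvection `(0,1) ↦ (p, u p)` applied to `(y, u y)`. -/
def qtv1 (S : QStr E) (p y : E) : E :=
  y + (⟪p, y⟫_ℝ / (uu p + 1) + uu y) • p + ∑ a, (⟪S.J a p, y⟫_ℝ / (uu p + 1)) • S.J a p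

/-- Real part of its last component. -/
def qtva (p y : E) : ℝ := ⟪p, y⟫_ℝ + uu p * uu y

/-- Imaginary parts of its last component. -/
def qtvb (S : QStr E) (p y : E) (a : Fin 3) : ℝ := ⟪S.J a p, y⟫_ℝ

/-- The transvection of quaternionic hyperbolic space taking `0` to `p`, in the chart. -/
def qphi (S : QStr E) (p y : E) : E :=
  (Real.sqrt (qtva p y ^ 2 + ∑ a, qtvb S p y a ^ 2))⁻¹ •
    (qtva p y • qtv1 S p y - ∑ a, qtvb S p y a • S.J a (qtv1 S p y))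

namespace QStr

variable (S : QStr E)

theorem inner_JJ (a : Fin 3) (x y : E) : ⟪S.J a x, S.J a y⟫_ℝ = ⟪x, y⟫_ℝ := by
  have h := (real_inner_eq_norm_add_mul_self_sub_norm_mul_self_sub_norm_mul_self_div_two
    (S.J a x) (S.J a y))
  have h2 := (real_inner_eq_norm_add_mul_self_sub_norm_mul_self_sub_norm_mul_self_div_two x y)
  rw [h, h2, ← map_add, S.norm_J, S.norm_J, S.norm_J]

theorem inner_J_left (a : Fin 3) (x y : E) : ⟪S.J a x, y⟫_ℝ = -⟪x, S.J a y⟫_ℝ := by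
  have h := S.inner_JJ a x (S.J a y)
  rw [S.JJ, inner_neg_right] at h
  linarith

theorem inner_J_self (a : Fin 3) (x : E) : ⟪S.J a x, x⟫_ℝ = 0 := by
  have h := S.inner_J_left a x x
  have h2 : ⟪x, S.J a x⟫_ℝ = ⟪S.J a x, x⟫_ℝ := real_inner_comm _ _
  linarith

theorem inner_self_J (a : Fin 3) (x : E) : ⟪x, S.J a x⟫_ℝ = 0 := by
  rw [real_inner_comm]; exact S.inner_J_self a x

theorem J10 (x : E) : S.J 1 (S.J 0 x) = -S.J 2 x := by
  have h1 : S.J 2 (S.J 1 (S.J 0 x)) = x := by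
    rw [← S.J01, S.JJ 1, map_neg, S.JJ 0, neg_neg]
  have h2 := S.JJ 2 (S.J 1 (S.J 0 x))
  rw [h1] at h2
  rw [h2, neg_neg]

theorem J02 (x : E) : S.J 0 (S.J 2 x) = -S.J 1 x := by rw [← S.J01, S.JJ]

theorem J20 (x : E) : S.J 2 (S.J 0 x) = S.J 1 x := by
  rw [← S.J01, S.J10, map_neg, S.J02, neg_neg]

theorem J21 (x : E) : S.J 2 (S.J 1 x) = -S.J 0 x := by rw [← S.J01, S.JJ, map_neg]

theorem J12 (x : E) : S.J 1 (S.J 2 x) = S.J 0 x := by
  rw [← S.J01, S.J10, S.J21, neg_neg]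

/-- `J 0 x, J 1 x, J 2 x` are orthogonal. -/
theorem inner_J_J (a b : Fin 3) (x : E) :
    ⟪S.J a x, S.J b x⟫_ℝ = if a = b then ‖x‖ ^ 2 else 0 := by
  have h01 : ⟪S.J 0 x, S.J 1 x⟫_ℝ = 0 := by
    rw [S.inner_J_left, S.J01, S.inner_self_J, neg_zero]
  have h02 : ⟪S.J 0 x, S.J 2 x⟫_ℝ = 0 := by
    rw [S.inner_J_left, S.J02, inner_neg_right, S.inner_self_J, neg_zero, neg_zero]
  have h12 : ⟪S.J 1 x, S.J 2 x⟫_ℝ = 0 := by
    rw [S.inner_J_left, S.J12, S.inner_self_J, neg_zero]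
  have h10 : ⟪S.J 1 x, S.J 0 x⟫_ℝ = 0 := by rw [real_inner_comm]; exact h01
  have h20 : ⟪S.J 2 x, S.J 0 x⟫_ℝ = 0 := by rw [real_inner_comm]; exact h02
  have h21 : ⟪S.J 2 x, S.J 1 x⟫_ℝ = 0 := by rw [real_inner_comm]; exact h12
  fin_cases a <;> fin_cases b <;> simp [h01, h02, h12, h10, h20, h21, S.norm_J]

theorem qhA_apply (z v : E) : qhA S z v
    = v - ((uu z ^ 2)⁻¹ * ⟪z, v⟫_ℝ) • z + ∑ a, ⟪S.J a z, v⟫_ℝ • S.J a z := by
  simp [qhA, smul_smul]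

theorem qhC_apply (z v : E) : qhC S z v
    = v + ⟪z, v⟫_ℝ • z - (uu z ^ 2)⁻¹ • ∑ a, ⟪S.J a z, v⟫_ℝ • S.J a z := by
  simp [qhC]

end QStr

end

end Pool.Agent.Work.MP_3b24f6_gt
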