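import Pool.Agent.Work.MP_3b24f6_gt.Stmt
import Pool.Agent.Work.MP_3b24f6_gt.BasicB

/-!
# The Riemannian distance of the rank one spaces

`dist g p x = arsinh ‖inv p x‖`, so geodesic balls are the sublevel sets of `chd`.
-/

set_option autoImplicit false
set_option linter.unusedSectionVars false

open MeasureTheory Set Filter Topology
open scoped ContDiff InnerProductSpace

namespace Pool.Agent.Work.MP_3b24f6_gt

noncomputable section

namespace RD

variable {E : Type*} [NormedAddCommGroup E] [InnerProductSpace ℝ E] [FiniteDimensional ℝ E]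

/-- `arsinh ⟪e, y⟫` is 1-Lipschitz for the Riemannian metric. -/
theorem inner_le_mg (V : Ver E) {e : E} (he : ‖e‖ = 1) (y v : E) :
    ⟪e, v⟫_ℝ ≤ Real.sqrt (1 + ⟪e, y⟫_ℝ ^ 2) * Real.sqrt (mg V y v) := by
  have h1 := inner_le_an V y v e
  have h2 : an V y e ≤ Real.sqrt (1 + ⟪e, y⟫_ℝ ^ 2) := by
    unfold an
    apply Real.sqrt_le_sqrt
    have h3 := Q_nonneg V y e
    have h4 : 0 ≤ ⟪V.Q y e, e⟫_ℝ / uu y ^ 2 := by positivity
    rw [he, real_inner_comm y e]
    linarith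
  rw [real_inner_comm]
  calc ⟪v, e⟫_ℝ ≤ Real.sqrt (mg V y v) * an V y e := h1
    _ ≤ Real.sqrt (mg V y v) * Real.sqrt (1 + ⟪e, y⟫_ℝ ^ 2) :=
        mul_le_mul_of_nonneg_left h2 (Real.sqrt_nonneg _)
    _ = _ := mul_comm _ _

/-- Length of the radial vector. -/
theorem mg_ray (V : Ver E) (z : E) (t : ℝ) :
    Real.sqrt (mg V (t • z) z) = ‖z‖ * (Real.sqrt (1 + (t * ‖z‖) ^ 2))⁻¹ := by
  have h1 : mg V (t • z) z = ‖z‖ ^ 2 / (1 + (t * ‖z‖) ^ 2) := by
    unfold mg
    rw [V.Q_smul, smul_apply, V.Q_self, smul_zero, inner_zero_left, uu_sq, norm_smul,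
      real_inner_smul_left, real_inner_self_eq_norm_sq, mul_pow, Real.norm_eq_abs, mul_pow |t|,
      sq_abs, mul_pow]
    have : 0 < 1 + t ^ 2 * ‖z‖ ^ 2 := by positivity
    field_simp
    ring
  rw [h1, Real.sqrt_div (by positivity), Real.sqrt_sq (norm_nonneg z), div_eq_mul_inv]

theorem integral_ray (z : E) :
    ∫ t in (0 : ℝ)..1, ‖z‖ * (Real.sqrt (1 + (t * ‖z‖) ^ 2))⁻¹ = Real.arsinh ‖z‖ := by
  have hd : ∀ t : ℝ, HasDerivAt (fun t : ℝ => Real.arsinh (t * ‖z‖))
      (‖z‖ * (Real.sqrt (1 + (t * ‖z‖) ^ 2))⁻¹) t := by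
    intro t
    have h1 : HasDerivAt (fun t : ℝ => t * ‖z‖) ‖z‖ t := by
      simpa using (hasDerivAt_id t).mul_const ‖z‖
    have h2 := (Real.hasDerivAt_arsinh (t * ‖z‖)).comp t h1
    rw [mul_comm]
    exact h2
  have hc : Continuous fun t : ℝ => ‖z‖ * (Real.sqrt (1 + (t * ‖z‖) ^ 2))⁻¹ := by
    refine continuous_const.mul (Continuous.inv₀ (by fun_prop) fun t => ?_)
    positivity
  rw [intervalIntegral.integral_eq_sub_of_hasDerivAt (fun t _ => hd t)
    (hc.intervalIntegrable _ _)]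
  simp

theorem inv_self {V : Ver E} [MeasurableSpace E] [BorelSpace E] (H : HomB V) (p : E) :
    H.inv p p = 0 := by
  have := H.inv_phi p 0
  rwa [H.phi_zero] at this

variable [MeasurableSpace E] [BorelSpace E] {V : Ver E} (H : HomB V) {g : E → E → E → ℝ}

/-- The distance is at most the length of the radial curve. -/
theorem ray_mem (hA : ∀ z v, g z v v = mg V z v)
    (hiso : ∀ p y v, mg V (H.phi p y) (fderiv ℝ (H.phi p) y v) = mg V y v) (p x : E) :
    ∃ γ : ℝ → E, ContDiff ℝ 1 γ ∧ γ 0 = p ∧ γ 1 = x ∧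
      Real.arsinh ‖H.inv p x‖ = ∫ t in (0 : ℝ)..1, Riem.len g (γ t) (deriv γ t) := by
  have hphi : ContDiff ℝ 1 (H.phi p) := (H.smooth_phi p).of_le (by simp)
  refine ⟨fun t => H.phi p (t • H.inv p x), ?_, ?_, ?_, ?_⟩
  · exact hphi.comp (contDiff_id.smul contDiff_const)
  · simp only [zero_smul, H.phi_zero]
  · simp only [one_smul, H.phi_inv]
  · rw [← integral_ray]
    congr 1
    funext t
    have h1 : HasDerivAt (fun t : ℝ => t • H.inv p x) (H.inv p x) t := by
      simpa using (hasDerivAt_id t).smul_const (H.inv p x)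
    have h2 : HasDerivAt (fun t : ℝ => H.phi p (t • H.inv p x))
        (fderiv ℝ (H.phi p) (t • H.inv p x) (H.inv p x)) t :=
      ((hphi.differentiable one_ne_zero) _).hasFDerivAt.comp_hasDerivAt t h1
    rw [h2.deriv, Riem.len, hA, hiso, mg_ray]

/-- The lower bound of lengths. -/
theorem le_length (hA : ∀ z v, g z v v = mg V z v)
    (hiso : ∀ p y v, mg V (H.phi p y) (fderiv ℝ (H.phi p) y v) = mg V y v) (p x : E)
    {γ : ℝ → E} (hγ : ContDiff ℝ 1 γ) (h0 : γ 0 = p) (h1 : γ 1 = x) :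
    Real.arsinh ‖H.inv p x‖ ≤ ∫ t in (0 : ℝ)..1, Riem.len g (γ t) (deriv γ t) := by
  have hphi : ContDiff ℝ 1 (H.phi p) := (H.smooth_phi p).of_le (by simp)
  have hinv : ContDiff ℝ 1 (H.inv p) := (H.smooth_inv p).of_le (by simp)
  set z := H.inv p x with hz
  set δ : ℝ → E := fun t => H.inv p (γ t) with hδ
  have hδc : ContDiff ℝ 1 δ := hinv.comp hγ
  have hδd : ∀ t, HasDerivAt δ (deriv δ t) t := fun t =>
    ((hδc.differentiable one_ne_zero) t).hasDerivAt
  have hlen : ∀ t, Riem.len g (γ t) (deriv γ t) = Real.sqrt (mg V (δ t) (deriv δ t)) := by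
    intro t
    have e1 : γ = fun t => H.phi p (δ t) := by
      funext t
      simp only [hδ, H.phi_inv]
    have e2 : HasDerivAt (fun t => H.phi p (δ t)) (fderiv ℝ (H.phi p) (δ t) (deriv δ t)) t :=
      ((hphi.differentiable one_ne_zero) _).hasFDerivAt.comp_hasDerivAt t (hδd t)
    rw [e1, e2.deriv, Riem.len, hA, hiso]
  have hcont : Continuous fun t => Real.sqrt (mg V (δ t) (deriv δ t)) := by
    refine Real.continuous_sqrt.comp ((continuous_mg V).comp (hδc.continuous.prodMk ?_))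
    exact hδc.continuous_deriv le_rfl
  simp_rw [hlen]
  by_cases hz0 : z = 0
  · rw [hz0, norm_zero, Real.arsinh_zero]
    exact intervalIntegral.integral_nonneg zero_le_one fun t _ => Real.sqrt_nonneg _
  · have hn : ‖z‖ ≠ 0 := norm_ne_zero_iff.2 hz0
    set e : E := ‖z‖⁻¹ • z with he
    have he1 : ‖e‖ = 1 := by
      rw [he, norm_smul, norm_inv, norm_norm, inv_mul_cancel₀ hn]
    have hez : ⟪e, z⟫_ℝ = ‖z‖ := by
      rw [he, real_inner_smul_left, real_inner_self_eq_norm_sq]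
      field_simp
    have hfd : ∀ t, HasDerivAt (fun t => Real.arsinh ⟪e, δ t⟫_ℝ)
        ((Real.sqrt (1 + ⟪e, δ t⟫_ℝ ^ 2))⁻¹ * ⟪e, deriv δ t⟫_ℝ) t := by
      intro t
      have e1 : HasDerivAt (fun t => ⟪e, δ t⟫_ℝ) ⟪e, deriv δ t⟫_ℝ t := by
        exact (innerSL ℝ e).hasFDerivAt.comp_hasDerivAt t (hδd t)
      exact (Real.hasDerivAt_arsinh _).comp t e1
    have hfc : Continuous fun t => (Real.sqrt (1 + ⟪e, δ t⟫_ℝ ^ 2))⁻¹ * ⟪e, deriv δ t⟫_ℝ := by
      have c1 : Continuous fun t => ⟪e, δ t⟫_ℝ := continuous_const.inner hδc.continuous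
      have c2 : Continuous fun t => ⟪e, deriv δ t⟫_ℝ :=
        continuous_const.inner (hδc.continuous_deriv le_rfl)
      refine Continuous.mul (Continuous.inv₀ (by fun_prop) fun t => ?_) c2
      positivity
    have hint := intervalIntegral.integral_eq_sub_of_hasDerivAt (a := 0) (b := 1)
      (fun t _ => hfd t) (hfc.intervalIntegrable _ _)
    have e0 : δ 0 = 0 := by
      simp only [hδ, h0]
      exact inv_self H p
    have e1 : δ 1 = z := by
      simp only [hδ, h1, hz]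
    rw [e0, e1, hez, inner_zero_right, Real.arsinh_zero, sub_zero] at hint
    rw [← hint]
    refine intervalIntegral.integral_mono_on zero_le_one (hfc.intervalIntegrable _ _)
      (hcont.intervalIntegrable _ _) fun t _ => ?_
    have h3 := inner_le_mg V he1 (δ t) (deriv δ t)
    have h4 : 0 < Real.sqrt (1 + ⟪e, δ t⟫_ℝ ^ 2) := by positivity
    rw [inv_mul_le_iff₀ h4]
    exact h3

theorem dist_eq (hA : ∀ z v, g z v v = mg V z v)
    (hiso : ∀ p y v, mg V (H.phi p y) (fderiv ℝ (H.phi p) y v) = mg V y v) (p x : E) :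
    Riem.dist g p x = Real.arsinh ‖H.inv p x‖ := by
  obtain ⟨γ, g1, g2, g3, g4⟩ := ray_mem H hA hiso p x
  unfold Riem.dist
  refine le_antisymm ?_ ?_
  · refine csInf_le ⟨Real.arsinh ‖H.inv p x‖, ?_⟩ ⟨γ, g1, g2, g3, g4⟩
    rintro L ⟨δ, d1, d2, d3, rfl⟩
    exact le_length H hA hiso p x d1 d2 d3
  · refine le_csInf ⟨_, γ, g1, g2, g3, g4⟩ ?_
    rintro L ⟨δ, d1, d2, d3, rfl⟩
    exact le_length H hA hiso p x d1 d2 d3

theorem ball_eq_chd (hA : ∀ z v, g z v v = mg V z v)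
    (hiso : ∀ p y v, mg V (H.phi p y) (fderiv ℝ (H.phi p) y v) = mg V y v) (p : E) {r : ℝ}
    (hr : 0 < r) : Riem.ball g p r = {x | H.chd p x < us (Real.sinh r)} := by
  ext x
  simp only [Riem.ball, mem_ofPred_eq]
  rw [dist_eq H hA hiso, chd_inv, us, uu]
  have h1 : Real.arsinh ‖H.inv p x‖ < r ↔ ‖H.inv p x‖ < Real.sinh r := by
    conv_lhs => rw [← Real.arsinh_sinh r]
    exact Real.arsinh_lt_arsinh
  rw [h1, Real.sqrt_lt_sqrt_iff (by positivity)]
  have hs : 0 < Real.sinh r := Real.sinh_pos_iff.2 hr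
  constructor
  · intro h
    have := pow_lt_pow_left₀ h (norm_nonneg _) (two_ne_zero)
    linarith
  · intro h
    exact lt_of_pow_lt_pow_left₀ 2 hs.le (by linarith)

theorem ball_nonpos (g : E → E → E → ℝ) (p : E) {r : ℝ} (hr : r ≤ 0) :
    Riem.ball g p r = ∅ := by
  ext x
  simp only [Riem.ball, mem_ofPred_eq, mem_empty_iff_false, iff_false, not_lt]
  refine hr.trans ?_
  unfold Riem.dist
  refine Real.sInf_nonneg ?_
  rintro L ⟨γ, -, -, -, rfl⟩
  exact intervalIntegral.integral_nonneg zero_le_one fun t _ => Real.sqrt_nonneg _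

end RD

end

end Pool.Agent.Work.MP_3b24f6_gt
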