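import Pool.Agent.Work.MP_3b24f6_gt.Calc

/-!
Sets all of whose tangential fluxes vanish are radial.
-/

set_option autoImplicit false

open MeasureTheory Set Filter Topology
open scoped ContDiff InnerProductSpace

namespace Pool.Agent.Work.MP_3b24f6_gt

noncomputable section

namespace RadP

variable {E : Type*} [NormedAddCommGroup E] [InnerProductSpace ℝ E]

/-- infinitesimal rotation in the plane of `e, f` -/
def gen (e f : E) : E →L[ℝ] E :=
  (innerSL ℝ e).smulRight f - (innerSL ℝ f).smulRight e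

/-- rotation in the plane of `e, f` -/
def rotL (e f : E) (s : ℝ) : E →L[ℝ] E :=
  ContinuousLinearMap.id ℝ E
    + (Real.cos s - 1) • ((innerSL ℝ e).smulRight e + (innerSL ℝ f).smulRight f)
    + Real.sin s • gen e f

theorem gen_apply (e f y : E) : gen e f y = ⟪e, y⟫_ℝ • f - ⟪f, y⟫_ℝ • e := by
  simp [gen]

theorem rotL_apply (e f y : E) (s : ℝ) : rotL e f s y
    = y + (Real.cos s - 1) • (⟪e, y⟫_ℝ • e + ⟪f, y⟫_ℝ • f)
      + Real.sin s • (⟪e, y⟫_ℝ • f - ⟪f, y⟫_ℝ • e) := by
  simp [rotL, gen]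

theorem inner_gen_self (e f y : E) : ⟪gen e f y, y⟫_ℝ = 0 := by
  rw [gen_apply, inner_sub_left, real_inner_smul_left, real_inner_smul_left]
  ring

section

variable {e f : E} (he : ‖e‖ = 1) (hf : ‖f‖ = 1) (hef : ⟪e, f⟫_ℝ = 0)

include he hf hef

theorem norm_rotL (s : ℝ) (y : E) : ‖rotL e f s y‖ = ‖y‖ := by
  have hee : ⟪e, e⟫_ℝ = 1 := by rw [real_inner_self_eq_norm_sq, he]; norm_num
  have hff : ⟪f, f⟫_ℝ = 1 := by rw [real_inner_self_eq_norm_sq, hf]; norm_num
  have hfe : ⟪f, e⟫_ℝ = 0 := by rw [real_inner_comm]; exact hef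
  have hc := Real.sin_sq_add_cos_sq s
  have h2 : ‖rotL e f s y‖ ^ 2 = ‖y‖ ^ 2 := by
    rw [← real_inner_self_eq_norm_sq, ← real_inner_self_eq_norm_sq, rotL_apply]
    simp only [inner_add_left, inner_add_right, inner_sub_left, inner_sub_right,
      real_inner_smul_left, real_inner_smul_right, hee, hff, hef, hfe, real_inner_comm e y,
      real_inner_comm f y]
    linear_combination (⟪e, y⟫_ℝ ^ 2 + ⟪f, y⟫_ℝ ^ 2) * hc
  have h3 := norm_nonneg (rotL e f s y)
  have h4 := norm_nonneg y
  nlinarith [sq_nonneg (‖rotL e f s y‖ - ‖y‖), sq_nonneg (‖rotL e f s y‖ + ‖y‖)]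

theorem gen_rotL (s : ℝ) (y : E) : gen e f (rotL e f s y) = rotL e f s (gen e f y) := by
  have hee : ⟪e, e⟫_ℝ = 1 := by rw [real_inner_self_eq_norm_sq, he]; norm_num
  have hff : ⟪f, f⟫_ℝ = 1 := by rw [real_inner_self_eq_norm_sq, hf]; norm_num
  have hfe : ⟪f, e⟫_ℝ = 0 := by rw [real_inner_comm]; exact hef
  simp only [rotL_apply, gen_apply, inner_add_right, inner_sub_right,
      real_inner_smul_right, hee, hff, hef, hfe]
  module

theorem hasDerivAt_rotL (s : ℝ) (y : E) :
    HasDerivAt (fun s => rotL e f s y) (gen e f (rotL e f s y)) s := by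
  have hee : ⟪e, e⟫_ℝ = 1 := by rw [real_inner_self_eq_norm_sq, he]; norm_num
  have hff : ⟪f, f⟫_ℝ = 1 := by rw [real_inner_self_eq_norm_sq, hf]; norm_num
  have hfe : ⟪f, e⟫_ℝ = 0 := by rw [real_inner_comm]; exact hef
  have h1 : HasDerivAt (fun s => y + (Real.cos s - 1) • (⟪e, y⟫_ℝ • e + ⟪f, y⟫_ℝ • f)
      + Real.sin s • (⟪e, y⟫_ℝ • f - ⟪f, y⟫_ℝ • e))
      ((-Real.sin s) • (⟪e, y⟫_ℝ • e + ⟪f, y⟫_ℝ • f)
      + Real.cos s • (⟪e, y⟫_ℝ • f - ⟪f, y⟫_ℝ • e)) s :=
    ((((Real.hasDerivAt_cos s).sub_const 1).smul_const _).const_add y).add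
      ((Real.hasDerivAt_sin s).smul_const _)
  have h2 : (fun s => rotL e f s y) = fun s => y + (Real.cos s - 1) • (⟪e, y⟫_ℝ • e + ⟪f, y⟫_ℝ • f)
      + Real.sin s • (⟪e, y⟫_ℝ • f - ⟪f, y⟫_ℝ • e) := by
    funext s; exact rotL_apply e f y s
  rw [h2]
  refine h1.congr_deriv ?_
  simp only [rotL_apply, gen_apply, inner_add_right, inner_sub_right,
      real_inner_smul_right, hee, hff, hef, hfe]
  module

end

variable [FiniteDimensional ℝ E]

/-- rotation as a linear isometric equivalence -/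
def rotE {e f : E} (he : ‖e‖ = 1) (hf : ‖f‖ = 1) (hef : ⟪e, f⟫_ℝ = 0) (s : ℝ) : E ≃ₗᵢ[ℝ] E :=
  LinearIsometry.toLinearIsometryEquiv
    (⟨(rotL e f s : E →ₗ[ℝ] E), norm_rotL he hf hef s⟩ : E →ₗᵢ[ℝ] E) rfl

theorem rotE_apply {e f : E} (he : ‖e‖ = 1) (hf : ‖f‖ = 1) (hef : ⟪e, f⟫_ℝ = 0) (s : ℝ)
    (y : E) : rotE he hf hef s y = rotL e f s y := rfl

theorem tr_gen (e f : E) : tr (gen e f) = 0 := by
  rw [gen, tr_sub, tr_smulRight, tr_smulRight, innerSL_apply_apply, innerSL_apply_apply,
    real_inner_comm e f, sub_self]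

/-- the field generating the rotation of `φ` -/
theorem divE_rot {e f : E} (he : ‖e‖ = 1) (hf : ‖f‖ = 1) (hef : ⟪e, f⟫_ℝ = 0) (s : ℝ)
    {φ : E → ℝ} (hφ : ContDiff ℝ ∞ φ) (y : E) :
    divE (fun y => φ (rotL e f s y) • gen e f y) y
      = fderiv ℝ φ (rotL e f s y) (gen e f (rotL e f s y)) := by
  have hφd : DifferentiableAt ℝ φ (rotL e f s y) := hφ.contDiffAt.differentiableAt (by simp)
  have h1 : HasFDerivAt (fun y => φ (rotL e f s y))
      ((fderiv ℝ φ (rotL e f s y)).comp (rotL e f s)) y :=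
    hφd.hasFDerivAt.comp y (rotL e f s).hasFDerivAt
  rw [divE_smul _ _ _ h1.differentiableAt (gen e f).differentiableAt, h1.fderiv]
  rw [divE, ContinuousLinearMap.fderiv, tr_gen, mul_zero, zero_add,
    ContinuousLinearMap.comp_apply, gen_rotL he hf hef]

variable [MeasurableSpace E] [BorelSpace E]

theorem integral_rot {D : Set E}
    (h : ∀ S : E → E, ContDiff ℝ ∞ S → HasCompactSupport S → (∀ y, ⟪S y, y⟫_ℝ = 0) →
      ∫ y in D, divE S y = 0)
    {e f : E} (he : ‖e‖ = 1) (hf : ‖f‖ = 1) (hef : ⟪e, f⟫_ℝ = 0) (s : ℝ)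
    {φ : E → ℝ} (hφ : ContDiff ℝ ∞ φ) (hφc : HasCompactSupport φ) :
    ∫ y in D, φ (rotL e f s y) = ∫ y in D, φ y := by
  obtain ⟨ρ, hρ⟩ : ∃ ρ : ℝ, tsupport φ ⊆ Metric.closedBall 0 ρ :=
    (hφc.isCompact.isBounded).subset_closedBall 0
  have hφd : Continuous (fderiv ℝ φ) := hφ.continuous_fderiv (by simp)
  have hφdc : HasCompactSupport (fderiv ℝ φ) := hφc.fderiv ℝ
  obtain ⟨C, hC⟩ := hφd.bounded_above_of_compact_support hφdc
  have hC0 : 0 ≤ C := (norm_nonneg _).trans (hC 0)
  have hzero : ∀ z : E, z ∉ Metric.closedBall (0 : E) ρ → φ z = 0 := fun z hz =>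
    image_eq_zero_of_notMem_tsupport (fun hz' => hz (hρ hz'))
  have hzero' : ∀ z : E, z ∉ Metric.closedBall (0 : E) ρ → fderiv ℝ φ z = 0 := fun z hz =>
    image_eq_zero_of_notMem_tsupport (fun hz' => hz (hρ (tsupport_fderiv_subset ℝ hz')))
  have hball : ∀ (s : ℝ) (y : E), rotL e f s y ∈ Metric.closedBall (0 : E) ρ
      ↔ y ∈ Metric.closedBall (0 : E) ρ := fun s y => by
    rw [mem_closedBall_zero_iff, mem_closedBall_zero_iff, norm_rotL he hf hef]
  have hgen : ∀ z : E, ‖gen e f z‖ ≤ ‖gen e f‖ * ‖z‖ := fun z => (gen e f).le_opNorm z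
  -- derivative
  have hderiv : ∀ s : ℝ, HasDerivAt (fun s => ∫ y in D, φ (rotL e f s y)) 0 s := by
    intro s
    have hcont : ∀ s : ℝ, Continuous (fun y : E => φ (rotL e f s y)) := fun s =>
      hφ.continuous.comp (rotL e f s).continuous
    have hcomp : ∀ s : ℝ, HasCompactSupport (fun y : E => φ (rotL e f s y)) := fun s => by
      refine HasCompactSupport.intro (isCompact_closedBall (0 : E) ρ) (fun y hy => ?_)
      exact hzero _ (fun h' => hy ((hball s y).mp h'))
    have hcont' : Continuous (fun y : E => fderiv ℝ φ (rotL e f s y)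
        (gen e f (rotL e f s y))) :=
      (hφd.comp (rotL e f s).continuous).clm_apply
        ((gen e f).continuous.comp (rotL e f s).continuous)
    have key := hasDerivAt_integral_of_dominated_loc_of_deriv_le (μ := volume.restrict D)
      (F := fun s y => φ (rotL e f s y))
      (F' := fun s y => fderiv ℝ φ (rotL e f s y) (gen e f (rotL e f s y))) (x₀ := s)
      (bound := (Metric.closedBall (0 : E) ρ).indicator (fun _ => C * (‖gen e f‖ * |ρ|)))
      (s := univ) Filter.univ_mem
      (Filter.Eventually.of_forall fun s => (hcont s).aestronglyMeasurable)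
      (((hcont s).integrable_of_hasCompactSupport (hcomp s)).integrableOn)
      hcont'.aestronglyMeasurable
      (Filter.Eventually.of_forall fun y s _ => ?_)
      ?_
      (Filter.Eventually.of_forall fun y s _ => ?_)
    · have h0 := h (fun y => φ (rotL e f s y) • gen e f y)
        ((hφ.comp (rotL e f s).contDiff).smul (gen e f).contDiff)
        ((hcomp s).smul_right) (fun y => by
          rw [real_inner_smul_left, inner_gen_self, mul_zero])
      have h1 : ∫ y in D, fderiv ℝ φ (rotL e f s y) (gen e f (rotL e f s y)) = 0 := by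
        rw [← h0]
        exact integral_congr_ae (Filter.Eventually.of_forall fun y =>
          (divE_rot he hf hef s hφ y).symm)
      have h2 := key.2
      rw [h1] at h2
      exact h2
    · by_cases hy : y ∈ Metric.closedBall (0 : E) ρ
      · rw [indicator_of_mem hy]
        refine (ContinuousLinearMap.le_opNorm _ _).trans ?_
        refine mul_le_mul (hC _) ?_ (norm_nonneg _) hC0
        refine (hgen _).trans (mul_le_mul_of_nonneg_left ?_ (norm_nonneg _))
        rw [norm_rotL he hf hef]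
        rw [mem_closedBall_zero_iff] at hy
        exact hy.trans (le_abs_self _)
      · rw [indicator_of_notMem hy, hzero' _ (fun h' => hy ((hball s y).mp h'))]
        simp
    · refine Integrable.integrableOn ?_
      rw [integrable_indicator_iff Metric.isClosed_closedBall.measurableSet]
      exact integrableOn_const (by
        exact (isCompact_closedBall (0 : E) ρ).measure_lt_top.ne)
    · exact (hφ.contDiffAt.differentiableAt (by simp)).hasFDerivAt.comp_hasDerivAt s
        (hasDerivAt_rotL he hf hef s y)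
  have hconst := is_const_of_deriv_eq_zero (fun s => (hderiv s).differentiableAt)
    (fun s => (hderiv s).deriv) s 0
  rw [hconst]
  simp [rotL_apply]

/-- invariance of the set under the rotation -/
theorem ae_rot {D : Set E} (hD : MeasurableSet D)
    (h : ∀ S : E → E, ContDiff ℝ ∞ S → HasCompactSupport S → (∀ y, ⟪S y, y⟫_ℝ = 0) →
      ∫ y in D, divE S y = 0)
    {e f : E} (he : ‖e‖ = 1) (hf : ‖f‖ = 1) (hef : ⟪e, f⟫_ℝ = 0) (s : ℝ) :
    (rotE he hf hef s) ⁻¹' D =ᵐ[volume] D := by
  have hmp := (rotE he hf hef s).measurePreserving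
  have hmeas : Measurable (rotE he hf hef s) := (rotE he hf hef s).continuous.measurable
  have hloc : ∀ A : Set E, MeasurableSet A → LocallyIntegrable (A.indicator (fun _ => (1 : ℝ)))
      (volume : Measure E) := fun A hA =>
    (locallyIntegrable_const (1 : ℝ)).indicator hA
  have key : ∀ᵐ y ∂(volume : Measure E), (D.indicator (fun _ => (1 : ℝ))) y
      = ((rotE he hf hef s) ⁻¹' D).indicator (fun _ => (1 : ℝ)) y := by
    refine ae_eq_of_integral_contDiff_smul_eq (hloc D hD) (hloc _ (hmeas hD)) ?_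
    intro φ hφ hφc
    -- test the invariance with `φ ∘ rot (-s)`
    have hφ' : ContDiff ℝ ∞ (fun y => φ ((rotE he hf hef s).symm y)) :=
      hφ.comp (rotE he hf hef s).symm.contDiff
    have hφc' : HasCompactSupport (fun y => φ ((rotE he hf hef s).symm y)) :=
      hφc.comp_homeomorph (rotE he hf hef s).symm.toHomeomorph
    have h1 := integral_rot h he hf hef s hφ' hφc'
    have h2 : (fun y => φ ((rotE he hf hef s).symm (rotL e f s y))) = φ := by
      funext y
      rw [← rotE_apply he hf hef, LinearIsometryEquiv.symm_apply_apply]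
    rw [h2] at h1
    have e1 : ∫ x, φ x • D.indicator (fun _ => (1 : ℝ)) x = ∫ y in D, φ y := by
      rw [← integral_indicator hD]
      refine integral_congr_ae (Filter.Eventually.of_forall fun x => ?_)
      by_cases hx : x ∈ D
      · simp [hx]
      · simp [hx]
    have e2 : ∫ x, φ x • ((rotE he hf hef s) ⁻¹' D).indicator (fun _ => (1 : ℝ)) x
        = ∫ y in D, φ ((rotE he hf hef s).symm y) := by
      rw [← integral_indicator hD]
      have e3 := hmp.integral_comp (rotE he hf hef s).toHomeomorph.measurableEmbedding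
        (D.indicator (fun y => φ ((rotE he hf hef s).symm y)))
      rw [← e3]
      refine integral_congr_ae (Filter.Eventually.of_forall fun x => ?_)
      by_cases hx : rotE he hf hef s x ∈ D
      · have hx' : x ∈ (rotE he hf hef s) ⁻¹' D := hx
        simp only [indicator_of_mem hx, indicator_of_mem hx', smul_eq_mul, mul_one,
          LinearIsometryEquiv.symm_apply_apply]
      · have hx' : x ∉ (rotE he hf hef s) ⁻¹' D := hx
        simp only [indicator_of_notMem hx, indicator_of_notMem hx', smul_eq_mul, mul_zero]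
    rw [e1, e2, h1]
  filter_upwards [key] with y hy
  by_cases h1 : y ∈ D <;> by_cases h2 : y ∈ (rotE he hf hef s) ⁻¹' D
  · exact propext ⟨fun _ => h1, fun _ => h2⟩
  · rw [indicator_of_mem h1, indicator_of_notMem h2] at hy
    exact absurd hy one_ne_zero
  · rw [indicator_of_notMem h1, indicator_of_mem h2] at hy
    exact absurd hy.symm one_ne_zero
  · exact propext ⟨fun h => absurd h h2, fun h => absurd h h1⟩

omit [FiniteDimensional ℝ E] [MeasurableSpace E] [BorelSpace E] in
theorem exists_unit_orth (v e : E) (he : ‖e‖ = 1) (hv : v - ⟪e, v⟫_ℝ • e ≠ 0) :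
    ∃ f : E, ‖f‖ = 1 ∧ ⟪e, f⟫_ℝ = 0 ∧ v = ⟪e, v⟫_ℝ • e + ‖v - ⟪e, v⟫_ℝ • e‖ • f := by
  have hn : ‖v - ⟪e, v⟫_ℝ • e‖ ≠ 0 := norm_ne_zero_iff.mpr hv
  refine ⟨‖v - ⟪e, v⟫_ℝ • e‖⁻¹ • (v - ⟪e, v⟫_ℝ • e), ?_, ?_, ?_⟩
  · rw [norm_smul, norm_inv, norm_norm, inv_mul_cancel₀ hn]
  · rw [real_inner_smul_right, inner_sub_right, real_inner_smul_right,
      real_inner_self_eq_norm_sq, he]
    ring
  · rw [smul_smul, mul_inv_cancel₀ hn, one_smul]
    abel

omit [MeasurableSpace E] [BorelSpace E] in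
/-- transitivity of the rotations on spheres -/
theorem exists_rot (hdim : 2 ≤ Module.finrank ℝ E) {x y : E} (hxy : ‖x‖ = ‖y‖) :
    ∃ (e f : E) (he : ‖e‖ = 1) (hf : ‖f‖ = 1) (hef : ⟪e, f⟫_ℝ = 0) (s : ℝ),
      rotE he hf hef s x = y := by
  have : Nontrivial E := Module.nontrivial_of_finrank_pos (R := ℝ) (by omega)
  have hex : ∀ e : E, ‖e‖ = 1 → ∃ f : E, ‖f‖ = 1 ∧ ⟪e, f⟫_ℝ = 0 := by
    intro e he
    have he0 : e ≠ 0 := by
      rintro rfl
      rw [norm_zero] at he
      exact zero_ne_one he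
    obtain ⟨v, hv⟩ := exists_linearIndependent_pair_of_one_lt_finrank
      (R := ℝ) (M := E) (by omega) he0
    obtain ⟨f, hf, hef, _⟩ := exists_unit_orth v e he (by
      intro h0
      have h1 := (LinearIndependent.pair_iff.mp hv) (-⟪e, v⟫_ℝ) 1 (by
        rw [← h0]; module)
      exact one_ne_zero h1.2)
    exact ⟨f, hf, hef⟩
  by_cases hx0 : ‖x‖ = 0
  · obtain ⟨e, he⟩ := exists_norm_eq E (zero_le_one (α := ℝ))
    obtain ⟨f, hf, hef⟩ := hex e he
    refine ⟨e, f, he, hf, hef, 0, ?_⟩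
    have hx : x = 0 := norm_eq_zero.mp hx0
    have hy : y = 0 := norm_eq_zero.mp (hxy ▸ hx0)
    rw [hx, hy, map_zero]
  · set r := ‖x‖ with hr
    have hr0 : 0 < r := lt_of_le_of_ne (norm_nonneg x) (Ne.symm hx0)
    set e : E := r⁻¹ • x with hedef
    have he : ‖e‖ = 1 := by
      rw [hedef, norm_smul, norm_inv, Real.norm_eq_abs, abs_of_pos hr0, ← hr,
        inv_mul_cancel₀ hr0.ne']
    have hxe : x = r • e := by rw [hedef, smul_smul, mul_inv_cancel₀ hr0.ne', one_smul]
    obtain ⟨f, b, hf, hef, hb, hy⟩ : ∃ (f : E) (b : ℝ), ‖f‖ = 1 ∧ ⟪e, f⟫_ℝ = 0 ∧ 0 ≤ b ∧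
        y = ⟪e, y⟫_ℝ • e + b • f := by
      by_cases h0 : y - ⟪e, y⟫_ℝ • e = 0
      · obtain ⟨f, hf, hef⟩ := hex e he
        refine ⟨f, 0, hf, hef, le_rfl, ?_⟩
        rw [zero_smul, add_zero]
        exact sub_eq_zero.mp h0
      · obtain ⟨f, hf, hef, hy⟩ := exists_unit_orth y e he h0
        exact ⟨f, _, hf, hef, norm_nonneg _, hy⟩
    set a := ⟪e, y⟫_ℝ with ha
    have hee : ⟪e, e⟫_ℝ = 1 := by rw [real_inner_self_eq_norm_sq, he]; norm_num
    have hff : ⟪f, f⟫_ℝ = 1 := by rw [real_inner_self_eq_norm_sq, hf]; norm_num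
    have hfe : ⟪f, e⟫_ℝ = 0 := by rw [real_inner_comm]; exact hef
    have hab : a ^ 2 + b ^ 2 = r ^ 2 := by
      have h1 : ‖y‖ ^ 2 = a ^ 2 + b ^ 2 := by
        rw [← real_inner_self_eq_norm_sq, hy]
        simp only [inner_add_left, inner_add_right, real_inner_smul_left,
          real_inner_smul_right, hee, hff, hef, hfe]
        ring
      rw [← h1, ← hxy]
    have har : a ^ 2 ≤ r ^ 2 := by nlinarith [sq_nonneg b]
    have har' := abs_le.mp (abs_le_of_sq_le_sq har hr0.le)
    have h1 : -1 ≤ a / r := by rw [le_div_iff₀ hr0]; linarith [har'.1]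
    have h2 : a / r ≤ 1 := by rw [div_le_iff₀ hr0]; linarith [har'.2]
    refine ⟨e, f, he, hf, hef, Real.arccos (a / r), ?_⟩
    have hcos := Real.cos_arccos h1 h2
    have hsin : Real.sin (Real.arccos (a / r)) = b / r := by
      rw [Real.sin_arccos]
      have : 1 - (a / r) ^ 2 = (b / r) ^ 2 := by
        field_simp
        linarith
      rw [this, Real.sqrt_sq (by positivity)]
    rw [rotE_apply, rotL_apply, hcos, hsin]
    conv_rhs => rw [hy]
    rw [hxe]
    simp only [real_inner_smul_right, hee, hfe, mul_zero, zero_smul, add_zero, sub_zero,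
      mul_one, smul_smul]
    have e1 : r • e + ((a / r - 1) * r) • e = a • e := by
      rw [← add_smul]
      congr 1
      field_simp
      ring
    have e2 : (b / r * r) = b := by field_simp
    rw [e1, e2]

/-- the density one points along the radii `1/(n+1)` -/
def dens (D : Set E) : Set E := {x | Tendsto (fun n : ℕ => volume (D ∩ Metric.closedBall x (1 / ((n : ℝ) + 1)))
  / volume (Metric.closedBall x (1 / ((n : ℝ) + 1)))) atTop (𝓝 1)}

theorem dens_ae {D : Set E} (hD : MeasurableSet D) : dens D =ᵐ[volume] D := by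
  have ht : Tendsto (fun n : ℕ => 1 / ((n : ℝ) + 1)) atTop (𝓝[>] 0) :=
    tendsto_nhdsWithin_iff.mpr ⟨tendsto_one_div_add_atTop_nhds_zero_nat,
      Filter.Eventually.of_forall fun n => mem_Ioi.mpr (by positivity)⟩
  filter_upwards [Besicovitch.ae_tendsto_measure_inter_div_of_measurableSet volume hD] with x hx
  have hx' := hx.comp ht
  by_cases h1 : x ∈ D
  · rw [indicator_of_mem h1] at hx'
    exact propext ⟨fun _ => h1, fun _ => hx'⟩
  · rw [indicator_of_notMem h1] at hx'
    refine propext ⟨fun h => ?_, fun h => absurd h h1⟩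
    exact absurd (tendsto_nhds_unique h hx') one_ne_zero

theorem measurableSet_dens {D : Set E} (hD : MeasurableSet D) : MeasurableSet (dens D) := by
  refine measurableSet_tendsto _ (fun n => ?_)
  refine Measurable.div ?_ ?_
  · have : MeasurableSet {p : E × E | p.2 ∈ D ∧ dist p.2 p.1 ≤ 1 / ((n : ℝ) + 1)} :=
      (measurable_snd hD).inter
        (isClosed_le (continuous_snd.dist continuous_fst) continuous_const).measurableSet
    exact measurable_measure_prodMk_left this
  · have : MeasurableSet {p : E × E | dist p.2 p.1 ≤ 1 / ((n : ℝ) + 1)} :=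
        (isClosed_le (continuous_snd.dist continuous_fst) continuous_const).measurableSet
    exact measurable_measure_prodMk_left this

theorem dens_invariant {D : Set E} (R : E ≃ₗᵢ[ℝ] E) (hR : R ⁻¹' D =ᵐ[volume] D) (x : E) :
    R x ∈ dens D ↔ x ∈ dens D := by
  have h1 : ∀ r : ℝ, volume (Metric.closedBall (R x) r) = volume (Metric.closedBall x r) := by
    intro r
    rw [← R.measurePreserving.measure_preimage_emb R.toHomeomorph.measurableEmbedding]
    congr 1
    ext z
    simp
  have h2 : ∀ r : ℝ, volume (D ∩ Metric.closedBall (R x) r)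
      = volume (D ∩ Metric.closedBall x r) := by
    intro r
    rw [← R.measurePreserving.measure_preimage_emb R.toHomeomorph.measurableEmbedding]
    have e1 : R ⁻¹' (D ∩ Metric.closedBall (R x) r) = (R ⁻¹' D) ∩ Metric.closedBall x r := by
      ext z
      simp
    rw [e1]
    exact measure_congr (hR.inter (ae_eq_refl _))
  unfold dens
  simp only [mem_ofPred_eq, h1, h2]

end RadP

open RadP

/-- A measurable set all of whose tangential fluxes vanish is radial up to a null set. -/
theorem radial_of_tangential {E : Type*} [NormedAddCommGroup E] [InnerProductSpace ℝ E]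
    [FiniteDimensional ℝ E] [MeasurableSpace E] [BorelSpace E]
    (hdim : 2 ≤ Module.finrank ℝ E) {D : Set E} (hD : MeasurableSet D)
    (h : ∀ S : E → E, ContDiff ℝ ∞ S → HasCompactSupport S → (∀ y, ⟪S y, y⟫_ℝ = 0) →
      ∫ y in D, divE S y = 0) :
    ∃ K : Set ℝ, MeasurableSet K ∧ D =ᵐ[volume] {y : E | ‖y‖ ∈ K} := by
  have : Nontrivial E := Module.nontrivial_of_finrank_pos (R := ℝ) (by omega)
  obtain ⟨e, he⟩ := exists_norm_eq E (zero_le_one (α := ℝ))
  have hK : Measurable (fun r : ℝ => r • e) := (continuous_id.smul continuous_const).measurable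
  refine ⟨(fun r : ℝ => r • e) ⁻¹' (dens D), hK (measurableSet_dens hD), ?_⟩
  have h1 : {y : E | ‖y‖ ∈ (fun r : ℝ => r • e) ⁻¹' (dens D)} = dens D := by
    ext y
    have hn : ‖(‖y‖ • e)‖ = ‖y‖ := by rw [norm_smul, he, mul_one, norm_norm]
    obtain ⟨e', f', he', hf', hef', s, hs⟩ := exists_rot hdim hn
    have h2 := dens_invariant (D := D) (rotE he' hf' hef' s) (ae_rot hD h he' hf' hef' s)
      (‖y‖ • e)
    rw [hs] at h2
    exact h2.symm
  rw [h1]
  exact (dens_ae hD).symm

/-- The same with a density. -/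
theorem radial_of_tangential_rho {E : Type*} [NormedAddCommGroup E] [InnerProductSpace ℝ E]
    [FiniteDimensional ℝ E] [MeasurableSpace E] [BorelSpace E] (G : Geo E)
    (hdim : 2 ≤ Module.finrank ℝ E) {D : Set E} (hD : MeasurableSet D)
    (h : ∀ S : E → E, ContDiff ℝ ∞ S → HasCompactSupport S → (∀ y, ⟪S y, y⟫_ℝ = 0) →
      ∫ y in D, divE (fun y => G.ρ y • S y) y = 0) :
    ∃ K : Set ℝ, MeasurableSet K ∧ D =ᵐ[volume] {y : E | ‖y‖ ∈ K} := by
  refine radial_of_tangential hdim hD (fun S hS hSc hSt => ?_)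
  have h1 := h (fun y => (G.ρ y)⁻¹ • S y)
    ((G.smooth_ρ.inv fun y => (G.ρ_pos y).ne').smul hS) (hSc.smul_left) (fun y => by
      rw [real_inner_smul_left, hSt, mul_zero])
  have h2 : (fun y => G.ρ y • (G.ρ y)⁻¹ • S y) = S := by
    funext y
    rw [smul_smul, mul_inv_cancel₀ (G.ρ_pos y).ne', one_smul]
  rwa [h2] at h1

end

end Pool.Agent.Work.MP_3b24f6_gt
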