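import Pool.Agent.Work.MP_3b24f6_gt.ExistsH

set_option autoImplicit false

open MeasureTheory Set Filter Topology
open scoped ContDiff InnerProductSpace

namespace Pool.Agent.Work.MP_3b24f6_gt

noncomputable section

/-- Second order version of `eventually_gt_of_deriv_pos`. -/
theorem eventually_gt_of_second_deriv_pos {V V1 : ℝ → ℝ} {V2 t0 : ℝ} (ht0 : 0 < t0)
    (hV : ∀ t, |t| < t0 → HasDerivAt V (V1 t) t) (h1 : V1 0 = 0) (h2 : HasDerivAt V1 V2 0)
    (hpos : 0 < V2) : ∀ᶠ t in 𝓝[>] (0 : ℝ), V 0 < V t := by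
  have h := eventually_gt_of_deriv_pos h2 hpos
  rw [h1] at h
  obtain ⟨δ, hδ, hδ2⟩ := (mem_nhdsGT_iff_exists_Ioo_subset).mp h
  have hδ0 : (0 : ℝ) < δ := hδ
  have : Ioo (0 : ℝ) (min δ t0) ∈ 𝓝[>] (0 : ℝ) :=
    Ioo_mem_nhdsGT (lt_min hδ0 ht0)
  filter_upwards [this] with t ht
  have ht1 : 0 < t := ht.1
  have ht2 : t < δ := lt_of_lt_of_le ht.2 (min_le_left _ _)
  have ht3 : t < t0 := lt_of_lt_of_le ht.2 (min_le_right _ _)
  have hd : ∀ s ∈ Icc (0 : ℝ) t, HasDerivAt V (V1 s) s := by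
    intro s hs
    exact hV s (by rw [abs_of_nonneg hs.1]; linarith [hs.2])
  obtain ⟨c, hc, hc2⟩ := exists_hasDerivAt_eq_slope V V1 ht1
    (fun s hs => (hd s hs).continuousAt.continuousWithinAt)
    (fun s hs => hd s ⟨hs.1.le, hs.2.le⟩)
  have hc3 : 0 < V1 c := hδ2 ⟨hc.1, lt_trans hc.2 ht2⟩
  rw [hc2] at hc3
  have : 0 < V t - V 0 := by
    have := mul_pos hc3 (show (0 : ℝ) < t - 0 by linarith)
    rwa [div_mul_cancel₀] at this
    linarith
  linarith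

/-- `V` constrained from below, `A` minimal: the second derivative of `A` is nonnegative. -/
theorem second_deriv_nonneg_of_min {A A1 : ℝ → ℝ} {A2 t0 : ℝ} (ht0 : 0 < t0)
    (hA : ∀ t, |t| < t0 → HasDerivAt A (A1 t) t) (h1 : A1 0 = 0) (h2 : HasDerivAt A1 A2 0)
    (h : ∀ᶠ t in 𝓝[>] (0 : ℝ), A 0 ≤ A t) : 0 ≤ A2 := by
  by_contra hneg
  push Not at hneg
  have k := eventually_gt_of_second_deriv_pos (V := fun t => - A t) (V1 := fun t => - A1 t)
    (V2 := - A2) ht0 (fun t ht => (hA t ht).neg) (by simp [h1]) h2.neg (by linarith)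
  obtain ⟨t, ht, ht2⟩ := (h.and k).exists
  simp only [neg_lt_neg_iff] at ht2
  linarith

variable {E : Type*} [NormedAddCommGroup E] [InnerProductSpace ℝ E] [FiniteDimensional ℝ E]
variable [MeasurableSpace E] [BorelSpace E] (G : Geo E)

/-- The conclusion of `variation`. -/
def VarData (w : E → ℝ) (μ : Measure E) (φ ψ : E → ℝ) (σ : ℝ) : Prop :=
    ∃ t0 > 0, ∃ V A V1 A1 : ℝ → ℝ, ∃ V2 A2 : ℝ,
      (∀ t, |t| < t0 → IsReg (fun z => w z - t * φ z - σ * t ^ 2 * ψ z) ∧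
        G.vol {z | w z - t * φ z - σ * t ^ 2 * ψ z < 0} = ENNReal.ofReal (V t) ∧ 0 ≤ V t ∧
        G.area {z | w z - t * φ z - σ * t ^ 2 * ψ z < 0} = ENNReal.ofReal (A t) ∧ 0 ≤ A t ∧
        HasDerivAt V (V1 t) t ∧ HasDerivAt A (A1 t) t) ∧
      HasDerivAt V1 V2 0 ∧ HasDerivAt A1 A2 0 ∧
      V1 0 = ∫ z, G.ρ z * φ z ∂μ ∧
      A1 0 = ∫ z, G.mc w z * (G.ρ z * φ z) ∂μ ∧
      V2 = ∫ z, (G.ρ z * (2 * σ * ψ z + fderiv ℝ φ z (W0 G w φ z))
        + φ z * divE (fun y => G.ρ y • W0 G w φ y) z) ∂μ ∧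
      ∀ Λ : ℝ, (∀ z, w z = 0 → G.mc w z = Λ) →
        A2 - Λ * V2 = ∫ z, G.ρ z * φ z * (G.dv (Ndot G w φ) z
          + fderiv ℝ (G.mc w) z (W0 G w φ z)) ∂μ

theorem VarData.firstVar {w : E → ℝ} {μ : Measure E} {φ : E → ℝ} {ψ : E → ℝ}
    (h : VarData G w μ φ ψ 0) : FirstVar G w μ φ := by
  obtain ⟨t0, ht0, V, A, V1, A1, V2, A2, h1, -, -, hV, hA, -, -⟩ := h
  refine ⟨t0, ht0, V, A, ?_, ?_, ?_⟩
  · intro t ht
    have e : (fun z => w z - t * φ z - 0 * t ^ 2 * ψ z) = fun z => w z - t * φ z := by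
      ext z; ring
    have e2 : {z | w z - t * φ z - 0 * t ^ 2 * ψ z < 0} = {z | w z - t * φ z < 0} := by
      ext z; simp
    obtain ⟨a, b, c, d, e', -, -⟩ := h1 t ht
    rw [e] at a
    rw [e2] at b d
    exact ⟨a, b, c, d, e'⟩
  · rw [← hV]; exact (h1 0 (by simpa using ht0)).2.2.2.2.2.1
  · rw [← hA]; exact (h1 0 (by simpa using ht0)).2.2.2.2.2.2

/-- Nonnegativity of the second variation for volume preserving first order variations. -/
theorem second_var_nonneg_of {w : E → ℝ} {μ : Measure E} (hμ : IsDelta w μ)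
    (hmin : ∀ w', IsReg w' → G.vol {x | w x < 0} ≤ G.vol {x | w' x < 0} →
      G.area {x | w x < 0} ≤ G.area {x | w' x < 0})
    {φ ψ : E → ℝ} (hψ : Adm w ψ)
    (hψpos : 0 < ∫ z, G.ρ z * ψ z ∂μ) (h0 : ∫ z, G.ρ z * φ z ∂μ = 0)
    {Λ : ℝ} (hΛ : ∀ z, w z = 0 → G.mc w z = Λ)
    (hint : Integrable (fun z => G.ρ z * fderiv ℝ φ z (W0 G w φ z)
        + φ z * divE (fun y => G.ρ y • W0 G w φ y) z) μ)
    (hvar : ∀ σ, VarData G w μ φ ψ σ) :
    0 ≤ ∫ z, G.ρ z * φ z * (G.dv (Ndot G w φ) z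
          + fderiv ℝ (G.mc w) z (W0 G w φ z)) ∂μ := by
  have hfin := hμ.fin
  have hρc : Continuous G.ρ := G.smooth_ρ.continuous
  have hψi : Integrable (fun z => G.ρ z * ψ z) μ :=
    hψ.integrable_mul (fun z _ => hρc.continuousAt) μ
  have hae : ∀ᵐ z ∂μ, w z = 0 := by
    rw [ae_iff]
    exact hμ.supp
  set b : ℝ := ∫ z, G.ρ z * ψ z ∂μ with hb
  set c0 : ℝ := ∫ z, (G.ρ z * fderiv ℝ φ z (W0 G w φ z)
        + φ z * divE (fun y => G.ρ y • W0 G w φ y) z) ∂μ with hc0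
  set Q : ℝ := ∫ z, G.ρ z * φ z * (G.dv (Ndot G w φ) z
          + fderiv ℝ (G.mc w) z (W0 G w φ z)) ∂μ with hQ
  have hkey : ∀ η > 0, - Λ * η ≤ Q := by
    intro η hη
    obtain ⟨t0, ht0, V, A, V1, A1, V2, A2, h1, hV1, hA1, eV1, eA1, eV2, hq⟩ :=
      hvar ((η - c0) / (2 * b))
    have hV2 : V2 = η := by
      rw [eV2]
      have e : ∀ z, (G.ρ z * (2 * ((η - c0) / (2 * b)) * ψ z + fderiv ℝ φ z (W0 G w φ z))
        + φ z * divE (fun y => G.ρ y • W0 G w φ y) z)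
        = (2 * ((η - c0) / (2 * b))) * (G.ρ z * ψ z) + (G.ρ z * fderiv ℝ φ z (W0 G w φ z)
        + φ z * divE (fun y => G.ρ y • W0 G w φ y) z) := fun z => by ring
      simp_rw [e]
      rw [integral_add (hψi.const_mul _) hint, integral_const_mul, ← hb, ← hc0]
      have : b ≠ 0 := hψpos.ne'
      field_simp
      ring
    have hV10 : V1 0 = 0 := by rw [eV1, h0]
    have hA10 : A1 0 = 0 := by
      rw [eA1]
      have : ∫ z, G.mc w z * (G.ρ z * φ z) ∂μ = ∫ z, Λ * (G.ρ z * φ z) ∂μ := by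
        refine integral_congr_ae ?_
        filter_upwards [hae] with z hz
        rw [hΛ z hz]
      rw [this, integral_const_mul, h0, mul_zero]
    have hgt := eventually_gt_of_second_deriv_pos ht0
      (fun t ht => (h1 t ht).2.2.2.2.2.1) hV10 hV1 (by rw [hV2]; exact hη)
    have hsmall : ∀ᶠ t in 𝓝[>] (0 : ℝ), |t| < t0 := by
      have : ∀ᶠ t in 𝓝 (0 : ℝ), |t| < t0 := by
        have hc : Tendsto (fun t : ℝ => |t|) (𝓝 0) (𝓝 |0|) := continuous_abs.tendsto 0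
        rw [abs_zero] at hc
        exact hc.eventually (gt_mem_nhds ht0)
      exact this.filter_mono nhdsWithin_le_nhds
    have hh0 := h1 0 (by simpa using ht0)
    have e0 : {z | w z - 0 * φ z - ((η - c0) / (2 * b)) * 0 ^ 2 * ψ z < 0} = {z | w z < 0} := by
      ext z; simp
    rw [e0] at hh0
    have hA2 : 0 ≤ A2 := by
      refine second_deriv_nonneg_of_min ht0 (fun t ht => (h1 t ht).2.2.2.2.2.2) hA10 hA1 ?_
      filter_upwards [hgt, hsmall] with t ht hts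
      obtain ⟨hreg, hvol, hVt, har, hAt, -, -⟩ := h1 t hts
      have hle : G.vol {x | w x < 0}
          ≤ G.vol {z | w z - t * φ z - ((η - c0) / (2 * b)) * t ^ 2 * ψ z < 0} := by
        rw [hvol, hh0.2.1]
        exact ENNReal.ofReal_le_ofReal ht.le
      have := hmin _ hreg hle
      rw [har, hh0.2.2.2.1] at this
      exact (ENNReal.ofReal_le_ofReal_iff hAt).mp this
    have := hq Λ hΛ
    rw [← hQ, hV2] at this
    linarith
  by_contra hneg
  push Not at hneg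
  have h3 := hkey (-Q / (2 * (|Λ| + 1))) (by
    have := abs_nonneg Λ
    apply div_pos <;> linarith)
  have h4 : |Λ| * (-Q / (2 * (|Λ| + 1))) ≤ -Q / 2 := by
    have := abs_nonneg Λ
    rw [mul_div_assoc', div_le_div_iff₀ (by linarith) (by norm_num)]
    nlinarith
  have h5 : - Λ * (-Q / (2 * (|Λ| + 1))) ≥ -(|Λ| * (-Q / (2 * (|Λ| + 1)))) := by
    have h6 : 0 < -Q / (2 * (|Λ| + 1)) := by
      have := abs_nonneg Λ
      apply div_pos <;> linarith
    have h7 := le_abs_self Λ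
    nlinarith
  linarith

end

end Pool.Agent.Work.MP_3b24f6_gt
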