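import Mathlib

set_option autoImplicit false
set_option linter.unusedSectionVars false

open MeasureTheory Set Filter Topology
open scoped ContDiff InnerProductSpace ENNReal

namespace Pool.Agent.Work.MP_3b24f6_gt

noncomputable section

variable {E : Type*} [NormedAddCommGroup E] [InnerProductSpace ℝ E] [FiniteDimensional ℝ E]
  [MeasurableSpace E] [BorelSpace E]

/-- Surface measure of the unit sphere. -/
def sig (E : Type*) [NormedAddCommGroup E] [InnerProductSpace ℝ E] [FiniteDimensional ℝ E]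
    [MeasurableSpace E] [BorelSpace E] : Measure (Metric.sphere (0 : E) 1) :=
  (volume : Measure E).toSphere

/-- The measure `r ^ n dr` on `(0, ∞)`. -/
def radL (n : ℕ) : Measure ℝ :=
  (volume.restrict (Ioi (0 : ℝ))).withDensity (fun r => ENNReal.ofReal (r ^ n))

instance radL_sigmaFinite (n : ℕ) : SigmaFinite (radL n) := by
  unfold radL
  infer_instance

instance sig_finite : IsFiniteMeasure (sig E) := by
  unfold sig
  infer_instance

/-- Polar coordinates. -/
theorem polar_mp (hN : 1 ≤ Module.finrank ℝ E) :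
    MeasurePreserving (fun z : Metric.sphere (0 : E) 1 × ℝ => z.2 • (z.1 : E))
      ((sig E).prod (radL (Module.finrank ℝ E - 1))) (volume : Measure E) := by
  have hcont : Measurable (fun z : Metric.sphere (0 : E) 1 × ℝ => z.2 • (z.1 : E)) := by
    have : Continuous (fun z : Metric.sphere (0 : E) 1 × ℝ => z.2 • (z.1 : E)) := by fun_prop
    exact this.measurable
  have hnt : Nontrivial E := by
    have : 0 < Module.finrank ℝ E := by omega
    exact Module.finrank_pos_iff.mp this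
  have h1 := (Measure.measurePreserving_homeomorphUnitSphereProd (volume : Measure E))
  have h2 : MeasurePreserving (Subtype.val : Ioi (0 : ℝ) → ℝ)
      (Measure.volumeIoiPow (Module.finrank ℝ E - 1)) (radL (Module.finrank ℝ E - 1)) := by
    refine ⟨measurable_subtype_coe, ?_⟩
    ext1 s hs
    rw [Measure.map_apply measurable_subtype_coe hs, Measure.volumeIoiPow, radL,
      withDensity_apply _ (measurable_subtype_coe hs), withDensity_apply _ hs,
      setLIntegral_subtype measurableSet_Ioi _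
        fun a : ℝ ↦ ENNReal.ofReal (a ^ (Module.finrank ℝ E - 1)),
      Measure.restrict_restrict hs, Subtype.image_preimage_coe, inter_comm]
  have h3 : MeasurePreserving (Subtype.val : ({(0 : E)}ᶜ : Set E) → E)
      ((volume : Measure E).comap (↑)) (volume : Measure E) := by
    refine ⟨measurable_subtype_coe, ?_⟩
    rw [map_comap_subtype_coe (measurableSet_singleton _).compl]
    exact restrict_compl_singleton _
  have h1' := h1.symm (homeomorphUnitSphereProd E).toMeasurableEquiv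
  have h4 := h3.comp h1'
  have h5 : MeasurePreserving (Prod.map id Subtype.val : Metric.sphere (0 : E) 1 × Ioi (0 : ℝ) →
      Metric.sphere (0 : E) 1 × ℝ)
      (((volume : Measure E).toSphere).prod (Measure.volumeIoiPow (Module.finrank ℝ E - 1)))
      ((sig E).prod (radL (Module.finrank ℝ E - 1))) :=
    (MeasurePreserving.id _).prod h2
  refine ⟨hcont, ?_⟩
  rw [← h5.map_eq, Measure.map_map hcont h5.measurable]
  have h6 : ((fun z : Metric.sphere (0 : E) 1 × ℝ => z.2 • (z.1 : E)) ∘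
      (Prod.map id Subtype.val : Metric.sphere (0 : E) 1 × Ioi (0 : ℝ) →
      Metric.sphere (0 : E) 1 × ℝ)) =
      (Subtype.val ∘ ((homeomorphUnitSphereProd E).toMeasurableEquiv).symm) := by
    funext z
    simp [homeomorphUnitSphereProd]
  rw [h6]
  exact h4.map_eq

theorem lpolar (hN : 1 ≤ Module.finrank ℝ E) (g : E → ℝ≥0∞) (hg : Measurable g) :
    ∫⁻ x, g x = ∫⁻ w, ∫⁻ r, g (r • (w : E)) ∂(radL (Module.finrank ℝ E - 1)) ∂(sig E) := by
  rw [← (polar_mp hN).lintegral_comp hg]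
  exact lintegral_prod _ (hg.comp (polar_mp hN).measurable).aemeasurable

theorem ae_radL_pos (n : ℕ) : ∀ᵐ r ∂(radL n), 0 < r := by
  unfold radL
  refine (withDensity_absolutelyContinuous _ _).ae_le ?_
  exact ae_restrict_mem measurableSet_Ioi

theorem shear_mp (b : ℝ) : MeasurePreserving (fun z : E × E => (z.1, b • z.1 + z.2))
    ((volume : Measure E).prod volume) ((volume : Measure E).prod volume) := by
  refine (MeasurePreserving.id (volume : Measure E)).skew_product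
    (g := fun x y => b • x + y) (by fun_prop) ?_
  refine Eventually.of_forall fun x => ?_
  exact (measurePreserving_add_left (volume : Measure E) (b • x)).map_eq

theorem shear_mp' (a : ℝ) : MeasurePreserving (fun z : E × E => (z.1 + a • z.2, z.2))
    ((volume : Measure E).prod volume) ((volume : Measure E).prod volume) := by
  have h := (Measure.measurePreserving_swap (μ := (volume : Measure E))
    (ν := (volume : Measure E)))
  have h2 := h.comp ((shear_mp (E := E) a).comp h)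
  have : (fun z : E × E => (z.1 + a • z.2, z.2)) =
      (Prod.swap ∘ (fun z : E × E => (z.1, a • z.1 + z.2)) ∘ Prod.swap) := by
    funext z
    simp [add_comm]
  rw [this]
  exact h2

theorem rot_mp (c s : ℝ) (hs : s ≠ 0) (hcs : c ^ 2 + s ^ 2 = 1) :
    MeasurePreserving (fun z : E × E => (c • z.1 + s • z.2, -s • z.1 + c • z.2))
    ((volume : Measure E).prod volume) ((volume : Measure E).prod volume) := by
  have h := (shear_mp' (E := E) ((1 - c) / s)).comp
    ((shear_mp (E := E) (-s)).comp (shear_mp' (E := E) ((1 - c) / s)))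
  have : (fun z : E × E => (c • z.1 + s • z.2, -s • z.1 + c • z.2)) =
      ((fun z : E × E => (z.1 + ((1 - c) / s) • z.2, z.2)) ∘
      (fun z : E × E => (z.1, -s • z.1 + z.2)) ∘
      (fun z : E × E => (z.1 + ((1 - c) / s) • z.2, z.2))) := by
    funext z
    have e1 : (1 - c) / s * s = 1 - c := by field_simp
    have e2 : (1 - c) / s + (1 - c) / s * (-s * ((1 - c) / s) + 1) = s := by
      field_simp
      linear_combination -hcs
    simp only [Function.comp_apply, Prod.mk.injEq]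
    constructor
    · rw [smul_add, smul_add, smul_add, smul_smul, smul_smul, smul_smul]
      have e3 : (c • z.1 + s • z.2 : E) = (1 + (1 - c) / s * -s) • z.1 +
          ((1 - c) / s + (1 - c) / s * (-s * ((1 - c) / s) + 1)) • z.2 := by
        rw [e2]
        congr 2
        linear_combination e1
      rw [e3]
      module
    · have e3 : (-s • z.1 + c • z.2 : E) = -s • z.1 + (-s * ((1 - c) / s) + 1) • z.2 := by
        congr 2
        linear_combination e1
      rw [e3]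
      module
  rw [this]
  exact h

/-! ### The rotation path -/

/-- Derivative of the normalised path. -/
theorem hasDerivAt_normalize {γ : ℝ → E} {γ' : E} {t : ℝ} (h : HasDerivAt γ γ' t)
    (h0 : γ t ≠ 0) :
    HasDerivAt (fun τ => ‖γ τ‖⁻¹ • γ τ)
      (‖γ t‖⁻¹ • (γ' - ⟪‖γ t‖⁻¹ • γ t, γ'⟫_ℝ • (‖γ t‖⁻¹ • γ t))) t := by
  have hn : ‖γ t‖ ≠ 0 := norm_ne_zero_iff.2 h0
  have h1 : HasDerivAt (fun τ => ‖γ τ‖) (⟪γ t, γ'⟫_ℝ / ‖γ t‖) t := by
    have h2 := h.norm_sq
    have h3 : HasDerivAt (fun τ => Real.sqrt (‖γ τ‖ ^ 2)) _ t :=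
      h2.sqrt (by positivity)
    have h4 : (fun τ => Real.sqrt (‖γ τ‖ ^ 2)) = fun τ => ‖γ τ‖ := by
      funext τ
      exact Real.sqrt_sq (norm_nonneg _)
    rw [h4, Real.sqrt_sq (norm_nonneg _)] at h3
    convert h3 using 1
    field_simp
  have h5 : HasDerivAt (fun τ => ‖γ τ‖⁻¹ • γ τ)
      ((‖γ t‖)⁻¹ • γ' + (-(⟪γ t, γ'⟫_ℝ / ‖γ t‖) / ‖γ t‖ ^ 2) • γ t) t := (h1.inv hn).smul h
  convert h5 using 1
  rw [inner_smul_left, smul_sub, smul_smul, smul_smul]
  simp only [conj_trivial]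
  rw [sub_eq_add_neg, ← neg_smul]
  congr 2
  field_simp

theorem inner_normalize_deriv (u v : E) (hu : u ≠ 0) (s : ℝ) :
    ⟪s • (‖u‖⁻¹ • u), v - ⟪‖u‖⁻¹ • u, v⟫_ℝ • (‖u‖⁻¹ • u)⟫_ℝ = 0 := by
  have hn : ‖u‖ ≠ 0 := norm_ne_zero_iff.2 hu
  have h1 : ⟪‖u‖⁻¹ • u, ‖u‖⁻¹ • u⟫_ℝ = 1 := by
    rw [real_inner_self_eq_norm_sq, norm_smul, norm_inv, norm_norm, inv_mul_cancel₀ hn, one_pow]
  rw [inner_smul_left, inner_sub_right, inner_smul_right, h1]
  simp

theorem norm_normalize_deriv_le (u v : E) (hu : u ≠ 0) :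
    ‖v - ⟪‖u‖⁻¹ • u, v⟫_ℝ • (‖u‖⁻¹ • u)‖ ≤ ‖v‖ := by
  have hn : ‖u‖ ≠ 0 := norm_ne_zero_iff.2 hu
  have h1 : ‖‖u‖⁻¹ • u‖ = 1 := by
    rw [norm_smul, norm_inv, norm_norm, inv_mul_cancel₀ hn]
  set e := ‖u‖⁻¹ • u with he
  have h2 : ‖v - ⟪e, v⟫_ℝ • e‖ ^ 2 = ‖v‖ ^ 2 - ⟪e, v⟫_ℝ ^ 2 := by
    rw [@norm_sub_sq ℝ, norm_smul, mul_pow, h1, inner_smul_right, real_inner_comm v e]
    simp only [Real.norm_eq_abs, sq_abs, RCLike.re_to_real]
    ring
  have h3 : ‖v - ⟪e, v⟫_ℝ • e‖ ^ 2 ≤ ‖v‖ ^ 2 := by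
    rw [h2]
    nlinarith [sq_nonneg ⟪e, v⟫_ℝ]
  exact (sq_le_sq₀ (norm_nonneg _) (norm_nonneg _)).1 h3

/-- The integrand on the pair space. -/
def HH (T : E → ℝ≥0∞) (s : ℝ) (z : E × E) : ℝ≥0∞ :=
  ENNReal.ofReal s * T (s • (‖z.1‖⁻¹ • z.1)) * (‖z.2‖ₑ * ‖z.1‖ₑ⁻¹)

theorem measurable_HH {T : E → ℝ≥0∞} (hT : Measurable T) (s : ℝ) :
    Measurable (HH T s) := by
  unfold HH
  have h1 : Measurable fun z : E × E => s • (‖z.1‖⁻¹ • z.1) := by fun_prop
  have h2 := hT.comp h1
  have h3 : Measurable fun z : E × E => ‖z.2‖ₑ * ‖z.1‖ₑ⁻¹ := by fun_prop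
  exact (measurable_const.mul h2).mul h3

/-- Pointwise estimate along the rotation path. -/
theorem path_le {f : E → ℝ} (hf : ContDiff ℝ 1 f) {T : E → ℝ≥0∞}
    (hfT : ∀ y v : E, ⟪y, v⟫_ℝ = 0 → ‖fderiv ℝ f y v‖ₑ ≤ T y * ‖v‖ₑ) {s : ℝ} (hs : 0 < s)
    (x y : E) (hxy : LinearIndependent ℝ ![x, y]) :
    ‖f (s • (‖y‖⁻¹ • y)) - f (s • (‖x‖⁻¹ • x))‖ₑ ≤
      ∫⁻ t in Icc 0 (Real.pi / 2), HH T s
        (Real.cos t • x + Real.sin t • y, -Real.sin t • x + Real.cos t • y) := by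
  have hγ0 : ∀ t : ℝ, Real.cos t • x + Real.sin t • y ≠ 0 := by
    intro t h0
    rw [LinearIndependent.pair_iff] at hxy
    obtain ⟨h1, h2⟩ := hxy _ _ h0
    have := Real.sin_sq_add_cos_sq t
    rw [h1, h2] at this
    norm_num at this
  have hγ : ∀ t : ℝ, HasDerivAt (fun τ => Real.cos τ • x + Real.sin τ • y)
      (-Real.sin t • x + Real.cos t • y) t := fun t =>
    ((Real.hasDerivAt_cos t).smul_const x).add ((Real.hasDerivAt_sin t).smul_const y)
  have hγc : ContDiff ℝ 1 (fun τ : ℝ => Real.cos τ • x + Real.sin τ • y) := by fun_prop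
  have hnc : ContDiff ℝ 1 (fun τ : ℝ => s • (‖Real.cos τ • x + Real.sin τ • y‖⁻¹ •
      (Real.cos τ • x + Real.sin τ • y))) := by
    refine contDiff_const.smul (ContDiff.smul ?_ hγc)
    exact (hγc.norm ℝ hγ0).inv fun t => norm_ne_zero_iff.2 (hγ0 t)
  have hφc : ContDiff ℝ 1 (fun τ : ℝ => f (s • (‖Real.cos τ • x + Real.sin τ • y‖⁻¹ •
      (Real.cos τ • x + Real.sin τ • y)))) := hf.comp hnc
  have h1 := enorm_sub_le_lintegral_deriv_of_contDiffOn_Icc (a := 0) (b := Real.pi / 2)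
    hφc.contDiffOn (by positivity)
  simp only [Real.cos_zero, Real.sin_zero, one_smul, zero_smul, add_zero, Real.cos_pi_div_two,
    Real.sin_pi_div_two, zero_add] at h1
  refine h1.trans (lintegral_mono fun t => ?_)
  have h2 := (hasDerivAt_normalize (hγ t) (hγ0 t)).const_smul s
  have h3 := (hf.differentiable one_ne_zero).differentiableAt.hasFDerivAt.comp_hasDerivAt t h2
  have h4 : deriv (fun τ : ℝ => f (s • (‖Real.cos τ • x + Real.sin τ • y‖⁻¹ •
      (Real.cos τ • x + Real.sin τ • y)))) t = _ := h3.deriv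
  rw [h4]
  set u := Real.cos t • x + Real.sin t • y with hu
  set v := -Real.sin t • x + Real.cos t • y with hv
  have h5 := hfT (s • (‖u‖⁻¹ • u)) (s • (‖u‖⁻¹ • (v - ⟪‖u‖⁻¹ • u, v⟫_ℝ • (‖u‖⁻¹ • u)))) (by
    rw [inner_smul_right, inner_smul_right, inner_normalize_deriv u v (hγ0 t) s]
    simp)
  refine h5.trans ?_
  unfold HH
  have hun : ‖u‖ ≠ 0 := norm_ne_zero_iff.2 (hγ0 t)
  have h6 : ‖s • (‖u‖⁻¹ • (v - ⟪‖u‖⁻¹ • u, v⟫_ℝ • (‖u‖⁻¹ • u)))‖ₑ ≤
      ENNReal.ofReal s * (‖v‖ₑ * ‖u‖ₑ⁻¹) := by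
    rw [enorm_smul, enorm_smul, Real.enorm_of_nonneg hs.le]
    have h7 : ‖v - ⟪‖u‖⁻¹ • u, v⟫_ℝ • (‖u‖⁻¹ • u)‖ₑ ≤ ‖v‖ₑ :=
      enorm_le_iff_norm_le.2 (norm_normalize_deriv_le u v (hγ0 t))
    have h8 : ‖‖u‖⁻¹‖ₑ = ‖u‖ₑ⁻¹ := by
      rw [enorm_inv hun, enorm_norm]
    rw [h8]
    calc ENNReal.ofReal s * (‖u‖ₑ⁻¹ * ‖v - ⟪‖u‖⁻¹ • u, v⟫_ℝ • (‖u‖⁻¹ • u)‖ₑ)
        ≤ ENNReal.ofReal s * (‖u‖ₑ⁻¹ * ‖v‖ₑ) := by gcongr
      _ = ENNReal.ofReal s * (‖v‖ₑ * ‖u‖ₑ⁻¹) := by rw [mul_comm ‖v‖ₑ]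
  calc T (s • ‖u‖⁻¹ • u) * ‖s • (‖u‖⁻¹ • (v - ⟪‖u‖⁻¹ • u, v⟫_ℝ • (‖u‖⁻¹ • u)))‖ₑ
      ≤ T (s • ‖u‖⁻¹ • u) * (ENNReal.ofReal s * (‖v‖ₑ * ‖u‖ₑ⁻¹)) := by gcongr
    _ = ENNReal.ofReal s * T (s • ‖u‖⁻¹ • u) * (‖v‖ₑ * ‖u‖ₑ⁻¹) := by ring

/-! ### Integration over pairs -/

theorem lpolar_hom (hN : 1 ≤ Module.finrank ℝ E) (K : E → ℝ≥0∞) (hK : Measurable K)
    (h : ℝ → ℝ≥0∞) (hh : Measurable h) :
    ∫⁻ x, h ‖x‖ * K (‖x‖⁻¹ • x) =
      (∫⁻ r, h r ∂(radL (Module.finrank ℝ E - 1))) * ∫⁻ w, K (w : E) ∂(sig E) := by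
  rw [lpolar hN _ (by fun_prop)]
  have h1 : ∀ w : Metric.sphere (0 : E) 1,
      ∫⁻ r, h ‖r • (w : E)‖ * K (‖r • (w : E)‖⁻¹ • r • (w : E)) ∂(radL (Module.finrank ℝ E - 1))
      = (∫⁻ r, h r ∂(radL (Module.finrank ℝ E - 1))) * K (w : E) := by
    intro w
    rw [← lintegral_mul_const _ hh]
    refine lintegral_congr_ae ?_
    filter_upwards [ae_radL_pos (Module.finrank ℝ E - 1)] with r hr
    have hw : ‖(w : E)‖ = 1 := by simp
    rw [norm_smul, hw, mul_one, Real.norm_of_nonneg hr.le, smul_smul,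
      inv_mul_cancel₀ hr.ne', one_smul]
  simp_rw [h1]
  exact lintegral_const_mul _ (hK.comp measurable_subtype_coe)

theorem ae_linInd (hN : 2 ≤ Module.finrank ℝ E) :
    ∀ᵐ z ∂((volume : Measure E).prod volume), LinearIndependent ℝ ![z.1, z.2] := by
  have hnt : Nontrivial E := by
    have : 0 < Module.finrank ℝ E := by omega
    exact Module.finrank_pos_iff.mp this
  have hcl : IsClosed {z : E × E | ‖z.1‖ ^ 2 * ‖z.2‖ ^ 2 = ⟪z.1, z.2⟫_ℝ ^ 2} :=
    isClosed_eq (by fun_prop) (by fun_prop)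
  have hnull : ((volume : Measure E).prod volume)
      {z : E × E | ‖z.1‖ ^ 2 * ‖z.2‖ ^ 2 = ⟪z.1, z.2⟫_ℝ ^ 2} = 0 := by
    rw [Measure.measure_prod_null hcl.measurableSet]
    have h0 : ∀ᵐ x : E, x ≠ 0 := by
      rw [ae_iff]
      simp
    filter_upwards [h0] with x hx
    have hxn : ‖x‖ ≠ 0 := norm_ne_zero_iff.2 hx
    have hs : (Submodule.span ℝ {x} : Submodule ℝ E) ≠ ⊤ := by
      intro h
      have h1 : Module.finrank ℝ (Submodule.span ℝ {x} : Submodule ℝ E) ≤ 1 :=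
        (finrank_span_le_card {x}).trans (by simp)
      rw [h, finrank_top] at h1
      omega
    refine measure_mono_null ?_ (Measure.addHaar_submodule (volume : Measure E) _ hs)
    intro y hy
    simp only [mem_preimage, mem_ofPred_eq] at hy
    have h2 : ‖y - (⟪x, y⟫_ℝ / ‖x‖ ^ 2) • x‖ ^ 2 = 0 := by
      rw [@norm_sub_sq ℝ, norm_smul, mul_pow, inner_smul_right, real_inner_comm x y]
      simp only [Real.norm_eq_abs, sq_abs, RCLike.re_to_real]
      rw [real_inner_comm y x] at *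
      field_simp
      linear_combination hy
    have h3 : y = (⟪x, y⟫_ℝ / ‖x‖ ^ 2) • x := by
      have := pow_eq_zero_iff (two_ne_zero) |>.1 h2
      exact sub_eq_zero.1 (norm_eq_zero.1 this)
    rw [h3]
    exact Submodule.smul_mem _ _ (Submodule.mem_span_singleton_self x)
  have h4 : ∀ᵐ z ∂((volume : Measure E).prod volume),
      ¬ (‖z.1‖ ^ 2 * ‖z.2‖ ^ 2 = ⟪z.1, z.2⟫_ℝ ^ 2) := by
    rw [ae_iff]
    simpa using hnull
  filter_upwards [h4] with z hz
  rw [LinearIndependent.pair_iff]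
  intro a b hab
  have e1 : a * ‖z.1‖ ^ 2 + b * ⟪z.1, z.2⟫_ℝ = 0 := by
    have := congrArg (fun v => ⟪z.1, v⟫_ℝ) hab
    simpa [inner_add_right, inner_smul_right, real_inner_self_eq_norm_sq] using this
  have e2 : a * ⟪z.1, z.2⟫_ℝ + b * ‖z.2‖ ^ 2 = 0 := by
    have := congrArg (fun v => ⟪z.2, v⟫_ℝ) hab
    simpa [inner_add_right, inner_smul_right, real_inner_self_eq_norm_sq,
      real_inner_comm z.1 z.2] using this
  have hD : ‖z.1‖ ^ 2 * ‖z.2‖ ^ 2 - ⟪z.1, z.2⟫_ℝ ^ 2 ≠ 0 := sub_ne_zero.2 hz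
  constructor
  · have : a * (‖z.1‖ ^ 2 * ‖z.2‖ ^ 2 - ⟪z.1, z.2⟫_ℝ ^ 2) = 0 := by
      linear_combination ‖z.2‖ ^ 2 * e1 - ⟪z.1, z.2⟫_ℝ * e2
    exact (mul_eq_zero.1 this).resolve_right hD
  · have : b * (‖z.1‖ ^ 2 * ‖z.2‖ ^ 2 - ⟪z.1, z.2⟫_ℝ ^ 2) = 0 := by
      linear_combination ‖z.1‖ ^ 2 * e2 - ⟪z.1, z.2⟫_ℝ * e1
    exact (mul_eq_zero.1 this).resolve_right hD

/-- The unit ball of the pair space. -/
def BB (E : Type*) [NormedAddCommGroup E] : Set (E × E) := {z | ‖z.1‖ ^ 2 + ‖z.2‖ ^ 2 ≤ 1}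

theorem measurableSet_BB : MeasurableSet (BB E) := by
  have : IsClosed (BB E) := isClosed_le (by fun_prop) continuous_const
  exact this.measurableSet

theorem rot_norm (c s : ℝ) (hcs : c ^ 2 + s ^ 2 = 1) (z : E × E) :
    ‖c • z.1 + s • z.2‖ ^ 2 + ‖-s • z.1 + c • z.2‖ ^ 2 = ‖z.1‖ ^ 2 + ‖z.2‖ ^ 2 := by
  rw [@norm_add_sq ℝ, @norm_add_sq ℝ, norm_smul, norm_smul, norm_smul, norm_smul,
    inner_smul_left, inner_smul_left, inner_smul_right, inner_smul_right]
  simp only [Real.norm_eq_abs, mul_pow, sq_abs, conj_trivial, RCLike.re_to_real, abs_neg]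
  linear_combination (‖z.1‖ ^ 2 + ‖z.2‖ ^ 2) * hcs

theorem lint_rot {H : E × E → ℝ≥0∞} (hH : Measurable H) (c s : ℝ) (hs : s ≠ 0)
    (hcs : c ^ 2 + s ^ 2 = 1) :
    ∫⁻ z in BB E, H (c • z.1 + s • z.2, -s • z.1 + c • z.2) ∂((volume : Measure E).prod volume)
      = ∫⁻ z in BB E, H z ∂((volume : Measure E).prod volume) := by
  rw [← lintegral_indicator measurableSet_BB, ← lintegral_indicator measurableSet_BB]
  rw [← (rot_mp (E := E) c s hs hcs).lintegral_comp (hH.indicator measurableSet_BB)]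
  refine lintegral_congr fun z => ?_
  by_cases hz : z ∈ BB E
  · have hz' : (c • z.1 + s • z.2, -s • z.1 + c • z.2) ∈ BB E := by
      simp only [BB, mem_ofPred_eq] at hz ⊢
      rw [rot_norm c s hcs]
      exact hz
    rw [indicator_of_mem hz, indicator_of_mem hz']
  · have hz' : (c • z.1 + s • z.2, -s • z.1 + c • z.2) ∉ BB E := by
      simp only [BB, mem_ofPred_eq] at hz ⊢
      rw [rot_norm c s hcs]
      exact hz
    rw [indicator_of_notMem hz, indicator_of_notMem hz']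

/-- Poincare inequality on spheres in `L^1`, by rotations of pairs. -/
theorem rot_poincare (hN : 2 ≤ Module.finrank ℝ E) : ∃ C : ℝ≥0∞, C ≠ ⊤ ∧
    ∀ (f : E → ℝ), ContDiff ℝ 1 f → ∀ (T : E → ℝ≥0∞), Measurable T →
      (∀ y v : E, ⟪y, v⟫_ℝ = 0 → ‖fderiv ℝ f y v‖ₑ ≤ T y * ‖v‖ₑ) → ∀ s : ℝ, 0 < s →
      ∫⁻ w, ∫⁻ w', ‖f (s • (w' : E)) - f (s • (w : E))‖ₑ ∂(sig E) ∂(sig E)
        ≤ C * ENNReal.ofReal s * ∫⁻ w, T (s • (w : E)) ∂(sig E) := by
  have hN1 : 1 ≤ Module.finrank ℝ E := by omega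
  set n := Module.finrank ℝ E - 1 with hn
  set ch : ℝ≥0∞ := ∫⁻ r, (Iic (1 / 2 : ℝ)).indicator (fun _ => 1) r ∂(radL n) with hch
  set cv : ℝ≥0∞ := ∫⁻ y : E in Metric.closedBall 0 1, ‖y‖ₑ with hcv
  have hhm : Measurable ((Iic (1 / 2 : ℝ)).indicator (fun _ => (1 : ℝ≥0∞))) :=
    measurable_const.indicator measurableSet_Iic
  have hch0 : ch ≠ 0 := by
    rw [hch, lintegral_indicator_const measurableSet_Iic, one_mul]
    intro h0
    unfold radL at h0
    rw [withDensity_apply _ measurableSet_Iic] at h0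
    rw [lintegral_eq_zero_iff (by fun_prop)] at h0
    rw [Measure.restrict_restrict measurableSet_Iic] at h0
    have h1 : ∀ᵐ r ∂(volume.restrict (Iic (1 / 2 : ℝ) ∩ Ioi 0)), False := by
      have h2 : ∀ᵐ r ∂(volume.restrict (Iic (1 / 2 : ℝ) ∩ Ioi 0)), r ∈ Iic (1 / 2 : ℝ) ∩ Ioi 0 :=
        ae_restrict_mem (measurableSet_Iic.inter measurableSet_Ioi)
      filter_upwards [h0, h2] with r hr hr2
      have h3 : (0 : ℝ) < r ^ n := pow_pos hr2.2 n
      simp only [Pi.zero_apply, ENNReal.ofReal_eq_zero] at hr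
      linarith
    have h4 : (volume : Measure ℝ) (Iic (1 / 2 : ℝ) ∩ Ioi 0) = 0 := by
      have : volume.restrict (Iic (1 / 2 : ℝ) ∩ Ioi 0) = 0 := by
        rwa [ae_iff, not_false_eq_true, ofPred_true, Measure.measure_univ_eq_zero] at h1
      rwa [Measure.restrict_eq_zero] at this
    have h5 : Iic (1 / 2 : ℝ) ∩ Ioi 0 = Ioc 0 (1 / 2) := by
      ext x
      simp [and_comm]
    rw [h5, Real.volume_Ioc] at h4
    norm_num at h4
  have hchf : ch ≠ ⊤ := by
    rw [hch, lintegral_indicator_const measurableSet_Iic, one_mul]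
    unfold radL
    rw [withDensity_apply _ measurableSet_Iic, Measure.restrict_restrict measurableSet_Iic]
    have h5 : Iic (1 / 2 : ℝ) ∩ Ioi 0 = Ioc 0 (1 / 2) := by
      ext x
      simp [and_comm]
    rw [h5]
    have h6 : ∫⁻ r in Ioc (0 : ℝ) (1 / 2), ENNReal.ofReal (r ^ n) ≤
        ∫⁻ r in Ioc (0 : ℝ) (1 / 2), 1 := by
      refine setLIntegral_mono measurable_const fun r hr => ?_
      rw [← ENNReal.ofReal_one]
      refine ENNReal.ofReal_le_ofReal (pow_le_one₀ hr.1.le ?_)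
      linarith [hr.2]
    refine ne_of_lt (lt_of_le_of_lt h6 ?_)
    rw [setLIntegral_const, one_mul, Real.volume_Ioc]
    exact ENNReal.ofReal_lt_top
  have hcvf : cv ≠ ⊤ := by
    have : cv ≤ ∫⁻ y : E in Metric.closedBall 0 1, 1 := by
      refine setLIntegral_mono measurable_const fun y hy => ?_
      have : ‖y‖ ≤ 1 := by simpa using hy
      have h2 : ‖y‖ₑ ≤ ‖(1 : ℝ)‖ₑ := enorm_le_iff_norm_le.2 (by simpa using this)
      simpa using h2
    refine ne_of_lt (lt_of_le_of_lt this ?_)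
    rw [setLIntegral_const, one_mul]
    exact measure_closedBall_lt_top
  refine ⟨(ENNReal.ofReal (Real.pi / 2) * cv) * (ch * ch)⁻¹, ?_, ?_⟩
  · refine ENNReal.mul_ne_top (ENNReal.mul_ne_top ENNReal.ofReal_ne_top hcvf) ?_
    exact ENNReal.inv_ne_top.2 (mul_ne_zero hch0 hch0)
  intro f hf T hT hfT s hs
  have hfc := hf.continuous
  -- the double integral over pairs
  set D : E × E → ℝ≥0∞ := fun z => ‖f (s • (‖z.2‖⁻¹ • z.2)) - f (s • (‖z.1‖⁻¹ • z.1))‖ₑ with hD
  have hDm : Measurable D := by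
    have h1 : Measurable fun z : E × E => f (s • (‖z.2‖⁻¹ • z.2)) :=
      hfc.measurable.comp (by fun_prop)
    have h2 : Measurable fun z : E × E => f (s • (‖z.1‖⁻¹ • z.1)) :=
      hfc.measurable.comp (by fun_prop)
    exact (h1.sub h2).enorm
  -- upper bound
  have hup : ∫⁻ z in BB E, D z ∂((volume : Measure E).prod volume) ≤
      ENNReal.ofReal (Real.pi / 2) *
        ∫⁻ z in BB E, HH T s z ∂((volume : Measure E).prod volume) := by
    have hHm := measurable_HH hT s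
    have h1 : ∫⁻ z in BB E, D z ∂((volume : Measure E).prod volume) ≤
        ∫⁻ z in BB E, (∫⁻ t in Icc 0 (Real.pi / 2), HH T s
          (Real.cos t • z.1 + Real.sin t • z.2, -Real.sin t • z.1 + Real.cos t • z.2))
          ∂((volume : Measure E).prod volume) := by
      refine lintegral_mono_ae (ae_restrict_of_ae ?_)
      filter_upwards [ae_linInd hN] with z hz
      exact path_le hf hfT hs z.1 z.2 hz
    refine h1.trans ?_
    rw [lintegral_lintegral_swap]
    · have h2 : ∀ᵐ t ∂(volume.restrict (Icc 0 (Real.pi / 2))),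
          ∫⁻ z in BB E, HH T s (Real.cos t • z.1 + Real.sin t • z.2,
            -Real.sin t • z.1 + Real.cos t • z.2) ∂((volume : Measure E).prod volume)
          = ∫⁻ z in BB E, HH T s z ∂((volume : Measure E).prod volume) := by
        have h3 : ∀ᵐ t : ℝ, t ≠ 0 := by
          rw [ae_iff]
          simp
        filter_upwards [ae_restrict_of_ae h3, ae_restrict_mem measurableSet_Icc] with t ht ht2
        refine lint_rot hHm _ _ ?_ (by
          have := Real.sin_sq_add_cos_sq t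
          linarith)
        refine (Real.sin_pos_of_pos_of_lt_pi ?_ ?_).ne'
        · exact lt_of_le_of_ne ht2.1 (Ne.symm ht)
        · exact lt_of_le_of_lt ht2.2 (by linarith [Real.pi_pos])
      rw [lintegral_congr_ae h2, setLIntegral_const, Real.volume_Icc, sub_zero, mul_comm]
    · refine Measurable.aemeasurable ?_
      have h4 : Measurable fun p : (E × E) × ℝ => ((Real.cos p.2 • p.1.1 + Real.sin p.2 • p.1.2,
          -Real.sin p.2 • p.1.1 + Real.cos p.2 • p.1.2) : E × E) := by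
        have : Continuous fun p : (E × E) × ℝ =>
          ((Real.cos p.2 • p.1.1 + Real.sin p.2 • p.1.2,
          -Real.sin p.2 • p.1.1 + Real.cos p.2 • p.1.2) : E × E) := by fun_prop
        exact this.measurable
      exact hHm.comp h4
  have hHup : ∫⁻ z in BB E, HH T s z ∂((volume : Measure E).prod volume) ≤
      cv * (ENNReal.ofReal s * ∫⁻ w, T (s • (w : E)) ∂(sig E)) := by
    set h : ℝ → ℝ≥0∞ := (Iic (1 : ℝ)).indicator (fun r => ‖r‖ₑ⁻¹) with hh
    have hhm : Measurable h := (by fun_prop : Measurable fun r : ℝ => ‖r‖ₑ⁻¹).indicator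
      measurableSet_Iic
    have hTm : Measurable fun x : E => T (s • (‖x‖⁻¹ • x)) := hT.comp (by fun_prop)
    have h1 : ∫⁻ z in BB E, HH T s z ∂((volume : Measure E).prod volume) ≤
        ∫⁻ z : E × E, (h ‖z.1‖ * (ENNReal.ofReal s * T (s • (‖z.1‖⁻¹ • z.1)))) *
          (Metric.closedBall (0 : E) 1).indicator (fun y => ‖y‖ₑ) z.2
          ∂((volume : Measure E).prod volume) := by
      rw [← lintegral_indicator measurableSet_BB]
      refine lintegral_mono fun z => ?_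
      by_cases hz : z ∈ BB E
      · rw [indicator_of_mem hz]
        simp only [BB, mem_ofPred_eq] at hz
        have h2 : ‖z.1‖ ≤ 1 := by nlinarith [norm_nonneg z.1, sq_nonneg ‖z.2‖]
        have h3 : ‖z.2‖ ≤ 1 := by nlinarith [norm_nonneg z.2, sq_nonneg ‖z.1‖]
        have h4 : z.2 ∈ Metric.closedBall (0 : E) 1 := by simpa using h3
        rw [indicator_of_mem h4, hh, indicator_of_mem (show ‖z.1‖ ∈ Iic (1 : ℝ) from h2)]
        unfold HH
        rw [enorm_norm]
        refine le_of_eq ?_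
        ring
      · rw [indicator_of_notMem hz]
        exact zero_le
    refine h1.trans ?_
    have hm2 : Measurable fun x : E => h ‖x‖ * (ENNReal.ofReal s * T (s • (‖x‖⁻¹ • x))) := by
      have a1 : Measurable fun x : E => h ‖x‖ := hhm.comp (by fun_prop)
      exact a1.mul (measurable_const.mul hTm)
    have hm3 : Measurable ((Metric.closedBall (0 : E) 1).indicator (fun y => ‖y‖ₑ)) :=
      (by fun_prop : Measurable fun y : E => ‖y‖ₑ).indicator
        Metric.isClosed_closedBall.measurableSet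
    have hpm := lintegral_prod_mul (μ := (volume : Measure E)) (ν := (volume : Measure E))
      hm2.aemeasurable hm3.aemeasurable
    rw [hpm, lintegral_indicator Metric.isClosed_closedBall.measurableSet, ← hcv, mul_comm]
    gcongr
    have h5 := lpolar_hom hN1 (fun x : E => ENNReal.ofReal s * T (s • x))
      (measurable_const.mul (hT.comp (by fun_prop))) h hhm
    rw [h5]
    have h6 : ∫⁻ r, h r ∂(radL n) ≤ 1 := by
      unfold radL
      rw [lintegral_withDensity_eq_lintegral_mul _ (by fun_prop) hhm]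
      have h7 : ∫⁻ r in Ioi (0 : ℝ), ((fun r => ENNReal.ofReal (r ^ n)) * h) r ≤
          ∫⁻ r in Ioi (0 : ℝ), (Iic (1 : ℝ)).indicator (fun _ => 1) r := by
        refine setLIntegral_mono (measurable_const.indicator measurableSet_Iic) fun r hr => ?_
        rw [Pi.mul_apply, hh]
        by_cases h8 : r ∈ Iic (1 : ℝ)
        · rw [indicator_of_mem h8, indicator_of_mem h8]
          have hr0 : (0 : ℝ) < r := hr
          have hr1 : r ≤ 1 := h8
          rw [Real.enorm_of_nonneg hr0.le, ← div_eq_mul_inv]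
          refine ENNReal.div_le_of_le_mul ?_
          rw [one_mul]
          refine ENNReal.ofReal_le_ofReal ?_
          calc r ^ n ≤ r ^ 1 := pow_le_pow_of_le_one hr0.le hr1 (by omega)
            _ = r := pow_one r
        · rw [indicator_of_notMem h8, mul_zero]
          exact zero_le
      refine h7.trans ?_
      rw [lintegral_indicator_const measurableSet_Iic, one_mul,
        Measure.restrict_apply measurableSet_Iic]
      have h5 : Iic (1 : ℝ) ∩ Ioi 0 = Ioc 0 1 := by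
        ext x
        simp [and_comm]
      rw [h5, Real.volume_Ioc]
      simp
    have hTw : Measurable fun w : Metric.sphere (0 : E) 1 => T (s • (w : E)) :=
      hT.comp (by fun_prop : Measurable fun w : Metric.sphere (0 : E) 1 => s • (w : E))
    rw [lintegral_const_mul _ hTw]
    calc (∫⁻ r, h r ∂(radL n)) * (ENNReal.ofReal s * ∫⁻ w, T (s • (w : E)) ∂(sig E))
        ≤ 1 * (ENNReal.ofReal s * ∫⁻ w, T (s • (w : E)) ∂(sig E)) := by gcongr
      _ = _ := one_mul _
  -- lower bound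
  have hlow : ch * ch * ∫⁻ w, ∫⁻ w', ‖f (s • (w' : E)) - f (s • (w : E))‖ₑ ∂(sig E) ∂(sig E) ≤
      ∫⁻ z in BB E, D z ∂((volume : Measure E).prod volume) := by
    set h : ℝ → ℝ≥0∞ := (Iic (1 / 2 : ℝ)).indicator (fun _ => 1) with hh
    have h1 : ∫⁻ z : E × E, h ‖z.1‖ * (h ‖z.2‖ * D z) ∂((volume : Measure E).prod volume) ≤
        ∫⁻ z in BB E, D z ∂((volume : Measure E).prod volume) := by
      rw [← lintegral_indicator measurableSet_BB]
      refine lintegral_mono fun z => ?_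
      by_cases hz1 : ‖z.1‖ ∈ Iic (1 / 2 : ℝ)
      · by_cases hz2 : ‖z.2‖ ∈ Iic (1 / 2 : ℝ)
        · have hz : z ∈ BB E := by
            simp only [BB, mem_ofPred_eq]
            have h2 : ‖z.1‖ ≤ 1 / 2 := hz1
            have h3 : ‖z.2‖ ≤ 1 / 2 := hz2
            nlinarith [norm_nonneg z.1, norm_nonneg z.2]
          rw [indicator_of_mem hz, hh, indicator_of_mem hz1, indicator_of_mem hz2, one_mul,
            one_mul]
        · rw [hh, indicator_of_notMem hz2, zero_mul, mul_zero]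
          exact zero_le
      · rw [hh, indicator_of_notMem hz1, zero_mul]
        exact zero_le
    refine le_trans (le_of_eq ?_) h1
    have hm1 : Measurable fun z : E × E => h ‖z.1‖ * (h ‖z.2‖ * D z) := by
      have a1 : Measurable fun z : E × E => h ‖z.1‖ := hhm.comp (by fun_prop)
      have a2 : Measurable fun z : E × E => h ‖z.2‖ := hhm.comp (by fun_prop)
      exact a1.mul (a2.mul hDm)
    rw [lintegral_prod _ hm1.aemeasurable]
    have h2 : ∀ x : E, ∫⁻ y, h ‖x‖ * (h ‖y‖ * D (x, y)) = h ‖x‖ * (ch *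
        ∫⁻ w' : Metric.sphere (0 : E) 1, ‖f (s • (w' : E)) - f (s • (‖x‖⁻¹ • x))‖ₑ ∂(sig E)) := by
      intro x
      have hK : Measurable fun y : E => ‖f (s • y) - f (s • (‖x‖⁻¹ • x))‖ₑ := by
        have : Continuous fun y : E => f (s • y) - f (s • (‖x‖⁻¹ • x)) := by fun_prop
        exact this.measurable.enorm
      have h3 := lpolar_hom hN1 (fun y : E => ‖f (s • y) - f (s • (‖x‖⁻¹ • x))‖ₑ) hK h hhm
      rw [lintegral_const_mul]
      · rw [← h3]
      · have a2 : Measurable fun y : E => h ‖y‖ := hhm.comp (by fun_prop)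
        exact a2.mul (hDm.comp (by fun_prop))
    simp_rw [h2]
    have hK2 : Measurable fun x : E => ch *
        ∫⁻ w' : Metric.sphere (0 : E) 1, ‖f (s • (w' : E)) - f (s • x)‖ₑ ∂(sig E) := by
      refine measurable_const.mul ?_
      refine Measurable.lintegral_prod_right' (f := fun p : E × Metric.sphere (0 : E) 1 =>
        ‖f (s • (p.2 : E)) - f (s • p.1)‖ₑ) ?_
      have : Continuous fun p : E × Metric.sphere (0 : E) 1 =>
        f (s • (p.2 : E)) - f (s • p.1) := by fun_prop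
      exact this.measurable.enorm
    have h4 := lpolar_hom hN1 (fun x : E => ch *
        ∫⁻ w' : Metric.sphere (0 : E) 1, ‖f (s • (w' : E)) - f (s • x)‖ₑ ∂(sig E)) hK2 h hhm
    rw [h4, lintegral_const_mul]
    · ring
    · refine Measurable.lintegral_prod_right' (f := fun p : Metric.sphere (0 : E) 1 ×
        Metric.sphere (0 : E) 1 => ‖f (s • (p.2 : E)) - f (s • (p.1 : E))‖ₑ) ?_
      have : Continuous fun p : Metric.sphere (0 : E) 1 × Metric.sphere (0 : E) 1 =>
        f (s • (p.2 : E)) - f (s • (p.1 : E)) := by fun_prop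
      exact this.measurable.enorm
  have hfin := (hlow.trans hup).trans (mul_le_mul_right hHup (ENNReal.ofReal (Real.pi / 2)))
  have hcc0 : ch * ch ≠ 0 := mul_ne_zero hch0 hch0
  have hccf : ch * ch ≠ ⊤ := ENNReal.mul_ne_top hchf hchf
  have h9 : ∫⁻ w, ∫⁻ w', ‖f (s • (w' : E)) - f (s • (w : E))‖ₑ ∂(sig E) ∂(sig E) ≤
      (ENNReal.ofReal (Real.pi / 2) * (cv * (ENNReal.ofReal s *
        ∫⁻ w, T (s • (w : E)) ∂(sig E)))) / (ch * ch) := by
    rw [ENNReal.le_div_iff_mul_le (Or.inl hcc0) (Or.inl hccf), mul_comm]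
    exact hfin
  refine h9.trans (le_of_eq ?_)
  rw [div_eq_mul_inv]
  ring

end

end Pool.Agent.Work.MP_3b24f6_gt
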