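import Pool.Agent.Work.MP_3b24f6_gt.Model

set_option autoImplicit false

open MeasureTheory Set Filter Topology Asymptotics
open scoped ContDiff InnerProductSpace

namespace Pool.Agent.Work.MP_3b24f6_gt

noncomputable section

variable {E : Type*} [NormedAddCommGroup E] [InnerProductSpace ℝ E] [FiniteDimensional ℝ E]
variable [MeasurableSpace E] [BorelSpace E]

/-- `D` is volume-preserving stable: for every smooth family of smooth bounded domains `D_t`
with `D_0 = D` and `vol D_t = vol D + o(t²)` one has `area D_t ≥ area D - o(t²)`. That is, `D` is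
critical for the boundary area under volume preserving variations (its boundary has constant mean
curvature) and the second variation of area is nonnegative on them. -/
def StableCMC (G : Geo E) (D : Set E) : Prop :=
  ∀ F : ℝ → E → ℝ, ContDiff ℝ ∞ (fun p : ℝ × E => F p.1 p.2) →
    (∀ᶠ t in 𝓝 (0 : ℝ), IsReg (F t)) →
    (∃ K, IsCompact K ∧ ∀ᶠ t in 𝓝 (0 : ℝ), {x | F t x < 0} ⊆ K) →
    {x | F 0 x < 0} = D →
    (fun t => (G.vol {x | F t x < 0}).toReal - (G.vol D).toReal) =o[𝓝 0] (fun t : ℝ => t ^ 2) →
    ∀ ε > 0, ∀ᶠ t in 𝓝 (0 : ℝ),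
      (G.area D).toReal - ε * t ^ 2 ≤ (G.area {x | F t x < 0}).toReal

end

end Pool.Agent.Work.MP_3b24f6_gt
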