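import Pool.Agent.Work.MP_3b24f6_gt.Model

set_option autoImplicit false
set_option linter.unusedSectionVars false

open MeasureTheory Set Filter Topology
open scoped ContDiff InnerProductSpace Manifold

namespace Pool.Agent.Work.MP_3b24f6_gt

noncomputable section

variable {E : Type*} [NormedAddCommGroup E] [InnerProductSpace ℝ E] [FiniteDimensional ℝ E]

namespace Var

/-- The variation. -/
def wt (w φ ψ : E → ℝ) (σ t : ℝ) (z : E) : ℝ := w z - t * φ z - σ * t ^ 2 * ψ z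

/-- Data of a variation: cutoff and time interval. -/
structure Dat (w φ ψ : E → ℝ) (σ t0 : ℝ) (χ : E → ℝ) : Prop where
  pos : 0 < t0
  reg : IsReg w
  smooth_φ : ContDiff ℝ ∞ φ
  smooth_ψ : ContDiff ℝ ∞ ψ
  cpt_φ : HasCompactSupport φ
  cpt_ψ : HasCompactSupport ψ
  smooth_χ : ContDiff ℝ ∞ χ
  cpt_χ : HasCompactSupport χ
  one : ∀ᶠ x in 𝓝ˢ (surf w ∪ (tsupport φ ∪ tsupport ψ)), χ x = 1
  ne : ∀ t ∈ Ioo (-t0) t0, ∀ x ∈ tsupport χ, fderiv ℝ (wt w φ ψ σ t) x ≠ 0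

/-! Block C -/

theorem fderiv_wt {w φ ψ : E → ℝ} (hw : ContDiff ℝ ∞ w) (hφ : ContDiff ℝ ∞ φ)
    (hψ : ContDiff ℝ ∞ ψ) (σ t : ℝ) (x : E) :
    fderiv ℝ (wt w φ ψ σ t) x = fderiv ℝ w x - t • fderiv ℝ φ x - (σ * t ^ 2) • fderiv ℝ ψ x := by
  have h1 : HasFDerivAt w (fderiv ℝ w x) x := (hw.differentiable (by simp) x).hasFDerivAt
  have h2 : HasFDerivAt φ (fderiv ℝ φ x) x := (hφ.differentiable (by simp) x).hasFDerivAt
  have h3 : HasFDerivAt ψ (fderiv ℝ ψ x) x := (hψ.differentiable (by simp) x).hasFDerivAt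
  exact ((h1.sub (h2.const_mul t)).sub (h3.const_mul (σ * t ^ 2))).fderiv

theorem exists_dat {w φ ψ : E → ℝ} (hw : IsReg w) (hφ : ContDiff ℝ ∞ φ) (hψ : ContDiff ℝ ∞ ψ)
    (hφc : HasCompactSupport φ) (hψc : HasCompactSupport ψ)
    (hφs : ∀ z ∈ tsupport φ, fderiv ℝ w z ≠ 0) (hψs : ∀ z ∈ tsupport ψ, fderiv ℝ w z ≠ 0)
    (σ : ℝ) : ∃ t0 χ, Dat w φ ψ σ t0 χ := by
  have hsurf : IsCompact (surf w) := by
    refine hw.cpt.of_isClosed_subset ?_ ?_
    · exact isClosed_eq hw.smooth.continuous continuous_const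
    · intro x hx
      have hx' : w x = 0 := hx
      exact hx'.le
  have hK0 : IsCompact (surf w ∪ (tsupport φ ∪ tsupport ψ)) :=
    hsurf.union (IsCompact.union hφc hψc)
  have hdw : Continuous (fun x => fderiv ℝ w x) := hw.smooth.continuous_fderiv (by simp)
  have hdφ : Continuous (fun x => fderiv ℝ φ x) := hφ.continuous_fderiv (by simp)
  have hdψ : Continuous (fun x => fderiv ℝ ψ x) := hψ.continuous_fderiv (by simp)
  have hUo : IsOpen {x | fderiv ℝ w x ≠ 0} := isOpen_ne_fun hdw continuous_const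
  have hKU : surf w ∪ (tsupport φ ∪ tsupport ψ) ⊆ {x | fderiv ℝ w x ≠ 0} := by
    rintro x (hx | hx | hx)
    · exact hw.reg x hx
    · exact hφs x hx
    · exact hψs x hx
  obtain ⟨L, hL, hKL, hLU⟩ := exists_compact_between hK0 hUo hKU
  obtain ⟨f, hf1, hf0, -⟩ := exists_contMDiffMap_one_nhds_of_subset_interior
    (I := 𝓘(ℝ, E)) (n := (⊤ : ℕ∞)) hK0.isClosed hKL
  have hχs : ContDiff ℝ ∞ (fun x => f x) := f.contMDiff.contDiff
  have hsup : tsupport (fun x => f x) ⊆ L := by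
    refine closure_minimal ?_ hL.isClosed
    intro x hx
    by_contra h
    exact hx (hf0 x h)
  have hχc : HasCompactSupport (fun x => f x) :=
    hL.of_isClosed_subset (isClosed_tsupport _) hsup
  -- time interval
  have hF : Continuous (fun p : ℝ × E => fderiv ℝ w p.2 - p.1 • fderiv ℝ φ p.2
      - (σ * p.1 ^ 2) • fderiv ℝ ψ p.2) := by
    refine ((hdw.comp continuous_snd).sub (continuous_fst.smul (hdφ.comp continuous_snd))).sub
      ((continuous_const.mul (continuous_fst.pow 2)).smul (hdψ.comp continuous_snd))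
  have hFo : IsOpen {p : ℝ × E | fderiv ℝ w p.2 - p.1 • fderiv ℝ φ p.2
      - (σ * p.1 ^ 2) • fderiv ℝ ψ p.2 ≠ 0} := isOpen_ne_fun hF continuous_const
  obtain ⟨u, v, hu, -, h0u, hLv, huv⟩ := generalized_tube_lemma (isCompact_singleton (x := (0 : ℝ)))
    hL hFo (by
      rintro ⟨t, x⟩ ⟨ht, hx⟩
      have ht' : t = 0 := ht
      subst ht'
      simpa using hLU hx)
  obtain ⟨t0, ht0, hball⟩ := Metric.isOpen_iff.mp hu 0 (h0u rfl)
  refine ⟨t0, fun x => f x, ht0, hw, hφ, hψ, hφc, hψc, hχs, hχc, hf1, ?_⟩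
  intro t ht x hx
  rw [fderiv_wt hw.smooth hφ hψ]
  have : (t, x) ∈ u ×ˢ v := by
    refine ⟨hball ?_, hLv (hsup hx)⟩
    rw [Metric.mem_ball, Real.dist_0_eq_abs, abs_lt]
    exact ht
  exact huv this

section
variable {w φ ψ χ : E → ℝ} {σ t0 : ℝ} (D : Dat w φ ψ σ t0 χ)
include D

theorem Dat.smooth_wt : ContDiffOn ℝ ∞ (fun p : ℝ × E => wt w φ ψ σ p.1 p.2)
    (Ioo (-t0) t0 ×ˢ univ) := by
  have h : ContDiff ℝ ∞ (fun p : ℝ × E => wt w φ ψ σ p.1 p.2) := by
    unfold wt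
    exact ((D.reg.smooth.comp contDiff_snd).sub (contDiff_fst.mul (D.smooth_φ.comp contDiff_snd))).sub
      ((contDiff_const.mul (contDiff_fst.pow 2)).mul (D.smooth_ψ.comp contDiff_snd))
  exact h.contDiffOn

theorem Dat.mem_tsupport {x : E} (hx : x ∈ surf w ∪ (tsupport φ ∪ tsupport ψ)) :
    x ∈ tsupport χ := by
  have h : χ x = 1 := D.one.self_of_nhdsSet x hx
  exact subset_tsupport χ (by simp [h])

theorem Dat.cases {t : ℝ} {x : E} (hx : x ∉ tsupport χ) : wt w φ ψ σ t x = w x := by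
  have h1 : x ∉ tsupport φ := fun h => hx (D.mem_tsupport (Or.inr (Or.inl h)))
  have h2 : x ∉ tsupport ψ := fun h => hx (D.mem_tsupport (Or.inr (Or.inr h)))
  simp [wt, image_eq_zero_of_notMem_tsupport h1, image_eq_zero_of_notMem_tsupport h2]

theorem Dat.mem_K {t : ℝ} {x : E} (hx : wt w φ ψ σ t x ≤ 0) :
    x ∈ {x | w x ≤ 0} ∪ tsupport χ := by
  by_cases h : x ∈ tsupport χ
  · exact Or.inr h
  · rw [D.cases h] at hx
    exact Or.inl hx

theorem Dat.mem_set {t : ℝ} {x : E} (hx : wt w φ ψ σ t x = 0) :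
    x ∈ surf w ∪ (tsupport φ ∪ tsupport ψ) := by
  by_cases h1 : x ∈ tsupport φ
  · exact Or.inr (Or.inl h1)
  by_cases h2 : x ∈ tsupport ψ
  · exact Or.inr (Or.inr h2)
  left
  have : wt w φ ψ σ t x = w x := by
    simp [wt, image_eq_zero_of_notMem_tsupport h1, image_eq_zero_of_notMem_tsupport h2]
  rw [this] at hx
  exact hx

theorem Dat.one_near {t : ℝ} {x : E} (hx : wt w φ ψ σ t x = 0) : χ =ᶠ[𝓝 x] fun _ => 1 :=
  D.one.filter_mono (nhds_le_nhdsSet (D.mem_set hx))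

theorem Dat.isReg {t : ℝ} (ht : t ∈ Ioo (-t0) t0) : IsReg (wt w φ ψ σ t) := by
  have hs : ContDiff ℝ ∞ (wt w φ ψ σ t) := by
    unfold wt
    exact (D.reg.smooth.sub (contDiff_const.mul D.smooth_φ)).sub (contDiff_const.mul D.smooth_ψ)
  refine ⟨hs, ?_, ?_⟩
  · refine (D.reg.cpt.union D.cpt_χ).of_isClosed_subset ?_ ?_
    · exact isClosed_le hs.continuous continuous_const
    · intro x hx
      exact D.mem_K hx
  · intro x hx
    exact D.ne t ht x (D.mem_tsupport (D.mem_set hx))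

end

end Var

end

end Pool.Agent.Work.MP_3b24f6_gt
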