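import Pool.Agent.Work.MP_3b24f6_gt.Model

set_option autoImplicit false
set_option linter.unusedSectionVars false

open MeasureTheory Set Filter Topology
open scoped ContDiff InnerProductSpace

namespace Pool.Agent.Work.MP_3b24f6_gt

noncomputable section

variable {E : Type*} [NormedAddCommGroup E] [InnerProductSpace ℝ E] [FiniteDimensional ℝ E]

namespace Var

/-- trace as a continuous linear map. -/
def trL : (E →L[ℝ] E) →L[ℝ] ℝ :=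
  LinearMap.toContinuousLinearMap
    ((LinearMap.trace ℝ E).comp (ContinuousLinearMap.coeLM ℝ))

theorem trL_apply (T : E →L[ℝ] E) : trL T = tr T := rfl

theorem tr_add (S T : E →L[ℝ] E) : tr (S + T) = tr S + tr T := by
  rw [← trL_apply, map_add]; rfl

theorem tr_smul (c : ℝ) (T : E →L[ℝ] E) : tr (c • T) = c * tr T := by
  rw [← trL_apply, map_smul]; rfl

variable {X : Type*} [NormedAddCommGroup X] [NormedSpace ℝ X]

theorem two_le_infty : minSmoothness ℝ 2 ≤ (∞ : WithTop ℕ∞) := by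
  rw [minSmoothness_of_isRCLikeNormedField]
  exact WithTop.coe_le_coe.2 (le_top : (2 : ℕ∞) ≤ ⊤)

omit [InnerProductSpace ℝ E] [FiniteDimensional ℝ E] in
theorem isOpen_dom (t0 : ℝ) : IsOpen (Ioo (-t0) t0 ×ˢ (univ : Set E)) :=
  isOpen_Ioo.prod isOpen_univ

theorem cda {t0 : ℝ} {F : ℝ × E → X} (hF : ContDiffOn ℝ ∞ F (Ioo (-t0) t0 ×ˢ univ))
    {t : ℝ} (ht : t ∈ Ioo (-t0) t0) (x : E) : ContDiffAt ℝ ∞ F (t, x) :=
  hF.contDiffAt ((isOpen_dom t0).mem_nhds ⟨ht, mem_univ _⟩)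

theorem smooth_slice {t0 : ℝ} {Z : ℝ → E → X}
    (hZ : ContDiffOn ℝ ∞ (fun p : ℝ × E => Z p.1 p.2) (Ioo (-t0) t0 ×ˢ univ))
    {t : ℝ} (ht : t ∈ Ioo (-t0) t0) : ContDiff ℝ ∞ (Z t) := by
  rw [contDiff_iff_contDiffAt]
  intro x
  exact (cda hZ ht x).comp x (contDiffAt_const.prodMk contDiffAt_id)

theorem fderiv_slice {t0 : ℝ} {Z : ℝ → E → X}
    (hZ : ContDiffOn ℝ ∞ (fun p : ℝ × E => Z p.1 p.2) (Ioo (-t0) t0 ×ˢ univ))
    {t : ℝ} (ht : t ∈ Ioo (-t0) t0) (x : E) :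
    fderiv ℝ (Z t) x = (fderiv ℝ (fun p : ℝ × E => Z p.1 p.2) (t, x)).comp
      (ContinuousLinearMap.inr ℝ ℝ E) := by
  have h1 : HasFDerivAt (fun p : ℝ × E => Z p.1 p.2)
      (fderiv ℝ (fun p : ℝ × E => Z p.1 p.2) (t, x)) (t, x) :=
    ((cda hZ ht x).differentiableAt (by simp)).hasFDerivAt
  have h2 : HasFDerivAt (fun y : E => (t, y)) (ContinuousLinearMap.inr ℝ ℝ E) x :=
    hasFDerivAt_prodMk_right t x
  exact (h1.comp x h2).fderiv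

theorem deriv_slice {t0 : ℝ} {Z : ℝ → E → X}
    (hZ : ContDiffOn ℝ ∞ (fun p : ℝ × E => Z p.1 p.2) (Ioo (-t0) t0 ×ˢ univ))
    {t : ℝ} (ht : t ∈ Ioo (-t0) t0) (x : E) :
    HasDerivAt (fun s => Z s x) (fderiv ℝ (fun p : ℝ × E => Z p.1 p.2) (t, x) (1, 0)) t := by
  have h1 : HasFDerivAt (fun p : ℝ × E => Z p.1 p.2)
      (fderiv ℝ (fun p : ℝ × E => Z p.1 p.2) (t, x)) (t, x) :=
    ((cda hZ ht x).differentiableAt (by simp)).hasFDerivAt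
  have h2 : HasFDerivAt (fun s : ℝ => (s, x)) (ContinuousLinearMap.inl ℝ ℝ E) t :=
    hasFDerivAt_prodMk_left t x
  have h4 : HasFDerivAt (fun s => Z s x) ((fderiv ℝ (fun p : ℝ × E => Z p.1 p.2) (t, x)).comp
      (ContinuousLinearMap.inl ℝ ℝ E)) t :=
    HasFDerivAt.comp (g := fun p : ℝ × E => Z p.1 p.2) (f := fun s : ℝ => (s, x)) t h1 h2
  have h3 := h4.hasDerivAt
  simpa using h3

theorem smooth_fderiv {t0 : ℝ} {F : ℝ × E → X}
    (hF : ContDiffOn ℝ ∞ F (Ioo (-t0) t0 ×ˢ univ)) :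
    ContDiffOn ℝ ∞ (fderiv ℝ F) (Ioo (-t0) t0 ×ˢ univ) :=
  hF.fderiv_of_isOpen (isOpen_dom t0) (by simp)

theorem smooth_dx {t0 : ℝ} {Z : ℝ → E → X}
    (hZ : ContDiffOn ℝ ∞ (fun p : ℝ × E => Z p.1 p.2) (Ioo (-t0) t0 ×ˢ univ)) :
    ContDiffOn ℝ ∞ (fun p : ℝ × E => fderiv ℝ (Z p.1) p.2) (Ioo (-t0) t0 ×ˢ univ) := by
  have h := smooth_fderiv hZ
  have h2 : ContDiffOn ℝ ∞ (fun p : ℝ × E => (fderiv ℝ (fun p : ℝ × E => Z p.1 p.2) p).comp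
      (ContinuousLinearMap.inr ℝ ℝ E)) (Ioo (-t0) t0 ×ˢ univ) :=
    h.clm_comp contDiffOn_const
  refine h2.congr ?_
  rintro ⟨t, x⟩ ⟨ht, -⟩
  exact fderiv_slice hZ ht x

theorem smooth_dt {t0 : ℝ} {Z : ℝ → E → X}
    (hZ : ContDiffOn ℝ ∞ (fun p : ℝ × E => Z p.1 p.2) (Ioo (-t0) t0 ×ˢ univ)) :
    ContDiffOn ℝ ∞ (fun p : ℝ × E => deriv (fun s => Z s p.2) p.1) (Ioo (-t0) t0 ×ˢ univ) := by
  have h := smooth_fderiv hZ
  have h2 : ContDiffOn ℝ ∞ (fun p : ℝ × E => fderiv ℝ (fun p : ℝ × E => Z p.1 p.2) p (1, 0))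
      (Ioo (-t0) t0 ×ˢ univ) :=
    h.clm_apply contDiffOn_const
  refine h2.congr ?_
  rintro ⟨t, x⟩ ⟨ht, -⟩
  exact (deriv_slice hZ ht x).deriv

theorem smooth_divE {t0 : ℝ} {Z : ℝ → E → E}
    (hZ : ContDiffOn ℝ ∞ (fun p : ℝ × E => Z p.1 p.2) (Ioo (-t0) t0 ×ˢ univ)) :
    ContDiffOn ℝ ∞ (fun p : ℝ × E => divE (Z p.1) p.2) (Ioo (-t0) t0 ×ˢ univ) :=
  (trL (E := E)).contDiff.comp_contDiffOn (smooth_dx hZ)

/-- derivative in `t` of the space derivative. -/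
theorem hasDerivAt_fderiv {t0 : ℝ} {Z : ℝ → E → X}
    (hZ : ContDiffOn ℝ ∞ (fun p : ℝ × E => Z p.1 p.2) (Ioo (-t0) t0 ×ˢ univ))
    {t : ℝ} (ht : t ∈ Ioo (-t0) t0) (x : E) :
    HasDerivAt (fun s => fderiv ℝ (Z s) x) (fderiv ℝ (fun y => deriv (fun s => Z s y) t) x) t := by
  set F : ℝ × E → X := fun p => Z p.1 p.2 with hF
  have hFat := cda hZ ht x
  have hsym : IsSymmSndFDerivAt ℝ F (t, x) := hFat.isSymmSndFDerivAt two_le_infty
  have h1 := deriv_slice (Z := fun s y => fderiv ℝ (Z s) y) (smooth_dx hZ) ht x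
  have h2 := fderiv_slice (Z := fun t y => deriv (fun s => Z s y) t) (smooth_dt hZ) ht x
  have hd : HasFDerivAt (fderiv ℝ F) (fderiv ℝ (fderiv ℝ F) (t, x)) (t, x) :=
    ((cda (smooth_fderiv hZ) ht x).differentiableAt (by simp)).hasFDerivAt
  -- derivative of the x-derivative
  have e1 : fderiv ℝ (fun p : ℝ × E => fderiv ℝ (Z p.1) p.2) (t, x) (1, 0)
      = (fderiv ℝ (fderiv ℝ F) (t, x) (1, 0)).comp (ContinuousLinearMap.inr ℝ ℝ E) := by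
    have hev : (fun p : ℝ × E => fderiv ℝ (Z p.1) p.2) =ᶠ[𝓝 (t, x)]
        fun p => (fderiv ℝ F p).comp (ContinuousLinearMap.inr ℝ ℝ E) := by
      filter_upwards [(isOpen_dom t0).mem_nhds (⟨ht, mem_univ _⟩ : (t, x) ∈ Ioo (-t0) t0 ×ˢ univ)]
        with p hp
      exact fderiv_slice hZ hp.1 p.2
    rw [hev.fderiv_eq]
    have h3 : HasFDerivAt (fun p => (fderiv ℝ F p).comp (ContinuousLinearMap.inr ℝ ℝ E))
        (((ContinuousLinearMap.compL ℝ E (ℝ × E) X).flip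
          (ContinuousLinearMap.inr ℝ ℝ E)).comp (fderiv ℝ (fderiv ℝ F) (t, x))) (t, x) :=
      (((ContinuousLinearMap.compL ℝ E (ℝ × E) X).flip
          (ContinuousLinearMap.inr ℝ ℝ E)).hasFDerivAt).comp (t, x) hd
    rw [h3.fderiv]
    rfl
  have e2 : fderiv ℝ (fun p : ℝ × E => deriv (fun s => Z s p.2) p.1) (t, x)
      = (ContinuousLinearMap.apply ℝ X ((1, 0) : ℝ × E)).comp (fderiv ℝ (fderiv ℝ F) (t, x)) := by
    have hev : (fun p : ℝ × E => deriv (fun s => Z s p.2) p.1) =ᶠ[𝓝 (t, x)]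
        fun p => fderiv ℝ F p (1, 0) := by
      filter_upwards [(isOpen_dom t0).mem_nhds (⟨ht, mem_univ _⟩ : (t, x) ∈ Ioo (-t0) t0 ×ˢ univ)]
        with p hp
      exact (deriv_slice hZ hp.1 p.2).deriv
    rw [hev.fderiv_eq]
    have h3 : HasFDerivAt (fun p => fderiv ℝ F p (1, 0))
        ((ContinuousLinearMap.apply ℝ X ((1, 0) : ℝ × E)).comp (fderiv ℝ (fderiv ℝ F) (t, x)))
        (t, x) :=
      ((ContinuousLinearMap.apply ℝ X ((1, 0) : ℝ × E)).hasFDerivAt).comp (t, x) hd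
    rw [h3.fderiv]
  have e3 : fderiv ℝ (fun y => deriv (fun s => Z s y) t) x
      = (fderiv ℝ (fderiv ℝ F) (t, x) (1, 0)).comp (ContinuousLinearMap.inr ℝ ℝ E) := by
    rw [h2, e2]
    ext v
    exact hsym _ _
  rw [e3, ← e1]
  exact h1

theorem dt_divE {t0 : ℝ} {Z : ℝ → E → E}
    (hZ : ContDiffOn ℝ ∞ (fun p : ℝ × E => Z p.1 p.2) (Ioo (-t0) t0 ×ˢ univ))
    {t : ℝ} (ht : t ∈ Ioo (-t0) t0) (x : E) :
    deriv (fun s => divE (Z s) x) t = divE (fun y => deriv (fun s => Z s y) t) x := by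
  have h := (hasDerivAt_fderiv hZ ht x)
  have h2 := (trL (E := E)).hasFDerivAt.comp_hasDerivAt t h
  exact h2.deriv

end Var

end

end Pool.Agent.Work.MP_3b24f6_gt
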