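import Pool.Agent.Work.MP_3b24f6_gt.Area
import Pool.Agent.Work.MP_3b24f6_gt.Calc
import Pool.Agent.Work.MP_3b24f6_gt.CalcN
import Pool.Agent.Work.MP_3b24f6_gt.VarP
import Pool.Agent.Work.MP_3b24f6_gt.VarC

set_option autoImplicit false
set_option linter.unusedSectionVars false

open MeasureTheory Set Filter Topology
open scoped ContDiff InnerProductSpace

namespace Pool.Agent.Work.MP_3b24f6_gt

noncomputable section

variable {E : Type*} [NormedAddCommGroup E] [InnerProductSpace ℝ E] [FiniteDimensional ℝ E]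

namespace Var

theorem wt_zero (w φ ψ : E → ℝ) (σ : ℝ) : wt w φ ψ σ 0 = w := by
  funext z; simp [wt]

theorem deriv_wt (w φ ψ : E → ℝ) (σ t : ℝ) (z : E) :
    deriv (fun s => wt w φ ψ σ s z) t = -(φ z + 2 * σ * t * ψ z) := by
  have h : HasDerivAt (fun s => wt w φ ψ σ s z)
      (0 - 1 * φ z - σ * (2 * t) * ψ z) t := by
    unfold wt
    have h1 : HasDerivAt (fun s : ℝ => s ^ 2) (2 * t) t := by
      simpa using hasDerivAt_pow 2 t
    exact ((hasDerivAt_const t (w z)).sub ((hasDerivAt_id t).mul_const (φ z))).sub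
      ((h1.const_mul σ).mul_const (ψ z))
  rw [h.deriv]
  ring

theorem fderiv_nrm (G : Geo E) {w : E → ℝ} {z : E} (_ : fderiv ℝ w z ≠ 0) :
    fderiv ℝ w z (G.nrm w z) = G.gn w z := AreaAux.dw_nrm G w z

theorem fderiv_Ndot (G : Geo E) {w : E → ℝ} {z : E} (hz : fderiv ℝ w z ≠ 0) (f : E → ℝ) :
    fderiv ℝ w z (Ndot G w f z) = 0 := by
  have h1 := gn_pos G hz
  have h2 : fderiv ℝ w z (G.grad f z) = G.gn w z * G.g z (G.grad f z) (G.nrm w z) := by
    rw [← CN.geo_g_grad G w z (G.grad f z), CN.geo_grad_eq G z hz, CN.geo_g_smul_left,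
      CN.geo_g_symm G z (G.nrm w z)]
  rw [Ndot, map_smul, map_sub, map_smul, AreaAux.dw_nrm G w z, h2, smul_eq_mul, smul_eq_mul]
  ring

section
variable (G : Geo E) {w φ ψ χ : E → ℝ} {σ t0 : ℝ} (D : Dat w φ ψ σ t0 χ)
include D

theorem Dat.cda_gradient {t : ℝ} (ht : t ∈ Ioo (-t0) t0) (x : E) :
    ContDiffAt ℝ ∞ (fun p : ℝ × E => gradient (wt w φ ψ σ p.1) p.2) (t, x) := by
  have h1 := cda (smooth_dx D.smooth_wt) ht x
  exact ((InnerProductSpace.toDual ℝ E).symm.toContinuousLinearEquiv.contDiff.contDiffAt).comp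
    (t, x) h1

theorem Dat.cda_grad {t : ℝ} (ht : t ∈ Ioo (-t0) t0) (x : E) :
    ContDiffAt ℝ ∞ (fun p : ℝ × E => G.grad (wt w φ ψ σ p.1) p.2) (t, x) := by
  have h1 : ContDiffAt ℝ ∞ (fun p : ℝ × E => G.C p.2) (t, x) :=
    (G.smooth_C.comp contDiff_snd).contDiffAt
  exact h1.clm_apply (D.cda_gradient ht x)

theorem Dat.cda_gn {t : ℝ} (ht : t ∈ Ioo (-t0) t0) {x : E}
    (hx : fderiv ℝ (wt w φ ψ σ t) x ≠ 0) :
    ContDiffAt ℝ ∞ (fun p : ℝ × E => G.gn (wt w φ ψ σ p.1) p.2) (t, x) := by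
  have h1 : ContDiffAt ℝ ∞ (fun p : ℝ × E =>
      ⟪G.C p.2 (gradient (wt w φ ψ σ p.1) p.2), gradient (wt w φ ψ σ p.1) p.2⟫_ℝ) (t, x) :=
    (D.cda_grad G ht x).inner ℝ (D.cda_gradient ht x)
  refine h1.sqrt ?_
  exact (CN.geo_C_pos G x _ (CN.geo_gradient_ne_zero hx)).ne'

theorem Dat.smooth_N : ContDiffOn ℝ ∞
    (fun p : ℝ × E => χ p.2 • G.nrm (wt w φ ψ σ p.1) p.2) (Ioo (-t0) t0 ×ˢ univ) := by
  rintro ⟨t, x⟩ ⟨ht, -⟩
  refine ContDiffAt.contDiffWithinAt ?_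
  by_cases hx : x ∈ tsupport χ
  · have h0 := D.ne t ht x hx
    have h1 := D.cda_gn G ht h0
    have h2 : ContDiffAt ℝ ∞ (fun p : ℝ × E => (G.gn (wt w φ ψ σ p.1) p.2)⁻¹) (t, x) :=
      h1.inv (gn_pos G h0).ne'
    exact ((D.smooth_χ.comp contDiff_snd).contDiffAt).smul (h2.smul (D.cda_grad G ht x))
  · have h1 : (fun p : ℝ × E => χ p.2 • G.nrm (wt w φ ψ σ p.1) p.2) =ᶠ[𝓝 (t, x)] fun _ => 0 := by
      have h2 : ∀ᶠ p : ℝ × E in 𝓝 (t, x), p.2 ∉ tsupport χ := by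
        have h3 : IsOpen {p : ℝ × E | p.2 ∉ tsupport χ} :=
          (isClosed_tsupport χ).isOpen_compl.preimage continuous_snd
        exact h3.mem_nhds hx
      filter_upwards [h2] with p hp
      rw [image_eq_zero_of_notMem_tsupport hp, zero_smul]
    exact contDiffAt_const.congr_of_eventuallyEq h1

theorem Dat.smooth_gi : ContDiffOn ℝ ∞
    (fun p : ℝ × E => χ p.2 * (G.gn (wt w φ ψ σ p.1) p.2)⁻¹) (Ioo (-t0) t0 ×ˢ univ) := by
  rintro ⟨t, x⟩ ⟨ht, -⟩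
  refine ContDiffAt.contDiffWithinAt ?_
  by_cases hx : x ∈ tsupport χ
  · have h0 := D.ne t ht x hx
    have h1 := D.cda_gn G ht h0
    have h2 : ContDiffAt ℝ ∞ (fun p : ℝ × E => (G.gn (wt w φ ψ σ p.1) p.2)⁻¹) (t, x) :=
      h1.inv (gn_pos G h0).ne'
    exact ((D.smooth_χ.comp contDiff_snd).contDiffAt).mul h2
  · have h1 : (fun p : ℝ × E => χ p.2 * (G.gn (wt w φ ψ σ p.1) p.2)⁻¹)
        =ᶠ[𝓝 (t, x)] fun _ => 0 := by
      have h2 : ∀ᶠ p : ℝ × E in 𝓝 (t, x), p.2 ∉ tsupport χ := by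
        have h3 : IsOpen {p : ℝ × E | p.2 ∉ tsupport χ} :=
          (isClosed_tsupport χ).isOpen_compl.preimage continuous_snd
        exact h3.mem_nhds hx
      filter_upwards [h2] with p hp
      rw [image_eq_zero_of_notMem_tsupport hp, zero_mul]
    exact contDiffAt_const.congr_of_eventuallyEq h1

theorem Dat.hasDerivAt_nrm {t : ℝ} (ht : t ∈ Ioo (-t0) t0) {x : E} (hx : x ∈ tsupport χ) :
    HasDerivAt (fun s => G.nrm (wt w φ ψ σ s) x) (Ndot G (wt w φ ψ σ t)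
      (fun y => φ y + 2 * σ * t * ψ y) x) t := by
  set f : E → ℝ := fun y => φ y + 2 * σ * t * ψ y with hf
  have hne := D.ne t ht x hx
  have hpos := gn_pos G hne
  have h1 : HasDerivAt (fun s => fderiv ℝ (wt w φ ψ σ s) x)
      (fderiv ℝ (fun y => deriv (fun s => wt w φ ψ σ s y) t) x) t :=
    hasDerivAt_fderiv D.smooth_wt ht x
  have h2 : (fun y => deriv (fun s => wt w φ ψ σ s y) t) = fun y => - f y := by
    funext y
    rw [deriv_wt]
  rw [h2, fderiv_fun_neg] at h1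
  -- gradient
  have h3 : HasDerivAt (fun s => gradient (wt w φ ψ σ s) x) (- gradient f x) t := by
    have h4 := ((InnerProductSpace.toDual ℝ E).symm.toContinuousLinearEquiv.toContinuousLinearMap
      |>.hasFDerivAt).comp_hasDerivAt t h1
    have h5 : ((InnerProductSpace.toDual ℝ E).symm.toContinuousLinearEquiv.toContinuousLinearMap)
        (-fderiv ℝ f x) = - gradient f x := by
      rw [map_neg]
      rfl
    rw [h5] at h4
    exact h4
  have h6 : HasDerivAt (fun s => G.grad (wt w φ ψ σ s) x) (- G.grad f x) t := by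
    have h7 := ((G.C x).hasFDerivAt).comp_hasDerivAt t h3
    rw [map_neg] at h7
    exact h7
  have h8 : HasDerivAt (fun s => ⟪G.C x (gradient (wt w φ ψ σ s) x),
      gradient (wt w φ ψ σ s) x⟫_ℝ)
      (-2 * fderiv ℝ (wt w φ ψ σ t) x (G.grad f x)) t := by
    have h9 := h6.inner ℝ h3
    have e1 : ⟪G.grad (wt w φ ψ σ t) x, gradient f x⟫_ℝ
        = fderiv ℝ (wt w φ ψ σ t) x (G.grad f x) := by
      rw [← CN.geo_inner_gradient, Geo.grad, CN.geo_C_symm G x, ← Geo.grad]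
    have e2 : ⟪G.grad f x, gradient (wt w φ ψ σ t) x⟫_ℝ
        = fderiv ℝ (wt w φ ψ σ t) x (G.grad f x) := by
      rw [real_inner_comm, CN.geo_inner_gradient]
    rw [inner_neg_right, inner_neg_left, e1, e2] at h9
    have e3 : -fderiv ℝ (wt w φ ψ σ t) x (G.grad f x) + -fderiv ℝ (wt w φ ψ σ t) x (G.grad f x)
        = -2 * fderiv ℝ (wt w φ ψ σ t) x (G.grad f x) := by ring
    rw [e3] at h9
    exact h9
  have hQ : ⟪G.C x (gradient (wt w φ ψ σ t) x), gradient (wt w φ ψ σ t) x⟫_ℝ ≠ 0 :=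
    (CN.geo_C_pos G x _ (CN.geo_gradient_ne_zero hne)).ne'
  have h10 : HasDerivAt (fun s => G.gn (wt w φ ψ σ s) x)
      ((-2 * fderiv ℝ (wt w φ ψ σ t) x (G.grad f x)) / (2 * G.gn (wt w φ ψ σ t) x)) t :=
    h8.sqrt hQ
  have h11 := (h10.inv hpos.ne').smul h6
  have e4 : fderiv ℝ (wt w φ ψ σ t) x (G.grad f x)
      = G.gn (wt w φ ψ σ t) x * G.g x (G.grad f x) (G.nrm (wt w φ ψ σ t) x) := by
    rw [← CN.geo_g_grad G (wt w φ ψ σ t) x (G.grad f x), CN.geo_grad_eq G x hne,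
      CN.geo_g_smul_left, CN.geo_g_symm G x (G.nrm (wt w φ ψ σ t) x)]
  have e5 : Ndot G (wt w φ ψ σ t) f x = (G.gn (wt w φ ψ σ t) x)⁻¹ • (-G.grad f x)
      + (-((-2 * fderiv ℝ (wt w φ ψ σ t) x (G.grad f x)) / (2 * G.gn (wt w φ ψ σ t) x))
        / G.gn (wt w φ ψ σ t) x ^ 2) • G.grad (wt w φ ψ σ t) x := by
    rw [Ndot, e4]
    rw [show G.grad (wt w φ ψ σ t) x = G.gn (wt w φ ψ σ t) x • G.nrm (wt w φ ψ σ t) x from
      CN.geo_grad_eq G x hne]
    rw [smul_smul, smul_sub, smul_smul, neg_smul, smul_neg, sub_eq_add_neg, ← neg_smul]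
    congr 2
    field_simp
    rw [neg_smul, neg_neg]
  rw [e5]
  exact h11

end

end Var

end

end Pool.Agent.Work.MP_3b24f6_gt
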