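import Pool.Agent.Work.MP_3b24f6_gt.Transport
import Pool.Agent.Work.MP_3b24f6_gt.Area
import Pool.Agent.Work.MP_3b24f6_gt.Delta
import Pool.Agent.Work.MP_3b24f6_gt.Calc
import Pool.Agent.Work.MP_3b24f6_gt.CalcN
import Pool.Agent.Work.MP_3b24f6_gt.VarP
import Pool.Agent.Work.MP_3b24f6_gt.VarN

set_option autoImplicit false
set_option linter.unusedSectionVars false

open MeasureTheory Set Filter Topology
open scoped ContDiff InnerProductSpace

namespace Pool.Agent.Work.MP_3b24f6_gt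

noncomputable section

variable {E : Type*} [NormedAddCommGroup E] [InnerProductSpace ℝ E] [FiniteDimensional ℝ E]

namespace Var

/-! Block F -/

theorem divE_congr {X Y : E → E} {x : E} (h : X =ᶠ[𝓝 x] Y) : divE X x = divE Y x := by
  rw [divE, divE, h.fderiv_eq]

theorem divE_add' {X Y : E → E} {x : E} (hX : DifferentiableAt ℝ X x)
    (hY : DifferentiableAt ℝ Y x) : divE (fun y => X y + Y y) x = divE X x + divE Y x := by
  rw [divE, fderiv_fun_add hX hY, Pool.Agent.Work.MP_3b24f6_gt.tr_add, divE, divE]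

/-- `Z ↦ ∂_t Z + (div Z) W`. -/
def DZ (W Z : ℝ → E → E) (t : ℝ) (x : E) : E := deriv (fun s => Z s x) t + divE (Z t) x • W t x

theorem smooth_DZ {t0 : ℝ} {W Z : ℝ → E → E}
    (hW : ContDiffOn ℝ ∞ (fun p : ℝ × E => W p.1 p.2) (Ioo (-t0) t0 ×ˢ univ))
    (hZ : ContDiffOn ℝ ∞ (fun p : ℝ × E => Z p.1 p.2) (Ioo (-t0) t0 ×ˢ univ)) :
    ContDiffOn ℝ ∞ (fun p : ℝ × E => DZ W Z p.1 p.2) (Ioo (-t0) t0 ×ˢ univ) :=
  (smooth_dt hZ).add ((smooth_divE hZ).smul hW)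

variable (G : Geo E)

/-- The transport field. -/
def Wf (w φ ψ χ : E → ℝ) (σ t : ℝ) (x : E) : E :=
  ((φ x + 2 * σ * t * ψ x) * (χ x * (G.gn (wt w φ ψ σ t) x)⁻¹)) •
    (χ x • G.nrm (wt w φ ψ σ t) x)

/-- The field whose flux is the area. -/
def Yf (w φ ψ χ : E → ℝ) (σ t : ℝ) (x : E) : E :=
  G.ρ x • (χ x • G.nrm (wt w φ ψ σ t) x)

section
variable {w φ ψ χ : E → ℝ} {σ t0 : ℝ} (D : Dat w φ ψ σ t0 χ)
include D

theorem Dat.smooth_W : ContDiffOn ℝ ∞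
    (fun p : ℝ × E => Wf G w φ ψ χ σ p.1 p.2) (Ioo (-t0) t0 ×ˢ univ) := by
  refine ContDiffOn.smul (ContDiffOn.mul ?_ (D.smooth_gi G)) (D.smooth_N G)
  have h1 : ContDiff ℝ ∞ (fun p : ℝ × E => φ p.2) := D.smooth_φ.comp contDiff_snd
  have h2 : ContDiff ℝ ∞ (fun p : ℝ × E => ψ p.2) := D.smooth_ψ.comp contDiff_snd
  exact (h1.add ((contDiff_const.mul contDiff_fst).mul h2)).contDiffOn

theorem Dat.smooth_Y : ContDiffOn ℝ ∞
    (fun p : ℝ × E => Yf G w φ ψ χ σ p.1 p.2) (Ioo (-t0) t0 ×ˢ univ) := by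
  have h1 : ContDiff ℝ ∞ (fun p : ℝ × E => G.ρ p.2) := G.smooth_ρ.comp contDiff_snd
  exact h1.contDiffOn.smul (D.smooth_N G)

theorem Dat.smooth_rW : ContDiffOn ℝ ∞
    (fun p : ℝ × E => G.ρ p.2 • Wf G w φ ψ χ σ p.1 p.2) (Ioo (-t0) t0 ×ˢ univ) := by
  have h1 : ContDiff ℝ ∞ (fun p : ℝ × E => G.ρ p.2) := G.smooth_ρ.comp contDiff_snd
  exact h1.contDiffOn.smul (D.smooth_W G)

theorem Dat.smooth_qW : ContDiffOn ℝ ∞
    (fun p : ℝ × E => divE (Yf G w φ ψ χ σ p.1) p.2 • Wf G w φ ψ χ σ p.1 p.2)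
    (Ioo (-t0) t0 ×ˢ univ) :=
  (smooth_divE (D.smooth_Y G)).smul (D.smooth_W G)

theorem Dat.zero_mem : (0 : ℝ) ∈ Ioo (-t0) t0 := ⟨by linarith [D.pos], D.pos⟩

theorem Dat.mem_ts {x : E} (hx : χ x = 1) : x ∈ tsupport χ :=
  subset_tsupport χ (by simp [Function.mem_support, hx])

theorem Dat.chi_one {x : E} (hx : x ∈ surf w ∪ (tsupport φ ∪ tsupport ψ)) : χ x = 1 :=
  (D.one.filter_mono (nhds_le_nhdsSet hx)).self_of_nhds

theorem Dat.dw_W {t : ℝ} (ht : t ∈ Ioo (-t0) t0) (x : E) :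
    fderiv ℝ (wt w φ ψ σ t) x (Wf G w φ ψ χ σ t x) = φ x + 2 * σ * t * ψ x := by
  by_cases hx : x ∈ tsupport φ ∪ tsupport ψ
  · have h1 : χ x = 1 := D.chi_one (Or.inr hx)
    have h2 : fderiv ℝ (wt w φ ψ σ t) x ≠ 0 := D.ne t ht x (D.mem_ts h1)
    have h3 : 0 < G.gn (wt w φ ψ σ t) x := gn_pos G h2
    rw [Wf, h1, map_smul, one_smul, fderiv_nrm G h2, smul_eq_mul]
    field_simp
  · have h1 : φ x = 0 := by
      by_contra h
      exact hx (Or.inl (subset_tsupport φ h))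
    have h2 : ψ x = 0 := by
      by_contra h
      exact hx (Or.inr (subset_tsupport ψ h))
    simp [Wf, h1, h2]

theorem Dat.W_zero {t : ℝ} {x : E} (hx : x ∉ {x | w x ≤ 0} ∪ tsupport χ) :
    Wf G w φ ψ χ σ t x = 0 := by
  have h1 : χ x = 0 := by
    by_contra h
    exact hx (Or.inr (subset_tsupport χ h))
  simp [Wf, h1]

theorem Dat.W_eq (x : E) : Wf G w φ ψ χ σ 0 x = W0 G w φ x := by
  rw [Wf, W0, wt_zero]
  by_cases hx : φ x = 0
  · simp [hx]
  · have h1 : χ x = 1 := D.chi_one (Or.inr (Or.inl (subset_tsupport φ hx)))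
    rw [h1]
    simp [div_eq_mul_inv]

theorem Dat.isCompact_K : IsCompact ({x | w x ≤ 0} ∪ tsupport χ) := D.reg.cpt.union D.cpt_χ

/-- derivative of a flux. -/
theorem Dat.flux_deriv [MeasurableSpace E] [BorelSpace E] {Z : ℝ → E → E}
    (hZ : ContDiffOn ℝ ∞ (fun p : ℝ × E => Z p.1 p.2) (Ioo (-t0) t0 ×ˢ univ))
    {t : ℝ} (ht : t ∈ Ioo (-t0) t0) :
    HasDerivAt (fun t => ∫ x in {x | wt w φ ψ σ t x < 0}, divE (Z t) x)
      (∫ x in {x | wt w φ ψ σ t x < 0}, divE (DZ (Wf G w φ ψ χ σ) Z t) x) t := by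
  have h := transport D.pos (wt w φ ψ σ) (fun t x => divE (Z t) x) (Wf G w φ ψ χ σ)
    ({x | w x ≤ 0} ∪ tsupport χ) D.isCompact_K D.smooth_wt (smooth_divE hZ) (D.smooth_W G)
    (fun t _ x hx => D.mem_K hx) (fun t _ x hx => D.W_zero G hx)
    (fun t ht x => by rw [D.dw_W G ht, deriv_wt, neg_neg]) t ht
  convert h using 1
  refine setIntegral_congr_fun ?_ fun x _ => ?_
  · exact (isOpen_lt (smooth_slice D.smooth_wt ht).continuous continuous_const).measurableSet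
  · have h1 : DifferentiableAt ℝ (fun y => deriv (fun s => Z s y) t) x :=
      ((smooth_slice (Z := fun t y => deriv (fun s => Z s y) t) (smooth_dt hZ) ht).differentiable
        (by simp)) x
    have h2 : DifferentiableAt ℝ (fun y => divE (Z t) y • Wf G w φ ψ χ σ t y) x :=
      ((smooth_slice (Z := fun t y => divE (Z t) y • Wf G w φ ψ χ σ t y)
        ((smooth_divE hZ).smul (D.smooth_W G)) ht).differentiable (by simp)) x
    have h3 := divE_add' h1 h2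
    rw [dt_divE hZ ht x, ← h3]
    rfl

theorem Dat.vol_deriv [MeasurableSpace E] [BorelSpace E]
    {t : ℝ} (ht : t ∈ Ioo (-t0) t0) :
    HasDerivAt (fun t => ∫ x in {x | wt w φ ψ σ t x < 0}, G.ρ x)
      (∫ x in {x | wt w φ ψ σ t x < 0}, divE (fun y => G.ρ y • Wf G w φ ψ χ σ t y) x) t := by
  have h1 : ContDiff ℝ ∞ (fun p : ℝ × E => G.ρ p.2) := G.smooth_ρ.comp contDiff_snd
  have h := transport D.pos (wt w φ ψ σ) (fun t x => G.ρ x) (Wf G w φ ψ χ σ)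
    ({x | w x ≤ 0} ∪ tsupport χ) D.isCompact_K D.smooth_wt h1.contDiffOn (D.smooth_W G)
    (fun t _ x hx => D.mem_K hx) (fun t _ x hx => D.W_zero G hx)
    (fun t ht x => by rw [D.dw_W G ht, deriv_wt, neg_neg]) t ht
  simpa using h

theorem Dat.flux [MeasurableSpace E] [BorelSpace E] {t : ℝ}
    {μ : Measure E} (hμ : IsDelta (wt w φ ψ σ t) μ) {Z : E → E} (hZ : ContDiff ℝ ∞ Z) :
    ∫ x in {x | wt w φ ψ σ t x < 0}, divE Z x = ∫ x, fderiv ℝ (wt w φ ψ σ t) x (Z x) ∂μ :=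
  hμ.flux Z (Eventually.of_forall fun x => (hZ.of_le (by exact_mod_cast le_top)).contDiffAt)

/-- derivative of the normal near a point of the surface. -/
theorem Dat.deriv_Y {t : ℝ} (ht : t ∈ Ioo (-t0) t0) {x : E} (hx : χ x = 1) :
    deriv (fun s => Yf G w φ ψ χ σ s x) t = G.ρ x • Ndot G (wt w φ ψ σ t)
      (fun y => φ y + 2 * σ * t * ψ y) x := by
  have h1 := D.hasDerivAt_nrm G ht (D.mem_ts hx)
  have h2 : HasDerivAt (fun s => Yf G w φ ψ χ σ s x) (G.ρ x • Ndot G (wt w φ ψ σ t)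
      (fun y => φ y + 2 * σ * t * ψ y) x) t := by
    have h3 : (fun s => Yf G w φ ψ χ σ s x) = fun s => G.ρ x • G.nrm (wt w φ ψ σ s) x := by
      funext s
      rw [Yf, hx, one_smul]
    rw [h3]
    exact h1.const_smul (G.ρ x)
  exact h2.deriv

theorem Dat.area_deriv [MeasurableSpace E] [BorelSpace E]
    {t : ℝ} (ht : t ∈ Ioo (-t0) t0) :
    HasDerivAt (fun t => ∫ x in {x | wt w φ ψ σ t x < 0}, divE (Yf G w φ ψ χ σ t) x)
      (∫ x in {x | wt w φ ψ σ t x < 0},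
        divE (fun y => divE (Yf G w φ ψ χ σ t) y • Wf G w φ ψ χ σ t y) x) t := by
  have h := D.flux_deriv G (D.smooth_Y G) ht
  convert h using 1
  obtain ⟨μ, hμ⟩ := exists_delta (D.isReg ht)
  have s1 : ContDiff ℝ ∞ (fun y => divE (Yf G w φ ψ χ σ t) y • Wf G w φ ψ χ σ t y) :=
    smooth_slice (Z := fun t y => divE (Yf G w φ ψ χ σ t) y • Wf G w φ ψ χ σ t y)
      (D.smooth_qW G) ht
  have s2 : ContDiff ℝ ∞ (DZ (Wf G w φ ψ χ σ) (Yf G w φ ψ χ σ) t) :=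
    smooth_slice (smooth_DZ (D.smooth_W G) (D.smooth_Y G)) ht
  rw [D.flux hμ s1, D.flux hμ s2]
  refine integral_congr_ae ?_
  have hs : ∀ᵐ x ∂μ, wt w φ ψ σ t x = 0 := by
    rw [ae_iff]
    exact hμ.supp
  filter_upwards [hs] with x hx
  have h1 : χ x = 1 := (D.one_near hx).self_of_nhds
  have h2 : fderiv ℝ (wt w φ ψ σ t) x ≠ 0 := D.ne t ht x (D.mem_ts h1)
  rw [DZ, D.deriv_Y G ht h1, map_add, map_smul, map_smul, fderiv_Ndot G h2, smul_zero, zero_add]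

theorem Dat.wt_contDiff (s : ℝ) : ContDiff ℝ ∞ (wt w φ ψ σ s) :=
  (D.reg.smooth.sub (contDiff_const.mul D.smooth_φ)).sub (contDiff_const.mul D.smooth_ψ)

/-- derivative of the transport field at time `0`, tested against `dw`. -/
theorem Dat.dw_dtW (x : E) :
    fderiv ℝ w x (deriv (fun s => Wf G w φ ψ χ σ s x) 0)
      = 2 * σ * ψ x + fderiv ℝ φ x (W0 G w φ x) := by
  have h0 := D.zero_mem
  have h1 : HasDerivAt (fun s => fderiv ℝ (wt w φ ψ σ s) x)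
      (fderiv ℝ (fun y => deriv (fun s => wt w φ ψ σ s y) 0) x) 0 :=
    hasDerivAt_fderiv D.smooth_wt h0 x
  have h2 : HasDerivAt (fun s => Wf G w φ ψ χ σ s x)
      (deriv (fun s => Wf G w φ ψ χ σ s x) 0) 0 :=
    (deriv_slice (D.smooth_W G) h0 x).differentiableAt.hasDerivAt
  have h3 := h1.clm_apply h2
  have h4 : HasDerivAt (fun s : ℝ => φ x + 2 * σ * s * ψ x) (2 * σ * ψ x) 0 := by
    have := (((hasDerivAt_id (0 : ℝ)).const_mul (2 * σ)).mul_const (ψ x)).const_add (φ x)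
    simpa using this
  have h5 : (fun s => (fderiv ℝ (wt w φ ψ σ s) x) (Wf G w φ ψ χ σ s x))
      =ᶠ[𝓝 0] fun s => φ x + 2 * σ * s * ψ x := by
    filter_upwards [isOpen_Ioo.mem_nhds h0] with s hs
    exact D.dw_W G hs x
  have h6 := (h3.congr_of_eventuallyEq h5.symm).unique h4
  have h7 : (fun y => deriv (fun s => wt w φ ψ σ s y) 0) = fun y => - φ y := by
    funext y
    rw [deriv_wt]
    simp
  rw [h7, fderiv_fun_neg, D.W_eq G, wt_zero] at h6
  simp only [neg_apply] at h6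
  linarith

theorem Dat.dtW_diff (x : E) : DifferentiableAt ℝ (fun s => Wf G w φ ψ χ σ s x) 0 :=
  (deriv_slice (D.smooth_W G) D.zero_mem x).differentiableAt

/-- the integrand of `V2` -/
theorem Dat.V2_integrand (x : E) :
    fderiv ℝ w x (DZ (Wf G w φ ψ χ σ) (fun t y => G.ρ y • Wf G w φ ψ χ σ t y) 0 x)
      = G.ρ x * (2 * σ * ψ x + fderiv ℝ φ x (W0 G w φ x))
        + φ x * divE (fun y => G.ρ y • W0 G w φ y) x := by
  have h1 : deriv (fun s => G.ρ x • Wf G w φ ψ χ σ s x) 0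
      = G.ρ x • deriv (fun s => Wf G w φ ψ χ σ s x) 0 :=
    deriv_fun_const_smul (G.ρ x) (D.dtW_diff G x)
  have h2 := D.dw_W G D.zero_mem x
  rw [wt_zero] at h2
  have h3 : (fun y => G.ρ y • Wf G w φ ψ χ σ 0 y) = fun y => G.ρ y • W0 G w φ y := by
    funext y
    rw [D.W_eq G]
  rw [DZ, h1, map_add, map_smul, map_smul, D.dw_dtW G, h2, h3]
  simp only [smul_eq_mul]
  ring

theorem Dat.divY {x : E} (hx : w x = 0) :
    divE (Yf G w φ ψ χ σ 0) x = G.ρ x * G.mc w x := by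
  have hx' : wt w φ ψ σ 0 x = 0 := by rw [wt_zero]; exact hx
  have hone : χ =ᶠ[𝓝 x] fun _ => 1 := D.one_near hx'
  have hmem : x ∈ tsupport χ := D.mem_ts hone.self_of_nhds
  have hne : fderiv ℝ w x ≠ 0 := by
    have := D.ne 0 D.zero_mem x hmem
    rwa [wt_zero] at this
  have e1 : Yf G w φ ψ χ σ 0 =ᶠ[𝓝 x] fun z => G.ρ z • G.nrm w z := by
    filter_upwards [hone] with z hz
    rw [Yf, hz, one_smul, wt_zero]
  rw [divE_congr e1, divE_rho G (G.nrm w) x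
    ((contDiffAt_nrm G D.reg.smooth hne).differentiableAt (by simp))]
  rfl

/-- the integrand of `A2` at a point of the surface. -/
theorem Dat.A2_integrand {x : E} (hx : w x = 0) :
    fderiv ℝ w x (DZ (Wf G w φ ψ χ σ)
        (fun t y => divE (Yf G w φ ψ χ σ t) y • Wf G w φ ψ χ σ t y) 0 x)
      = G.ρ x * G.dv (Ndot G w φ) x * φ x
        + G.ρ x * G.mc w x * (2 * σ * ψ x + fderiv ℝ φ x (W0 G w φ x))
        + φ x * (G.mc w x * divE (fun y => G.ρ y • W0 G w φ y) x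
          + G.ρ x * fderiv ℝ (G.mc w) x (W0 G w φ x)) := by
  have h0 := D.zero_mem
  have hx' : wt w φ ψ σ 0 x = 0 := by rw [wt_zero]; exact hx
  have hone : χ =ᶠ[𝓝 x] fun _ => 1 := D.one_near hx'
  have hmem : x ∈ tsupport χ := D.mem_ts hone.self_of_nhds
  have hne : fderiv ℝ w x ≠ 0 := by
    have := D.ne 0 h0 x hmem
    rwa [wt_zero] at this
  have hneev : ∀ᶠ y in 𝓝 x, fderiv ℝ w y ≠ 0 :=
    (D.reg.smooth.continuous_fderiv (by simp)).continuousAt.eventually_ne hne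
  have hnrm : ContDiffAt ℝ ∞ (G.nrm w) x := contDiffAt_nrm G D.reg.smooth hne
  -- `div Y = ρ mc` near `x`
  have hY : ∀ᶠ y in 𝓝 x, divE (Yf G w φ ψ χ σ 0) y = G.ρ y * G.mc w y := by
    filter_upwards [hone.eventuallyEq_nhds, hneev] with y hy hy2
    have e1 : Yf G w φ ψ χ σ 0 =ᶠ[𝓝 y] fun z => G.ρ z • G.nrm w z := by
      filter_upwards [hy] with z hz
      rw [Yf, hz, one_smul, wt_zero]
    rw [divE_congr e1, divE_rho G (G.nrm w) y
      ((contDiffAt_nrm G D.reg.smooth hy2).differentiableAt (by simp))]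
    rfl
  -- `∂_t Y = ρ Ndot` near `x`
  have hYt : ∀ᶠ y in 𝓝 x, deriv (fun s => Yf G w φ ψ χ σ s y) 0 = G.ρ y • Ndot G w φ y := by
    filter_upwards [hone] with y hy
    rw [D.deriv_Y G h0 hy, wt_zero]
    simp
  have hmc : DifferentiableAt ℝ (G.mc w) x := by
    have := contDiffAt_dv_top G hnrm
    exact this.differentiableAt (by simp)
  have hNd : DifferentiableAt ℝ (Ndot G w φ) x := by
    have s1 : DifferentiableAt ℝ (fun y => deriv (fun s => Yf G w φ ψ χ σ s y) 0) x :=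
      ((smooth_slice (Z := fun t y => deriv (fun s => Yf G w φ ψ χ σ s y) t)
        (smooth_dt (D.smooth_Y G)) h0).differentiable (by simp)) x
    have s2 : DifferentiableAt ℝ (fun y => (G.ρ y)⁻¹ •
        deriv (fun s => Yf G w φ ψ χ σ s y) 0) x :=
      (((G.smooth_ρ.differentiable (by simp)) x).inv (G.ρ_pos x).ne').smul s1
    refine s2.congr_of_eventuallyEq ?_
    filter_upwards [hYt] with y hy
    rw [hy, smul_smul, inv_mul_cancel₀ (G.ρ_pos y).ne', one_smul]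
  have hrW : DifferentiableAt ℝ (fun y => G.ρ y • W0 G w φ y) x := by
    have s1 := ((smooth_slice (Z := fun t y => G.ρ y • Wf G w φ ψ χ σ t y)
        (D.smooth_rW G) h0).differentiable (by simp)) x
    have s2 : (fun y => G.ρ y • Wf G w φ ψ χ σ 0 y) = fun y => G.ρ y • W0 G w φ y := by
      funext y
      rw [D.W_eq G]
    rwa [s2] at s1
  -- time derivative of the product
  have ha : HasDerivAt (fun s => divE (Yf G w φ ψ χ σ s) x) (G.ρ x * G.dv (Ndot G w φ) x) 0 := by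
    have k1 := (deriv_slice (Z := fun t y => divE (Yf G w φ ψ χ σ t) y)
      (smooth_divE (D.smooth_Y G)) h0 x).differentiableAt.hasDerivAt
    rw [dt_divE (D.smooth_Y G) h0 x, divE_congr hYt, divE_rho G (Ndot G w φ) x hNd] at k1
    exact k1
  have hb := (D.dtW_diff G x).hasDerivAt
  have hab := (ha.smul hb).deriv
  have h2 := D.dw_W G h0 x
  rw [wt_zero] at h2
  have h3 : divE (fun y => divE (Yf G w φ ψ χ σ 0) y • Wf G w φ ψ χ σ 0 y) x
      = G.mc w x * divE (fun y => G.ρ y • W0 G w φ y) x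
          + G.ρ x * fderiv ℝ (G.mc w) x (W0 G w φ x) := by
    have e1 : (fun y => divE (Yf G w φ ψ χ σ 0) y • Wf G w φ ψ χ σ 0 y)
        =ᶠ[𝓝 x] fun y => G.mc w y • (G.ρ y • W0 G w φ y) := by
      filter_upwards [hY] with y hy
      rw [hy, D.W_eq G, smul_smul, mul_comm]
    rw [divE_congr e1, Pool.Agent.Work.MP_3b24f6_gt.divE_smul (G.mc w) _ x hmc hrW, map_smul,
      smul_eq_mul]
  rw [DZ, h3]
  have h4 : deriv (fun s => divE (Yf G w φ ψ χ σ s) x • Wf G w φ ψ χ σ s x) 0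
      = divE (Yf G w φ ψ χ σ 0) x • deriv (fun s => Wf G w φ ψ χ σ s x) 0
        + (G.ρ x * G.dv (Ndot G w φ) x) • Wf G w φ ψ χ σ 0 x := hab
  rw [h4, hY.self_of_nhds, map_add, map_add, map_smul, map_smul, map_smul, D.dw_dtW G, h2]
  simp only [smul_eq_mul]
  ring

theorem Dat.area_eq [MeasurableSpace E] [BorelSpace E] {t : ℝ} (ht : t ∈ Ioo (-t0) t0) :
    G.area {x | wt w φ ψ σ t x < 0}
        = ENNReal.ofReal (∫ x in {x | wt w φ ψ σ t x < 0}, divE (Yf G w φ ψ χ σ t) x) ∧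
      0 ≤ ∫ x in {x | wt w φ ψ σ t x < 0}, divE (Yf G w φ ψ χ σ t) x := by
  obtain ⟨μ, hμ⟩ := exists_delta (D.isReg ht)
  have s1 : ContDiff ℝ ∞ (Yf G w φ ψ χ σ t) := smooth_slice (D.smooth_Y G) ht
  have h1 : ∫ x in {x | wt w φ ψ σ t x < 0}, divE (Yf G w φ ψ χ σ t) x
      = ∫ x, G.ρ x * G.gn (wt w φ ψ σ t) x ∂μ := by
    rw [D.flux hμ s1]
    refine integral_congr_ae ?_
    have hs : ∀ᵐ x ∂μ, wt w φ ψ σ t x = 0 := by
      rw [ae_iff]
      exact hμ.supp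
    filter_upwards [hs] with x hx
    have h1 : χ x = 1 := (D.one_near hx).self_of_nhds
    have h2 : fderiv ℝ (wt w φ ψ σ t) x ≠ 0 := D.ne t ht x (D.mem_ts h1)
    rw [Yf, h1, one_smul, map_smul, fderiv_nrm G h2, smul_eq_mul]
  rw [h1]
  refine ⟨Pool.Agent.Work.MP_3b24f6_gt.area_eq G (D.isReg ht) hμ, integral_nonneg fun x => ?_⟩
  exact mul_nonneg (G.ρ_pos x).le (Real.sqrt_nonneg _)

theorem Dat.vol_eq [MeasurableSpace E] [BorelSpace E] {t : ℝ} (ht : t ∈ Ioo (-t0) t0) :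
    G.vol {x | wt w φ ψ σ t x < 0}
        = ENNReal.ofReal (∫ x in {x | wt w φ ψ σ t x < 0}, G.ρ x) ∧
      0 ≤ ∫ x in {x | wt w φ ψ σ t x < 0}, G.ρ x := by
  refine ⟨?_, integral_nonneg fun x => (G.ρ_pos x).le⟩
  rw [Geo.vol, ofReal_integral_eq_lintegral_ofReal]
  · have h1 : IntegrableOn G.ρ {x | wt w φ ψ σ t x ≤ 0} :=
      G.smooth_ρ.continuous.continuousOn.integrableOn_compact (D.isReg ht).cpt
    exact h1.mono_set fun x hx => le_of_lt (show wt w φ ψ σ t x < 0 from hx)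
  · exact Eventually.of_forall fun x => (G.ρ_pos x).le

end

end Var

open Var

variable [MeasurableSpace E] [BorelSpace E] (G : Geo E)

/-- T10. -/
theorem variation {w : E → ℝ} (hw : IsReg w) {μ : Measure E} (hμ : IsDelta w μ)
    (φ ψ : E → ℝ) (hφ : ContDiff ℝ ∞ φ) (hψ : ContDiff ℝ ∞ ψ)
    (hφc : HasCompactSupport φ) (hψc : HasCompactSupport ψ)
    (hφs : ∀ z ∈ tsupport φ, fderiv ℝ w z ≠ 0) (hψs : ∀ z ∈ tsupport ψ, fderiv ℝ w z ≠ 0)
    (σ : ℝ) :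
    ∃ t0 > 0, ∃ V A V1 A1 : ℝ → ℝ, ∃ V2 A2 : ℝ,
      (∀ t, |t| < t0 → IsReg (fun z => w z - t * φ z - σ * t ^ 2 * ψ z) ∧
        G.vol {z | w z - t * φ z - σ * t ^ 2 * ψ z < 0} = ENNReal.ofReal (V t) ∧ 0 ≤ V t ∧
        G.area {z | w z - t * φ z - σ * t ^ 2 * ψ z < 0} = ENNReal.ofReal (A t) ∧ 0 ≤ A t ∧
        HasDerivAt V (V1 t) t ∧ HasDerivAt A (A1 t) t) ∧
      HasDerivAt V1 V2 0 ∧ HasDerivAt A1 A2 0 ∧
      V1 0 = ∫ z, G.ρ z * φ z ∂μ ∧
      A1 0 = ∫ z, G.mc w z * (G.ρ z * φ z) ∂μ ∧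
      V2 = ∫ z, (G.ρ z * (2 * σ * ψ z + fderiv ℝ φ z (W0 G w φ z))
        + φ z * divE (fun y => G.ρ y • W0 G w φ y) z) ∂μ ∧
      ∀ Λ : ℝ, (∀ z, w z = 0 → G.mc w z = Λ) →
        A2 - Λ * V2 = ∫ z, G.ρ z * φ z * (G.dv (Ndot G w φ) z
          + fderiv ℝ (G.mc w) z (W0 G w φ z)) ∂μ := by
  obtain ⟨t0, χ, D⟩ := exists_dat hw hφ hψ hφc hψc hφs hψs σ
  have h0 := D.zero_mem
  have hs : ∀ᵐ x ∂μ, w x = 0 := by
    rw [ae_iff]
    exact hμ.supp
  have hμ0 : IsDelta (wt w φ ψ σ 0) μ := by rw [wt_zero]; exact hμ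
  have sV : ContDiff ℝ ∞ (fun y => G.ρ y • Wf G w φ ψ χ σ 0 y) :=
    smooth_slice (Z := fun t y => G.ρ y • Wf G w φ ψ χ σ t y) (D.smooth_rW G) h0
  have sA : ContDiff ℝ ∞ (fun y => divE (Yf G w φ ψ χ σ 0) y • Wf G w φ ψ χ σ 0 y) :=
    smooth_slice (Z := fun t y => divE (Yf G w φ ψ χ σ t) y • Wf G w φ ψ χ σ t y)
      (D.smooth_qW G) h0
  have sV2 : ContDiff ℝ ∞ (DZ (Wf G w φ ψ χ σ) (fun t y => G.ρ y • Wf G w φ ψ χ σ t y) 0) :=
    smooth_slice (smooth_DZ (D.smooth_W G) (D.smooth_rW G)) h0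
  have sA2 : ContDiff ℝ ∞ (DZ (Wf G w φ ψ χ σ)
      (fun t y => divE (Yf G w φ ψ χ σ t) y • Wf G w φ ψ χ σ t y) 0) :=
    smooth_slice (smooth_DZ (D.smooth_W G) (D.smooth_qW G)) h0
  refine ⟨t0, D.pos, fun t => ∫ x in {x | wt w φ ψ σ t x < 0}, G.ρ x,
    fun t => ∫ x in {x | wt w φ ψ σ t x < 0}, divE (Yf G w φ ψ χ σ t) x,
    fun t => ∫ x in {x | wt w φ ψ σ t x < 0}, divE (fun y => G.ρ y • Wf G w φ ψ χ σ t y) x,
    fun t => ∫ x in {x | wt w φ ψ σ t x < 0},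
        divE (fun y => divE (Yf G w φ ψ χ σ t) y • Wf G w φ ψ χ σ t y) x,
    _, _, fun t ht => ?_, D.flux_deriv G (D.smooth_rW G) h0, D.flux_deriv G (D.smooth_qW G) h0,
    ?_, ?_, ?_, ?_⟩
  · have ht' : t ∈ Ioo (-t0) t0 := abs_lt.1 ht
    exact ⟨D.isReg ht', (D.vol_eq G ht').1, (D.vol_eq G ht').2, (D.area_eq G ht').1,
      (D.area_eq G ht').2, D.vol_deriv G ht', D.area_deriv G ht'⟩
  · show ∫ x in {x | wt w φ ψ σ 0 x < 0}, divE (fun y => G.ρ y • Wf G w φ ψ χ σ 0 y) x = _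
    rw [D.flux hμ0 sV]
    refine integral_congr_ae (Eventually.of_forall fun x => ?_)
    have h2 := D.dw_W G h0 x
    simp only [map_smul, smul_eq_mul, h2]
    ring
  · show ∫ x in {x | wt w φ ψ σ 0 x < 0},
        divE (fun y => divE (Yf G w φ ψ χ σ 0) y • Wf G w φ ψ χ σ 0 y) x = _
    rw [D.flux hμ0 sA]
    refine integral_congr_ae ?_
    filter_upwards [hs] with x hx
    have h2 := D.dw_W G h0 x
    simp only [map_smul, smul_eq_mul, h2]
    rw [D.divY G hx]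
    ring
  · rw [D.flux hμ0 sV2]
    refine integral_congr_ae (Eventually.of_forall fun x => ?_)
    have h3 := D.V2_integrand G x
    simp only [wt_zero]
    exact h3
  · intro Λ hΛ
    rw [D.flux hμ0 sV2, D.flux hμ0 sA2, wt_zero]
    have hc : Continuous (fderiv ℝ w) := hw.smooth.continuous_fderiv (by simp)
    have i1 := AreaAux.integrable_of_continuous hw hμ (hc.clm_apply sA2.continuous)
    have i2 := AreaAux.integrable_of_continuous hw hμ (hc.clm_apply sV2.continuous)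
    rw [← integral_const_mul, ← integral_sub i1 (i2.const_mul Λ)]
    refine integral_congr_ae ?_
    filter_upwards [hs] with x hx
    rw [D.A2_integrand G hx, D.V2_integrand G x, hΛ x hx]
    ring

end

end Pool.Agent.Work.MP_3b24f6_gt
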