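import Pool.Agent.Work.MP_3b24f6_gt.StableDef
import Pool.Agent.Work.MP_3b24f6_gt.VarA
import Pool.Agent.Work.MP_3b24f6_gt.SurfDiv
import Pool.Agent.Work.MP_3b24f6_gt.Stable

set_option autoImplicit false

open MeasureTheory Set Filter Topology Asymptotics
open scoped ContDiff InnerProductSpace

namespace Pool.Agent.Work.MP_3b24f6_gt

noncomputable section

/-- A function with vanishing first and second derivative at `0` is `o(t²)`. -/
theorem isLittleO_sq {V V1 : ℝ → ℝ} {t0 : ℝ} (ht0 : 0 < t0)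
    (hV : ∀ t, |t| < t0 → HasDerivAt V (V1 t) t) (h1 : V1 0 = 0) (h2 : HasDerivAt V1 0 0) :
    (fun t => V t - V 0) =o[𝓝 0] (fun t : ℝ => t ^ 2) := by
  rw [isLittleO_iff]
  intro c hc
  have h3 : V1 =o[𝓝 0] (fun t : ℝ => t) := by
    have := hasDerivAt_iff_isLittleO.mp h2
    simpa [h1] using this
  have h4 := (isLittleO_iff.mp h3) hc
  obtain ⟨δ, hδ, hball⟩ := Metric.eventually_nhds_iff.mp h4
  have : Metric.ball (0 : ℝ) (min δ t0) ∈ 𝓝 (0 : ℝ) := Metric.ball_mem_nhds 0 (lt_min hδ ht0)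
  filter_upwards [this] with t ht
  rw [Metric.mem_ball, Real.dist_0_eq_abs] at ht
  have ht1 : |t| < δ := lt_of_lt_of_le ht (min_le_left _ _)
  have ht2 : |t| < t0 := lt_of_lt_of_le ht (min_le_right _ _)
  have hseg : ∀ s ∈ uIcc (0 : ℝ) t, |s| ≤ |t| := by
    intro s hs
    have := abs_sub_left_of_mem_uIcc hs
    simpa using this
  have hb : ∀ s ∈ uIcc (0 : ℝ) t, ‖V1 s‖ ≤ c * |t| := by
    intro s hs
    have h5 : dist s 0 < δ := by
      rw [Real.dist_0_eq_abs]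
      exact lt_of_le_of_lt (hseg s hs) ht1
    have h6 := hball h5
    refine h6.trans ?_
    rw [Real.norm_eq_abs]
    exact mul_le_mul_of_nonneg_left (hseg s hs) hc.le
  have h7 := Convex.norm_image_sub_le_of_norm_hasDerivWithin_le (f := V) (f' := V1)
    (C := c * |t|) (s := uIcc 0 t) (x := 0) (y := t)
    (fun s hs => (hV s (lt_of_le_of_lt (hseg s hs) ht2)).hasDerivWithinAt) hb
    (convex_uIcc 0 t) left_mem_uIcc right_mem_uIcc
  rw [sub_zero, Real.norm_eq_abs] at h7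
  rw [Real.norm_eq_abs, Real.norm_eq_abs, abs_pow]
  rw [Real.norm_eq_abs] at h7
  nlinarith

/-- `A ≥ A 0 - o(t²)` near `0`: the first derivative vanishes, the second is nonnegative. -/
theorem deriv_of_almost_min {A A1 : ℝ → ℝ} {A2 t0 : ℝ} (ht0 : 0 < t0)
    (hA : ∀ t, |t| < t0 → HasDerivAt A (A1 t) t) (h2 : HasDerivAt A1 A2 0)
    (h : ∀ ε > 0, ∀ᶠ t in 𝓝 (0 : ℝ), A 0 - ε * t ^ 2 ≤ A t) : A1 0 = 0 ∧ 0 ≤ A2 := by
  have h0 : |(0 : ℝ)| < t0 := by simpa using ht0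
  have hsq : ∀ (c t : ℝ), HasDerivAt (fun t : ℝ => c * t ^ 2) (2 * c * t) t := by
    intro c t
    have := (hasDerivAt_pow 2 t).const_mul c
    refine this.congr_deriv ?_
    simp
    ring
  have hA1 : A1 0 = 0 := by
    have hd : HasDerivAt (fun t => A t + 1 * t ^ 2) (A1 0 + 2 * 1 * 0) 0 :=
      (hA 0 h0).add (hsq 1 0)
    have hmin : IsLocalMin (fun t => A t + 1 * t ^ 2) 0 := by
      filter_upwards [h 1 one_pos] with t ht
      linarith
    have := hmin.hasDerivAt_eq_zero hd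
    linarith
  refine ⟨hA1, ?_⟩
  by_contra hneg
  push Not at hneg
  have hε : 0 < -A2 / 4 := by linarith
  have h3 : ∀ᶠ t in 𝓝[>] (0 : ℝ), A 0 + (-A2 / 4) * 0 ^ 2 ≤ A t + (-A2 / 4) * t ^ 2 := by
    filter_upwards [(h _ hε).filter_mono nhdsWithin_le_nhds] with t ht
    linarith
  have h4 : HasDerivAt (fun t => A1 t + 2 * (-A2 / 4) * t) (A2 + 2 * (-A2 / 4)) 0 := by
    have := (hasDerivAt_id (0 : ℝ)).const_mul (2 * (-A2 / 4))
    refine (h2.add this).congr_deriv ?_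
    simp
  have h5 := second_deriv_nonneg_of_min (A := fun t => A t + (-A2 / 4) * t ^ 2)
    (A1 := fun t => A1 t + 2 * (-A2 / 4) * t) ht0
    (fun t ht => (hA t ht).add (hsq _ t)) (by simp [hA1]) h4 h3
  linarith

variable {E : Type*} [NormedAddCommGroup E] [InnerProductSpace ℝ E] [FiniteDimensional ℝ E]
variable [MeasurableSpace E] [BorelSpace E] (G : Geo E)

/-- For a stable domain and a variation with vanishing first and second derivative of the volume,
the first derivative of the area vanishes and the second one is nonnegative. -/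
theorem StableCMC.var {w : E → ℝ} (hw : IsReg w) (hst : StableCMC G {x | w x < 0})
    {φ ψ : E → ℝ} (hφ : Adm w φ) (hψ : Adm w ψ) (σ : ℝ) {t0 : ℝ} (ht0 : 0 < t0)
    {V A V1 A1 : ℝ → ℝ} {A2 : ℝ}
    (h1 : ∀ t, |t| < t0 → IsReg (fun z => w z - t * φ z - σ * t ^ 2 * ψ z) ∧
        G.vol {z | w z - t * φ z - σ * t ^ 2 * ψ z < 0} = ENNReal.ofReal (V t) ∧ 0 ≤ V t ∧
        G.area {z | w z - t * φ z - σ * t ^ 2 * ψ z < 0} = ENNReal.ofReal (A t) ∧ 0 ≤ A t ∧
        HasDerivAt V (V1 t) t ∧ HasDerivAt A (A1 t) t)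
    (hV1 : HasDerivAt V1 0 0) (hA1 : HasDerivAt A1 A2 0) (hV0 : V1 0 = 0) :
    A1 0 = 0 ∧ 0 ≤ A2 := by
  have h0 : |(0 : ℝ)| < t0 := by simpa using ht0
  have hsmall : ∀ᶠ t in 𝓝 (0 : ℝ), |t| < t0 := by
    have hc : Tendsto (fun t : ℝ => |t|) (𝓝 0) (𝓝 |0|) := continuous_abs.tendsto 0
    rw [abs_zero] at hc
    exact hc.eventually (gt_mem_nhds ht0)
  have e0 : {z | w z - 0 * φ z - σ * 0 ^ 2 * ψ z < 0} = {z | w z < 0} := by
    ext z; simp
  have hh0 := h1 0 h0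
  rw [e0] at hh0
  have hvol0 : (G.vol {z | w z < 0}).toReal = V 0 := by
    rw [hh0.2.1, ENNReal.toReal_ofReal hh0.2.2.1]
  have har0 : (G.area {z | w z < 0}).toReal = A 0 := by
    rw [hh0.2.2.2.1, ENNReal.toReal_ofReal hh0.2.2.2.2.1]
  refine deriv_of_almost_min ht0 (fun t ht => (h1 t ht).2.2.2.2.2.2) hA1 ?_
  intro ε hε
  have key := hst (fun t z => w z - t * φ z - σ * t ^ 2 * ψ z) ?_ ?_ ?_ e0 ?_ ε hε
  · filter_upwards [key, hsmall] with t ht hts
    obtain ⟨-, -, -, har, hAt, -, -⟩ := h1 t hts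
    rw [har0] at ht
    rw [har, ENNReal.toReal_ofReal hAt] at ht
    exact ht
  · have k1 : ContDiff ℝ ∞ (fun p : ℝ × E => w p.2) := hw.smooth.comp contDiff_snd
    have k2 : ContDiff ℝ ∞ (fun p : ℝ × E => φ p.2) := hφ.smooth.comp contDiff_snd
    have k3 : ContDiff ℝ ∞ (fun p : ℝ × E => ψ p.2) := hψ.smooth.comp contDiff_snd
    exact (k1.sub (contDiff_fst.mul k2)).sub ((contDiff_const.mul (contDiff_fst.pow 2)).mul k3)
  · filter_upwards [hsmall] with t ht
    exact (h1 t ht).1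
  · refine ⟨{x | w x ≤ 0} ∪ (tsupport φ ∪ tsupport ψ), hw.cpt.union (hφ.cpt.union hψ.cpt),
      Eventually.of_forall fun t x hx => ?_⟩
    by_cases hx1 : x ∈ tsupport φ
    · exact Or.inr (Or.inl hx1)
    by_cases hx2 : x ∈ tsupport ψ
    · exact Or.inr (Or.inr hx2)
    left
    have hx' : w x - t * φ x - σ * t ^ 2 * ψ x < 0 := hx
    rw [image_eq_zero_of_notMem_tsupport hx1, image_eq_zero_of_notMem_tsupport hx2] at hx'
    have : w x < 0 := by linarith
    exact this.le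
  · have k := isLittleO_sq ht0 (fun t ht => (h1 t ht).2.2.2.2.2.1) hV0 hV1
    refine k.congr' ?_ EventuallyEq.rfl
    filter_upwards [hsmall] with t ht
    obtain ⟨-, hvol, hVt, -, -, -, -⟩ := h1 t ht
    rw [hvol0, hvol, ENNReal.toReal_ofReal hVt]

/-- The key consequence of stability: for `φ` of mean zero there is a variation with velocity `φ`
whose data satisfy `A1 0 = 0` and `0 ≤ A2`, `V2 = 0`. -/
theorem StableCMC.exists_var {w : E → ℝ} (hw : IsReg w) {μ : Measure E} (hμ : IsDelta w μ)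
    (hst : StableCMC G {x | w x < 0}) {φ : E → ℝ} (hφ : Adm w φ)
    (h0 : ∫ z, G.ρ z * φ z ∂μ = 0) {z1 : E} (hz1 : w z1 = 0) :
    ∫ z, G.mc w z * (G.ρ z * φ z) ∂μ = 0 ∧
      ∀ Λ : ℝ, (∀ z, w z = 0 → G.mc w z = Λ) →
        0 ≤ ∫ z, G.ρ z * φ z * (G.dv (Ndot G w φ) z
          + fderiv ℝ (G.mc w) z (W0 G w φ z)) ∂μ := by
  have hfin := hμ.fin
  obtain ⟨ψ, hψ, hψn, -, r, hr, hψ1⟩ := exists_bump hw hz1 (U := univ) Filter.univ_mem
  have hψi : Integrable (fun z => G.ρ z * ψ z) μ :=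
    hψ.integrable_mul (fun z _ => G.smooth_ρ.continuous.continuousAt) μ
  have hb0 : 0 < ∫ z, G.ρ z * ψ z ∂μ := by
    refine integral_pos_of hμ hψi
      (fun z => mul_nonneg (G.ρ_pos z).le (hψn z)) hz1 hr ?_
    intro z hz
    rw [hψ1 z hz, mul_one]
    exact G.ρ_pos z
  have hint := integrable_rest G hφ (fun _ hz => contDiffAt_nrm G hw.smooth hz)
    (fun _ hz => contDiffAt_gn G hw.smooth hz) (fun _ hz => gn_pos G hz) μ
  set b : ℝ := ∫ z, G.ρ z * ψ z ∂μ with hb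
  set c0 : ℝ := ∫ z, (G.ρ z * fderiv ℝ φ z (W0 G w φ z)
        + φ z * divE (fun y => G.ρ y • W0 G w φ y) z) ∂μ with hc0
  obtain ⟨t0, ht0, V, A, V1, A1, V2, A2, h1, hV1, hA1, eV1, eA1, eV2, hq⟩ :=
    variation G hw hμ φ ψ hφ.smooth hψ.smooth hφ.cpt hψ.cpt hφ.sub hψ.sub ((0 - c0) / (2 * b))
  have hV2 : V2 = 0 := by
    rw [eV2]
    have e : ∀ z, (G.ρ z * (2 * ((0 - c0) / (2 * b)) * ψ z + fderiv ℝ φ z (W0 G w φ z))
      + φ z * divE (fun y => G.ρ y • W0 G w φ y) z)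
      = (2 * ((0 - c0) / (2 * b))) * (G.ρ z * ψ z) + (G.ρ z * fderiv ℝ φ z (W0 G w φ z)
      + φ z * divE (fun y => G.ρ y • W0 G w φ y) z) := fun z => by ring
    simp_rw [e]
    rw [integral_add (hψi.const_mul _) hint, integral_const_mul, ← hb, ← hc0]
    have : b ≠ 0 := hb0.ne'
    field_simp
    ring
  rw [hV2] at hV1
  have key := StableCMC.var G hw hst hφ hψ _ ht0 h1 hV1 hA1 (by rw [eV1, h0])
  refine ⟨by rw [← eA1]; exact key.1, fun Λ hΛ => ?_⟩
  rw [← hq Λ hΛ, hV2]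
  linarith [key.2]

/-- If the first variation of area vanishes on the functions of mean zero, the mean curvature is
constant. -/
theorem exists_H_of_ker {w : E → ℝ} (hw : IsReg w) {μ : Measure E} (hμ : IsDelta w μ)
    (hmc : ∀ z, fderiv ℝ w z ≠ 0 → ContinuousAt (G.mc w) z)
    (hker : ∀ φ, Adm w φ → ∫ z, G.ρ z * φ z ∂μ = 0 →
      ∫ z, G.mc w z * (G.ρ z * φ z) ∂μ = 0) :
    ∃ Λ : ℝ, ∀ z, w z = 0 → G.mc w z = Λ := by
  classical
  have hfin := hμ.fin
  by_cases hne : ∃ z1, w z1 = 0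
  swap
  · exact ⟨0, fun z hz => absurd ⟨z, hz⟩ hne⟩
  obtain ⟨z1, hz1⟩ := hne
  have hρc : Continuous G.ρ := G.smooth_ρ.continuous
  have hBi : ∀ φ, Adm w φ → Integrable (fun z => G.ρ z * φ z) μ := fun φ hφ =>
    hφ.integrable_mul (fun z _ => hρc.continuousAt) μ
  have hAi : ∀ φ, Adm w φ → Integrable (fun z => G.mc w z * (G.ρ z * φ z)) μ := by
    intro φ hφ
    have := hφ.integrable_mul (F := fun z => G.mc w z * G.ρ z)
      (fun z hz => (hmc z hz).mul hρc.continuousAt) μ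
    refine this.congr (Eventually.of_forall fun z => ?_)
    simp only
    ring
  set B : (E → ℝ) → ℝ := fun φ => ∫ z, G.ρ z * φ z ∂μ with hB
  set A : (E → ℝ) → ℝ := fun φ => ∫ z, G.mc w z * (G.ρ z * φ z) ∂μ with hA
  have hBlin : ∀ φ ψ, Adm w φ → Adm w ψ → ∀ a b : ℝ,
      B (fun z => a * φ z + b * ψ z) = a * B φ + b * B ψ := by
    intro φ ψ hφ hψ a b
    simp only [hB]
    rw [← integral_const_mul, ← integral_const_mul, ← integral_add
      ((hBi φ hφ).const_mul a) ((hBi ψ hψ).const_mul b)]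
    congr 1
    ext z
    ring
  have hAlin : ∀ φ ψ, Adm w φ → Adm w ψ → ∀ a b : ℝ,
      A (fun z => a * φ z + b * ψ z) = a * A φ + b * A ψ := by
    intro φ ψ hφ hψ a b
    simp only [hA]
    rw [← integral_const_mul, ← integral_const_mul, ← integral_add
      ((hAi φ hφ).const_mul a) ((hAi ψ hψ).const_mul b)]
    congr 1
    ext z
    ring
  obtain ⟨φ0, hφ0, hφ0n, -, r0, hr0, hφ01⟩ := exists_bump hw hz1 (U := univ) Filter.univ_mem
  have hB0 : 0 < B φ0 := by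
    refine integral_pos_of hμ (hBi φ0 hφ0)
      (fun z => mul_nonneg (G.ρ_pos z).le (hφ0n z)) hz1 hr0 ?_
    intro z hz
    rw [hφ01 z hz, mul_one]
    exact G.ρ_pos z
  set Λ : ℝ := A φ0 / B φ0 with hΛ
  have hprop : ∀ φ, Adm w φ → A φ = Λ * B φ := by
    intro φ hφ
    have h1 : Adm w (fun z => (-(B φ / B φ0)) * φ0 z + 1 * φ z) :=
      (hφ0.const_mul _).add (hφ.const_mul 1)
    have k1 : A (fun z => (-(B φ / B φ0)) * φ0 z + 1 * φ z) = 0 :=
      hker _ h1 (by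
        have : B (fun z => (-(B φ / B φ0)) * φ0 z + 1 * φ z) = 0 := by
          rw [hBlin φ0 φ hφ0 hφ]; field_simp; ring
        exact this)
    rw [hAlin φ0 φ hφ0 hφ] at k1
    have : A φ = B φ / B φ0 * A φ0 := by linarith
    rw [this, hΛ]
    ring
  have hdiff : ∀ φ, Adm w φ → ∫ z, (G.mc w z - Λ) * (G.ρ z * φ z) ∂μ = 0 := by
    intro φ hφ
    have e : ∀ z, (G.mc w z - Λ) * (G.ρ z * φ z)
        = G.mc w z * (G.ρ z * φ z) - Λ * (G.ρ z * φ z) := fun z => by ring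
    simp_rw [e]
    rw [integral_sub (hAi φ hφ) ((hBi φ hφ).const_mul Λ), integral_const_mul]
    have := hprop φ hφ
    simp only [hA, hB] at this
    linarith
  refine ⟨Λ, fun z0 hz0 => ?_⟩
  have hcont : ContinuousAt (G.mc w) z0 := hmc z0 (hw.reg z0 hz0)
  have key : ∀ s : ℝ, 0 < s * (G.mc w z0 - Λ) → False := by
    intro s hs
    have hU : {z | 0 < s * (G.mc w z - Λ)} ∈ 𝓝 z0 := by
      have hc : ContinuousAt (fun z => s * (G.mc w z - Λ)) z0 :=
        continuousAt_const.mul (hcont.sub continuousAt_const)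
      exact hc.eventually (lt_mem_nhds hs)
    obtain ⟨φ, hφ, hφn, hφU, r, hr, hφ1⟩ := exists_bump hw hz0 hU
    have hint : Integrable (fun z => s * ((G.mc w z - Λ) * (G.ρ z * φ z))) μ := by
      have := ((hAi φ hφ).sub ((hBi φ hφ).const_mul Λ)).const_mul s
      refine this.congr (Eventually.of_forall fun z => ?_)
      simp only [Pi.sub_apply]
      ring
    have hnn : ∀ z, 0 ≤ s * ((G.mc w z - Λ) * (G.ρ z * φ z)) := by
      intro z
      by_cases hz : z ∈ tsupport φ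
      · have h1 : 0 < s * (G.mc w z - Λ) := hφU hz
        have h2 : 0 ≤ G.ρ z * φ z := mul_nonneg (G.ρ_pos z).le (hφn z)
        calc (0 : ℝ) ≤ (s * (G.mc w z - Λ)) * (G.ρ z * φ z) := mul_nonneg h1.le h2
          _ = _ := by ring
      · have : φ z = 0 := image_eq_zero_of_notMem_tsupport hz
        simp [this]
    have hp := integral_pos_of hμ hint hnn hz0 hr (by
      intro z hz
      have hz1 : φ z = 1 := hφ1 z hz
      have hzt : z ∈ tsupport φ := subset_tsupport φ (by simp [hz1])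
      have h1 : 0 < s * (G.mc w z - Λ) := hφU hzt
      rw [hz1, mul_one]
      calc (0 : ℝ) < (s * (G.mc w z - Λ)) * G.ρ z := mul_pos h1 (G.ρ_pos z)
        _ = _ := by ring)
    rw [integral_const_mul, hdiff φ hφ, mul_zero] at hp
    exact lt_irrefl 0 hp
  rcases lt_trichotomy (G.mc w z0) Λ with h | h | h
  · exact (key (-1) (by linarith)).elim
  · exact h
  · exact (key 1 (by linarith)).elim

/-- The boundary of a stable domain has constant mean curvature. -/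
theorem exists_H_cmc {w : E → ℝ} (hw : IsReg w) {μ : Measure E} (hμ : IsDelta w μ)
    (hst : StableCMC G {x | w x < 0}) :
    ∃ Λ : ℝ, ∀ z, w z = 0 → G.mc w z = Λ := by
  by_cases hne : ∃ z1, w z1 = 0
  · obtain ⟨z1, hz1⟩ := hne
    exact exists_H_of_ker G hw hμ
      (fun z hz => continuousAt_dv G (contDiffAt_nrm G hw.smooth hz))
      (fun φ hφ h0 => (StableCMC.exists_var G hw hμ hst hφ h0 hz1).1)
  · exact ⟨0, fun z hz => absurd ⟨z, hz⟩ hne⟩

/-- The second variation of a stable domain is nonnegative. -/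
theorem second_var_nonneg_cmc {w : E → ℝ} (hw : IsReg w) {μ : Measure E} (hμ : IsDelta w μ)
    (hst : StableCMC G {x | w x < 0})
    (φ : E → ℝ) (hφ : ContDiff ℝ ∞ φ) (hφc : HasCompactSupport φ)
    (hφs : ∀ z ∈ tsupport φ, fderiv ℝ w z ≠ 0) (h0 : ∫ z, G.ρ z * φ z ∂μ = 0) :
    0 ≤ ∫ z, G.ρ z * φ z * (G.dv (Ndot G w φ) z
          + fderiv ℝ (G.mc w) z (W0 G w φ z)) ∂μ := by
  by_cases hne : ∃ z1, w z1 = 0
  · obtain ⟨z1, hz1⟩ := hne
    obtain ⟨Λ, hΛ⟩ := exists_H_cmc G hw hμ hst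
    exact (StableCMC.exists_var G hw hμ hst ⟨hφ, hφc, hφs⟩ h0 hz1).2 Λ hΛ
  · have hμ0 : μ = 0 := by
      rw [← Measure.measure_univ_eq_zero]
      have : (univ : Set E) = (surf w)ᶜ := by
        ext z
        simp only [mem_univ, surf, mem_compl_iff, mem_ofPred_eq, true_iff]
        exact fun h => hne ⟨z, h⟩
      rw [this]
      exact hμ.supp
    rw [hμ0, integral_zero_measure]

/-- The stability inequality of a stable domain. -/
theorem stability_cmc {w : E → ℝ} (hw : IsReg w) {μ : Measure E} (hμ : IsDelta w μ)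
    (hst : StableCMC G {x | w x < 0})
    (f : E → ℝ) (hf : ContDiff ℝ ∞ f) (hf0 : ∫ z, f z * (G.ρ z * G.gn w z) ∂μ = 0) :
    0 ≤ ∫ z, (⟪G.C z (gradient f z), gradient f z⟫_ℝ - fderiv ℝ f z (G.nrm w z) ^ 2
      - f z ^ 2 * (tr ((G.nab (G.nrm w) z).comp (G.nab (G.nrm w) z)) - G.R))
      * (G.ρ z * G.gn w z) ∂μ :=
  stability_core G hw hμ (fun X hX => surf_div G hw hμ X hX)
    (fun φ hφ hφc hφs h0 => second_var_nonneg_cmc G hw hμ hst φ hφ hφc hφs h0) f hf hf0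

end

end Pool.Agent.Work.MP_3b24f6_gt
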