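import Pool.Agent.Work.MP_3b24f6_gt.StableLoc
import Pool.Agent.Work.MP_3b24f6_gt.BalanceA
import Pool.Agent.Work.MP_3b24f6_gt.Key
import Pool.Agent.Work.MP_3b24f6_gt.Local

/-! Volume-preserving stable domains of rank one symmetric spaces are geodesic balls. -/

set_option autoImplicit false

open MeasureTheory Set Filter Topology Asymptotics
open scoped ContDiff InnerProductSpace

namespace Pool.Agent.Work.MP_3b24f6_gt

noncomputable section

variable {E : Type*} [NormedAddCommGroup E] [InnerProductSpace ℝ E]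

theorem sm_fderiv_inner (e z v : E) : fderiv ℝ (fun x : E => ⟪e, x⟫_ℝ) z v = ⟪e, v⟫_ℝ := by
  have h : HasFDerivAt (fun x : E => ⟪e, x⟫_ℝ) (innerSL ℝ e) z := (innerSL ℝ e).hasFDerivAt
  rw [h.fderiv]
  rfl

theorem sm_contDiff_inner (e : E) : ContDiff ℝ ∞ (fun x : E => ⟪e, x⟫_ℝ) :=
  (innerSL ℝ e).contDiff

theorem sm_norm_lt_iff (z : E) {c : ℝ} (hc : 0 < c) :
    ‖z‖ < c ↔ uu z < Real.sqrt (1 + c ^ 2) := by
  unfold uu
  rw [Real.sqrt_lt_sqrt_iff (by positivity)]
  constructor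
  · intro h
    have := pow_lt_pow_left₀ h (norm_nonneg z) (two_ne_zero)
    linarith
  · intro h
    exact lt_of_pow_lt_pow_left₀ 2 hc.le (by linarith)

variable [FiniteDimensional ℝ E]

theorem sm_gradient_inner (e z : E) : gradient (fun x : E => ⟪e, x⟫_ℝ) z = e := by
  have h : HasGradientAt (fun x : E => ⟪e, x⟫_ℝ) e z := by
    rw [hasGradientAt_iff_hasFDerivAt]
    exact (innerSL ℝ e).hasFDerivAt
  exact h.gradient

variable [MeasurableSpace E] [BorelSpace E]

/-- Stability is invariant under the isometries `phi p`. -/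
theorem StableCMC.comp_phi {G : Geo E} (h : Hom G) {w : E → ℝ}
    (hst : StableCMC G {x | w x < 0}) (hw : IsReg w) (p : E) :
    StableCMC G {x | (w ∘ h.phi p) x < 0} := by
  intro F hF hreg hK h0 hvol ε hε
  obtain ⟨K, hK, hKs⟩ := hK
  have hcomp : ∀ t, (fun x => F t (h.inv p x)) ∘ h.phi p = F t := by
    intro t
    funext x
    simp [h.inv_phi]
  have hreg' : ∀ᶠ t in 𝓝 (0 : ℝ), IsReg (fun x => F t (h.inv p x)) := by
    filter_upwards [hreg] with t ht
    exact ht.comp_inv h p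
  have hv : ∀ t, IsReg (fun x => F t (h.inv p x)) →
      G.vol {x | F t (h.inv p x) < 0} = G.vol {x | F t x < 0} := by
    intro t ht
    have := h.vol_comp_reg ht p
    rw [hcomp] at this
    exact this.symm
  have ha : ∀ t, IsReg (fun x => F t (h.inv p x)) →
      G.area {x | F t (h.inv p x) < 0} = G.area {x | F t x < 0} := by
    intro t ht
    have := h.area_comp ht p
    rw [hcomp] at this
    exact this.symm
  have key := hst (fun t x => F t (h.inv p x)) ?_ hreg' ⟨h.phi p '' K, ?_, ?_⟩ ?_ ?_ ε hε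
  · rw [h.area_comp hw p]
    filter_upwards [key, hreg'] with t ht htr
    rw [← ha t htr]
    exact ht
  · exact hF.comp (contDiff_fst.prodMk ((h.smooth_inv p).comp contDiff_snd))
  · exact hK.image (h.smooth_phi p).continuous
  · filter_upwards [hKs] with t ht x hx
    exact ⟨h.inv p x, ht hx, h.phi_inv p x⟩
  · ext x
    have h1 : h.inv p x ∈ {x | F 0 x < 0} ↔ h.inv p x ∈ {x | (w ∘ h.phi p) x < 0} := by rw [h0]
    simpa [h.phi_inv] using h1
  · rw [h.vol_comp_reg hw p] at hvol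
    refine hvol.congr' ?_ EventuallyEq.rfl
    filter_upwards [hreg'] with t htr
    rw [hv t htr]

/-- A volume-preserving stable smooth bounded domain is a metric ball. -/
theorem main_stable (G : Geo E) {ι : Type} [Fintype ι] [DecidableEq ι] (hR : Rad G ι)
    (hι : 1 ≤ Fintype.card ι) (hdim : 2 * Fintype.card ι + 2 ≤ Module.finrank ℝ E)
    (h : Hom G) {D : Set E} (hD : SmoothDomain D) (hne : D.Nonempty) (hst : StableCMC G D) :
    ∃ p : E, ∃ c : ℝ, 1 < c ∧ D = {x | h.chd p x < c} := by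
  obtain ⟨w, hw, hDw⟩ := (smoothDomain_iff D).1 hD
  subst hDw
  obtain ⟨p, hreg, -, -, hbal⟩ := exists_balanced h hw hne
  have hst' := hst.comp_phi h hw p
  set v : E → ℝ := w ∘ h.phi p with hvdef
  obtain ⟨μ, hμ⟩ := exists_delta hreg
  have hne' : ∃ x, v x < 0 := by
    obtain ⟨x, hx⟩ := hne
    refine ⟨h.inv p x, ?_⟩
    simpa [hvdef, h.phi_inv] using hx
  obtain ⟨Λ, hΛ⟩ := exists_H_cmc G hreg hμ hst'
  have hstab : ∀ e : E, 0 ≤ ∫ z, (⟪G.C z e, e⟫_ℝ - ⟪e, G.nrm v z⟫_ℝ ^ 2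
      - ⟪e, z⟫_ℝ ^ 2 * (tr ((G.nab (G.nrm v) z).comp (G.nab (G.nrm v) z)) - G.R))
      * (G.ρ z * G.gn v z) ∂μ := by
    intro e
    have hs := stability_cmc G hreg hμ hst' (fun x => ⟪e, x⟫_ℝ) (sm_contDiff_inner e)
      (hbal μ hμ e)
    simpa only [sm_gradient_inner, sm_fderiv_inner] using hs
  obtain ⟨c, hc, hball⟩ := balanced_min_ball G hR hι hdim hreg hμ hne' Λ hΛ hstab
  refine ⟨p, Real.sqrt (1 + c ^ 2), ?_, ?_⟩
  · rw [Real.lt_sqrt (by norm_num)]
    nlinarith
  ext x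
  have h1 : (w x < 0) ↔ h.inv p x ∈ Metric.ball (0 : E) c := by
    rw [← hball]
    simp [hvdef, h.phi_inv]
  have h2 : h.chd p x = uu (h.inv p x) := by
    have := h.chd_phi p 0 (h.inv p x)
    rw [h.phi_zero, h.phi_inv, h.chd_zero] at this
    exact this
  simp only [mem_ofPred_eq]
  rw [h1, mem_ball_zero_iff, h2]
  exact sm_norm_lt_iff _ hc

end

end Pool.Agent.Work.MP_3b24f6_gt
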