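import Mathlib

/-!
Statement-level definitions: Riemannian geometry in one global chart.

`E` is a finite-dimensional real inner product space (the chart); a Riemannian metric on `E` is
given by its metric tensor `g z u v` (`z` the point, `u`, `v` tangent vectors). Length, distance,
balls, volume and perimeter are the Riemannian ones, computed from `g`.

The noncompact symmetric spaces of rank one over `ℂ`, `ℍ`, `𝕆` (curvature between `-4` and `-1`)
are written in the global chart `z = sinh r • ω` (`r` the distance to the origin, `ω` the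
direction), in which the metric is
`dr² + sinh² r * |dω|² + sinh⁴ r * |vertical part of dω|²
  = |v|² - ⟪z, v⟫² / (1 + |z|²) + |z|² * |vertical part of v|²`,
the vertical directions at `z` being those of the `𝕂`-line through `z` orthogonal to `z`.
For `ℂ` this is the Bergman metric of the unit ball of `ℂⁿ` in the coordinates
`z = x / √(1 - |x|²)`.
-/

set_option autoImplicit false

open MeasureTheory Set Filter Topology
open scoped ContDiff InnerProductSpace

namespace Pool.Agent.Work.MP_3b24f6_gt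

noncomputable section

namespace Riem

variable {E : Type*} [NormedAddCommGroup E] [InnerProductSpace ℝ E]

/-- Riemannian length of the tangent vector `v` at `z`. -/
def len (g : E → E → E → ℝ) (z v : E) : ℝ := Real.sqrt (g z v v)

/-- Riemannian distance: the infimum of the lengths of the `C¹` curves from `x` to `y`. -/
def dist (g : E → E → E → ℝ) (x y : E) : ℝ :=
  sInf {L : ℝ | ∃ γ : ℝ → E, ContDiff ℝ 1 γ ∧ γ 0 = x ∧ γ 1 = y ∧
    L = ∫ t in (0 : ℝ)..1, len g (γ t) (deriv γ t)}

/-- The geodesic ball of radius `r` about `p`. -/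
def ball (g : E → E → E → ℝ) (p : E) (r : ℝ) : Set E := {x | dist g p x < r}

section measure
variable [FiniteDimensional ℝ E]

/-- Density of the Riemannian volume: the square root of the Gram determinant of the metric tensor
in an orthonormal basis of the chart. -/
def dens (g : E → E → E → ℝ) (z : E) : ℝ :=
  Real.sqrt (Matrix.of fun i j => g z (stdOrthonormalBasis ℝ E i) (stdOrthonormalBasis ℝ E j)).det

/-- Euclidean divergence. -/
def div (Z : E → E) (x : E) : ℝ := LinearMap.trace ℝ E (fderiv ℝ Z x)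

variable [MeasurableSpace E] [BorelSpace E]

/-- Riemannian volume. -/
def vol (g : E → E → E → ℝ) (D : Set E) : ENNReal := ∫⁻ z in D, ENNReal.ofReal (dens g z)

/-- Riemannian perimeter (De Giorgi): the supremum, over the smooth compactly supported vector
fields `X` of Riemannian length at most `1`, of the integral over `D` of the Riemannian divergence
of `X` with respect to the Riemannian volume. For a bounded domain with smooth boundary it is the
Riemannian area of the boundary. -/
def area (g : E → E → E → ℝ) (D : Set E) : ENNReal :=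
  ⨆ X : {X : E → E // ContDiff ℝ ∞ X ∧ HasCompactSupport X ∧ ∀ z, len g z (X z) ≤ 1},
    ENNReal.ofReal (∫ z in D, div (fun y => dens g y • X.1 y) z)

/-- Balls are optimal for isoperimetry: a measurable set whose volume is that of a ball has at
least the perimeter of the ball. -/
def BallsOptimal (g : E → E → E → ℝ) : Prop :=
  ∀ D : Set E, MeasurableSet D → ∀ (p : E) (r : ℝ), vol g D = vol g (ball g p r) →
    area g (ball g p r) ≤ area g D

end measure

/-- `J` is an orthogonal complex structure. -/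
def IsCplx (J : E →L[ℝ] E) : Prop := ∀ x, ‖J x‖ = ‖x‖ ∧ J (J x) = -x

/-- `I`, `J`, `I J` form an orthogonal quaternionic structure. -/
def IsQuat (I J : E →L[ℝ] E) : Prop := IsCplx I ∧ IsCplx J ∧ ∀ x, I (J x) = -J (I x)

/-- For `E = ℝ¹⁶ = 𝕆²`: the nine symmetric operators of the octonionic Hopf fibration. The vectors
`S a z` are orthogonal, of norm `|z|`, and their span contains `z`; the seven directions
orthogonal to all of them are the vertical ones at `z`. -/
structure IsOct (S : Fin 9 → E →L[ℝ] E) : Prop where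
  symm : ∀ a x y, ⟪S a x, y⟫_ℝ = ⟪x, S a y⟫_ℝ
  sq : ∀ a x, S a (S a x) = x
  anti : ∀ a b, a ≠ b → ∀ x, S a (S b x) = -S b (S a x)
  hopf : ∀ x, ∑ a, ⟪S a x, x⟫_ℝ ^ 2 = ‖x‖ ^ 4

/-- The metric of complex hyperbolic space. -/
def metC (J : E →L[ℝ] E) (z u v : E) : ℝ :=
  ⟪u, v⟫_ℝ - ⟪z, u⟫_ℝ * ⟪z, v⟫_ℝ / (1 + ‖z‖ ^ 2) + ⟪J z, u⟫_ℝ * ⟪J z, v⟫_ℝ

/-- The metric of quaternionic hyperbolic space. -/
def metH (I J : E →L[ℝ] E) (z u v : E) : ℝ :=
  ⟪u, v⟫_ℝ - ⟪z, u⟫_ℝ * ⟪z, v⟫_ℝ / (1 + ‖z‖ ^ 2) + (⟪I z, u⟫_ℝ * ⟪I z, v⟫_ℝ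
    + ⟪J z, u⟫_ℝ * ⟪J z, v⟫_ℝ + ⟪I (J z), u⟫_ℝ * ⟪I (J z), v⟫_ℝ)

/-- The metric of the Cayley hyperbolic plane. -/
def metO (S : Fin 9 → E →L[ℝ] E) (z u v : E) : ℝ :=
  ⟪u, v⟫_ℝ - ⟪z, u⟫_ℝ * ⟪z, v⟫_ℝ / (1 + ‖z‖ ^ 2)
    + (‖z‖ ^ 2 * ⟪u, v⟫_ℝ - ∑ a, ⟪S a z, u⟫_ℝ * ⟪S a z, v⟫_ℝ)

end Riem

end

end Pool.Agent.Work.MP_3b24f6_gt
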