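import Pool.Agent.Work.MP_3b24f6_gt.Model

/-!
Statement-level definitions for complex hyperbolic space, in the global chart
`y = z / √(1 - |z|²) = sinh r · ω` (`z` in the unit ball of `ℂⁿ`, `r` the distance to the origin,
`ω` the direction). In this chart the metric tensor at `z` is `⟪chA S z u, v⟫`, i.e.
`|v|² - ⟪z, v⟫²/(1+|z|²) + ⟪J z, v⟫²`, the Riemannian volume is Lebesgue measure, and
`cosh` of the Riemannian distance is `chd S x y = |√(1+|x|²) √(1+|y|²) - ⟨x, y⟩|` (hermitian
product).
-/

set_option autoImplicit false

open MeasureTheory Set Filter Topology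
open scoped ContDiff InnerProductSpace

namespace Pool.Agent.Work.MP_3b24f6_gt

noncomputable section

variable {E : Type*} [NormedAddCommGroup E] [InnerProductSpace ℝ E] [FiniteDimensional ℝ E]

/-- The geodesic ball of complex hyperbolic space of radius `r` about `p`. -/
def chBall (S : CStr E) (p : E) (r : ℝ) : Set E := {x | chd S p x < Real.cosh r}

/-- Boundary area (De Giorgi perimeter) of `D` in complex hyperbolic space: the supremum of the
fluxes of the smooth compactly supported vector fields of Riemannian length at most `1`. The
Riemannian divergence is the Euclidean one in this chart, the Riemannian volume is Lebesgue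
measure. -/
def chArea [MeasurableSpace E] [BorelSpace E] (S : CStr E) (D : Set E) : ENNReal :=
  ⨆ X : {X : E → E // ContDiff ℝ ∞ X ∧ HasCompactSupport X ∧ ∀ z, ⟪chA S z (X z), X z⟫_ℝ ≤ 1},
    ENNReal.ofReal (∫ z in D, divE X.1 z)

end

end Pool.Agent.Work.MP_3b24f6_gt
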