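import Mathlib

set_option autoImplicit false
set_option linter.unusedSectionVars false

open MeasureTheory Set Filter Topology
open scoped ContDiff InnerProductSpace ENNReal

namespace Pool.Agent.Work.MP_3b24f6_gt

noncomputable section

namespace TA

/-! ### Real inequalities -/

/-- The strict subadditivity of `x ↦ x ^ β` in the form used for cutting. -/
theorem cut_real {a b β d κ v : ℝ} (hβ0 : 0 < β) (hβ1 : β < 1) (hb : 0 ≤ b)
    (hv : 0 < v) (hva : v ≤ a) (hab : a + b ≤ 1) (hκ : 1 - κ ≤ a + b)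
    (h : a ^ β + b ^ β ≤ 1 + d) :
    b ^ β * (1 - (1 - v) ^ (1 - β)) ≤ d + κ := by
  have ha0 : 0 < a := lt_of_lt_of_le hv hva
  have ha1 : a ≤ 1 := by linarith
  have hb1 : b ≤ 1 - v := by linarith
  have h1 : a ≤ a ^ β := by
    calc a = a ^ (1 : ℝ) := (Real.rpow_one a).symm
      _ ≤ a ^ β := Real.rpow_le_rpow_of_exponent_ge ha0 ha1 hβ1.le
  have h2 : b ≤ b ^ β * (1 - v) ^ (1 - β) := by
    rcases hb.eq_or_lt with h0 | h0
    · rw [← h0, Real.zero_rpow hβ0.ne']
      simp
    · have h3 : b ^ (1 - β) ≤ (1 - v) ^ (1 - β) :=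
        Real.rpow_le_rpow hb hb1 (by linarith)
      calc b = b ^ β * b ^ (1 - β) := by
            rw [← Real.rpow_add h0]
            simp
        _ ≤ b ^ β * (1 - v) ^ (1 - β) :=
            mul_le_mul_of_nonneg_left h3 (Real.rpow_nonneg hb β)
  have h4 : b ^ β * (1 - (1 - v) ^ (1 - β)) = b ^ β - b ^ β * (1 - v) ^ (1 - β) := by ring
  rw [h4]
  linarith

theorem one_sub_rpow_pos {v s : ℝ} (hv : 0 < v) (hv1 : v ≤ 1) (hs : 0 < s) :
    0 < 1 - (1 - v) ^ s := by
  have h : (1 - v) ^ s < 1 := by
    rcases hv1.eq_or_lt with h1 | h1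
    · rw [h1, sub_self, Real.zero_rpow hs.ne']
      exact one_pos
    · exact Real.rpow_lt_one (by linarith) (by linarith) hs
  linarith

/-! ### A smooth cutoff profile -/

/-- `1` for `t ≤ 0`, `0` for `t ≥ 1`. -/
def prof (t : ℝ) : ℝ := 1 - Real.smoothTransition t

theorem prof_contDiff : ContDiff ℝ ∞ prof :=
  contDiff_const.sub Real.smoothTransition.contDiff

theorem prof_nonneg (t : ℝ) : 0 ≤ prof t := sub_nonneg.2 (Real.smoothTransition.le_one t)

theorem prof_le_one (t : ℝ) : prof t ≤ 1 := by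
  unfold prof
  linarith [Real.smoothTransition.nonneg t]

theorem prof_one {t : ℝ} (h : t ≤ 0) : prof t = 1 := by
  unfold prof
  rw [Real.smoothTransition.zero_of_nonpos h, sub_zero]

theorem prof_zero {t : ℝ} (h : 1 ≤ t) : prof t = 0 := by
  unfold prof
  rw [Real.smoothTransition.one_of_one_le h, sub_self]

theorem exists_prof_deriv : ∃ M : ℝ, 0 < M ∧ ∀ t, |deriv prof t| ≤ M := by
  have hc : Continuous (deriv prof) := prof_contDiff.continuous_deriv (by simp)
  obtain ⟨M, hM⟩ := isCompact_Icc (a := (-1 : ℝ)) (b := 2) |>.exists_bound_of_continuousOn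
    hc.continuousOn
  refine ⟨max M 1, lt_of_lt_of_le one_pos (le_max_right _ _), fun t => ?_⟩
  by_cases ht : t ∈ Icc (-1 : ℝ) 2
  · exact (hM t ht).trans (le_max_left _ _)
  · have h0 : deriv prof t = 0 := by
      rw [mem_Icc, not_and_or, not_le, not_le] at ht
      rcases ht with ht | ht
      · have : prof =ᶠ[𝓝 t] fun _ => 1 := by
          filter_upwards [Iio_mem_nhds ht] with s hs
          exact prof_one (by linarith [mem_Iio.1 hs])
        rw [this.deriv_eq]
        simp
      · have : prof =ᶠ[𝓝 t] fun _ => 0 := by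
          filter_upwards [Ioi_mem_nhds ht] with s hs
          exact prof_zero (by linarith [mem_Ioi.1 hs])
        rw [this.deriv_eq]
        simp
    rw [h0, abs_zero]
    exact zero_le_one.trans (le_max_right _ _)

/-! ### Pigeonhole over annuli -/

theorem pigeon {X : Type*} [MeasurableSpace X] (μ : Measure X) {h : X → ℝ} (hh : Integrable h μ)
    (h0 : ∀ x, 0 ≤ h x) {l : X → ℝ} (hl : Measurable l) {L : ℝ} (hL : 0 < L) {K : ℕ}
    (hK : 0 < K) :
    ∃ k < K, ∫ x in {x | k * L ≤ l x ∧ l x < (k + 1) * L}, h x ∂μ ≤ (1 / K) * ∫ x, h x ∂μ := by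
  by_contra hcon
  push Not at hcon
  set A : ℕ → Set X := fun k => {x | k * L ≤ l x ∧ l x < (k + 1) * L} with hA
  have hAm : ∀ k, MeasurableSet (A k) := fun k =>
    (measurableSet_le measurable_const hl).inter (measurableSet_lt hl measurable_const)
  have hdisj : Pairwise (Function.onFun Disjoint A) := by
    intro i j hij
    rw [Function.onFun, Set.disjoint_left]
    rintro x ⟨hx1, hx2⟩ ⟨hx3, hx4⟩
    have h1 : (i : ℝ) < j + 1 := by
      have : (i : ℝ) * L < (j + 1) * L := lt_of_le_of_lt hx1 hx4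
      exact lt_of_mul_lt_mul_right this hL.le
    have h2 : (j : ℝ) < i + 1 := by
      have : (j : ℝ) * L < (i + 1) * L := lt_of_le_of_lt hx3 hx2
      exact lt_of_mul_lt_mul_right this hL.le
    have h3 : i < j + 1 := by exact_mod_cast h1
    have h4 : j < i + 1 := by exact_mod_cast h2
    omega
  have hsum : ∑ k ∈ Finset.range K, ∫ x in A k, h x ∂μ ≤ ∫ x, h x ∂μ := by
    rw [← integral_biUnion_finset (Finset.range K) (fun k _ => hAm k)
      (fun i _ j _ hij => hdisj hij) (fun k _ => hh.integrableOn)]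
    exact setIntegral_le_integral hh (Filter.Eventually.of_forall h0)
  have hlt : ∑ _k ∈ Finset.range K, (1 / K) * ∫ x, h x ∂μ
      < ∑ k ∈ Finset.range K, ∫ x in A k, h x ∂μ := by
    refine Finset.sum_lt_sum_of_nonempty (Finset.nonempty_range_iff.2 hK.ne') fun k hk => ?_
    exact hcon k (Finset.mem_range.1 hk)
  rw [Finset.sum_const, Finset.card_range, nsmul_eq_mul, ← mul_assoc,
    mul_one_div_cancel (by exact_mod_cast hK.ne'), one_mul] at hlt
  linarith

/-! ### Averaging over the centre -/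

theorem average {X : Type*} [MeasurableSpace X] (μ : Measure X) [SFinite μ] {chd : X → X → ℝ}
    (hm : Measurable fun q : X × X => chd q.1 q.2) (R : ℝ) {V : ℝ≥0∞}
    (hV : ∀ z, μ {c | chd c z < R} = V) {F : X → ℝ≥0∞} (hF : Measurable F) :
    ∫⁻ c, ∫⁻ z in {z | chd c z < R}, F z ∂μ ∂μ = V * ∫⁻ z, F z ∂μ := by
  have hS : MeasurableSet {q : X × X | chd q.1 q.2 < R} := measurableSet_lt hm measurable_const
  have h1 : ∀ c, ∫⁻ z in {z | chd c z < R}, F z ∂μ
      = ∫⁻ z, {q : X × X | chd q.1 q.2 < R}.indicator (fun q => F q.2) (c, z) ∂μ := by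
    intro c
    have hc : MeasurableSet {z | chd c z < R} :=
      measurableSet_lt (hm.comp measurable_prodMk_left) measurable_const
    rw [← lintegral_indicator hc]
    rfl
  simp_rw [h1]
  have hAE : AEMeasurable (Function.uncurry fun c z : X =>
      {q : X × X | chd q.1 q.2 < R}.indicator (fun q => F q.2) (c, z)) (μ.prod μ) :=
    ((hF.comp measurable_snd).indicator hS).aemeasurable
  rw [lintegral_lintegral_swap hAE]
  have h2 : ∀ z, ∫⁻ c, {q : X × X | chd q.1 q.2 < R}.indicator (fun q => F q.2) (c, z) ∂μ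
      = V * F z := by
    intro z
    have hc : MeasurableSet {c | chd c z < R} :=
      measurableSet_lt (hm.comp measurable_prodMk_right) measurable_const
    have : ∀ c, {q : X × X | chd q.1 q.2 < R}.indicator (fun q => F q.2) (c, z)
        = {c | chd c z < R}.indicator (fun _ => F z) c := fun c => rfl
    simp_rw [this]
    rw [lintegral_indicator hc, setLIntegral_const, hV, mul_comm]
  simp_rw [h2]
  rw [lintegral_const_mul _ hF]

end TA

end

end Pool.Agent.Work.MP_3b24f6_gt
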