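import Pool.Agent.Work.MP_3b24f6_gt.Model
import Pool.Agent.Work.MP_3b24f6_gt.TightAux

set_option autoImplicit false
set_option linter.unusedSectionVars false

open MeasureTheory Set Filter Topology
open scoped ContDiff InnerProductSpace ENNReal

namespace Pool.Agent.Work.MP_3b24f6_gt

noncomputable section

namespace TU

variable {E : Type*} [NormedAddCommGroup E] [InnerProductSpace ℝ E]

theorem one_le_uu (z : E) : 1 ≤ uu z := by
  unfold uu
  rw [Real.one_le_sqrt]
  nlinarith [sq_nonneg ‖z‖]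

theorem uu_pos (z : E) : 0 < uu z := lt_of_lt_of_le one_pos (one_le_uu z)

theorem uu_sq (z : E) : uu z ^ 2 = 1 + ‖z‖ ^ 2 := by
  unfold uu
  rw [Real.sq_sqrt (by positivity)]

theorem contDiff_uu : ContDiff ℝ ∞ (uu : E → ℝ) := by
  unfold uu
  refine ContDiff.sqrt ?_ ?_
  · exact contDiff_const.add (contDiff_norm_sq ℝ)
  · intro x
    positivity

theorem continuous_uu : Continuous (uu : E → ℝ) := contDiff_uu.continuous

theorem norm_le_uu (z : E) : ‖z‖ ≤ uu z := by
  unfold uu
  refine Real.le_sqrt_of_sq_le ?_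
  linarith

theorem inner_gradient [FiniteDimensional ℝ E] (f : E → ℝ) (x v : E) :
    ⟪gradient f x, v⟫_ℝ = fderiv ℝ f x v := by
  unfold gradient
  rw [InnerProductSpace.toDual_symm_apply]

theorem continuous_gradient [FiniteDimensional ℝ E] {f : E → ℝ} (hf : ContDiff ℝ ∞ f) :
    Continuous (fun x => gradient f x) := by
  have h : Continuous (fderiv ℝ f) := hf.continuous_fderiv (by simp)
  exact (InnerProductSpace.toDual ℝ E).symm.continuous.comp h

end TU

/-- The properties of the data used for tightness. -/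
structure TD (E : Type*) [NormedAddCommGroup E] [InnerProductSpace ℝ E] [FiniteDimensional ℝ E]
    [MeasurableSpace E] [BorelSpace E] where
  N : ℝ
  N_pos : 0 < N
  μ : Measure E
  fin : IsFiniteMeasureOnCompacts μ
  sfin : SFinite μ
  lo : ∃ c : ℝ, 0 < c ∧ ∀ h : E → ℝ, Continuous h → (∀ z, 0 ≤ h z) →
    (∫ z in {z | uu z < 2}, h z ∂μ ≤ c * ∫ z in {z | uu z < 2}, h z) ∧
    (∫ z in {z | uu z < 3}, h z ≤ c * ∫ z in {z | uu z < 3}, h z ∂μ)
  an : E → E → ℝ
  an_cont : Continuous fun q : E × E => an q.1 q.2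
  an_nonneg : ∀ z ξ, 0 ≤ an z ξ
  an_add : ∀ z ξ ζ, an z (ξ + ζ) ≤ an z ξ + an z ζ
  an_smul : ∀ (z ξ : E) (a : ℝ), an z (a • ξ) = |a| * an z ξ
  an_low : ∀ z ξ, ‖ξ‖ ≤ uu z * an z ξ
  an_log : ∀ z : E, an z ((uu z ^ 2)⁻¹ • z) ≤ 1
  int_le : ∀ f : E → ℝ, ContDiff ℝ ∞ f → HasCompactSupport f → (∀ z, 0 ≤ f z) →
    N * ∫ z, f z ∂μ ≤ ∫ z, an z (gradient f z) ∂μ
  chd : E → E → ℝ
  phi : E → E → E
  inv : E → E → E
  smooth_phi : ∀ c, ContDiff ℝ ∞ (phi c)
  smooth_inv : ∀ c, ContDiff ℝ ∞ (inv c)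
  phi_inv : ∀ c y, phi c (inv c y) = y
  inv_phi : ∀ c y, inv c (phi c y) = y
  phi_zero : ∀ c, phi c 0 = c
  mp : ∀ c, MeasurePreserving (phi c) μ μ
  an_phi : ∀ c (f : E → ℝ) y, DifferentiableAt ℝ f (phi c y) →
    an y (gradient (fun x => f (phi c x)) y) = an (phi c y) (gradient f (phi c y))
  chd_phi : ∀ c x y, chd (phi c x) (phi c y) = chd x y
  chd_zero : ∀ y, chd 0 y = uu y
  chd_symm : ∀ x y, chd x y = chd y x
  chd_cont : Continuous fun q : E × E => chd q.1 q.2

namespace TD

variable {E : Type*} [NormedAddCommGroup E] [InnerProductSpace ℝ E] [FiniteDimensional ℝ E]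
    [MeasurableSpace E] [BorelSpace E] (D : TD E)

/-- The class of functions. -/
structure IsFn (f : E → ℝ) : Prop where
  smooth : ContDiff ℝ ∞ f
  cpt : HasCompactSupport f
  nonneg : ∀ z, 0 ≤ f z

/-- Total variation. -/
def tv (f : E → ℝ) : ℝ := ∫ z, D.an z (gradient f z) ∂D.μ

/-- `p`-th power of the norm. -/
def ms (p : ℝ) (f : E → ℝ) : ℝ := ∫ z, f z ^ p ∂D.μ

/-- Infimum. -/
def qi (p : ℝ) : ℝ := sInf {r | ∃ f : E → ℝ, IsFn f ∧ D.ms p f = 1 ∧ r = D.tv f}

theorem inner_gradient (f : E → ℝ) (x v : E) : ⟪gradient f x, v⟫_ℝ = fderiv ℝ f x v :=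
  TU.inner_gradient f x v

theorem gradient_mul (f h : E → ℝ) (z : E) (hf : DifferentiableAt ℝ f z)
    (hh : DifferentiableAt ℝ h z) :
    gradient (fun y => h y * f y) z = h z • gradient f z + f z • gradient h z := by
  refine ext_inner_right ℝ fun v => ?_
  rw [inner_gradient, inner_add_left, inner_smul_left, inner_smul_left,
    inner_gradient, inner_gradient, fderiv_fun_mul hh hf]
  simp

theorem gradient_smul (f : E → ℝ) (z : E) (a : ℝ) (hf : DifferentiableAt ℝ f z) :
    gradient (fun y => a * f y) z = a • gradient f z := by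
  refine ext_inner_right ℝ fun v => ?_
  rw [inner_gradient, inner_smul_left, inner_gradient, fderiv_const_mul hf]
  simp

theorem gradient_comp (φ : ℝ → ℝ) (f : E → ℝ) (z : E) (hf : DifferentiableAt ℝ f z)
    (hφ : DifferentiableAt ℝ φ (f z)) :
    gradient (fun y => φ (f y)) z = deriv φ (f z) • gradient f z := by
  refine ext_inner_right ℝ fun v => ?_
  rw [inner_gradient, inner_smul_left, inner_gradient]
  have h : HasFDerivAt (fun y => φ (f y)) (deriv φ (f z) • fderiv ℝ f z) z :=
    hφ.hasDerivAt.comp_hasFDerivAt z hf.hasFDerivAt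
  rw [h.fderiv]
  simp

theorem continuous_gradient {f : E → ℝ} (hf : ContDiff ℝ ∞ f) :
    Continuous (fun x => gradient f x) := TU.continuous_gradient hf

namespace IsFn

variable {f : E → ℝ}

theorem differentiable (hf : IsFn f) : Differentiable ℝ f := hf.smooth.differentiable (by simp)

theorem mul_left (hf : IsFn f) {h : E → ℝ} (hh : ContDiff ℝ ∞ h) (h0 : ∀ z, 0 ≤ h z) :
    IsFn (fun y => h y * f y) where
  smooth := hh.mul hf.smooth
  cpt := hf.cpt.mul_left
  nonneg z := mul_nonneg (h0 z) (hf.nonneg z)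

theorem const_mul (hf : IsFn f) {a : ℝ} (ha : 0 ≤ a) : IsFn (fun y => a * f y) :=
  hf.mul_left contDiff_const fun _ => ha

theorem continuous_rpow (hf : IsFn f) {p : ℝ} (hp : 0 < p) :
    Continuous fun z => f z ^ p := hf.smooth.continuous.rpow_const fun _ => Or.inr hp.le

theorem hcs_rpow (hf : IsFn f) {p : ℝ} (hp : 0 < p) :
    HasCompactSupport fun z => f z ^ p :=
  hf.cpt.comp_left (g := fun x : ℝ => x ^ p) (Real.zero_rpow hp.ne')

end IsFn

theorem integrable_rpow {f : E → ℝ} (hf : IsFn f) {p : ℝ} (hp : 0 < p) :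
    Integrable (fun z => f z ^ p) D.μ := by
  have := D.fin
  exact (hf.continuous_rpow hp).integrable_of_hasCompactSupport (hf.hcs_rpow hp)

theorem integrable_fn {f : E → ℝ} (hf : IsFn f) : Integrable f D.μ := by
  have := D.fin
  exact hf.smooth.continuous.integrable_of_hasCompactSupport hf.cpt

theorem an_zero (z : E) : D.an z 0 = 0 := by
  have h := D.an_smul z 0 0
  rwa [smul_zero, abs_zero, zero_mul] at h

theorem continuous_an {f : E → ℝ} (hf : ContDiff ℝ ∞ f) :
    Continuous fun z => D.an z (gradient f z) :=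
  D.an_cont.comp (continuous_id.prodMk (continuous_gradient hf))

theorem integrable_an {f : E → ℝ} (hf : IsFn f) :
    Integrable (fun z => D.an z (gradient f z)) D.μ := by
  have := D.fin
  refine (D.continuous_an hf.smooth).integrable_of_hasCompactSupport ?_
  refine HasCompactSupport.of_support_subset_isCompact (hf.cpt.fderiv (𝕜 := ℝ)) ?_
  intro z hz
  by_contra h
  have h1 : fderiv ℝ f z = 0 := image_eq_zero_of_notMem_tsupport h
  have h0 : gradient f z = 0 := by
    refine ext_inner_right ℝ fun v => ?_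
    rw [inner_gradient, h1]
    simp
  refine hz ?_
  simp only
  rw [h0, an_zero]

theorem tv_nonneg (f : E → ℝ) : 0 ≤ D.tv f := integral_nonneg fun _ => D.an_nonneg _ _

theorem ms_nonneg {f : E → ℝ} (hf : IsFn f) (p : ℝ) : 0 ≤ D.ms p f :=
  integral_nonneg fun z => Real.rpow_nonneg (hf.nonneg z) p

theorem tv_const_mul {f : E → ℝ} (hf : IsFn f) {a : ℝ} (ha : 0 ≤ a) :
    D.tv (fun y => a * f y) = a * D.tv f := by
  unfold tv
  rw [← integral_const_mul]
  refine integral_congr_ae (Filter.Eventually.of_forall fun z => ?_)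
  simp only
  rw [gradient_smul f z a (hf.differentiable z), D.an_smul, abs_of_nonneg ha]

theorem ms_const_mul {f : E → ℝ} (hf : IsFn f) {a p : ℝ} (ha : 0 ≤ a) :
    D.ms p (fun y => a * f y) = a ^ p * D.ms p f := by
  unfold ms
  rw [← integral_const_mul]
  refine integral_congr_ae (Filter.Eventually.of_forall fun z => ?_)
  simp only
  rw [Real.mul_rpow ha (hf.nonneg z)]

/-- Homogeneous form of the definition of the infimum. -/
theorem qi_mul_le {f : E → ℝ} (hf : IsFn f) {p : ℝ} (hp : 0 < p) :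
    D.qi p * D.ms p f ^ (1 / p) ≤ D.tv f := by
  rcases (D.ms_nonneg hf p).eq_or_lt with h0 | h0
  · rw [← h0, Real.zero_rpow (by positivity), mul_zero]
    exact D.tv_nonneg f
  · set a : ℝ := (D.ms p f ^ (1 / p))⁻¹ with ha
    have hm : 0 < D.ms p f ^ (1 / p) := Real.rpow_pos_of_pos h0 _
    have ha0 : 0 < a := inv_pos.2 hm
    have h1 : D.ms p (fun y => a * f y) = 1 := by
      rw [D.ms_const_mul hf ha0.le, ha, Real.inv_rpow hm.le, ← Real.rpow_mul h0.le,
        one_div_mul_cancel hp.ne', Real.rpow_one, inv_mul_cancel₀ h0.ne']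
    have h2 : D.qi p ≤ D.tv (fun y => a * f y) := by
      refine csInf_le ⟨0, ?_⟩ ⟨_, hf.const_mul ha0.le, h1, rfl⟩
      rintro r ⟨f, _, _, rfl⟩
      exact D.tv_nonneg f
    rw [D.tv_const_mul hf ha0.le] at h2
    calc D.qi p * D.ms p f ^ (1 / p) ≤ a * D.tv f * D.ms p f ^ (1 / p) :=
          mul_le_mul_of_nonneg_right h2 hm.le
      _ = D.tv f := by
          rw [ha]
          field_simp

/-! ### Transport by isometries -/

/-- The isometries as homeomorphisms. -/
def hom (c : E) : E ≃ₜ E where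
  toFun := D.phi c
  invFun := D.inv c
  left_inv := D.inv_phi c
  right_inv := D.phi_inv c
  continuous_toFun := (D.smooth_phi c).continuous
  continuous_invFun := (D.smooth_inv c).continuous

theorem isFn_comp {f : E → ℝ} (hf : IsFn f) (c : E) : IsFn (fun y => f (D.phi c y)) where
  smooth := hf.smooth.comp (D.smooth_phi c)
  cpt := hf.cpt.comp_homeomorph (D.hom c)
  nonneg _ := hf.nonneg _

theorem emb (c : E) : MeasurableEmbedding (D.phi c) := (D.hom c).measurableEmbedding

theorem integral_comp_phi (c : E) (h : E → ℝ) :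
    ∫ y, h (D.phi c y) ∂D.μ = ∫ z, h z ∂D.μ := (D.mp c).integral_comp (D.emb c) h

theorem tv_comp {f : E → ℝ} (hf : IsFn f) (c : E) : D.tv (fun y => f (D.phi c y)) = D.tv f := by
  unfold tv
  rw [← D.integral_comp_phi c (fun z => D.an z (gradient f z))]
  refine integral_congr_ae (Filter.Eventually.of_forall fun z => ?_)
  exact D.an_phi c f z (hf.differentiable _)

theorem ms_comp (f : E → ℝ) (p : ℝ) (c : E) : D.ms p (fun y => f (D.phi c y)) = D.ms p f :=
  D.integral_comp_phi c (fun z => f z ^ p)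

theorem chd_phi_self (c y : E) : D.chd c (D.phi c y) = uu y := by
  have h := D.chd_phi c 0 y
  rwa [D.phi_zero, D.chd_zero] at h

theorem preimage_ball (c : E) (R : ℝ) : D.phi c ⁻¹' {z | D.chd c z < R} = {y | uu y < R} := by
  ext y
  simp only [mem_preimage, mem_ofPred_eq, chd_phi_self]

theorem setIntegral_ball (c : E) (R : ℝ) (h : E → ℝ) :
    ∫ z in {z | D.chd c z < R}, h z ∂D.μ = ∫ y in {y | uu y < R}, h (D.phi c y) ∂D.μ := by
  rw [← (D.mp c).setIntegral_preimage_emb (D.emb c), preimage_ball]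

theorem measure_ball (c : E) (R : ℝ) : D.μ {z | D.chd c z < R} = D.μ {y | uu y < R} := by
  rw [← preimage_ball D c R, (D.mp c).measure_preimage_emb (D.emb c)]

theorem measure_ball' (z : E) (R : ℝ) : D.μ {c | D.chd c z < R} = D.μ {y | uu y < R} := by
  simp_rw [D.chd_symm _ z]
  exact D.measure_ball z R

end TD

end

end Pool.Agent.Work.MP_3b24f6_gt
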