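import Pool.Agent.Work.MP_3b24f6_gt.TightCore

set_option autoImplicit false
set_option linter.unusedSectionVars false

open MeasureTheory Set Filter Topology
open scoped ContDiff InnerProductSpace ENNReal

namespace Pool.Agent.Work.MP_3b24f6_gt

noncomputable section

/-- The local Sobolev inequality with exponents in `[1, P]`. -/
def LocSob (E : Type*) [NormedAddCommGroup E] [InnerProductSpace ℝ E] [FiniteDimensional ℝ E]
    [MeasurableSpace E] [BorelSpace E] (P : ℝ) : Prop :=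
  ∃ C : ℝ, 0 < C ∧ ∀ r : ℝ, 1 ≤ r → r ≤ P → ∀ f : E → ℝ, ContDiff ℝ 1 f → HasCompactSupport f →
    (∀ z, 0 ≤ f z) →
    (∫ z in {z | uu z < 2}, f z ^ r) ^ (1 / r)
      ≤ C * ∫ z in {z | uu z < 3}, (‖fderiv ℝ f z‖ + f z)

namespace TD

variable {E : Type*} [NormedAddCommGroup E] [InnerProductSpace ℝ E] [FiniteDimensional ℝ E]
    [MeasurableSpace E] [BorelSpace E] (D : TD E)

theorem continuous_uu : Continuous (uu : E → ℝ) := TU.continuous_uu

theorem isOpen_ball (R : ℝ) : IsOpen {z : E | uu z < R} :=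
  isOpen_lt continuous_uu continuous_const

theorem norm_fderiv_le (f : E → ℝ) (z : E) :
    ‖fderiv ℝ f z‖ ≤ uu z * D.an z (gradient f z) := by
  have h : ‖fderiv ℝ f z‖ = ‖gradient f z‖ := by
    unfold gradient
    rw [LinearIsometryEquiv.norm_map]
  rw [h]
  exact D.an_low z _

theorem integrable_energy {f : E → ℝ} (hf : IsFn f) :
    Integrable (fun z => D.an z (gradient f z) + f z) D.μ :=
  (D.integrable_an hf).add (D.integrable_fn hf)

theorem energy_nonneg {f : E → ℝ} (hf : IsFn f) (z : E) : 0 ≤ D.an z (gradient f z) + f z :=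
  add_nonneg (D.an_nonneg _ _) (hf.nonneg z)

/-- Local Sobolev inequality at the origin. -/
theorem sob_zero {P : ℝ} (h : LocSob E P) : ∃ C : ℝ, 0 < C ∧ ∀ r : ℝ, 1 ≤ r → r ≤ P →
    ∀ f : E → ℝ, IsFn f →
    (∫ z in {z | uu z < 2}, f z ^ r ∂D.μ) ^ (1 / r)
      ≤ C * ∫ z in {z | uu z < 3}, (D.an z (gradient f z) + f z) ∂D.μ := by
  obtain ⟨C, hC, hS⟩ := h
  obtain ⟨c, hc, hlo⟩ := D.lo
  refine ⟨max c 1 * (C * (3 * c)), by positivity, fun r hr1 hrP f hf => ?_⟩
  have hr0 : 0 < r := lt_of_lt_of_le one_pos hr1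
  have h1 : ∫ z in {z | uu z < 2}, f z ^ r ∂D.μ ≤ c * ∫ z in {z | uu z < 2}, f z ^ r :=
    (hlo _ (hf.continuous_rpow hr0) fun z => Real.rpow_nonneg (hf.nonneg z) r).1
  have hI0 : 0 ≤ ∫ z in {z | uu z < 2}, f z ^ r :=
    integral_nonneg fun z => Real.rpow_nonneg (hf.nonneg z) r
  have hI1 : 0 ≤ ∫ z in {z | uu z < 2}, f z ^ r ∂D.μ :=
    integral_nonneg fun z => Real.rpow_nonneg (hf.nonneg z) r
  have h2 : (∫ z in {z | uu z < 2}, f z ^ r ∂D.μ) ^ (1 / r)
      ≤ max c 1 * (∫ z in {z | uu z < 2}, f z ^ r) ^ (1 / r) := by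
    calc (∫ z in {z | uu z < 2}, f z ^ r ∂D.μ) ^ (1 / r)
        ≤ (c * ∫ z in {z | uu z < 2}, f z ^ r) ^ (1 / r) :=
          Real.rpow_le_rpow hI1 h1 (by positivity)
      _ = c ^ (1 / r) * (∫ z in {z | uu z < 2}, f z ^ r) ^ (1 / r) :=
          Real.mul_rpow hc.le hI0
      _ ≤ max c 1 * (∫ z in {z | uu z < 2}, f z ^ r) ^ (1 / r) := by
          refine mul_le_mul_of_nonneg_right ?_ (Real.rpow_nonneg hI0 _)
          have hr' : 1 / r ≤ 1 := by
            rw [div_le_one hr0]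
            exact hr1
          calc c ^ (1 / r) ≤ (max c 1) ^ (1 / r) :=
                Real.rpow_le_rpow hc.le (le_max_left _ _) (by positivity)
            _ ≤ (max c 1) ^ (1 : ℝ) :=
                Real.rpow_le_rpow_of_exponent_le (le_max_right _ _) hr'
            _ = max c 1 := Real.rpow_one _
  have h3 := hS r hr1 hrP f (hf.smooth.of_le (by exact_mod_cast le_top)) hf.cpt hf.nonneg
  have hcont : Continuous fun z => D.an z (gradient f z) + f z :=
    (D.continuous_an hf.smooth).add hf.smooth.continuous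
  have h4 : ∫ z in {z | uu z < 3}, (‖fderiv ℝ f z‖ + f z)
      ≤ 3 * ∫ z in {z | uu z < 3}, (D.an z (gradient f z) + f z) := by
    rw [← integral_const_mul]
    refine setIntegral_mono_on ?_ ?_ (isOpen_ball 3).measurableSet fun z hz => ?_
    · refine Integrable.integrableOn ?_
      refine Integrable.add ?_ ?_
      · exact ((hf.smooth.continuous_fderiv (by simp)).norm).integrable_of_hasCompactSupport
          (hf.cpt.fderiv (𝕜 := ℝ)).norm
      · exact hf.smooth.continuous.integrable_of_hasCompactSupport hf.cpt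
    · refine Integrable.integrableOn ?_
      refine (hcont.integrable_of_hasCompactSupport ?_).const_mul 3
      refine HasCompactSupport.add ?_ hf.cpt
      refine HasCompactSupport.of_support_subset_isCompact (hf.cpt.fderiv (𝕜 := ℝ)) ?_
      intro z hz
      by_contra hz'
      have h1 : fderiv ℝ f z = 0 := image_eq_zero_of_notMem_tsupport hz'
      have h0 : gradient f z = 0 := by
        refine ext_inner_right ℝ fun v => ?_
        rw [inner_gradient, h1]
        simp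
      refine hz ?_
      simp only
      rw [h0, an_zero]
    · have h5 := D.norm_fderiv_le f z
      have h6 : uu z * D.an z (gradient f z) ≤ 3 * D.an z (gradient f z) :=
        mul_le_mul_of_nonneg_right (le_of_lt hz) (D.an_nonneg _ _)
      have h7 := hf.nonneg z
      linarith
  have h8 := (hlo _ hcont (D.energy_nonneg hf)).2
  have hJ : 0 ≤ ∫ z in {z | uu z < 3}, (D.an z (gradient f z) + f z) ∂D.μ :=
    integral_nonneg (D.energy_nonneg hf)
  calc (∫ z in {z | uu z < 2}, f z ^ r ∂D.μ) ^ (1 / r)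
      ≤ max c 1 * (∫ z in {z | uu z < 2}, f z ^ r) ^ (1 / r) := h2
    _ ≤ max c 1 * (C * (3 * (c * ∫ z in {z | uu z < 3}, (D.an z (gradient f z) + f z) ∂D.μ))) := by
        refine mul_le_mul_of_nonneg_left ?_ (le_max_of_le_right zero_le_one)
        refine h3.trans (mul_le_mul_of_nonneg_left ?_ hC.le)
        exact h4.trans (mul_le_mul_of_nonneg_left h8 (by norm_num))
    _ = max c 1 * (C * (3 * c)) * ∫ z in {z | uu z < 3}, (D.an z (gradient f z) + f z) ∂D.μ := by
        ring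

/-- Local Sobolev inequality at every point. -/
theorem sob_ball {P : ℝ} (h : LocSob E P) : ∃ C : ℝ, 0 < C ∧ ∀ r : ℝ, 1 ≤ r → r ≤ P →
    ∀ f : E → ℝ, IsFn f → ∀ c : E,
    (∫ z in {z | D.chd c z < 2}, f z ^ r ∂D.μ) ^ (1 / r)
      ≤ C * ∫ z in {z | D.chd c z < 3}, (D.an z (gradient f z) + f z) ∂D.μ := by
  obtain ⟨C, hC, hS⟩ := D.sob_zero h
  refine ⟨C, hC, fun r hr1 hrP f hf c => ?_⟩
  have h1 := hS r hr1 hrP _ (D.isFn_comp hf c)
  rw [D.setIntegral_ball c 2, D.setIntegral_ball c 3]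
  refine h1.trans (le_of_eq ?_)
  congr 1
  refine integral_congr_ae (Filter.Eventually.of_forall fun z => ?_)
  simp only
  rw [D.an_phi c f z (hf.differentiable _)]

/-- Volume of the ball, as a real number. -/
def bv (R : ℝ) : ℝ := (D.μ {y : E | uu y < R}).toReal

theorem isCompact_cball (R : ℝ) : IsCompact {z : E | uu z ≤ R} := by
  refine Metric.isCompact_of_isClosed_isBounded (isClosed_le continuous_uu continuous_const) ?_
  refine (Metric.isBounded_closedBall (x := (0 : E)) (r := R)).subset fun z hz => ?_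
  rw [Metric.mem_closedBall, dist_zero_right]
  exact (TU.norm_le_uu z).trans hz

theorem measure_uu_lt_top (R : ℝ) : D.μ {y : E | uu y < R} < ⊤ := by
  have := D.fin
  refine lt_of_le_of_lt (measure_mono ?_) (isCompact_cball (E := E) R).measure_lt_top
  intro z hz
  have hz' : uu z < R := hz
  exact hz'.le

theorem ofReal_bv (R : ℝ) : ENNReal.ofReal (D.bv R) = D.μ {y : E | uu y < R} :=
  ENNReal.ofReal_toReal (D.measure_uu_lt_top R).ne

theorem bv_nonneg (R : ℝ) : 0 ≤ D.bv R := ENNReal.toReal_nonneg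

theorem bv_pos : 0 < D.bv 2 := by
  -- the Lebesgue measure is dominated by `μ` near the origin
  obtain ⟨c, hc, hlo⟩ := D.lo
  by_contra hcon
  have h0 : D.μ {y : E | uu y < 2} = 0 := by
    have h1 : D.bv 2 = 0 := le_antisymm (not_lt.1 hcon) (D.bv_nonneg 2)
    rw [← D.ofReal_bv, h1, ENNReal.ofReal_zero]
  -- use a function supported in `{uu < 2}`
  let h : E → ℝ := fun z => max (2 - uu z) 0
  have hcont : Continuous h := (continuous_const.sub continuous_uu).max continuous_const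
  have hnn : ∀ z, 0 ≤ h z := fun z => le_max_right _ _
  have h2 := (hlo h hcont hnn).2
  have h3 : ∫ z in {z | uu z < 3}, h z ∂D.μ = 0 := by
    have h4 : h =ᵐ[D.μ] 0 := by
      rw [Filter.EventuallyEq, ae_iff]
      refine measure_mono_null ?_ h0
      intro z hz
      by_contra hz'
      refine hz ?_
      have h5 : 2 ≤ uu z := not_lt.1 hz'
      simp only [h, Pi.zero_apply]
      exact max_eq_right (by linarith)
    rw [integral_congr_ae (ae_restrict_of_ae h4)]
    simp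
  rw [h3, mul_zero] at h2
  have h6 : 0 < ∫ z in {z : E | uu z < 3}, h z := by
    rw [setIntegral_pos_iff_support_of_nonneg_ae]
    · have h7 : {z : E | uu z < 2} ⊆ Function.support h ∩ {z : E | uu z < 3} := by
        intro z hz
        have hz' : uu z < 2 := hz
        refine ⟨?_, ?_⟩
        · rw [Function.mem_support]
          simp only [h]
          have : 0 < 2 - uu z := by linarith
          exact (lt_max_of_lt_left this).ne'
        · exact lt_trans hz' (by norm_num)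
      refine lt_of_lt_of_le ?_ (measure_mono h7)
      refine (isOpen_ball 2).measure_pos volume ⟨0, ?_⟩
      change uu (0 : E) < 2
      unfold uu
      rw [norm_zero]
      norm_num
    · exact Filter.Eventually.of_forall hnn
    · refine (hcont.continuousOn.integrableOn_compact (isCompact_cball (E := E) 3)).mono_set ?_
      intro z hz
      have hz' : uu z < 3 := hz
      exact hz'.le
  linarith

/-- The averaged Sobolev inequality. -/
theorem avg {P : ℝ} (h : LocSob E P) : ∃ C : ℝ, 0 < C ∧ ∀ r : ℝ, 1 ≤ r → r ≤ P →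
    ∀ f : E → ℝ, IsFn f → ∀ θ : ℝ, 0 ≤ θ →
    (∀ c, ∫ z in {z | D.chd c z < 2}, f z ^ r ∂D.μ ≤ θ) →
    D.ms r f ≤ θ ^ (1 - 1 / r) * (C * D.tv f) := by
  obtain ⟨C, hC, hS⟩ := D.sob_ball h
  have hb := D.bv_pos
  refine ⟨C * (D.bv 3 / D.bv 2) * (1 + 1 / D.N) + 1, ?_, fun r hr1 hrP f hf θ hθ hm => ?_⟩
  · have := D.bv_nonneg 3
    have := D.N_pos
    positivity
  have hr0 : 0 < r := lt_of_lt_of_le one_pos hr1
  have := D.fin
  have := D.sfin
  set g : E → ℝ := fun z => D.an z (gradient f z) + f z with hg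
  have hgi : Integrable g D.μ := D.integrable_energy hf
  have hg0 : ∀ z, 0 ≤ g z := D.energy_nonneg hf
  have hfi : Integrable (fun z => f z ^ r) D.μ := D.integrable_rpow hf hr0
  have hf0 : ∀ z, 0 ≤ f z ^ r := fun z => Real.rpow_nonneg (hf.nonneg z) r
  have hr' : 0 ≤ 1 - 1 / r := by
    rw [sub_nonneg, div_le_one hr0]
    exact hr1
  have hA : 0 ≤ θ ^ (1 - 1 / r) * C := mul_nonneg (Real.rpow_nonneg hθ _) hC.le
  -- the pointwise inequality in the centre
  have hpt : ∀ c, ∫ z in {z | D.chd c z < 2}, f z ^ r ∂D.μ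
      ≤ (θ ^ (1 - 1 / r) * C) * ∫ z in {z | D.chd c z < 3}, g z ∂D.μ := by
    intro c
    set m : ℝ := ∫ z in {z | D.chd c z < 2}, f z ^ r ∂D.μ with hm'
    have hm0 : 0 ≤ m := integral_nonneg hf0
    have h1 : m = m ^ (1 - 1 / r) * m ^ (1 / r) := by
      rcases hm0.eq_or_lt with h0 | h0
      · rw [← h0, Real.zero_rpow (one_div_pos.2 hr0).ne', mul_zero]
      · rw [← Real.rpow_add h0]
        simp
    have h2 : m ^ (1 - 1 / r) ≤ θ ^ (1 - 1 / r) := Real.rpow_le_rpow hm0 (hm c) hr'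
    rw [h1, mul_assoc]
    exact mul_le_mul h2 (hS r hr1 hrP f hf c) (Real.rpow_nonneg hm0 _) (Real.rpow_nonneg hθ _)
  -- integrate over the centre
  have hmeas : Measurable fun q : E × E => D.chd q.1 q.2 := D.chd_cont.measurable
  have e1 : ∀ (F : E → ℝ), Integrable F D.μ → (∀ z, 0 ≤ F z) → ∀ R : ℝ, ∀ c,
      ENNReal.ofReal (∫ z in {z | D.chd c z < R}, F z ∂D.μ)
        = ∫⁻ z in {z | D.chd c z < R}, ENNReal.ofReal (F z) ∂D.μ := by
    intro F hF hF0 R c
    exact ofReal_integral_eq_lintegral_ofReal hF.integrableOn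
      (Filter.Eventually.of_forall hF0)
  have hfm : Measurable fun z => ENNReal.ofReal (f z ^ r) :=
    (hf.continuous_rpow hr0).measurable.ennreal_ofReal
  have hgm : Measurable fun z => ENNReal.ofReal (g z) :=
    ((D.continuous_an hf.smooth).add hf.smooth.continuous).measurable.ennreal_ofReal
  have h1 := TA.average D.μ hmeas 2 (fun z => D.measure_ball' z 2) hfm
  have h2 := TA.average D.μ hmeas 3 (fun z => D.measure_ball' z 3) hgm
  have h3 : ∫⁻ c, ∫⁻ z in {z | D.chd c z < 2}, ENNReal.ofReal (f z ^ r) ∂D.μ ∂D.μ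
      ≤ ENNReal.ofReal (θ ^ (1 - 1 / r) * C)
        * ∫⁻ c, ∫⁻ z in {z | D.chd c z < 3}, ENNReal.ofReal (g z) ∂D.μ ∂D.μ := by
    rw [← lintegral_const_mul' _ _ ENNReal.ofReal_ne_top]
    refine lintegral_mono fun c => ?_
    rw [← e1 _ hfi hf0, ← e1 _ hgi hg0, ← ENNReal.ofReal_mul hA]
    exact ENNReal.ofReal_le_ofReal (hpt c)
  rw [h1, h2, ← D.ofReal_bv, ← D.ofReal_bv,
    ← ofReal_integral_eq_lintegral_ofReal hfi (Filter.Eventually.of_forall hf0),
    ← ofReal_integral_eq_lintegral_ofReal hgi (Filter.Eventually.of_forall hg0),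
    ← ENNReal.ofReal_mul (D.bv_nonneg 2), ← ENNReal.ofReal_mul (D.bv_nonneg 3),
    ← ENNReal.ofReal_mul hA] at h3
  have hgI : 0 ≤ ∫ z, g z ∂D.μ := integral_nonneg hg0
  have h4 : D.bv 2 * ∫ z, f z ^ r ∂D.μ
      ≤ (θ ^ (1 - 1 / r) * C) * (D.bv 3 * ∫ z, g z ∂D.μ) :=
    (ENNReal.ofReal_le_ofReal_iff (mul_nonneg hA (mul_nonneg (D.bv_nonneg 3) hgI))).1 h3
  -- the energy is bounded by the total variation
  have h5 : ∫ z, g z ∂D.μ ≤ (1 + 1 / D.N) * D.tv f := by
    have h6 : ∫ z, g z ∂D.μ = D.tv f + ∫ z, f z ∂D.μ :=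
      integral_add (D.integrable_an hf) (D.integrable_fn hf)
    have h7 := D.int_le f hf.smooth hf.cpt hf.nonneg
    have h8 : ∫ z, f z ∂D.μ ≤ (1 / D.N) * D.tv f := by
      rw [one_div, ← div_eq_inv_mul, le_div_iff₀ D.N_pos, mul_comm]
      exact h7
    rw [h6]
    linarith
  have h9 : D.ms r f ≤ (θ ^ (1 - 1 / r) * C) * (D.bv 3 / D.bv 2 * ((1 + 1 / D.N) * D.tv f)) := by
    have h10 : D.ms r f ≤ ((θ ^ (1 - 1 / r) * C) * (D.bv 3 * ∫ z, g z ∂D.μ)) / D.bv 2 := by
      rw [le_div_iff₀ hb, mul_comm]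
      exact h4
    refine h10.trans ?_
    rw [div_le_iff₀ hb]
    have h11 : (θ ^ (1 - 1 / r) * C) * (D.bv 3 / D.bv 2 * ((1 + 1 / D.N) * D.tv f)) * D.bv 2
        = (θ ^ (1 - 1 / r) * C) * (D.bv 3 * ((1 + 1 / D.N) * D.tv f)) := by
      field_simp
    rw [h11]
    exact mul_le_mul_of_nonneg_left (mul_le_mul_of_nonneg_left h5 (D.bv_nonneg 3)) hA
  refine h9.trans (le_of_sub_nonneg ?_)
  have h12 : θ ^ (1 - 1 / r) * ((C * (D.bv 3 / D.bv 2) * (1 + 1 / D.N) + 1) * D.tv f)
      - θ ^ (1 - 1 / r) * C * (D.bv 3 / D.bv 2 * ((1 + 1 / D.N) * D.tv f))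
      = θ ^ (1 - 1 / r) * D.tv f := by ring
  rw [h12]
  exact mul_nonneg (Real.rpow_nonneg hθ _) (D.tv_nonneg f)

/-- The global Sobolev inequality. -/
theorem sobolev {P : ℝ} (h : LocSob E P) : ∃ C : ℝ, 0 < C ∧ ∀ r : ℝ, 1 ≤ r → r ≤ P →
    ∀ f : E → ℝ, IsFn f → D.ms r f ^ (1 / r) ≤ C * D.tv f := by
  obtain ⟨C, hC, hS⟩ := D.avg h
  refine ⟨C, hC, fun r hr1 hrP f hf => ?_⟩
  have hr0 : 0 < r := lt_of_lt_of_le one_pos hr1
  have hfi : Integrable (fun z => f z ^ r) D.μ := D.integrable_rpow hf hr0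
  have hf0 : ∀ z, 0 ≤ f z ^ r := fun z => Real.rpow_nonneg (hf.nonneg z) r
  rcases (D.ms_nonneg hf r).eq_or_lt with h0 | h0
  · rw [← h0, Real.zero_rpow (one_div_pos.2 hr0).ne']
    exact mul_nonneg hC.le (D.tv_nonneg f)
  have h1 := hS r hr1 hrP f hf (D.ms r f) h0.le fun c =>
    setIntegral_le_integral hfi (Filter.Eventually.of_forall hf0)
  have h2 : D.ms r f = D.ms r f ^ (1 - 1 / r) * D.ms r f ^ (1 / r) := by
    rw [← Real.rpow_add h0]
    simp
  rw [← mul_le_mul_iff_right₀ (Real.rpow_pos_of_pos h0 (1 - 1 / r)), ← h2]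
  exact h1

end TD

end

end Pool.Agent.Work.MP_3b24f6_gt
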