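import Pool.Agent.Work.MP_3b24f6_gt.Model

/-!
# Reynolds transport theorem for moving sublevel sets, through volume integrals only
-/

set_option autoImplicit false
set_option linter.unusedSectionVars false
set_option linter.unusedVariables false

open MeasureTheory Set Filter Topology
open scoped ContDiff InnerProductSpace

namespace Pool.Agent.Work.MP_3b24f6_gt

noncomputable section

variable {E : Type*} [NormedAddCommGroup E] [InnerProductSpace ℝ E] [FiniteDimensional ℝ E]

namespace Transp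

/-- The trace as a continuous linear functional on endomorphisms. -/
def trL (E : Type*) [NormedAddCommGroup E] [InnerProductSpace ℝ E]
    [FiniteDimensional ℝ E] : (E →L[ℝ] E) →L[ℝ] ℝ :=
  LinearMap.toContinuousLinearMap
    ((LinearMap.trace ℝ E).comp (ContinuousLinearMap.coeLM ℝ))

lemma trL_apply (T : E →L[ℝ] E) : trL E T = tr T := rfl

lemma divE_eq (X : E → E) (x : E) : divE X x = trL E (fderiv ℝ X x) := rfl

lemma trL_eq_sum {ι : Type*} [Fintype ι] (b : OrthonormalBasis ι ℝ E) (T : E →L[ℝ] E) :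
    trL E T = ∑ i, inner ℝ (b i) (T (b i)) := by
  rw [trL_apply, tr, LinearMap.trace_eq_sum_inner _ b]
  rfl

/-- trace of a rank one endomorphism -/
lemma trL_smulRight (l : E →L[ℝ] ℝ) (v : E) :
    trL E (l.smulRight v) = l v := by
  classical
  rw [trL_eq_sum (stdOrthonormalBasis ℝ E)]
  have h1 : ∀ i, inner ℝ ((stdOrthonormalBasis ℝ E) i)
      ((l.smulRight v) ((stdOrthonormalBasis ℝ E) i))
      = l (inner ℝ ((stdOrthonormalBasis ℝ E) i) v • (stdOrthonormalBasis ℝ E) i) := by
    intro i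
    simp [inner_smul_right, mul_comm]
  rw [Finset.sum_congr rfl (fun i _ => h1 i), ← map_sum,
    (stdOrthonormalBasis ℝ E).sum_repr' v]

lemma divE_smul {g : E → ℝ} {X : E → E} {x : E} (hg : DifferentiableAt ℝ g x)
    (hX : DifferentiableAt ℝ X x) :
    divE (fun y => g y • X y) x = g x * divE X x + fderiv ℝ g x (X x) := by
  rw [divE_eq, divE_eq, fderiv_fun_smul hg hX]
  simp only [map_add, map_smul, smul_eq_mul, trL_smulRight]

section measure

variable [MeasurableSpace E] [BorelSpace E]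

/-- The integral of a directional derivative of a compactly supported `C^1` function is zero. -/
lemma integral_fderiv_apply_eq_zero {g : E → ℝ} (hg : ContDiff ℝ 1 g)
    (hc : HasCompactSupport g) (v : E) : ∫ x, fderiv ℝ g x v = 0 := by
  have hcont : Continuous (fun x => fderiv ℝ g x v) :=
    (hg.continuous_fderiv (by simp)).clm_apply continuous_const
  have hcs : HasCompactSupport (fun x => fderiv ℝ g x v) := hc.fderiv_apply (𝕜 := ℝ) v
  have h := integral_mul_fderiv_eq_neg_fderiv_mul_of_integrable (μ := (volume : Measure E))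
    (f := fun _ : E => (1 : ℝ)) (g := g) (v := v)
    (by simp) (by simpa using hcont.integrable_of_hasCompactSupport hcs)
    (by simpa using hg.continuous.integrable_of_hasCompactSupport hc)
    (fun x _ => differentiableAt_const _) (fun x _ => hg.differentiable (by simp) x)
  simpa using h

/-- **Divergence theorem** for compactly supported `C^1` vector fields. -/
theorem integral_divE_eq_zero {X : E → E} (hX : ContDiff ℝ 1 X) (hc : HasCompactSupport X) :
    ∫ x, divE X x = 0 := by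
  classical
  set b := stdOrthonormalBasis ℝ E
  have h1 : ∀ x, divE X x = ∑ i, fderiv ℝ (fun y => inner ℝ (b i) (X y)) x (b i) := by
    intro x
    rw [divE_eq, trL_eq_sum b]
    refine Finset.sum_congr rfl fun i _ => ?_
    have hd : DifferentiableAt ℝ X x := hX.differentiable (by simp) x
    have h2 : HasFDerivAt (fun y => inner ℝ (b i) (X y))
        ((innerSL ℝ (b i)).comp (fderiv ℝ X x)) x :=
      (innerSL ℝ (b i)).hasFDerivAt.comp x hd.hasFDerivAt
    rw [h2.fderiv]
    rfl
  have hg : ∀ i, ContDiff ℝ 1 (fun y => inner ℝ (b i) (X y)) := fun i =>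
    contDiff_const.inner ℝ hX
  have hcs : ∀ i, HasCompactSupport (fun y => inner ℝ (b i) (X y)) := fun i =>
    hc.comp_left (g := fun z => inner ℝ (b i) z) (by simp)
  simp_rw [h1]
  rw [integral_finsetSum]
  · refine Finset.sum_eq_zero fun i _ => ?_
    exact integral_fderiv_apply_eq_zero (hg i) (hcs i) (b i)
  · intro i _
    have hcont : Continuous (fun x => fderiv ℝ (fun y => inner ℝ (b i) (X y)) x (b i)) :=
      ((hg i).continuous_fderiv (by simp)).clm_apply continuous_const
    exact hcont.integrable_of_hasCompactSupport ((hcs i).fderiv_apply (𝕜 := ℝ) (b i))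

end measure

/-! ### The cutoff -/

lemma cut_nonneg (ε s : ℝ) : 0 ≤ cut ε s := Real.smoothTransition.nonneg _

lemma cut_le_one (ε s : ℝ) : cut ε s ≤ 1 := Real.smoothTransition.le_one _

lemma abs_cut_le_one (ε s : ℝ) : |cut ε s| ≤ 1 := by
  rw [abs_of_nonneg (cut_nonneg ε s)]; exact cut_le_one ε s

lemma cut_of_nonneg {ε s : ℝ} (hε : 0 < ε) (hs : 0 ≤ s) : cut ε s = 0 := by
  refine Real.smoothTransition.zero_of_nonpos ?_
  have : 0 ≤ s / ε := by positivity
  rw [neg_div]; linarith

lemma cut_of_le {ε s : ℝ} (hε : 0 < ε) (hs : s ≤ -ε) : cut ε s = 1 := by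
  refine Real.smoothTransition.one_of_one_le ?_
  rw [le_div_iff₀ hε]; linarith

lemma contDiff_cut (ε : ℝ) {n : ℕ∞} : ContDiff ℝ n (cut ε) :=
  Real.smoothTransition.contDiff.comp (contDiff_neg.div_const ε)

/-! ### Slices -/

/-- spatial differential of a time dependent function -/
def dx {G : Type*} [NormedAddCommGroup G] [NormedSpace ℝ G] (u : ℝ × E → G)
    (p : ℝ × E) : E →L[ℝ] G :=
  (fderiv ℝ u p).comp (ContinuousLinearMap.inr ℝ ℝ E)

/-- time derivative of a time dependent function -/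
def dt {G : Type*} [NormedAddCommGroup G] [NormedSpace ℝ G] (u : ℝ × E → G)
    (p : ℝ × E) : G :=
  fderiv ℝ u p (1, 0)

lemma hasFDerivAt_slice {G : Type*} [NormedAddCommGroup G] [NormedSpace ℝ G] {u : ℝ × E → G}
    {t : ℝ} {x : E} (h : DifferentiableAt ℝ u (t, x)) :
    HasFDerivAt (fun y => u (t, y)) (dx u (t, x)) x :=
  h.hasFDerivAt.comp x (hasFDerivAt_prodMk_right t x)

lemma hasDerivAt_time {G : Type*} [NormedAddCommGroup G] [NormedSpace ℝ G] {u : ℝ × E → G}
    {t : ℝ} {x : E} (h : DifferentiableAt ℝ u (t, x)) :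
    HasDerivAt (fun s => u (s, x)) (dt u (t, x)) t := by
  have h1 : HasDerivAt (fun s : ℝ => (s, x)) ((1 : ℝ), (0 : E)) t :=
    (hasDerivAt_id t).prodMk (hasDerivAt_const t x)
  exact h.hasFDerivAt.comp_hasDerivAt t h1

section param

variable {I : Set ℝ}

lemma mem_nhds_slab (hI : IsOpen I) {t : ℝ} (ht : t ∈ I) (x : E) :
    I ×ˢ (univ : Set E) ∈ 𝓝 (t, x) :=
  (hI.prod isOpen_univ).mem_nhds ⟨ht, mem_univ x⟩

lemma differentiableAt_of_slab {G : Type*} [NormedAddCommGroup G] [NormedSpace ℝ G]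
    (hI : IsOpen I) {u : ℝ × E → G} {n : WithTop ℕ∞} (hn : n ≠ 0)
    (hu : ContDiffOn ℝ n u (I ×ˢ univ)) {t : ℝ} (ht : t ∈ I) (x : E) :
    DifferentiableAt ℝ u (t, x) :=
  ((hu.contDiffAt (mem_nhds_slab hI ht x)).differentiableAt hn)

lemma continuousOn_dt {G : Type*} [NormedAddCommGroup G] [NormedSpace ℝ G]
    (hI : IsOpen I) {u : ℝ × E → G} (hu : ContDiffOn ℝ 1 u (I ×ˢ univ)) :
    ContinuousOn (dt u) (I ×ˢ (univ : Set E)) := by
  have h1 : ContinuousOn (fderiv ℝ u) (I ×ˢ (univ : Set E)) :=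
    hu.continuousOn_fderiv_of_isOpen (hI.prod isOpen_univ) le_rfl
  exact h1.clm_apply continuousOn_const

lemma dt_eq_zero_off (hI : IsOpen I) {u : ℝ × E → ℝ} (hu : ContDiffOn ℝ 1 u (I ×ˢ univ))
    {K : Set E} (h0 : ∀ t ∈ I, ∀ x, x ∉ K → u (t, x) = 0) {t : ℝ} (ht : t ∈ I) {x : E}
    (hx : x ∉ K) : dt u (t, x) = 0 := by
  have h1 := hasDerivAt_time (differentiableAt_of_slab hI one_ne_zero hu ht x)
  have h2 : HasDerivAt (fun s => u (s, x)) 0 t := by
    refine (hasDerivAt_const t (0 : ℝ)).congr_of_eventuallyEq ?_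
    filter_upwards [hI.mem_nhds ht] with s hs using h0 s hs x hx
  exact h1.unique h2

variable [MeasurableSpace E] [BorelSpace E]

lemma continuousOn_slice {u : ℝ × E → ℝ} (hu : ContinuousOn u (I ×ˢ (univ : Set E)))
    {t : ℝ} (ht : t ∈ I) : Continuous (fun x => u (t, x)) := by
  rw [← continuousOn_univ]
  exact hu.comp (by fun_prop) (fun x _ => ⟨ht, mem_univ x⟩)

lemma hasCompactSupport_slice {u : ℝ × E → ℝ} {K : Set E} (hK : IsCompact K)
    (h0 : ∀ t ∈ I, ∀ x, x ∉ K → u (t, x) = 0) {t : ℝ} (ht : t ∈ I) :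
    HasCompactSupport (fun x => u (t, x)) :=
  HasCompactSupport.intro hK fun x hx => h0 t ht x hx

/-- a uniform bound on a compact time interval -/
lemma exists_bound {u : ℝ × E → ℝ} (hu : ContinuousOn u (I ×ˢ (univ : Set E)))
    {K : Set E} (hK : IsCompact K) {J : Set ℝ} (hJ : IsCompact J) (hJI : J ⊆ I) :
    ∃ M : ℝ, 0 ≤ M ∧ ∀ s ∈ J, ∀ x ∈ K, |u (s, x)| ≤ M := by
  have h1 : IsCompact (J ×ˢ K) := hJ.prod hK
  obtain ⟨M, hM⟩ := h1.exists_bound_of_continuousOn
    (hu.mono (Set.prod_mono hJI (subset_univ K)))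
  exact ⟨max M 0, le_max_right _ _, fun s hs x hx =>
    (hM (s, x) ⟨hs, hx⟩).trans (le_max_left _ _)⟩

/-- Differentiation under the integral sign. -/
lemma hasDerivAt_integral_param (hI : IsOpen I) {u : ℝ × E → ℝ}
    (hu : ContDiffOn ℝ 1 u (I ×ˢ univ)) {K : Set E} (hK : IsCompact K)
    (h0 : ∀ t ∈ I, ∀ x, x ∉ K → u (t, x) = 0) {t : ℝ} (ht : t ∈ I) :
    HasDerivAt (fun s => ∫ x, u (s, x)) (∫ x, dt u (t, x)) t := by
  obtain ⟨δ, hδ, hδI⟩ := Metric.isOpen_iff.1 hI t ht
  have hJI : Metric.closedBall t (δ / 2) ⊆ I :=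
    (Metric.closedBall_subset_ball (by linarith)).trans hδI
  have hdt := continuousOn_dt hI hu
  obtain ⟨M, hM0, hM⟩ := exists_bound hdt hK (isCompact_closedBall t (δ / 2)) hJI
  have hnh : Metric.closedBall t (δ / 2) ∈ 𝓝 t := Metric.closedBall_mem_nhds t (by linarith)
  refine (hasDerivAt_integral_of_dominated_loc_of_deriv_le (μ := (volume : Measure E))
    (F := fun s x => u (s, x)) (F' := fun s x => dt u (s, x))
    (bound := K.indicator (fun _ => M)) (s := Metric.closedBall t (δ / 2)) hnh ?_ ?_ ?_ ?_ ?_ ?_).2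
  · filter_upwards [hnh] with s hs
    exact (continuousOn_slice hu.continuousOn (hJI hs)).aestronglyMeasurable
  · exact (continuousOn_slice hu.continuousOn ht).integrable_of_hasCompactSupport
      (hasCompactSupport_slice hK h0 ht)
  · exact (continuousOn_slice hdt ht).aestronglyMeasurable
  · refine Eventually.of_forall fun x s hs => ?_
    by_cases hx : x ∈ K
    · rw [indicator_of_mem hx]; exact hM s hs x hx
    · rw [indicator_of_notMem hx, dt_eq_zero_off hI hu h0 (hJI hs) hx, norm_zero]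
  · exact (integrableOn_const (μ := (volume : Measure E)) (C := M)
      (hK.measure_lt_top.ne)).integrable_indicator hK.measurableSet
  · exact Eventually.of_forall fun x s hs =>
      hasDerivAt_time (differentiableAt_of_slab hI one_ne_zero hu (hJI hs) x)

end param

/-! ### The transport theorem -/

section transport

variable {I : Set ℝ}

/-- the transported density -/
def tq (q : ℝ × E → ℝ) (W : ℝ × E → E) (p : ℝ × E) : ℝ :=
  dt q p + trL E (dx (fun p => q p • W p) p)

lemma contDiffOn_tq (hI : IsOpen I) {q : ℝ × E → ℝ} {W : ℝ × E → E}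
    (hq : ContDiffOn ℝ ∞ q (I ×ˢ univ)) (hW : ContDiffOn ℝ ∞ W (I ×ˢ univ)) :
    ContDiffOn ℝ ∞ (tq q W) (I ×ˢ univ) := by
  have hO : IsOpen (I ×ˢ (univ : Set E)) := hI.prod isOpen_univ
  have h1 : ContDiffOn ℝ ∞ (fderiv ℝ q) (I ×ˢ univ) := hq.fderiv_of_isOpen hO (by simp)
  have h2 : ContDiffOn ℝ ∞ (fderiv ℝ (fun p => q p • W p)) (I ×ˢ univ) :=
    (hq.smul hW).fderiv_of_isOpen hO (by simp)
  have h3 : ContDiffOn ℝ ∞ (dt q) (I ×ˢ univ) := h1.clm_apply contDiffOn_const
  have h4 : ContDiffOn ℝ ∞ (dx (fun p => q p • W p)) (I ×ˢ univ) :=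
    h2.clm_comp contDiffOn_const
  exact h3.add ((trL E).contDiff.comp_contDiffOn h4)

lemma contDiff_slice {G : Type*} [NormedAddCommGroup G] [NormedSpace ℝ G] {u : ℝ × E → G}
    {n : WithTop ℕ∞} (hu : ContDiffOn ℝ n u (I ×ˢ univ)) {t : ℝ} (ht : t ∈ I) :
    ContDiff ℝ n (fun x => u (t, x)) := by
  rw [← contDiffOn_univ]
  exact hu.comp (contDiff_prodMk_right t).contDiffOn (fun x _ => ⟨ht, mem_univ x⟩)

variable [MeasurableSpace E] [BorelSpace E]

lemma hasDerivAt_cut (hI : IsOpen I) {w q : ℝ × E → ℝ} {W : ℝ × E → E}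
    (hw : ContDiffOn ℝ ∞ w (I ×ˢ univ)) (hq : ContDiffOn ℝ ∞ q (I ×ˢ univ))
    (hW : ContDiffOn ℝ ∞ W (I ×ˢ univ)) {K : Set E} (hK : IsCompact K)
    (hwK : ∀ t ∈ I, ∀ x, w (t, x) ≤ 0 → x ∈ K)
    (hWw : ∀ t ∈ I, ∀ x, dx w (t, x) (W (t, x)) = - dt w (t, x)) {ε : ℝ} (hε : 0 < ε)
    {t : ℝ} (ht : t ∈ I) :
    HasDerivAt (fun s => ∫ x, cut ε (w (s, x)) * q (s, x))
      (∫ x, cut ε (w (t, x)) * tq q W (t, x)) t := by
  have hcut : ContDiff ℝ ∞ (cut ε) := contDiff_cut ε
  set u : ℝ × E → ℝ := fun p => cut ε (w p) * q p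
  have hu : ContDiffOn ℝ ∞ u (I ×ˢ univ) := (hcut.comp_contDiffOn hw).mul hq
  have hu0 : ∀ t ∈ I, ∀ x, x ∉ K → cut ε (w (t, x)) = 0 := by
    intro s hs x hx
    refine cut_of_nonneg hε ?_
    by_contra h
    push Not at h
    exact hx (hwK s hs x h.le)
  have h1 := hasDerivAt_integral_param hI (hu.of_le (by simp)) hK
    (fun s hs x hx => by simp only [u, hu0 s hs x hx, zero_mul]) ht
  have h2 : ∫ x, dt u (t, x) = ∫ x, cut ε (w (t, x)) * tq q W (t, x) := by
    set X : E → E := fun x => cut ε (w (t, x)) • (q (t, x) • W (t, x))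
    have hX : ContDiff ℝ ∞ X :=
      (hcut.comp (contDiff_slice hw ht)).smul ((contDiff_slice hq ht).smul (contDiff_slice hW ht))
    have hXc : HasCompactSupport X := HasCompactSupport.intro hK fun x hx => by
      simp only [X, hu0 t ht x hx, zero_smul]
    have hp : ∀ x, cut ε (w (t, x)) * tq q W (t, x) = dt u (t, x) + divE X x := by
      intro x
      have hwd := differentiableAt_of_slab hI (by simp) hw ht x
      have hqd := differentiableAt_of_slab hI (by simp) hq ht x
      have hWd := differentiableAt_of_slab hI (by simp) hW ht x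
      have hcd : HasDerivAt (cut ε) (deriv (cut ε) (w (t, x))) (w (t, x)) :=
        (hcut.differentiable (by simp) _).hasDerivAt
      have h3 : dt u (t, x) = deriv (cut ε) (w (t, x)) * dt w (t, x) * q (t, x)
          + cut ε (w (t, x)) * dt q (t, x) := by
        have h4 := hasDerivAt_time (hwd)
        have h5 := hasDerivAt_time (hqd)
        have h6 : HasDerivAt (fun s => u (s, x)) (deriv (cut ε) (w (t, x)) * dt w (t, x) * q (t, x)
          + cut ε (w (t, x)) * dt q (t, x)) t :=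
          HasDerivAt.mul (c := fun s => cut ε (w (s, x))) (d := fun s => q (s, x))
            (HasDerivAt.comp (h₂ := cut ε) (h := fun s => w (s, x)) t hcd h4) h5
        exact (hasDerivAt_time (differentiableAt_of_slab hI (by simp) hu ht x)).unique h6
      have h7 : divE X x = cut ε (w (t, x)) * trL E (dx (fun p => q p • W p) (t, x))
          + deriv (cut ε) (w (t, x)) * (q (t, x) * (- dt w (t, x))) := by
        have h8 := hasFDerivAt_slice (hwd)
        have h9 : HasFDerivAt (fun y => cut ε (w (t, y)))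
            (deriv (cut ε) (w (t, x)) • dx w (t, x)) x :=
          HasDerivAt.comp_hasFDerivAt (h₂ := cut ε) (f := fun y => w (t, y)) x hcd h8
        have h10 : HasFDerivAt (fun y => q (t, y) • W (t, y)) (dx (fun p => q p • W p) (t, x)) x :=
          hasFDerivAt_slice (hqd.smul hWd)
        have h11 := divE_smul h9.differentiableAt h10.differentiableAt
        have h12 : divE X x = divE (fun y => cut ε (w (t, y)) • (q (t, y) • W (t, y))) x := rfl
        rw [h12, h11, h9.fderiv, divE_eq, h10.fderiv]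
        simp only [smul_apply, smul_eq_mul, map_smul, hWw t ht x]
        ring
      rw [h3, h7, tq]
      ring
    have hXi : ∫ x, divE X x = 0 := integral_divE_eq_zero (hX.of_le (by simp)) hXc
    have hdc : Continuous (fun x => dt u (t, x)) :=
      continuousOn_slice (continuousOn_dt hI (hu.of_le (by simp))) ht
    have hdi : Integrable (fun x => dt u (t, x)) := by
      refine hdc.integrable_of_hasCompactSupport (HasCompactSupport.intro hK fun x hx => ?_)
      exact dt_eq_zero_off hI (hu.of_le (by simp))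
        (fun s hs x hx => by simp only [u, hu0 s hs x hx, zero_mul]) ht hx
    have hdv : Integrable (fun x => divE X x) := by
      have hc : Continuous (fun x => divE X x) :=
        (trL E).continuous.comp (hX.continuous_fderiv (by simp))
      refine hc.integrable_of_hasCompactSupport (HasCompactSupport.intro hXc fun x hx => ?_)
      have h13 : fderiv ℝ X x = 0 := by
        by_contra h
        exact hx (tsupport_fderiv_subset ℝ (subset_closure h))
      rw [divE_eq, h13, map_zero]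
    simp_rw [hp]
    rw [integral_add hdi hdv, hXi, add_zero]
  rw [← h2]
  exact h1

lemma tendsto_cut (hI : IsOpen I) {w q : ℝ × E → ℝ}
    (hw : ContinuousOn w (I ×ˢ univ)) (hq : ContinuousOn q (I ×ˢ univ)) {K : Set E}
    (hK : IsCompact K) (hwK : ∀ t ∈ I, ∀ x, w (t, x) ≤ 0 → x ∈ K) {t : ℝ} (ht : t ∈ I) :
    Tendsto (fun ε => ∫ x, cut ε (w (t, x)) * q (t, x)) (𝓝[>] 0)
      (𝓝 (∫ x in {x | w (t, x) < 0}, q (t, x))) := by
  have hwc := continuousOn_slice hw ht
  have hqc := continuousOn_slice hq ht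
  have hm : MeasurableSet {x | w (t, x) < 0} := (isOpen_lt hwc continuous_const).measurableSet
  rw [← integral_indicator hm]
  refine tendsto_integral_filter_of_dominated_convergence (K.indicator fun x => |q (t, x)|)
    ?_ ?_ ?_ ?_
  · refine Eventually.of_forall fun ε => ?_
    have hc : Continuous (cut ε) := (contDiff_cut (n := 0) ε).continuous
    exact ((hc.comp hwc).mul hqc).aestronglyMeasurable
  · filter_upwards [self_mem_nhdsWithin] with ε hε
    refine Eventually.of_forall fun x => ?_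
    by_cases hx : x ∈ K
    · rw [indicator_of_mem hx, norm_mul]
      exact mul_le_of_le_one_left (norm_nonneg _) (abs_cut_le_one _ _)
    · have h0 : cut ε (w (t, x)) = 0 := by
        refine cut_of_nonneg hε ?_
        by_contra h
        push Not at h
        exact hx (hwK t ht x h.le)
      rw [indicator_of_notMem hx, h0, zero_mul, norm_zero]
  · exact (hqc.abs.continuousOn.integrableOn_compact hK).integrable_indicator hK.measurableSet
  · refine Eventually.of_forall fun x => ?_
    by_cases hx : w (t, x) < 0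
    · rw [indicator_of_mem (show x ∈ {x | w (t, x) < 0} from hx)]
      refine tendsto_const_nhds.congr' ?_
      have h1 : Ioo 0 (- w (t, x)) ∈ 𝓝[>] (0 : ℝ) := Ioo_mem_nhdsGT (by linarith)
      filter_upwards [h1] with ε hε
      rw [cut_of_le hε.1 (by linarith [hε.2]), one_mul]
    · rw [indicator_of_notMem (show x ∉ {x | w (t, x) < 0} from hx)]
      refine tendsto_const_nhds.congr' ?_
      filter_upwards [self_mem_nhdsWithin] with ε hε
      rw [cut_of_nonneg hε (not_lt.1 hx), zero_mul]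

lemma abs_integral_cut_le {w q : ℝ × E → ℝ}
    {K : Set E} (hK : IsCompact K) (hwK : ∀ t ∈ I, ∀ x, w (t, x) ≤ 0 → x ∈ K) {t : ℝ}
    (ht : t ∈ I) {M : ℝ} (hM : ∀ x ∈ K, |q (t, x)| ≤ M) {ε : ℝ} (hε : 0 < ε) :
    |∫ x, cut ε (w (t, x)) * q (t, x)| ≤ M * (volume K).toReal := by
  have h1 : ∀ x, ‖cut ε (w (t, x)) * q (t, x)‖ ≤ K.indicator (fun _ => M) x := by
    intro x
    by_cases hx : x ∈ K
    · rw [indicator_of_mem hx, norm_mul]
      exact (mul_le_of_le_one_left (norm_nonneg _) (abs_cut_le_one _ _)).trans (hM x hx)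
    · have h0 : cut ε (w (t, x)) = 0 := by
        refine cut_of_nonneg hε ?_
        by_contra h
        push Not at h
        exact hx (hwK t ht x h.le)
      rw [indicator_of_notMem hx, h0, zero_mul, norm_zero]
  have h2 : Integrable (K.indicator (fun _ : E => M)) :=
    (integrableOn_const (μ := (volume : Measure E)) (C := M)
      (hK.measure_lt_top.ne)).integrable_indicator hK.measurableSet
  have h3 := norm_integral_le_of_norm_le h2 (Eventually.of_forall h1)
  rw [integral_indicator hK.measurableSet, setIntegral_const, smul_eq_mul, mul_comm] at h3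
  exact h3

lemma abs_integral_lt_le (hI : IsOpen I) {w q : ℝ × E → ℝ}
    (hw : ContinuousOn w (I ×ˢ univ)) (hq : ContinuousOn q (I ×ˢ univ)) {K : Set E}
    (hK : IsCompact K) (hwK : ∀ t ∈ I, ∀ x, w (t, x) ≤ 0 → x ∈ K) {t : ℝ} (ht : t ∈ I)
    {M : ℝ} (hM : ∀ x ∈ K, |q (t, x)| ≤ M) :
    |∫ x in {x | w (t, x) < 0}, q (t, x)| ≤ M * (volume K).toReal := by
  refine le_of_tendsto (tendsto_cut hI hw hq hK hwK ht).abs ?_
  filter_upwards [self_mem_nhdsWithin] with ε hε using abs_integral_cut_le hK hwK ht hM hε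

/-- integrated form of the transport theorem -/
lemma transport_integral (hI : IsOpen I) {w q : ℝ × E → ℝ} {W : ℝ × E → E}
    (hw : ContDiffOn ℝ ∞ w (I ×ˢ univ)) (hq : ContDiffOn ℝ ∞ q (I ×ˢ univ))
    (hW : ContDiffOn ℝ ∞ W (I ×ˢ univ)) {K : Set E} (hK : IsCompact K)
    (hwK : ∀ t ∈ I, ∀ x, w (t, x) ≤ 0 → x ∈ K)
    (hWw : ∀ t ∈ I, ∀ x, dx w (t, x) (W (t, x)) = - dt w (t, x)) {a b : ℝ}
    (hab : uIcc a b ⊆ I) :
    (∫ x in {x | w (b, x) < 0}, q (b, x)) - ∫ x in {x | w (a, x) < 0}, q (a, x)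
      = ∫ t in a..b, ∫ x in {x | w (t, x) < 0}, tq q W (t, x) := by
  have htq := contDiffOn_tq hI hq hW
  have ha : a ∈ I := hab left_mem_uIcc
  have hb : b ∈ I := hab right_mem_uIcc
  obtain ⟨M, hM0, hM⟩ := exists_bound htq.continuousOn hK isCompact_uIcc hab
  have hftc : ∀ ε, 0 < ε → (∫ x, cut ε (w (b, x)) * q (b, x)) - ∫ x, cut ε (w (a, x)) * q (a, x)
      = ∫ t in a..b, ∫ x, cut ε (w (t, x)) * tq q W (t, x) := by
    intro ε hε
    refine (intervalIntegral.integral_eq_sub_of_hasDerivAt (fun t ht =>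
      hasDerivAt_cut hI hw hq hW hK hwK hWw hε (hab ht)) ?_).symm
    refine ContinuousOn.intervalIntegrable fun t ht => ?_
    exact (hasDerivAt_cut hI hw htq hW hK hwK hWw hε (hab ht)).continuousAt.continuousWithinAt
  have h1 : Tendsto (fun ε => (∫ x, cut ε (w (b, x)) * q (b, x))
      - ∫ x, cut ε (w (a, x)) * q (a, x)) (𝓝[>] 0)
      (𝓝 ((∫ x in {x | w (b, x) < 0}, q (b, x)) - ∫ x in {x | w (a, x) < 0}, q (a, x))) :=
    (tendsto_cut hI hw.continuousOn hq.continuousOn hK hwK hb).sub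
      (tendsto_cut hI hw.continuousOn hq.continuousOn hK hwK ha)
  have h2 : Tendsto (fun ε => ∫ t in a..b, ∫ x, cut ε (w (t, x)) * tq q W (t, x)) (𝓝[>] 0)
      (𝓝 (∫ t in a..b, ∫ x in {x | w (t, x) < 0}, tq q W (t, x))) := by
    refine intervalIntegral.tendsto_integral_filter_of_dominated_convergence
      (fun _ => M * (volume K).toReal) ?_ ?_ ?_ ?_
    · filter_upwards [self_mem_nhdsWithin] with ε hε
      refine ContinuousOn.aestronglyMeasurable (fun t ht => ?_) measurableSet_uIoc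
      exact (hasDerivAt_cut hI hw htq hW hK hwK hWw hε
        (hab (uIoc_subset_uIcc ht))).continuousAt.continuousWithinAt
    · filter_upwards [self_mem_nhdsWithin] with ε hε
      refine Eventually.of_forall fun t ht => ?_
      exact abs_integral_cut_le hK hwK (hab (uIoc_subset_uIcc ht))
        (hM t (uIoc_subset_uIcc ht)) hε
    · exact intervalIntegrable_const
    · refine Eventually.of_forall fun t ht => ?_
      exact tendsto_cut hI hw.continuousOn htq.continuousOn hK hwK (hab (uIoc_subset_uIcc ht))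
  refine tendsto_nhds_unique h1 (h2.congr' ?_)
  filter_upwards [self_mem_nhdsWithin] with ε hε using (hftc ε hε).symm

lemma continuousAt_integral_lt (hI : IsOpen I) {w q : ℝ × E → ℝ} {W : ℝ × E → E}
    (hw : ContDiffOn ℝ ∞ w (I ×ˢ univ)) (hq : ContDiffOn ℝ ∞ q (I ×ˢ univ))
    (hW : ContDiffOn ℝ ∞ W (I ×ˢ univ)) {K : Set E} (hK : IsCompact K)
    (hwK : ∀ t ∈ I, ∀ x, w (t, x) ≤ 0 → x ∈ K)
    (hWw : ∀ t ∈ I, ∀ x, dx w (t, x) (W (t, x)) = - dt w (t, x)) {t : ℝ} (ht : t ∈ I) :
    ContinuousAt (fun t => ∫ x in {x | w (t, x) < 0}, q (t, x)) t := by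
  obtain ⟨δ, hδ, hδI⟩ := Metric.isOpen_iff.1 hI t ht
  have hJI : Metric.closedBall t (δ / 2) ⊆ I :=
    (Metric.closedBall_subset_ball (by linarith)).trans hδI
  have htq := contDiffOn_tq hI hq hW
  obtain ⟨M, hM0, hM⟩ := exists_bound htq.continuousOn hK (isCompact_closedBall t (δ / 2)) hJI
  have hnh : Metric.closedBall t (δ / 2) ∈ 𝓝 t := Metric.closedBall_mem_nhds t (by linarith)
  have hC : 0 ≤ M * (volume K).toReal := mul_nonneg hM0 ENNReal.toReal_nonneg
  have key : ∀ s ∈ Metric.closedBall t (δ / 2),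
      |(∫ x in {x | w (s, x) < 0}, q (s, x)) - ∫ x in {x | w (t, x) < 0}, q (t, x)|
        ≤ M * (volume K).toReal * |s - t| := by
    intro s hs
    have hsub : uIcc t s ⊆ Metric.closedBall t (δ / 2) := by
      have h0 : t ∈ Metric.closedBall t (δ / 2) := Metric.mem_closedBall_self (by linarith)
      rw [Real.closedBall_eq_Icc] at h0 hs ⊢
      exact uIcc_subset_Icc h0 hs
    rw [transport_integral hI hw hq hW hK hwK hWw (hsub.trans hJI), ← Real.norm_eq_abs]
    refine intervalIntegral.norm_integral_le_of_norm_le_const fun τ hτ => ?_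
    have hτ' := hsub (uIoc_subset_uIcc hτ)
    exact abs_integral_lt_le hI hw.continuousOn htq.continuousOn hK hwK (hJI hτ') (hM τ hτ')
  rw [Metric.continuousAt_iff]
  intro η hη
  refine ⟨min (δ / 2) (η / (M * (volume K).toReal + 1)), by positivity, fun s hs => ?_⟩
  have hs1 : dist s t < δ / 2 := hs.trans_le (min_le_left _ _)
  have hs2 : dist s t < η / (M * (volume K).toReal + 1) := hs.trans_le (min_le_right _ _)
  have h1 := key s hs1.le
  rw [Real.dist_eq] at hs2 ⊢
  rw [lt_div_iff₀ (by positivity)] at hs2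
  have h2 : 0 ≤ |s - t| := abs_nonneg _
  nlinarith

theorem transport_main (hI : IsOpen I) {w q : ℝ × E → ℝ} {W : ℝ × E → E}
    (hw : ContDiffOn ℝ ∞ w (I ×ˢ univ)) (hq : ContDiffOn ℝ ∞ q (I ×ˢ univ))
    (hW : ContDiffOn ℝ ∞ W (I ×ˢ univ)) {K : Set E} (hK : IsCompact K)
    (hwK : ∀ t ∈ I, ∀ x, w (t, x) ≤ 0 → x ∈ K)
    (hWw : ∀ t ∈ I, ∀ x, dx w (t, x) (W (t, x)) = - dt w (t, x)) {t : ℝ} (ht : t ∈ I) :
    HasDerivAt (fun t => ∫ x in {x | w (t, x) < 0}, q (t, x))
      (∫ x in {x | w (t, x) < 0}, tq q W (t, x)) t := by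
  obtain ⟨δ, hδ, hδI⟩ := Metric.isOpen_iff.1 hI t ht
  have htq := contDiffOn_tq hI hq hW
  have hcont : ContinuousOn (fun t => ∫ x in {x | w (t, x) < 0}, tq q W (t, x)) I := fun s hs =>
    (continuousAt_integral_lt hI hw htq hW hK hwK hWw hs).continuousWithinAt
  have h1 : HasDerivAt (fun s => ∫ τ in t..s, ∫ x in {x | w (τ, x) < 0}, tq q W (τ, x))
      (∫ x in {x | w (t, x) < 0}, tq q W (t, x)) t :=
    intervalIntegral.integral_hasDerivAt_right IntervalIntegrable.refl
      (hcont.stronglyMeasurableAtFilter hI t ht) (hcont.continuousAt (hI.mem_nhds ht))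
  have h2 := h1.const_add (∫ x in {x | w (t, x) < 0}, q (t, x))
  refine h2.congr_of_eventuallyEq ?_
  filter_upwards [Metric.ball_mem_nhds t hδ] with s hs
  have hsub : uIcc t s ⊆ I := by
    have h0 : t ∈ Metric.ball t δ := Metric.mem_ball_self hδ
    refine Subset.trans ?_ hδI
    rw [Real.ball_eq_Ioo] at h0 hs ⊢
    exact ordConnected_Ioo.uIcc_subset h0 hs
  rw [← transport_integral hI hw hq hW hK hwK hWw hsub]
  ring

end transport

end Transp

variable [MeasurableSpace E] [BorelSpace E]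

/-- T2 (file Transport.lean). -/
theorem transport {t0 : ℝ} (ht0 : 0 < t0) (w : ℝ → E → ℝ) (q : ℝ → E → ℝ) (W : ℝ → E → E)
    (K : Set E) (hK : IsCompact K)
    (hw : ContDiffOn ℝ ∞ (fun p : ℝ × E => w p.1 p.2) (Ioo (-t0) t0 ×ˢ univ))
    (hq : ContDiffOn ℝ ∞ (fun p : ℝ × E => q p.1 p.2) (Ioo (-t0) t0 ×ˢ univ))
    (hW : ContDiffOn ℝ ∞ (fun p : ℝ × E => W p.1 p.2) (Ioo (-t0) t0 ×ˢ univ))
    (hwK : ∀ t ∈ Ioo (-t0) t0, ∀ x, w t x ≤ 0 → x ∈ K)
    (hWK : ∀ t ∈ Ioo (-t0) t0, ∀ x, x ∉ K → W t x = 0)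
    (hWw : ∀ t ∈ Ioo (-t0) t0, ∀ x, fderiv ℝ (w t) x (W t x) = - deriv (fun s => w s x) t) :
    ∀ t ∈ Ioo (-t0) t0, HasDerivAt (fun t => ∫ x in {x | w t x < 0}, q t x)
      (∫ x in {x | w t x < 0}, (deriv (fun s => q s x) t + divE (fun x => q t x • W t x) x)) t := by
  intro t ht
  have hI : IsOpen (Ioo (-t0) t0) := isOpen_Ioo
  have hd : ∀ t ∈ Ioo (-t0) t0, ∀ x, fderiv ℝ (w t) x
      = Transp.dx (fun p : ℝ × E => w p.1 p.2) (t, x) := fun t ht x =>
    (Transp.hasFDerivAt_slice (Transp.differentiableAt_of_slab hI (by simp) hw ht x)).fderiv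
  have hdt : ∀ t ∈ Ioo (-t0) t0, ∀ x, deriv (fun s => w s x) t
      = Transp.dt (fun p : ℝ × E => w p.1 p.2) (t, x) := fun t ht x =>
    (Transp.hasDerivAt_time (Transp.differentiableAt_of_slab hI (by simp) hw ht x)).deriv
  have h1 := Transp.transport_main hI hw hq hW hK hwK (fun t ht x => by
    rw [← hd t ht x, ← hdt t ht x]; exact hWw t ht x) ht
  have h2 : ∀ x, deriv (fun s => q s x) t + divE (fun x => q t x • W t x) x
      = Transp.tq (fun p : ℝ × E => q p.1 p.2) (fun p : ℝ × E => W p.1 p.2) (t, x) := by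
    intro x
    have hqd := Transp.differentiableAt_of_slab hI (by simp) hq ht x
    have hWd := Transp.differentiableAt_of_slab hI (by simp) hW ht x
    have h3 : deriv (fun s => q s x) t = Transp.dt (fun p : ℝ × E => q p.1 p.2) (t, x) :=
      (Transp.hasDerivAt_time hqd).deriv
    have h4 : HasFDerivAt (fun x => q t x • W t x)
        (Transp.dx (fun p : ℝ × E => q p.1 p.2 • W p.1 p.2) (t, x)) x :=
      Transp.hasFDerivAt_slice (hqd.smul hWd)
    rw [h3, Transp.divE_eq, h4.fderiv]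
    rfl
  simp_rw [h2]
  exact h1

end

end Pool.Agent.Work.MP_3b24f6_gt
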