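import Pool.Agent.Work.MP_3b24f6_gt.VarC
import Pool.Agent.Work.MP_3b24f6_gt.CalcN

/-!
# Block N, pointwise part: time derivative of the unit normal
-/

set_option autoImplicit false
set_option linter.unusedSectionVars false
set_option linter.unusedVariables false

open MeasureTheory Set Filter Topology
open scoped ContDiff InnerProductSpace

namespace Pool.Agent.Work.MP_3b24f6_gt

noncomputable section

variable {E : Type*} [NormedAddCommGroup E] [InnerProductSpace ℝ E] [FiniteDimensional ℝ E]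

namespace Var

theorem wt_zero (w φ ψ : E → ℝ) (σ : ℝ) : wt w φ ψ σ 0 = w := by
  funext z; simp [wt]

theorem hasDerivAt_wt (w φ ψ : E → ℝ) (σ t : ℝ) (z : E) :
    HasDerivAt (fun s => wt w φ ψ σ s z) (-(φ z + 2 * σ * t * ψ z)) t := by
  have h1 : HasDerivAt (fun s : ℝ => s * φ z) (1 * φ z) t := (hasDerivAt_id t).mul_const _
  have h2 : HasDerivAt (fun s : ℝ => σ * s ^ 2 * ψ z) (σ * (((2 : ℕ) : ℝ) * t ^ (2 - 1) * 1) * ψ z)
      t := (((hasDerivAt_id t).pow 2).const_mul σ).mul_const _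
  have h3 := ((hasDerivAt_const t (w z)).sub h1).sub h2
  refine h3.congr_deriv ?_
  simp only [Nat.add_one_sub_one, pow_one, Nat.cast_ofNat]
  ring

theorem deriv_wt (w φ ψ : E → ℝ) (σ t : ℝ) (z : E) :
    deriv (fun s => wt w φ ψ σ s z) t = -(φ z + 2 * σ * t * ψ z) :=
  (hasDerivAt_wt w φ ψ σ t z).deriv

theorem fderiv_add_mul {φ ψ : E → ℝ} (hφ : ContDiff ℝ ∞ φ) (hψ : ContDiff ℝ ∞ ψ) (c : ℝ) (x : E) :
    fderiv ℝ (fun y => φ y + c * ψ y) x = fderiv ℝ φ x + c • fderiv ℝ ψ x := by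
  have h2 : HasFDerivAt φ (fderiv ℝ φ x) x := (hφ.differentiable (by simp) x).hasFDerivAt
  have h3 : HasFDerivAt ψ (fderiv ℝ ψ x) x := (hψ.differentiable (by simp) x).hasFDerivAt
  exact (h2.add (h3.const_mul c)).fderiv

/-- gradient of the variation at a fixed point -/
theorem hasDerivAt_gradient_wt {w φ ψ : E → ℝ} (hw : ContDiff ℝ ∞ w) (hφ : ContDiff ℝ ∞ φ)
    (hψ : ContDiff ℝ ∞ ψ) (σ t : ℝ) (x : E) :
    HasDerivAt (fun s => gradient (wt w φ ψ σ s) x)
      (-gradient (fun y => φ y + 2 * σ * t * ψ y) x) t := by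
  have h0 : (fun s => gradient (wt w φ ψ σ s) x)
      = fun s => gradient w x - s • gradient φ x - (σ * s ^ 2) • gradient ψ x := by
    funext s
    unfold gradient
    rw [fderiv_wt hw hφ hψ, map_sub, map_sub, map_smul, map_smul]
  rw [h0]
  have h1 : HasDerivAt (fun s : ℝ => s • gradient φ x) ((1 : ℝ) • gradient φ x) t :=
    (hasDerivAt_id t).smul_const _
  have h2 : HasDerivAt (fun s : ℝ => (σ * s ^ 2) • gradient ψ x)
      ((σ * (((2 : ℕ) : ℝ) * t ^ (2 - 1) * 1)) • gradient ψ x) t :=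
    (((hasDerivAt_id t).pow 2).const_mul σ).smul_const _
  have h3 := ((hasDerivAt_const t (gradient w x)).sub h1).sub h2
  refine h3.congr_deriv ?_
  have h4 : gradient (fun y => φ y + 2 * σ * t * ψ y) x
      = gradient φ x + (2 * σ * t) • gradient ψ x := by
    unfold gradient
    rw [fderiv_add_mul hφ hψ, map_add, map_smul]
  rw [h4]
  simp only [Nat.add_one_sub_one, pow_one, Nat.cast_ofNat, one_smul, mul_one, zero_sub]
  have h5 : σ * (2 * t) = 2 * σ * t := by ring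
  rw [h5]
  abel

theorem hasDerivAt_nrm_wt (G : Geo E) {w φ ψ : E → ℝ} (hw : ContDiff ℝ ∞ w)
    (hφ : ContDiff ℝ ∞ φ) (hψ : ContDiff ℝ ∞ ψ) {σ t : ℝ} {x : E}
    (hx : fderiv ℝ (wt w φ ψ σ t) x ≠ 0) :
    HasDerivAt (fun s => G.nrm (wt w φ ψ σ s) x) (Ndot G (wt w φ ψ σ t)
      (fun y => φ y + 2 * σ * t * ψ y) x) t := by
  set Φ : E → ℝ := fun y => φ y + 2 * σ * t * ψ y with hΦ
  set W : ℝ → E → ℝ := fun s => wt w φ ψ σ s with hW
  have hx' : fderiv ℝ (W t) x ≠ 0 := hx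
  have hgr := hasDerivAt_gradient_wt hw hφ hψ σ t x
  -- the Riemannian gradient
  have h1 : HasDerivAt (fun s => G.grad (W s) x) (-G.grad Φ x) t := by
    have h := (G.C x).hasFDerivAt.comp_hasDerivAt t hgr
    refine h.congr_deriv ?_
    rw [map_neg]
    rfl
  -- the squared norm
  have h2 : HasDerivAt (fun s => ⟪G.C x (gradient (W s) x), gradient (W s) x⟫_ℝ)
      (-2 * G.g x (G.grad Φ x) (G.grad (W t) x)) t := by
    have h := HasDerivAt.inner ℝ h1 hgr
    refine h.congr_deriv ?_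
    have e1 : ⟪G.grad (W t) x, -gradient Φ x⟫_ℝ = - G.g x (G.grad Φ x) (G.grad (W t) x) := by
      rw [inner_neg_right, CN.geo_g_grad, ← CN.geo_inner_gradient, real_inner_comm]
    have e2 : ⟪-G.grad Φ x, gradient (W t) x⟫_ℝ = - G.g x (G.grad Φ x) (G.grad (W t) x) := by
      rw [inner_neg_left, CN.geo_g_symm, CN.geo_g_grad, ← CN.geo_inner_gradient, real_inner_comm]
    rw [e1]
    have e3 : ⟪-G.grad Φ x, gradient (wt w φ ψ σ t) x⟫_ℝ
      = - G.g x (G.grad Φ x) (G.grad (W t) x) := e2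
    rw [e3]
    ring
  have hpos : 0 < G.gn (W t) x := gn_pos G hx'
  have hne : ⟪G.C x (gradient (W t) x), gradient (W t) x⟫_ℝ ≠ 0 := by
    intro h0
    unfold Geo.gn at hpos
    rw [h0, Real.sqrt_zero] at hpos
    exact lt_irrefl _ hpos
  have h3 : HasDerivAt (fun s => G.gn (W s) x)
      (- G.g x (G.grad Φ x) (G.nrm (W t) x)) t := by
    have h := h2.sqrt hne
    refine h.congr_deriv ?_
    have e1 : Real.sqrt ⟪G.C x (gradient (W t) x), gradient (W t) x⟫_ℝ = G.gn (W t) x := rfl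
    rw [e1, CN.geo_grad_eq G x hx', CN.geo_g_smul_right]
    field_simp
  have h4 : HasDerivAt (fun s => (G.gn (W s) x)⁻¹)
      (-(- G.g x (G.grad Φ x) (G.nrm (W t) x)) / G.gn (W t) x ^ 2) t := h3.inv hpos.ne'
  have h5 := h4.smul h1
  have h6 : HasDerivAt (fun s => G.nrm (W s) x)
      ((G.gn (W t) x)⁻¹ • (-G.grad Φ x)
        + (-(- G.g x (G.grad Φ x) (G.nrm (W t) x)) / G.gn (W t) x ^ 2) • G.grad (W t) x) t := h5
  refine h6.congr_deriv ?_
  rw [CN.geo_grad_eq G x hx', smul_smul, Ndot, smul_neg, neg_smul, smul_sub, smul_smul, neg_sub]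
  have e : -(-G.g x (G.grad Φ x) (G.nrm (W t) x)) / G.gn (W t) x ^ 2 * G.gn (W t) x
      = (G.gn (W t) x)⁻¹ * G.g x (G.grad Φ x) (G.nrm (W t) x) := by
    field_simp
  rw [e]
  abel

section
variable (G : Geo E) {w φ ψ χ : E → ℝ} {σ t0 : ℝ} (D : Dat w φ ψ σ t0 χ)
include D

theorem Dat.hasDerivAt_nrm {t : ℝ} (ht : t ∈ Ioo (-t0) t0) {x : E} (hx : x ∈ tsupport χ) :
    HasDerivAt (fun s => G.nrm (wt w φ ψ σ s) x) (Ndot G (wt w φ ψ σ t)
      (fun y => φ y + 2 * σ * t * ψ y) x) t :=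
  hasDerivAt_nrm_wt G D.reg.smooth D.smooth_φ D.smooth_ψ (D.ne t ht x hx)

end

theorem fderiv_nrm (G : Geo E) {w : E → ℝ} {z : E} (hz : fderiv ℝ w z ≠ 0) :
    fderiv ℝ w z (G.nrm w z) = G.gn w z := by
  have h := CN.geo_g_nrm G z (G.nrm w z) (w := w)
  rw [g_nrm_nrm G hz] at h
  have hpos := gn_pos G hz
  field_simp at h
  linarith

theorem fderiv_Ndot (G : Geo E) {w : E → ℝ} {z : E} (hz : fderiv ℝ w z ≠ 0) (f : E → ℝ) :
    fderiv ℝ w z (Ndot G w f z) = 0 := by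
  have hpos := gn_pos G hz
  rw [Ndot, map_smul, map_sub, map_smul, fderiv_nrm G hz, CN.geo_g_symm, CN.geo_g_nrm,
    smul_eq_mul, smul_eq_mul, div_mul_cancel₀ _ hpos.ne', sub_self, mul_zero]

end Var

end

end Pool.Agent.Work.MP_3b24f6_gt
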