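import Mathlib

set_option autoImplicit false

namespace Pool.Agent.Work.MP_3b24f6_gt

noncomputable section

/-- The second order coefficient of the deformed perimeters, divided by `T = tanh² r`
(upper bound: two nonpositive terms are dropped). `H = m + w T`. -/
def GP (m w T y0 g Y : ℝ) : ℝ :=
  g * (1 - g) + y0 * (2 * (1 - T) * g - 4 * (g + T * Y)
      - 2 * g * ((m + w * T) * (1 - g) - T * (g + Y)))
    + y0 ^ 2 * ((2 * (m + w * T) * (2 * m + 2 * w * T - (m + 1) - (w - 1) * T)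
          + 4 * w * T * (1 - T)) / 2 * (1 - g)
        + (m + 1 + 2 + (w - 1) * T) * (g - Y)
        + ((1 + T) * (m + 1 + 2 + (w + 1) * T) - 2 * T * (1 - T)) * Y
        - 4 * (1 - T) * (g + T * Y) + (1 - T) ^ 2 * g + (1 - g) * (1 - T) * (m - w * T)
        - ((m + w * T) * (1 - g) - T * (g + Y)) ^ 2)

/-- Closed form, with `y = Y / g`. -/
theorem GP_closed (m w T y0 g y : ℝ) :
    GP m w T y0 g (y * g) = g * ((1 - (m + w * T) * y0) ^ 2
      + 2 * ((m + w * T) * y0) * T * (1 + y) * y0 - y0 * (2 + 2 * T + 4 * T * y)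
      + y0 ^ 2 * ((m + 1 + 2 + (w - 1) * T) * (1 - y)
          + ((1 + T) * (m + 1 + 2 + (w + 1) * T) - 2 * T * (1 - T)) * y
          - 4 * (1 - T) * (1 + T * y) + (1 - T) ^ 2)
      - g * (1 - (m + w * T + T * (1 + y)) * y0) ^ 2) := by
  unfold GP
  ring

theorem GP_le {m w T y0 g Y : ℝ} (hw : 1 ≤ w) (hN : 2 * (w + 1) ≤ m + 1)
    (hT0 : 0 ≤ T) (hT1 : T ≤ 1) (hy0 : 0 < y0) (hy1 : (m + 1) * y0 ≤ 1)
    (hy2 : 1 ≤ (m + 1 + (w - 1) * T) * y0) (hy3 : (m + w * T) * y0 ≤ 1)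
    (hY0 : 0 ≤ Y) (hYg : Y ≤ g) :
    GP m w T y0 g Y ≤ -((1 - T) / 2 * y0) * g := by
  have hg : 0 ≤ g := hY0.trans hYg
  rcases hg.eq_or_lt with h0 | hgpos
  · have hY : Y = 0 := le_antisymm (by linarith) hY0
    subst hY
    rw [← h0]
    unfold GP
    nlinarith
  obtain ⟨y, hy⟩ : ∃ y, Y = y * g := ⟨Y / g, by field_simp⟩
  have hyy0 : 0 ≤ y := by
    by_contra h
    push Not at h
    nlinarith
  have hyy1 : y ≤ 1 := by
    by_contra h
    push Not at h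
    nlinarith
  rw [hy, GP_closed]
  have key : (1 - (m + w * T) * y0) ^ 2
      + 2 * ((m + w * T) * y0) * T * (1 + y) * y0 - y0 * (2 + 2 * T + 4 * T * y)
      + y0 ^ 2 * ((m + 1 + 2 + (w - 1) * T) * (1 - y)
          + ((1 + T) * (m + 1 + 2 + (w + 1) * T) - 2 * T * (1 - T)) * y
          - 4 * (1 - T) * (1 + T * y) + (1 - T) ^ 2) ≤ -((1 - T) / 2 * y0) := by
    have e1 : (1 - (m + w * T) * y0) ^ 2 ≤ (1 - T) ^ 2 * y0 ^ 2 := by
      have h1 : 0 ≤ 1 - (m + w * T) * y0 := by linarith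
      have h2 : 1 - (m + w * T) * y0 ≤ (1 - T) * y0 := by nlinarith
      calc (1 - (m + w * T) * y0) ^ 2 ≤ ((1 - T) * y0) ^ 2 := by gcongr
        _ = _ := by ring
    have e2 : 2 * ((m + w * T) * y0) * T * (1 + y) * y0 ≤ 2 * T * (1 + y) * y0 := by
      have h1 : 0 ≤ T * (1 + y) * y0 := by positivity
      nlinarith
    -- the bracket after adding `(1-T)^2`
    have e3 : (m + 1 + 2 + (w - 1) * T) * (1 - y)
          + ((1 + T) * (m + 1 + 2 + (w + 1) * T) - 2 * T * (1 - T)) * y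
          - 4 * (1 - T) * (1 + T * y) + (1 - T) ^ 2 + (1 - T) ^ 2
        = (1 - y) * (m + 1 + (w - 1) * T + 2 * T ^ 2)
          + y * (m + 1 + (m + 1 + w - 3) * T + (w + 9) * T ^ 2) := by ring
    have hTT : T ^ 2 ≤ T := by nlinarith
    have f1 : y0 * (m + 1 + (w - 1) * T + 2 * T ^ 2) ≤ 3 / 2 := by
      have : m + 1 + (w - 1) * T + 2 * T ^ 2 ≤ 3 / 2 * (m + 1) := by nlinarith
      calc y0 * (m + 1 + (w - 1) * T + 2 * T ^ 2) ≤ y0 * (3 / 2 * (m + 1)) := by gcongr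
        _ = 3 / 2 * ((m + 1) * y0) := by ring
        _ ≤ 3 / 2 := by linarith
    have f2 : y0 * (m + 1 + (m + 1 + w - 3) * T + (w + 9) * T ^ 2) ≤ 1 + 3 * T := by
      have : m + 1 + (m + 1 + w - 3) * T + (w + 9) * T ^ 2 ≤ (1 + 3 * T) * (m + 1) := by
        nlinarith
      calc y0 * (m + 1 + (m + 1 + w - 3) * T + (w + 9) * T ^ 2)
          ≤ y0 * ((1 + 3 * T) * (m + 1)) := by gcongr
        _ = (1 + 3 * T) * ((m + 1) * y0) := by ring
        _ ≤ (1 + 3 * T) * 1 := by gcongr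
        _ = _ := by ring
    have f3 : y0 * ((m + 1 + 2 + (w - 1) * T) * (1 - y)
          + ((1 + T) * (m + 1 + 2 + (w + 1) * T) - 2 * T * (1 - T)) * y
          - 4 * (1 - T) * (1 + T * y) + (1 - T) ^ 2 + (1 - T) ^ 2)
        ≤ (1 - y) * (3 / 2) + y * (1 + 3 * T) := by
      rw [e3]
      have g1 := mul_le_mul_of_nonneg_left f1 (sub_nonneg.2 hyy1)
      have g2 := mul_le_mul_of_nonneg_left f2 hyy0
      linarith
    have f4 := mul_le_mul_of_nonneg_left f3 hy0.le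
    have f5 : y0 * ((1 - y) * (3 / 2) + y * (1 + 3 * T) + 2 * T * (1 + y) - (2 + 2 * T + 4 * T * y)
        + (1 - T) / 2) ≤ 0 := by
      have : (1 - y) * (3 / 2) + y * (1 + 3 * T) + 2 * T * (1 + y) - (2 + 2 * T + 4 * T * y)
        + (1 - T) / 2 ≤ 0 := by nlinarith
      nlinarith
    nlinarith
  have h2 : 0 ≤ g * (1 - (m + w * T + T * (1 + y)) * y0) ^ 2 := by positivity
  have h3 := mul_le_mul_of_nonneg_left key hg
  nlinarith

end

end Pool.Agent.Work.MP_3b24f6_gt
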